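import Mathlib

/-! The Erdos-Rado partition theorem for pairs, by the ramification argument. -/

namespace Pool.Agent.H26.ErdosRado

open Cardinal Set

universe u

lemma mk_Iio_lt {κ : Cardinal.{u}} (i : κ.ord.ToType) : #(Iio i) < κ :=
  Cardinal.mk_Iio_toType_ord_lt i

/-- end-homogeneous sequences -/
theorem end_homog {X C I : Type u} [LinearOrder I] [WellFoundedLT I]
    (hX : #(Σ i : I, (Iio i → C)) < #X) (c : X → X → C) :
    ∃ (f : I → X) (x : X), Function.Injective f ∧ (∀ i, f i ≠ x) ∧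
      ∀ j i, j < i → c (f j) (f i) = c (f j) x := by
  classical
  have hne : Nonempty X := by
    rw [← Cardinal.mk_ne_zero_iff]
    exact (lt_of_le_of_lt bot_le hX).ne'
  let pick : Set X → X := fun s => if h : s.Nonempty then h.choose else Classical.arbitrary X
  have hpick : ∀ s : Set X, s.Nonempty → pick s ∈ s := fun s h => by
    simp only [pick, dif_pos h]; exact h.choose_spec
  let a : X → I → X := fun x => (wellFounded_lt (α := I)).fix fun i ih =>
    pick {y | ∀ j (h : j < i), y ≠ ih j h ∧ c (ih j h) y = c (ih j h) x}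
  have ha : ∀ x i, a x i = pick {y | ∀ j, j < i → y ≠ a x j ∧ c (a x j) y = c (a x j) x} :=
    fun x i => (wellFounded_lt (α := I)).fix_eq _ i
  by_cases hit : ∀ x, ∃ i, a x i = x
  · exfalso
    choose idx hidx using hit
    refine hX.not_ge (Cardinal.mk_le_of_injective
      (f := fun x => (⟨idx x, fun j => c (a x j) x⟩ : Σ i : I, (Iio i → C))) ?_)
    intro x x' e
    have e1 : idx x = idx x' := congrArg Sigma.fst e
    have e2 : ∀ j, j < idx x → c (a x j) x = c (a x' j) x' := by
      intro j hj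
      have key : ∀ (s t : Σ i : I, (Iio i → C)), s = t → ∀ (h : j < s.1) (h' : j < t.1),
          s.2 ⟨j, h⟩ = t.2 ⟨j, h'⟩ := by
        rintro s t rfl h h'; rfl
      exact key _ _ e hj (lt_of_lt_of_eq hj e1)
    have e3 : ∀ j, j ≤ idx x → a x j = a x' j := by
      intro j
      induction j using WellFoundedLT.induction with
      | ind j ih =>
        intro hj
        rw [ha, ha]
        congr 1
        ext y
        simp only [mem_ofPred_eq]
        refine forall₂_congr fun l hl => ?_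
        rw [e2 l (hl.trans_le hj), ih l hl (hl.le.trans hj)]
    rw [← hidx x, ← hidx x', e3 _ le_rfl, e1]
  · push Not at hit
    obtain ⟨x, hx⟩ := hit
    have key : ∀ i j, j < i → a x i ≠ a x j ∧ c (a x j) (a x i) = c (a x j) x := by
      intro i
      have := hpick {y | ∀ j, j < i → y ≠ a x j ∧ c (a x j) y = c (a x j) x}
        ⟨x, fun j _ => ⟨(hx j).symm, rfl⟩⟩
      rw [← ha] at this
      exact this
    refine ⟨a x, x, fun i j e => ?_, hx, fun j i h => (key i j h).2⟩
    rcases lt_trichotomy i j with h | h | h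
    · exact ((key j i h).1 e.symm).elim
    · exact h
    · exact ((key i j h).1 e).elim

lemma mk_codes_le {κ ν : Cardinal.{u}} {C : Type u} (hν : ℵ₀ ≤ ν) (hκ : κ ≤ ν)
    (h : ∀ θ < κ, #C ^ θ ≤ ν) : #(Σ i : κ.ord.ToType, (Iio i → C)) ≤ ν := by
  rw [Cardinal.mk_sigma]
  refine (Cardinal.sum_le_sum _ (fun _ => ν) fun i => ?_).trans ?_
  · rw [← Cardinal.power_def]
    exact h _ (mk_Iio_lt i)
  · rw [Cardinal.sum_const', Cardinal.mk_ord_toType]
    exact (mul_le_mul_left hκ ν).trans (Cardinal.mul_eq_self hν).le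

theorem erdos_rado {X C : Type u} {ν : Cardinal.{u}} (hν : ℵ₀ ≤ ν) (hC : #C ≤ ν)
    (hX : 2 ^ ν < #X) (c : X → X → C) :
    ∃ (T : Set (Order.succ ν).ord.ToType) (f : (Order.succ ν).ord.ToType → X) (d : C),
      Order.succ ν ≤ #T ∧ Function.Injective f ∧
      ∀ j ∈ T, ∀ i, j < i → c (f j) (f i) = d := by
  have h2 : ℵ₀ ≤ 2 ^ ν := hν.trans (Cardinal.cantor ν).le
  have h1 : #(Σ i : (Order.succ ν).ord.ToType, (Iio i → C)) ≤ 2 ^ ν := by
    refine mk_codes_le h2 (Order.succ_le_of_lt (Cardinal.cantor ν)) fun θ hθ => ?_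
    have hθ' : θ ≤ ν := Order.lt_succ_iff.1 hθ
    calc #C ^ θ ≤ (2 ^ ν) ^ θ := Cardinal.power_le_power_right (hC.trans (Cardinal.cantor ν).le)
      _ ≤ (2 ^ ν) ^ ν := Cardinal.power_le_power_left (Cardinal.power_ne_zero _ two_ne_zero) hθ'
      _ = 2 ^ ν := by rw [← Cardinal.power_mul, Cardinal.mul_eq_self hν]
  obtain ⟨f, x, hf, -, hc⟩ := end_homog (h1.trans_lt hX) c
  obtain ⟨d, hd⟩ := Cardinal.infinite_pigeonhole_card (fun j => c (f j) x) (Order.succ ν)
    (by rw [Cardinal.mk_ord_toType]) (hν.trans (Order.le_succ ν))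
    (by rw [(Cardinal.isRegular_succ hν).cof_ord]; exact Order.lt_succ_of_le hC)
  exact ⟨_, f, d, hd, hf, fun j hj i h => (hc j i h).trans hj⟩

end Pool.Agent.H26.ErdosRado
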