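import Mathlib

/-! The disjoint union of finite chains of all lengths. -/

namespace Pool.Agent.H26.AKk

@[ext] structure Q where
  n : ℕ
  i : ℕ
  h : i ≤ n

instance : PartialOrder Q where
  le u v := u.n = v.n ∧ u.i ≤ v.i
  le_refl u := ⟨rfl, le_rfl⟩
  le_trans u v w h h' := ⟨h.1.trans h'.1, h.2.trans h'.2⟩
  le_antisymm u v h h' := Q.ext h.1 (le_antisymm h.2 h'.2)

instance : Countable Q :=
  Function.Injective.countable (f := fun q : Q => (q.n, q.i))
    (fun a b h => Q.ext (congrArg Prod.fst h) (congrArg Prod.snd h))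

lemma chain_finite {C : Set Q} (hC : IsChain (· ≤ ·) C) : C.Finite := by
  rcases C.eq_empty_or_nonempty with rfl | ⟨u, hu⟩
  · exact Set.finite_empty
  have hn : ∀ v ∈ C, v.n = u.n := fun v hv => by
    rcases hC.total hv hu with h | h
    · exact h.1
    · exact h.1.symm
  refine Set.Finite.of_finite_image (f := Q.i) ((Set.finite_Iic u.n).subset ?_) ?_
  · rintro _ ⟨v, hv, rfl⟩
    exact hn v hv ▸ v.h
  · intro a ha b hb h
    exact Q.ext ((hn a ha).trans (hn b hb).symm) h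

theorem no_AK (k : ℕ) (hk : 1 ≤ k) (C : Fin k → Set Q) (hC : ∀ j, IsChain (· ≤ ·) (C j))
    (g : Q → ℕ) (hg : ∀ i : ℕ, IsAntichain (· ≤ ·) {x | g x = i} ∧
      min (Set.encard {x | g x = i}) (k : ℕ∞) ≤
        Set.encard {j : Fin k | (C j ∩ {x | g x = i}).Nonempty}) : False := by
  have hS : (g '' ⋃ j, C j).Finite := (Set.finite_iUnion fun j => chain_finite (hC j)).image g
  set N := (g '' ⋃ j, C j).ncard with hN
  let φ : Fin (N + 1) → Q := fun i => ⟨N, i, Nat.lt_succ_iff.1 i.2⟩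
  have hinj : Function.Injective (g ∘ φ) := by
    intro a b hab
    by_contra hne
    have hne' : φ a ≠ φ b := fun h => hne (Fin.ext (congrArg Q.i h))
    rcases le_total (a : ℕ) b with h | h
    · exact (hg (g (φ b))).1 (show φ a ∈ {x | g x = g (φ b)} from hab)
        (show φ b ∈ {x | g x = g (φ b)} from rfl) hne' ⟨rfl, h⟩
    · exact (hg (g (φ b))).1 (show φ b ∈ {x | g x = g (φ b)} from rfl)
        (show φ a ∈ {x | g x = g (φ b)} from hab) hne'.symm ⟨rfl, h⟩
  have hsub : Set.range (g ∘ φ) ⊆ g '' ⋃ j, C j := by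
    rintro _ ⟨a, rfl⟩
    have h1 := (hg (g (φ a))).2
    have h2 : (1 : ℕ∞) ≤ min (Set.encard {x | g x = g (φ a)}) (k : ℕ∞) :=
      le_min (Set.one_le_encard_iff_nonempty.2 ⟨φ a, rfl⟩) (by exact_mod_cast hk)
    obtain ⟨j, x, hx, hx'⟩ := Set.one_le_encard_iff_nonempty.1 (h2.trans h1)
    exact ⟨x, Set.mem_iUnion.2 ⟨j, hx⟩, hx'⟩
  have := Set.ncard_le_ncard hsub hS
  rw [Set.ncard_range_of_injective hinj] at this
  simp only [Nat.card_eq_fintype_card, Fintype.card_fin] at this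
  omega

end Pool.Agent.H26.AKk
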