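import Mathlib

set_option autoImplicit false

open Cardinal Set

namespace H26.Babai

theorem iUnion_le {V ι : Type} (c : Cardinal.{0}) (hc : ℵ₀ ≤ c) (f : ι → Set V) (hι : #ι ≤ c)
    (hf : ∀ i, #(f i) ≤ c) : #(⋃ i, f i) ≤ c := by
  refine (mk_iUnion_le f).trans ?_
  have : (⨆ i, #(f i)) ≤ c := ciSup_le' hf
  exact (mul_le_mul' hι this).trans (mul_eq_self hc).le

theorem union_le {V : Type} {c : Cardinal.{0}} (hc : ℵ₀ ≤ c) {A B : Set V} (hA : #A ≤ c)
    (hB : #B ≤ c) : #(A ∪ B : Set V) ≤ c :=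
  (mk_union_le A B).trans ((add_le_add hA hB).trans (add_eq_self hc).le)

/-- evaluation of closure terms -/
def ev {V A K : Type} (e : Set V → A → Option V) :
    WType (fun a : Option A => Option.casesOn (motive := fun _ => Type) a Empty (fun _ => K)) →
      Option V
  | ⟨none, _⟩ => none
  | ⟨some i, c⟩ => e {v | ∃ k, ev e (c k) = some v} i

theorem closure {V : Type} (κ ρ : Cardinal.{0}) (hρ : ℵ₀ ≤ ρ) (hp : ρ ^ κ ≤ ρ)
    (F : Set V → Set V) (hF : ∀ S : Set V, #S ≤ κ → #(F S) ≤ ρ) :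
    ∃ M : Set V, #M ≤ ρ ∧ ∀ S ⊆ M, #S ≤ κ → F S ⊆ M := by
  classical
  have h1 : ∀ S : Set V, ∃ e : ρ.out → Option V, #S ≤ κ → ∀ v ∈ F S, ∃ i, e i = some v := by
    intro S
    by_cases hS : #S ≤ κ
    · obtain ⟨j⟩ : Nonempty (F S ↪ ρ.out) := by
        rw [← Cardinal.le_def, mk_out]; exact hF S hS
      refine ⟨Function.extend j (fun v => some v.1) (fun _ => none), fun _ v hv => ⟨j ⟨v, hv⟩, ?_⟩⟩
      rw [j.injective.extend_apply]
    · exact ⟨fun _ => none, fun h => absurd h hS⟩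
  choose e he using h1
  let β : Option ρ.out → Type :=
    fun a => Option.casesOn (motive := fun _ => Type) a Empty (fun _ => κ.out)
  have hW : #(WType β) ≤ ρ := by
    apply WType.cardinalMk_le_of_le
    refine (sum_le_mk_mul_iSup _).trans ?_
    have h2 : #(Option ρ.out) ≤ ρ := by
      rw [mk_option, mk_out, add_one_eq hρ]
    have h3 : (⨆ a : Option ρ.out, ρ ^ #(β a)) ≤ ρ := by
      refine ciSup_le' fun a => ?_
      cases a with
      | none =>
        show ρ ^ #Empty ≤ ρ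
        simp only [mk_eq_zero, power_zero]
        exact one_le_aleph0.trans hρ
      | some i =>
        show ρ ^ #κ.out ≤ ρ
        rwa [mk_out]
    exact (mul_le_mul' h2 h3).trans (mul_eq_self hρ).le
  refine ⟨{v | ∃ t : WType β, ev e t = some v}, ?_, fun S hS hSκ v hv => ?_⟩
  · refine le_trans ?_ hW
    refine mk_le_of_injective (f := fun v => v.2.choose) fun v w h => ?_
    have h1 := v.2.choose_spec
    have h2 := w.2.choose_spec
    have h' : v.2.choose = w.2.choose := h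
    rw [h'] at h1
    exact Subtype.ext (Option.some.inj (h1.symm.trans h2))
  · obtain ⟨j⟩ : Nonempty (S ↪ κ.out) := by
      rw [← Cardinal.le_def, mk_out]; exact hSκ
    choose t ht using fun s : S => hS s.2
    let c : κ.out → WType β := Function.extend j t (fun _ => ⟨none, fun x => x.elim⟩)
    have hc : {v | ∃ k, ev e (c k) = some v} = S := by
      ext w
      constructor
      · rintro ⟨k, hk⟩
        by_cases h : ∃ s, j s = k
        · obtain ⟨s, rfl⟩ := h
          simp only [c, j.injective.extend_apply, ht] at hk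
          exact Option.some.inj hk ▸ s.2
        · simp only [c, Function.extend_apply' _ _ _ h, ev] at hk
          cases hk
      · intro hw
        exact ⟨j ⟨w, hw⟩, by simp only [c, j.injective.extend_apply, ht]⟩
    obtain ⟨i, hi⟩ := he S hSκ v hv
    refine ⟨⟨some i, c⟩, ?_⟩
    show e {v | ∃ k, ev e (c k) = some v} i = some v
    rw [hc, hi]

theorem sel {V I : Type} (κ : Cardinal.{0}) (hκ : ℵ₀ ≤ κ) (hI : #I ≤ κ) (P : I → Set V → Prop)
    (h : ∀ i (Z : Set V), #Z ≤ κ → ∃ Q, P i Q ∧ #Q ≤ κ ∧ Disjoint Q Z) :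
    ∃ Q : I → Set V, (∀ i, P i (Q i)) ∧ ∀ i j, i ≠ j → Disjoint (Q i) (Q j) := by
  obtain ⟨A, hA⟩ := zorn_subset {A : Set (I × Set V) | (∀ p ∈ A, P p.1 p.2 ∧ #p.2 ≤ κ) ∧
      A.Pairwise (fun p q => p.1 ≠ q.1 ∧ Disjoint p.2 q.2)} (by
    intro c hc hch
    refine ⟨⋃₀ c, ⟨?_, ?_⟩, fun s hs => subset_sUnion_of_mem hs⟩
    · rintro p ⟨a, ha, hp⟩
      exact (hc ha).1 p hp
    · rintro p ⟨a, ha, hp⟩ q ⟨b, hb, hq⟩ hpq
      rcases hch.total ha hb with h | h
      · exact (hc hb).2 (h hp) hq hpq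
      · exact (hc ha).2 hp (h hq) hpq)
  have hall : ∀ i, ∃ Q, (i, Q) ∈ A := by
    intro i
    by_contra hne
    push Not at hne
    have hAc : #A ≤ κ := by
      refine le_trans (mk_le_of_injective (f := fun p : A => p.1.1) fun p q hpq => ?_) hI
      by_contra hn
      exact (hA.prop.2 p.2 q.2 (fun h => hn (Subtype.ext h))).1 hpq
    obtain ⟨Q, hQ, hQc, hQd⟩ := h i (⋃ p : A, p.1.2) (iUnion_le κ hκ _ hAc fun p => (hA.prop.1 _ p.2).2)
    have : insert (i, Q) A ⊆ A := by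
      refine hA.2 ⟨?_, ?_⟩ (subset_insert _ _)
      · rintro p (rfl | hp)
        · exact ⟨hQ, hQc⟩
        · exact hA.prop.1 p hp
      · refine hA.prop.2.insert fun p hp _ => ?_
        have h1 : i ≠ p.1 := fun h => hne p.2 (h ▸ hp)
        have h2 : Disjoint Q p.2 := hQd.mono_right (subset_iUnion (fun p : A => p.1.2) ⟨p, hp⟩)
        exact ⟨⟨h1, h2⟩, h1.symm, h2.symm⟩
    exact hne Q (this (mem_insert _ _))
  choose Q hQ using hall
  exact ⟨Q, fun i => (hA.prop.1 _ (hQ i)).1, fun i j hij =>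
    (hA.prop.2 (hQ i) (hQ j) (fun h => hij (congrArg Prod.fst h))).2⟩

/-- the tower over `ρ` -/
noncomputable def tw (ρ : Cardinal.{0}) : ℕ → Cardinal.{0}
  | 0 => ρ
  | n + 1 => 2 ^ tw ρ n

noncomputable def lam (ρ : Cardinal.{0}) : Cardinal.{0} := Cardinal.sum (tw ρ)

theorem tw_mono (ρ : Cardinal.{0}) : StrictMono (tw ρ) :=
  strictMono_nat_of_lt_succ fun n => cantor (tw ρ n)

theorem tw_lt (ρ : Cardinal.{0}) (n : ℕ) : tw ρ n < lam ρ :=
  (tw_mono ρ (Nat.lt_succ_self n)).trans_le (le_sum (tw ρ) (n + 1))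

theorem tw_inf {ρ : Cardinal.{0}} (hρ : ℵ₀ ≤ ρ) (n : ℕ) : ℵ₀ ≤ tw ρ n :=
  hρ.trans ((tw_mono ρ).monotone (Nat.zero_le n))

theorem lt_lam {ρ c : Cardinal.{0}} (hρ : ℵ₀ ≤ ρ) (h : c < lam ρ) : ∃ n, c ≤ tw ρ n := by
  by_contra hn
  push Not at hn
  have hc : ℵ₀ ≤ c := (tw_inf hρ 0).trans (hn 0).le
  refine h.not_ge ((sum_le_mk_mul_iSup _).trans ?_)
  have : (⨆ n, tw ρ n) ≤ c := ciSup_le' fun n => (hn n).le
  refine (mul_le_mul' (b := c) ?_ this).trans (mul_eq_self hc).le
  simpa using hc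

section fam
variable {Γ ι : Type} [One Γ] (H : ι → Set Γ)

def Fam : Type := {f : ι → Γ // ∀ i, f i ∈ H i}

theorem fam_sub (h1 : ∀ i, (1 : Γ) ∈ H i) {J : Type} (e : J → ι) (he : Function.Injective e) :
    Cardinal.prod (fun j => #(H (e j))) ≤ #(Fam H) := by
  classical
  rw [← mk_pi]
  refine mk_le_of_injective
    (f := fun t => ⟨Function.extend e (fun j => (t j).1) (fun _ => 1), fun i => ?_⟩) ?_
  · by_cases h : ∃ j, e j = i
    · obtain ⟨j, rfl⟩ := h
      rw [he.extend_apply]; exact (t j).2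
    · rw [Function.extend_apply' _ _ _ h]; exact h1 i
  · intro t t' h
    funext j
    have := congrFun (congrArg Subtype.val h) (e j)
    simp only [he.extend_apply] at this
    exact Subtype.ext this

theorem konig (h1 : ∀ i, (1 : Γ) ∈ H i) {ρ : Cardinal.{0}} (hle : #(Fam H) ≤ lam ρ) (e : ℕ → ι)
    (he : Function.Injective e) (hb : ∀ n, tw ρ n < #(H (e n))) : False :=
  (sum_lt_prod _ _ hb).not_ge ((fam_sub H h1 e he).trans hle)

theorem big_finite (h1 : ∀ i, (1 : Γ) ∈ H i) {ρ : Cardinal.{0}} (hle : #(Fam H) ≤ lam ρ) :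
    {i | lam ρ ≤ #(H i)}.Finite := by
  by_contra hinf
  have hinf' : {i | lam ρ ≤ #(H i)}.Infinite := hinf
  let e := hinf'.natEmbedding
  exact konig H h1 hle (fun n => (e n).1) (Subtype.val_injective.comp e.injective)
    fun n => (tw_lt ρ n).trans_le (e n).2

theorem exists_big (h1 : ∀ i, (1 : Γ) ∈ H i) {ρ : Cardinal.{0}} (hρ : ℵ₀ ≤ ρ)
    (hle : #(Fam H) ≤ lam ρ) (hge : lam ρ ≤ #(Fam H)) : ∃ i, lam ρ ≤ #(H i) := by
  classical
  by_contra hn
  push Not at hn
  have hl : ∀ i, ∃ n, #(H i) ≤ tw ρ n := fun i => lt_lam hρ (hn i)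
  obtain ⟨n, hn'⟩ : ∃ n, ∀ i, #(H i) ≤ tw ρ n := by
    by_contra hb
    push Not at hb
    choose u hu using hb
    have hlt : ∀ n, n < Nat.find (hl (u n)) := fun n => by
      rw [Nat.lt_find_iff]
      intro m hm h
      exact (hu n).not_ge (h.trans ((tw_mono ρ).monotone hm))
    obtain ⟨φ, hφ, hφ'⟩ := Filter.strictMono_subseq_of_tendsto_atTop
      (u := fun n => Nat.find (hl (u n)))
      (Filter.tendsto_atTop_mono (fun n => (hlt n).le) Filter.tendsto_id)
    refine konig H h1 hle (fun n => u (φ n)) (fun a b hab => hφ'.injective ?_) fun n => ?_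
    · have hab' : u (φ a) = u (φ b) := hab
      simp only [Function.comp, hab']
    · exact ((tw_mono ρ).monotone (hφ.id_le n)).trans_lt (hu (φ n))
  let Y : Set ι := {i | 2 ≤ #(H i)}
  have hY : #Y < lam ρ := by
    refine (cantor _).trans_le (le_trans ?_ ((fam_sub H h1 (fun y : Y => y.1) Subtype.val_injective).trans hle))
    have : (2 : Cardinal.{0}) ^ #Y = Cardinal.prod (fun _ : Y => (2 : Cardinal.{0})) := by simp
    rw [this]
    exact prod_le_prod _ _ fun y => y.2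
  obtain ⟨k, hk⟩ := lt_lam hρ hY
  have h2 : #(Fam H) ≤ Cardinal.prod (fun y : Y => #(H y.1)) := by
    rw [← mk_pi]
    refine mk_le_of_injective (f := fun f y => ⟨f.1 y.1, f.2 y.1⟩) fun f g h => ?_
    refine Subtype.ext (funext fun i => ?_)
    by_cases hi : i ∈ Y
    · exact congrArg Subtype.val (congrFun h ⟨i, hi⟩)
    · by_contra hne
      exact hi (two_le_iff.mpr ⟨⟨_, f.2 i⟩, ⟨_, g.2 i⟩, fun h => hne (congrArg Subtype.val h)⟩)
  have h3 : Cardinal.prod (fun y : Y => #(H y.1)) ≤ tw ρ (max n k + 1) := by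
    have hm := tw_inf hρ (max n k)
    refine (prod_le_prod _ (fun _ : Y => tw ρ (max n k)) fun y : Y =>
      (hn' y.1).trans ((tw_mono ρ).monotone (le_max_left _ _))).trans ?_
    simp only [prod_const, lift_id]
    refine (power_le_power_left (aleph0_pos.trans_le hm).ne'
      (hk.trans ((tw_mono ρ).monotone (le_max_right n k)))).trans ?_
    exact (power_self_eq hm).le
  exact (tw_lt ρ _).not_ge (hge.trans (h2.trans h3))

end fam

end H26.Babai
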