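import Mathlib

/-! Blow-up argument: a linear bound on monochromatic edges gives the weighted bound. -/

namespace Pool.Agent.H26.LinBip

open Classical Finset

variable {V : Type} (G : SimpleGraph V)

noncomputable def D (φ : V → Bool) (T S : Finset V) : ℕ :=
  ∑ y ∈ S, ((S ∪ T).filter (fun x => G.Adj x y ∧ φ x = φ y)).card

def Rl (T : Finset V) (n : ℕ) (γ : (V → Bool) → ℕ) : Prop :=
  ∀ X : Finset V, ∃ S : Finset V, Disjoint S X ∧ S.card ≤ n ∧ ∀ φ, γ φ ≤ D G φ T S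

def Psi (T : Finset V) (n : ℕ) (γ : (V → Bool) → ℕ) (U : Finset V) : Prop :=
  ∀ X : Finset V, ∃ S : Finset V, Disjoint S X ∧ S.card ≤ n ∧ ∀ φ, γ φ ≤ D G φ T (S ∪ U)

def Clo (M : Set V) : Prop :=
  ∀ T : Finset V, (∀ x ∈ T, x ∈ M) → ∀ (n : ℕ) (γ : (V → Bool) → ℕ),
    (∀ φ φ', (∀ x ∈ T, φ x = φ' x) → γ φ = γ φ') →
    ∀ U : Finset V, (∀ x ∈ U, x ∉ M) → Psi G T n γ U → Rl G T (n + U.card) γ

theorem exists_cl : ∃ cl : Finset V → Set V, (∀ T, (cl T).Countable) ∧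
    ∀ M : Set V, (∀ T : Finset V, (∀ x ∈ T, x ∈ M) → cl T ⊆ M) → Clo G M := by
  let P : (T : Finset V) → ℕ × ℕ × ((T → Bool) → ℕ) → Finset V → Prop := fun T i X =>
    ∀ U : Finset V, U.card = i.2.1 → Psi G T i.1 (fun φ => i.2.2 (fun x => φ x)) U → ¬ Disjoint U X
  let Bk : (T : Finset V) → ℕ × ℕ × ((T → Bool) → ℕ) → Finset V := fun T i =>
    if h : ∃ X, P T i X then h.choose else ∅
  refine ⟨fun T => ⋃ i, (Bk T i : Set V), fun T =>
    Set.countable_iUnion fun i => (Bk T i).countable_toSet, fun M hM T hT n γ hγ U hU hP X => ?_⟩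
  let γ0 : (T → Bool) → ℕ := fun ψ => γ (fun x => if h : x ∈ T then ψ ⟨x, h⟩ else false)
  have e : (fun φ : V → Bool => γ0 (fun x => φ x)) = γ := by
    funext φ
    exact hγ _ _ fun x hx => by simp [hx]
  by_cases h : ∃ X, P T (n, U.card, γ0) X
  · exfalso
    have h1 := h.choose_spec U rfl (by simpa only [e] using hP)
    obtain ⟨x, hx, hx'⟩ := Finset.not_disjoint_iff.1 h1
    refine hU x hx (hM T hT (Set.mem_iUnion.2 ⟨(n, U.card, γ0), ?_⟩))
    simp only [Bk, dif_pos h]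
    exact hx'
  · have h1 : ¬ P T (n, U.card, γ0) X := fun h' => h ⟨X, h'⟩
    simp only [P, e] at h1
    push Not at h1
    obtain ⟨U', h2, h3, h4⟩ := h1
    obtain ⟨S, h5, h6, h7⟩ := h3 X
    exact ⟨S ∪ U', Finset.disjoint_union_left.2 ⟨h5, h4⟩,
      (Finset.card_union_le _ _).trans (by omega), h7⟩

variable {G}

theorem D_split (φ : V → Bool) {T T₁ T₂ S₁ S₂ : Finset V} (h : Disjoint S₁ S₂)
    (h1 : T₁ ⊆ S₁ ∪ S₂ ∪ T) (h2 : T₂ ⊆ S₁ ∪ S₂ ∪ T) :
    D G φ T₁ S₁ + D G φ T₂ S₂ ≤ D G φ T (S₁ ∪ S₂) := by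
  unfold D
  rw [Finset.sum_union h]
  refine Nat.add_le_add (Finset.sum_le_sum fun y _ => Finset.card_le_card
    (Finset.filter_subset_filter _ (Finset.union_subset ?_ h1)))
    (Finset.sum_le_sum fun y _ => Finset.card_le_card
    (Finset.filter_subset_filter _ (Finset.union_subset ?_ h2)))
  · exact fun x hx => by simp [hx]
  · exact fun x hx => by simp [hx]

theorem Rl.add {T : Finset V} {n n' : ℕ} {γ γ' : (V → Bool) → ℕ} (h : Rl G T n γ)
    (h' : Rl G T n' γ') : Rl G T (n + n') (fun φ => γ φ + γ' φ) := by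
  intro X
  obtain ⟨S, h1, h2, h3⟩ := h X
  obtain ⟨S', h4, h5, h6⟩ := h' (X ∪ S)
  rw [Finset.disjoint_union_right] at h4
  refine ⟨S ∪ S', Finset.disjoint_union_left.2 ⟨h1, h4.1⟩,
    (Finset.card_union_le _ _).trans (by omega), fun φ => ?_⟩
  exact (Nat.add_le_add (h3 φ) (h6 φ)).trans
    (D_split φ h4.2.symm Finset.subset_union_right Finset.subset_union_right)

theorem Rl.zero (T : Finset V) : Rl G T 0 (fun _ => 0) :=
  fun _ => ⟨∅, by simp, by simp, fun _ => Nat.zero_le _⟩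

theorem Rl.mono {T : Finset V} {n n' : ℕ} {γ γ' : (V → Bool) → ℕ} (h : Rl G T n γ)
    (hn : n ≤ n') (hγ : ∀ φ, γ' φ ≤ γ φ) : Rl G T n' γ' := by
  intro X
  obtain ⟨S, h1, h2, h3⟩ := h X
  exact ⟨S, h1, h2.trans hn, fun φ => (hγ φ).trans (h3 φ)⟩

theorem Rl.smul {T : Finset V} {n : ℕ} {γ : (V → Bool) → ℕ} (h : Rl G T n γ) :
    ∀ k : ℕ, Rl G T (k * n) (fun φ => k * γ φ)
  | 0 => by simpa using Rl.zero T
  | k + 1 => by simpa only [Nat.succ_mul] using (Rl.smul h k).add h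

theorem Rl.sum {T : Finset V} (n : V → ℕ) (γ : V → (V → Bool) → ℕ) (Y : Finset V)
    (h : ∀ y ∈ Y, Rl G T (n y) (γ y)) : Rl G T (∑ y ∈ Y, n y) (fun φ => ∑ y ∈ Y, γ y φ) := by
  induction Y using Finset.induction_on with
  | empty => simpa using Rl.zero T
  | insert y Y hy ih =>
    simp only [Finset.sum_insert hy]
    exact (h y (by simp)).add (ih fun z hz => h z (by simp [hz]))

variable (G) {O : Type} [LinearOrder O] (W : Set V) (r : V → O)

noncomputable def bk (F : Finset V) (ψ : V → Bool) (y : V) : ℕ :=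
  (F.filter (fun x => r x < r y ∧ G.Adj x y ∧ ψ x = ψ y)).card

noncomputable def GP (F P : Finset V) (a : V → ℕ) (φ : V → Bool) : ℕ :=
  sInf {m | ∃ ψ : V → Bool, (∀ x ∈ F \ P, ψ x = φ x) ∧ m = ∑ y ∈ P, a y * bk G r F ψ y}

noncomputable def cnt (T : Finset V) (φ : V → Bool) (y : V) (c : Bool) : ℕ :=
  (T.filter (fun x => G.Adj x y ∧ φ x = c)).card

theorem cnt_congr (T : Finset V) {φ ψ : V → Bool} (h : ∀ x ∈ T, φ x = ψ x) (y : V) (c : Bool) :
    cnt G T φ y c = cnt G T ψ y c := by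
  unfold cnt
  rw [Finset.filter_congr fun x hx => by rw [h x hx]]

theorem cnt_add (T Λ : Finset V) (φ : V → Bool) (y : V) (h : Λ ⊆ T) (h' : ∀ x ∈ Λ, G.Adj x y) :
    Λ.card ≤ cnt G T φ y false + cnt G T φ y true := by
  unfold cnt
  refine le_trans (Finset.card_le_card fun x hx => ?_) (Finset.card_union_le _ _)
  simp only [Finset.mem_union, Finset.mem_filter]
  cases hφ : φ x
  · exact Or.inl ⟨h hx, h' x hx, rfl⟩
  · exact Or.inr ⟨h hx, h' x hx, rfl⟩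

theorem inv (hcl : ∀ α, {x | x ∈ W ∧ r x < α}.Nonempty → Clo G {x | x ∈ W ∧ r x < α})
    (F : Finset V) (hF : ∀ y ∈ F, y ∈ W ∧ {x | (x ∈ W ∧ r x < r y) ∧ G.Adj x y}.Infinite)
    (a : V → ℕ) (ha : ∀ y, 1 ≤ a y) (B : ℕ) (P : Finset V) :
    P ⊆ F → (∀ x ∈ P, ∀ y ∈ F, r x ≤ r y → y ∈ P) →
    ∃ (T : Finset V) (N : ℕ), 0 < N ∧ F \ P ⊆ T ∧
      Rl G T (2 * (∑ y ∈ P, a y) * N) (fun φ => N * min B (GP G r F P a φ)) := by
  induction P using Finset.strongInduction with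
  | H P ih =>
  intro hPF hup
  rcases P.eq_empty_or_nonempty with rfl | hne
  · refine ⟨F, 1, one_pos, Finset.sdiff_subset, (Rl.zero F).mono (Nat.zero_le _) fun φ => ?_⟩
    have : GP G r F ∅ a φ ≤ 0 := Nat.sInf_le ⟨φ, fun _ _ => rfl, by simp⟩
    omega
  obtain ⟨y0, hy0, hmin⟩ := P.exists_min_image r hne
  set α := r y0 with hα
  set P0 := P.filter (fun y => α < r y) with hP0
  set Y := P.filter (fun y => ¬ α < r y) with hY
  have hYr : ∀ y ∈ Y, r y = α := fun y hy =>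
    le_antisymm (not_lt.1 (Finset.mem_filter.1 hy).2) (hmin y (Finset.mem_filter.1 hy).1)
  have hy0Y : y0 ∈ Y := Finset.mem_filter.2 ⟨hy0, lt_irrefl _⟩
  obtain ⟨T0, N0, hN0, hT0, hR0⟩ := ih P0
    (Finset.filter_ssubset.2 ⟨y0, hy0, lt_irrefl _⟩) ((Finset.filter_subset _ _).trans hPF)
    (fun x hx y hy h => Finset.mem_filter.2 ⟨hup x (Finset.mem_filter.1 hx).1 y hy h,
      (Finset.mem_filter.1 hx).2.trans_le h⟩)
  set M : Set V := {x | x ∈ W ∧ r x < α} with hM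
  have hC : Clo G M := by
    obtain ⟨x, hx⟩ := (hF y0 (hPF hy0)).2.nonempty
    exact hcl α ⟨x, hx.1⟩
  set U := T0.filter (fun x => x ∉ M) with hU
  set N := (U.card + 1) * N0 with hN
  have hNU : U.card ≤ N := by rw [hN]; nlinarith
  have hΛ : ∀ y, y ∈ Y → ∃ Λ : Finset V, (∀ x ∈ Λ, x ∈ M ∧ G.Adj x y) ∧ Λ.card = 2 * (N * B) := by
    intro y hy
    have := (hF y (hPF (Finset.mem_filter.1 hy).1)).2
    rw [hYr y hy] at this
    obtain ⟨Λ, h1, h2⟩ := this.exists_subset_card_eq (2 * (N * B))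
    exact ⟨Λ, fun x hx => h1 hx, h2⟩
  choose! Λ hΛ1 hΛ2 using hΛ
  set T1 := T0.filter (fun x => x ∈ M) ∪ Y.biUnion Λ with hT1
  have hT1M : ∀ x ∈ T1, x ∈ M := by
    intro x hx
    rcases Finset.mem_union.1 hx with h | h
    · exact (Finset.mem_filter.1 h).2
    · obtain ⟨y, hy, hx⟩ := Finset.mem_biUnion.1 h
      exact (hΛ1 y hy x hx).1
  have hFP0 : F \ P ⊆ F \ P0 := Finset.sdiff_subset_sdiff le_rfl (Finset.filter_subset _ _)
  have hFP : F \ P ⊆ T1 := by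
    intro x hx
    refine Finset.mem_union_left _ (Finset.mem_filter.2 ⟨hT0 (hFP0 hx), ?_⟩)
    obtain ⟨h1, h2⟩ := Finset.mem_sdiff.1 hx
    exact ⟨(hF x h1).1, not_le.1 fun h => h2 (hup y0 hy0 x h1 h)⟩
  have hYF : Y ⊆ F \ P0 := fun y hy => Finset.mem_sdiff.2 ⟨hPF (Finset.mem_filter.1 hy).1,
    fun h => (Finset.mem_filter.1 hy).2 (Finset.mem_filter.1 h).2⟩
  have hYM : ∀ y ∈ Y, y ∉ M := fun y hy h => (hYr y hy).not_lt h.2
  have hYU : Y ⊆ U := fun y hy => Finset.mem_filter.2 ⟨hT0 (hYF hy), hYM y hy⟩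
  let m : V → (V → Bool) → ℕ := fun y φ => min (cnt G T1 φ y false) (cnt G T1 φ y true)
  have hleaf : ∀ y ∈ Y, Rl G T1 1 (m y) := by
    intro y hy
    have := hC T1 hT1M 0 (m y) (fun φ φ' h => by
      simp only [m, cnt_congr G T1 h]) {y} (by simpa using hYM y hy) (fun X => ⟨∅, by simp, le_rfl,
        fun φ => ?_⟩)
    · simpa using this
    · simp only [D, Finset.empty_union, Finset.sum_singleton]
      have h1 : m y φ ≤ cnt G T1 φ y (φ y) := by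
        cases φ y
        · exact min_le_left _ _
        · exact min_le_right _ _
      exact h1.trans (Finset.card_le_card
        (Finset.filter_subset_filter _ Finset.subset_union_right))
  let γ1 : (V → Bool) → ℕ := fun φ => sInf {k | ∃ ψ : V → Bool, (∀ x ∈ T1, ψ x = φ x) ∧
    k = N * min B (GP G r F P0 a ψ) + ∑ y ∈ Y, cnt G T1 ψ y (ψ y)}
  have hcopy : Rl G T1 (2 * (∑ y ∈ P0, a y) * N + U.card) γ1 := by
    refine hC T1 hT1M _ γ1 (fun φ φ' h => ?_) U (fun x hx => (Finset.mem_filter.1 hx).2) fun X => ?_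
    · simp only [γ1]
      congr 1
      ext k
      constructor
      · rintro ⟨ψ, h1, h2⟩
        exact ⟨ψ, fun x hx => (h1 x hx).trans (h x hx), h2⟩
      · rintro ⟨ψ, h1, h2⟩
        exact ⟨ψ, fun x hx => (h1 x hx).trans (h x hx).symm, h2⟩
    · obtain ⟨S, h1, h2, h3⟩ := hR0.smul (U.card + 1) (X ∪ U)
      rw [Finset.disjoint_union_right] at h1
      refine ⟨S, h1.1, h2.trans (le_of_eq (by rw [hN]; ring)), fun φ => ?_⟩
      refine le_trans (Nat.sInf_le ⟨φ, fun _ _ => rfl, rfl⟩) (le_trans ?_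
        (D_split (T₁ := T0) (T₂ := T1) φ h1.2 (fun x hx => ?_) Finset.subset_union_right))
      · refine Nat.add_le_add (le_trans (le_of_eq (by rw [hN]; ring)) (h3 φ)) ?_
        refine le_trans (Finset.sum_le_sum fun y _ => ?_) (Finset.sum_le_sum_of_subset hYU)
        exact Finset.card_le_card (Finset.filter_subset_filter _ Finset.subset_union_right)
      · by_cases hx' : x ∈ M
        · exact Finset.mem_union_right _ (Finset.mem_union_left _ (Finset.mem_filter.2 ⟨hx, hx'⟩))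
        · exact Finset.mem_union_left _ (Finset.mem_union_right _ (Finset.mem_filter.2 ⟨hx, hx'⟩))
  have hsplit : ∀ f : V → ℕ, ∑ y ∈ P, f y = ∑ y ∈ P0, f y + ∑ y ∈ Y, f y := fun f =>
    (Finset.sum_filter_add_sum_filter_not P _ f).symm
  refine ⟨T1, N, by positivity, hFP, (hcopy.add (Rl.sum (fun y => (a y * N) * 1)
    (fun y φ => (a y * N) * m y φ) Y fun y hy => (hleaf y hy).smul _)).mono ?_ fun φ => ?_⟩
  · have h1 : 1 ≤ ∑ y ∈ Y, a y := (ha y0).trans (Finset.single_le_sum (fun _ _ => Nat.zero_le _) hy0Y)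
    simp only [mul_one, ← Finset.sum_mul]
    rw [hsplit a]
    nlinarith
  · obtain ⟨ψ, h1, h2⟩ : γ1 φ ∈ {k | ∃ ψ : V → Bool, (∀ x ∈ T1, ψ x = φ x) ∧
        k = N * min B (GP G r F P0 a ψ) + ∑ y ∈ Y, cnt G T1 ψ y (ψ y)} :=
      Nat.sInf_mem ⟨_, φ, fun _ _ => rfl, rfl⟩
    by_cases hb : ∃ y ∈ Y, m y φ < cnt G T1 ψ y (ψ y)
    · obtain ⟨y, hy, hb⟩ := hb
      have h3 := cnt_add G T1 (Λ y) φ y (fun x hx => Finset.mem_union_right _
        (Finset.mem_biUnion.2 ⟨y, hy, hx⟩)) (fun x hx => (hΛ1 y hy x hx).2)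
      rw [hΛ2 y hy] at h3
      have h4 : N * B ≤ cnt G T1 ψ y (ψ y) := by
        rw [cnt_congr G T1 h1] at hb ⊢
        simp only [m] at hb
        revert hb
        cases ψ y <;> intro hb <;> omega
      have h5 : cnt G T1 ψ y (ψ y) ≤ ∑ y ∈ Y, cnt G T1 ψ y (ψ y) :=
        Finset.single_le_sum (f := fun y => cnt G T1 ψ y (ψ y)) (fun _ _ => Nat.zero_le _) hy
      have h6 : N * min B (GP G r F P a φ) ≤ N * B := Nat.mul_le_mul_left _ (min_le_left _ _)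
      omega
    · push Not at hb
      obtain ⟨ψ', h3, h4⟩ : GP G r F P0 a ψ ∈ {m | ∃ ψ' : V → Bool, (∀ x ∈ F \ P0, ψ' x = ψ x) ∧
          m = ∑ y ∈ P0, a y * bk G r F ψ' y} := Nat.sInf_mem ⟨_, ψ, fun _ _ => rfl, rfl⟩
      have h5 : GP G r F P a φ ≤ ∑ y ∈ P, a y * bk G r F ψ' y :=
        Nat.sInf_le ⟨ψ', fun x hx => (h3 x (hFP0 hx)).trans (h1 x (hFP hx)), rfl⟩
      have h6 : ∑ y ∈ Y, a y * bk G r F ψ' y ≤ ∑ y ∈ Y, a y * m y φ := by
        refine Finset.sum_le_sum fun y hy => Nat.mul_le_mul_left _ (le_trans ?_ (hb y hy))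
        refine Finset.card_le_card fun x hx => ?_
        obtain ⟨k1, k2, k3, k4⟩ := Finset.mem_filter.1 hx
        have k5 : x ∈ F \ P := Finset.mem_sdiff.2 ⟨k1, fun h =>
          (hmin x h).not_gt (hYr y hy ▸ k2)⟩
        exact Finset.mem_filter.2 ⟨hFP k5, k3, by rw [← h3 x (hFP0 k5), k4, h3 y (hYF hy)]⟩
      have h7 : ∑ y ∈ Y, a y * N * m y φ = N * ∑ y ∈ Y, a y * m y φ := by
        rw [Finset.mul_sum]; exact Finset.sum_congr rfl fun _ _ => by ring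
      rw [hsplit, ← h4] at h5
      have h8 : min B (GP G r F P a φ) ≤ min B (GP G r F P0 a ψ) + ∑ y ∈ Y, a y * m y φ := by omega
      have h9 := Nat.mul_le_mul_left N h8
      rw [mul_add] at h9
      omega

theorem weighted (C : ℕ) (H : ∀ A : Finset V, ∃ φ, D G φ ∅ A ≤ C * A.card)
    (hcl : ∀ α, {x | x ∈ W ∧ r x < α}.Nonempty → Clo G {x | x ∈ W ∧ r x < α})
    (F : Finset V) (hF : ∀ y ∈ F, y ∈ W ∧ {x | (x ∈ W ∧ r x < r y) ∧ G.Adj x y}.Infinite)
    (a : V → ℕ) (ha : ∀ y, 1 ≤ a y) :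
    ∃ ψ : V → Bool, ∑ y ∈ F, a y * bk G r F ψ y ≤ 3 * C * ∑ y ∈ F, a y := by
  rcases F.eq_empty_or_nonempty with rfl | ⟨y0, hy0⟩
  · exact ⟨fun _ => true, by simp⟩
  set A := ∑ y ∈ F, a y with hA
  have h1 : 1 ≤ A := (ha y0).trans (Finset.single_le_sum (fun _ _ => Nat.zero_le _) hy0)
  obtain ⟨T, N, hN, -, hR⟩ := inv G W r hcl F hF a ha (3 * C * A + 1) F le_rfl (fun _ _ _ h _ => h)
  obtain ⟨S, h2, h3, h4⟩ := hR.smul (T.card + 1) T
  obtain ⟨φ, hφ⟩ := H (S ∪ T)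
  have h5 := D_split (G := G) (T := ∅) (T₁ := T) (T₂ := ∅) φ h2 (fun x hx => by simp [hx])
    (Finset.empty_subset _)
  have h6 : (T.card + 1) * (N * min (3 * C * A + 1) (GP G r F F a φ)) ≤ D G φ T S := h4 φ
  have h7 := Finset.card_union_le S T
  obtain ⟨ψ, -, h8⟩ : GP G r F F a φ ∈ {m | ∃ ψ' : V → Bool, (∀ x ∈ F \ F, ψ' x = φ x) ∧
      m = ∑ y ∈ F, a y * bk G r F ψ' y} := Nat.sInf_mem ⟨_, φ, fun _ _ => rfl, rfl⟩
  refine ⟨ψ, ?_⟩
  rw [← h8]
  by_contra hn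
  rw [min_eq_left (by omega)] at h6
  rw [← hA] at h3
  have h9 : T.card ≤ (T.card + 1) * N * A := by
    calc T.card ≤ (T.card + 1) * 1 * 1 := by omega
      _ ≤ _ := by gcongr; exact hN
  have h10 : (S ∪ T).card ≤ 3 * ((T.card + 1) * N * A) := by nlinarith
  have h11 := Nat.mul_le_mul_left C h10
  have h12 : 0 < (T.card + 1) * N := by positivity
  nlinarith

end Pool.Agent.H26.LinBip
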