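import Mathlib
import Pool.Agent.H26.LinBipA
import Pool.Agent.H26.BabaiA

/-! Minimax, compactness and a Stone-type colouring. -/

namespace Pool.Agent.H26.LinBip

open Classical Finset Cardinal

variable {V : Type}

def Q (V : Type) : Set (V → V → ℝ) :=
  {q | ∀ x y z, 0 ≤ q x y ∧ q x y ≤ 1 ∧ q x x = 1 ∧ q x y = q y x ∧
    1 ≤ q x y + q y z + q x z ∧ q x z ≤ q x y + (1 - q y z)}

theorem Q_closed : IsClosed (Q V) := by
  simp only [Q, Set.setOf_forall, Set.setOf_and]
  refine isClosed_iInter fun x => isClosed_iInter fun y => isClosed_iInter fun z => ?_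
  refine (isClosed_le (by fun_prop) (by fun_prop)).inter
    ((isClosed_le (by fun_prop) (by fun_prop)).inter
    ((isClosed_eq (by fun_prop) (by fun_prop)).inter
    ((isClosed_eq (by fun_prop) (by fun_prop)).inter
    ((isClosed_le (by fun_prop) (by fun_prop)).inter
    (isClosed_le (by fun_prop) (by fun_prop))))))

theorem Q_compact : IsCompact (Q V) := by
  refine (isCompact_univ_pi fun _ : V => isCompact_univ_pi fun _ : V =>
    isCompact_Icc (a := (0 : ℝ)) (b := 1)).of_isClosed_subset Q_closed ?_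
  intro q hq x _ y _
  exact ⟨(hq x y y).1, (hq x y y).2.1⟩

theorem Q_convex : Convex ℝ (Q V) := by
  intro q hq q' hq' s t hs ht hst x y z
  obtain ⟨a1, a2, a3, a4, a5, a6⟩ := hq x y z
  obtain ⟨b1, b2, b3, b4, b5, b6⟩ := hq' x y z
  simp only [Pi.add_apply, Pi.smul_apply, smul_eq_mul]
  refine ⟨by positivity, by nlinarith, by rw [a3, b3]; linarith, by rw [a4, b4], by nlinarith,
    by nlinarith⟩

theorem Q_cut (ψ : V → Bool) : (fun x y => if ψ x = ψ y then (1 : ℝ) else 0) ∈ Q V := by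
  intro x y z
  cases hx : ψ x <;> cases hy : ψ y <;> cases hz : ψ z <;> simp [hx, hy, hz] <;> norm_num

theorem minimax (F : Finset V) (nb : V → Finset V) (C : ℕ)
    (h : ∀ a : V → ℕ, (∀ y, 1 ≤ a y) → ∃ q ∈ Q V,
      ∑ y ∈ F, (a y : ℝ) * ∑ x ∈ nb y, q x y ≤ C * ∑ y ∈ F, (a y : ℝ)) :
    ∃ q ∈ Q V, ∀ y ∈ F, ∑ x ∈ nb y, q x y ≤ C := by
  let lin : (V → V → ℝ) → (F → ℝ) := fun q y => ∑ x ∈ nb y, q x y
  have hl : IsLinearMap ℝ lin :=
    ⟨fun q q' => by funext y; simp [lin, Finset.sum_add_distrib],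
      fun s q => by funext y; simp [lin, Finset.mul_sum]⟩
  have hc : Continuous lin := by
    refine continuous_pi fun y => continuous_finset_sum _ fun x _ => by fun_prop
  by_contra hn
  have hd : Disjoint (lin '' Q V) (Set.Iic (fun _ : F => (C : ℝ))) := by
    rw [Set.disjoint_left]
    rintro _ ⟨q, hq, rfl⟩ h'
    exact hn ⟨q, hq, fun y hy => h' ⟨y, hy⟩⟩
  obtain ⟨f, u, v, h1, h2, h3⟩ := geometric_hahn_banach_compact_closed
    (Q_convex.is_linear_image hl) (Q_compact.image hc) (convex_Iic _) isClosed_Iic hd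
  let w : F → ℝ := fun y => - f (fun j => if y = j then 1 else 0)
  have hf : ∀ d : F → ℝ, f d = - ∑ y, d y * w y := fun d => by
    have := LinearMap.pi_apply_eq_sum_univ (f : (F → ℝ) →ₗ[ℝ] ℝ) d
    simp only [ContinuousLinearMap.coe_coe, smul_eq_mul] at this
    rw [this]
    simp [w]
  have hC := h3 (fun _ => (C : ℝ)) (Set.mem_Iic.2 le_rfl)
  rw [hf, ← Finset.mul_sum] at hC
  have hw : ∀ y, 0 ≤ w y := by
    intro y
    by_contra hy
    push Not at hy
    set t := (-(C * ∑ y, w y) - v) / (-w y) with ht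
    have ht0 : 0 ≤ t := div_nonneg (by linarith) (by linarith)
    have h4 := h3 (fun j => (C : ℝ) - if y = j then t else 0) (fun j => by
      dsimp only; split_ifs <;> linarith)
    rw [hf] at h4
    simp only [sub_mul, Finset.sum_sub_distrib, ite_mul, zero_mul, Finset.sum_ite_eq,
      Finset.mem_univ, if_true, ← Finset.mul_sum] at h4
    have h5 : t * (-w y) = -(C * ∑ y, w y) - v := div_mul_cancel₀ _ (by linarith)
    linarith
  obtain ⟨n, hn'⟩ := exists_nat_gt ((C * F.card : ℝ) / (v - u))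
  rw [div_lt_iff₀ (by linarith)] at hn'
  let a : V → ℕ := fun y => if h : y ∈ F then ⌊n * w ⟨y, h⟩⌋₊ + 1 else 1
  obtain ⟨q, hq, h4⟩ := h a (fun y => by simp only [a]; split_ifs <;> omega)
  have h5 := h1 _ ⟨q, hq, rfl⟩
  rw [hf] at h5
  rw [← Finset.sum_coe_sort F, ← Finset.sum_coe_sort F] at h4
  have ha : ∀ y : F, (n : ℝ) * w y ≤ a y ∧ (a y : ℝ) ≤ n * w y + 1 := fun y => by
    simp only [a, dif_pos y.2]
    push_cast
    exact ⟨(Nat.lt_floor_add_one _).le,
      by linarith [Nat.floor_le (mul_nonneg (Nat.cast_nonneg n) (hw y))]⟩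
  have h6 : (n : ℝ) * ∑ y, lin q y * w y ≤ ∑ y : F, (a y : ℝ) * ∑ x ∈ nb y, q x y := by
    rw [Finset.mul_sum]
    refine Finset.sum_le_sum fun y _ => ?_
    have h7 : 0 ≤ lin q y := Finset.sum_nonneg fun x _ => (hq x y y).1
    calc (n : ℝ) * (lin q y * w y) = (n * w y) * lin q y := by ring
      _ ≤ _ := mul_le_mul_of_nonneg_right (ha y).1 h7
  have h7 : ∑ y : F, (a y : ℝ) ≤ n * ∑ y, w y + F.card := by
    calc _ ≤ ∑ y : F, ((n : ℝ) * w y + 1) := Finset.sum_le_sum fun y _ => (ha y).2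
      _ = _ := by simp [Finset.sum_add_distrib, Finset.mul_sum]
  have h8 := mul_le_mul_of_nonneg_left h7 (Nat.cast_nonneg (α := ℝ) C)
  have h9 := mul_le_mul_of_nonneg_left h5.le (Nat.cast_nonneg (α := ℝ) n)
  have h10 := mul_le_mul_of_nonneg_left hC.le (Nat.cast_nonneg (α := ℝ) n)
  nlinarith

theorem stone (q : V → V → ℝ) (hq : q ∈ Q V) : ∃ (c : V → ℕ × Bool) (δ : ℕ → ℝ),
    (∀ k, 0 < δ k) ∧ ∀ y y', c y = c y' → δ (c y).1 ≤ q y y' := by
  obtain ⟨_, _⟩ := exists_wellOrder V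
  let ρ : ℕ → ℝ := fun k => 1 / 4 - 1 / (8 * ((k : ℝ) + 1))
  have hρ : ∀ k, 0 < ρ k ∧ ρ k < 1 / 4 ∧ ρ k < ρ (k + 1) := fun k => by
    have h0 : (0 : ℝ) ≤ k := Nat.cast_nonneg k
    have h1 : 1 / (8 * ((k : ℝ) + 1)) ≤ 1 / 8 :=
      one_div_le_one_div_of_le (by norm_num) (by linarith)
    have h2 : 0 < 1 / (8 * ((k : ℝ) + 1)) := by positivity
    have h3 : 1 / (8 * (((k + 1 : ℕ) : ℝ) + 1)) < 1 / (8 * ((k : ℝ) + 1)) :=
      one_div_lt_one_div_of_lt (by positivity) (by push_cast; linarith)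
    simp only [ρ]
    exact ⟨by linarith, by linarith, by linarith⟩
  let g : V → V → ℝ := fun y i => min (q y i) (1 - q y i)
  have hne : ∀ k y, {i | g y i < ρ k}.Nonempty := fun k y =>
    ⟨y, (min_le_right (q y y) (1 - q y y)).trans_lt
      (by rw [(hq y y y).2.2.1]; simpa using (hρ k).1)⟩
  let idx : ℕ → V → V := fun k y => wellFounded_lt.min _ (hne k y)
  have h1 : ∀ k y, g y (idx k y) < ρ k := fun k y => wellFounded_lt.min_mem _ (hne k y)
  have h2 : ∀ k y i, g y i < ρ k → idx k y ≤ i := fun k y i h =>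
    not_lt.1 (wellFounded_lt.not_lt_min {i | g y i < ρ k} h)
  have h3 : ∀ y, ∃ k, idx k y ≤ idx (k + 1) y := fun y => by
    obtain ⟨_, ⟨k, rfl⟩, hk⟩ := wellFounded_lt.has_min (Set.range fun k => idx k y)
      (Set.range_nonempty _)
    exact ⟨k, not_lt.1 (hk _ ⟨k + 1, rfl⟩)⟩
  choose κ hκ using h3
  refine ⟨fun y => (κ y, decide (q y (idx (κ y) y) < ρ (κ y))), fun k => ρ (k + 1) - ρ k,
    fun k => sub_pos.2 (hρ k).2.2, fun y y' e => ?_⟩
  by_contra hn
  simp only [Prod.mk.injEq, decide_eq_decide] at e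
  obtain ⟨e1, e2⟩ := e
  simp only [not_le] at hn
  have hg : ∀ y y' i, g y i ≤ q y y' + g y' i := fun y y' i => by
    obtain ⟨-, -, -, -, a5, a6⟩ := hq y y' i
    simp only [g]
    rcases le_total (q y' i) (1 - q y' i) with h | h
    · rw [min_eq_left h]; exact (min_le_right _ _).trans (by linarith)
    · rw [min_eq_right h]; exact (min_le_left _ _).trans (by linarith)
  have hs : q y' y = q y y' := (hq y' y y).2.2.2.1
  have k1 := hκ y
  have k2 := hκ y'
  rw [← e1] at k2 e2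
  set k := κ y
  have k3 : idx (k + 1) y ≤ idx k y' := h2 _ _ _ (by linarith [hg y y' (idx k y'), h1 k y'])
  have k4 : idx (k + 1) y' ≤ idx k y := h2 _ _ _ (by linarith [hg y' y (idx k y), h1 k y])
  have k5 : idx k y' = idx k y := le_antisymm (k2.trans k4) (k1.trans k3)
  have k6 := h1 k y
  have k7 := h1 k y'
  rw [k5] at k7 e2
  obtain ⟨-, -, -, -, a5, a6⟩ := hq y y' (idx k y)
  obtain ⟨r1, r2, -⟩ := hρ k
  obtain ⟨-, r3, -⟩ := hρ (k + 1)
  by_cases hc : q y (idx k y) < ρ k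
  · have := e2.1 hc
    linarith
  · have hc' : ¬ q y' (idx k y) < ρ k := fun h => hc (e2.2 h)
    have k8 : 1 - q y (idx k y) < ρ k := (min_lt_iff.1 k6).resolve_left hc
    have k9 : 1 - q y' (idx k y) < ρ k := (min_lt_iff.1 k7).resolve_left hc'
    linarith

theorem greedy (R : V → V → Prop) (hR : WellFounded R) (E : V → V → Prop)
    (hE : ∀ y, {x | R x y ∧ E x y}.Finite) : ∃ c : V → ℕ, ∀ x y, R x y → E x y → c x ≠ c y := by
  let pick : Set ℕ → ℕ := fun s => if h : ∃ a, a ∉ s then h.choose else 0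
  have hpick : ∀ s : Set ℕ, s.Finite → pick s ∉ s := fun s hs => by
    have := hs.exists_notMem
    simp only [pick, dif_pos this]; exact this.choose_spec
  let c : V → ℕ := hR.fix fun y ih => pick {a | ∃ x, ∃ h : R x y, E x y ∧ ih x h = a}
  have hcy : ∀ y, c y = pick {a | ∃ x, ∃ _ : R x y, E x y ∧ c x = a} := fun y => hR.fix_eq _ y
  refine ⟨c, fun x y h1 h2 e => ?_⟩
  have h3 : {a | ∃ x, ∃ _ : R x y, E x y ∧ c x = a}.Finite := by
    refine ((hE y).image c).subset ?_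
    rintro _ ⟨x, h1, h2, rfl⟩
    exact ⟨x, ⟨h1, h2⟩, rfl⟩
  have := hpick _ h3
  rw [← hcy] at this
  exact this ⟨x, h1, h2, e⟩

theorem closure (cl : Finset V → Set V) (hc : ∀ T, (cl T).Countable) (A : Set V) :
    ∃ M : Set V, A ⊆ M ∧ (∀ T : Finset V, (∀ x ∈ T, x ∈ M) → cl T ⊆ M) ∧ #M ≤ max ℵ₀ #A := by
  let st : Set V → Set V := fun B => B ∪ ⋃ l : List B, cl (l.map Subtype.val).toFinset
  let s : ℕ → Set V := fun n => st^[n] A
  have hs : ∀ n, s (n + 1) = st (s n) := fun n => Function.iterate_succ_apply' st n A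
  have hm : Monotone s := monotone_nat_of_le_succ fun n => by
    rw [hs]; exact Set.subset_union_left
  have hcard : ∀ n, #(s n) ≤ max ℵ₀ #A := by
    intro n
    induction n with
    | zero => exact le_max_right _ _
    | succ n ih =>
      rw [hs]
      exact H26.Babai.union_le (le_max_left _ _) ih (H26.Babai.iUnion_le _ (le_max_left _ _) _
        ((mk_list_le_max _).trans (max_le (le_max_left _ _) ih)) fun l =>
          (le_aleph0_iff_set_countable.2 (hc _)).trans (le_max_left _ _))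
  refine ⟨⋃ n, s n, Set.subset_iUnion s 0, fun T hT => ?_,
    H26.Babai.iUnion_le _ (le_max_left _ _) _ (by simp) hcard⟩
  have : ∃ n, ∀ x ∈ T, x ∈ s n := by
    choose! f hf using fun x hx => Set.mem_iUnion.1 (hT x hx)
    exact ⟨T.sup f, fun x hx => hm (Finset.le_sup hx) (hf x hx)⟩
  obtain ⟨n, hn⟩ := this
  refine subset_trans ?_ (Set.subset_iUnion s (n + 1))
  rw [hs]
  refine subset_trans ?_ Set.subset_union_right
  refine subset_trans (le_of_eq ?_) (Set.subset_iUnion _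
    (T.attach.toList.map fun x => (⟨x.1, hn x.1 x.2⟩ : s n)))
  congr 1
  ext x
  simp

end Pool.Agent.H26.LinBip
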