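import Mathlib
import Pool.Agent.H26.LinBipB

/-! Two orientation patterns that together force a countable chromatic number. -/

namespace Pool.Agent.H26.Adm

open Cardinal Pool.Agent.H26.LinBip

variable {V : Type}

theorem col_ind (G : SimpleGraph V) (cl : Finset V → Set V) (hc1 : ∀ T, (cl T).Countable)
    (step : ∀ (O : Type) [LinearOrder O] [WellFoundedLT O] (W : Set V) (r : V → O),
      (∀ α, {x | x ∈ W ∧ r x < α}.Nonempty → ∀ T : Finset V, (∀ x ∈ T, x ∈ W ∧ r x < α) →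
        cl T ⊆ {x | x ∈ W ∧ r x < α}) →
      (∀ α, ∃ c : V → ℕ, ∀ x ∈ W, ∀ y ∈ W, r x = α → r y = α → G.Adj x y → c x ≠ c y) →
      ∃ c : V → ℕ, ∀ x ∈ W, ∀ y ∈ W, G.Adj x y → c x ≠ c y) (κ : Cardinal.{0}) :
    ∀ W : Set V, #W = κ → ∃ c : V → ℕ, ∀ x ∈ W, ∀ y ∈ W, G.Adj x y → c x ≠ c y := by
  classical
  induction κ using WellFoundedLT.induction with
  | ind κ ih =>
  intro W0 hW
  rcases le_or_gt κ ℵ₀ with hκ | hκ
  · obtain ⟨c, hc⟩ := Set.countable_iff_exists_injOn.1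
      (le_aleph0_iff_set_countable.1 (hW ▸ hκ : #W0 ≤ ℵ₀))
    exact ⟨c, fun x hx y hy h e => h.ne (hc hx hy e)⟩
  obtain ⟨e⟩ : Nonempty (κ.ord.ToType ≃ W0) := Cardinal.eq.1 (by rw [mk_ord_toType, hW])
  let M : κ.ord.ToType → Set V := fun α => ⋂₀ {M | (fun β => (e β : V)) '' Set.Iic α ⊆ M ∧
    ∀ T : Finset V, (∀ x ∈ T, x ∈ M) → cl T ⊆ M}
  have hM1 : ∀ α, (e α : V) ∈ M α := fun α N hN => hN.1 ⟨α, Set.mem_Iic.2 le_rfl, rfl⟩
  have hM2 : ∀ α (T : Finset V), (∀ x ∈ T, x ∈ M α) → cl T ⊆ M α :=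
    fun α T hT z hz N hN => hN.2 T (fun x hx => hT x hx N hN) hz
  have hM3 : Monotone M := fun α β h z hz N hN =>
    hz N ⟨(Set.image_mono (Set.Iic_subset_Iic.2 h)).trans hN.1, hN.2⟩
  have hM4 : ∀ α, #(M α) < κ := fun α => by
    obtain ⟨N, h1, h2, h3⟩ := closure cl hc1 ((fun β => (e β : V)) '' Set.Iic α)
    refine (mk_le_mk_of_subset (show M α ⊆ N from fun z hz => hz N ⟨h1, h2⟩)).trans_lt
      (h3.trans_lt (max_lt hκ (mk_image_le.trans_lt ?_)))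
    rw [← Set.Iio_insert]
    exact mk_insert_le.trans_lt (add_lt_of_lt hκ.le (mk_Iio_toType_ord_lt α)
      (one_lt_aleph0.trans hκ))
  have hne : Nonempty κ.ord.ToType := by
    rw [← mk_ne_zero_iff, mk_ord_toType]
    exact (aleph0_pos.trans hκ).ne'
  let r : V → κ.ord.ToType := fun v =>
    if h : {α | v ∈ M α}.Nonempty then wellFounded_lt.min _ h else Classical.choice hne
  have hr1 : ∀ v α, v ∈ M α → v ∈ M (r v) ∧ r v ≤ α := fun v α h => by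
    have h' : {α | v ∈ M α}.Nonempty := ⟨α, h⟩
    simp only [r, dif_pos h']
    exact ⟨wellFounded_lt.min_mem _ h', not_lt.1 (wellFounded_lt.not_lt_min {α | v ∈ M α} h)⟩
  obtain ⟨c, hc⟩ := step _ {v | ∃ α, v ∈ M α} r (fun α ⟨x0, hx0⟩ T hT => by
      obtain ⟨x, hx, hx'⟩ := (insert x0 T).exists_max_image r (Finset.insert_nonempty _ _)
      have h1 : r x < α := by
        rcases Finset.mem_insert.1 hx with rfl | hx
        · exact hx0.2
        · exact (hT x hx).2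
      intro z hz
      have h2 := hM2 (r x) T (fun y hy => by
        obtain ⟨β, hβ⟩ := (hT y hy).1
        exact hM3 (hx' y (Finset.mem_insert_of_mem hy)) (hr1 y β hβ).1) hz
      exact ⟨⟨_, h2⟩, (hr1 z _ h2).2.trans_lt h1⟩)
    (fun α => by
      obtain ⟨c, hc⟩ := ih _ (hM4 α) (M α) rfl
      exact ⟨c, fun x ⟨β, hx⟩ y ⟨β', hy⟩ h1 h2 => hc x (h1 ▸ (hr1 x β hx).1) y
        (h2 ▸ (hr1 y β' hy).1)⟩)
  have hW : ∀ x ∈ W0, ∃ α, x ∈ M α := fun x hx => ⟨e.symm ⟨x, hx⟩, by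
    simpa using hM1 (e.symm ⟨x, hx⟩)⟩
  exact ⟨c, fun x hx y hy => hc x (hW x hx) y (hW y hy)⟩

def Q1 (o : V → V → Prop) : Prop :=
  ∀ x y₁ y₂ y₂' w w', o y₁ w → o y₂ w → o y₁ w' → o y₂' w' → o x y₂ → o x y₂' → y₂ = y₂'

def P1 (o : V → V → Prop) : Prop := Q1 o ∧ Q1 (fun x y => o y x)

def P2 (o : V → V → Prop) : Prop :=
  ∀ x₁ x₂ y₁ y₂ y₁' y₂' w w', o x₁ y₁ → o x₁ y₁' → o x₂ y₂ → o x₂ y₂' → o y₁ w → o y₂ w →
    o y₁' w' → o y₂' w' → y₁ = y₂ ∨ y₁' = y₂' ∨ y₁ = y₁' ∨ y₂ = y₂'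

theorem P2.flip {o : V → V → Prop} (h : P2 o) : P2 (fun x y => o y x) := by
  intro x₁ x₂ y₁ y₂ y₁' y₂' w w' h1 h2 h3 h4 h5 h6 h7 h8
  have := h w w' y₁ y₁' y₂ y₂' x₁ x₂ h5 h6 h7 h8 h1 h2 h3 h4
  tauto

def Fw (o : V → V → Prop) (a b : V) : Set V := {z | ∃ y w, y ≠ z ∧ o a y ∧ o y w ∧ o z w ∧ o b z}

theorem Fw_sub {o : V → V → Prop} (h1 : Q1 o) (h2 : P2 o) (a b : V) : (Fw o a b).Subsingleton := by
  rintro z ⟨y, w, k1, k2, k3, k4, k5⟩ z' ⟨y', w', l1, l2, l3, l4, l5⟩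
  rcases h2 a b y z y' z' w w' k2 l2 k5 l5 k3 k4 l3 l4 with h | h | h | h
  · exact (k1 h).elim
  · exact (l1 h).elim
  · subst h
    exact h1 b y z z' w w' k3 k4 l3 l4 k5 l5
  · exact h

theorem col_pat (o : V → V → Prop) (h1 : P1 o) (h2 : P2 o) :
    ∃ c : V → ℕ, ∀ x y, x ≠ y → o x y → c x ≠ c y := by
  classical
  let G : SimpleGraph V := SimpleGraph.fromRel o
  let cl : Finset V → Set V := fun T =>
    ⋃ a ∈ T, ⋃ b ∈ T, (Fw o a b ∪ Fw (fun x y => o y x) a b)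
  obtain ⟨c, hc⟩ := col_ind G cl (fun T => T.countable_toSet.biUnion fun a _ =>
    T.countable_toSet.biUnion fun b _ => ((Fw_sub h1.1 h2 a b).finite.union
      (Fw_sub h1.2 h2.flip a b).finite).countable) (fun O _ _ W r hcl hl => by
    let ty : (V → V → Prop) → V → Prop := fun p z => ∃ x, (x ∈ W ∧ r x < r z) ∧ p x z
    have key : ∀ p : V → V → Prop, (∀ a b, Fw p a b ⊆ cl {a, b}) → ∀ y,
        {x | p x y ∧ ty p x}.Subsingleton := by
      intro p hp y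
      have k : ∀ x₁ x₂, x₁ ≠ x₂ → p x₁ y → ty p x₁ → p x₂ y → ty p x₂ → ¬ r x₁ ≤ r x₂ := by
        rintro x₁ x₂ hne k1 ⟨a, ⟨a1, a2⟩, a3⟩ k2 ⟨b, ⟨b1, b2⟩, b3⟩ hle
        have := hcl (r x₂) ⟨b, b1, b2⟩ {a, b} (by
          intro x hx
          rcases Finset.mem_insert.1 hx with rfl | hx
          · exact ⟨a1, a2.trans_le hle⟩
          · rw [Finset.mem_singleton.1 hx]; exact ⟨b1, b2⟩)
          (hp a b ⟨x₁, y, hne, a3, k1, k2, b3⟩)
        exact lt_irrefl _ this.2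
      rintro x₁ ⟨k1, k2⟩ x₂ ⟨k3, k4⟩
      by_contra hne
      rcases le_total (r x₁) (r x₂) with h | h
      · exact k x₁ x₂ hne k1 k2 k3 k4 h
      · exact k x₂ x₁ (Ne.symm hne) k3 k4 k1 k2 h
    have key1 := key o (fun a b z hz => Set.mem_iUnion₂.2 ⟨a, by simp,
      Set.mem_iUnion₂.2 ⟨b, by simp, Or.inl hz⟩⟩)
    have key2 := key (fun x y => o y x) (fun a b z hz => Set.mem_iUnion₂.2 ⟨a, by simp,
      Set.mem_iUnion₂.2 ⟨b, by simp, Or.inr hz⟩⟩)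
    obtain ⟨c3, hc3⟩ := greedy (fun x y => r x < r y) (InvImage.wf r wellFounded_lt)
      (fun x y => x ∈ W ∧ G.Adj x y ∧ (ty o x ↔ ty o y) ∧
        (ty (fun x y => o y x) x ↔ ty (fun x y => o y x) y)) (fun y => by
      refine ((key1 y).finite.union (key2 y).finite).subset ?_
      rintro x ⟨k1, k2, ⟨-, k3 | k3⟩, k4, k5⟩
      · exact Or.inl ⟨k3, k4.2 ⟨x, ⟨k2, k1⟩, k3⟩⟩
      · exact Or.inr ⟨k3, k5.2 ⟨x, ⟨k2, k1⟩, k3⟩⟩)
    choose c1 hc1 using hl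
    refine ⟨fun y => Encodable.encode (c1 (r y) y, decide (ty o y),
      decide (ty (fun x y => o y x) y), c3 y), fun x hx y hy h e => ?_⟩
    have e' := Encodable.encode_injective e
    simp only [Prod.mk.injEq, decide_eq_decide] at e'
    obtain ⟨e1, e2, e3, e4⟩ := e'
    rcases lt_trichotomy (r x) (r y) with h' | h' | h'
    · exact hc3 x y h' ⟨hx, h, e2, e3⟩ e4
    · rw [h'] at e1
      exact hc1 _ x hx y hy h' rfl h e1
    · exact hc3 y x h' ⟨hy, h.symm, e2.symm, e3.symm⟩ e4.symm) _ Set.univ rfl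
  exact ⟨c, fun x y h h' => hc x trivial y trivial ⟨h, Or.inl h'⟩⟩

def Cls (P : ∀ {W : Type}, (W → W → Prop) → Prop) {W : Type} (G : SimpleGraph W) : Prop :=
  ∃ o : W → W → Prop, (∀ x y, G.Adj x y → o x y ∨ o y x) ∧ P o

theorem col_both (G : SimpleGraph V) (h1 : Cls @P1 G) (h2 : Cls @P2 G) :
    Nonempty (G.Coloring (ℕ × ℕ)) := by
  obtain ⟨o, ho, p1⟩ := h1
  obtain ⟨o', ho', p2⟩ := h2
  have k : ∀ o'' : V → V → Prop, P2 o'' →
      ∃ c : V → ℕ, ∀ x y, x ≠ y → o x y ∧ o'' x y → c x ≠ c y := fun o'' p =>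
    col_pat _ ⟨fun x y₁ y₂ y₂' w w' a b c d e f => p1.1 x y₁ y₂ y₂' w w' a.1 b.1 c.1 d.1 e.1 f.1,
      fun x y₁ y₂ y₂' w w' a b c d e f => p1.2 x y₁ y₂ y₂' w w' a.1 b.1 c.1 d.1 e.1 f.1⟩
      fun x₁ x₂ y₁ y₂ y₁' y₂' w w' a b c d e f g h =>
        p x₁ x₂ y₁ y₂ y₁' y₂' w w' a.2 b.2 c.2 d.2 e.2 f.2 g.2 h.2
  obtain ⟨c, hc⟩ := k o' p2
  obtain ⟨c', hc'⟩ := k _ p2.flip
  refine ⟨SimpleGraph.Coloring.mk (fun x => (c x, c' x)) fun {x y} h e => ?_⟩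
  simp only [Prod.mk.injEq] at e
  rcases ho x y h with a | a <;> rcases ho' x y h with b | b
  · exact hc x y h.ne ⟨a, b⟩ e.1
  · exact hc' x y h.ne ⟨a, b⟩ e.2
  · exact hc' y x h.ne.symm ⟨a, b⟩ e.2.symm
  · exact hc y x h.ne.symm ⟨a, b⟩ e.1.symm

structure Good (P : ∀ {W : Type}, (W → W → Prop) → Prop) : Prop where
  pull : ∀ {W W' : Type} (f : W → W') (o : W' → W' → Prop), Function.Injective f → P o →
    P (fun x y => o (f x) (f y))
  push : ∀ {W W' : Type} (e : W → W') (o : W → W → Prop), Function.Injective e → P o →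
    P (fun x y => ∃ i j, e i = x ∧ e j = y ∧ o i j)
  lim : ∀ {W ι : Type} (U : Ultrafilter ι) (o : ι → W → W → Prop), (∀ i, P (o i)) →
    P (fun x y => ∀ᶠ i in U, o i x y)

theorem Q1_pull {W W' : Type} (f : W → W') (o : W' → W' → Prop) (hf : Function.Injective f)
    (h : Q1 o) : Q1 (fun x y => o (f x) (f y)) :=
  fun _ _ _ _ _ _ a b c d e g => hf (h _ _ _ _ _ _ a b c d e g)

theorem Q1_push {W W' : Type} (e : W → W') (o : W → W → Prop) (he : Function.Injective e)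
    (h : Q1 o) : Q1 (fun x y => ∃ i j, e i = x ∧ e j = y ∧ o i j) := by
  rintro _ _ _ _ _ _ ⟨y₁, w, rfl, rfl, a⟩ ⟨y₂, w2, rfl, e1, b⟩ ⟨y₁', w', e2, rfl, c⟩
    ⟨y₂', w3, rfl, e3, d⟩ ⟨x, y3, rfl, e4, f⟩ ⟨x', y4, e5, e6, g⟩
  cases he e1; cases he e2; cases he e3; cases he e4; cases he e5; cases he e6
  rw [h _ _ _ _ _ _ a b c d f g]

theorem Q1_lim {W ι : Type} (U : Ultrafilter ι) (o : ι → W → W → Prop) (h : ∀ i, Q1 (o i)) :
    Q1 (fun x y => ∀ᶠ i in U, o i x y) := by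
  intro _ _ _ _ _ _ a b c d e f
  obtain ⟨i, a, b, c, d, e, f⟩ := (a.and (b.and (c.and (d.and (e.and f))))).exists
  exact h i _ _ _ _ _ _ a b c d e f

theorem good1 : Good @P1 where
  pull f o hf h := ⟨Q1_pull f o hf h.1, Q1_pull f (fun x y => o y x) hf h.2⟩
  push e o he h := ⟨Q1_push e o he h.1, by
    have := Q1_push e (fun x y => o y x) he h.2
    convert this using 3 with x y
    constructor
    · rintro ⟨i, j, a, b, c⟩; exact ⟨j, i, b, a, c⟩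
    · rintro ⟨i, j, a, b, c⟩; exact ⟨j, i, b, a, c⟩⟩
  lim U o h := ⟨Q1_lim U o fun i => (h i).1, Q1_lim U (fun i x y => o i y x) fun i => (h i).2⟩

theorem good2 : Good @P2 where
  pull f o hf h := fun _ _ _ _ _ _ _ _ a b c d e g i j => by
    simpa only [hf.eq_iff] using h _ _ _ _ _ _ _ _ a b c d e g i j
  push e o he h := by
    rintro _ _ _ _ _ _ _ _ ⟨x₁, y₁, rfl, rfl, a⟩ ⟨x₁', y₁', e1, rfl, b⟩ ⟨x₂, y₂, rfl, rfl, c⟩
      ⟨x₂', y₂', e2, rfl, d⟩ ⟨z1, w, e3, rfl, f⟩ ⟨z2, w2, e4, e5, g⟩ ⟨z3, w', e6, rfl, i⟩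
      ⟨z4, w3, e7, e8, j⟩
    cases he e1; cases he e2; cases he e3; cases he e4; cases he e5; cases he e6; cases he e7
    cases he e8
    simpa only [he.eq_iff] using h _ _ _ _ _ _ _ _ a b c d f g i j
  lim U o h := by
    intro _ _ _ _ _ _ _ _ a b c d e f g k
    obtain ⟨i, a, b, c, d, e, f, g, k⟩ :=
      (a.and (b.and (c.and (d.and (e.and (f.and (g.and k))))))).exists
    exact h i _ _ _ _ _ _ _ _ a b c d e f g k

theorem Good.sub {P : ∀ {W : Type}, (W → W → Prop) → Prop} (hP : Good @P) {W W' : Type}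
    {F : SimpleGraph W} {G : SimpleGraph W'} (f : F →g G) (hf : Function.Injective f)
    (h : Cls @P G) : Cls @P F := by
  obtain ⟨o, h1, h2⟩ := h
  exact ⟨_, fun x y h => h1 _ _ (f.map_adj h), hP.pull f o hf h2⟩

theorem Good.compact {P : ∀ {W : Type}, (W → W → Prop) → Prop} (hP : Good @P) (G : SimpleGraph V)
    (h : ∀ (n : ℕ) (F : SimpleGraph (Fin n)) (f : F →g G), Function.Injective f → Cls @P F) :
    Cls @P G := by
  have k : ∀ S : Finset V, ∃ o : V → V → Prop,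
      (∀ x ∈ S, ∀ y ∈ S, G.Adj x y → o x y ∨ o y x) ∧ P o := by
    intro S
    let e : Fin S.card → V := fun i => (S.equivFin.symm i : V)
    have he : Function.Injective e := Subtype.val_injective.comp S.equivFin.symm.injective
    obtain ⟨o, h1, h2⟩ := h _ (G.comap e) (SimpleGraph.Hom.comap e G) he
    refine ⟨_, fun x hx y hy hxy => ?_, hP.push e o he h2⟩
    have ex : e (S.equivFin ⟨x, hx⟩) = x := by simp [e]
    have ey : e (S.equivFin ⟨y, hy⟩) = y := by simp [e]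
    rcases h1 (S.equivFin ⟨x, hx⟩) (S.equivFin ⟨y, hy⟩)
      (by simpa only [SimpleGraph.comap_adj, ex, ey] using hxy) with h' | h'
    · exact Or.inl ⟨_, _, ex, ey, h'⟩
    · exact Or.inr ⟨_, _, ey, ex, h'⟩
  choose o h1 h2 using k
  let U : Ultrafilter (Finset V) := Ultrafilter.of Filter.atTop
  have hU : ∀ x, ∀ᶠ S in (U : Filter (Finset V)), x ∈ S := fun x =>
    (Ultrafilter.of_le _) ((Filter.eventually_ge_atTop ({x} : Finset V)).mono fun S hS =>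
      hS (Finset.mem_singleton_self x))
  refine ⟨_, fun x y hxy => ?_, hP.lim U o h2⟩
  exact Ultrafilter.eventually_or.1 (((hU x).and (hU y)).mono fun S hS => h1 S x hS.1 y hS.2 hxy)

end Pool.Agent.H26.Adm
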