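import Mathlib
import Pool.Agent.H26.AdmA

/-! Both classes are admissible. -/

namespace Pool.Agent.H26.Adm

open Cardinal

theorem exact_chi {V : Type} (κ : Cardinal.{0}) (o : V → V → Prop) (hr : WellFounded o)
    (hd : ∀ y, #{x | o x y} < κ) (hn : ∀ C : Type, #C < κ → ∀ c : V → C, ∃ x y, o x y ∧ c x = c y) :
    (∃ α : Type, #α = κ ∧ Nonempty ((SimpleGraph.fromRel o).Coloring α)) ∧
      (∀ β : Type, #β < κ → IsEmpty ((SimpleGraph.fromRel o).Coloring β)) := by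
  classical
  refine ⟨⟨κ.out, mk_out _, ?_⟩, fun β hβ => ⟨fun c => ?_⟩⟩
  · have hex : ∀ s : Set κ.out, #s < κ → ∃ a, a ∉ s := by
      intro s hs
      by_contra h
      push Not at h
      rw [Set.eq_univ_of_forall h, mk_univ, mk_out] at hs
      exact lt_irrefl _ hs
    rcases isEmpty_or_nonempty V with hV | ⟨⟨v⟩⟩
    · exact ⟨SimpleGraph.Coloring.mk (fun x => hV.elim x) fun {x} => hV.elim x⟩
    obtain ⟨a0, -⟩ := hex ∅ (by simpa using zero_le.trans_lt (hd v))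
    let pick : Set κ.out → κ.out := fun s => if h : ∃ a, a ∉ s then h.choose else a0
    have hpick : ∀ s : Set κ.out, #s < κ → pick s ∉ s := fun s hs => by
      simp only [pick, dif_pos (hex s hs)]; exact (hex s hs).choose_spec
    let c : V → κ.out := hr.fix fun y ih => pick {a | ∃ x, ∃ h : o x y, ih x h = a}
    have hcy : ∀ y, c y = pick {a | ∃ x, ∃ _ : o x y, c x = a} := fun y => hr.fix_eq _ y
    have key : ∀ x y, o x y → c x ≠ c y := by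
      intro x y h1 e
      have h3 : #{a | ∃ x, ∃ _ : o x y, c x = a} < κ := by
        refine lt_of_le_of_lt (le_trans (mk_le_mk_of_subset ?_) (mk_image_le (f := c))) (hd y)
        rintro _ ⟨x, h1, rfl⟩
        exact ⟨x, h1, rfl⟩
      have := hpick _ h3
      rw [← hcy] at this
      exact this ⟨x, h1, e⟩
    exact ⟨SimpleGraph.Coloring.mk c fun {x y} h =>
      h.2.elim (key x y) fun h' => (key y x h').symm⟩
  · obtain ⟨x, y, h1, h2⟩ := hn β hβ c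
    exact c.valid ⟨fun e => by subst e; exact hr.irrefl.irrefl _ h1, Or.inl h1⟩ h2

abbrev Ox (κ : Cardinal.{0}) : Type := (Order.succ ((2 : Cardinal.{0}) ^ κ)).ord.ToType

theorem Ox_bdd {κ : Cardinal.{0}} (hκ : ℵ₀ ≤ κ) (S : Set (Ox κ)) (hS : #S ≤ 2 ^ κ) :
    ∃ o, ∀ s ∈ S, s < o := by
  have h0 : ℵ₀ ≤ 2 ^ κ := hκ.trans (cantor κ).le
  by_contra hn
  push Not at hn
  have h1 : #(⋃ s : S, Set.Iic (s : Ox κ)) ≤ 2 ^ κ := H26.Babai.iUnion_le _ h0 _ hS fun s => by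
    rw [← Set.Iio_insert]
    exact mk_insert_le.trans ((add_le_add (Order.lt_succ_iff.1 (mk_Iio_toType_ord_lt s.1))
      (one_le_aleph0.trans h0)).trans (add_eq_self h0).le)
  have h2 : (⋃ s : S, Set.Iic (s : Ox κ)) = Set.univ := Set.eq_univ_of_forall fun o => by
    obtain ⟨s, hs, h⟩ := hn o
    exact Set.mem_iUnion.2 ⟨⟨s, hs⟩, h⟩
  rw [h2, mk_univ, mk_ord_toType] at h1
  exact (Order.lt_succ _).not_ge h1

section shift

variable {I : Type} [LinearOrder I]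

abbrev Nd (I : Type) : Type := I × (I → I → Set I)

def res (F : I → I → Set I) (ζ : I) : Nd I := (ζ, fun η => if η ≤ ζ then F η else fun _ => ∅)

def Ar1 (κ : Cardinal.{0}) (x y : Nd I × Nd I) : Prop :=
  x.2 = y.1 ∧ y.1.1 < y.2.1 ∧ #(y.2.2 y.2.1 y.1.1) < κ ∧
    ∃ ξ ∈ y.2.2 y.2.1 y.1.1, x.1 = res y.2.2 ξ

theorem Ar1_P1 (κ : Cardinal.{0}) : P1 (Ar1 (I := I) κ) := by
  constructor
  · intro x y₁ y₂ y₂' w w' a b c d e f
    exact Prod.ext (e.1.symm.trans f.1) (b.1.trans (a.1.symm.trans (c.1.trans d.1.symm)))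
  · intro x y₁ y₂ y₂' w w' a b c d e f
    exact Prod.ext (b.1.symm.trans (a.1.trans (c.1.symm.trans d.1))) (e.1.trans f.1.symm)

theorem adm1 (κ : Cardinal.{0}) :
    (∃ α : Type, #α = κ ∧ Nonempty ((SimpleGraph.fromRel (Ar1 (I := Ox κ) κ)).Coloring α)) ∧
      (∀ β : Type, #β < κ → IsEmpty ((SimpleGraph.fromRel (Ar1 (I := Ox κ) κ)).Coloring β)) ∨
    κ = 0 := by
  classical
  rcases eq_or_ne κ 0 with h0 | h0
  · exact Or.inr h0
  refine Or.inl (exact_chi κ _ ?_ (fun y => ?_) fun C hC c => ?_)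
  · refine Subrelation.wf (r := InvImage (· < ·) fun x : Nd (Ox κ) × Nd (Ox κ) => x.2.1) ?_
      (InvImage.wf _ wellFounded_lt)
    intro x y h
    show x.2.1 < y.2.1
    rw [h.1]; exact h.2.1
  · by_cases h : #(y.2.2 y.2.1 y.1.1) < κ
    · refine lt_of_le_of_lt (le_trans (mk_le_mk_of_subset ?_)
        (mk_image_le (f := fun ξ => (res y.2.2 ξ, y.1)))) h
      rintro x ⟨h1, -, -, ξ, h2, h3⟩
      exact ⟨ξ, h2, Prod.ext h3.symm h1.symm⟩
    · rw [Set.eq_empty_of_forall_notMem (s := {x | Ar1 κ x y}) fun x hx => h hx.2.2.1]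
      simpa using pos_iff_ne_zero.2 h0
  · let S : (Ox κ → Ox κ → Set (Ox κ)) → Ox κ → Set (Ox κ) := fun R u =>
      Set.range fun m : {m : C // ∃ a, a < u ∧ c (res R a, res R u) = m} => m.2.choose
    let F : Ox κ → Ox κ → Set (Ox κ) := (wellFounded_lt (α := Ox κ)).fix fun ξ ih =>
      S (fun η => if h : η < ξ then ih η h else fun _ => ∅)
    have hF : ∀ ξ, F ξ = S (fun η => if _h : η < ξ then F η else fun _ => ∅) :=
      fun ξ => (wellFounded_lt (α := Ox κ)).fix_eq _ ξ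
    let g : Ox κ → Set C := fun u => {m | ∃ a, a < u ∧ c (res F a, res F u) = m}
    have hg : ∃ u ξ, u < ξ ∧ g u = g ξ := by
      by_contra hn
      push Not at hn
      have h1 : #(Ox κ) ≤ #(Set C) := mk_le_of_injective (f := g) fun u v e => by
        rcases lt_trichotomy u v with h | h | h
        · exact (hn u v h e).elim
        · exact h
        · exact (hn v u h e.symm).elim
      rw [mk_ord_toType, mk_set] at h1
      exact (Order.lt_succ _).not_ge (h1.trans (power_le_power_left two_ne_zero hC.le))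
    obtain ⟨u, ξ, h1, h2⟩ := hg
    set R : Ox κ → Ox κ → Set (Ox κ) := fun η => if _h : η < ξ then F η else fun _ => ∅ with hR
    have hres : ∀ z, z < ξ → res R z = res F z := by
      intro z hz
      simp only [res, Prod.mk.injEq, true_and]
      funext η
      by_cases h : η ≤ z
      · simp only [if_pos h, hR, dif_pos (h.trans_lt hz)]
      · simp only [if_neg h]
    have h3 : c (res F u, res F ξ) ∈ g u := h2 ▸ ⟨u, h1, rfl⟩
    have h4 : ∃ a, a < u ∧ c (res R a, res R u) = c (res F u, res F ξ) := by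
      obtain ⟨a, k1, k2⟩ := h3
      exact ⟨a, k1, by rw [hres a (k1.trans h1), hres u h1, k2]⟩
    have e2 : (res F ξ).2 (res F ξ).1 = S R := by
      rw [← hF]; simp [res]
    obtain ⟨k1, k2⟩ := h4.choose_spec
    refine ⟨(res F h4.choose, res F u), (res F u, res F ξ), ⟨rfl, h1, ?_, h4.choose, ?_, ?_⟩, ?_⟩
    · simp only [e2]
      exact mk_range_le.trans_lt ((mk_subtype_le _).trans_lt hC)
    · simp only [e2]
      exact ⟨⟨_, h4⟩, rfl⟩
    · simp only [res, Prod.mk.injEq, true_and]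
      funext η
      split_ifs with h5 h6
      · rfl
      · exact (h6 (h5.trans (k1.trans h1).le)).elim
      · rfl
    · exact (congrArg c (Prod.ext (hres _ (k1.trans h1)).symm (hres u h1).symm)).trans k2

end shift

theorem gen {P I : Type} [Preorder P] (ν : Cardinal.{0}) (hν : ℵ₀ ≤ ν) (hI : #I ≤ ν)
    (hub : ∀ S : Set P, #S ≤ ν → IsChain (· ≤ ·) S → ∃ q, ∀ s ∈ S, s ≤ q)
    (D : I → P → Prop) (p : P) (ho : ∀ i q q', D i q → q ≤ q' → D i q')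
    (hd : ∀ i q, p ≤ q → ∃ q', q ≤ q' ∧ D i q') : ∃ q, p ≤ q ∧ ∀ i, D i q := by
  classical
  obtain ⟨_, _⟩ := exists_wellOrder I
  let ubf : Set P → P := fun S => if h : ∃ q, ∀ s ∈ S, s ≤ q then h.choose else p
  let st : I → P → P := fun i q => if h : ∃ q', q ≤ q' ∧ D i q' then h.choose else q
  let s : I → P := (wellFounded_lt (α := I)).fix fun i ih =>
    st i (ubf (insert p {t | ∃ j, ∃ h : j < i, ih j h = t}))
  have hs : ∀ i, s i = st i (ubf (insert p {t | ∃ j, ∃ _ : j < i, s j = t})) :=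
    fun i => (wellFounded_lt (α := I)).fix_eq _ i
  have hch : ∀ J : Set I, (∀ j ∈ J, p ≤ s j ∧ ∀ k < j, s k ≤ s j) →
      ∃ q, ∀ t ∈ insert p (s '' J), t ≤ q := by
    intro J hJ
    refine hub _ (mk_insert_le.trans ((add_le_add (mk_image_le.trans ((mk_set_le _).trans hI))
      (one_le_aleph0.trans hν)).trans (add_eq_self hν).le)) ?_
    rintro _ (rfl | ⟨j, hj, rfl⟩) _ (rfl | ⟨k, hk, rfl⟩) hne
    · exact Or.inl le_rfl
    · exact Or.inl (hJ k hk).1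
    · exact Or.inr (hJ j hj).1
    · rcases lt_trichotomy j k with h | h | h
      · exact Or.inl ((hJ k hk).2 j h)
      · exact Or.inl (h ▸ le_rfl)
      · exact Or.inr ((hJ j hj).2 k h)
  have key : ∀ i, (p ≤ s i ∧ ∀ k < i, s k ≤ s i) ∧ D i (s i) := by
    intro i
    induction i using WellFoundedLT.induction with
    | ind i ih =>
    have h1 : ∃ q, ∀ t ∈ insert p {t | ∃ j, ∃ _ : j < i, s j = t}, t ≤ q := by
      obtain ⟨q, hq⟩ := hch (Set.Iio i) fun j hj => (ih j hj).1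
      refine ⟨q, fun t ht => hq t ?_⟩
      rcases ht with rfl | ⟨j, hj, rfl⟩
      · exact Or.inl rfl
      · exact Or.inr ⟨j, hj, rfl⟩
    have h2 : ∀ t ∈ insert p {t | ∃ j, ∃ _ : j < i, s j = t},
        t ≤ ubf (insert p {t | ∃ j, ∃ _ : j < i, s j = t}) := by
      simp only [ubf, dif_pos h1]; exact h1.choose_spec
    have h3 := hd i _ (h2 p (Or.inl rfl))
    have h4 : ubf (insert p {t | ∃ j, ∃ _ : j < i, s j = t}) ≤ s i ∧ D i (s i) := by
      rw [hs i]; simp only [st, dif_pos h3]; exact h3.choose_spec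
    exact ⟨⟨(h2 p (Or.inl rfl)).trans h4.1, fun k hk => (h2 _ (Or.inr ⟨k, hk, rfl⟩)).trans h4.1⟩,
      h4.2⟩
  obtain ⟨q, hq⟩ := hch Set.univ fun j _ => (key j).1
  exact ⟨q, hq p (Or.inl rfl), fun i => ho i _ _ (key i).2 (hq _ (Or.inr ⟨i, trivial, rfl⟩))⟩

theorem stab {P I : Type} [Preorder P] (ν : Cardinal.{0}) (hν : ℵ₀ ≤ ν) (hI : #I ≤ ν)
    (hub : ∀ S : Set P, #S ≤ ν → IsChain (· ≤ ·) S → ∃ q, ∀ s ∈ S, s ≤ q)
    (A : P → Set I) (hA : Antitone A) (p : P) : ∃ q, p ≤ q ∧ ∀ q', q ≤ q' → A q' = A q := by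
  obtain ⟨q, h1, h2⟩ := gen ν hν hI hub (fun i q => i ∉ A q ∨ ∀ q', q ≤ q' → i ∈ A q') p
    (fun i q q' h h' => h.imp (fun k k' => k (hA h' k')) fun k q'' h'' => k q'' (h'.trans h''))
    (fun i q _ => by
      by_cases h : ∀ q', q ≤ q' → i ∈ A q'
      · exact ⟨q, le_rfl, Or.inr h⟩
      · push Not at h
        obtain ⟨q', h1, h2⟩ := h
        exact ⟨q', h1, Or.inl h2⟩)
  exact ⟨q, h1, fun q' h => Set.Subset.antisymm (hA h) fun i hi =>
    (h2 i).elim (fun k => (k hi).elim) fun k => k q' h⟩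

inductive Vx (O : Type) : Type
  | nil : Vx O
  | mk : O → O → (O → Vx O) → Set O → Vx O

section tree

variable {O : Type} [LinearOrder O]

def Ar2 (κ : Cardinal.{0}) (y' y : Vx O) : Prop :=
  ∃ α β b E ξ b' E', y = Vx.mk α β b E ∧ #E < κ ∧ ξ ∈ E ∧ y' = b ξ ∧ b ξ = Vx.mk β ξ b' E' ∧
    β < ξ ∧ ∀ η < ξ, b' η = b η

def i1 (d : O) : Vx O → O
  | .nil => d
  | .mk α _ _ _ => α

def i2 (d : O) : Vx O → O
  | .nil => d
  | .mk _ β _ _ => β

def br : Vx O → O → Vx O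
  | .nil => fun _ => .nil
  | .mk _ _ b _ => b

theorem Ar2_spec {κ : Cardinal.{0}} (d : O) {y' y : Vx O} (h : Ar2 κ y' y) :
    i1 d y' = i2 d y ∧ i2 d y < i2 d y' ∧ br y (i2 d y') = y' ∧
      ∀ η < i2 d y', br y' η = br y η := by
  obtain ⟨α, β, b, E, ξ, b', E', rfl, -, -, rfl, h1, h2, h3⟩ := h
  rw [h1]
  exact ⟨rfl, h2, h1, h3⟩

theorem Ar2_P2 (κ : Cardinal.{0}) (d : O) : P2 (Ar2 (O := O) κ) := by
  intro x₁ x₂ y₁ y₂ y₁' y₂' w w' h1 h2 h3 h4 h5 h6 h7 h8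
  obtain ⟨a1, a2, -, a4⟩ := Ar2_spec d h1
  obtain ⟨b1, -, -, b4⟩ := Ar2_spec d h2
  obtain ⟨c1, c2, -, c4⟩ := Ar2_spec d h3
  obtain ⟨d1, -, -, d4⟩ := Ar2_spec d h4
  obtain ⟨-, -, e3, e4⟩ := Ar2_spec d h5
  obtain ⟨-, -, f3, f4⟩ := Ar2_spec d h6
  obtain ⟨-, -, g3, g4⟩ := Ar2_spec d h7
  obtain ⟨-, -, k3, k4⟩ := Ar2_spec d h8
  have l1 : i2 d y₁' = i2 d y₁ := b1.symm.trans a1
  have l2 : i2 d y₂' = i2 d y₂ := d1.symm.trans c1
  rw [l1] at g3 g4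
  rw [l2] at k3 k4
  rcases lt_trichotomy (i2 d y₁) (i2 d y₂) with h | h | h
  · refine Or.inr (Or.inr (Or.inl ?_))
    rw [← e3, ← f4 _ h, ← c4 _ (h.trans c2), d4 _ (h.trans c2), k4 _ h, g3]
  · left
    rw [← e3, h, f3]
  · refine Or.inr (Or.inr (Or.inr ?_))
    rw [← f3, ← e4 _ h, ← a4 _ (h.trans a2), b4 _ (h.trans a2), g4 _ h, k3]

theorem Ar2_wf (κ : Cardinal.{0}) : WellFounded (Ar2 (O := O) κ) := by
  refine ⟨fun y => ?_⟩
  induction y with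
  | nil => exact ⟨_, fun y' ⟨_, _, _, _, _, _, _, h, _⟩ => by cases h⟩
  | mk α β b E ih =>
    refine ⟨_, fun y' ⟨_, _, _, _, ξ, _, _, h, _, _, h', _⟩ => ?_⟩
    cases h
    exact h' ▸ ih ξ

structure St (O : Type) where
  l : O
  f : O → Vx O

instance : Preorder (St O) where
  le p q := p.l ≤ q.l ∧ ∀ η < p.l, p.f η = q.f η
  le_refl _ := ⟨le_rfl, fun _ _ => rfl⟩
  le_trans _ _ _ h h' := ⟨h.1.trans h'.1, fun η k => (h.2 η k).trans (h'.2 η (k.trans_le h.1))⟩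

end tree

theorem adm2 (κ : Cardinal.{0}) (hκ : ℵ₀ ≤ κ) :
    (∃ α : Type, #α = κ ∧ Nonempty ((SimpleGraph.fromRel (Ar2 (O := Ox κ) κ)).Coloring α)) ∧
      (∀ β : Type, #β < κ → IsEmpty ((SimpleGraph.fromRel (Ar2 (O := Ox κ) κ)).Coloring β)) := by
  classical
  refine exact_chi κ _ (Ar2_wf κ) (fun y => ?_) fun C hC c => ?_
  · by_cases h : ∃ x, Ar2 κ x y
    · obtain ⟨-, α, β, b, E, -, -, -, rfl, h, -⟩ := h
      refine lt_of_le_of_lt (le_trans (mk_le_mk_of_subset ?_) (mk_image_le (f := b))) h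
      rintro x ⟨_, _, _, _, ξ, _, _, h1, -, h2, h3, -⟩
      cases h1
      exact ⟨ξ, h2, h3.symm⟩
    · rw [Set.eq_empty_of_forall_notMem (s := {x | Ar2 κ x y}) fun x hx => h ⟨x, hx⟩]
      simpa using aleph0_pos.trans_le hκ
  have h0 : ℵ₀ ≤ 2 ^ κ := hκ.trans (cantor κ).le
  have hgt : ∀ o : Ox κ, ∃ o', o < o' := fun o => by
    obtain ⟨o', h⟩ := Ox_bdd hκ {o} (by simpa using one_le_aleph0.trans h0)
    exact ⟨o', h o rfl⟩
  have hub : ∀ S : Set (St (Ox κ)), #S ≤ 2 ^ κ → IsChain (· ≤ ·) S → ∃ q, ∀ s ∈ S, s ≤ q := by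
    intro S hS hc
    obtain ⟨o, ho⟩ := Ox_bdd hκ (St.l '' S) (mk_image_le.trans hS)
    refine ⟨⟨o, fun η => if h : ∃ s ∈ S, η < s.l then h.choose.f η else .nil⟩, fun s hs =>
      ⟨(ho _ ⟨s, hs, rfl⟩).le, fun η hη => ?_⟩⟩
    have h : ∃ s ∈ S, η < s.l := ⟨s, hs, hη⟩
    simp only [dif_pos h]
    rcases hc.total hs h.choose_spec.1 with k | k
    · exact k.2 η hη
    · exact (k.2 η h.choose_spec.2).symm
  have hC1 : #C ≤ 2 ^ κ := hC.le.trans (cantor κ).le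
  have hC2 : #(Set C) ≤ 2 ^ κ := by
    rw [mk_set]; exact power_le_power_left two_ne_zero hC.le
  let Col : Ox κ → St (Ox κ) → Set C := fun β p =>
    {m | ∃ ξ b' E, p ≤ ⟨ξ, b'⟩ ∧ β < ξ ∧ c (Vx.mk β ξ b' E) = m}
  have hCol : ∀ β, Antitone (Col β) := fun β p q h m ⟨ξ, b', E, h1, h2⟩ =>
    ⟨ξ, b', E, h.trans h1, h2⟩
  let UU : St (Ox κ) → Set (Set C) := fun p =>
    {U | ∃ β q, p.l ≤ β ∧ β < q.l ∧ p ≤ q ∧ (∀ q', q ≤ q' → Col β q' = Col β q) ∧ Col β q = U}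
  have hUU : Antitone UU := fun p q h U ⟨β, q', h1, h2, h3, h4⟩ =>
    ⟨β, q', h.1.trans h1, h2, h.trans h3, h4⟩
  obtain ⟨o0, -⟩ := Ox_bdd hκ ∅ (by simp)
  obtain ⟨p, -, hp⟩ := stab _ h0 hC2 hub UU hUU ⟨o0, fun _ => .nil⟩
  obtain ⟨o1, ho1⟩ := hgt p.l
  obtain ⟨pa, a1, a2⟩ := stab _ h0 hC1 hub (Col p.l) (hCol _) ⟨o1, p.f⟩
  have a3 : p ≤ pa := le_trans (b := ⟨o1, p.f⟩) ⟨ho1.le, fun _ _ => rfl⟩ a1
  have a4 : p.l < pa.l := ho1.trans_le a1.1
  have a5 : Col p.l pa ∈ UU pa := by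
    rw [hp pa a3]
    exact ⟨p.l, pa, le_rfl, a4, a3, a2, rfl⟩
  obtain ⟨β, pb, b1, b2, b3, b4, b5⟩ := a5
  obtain ⟨q, q1, q2⟩ := gen _ h0 ((mk_set_le (Col β pb)).trans hC1) hub
    (fun (m : Col β pb) q => ∃ ξ < q.l, ∃ b' E, q.f ξ = Vx.mk β ξ b' E ∧ β < ξ ∧
      (∀ η < ξ, b' η = q.f η) ∧ c (Vx.mk β ξ b' E) = m) pb
    (fun m q q' ⟨ξ, h1, b', E, h2, h3, h4, h5⟩ h => ⟨ξ, h1.trans_le h.1, b', E,
      (h.2 ξ h1).symm.trans h2, h3, fun η k => (h4 η k).trans (h.2 η (k.trans h1)), h5⟩)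
    (fun m q h => by
      obtain ⟨ξ, b', E, h1, h2, h3⟩ : m.1 ∈ Col β q := by rw [b4 q h]; exact m.2
      obtain ⟨ξ', h4⟩ := hgt ξ
      refine ⟨⟨ξ', Function.update b' ξ (Vx.mk β ξ b' E)⟩, ⟨h1.1.trans h4.le, fun η k => ?_⟩,
        ξ, h4, b', E, by simp, h2, fun η k => ?_, h3⟩
      · exact (h1.2 η k).trans (Function.update_of_ne (k.trans_le h1.1).ne _ _).symm
      · exact (Function.update_of_ne k.ne _ _).symm)
  choose ξ _ b' E k2 k3 k4 k5 using q2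
  have hw : c (Vx.mk p.l β q.f (Set.range ξ)) ∈ Col β pb := by
    exact b5.ge ⟨β, q.f, _, ⟨b1, (b3.trans q1).2⟩, a4.trans_le b1, rfl⟩
  refine ⟨q.f (ξ ⟨_, hw⟩), Vx.mk p.l β q.f (Set.range ξ), ⟨_, _, _, _, ξ ⟨_, hw⟩, b' _, E _, rfl,
    mk_range_le.trans_lt ((mk_set_le _).trans_lt hC), ⟨_, rfl⟩, rfl, k2 _, k3 _, k4 _⟩, ?_⟩
  rw [k2, k5]

end Pool.Agent.H26.Adm
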