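import Mathlib

/-! Cardinal-valued chromatic number. -/

namespace Pool.Agent.H26.Chi

open Cardinal

universe u

/-- The chromatic number as a cardinal: the least cardinality of a set of colours of a proper
colouring. -/
noncomputable def chi {V : Type u} (G : SimpleGraph V) : Cardinal.{u} :=
  sInf {κ : Cardinal.{u} | ∃ C : Type u, Cardinal.mk C = κ ∧ Nonempty (G.Coloring C)}

theorem chi_eq {V : Type} (G : SimpleGraph V) (r : V → V → Prop) (hr : WellFounded r)
    (hadj : ∀ x y, G.Adj x y → r x y ∨ r y x) (hc : ∀ y, {x | G.Adj x y ∧ r x y}.Countable)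
    (hn : ∀ c : V → ℕ, ∃ x y, G.Adj x y ∧ c x = c y) : chi G = Cardinal.aleph 1 := by
  classical
  let C := (Cardinal.aleph 1 : Cardinal.{0}).out
  have hC : #C = Cardinal.aleph 1 := Cardinal.mk_out _
  have hex : ∀ s : Set C, s.Countable → ∃ a, a ∉ s := by
    intro s hs
    by_contra h
    push Not at h
    have : s = Set.univ := Set.eq_univ_of_forall h
    rw [this, ← Cardinal.le_aleph0_iff_set_countable, Cardinal.mk_univ, hC] at hs
    exact Cardinal.aleph0_lt_aleph_one.not_ge hs
  obtain ⟨a0, -⟩ := hex ∅ Set.countable_empty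
  let pick : Set C → C := fun s => if h : ∃ a, a ∉ s then h.choose else a0
  have hpick : ∀ s : Set C, s.Countable → pick s ∉ s := fun s hs => by
    simp only [pick, dif_pos (hex s hs)]; exact (hex s hs).choose_spec
  let c : V → C := hr.fix fun y ih => pick {a | ∃ x, ∃ h : r x y, G.Adj x y ∧ ih x h = a}
  have hcy : ∀ y, c y = pick {a | ∃ x, ∃ _ : r x y, G.Adj x y ∧ c x = a} := fun y => hr.fix_eq _ y
  have key : ∀ x y, r x y → G.Adj x y → c x ≠ c y := by
    intro x y h1 h2 e
    have h3 : {a | ∃ x, ∃ _ : r x y, G.Adj x y ∧ c x = a}.Countable := by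
      refine ((hc y).image c).mono ?_
      rintro _ ⟨x, h1, h2, rfl⟩
      exact ⟨x, ⟨h2, h1⟩, rfl⟩
    have := hpick _ h3
    rw [← hcy] at this
    exact this ⟨x, h1, h2, e⟩
  have hmem : Cardinal.aleph 1 ∈
      {κ : Cardinal.{0} | ∃ C : Type, Cardinal.mk C = κ ∧ Nonempty (G.Coloring C)} := by
    refine ⟨C, hC, ⟨SimpleGraph.Coloring.mk c fun {x y} h => ?_⟩⟩
    rcases hadj x y h with h' | h'
    · exact key x y h' h
    · exact (key y x h' h.symm).symm
  refine le_antisymm (csInf_le' hmem) (le_csInf ⟨_, hmem⟩ ?_)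
  rintro _ ⟨C', rfl, ⟨c'⟩⟩
  by_contra h
  have h1 : #C' ≤ ℵ₀ := by
    rw [not_le, ← Cardinal.succ_aleph0] at h
    exact Order.lt_succ_iff.1 h
  have : Countable C' := Cardinal.mk_le_aleph0_iff.1 h1
  obtain ⟨f, hf⟩ := exists_injective_nat C'
  obtain ⟨x, y, h2, h3⟩ := hn (fun x => f (c' x))
  exact c'.valid h2 (hf h3)

end Pool.Agent.H26.Chi
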