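import Mathlib

/-! Shift graphs on lists: large chromatic number, few edges away from bipartite. -/

namespace Pool.Agent.H26.Shift

open Cardinal Set

/-- iterated power set -/
def Pw : ℕ → Type → Type
  | 0, C => C
  | n + 1, C => Pw n (Set C)

theorem card_le_of_col {I : Type} [LinearOrder I] : ∀ (n : ℕ) (C : Type) (c : List I → C),
    (∀ a t b, t.length = n → (a :: (t ++ [b])).Pairwise (· < ·) → c (a :: t) ≠ c (t ++ [b])) →
      #I ≤ #(Pw n C)
  | 0, C, c, h => by
    refine Cardinal.mk_le_of_injective (f := fun a : I => (c [a] : C)) fun a b e => ?_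
    rcases lt_trichotomy a b with h' | h' | h'
    · exact (h a [] b rfl (by simpa using h') e).elim
    · exact h'
    · exact (h b [] a rfl (by simpa using h') e.symm).elim
  | n + 1, C, c, h => by
    refine card_le_of_col n (Set C) (fun t => {γ | ∃ a, (a :: t).Pairwise (· < ·) ∧ c (a :: t) = γ})
      fun a t b ht hs e => ?_
    have h1 : c (a :: (t ++ [b])) ∈ {γ | ∃ a', (a' :: (t ++ [b])).Pairwise (· < ·) ∧
        c (a' :: (t ++ [b])) = γ} := ⟨a, hs, rfl⟩
    have e' : {γ | ∃ a', (a' :: (a :: t)).Pairwise (· < ·) ∧ c (a' :: (a :: t)) = γ} =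
      {γ | ∃ a', (a' :: (t ++ [b])).Pairwise (· < ·) ∧ c (a' :: (t ++ [b])) = γ} := e
    rw [← e'] at h1
    obtain ⟨a', h2, h3⟩ := h1
    refine h a' (a :: t) b (by simp [ht]) ?_ h3
    rw [List.cons_append, List.pairwise_cons]
    refine ⟨fun x hx => ?_, hs⟩
    have h4 : a' < a := (List.pairwise_cons.1 h2).1 a (by simp)
    rcases List.mem_cons.1 hx with rfl | hx
    · exact h4
    · exact h4.trans ((List.pairwise_cons.1 hs).1 x hx)

/-- the index type -/
abbrev Idx (n : ℕ) : Type := (Order.succ #(Pw n ℕ)).ord.ToType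

theorem shift_unc (n : ℕ) (c : List (Idx n) → ℕ) :
    ∃ a t b, t.length = n ∧ (a :: (t ++ [b])).Pairwise (· < ·) ∧ c (a :: t) = c (t ++ [b]) := by
  by_contra hn
  push Not at hn
  have := card_le_of_col n ℕ c hn
  rw [Cardinal.mk_ord_toType] at this
  exact (Order.lt_succ _).not_ge this

open Finset in
open Classical in
/-- weighted almost-bipartition of the de Bruijn digraph -/
theorem weighted {N : Type} (D : ℕ) (hD : 0 < D) : ∀ (j : ℕ) (T : Finset (List N))
    (wi wo : List N → ℕ), (∀ x ∈ T, x.length = j + 1) → T.card ≤ D ^ (j + 1) →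
    ∃ φ : List N → Bool,
      ∑ p ∈ (T ×ˢ T).filter (fun p => p.1.tail = p.2.dropLast ∧ φ p.1 = φ p.2),
        min (wi p.1) (wo p.2) ≤ (j + 1) * D * (∑ x ∈ T, wi x + ∑ x ∈ T, wo x)
  | 0, T, wi, wo, _, hT => by
    refine ⟨fun _ => true, ?_⟩
    calc _ ≤ ∑ p ∈ T ×ˢ T, wi p.1 :=
          (Finset.sum_le_sum fun p _ => min_le_left _ _).trans
            (Finset.sum_le_sum_of_subset (Finset.filter_subset _ _))
      _ = T.card * ∑ x ∈ T, wi x := by
          rw [Finset.sum_product]; simp [Finset.mul_sum]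
      _ ≤ _ := by
          simp only [zero_add, pow_one, one_mul] at hT ⊢
          exact Nat.mul_le_mul hT (Nat.le_add_right _ _)
  | j + 1, T, wi, wo, hl, hT => by
    let In : List N → Finset (List N) := fun s => T.filter (fun x => x.tail = s)
    let Out : List N → Finset (List N) := fun s => T.filter (fun x => x.dropLast = s)
    let T' : Finset (List N) := (T.image List.tail).filter
      (fun s => D < (In s).card ∧ D < (Out s).card)
    let wi' : List N → ℕ := fun s => ∑ x ∈ In s, wi x
    let wo' : List N → ℕ := fun s => ∑ x ∈ Out s, wo x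
    have hsum : ∀ (U : Finset (List N)) (g : List N → List N) (w : List N → ℕ),
        ∑ s ∈ U, ∑ x ∈ T.filter (fun x => g x = s), w x ≤ ∑ x ∈ T, w x := by
      intro U g w
      rw [Finset.sum_fiberwise_eq_sum_filter]
      exact Finset.sum_le_sum_of_subset (Finset.filter_subset _ _)
    have hT' : T'.card ≤ D ^ (j + 1) := by
      have h1 : T'.card * D ≤ T.card := by
        calc T'.card * D = ∑ s ∈ T', D := by simp
          _ ≤ ∑ s ∈ T', ∑ x ∈ In s, 1 := Finset.sum_le_sum fun s hs => by
              simpa using (Finset.mem_filter.1 hs).2.1.le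
          _ ≤ ∑ x ∈ T, 1 := hsum T' List.tail _
          _ = T.card := by simp
      have h2 : T'.card * D ≤ D ^ (j + 1) * D := by rw [← pow_succ]; exact h1.trans hT
      exact Nat.le_of_mul_le_mul_right h2 hD
    have hl' : ∀ s ∈ T', s.length = j + 1 := by
      intro s hs
      obtain ⟨x, hx, rfl⟩ := Finset.mem_image.1 (Finset.mem_filter.1 hs).1
      simp [hl x hx]
    obtain ⟨φ', hφ'⟩ := weighted D hD j T' wi' wo' hl' hT'
    let conf : List N → Prop := fun x => x.dropLast ∈ T' ∧ x.tail ∈ T' ∧ φ' x.dropLast = φ' x.tail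
    let φ : List N → Bool := fun x =>
      if x.tail ∈ T' ∧ ¬ (conf x ∧ wo' x.tail < wi' x.dropLast) then φ' x.tail else ! φ' x.dropLast
    refine ⟨φ, ?_⟩
    let A1 := (T ×ˢ T).filter (fun p => p.1.tail = p.2.dropLast ∧ (Out p.1.tail).card ≤ D)
    let A2 := (T ×ˢ T).filter (fun p => p.1.tail = p.2.dropLast ∧ (In p.2.dropLast).card ≤ D)
    let A3 := (T ×ˢ T).filter (fun p => p.1.tail = p.2.dropLast ∧
      (conf p.1 ∧ wo' p.1.tail < wi' p.1.dropLast))
    let A4 := (T ×ˢ T).filter (fun p => p.1.tail = p.2.dropLast ∧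
      (conf p.2 ∧ wi' p.2.dropLast ≤ wo' p.2.tail))
    have hsub : (T ×ˢ T).filter (fun p => p.1.tail = p.2.dropLast ∧ φ p.1 = φ p.2) ⊆
        (A1 ∪ A2) ∪ (A3 ∪ A4) := by
      intro p hp
      obtain ⟨hpT, h1, h2⟩ := Finset.mem_filter.1 hp
      simp only [A1, A2, A3, A4, Finset.mem_union, Finset.mem_filter]
      by_contra hn
      push Not at hn
      obtain ⟨⟨n1, n2⟩, n3, n4⟩ := hn
      have hs : p.1.tail ∈ T' := Finset.mem_filter.2
        ⟨Finset.mem_image_of_mem _ (Finset.mem_product.1 hpT).1, h1 ▸ n2 hpT h1, n1 hpT h1⟩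
      have e1 : φ p.1 = φ' p.1.tail := by
        simp only [φ]
        rw [if_pos ⟨hs, fun h => (n3 hpT h1 h.1).not_gt h.2⟩]
      have e2 : φ p.2 = ! φ' p.1.tail := by
        simp only [φ]
        split_ifs with h
        · by_cases hc : conf p.2
          · exact (h.2 ⟨hc, n4 hpT h1 hc⟩).elim
          · have : ¬ φ' p.2.dropLast = φ' p.2.tail := fun e => hc ⟨h1 ▸ hs, h.1, e⟩
            rw [h1]
            revert this
            cases φ' p.2.dropLast <;> cases φ' p.2.tail <;> simp
        · rw [h1]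
      rw [e1, e2] at h2
      revert h2
      cases φ' p.1.tail <;> simp
    have hU : ∀ (A B : Finset (List N × List N)) (f : List N × List N → ℕ),
        ∑ p ∈ A ∪ B, f p ≤ ∑ p ∈ A, f p + ∑ p ∈ B, f p := fun A B f => by
      rw [← Finset.sum_union_inter]; exact Nat.le_add_right _ _
    have b1 : ∑ p ∈ A1, min (wi p.1) (wo p.2) ≤ D * ∑ x ∈ T, wi x := by
      refine (Finset.sum_le_sum fun p _ => min_le_left _ _).trans ?_
      simp only [A1]
      rw [Finset.sum_filter, Finset.sum_product, Finset.mul_sum]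
      refine Finset.sum_le_sum fun x _ => ?_
      by_cases h : (Out x.tail).card ≤ D
      · simp only [h, and_true]
        rw [← Finset.sum_filter, Finset.sum_const, smul_eq_mul]
        refine Nat.mul_le_mul_right _ (le_trans (le_of_eq ?_) h)
        congr 1; ext y; simp [Out, eq_comm]
      · simp [h]
    have b2 : ∑ p ∈ A2, min (wi p.1) (wo p.2) ≤ D * ∑ x ∈ T, wo x := by
      refine (Finset.sum_le_sum fun p _ => min_le_right _ _).trans ?_
      simp only [A2]
      rw [Finset.sum_filter, Finset.sum_product_right, Finset.mul_sum]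
      refine Finset.sum_le_sum fun x _ => ?_
      by_cases h : (In x.dropLast).card ≤ D
      · simp only [h, and_true]
        rw [← Finset.sum_filter, Finset.sum_const, smul_eq_mul]
        exact Nat.mul_le_mul_right _ h
      · simp [h]
    have b3 : ∑ p ∈ A3, min (wi p.1) (wo p.2) ≤
        ∑ x ∈ T, if conf x ∧ wo' x.tail < wi' x.dropLast then wo' x.tail else 0 := by
      refine (Finset.sum_le_sum fun p _ => min_le_right _ _).trans ?_
      simp only [A3]
      rw [Finset.sum_filter, Finset.sum_product]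
      refine Finset.sum_le_sum fun x _ => ?_
      by_cases h : conf x ∧ wo' x.tail < wi' x.dropLast
      · simp only [h, and_true, if_true]
        rw [← Finset.sum_filter]
        refine le_of_eq (Finset.sum_congr ?_ fun _ _ => rfl)
        ext y; simp [Out, eq_comm]
      · simp [h]
    have b4 : ∑ p ∈ A4, min (wi p.1) (wo p.2) ≤
        ∑ x ∈ T, if conf x ∧ wi' x.dropLast ≤ wo' x.tail then wi' x.dropLast else 0 := by
      refine (Finset.sum_le_sum fun p _ => min_le_left _ _).trans ?_
      simp only [A4]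
      rw [Finset.sum_filter, Finset.sum_product_right]
      refine Finset.sum_le_sum fun x _ => ?_
      by_cases h : conf x ∧ wi' x.dropLast ≤ wo' x.tail
      · simp only [h, and_true, if_true]
        rw [← Finset.sum_filter]
      · simp [h]
    have b5 : ((∑ x ∈ T, if conf x ∧ wo' x.tail < wi' x.dropLast then wo' x.tail else 0) +
        ∑ x ∈ T, if conf x ∧ wi' x.dropLast ≤ wo' x.tail then wi' x.dropLast else 0) ≤
        ∑ p ∈ (T' ×ˢ T').filter (fun p => p.1.tail = p.2.dropLast ∧ φ' p.1 = φ' p.2),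
          min (wi' p.1) (wo' p.2) := by
      have e : ((∑ x ∈ T, if conf x ∧ wo' x.tail < wi' x.dropLast then wo' x.tail else 0) +
          ∑ x ∈ T, if conf x ∧ wi' x.dropLast ≤ wo' x.tail then wi' x.dropLast else 0) =
          ∑ x ∈ T.filter conf, min (wi' x.dropLast) (wo' x.tail) := by
        rw [← Finset.sum_add_distrib, Finset.sum_filter]
        refine Finset.sum_congr rfl fun x _ => ?_
        by_cases hc : conf x
        · simp only [hc, true_and, if_true]
          split_ifs <;> omega
        · rw [if_neg (fun h => hc h.1), if_neg (fun h => hc h.1), if_neg hc, add_zero]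
      rw [e]
      have hinj : Set.InjOn (fun x : List N => (x.dropLast, x.tail)) (T.filter conf : Finset _) := by
        intro x hx y hy e
        have hx' := hl x (Finset.mem_filter.1 hx).1
        have hy' := hl y (Finset.mem_filter.1 hy).1
        obtain ⟨e1, e2⟩ := Prod.mk.inj e
        match x, y, hx', hy', e1, e2 with
        | a :: b :: x, a' :: b' :: y, _, _, e1, e2 =>
          simp only [List.dropLast_cons_cons, List.tail_cons, List.cons.injEq] at e1 e2 ⊢
          exact ⟨e1.1, e2⟩
      rw [← Finset.sum_image (s := T.filter conf) (g := fun x : List N => (x.dropLast, x.tail))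
        (f := fun p => min (wi' p.1) (wo' p.2)) hinj]
      refine Finset.sum_le_sum_of_subset fun p hp => ?_
      obtain ⟨x, hx, rfl⟩ := Finset.mem_image.1 hp
      obtain ⟨-, h1, h2, h3⟩ := Finset.mem_filter.1 hx
      refine Finset.mem_filter.2 ⟨Finset.mem_product.2 ⟨h1, h2⟩, ?_, h3⟩
      match x with
      | [] => rfl
      | [_] => rfl
      | _ :: _ :: _ => rfl
    have b6 : ∑ s ∈ T', wi' s ≤ ∑ x ∈ T, wi x := hsum T' List.tail wi
    have b7 : ∑ s ∈ T', wo' s ≤ ∑ x ∈ T, wo x := hsum T' List.dropLast wo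
    have b8 := (Finset.sum_le_sum_of_subset (f := fun p => min (wi p.1) (wo p.2)) hsub).trans
      ((hU _ _ _).trans (add_le_add (hU _ _ _) (hU _ _ _)))
    have b9 : (j + 1) * D * (∑ s ∈ T', wi' s + ∑ s ∈ T', wo' s) ≤
        (j + 1) * D * (∑ x ∈ T, wi x + ∑ x ∈ T, wo x) := Nat.mul_le_mul_left _ (add_le_add b6 b7)
    have b10 : (j + 1 + 1) * D * (∑ x ∈ T, wi x + ∑ x ∈ T, wo x) =
      (j + 1) * D * (∑ x ∈ T, wi x + ∑ x ∈ T, wo x) + (D * ∑ x ∈ T, wi x + D * ∑ x ∈ T, wo x) := by
      ring
    omega

end Pool.Agent.H26.Shift
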