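import Mathlib
import Pool.Agent.H26.Shift
import Pool.Agent.H26.Chi

/-! A graph of chromatic number aleph one inside a de Bruijn graph. -/

namespace Pool.Agent.H26.AlmostBip

open Shift Chi

/-- The least number of edges whose deletion leaves a bipartite graph. -/
noncomputable def beta {W : Type*} (F : SimpleGraph W) : ℕ :=
  sInf {m : ℕ | ∃ H : SimpleGraph W, H ≤ F ∧ H.IsBipartite ∧ (F.edgeSet \ H.edgeSet).ncard = m}

variable {I : Type} [LinearOrder I]

abbrev Nd (I : Type) : Type := I × (I → List I → ℕ → I)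

def res (F : I → List I → ℕ → I) (ζ : I) : Nd I :=
  (ζ, fun η => if η ≤ ζ then F η else fun _ _ => η)

def Arc (n : ℕ) (x y : List (Nd I)) : Prop :=
  ∃ a t b, x = a :: t ∧ y = t ++ [b] ∧ t.length = n ∧ (∀ z ∈ x, z.1 < b.1) ∧
    ∃ m, a = res b.2 (b.2 b.1 (t.map Prod.fst) m)

open Classical in
noncomputable def rank (x : List (Nd I)) : WithBot I := x.toFinset.sup fun z => (z.1 : WithBot I)

lemma rank_lt {n : ℕ} {x y : List (Nd I)} (h : Arc n x y) : rank x < rank y := by
  classical
  obtain ⟨a, t, b, -, rfl, -, h1, -⟩ := h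
  have h2 : (b.1 : WithBot I) ≤ rank (t ++ [b]) := by
    unfold rank
    exact Finset.le_sup (f := fun z : Nd I => (z.1 : WithBot I)) (by simp)
  refine lt_of_lt_of_le ?_ h2
  unfold rank
  rw [Finset.sup_lt_iff (WithBot.bot_lt_coe _)]
  intro z hz
  exact WithBot.coe_lt_coe.2 (h1 z (by simpa using hz))

def G (I : Type) [LinearOrder I] (n : ℕ) : SimpleGraph (List (Nd I)) where
  Adj x y := Arc n x y ∨ Arc n y x
  symm := ⟨fun _ _ h => h.symm⟩
  loopless := ⟨fun _ h => by rcases h with h | h <;> exact lt_irrefl _ (rank_lt h)⟩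

theorem chi_G (n : ℕ) : chi (G (Idx n) n) = Cardinal.aleph 1 := by
  classical
  refine chi_eq _ (fun x y => rank x < rank y) (InvImage.wf rank wellFounded_lt) ?_ ?_ ?_
  · rintro x y (h | h)
    · exact Or.inl (rank_lt h)
    · exact Or.inr (rank_lt h)
  · intro y
    by_cases hy : ∃ t b, y = t ++ [b]
    · obtain ⟨t, b, rfl⟩ := hy
      refine (Set.countable_range fun m : ℕ =>
        res b.2 (b.2 b.1 (t.map Prod.fst) m) :: t).mono ?_
      rintro x ⟨h | h, h'⟩
      · obtain ⟨a, t', b', rfl, e, -, -, m, rfl⟩ := h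
        obtain ⟨rfl, e2⟩ := List.append_inj' e rfl
        obtain rfl : b = b' := by simpa using e2
        exact ⟨m, rfl⟩
      · exact (lt_asymm h' (rank_lt h)).elim
    · refine Set.countable_empty.mono ?_
      rintro x ⟨h | h, h'⟩
      · obtain ⟨a, t', b', rfl, e, -⟩ := h
        exact hy ⟨t', b', e⟩
      · exact (lt_asymm h' (rank_lt h)).elim
  · intro c
    let S : Idx n → (Idx n → List (Idx n) → ℕ → Idx n) → List (Idx n) → ℕ → Idx n :=
      fun ξ R u m => if h : ∃ a, a < ξ ∧ c (res R a :: u.map (res R)) = m then h.choose else ξ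
    have hS : ∀ ξ R u m, (∃ a, a < ξ ∧ c (res R a :: u.map (res R)) = m) →
        S ξ R u m < ξ ∧ c (res R (S ξ R u m) :: u.map (res R)) = m := fun ξ R u m h => by
      simp only [S, dif_pos h]; exact h.choose_spec
    let F : Idx n → List (Idx n) → ℕ → Idx n := (wellFounded_lt (α := Idx n)).fix fun ξ ih =>
      S ξ (fun η => if h : η < ξ then ih η h else fun _ _ => η)
    have hF : ∀ ξ, F ξ = S ξ (fun η => if _h : η < ξ then F η else fun _ _ => η) :=
      fun ξ => (wellFounded_lt (α := Idx n)).fix_eq _ ξ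
    obtain ⟨a, t, b, ht, hs, hc⟩ := shift_unc n (fun l => c (l.map (res F)))
    set R : Idx n → List (Idx n) → ℕ → Idx n :=
      fun η => if _h : η < b then F η else fun _ _ => η with hR
    have hres : ∀ z, z < b → res R z = res F z := by
      intro z hz
      simp only [res, Prod.mk.injEq, true_and]
      funext η
      by_cases h : η ≤ z
      · simp only [if_pos h, hR, dif_pos (h.trans_lt hz)]
      · simp only [if_neg h]
    have hab : a < b := (List.pairwise_cons.1 hs).1 b (by simp)
    have htb : ∀ z ∈ t, z < b := fun z hz =>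
      (List.pairwise_append.1 (List.pairwise_cons.1 hs).2).2.2 z hz b (by simp)
    have hmap : t.map (res R) = t.map (res F) := List.map_congr_left fun z hz => hres z (htb z hz)
    obtain ⟨h1, h2⟩ := hS b R t (c ((a :: t).map (res F)))
      ⟨a, hab, by rw [hres a hab, hmap]; rfl⟩
    rw [← hF] at h1 h2
    rw [hres _ h1, hmap] at h2
    refine ⟨_, t.map (res F) ++ [res F b], Or.inl ⟨_, t.map (res F), res F b, rfl, rfl, by simpa, ?_,
      c ((a :: t).map (res F)), ?_⟩, h2.trans (hc.trans (by simp))⟩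
    · intro z hz
      rcases List.mem_cons.1 hz with rfl | hz
      · exact h1
      · obtain ⟨w, hw, rfl⟩ := List.mem_map.1 hz
        exact htb w hw
    · have e1 : (t.map (res F)).map Prod.fst = t := by
        rw [List.map_map]; exact List.map_id'' (fun _ => rfl) t
      have e2 : (res F b).2 (res F b).1 = F b := by simp [res]
      rw [e1, e2]
      simp only [res, Prod.mk.injEq, true_and]
      funext η
      split_ifs with h3 h4
      · rfl
      · exact (h4 (h3.trans h1.le)).elim
      · rfl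

theorem beta_le (n D : ℕ) (hD : 0 < D) (S : Finset (List (Nd I))) (hS : S.card ≤ D ^ (n + 1)) :
    beta ((G I n).induce (S : Set _)) ≤ (n + 1) * D * (2 * S.card) := by
  classical
  let T := S.filter (fun x => x.length = n + 1)
  have hT : T.card ≤ S.card := Finset.card_filter_le _ _
  obtain ⟨φ, hφ⟩ := weighted D hD n T (fun _ => 1) (fun _ => 1)
    (fun x hx => (Finset.mem_filter.1 hx).2) (hT.trans hS)
  simp only [min_self, Finset.sum_const, smul_eq_mul, mul_one] at hφ
  let H : SimpleGraph (S : Set (List (Nd I))) :=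
    { Adj := fun x y => ((G I n).induce (S : Set _)).Adj x y ∧ φ x ≠ φ y
      symm := ⟨fun _ _ h => ⟨h.1.symm, h.2.symm⟩⟩
      loopless := ⟨fun _ h => h.2 rfl⟩ }
  have hH : H.IsBipartite := by
    have : H.Coloring Bool := SimpleGraph.Coloring.mk (fun x => φ x) fun h => h.2
    simpa using this.colorable
  have h0 : beta ((G I n).induce (S : Set _)) ≤
      (((G I n).induce (S : Set _)).edgeSet \ H.edgeSet).ncard :=
    Nat.sInf_le ⟨H, fun _ _ h => h.1, hH, rfl⟩
  refine h0.trans ?_
  refine le_trans ?_ (hφ.trans (Nat.mul_le_mul_left _ (by omega)))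
  rw [← Set.ncard_image_of_injective _ (Sym2.map.injective Subtype.val_injective),
    ← Set.ncard_coe_finset]
  refine le_trans (Set.ncard_le_ncard ?_ (Set.Finite.image _ (Finset.finite_toSet _)))
    (Set.ncard_image_le (f := fun p : List (Nd I) × List (Nd I) => s(p.1, p.2))
      (Finset.finite_toSet _))
  rintro _ ⟨e, ⟨he1, he2⟩, rfl⟩
  induction e using Sym2.ind with
  | h x y =>
    have h1 : Arc n x.1 y.1 ∨ Arc n y.1 x.1 := he1
    have h2 : φ x = φ y := by
      by_contra h
      exact he2 ⟨he1, h⟩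
    have key : ∀ x y : (S : Set (List (Nd I))), Arc n x.1 y.1 → φ x = φ y →
        (x.1, y.1) ∈ (T ×ˢ T).filter (fun p => p.1.tail = p.2.dropLast ∧ φ p.1 = φ p.2) := by
      rintro ⟨x, hx⟩ ⟨y, hy⟩ ⟨a, t, b, rfl, rfl, ht, -⟩ h
      refine Finset.mem_filter.2 ⟨Finset.mem_product.2 ⟨Finset.mem_filter.2 ⟨hx, by simpa⟩,
        Finset.mem_filter.2 ⟨hy, by simpa⟩⟩, by simp, h⟩
    rcases h1 with h1 | h1
    · exact ⟨(x.1, y.1), by simpa using key x y h1 h2, rfl⟩
    · exact ⟨(y.1, x.1), by simpa using key y x h1 h2.symm, Sym2.eq_swap⟩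

end Pool.Agent.H26.AlmostBip
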