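import Mathlib

set_option autoImplicit false

namespace Pool.Agent.H26.Ap

open Complex MeasureTheory Real
open scoped RealInnerProductSpace

abbrev V (m : ℕ) := EuclideanSpace ℝ (Fin m)

/-- the kernel on the light cone -/
noncomputable def ker {m : ℕ} (y : ℂ) (t : ℝ) (w : V m) (a : ℝ) (ξ : V m) : ℂ :=
  cexp (-(y - t * I) * (a : ℂ) ^ 2) * cexp (-(y + t * I) * (‖ξ‖ : ℂ) ^ 2 + (2 * I * a) * (⟪w, ξ⟫ : ℝ))

noncomputable def WW {m : ℕ} (y : ℂ) (t : ℝ) (w : V m) : ℂ :=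
  (y - t * I) + (‖w‖ : ℂ) ^ 2 / (y + t * I)

lemma p_re (y : ℂ) (t : ℝ) : (y + t * I).re = y.re := by simp

lemma WW_re {m : ℕ} (y : ℂ) (hy : 0 < y.re) (t : ℝ) (w : V m) : 0 < (WW y t w).re := by
  have h1 : (y - t * I).re = y.re := by simp
  have h2 : 0 ≤ ((‖w‖ : ℂ) ^ 2 / (y + t * I)).re := by
    rw [div_eq_mul_inv, ← ofReal_pow, re_ofReal_mul, inv_re, p_re]
    have := normSq_nonneg (y + t * I)
    positivity
  rw [WW, add_re, h1]; linarith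

lemma ker_integrable {m : ℕ} (y : ℂ) (hy : 0 < y.re) (t : ℝ) (w : V m) (a : ℝ) :
    Integrable (ker y t w a) := by
  unfold ker
  refine Integrable.const_mul ?_ _
  exact GaussianFourier.integrable_cexp_neg_mul_sq_norm_add (b := y + t * I)
    (by rw [p_re]; exact hy) (2 * I * a) w

lemma ker_integral {m : ℕ} (y : ℂ) (hy : 0 < y.re) (t : ℝ) (w : V m) (a : ℝ) :
    ∫ ξ, ker y t w a ξ =
      (π / (y + t * I)) ^ ((m : ℂ) / 2) * cexp (-(WW y t w) * (a : ℂ) ^ 2) := by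
  unfold ker
  rw [integral_const_mul, GaussianFourier.integral_cexp_neg_mul_sq_norm_add (b := y + t * I)
    (by rw [p_re]; exact hy) (2 * I * a) w]
  have hp : y + t * I ≠ 0 := by
    intro h
    have := p_re y t
    rw [h] at this; simp at this; linarith
  simp only [finrank_euclideanSpace, Fintype.card_fin]
  rw [mul_left_comm, ← Complex.exp_add]
  congr 2
  unfold WW
  field_simp
  have : I ^ 2 = -1 := I_sq
  ring_nf
  rw [this]; ring

lemma out_integrable (k : ℕ) (W : ℂ) (hW : 0 < W.re) :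
    Integrable (fun v : V k => cexp (-W * (‖v‖ : ℂ) ^ 2)) := by
  have := GaussianFourier.integrable_cexp_neg_mul_sq_norm_add (V := V k) (b := W) hW 0 0
  simpa using this

lemma out_integral (k : ℕ) (W : ℂ) (hW : 0 < W.re) :
    ∫ v : V k, cexp (-W * (‖v‖ : ℂ) ^ 2) = (π / W) ^ ((k : ℂ) / 2) := by
  have := GaussianFourier.integral_cexp_neg_mul_sq_norm_add (V := V k) (b := W) hW 0 0
  simpa using this

lemma ker_sum {ι : Type*} (s : Finset ι) {m : ℕ} (t : ι → ℝ) (w : ι → V m) (y : ℂ) (a : ℝ)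
    (ξ : V m) :
    ∑ x ∈ s, ∑ x' ∈ s, ker y (t x - t x') (w x - w x') a ξ =
      cexp (-y * ((a ^ 2 + ‖ξ‖ ^ 2 : ℝ) : ℂ)) *
        (normSq (∑ x ∈ s, cexp (((t x * (a ^ 2 - ‖ξ‖ ^ 2) + 2 * a * ⟪w x, ξ⟫ : ℝ) : ℂ) * I)) : ℝ) := by
  rw [← Complex.mul_conj, map_sum, Finset.sum_mul_sum, Finset.mul_sum]
  refine Finset.sum_congr rfl fun x _ => ?_
  rw [Finset.mul_sum]
  refine Finset.sum_congr rfl fun x' _ => ?_
  rw [← Complex.exp_conj, map_mul, conj_ofReal, conj_I, ker, ← Complex.exp_add, ← Complex.exp_add,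
    ← Complex.exp_add, inner_sub_left]
  congr 1
  push_cast
  ring

lemma ker_sum_norm {ι : Type*} (s : Finset ι) {m : ℕ} (t : ι → ℝ) (w : ι → V m) (y : ℂ) (a : ℝ)
    (ξ : V m) :
    ‖∑ x ∈ s, ∑ x' ∈ s, ker y (t x - t x') (w x - w x') a ξ‖ =
      (∑ x ∈ s, ∑ x' ∈ s, ker (y.re : ℂ) (t x - t x') (w x - w x') a ξ).re := by
  rw [ker_sum, ker_sum, norm_mul, Complex.norm_exp, Complex.norm_real, Real.norm_eq_abs,
    abs_of_nonneg (normSq_nonneg _), ← ofReal_neg, ← ofReal_mul, ← Complex.ofReal_exp,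
    ← ofReal_mul, ofReal_re]
  congr 2
  rw [re_mul_ofReal, neg_re]

noncomputable def HH {m : ℕ} (y : ℂ) (t : ℝ) (w : V m) : ℂ :=
  (π / (y + t * I)) ^ ((m : ℂ) / 2) * (π / WW y t w) ^ (((m + 2 : ℕ) : ℂ) / 2)

lemma dom {ι : Type*} (s : Finset ι) {m : ℕ} (t : ι → ℝ) (w : ι → V m) (y : ℂ) (hy : 0 < y.re) :
    ‖∑ x ∈ s, ∑ x' ∈ s, HH y (t x - t x') (w x - w x')‖ ≤
      (∑ x ∈ s, ∑ x' ∈ s, HH (y.re : ℂ) (t x - t x') (w x - w x')).re := by
  have hy' : 0 < ((y.re : ℂ)).re := by simpa using hy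
  have inI : ∀ (z : ℂ), 0 < z.re → ∀ a : ℝ,
      Integrable (fun ξ : V m => ∑ x ∈ s, ∑ x' ∈ s, ker z (t x - t x') (w x - w x') a ξ) :=
    fun z hz a => integrable_finset_sum _ fun x _ => integrable_finset_sum _ fun x' _ =>
      ker_integrable z hz _ _ a
  have inE : ∀ (z : ℂ), 0 < z.re → ∀ a : ℝ,
      ∫ ξ : V m, ∑ x ∈ s, ∑ x' ∈ s, ker z (t x - t x') (w x - w x') a ξ =
        ∑ x ∈ s, ∑ x' ∈ s, (π / (z + (t x - t x' : ℝ) * I)) ^ ((m : ℂ) / 2) *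
          cexp (-(WW z (t x - t x') (w x - w x')) * (a : ℂ) ^ 2) := by
    intro z hz a
    rw [integral_finset_sum _ fun x _ => integrable_finset_sum _ fun x' _ =>
      ker_integrable z hz _ _ a]
    refine Finset.sum_congr rfl fun x _ => ?_
    rw [integral_finset_sum _ fun x' _ => ker_integrable z hz _ _ a]
    exact Finset.sum_congr rfl fun x' _ => ker_integral z hz _ _ a
  have outI : ∀ (z : ℂ), 0 < z.re →
      Integrable (fun v : V (m + 2) => ∑ x ∈ s, ∑ x' ∈ s,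
        (π / (z + (t x - t x' : ℝ) * I)) ^ ((m : ℂ) / 2) *
          cexp (-(WW z (t x - t x') (w x - w x')) * (‖v‖ : ℂ) ^ 2)) :=
    fun z hz => integrable_finset_sum _ fun x _ => integrable_finset_sum _ fun x' _ =>
      (out_integrable _ _ (WW_re z hz _ _)).const_mul _
  have outE : ∀ (z : ℂ), 0 < z.re →
      ∫ v : V (m + 2), ∑ x ∈ s, ∑ x' ∈ s,
        (π / (z + (t x - t x' : ℝ) * I)) ^ ((m : ℂ) / 2) *
          cexp (-(WW z (t x - t x') (w x - w x')) * (‖v‖ : ℂ) ^ 2) =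
        ∑ x ∈ s, ∑ x' ∈ s, HH z (t x - t x') (w x - w x') := by
    intro z hz
    rw [integral_finset_sum _ fun x _ => integrable_finset_sum _ fun x' _ =>
      (out_integrable _ _ (WW_re z hz _ _)).const_mul _]
    refine Finset.sum_congr rfl fun x _ => ?_
    rw [integral_finset_sum _ fun x' _ => (out_integrable _ _ (WW_re z hz _ _)).const_mul _]
    refine Finset.sum_congr rfl fun x' _ => ?_
    rw [integral_const_mul, out_integral _ _ (WW_re z hz _ _), HH]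
  rw [← outE y hy, ← outE _ hy']
  have hre := (integral_re (𝕜 := ℂ) (outI _ hy'))
  simp only [RCLike.re_to_complex] at hre
  rw [← hre]
  refine norm_integral_le_of_norm_le (outI _ hy').re (Filter.Eventually.of_forall fun v => ?_)
  rw [← inE y hy ‖v‖]
  rw [← inE _ hy' ‖v‖]
  have hre2 := (integral_re (𝕜 := ℂ) (inI _ hy' ‖v‖))
  simp only [RCLike.re_to_complex] at hre2
  rw [← hre2]
  refine norm_integral_le_of_norm_le (inI _ hy' ‖v‖).re (Filter.Eventually.of_forall fun ξ => ?_)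
  exact (ker_sum_norm s t w y ‖v‖ ξ).le

lemma cpow_mul_re_pos (a b r : ℂ) (ha : 0 < a.re) (hb : 0 < b.re) :
    a ^ r * b ^ r = (a * b) ^ r := by
  have ha0 : a ≠ 0 := fun h => by simp [h] at ha
  have hb0 : b ≠ 0 := fun h => by simp [h] at hb
  have h1 : |arg a| < π / 2 := abs_arg_lt_pi_div_two_iff.2 (Or.inl ha)
  have h2 : |arg b| < π / 2 := abs_arg_lt_pi_div_two_iff.2 (Or.inl hb)
  rw [abs_lt] at h1 h2
  rw [cpow_def_of_ne_zero ha0, cpow_def_of_ne_zero hb0, cpow_def_of_ne_zero (mul_ne_zero ha0 hb0),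
    (log_mul_eq_add_log_iff ha0 hb0).2 ⟨by linarith [h1.1, h2.1], by linarith [h1.2, h2.2]⟩,
    ← Complex.exp_add, add_mul]

lemma div_re_pos (z : ℂ) (hz : 0 < z.re) : 0 < ((π : ℂ) / z).re := by
  have hz0 : z ≠ 0 := fun h => by simp [h] at hz
  rw [div_eq_mul_inv, re_ofReal_mul, inv_re]
  have := normSq_pos.2 hz0
  have := Real.pi_pos
  positivity

lemma HH_eq {m : ℕ} (y : ℂ) (hy : 0 < y.re) (t : ℝ) (w : V m) :
    HH y t w = (y + t * I) / π *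
      ((π : ℂ) ^ 2 / (y ^ 2 + ((t ^ 2 + ‖w‖ ^ 2 : ℝ) : ℂ))) ^ ((((m : ℝ) / 2 + 1 : ℝ)) : ℂ) := by
  have hp : 0 < (y + t * I).re := by rw [p_re]; exact hy
  have hp0 : y + t * I ≠ 0 := fun h => by simp [h] at hp
  have hW := WW_re y hy t w
  have hW0 : WW y t w ≠ 0 := fun h => by simp [h] at hW
  have hpi : (π : ℂ) ≠ 0 := ofReal_ne_zero.2 Real.pi_ne_zero
  have e1 : (((m + 2 : ℕ) : ℂ) / 2) = ((((m : ℝ) / 2 + 1 : ℝ)) : ℂ) := by push_cast; ring
  have e2 : ((((m : ℝ) / 2 + 1 : ℝ)) : ℂ) = (m : ℂ) / 2 + 1 := by push_cast; ring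
  have e3 : (π : ℂ) ^ 2 / (y ^ 2 + ((t ^ 2 + ‖w‖ ^ 2 : ℝ) : ℂ)) =
      (π / (y + t * I)) * (π / WW y t w) := by
    rw [div_mul_div_comm, ← sq]
    congr 1
    unfold WW
    field_simp
    push_cast
    have : I ^ 2 = -1 := I_sq
    ring_nf
    rw [this]; ring
  rw [HH, e1, e3, ← cpow_mul_re_pos _ _ _ (div_re_pos _ hp) (div_re_pos _ hW), ← mul_assoc]
  congr 1
  rw [e2, cpow_add _ _ (div_ne_zero hpi hp0), cpow_one]
  field_simp

lemma antisym {ι : Type*} (s : Finset ι) (t : ι → ℝ) (G : ι → ι → ℂ) (hG : ∀ x x', G x x' = G x' x)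
    (y : ℂ) :
    ∑ x ∈ s, ∑ x' ∈ s, (y + ((t x - t x' : ℝ) : ℂ) * I) / π * G x x' =
      y / π * ∑ x ∈ s, ∑ x' ∈ s, G x x' := by
  have h1 : ∑ x ∈ s, ∑ x' ∈ s, (t x' : ℂ) * I / π * G x x' =
      ∑ x ∈ s, ∑ x' ∈ s, (t x : ℂ) * I / π * G x x' := by
    rw [Finset.sum_comm]
    exact Finset.sum_congr rfl fun x _ => Finset.sum_congr rfl fun x' _ => by rw [hG]
  have h2 : ∑ x ∈ s, ∑ x' ∈ s, (y + ((t x - t x' : ℝ) : ℂ) * I) / π * G x x' =
      ∑ x ∈ s, ∑ x' ∈ s, y / π * G x x' + ∑ x ∈ s, ∑ x' ∈ s, (t x : ℂ) * I / π * G x x'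
        - ∑ x ∈ s, ∑ x' ∈ s, (t x' : ℂ) * I / π * G x x' := by
    rw [← Finset.sum_add_distrib, ← Finset.sum_sub_distrib]
    refine Finset.sum_congr rfl fun x _ => ?_
    rw [← Finset.sum_add_distrib, ← Finset.sum_sub_distrib]
    refine Finset.sum_congr rfl fun x' _ => ?_
    push_cast; ring
  rw [h2, h1, add_sub_cancel_right, Finset.mul_sum]
  exact Finset.sum_congr rfl fun x _ => by rw [Finset.mul_sum]

theorem star {ι : Type*} (s : Finset ι) {m : ℕ} (t : ι → ℝ) (w : ι → V m) (R : ι → ι → ℝ)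
    (hR : ∀ x x', R x x' = (t x - t x') ^ 2 + ‖w x - w x'‖ ^ 2) (y : ℂ) (hy : 0 < y.re) :
    ‖y‖ * ‖∑ x ∈ s, ∑ x' ∈ s,
      ((π : ℂ) ^ 2 / (y ^ 2 + (R x x' : ℂ))) ^ ((((m : ℝ) / 2 + 1 : ℝ)) : ℂ)‖ ≤
      y.re * ∑ x ∈ s, ∑ x' ∈ s, (π ^ 2 / (y.re ^ 2 + R x x')) ^ ((m : ℝ) / 2 + 1) := by
  have hy' : 0 < ((y.re : ℂ)).re := by simpa using hy
  have hsym : ∀ x x', R x x' = R x' x := by
    intro x x'; rw [hR, hR, norm_sub_rev]; ring
  have hR0 : ∀ x x', 0 ≤ R x x' := fun x x' => by rw [hR]; positivity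
  have h := dom s t w y hy
  simp only [HH_eq y hy, HH_eq _ hy', ← hR] at h
  rw [antisym s t _ (fun x x' => by rw [hsym]), antisym s t _ (fun x x' => by rw [hsym])] at h
  have e : ∑ x ∈ s, ∑ x' ∈ s,
      ((π : ℂ) ^ 2 / ((y.re : ℂ) ^ 2 + (R x x' : ℂ))) ^ ((((m : ℝ) / 2 + 1 : ℝ)) : ℂ) =
      ((∑ x ∈ s, ∑ x' ∈ s, (π ^ 2 / (y.re ^ 2 + R x x')) ^ ((m : ℝ) / 2 + 1) : ℝ) : ℂ) := by
    rw [ofReal_sum]
    refine Finset.sum_congr rfl fun x _ => ?_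
    rw [ofReal_sum]
    refine Finset.sum_congr rfl fun x' _ => ?_
    have := hR0 x x'
    rw [ofReal_cpow (by positivity)]
    congr 1
    push_cast; ring
  rw [e, ← ofReal_div, ← ofReal_mul, ofReal_re, norm_mul, norm_div, Complex.norm_real,
    Real.norm_eq_abs, abs_of_pos Real.pi_pos, div_mul_eq_mul_div, div_mul_eq_mul_div] at h
  exact (div_le_div_iff_of_pos_right Real.pi_pos).1 h

end Pool.Agent.H26.Ap
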