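import Mathlib

set_option autoImplicit false

namespace Pool.Agent.H26.Ap

open Complex Real

lemma rot (z : ℂ) (hz : 0 < z.im) (s : ℝ) :
    cexp (π * s * I) * (-z) ^ (s : ℂ) = z ^ (s : ℂ) := by
  have hz0 : z ≠ 0 := fun h => by simp [h] at hz
  rw [cpow_def_of_ne_zero hz0, cpow_def_of_ne_zero (neg_ne_zero.2 hz0), ← Complex.exp_add]
  congr 1
  rw [Complex.log, Complex.log, arg_neg_eq_arg_sub_pi_of_im_pos hz, norm_neg]
  push_cast; ring

lemma re_low (z : ℂ) (hre : 0 < z.re) (him : 0 < z.im) (s : ℝ) (hs : 0 < s)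
    (h : z.im / z.re * s ≤ 1) : ‖z‖ ^ s / 2 ≤ (z ^ (s : ℂ)).re := by
  rw [cpow_ofReal_re]
  have h1 : |arg z| < π / 2 := abs_arg_lt_pi_div_two_iff.2 (Or.inl hre)
  have h0 : 0 ≤ arg z := arg_nonneg_iff.2 him.le
  have h2 : arg z ≤ z.im / z.re := by
    rw [← tan_arg]; exact Real.le_tan h0 (lt_of_abs_lt h1)
  have h3 : arg z * s ≤ 1 := le_trans (mul_le_mul_of_nonneg_right h2 hs.le) h
  have h4 : 0 ≤ arg z * s := by positivity
  have h5 := Real.one_sub_sq_div_two_le_cos (x := arg z * s)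
  have h6 : (1 : ℝ) / 2 ≤ Real.cos (arg z * s) := by nlinarith
  have h7 : 0 ≤ ‖z‖ ^ s := by positivity
  nlinarith

lemma low (s η ε ρ R : ℝ) (hs : 1 ≤ s) (hη : 0 < η) (hηε : 4 * s * η ≤ ε) (hε1 : ε < 1)
    (hρ : 0 < ρ) (hρ2 : ρ ^ 2 = 1 + η ^ 2 + ε) (hR : R ≤ 1) :
    0 ≤ (cexp (π * s * I) *
      ((π : ℂ) ^ 2 / (((η : ℂ) + ρ * I) ^ 2 + (R : ℂ))) ^ (s : ℂ)).re ∧
    ((1 - ε) ^ 2 ≤ R → (π ^ 2 / (4 * ε)) ^ s / 2 ≤ (cexp (π * s * I) *
      ((π : ℂ) ^ 2 / (((η : ℂ) + ρ * I) ^ 2 + (R : ℂ))) ^ (s : ℂ)).re) := by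
  have hη4 : 4 * η ≤ ε := by nlinarith
  have hε : 0 < ε := by linarith
  have hρ3 : ρ ≤ 2 := by nlinarith
  set A : ℝ := 1 + ε - R with hA
  set B : ℝ := 2 * η * ρ with hB
  have hA0 : ε ≤ A := by linarith
  have hB0 : 0 < B := by positivity
  have hB1 : B ≤ 4 * η := by nlinarith
  set u : ℂ := (A : ℂ) - B * I with hu
  have hure : u.re = A := by simp [hu]
  have huim : u.im = -B := by simp [hu]
  have hu0 : u ≠ 0 := fun h => by rw [h] at hure; simp at hure; linarith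
  have hq : ((η : ℂ) + ρ * I) ^ 2 + (R : ℂ) = -u := by
    have h1 : ((ρ : ℂ)) ^ 2 = 1 + (η : ℂ) ^ 2 + ε := by exact_mod_cast hρ2
    have h2 : I ^ 2 = -1 := I_sq
    rw [hu, hA, hB]; push_cast
    linear_combination (ρ : ℂ) ^ 2 * h2 - h1
  set z : ℂ := (π : ℂ) ^ 2 / u with hz
  have hN : 0 < normSq u := normSq_pos.2 hu0
  have hpi := Real.pi_pos
  have hzre : z.re = π ^ 2 * (A / normSq u) := by
    rw [hz, div_eq_mul_inv, ← ofReal_pow, re_ofReal_mul, inv_re, hure]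
  have hzim : z.im = π ^ 2 * (B / normSq u) := by
    rw [hz, div_eq_mul_inv, ← ofReal_pow, im_ofReal_mul, inv_im, huim, neg_neg]
  have hA1 : 0 < A := by linarith
  have hre : 0 < z.re := by rw [hzre]; positivity
  have him : 0 < z.im := by rw [hzim]; positivity
  have hrat : z.im / z.re * s ≤ 1 := by
    have : z.im / z.re = B / A := by rw [hzre, hzim]; field_simp
    rw [this, div_mul_eq_mul_div, div_le_one hA1]
    nlinarith
  rw [hq, div_neg, ← hz, rot z him s]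
  have hl := re_low z hre him s (by linarith) hrat
  refine ⟨le_trans (by positivity) hl, fun hR2 => le_trans ?_ hl⟩
  have hun : ‖u‖ ≤ 4 * ε := by
    have := norm_le_abs_re_add_abs_im u
    rw [hure, huim, abs_neg, abs_of_pos hA1, abs_of_pos hB0] at this
    nlinarith
  have hzn : π ^ 2 / (4 * ε) ≤ ‖z‖ := by
    rw [hz, norm_div, norm_pow, Complex.norm_real, Real.norm_eq_abs, abs_of_pos hpi]
    exact div_le_div_of_nonneg_left (by positivity) (norm_pos_iff.2 hu0) hun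
  have := Real.rpow_le_rpow (by positivity) hzn (by linarith : 0 ≤ s)
  linarith

end Pool.Agent.H26.Ap
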