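import Mathlib

set_option autoImplicit false
open Classical

namespace Pool.Agent.H26.Ap

open Real Finset

noncomputable def gg (γ : ℝ) (k : ℤ) : ℝ :=
  (if k = 0 then 1 else 0) + (2 : ℝ) ^ (2 * γ) * |(k : ℝ)| ^ (-(2 * γ))

lemma gg_nonneg (γ : ℝ) (k : ℤ) : 0 ≤ gg γ k := by
  unfold gg; split_ifs <;> positivity

lemma gg_neg (γ : ℝ) (k : ℤ) : gg γ (-k) = gg γ k := by
  unfold gg; simp

lemma gg_summable (γ : ℝ) (h : 1 < 2 * γ) : Summable (gg γ) := by
  unfold gg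
  refine Summable.add ?_ ((Real.summable_abs_int_rpow h).mul_left _)
  exact (hasSum_ite_eq (0 : ℤ) (1 : ℝ)).summable

lemma gg_tsum_pos (γ : ℝ) (h : 1 < 2 * γ) : 0 < ∑' k, gg γ k := by
  refine (gg_summable γ h).tsum_pos (gg_nonneg γ) 0 ?_
  unfold gg
  have : 0 ≤ (2 : ℝ) ^ (2 * γ) * |((0 : ℤ) : ℝ)| ^ (-(2 * γ)) := by positivity
  simp only [if_true]; linarith

lemma coord (γ : ℝ) (hγ : 0 < γ) (a b : ℝ) :
    (1 + (a - b) ^ 2) ^ (-γ) ≤ gg γ (⌊a⌋ - ⌊b⌋) := by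
  unfold gg
  have h0 : 0 ≤ (2 : ℝ) ^ (2 * γ) * |((⌊a⌋ - ⌊b⌋ : ℤ) : ℝ)| ^ (-(2 * γ)) := by positivity
  split_ifs with h
  · have : (1 + (a - b) ^ 2) ^ (-γ) ≤ 1 :=
      Real.rpow_le_one_of_one_le_of_nonpos (by nlinarith [sq_nonneg (a - b)]) (by linarith)
    linarith
  · set k : ℝ := ((⌊a⌋ - ⌊b⌋ : ℤ) : ℝ) with hk
    have hk0 : 0 < |k| := abs_pos.2 (by rw [hk]; exact_mod_cast h)
    have hk1 : |k| ≤ |a - b| + 1 := by
      have h1 := Int.floor_le a
      have h2 := Int.lt_floor_add_one a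
      have h3 := Int.floor_le b
      have h4 := Int.lt_floor_add_one b
      have h5 := le_abs_self (a - b)
      have h6 := neg_abs_le (a - b)
      rw [hk, abs_le]; push_cast
      constructor <;> linarith
    have h2 : (|k| / 2) ^ (2 : ℝ) ≤ 1 + (a - b) ^ 2 := by
      rw [Real.rpow_two, ← sq_abs (a - b)]
      have := abs_nonneg (a - b)
      nlinarith [sq_nonneg (|a - b| - 1)]
    have h3 : (1 + (a - b) ^ 2) ^ (-γ) ≤ ((|k| / 2) ^ (2 : ℝ)) ^ (-γ) :=
      Real.rpow_le_rpow_of_nonpos (by positivity) h2 (by linarith)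
    have h4 : ((|k| / 2) ^ (2 : ℝ)) ^ (-γ) = (2 : ℝ) ^ (2 * γ) * |k| ^ (-(2 * γ)) := by
      rw [← Real.rpow_mul (by positivity), Real.div_rpow hk0.le (by norm_num),
        show (2 : ℝ) * -γ = -(2 * γ) by ring, Real.rpow_neg (by norm_num : (0 : ℝ) ≤ 2)]
      field_simp
    linarith

lemma kern {d : ℕ} (γ η : ℝ) (hγ : 0 < γ) (hη : 0 < η) (x y : EuclideanSpace ℝ (Fin d)) :
    (π ^ 2 / (η ^ 2 + dist x y ^ 2)) ^ ((d : ℝ) * γ) ≤
      (π ^ 2 / η ^ 2) ^ ((d : ℝ) * γ) * ∏ i, gg γ (⌊x i / η⌋ - ⌊y i / η⌋) := by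
  have e : π ^ 2 / (η ^ 2 + dist x y ^ 2) = (π ^ 2 / η ^ 2) * (1 + dist x y ^ 2 / η ^ 2)⁻¹ := by
    field_simp
  rw [e, Real.mul_rpow (by positivity) (by positivity)]
  refine mul_le_mul_of_nonneg_left ?_ (by positivity)
  have e2 : ((1 + dist x y ^ 2 / η ^ 2)⁻¹) ^ ((d : ℝ) * γ) =
      ∏ _i : Fin d, (1 + dist x y ^ 2 / η ^ 2) ^ (-γ) := by
    rw [Finset.prod_const, Finset.card_univ, Fintype.card_fin,
      ← Real.rpow_mul_natCast (by positivity), Real.inv_rpow (by positivity),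
      ← Real.rpow_neg (by positivity)]
    congr 1; ring
  rw [e2]
  refine Finset.prod_le_prod (fun i _ => by positivity) fun i _ => ?_
  refine le_trans ?_ (coord γ hγ _ _)
  refine Real.rpow_le_rpow_of_nonpos (by positivity) ?_ (by linarith)
  have h1 : dist (x i) (y i) ≤ dist x y := PiLp.dist_apply_le x y i
  have h2 : (x i - y i) ^ 2 ≤ dist x y ^ 2 := by
    rw [← sq_abs, ← Real.dist_eq]; exact pow_le_pow_left₀ dist_nonneg h1 2
  rw [← sub_div, div_pow]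
  have := div_le_div_of_nonneg_right h2 (by positivity : 0 ≤ η ^ 2)
  linarith

lemma rowsum {d : ℕ} (γ : ℝ) (h : 1 < 2 * γ) (T : Finset (Fin d → ℤ)) (a : Fin d → ℤ) :
    ∑ b ∈ T, ∏ i, gg γ (a i - b i) ≤ (∑' k, gg γ k) ^ d := by
  have hsub : T ⊆ Fintype.piFinset fun i => T.image fun b => b i := by
    intro b hb
    exact Fintype.mem_piFinset.2 fun i => Finset.mem_image_of_mem _ hb
  refine le_trans (Finset.sum_le_sum_of_subset_of_nonneg hsub fun b _ _ =>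
    Finset.prod_nonneg fun i _ => gg_nonneg _ _) ?_
  rw [← Finset.prod_univ_sum (fun i => T.image fun b => b i) (fun i k => gg γ (a i - k))]
  have : (∑' k, gg γ k) ^ d = ∏ _i : Fin d, ∑' k, gg γ k := by simp
  rw [this]
  refine Finset.prod_le_prod (fun i _ => Finset.sum_nonneg fun k _ => gg_nonneg _ _) fun i _ => ?_
  have hs : Summable fun k => gg γ (a i - k) :=
    (Equiv.subLeft (a i)).summable_iff.2 (gg_summable γ h)
  rw [← (Equiv.subLeft (a i)).tsum_eq (gg γ)]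
  exact hs.sum_le_tsum _ fun k _ => gg_nonneg _ _

lemma schur {α β : Type*} [DecidableEq β] (X : Finset α) (κ : α → β) (W : β → β → ℝ) (hW : ∀ a b, 0 ≤ W a b)
    (hs : ∀ a b, W a b = W b a) (Λ : ℝ) (hΛ : ∀ a, ∑ b ∈ X.image κ, W a b ≤ Λ) :
    ∑ x ∈ X, ∑ y ∈ X, W (κ x) (κ y) ≤
      Λ * ∑ a ∈ X.image κ, ((X.filter fun x => κ x = a).card : ℝ) ^ 2 := by
  set n : β → ℝ := fun a => ((X.filter fun x => κ x = a).card : ℝ) with hn
  have e1 : ∑ x ∈ X, ∑ y ∈ X, W (κ x) (κ y) =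
      ∑ a ∈ X.image κ, ∑ b ∈ X.image κ, n a * n b * W a b := by
    rw [Finset.sum_comp (fun a => ∑ y ∈ X, W a (κ y)) κ]
    refine Finset.sum_congr rfl fun a _ => ?_
    rw [Finset.sum_comp (fun b => W a b) κ, nsmul_eq_mul, Finset.mul_sum]
    refine Finset.sum_congr rfl fun b _ => ?_
    rw [nsmul_eq_mul, hn]; ring
  have e2 : ∑ a ∈ X.image κ, ∑ b ∈ X.image κ, n b ^ 2 * W a b =
      ∑ a ∈ X.image κ, ∑ b ∈ X.image κ, n a ^ 2 * W a b := by
    rw [Finset.sum_comm]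
    exact Finset.sum_congr rfl fun a _ => Finset.sum_congr rfl fun b _ => by rw [hs]
  have e3 : 2 * ∑ a ∈ X.image κ, ∑ b ∈ X.image κ, n a * n b * W a b ≤
      ∑ a ∈ X.image κ, ∑ b ∈ X.image κ, n a ^ 2 * W a b +
        ∑ a ∈ X.image κ, ∑ b ∈ X.image κ, n b ^ 2 * W a b := by
    rw [← Finset.sum_add_distrib, Finset.mul_sum]
    refine Finset.sum_le_sum fun a _ => ?_
    rw [← Finset.sum_add_distrib, Finset.mul_sum]
    refine Finset.sum_le_sum fun b _ => ?_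
    nlinarith [mul_nonneg (sq_nonneg (n a - n b)) (hW a b)]
  have e4 : ∑ a ∈ X.image κ, ∑ b ∈ X.image κ, n a ^ 2 * W a b ≤
      Λ * ∑ a ∈ X.image κ, n a ^ 2 := by
    rw [Finset.mul_sum]
    refine Finset.sum_le_sum fun a _ => ?_
    rw [← Finset.mul_sum, mul_comm Λ]
    exact mul_le_mul_of_nonneg_left (hΛ a) (sq_nonneg _)
  rw [e1]; linarith

lemma pigeon {α β : Type*} [DecidableEq β] (X : Finset α) (κ : α → β) :
    (X.card : ℝ) ≤ (∑ a ∈ X.image κ, ((X.filter fun x => κ x = a).card : ℝ) ^ 2) / 8 +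
      2 * (X.image κ).card := by
  rw [Finset.card_eq_sum_card_image κ X]
  push_cast
  rw [Finset.card_eq_sum_ones (X.image κ), Finset.sum_div]
  push_cast
  rw [Finset.mul_sum, ← Finset.sum_add_distrib]
  refine Finset.sum_le_sum fun a _ => ?_
  nlinarith [sq_nonneg (((X.filter fun x => κ x = a).card : ℝ) - 4)]

lemma card_off {α : Type*} (X : Finset α) (P : α × α → Prop) [DecidablePred P] :
    ((X.offDiag.filter P).card : ℝ) =
      ∑ x ∈ X, ∑ y ∈ X, if x ≠ y ∧ P (x, y) then (1 : ℝ) else 0 := by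
  have : X.offDiag.filter P = (X ×ˢ X).filter fun p => p.1 ≠ p.2 ∧ P p := by
    ext p; simp [Finset.mem_offDiag, and_assoc]
  rw [this, Finset.card_filter]
  push_cast
  rw [Finset.sum_product]

lemma fib_le {α β : Type*} [DecidableEq β] (X : Finset α) (κ : α → β) (P : α × α → Prop) [DecidablePred P]
    (h : ∀ x y, κ y = κ x → P (x, y)) :
    ∑ a ∈ X.image κ, ((X.filter fun x => κ x = a).card : ℝ) ^ 2 ≤
      X.card + ((X.offDiag.filter P).card : ℝ) := by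
  have e1 : ∑ a ∈ X.image κ, ((X.filter fun x => κ x = a).card : ℝ) ^ 2 =
      ∑ x ∈ X, ((X.filter fun y => κ y = κ x).card : ℝ) := by
    rw [Finset.sum_comp (fun a => ((X.filter fun y => κ y = a).card : ℝ)) κ]
    exact Finset.sum_congr rfl fun a _ => by rw [nsmul_eq_mul, sq]
  rw [e1, card_off, Finset.card_eq_sum_ones X]
  push_cast
  rw [← Finset.sum_add_distrib]
  refine Finset.sum_le_sum fun x hx => ?_
  have e2 : (1 : ℝ) = ∑ y ∈ X, if x = y then (1 : ℝ) else 0 := by simp [hx]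
  rw [Finset.card_filter]
  push_cast
  nth_rewrite 2 [e2]
  rw [← Finset.sum_add_distrib]
  refine Finset.sum_le_sum fun y _ => ?_
  by_cases h1 : x = y
  · subst h1; simp
  · by_cases h2 : κ y = κ x
    · simp [h1, h2, h x y h2]
    · simp only [h1, h2, if_false]
      split_ifs <;> norm_num

lemma cell_close {d : ℕ} (η : ℝ) (hη : 0 < η) (x y : EuclideanSpace ℝ (Fin d))
    (h : (fun i => ⌊y i / η⌋) = fun i => ⌊x i / η⌋) : dist x y ≤ (2 * d + 2) * η := by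
  rw [EuclideanSpace.dist_eq]
  refine Real.sqrt_le_iff.2 ⟨by positivity, ?_⟩
  have h1 : ∀ i, dist (x i) (y i) ^ 2 ≤ η ^ 2 := by
    intro i
    have := Int.abs_sub_lt_one_of_floor_eq_floor (congrFun h i)
    rw [← sub_div, abs_div, abs_of_pos hη, div_lt_one hη, abs_sub_comm, ← Real.dist_eq] at this
    exact pow_le_pow_left₀ dist_nonneg this.le 2
  refine le_trans (Finset.sum_le_sum fun i _ => h1 i) ?_
  rw [Finset.sum_const, Finset.card_univ, Fintype.card_fin, nsmul_eq_mul, mul_pow]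
  have : (0 : ℝ) ≤ d := by positivity
  exact mul_le_mul_of_nonneg_right (by nlinarith) (by positivity)

lemma cells_card {d : ℕ} (η : ℝ) (hη : 0 < η) (hη1 : η ≤ 1) (X : Finset (EuclideanSpace ℝ (Fin d)))
    (hX : ∀ x ∈ X, ∀ y ∈ X, dist x y ≤ 1) :
    ((X.image fun x => fun i => ⌊x i / η⌋).card : ℝ) ≤ (7 / η) ^ d := by
  rcases X.eq_empty_or_nonempty with rfl | ⟨x0, hx0⟩
  · simp; positivity
  set K : ℕ := ⌈1 / η⌉₊ + 1 with hK
  have hK1 : (K : ℝ) ≤ 1 / η + 2 := by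
    have := Nat.ceil_lt_add_one (by positivity : 0 ≤ 1 / η)
    rw [hK]; push_cast; linarith
  have hK2 : 1 / η + 1 ≤ (K : ℝ) := by
    have := Nat.le_ceil (1 / η)
    rw [hK]; push_cast; linarith
  have hsub : (X.image fun x => fun i => ⌊x i / η⌋) ⊆
      Fintype.piFinset fun i => Finset.Icc (⌊x0 i / η⌋ - K) (⌊x0 i / η⌋ + K) := by
    intro b hb
    obtain ⟨x, hx, rfl⟩ := Finset.mem_image.1 hb
    refine Fintype.mem_piFinset.2 fun i => ?_
    have h1 : dist (x i) (x0 i) ≤ 1 := (PiLp.dist_apply_le x x0 i).trans (hX x hx x0 hx0)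
    rw [Real.dist_eq] at h1
    have h2 : |x i / η - x0 i / η| ≤ 1 / η := by
      rw [← sub_div, abs_div, abs_of_pos hη]
      exact div_le_div_of_nonneg_right h1 hη.le
    rw [abs_le] at h2
    have h3 := Int.floor_le (x i / η)
    have h4 := Int.lt_floor_add_one (x i / η)
    have h5 := Int.floor_le (x0 i / η)
    have h6 := Int.lt_floor_add_one (x0 i / η)
    rw [Finset.mem_Icc]
    constructor
    · have : ((⌊x0 i / η⌋ - K : ℤ) : ℝ) ≤ (⌊x i / η⌋ : ℤ) := by push_cast; linarith [h2.1]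
      exact_mod_cast this
    · have : ((⌊x i / η⌋ : ℤ) : ℝ) ≤ (⌊x0 i / η⌋ + K : ℤ) := by push_cast; linarith [h2.2]
      exact_mod_cast this
  have hc := Finset.card_le_card hsub
  rw [Fintype.card_piFinset] at hc
  have hI : ∀ i, (Finset.Icc (⌊x0 i / η⌋ - K) (⌊x0 i / η⌋ + K)).card = 2 * K + 1 := by
    intro i; rw [Int.card_Icc]; omega
  simp only [hI, Finset.prod_const, Finset.card_univ, Fintype.card_fin] at hc
  have hc2 : ((X.image fun x => fun i => ⌊x i / η⌋).card : ℝ) ≤ ((2 * K + 1 : ℕ) : ℝ) ^ d := by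
    exact_mod_cast hc
  refine hc2.trans (pow_le_pow_left₀ (by positivity) ?_ d)
  have h7 : 1 ≤ 1 / η := by rw [le_div_iff₀ hη]; linarith
  have h8 : 7 / η = 7 * (1 / η) := by ring
  push_cast; linarith

end Pool.Agent.H26.Ap
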