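import Pool.Agent.H26.Ap1
import Pool.Agent.H26.Ap2
import Pool.Agent.H26.Ap3

set_option autoImplicit false
open Classical

namespace Pool.Agent.H26.Ap

open Real Finset

noncomputable def tl {m : ℕ} (x : EuclideanSpace ℝ (Fin (m + 1))) : V m :=
  WithLp.toLp 2 fun i => x i.succ

lemma dist_split {m : ℕ} (x y : EuclideanSpace ℝ (Fin (m + 1))) :
    dist x y ^ 2 = (x 0 - y 0) ^ 2 + ‖tl x - tl y‖ ^ 2 := by
  rw [← dist_eq_norm, EuclideanSpace.dist_sq_eq, EuclideanSpace.dist_sq_eq, Fin.sum_univ_succ,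
    Real.dist_eq, sq_abs]
  rfl

theorem core (m : ℕ) (hm : 2 ≤ m) : ∃ c₁ c₂ : ℝ, 0 < c₁ ∧ 0 < c₂ ∧
    ∀ ε₁ ε₂ : ℝ, 0 < ε₁ → ε₂ < 1 → ε₁ ≤ ε₂ →
      ∀ X : Finset (EuclideanSpace ℝ (Fin (m + 1))),
        (∀ x ∈ X, ∀ y ∈ X, dist x y ≤ 1) →
        c₁ * ε₁ ^ (-((m + 1 : ℕ) : ℝ)) ≤ (X.card : ℝ) →
        c₂ * ε₁ ^ ((m + 1 : ℕ) : ℝ) * ε₂ ^ (-((((m + 1 : ℕ) : ℝ) + 1) / 2)) *
            ((X.offDiag.filter (fun p => 1 - ε₂ ≤ dist p.1 p.2)).card : ℝ)
          ≤ ((X.offDiag.filter (fun p => dist p.1 p.2 ≤ ε₁)).card : ℝ) := by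
  set d : ℕ := m + 1 with hd
  set s : ℝ := (m : ℝ) / 2 + 1 with hs
  have hd0 : (0 : ℝ) < d := by positivity
  have hdm : (d : ℝ) = m + 1 := by rw [hd]; push_cast; ring
  have hs1 : 1 ≤ s := by rw [hs]; have : (0 : ℝ) ≤ m := by positivity
                         linarith
  have hsd : 2 * s = d + 1 := by rw [hs, hdm]; ring
  set γ : ℝ := s / d with hγ
  have hγ0 : 0 < γ := by positivity
  have hγ1 : 1 < 2 * γ := by
    rw [hγ, ← mul_div_assoc, lt_div_iff₀ hd0]; linarith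
  have hdγ : (d : ℝ) * γ = s := by rw [hγ]; field_simp
  set L : ℝ := (∑' k, gg γ k) ^ d with hL
  have hL0 : 0 < L := pow_pos (gg_tsum_pos γ hγ1) d
  set D : ℝ := 2 * d + 2 with hD
  have hD0 : 0 < D := by positivity
  refine ⟨4 * (7 * D) ^ d, 1 / (4 * 4 ^ s * D ^ d * L), by positivity, by positivity, ?_⟩
  intro ε₁ ε₂ h1 h2 h12 X hX hcard
  have hε₂ : 0 < ε₂ := by linarith
  set η : ℝ := ε₁ / D with hη
  have hη0 : 0 < η := by positivity
  have hDη : D * η = ε₁ := by rw [hη]; field_simp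
  have hη1 : η ≤ 1 := by
    rw [hη, div_le_one hD0]; linarith
  have h4s : 4 * s * η ≤ ε₂ := by
    have : 4 * s = D := by rw [hD]; linarith
    rw [this, hDη]; exact h12
  set ρ : ℝ := √(1 + η ^ 2 + ε₂) with hρ
  have hρ2 : ρ ^ 2 = 1 + η ^ 2 + ε₂ := Real.sq_sqrt (by positivity)
  have hρ0 : 0 < ρ := Real.sqrt_pos.2 (by positivity)
  have hρ1 : 1 ≤ ρ := by nlinarith [sq_nonneg η]
  set y : ℂ := (η : ℂ) + ρ * Complex.I with hy
  have hyre : y.re = η := by simp [hy]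
  have hyim : y.im = ρ := by simp [hy]
  have hyn : 1 ≤ ‖y‖ := by
    have := Complex.abs_im_le_norm y
    rw [hyim, abs_of_pos hρ0] at this; linarith
  set A : ℝ := ((X.offDiag.filter (fun p => 1 - ε₂ ≤ dist p.1 p.2)).card : ℝ) with hA
  set N : ℝ := ((X.offDiag.filter (fun p => dist p.1 p.2 ≤ ε₁)).card : ℝ) with hN
  set κ : EuclideanSpace ℝ (Fin d) → (Fin d → ℤ) := fun x i => ⌊x i / η⌋ with hκ
  set M : ℝ := ∑ a ∈ X.image κ, ((X.filter fun x => κ x = a).card : ℝ) ^ 2 with hM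
  have hst := star X (fun x => x 0) tl (fun x x' => dist x x' ^ 2) dist_split y
    (by rw [hyre]; exact hη0)
  rw [hyre, ← hs] at hst
  set S : ℂ := ∑ x ∈ X, ∑ x' ∈ X,
      ((π : ℂ) ^ 2 / (y ^ 2 + ((dist x x' ^ 2 : ℝ) : ℂ))) ^ (s : ℂ) with hS
  -- lower bound
  have hlow : (π ^ 2 / (4 * ε₂)) ^ s / 2 * A ≤ ‖S‖ := by
    have e1 : ‖S‖ = ‖Complex.exp (π * s * Complex.I) * S‖ := by
      rw [norm_mul, ← Complex.ofReal_mul, Complex.norm_exp_ofReal_mul_I, one_mul]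
    rw [e1]
    refine le_trans ?_ (Complex.re_le_norm _)
    rw [hA, card_off, hS, Finset.mul_sum, Finset.mul_sum, Complex.re_sum]
    refine Finset.sum_le_sum fun x hx => ?_
    rw [Finset.mul_sum, Finset.mul_sum, Complex.re_sum]
    refine Finset.sum_le_sum fun x' hx' => ?_
    have hdx := hX x hx x' hx'
    have hl := low s η ε₂ ρ (dist x x' ^ 2) hs1 hη0 h4s h2 hρ0 hρ2
      (by nlinarith [dist_nonneg (x := x) (y := x')])
    split_ifs with h
    · rw [mul_one]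
      exact hl.2 (pow_le_pow_left₀ (by linarith) h.2 2)
    · rw [mul_zero]; exact hl.1
  -- upper bound
  have hup : ∑ x ∈ X, ∑ x' ∈ X, (π ^ 2 / (η ^ 2 + dist x x' ^ 2)) ^ s ≤
      (π ^ 2 / η ^ 2) ^ s * (L * M) := by
    have h3 : ∑ x ∈ X, ∑ x' ∈ X, ∏ i, gg γ (κ x i - κ x' i) ≤ L * M := schur X κ (fun a b => ∏ i, gg γ (a i - b i))
      (fun a b => Finset.prod_nonneg fun i _ => gg_nonneg _ _)
      (fun a b => Finset.prod_congr rfl fun i _ => by rw [← gg_neg, neg_sub]) L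
      (fun a => rowsum γ hγ1 _ a)
    refine le_trans ?_ (mul_le_mul_of_nonneg_left h3 (by positivity))
    rw [Finset.mul_sum]
    refine Finset.sum_le_sum fun x _ => ?_
    rw [Finset.mul_sum]
    refine Finset.sum_le_sum fun x' _ => ?_
    have := kern γ η hγ0 hη0 x x'
    rw [hdγ] at this
    exact this
  have hM1 : M ≤ X.card + N := by
    have := fib_le X κ (fun p => dist p.1 p.2 ≤ ε₁) fun x x' h => by
      have := cell_close η hη0 x x' h
      rw [← hD, hDη] at this; exact this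
    exact this
  have hM2 : (X.card : ℝ) ≤ M / 8 + 2 * (X.image κ).card := by
    have := pigeon X κ
    exact this
  have hT : ((X.image κ).card : ℝ) ≤ (7 / η) ^ d := by
    have := cells_card η hη0 hη1 X hX
    exact this
  have hT2 : 4 * (7 / η) ^ d ≤ X.card := by
    refine le_trans (le_of_eq ?_) hcard
    rw [Real.rpow_neg h1.le, Real.rpow_natCast, hη, div_div_eq_mul_div, div_pow]
    field_simp
  have hX0 : (0 : ℝ) ≤ X.card := by positivity
  have hMN : M ≤ 2 * N := by linarith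
  have hA0 : 0 ≤ A := by positivity
  have hN0 : 0 ≤ N := by positivity
  have hfin : (π ^ 2 / (4 * ε₂)) ^ s / 2 * A ≤ η * ((π ^ 2 / η ^ 2) ^ s * (L * (2 * N))) := by
    have h5 : ‖S‖ ≤ ‖y‖ * ‖S‖ := le_mul_of_one_le_left (norm_nonneg _) hyn
    refine hlow.trans (h5.trans (hst.trans (mul_le_mul_of_nonneg_left (hup.trans ?_) hη0.le)))
    exact mul_le_mul_of_nonneg_left (mul_le_mul_of_nonneg_left hMN hL0.le) (by positivity)
  have hpi := Real.pi_pos
  have e1 : (π ^ 2 / (4 * ε₂)) ^ s = (π ^ 2) ^ s / (4 ^ s * ε₂ ^ s) := by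
    rw [Real.div_rpow (by positivity) (by positivity), Real.mul_rpow (by norm_num) hε₂.le]
  have e2 : (π ^ 2 / η ^ 2) ^ s = (π ^ 2) ^ s / (η ^ d * η) := by
    rw [Real.div_rpow (by positivity) (by positivity), ← Real.rpow_natCast η 2,
      ← Real.rpow_mul hη0.le, ← pow_succ, ← Real.rpow_natCast η (d + 1)]
    congr 2
    push_cast; linarith
  have e3 : -(((d : ℝ) + 1) / 2) = -s := by linarith
  rw [e3, Real.rpow_neg hε₂.le, Real.rpow_natCast, ← hDη, mul_pow]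
  rw [e1, e2] at hfin
  have p1 : 0 < (π ^ 2) ^ s := by positivity
  have p2 : 0 < (4 : ℝ) ^ s := by positivity
  have p3 : 0 < ε₂ ^ s := by positivity
  have p4 : 0 < η ^ d := by positivity
  have p5 : 0 < D ^ d := by positivity
  have key : 1 / (4 * 4 ^ s * D ^ d * L) * (D ^ d * η ^ d) * (ε₂ ^ s)⁻¹ * A =
      ((π ^ 2) ^ s / (4 ^ s * ε₂ ^ s) / 2 * A) * (η ^ d / (2 * L * (π ^ 2) ^ s)) := by
    field_simp; ring
  have key2 : N = η * ((π ^ 2) ^ s / (η ^ d * η) * (L * (2 * N))) *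
      (η ^ d / (2 * L * (π ^ 2) ^ s)) := by
    field_simp
  rw [key]
  calc _ ≤ η * ((π ^ 2) ^ s / (η ^ d * η) * (L * (2 * N))) * (η ^ d / (2 * L * (π ^ 2) ^ s)) :=
        mul_le_mul_of_nonneg_right hfin (by positivity)
    _ = N := key2.symm

end Pool.Agent.H26.Ap
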