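import Mathlib

/-! A greedy arc: an injective map `c` from a countable field `F` to a subfield image of `ℚ`
whose graph has no three collinear points and meets every non-horizontal line through a graph
point in a second point. -/

namespace Pool.Agent.H26.Arc

variable {F : Type} [Field F] [CharZero F] [Countable F]

def Rel3 (p q r : F × ℚ) : Prop :=
  (p.1 = q.1 ↔ p.2 = q.2) ∧ (p ≠ q → p ≠ r → q ≠ r →
    (q.1 - p.1) * ((r.2 : F) - p.2) ≠ (r.1 - p.1) * ((q.2 : F) - p.2))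

def Good (s : Finset (F × ℚ)) : Prop := ∀ p ∈ s, ∀ q ∈ s, ∀ r ∈ s, Rel3 p q r

omit [CharZero F] [Countable F] in
lemma good_insert [DecidableEq (F × ℚ)] {s : Finset (F × ℚ)} (hs : Good s) (x : F × ℚ)
    (h1 : ∀ p ∈ s, p.1 ≠ x.1) (h2 : ∀ p ∈ s, p.2 ≠ x.2)
    (h3 : ∀ p ∈ s, ∀ q ∈ s, p ≠ q →
      (q.1 - p.1) * ((x.2 : F) - p.2) ≠ (x.1 - p.1) * ((q.2 : F) - p.2)) :
    Good (insert x s) := by
  intro p hp q hq r hr
  rw [Finset.mem_insert] at hp hq hr
  constructor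
  · rcases hp with rfl | hp <;> rcases hq with rfl | hq
    · simp
    · exact iff_of_false (h1 q hq).symm (h2 q hq).symm
    · exact iff_of_false (h1 p hp) (h2 p hp)
    · exact (hs p hp q hq q hq).1
  · intro k1 k2 k3
    rcases hp with rfl | hp <;> rcases hq with rfl | hq <;> rcases hr with rfl | hr
    all_goals first | exact (k1 rfl).elim | exact (k2 rfl).elim | exact (k3 rfl).elim | skip
    · intro e; apply h3 q hq r hr k3; linear_combination e
    · intro e; apply h3 p hp r hr k2; linear_combination -e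
    · exact h3 p hp q hq k1
    · exact (hs p hp q hq r hr).2 k1 k2 k3

omit [Countable F] in
lemma fin_sol (a b : F) (ha : a ≠ 0) : {x : ℚ | a * (x : F) = b}.Finite := by
  apply Set.Subsingleton.finite
  intro x hx y hy
  have : (x : F) = y := mul_left_cancel₀ ha (hx.trans hy.symm)
  exact_mod_cast this

omit [Countable F] in
lemma ext1 [DecidableEq (F × ℚ)] (s : Finset (F × ℚ)) (hs : Good s) (t : F) :
    ∃ s', Good s' ∧ s ⊆ s' ∧ ∃ x, (t, x) ∈ s' := by
  by_cases h : ∃ x, (t, x) ∈ s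
  · exact ⟨s, hs, subset_rfl, h⟩
  have hfin : ((Prod.snd '' (s : Set (F × ℚ))) ∪ ⋃ p ∈ (s : Set (F × ℚ)), ⋃ q ∈ (s : Set (F × ℚ)),
      {x : ℚ | p ≠ q ∧ (q.1 - p.1) * ((x : F) - p.2) = (t - p.1) * ((q.2 : F) - p.2)}).Finite := by
    refine (s.finite_toSet.image _).union (s.finite_toSet.biUnion fun p hp =>
      s.finite_toSet.biUnion fun q hq => ?_)
    by_cases hpq : p = q
    · simp [hpq]
    have : q.1 - p.1 ≠ 0 := by
      intro e
      have e1 : p.1 = q.1 := by linear_combination -e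
      exact hpq (Prod.ext e1 ((hs p hp q hq q hq).1.1 e1))
    refine (fin_sol (q.1 - p.1) ((t - p.1) * ((q.2 : F) - p.2) + (q.1 - p.1) * p.2) this).subset ?_
    intro x hx
    have := hx.2
    show _ = _
    linear_combination this
  obtain ⟨x, hx⟩ := hfin.infinite_compl.nonempty
  simp only [Set.mem_compl_iff, Set.mem_union, Set.mem_iUnion, not_or, not_exists] at hx
  refine ⟨insert (t, x) s, good_insert hs _ ?_ ?_ ?_, Finset.subset_insert _ _, x,
    Finset.mem_insert_self _ _⟩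
  · intro p hp e
    exact h ⟨p.2, by rw [← show p.1 = t from e]; exact hp⟩
  · intro p hp e
    exact hx.1 ⟨p, hp, e⟩
  · intro p hp q hq hpq e
    exact hx.2 p hp q hq ⟨hpq, e⟩

omit [Countable F] in
lemma ext2 [DecidableEq (F × ℚ)] (s : Finset (F × ℚ)) (hs : Good s) (t m : F) (hm : m ≠ 0) :
    ∃ s', Good s' ∧ s ⊆ s' ∧ ∃ x u y, (t, x) ∈ s' ∧ (u, y) ∈ s' ∧ u ≠ t ∧
      (y : F) - x = m * (u - t) := by
  obtain ⟨s, hs, hss, x, hx⟩ := ext1 s hs t
  by_cases h : ∃ u y, (u, y) ∈ s ∧ u ≠ t ∧ (y : F) - x = m * (u - t)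
  · obtain ⟨u, y, h⟩ := h
    exact ⟨s, hs, hss, x, u, y, hx, h⟩
  have hfin : ((Prod.snd '' (s : Set (F × ℚ))) ∪
      (⋃ p ∈ (s : Set (F × ℚ)), {y : ℚ | p.1 = t + ((y : F) - x) / m}) ∪
      ⋃ p ∈ (s : Set (F × ℚ)), ⋃ q ∈ (s : Set (F × ℚ)),
      {y : ℚ | p ≠ q ∧ (q.1 - p.1) * ((y : F) - p.2) =
        (t + ((y : F) - x) / m - p.1) * ((q.2 : F) - p.2)}).Finite := by
    refine ((s.finite_toSet.image _).union (s.finite_toSet.biUnion fun p _ => ?_)).union
      (s.finite_toSet.biUnion fun p hp => s.finite_toSet.biUnion fun q hq => ?_)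
    · refine (fin_sol (1 : F) (m * (p.1 - t) + x) one_ne_zero).subset ?_
      intro y hy
      have : p.1 = t + ((y : F) - x) / m := hy
      show _ = _
      rw [this]; field_simp; ring
    by_cases hpq : p = q
    · simp [hpq]
    by_cases hpar : m * (q.1 - p.1) - ((q.2 : F) - p.2) = 0
    · convert Set.finite_empty
      ext y
      simp only [Set.mem_ofPred_eq, Set.mem_empty_iff_false, iff_false, not_and]
      intro _ e
      have hne : q.1 - p.1 ≠ 0 := by
        intro e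
        have e1 : p.1 = q.1 := by linear_combination -e
        exact hpq (Prod.ext e1 ((hs p hp q hq q hq).1.1 e1))
      have e1 : ((q.2 : F) - p.2) = m * (q.1 - p.1) := by linear_combination -hpar
      rw [e1] at e
      have e2 : ((y : F) - p.2) = m * (t - p.1) + (y - x) := by
        apply mul_left_cancel₀ hne
        rw [e]; field_simp; ring
      have e3 : (p.2 : F) - x = m * (p.1 - t) := by linear_combination -e2
      have e4 : (q.2 : F) - x = m * (q.1 - t) := by linear_combination e1 + e3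
      by_cases hp1 : p.1 = t
      · exact h ⟨q.1, q.2, hq, fun e => hne (by rw [e, hp1, sub_self]), e4⟩
      · exact h ⟨p.1, p.2, hp, hp1, e3⟩
    · refine (fin_sol _ (m * (q.1 - p.1) * p.2 + (m * (t - p.1) - x) * ((q.2 : F) - p.2))
        hpar).subset ?_
      intro y hy
      have := hy.2
      show _ = _
      field_simp at this
      linear_combination this
  obtain ⟨y, hy⟩ := hfin.infinite_compl.nonempty
  simp only [Set.mem_compl_iff, Set.mem_union, Set.mem_iUnion, not_or, not_exists] at hy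
  refine ⟨insert (t + ((y : F) - x) / m, y) s, good_insert hs _ ?_ ?_ ?_,
    hss.trans (Finset.subset_insert _ _), x, _, y, Finset.mem_insert_of_mem hx,
    Finset.mem_insert_self _ _, ?_, ?_⟩
  · intro p hp e
    exact hy.1.2 p hp e
  · intro p hp e
    exact hy.1.1 ⟨p, hp, e⟩
  · intro p hp q hq hpq e
    exact hy.2 p hp q hq ⟨hpq, e⟩
  · intro e
    exact hy.1.2 (t, x) hx e.symm
  · field_simp; ring

theorem exists_arc : ∃ c : F → ℚ, Function.Injective c ∧
    (∀ p q r : F, p ≠ q → p ≠ r → q ≠ r →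
      (q - p) * ((c r : F) - c p) ≠ (r - p) * ((c q : F) - c p)) ∧
    ∀ t m : F, m ≠ 0 → ∃ u, u ≠ t ∧ (c u : F) - c t = m * (u - t) := by
  classical
  let S := {s : Finset (F × ℚ) // Good s}
  have := Encodable.ofCountable (F × {m : F // m ≠ 0})
  let D : F × {m : F // m ≠ 0} → Order.Cofinal S := fun z =>
    ⟨{s | ∃ x u y, (z.1, x) ∈ s.1 ∧ (u, y) ∈ s.1 ∧ u ≠ z.1 ∧ (y : F) - x = z.2.1 * (u - z.1)},
      fun s => by
        obtain ⟨s', h1, h2, h3⟩ := ext2 s.1 s.2 z.1 z.2.1 z.2.2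
        exact ⟨⟨s', h1⟩, h3, h2⟩⟩
  let I := Order.idealOfCofinals (⟨∅, by simp [Good]⟩ : S) D
  have key : ∀ p q r, (∃ s ∈ I, p ∈ s.1) → (∃ s ∈ I, q ∈ s.1) → (∃ s ∈ I, r ∈ s.1) →
      Rel3 p q r := by
    rintro p q r ⟨s, hs, hp⟩ ⟨t, ht, hq⟩ ⟨w, hw, hr⟩
    obtain ⟨u, hu, h1, h2⟩ := I.directed s hs t ht
    obtain ⟨u', -, h3, h4⟩ := I.directed u hu w hw
    exact u'.2 p (h3 (h1 hp)) q (h3 (h2 hq)) r (h4 hr)
  have hD : ∀ t m (hm : m ≠ 0), ∃ s ∈ I, ∃ x u y, (t, x) ∈ s.1 ∧ (u, y) ∈ s.1 ∧ u ≠ t ∧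
      (y : F) - x = m * (u - t) := by
    intro t m hm
    obtain ⟨s, h1, h2⟩ := Order.cofinal_meets_idealOfCofinals (⟨∅, by simp [Good]⟩ : S) D
      (t, ⟨m, hm⟩)
    exact ⟨s, h2, h1⟩
  have hc : ∀ t, ∃ x, ∃ s ∈ I, (t, x) ∈ s.1 := by
    intro t
    obtain ⟨s, hs, x, -, -, h, -⟩ := hD t 1 one_ne_zero
    exact ⟨x, s, hs, h⟩
  choose c hc using hc
  refine ⟨c, fun a b e => (key _ _ _ (hc a) (hc b) (hc b)).1.2 e, fun p q r h1 h2 h3 => ?_, ?_⟩
  · exact (key _ _ _ (hc p) (hc q) (hc r)).2 (fun e => h1 (congrArg Prod.fst e))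
      (fun e => h2 (congrArg Prod.fst e)) (fun e => h3 (congrArg Prod.fst e))
  · intro t m hm
    obtain ⟨s, hs, x, u, y, h1, h2, h3, h4⟩ := hD t m hm
    have e1 : c t = x := (key _ _ _ (hc t) ⟨s, hs, h1⟩ (hc t)).1.1 rfl
    have e2 : c u = y := (key _ _ _ (hc u) ⟨s, hs, h2⟩ (hc t)).1.1 rfl
    exact ⟨u, h3, by rw [e1, e2, h4]⟩

end Pool.Agent.H26.Arc
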