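import Pool.Agent.H26.BabaiA

set_option autoImplicit false

open Cardinal Set

namespace H26.Babai

variable {V : Type} (X : SimpleGraph V)

def R (S : Set V) : V → V → Prop :=
  Relation.ReflTransGen (fun u v => X.Adj u v ∧ u ∉ S ∧ v ∉ S)

def comp (S : Set V) (a : V) : Set V := {b | R X S a b}

def Nb (D : Set V) : Set V := {s | s ∉ D ∧ ∃ d ∈ D, X.Adj d s}

variable {X}

theorem R.rfl {S : Set V} {a : V} : R X S a a := Relation.ReflTransGen.refl

theorem R.trans {S : Set V} {a b c : V} (h : R X S a b) (h' : R X S b c) : R X S a c :=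
  Relation.ReflTransGen.trans h h'

theorem R.step {S : Set V} {a b c : V} (h : R X S a b) (h' : X.Adj b c) (hb : b ∉ S) (hc : c ∉ S) :
    R X S a c := Relation.ReflTransGen.tail h ⟨h', hb, hc⟩

theorem R.symm {S : Set V} {a b : V} (h : R X S a b) : R X S b a := by
  induction h with
  | refl => exact R.rfl
  | tail _ h ih => exact Relation.ReflTransGen.head ⟨h.1.symm, h.2.2, h.2.1⟩ ih

theorem R.notMem {S : Set V} {a b : V} (h : R X S a b) (ha : a ∉ S) : b ∉ S := by
  induction h with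
  | refl => exact ha
  | tail _ h _ => exact h.2.2

theorem R.map {S T : Set V} {a b : V} (g : X ≃g X) (hg : ∀ v, g v ∈ T → v ∈ S) (h : R X S a b) :
    R X T (g a) (g b) := by
  induction h with
  | refl => exact R.rfl
  | tail _ h ih =>
    exact ih.step (g.map_adj_iff.mpr h.1) (fun h' => h.2.1 (hg _ h')) (fun h' => h.2.2 (hg _ h'))

theorem R.move {S T : Set V} {a b : V} (h : R X S a b) (hT : ∀ c, R X S a c → c ∉ T) :
    R X T a b := by
  induction h with
  | refl => exact R.rfl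
  | tail h0 h ih => exact ih.step h.1 (hT _ h0) (hT _ (Relation.ReflTransGen.tail h0 h))

theorem R.mono {S T : Set V} {a b : V} (h : R X S a b) (hT : T ⊆ S) : R X T a b := by
  induction h with
  | refl => exact R.rfl
  | tail _ h ih => exact ih.step h.1 (fun h' => h.2.1 (hT h')) (fun h' => h.2.2 (hT h'))

theorem comp_eq {S : Set V} {a b : V} (h : R X S a b) : comp X S b = comp X S a :=
  Set.ext fun _ => ⟨fun h' => h.trans h', fun h' => h.symm.trans h'⟩

theorem nb_sub {S : Set V} {a : V} (ha : a ∉ S) : Nb X (comp X S a) ⊆ S := by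
  rintro s ⟨hs, d, hd, hds⟩
  by_contra h
  exact hs (R.step hd hds (R.notMem hd ha) h)

theorem comp_nb {M : Set V} {a : V} (ha : a ∉ M) :
    comp X (Nb X (comp X M a)) a = comp X M a := by
  ext b
  refine ⟨fun h => ?_, fun h => R.mono h (nb_sub ha)⟩
  induction h with
  | refl => exact R.rfl
  | tail _ h ih =>
    by_contra hc
    exact h.2.2 ⟨hc, _, ih, h.1⟩

theorem fin_path {S : Set V} {a b : V} (h : R X S a b) :
    ∃ Q : Set V, Q.Finite ∧ Q ⊆ comp X S a ∧ a ∈ Q ∧ b ∈ Q ∧ ∀ c ∈ Q, R X Qᶜ a c := by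
  induction h with
  | refl =>
    refine ⟨{a}, finite_singleton _, ?_, rfl, rfl, ?_⟩
    · rintro _ rfl; exact R.rfl
    · rintro _ rfl; exact R.rfl
  | @tail b c h0 h ih =>
    obtain ⟨Q, h1, h2, h3, h4, h5⟩ := ih
    have hm : (insert c Q)ᶜ ⊆ Qᶜ := compl_subset_compl.mpr (subset_insert _ _)
    refine ⟨insert c Q, h1.insert _, ?_, Or.inr h3, Or.inl rfl, ?_⟩
    · rintro _ (rfl | hx)
      · exact Relation.ReflTransGen.tail h0 h
      · exact h2 hx
    · rintro _ (rfl | hx)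
      · exact ((h5 b h4).mono hm).step h.1 (fun h' => h' (Or.inr h4)) (fun h' => h' (Or.inl rfl))
      · exact (h5 _ hx).mono hm

variable (X)

def HasMinor (U : Type) : Prop :=
  ∃ B : U → Set V, (∀ u, (B u).Nonempty) ∧ (∀ u, ∀ a ∈ B u, ∀ b ∈ B u, R X (B u)ᶜ a b) ∧
    (∀ u w, u ≠ w → Disjoint (B u) (B w)) ∧ ∀ u w, u ≠ w → ∃ a ∈ B u, ∃ b ∈ B w, X.Adj a b

def Link (s t : V) (Q : Set V) : Prop :=
  (∀ a ∈ Q, ∀ b ∈ Q, R X Qᶜ a b) ∧ (∃ a ∈ Q, X.Adj a s) ∧ ∃ b ∈ Q, X.Adj b t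

variable {X}

theorem block {U : Type} (hU : ℵ₀ ≤ #U) (hX : ¬ HasMinor X U) (S : Set V) :
    ∃ Z : Set V, #Z ≤ #U ∧ (#S = #U →
      ∃ s ∈ S, ∃ t ∈ S, ∀ Q, Link X s t Q → #Q ≤ #U → Disjoint Q S → ¬ Disjoint Q Z) := by
  by_cases hS : #S = #U
  swap
  · exact ⟨∅, by simp, fun h => absurd h hS⟩
  by_contra hn
  push Not at hn
  obtain ⟨T⟩ := Cardinal.eq.mp hS.symm
  obtain ⟨Q, hQ, hQd⟩ := sel (V := V) (I := U × U) #U hU (by simp [mul_eq_self hU])
    (fun i Q => Link X (T i.1) (T i.2) Q ∧ Disjoint Q S) (fun i Z hZ => by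
      obtain ⟨Q, h1, h2, h3, h4⟩ := (hn Z hZ).2 _ (T i.1).2 _ (T i.2).2
      exact ⟨Q, ⟨h1, h3⟩, h2, h4⟩)
  apply hX
  refine ⟨fun u => insert (T u).1 (⋃ w, Q (u, w)), fun u => ⟨_, Or.inl rfl⟩, fun u => ?_,
    fun u w huw => ?_, fun u w huw => ?_⟩
  · have : ∀ a ∈ insert (T u).1 (⋃ w, Q (u, w)), R X (insert (T u).1 (⋃ w, Q (u, w)))ᶜ a (T u) := by
      rintro a (rfl | ha)
      · exact R.rfl
      · obtain ⟨w, hw⟩ := mem_iUnion.mp ha
        obtain ⟨a0, ha0, had⟩ := (hQ (u, w)).1.2.1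
        have hsub : Q (u, w) ⊆ insert (T u).1 (⋃ w, Q (u, w)) :=
          (subset_iUnion (fun w => Q (u, w)) w).trans (subset_insert _ _)
        exact (((hQ (u, w)).1.1 a hw a0 ha0).mono (compl_subset_compl.mpr hsub)).step had
          (fun h => h (hsub ha0)) (fun h => h (Or.inl rfl))
    exact fun a ha b hb => (this a ha).trans (this b hb).symm
  · rw [Set.disjoint_left]
    rintro a (rfl | ha) (hb | hb)
    · exact huw (T.injective (Subtype.ext hb))
    · obtain ⟨w', hw⟩ := mem_iUnion.mp hb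
      exact Set.disjoint_left.mp (hQ _).2 hw (T u).2
    · obtain ⟨w', hw⟩ := mem_iUnion.mp ha
      exact Set.disjoint_left.mp (hQ _).2 hw (hb ▸ (T w).2)
    · obtain ⟨w1, h1⟩ := mem_iUnion.mp ha
      obtain ⟨w2, h2⟩ := mem_iUnion.mp hb
      exact Set.disjoint_left.mp (hQd _ _ (fun h => huw (congrArg Prod.fst h))) h1 h2
  · obtain ⟨b, hb, had⟩ := (hQ (u, w)).1.2.2
    exact ⟨b, Or.inr (mem_iUnion.mpr ⟨w, hb⟩), _, Or.inl rfl, had⟩

theorem small_nb {U : Type} (hU : ℵ₀ ≤ #U) (hX : ¬ HasMinor X U) :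
    ∃ F : Set V → Set V, (∀ S, #(F S) ≤ #U) ∧ ∀ M : Set V, (∀ S ⊆ M, #S ≤ #U → F S ⊆ M) →
      ∀ a, a ∉ M → #(Nb X (comp X M a)) ≤ #U := by
  choose F hF hF' using block hU hX
  refine ⟨F, hF, fun M hM a ha => ?_⟩
  by_contra hlt
  obtain ⟨S, hS, hSc⟩ := le_mk_iff_exists_subset.mp (not_le.mp hlt).le
  obtain ⟨s, hs, t, ht, h⟩ := hF' S hSc
  have hSM : S ⊆ M := hS.trans (nb_sub ha)
  obtain ⟨_, d, hd, hds⟩ := hS hs
  obtain ⟨_, d', hd', hdt⟩ := hS ht
  obtain ⟨Q, h1, h2, h3, h4, h5⟩ := fin_path (R.trans (R.symm hd) hd')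
  have hQM : Disjoint Q M := Set.disjoint_left.mpr fun c hc => R.notMem (R.trans hd (h2 hc)) ha
  exact h Q ⟨fun a ha b hb => (h5 a ha).symm.trans (h5 b hb), ⟨d, h3, hds⟩, d', h4, hdt⟩
    (h1.countable.le_aleph0.trans hU) (hQM.mono_right hSM) (hQM.mono_right (hM S hSM hSc.le))

def Fix (S : Set V) (g : X ≃g X) : Prop := ∀ s ∈ S, g s = s

theorem Fix.inv {S : Set V} {g : X ≃g X} (h : Fix S g) : Fix S g⁻¹ := fun s hs => by
  conv_lhs => rw [← h s hs]
  exact g.symm_apply_apply s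

theorem Fix.back {S : Set V} {g : X ≃g X} (h : Fix S g) (v : V) (hv : g v ∈ S) : v ∈ S :=
  g.injective (h _ hv) ▸ hv

theorem pw_adj {S : Set V} (f : V → X ≃g X) (h1 : ∀ v, Fix S (f v))
    (h2 : ∀ u v, u ∉ S → R X S u v → f u = f v) (u v : V) (h : X.Adj u v) :
    X.Adj (f u u) (f v v) := by
  by_cases hu : u ∈ S
  · rw [h1 u u hu]
    have := (f v).map_adj_iff.mpr h
    rwa [h1 v u hu] at this
  · by_cases hv : v ∈ S
    · rw [h1 v v hv]
      have := (f u).map_adj_iff.mpr h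
      rwa [h1 u v hv] at this
    · rw [h2 u v hu (R.rfl.step h hu hv)]
      exact (f v).map_adj_iff.mpr h

def mkAut (φ ψ : V → V) (hφ : ∀ u v, X.Adj u v → X.Adj (φ u) (φ v))
    (hψ : ∀ u v, X.Adj u v → X.Adj (ψ u) (ψ v)) (li : Function.LeftInverse ψ φ)
    (ri : Function.RightInverse ψ φ) : X ≃g X where
  toFun := φ
  invFun := ψ
  left_inv := li
  right_inv := ri
  map_rel_iff' := fun {a b} => ⟨fun h => by
    have := hψ _ _ h
    change X.Adj (ψ (φ a)) (ψ (φ b)) at this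
    rwa [li, li] at this, hφ a b⟩

theorem inv_app (g : X ≃g X) (v : V) : g⁻¹ (g v) = v := g.symm_apply_apply v
theorem app_inv (g : X ≃g X) (v : V) : g (g⁻¹ v) = v := g.apply_symm_apply v

theorem noswap (h3 : ∀ g : X ≃g X, g * g * g = 1) {S : Set V} {g : X ≃g X} (hg : Fix S g) (y : V) :
    R X S y (g y) := by
  classical
  by_contra hn
  let f : V → X ≃g X := fun v => if R X S y v then g else if R X S (g y) v then g⁻¹ else 1
  have hf1 : ∀ v, Fix S (f v) := fun v => by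
    simp only [f]
    split_ifs
    · exact hg
    · exact hg.inv
    · exact fun _ _ => rfl
  have hf2 : ∀ u v, u ∉ S → R X S u v → f u = f v := fun u v _ h => by
    have e1 : ∀ z, R X S z u ↔ R X S z v := fun z => ⟨fun h' => h'.trans h, fun h' => h'.trans h.symm⟩
    simp only [f, e1]
  have hinv : ∀ v, f (f v v) (f v v) = v := fun v => by
    by_cases h1 : R X S y v
    · have e : f v v = g v := by simp only [f, if_pos h1]
      have h2 : R X S (g y) (g v) := h1.map g hg.back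
      have h4 : ¬ R X S y (g v) := fun h => hn (h.trans h2.symm)
      rw [e]
      simp only [f, if_neg h4, if_pos h2]
      exact inv_app g v
    · by_cases h2 : R X S (g y) v
      · have e : f v v = g⁻¹ v := by simp only [f, if_neg h1, if_pos h2]
        have h4 : R X S y (g⁻¹ v) := by
          have := h2.map g⁻¹ hg.inv.back
          rwa [inv_app] at this
        rw [e]
        simp only [f, if_pos h4]
        exact app_inv g v
      · have e : f v v = v := by simp only [f, if_neg h1, if_neg h2]; rfl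
        rw [e, e]
  let a : X ≃g X := mkAut (fun v => f v v) (fun v => f v v) (pw_adj f hf1 hf2) (pw_adj f hf1 hf2)
    hinv hinv
  have h5 : a (a (a y)) = y := congrArg (fun k : X ≃g X => k y) (h3 a)
  have h6 : a (a (a y)) = a y := hinv (a y)
  have h7 : a y = g y := by
    show f y y = g y
    simp only [f, if_pos (R.rfl : R X S y y)]
  apply hn
  rw [← h7, ← h6, h5]
  exact R.rfl

variable (X)

def Comps (S : Set V) : Type := {D : Set V // ∃ y, y ∉ S ∧ D = comp X S y}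

def Sup (D : Set V) : Set (X ≃g X) := {g | Fix Dᶜ g}

variable {X}

theorem comps_mem {S : Set V} (D : Comps X S) {v : V} (hv : v ∈ D.1) :
    v ∉ S ∧ comp X S v = D.1 := by
  obtain ⟨D, y, hy, rfl⟩ := D
  exact ⟨R.notMem hv hy, comp_eq hv⟩

theorem glue_le (S : Set V) : #(Fam (fun D : Comps X S => Sup X D.1)) ≤ #(X ≃g X) := by
  classical
  let pw : (Comps X S → X ≃g X) → V → X ≃g X := fun t v =>
    if h : v ∈ S then 1 else t ⟨comp X S v, v, h, rfl⟩
  have hpw : ∀ t (D : Comps X S) v, v ∈ D.1 → pw t v = t D := fun t D v hv => by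
    obtain ⟨h1, h2⟩ := comps_mem D hv
    simp only [pw, dif_neg h1]
    congr 1
    exact Subtype.ext h2
  have h1 : ∀ t : Comps X S → X ≃g X, (∀ D, Fix D.1ᶜ (t D)) → ∀ u v, X.Adj u v →
      X.Adj (pw t u u) (pw t v v) := fun t ht => by
    refine pw_adj (S := S) (pw t) (fun v => ?_) fun u v hu h => ?_
    · by_cases h : v ∈ S
      · simp only [pw, dif_pos h]; exact fun _ _ => rfl
      · simp only [pw, dif_neg h]
        exact fun s hs => ht _ s fun h' => R.notMem h' h hs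
    · rw [hpw t ⟨comp X S u, u, hu, rfl⟩ u R.rfl, hpw t ⟨comp X S u, u, hu, rfl⟩ v h]
  have h2 : ∀ t t' : Comps X S → X ≃g X, (∀ D, Fix D.1ᶜ (t D)) → (∀ D v, t' D (t D v) = v) → ∀ v,
      pw t' (pw t v v) (pw t v v) = v := fun t t' ht htt v => by
    by_cases h : v ∈ S
    · have e : ∀ t, pw t v v = v := fun t => by simp only [pw, dif_pos h]; rfl
      rw [e, e]
    · let D : Comps X S := ⟨comp X S v, v, h, rfl⟩
      have hv : v ∈ D.1 := R.rfl
      rw [hpw t D v hv]
      have : t D v ∈ D.1 := by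
        by_contra hc
        exact (ht D).back v hc hv
      rw [hpw t' D _ this, htt]
  refine mk_le_of_injective (f := fun t => mkAut (fun v => pw t.1 v v)
    (fun v => pw (fun D => (t.1 D)⁻¹) v v) (h1 _ t.2) (h1 _ fun D => Fix.inv (t.2 D))
    (h2 _ _ t.2 fun D v => inv_app _ v) (h2 _ _ (fun D => Fix.inv (t.2 D)) fun D v => app_inv _ v)) ?_
  intro t t' h
  refine Subtype.ext (funext fun D => RelIso.ext fun v => ?_)
  by_cases hv : v ∈ D.1
  · have h0 := congrArg (fun k : X ≃g X => k v) h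
    have : pw t.1 v v = pw t'.1 v v := h0
    rwa [hpw _ D v hv, hpw _ D v hv] at this
  · rw [t.2 D v hv, t'.2 D v hv]

theorem restr_le (h3 : ∀ g : X ≃g X, g * g * g = 1) (S : Set V) :
    #{g : X ≃g X // Fix S g} ≤ #(Fam (fun D : Comps X S => Sup X D.1)) := by
  classical
  let pw : (X ≃g X) → Comps X S → V → X ≃g X := fun g D v => if v ∈ D.1 then g else 1
  have h1 : ∀ g, Fix S g → ∀ D u v, X.Adj u v → X.Adj (pw g D u u) (pw g D v v) := fun g hg D => by
    refine pw_adj (S := S) (pw g D) (fun v => ?_) fun u v hu h => ?_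
    · simp only [pw]
      split_ifs
      · exact hg
      · exact fun _ _ => rfl
    · have : u ∈ D.1 ↔ v ∈ D.1 :=
        ⟨fun h' => (comps_mem D h').2 ▸ h, fun h' => (comps_mem D h').2 ▸ h.symm⟩
      simp only [pw, this]
  have h2 : ∀ g g', Fix S g → (∀ v, g' (g v) = v) → ∀ D v,
      pw g' D (pw g D v v) (pw g D v v) = v := fun g g' hg hgg D v => by
    by_cases h : v ∈ D.1
    · have : g v ∈ D.1 := (comps_mem D h).2 ▸ noswap h3 hg v
      simp only [pw, if_pos h, if_pos this, hgg]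
    · have e : ∀ g, pw g D v v = v := fun g => by simp only [pw, if_neg h]; rfl
      rw [e, e]
  refine mk_le_of_injective (f := fun g => ⟨fun D => mkAut (fun v => pw g.1 D v v)
    (fun v => pw g.1⁻¹ D v v) (h1 _ g.2 D) (h1 _ g.2.inv D)
    (h2 _ _ g.2 (inv_app _) D) (h2 _ _ g.2.inv (app_inv _) D), fun D v hv => ?_⟩) ?_
  · show pw g.1 D v v = v
    have hv' : v ∉ D.1 := hv
    simp only [pw, if_neg hv']; rfl
  · intro g g' h
    refine Subtype.ext (RelIso.ext fun v => ?_)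
    by_cases hv : v ∈ S
    · rw [g.2 v hv, g'.2 v hv]
    · let D : Comps X S := ⟨comp X S v, v, hv, rfl⟩
      have hD : v ∈ D.1 := R.rfl
      have : pw g.1 D v v = pw g'.1 D v v :=
        congrArg (fun k : Fam (fun D : Comps X S => Sup X D.1) => k.1 D v) h
      simpa only [pw, if_pos hD] using this

def Orb (x : V) : Set V := {y | ∃ g : X ≃g X, g x = y}

theorem index_le (M : Set V) :
    #(X ≃g X) ≤ Cardinal.prod (fun m : M => #(Orb (X := X) m.1)) * #{g : X ≃g X // Fix M g} := by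
  rw [← mk_pi, mul_def]
  let res : (X ≃g X) → ∀ m : M, Orb (X := X) m.1 := fun g m => ⟨g m.1, g, rfl⟩
  let σ := Function.invFun res
  have hσ : ∀ g, res (σ (res g)) = res g := fun g => Function.invFun_eq ⟨g, rfl⟩
  refine mk_le_of_injective (f := fun g => (res g, ⟨(σ (res g))⁻¹ * g, fun m hm => ?_⟩)) ?_
  · have : σ (res g) m = g m := congrArg Subtype.val (congrFun (hσ g) ⟨m, hm⟩)
    show (σ (res g))⁻¹ (g m) = m
    rw [← this, inv_app]
  · intro g g' h
    have h1 : res g = res g' := congrArg Prod.fst h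
    have h2 : (σ (res g))⁻¹ * g = (σ (res g'))⁻¹ * g' := congrArg (fun p => p.2.1) h
    rw [h1] at h2
    exact mul_left_cancel h2

theorem claimB {U : Type} (hU : ℵ₀ ≤ #U) (hX : ¬ HasMinor X U)
    (h3 : ∀ g : X ≃g X, g * g * g = 1) (hG : #(X ≃g X) = lam (2 ^ #U))
    (hO : ∀ x, #(Orb (X := X) x) ≤ 2 ^ #U) : False := by
  have hUρ : #U ≤ 2 ^ #U := (cantor _).le
  have hρ : ℵ₀ ≤ 2 ^ #U := hU.trans hUρ
  obtain ⟨F, hF, hF'⟩ := small_nb hU hX
  have hone : ∀ (S : Set V) (D : Comps X S), (1 : X ≃g X) ∈ Sup X D.1 := fun _ _ _ _ => rfl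
  have hfin : ∀ S : Set V, ∃ Z : Set V, #Z ≤ #U ∧
      ∀ D : Comps X S, lam (2 ^ #U) ≤ #(Sup X D.1) → ∃ z ∈ Z, z ∈ D.1 := fun S => by
    have h := big_finite (fun D : Comps X S => Sup X D.1) (hone S) ((glue_le S).trans hG.le)
    refine ⟨_, ((h.image (fun D => D.2.choose)).countable.le_aleph0).trans hU, fun D hD =>
      ⟨_, mem_image_of_mem _ hD, ?_⟩⟩
    have := D.2.choose_spec.2
    exact this.ge R.rfl
  choose F' hF1 hF2 using hfin
  obtain ⟨M, hM, hMc⟩ := closure #U (2 ^ #U) hρ (by rw [← power_mul, mul_eq_self hU])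
    (fun S => F S ∪ F' S) fun S _ => (union_le hU (hF S) (hF1 S)).trans hUρ
  have hge : lam (2 ^ #U) ≤ #{g : X ≃g X // Fix M g} := by
    by_contra hlt
    obtain ⟨n, hn⟩ := lt_lam hρ (not_le.mp hlt)
    have h1 : Cardinal.prod (fun m : M => #(Orb (X := X) m.1)) ≤ tw (2 ^ #U) (n + 1) := by
      refine (prod_le_prod _ (fun _ : M => 2 ^ #U) fun m : M => hO m.1).trans ?_
      simp only [prod_const, lift_id]
      refine (power_le_power_left (aleph0_pos.trans_le hρ).ne' hM).trans ?_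
      rw [power_self_eq hρ]
      exact (tw_mono _).monotone (show 1 ≤ n + 1 by omega)
    have h2 := (index_le (X := X) M).trans
      (mul_le_mul' h1 (hn.trans ((tw_mono _).monotone (Nat.le_succ n))))
    rw [mul_eq_self (tw_inf hρ _), hG] at h2
    exact (tw_lt _ _).not_ge h2
  obtain ⟨⟨D, y, hy, rfl⟩, hD⟩ := exists_big (fun D : Comps X M => Sup X D.1) (hone M) hρ
    ((glue_le M).trans hG.le) (hge.trans (restr_le h3 M))
  have hs := hF' M (fun S hS hc => subset_union_left.trans (hMc S hS hc)) y hy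
  obtain ⟨z, hz, hzD⟩ := hF2 (Nb X (comp X M y)) ⟨comp X M y, y, fun h => hy (nb_sub hy h),
    (comp_nb hy).symm⟩ hD
  exact R.notMem hzD hy (hMc _ (nb_sub hy) hs (Or.inr hz))

end H26.Babai
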