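import Pool.Agent.H26.BabaiB

set_option autoImplicit false

open Cardinal Set

namespace H26.Babai

variable {V : Type} {X : SimpleGraph V}

def Full (X : SimpleGraph V) (S : Set V) (y : V) : Prop := ∀ s ∈ S, ∃ d, R X S y d ∧ X.Adj d s

def Good (S S0 : Set V) (g : X ≃g X) : Prop := Fix S0 g ∧ ∀ s ∈ S, s ∉ S0 → g s ∉ S

def Tr (S : Set V) (p : X ≃g X) : Set V := {v | p⁻¹ v ∈ S}

theorem Good.inv {S S0 : Set V} {g : X ≃g X} (h : Good S S0 g) : Good S S0 g⁻¹ := by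
  refine ⟨h.1.inv, fun s hs h0 hc => ?_⟩
  by_cases h1 : g⁻¹ s ∈ S0
  · exact h0 (h.1.inv.back s h1)
  · exact h.2 _ hc h1 (by rwa [app_inv])

theorem tr2 {S : Set V} {p : X ≃g X} {a b : V} (h : R X (Tr S p) a b) :
    R X S (p⁻¹ a) (p⁻¹ b) := h.map p⁻¹ fun _ hv => hv

theorem tr2' {S : Set V} {p : X ≃g X} {a b : V} (h : R X (Tr S p⁻¹) a b) :
    R X S (p a) (p b) := by
  have := tr2 h
  rwa [inv_inv] at this

section core
variable {S S0 : Set V} {s0 : V} (h3 : ∀ g : X ≃g X, g * g * g = 1)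
  (hc : ∀ g h : X ≃g X, g * h = h * g) (hs : s0 ∈ S) (hs0 : s0 ∉ S0)
  (rich : ∀ p : X ≃g X, ∃ y, Full X S y ∧ ∀ c, R X S y c → c ∉ Tr S p)
include hs hs0 rich

theorem f2 {p : X ≃g X} (hp : Good S S0 p) {s : V} (h1 : s ∈ S) (h2 : s ∉ S0) :
    R X (Tr S p) s s0 := by
  obtain ⟨y, hy, hy'⟩ := rich p
  have : ∀ s ∈ S, s ∉ S0 → R X (Tr S p) y s := fun s h1 h2 => by
    obtain ⟨d, hd, hds⟩ := hy s h1
    exact (hd.move hy').step hds (hy' d hd) (hp.inv.2 s h1 h2)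
  exact (this s h1 h2).symm.trans (this s0 hs hs0)

theorem tp {p : X ≃g X} (hp : Good S S0 p) {y : V} (hy : y ∉ S) (hn : ¬ R X S y (p s0))
    (he : ∃ d s1, R X S y d ∧ X.Adj d s1 ∧ s1 ∈ S ∧ s1 ∉ S0) : R X (Tr S p) y s0 := by
  have key : ∀ c, R X S y c → c ∉ Tr S p := fun c hc hT => by
    have hT' : p⁻¹ c ∈ S := hT
    by_cases h0 : p⁻¹ c ∈ S0
    · have := hp.1 _ h0
      rw [app_inv] at this
      exact hc.notMem hy (this ▸ hT')
    · have := tr2' (f2 hs hs0 rich hp.inv hT' h0)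
      rw [app_inv] at this
      exact hn (hc.trans this)
  obtain ⟨d, s1, hd, hds, h1, h2⟩ := he
  exact ((hd.move key).step hds (key d hd) (hp.inv.2 s1 h1 h2)).trans (f2 hs hs0 rich hp h1 h2)

include h3

theorem tt {p c : X ≃g X} (hp : Good S S0 p) (hg : Good S S0 c) (hn : ¬ R X S (c s0) (p s0)) :
    R X (Tr S p) (c s0) s0 := by
  have hy := hg.2 s0 hs hs0
  refine tp hs hs0 rich hp hy hn ?_
  have : ∀ b, R X S0 (c s0) b → R X S (c s0) b ∨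
      ∃ d s1, R X S (c s0) d ∧ X.Adj d s1 ∧ s1 ∈ S ∧ s1 ∉ S0 := fun b hb => by
    induction hb with
    | refl => exact Or.inl R.rfl
    | @tail b e _ h ih =>
      rcases ih with ih | ih
      · by_cases he : e ∈ S
        · exact Or.inr ⟨b, e, ih, h.1, he, h.2.2⟩
        · exact Or.inl (ih.step h.1 (ih.notMem hy) he)
      · exact Or.inr ih
  rcases this s0 (noswap h3 hg.1 s0).symm with h | h
  · exact absurd hs (h.notMem hy)
  · exact h

theorem c3 {a : X ≃g X} (ha : Good S S0 a) : R X S (a s0) (a⁻¹ s0) := by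
  by_contra hn
  have := tr2 (tt h3 hs hs0 rich ha ha.inv fun h => hn h.symm)
  have e : a⁻¹ (a⁻¹ s0) = a s0 := by
    have h1 : a⁻¹ * a⁻¹ = a := by
      rw [← mul_inv_rev]
      exact inv_eq_of_mul_eq_one_right (h3 a)
    exact congrArg (fun k : X ≃g X => k s0) h1
  rw [e] at this
  exact hn this

theorem pair {a : X ≃g X} (ha : Good S S0 a) {y : V} (hy : y ∉ S) (hf : Full X S y) :
    R X S y (a s0) ∨ R X S (a y) (a s0) := by
  by_cases h : R X S y (a s0)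
  · exact Or.inl h
  · obtain ⟨d, hd, hds⟩ := hf s0 hs
    exact Or.inr (tr2' (tp hs hs0 rich ha.inv hy
      (fun h' => h (h'.trans (c3 h3 hs hs0 rich ha).symm)) ⟨d, s0, hd, hds, hs, hs0⟩))

include hc

theorem three {a b : X ≃g X} (ha : Good S S0 a) (hb : Good S S0 b) (hab : Good S S0 (a⁻¹ * b)) :
    R X S (a s0) (b s0) := by
  by_contra hn
  have h1 : R X S ((a⁻¹ * b) s0) (a⁻¹ s0) := by
    by_contra h
    have := tr2' (tt h3 hs hs0 rich ha.inv hab h)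
    have e : a ((a⁻¹ * b) s0) = b s0 := app_inv a _
    rw [e] at this
    exact hn this.symm
  have h2 : R X S ((a⁻¹ * b) s0) (b s0) := by
    by_contra h
    have := tr2 (tt h3 hs hs0 rich hb hab h)
    have e : b⁻¹ ((a⁻¹ * b) s0) = a⁻¹ s0 := by
      rw [hc a⁻¹ b]
      exact inv_app b _
    rw [e] at this
    exact hn (((c3 h3 hs hs0 rich ha).trans this).trans (c3 h3 hs hs0 rich hb).symm)
  exact hn ((c3 h3 hs hs0 rich ha).trans (h1.symm.trans h2))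

end core

theorem claimA {U : Type} (hU : ℵ₀ ≤ #U) (hX : ¬ HasMinor X U)
    (h3 : ∀ g : X ≃g X, g * g * g = 1) (hc : ∀ g h : X ≃g X, g * h = h * g) (x : V) :
    #(Orb (X := X) x) ≤ 2 ^ #U := by
  by_contra hbig
  have hUρ : #U ≤ 2 ^ #U := (cantor _).le
  have hρ : ℵ₀ ≤ 2 ^ #U := hU.trans hUρ
  have hpow : ((2 : Cardinal.{0}) ^ #U) ^ #U ≤ 2 ^ #U := by rw [← power_mul, mul_eq_self hU]
  obtain ⟨F, hF, hF'⟩ := small_nb hU hX
  let A : Set V → V → Prop := fun S y => y ∈ Orb (X := X) x ∧ y ∉ S ∧ Full X S y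
  have hch : ∀ S : Set V, ∃ Z : Set V, #Z ≤ 2 ^ #U ∧
      ((∃ Z' : Set V, #Z' ≤ 2 ^ #U ∧ ∀ y, A S y → ∃ z ∈ Z', R X S y z) →
        ∀ y, A S y → ∃ z ∈ Z, R X S y z) := fun S => by
    by_cases h : ∃ Z' : Set V, #Z' ≤ 2 ^ #U ∧ ∀ y, A S y → ∃ z ∈ Z', R X S y z
    · obtain ⟨Z, h1, h2⟩ := h
      exact ⟨Z, h1, fun _ => h2⟩
    · exact ⟨∅, by simp, fun h' => absurd h' h⟩
  choose F2 hF1 hF2 using hch
  obtain ⟨M, hM, hMc⟩ := closure #U (2 ^ #U) hρ hpow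
    (fun S => F S ∪ F2 S) fun S _ => union_le hρ ((hF S).trans hUρ) (hF1 S)
  obtain ⟨y, hyO, hy⟩ : ∃ y ∈ Orb (X := X) x, y ∉ M := by
    by_contra h
    push Not at h
    exact hbig ((mk_le_mk_of_subset h).trans hM)
  have hS := hF' M (fun S hS hc => subset_union_left.trans (hMc S hS hc)) y hy
  have hSM : Nb X (comp X M y) ⊆ M := nb_sub hy
  have hcomp := comp_nb (X := X) hy
  have hAy : A (Nb X (comp X M y)) y :=
    ⟨hyO, fun h => hy (hSM h), fun s ⟨_, d, hd, hds⟩ => ⟨d, hcomp.ge hd, hds⟩⟩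
  generalize Nb X (comp X M y) = S at hS hSM hcomp hAy
  have rich0 : ∀ Z : Set V, #Z ≤ 2 ^ #U → ∃ y, A S y ∧ ∀ z ∈ Z, ¬ R X S y z := fun Z hZ => by
    by_contra h
    push Not at h
    obtain ⟨z, hz, hyz⟩ := hF2 S ⟨Z, hZ, h⟩ y hAy
    exact R.notMem (hcomp.le hyz) hy (hMc S hSM hS (Or.inr hz))
  have rich : ∀ p : X ≃g X, ∃ y, Full X S y ∧ ∀ c, R X S y c → c ∉ Tr S p := fun p => by
    obtain ⟨y, h1, h2⟩ := rich0 (p '' S) (mk_image_le.trans (hS.trans hUρ))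
    exact ⟨y, h1.2.2, fun c hc hT => h2 c ⟨_, hT, app_inv p c⟩ hc⟩
  let Ok : Set (V × V) → Set V → (X ≃g X) → Prop := fun Γ Z g =>
    (∀ p ∈ Γ, g p.2 = p.1) ∧ (∀ s ∈ S, s ∉ Prod.fst '' Γ → g⁻¹ s ∉ Z) ∧ A S (g x) ∧
      ∀ z ∈ Z, ¬ R X S (g x) z
  obtain ⟨Γ, hΓ⟩ : ∃ Γ, ∀ Z : Set V, #Z ≤ 2 ^ #U → ∃ g, Ok Γ Z g := by
    by_contra h
    push Not at h
    choose Zb hZ1 hZ2 using h
    obtain ⟨N, hN, hNc⟩ := closure #U (2 ^ #U) hρ hpow
      (fun T => ⋃ Γ : Set.powerset (S ×ˢ T), Zb Γ.1) fun T hT => by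
        refine iUnion_le _ hρ _ ?_ fun Γ => hZ1 _
        rw [mk_powerset, mk_setProd]
        exact power_le_power_left two_ne_zero ((mul_le_mul' hS hT).trans (mul_eq_self hU).le)
    obtain ⟨_, ⟨⟨g, rfl⟩, h1⟩, h2⟩ := rich0 N hN
    let Γ : Set (V × V) := {p | p.1 ∈ S ∧ p.2 ∈ N ∧ g p.2 = p.1}
    let T : Set V := N ∩ (fun v => g⁻¹ v) '' S
    have hT : #T ≤ #U := (mk_le_mk_of_subset inter_subset_right).trans (mk_image_le.trans hS)
    have hΓT : Γ ∈ Set.powerset (S ×ˢ T) := fun p hp =>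
      ⟨hp.1, hp.2.1, p.1, hp.1, by rw [← hp.2.2]; exact inv_app g _⟩
    have hsub : Zb Γ ⊆ N :=
      (subset_iUnion (fun Γ : Set.powerset (S ×ˢ T) => Zb Γ.1) ⟨Γ, hΓT⟩).trans
        (hNc T inter_subset_left hT)
    exact hZ2 Γ g ⟨fun p hp => hp.2.2, fun s hs hn hz =>
      hn ⟨(s, g⁻¹ s), ⟨hs, hsub hz, app_inv g s⟩, rfl⟩, ⟨⟨g, rfl⟩, h1⟩, fun z hz => h2 z (hsub hz)⟩
  have good : ∀ Z Z' g g', Ok Γ Z g → Ok Γ Z' g' → (∀ s ∈ S, g'⁻¹ s ∈ Z) →
      Good S (Prod.fst '' Γ) (g * g'⁻¹) := fun Z Z' g g' h h' hZ => by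
    have hfix : Fix (Prod.fst '' Γ) (g * g'⁻¹) := by
      rintro _ ⟨p, hp, rfl⟩
      show g (g'⁻¹ p.1) = p.1
      conv_lhs => rw [← h'.1 p hp, inv_app]
      exact h.1 p hp
    refine ⟨hfix, fun s hs hn hs' => ?_⟩
    by_cases h0 : (g * g'⁻¹) s ∈ Prod.fst '' Γ
    · exact hn (hfix.back s h0)
    · have := h.2.1 _ hs' h0
      have e : g⁻¹ ((g * g'⁻¹) s) = g'⁻¹ s := inv_app g _
      rw [e] at this
      exact this (hZ s hs)
  have hsm : ∀ g : X ≃g X, #(insert (g x) ((fun v => g⁻¹ v) '' S) : Set V) ≤ 2 ^ #U := fun g =>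
    union_le hρ (A := {g x}) (by rw [mk_singleton]; exact one_le_aleph0.trans hρ)
      (mk_image_le.trans (hS.trans hUρ))
  obtain ⟨g0, o0⟩ := hΓ ∅ (by simp)
  obtain ⟨g1, o1⟩ := hΓ _ (hsm g0)
  obtain ⟨g2, o2⟩ := hΓ _ (union_le hρ (hsm g0) (hsm g1))
  have a10 := good _ _ _ _ o1 o0 fun s hs => Or.inr ⟨s, hs, rfl⟩
  have a20 := good _ _ _ _ o2 o0 fun s hs => Or.inl (Or.inr ⟨s, hs, rfl⟩)
  have a21 := good _ _ _ _ o2 o1 fun s hs => Or.inr (Or.inr ⟨s, hs, rfl⟩)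
  have n10 : ¬ R X S (g1 x) (g0 x) := o1.2.2.2 _ (Or.inl rfl)
  have n20 : ¬ R X S (g2 x) (g0 x) := o2.2.2.2 _ (Or.inl (Or.inl rfl))
  have n21 : ¬ R X S (g2 x) (g1 x) := o2.2.2.2 _ (Or.inr (Or.inl rfl))
  have e : ∀ g g' : X ≃g X, (g * g'⁻¹) (g' x) = g x := fun g g' => congrArg g (inv_app g' x)
  by_cases hsub : ∃ s0 ∈ S, s0 ∉ Prod.fst '' Γ
  · obtain ⟨s0, hs, hs0⟩ := hsub
    have t1 := three h3 hc hs hs0 rich a10 a20 (by
      have : (g1 * g0⁻¹)⁻¹ * (g2 * g0⁻¹) = g2 * g1⁻¹ := by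
        rw [hc (g1 * g0⁻¹)⁻¹]; group
      rwa [this])
    have t2 := three h3 hc hs hs0 rich a20 a21 (by
      have : (g2 * g0⁻¹)⁻¹ * (g2 * g1⁻¹) = (g1 * g0⁻¹)⁻¹ := by group
      rw [this]; exact a10.inv)
    have p1 := pair h3 hs hs0 rich a10 o0.2.2.1.2.1 o0.2.2.1.2.2
    have p2 := pair h3 hs hs0 rich a20 o0.2.2.1.2.1 o0.2.2.1.2.2
    have p3 := pair h3 hs hs0 rich a21 o1.2.2.1.2.1 o1.2.2.1.2.2
    rw [e] at p1 p2 p3
    rcases p1 with p1 | p1 <;> rcases p3 with p3 | p3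
    · exact n10 (p3.trans ((p1.trans t1).trans t2).symm)
    · exact n20 (p3.trans ((p1.trans t1).trans t2).symm)
    · rcases p2 with p2 | p2
      · exact n10 ((p1.trans t1).trans p2.symm)
      · exact n21 (p2.trans (p1.trans t1).symm)
    · exact n21 (p3.trans ((p1.trans t1).trans t2).symm)
  · push Not at hsub
    have := noswap h3 (S := S) (g := g1 * g0⁻¹) (fun s hs => a10.1 s (hsub s hs)) (g0 x)
    rw [e] at this
    exact n10 this.symm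

theorem has_minor (U : Type) (hU : ℵ₀ ≤ #U) : ∃ (G : Type) (_ : Group G),
    ∀ (V : Type) (X : SimpleGraph V), Nonempty (G ≃* (X ≃g X)) → HasMinor X U := by
  refine ⟨Multiplicative ((lam (2 ^ #U)).out →₀ ZMod 3), inferInstance, fun V X ⟨φ⟩ => ?_⟩
  by_contra hX
  have hρ : ℵ₀ ≤ 2 ^ #U := hU.trans (cantor _).le
  have hl : ℵ₀ ≤ lam (2 ^ #U) := (tw_inf hρ 0).trans (tw_lt _ 0).le
  have h3 : ∀ g : X ≃g X, g * g * g = 1 := fun g => by
    obtain ⟨a, rfl⟩ := φ.surjective g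
    rw [← map_mul, ← map_mul, ← map_one φ]
    congr 1
    have : ∀ t : ZMod 3, t + t + t = 0 := by decide
    exact Finsupp.ext fun i => this _
  have hc : ∀ g h : X ≃g X, g * h = h * g := fun g h => by
    obtain ⟨a, rfl⟩ := φ.surjective g
    obtain ⟨b, rfl⟩ := φ.surjective h
    rw [← map_mul, ← map_mul, mul_comm]
  refine claimB hU hX h3 ?_ (claimA hU hX h3 hc)
  rw [← mk_congr φ.toEquiv]
  have : Infinite (lam (2 ^ #U)).out := by rw [infinite_iff, mk_out]; exact hl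
  show #((lam (2 ^ #U)).out →₀ ZMod 3) = _
  rw [mk_finsupp_of_infinite, mk_out]
  exact max_eq_left (mk_le_aleph0.trans hl)

theorem main (C : ∀ (V : Type), SimpleGraph V → Prop)
    (hC : ∀ (V : Type) (X : SimpleGraph V), C V X →
        ∀ (U : Type) (Y : SimpleGraph U),
          (∃ (W : Type) (Z : SimpleGraph W) (f : V → W),
            (∀ a b : W, Z.Adj a b ↔ (a ≠ b ∧ ∃ x y : V, X.Adj x y ∧ f x = a ∧ f y = b)) ∧
            (∀ w : W, (X.induce (f ⁻¹' {w})).Connected) ∧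
            ∃ g : U → W, Function.Injective g ∧ ∀ a b : U, Y.Adj a b → Z.Adj (g a) (g b)) →
          C U Y)
    (hG : ∀ (G : Type) [Group G], ∃ (V : Type) (X : SimpleGraph V), C V X ∧ Nonempty (G ≃* (X ≃g X)))
    (U : Type) (Y : SimpleGraph U) : C U Y := by
  classical
  obtain ⟨G, _, h⟩ := has_minor (U ⊕ ℕ) (by simp)
  obtain ⟨V, X, hX, hφ⟩ := hG G
  obtain ⟨B, h1, h2, h3, h4⟩ := h V X hφ
  let f : V → (U ⊕ ℕ) ⊕ {v : V // ¬ ∃ u, v ∈ B u} := fun v =>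
    if h : ∃ u, v ∈ B u then Sum.inl h.choose else Sum.inr ⟨v, h⟩
  have hf : ∀ u v, f v = Sum.inl u ↔ v ∈ B u := fun u v => by
    by_cases h : ∃ u, v ∈ B u
    · simp only [f, dif_pos h, Sum.inl.injEq]
      refine ⟨fun e => e ▸ h.choose_spec, fun e => ?_⟩
      by_contra hne
      exact Set.disjoint_left.mp (h3 _ _ hne) h.choose_spec e
    · simp only [f, dif_neg h]
      exact ⟨fun e => (by cases e), fun e => absurd ⟨u, e⟩ h⟩
  refine hC V X hX U Y ⟨_, ⟨fun a b => a ≠ b ∧ ∃ x y : V, X.Adj x y ∧ f x = a ∧ f y = b,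
    ⟨fun a b ⟨hab, x, y, h, hx, hy⟩ => ⟨hab.symm, y, x, h.symm, hy, hx⟩⟩, ⟨fun a h => h.1 rfl⟩⟩, f,
    fun _ _ => Iff.rfl, fun w => ?_, fun u => Sum.inl (Sum.inl u),
    fun a b h => Sum.inl.inj (Sum.inl.inj h), fun a b hab => ?_⟩
  · rcases w with u | ⟨v, hv⟩
    · have e : f ⁻¹' {Sum.inl u} = B u := Set.ext fun v => hf u v
      rw [e]
      have : Nonempty (B u) := (h1 u).to_subtype
      refine ⟨fun a b => ?_⟩
      have : ∀ b, R X (B u)ᶜ a.1 b → ∀ hb : b ∈ B u, (X.induce (B u)).Reachable a ⟨b, hb⟩ := by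
        intro b hb
        induction hb with
        | refl => exact fun _ => SimpleGraph.Reachable.refl _
        | tail _ h ih =>
          exact fun hb => (ih (not_not.mp h.2.1)).trans (SimpleGraph.Adj.reachable h.1)
      exact this b.1 (h2 u _ a.2 _ b.2) b.2
    · have e : f ⁻¹' {Sum.inr ⟨v, hv⟩} = {v} := Set.ext fun x => by
        by_cases h : ∃ u, x ∈ B u
        · simp only [f, mem_preimage, dif_pos h, mem_singleton_iff]
          exact ⟨fun e => (by cases e), fun e => absurd (e ▸ h) hv⟩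
        · simp only [f, mem_preimage, dif_neg h, mem_singleton_iff, Sum.inr.injEq, Subtype.mk.injEq]
      rw [e]
      have : Nonempty ({v} : Set V) := ⟨⟨v, rfl⟩⟩
      exact ⟨fun a b => by rw [Subsingleton.elim a b]⟩
  · have hne : (Sum.inl a : U ⊕ ℕ) ≠ Sum.inl b := fun h => hab.ne (Sum.inl.inj h)
    obtain ⟨x, hx, y, hy, hxy⟩ := h4 _ _ hne
    exact ⟨fun h => hne (Sum.inl.inj h), x, y, hxy, (hf _ _).mpr hx, (hf _ _).mpr hy⟩

end H26.Babai
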