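import Mathlib

/-! A generic back-and-forth lemma for countable types. -/

namespace Pool.Agent.H26.BackForth

theorem back_forth {α β : Type*} [Countable α] [Countable β] (R : α × β → α × β → Prop)
    (hR : ∀ p q, R p q → (p.1 = q.1 ↔ p.2 = q.2))
    (hf : ∀ s : Finset (α × β), (∀ p ∈ s, ∀ q ∈ s, R p q) → ∀ a, ∃ b,
      ∀ p ∈ insert (a, b) (s : Set (α × β)), ∀ q ∈ insert (a, b) (s : Set (α × β)), R p q)
    (hb : ∀ s : Finset (α × β), (∀ p ∈ s, ∀ q ∈ s, R p q) → ∀ b, ∃ a,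
      ∀ p ∈ insert (a, b) (s : Set (α × β)), ∀ q ∈ insert (a, b) (s : Set (α × β)), R p q)
    (s₀ : Finset (α × β)) (h₀ : ∀ p ∈ s₀, ∀ q ∈ s₀, R p q) :
    ∃ e : α ≃ β, (∀ p ∈ s₀, e p.1 = p.2) ∧ ∀ a a', R (a, e a) (a', e a') := by
  classical
  let S := {s : Finset (α × β) // ∀ p ∈ s, ∀ q ∈ s, R p q}
  have := Encodable.ofCountable α
  have := Encodable.ofCountable β
  let D : α ⊕ β → Order.Cofinal S := fun x => match x with
    | Sum.inl a => ⟨{s | ∃ b, (a, b) ∈ s.1}, fun s => by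
        obtain ⟨b, h⟩ := hf s.1 s.2 a
        exact ⟨⟨insert (a, b) s.1, by simpa using h⟩, ⟨b, Finset.mem_insert_self _ _⟩,
          Finset.subset_insert _ _⟩⟩
    | Sum.inr b => ⟨{s | ∃ a, (a, b) ∈ s.1}, fun s => by
        obtain ⟨a, h⟩ := hb s.1 s.2 b
        exact ⟨⟨insert (a, b) s.1, by simpa using h⟩, ⟨a, Finset.mem_insert_self _ _⟩,
          Finset.subset_insert _ _⟩⟩
  let I := Order.idealOfCofinals (⟨s₀, h₀⟩ : S) D
  have key : ∀ p q, (∃ s ∈ I, p ∈ s.1) → (∃ s ∈ I, q ∈ s.1) → R p q := by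
    rintro p q ⟨s, hs, hp⟩ ⟨t, ht, hq⟩
    obtain ⟨u, -, h1, h2⟩ := I.directed s hs t ht
    exact u.2 p (h1 hp) q (h2 hq)
  have hF : ∀ a, ∃ b, ∃ s ∈ I, (a, b) ∈ s.1 := by
    intro a
    obtain ⟨s, ⟨b, hb⟩, hs⟩ := Order.cofinal_meets_idealOfCofinals (⟨s₀, h₀⟩ : S) D (Sum.inl a)
    exact ⟨b, s, hs, hb⟩
  have hG : ∀ b, ∃ a, ∃ s ∈ I, (a, b) ∈ s.1 := by
    intro b
    obtain ⟨s, ⟨a, ha⟩, hs⟩ := Order.cofinal_meets_idealOfCofinals (⟨s₀, h₀⟩ : S) D (Sum.inr b)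
    exact ⟨a, s, hs, ha⟩
  choose F hF using hF
  choose G hG using hG
  refine ⟨⟨F, G, fun a => (hR _ _ (key _ _ (hG (F a)) (hF a))).2 rfl,
    fun b => (hR _ _ (key _ _ (hF (G b)) (hG b))).1 rfl⟩, ?_, fun a a' => key _ _ (hF a) (hF a')⟩
  intro p hp
  exact (hR _ _ (key _ p (hF p.1) ⟨_, Order.mem_idealOfCofinals _ D, hp⟩)).1 rfl

end Pool.Agent.H26.BackForth
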