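import Mathlib

set_option autoImplicit false
set_option maxHeartbeats 400000

namespace Pool.Agent.H26.Bo

open Filter Topology
open scoped InnerProductSpace

abbrev K : Type := lp (fun _ : ℕ => ℂ) 2

def Rel (a w : K) : Prop := ∀ k : ℕ, a k = w k / ((k : ℂ) + 1)

lemma Rel.sub {a w a' w' : K} (h : Rel a w) (h' : Rel a' w') : Rel (a - a') (w - w') := by
  intro k
  rw [lp.coeFn_sub, lp.coeFn_sub, Pi.sub_apply, Pi.sub_apply, h k, h' k]; ring

lemma Rel.add {a w a' w' : K} (h : Rel a w) (h' : Rel a' w') : Rel (a + a') (w + w') := by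
  intro k
  rw [lp.coeFn_add, lp.coeFn_add, Pi.add_apply, Pi.add_apply, h k, h' k]; ring

lemma rel_zero : Rel 0 0 := by intro k; simp

lemma kne (k : ℕ) : ((k : ℂ) + 1) ≠ 0 := by exact_mod_cast Nat.succ_ne_zero k

lemma Rel.inj {w : K} (h : Rel 0 w) : w = 0 := by
  ext k
  have := h k
  simp only [lp.coeFn_zero, Pi.zero_apply] at this ⊢
  rcases div_eq_zero_iff.1 this.symm with h | h
  · exact h
  · exact absurd h (kne k)

lemma rel_single (j : ℕ) (c : ℂ) : Rel (lp.single 2 j c) (lp.single 2 j (c * ((j : ℂ) + 1))) := by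
  intro k
  by_cases h : k = j
  · subst h
    rw [lp.single_apply_self, lp.single_apply_self, mul_div_assoc, div_self (kne k), mul_one]
  · rw [lp.single_apply_ne _ _ _ h, lp.single_apply_ne _ _ _ h]; simp

lemma rel_dense (a : K) {ε : ℝ} (hε : 0 < ε) : ∃ a' w : K, Rel a' w ∧ ‖a - a'‖ < ε := by
  have h := lp.hasSum_single (E := fun _ : ℕ => ℂ) (p := 2) (by norm_num) a
  obtain ⟨s, hs⟩ := (Metric.tendsto_nhds.1 h ε hε).exists
  refine ⟨∑ i ∈ s, lp.single 2 i (a i), ∑ i ∈ s, lp.single 2 i (a i * ((i : ℂ) + 1)), ?_, ?_⟩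
  · clear hs
    induction s using Finset.induction_on with
    | empty => simpa using rel_zero
    | insert i s hi ih => rw [Finset.sum_insert hi, Finset.sum_insert hi]; exact (rel_single _ _).add ih
  · rwa [dist_comm, dist_eq_norm] at hs

section gen
variable {H : Type*} [NormedAddCommGroup H] [InnerProductSpace ℂ H] [CompleteSpace H]

lemma best {N : Submodule ℂ H} {x y w : H} (hy : y ∈ N) (hx : x - y ∈ Nᗮ) (hw : w ∈ N) :
    ‖x - y‖ ≤ ‖x - w‖ := by
  have h0 : ⟪y - w, x - y⟫_ℂ = 0 := (Submodule.mem_orthogonal _ _).1 hx _ (N.sub_mem hy hw)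
  have h1 := norm_add_sq_eq_norm_sq_add_norm_sq_of_inner_eq_zero _ _ h0
  have h2 : y - w + (x - y) = x - w := by abel
  rw [h2] at h1
  apply le_of_sq_le_sq _ (norm_nonneg _) |> fun h => h
  nlinarith [mul_self_nonneg ‖y - w‖]

lemma exproj {N : Submodule ℂ H} (hN : IsClosed (N : Set H)) (x : H) : ∃ y ∈ N, x - y ∈ Nᗮ := by
  haveI : CompleteSpace N := hN.completeSpace_coe
  exact ⟨N.starProjection x, N.starProjection_apply_mem x, N.sub_starProjection_mem_orthogonal x⟩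

lemma compl_of (E : Set (Submodule ℂ H)) (hc : ∀ M ∈ E, IsClosed (M : Set H))
    (hb : (⊥ : Submodule ℂ H) ∈ E) (hj : ∀ A ∈ E, ∀ B ∈ E, (A ⊔ B).topologicalClosure ∈ E)
    (hs : ∀ M : Submodule ℂ H, IsClosed (M : Set H) →
      (∀ s : Finset H, ∀ ε : ℝ, 0 < ε → ∃ N ∈ E, ∀ x ∈ s, ∀ y z : H,
        y ∈ N → x - y ∈ N.orthogonal → z ∈ M → x - z ∈ M.orthogonal → ‖y - z‖ < ε) → M ∈ E) :
    ∀ S ⊆ E, ∃ M ∈ E, (∀ N ∈ S, N ≤ M) ∧ ∀ M' ∈ E, (∀ N ∈ S, N ≤ M') → M ≤ M' := by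
  classical
  intro S hS
  set F : Set (Submodule ℂ H) := {N | N ∈ E ∧ ∀ M' ∈ E, (∀ N ∈ S, N ≤ M') → N ≤ M'} with hF
  have hF0 : (⊥ : Submodule ℂ H) ∈ F := ⟨hb, fun _ _ _ => bot_le⟩
  have hFj : ∀ A ∈ F, ∀ B ∈ F, (A ⊔ B).topologicalClosure ∈ F := fun A hA B hB =>
    ⟨hj A hA.1 B hB.1, fun M' h1 h2 =>
      Submodule.topologicalClosure_minimal _ (sup_le (hA.2 M' h1 h2) (hB.2 M' h1 h2)) (hc M' h1)⟩
  have hdir : DirectedOn (· ≤ ·) F := fun A hA B hB =>
    ⟨_, hFj A hA B hB, le_sup_left.trans (Submodule.le_topologicalClosure _),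
      le_sup_right.trans (Submodule.le_topologicalClosure _)⟩
  set M := (sSup F).topologicalClosure with hM
  have hMc : IsClosed (M : Set H) := Submodule.isClosed_topologicalClosure _
  have hle : ∀ N ∈ F, N ≤ M := fun N hN => (le_sSup hN).trans (Submodule.le_topologicalClosure _)
  refine ⟨M, hs M hMc fun s ε hε => ?_, fun N hN => hle N ⟨hS hN, fun M' _ h => h N hN⟩,
    fun M' h1 h2 => Submodule.topologicalClosure_minimal _ (sSup_le fun N hN => hN.2 M' h1 h2) (hc M' h1)⟩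
  choose P hP1 hP2 using exproj hMc
  have key : ∃ N ∈ F, ∀ x ∈ s, ∃ w ∈ N, ‖P x - w‖ < ε := by
    induction s using Finset.induction_on with
    | empty => exact ⟨⊥, hF0, by simp⟩
    | insert x s _ ih =>
      obtain ⟨N, hN, h⟩ := ih
      have : P x ∈ closure ((sSup F : Submodule ℂ H) : Set H) := hP1 x
      obtain ⟨w, hw, hw'⟩ := Metric.mem_closure_iff.1 this ε hε
      obtain ⟨N', hN', hwN⟩ := (Submodule.mem_sSup_of_directed ⟨_, hF0⟩ hdir).1 hw
      obtain ⟨N'', h1, h2, h3⟩ := hdir N hN N' hN'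
      refine ⟨N'', h1, fun y hy => ?_⟩
      rcases Finset.mem_insert.1 hy with rfl | hy
      · exact ⟨w, h3 hwN, by rwa [dist_eq_norm] at hw'⟩
      · obtain ⟨w', a, b⟩ := h y hy
        exact ⟨w', h2 a, b⟩
  obtain ⟨N, hN, h⟩ := key
  refine ⟨N, hN.1, fun x hx y z hy hxy hz hxz => ?_⟩
  obtain ⟨w, hw, hw'⟩ := h x hx
  have e : z = P x := by
    have h1 : z - P x ∈ M := M.sub_mem hz (hP1 x)
    have h2 : z - P x ∈ Mᗮ := by
      have := Mᗮ.sub_mem (hP2 x) hxz
      rwa [show x - P x - (x - z) = z - P x by abel] at this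
    have := (Submodule.mem_orthogonal _ _).1 h2 _ h1
    rwa [inner_self_eq_zero, sub_eq_zero] at this
  have h3 : z - y ∈ Nᗮ := by
    have := Nᗮ.sub_mem hxy (Submodule.orthogonal_le (hle N hN) hxz)
    rwa [show x - y - (x - z) = z - y by abel] at this
  rw [norm_sub_rev]
  exact (best hy h3 hw).trans_lt (by rw [e]; exact hw')

end gen

end Pool.Agent.H26.Bo
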