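import Pool.Agent.H26.Bo1

set_option autoImplicit false
set_option maxHeartbeats 400000

namespace Pool.Agent.H26.Bo

open Filter Topology
open scoped InnerProductSpace

variable {L : Type*} [NormedAddCommGroup L] [InnerProductSpace ℂ L]
variable {B : Type*} [BooleanAlgebra B]
variable {H : Type*} [NormedAddCommGroup H] [InnerProductSpace ℂ H]

structure Sp (Q : B → L →L[ℂ] L) (o : L) (R : L →L[ℂ] K) : Prop where
  inf : ∀ E F f, Q E (Q F f) = Q (E ⊓ F) f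
  com : ∀ E f, Q Eᶜ f = f - Q E f
  bot : ∀ f, Q ⊥ f = 0
  sa : ∀ E f g, ⟪Q E f, g⟫_ℂ = ⟪f, Q E g⟫_ℂ
  le : ∀ E f, ‖Q E f‖ ≤ ‖f‖
  ne : o ≠ 0
  ac : ∀ f, ∀ ε : ℝ, 0 < ε → ∃ δ : ℝ, 0 < δ ∧ ∀ E, ‖Q E o‖ < δ → ‖Q E f‖ < ε
  cl : IsClosed (Set.range fun E => Q E o)
  sur : ∀ δ : ℝ, 0 < δ → ∃ C : ℝ, 0 < C ∧ ∀ E, δ ≤ ‖Q E o‖ → ∀ a, ∃ h, Q E h = h ∧ R h = a ∧ ‖h‖ ≤ C * ‖a‖
  nb : ∀ x, x ≠ 0 → ∃ η : ℝ, 0 < η ∧ ∀ k : ℕ, ∃ E, η ≤ ‖R (Q E x) k‖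

structure Tr (R : L →L[ℂ] K) (p1 : H →L[ℂ] L) (p2 : H →L[ℂ] K) (p3 : H →L[ℂ] L) : Prop where
  inn : ∀ x y, ⟪x, y⟫_ℂ = ⟪p1 x, p1 y⟫_ℂ + ⟪p2 x, p2 y⟫_ℂ + ⟪p3 x, p3 y⟫_ℂ
  rel : ∀ x, Rel (R (p1 x)) (p2 x)
  sur : ∀ f z v, Rel (R f) z → ∃ x, p1 x = f ∧ p2 x = z ∧ p3 x = v

variable {Q : B → L →L[ℂ] L} {o : L} {R : L →L[ℂ] K}
  {p1 : H →L[ℂ] L} {p2 : H →L[ℂ] K} {p3 : H →L[ℂ] L}

lemma Tr.nsq (hT : Tr R p1 p2 p3) (x : H) : ‖x‖ ^ 2 = ‖p1 x‖ ^ 2 + ‖p2 x‖ ^ 2 + ‖p3 x‖ ^ 2 := by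
  have := congrArg RCLike.re (hT.inn x x)
  simpa only [map_add, inner_self_eq_norm_sq] using this

lemma Tr.nle (hT : Tr R p1 p2 p3) (x : H) : ‖x‖ ≤ ‖p1 x‖ + ‖p2 x‖ + ‖p3 x‖ := by
  apply le_of_sq_le_sq _ (by positivity) |> fun h => h
  rw [hT.nsq]
  nlinarith [mul_nonneg (norm_nonneg (p1 x)) (norm_nonneg (p2 x)), mul_nonneg (norm_nonneg (p1 x)) (norm_nonneg (p3 x)), mul_nonneg (norm_nonneg (p3 x)) (norm_nonneg (p2 x))]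

lemma Tr.n1 (hT : Tr R p1 p2 p3) (x : H) : ‖p1 x‖ ≤ ‖x‖ := by
  apply le_of_sq_le_sq _ (by positivity) |> fun h => h
  rw [hT.nsq]; nlinarith [sq_nonneg ‖p2 x‖, sq_nonneg ‖p3 x‖]

lemma Tr.n2 (hT : Tr R p1 p2 p3) (x : H) : ‖p2 x‖ ≤ ‖x‖ := by
  apply le_of_sq_le_sq _ (by positivity) |> fun h => h
  rw [hT.nsq]; nlinarith [sq_nonneg ‖p1 x‖, sq_nonneg ‖p3 x‖]

lemma Tr.n3 (hT : Tr R p1 p2 p3) (x : H) : ‖p3 x‖ ≤ ‖x‖ := by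
  apply le_of_sq_le_sq _ (by positivity) |> fun h => h
  rw [hT.nsq]; nlinarith [sq_nonneg ‖p2 x‖, sq_nonneg ‖p1 x‖]

lemma Sp.top (hQ : Sp Q o R) (f : L) : Q ⊤ f = f := by
  rw [← compl_bot, hQ.com, hQ.bot, sub_zero]

lemma Sp.null (hQ : Sp Q o R) {E : B} (h : Q E o = 0) (f : L) : Q E f = 0 := by
  by_contra hne
  obtain ⟨δ, hδ, h1⟩ := hQ.ac f _ (norm_pos_iff.2 hne)
  exact lt_irrefl _ (h1 E (by rw [h, norm_zero]; exact hδ))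

lemma Sp.mono (hQ : Sp Q o R) {E F : B} (h : E ≤ F) {f : L} (hf : Q E f = f) : Q F f = f := by
  rw [← hf, hQ.inf, inf_eq_right.2 h]

def MM (Q : B → L →L[ℂ] L) (p1 p3 : H →L[ℂ] L) (E : B) : Submodule ℂ H where
  carrier := {x | Q E (p1 x) = p1 x ∧ Q E (p3 x) = p3 x}
  add_mem' := fun ha hb => ⟨by rw [map_add, map_add, ha.1, hb.1], by rw [map_add, map_add, ha.2, hb.2]⟩
  zero_mem' := by simp
  smul_mem' := fun c x hx => ⟨by rw [map_smul, map_smul, hx.1], by rw [map_smul, map_smul, hx.2]⟩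

lemma mem_MM {E : B} {x : H} : x ∈ MM Q p1 p3 E ↔ Q E (p1 x) = p1 x ∧ Q E (p3 x) = p3 x := Iff.rfl

lemma MM_closed (E : B) : IsClosed (MM Q p1 p3 E : Set H) :=
  (isClosed_eq (by fun_prop) (by fun_prop)).inter (isClosed_eq (by fun_prop) (by fun_prop))

lemma MM_mono (hQ : Sp Q o R) {E F : B} (h : E ≤ F) : MM Q p1 p3 E ≤ MM Q p1 p3 F :=
  fun _ hx => ⟨hQ.mono h hx.1, hQ.mono h hx.2⟩

lemma MM_inf (hQ : Sp Q o R) (E F : B) : MM Q p1 p3 E ⊓ MM Q p1 p3 F = MM Q p1 p3 (E ⊓ F) := by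
  refine le_antisymm (fun x hx => ⟨?_, ?_⟩) (le_inf (MM_mono hQ inf_le_left) (MM_mono hQ inf_le_right))
  · rw [← hQ.inf, hx.2.1, hx.1.1]
  · rw [← hQ.inf, hx.2.2, hx.1.2]

lemma MM_bot (hQ : Sp Q o R) (hT : Tr R p1 p2 p3) : MM Q p1 p3 (⊥ : B) = ⊥ := by
  refine le_antisymm (fun x hx => ?_) bot_le
  have h1 : p1 x = 0 := by rw [← hx.1, hQ.bot]
  have h3 : p3 x = 0 := by rw [← hx.2, hQ.bot]
  have h2 : p2 x = 0 := Rel.inj (by simpa [h1] using hT.rel x)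
  have := hT.nle x
  rw [h1, h2, h3] at this
  simpa using this

lemma MM_top (hQ : Sp Q o R) : MM Q p1 p3 (⊤ : B) = ⊤ :=
  le_antisymm le_top fun _ _ => ⟨hQ.top _, hQ.top _⟩

lemma MM_null (hQ : Sp Q o R) {E F : B} (h : Q (F ⊓ Eᶜ) o = 0) : MM Q p1 p3 F ≤ MM Q p1 p3 E := by
  have key : ∀ f, Q F f = f → Q E f = f := fun f hf => by
    have := hQ.null h f
    rw [inf_comm, ← hQ.inf, hf, hQ.com, sub_eq_zero] at this
    exact this.symm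
  exact fun x hx => ⟨key _ hx.1, key _ hx.2⟩

lemma MM_sup (hQ : Sp Q o R) (hT : Tr R p1 p2 p3) (E F : B) :
    (MM Q p1 p3 E ⊔ MM Q p1 p3 F).topologicalClosure = MM Q p1 p3 (E ⊔ F) := by
  refine le_antisymm (Submodule.topologicalClosure_minimal _
    (sup_le (MM_mono hQ le_sup_left) (MM_mono hQ le_sup_right)) (MM_closed _)) ?_
  by_cases hE : Q E o = 0
  · refine (MM_null hQ (E := F) ?_).trans (le_sup_right.trans (Submodule.le_topologicalClosure _))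
    rw [show (E ⊔ F) ⊓ Fᶜ = Fᶜ ⊓ E by rw [inf_sup_right]; simp [inf_comm], ← hQ.inf, hE, map_zero]
  by_cases hF : Q F o = 0
  · refine (MM_null hQ (E := E) ?_).trans (le_sup_left.trans (Submodule.le_topologicalClosure _))
    rw [show (E ⊔ F) ⊓ Eᶜ = Eᶜ ⊓ F by rw [inf_sup_right]; simp [inf_comm], ← hQ.inf, hF, map_zero]
  obtain ⟨C1, hC1, h1⟩ := hQ.sur _ (norm_pos_iff.2 hE)
  obtain ⟨C2, hC2, h2⟩ := hQ.sur _ (norm_pos_iff.2 hF)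
  intro x hx
  show x ∈ closure _
  rw [Metric.mem_closure_iff]
  intro ε hε
  obtain ⟨a', w, hr, ha⟩ := rel_dense (R (Q E (p1 x))) (show 0 < ε / (C1 + C2) by positivity)
  obtain ⟨g1, e1, e2, e3⟩ := h1 E le_rfl (R (Q E (p1 x)) - a')
  obtain ⟨g2, e4, e5, e6⟩ := h2 F le_rfl (R (Q E (p1 x)) - a')
  have kF : ∀ f, Q (E ⊔ F) f = f → Q F (f - Q E f) = f - Q E f := fun f hf => by
    have e : F ⊓ Eᶜ = Eᶜ ⊓ (E ⊔ F) := by rw [inf_sup_left, compl_inf_self, bot_sup_eq, inf_comm]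
    rw [← hQ.com, hQ.inf, e, ← hQ.inf, hf]
  obtain ⟨x1, a1, a2, a3⟩ := hT.sur (Q E (p1 x) - g1) w (Q E (p3 x)) (by
    rw [map_sub, e2, sub_sub_cancel]; exact hr)
  obtain ⟨x2, b1, b2, b3⟩ := hT.sur (p1 x - Q E (p1 x) + g2) (p2 x - w) (p3 x - Q E (p3 x)) (by
    rw [map_add, map_sub, e5, sub_add_sub_cancel]; exact (hT.rel x).sub hr)
  refine ⟨x1 + x2, Submodule.add_mem_sup ⟨?_, ?_⟩ ⟨?_, ?_⟩, ?_⟩
  · rw [a1, map_sub, e1, hQ.inf, inf_idem]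
  · rw [a3, hQ.inf, inf_idem]
  · rw [b1, map_add, e4, kF _ hx.1]
  · rw [b3, kF _ hx.2]
  · rw [dist_eq_norm]
    refine (hT.nle _).trans_lt ?_
    rw [map_sub, map_sub, map_sub, map_add, map_add, map_add, a1, a2, a3, b1, b2, b3]
    rw [show p1 x - (Q E (p1 x) - g1 + (p1 x - Q E (p1 x) + g2)) = g1 - g2 by abel,
      show p2 x - (w + (p2 x - w)) = 0 by abel, show p3 x - (Q E (p3 x) + (p3 x - Q E (p3 x))) = 0 by abel]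
    rw [lt_div_iff₀ (by positivity)] at ha
    have := norm_sub_le g1 g2
    simp only [norm_zero, add_zero]
    nlinarith

lemma approx (hQ : Sp Q o R) (hT : Tr R p1 p2 p3) {E : B} {x : H} (hx : x ∈ MM Q p1 p3 E)
    {ε : ℝ} (hε : 0 < ε) : ∃ δ : ℝ, 0 < δ ∧ ∀ F, ‖Q F o - Q E o‖ < δ → ∃ w ∈ MM Q p1 p3 F, ‖x - w‖ < ε := by
  by_cases hE : Q E o = 0
  · refine ⟨1, one_pos, fun F _ => ⟨x, ⟨?_, ?_⟩, by simpa using hε⟩⟩
    · rw [← hx.1, hQ.null hE, map_zero]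
    · rw [← hx.2, hQ.null hE, map_zero]
  have hp := norm_pos_iff.2 hE
  obtain ⟨C, hC, h1⟩ := hQ.sur (‖Q E o‖ / 2) (by positivity)
  obtain ⟨δ1, hδ1, k1⟩ := hQ.ac (p1 x) (ε / 2 / (1 + C * ‖R‖)) (by positivity)
  obtain ⟨δ3, hδ3, k3⟩ := hQ.ac (p3 x) (ε / 2) (by positivity)
  refine ⟨min (‖Q E o‖ / 2) (min δ1 δ3), by positivity, fun F hF => ?_⟩
  rw [lt_min_iff, lt_min_iff] at hF
  have hd : ‖Q (Fᶜ ⊓ E) o‖ ≤ ‖Q F o - Q E o‖ := by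
    have : Q (Fᶜ ⊓ E) o = Q Fᶜ (Q E o - Q F o) := by
      rw [map_sub, hQ.inf, hQ.inf, compl_inf_self, hQ.bot, sub_zero]
    rw [this, norm_sub_rev]; exact hQ.le _ _
  have m1 := k1 _ (hd.trans_lt hF.2.1)
  have m3 := k3 _ (hd.trans_lt hF.2.2)
  rw [← hQ.inf, hx.1, hQ.com] at m1
  rw [← hQ.inf, hx.2, hQ.com] at m3
  have hFo : ‖Q E o‖ / 2 ≤ ‖Q F o‖ := by
    have := norm_sub_norm_le (Q E o) (Q F o)
    rw [norm_sub_rev] at this; linarith [hF.1]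
  obtain ⟨g, e1, e2, e3⟩ := h1 F hFo (R (p1 x - Q F (p1 x)))
  obtain ⟨w, a1, a2, a3⟩ := hT.sur (Q F (p1 x) + g) (p2 x) (Q F (p3 x)) (by
    rw [map_add, e2, map_sub, add_sub_cancel]; exact hT.rel x)
  refine ⟨w, ⟨by rw [a1, map_add, e1, hQ.inf, inf_idem], by rw [a3, hQ.inf, inf_idem]⟩, ?_⟩
  refine (hT.nle _).trans_lt ?_
  rw [map_sub, map_sub, map_sub, a1, a2, a3, sub_self, norm_zero, add_zero, ← sub_sub]
  have t1 := norm_sub_le (p1 x - Q F (p1 x)) g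
  have t2 := R.le_opNorm (p1 x - Q F (p1 x))
  have t3 := mul_le_mul_of_nonneg_left t2 hC.le
  rw [lt_div_iff₀ (by positivity)] at m1
  nlinarith

lemma proj_o (hQ : Sp Q o R) (hT : Tr R p1 p2 p3) {x0 y : H} (h1 : p1 x0 = 0) (h2 : p2 x0 = 0)
    (h3 : p3 x0 = o) {F : B} : ∃ y ∈ MM Q p1 p3 F, x0 - y ∈ (MM Q p1 p3 F)ᗮ ∧ p3 y = Q F o := by
  obtain ⟨y, a1, a2, a3⟩ := hT.sur 0 0 (Q F o) (by rw [map_zero]; exact rel_zero)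
  refine ⟨y, ⟨by rw [a1, map_zero], by rw [a3, hQ.inf, inf_idem]⟩, ?_, a3⟩
  rw [Submodule.mem_orthogonal]
  intro u hu
  rw [hT.inn, map_sub, map_sub, map_sub, h1, h2, h3, a1, a2, a3, ← hu.2, hQ.sa, map_sub, hQ.inf, inf_idem]
  simp

lemma strong [CompleteSpace H] (hQ : Sp Q o R) (hT : Tr R p1 p2 p3) (M : Submodule ℂ H)
    (hM : IsClosed (M : Set H))
    (h : ∀ s : Finset H, ∀ ε : ℝ, 0 < ε → ∃ N ∈ Set.range (MM Q p1 p3), ∀ x ∈ s, ∀ y z : H,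
        y ∈ N → x - y ∈ N.orthogonal → z ∈ M → x - z ∈ M.orthogonal → ‖y - z‖ < ε) :
    M ∈ Set.range (MM Q p1 p3) := by
  classical
  obtain ⟨x0, h1, h2, h3⟩ := hT.sur 0 0 o (by rw [map_zero]; exact rel_zero)
  obtain ⟨z0, hz0, hz0'⟩ := exproj hM x0
  have key : ∀ x : H, ∀ ε : ℝ, 0 < ε → ∃ F, ‖Q F o - p3 z0‖ < ε ∧ ∀ y z : H,
      y ∈ MM Q p1 p3 F → x - y ∈ (MM Q p1 p3 F)ᗮ → z ∈ M → x - z ∈ Mᗮ → ‖y - z‖ < ε := by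
    intro x ε hε
    obtain ⟨_, ⟨F, rfl⟩, hF⟩ := h {x0, x} ε hε
    refine ⟨F, ?_, hF x (by simp)⟩
    obtain ⟨y, a, b, c⟩ := proj_o (y := x0) hQ hT h1 h2 h3 (F := F)
    rw [← c, ← map_sub]
    exact (hT.n3 _).trans_lt (hF x0 (by simp) y z0 a b hz0 hz0')
  have : p3 z0 ∈ Set.range fun E => Q E o := by
    rw [← hQ.cl.closure_eq, Metric.mem_closure_iff]
    intro ε hε
    obtain ⟨F, hF, -⟩ := key 0 ε hε
    exact ⟨_, ⟨F, rfl⟩, by rwa [dist_comm, dist_eq_norm]⟩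
  obtain ⟨E, hE⟩ := this
  simp only at hE
  rw [← hE] at key
  refine ⟨E, le_antisymm (fun x hx => ?_) (fun x hx => ?_)⟩
  · show x ∈ (M : Set H)
    rw [← hM.closure_eq, Metric.mem_closure_iff]
    intro ε hε
    obtain ⟨δ, hδ, k⟩ := approx hQ hT hx (half_pos hε)
    obtain ⟨F, a, b⟩ := key x (min δ (ε / 2)) (by positivity)
    obtain ⟨w, hw, hw'⟩ := k F (a.trans_le (min_le_left _ _))
    obtain ⟨y, hy, hy'⟩ := exproj (MM_closed (Q := Q) (p1 := p1) (p3 := p3) F) x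
    obtain ⟨z, hz, hz'⟩ := exproj hM x
    refine ⟨z, hz, ?_⟩
    have t1 := (b y z hy hy' hz hz').trans_le (min_le_right _ _)
    have t2 := best hy hy' hw
    have t3 := dist_triangle x y z
    simp only [dist_eq_norm] at t3 ⊢
    linarith
  · have kk : ∀ p : H →L[ℂ] L, (∀ u, ‖p u‖ ≤ ‖u‖) → (∀ F, ∀ u ∈ MM Q p1 p3 F, Q F (p u) = p u) →
        Q E (p x) = p x := by
      intro p hp hp'
      rw [eq_comm, ← sub_eq_zero, ← hQ.com, ← norm_le_zero_iff]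
      refine le_of_forall_pos_le_add fun ε hε => ?_
      obtain ⟨δ, hδ, k⟩ := hQ.ac (p x) (ε / 3) (by positivity)
      obtain ⟨F, a, b⟩ := key x (min δ (ε / 3)) (by positivity)
      obtain ⟨y, hy, hy'⟩ := exproj (MM_closed (Q := Q) (p1 := p1) (p3 := p3) F) x
      have t1 := (b y x hy hy' hx (by simp)).trans_le (min_le_right _ _)
      have hd : ‖Q (Eᶜ ⊓ F) o‖ ≤ ‖Q F o - Q E o‖ := by
        have : Q (Eᶜ ⊓ F) o = Q Eᶜ (Q F o - Q E o) := by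
          rw [map_sub, hQ.inf, hQ.inf, compl_inf_self, hQ.bot, sub_zero]
        rw [this]; exact hQ.le _ _
      have t2 := k _ (hd.trans_lt (a.trans_le (min_le_left _ _)))
      have e : Q Eᶜ (p x) = Q (Eᶜ ⊓ F) (p x) + Q Eᶜ (Q F (p (y - x))) - Q Eᶜ (p (y - x)) := by
        rw [← hQ.inf, map_sub, map_sub, map_sub, map_sub, hp' F y hy]; abel
      rw [e]
      have t3 := norm_sub_le (Q (Eᶜ ⊓ F) (p x) + Q Eᶜ (Q F (p (y - x)))) (Q Eᶜ (p (y - x)))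
      have t4 := norm_add_le (Q (Eᶜ ⊓ F) (p x)) (Q Eᶜ (Q F (p (y - x))))
      have t5 := (hQ.le Eᶜ _).trans ((hQ.le F _).trans (hp (y - x)))
      have t6 := (hQ.le Eᶜ _).trans (hp (y - x))
      linarith
    exact ⟨kk p1 hT.n1 fun F u hu => hu.1, kk p3 hT.n3 fun F u hu => hu.2⟩

lemma inv_ker (hQ : Sp Q o R) (hT : Tr R p1 p2 p3) (T : H →L[ℂ] H)
    (h : ∀ N ∈ Set.range (MM Q p1 p3), ∀ x ∈ N, T x ∈ N) {x : H} (hx : p1 x = 0) : p1 (T x) = 0 := by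
  by_contra hne
  obtain ⟨η, hη, k⟩ := hQ.nb _ hne
  obtain ⟨n, hn⟩ := exists_nat_gt (‖T‖ * ‖x‖ / η)
  obtain ⟨E, hE⟩ := k n
  obtain ⟨y, a1, a2, a3⟩ := hT.sur 0 0 (Q E (p3 x)) (by rw [map_zero]; exact rel_zero)
  have y1 : y ∈ MM Q p1 p3 E := ⟨by rw [a1, map_zero], by rw [a3, hQ.inf, inf_idem]⟩
  have y2 : x - y ∈ MM Q p1 p3 Eᶜ := ⟨by rw [map_sub, a1, hx, sub_zero, map_zero],
    by rw [map_sub, a3, ← hQ.com, hQ.inf, inf_idem]⟩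
  have z1 := (h _ ⟨E, rfl⟩ _ y1).1
  have z2 := (h _ ⟨Eᶜ, rfl⟩ _ y2).1
  rw [hQ.com, sub_eq_self, map_sub, map_sub, map_sub, z1, sub_eq_zero] at z2
  rw [z2, hT.rel (T y) n, norm_div] at hE
  have t1 : ‖p2 (T y) n‖ ≤ ‖p2 (T y)‖ := lp.norm_apply_le_norm (by norm_num) _ _
  have t2 : ‖y‖ ≤ ‖x‖ := by
    refine (hT.nle y).trans ?_
    rw [a1, a2, a3]; simpa using (hQ.le _ _).trans (hT.n3 x)
  have t3 := (t1.trans (hT.n2 _)).trans ((T.le_opNorm y).trans (mul_le_mul_of_nonneg_left t2 (norm_nonneg _)))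
  have t4 : ‖(n : ℂ) + 1‖ = (n : ℝ) + 1 := by
    rw [show (n : ℂ) + 1 = ((n + 1 : ℕ) : ℂ) by push_cast; ring, Complex.norm_natCast]; push_cast; ring
  rw [t4, le_div_iff₀ (by positivity)] at hE
  rw [div_lt_iff₀ hη] at hn
  nlinarith

lemma ker_not (hQ : Sp Q o R) (hT : Tr R p1 p2 p3) : LinearMap.ker (p1 : H →ₗ[ℂ] L) ∉ Set.range (MM Q p1 p3) := by
  rintro ⟨E, hE⟩
  obtain ⟨x0, h1, h2, h3⟩ := hT.sur 0 0 o (by rw [map_zero]; exact rel_zero)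
  have : x0 ∈ MM Q p1 p3 E := by rw [hE]; exact h1
  have ho := this.2
  rw [h3] at ho
  obtain ⟨C, hC, k⟩ := hQ.sur _ (norm_pos_iff.2 hQ.ne)
  obtain ⟨g, e1, e2, -⟩ := k E (by rw [ho]) (lp.single 2 0 1)
  obtain ⟨y, a1, a2, a3⟩ := hT.sur g _ 0 (by rw [e2]; exact rel_single 0 1)
  have : y ∈ MM Q p1 p3 E := ⟨by rw [a1, e1], by rw [a3, map_zero]⟩
  rw [hE] at this
  have g0 : g = 0 := by rw [← a1]; exact this
  rw [g0, map_zero] at e2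
  have := congrArg (fun c : K => c 0) e2
  simp at this

end Pool.Agent.H26.Bo
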