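import Pool.Agent.H26.Bo2

set_option autoImplicit false
set_option maxHeartbeats 400000

namespace Pool.Agent.H26.Bo

open Filter Topology MeasureTheory
open scoped InnerProductSpace ENNReal

variable {Ω : Type*} [MeasurableSpace Ω] {μ : Measure Ω}

abbrev BB (Ω : Type*) [MeasurableSpace Ω] := {s : Set Ω // MeasurableSet s}

noncomputable def Q0 (E : BB Ω) (f : Lp ℂ 2 μ) : Lp ℂ 2 μ :=
  ((Lp.memLp f).indicator E.2).toLp _

lemma Q0_ae (E : BB Ω) (f : Lp ℂ 2 μ) : Q0 E f =ᵐ[μ] E.1.indicator f := MemLp.coeFn_toLp _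

lemma Q0_le (E : BB Ω) (f : Lp ℂ 2 μ) : ‖Q0 E f‖ ≤ ‖f‖ := by
  apply Lp.norm_le_norm_of_ae_le
  filter_upwards [Q0_ae E f] with ω h
  rw [h]; exact norm_indicator_le_norm_self _ _

noncomputable def QQ (μ : Measure Ω) (E : BB Ω) : Lp ℂ 2 μ →L[ℂ] Lp ℂ 2 μ :=
  LinearMap.mkContinuous
    { toFun := Q0 E
      map_add' := fun f g => by
        apply Lp.ext
        filter_upwards [Q0_ae E (f + g), Q0_ae E f, Q0_ae E g, Lp.coeFn_add f g,
          Lp.coeFn_add (Q0 E f) (Q0 E g)] with ω a b c d e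
        rw [e, a, Pi.add_apply, b, c]
        by_cases h : ω ∈ E.1
        · simp only [Set.indicator_of_mem h, d, Pi.add_apply]
        · simp only [Set.indicator_of_notMem h, add_zero]
      map_smul' := fun c f => by
        apply Lp.ext
        filter_upwards [Q0_ae E (c • f), Q0_ae E f, Lp.coeFn_smul c f,
          Lp.coeFn_smul c (Q0 E f)] with ω a b d e
        rw [RingHom.id_apply, e, a, Pi.smul_apply, b]
        by_cases h : ω ∈ E.1 <;> simp [h, d] } 1 fun f => by simpa using Q0_le E f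

lemma QQ_ae (E : BB Ω) (f : Lp ℂ 2 μ) : QQ μ E f =ᵐ[μ] E.1.indicator f := Q0_ae E f

lemma QQ_le (E : BB Ω) (f : Lp ℂ 2 μ) : ‖QQ μ E f‖ ≤ ‖f‖ := Q0_le E f

lemma QQ_inf (E F : BB Ω) (f : Lp ℂ 2 μ) : QQ μ E (QQ μ F f) = QQ μ (E ⊓ F) f := by
  apply Lp.ext
  filter_upwards [QQ_ae E (QQ μ F f), QQ_ae F f, QQ_ae (E ⊓ F) f] with ω a b c
  rw [a, c]
  show _ = (E.1 ∩ F.1).indicator f ω
  by_cases h : ω ∈ E.1 <;> by_cases h' : ω ∈ F.1 <;> simp [h, h', b]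

lemma QQ_com (E : BB Ω) (f : Lp ℂ 2 μ) : QQ μ Eᶜ f = f - QQ μ E f := by
  apply Lp.ext
  filter_upwards [QQ_ae Eᶜ f, QQ_ae E f, Lp.coeFn_sub f (QQ μ E f)] with ω a b c
  rw [a, c, Pi.sub_apply, b]
  show (E.1ᶜ).indicator f ω = _
  by_cases h : ω ∈ E.1 <;> simp [h]

lemma QQ_bot (f : Lp ℂ 2 μ) : QQ μ ⊥ f = 0 := by
  apply Lp.ext
  filter_upwards [QQ_ae ⊥ f, Lp.coeFn_zero ℂ 2 μ] with ω a b
  rw [a, b]
  show (∅ : Set Ω).indicator f ω = _
  simp

lemma QQ_sa (E : BB Ω) (f g : Lp ℂ 2 μ) : ⟪QQ μ E f, g⟫_ℂ = ⟪f, QQ μ E g⟫_ℂ := by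
  rw [L2.inner_def, L2.inner_def]
  apply integral_congr_ae
  filter_upwards [QQ_ae E f, QQ_ae E g] with ω a b
  rw [a, b]
  by_cases h : ω ∈ E.1 <;> simp [h]

variable [IsProbabilityMeasure μ]

noncomputable def oo (μ : Measure Ω) [IsProbabilityMeasure μ] : Lp ℂ 2 μ := Lp.const 2 μ (1 : ℂ)

lemma oo_ae : oo μ =ᵐ[μ] fun _ => (1 : ℂ) := Lp.coeFn_const _ _ _

lemma Qo_ae (E : BB Ω) : QQ μ E (oo μ) =ᵐ[μ] E.1.indicator fun _ => (1 : ℂ) := by
  filter_upwards [QQ_ae E (oo μ), oo_ae (μ := μ)] with ω a b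
  rw [a]
  by_cases h : ω ∈ E.1 <;> simp [h, b]

lemma Qo_sq (E : BB Ω) : ‖QQ μ E (oo μ)‖ ^ 2 = μ.real E.1 := by
  have : QQ μ E (oo μ) = indicatorConstLp 2 E.2 (measure_ne_top μ _) (1 : ℂ) := by
    apply Lp.ext
    exact (Qo_ae E).trans indicatorConstLp_coeFn.symm
  rw [this, norm_indicatorConstLp (by norm_num) (by norm_num), norm_one, one_mul, ← Real.rpow_natCast,
    ← Real.rpow_mul measureReal_nonneg]
  norm_num

lemma oo_ne : oo μ ≠ 0 := by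
  intro h
  have := Qo_sq (μ := μ) ⊤
  rw [h, map_zero, norm_zero] at this
  have h2 : μ.real ((⊤ : BB Ω).1) = 1 := by
    show μ.real Set.univ = 1
    simp
  rw [h2] at this; norm_num at this

lemma QQ_ac (f : Lp ℂ 2 μ) (ε : ℝ) (hε : 0 < ε) :
    ∃ δ : ℝ, 0 < δ ∧ ∀ E : BB Ω, ‖QQ μ E (oo μ)‖ < δ → ‖QQ μ E f‖ < ε := by
  obtain ⟨δ, hδ, h⟩ := (Lp.memLp f).eLpNorm_indicator_le (by norm_num) (by norm_num) (half_pos hε)
  refine ⟨Real.sqrt δ, Real.sqrt_pos.2 hδ, fun E hE => ?_⟩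
  have h1 : μ.real E.1 ≤ δ := by
    rw [← Qo_sq]
    exact ((Real.lt_sqrt (norm_nonneg _)).1 hE).le
  have h2 := h E.1 E.2 (by
    rw [← ofReal_measureReal (measure_ne_top μ E.1)]; exact ENNReal.ofReal_le_ofReal h1)
  rw [Lp.norm_def, eLpNorm_congr_ae (QQ_ae E f)]
  exact (ENNReal.toReal_le_of_le_ofReal (half_pos hε).le h2).trans_lt (half_lt_self hε)

lemma QQ_cl : IsClosed (Set.range fun E : BB Ω => QQ μ E (oo μ)) := by
  refine isClosed_of_closure_subset fun u hu => ?_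
  obtain ⟨x, hx, hl⟩ := mem_closure_iff_seq_limit.1 hu
  choose E hE using hx
  obtain ⟨ns, -, h⟩ := (tendstoInMeasure_of_tendsto_Lp hl).exists_seq_tendsto_ae
  have hm : MeasurableSet {ω | u ω = 1} :=
    (Lp.stronglyMeasurable u).measurable (measurableSet_singleton 1)
  refine ⟨⟨_, hm⟩, Lp.ext ?_⟩
  have h2 : ∀ᵐ ω ∂μ, ∀ n, x n ω = (E n).1.indicator (fun _ => (1 : ℂ)) ω :=
    ae_all_iff.2 fun n => by rw [← hE n]; exact Qo_ae (E n)
  filter_upwards [h, h2, Qo_ae (μ := μ) ⟨_, hm⟩] with ω a b c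
  rw [c]
  have : u ω ∈ ({0, 1} : Set ℂ) := by
    refine (Set.toFinite _).isClosed.mem_of_tendsto a (Eventually.of_forall fun i => ?_)
    rw [b]
    by_cases h : ω ∈ (E (ns i)).1 <;> simp [h]
  rcases this with h | h
  · simp [Set.indicator, h]
  · rw [Set.mem_singleton_iff] at h; simp [Set.indicator, h]

lemma lower {y : Lp ℂ 2 μ} {r δ : ℝ} (hr : 0 ≤ r) (hδ : 0 < δ) (h : μ.real {ω | ‖y ω‖ < r} ≤ (δ / 2) ^ 2)
    {E : BB Ω} (hE : δ ≤ ‖QQ μ E (oo μ)‖) : r * (δ / 2) ≤ ‖QQ μ E y‖ := by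
  have hm : MeasurableSet {ω | ‖y ω‖ < r} :=
    measurableSet_lt (Lp.stronglyMeasurable y).measurable.norm measurable_const
  set A : BB Ω := ⟨_, hm⟩ with hA
  have h1 : ‖QQ μ A (oo μ)‖ ≤ δ / 2 := by
    apply le_of_sq_le_sq _ (by positivity) |> fun h => h
    rw [Qo_sq]; exact h
  have h2 : δ / 2 ≤ ‖QQ μ (E ⊓ Aᶜ) (oo μ)‖ := by
    rw [← QQ_inf, QQ_com, map_sub]
    have := norm_sub_norm_le (QQ μ E (oo μ)) (QQ μ E (QQ μ A (oo μ)))
    have := QQ_le E (QQ μ A (oo μ))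
    linarith
  have h3 : ‖(r : ℂ) • QQ μ (E ⊓ Aᶜ) (oo μ)‖ ≤ ‖QQ μ E y‖ := by
    apply Lp.norm_le_norm_of_ae_le
    filter_upwards [Lp.coeFn_smul (r : ℂ) (QQ μ (E ⊓ Aᶜ) (oo μ)), Qo_ae (μ := μ) (E ⊓ Aᶜ), QQ_ae E y] with ω a b c
    rw [a, Pi.smul_apply, b, c]
    show ‖(r : ℂ) • (E.1 ∩ {ω | ‖y ω‖ < r}ᶜ).indicator (fun _ => (1 : ℂ)) ω‖ ≤ _
    by_cases h : ω ∈ E.1 ∩ {ω | ‖y ω‖ < r}ᶜ
    · rw [Set.indicator_of_mem h, Set.indicator_of_mem h.1]
      simpa [abs_of_nonneg hr] using h.2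
    · rw [Set.indicator_of_notMem h]; simp
  rw [norm_smul, Complex.norm_real, Real.norm_of_nonneg hr] at h3
  exact (mul_le_mul_of_nonneg_left h2 hr).trans h3

lemma nobd (g : ℕ → Lp ℂ 2 μ) (X : ℕ → Ω → ℝ) (hX : ∀ k, Measurable (X k))
    (hg : ∀ k, g k =ᵐ[μ] fun ω => (X k ω : ℂ))
    (sb : ∀ ε : ℝ, 0 < ε → ∃ η : ℝ, 0 < η ∧ ∀ k, μ.real {ω | |X k ω| < η} ≤ ε)
    (x : Lp ℂ 2 μ) (hx : x ≠ 0) : ∃ η : ℝ, 0 < η ∧ ∀ k, ∃ E : BB Ω, η ≤ ‖⟪g k, QQ μ E x⟫_ℂ‖ := by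
  have hxm := (Lp.stronglyMeasurable x).measurable
  obtain ⟨θ, hθ⟩ : ∃ θ : ℤ × ℤ, μ {ω | 1 ≤ (((θ.1 : ℂ) + (θ.2 : ℂ) * Complex.I) * x ω).re} ≠ 0 := by
    by_contra hc
    push Not at hc
    apply hx
    apply Lp.ext
    have := ae_all_iff.2 fun θ : ℤ × ℤ => measure_eq_zero_iff_ae_notMem.1 (hc θ)
    filter_upwards [this, Lp.coeFn_zero ℂ 2 μ] with ω a b
    rw [b, Pi.zero_apply]
    simp only [Set.mem_setOf_eq, not_le, Complex.mul_re, Complex.add_re, Complex.add_im, Complex.mul_im,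
      Complex.intCast_re, Complex.intCast_im, Complex.I_re, Complex.I_im] at a
    have k : ∀ t : ℝ, (∀ n : ℤ, (n : ℝ) * t < 1) → t = 0 := fun t ht => by
      by_contra h0
      rcases lt_or_gt_of_ne h0 with h | h
      · obtain ⟨n, hn⟩ := exists_int_lt (1 / t)
        have := ht n
        rw [lt_div_iff_of_neg h] at hn; linarith
      · obtain ⟨n, hn⟩ := exists_int_gt (1 / t)
        have := ht n
        rw [div_lt_iff₀ h] at hn; linarith
    apply Complex.ext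
    · exact k _ fun n => by simpa using a (n, 0)
    · exact k _ fun n => by simpa using a (0, -n)
  set c : ℂ := (θ.1 : ℂ) + (θ.2 : ℂ) * Complex.I with hc
  set A : Set Ω := {ω | 1 ≤ (c * x ω).re} with hA
  have hAm : MeasurableSet A :=
    measurableSet_le measurable_const (Complex.measurable_re.comp (hxm.const_mul c))
  have hp : 0 < μ.real A := ENNReal.toReal_pos hθ (measure_ne_top _ _)
  obtain ⟨η, hη, sb⟩ := sb (μ.real A / 2) (by positivity)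
  refine ⟨η * (μ.real A / 4) / (‖c‖ + 1), by positivity, fun k => ?_⟩
  have key : ∀ s : ℝ, |s| = 1 → ∀ E : BB Ω, E.1 ⊆ A → (∀ ω ∈ E.1, η ≤ s * X k ω) →
      η * μ.real E.1 ≤ (‖c‖ + 1) * ‖⟪g k, QQ μ E x⟫_ℂ‖ := by
    intro s hs E h1 h2
    have i1 : Integrable (fun ω => ⟪g k ω, QQ μ E x ω⟫_ℂ) μ := L2.integrable_inner _ _
    have t1 : η * μ.real E.1 ≤ ((s : ℂ) * c * ⟪g k, QQ μ E x⟫_ℂ).re := by
      rw [L2.inner_def, ← integral_const_mul, ← RCLike.re_to_complex, ← integral_re (i1.const_mul _),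
        mul_comm η, ← smul_eq_mul, ← integral_indicator_const η E.2]
      refine integral_mono_ae ((integrable_const η).indicator E.2) (i1.const_mul _).re ?_
      filter_upwards [hg k, QQ_ae E x] with ω a b
      rw [a, b]
      by_cases h : ω ∈ E.1
      · rw [Set.indicator_of_mem h, Set.indicator_of_mem h]
        have e : (s : ℂ) * c * ⟪((X k ω : ℝ) : ℂ), x ω⟫_ℂ = ((s * X k ω : ℝ) : ℂ) * (c * x ω) := by
          simp only [RCLike.inner_apply, Complex.conj_ofReal]; push_cast; ring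
        rw [e, RCLike.re_to_complex, Complex.re_ofReal_mul]
        have := h1 h
        have := h2 ω h
        simp only [hA, Set.mem_setOf_eq] at *
        nlinarith
      · rw [Set.indicator_of_notMem h, Set.indicator_of_notMem h]; simp
    refine t1.trans ((Complex.re_le_norm _).trans ?_)
    rw [norm_mul, norm_mul, Complex.norm_real, Real.norm_eq_abs, hs, one_mul]
    nlinarith [norm_nonneg (⟪g k, QQ μ E x⟫_ℂ)]
  have m1 : MeasurableSet (A ∩ {ω | η ≤ 1 * X k ω}) :=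
    hAm.inter (measurableSet_le measurable_const ((hX k).const_mul 1))
  have m2 : MeasurableSet (A ∩ {ω | η ≤ -1 * X k ω}) :=
    hAm.inter (measurableSet_le measurable_const ((hX k).const_mul (-1)))
  have cov : μ.real A ≤ μ.real (A ∩ {ω | η ≤ 1 * X k ω}) + μ.real (A ∩ {ω | η ≤ -1 * X k ω}) +
      μ.real {ω | |X k ω| < η} := by
    refine le_trans ?_ ((measureReal_union_le _ _).trans (add_le_add_left (measureReal_union_le _ _) _))
    refine measureReal_mono fun ω h => ?_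
    by_cases h1 : |X k ω| < η
    · exact Or.inr h1
    · rcases le_abs.1 (not_lt.1 h1) with h2 | h2
      · exact Or.inl (Or.inl ⟨h, by simpa using h2⟩)
      · exact Or.inl (Or.inr ⟨h, by simpa using h2⟩)
  have := sb k
  by_cases h : μ.real A / 4 ≤ μ.real (A ∩ {ω | η ≤ 1 * X k ω})
  · refine ⟨⟨_, m1⟩, ?_⟩
    rw [div_le_iff₀' (by positivity)]
    exact (mul_le_mul_of_nonneg_left h hη.le).trans (key 1 (by simp) ⟨_, m1⟩ Set.inter_subset_left fun _ h => h.2)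
  · refine ⟨⟨_, m2⟩, ?_⟩
    rw [div_le_iff₀' (by positivity)]
    exact (mul_le_mul_of_nonneg_left (by linarith) hη.le).trans
      (key (-1) (by simp) ⟨_, m2⟩ Set.inter_subset_left fun _ h => h.2)

end Pool.Agent.H26.Bo
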