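import Pool.Agent.H26.Bo3

set_option autoImplicit false
set_option maxHeartbeats 400000

namespace Pool.Agent.H26.Bo

open Filter Topology MeasureTheory ProbabilityTheory
open scoped InnerProductSpace ENNReal NNReal

noncomputable def mu : Measure (ℕ → ℝ) := Measure.infinitePi fun _ => gaussianReal 0 1

instance : IsProbabilityMeasure mu := by unfold mu; infer_instance

lemma ind (a : ℕ → ℝ) : iIndepFun (fun i (ω : ℕ → ℝ) => a i * ω i) mu :=
  iIndepFun_infinitePi (X := fun i t => a i * t) fun _ => by fun_prop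

lemma law1 (k : ℕ) : mu.map (fun ω => ω k) = gaussianReal 0 1 := Measure.infinitePi_map_eval _ k

lemma law (a : ℕ → ℝ) (s : Finset ℕ) : ∃ v : ℝ≥0, (v : ℝ) = ∑ k ∈ s, a k ^ 2 ∧
    mu.map (∑ k ∈ s, fun ω : ℕ → ℝ => a k * ω k) = gaussianReal 0 v := by
  induction s using Finset.induction_on with
  | empty =>
    refine ⟨0, by simp, ?_⟩
    rw [Finset.sum_empty, gaussianReal_zero_var]
    exact (Measure.map_const mu (0 : ℝ)).trans (by simp)
  | insert i s hi ih =>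
    obtain ⟨v, h1, h2⟩ := ih
    have h3 : HasLaw (fun ω : ℕ → ℝ => ω i) (gaussianReal 0 1) mu := ⟨(measurable_pi_apply i).aemeasurable, law1 i⟩
    have h4 := (gaussianReal_const_mul h3 (a i)).map_eq
    have h5 := gaussianReal_add_gaussianReal_of_indepFun
      ((ind a).indepFun_finsetSum_of_notMem (fun _ => by fun_prop) hi) h2 h4
    refine ⟨_, ?_, by rw [Finset.sum_insert hi, add_comm, h5, mul_zero, add_zero]⟩
    rw [Finset.sum_insert hi, ← h1]; simp [add_comm]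

lemma gsb {v : ℝ≥0} (hv : v ≠ 0) {η : ℝ} (hη : 0 ≤ η) :
    gaussianReal 0 v {t | |t| < η * Real.sqrt v} ≤ ENNReal.ofReal η := by
  have hv' : (0 : ℝ) < v := by positivity
  have hs := Real.sqrt_pos.2 hv'
  rw [gaussianReal_apply _ hv]
  have : {t : ℝ | |t| < η * Real.sqrt v} = Set.Ioo (-(η * Real.sqrt v)) (η * Real.sqrt v) := by
    ext t; simp [abs_lt]
  rw [this]
  refine (lintegral_mono (g := fun _ => ENNReal.ofReal (2 * Real.sqrt v)⁻¹) fun t => ?_).trans ?_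
  · apply ENNReal.ofReal_le_ofReal
    unfold gaussianPDFReal
    have h1 : Real.exp (-(t - 0) ^ 2 / (2 * v)) ≤ 1 := by
      rw [Real.exp_le_one_iff]
      apply div_nonpos_of_nonpos_of_nonneg <;> nlinarith [sq_nonneg (t - 0)]
    have h2 : 2 * Real.sqrt v ≤ Real.sqrt (2 * Real.pi * v) := by
      apply Real.le_sqrt_of_sq_le
      rw [mul_pow, Real.sq_sqrt hv'.le]
      nlinarith [Real.pi_gt_three]
    exact (mul_le_of_le_one_right (by positivity) h1).trans (inv_anti₀ (by positivity) h2)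
  · rw [setLIntegral_const, Real.volume_Ioo, ← ENNReal.ofReal_mul (by positivity)]
    apply le_of_eq
    congr 1
    field_simp
    ring

lemma sb0 (a : ℕ → ℝ) (s : Finset ℕ) {η : ℝ} (hη : 0 ≤ η) :
    mu.real {ω | |∑ k ∈ s, a k * ω k| < η * Real.sqrt (∑ k ∈ s, a k ^ 2)} ≤ η := by
  obtain ⟨v, h1, h2⟩ := law a s
  rw [← h1]
  by_cases hv : v = 0
  · have : {ω : ℕ → ℝ | |∑ k ∈ s, a k * ω k| < η * Real.sqrt v} = ∅ := by
      ext ω; simp [hv]
    rw [this]; simpa using hη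
  · have h3 := gsb hv hη
    have hm : Measurable (∑ k ∈ s, fun ω : ℕ → ℝ => a k * ω k) := by
      rw [show (∑ k ∈ s, fun ω : ℕ → ℝ => a k * ω k) = fun ω => ∑ k ∈ s, a k * ω k by ext ω; simp]
      fun_prop
    rw [← h2, Measure.map_apply hm
      (measurableSet_lt measurable_abs measurable_const)] at h3
    refine ENNReal.toReal_le_of_le_ofReal hη (le_trans (le_of_eq ?_) h3)
    congr 1
    ext ω; simp

lemma mem2 (k : ℕ) : MemLp (fun ω : ℕ → ℝ => ω k) 2 mu := by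
  have := memLp_id_gaussianReal' (μ := 0) (v := 1) 2 (by norm_num)
  rw [← law1 k] at this
  exact (memLp_map_measure_iff this.1 (measurable_pi_apply k).aemeasurable).1 this

noncomputable def gg (k : ℕ) : Lp ℂ 2 mu := (mem2 k).ofReal.toLp _

lemma gg_ae (k : ℕ) : gg k =ᵐ[mu] fun ω => ((ω k : ℝ) : ℂ) := MemLp.coeFn_toLp _

lemma int1 (k : ℕ) (f : ℝ → ℝ) (hf : Measurable f) :
    ∫ ω, f (ω k) ∂mu = ∫ t, f t ∂gaussianReal 0 1 := by
  rw [← law1 k, integral_map (measurable_pi_apply k).aemeasurable hf.aestronglyMeasurable]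

lemma gg_on : Orthonormal ℂ gg := by
  rw [orthonormal_iff_ite]
  intro j k
  have : ⟪gg j, gg k⟫_ℂ = ((∫ ω, ω j * ω k ∂mu : ℝ) : ℂ) := by
    rw [L2.inner_def, ← integral_complex_ofReal]
    apply integral_congr_ae
    filter_upwards [gg_ae j, gg_ae k] with ω a b
    rw [a, b]; simp [mul_comm]
  rw [this]
  split_ifs with h
  · subst h
    have h1 := variance_fun_id_gaussianReal (μ := 0) (v := 1)
    rw [variance_eq_integral measurable_id'.aemeasurable] at h1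
    simp only [integral_id_gaussianReal, sub_zero] at h1
    rw [int1 j (fun t => t * t) (by fun_prop)]
    simp only [← sq, h1]; simp
  · have h1 := ((ind fun _ => 1).indepFun h).integral_fun_mul_eq_mul_integral
      (Measurable.aestronglyMeasurable (by fun_prop)) (Measurable.aestronglyMeasurable (by fun_prop))
    simp only [one_mul] at h1
    rw [h1, int1 j (fun t => t) (by fun_prop), integral_id_gaussianReal]; simp

noncomputable def JJ : K →ₗᵢ[ℂ] Lp ℂ 2 mu := gg_on.orthogonalFamily.linearIsometry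

lemma JJ_single (k : ℕ) (c : ℂ) : JJ (lp.single 2 k c) = c • gg k := by
  unfold JJ
  rw [OrthogonalFamily.linearIsometry_apply_single]; rfl

lemma fin_ae (c : ℕ → ℂ) (s : Finset ℕ) :
    (∑ k ∈ s, c k • gg k : Lp ℂ 2 mu) =ᵐ[mu] fun ω => ∑ k ∈ s, c k * ((ω k : ℝ) : ℂ) := by
  induction s using Finset.induction_on with
  | empty =>
    filter_upwards [Lp.coeFn_zero ℂ 2 mu] with ω h
    simpa using h
  | insert i s hi ih =>
    rw [Finset.sum_insert hi]
    filter_upwards [ih, Lp.coeFn_add (c i • gg i) (∑ k ∈ s, c k • gg k), Lp.coeFn_smul (c i) (gg i),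
      gg_ae i] with ω a b d e
    rw [b, Pi.add_apply, a, d, Pi.smul_apply, e, Finset.sum_insert hi, smul_eq_mul]

lemma fin_sb (c : ℕ → ℂ) (s : Finset ℕ) {η : ℝ} (hη : 0 ≤ η) :
    mu.real {ω | ‖(∑ k ∈ s, c k • gg k : Lp ℂ 2 mu) ω‖ < η / 2 * ‖∑ k ∈ s, c k • gg k‖} ≤ η := by
  have hn : ‖∑ k ∈ s, c k • gg k‖ ^ 2 = ∑ k ∈ s, (c k).re ^ 2 + ∑ k ∈ s, (c k).im ^ 2 := by
    have := gg_on.orthogonalFamily.norm_sum c s
    simp only [LinearIsometry.toSpanSingleton_apply] at this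
    rw [this, ← Finset.sum_add_distrib]
    refine Finset.sum_congr rfl fun k _ => ?_
    rw [Complex.sq_norm, Complex.normSq_apply]; ring
  have key : ∀ a : ℕ → ℝ, ‖∑ k ∈ s, c k • gg k‖ ^ 2 ≤ 2 * ∑ k ∈ s, a k ^ 2 →
      (∀ ω : ℕ → ℝ, |∑ k ∈ s, a k * ω k| ≤ ‖∑ k ∈ s, c k * ((ω k : ℝ) : ℂ)‖) →
      mu.real {ω | ‖(∑ k ∈ s, c k • gg k : Lp ℂ 2 mu) ω‖ < η / 2 * ‖∑ k ∈ s, c k • gg k‖} ≤ η := by
    intro a h1 h2
    refine le_trans ?_ (sb0 a s hη)
    refine ENNReal.toReal_mono (measure_ne_top _ _) (measure_mono_ae ?_)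
    have h0 : 0 ≤ ∑ k ∈ s, a k ^ 2 := Finset.sum_nonneg fun _ _ => sq_nonneg _
    have h3 : ‖∑ k ∈ s, c k • gg k‖ / 2 ≤ Real.sqrt (∑ k ∈ s, a k ^ 2) := by
      apply Real.le_sqrt_of_sq_le; nlinarith
    filter_upwards [fin_ae c s] with ω b hb
    have hb' : ‖(∑ k ∈ s, c k • gg k : Lp ℂ 2 mu) ω‖ < η / 2 * ‖∑ k ∈ s, c k • gg k‖ := hb
    rw [b] at hb'
    show |∑ k ∈ s, a k * ω k| < _
    have := mul_le_mul_of_nonneg_left h3 hη
    have := h2 ω
    linarith
  rcases le_total (∑ k ∈ s, (c k).re ^ 2) (∑ k ∈ s, (c k).im ^ 2) with h | h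
  · refine key (fun k => (c k).im) (by rw [hn]; linarith) fun ω => ?_
    refine le_trans (le_of_eq ?_) (Complex.abs_im_le_norm _)
    rw [Complex.im_sum]; simp
  · refine key (fun k => (c k).re) (by rw [hn]; linarith) fun ω => ?_
    refine le_trans (le_of_eq ?_) (Complex.abs_re_le_norm _)
    rw [Complex.re_sum]; simp

lemma low {δ : ℝ} (hδ : 0 < δ) {E : BB (ℕ → ℝ)} (hE : δ ≤ ‖QQ mu E (oo mu)‖) (c : K) :
    δ ^ 3 / 16 * ‖c‖ ≤ ‖QQ mu E (JJ c)‖ := by
  have h := lp.hasSum_single (E := fun _ : ℕ => ℂ) (p := 2) (by norm_num) c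
  have hc : IsClosed {c : K | δ ^ 3 / 16 * ‖c‖ ≤ ‖QQ mu E (JJ c)‖} :=
    isClosed_le (by fun_prop) (((QQ mu E).continuous.comp JJ.continuous).norm)
  refine hc.mem_of_tendsto h (Eventually.of_forall fun s => ?_)
  show δ ^ 3 / 16 * _ ≤ _
  rw [← JJ.norm_map, map_sum]
  simp only [JJ_single]
  have := lower (by positivity) hδ (fin_sb c s (η := (δ / 2) ^ 2) (by positivity)) hE
  refine le_trans (le_of_eq ?_) this
  ring

noncomputable def RR : Lp ℂ 2 mu →L[ℂ] K := ContinuousLinearMap.adjoint JJ.toContinuousLinearMap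

lemma RR_inner (f : Lp ℂ 2 mu) (c : K) : ⟪RR f, c⟫_ℂ = ⟪f, JJ c⟫_ℂ :=
  ContinuousLinearMap.adjoint_inner_left _ _ _

lemma RR_apply (f : Lp ℂ 2 mu) (k : ℕ) : ‖RR f k‖ = ‖⟪gg k, f⟫_ℂ‖ := by
  have := RR_inner f (lp.single 2 k 1)
  rw [JJ_single, one_smul, lp.inner_single_right] at this
  rw [norm_inner_symm, ← this]; simp

theorem sp : Sp (QQ mu) (oo mu) RR where
  inf := QQ_inf
  com := QQ_com
  bot := QQ_bot
  sa := QQ_sa
  le := QQ_le
  ne := oo_ne
  ac := QQ_ac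
  cl := QQ_cl
  sur := by
    intro δ hδ
    set κ := δ ^ 3 / 16 with hκ
    have hκ0 : 0 < κ := by positivity
    refine ⟨(κ ^ 2)⁻¹, by positivity, fun E hE a => ?_⟩
    set A : K →L[ℂ] K := RR ∘L QQ mu E ∘L JJ.toContinuousLinearMap with hA
    have h1 : ∀ c, ‖c‖ ^ 2 * κ ^ 2 ≤ ‖⟪A c, c⟫_ℂ‖ := fun c => by
      have e : ⟪A c, c⟫_ℂ = ⟪QQ mu E (JJ c), QQ mu E (JJ c)⟫_ℂ := by
        rw [← QQ_sa, QQ_inf, inf_idem]; exact RR_inner _ _
      rw [e, inner_self_eq_norm_sq_to_K, norm_pow, RCLike.norm_ofReal, abs_norm, ← mul_pow, mul_comm]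
      exact pow_le_pow_left₀ (by positivity) (low hδ hE c) 2
    have h2 := ContinuousLinearMap.isUnit_of_forall_le_norm_inner_map A (c := ⟨κ ^ 2, by positivity⟩)
      (by rw [← NNReal.coe_pos]; show 0 < κ ^ 2; positivity) h1
    obtain ⟨c, hc⟩ := (ContinuousLinearMap.isUnit_iff_bijective.1 h2).2 a
    refine ⟨QQ mu E (JJ c), by rw [QQ_inf, inf_idem], hc, ?_⟩
    refine (QQ_le _ _).trans ?_
    rw [JJ.norm_map, ← div_eq_inv_mul, le_div_iff₀ (by positivity)]
    have h3 := (h1 c).trans (norm_inner_le_norm _ _)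
    rw [hc] at h3
    rcases (norm_nonneg c).eq_or_lt with h | h
    · rw [← h]; simp
    · nlinarith
  nb := by
    intro x hx
    simp only [RR_apply]
    refine nobd gg (fun k ω => ω k) (fun _ => by fun_prop) gg_ae (fun ε hε => ⟨ε, hε, fun k => ?_⟩) x hx
    simpa using sb0 (fun _ => 1) {k} hε.le

end Pool.Agent.H26.Bo
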