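import Mathlib

set_option autoImplicit false

namespace Pool.Agent.H26.ChainCut

def upm : List Nat := [32706, 25152, 32760, 27248, 25152, 10240, 25088, 32512, 31744, 24576, 10240, 8192, 16384, 0, 0]

def lo (i j : Nat) : Bool := i == j || (upm.getD i 0).testBit j

def cutm : List Nat := [4, 132, 1, 129, 2177, 640, 2176, 72, 520, 2304, 16904, 16896, 8704, 16384, 8192]

def cut (x i : Nat) : Bool := (cutm.getD x 0).testBit i

def P : Type := Fin 15

instance : Fintype P := inferInstanceAs (Fintype (Fin 15))
instance : DecidableEq P := inferInstanceAs (DecidableEq (Fin 15))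

theorem lo_refl : ∀ a : Fin 15, lo a.val a.val = true := by decide +kernel
theorem lo_trans : ∀ a b c : Fin 15, lo a.val b.val = true → lo b.val c.val = true → lo a.val c.val = true := by
  decide +kernel
theorem lo_anti : ∀ a b : Fin 15, lo a.val b.val = true → lo b.val a.val = true → a = b := by decide +kernel

instance : PartialOrder P where
  le a b := lo (Fin.val (n := 15) a) (Fin.val (n := 15) b) = true
  le_refl := lo_refl
  le_trans := lo_trans
  le_antisymm := lo_anti

theorem cut_chain : ∀ x a b : Fin 15, cut x.val a.val = true → cut x.val b.val = true →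
    lo a.val b.val = true ∨ lo b.val a.val = true := by decide +kernel
theorem cut_inc : ∀ x a : Fin 15, cut x.val a.val = true →
    ¬ lo a.val x.val = true ∧ ¬ lo x.val a.val = true := by decide +kernel

def good (l : List Bool) : Bool :=
  !((List.range 15).all fun i => !(l.getD i false) || (List.range 15).all fun j =>
      !(l.getD j false) || lo i j || lo j i) ||
  !((List.range 15).all fun j => l.getD j false || (List.range 15).any fun i =>
      l.getD i false && !(lo i j) && !(lo j i)) ||
  (List.range 15).all fun x => (List.range 15).any fun i => l.getD i false && (i == x || cut x i)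

theorem all_good : ∀ b0 b1 b2 b3 b4 b5 b6 b7 b8 b9 b10 b11 b12 b13 b14 : Bool,
    good [b0, b1, b2, b3, b4, b5, b6, b7, b8, b9, b10, b11, b12, b13, b14] = true := by
  decide +kernel

theorem key (f : Fin 15 → Bool)
    (hc : ∀ i j, f i = true → f j = true → lo i.val j.val = true ∨ lo j.val i.val = true)
    (hm : ∀ j, (∀ i, f i = true → lo i.val j.val = true ∨ lo j.val i.val = true) → f j = true)
    (x : Fin 15) : ∃ i, f i = true ∧ (i = x ∨ cut x.val i.val = true) := by
  have h := all_good (f 0) (f 1) (f 2) (f 3) (f 4) (f 5) (f 6) (f 7) (f 8) (f 9) (f 10) (f 11)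
    (f 12) (f 13) (f 14)
  set l := [f 0, f 1, f 2, f 3, f 4, f 5, f 6, f 7, f 8, f 9, f 10, f 11, f 12, f 13, f 14] with hl
  have hg : ∀ i : Fin 15, l.getD i.val false = f i := by
    intro i; fin_cases i <;> rfl
  have hg' : ∀ (i : Nat) (hi : i < 15), l.getD i false = f ⟨i, hi⟩ := fun i hi => hg ⟨i, hi⟩
  clear_value l
  unfold good at h
  simp only [Bool.or_eq_true, Bool.not_eq_true', List.all_eq_true, List.any_eq_true,
    List.mem_range, Bool.and_eq_true, beq_iff_eq] at h
  rcases h with (h | h) | h
  · exfalso
    rw [← Bool.not_eq_true, List.all_eq_true] at h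
    apply h
    intro i hi
    rw [List.mem_range] at hi
    rw [hg' i hi]
    cases hfi : f ⟨i, hi⟩
    · simp
    · simp only [Bool.not_true, Bool.false_or, List.all_eq_true, List.mem_range]
      intro j hj
      rw [hg' j hj]
      cases hfj : f ⟨j, hj⟩
      · simp
      · simpa using hc _ _ hfi hfj
  · exfalso
    rw [← Bool.not_eq_true, List.all_eq_true] at h
    apply h
    intro j hj
    rw [List.mem_range] at hj
    rw [hg' j hj]
    cases hfj : f ⟨j, hj⟩
    · simp only [Bool.false_or, List.any_eq_true, List.mem_range]
      by_contra hne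
      have : f ⟨j, hj⟩ = true := by
        apply hm
        intro i hi
        by_contra hno
        apply hne
        refine ⟨i.val, i.isLt, ?_⟩
        rw [hg i, hi]
        simp only [not_or, Bool.not_eq_true] at hno
        simp [hno.1, hno.2]
      rw [hfj] at this; cases this
    · simp
  · obtain ⟨i, hi, h1, h2⟩ := h x.val x.isLt
    refine ⟨⟨i, hi⟩, by rw [← hg' i hi]; exact h1, ?_⟩
    rcases h2 with h2 | h2
    · left; exact Fin.ext h2
    · right; exact h2

end Pool.Agent.H26.ChainCut
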