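import Mathlib

namespace Pool.Agent.H26.Comp

open Set

/-- `X` is joined bijectively onto `Y` by pairwise vertex-disjoint directed paths of `Γ`
(length zero allowed): the path starting at `x` is `p x 0, ..., p x (len x)`. -/
def Linked (Γ : ℕ → ℕ → Prop) (X Y : Set ℕ) : Prop :=
  ∃ (len : ℕ → ℕ) (p : ℕ → ℕ → ℕ), (∀ x ∈ X, p x 0 = x) ∧
    (∀ x ∈ X, ∀ i < len x, Γ (p x i) (p x (i + 1))) ∧
    (∀ x ∈ X, ∀ y ∈ X, ∀ i ≤ len x, ∀ k ≤ len y, p x i = p y k → x = y ∧ i = k) ∧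
    Y = (fun x => p x (len x)) '' X

/-- `N` is induced from `M` by a finite digraph `Γ` with vertex set `T`. -/
def Induced (M N : Matroid ℕ) : Prop :=
  ∃ (T : Set ℕ) (Γ : ℕ → ℕ → Prop), T.Finite ∧ (∀ u v, Γ u v → u ∈ T ∧ v ∈ T) ∧
    M.E ⊆ T ∧ N.E ⊆ T ∧ ∀ X, N.Indep X ↔ X ⊆ N.E ∧ ∃ Y, M.Indep Y ∧ Linked Γ X Y

/-- A complete class of finite matroids (ground sets are finite subsets of `ℕ`). -/
structure Complete (C : Set (Matroid ℕ)) : Prop where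
  finite : ∀ M ∈ C, M.E.Finite
  iso : ∀ M ∈ C, ∀ (f : ℕ → ℕ) (hf : InjOn f M.E), M.map f hf ∈ C
  restr : ∀ M ∈ C, ∀ A ⊆ M.E, M.restrict A ∈ C
  contr : ∀ M ∈ C, ∀ A ⊆ M.E, M.contract A ∈ C
  dual : ∀ M ∈ C, M.dual ∈ C
  sum : ∀ M ∈ C, ∀ N ∈ C, ∀ h : Disjoint M.E N.E, M.disjointSum N h ∈ C
  trunc : ∀ M ∈ C, ∀ (k : ℕ) (N : Matroid ℕ), N.E = M.E →
    (∀ I, N.Indep I ↔ M.Indep I ∧ I.ncard ≤ k) → N ∈ C
  ind : ∀ M ∈ C, ∀ N, Induced M N → N ∈ C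

/-- Gammoids: matroids induced from a free matroid. -/
def Gammoid : Set (Matroid ℕ) := {N | ∃ S, Induced (Matroid.freeOn S) N}

/-- Strongly base-orderable finite matroids. -/
def SBO : Set (Matroid ℕ) :=
  {M | M.E.Finite ∧ ∀ B₁ B₂, M.IsBase B₁ → M.IsBase B₂ → ∃ φ : ℕ → ℕ, BijOn φ B₁ B₂ ∧
    ∀ X ⊆ B₁, M.IsBase ((B₁ \ X) ∪ φ '' X)}

/-- Base-orderable finite matroids. -/
def BO : Set (Matroid ℕ) :=
  {M | M.E.Finite ∧ ∀ B₁ B₂, M.IsBase B₁ → M.IsBase B₂ → ∃ φ : ℕ → ℕ, BijOn φ B₁ B₂ ∧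
    ∀ X ⊆ B₁, (X.ncard = 1 ∨ X.ncard + 1 = B₁.ncard) → M.IsBase ((B₁ \ X) ∪ φ '' X)}

/-- The smallest complete class containing `F`. -/
def gen (F : Set (Matroid ℕ)) : Set (Matroid ℕ) := {M | ∀ C, Complete C → F ⊆ C → M ∈ C}

end Pool.Agent.H26.Comp
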