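import Mathlib

/-! A chain complete poset without the Menger property: a complete dense chain with pendant
minimal elements over one dense set and pendant maximal elements over its complement. -/

namespace Pool.Agent.H26.CutsetCE

open Set

def E (x : EReal) : Prop := x = ⊥ ∨ ∃ q : ℚ, x = ((q : ℝ) : EReal)

lemma dense_pair {a b : EReal} (h : a < b) :
    ∃ α β : EReal, a < α ∧ α < β ∧ β < b ∧ E α ∧ ¬ E β := by
  obtain ⟨x, hax, hxb⟩ := EReal.lt_iff_exists_real_btwn.1 h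
  obtain ⟨y, hxy, hyb⟩ := EReal.lt_iff_exists_real_btwn.1 hxb
  have hxy' : x < y := EReal.coe_lt_coe_iff.1 hxy
  obtain ⟨q, hq1, hq2⟩ := exists_rat_btwn hxy'
  obtain ⟨r, hr, hr1, hr2⟩ := exists_irrational_btwn hq2
  refine ⟨((q : ℝ) : EReal), (r : EReal), hax.trans (EReal.coe_lt_coe_iff.2 hq1),
    EReal.coe_lt_coe_iff.2 hr1, (EReal.coe_lt_coe_iff.2 hr2).trans hyb, Or.inr ⟨q, rfl⟩, ?_⟩
  rintro (h | ⟨q', h⟩)
  · exact EReal.coe_ne_bot r h
  · exact hr ⟨q', (EReal.coe_eq_coe_iff.1 h).symm⟩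

lemma not_E_top : ¬ E ⊤ := by
  rintro (h | ⟨q, h⟩)
  · exact top_ne_bot h
  · exact EReal.coe_ne_top _ h.symm

@[ext] structure P where
  pos : EReal
  lvl : ℕ
  h2 : lvl ≤ 2
  h0 : lvl = 0 → E pos
  h1 : lvl = 2 → ¬ E pos

instance : PartialOrder P where
  le u v := u = v ∨ (u.pos ≤ v.pos ∧ u.lvl ≤ 1 ∧ 1 ≤ v.lvl)
  le_refl u := Or.inl rfl
  le_trans u v w h h' := by
    rcases h with rfl | h
    · exact h'
    rcases h' with rfl | h'
    · exact Or.inr h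
    exact Or.inr ⟨h.1.trans h'.1, h.2.1, h'.2.2⟩
  le_antisymm u v h h' := by
    rcases h with rfl | h
    · rfl
    rcases h' with rfl | h'
    · rfl
    exact P.ext (le_antisymm h.1 h'.1) (by omega)

lemma le_def {u v : P} : u ≤ v ↔ u = v ∨ (u.pos ≤ v.pos ∧ u.lvl ≤ 1 ∧ 1 ≤ v.lvl) := Iff.rfl

lemma pos_le {u v : P} (h : u ≤ v) : u.pos ≤ v.pos := by
  rcases h with rfl | h
  · exact le_rfl
  · exact h.1

def z (x : EReal) : P := ⟨x, 1, by omega, by omega, by omega⟩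
def s (x : EReal) (h : E x) : P := ⟨x, 0, by omega, fun _ => h, by omega⟩
def t (x : EReal) (h : ¬ E x) : P := ⟨x, 2, by omega, by omega, fun _ => h⟩

lemma complete (c : Set P) (hc : IsChain (· ≤ ·) c) (hne : c.Nonempty) :
    (∃ a : P, IsLUB c a) ∧ (∃ a : P, IsGLB c a) := by
  constructor
  · by_cases h2 : ∃ u ∈ c, u.lvl = 2
    · obtain ⟨u, hu, hu2⟩ := h2
      refine ⟨u, IsGreatest.isLUB ⟨hu, fun v hv => ?_⟩⟩
      rcases hc.total hv hu with h | h | h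
      · exact h
      · exact h.ge
      · omega
    by_cases h1 : ∃ u ∈ c, u.lvl = 1
    · obtain ⟨u, hu, hu1⟩ := h1
      refine ⟨z (sSup (P.pos '' c)), fun v hv => Or.inr ⟨le_sSup ⟨v, hv, rfl⟩, ?_, le_rfl⟩, ?_⟩
      · have := v.h2
        have : v.lvl ≠ 2 := fun h => h2 ⟨v, hv, h⟩
        omega
      · intro w hw
        refine Or.inr ⟨sSup_le ?_, le_rfl, ?_⟩
        · rintro _ ⟨v, hv, rfl⟩
          exact pos_le (hw hv)
        · rcases hw hu with rfl | h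
          · omega
          · exact h.2.2
    · obtain ⟨u, hu⟩ := hne
      refine ⟨u, IsGreatest.isLUB ⟨hu, fun v hv => ?_⟩⟩
      rcases hc.total hv hu with h | h | h
      · exact h
      · exact h.ge
      · have := v.h2
        have : v.lvl ≠ 2 := fun h => h2 ⟨v, hv, h⟩
        have : v.lvl ≠ 1 := fun h => h1 ⟨v, hv, h⟩
        omega
  · by_cases h2 : ∃ u ∈ c, u.lvl = 0
    · obtain ⟨u, hu, hu2⟩ := h2
      refine ⟨u, IsLeast.isGLB ⟨hu, fun v hv => ?_⟩⟩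
      rcases hc.total hu hv with h | h | h
      · exact h
      · exact h.ge
      · omega
    by_cases h1 : ∃ u ∈ c, u.lvl = 1
    · obtain ⟨u, hu, hu1⟩ := h1
      refine ⟨z (sInf (P.pos '' c)), fun v hv => Or.inr ⟨sInf_le ⟨v, hv, rfl⟩, le_rfl, ?_⟩, ?_⟩
      · have : v.lvl ≠ 0 := fun h => h2 ⟨v, hv, h⟩
        omega
      · intro w hw
        refine Or.inr ⟨le_sInf ?_, ?_, le_rfl⟩
        · rintro _ ⟨v, hv, rfl⟩
          exact pos_le (hw hv)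
        · rcases hw hu with rfl | h
          · omega
          · exact h.2.1
    · obtain ⟨u, hu⟩ := hne
      refine ⟨u, IsLeast.isGLB ⟨hu, fun v hv => ?_⟩⟩
      rcases hc.total hu hv with h | h | h
      · exact h
      · exact h.ge
      · have := v.h2
        have : v.lvl ≠ 0 := fun h => h2 ⟨v, hv, h⟩
        have : v.lvl ≠ 1 := fun h => h1 ⟨v, hv, h⟩
        omega

lemma chain_Icc {u v : P} (hu : u.lvl = 0) (hv : v.lvl = 2) : IsChain (· ≤ ·) (Icc u v) := by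
  rintro a ⟨ha1, ha2⟩ b ⟨hb1, hb2⟩ -
  rcases ha1 with rfl | ha1
  · exact Or.inl hb1
  rcases hb1 with rfl | hb1
  · exact Or.inr (Or.inr ha1)
  rcases ha2 with rfl | ha2
  · exact Or.inr hb2
  rcases hb2 with rfl | hb2
  · exact Or.inl (Or.inr ha2)
  rcases le_total a.pos b.pos with h | h
  · exact Or.inl (Or.inr ⟨h, ha2.2.1, hb1.2.2⟩)
  · exact Or.inr (Or.inr ⟨h, hb2.2.1, ha1.2.2⟩)

lemma subset_Icc {c : Set P} (hc : IsChain (· ≤ ·) c) {u v : P} (hu : u.lvl = 0) (hv : v.lvl = 2)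
    (huc : u ∈ c) (hvc : v ∈ c) : c ⊆ Icc u v := by
  intro a ha
  constructor
  · rcases hc.total huc ha with h | h | h
    · exact h
    · exact h.ge
    · omega
  · rcases hc.total ha hvc with h | h | h
    · exact h
    · exact h.ge
    · omega

lemma max_Icc {u v : P} (hu : u.lvl = 0) (hv : v.lvl = 2) (h : u ≤ v) :
    IsMaxChain (· ≤ ·) (Icc u v) := by
  refine ⟨chain_Icc hu hv, fun c hc hsub => Subset.antisymm hsub ?_⟩
  exact subset_Icc hc hu hv (hsub (left_mem_Icc.2 h)) (hsub (right_mem_Icc.2 h))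

lemma max_form {c : Set P} (hc : IsMaxChain (· ≤ ·) c) :
    ∃ u v : P, u.lvl = 0 ∧ v.lvl = 2 ∧ u.pos < v.pos ∧ c = Icc u v := by
  have h0 : ∃ u ∈ c, u.lvl = 0 := by
    by_contra h
    have h' : ∀ u ∈ c, 1 ≤ u.lvl := fun u hu => by
      have : u.lvl ≠ 0 := fun h0 => h ⟨u, hu, h0⟩
      omega
    have : IsChain (· ≤ ·) (insert (s ⊥ (Or.inl rfl)) c) :=
      hc.1.insert (fun b hb _ => Or.inl (Or.inr ⟨bot_le, by simp [s], h' b hb⟩))
    have e := hc.2 this (subset_insert _ _)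
    exact h ⟨s ⊥ (Or.inl rfl), by rw [e]; exact mem_insert _ _, rfl⟩
  have h2 : ∃ u ∈ c, u.lvl = 2 := by
    by_contra h
    have h' : ∀ u ∈ c, u.lvl ≤ 1 := fun u hu => by
      have : u.lvl ≠ 2 := fun h0 => h ⟨u, hu, h0⟩
      have := u.h2
      omega
    have : IsChain (· ≤ ·) (insert (t ⊤ not_E_top) c) :=
      hc.1.insert (fun b hb _ => Or.inr (Or.inr ⟨le_top, h' b hb, by simp [t]⟩))
    have e := hc.2 this (subset_insert _ _)
    exact h ⟨t ⊤ not_E_top, by rw [e]; exact mem_insert _ _, rfl⟩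
  obtain ⟨u, hu, hu0⟩ := h0
  obtain ⟨v, hv, hv2⟩ := h2
  have hs := subset_Icc hc.1 hu0 hv2 hu hv
  refine ⟨u, v, hu0, hv2, lt_of_le_of_ne (pos_le (hs hu).2) ?_, hc.2 (chain_Icc hu0 hv2) hs⟩
  intro h
  exact v.h1 hv2 (h ▸ u.h0 hu0)

lemma z_mem {u v : P} (hu : u.lvl = 0) (hv : v.lvl = 2) {x : EReal} (h1 : u.pos ≤ x)
    (h2 : x ≤ v.pos) : z x ∈ Icc u v :=
  ⟨Or.inr ⟨h1, by omega, le_rfl⟩, Or.inr ⟨h2, le_rfl, by omega⟩⟩

theorem no_menger (F : Set (Set P)) (A : Set P)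
    (h1 : ∀ C ∈ F, IsMaxChain (· ≤ ·) C) (h2 : F.PairwiseDisjoint id)
    (h3 : ∀ C : Set P, IsMaxChain (· ≤ ·) C → (A ∩ C).Nonempty)
    (h4 : ∀ a ∈ A, ∃! C : Set P, C ∈ F ∧ a ∈ C)
    (h5 : ∀ C ∈ F, ∃! a : P, a ∈ A ∧ a ∈ C) : False := by
  obtain ⟨a, ha, -⟩ := h3 _ (max_Icc (u := s ⊥ (Or.inl rfl)) (v := t ⊤ not_E_top) rfl rfl
    (Or.inr ⟨bot_le, by simp [s], by simp [t]⟩))
  obtain ⟨C, ⟨hC, haC⟩, -⟩ := h4 a ha
  obtain ⟨u, v, hu, hv, huv, rfl⟩ := max_form (h1 C hC)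
  have key : ∃ α β : EReal, u.pos < α ∧ α < β ∧ β < v.pos ∧ E α ∧ ¬ E β ∧
      (a.pos < α ∨ β < a.pos) := by
    obtain ⟨m, hm1, hm2⟩ := exists_between huv
    rcases le_total a.pos m with h | h
    · obtain ⟨α, β, k1, k2, k3, k4, k5⟩ := dense_pair hm2
      exact ⟨α, β, hm1.trans k1, k2, k3, k4, k5, Or.inl (h.trans_lt k1)⟩
    · obtain ⟨α, β, k1, k2, k3, k4, k5⟩ := dense_pair hm1
      exact ⟨α, β, k1, k2, k3.trans hm2, k4, k5, Or.inr (k3.trans_le h)⟩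
  obtain ⟨α, β, k1, k2, k3, k4, k5, k6⟩ := key
  obtain ⟨b, hb, hb1, hb2⟩ := h3 _ (max_Icc (u := s α k4) (v := t β k5) rfl rfl
    (Or.inr ⟨k2.le, by simp [s], by simp [t]⟩))
  have hb1' : α ≤ b.pos := pos_le hb1
  have hb2' : b.pos ≤ β := pos_le hb2
  obtain ⟨C', ⟨hC', hbC⟩, -⟩ := h4 b hb
  obtain ⟨u', v', hu', hv', -, rfl⟩ := max_form (h1 C' hC')
  have e : Icc u v = Icc u' v' := by
    by_contra hne
    exact Set.disjoint_left.1 (h2 hC hC' hne)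
      (z_mem hu hv (k1.le.trans hb1') (hb2'.trans k3.le))
      (z_mem hu' hv' (pos_le hbC.1) (pos_le hbC.2))
  obtain ⟨a0, -, huniq⟩ := h5 _ hC
  have : a = b := (huniq a ⟨ha, haC⟩).trans (huniq b ⟨hb, e ▸ hbC⟩).symm
  subst this
  rcases k6 with h | h
  · exact absurd hb1' (not_le.2 h)
  · exact absurd hb2' (not_le.2 h)

end Pool.Agent.H26.CutsetCE
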