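import Pool.Agent.H26.EvenTab

set_option autoImplicit false

namespace H26.Even

theorem star_even {R : Type} [Mul R] [Add R] (u v : ℕ → R) (p : ℕ) : star u v (2*p) = u p * v p := by
  unfold star
  have h1 : 2 * p % 2 = 0 := by omega
  have h2 : 2 * p / 2 = p := by omega
  rw [if_pos h1, h2]

theorem star_odd {R : Type} [Mul R] [Add R] (u v : ℕ → R) (p : ℕ) :
    star u v (2*p+1) = u (p+1) * v p + u p * v (p+1) := by
  unfold star
  have h1 : ¬ (2 * p + 1) % 2 = 0 := by omega
  have h2 : (2 * p + 1) / 2 = p := by omega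
  rw [if_neg h1, h2]

theorem g_even {R : Type} [Mul R] [Add R] (u v : ℕ → R) (p : ℕ) :
    g u v (2*p) = u (2*p) + v (2*p) + u p * v p := by
  unfold g; rw [star_even]

theorem g_odd {R : Type} [Mul R] [Add R] (u v : ℕ → R) (p : ℕ) :
    g u v (2*p+1) = u (2*p+1) + v (2*p+1) + (u (p+1) * v p + u p * v (p+1)) := by
  unfold g; rw [star_odd]

theorem g_comm {R : Type} [CommSemiring R] (u v : ℕ → R) : g u v = g v u := by
  funext k
  unfold g star
  split_ifs <;> ring

theorem f_zero (k : ℕ) : f 0 k = 0 := by rw [f]; simp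

theorem f_one (k : ℕ) : f 1 k = if k = 1 then 1 else 0 := by rw [f]; simp

theorem f_rec (n : ℕ) : f n = g (f ((n+1)/2)) (f (n/2)) := by
  by_cases h : n < 2
  · have : n = 0 ∨ n = 1 := by omega
    rcases this with rfl | rfl
    · funext k; simp [g, star, f_zero]
    · funext k; simp [g, star, f_zero]
  · rw [f]; simp [h]

noncomputable def φ (n k : ℕ) : ℝ := (f n k : ℝ)

theorem cast_g (u v : ℕ → ℕ) (k : ℕ) :
    ((g u v k : ℕ) : ℝ) = g (fun t => (u t : ℝ)) (fun t => (v t : ℝ)) k := by
  unfold g star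
  split_ifs <;> push_cast <;> ring

theorem φ_rec (n : ℕ) : φ n = g (φ ((n+1)/2)) (φ (n/2)) := by
  funext k
  unfold φ
  rw [f_rec n, cast_g]

theorem φ_two (m : ℕ) : φ (2*m) = g (φ m) (φ m) := by
  rw [φ_rec (2*m)]
  have h1 : (2*m+1)/2 = m := by omega
  have h2 : (2*m)/2 = m := by omega
  rw [h1, h2]

theorem φ_two1 (m : ℕ) : φ (2*m+1) = g (φ (m+1)) (φ m) := by
  rw [φ_rec (2*m+1)]
  have h1 : (2*m+1+1)/2 = m+1 := by omega
  have h2 : (2*m+1)/2 = m := by omega
  rw [h1, h2]

theorem φ_two2 (m : ℕ) : φ (2*m+1+1) = g (φ (m+1)) (φ (m+1)) := by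
  rw [← φ_two]; rfl

theorem φ_nn (n k : ℕ) : 0 ≤ φ n k := Nat.cast_nonneg _

theorem φ_zero (k : ℕ) : φ 0 k = 0 := by simp [φ, f_zero]

theorem φ_one (k : ℕ) : φ 1 k = if k = 1 then 1 else 0 := by
  unfold φ; rw [f_one]; split_ifs <;> simp

theorem φ_k0 (n : ℕ) : φ n 0 = 0 := by
  induction n using Nat.strong_induction_on with
  | _ n ih =>
    by_cases h : n < 2
    · have : n = 0 ∨ n = 1 := by omega
      rcases this with rfl | rfl
      · exact φ_zero 0
      · simp [φ_one]
    · rw [φ_rec n]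
      have := g_even (φ ((n+1)/2)) (φ (n/2)) 0
      simp only [mul_zero] at this
      rw [this, ih _ (by omega), ih _ (by omega)]; ring

theorem g_mono {u v u' v' : ℕ → ℝ} (hu : ∀ t, 0 ≤ u t) (hv : ∀ t, 0 ≤ v t)
    (h1 : ∀ t, u t ≤ u' t) (h2 : ∀ t, v t ≤ v' t) (k : ℕ) : g u v k ≤ g u' v' k := by
  have hu' : ∀ t, 0 ≤ u' t := fun t => (hu t).trans (h1 t)
  unfold g star
  split_ifs
  · have := mul_le_mul (h1 (k/2)) (h2 (k/2)) (hv _) (hu' _)
    linarith [h1 k, h2 k]
  · have := mul_le_mul (h1 (k/2+1)) (h2 (k/2)) (hv _) (hu' _)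
    have := mul_le_mul (h1 (k/2)) (h2 (k/2+1)) (hv _) (hu' _)
    linarith [h1 k, h2 k]

theorem φ_succ (n : ℕ) : ∀ k, φ n k ≤ φ (n+1) k := by
  induction n using Nat.strong_induction_on with
  | _ n ih =>
    intro k
    rcases Nat.even_or_odd' n with ⟨m, rfl | rfl⟩
    · rcases Nat.eq_zero_or_pos m with rfl | hm
      · simp [φ_zero, φ_nn]
      · rw [φ_two, φ_two1]
        exact g_mono (φ_nn _) (φ_nn _) (ih m (by omega)) (fun _ => le_rfl) k
    · rw [φ_two2, φ_two1]
      exact g_mono (φ_nn _) (φ_nn _) (fun _ => le_rfl) (ih m (by omega)) k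

theorem φ_mono {a b : ℕ} (h : a ≤ b) (k : ℕ) : φ a k ≤ φ b k := by
  induction h with
  | refl => exact le_rfl
  | step _ ih => exact ih.trans (φ_succ _ _)

theorem φ_big (n : ℕ) : ∀ k, n < k → φ n k = 0 := by
  induction n using Nat.strong_induction_on with
  | _ n ih =>
    intro k hk
    by_cases h : n < 2
    · have : n = 0 ∨ n = 1 := by omega
      rcases this with rfl | rfl
      · exact φ_zero k
      · rw [φ_one, if_neg (by omega)]
    · rw [φ_rec n]
      have h1 := ih ((n+1)/2) (by omega)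
      have h2 := ih (n/2) (by omega)
      rcases Nat.even_or_odd' k with ⟨p, rfl | rfl⟩
      · rw [g_even, h1 (2*p) (by omega), h2 (2*p) (by omega), h2 p (by omega)]; ring
      · rw [g_odd, h1 (2*p+1) (by omega), h2 (2*p+1) (by omega), h2 (p+1) (by omega)]
        by_cases hp : n / 2 < p
        · rw [h2 p hp]; ring
        · rw [h1 (p+1) (by omega)]; ring

theorem φ_1 (n : ℕ) : φ n 1 = n := by
  induction n using Nat.strong_induction_on with
  | _ n ih =>
    rcases Nat.even_or_odd' n with ⟨m, rfl | rfl⟩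
    · rcases Nat.eq_zero_or_pos m with rfl | hm
      · simp [φ_zero]
      · have := g_odd (φ m) (φ m) 0
        rw [φ_two]
        simp only [mul_zero, zero_add] at this
        rw [this, ih m (by omega), φ_k0]; push_cast; ring
    · rcases Nat.eq_zero_or_pos m with rfl | hm
      · simp [φ_one]
      · have := g_odd (φ (m+1)) (φ m) 0
        rw [φ_two1]
        simp only [mul_zero, zero_add] at this
        rw [this, ih m (by omega), ih (m+1) (by omega), φ_k0, φ_k0]; push_cast; ring

theorem φ_2 (n : ℕ) : φ n 2 = n * (n - 1) / 2 := by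
  induction n using Nat.strong_induction_on with
  | _ n ih =>
    rcases Nat.even_or_odd' n with ⟨m, rfl | rfl⟩
    · rcases Nat.eq_zero_or_pos m with rfl | hm
      · simp [φ_zero]
      · have := g_even (φ m) (φ m) 1
        rw [φ_two]
        simp only [mul_one] at this
        rw [this, ih m (by omega), φ_1]; push_cast; ring
    · rcases Nat.eq_zero_or_pos m with rfl | hm
      · simp [φ_one]
      · have := g_even (φ (m+1)) (φ m) 1
        rw [φ_two1]
        simp only [mul_one] at this
        rw [this, ih m (by omega), ih (m+1) (by omega), φ_1, φ_1]; push_cast; ring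

theorem φ_3 (n : ℕ) : φ n 3 = n * (n - 1) * (n - 2) / 6 := by
  induction n using Nat.strong_induction_on with
  | _ n ih =>
    rcases Nat.even_or_odd' n with ⟨m, rfl | rfl⟩
    · rcases Nat.eq_zero_or_pos m with rfl | hm
      · simp [φ_zero]
      · have := g_odd (φ m) (φ m) 1
        rw [φ_two]
        simp only [mul_one] at this
        rw [this, ih m (by omega), φ_1, φ_2]; push_cast; ring
    · rcases Nat.eq_zero_or_pos m with rfl | hm
      · simp [φ_one]
      · have := g_odd (φ (m+1)) (φ m) 1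
        rw [φ_two1]
        simp only [mul_one] at this
        rw [this, ih m (by omega), ih (m+1) (by omega), φ_1, φ_1, φ_2, φ_2]; push_cast; ring

theorem φ_pos (n : ℕ) : ∀ k, 1 ≤ k → k ≤ n → 0 < φ n k := by
  induction n using Nat.strong_induction_on with
  | _ n ih =>
    intro k hk hkn
    by_cases h : k = 1
    · subst h; rw [φ_1]; exact_mod_cast hkn
    · rw [φ_rec n]
      have h1 := ih ((n+1)/2) (by omega)
      have h2 := ih (n/2) (by omega)
      rcases Nat.even_or_odd' k with ⟨p, rfl | rfl⟩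
      · rw [g_even]
        have := mul_pos (h1 p (by omega) (by omega)) (h2 p (by omega) (by omega))
        linarith [φ_nn ((n+1)/2) (2*p), φ_nn (n/2) (2*p)]
      · rw [g_odd]
        have := mul_pos (h1 (p+1) (by omega) (by omega)) (h2 p (by omega) (by omega))
        have := mul_nonneg (φ_nn ((n+1)/2) p) (φ_nn (n/2) (p+1))
        linarith [φ_nn ((n+1)/2) (2*p+1), φ_nn (n/2) (2*p+1)]

/-- adjacent total positivity -/
def TP (n : ℕ) : Prop := ∀ j, φ (n+1) j * φ n (j+1) ≤ φ (n+1) (j+1) * φ n j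

theorem tp_adj {N : ℕ} (H : ∀ s < N, TP s) (s j : ℕ) :
    ∀ s', s ≤ s' → s' ≤ N → φ s' j * φ s (j+1) ≤ φ s' (j+1) * φ s j := by
  intro s' h
  induction h with
  | refl => intro _; rw [mul_comm]
  | @step s' hs ih =>
    intro hN
    have hs : s ≤ s' := hs
    have ih := ih (by omega)
    have h2 := H s' (by omega) j
    by_cases hz : s < j + 1
    · rw [φ_big s _ hz, mul_zero]; exact mul_nonneg (φ_nn _ _) (φ_nn _ _)
    by_cases hj : j = 0
    · subst hj; rw [φ_k0, φ_k0]; simp
    have p1 := φ_pos s' j (by omega) (by omega)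
    have p2 := φ_pos s' (j+1) (by omega) (by omega)
    have := mul_le_mul ih h2 (mul_nonneg (φ_nn _ _) (φ_nn _ _)) (mul_nonneg (φ_nn _ _) (φ_nn _ _))
    have p3 := mul_pos p1 p2
    refine le_of_mul_le_mul_left ?_ p3
    show φ s' j * φ s' (j+1) * (φ (s'+1) j * φ s (j+1)) ≤ φ s' j * φ s' (j+1) * (φ (s'+1) (j+1) * φ s j)
    nlinarith

theorem tp_gen {N : ℕ} (H : ∀ s < N, TP s) {s s' : ℕ} (h : s ≤ s') (h' : s' ≤ N) (j : ℕ) :
    ∀ i, j ≤ i → φ s i * φ s' j ≤ φ s' i * φ s j := by
  intro i hi
  induction hi with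
  | refl => rw [mul_comm]
  | @step i hi ih =>
    have hi : j ≤ i := hi
    have h2 := tp_adj H s i s' h h'
    by_cases hz : s < i + 1
    · rw [φ_big s _ hz, zero_mul]; exact mul_nonneg (φ_nn _ _) (φ_nn _ _)
    by_cases hj : j = 0
    · subst hj; rw [φ_k0, φ_k0]; simp
    have p1 := φ_pos s i (by omega) (by omega)
    have p2 := φ_pos s' i (by omega) (by omega)
    have := mul_le_mul ih h2 (mul_nonneg (φ_nn _ _) (φ_nn _ _)) (mul_nonneg (φ_nn _ _) (φ_nn _ _))
    have p3 := mul_pos p1 p2
    refine le_of_mul_le_mul_left ?_ p3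
    show φ s i * φ s' i * (φ s (i+1) * φ s' j) ≤ φ s i * φ s' i * (φ s' (i+1) * φ s j)
    nlinarith

theorem swap (w x y z : ℕ → ℝ) (w0 : w 0 = 0) (x0 : x 0 = 0) (y0 : y 0 = 0) (z0 : z 0 = 0) (hwy : ∀ t, y t ≤ w t) (hxz : ∀ t, z t ≤ x t)
    (t1 : ∀ j i, j ≤ i → y i * w j ≤ w i * y j) (t2 : ∀ j i, j ≤ i → z i * x j ≤ x i * z j)
    (k : ℕ) : g (g w x) (g y z) k ≤ g (g w z) (g x y) k := by
  have a : ∀ j i l, j ≤ i → 0 ≤ (w i * y j - y i * w j) * (x l - z l) :=
    fun j i l h => mul_nonneg (sub_nonneg.2 (t1 j i h)) (sub_nonneg.2 (hxz l))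
  have b : ∀ j i l, j ≤ i → 0 ≤ (x i * z j - z i * x j) * (w l - y l) :=
    fun j i l h => mul_nonneg (sub_nonneg.2 (t2 j i h)) (sub_nonneg.2 (hwy l))
  rcases Nat.even_or_odd' k with ⟨q, rfl | rfl⟩
  · rcases Nat.even_or_odd' q with ⟨p, rfl | rfl⟩
    · simp only [g_even]
      have := a p (2*p) p (by omega)
      have := b p (2*p) p (by omega)
      nlinarith
    · simp only [g_even, g_odd]
      have := a p (2*p+1) (p+1) (by omega)
      have := a (p+1) (2*p+1) p (by omega)
      have := b p (2*p+1) (p+1) (by omega)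
      have := b (p+1) (2*p+1) p (by omega)
      have := mul_nonneg (sub_nonneg.2 (t1 p (p+1) (by omega))) (sub_nonneg.2 (t2 p (p+1) (by omega)))
      nlinarith
  · rcases Nat.even_or_odd' q with ⟨p, rfl | rfl⟩
    · simp only [g_even, g_odd]
      have := a p (2*p+1) p (by omega)
      have := b p (2*p+1) p (by omega)
      rcases Nat.eq_zero_or_pos p with rfl | hp
      · simp only [mul_zero, zero_add, w0, x0, y0, z0]
        linarith
      · have := a p (2*p) (p+1) (by omega)
        have := a (p+1) (2*p) p (by omega)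
        have := b p (2*p) (p+1) (by omega)
        have := b (p+1) (2*p) p (by omega)
        nlinarith
    · have e : 2 * p + 1 + 1 = 2 * (p + 1) := by ring
      simp only [g_odd, e, g_even]
      have := a (p+1) (2*p+1) (p+1) (by omega)
      have := b (p+1) (2*p+1) (p+1) (by omega)
      have := a p (2*(p+1)) (p+1) (by omega)
      have := a (p+1) (2*(p+1)) p (by omega)
      have := b p (2*(p+1)) (p+1) (by omega)
      have := b (p+1) (2*(p+1)) p (by omega)
      nlinarith

theorem G_all {N : ℕ} (H : ∀ s < N, TP s) (n : ℕ) :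
    n ≤ N → ∀ a b, a + b = n → ∀ k, g (φ a) (φ b) k ≤ φ n k := by
  induction n using Nat.strong_induction_on with
  | _ n ih =>
    intro hn
    have main : ∀ a b, a + b = n → b ≤ a → ∀ k, g (φ a) (φ b) k ≤ φ n k := by
      intro a b hab hba k
      by_cases h : a ≤ b + 1
      · have h1 : (n+1)/2 = a := by omega
        have h2 : n/2 = b := by omega
        rw [φ_rec n, h1, h2]
      · rw [φ_rec a, φ_rec b]
        refine (swap _ _ _ _ (φ_k0 _) (φ_k0 _) (φ_k0 _) (φ_k0 _)
          (φ_mono (by omega)) (φ_mono (by omega))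
          (tp_gen H (by omega) (by omega)) (tp_gen H (by omega) (by omega)) k).trans ?_
        have gn : ∀ c d t, 0 ≤ g (φ c) (φ d) t := by
          intro c d t
          unfold g star
          have := φ_nn c t
          have := φ_nn d t
          have := mul_nonneg (φ_nn c (t/2)) (φ_nn d (t/2))
          have := mul_nonneg (φ_nn c (t/2+1)) (φ_nn d (t/2))
          have := mul_nonneg (φ_nn c (t/2)) (φ_nn d (t/2+1))
          split_ifs <;> linarith
        refine (g_mono (gn _ _) (gn _ _)
          (ih ((a+1)/2 + b/2) (by omega) (by omega) _ _ rfl)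
          (ih (a/2 + (b+1)/2) (by omega) (by omega) _ _ rfl) k).trans ?_
        rw [φ_rec n]
        by_cases hc : (a+1)/2 + b/2 = (n+1)/2
        · have : a/2 + (b+1)/2 = n/2 := by omega
          rw [hc, this]
        · have h1 : (a+1)/2 + b/2 = n/2 := by omega
          have h2 : a/2 + (b+1)/2 = (n+1)/2 := by omega
          rw [h1, h2, g_comm]
    intro a b hab k
    rcases le_total b a with h | h
    · exact main a b hab h k
    · rw [g_comm]; exact main b a (by omega) h k

def U (n : ℕ) : Prop := ∀ k : ℕ, ((n:ℝ) + 1 - k) * φ (n+1) k ≤ (n + 1) * φ n k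

theorem U_step {a b : ℕ} (ha : U a) (hb : U b) (k : ℕ) :
    ((a:ℝ) + b + 2 - k) * g (φ (a+1)) (φ (b+1)) k ≤
      (a + 1) * g (φ a) (φ (b+1)) k + (b + 1) * g (φ (a+1)) (φ b) k := by
  have h1 := ha k
  have h2 := hb k
  rcases Nat.even_or_odd' k with ⟨p, rfl | rfl⟩
  · simp only [g_even]
    have h3 := mul_le_mul_of_nonneg_right (ha p) (φ_nn (b+1) p)
    have h4 := mul_le_mul_of_nonneg_right (hb p) (φ_nn (a+1) p)
    push_cast at *
    nlinarith
  · simp only [g_odd]
    have h3 := mul_le_mul_of_nonneg_right (ha p) (φ_nn (b+1) (p+1))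
    have h4 := mul_le_mul_of_nonneg_right (hb p) (φ_nn (a+1) (p+1))
    have h5 := mul_le_mul_of_nonneg_right (ha (p+1)) (φ_nn (b+1) p)
    have h6 := mul_le_mul_of_nonneg_right (hb (p+1)) (φ_nn (a+1) p)
    push_cast at *
    nlinarith

theorem U_all {N : ℕ} (H : ∀ s < N, TP s) (n : ℕ) : n ≤ N → U n := by
  induction n using Nat.strong_induction_on with
  | _ n ih =>
    intro hn k
    rcases Nat.even_or_odd' n with ⟨m, rfl | rfl⟩
    · rcases m with _ | m
      · simp only [mul_zero, zero_add, φ_zero, φ_one]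
        split_ifs with h
        · subst h; simp
        · simp
      · have := U_step (ih (m+1) (by omega) (by omega)) (ih m (by omega) (by omega)) k
        have g1 := G_all H (2*(m+1)) hn (m+1) (m+1) (by omega) k
        have g2 := G_all H (2*(m+1)) hn (m+1+1) m (by omega) k
        rw [φ_two1]
        have c1 : (0:ℝ) ≤ m := Nat.cast_nonneg _
        push_cast at *
        nlinarith
    · have := U_step (ih m (by omega) (by omega)) (ih m (by omega) (by omega)) k
      have g1 := G_all H (2*m+1) hn (m+1) m (by omega) k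
      have g2 := G_all H (2*m+1) hn m (m+1) (by omega) k
      rw [φ_two2]
      have c1 : (0:ℝ) ≤ m := Nat.cast_nonneg _
      push_cast at *
      nlinarith

theorem φ_tb {n k : ℕ} (hn : n < 81) (hk : k < 83) : φ n k = (tb n k : ℝ) := by
  unfold φ; rw [f_eq_tb n hn k hk]

theorem B_all (n : ℕ) : 30 ≤ n → ∀ k, (15/8:ℝ)^k * φ (n/2+1) k ≤ φ n k := by
  induction n using Nat.strong_induction_on with
  | _ n ih =>
    intro hn k
    by_cases h : n < 60
    · by_cases hk : k < 82
      · have := tb_B n h hn k hk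
        rw [φ_tb (by omega) (by omega), φ_tb (by omega) (by omega), div_pow, div_mul_eq_mul_div,
          div_le_iff₀ (by positivity), mul_comm _ ((8:ℝ)^k)]
        exact_mod_cast this
      · rw [φ_big _ _ (by omega), mul_zero]; exact φ_nn _ _
    · by_cases hk : k = 1
      · subst hk
        rw [φ_1, φ_1]
        have : 15 * (n/2+1) ≤ 8 * n := by omega
        have : (15:ℝ) * ((n/2+1 : ℕ) : ℝ) ≤ 8 * n := by exact_mod_cast this
        linarith
      · have hb := ih (n/2) (by omega) (by omega)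
        have s1 : φ (n/2+1) k ≤ g (φ (n/2/2+1)) (φ (n/2/2+1)) k := by
          rw [φ_rec (n/2+1)]
          exact g_mono (φ_nn _) (φ_nn _) (φ_mono (by omega)) (φ_mono (by omega)) k
        have s2 : g (φ (n/2)) (φ (n/2)) k ≤ φ n k := by
          rw [φ_rec n]
          exact g_mono (φ_nn _) (φ_nn _) (φ_mono (by omega)) (φ_mono (by omega)) k
        refine le_trans (mul_le_mul_of_nonneg_left s1 (by positivity)) (le_trans ?_ s2)
        have h0 := hb k
        have nn : ∀ t, 0 ≤ (15/8:ℝ)^t * φ (n/2/2+1) t := fun t => mul_nonneg (by positivity) (φ_nn _ _)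
        rcases Nat.even_or_odd' k with ⟨p, rfl | rfl⟩
        · simp only [g_even]
          have := mul_le_mul (hb p) (hb p) (nn p) (φ_nn _ _)
          have e : (15/8:ℝ)^(2*p) = (15/8)^p * (15/8)^p := by rw [two_mul, pow_add]
          rw [e] at h0 ⊢
          nlinarith
        · simp only [g_odd]
          have := mul_le_mul (hb (p+1)) (hb p) (nn p) (φ_nn _ _)
          have e : (15/8:ℝ)^(2*p+1) = (15/8)^(p+1) * (15/8)^p := by rw [← pow_add]; congr 1; ring
          rw [e] at h0 ⊢
          nlinarith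

end H26.Even
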