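import Pool.Agent.H26.EvenA

set_option autoImplicit false

namespace H26.Even

def HH (n : ℕ) : Prop := ∀ j : ℕ, 4 ≤ j →
  3 * (φ n j * φ n (j+1)) ≤ j * n * (φ (n+1) (j+1) * φ n j - φ (n+1) j * φ n (j+1))

def LL (n : ℕ) : Prop := ∀ k : ℕ, ((n:ℝ) + k) * φ n k ≤ n * φ (n+1) k

theorem base (n : ℕ) (hn : n < 80) : TP n ∧ HH n ∧ LL n := by
  refine ⟨fun j => ?_, fun j hj => ?_, fun k => ?_⟩
  · by_cases h : j < 82
    · rw [φ_tb (by omega) (by omega), φ_tb (by omega) (by omega), φ_tb (by omega) (by omega),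
        φ_tb (by omega) (by omega)]
      exact_mod_cast tb_TP n hn j h
    · rw [φ_big n j (by omega), φ_big n (j+1) (by omega)]; simp
  · by_cases h : j < 82
    · rw [φ_tb (by omega) (by omega), φ_tb (by omega) (by omega), φ_tb (by omega) (by omega),
        φ_tb (by omega) (by omega)]
      have := tb_H n hn j h hj
      have : ((j * n * (tb (n+1) j * tb n (j+1)) + 3 * (tb n j * tb n (j+1)) : ℕ) : ℝ) ≤
        ((j * n * (tb (n+1) (j+1) * tb n j) : ℕ) : ℝ) := by exact_mod_cast this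
      push_cast at this
      linarith
    · rw [φ_big n j (by omega), φ_big n (j+1) (by omega)]; simp
  · by_cases h : k < 82
    · rw [φ_tb (by omega) (by omega), φ_tb (by omega) (by omega)]
      exact_mod_cast tb_L n hn k h
    · rw [φ_big n k (by omega), φ_big (n+1) k (by omega)]; simp

theorem pow_lb1 (k : ℕ) (hk : 4 ≤ k) : (2 * k + 2 : ℝ) ≤ (15/8)^k := by
  induction hk with
  | refl => norm_num
  | @step k hk ih =>
    have : (4:ℝ) ≤ k := by exact_mod_cast hk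
    rw [pow_succ]; push_cast; nlinarith

theorem pow_lb2 (k : ℕ) (hk : 8 ≤ k) : (k * (2 * k + 1) : ℝ) ≤ (15/8)^k := by
  induction hk with
  | refl => norm_num
  | @step k hk ih =>
    have : (8:ℝ) ≤ k := by exact_mod_cast hk
    rw [pow_succ]; push_cast; nlinarith

theorem L_step (n : ℕ) (hn : 80 ≤ n) (hL : LL (n/2)) (hT : TP (n/2)) (hU : U (n/2)) : LL n := by
  intro k
  have cn : (80:ℝ) ≤ n := by exact_mod_cast hn
  by_cases hk : k < 4
  · have : k = 0 ∨ k = 1 ∨ k = 2 ∨ k = 3 := by omega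
    rcases this with rfl | rfl | rfl | rfl
    · simp [φ_k0]
    · rw [φ_1, φ_1]; push_cast; nlinarith
    · rw [φ_2, φ_2]; push_cast; nlinarith
    · rw [φ_3, φ_3]; push_cast
      have : (0:ℝ) ≤ n * (n - 1) := by nlinarith
      nlinarith
  rcases Nat.even_or_odd' n with ⟨m, rfl | rfl⟩
  · have e : 2 * m / 2 = m := by omega
    rw [e] at hL
    rw [φ_two, φ_two1]
    have h0 := hL k
    rcases Nat.even_or_odd' k with ⟨p, rfl | rfl⟩
    · simp only [g_even]
      have := mul_le_mul_of_nonneg_right (hL p) (φ_nn m p)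
      push_cast at *
      nlinarith
    · simp only [g_odd]
      have := mul_le_mul_of_nonneg_right (hL p) (φ_nn m (p+1))
      have := mul_le_mul_of_nonneg_right (hL (p+1)) (φ_nn m p)
      push_cast at *
      nlinarith
  · have e : (2 * m + 1) / 2 = m := by omega
    have hB := B_all (2*m+1) (by omega) k
    rw [e] at hL hT hU hB
    have h0 := hL k
    have hu := hU k
    have hp := pow_lb1 k (by omega)
    have hm : (39:ℝ) ≤ m := by exact_mod_cast (by omega : 39 ≤ m)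
    have hs := φ_succ m k
    have hB' : (2 * k + 2 : ℝ) * φ (m+1) k ≤ φ (2*m+1) k :=
      (mul_le_mul_of_nonneg_right hp (φ_nn _ _)).trans hB
    have hK : 2 * m * (φ (m+1) k - φ m k) ≤ star (φ (m+1)) (φ m) k := by
      rw [φ_two1] at hB'
      unfold g at hB'
      nlinarith
    rw [φ_two2, φ_two1]
    have mpos : (0:ℝ) < m := by linarith
    rcases Nat.even_or_odd' k with ⟨p, rfl | rfl⟩
    · simp only [g_even]
      rw [star_even] at hK
      have h1 := mul_le_mul_of_nonneg_right (hL p) (φ_nn (m+1) p)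
      have cp : (0:ℝ) ≤ p := Nat.cast_nonneg _
      have h2 := mul_le_mul_of_nonneg_left hK cp
      -- m * (2p) * D ≤ p * P ≤ m * (Δp u'p)
      have h3 : 2 * p * (φ (m+1) (2*p) - φ m (2*p)) ≤ (φ (m+1) p - φ m p) * φ (m+1) p := by
        refine le_of_mul_le_mul_left ?_ mpos
        nlinarith
      push_cast at *
      nlinarith
    · simp only [g_odd]
      rw [star_odd] at hK
      have h1 := mul_le_mul_of_nonneg_right (hL p) (φ_nn (m+1) (p+1))
      have h1' := mul_le_mul_of_nonneg_right (hL (p+1)) (φ_nn (m+1) p)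
      have cp : (0:ℝ) ≤ p := Nat.cast_nonneg _
      have h2 := mul_le_mul_of_nonneg_left hK cp
      have h4 := mul_le_mul_of_nonneg_left (hT p) cp
      have h3 : 2 * p * (φ (m+1) (2*p+1) - φ m (2*p+1)) ≤
          2 * ((φ (m+1) p - φ m p) * φ (m+1) (p+1)) := by
        refine le_of_mul_le_mul_left ?_ mpos
        nlinarith
      push_cast at *
      nlinarith

theorem small_j (n j : ℕ) (hL : LL n) (hU : U n) :
    ((n:ℝ) + 1 - j^2) * (φ n j * φ n (j+1)) * (n + 1 - j) ≤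
      n * (n + 1 - j) * (φ (n+1) (j+1) * φ n j - φ (n+1) j * φ n (j+1)) * (n + 1 - j) ∨ (n:ℝ) + 1 < j := by
  by_cases h : (n:ℝ) + 1 < j
  · exact Or.inr h
  left
  have h : 0 ≤ (n:ℝ) + 1 - j := by linarith
  refine mul_le_mul_of_nonneg_right ?_ h
  have h1 := mul_le_mul_of_nonneg_right (hL (j+1)) (mul_nonneg h (φ_nn n j))
  have h2 := mul_le_mul_of_nonneg_right (hU j) (mul_nonneg (Nat.cast_nonneg n : (0:ℝ) ≤ n) (φ_nn n (j+1)))
  push_cast at *
  nlinarith

/-- the quartic part -/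
theorem Q_bound (m p : ℕ) (hp : 4 ≤ p) (hT : TP m) (hH : HH m) (n : ℕ) (v : ℕ → ℝ)
    (hv : (n = 2*m ∧ v = φ m) ∨ (n = 2*m+1 ∧ v = φ (m+1))) (j : ℕ) (hj : j = 2*p ∨ j = 2*p+1) :
    3 * (star (φ m) v (j+1) * star (φ m) v j) ≤ p * n *
      (star (φ (m+1)) v (j+1) * star (φ m) v j - star (φ (m+1)) v j * star (φ m) v (j+1)) := by
  have h1 := hH p hp
  have h2 := hT p
  have cp : (4:ℝ) ≤ p := by exact_mod_cast hp
  have a1 := φ_nn m p
  have a2 := φ_nn m (p+1)
  have a3 := φ_nn (m+1) p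
  have a4 := φ_nn (m+1) (p+1)
  have a5 := φ_succ m p
  have e : 2 * p + 1 + 1 = 2 * (p + 1) := by ring
  rcases hj with rfl | rfl <;> rcases hv with ⟨rfl, rfl⟩ | ⟨rfl, rfl⟩ <;>
    simp only [e, star_even, star_odd] <;> push_cast
  · have := mul_le_mul_of_nonneg_left h1 (mul_nonneg a1 a1)
    nlinarith
  · have := mul_le_mul_of_nonneg_left h1 (mul_nonneg a3 a3)
    have h3 : 3 * φ m p ≤ p * φ (m+1) p := by nlinarith
    have := mul_le_mul_of_nonneg_left h3 (mul_nonneg a3 (sub_nonneg.2 h2))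
    nlinarith
  · have := mul_le_mul_of_nonneg_left h1 (mul_nonneg a2 a2)
    nlinarith
  · have := mul_le_mul_of_nonneg_left h1 (mul_nonneg a4 a4)
    have := mul_nonneg (mul_nonneg a4 a2) (sub_nonneg.2 h2)
    have := mul_nonneg (mul_nonneg (mul_nonneg a4 a4) (sub_nonneg.2 h2)) (by linarith : (0:ℝ) ≤ p)
    nlinarith

theorem star_nn {u v : ℕ → ℝ} (hu : ∀ t, 0 ≤ u t) (hv : ∀ t, 0 ≤ v t) (k : ℕ) : 0 ≤ star u v k := by
  unfold star
  have := mul_nonneg (hu (k/2)) (hv (k/2))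
  have := mul_nonneg (hu (k/2+1)) (hv (k/2))
  have := mul_nonneg (hu (k/2)) (hv (k/2+1))
  split_ifs <;> linarith

theorem star_mono {u u' v : ℕ → ℝ} (hu : ∀ t, u t ≤ u' t) (hv : ∀ t, 0 ≤ v t) (k : ℕ) :
    star u v k ≤ star u' v k := by
  unfold star
  have := mul_le_mul_of_nonneg_right (hu (k/2)) (hv (k/2))
  have := mul_le_mul_of_nonneg_right (hu (k/2+1)) (hv (k/2))
  have := mul_le_mul_of_nonneg_right (hu (k/2)) (hv (k/2+1))
  split_ifs <;> linarith

theorem final_alg (n j p E fi fj Pi Pj Ai Aj Di Dj Si Sj ui uj W Q : ℝ)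
    (hn : 0 ≤ n) (hj : 8 ≤ j) (hp : 4 ≤ p) (hpj : 2 * p ≤ j) (hE : j * (2*j+1) ≤ E)
    (hfi : fi = Ai + Pi) (hfj : fj = Aj + Pj) (hPi : 0 ≤ Pi) (hPj : 0 ≤ Pj) (hAi : 0 ≤ Ai) (hAj : 0 ≤ Aj)
    (hDi : 0 ≤ Di) (hSi : 0 ≤ Si)
    (hW : W = Q + (Di * Aj - Dj * Ai) + (Di * Pj - Sj * Ai) + (Si * Aj - Dj * Pi))
    (hAA : 0 ≤ Di * Aj - Dj * Ai) (hQ : 3 * (Pi * Pj) ≤ p * n * Q)
    (b1 : n * Sj * Ai ≤ 2 * j * fj * Ai) (b2 : n * Dj ≤ 2 * j * uj)
    (c1 : Ai ≤ 2 * ui) (c2 : Aj ≤ 2 * uj) (c3 : E * ui ≤ fi) (c4 : E * uj ≤ fj) :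
    3 * (fj * fi) ≤ j * n * W := by
  have hE0 : 0 < E := by nlinarith
  have fi0 : 0 ≤ fi := by linarith
  have fj0 : 0 ≤ fj := by linarith
  have F0 : 0 ≤ fi * fj := mul_nonneg fi0 fj0
  have e1 : E * Ai ≤ 2 * fi := by nlinarith
  have e2 : E * Aj ≤ 2 * fj := by nlinarith
  -- n W ≥ n Q - bad
  have w1 : n * Q - n * Sj * Ai - n * Dj * Pi ≤ n * W := by
    have := mul_nonneg hn hAA
    have := mul_nonneg hn (mul_nonneg hDi hPj)
    have := mul_nonneg hn (mul_nonneg hSi hAj)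
    rw [hW]; nlinarith
  have w2 : E * (n * Sj * Ai) ≤ 4 * j * (fi * fj) := by
    have := mul_le_mul_of_nonneg_left b1 hE0.le
    have := mul_le_mul_of_nonneg_left e1 (mul_nonneg (by linarith : 0 ≤ 2 * j) fj0)
    nlinarith
  have w3 : E * (n * Dj * Pi) ≤ 2 * j * (fi * fj) := by
    have h1 := mul_le_mul_of_nonneg_left b2 (mul_nonneg hE0.le hPi)
    have h2 := mul_le_mul_of_nonneg_left c4 (mul_nonneg (by linarith : 0 ≤ 2 * j) hPi)
    have h3 : Pi ≤ fi := by linarith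
    have h4 := mul_le_mul_of_nonneg_left h3 (mul_nonneg (by linarith : 0 ≤ 2 * j) fj0)
    nlinarith
  have w4 : (E - 4) * (fi * fj) ≤ E * (Pi * Pj) := by
    have h1 : Pi * Pj = fi * fj - Ai * fj - Aj * fi + Ai * Aj := by rw [hfi, hfj]; ring
    have h2 := mul_le_mul_of_nonneg_right e1 fj0
    have h3 := mul_le_mul_of_nonneg_right e2 fi0
    have h4 := mul_nonneg hE0.le (mul_nonneg hAi hAj)
    rw [h1]; nlinarith
  -- p * E * n W ≥ 3 (E-4) F - 6 j p F
  have w5 : (3 * (E - 4) - 6 * j * p) * (fi * fj) ≤ p * E * (n * W) := by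
    have h1 := mul_le_mul_of_nonneg_left w1 (mul_nonneg (by linarith : 0 ≤ p) hE0.le)
    have h2 := mul_le_mul_of_nonneg_left hQ hE0.le
    have h3 := mul_le_mul_of_nonneg_left w2 (by linarith : 0 ≤ p)
    have h4 := mul_le_mul_of_nonneg_left w3 (by linarith : 0 ≤ p)
    nlinarith
  have w6 : 3 * (p * E) ≤ j * (3 * (E - 4) - 6 * j * p) := by
    have h1 : p * E ≤ (j - p) * E := mul_le_mul_of_nonneg_right (by linarith) hE0.le
    have h2 : p * (j * (2*j+1)) ≤ p * E := mul_le_mul_of_nonneg_left hE (by linarith)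
    have h3 : 4 * j ≤ p * j := mul_le_mul_of_nonneg_right hp (by linarith)
    nlinarith
  have pE : 0 < p * E := mul_pos (by linarith) hE0
  refine le_of_mul_le_mul_left ?_ pE
  have h1 := mul_le_mul_of_nonneg_right w6 F0
  have h2 := mul_le_mul_of_nonneg_left w5 (by linarith : 0 ≤ j)
  nlinarith

theorem H_big (n : ℕ) (hn : 80 ≤ n) (hT : TP (n/2)) (hH : HH (n/2)) (hUm : U (n/2)) (hU : U n)
    (j : ℕ) (hj : 8 ≤ j) :
    3 * (φ n j * φ n (j+1)) ≤ j * n * (φ (n+1) (j+1) * φ n j - φ (n+1) j * φ n (j+1)) := by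
  obtain ⟨m, v, hv, hm⟩ : ∃ (m : ℕ) (v : ℕ → ℝ),
      ((n = 2*m ∧ v = φ m) ∨ (n = 2*m+1 ∧ v = φ (m+1))) ∧ n / 2 = m := by
    rcases Nat.even_or_odd' n with ⟨m, h | h⟩
    · exact ⟨m, _, Or.inl ⟨h, rfl⟩, by omega⟩
    · exact ⟨m, _, Or.inr ⟨h, rfl⟩, by omega⟩
  obtain ⟨p, hp⟩ : ∃ p, j = 2*p ∨ j = 2*p+1 := Nat.even_or_odd' j
  have hBj := B_all n (by omega) j
  have hBi := B_all n (by omega) (j+1)
  rw [hm] at hT hH hUm hBj hBi
  have r0 : φ n = g (φ m) v := by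
    rcases hv with ⟨h, rfl⟩ | ⟨h, rfl⟩
    · rw [h, φ_two]
    · rw [h, φ_two1, g_comm]
  have r1 : φ (n+1) = g (φ (m+1)) v := by
    rcases hv with ⟨h, rfl⟩ | ⟨h, rfl⟩
    · rw [h, φ_two1]
    · rw [h, φ_two2]
  have v0 : ∀ t, 0 ≤ v t := by
    rcases hv with ⟨_, rfl⟩ | ⟨_, rfl⟩ <;> exact φ_nn _
  have v1 : ∀ t, v t ≤ φ (m+1) t := by
    rcases hv with ⟨_, rfl⟩ | ⟨_, rfl⟩
    · exact φ_succ m
    · exact fun _ => le_rfl
  have hQ := Q_bound m p (by omega) hT hH n v hv j hp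
  have hnm : (n:ℝ) ≤ 2 * m + 1 := by exact_mod_cast (by omega : n ≤ 2 * m + 1)
  refine final_alg n j p ((15/8)^j) (φ n (j+1)) (φ n j) (star (φ m) v (j+1)) (star (φ m) v j)
    (φ m (j+1) + v (j+1)) (φ m j + v j) (φ (m+1) (j+1) - φ m (j+1)) (φ (m+1) j - φ m j)
    (star (φ (m+1)) v (j+1) - star (φ m) v (j+1)) (star (φ (m+1)) v j - star (φ m) v j)
    (φ (m+1) (j+1)) (φ (m+1) j) _ _ (Nat.cast_nonneg _) (by exact_mod_cast hj)
    (by exact_mod_cast (by omega : 4 ≤ p)) (by exact_mod_cast (by omega : 2 * p ≤ j))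
    (pow_lb2 j hj) (by rw [r0]; rfl) (by rw [r0]; rfl) (star_nn (φ_nn _) v0 _) (star_nn (φ_nn _) v0 _)
    (add_nonneg (φ_nn _ _) (v0 _)) (add_nonneg (φ_nn _ _) (v0 _)) (sub_nonneg.2 (φ_succ _ _))
    (sub_nonneg.2 (star_mono (φ_succ m) v0 _)) ?_ ?_ hQ ?_ ?_ ?_ ?_ ?_ hBj
  · rw [r0, r1]; unfold g; ring
  · have := hT j
    rcases hv with ⟨_, rfl⟩ | ⟨_, rfl⟩ <;> nlinarith
  · by_cases hz : m + 1 < j + 1
    · have h1 : φ m (j+1) = 0 := φ_big _ _ (by omega)
      have h2 : v (j+1) = 0 := le_antisymm ((v1 _).trans (φ_big _ _ hz).le) (v0 _)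
      rw [h1, h2]; simp
    · refine mul_le_mul_of_nonneg_right ?_ (add_nonneg (φ_nn _ _) (v0 _))
      have h1 : star (φ (m+1)) v j - star (φ m) v j ≤ φ (n+1) j - φ n j := by
        rw [r0, r1]; unfold g; linarith [φ_succ m j]
      have h2 := hU j
      have h3 : (n:ℝ) ≤ 2 * (n + 1 - j) := by
        have : 2 * j ≤ n + 2 := by omega
        have : (2:ℝ) * j ≤ n + 2 := by exact_mod_cast this
        linarith
      have h4 := mul_le_mul_of_nonneg_right h3 (sub_nonneg.2 (φ_succ n j))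
      have h5 := mul_le_mul_of_nonneg_left h1 (Nat.cast_nonneg n : (0:ℝ) ≤ n)
      nlinarith
  · have h2 := hUm j
    have h4 := mul_le_mul_of_nonneg_right hnm (sub_nonneg.2 (φ_succ m j))
    nlinarith [φ_succ m j]
  · linarith [φ_succ m (j+1), v1 (j+1)]
  · linarith [φ_succ m j, v1 j]
  · refine le_trans (mul_le_mul_of_nonneg_right ?_ (φ_nn _ _)) hBi
    exact pow_le_pow_right₀ (by norm_num) (by omega)

theorem all_n (n : ℕ) : TP n ∧ HH n ∧ LL n := by
  induction n using Nat.strong_induction_on with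
  | _ n ih =>
    by_cases hn : n < 80
    · exact base n hn
    have HT : ∀ s < n, TP s := fun s hs => (ih s hs).1
    have hU := U_all HT n le_rfl
    have hUm := U_all HT (n/2) (by omega)
    obtain ⟨hT, hH, hL⟩ := ih (n/2) (by omega)
    have hLn := L_step n (by omega) hL hT hUm
    have cn : (80:ℝ) ≤ n := by exact_mod_cast (by omega : 80 ≤ n)
    have sm : ∀ j, j < 8 → ((n:ℝ) + 1 - j^2) * (φ n j * φ n (j+1)) ≤
        n * (n + 1 - j) * (φ (n+1) (j+1) * φ n j - φ (n+1) j * φ n (j+1)) := by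
      intro j hj
      have cj : (j:ℝ) ≤ 7 := by exact_mod_cast (by omega : j ≤ 7)
      rcases small_j n j hLn hU with h | h
      · exact le_of_mul_le_mul_right h (by linarith)
      · linarith
    have hHn : HH n := by
      intro j hj
      by_cases h8 : 8 ≤ j
      · exact H_big n (by omega) hT hH hUm hU j h8
      · have h1 := sm j (by omega)
        have F0 := mul_nonneg (φ_nn n j) (φ_nn n (j+1))
        have cj : (j:ℝ) ≤ 7 := by exact_mod_cast (by omega : j ≤ 7)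
        have h2 : 3 * ((n:ℝ) + 1 - j) ≤ j * (n + 1 - j^2) := by
          have : j = 4 ∨ j = 5 ∨ j = 6 ∨ j = 7 := by omega
          rcases this with rfl | rfl | rfl | rfl <;> push_cast <;> linarith
        have h3 := mul_le_mul_of_nonneg_right h2 F0
        have h4 := mul_le_mul_of_nonneg_left h1 (Nat.cast_nonneg j : (0:ℝ) ≤ j)
        refine le_of_mul_le_mul_left ?_ (by linarith : (0:ℝ) < n + 1 - j)
        nlinarith
    refine ⟨fun j => ?_, hHn, hLn⟩
    have F0 := mul_nonneg (φ_nn n j) (φ_nn n (j+1))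
    rw [← sub_nonneg]
    by_cases h4 : 4 ≤ j
    · have h1 := hHn j h4
      have cj : (4:ℝ) ≤ j := by exact_mod_cast h4
      have : (0:ℝ) < j * n := by positivity
      exact nonneg_of_mul_nonneg_right (by linarith) this |> fun h => h
    · have h1 := sm j (by omega)
      have cj : (j:ℝ) ≤ 3 := by exact_mod_cast (by omega : j ≤ 3)
      have c0 : (0:ℝ) ≤ j := Nat.cast_nonneg _
      have : (0:ℝ) < n * (n + 1 - j) := mul_pos (by linarith) (by linarith)
      have h2 : 0 ≤ ((n:ℝ) + 1 - j^2) * (φ n j * φ n (j+1)) := mul_nonneg (by nlinarith) F0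
      exact (mul_nonneg_iff_of_pos_left this).1 (by linarith)

theorem G_nat (a b k : ℕ) : g (f a) (f b) k ≤ f (a+b) k := by
  have := G_all (N := a+b) (fun s _ => (all_n s).1) (a+b) le_rfl a b rfl k
  have h : ((g (f a) (f b) k : ℕ) : ℝ) ≤ (f (a+b) k : ℝ) := by rw [cast_g]; exact this
  exact_mod_cast h

end H26.Even
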