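import Pool.Agent.H26.EvenB

set_option autoImplicit false

namespace H26.Even

open Finset

variable {α : Type} [DecidableEq α]

inductive Ev (T : Finset (Finset α)) : Finset α → Prop
  | single (i : α) : Ev T {i}
  | node (L1 L2 B D : Finset α) : Ev T L1 → Ev T L2 → B ∈ T → D ∈ T → Disjoint B D → B ∪ D ∈ T →
      L1 ⊆ B → L2 ⊆ D → L2.card ≤ L1.card → L1.card ≤ L2.card + 1 → Ev T (L1 ∪ L2)

def Lam (T : Finset (Finset α)) : Prop := ∀ A ∈ T, ∀ B ∈ T, A ⊆ B ∨ B ⊆ A ∨ Disjoint A B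

theorem Ev.nonempty {T : Finset (Finset α)} {L : Finset α} (h : Ev T L) : L.Nonempty := by
  induction h with
  | single i => exact singleton_nonempty i
  | node L1 L2 B D _ _ _ _ _ _ _ _ _ _ ih1 _ => exact ih1.mono subset_union_left

theorem lam_sup {T : Finset (Finset α)} (hT : Lam T) {A B : Finset α} (hA : A ∈ T) (hB : B ∈ T)
    {x y : α} (hxA : x ∈ A) (hxB : x ∈ B) (hyA : y ∈ A) (hyB : y ∉ B) : B ⊆ A := by
  rcases hT A hA B hB with h | h | h
  · exact absurd (h hyA) hyB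
  · exact h
  · exact absurd hxB (disjoint_left.1 h hxA)

/-- inversion along a split of a cluster -/
theorem Ev.inv {T : Finset (Finset α)} (hT : Lam T) {L B D : Finset α} (h : Ev T L)
    (hB : B ∈ T) (hD : D ∈ T) (hBD : Disjoint B D) (hU : B ∪ D ∈ T) (hL : L ⊆ B ∪ D)
    (h1 : (L ∩ B).Nonempty) (h2 : (L ∩ D).Nonempty) :
    Ev T (L ∩ B) ∧ Ev T (L ∩ D) ∧ (L ∩ B).card ≤ (L ∩ D).card + 1 ∧ (L ∩ D).card ≤ (L ∩ B).card + 1 := by
  obtain ⟨x, hx⟩ := h1
  obtain ⟨y, hy⟩ := h2
  rw [mem_inter] at hx hy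
  cases h with
  | single i =>
    have e1 := mem_singleton.1 hx.1
    have e2 := mem_singleton.1 hy.1
    exact absurd (e2 ▸ hy.2) (disjoint_left.1 hBD (e1 ▸ hx.2))
  | node L1 L2 B' D' e1 e2 hB' hD' hBD' hU' s1 s2 c1 c2 =>
    obtain ⟨a, ha⟩ := e1.nonempty
    obtain ⟨b, hb⟩ := e2.nonempty
    have hLU' : L1 ∪ L2 ⊆ B' ∪ D' := union_subset_union s1 s2
    -- every member X of T meeting both L1 and L2 contains B' and D'
    have key : ∀ X ∈ T, ∀ u ∈ L1, ∀ v ∈ L2, u ∈ X → v ∈ X → L1 ∪ L2 ⊆ X := by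
      intro X hX u hu v hv huX hvX
      have i1 := lam_sup hT hX hB' huX (s1 hu) hvX (disjoint_right.1 hBD' (s2 hv))
      have i2 := lam_sup hT hX hD' hvX (s2 hv) huX (disjoint_left.1 hBD' (s1 hu))
      exact union_subset (s1.trans i1) (s2.trans i2)
    have nB : ∀ u ∈ L1, ∀ v ∈ L2, u ∈ B → v ∉ B := fun u hu v hv huB hvB =>
      disjoint_left.1 hBD (key B hB u hu v hv huB hvB hy.1) hy.2
    have nD : ∀ u ∈ L1, ∀ v ∈ L2, u ∈ D → v ∉ D := fun u hu v hv huB hvB =>
      disjoint_left.1 hBD hx.2 (key D hD u hu v hv huB hvB hx.1)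
    have m1 : ∀ u ∈ L1, u ∈ B ∨ u ∈ D := fun u hu => mem_union.1 (hL (mem_union_left _ hu))
    have m2 : ∀ u ∈ L2, u ∈ B ∨ u ∈ D := fun u hu => mem_union.1 (hL (mem_union_right _ hu))
    rcases m1 a ha with haB | haD
    · have l2 : ∀ v ∈ L2, v ∈ D ∧ v ∉ B := fun v hv =>
        ⟨(m2 v hv).resolve_left (nB a ha v hv haB), nB a ha v hv haB⟩
      have l1 : ∀ u ∈ L1, u ∈ B ∧ u ∉ D := fun u hu =>
        ⟨(m1 u hu).resolve_right fun h => nD u hu b hb h (l2 b hb).1, fun h => nD u hu b hb h (l2 b hb).1⟩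
      have q1 : (L1 ∪ L2) ∩ B = L1 := by
        ext z; simp only [mem_inter, mem_union]
        constructor
        · rintro ⟨h | h, h'⟩
          · exact h
          · exact absurd h' (l2 z h).2
        · intro h; exact ⟨Or.inl h, (l1 z h).1⟩
      have q2 : (L1 ∪ L2) ∩ D = L2 := by
        ext z; simp only [mem_inter, mem_union]
        constructor
        · rintro ⟨h | h, h'⟩
          · exact absurd h' (l1 z h).2
          · exact h
        · intro h; exact ⟨Or.inr h, (l2 z h).1⟩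
      rw [q1, q2]; exact ⟨e1, e2, c2, by omega⟩
    · have l2 : ∀ v ∈ L2, v ∈ B ∧ v ∉ D := fun v hv =>
        ⟨(m2 v hv).resolve_right (nD a ha v hv haD), nD a ha v hv haD⟩
      have l1 : ∀ u ∈ L1, u ∈ D ∧ u ∉ B := fun u hu =>
        ⟨(m1 u hu).resolve_left fun h => nB u hu b hb h (l2 b hb).1, fun h => nB u hu b hb h (l2 b hb).1⟩
      have q1 : (L1 ∪ L2) ∩ D = L1 := by
        ext z; simp only [mem_inter, mem_union]
        constructor
        · rintro ⟨h | h, h'⟩
          · exact h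
          · exact absurd h' (l2 z h).2
        · intro h; exact ⟨Or.inl h, (l1 z h).1⟩
      have q2 : (L1 ∪ L2) ∩ B = L2 := by
        ext z; simp only [mem_inter, mem_union]
        constructor
        · rintro ⟨h | h, h'⟩
          · exact absurd h' (l1 z h).2
          · exact h
        · intro h; exact ⟨Or.inr h, (l2 z h).1⟩
      rw [q1, q2]; exact ⟨e2, e1, by omega, c2⟩

open Classical in
noncomputable def S (T : Finset (Finset α)) (A : Finset α) (k : ℕ) : Finset (Finset α) :=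
  A.powerset.filter fun L => L.card = k ∧ Ev T L

theorem mem_S {T : Finset (Finset α)} {A L : Finset α} {k : ℕ} :
    L ∈ S T A k ↔ L ⊆ A ∧ L.card = k ∧ Ev T L := by
  unfold S; simp

noncomputable def cnt (T : Finset (Finset α)) (A : Finset α) (k : ℕ) : ℕ := (S T A k).card

noncomputable def X (T : Finset (Finset α)) (B D : Finset α) (i j : ℕ) : Finset (Finset α) :=
  (S T B i ×ˢ S T D j).image fun q => q.1 ∪ q.2

theorem inter_l {B D L1 L2 : Finset α} (h : Disjoint B D) (s1 : L1 ⊆ B) (s2 : L2 ⊆ D) :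
    (L1 ∪ L2) ∩ B = L1 := by
  ext z; simp only [mem_inter, mem_union]
  constructor
  · rintro ⟨h1 | h1, h'⟩
    · exact h1
    · exact absurd (s2 h1) (disjoint_left.1 h h')
  · intro h1; exact ⟨Or.inl h1, s1 h1⟩

theorem inter_r {B D L1 L2 : Finset α} (h : Disjoint B D) (s1 : L1 ⊆ B) (s2 : L2 ⊆ D) :
    (L1 ∪ L2) ∩ D = L2 := by
  rw [union_comm]; exact inter_l h.symm s2 s1

theorem card_X {T : Finset (Finset α)} {B D : Finset α} (h : Disjoint B D) (i j : ℕ) :
    (X T B D i j).card = cnt T B i * cnt T D j := by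
  unfold X cnt
  rw [card_image_of_injOn, card_product]
  rintro ⟨a, b⟩ hab ⟨c, d⟩ hcd e
  simp only [coe_product, Set.mem_prod, mem_coe, mem_S] at hab hcd e
  have e1 := inter_l h hab.1.1 hab.2.1
  have e2 := inter_r h hab.1.1 hab.2.1
  rw [e, inter_l h hcd.1.1 hcd.2.1] at e1
  rw [e, inter_r h hcd.1.1 hcd.2.1] at e2
  rw [e1, e2]

theorem mem_X {T : Finset (Finset α)} {B D L : Finset α} (h : Disjoint B D) (i j : ℕ) :
    L ∈ X T B D i j ↔ L ⊆ B ∪ D ∧ (L ∩ B).card = i ∧ Ev T (L ∩ B) ∧ (L ∩ D).card = j ∧ Ev T (L ∩ D) := by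
  unfold X
  simp only [mem_image, mem_product, mem_S, Prod.exists]
  constructor
  · rintro ⟨a, b, ⟨⟨h1, h2, h3⟩, h4, h5, h6⟩, rfl⟩
    rw [inter_l h h1 h4, inter_r h h1 h4]
    exact ⟨union_subset_union h1 h4, h2, h3, h5, h6⟩
  · rintro ⟨h1, h2, h3, h4, h5⟩
    refine ⟨L ∩ B, L ∩ D, ⟨⟨inter_subset_right, h2, h3⟩, inter_subset_right, h4, h5⟩, ?_⟩
    rw [← inter_union_distrib_left]; exact inter_eq_left.2 h1

theorem card_split {B D L : Finset α} (h : Disjoint B D) (hL : L ⊆ B ∪ D) :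
    L.card = (L ∩ B).card + (L ∩ D).card := by
  rw [← card_union_of_disjoint (h.mono inter_subset_right inter_subset_right),
    ← inter_union_distrib_left, inter_eq_left.2 hL]

theorem cnt_rec {T : Finset (Finset α)} (hT : Lam T) {B D : Finset α}
    (hB : B ∈ T) (hD : D ∈ T) (hBD : Disjoint B D) (hU : B ∪ D ∈ T) (k : ℕ) :
    cnt T (B ∪ D) k = g (cnt T B) (cnt T D) k := by
  obtain ⟨Y, hY, hYc⟩ : ∃ Y : Finset (Finset α), (∀ L, L ∈ Y ↔ L ⊆ B ∪ D ∧ Ev T (L ∩ B) ∧ Ev T (L ∩ D) ∧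
      (L ∩ B).card + (L ∩ D).card = k ∧ (L ∩ B).card ≤ (L ∩ D).card + 1 ∧
      (L ∩ D).card ≤ (L ∩ B).card + 1) ∧ Y.card = star (cnt T B) (cnt T D) k := by
    rcases Nat.even_or_odd' k with ⟨p, rfl | rfl⟩
    · refine ⟨X T B D p p, fun L => ?_, by rw [star_even, card_X hBD]⟩
      rw [mem_X hBD]
      constructor
      · rintro ⟨h1, h2, h3, h4, h5⟩
        exact ⟨h1, h3, h5, by omega, by omega, by omega⟩
      · rintro ⟨h1, h2, h3, h4, h5, h6⟩
        exact ⟨h1, by omega, h2, by omega, h3⟩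
    · refine ⟨X T B D (p+1) p ∪ X T B D p (p+1), fun L => ?_, ?_⟩
      · rw [mem_union, mem_X hBD, mem_X hBD]
        constructor
        · rintro (⟨h1, h2, h3, h4, h5⟩ | ⟨h1, h2, h3, h4, h5⟩)
          · exact ⟨h1, h3, h5, by omega, by omega, by omega⟩
          · exact ⟨h1, h3, h5, by omega, by omega, by omega⟩
        · rintro ⟨h1, h2, h3, h4, h5, h6⟩
          by_cases h : (L ∩ B).card = p
          · exact Or.inr ⟨h1, h, h2, by omega, h3⟩
          · exact Or.inl ⟨h1, by omega, h2, by omega, h3⟩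
      · rw [card_union_of_disjoint, star_odd, card_X hBD, card_X hBD]
        rw [disjoint_left]
        intro L h1 h2
        rw [mem_X hBD] at h1 h2
        omega
  have e : S T (B ∪ D) k = (S T B k ∪ S T D k) ∪ Y := by
    ext L
    simp only [mem_union, mem_S, hY]
    constructor
    · rintro ⟨h1, h2, h3⟩
      by_cases a1 : (L ∩ B).Nonempty
      · by_cases a2 : (L ∩ D).Nonempty
        · obtain ⟨i1, i2, i3, i4⟩ := h3.inv hT hB hD hBD hU h1 a1 a2
          exact Or.inr ⟨h1, i1, i2, by rw [← card_split hBD h1, h2], i3, i4⟩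
        · refine Or.inl (Or.inl ⟨fun z hz => ?_, h2, h3⟩)
          exact (mem_union.1 (h1 hz)).resolve_right fun h => a2 ⟨z, mem_inter.2 ⟨hz, h⟩⟩
      · refine Or.inl (Or.inr ⟨fun z hz => ?_, h2, h3⟩)
        exact (mem_union.1 (h1 hz)).resolve_left fun h => a1 ⟨z, mem_inter.2 ⟨hz, h⟩⟩
    · rintro ((⟨h1, h2, h3⟩ | ⟨h1, h2, h3⟩) | ⟨h1, h2, h3, h4, h5, h6⟩)
      · exact ⟨h1.trans subset_union_left, h2, h3⟩
      · exact ⟨h1.trans subset_union_right, h2, h3⟩
      · refine ⟨h1, by rw [card_split hBD h1, h4], ?_⟩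
        have eL : L = L ∩ B ∪ L ∩ D := by
          rw [← inter_union_distrib_left]; exact (inter_eq_left.2 h1).symm
        rcases le_total (L ∩ D).card (L ∩ B).card with c | c
        · rw [eL]
          exact Ev.node _ _ B D h2 h3 hB hD hBD hU inter_subset_right inter_subset_right c h5
        · rw [eL, union_comm]
          exact Ev.node _ _ D B h3 h2 hD hB hBD.symm (union_comm B D ▸ hU) inter_subset_right
            inter_subset_right c h6
  unfold g
  rw [← hYc]
  unfold cnt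
  rw [e, card_union_of_disjoint, card_union_of_disjoint]
  · rw [disjoint_left]
    intro L h1 h2
    rw [mem_S] at h1 h2
    obtain ⟨z, hz⟩ := h1.2.2.nonempty
    exact disjoint_left.1 hBD (h1.1 hz) (h2.1 hz)
  · rw [disjoint_left]
    intro L h1 h2
    rw [hY] at h2
    obtain ⟨z, hz⟩ := h2.2.1.nonempty
    obtain ⟨w, hw⟩ := h2.2.2.1.nonempty
    rw [mem_inter] at hz hw
    rcases mem_union.1 h1 with h1 | h1 <;> rw [mem_S] at h1
    · exact disjoint_left.1 hBD (h1.1 hw.1) hw.2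
    · exact disjoint_left.1 hBD hz.2 (h1.1 hz.1)

theorem cnt_single (T : Finset (Finset α)) (i : α) (k : ℕ) : cnt T {i} k = f 1 k := by
  rw [f_one]
  unfold cnt
  split_ifs with h
  · subst h
    rw [card_eq_one]
    refine ⟨{i}, ?_⟩
    ext L
    rw [mem_S, mem_singleton]
    constructor
    · rintro ⟨h1, h2, _⟩
      exact eq_of_subset_of_card_le h1 (by rw [h2, card_singleton])
    · rintro rfl
      exact ⟨subset_rfl, card_singleton _, Ev.single i⟩
  · rw [card_eq_zero, eq_empty_iff_forall_notMem]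
    intro L hL
    rw [mem_S] at hL
    have h1 := card_le_card hL.1
    have h2 := hL.2.2.nonempty.card_pos
    rw [card_singleton] at h1
    omega

theorem g_mono_nat {u v u' v' : ℕ → ℕ} (h1 : ∀ t, u t ≤ u' t) (h2 : ∀ t, v t ≤ v' t) (k : ℕ) :
    g u v k ≤ g u' v' k := by
  unfold g star
  have := Nat.mul_le_mul (h1 (k/2)) (h2 (k/2))
  have := Nat.mul_le_mul (h1 (k/2+1)) (h2 (k/2))
  have := Nat.mul_le_mul (h1 (k/2)) (h2 (k/2+1))
  have := h1 k
  have := h2 k
  split_ifs <;> omega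

def Bin (T : Finset (Finset α)) : Prop :=
  ∀ A ∈ T, 2 ≤ A.card → ∃ B ∈ T, ∃ D ∈ T, Disjoint B D ∧ B ∪ D = A

def Bal (T : Finset (Finset α)) : Prop :=
  ∀ A ∈ T, ∀ B ∈ T, B ⊂ A → (∀ D ∈ T, B ⊆ D → D ⊆ A → D = B ∨ D = A) →
    A.card ≤ 2 * B.card + 1 ∧ 2 * B.card ≤ A.card + 1

theorem cnt_le {T : Finset (Finset α)} (hne : ∀ A ∈ T, A.Nonempty) (hT : Lam T) (hb : Bin T) (n : ℕ) :
    ∀ A ∈ T, A.card = n → ∀ k, cnt T A k ≤ f n k := by
  induction n using Nat.strong_induction_on with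
  | _ n ih =>
    intro A hA hn k
    by_cases h : 2 ≤ A.card
    · obtain ⟨B, hB, D, hD, hBD, rfl⟩ := hb A hA h
      rw [card_union_of_disjoint hBD] at hn
      have p1 := (hne B hB).card_pos
      have p2 := (hne D hD).card_pos
      rw [cnt_rec hT hB hD hBD hA, ← hn]
      exact (g_mono_nat (ih _ (by omega) B hB rfl) (ih _ (by omega) D hD rfl) k).trans (G_nat _ _ _)
    · have p1 := (hne A hA).card_pos
      obtain ⟨i, rfl⟩ := card_eq_one.1 (by omega : A.card = 1)
      rw [card_singleton] at hn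
      rw [cnt_single, ← hn]

theorem bal_split {T : Finset (Finset α)} (hne : ∀ A ∈ T, A.Nonempty) (hT : Lam T) (hl : Bal T)
    {B D : Finset α} (hB : B ∈ T) (hD : D ∈ T) (hBD : Disjoint B D) (hU : B ∪ D ∈ T) :
    B.card ≤ D.card + 1 ∧ D.card ≤ B.card + 1 := by
  obtain ⟨d, hd⟩ := hne D hD
  obtain ⟨b, hb⟩ := hne B hB
  have := hl _ hU B hB ⟨subset_union_left, fun h => disjoint_left.1 hBD (h (mem_union_right _ hd)) hd⟩ ?_
  · rw [card_union_of_disjoint hBD] at this
    omega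
  · intro C hC h1 h2
    rcases hT C hC D hD with h | h | h
    · exact absurd (h (h1 hb)) (disjoint_left.1 hBD hb)
    · exact Or.inr (subset_antisymm h2 (union_subset h1 h))
    · refine Or.inl (subset_antisymm (fun z hz => ?_) h1)
      exact (mem_union.1 (h2 hz)).resolve_right (disjoint_left.1 h hz)

theorem cnt_eq {T : Finset (Finset α)} (hne : ∀ A ∈ T, A.Nonempty) (hT : Lam T) (hb : Bin T)
    (hl : Bal T) (n : ℕ) : ∀ A ∈ T, A.card = n → cnt T A = f n := by
  induction n using Nat.strong_induction_on with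
  | _ n ih =>
    intro A hA hn
    funext k
    by_cases h : 2 ≤ A.card
    · obtain ⟨B, hB, D, hD, hBD, rfl⟩ := hb A hA h
      rw [card_union_of_disjoint hBD] at hn
      have p1 := (hne B hB).card_pos
      have p2 := (hne D hD).card_pos
      have p3 := bal_split hne hT hl hB hD hBD hA
      rw [cnt_rec hT hB hD hBD hA, ih _ (by omega) B hB rfl, ih _ (by omega) D hD rfl, f_rec n]
      by_cases hc : B.card = (n+1)/2
      · have : D.card = n/2 := by omega
        rw [hc, this]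
      · have h1 : B.card = n/2 := by omega
        have h2 : D.card = (n+1)/2 := by omega
        rw [h1, h2, g_comm]
    · have p1 := (hne A hA).card_pos
      obtain ⟨i, rfl⟩ := card_eq_one.1 (by omega : A.card = 1)
      rw [card_singleton] at hn
      rw [cnt_single, ← hn]

end H26.Even
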