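import Pool.Agent.H26.EvenC

set_option autoImplicit false

namespace H26.Even

open Finset

variable {α β : Type} [DecidableEq α] [DecidableEq β]

theorem iso_ev {F : Finset (Finset β)} {T : Finset (Finset α)} (Fne : ∀ A ∈ F, A.Nonempty)
    (FL : Lam F) (Fl : Bal F) (Tne : ∀ A ∈ T, A.Nonempty) (hb : Bin T) [Fintype β] (f : β → α)
    (hf : Function.Injective f) (L : Finset α) (hL : univ.image f = L)
    (h : ∀ B : Finset β, B ∈ F ↔ (B.Nonempty ∧ ∃ A ∈ T, B.image f = A ∩ L)) (n : ℕ) :
    ∀ S ∈ F, S.card = n → Ev T (S.image f) := by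
  induction n using Nat.strong_induction_on with
  | _ n ih =>
    intro S hS hn
    by_cases h2 : 2 ≤ S.card
    · obtain ⟨A0, hA0⟩ := ((h S).1 hS).2
      obtain ⟨A, hA, hmin⟩ := exists_min_image (T.filter fun A => S.image f = A ∩ L) card
        ⟨A0, mem_filter.2 hA0⟩
      rw [mem_filter] at hA
      have c2 : 2 ≤ A.card := by
        have := card_le_card (hA.2 ▸ inter_subset_left : S.image f ⊆ A)
        rw [card_image_of_injective _ hf] at this
        omega
      obtain ⟨B, hB, D, hD, hBD, rfl⟩ := hb A hA.1 c2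
      have fL : ∀ x, f x ∈ L := fun x => hL ▸ mem_image_of_mem f (mem_univ x)
      have im : ∀ C : Finset α, (univ.filter fun x => f x ∈ C).image f = C ∩ L := by
        intro C
        ext z
        simp only [mem_image, mem_filter, mem_univ, true_and, mem_inter]
        constructor
        · rintro ⟨x, hx, rfl⟩; exact ⟨hx, fL x⟩
        · rintro ⟨h1, h2⟩
          rw [← hL] at h2
          obtain ⟨x, _, rfl⟩ := mem_image.1 h2
          exact ⟨x, h1, rfl⟩
      set SB := univ.filter fun x => f x ∈ B with hSB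
      set SD := univ.filter fun x => f x ∈ D with hSD
      have eS : SB ∪ SD = S := by
        apply image_injective hf
        rw [image_union, im, im, hA.2, union_inter_distrib_right]
      have dj : Disjoint SB SD := by
        rw [disjoint_left]
        intro x h1 h2
        exact disjoint_left.1 hBD (mem_filter.1 h1).2 (mem_filter.1 h2).2
      have cA := card_union_of_disjoint hBD
      have Sne : S.Nonempty := Fne S hS
      have nB : SB.Nonempty := by
        by_contra hc
        rw [not_nonempty_iff_eq_empty] at hc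
        have e1 : S.image f = D ∩ L := by rw [← eS, hc, empty_union, im]
        have := hmin D (mem_filter.2 ⟨hD, e1⟩)
        have := (Tne B hB).card_pos
        omega
      have nD : SD.Nonempty := by
        by_contra hc
        rw [not_nonempty_iff_eq_empty] at hc
        have e1 : S.image f = B ∩ L := by rw [← eS, hc, union_empty, im]
        have := hmin B (mem_filter.2 ⟨hB, e1⟩)
        have := (Tne D hD).card_pos
        omega
      have mB : SB ∈ F := (h SB).2 ⟨nB, B, hB, im B⟩
      have mD : SD ∈ F := (h SD).2 ⟨nD, D, hD, im D⟩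
      have bal := bal_split Fne FL Fl mB mD dj (eS ▸ hS)
      have cS := card_union_of_disjoint dj
      rw [eS] at cS
      have p1 := nB.card_pos
      have p2 := nD.card_pos
      have i1 := ih _ (by omega) SB mB rfl
      have i2 := ih _ (by omega) SD mD rfl
      have sB : SB.image f ⊆ B := by rw [im]; exact inter_subset_left
      have sD : SD.image f ⊆ D := by rw [im]; exact inter_subset_left
      rcases le_total SD.card SB.card with c | c
      · rw [← eS, image_union]
        refine Ev.node _ _ B D i1 i2 hB hD hBD hA.1 sB sD ?_ ?_ <;>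
          rw [card_image_of_injective _ hf, card_image_of_injective _ hf] <;> omega
      · rw [← eS, image_union, union_comm]
        refine Ev.node _ _ D B i2 i1 hD hB hBD.symm (union_comm B D ▸ hA.1) sD sB ?_ ?_ <;>
          rw [card_image_of_injective _ hf, card_image_of_injective _ hf] <;> omega
    · have p1 := (Fne S hS).card_pos
      obtain ⟨i, rfl⟩ := card_eq_one.1 (by omega : S.card = 1)
      rw [image_singleton]
      exact Ev.single _

theorem ev_iso {F : Finset (Finset β)} {T : Finset (Finset α)} (Fne : ∀ A ∈ F, A.Nonempty)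
    (FL : Lam F) (Fb : Bin F) (Fl : Bal F) (TL : Lam T) (Ts : ∀ i, {i} ∈ T) {L : Finset α} (hL : Ev T L) :
    ∀ S ∈ F, S.card = L.card → ∃ f : β → α, Set.InjOn f S ∧ S.image f = L ∧
      ∀ B ⊆ S, (B ∈ F ↔ (B.Nonempty ∧ ∃ A ∈ T, B.image f = A ∩ L)) := by
  induction hL with
  | single i =>
    intro S hS hc
    rw [card_singleton] at hc
    obtain ⟨s, rfl⟩ := card_eq_one.1 hc
    refine ⟨fun _ => i, by simp, by simp, fun B hB => ?_⟩
    constructor
    · intro h
      have hn := Fne B h
      have : B = {s} := (subset_singleton_iff.1 hB).resolve_left hn.ne_empty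
      subst this
      exact ⟨hn, {i}, Ts i, by simp⟩
    · rintro ⟨hn, -⟩
      have : B = {s} := (subset_singleton_iff.1 hB).resolve_left hn.ne_empty
      exact this ▸ hS
  | node L1 L2 B' D' e1 e2 hB' hD' hBD' hU' s1 s2 c1 c2 ih1 ih2 =>
    intro S hS hc
    have dL : Disjoint L1 L2 := hBD'.mono s1 s2
    rw [card_union_of_disjoint dL] at hc
    have p1 := e1.nonempty.card_pos
    have p2 := e2.nonempty.card_pos
    obtain ⟨S1, S2, h1, h2, hd, rfl, k1, k2⟩ : ∃ S1 S2, S1 ∈ F ∧ S2 ∈ F ∧ Disjoint S1 S2 ∧ S1 ∪ S2 = S ∧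
        S1.card = L1.card ∧ S2.card = L2.card := by
      obtain ⟨P, hP, Q, hQ, hd, rfl⟩ := Fb S hS (by omega)
      have bal := bal_split Fne FL Fl hP hQ hd hS
      rw [card_union_of_disjoint hd] at hc
      by_cases h : P.card = L1.card
      · exact ⟨P, Q, hP, hQ, hd, rfl, h, by omega⟩
      · exact ⟨Q, P, hQ, hP, hd.symm, union_comm _ _, by omega, by omega⟩
    obtain ⟨f1, i1, m1, r1⟩ := ih1 S1 h1 k1
    obtain ⟨f2, i2, m2, r2⟩ := ih2 S2 h2 k2
    let f : β → α := fun x => if x ∈ S1 then f1 x else f2 x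
    have a1 : ∀ x ∈ S1, f x = f1 x := fun x hx => if_pos hx
    have a2 : ∀ x ∈ S2, f x = f2 x := fun x hx => if_neg (disjoint_right.1 hd hx)
    have b1 : ∀ x ∈ S1, f x ∈ L1 := fun x hx => by rw [a1 x hx, ← m1]; exact mem_image_of_mem _ hx
    have b2 : ∀ x ∈ S2, f x ∈ L2 := fun x hx => by rw [a2 x hx, ← m2]; exact mem_image_of_mem _ hx
    have j1 : ∀ B ⊆ S1, B.image f = B.image f1 := fun B hB => image_congr fun x hx => a1 x (hB hx)
    have j2 : ∀ B ⊆ S2, B.image f = B.image f2 := fun B hB => image_congr fun x hx => a2 x (hB hx)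
    have inj : Set.InjOn f (S1 ∪ S2 : Finset β) := by
      intro x hx y hy e
      rcases mem_union.1 (mem_coe.1 hx) with hx | hx <;> rcases mem_union.1 (mem_coe.1 hy) with hy | hy
      · rw [a1 x hx, a1 y hy] at e; exact i1 hx hy e
      · exact absurd (e ▸ b1 x hx) (disjoint_right.1 dL (b2 y hy))
      · exact absurd (e ▸ b2 x hx) (disjoint_left.1 dL (b1 y hy))
      · rw [a2 x hx, a2 y hy] at e; exact i2 hx hy e
    have imS : (S1 ∪ S2).image f = L1 ∪ L2 := by
      rw [image_union, j1 S1 subset_rfl, j2 S2 subset_rfl, m1, m2]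
    -- transfer of traces
    have tr : ∀ (M1 M2 C E : Finset α), C ∈ T → Disjoint C E → M1 ⊆ C → M2 ⊆ E → ∀ A ∈ T,
        (A ∩ M1).Nonempty → ∃ A' ∈ T, A ∩ M1 = A' ∩ (M1 ∪ M2) := by
      intro M1 M2 C E hC hCE t1 t2 A hA ⟨z, hz⟩
      rw [mem_inter] at hz
      rcases TL A hA C hC with h | h | h
      · refine ⟨A, hA, ?_⟩
        rw [inter_union_distrib_left, disjoint_iff_inter_eq_empty.1 (hCE.mono h t2), union_empty]
      · refine ⟨C, hC, ?_⟩
        rw [inter_comm C, inter_l hCE t1 t2]
        exact inter_eq_right.2 (t1.trans h)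
      · exact absurd (t1 hz.2) (disjoint_left.1 h hz.1)
    refine ⟨f, inj, imS, fun B hB => ?_⟩
    constructor
    · intro h
      have hn := Fne B h
      refine ⟨hn, ?_⟩
      have cases : B ⊆ S1 ∨ B ⊆ S2 ∨ B = S1 ∪ S2 := by
        rcases FL B h S1 h1 with g1 | g1 | g1
        · exact Or.inl g1
        · rcases FL B h S2 h2 with g2 | g2 | g2
          · exact Or.inr (Or.inl g2)
          · exact Or.inr (Or.inr (subset_antisymm hB (union_subset g1 g2)))
          · exact Or.inl fun z hz => (mem_union.1 (hB hz)).resolve_right (disjoint_left.1 g2 hz)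
        · exact Or.inr (Or.inl fun z hz => (mem_union.1 (hB hz)).resolve_left (disjoint_left.1 g1 hz))
      rcases cases with g1 | g1 | rfl
      · obtain ⟨A, hA, e⟩ := ((r1 B g1).1 h).2
        obtain ⟨A', hA', e'⟩ := tr L1 L2 B' D' hB' hBD' s1 s2 A hA (e ▸ hn.image _)
        exact ⟨A', hA', by rw [j1 B g1, e, e']⟩
      · obtain ⟨A, hA, e⟩ := ((r2 B g1).1 h).2
        obtain ⟨A', hA', e'⟩ := tr L2 L1 D' B' hD' hBD'.symm s2 s1 A hA (e ▸ hn.image _)
        exact ⟨A', hA', by rw [j2 B g1, e, e', union_comm]⟩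
      · refine ⟨B' ∪ D', hU', ?_⟩
        rw [imS]; exact (inter_eq_right.2 (union_subset_union s1 s2)).symm
    · rintro ⟨hn, A, hA, e⟩
      have mA : ∀ x ∈ B, f x ∈ A := fun x hx =>
        (mem_inter.1 (e ▸ mem_image_of_mem f hx : f x ∈ A ∩ (L1 ∪ L2))).1
      by_cases g1 : B ⊆ S1
      · refine (r1 B g1).2 ⟨hn, A, hA, ?_⟩
        have : B.image f ⊆ L1 := image_subset_iff.2 fun x hx => b1 x (g1 hx)
        rw [← j1 B g1, ← inter_eq_left.2 this, e, inter_assoc, inter_eq_right.2 subset_union_left]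
      by_cases g2 : B ⊆ S2
      · refine (r2 B g2).2 ⟨hn, A, hA, ?_⟩
        have : B.image f ⊆ L2 := image_subset_iff.2 fun x hx => b2 x (g2 hx)
        rw [← j2 B g2, ← inter_eq_left.2 this, e, inter_assoc, inter_eq_right.2 subset_union_right]
      obtain ⟨y, hy, hy'⟩ := not_subset.1 g1
      obtain ⟨x, hx, hx'⟩ := not_subset.1 g2
      have xs : x ∈ S1 := (mem_union.1 (hB hx)).resolve_right hx'
      have ys : y ∈ S2 := (mem_union.1 (hB hy)).resolve_left hy'
      have t1 := lam_sup TL hA hB' (mA x hx) (s1 (b1 x xs)) (mA y hy) (disjoint_right.1 hBD' (s2 (b2 y ys)))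
      have t2 := lam_sup TL hA hD' (mA y hy) (s2 (b2 y ys)) (mA x hx) (disjoint_left.1 hBD' (s1 (b1 x xs)))
      have e2 : B.image f = (S1 ∪ S2).image f := by
        rw [e, imS]; exact inter_eq_right.2 (union_subset (s1.trans t1) (s2.trans t2))
      have : B = S1 ∪ S2 := by
        refine eq_of_subset_of_card_le hB ?_
        rw [← card_image_of_injOn inj, ← e2]
        exact card_image_le
      exact this ▸ hS

theorem final (k n : ℕ) (F : Finset (Finset (Fin k))) (E T : Finset (Finset (Fin n)))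
    (Fne : ∀ A ∈ F, A.Nonempty) (Fu : univ ∈ F) (FL : Lam F) (Fb : Bin F) (Fl : Bal F)
    (Ene : ∀ A ∈ E, A.Nonempty) (Eu : univ ∈ E) (Es : ∀ i, {i} ∈ E) (EL : Lam E) (Eb : Bin E) (El : Bal E)
    (Tne : ∀ A ∈ T, A.Nonempty) (Tu : univ ∈ T) (TL : Lam T) (Tb : Bin T) :
    {L : Finset (Fin n) | ∃ f : Fin k → Fin n, Function.Injective f ∧
          Finset.univ.image f = L ∧
          ∀ B : Finset (Fin k), B ∈ F ↔ (B.Nonempty ∧ ∃ A ∈ T, B.image f = A ∩ L)}.ncard
        ≤
      {L : Finset (Fin n) | ∃ f : Fin k → Fin n, Function.Injective f ∧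
          Finset.univ.image f = L ∧
          ∀ B : Finset (Fin k), B ∈ F ↔ (B.Nonempty ∧ ∃ A ∈ E, B.image f = A ∩ L)}.ncard := by
  have h1 : cnt T univ k ≤ cnt E univ k := by
    rw [cnt_eq Ene EL Eb El _ univ Eu rfl]
    exact cnt_le Tne TL Tb _ univ Tu rfl k
  refine le_trans ?_ (h1.trans ?_)
  · unfold cnt
    rw [← Set.ncard_coe_finset]
    refine Set.ncard_le_ncard ?_ (finite_toSet _)
    rintro L ⟨f, hf, hL, h⟩
    rw [mem_coe, mem_S]
    refine ⟨subset_univ _, ?_, ?_⟩
    · rw [← hL, card_image_of_injective _ hf, card_univ, Fintype.card_fin]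
    · have := iso_ev Fne FL Fl Tne Tb f hf L hL h _ univ Fu rfl
      rwa [hL] at this
  · unfold cnt
    rw [← Set.ncard_coe_finset]
    refine Set.ncard_le_ncard ?_ (Set.toFinite _)
    intro L hL
    rw [mem_coe, mem_S] at hL
    obtain ⟨f, hf, e, h⟩ := ev_iso Fne FL Fb Fl EL Es hL.2.2 univ Fu
      (by rw [card_univ, Fintype.card_fin, hL.2.1])
    exact ⟨f, fun x y hxy => hf (by simp) (by simp) hxy, e, fun B => h B (subset_univ _)⟩

end H26.Even
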