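import Pool.Agent.H26.FlameDefs

set_option autoImplicit false

namespace H26.Flame

abbrev CS := {Y : Set ℝ // Y.Countable}

inductive Vx
  | r | a (n : ℕ) | t (x : ℝ) | h (x : ℝ) | u | v (Y : CS)

inductive Ed
  | ra (n : ℕ) | ta (n : ℕ) (x : ℝ) | g (x : ℝ) | hu (x : ℝ) | hv (Y : CS) (x : Y.1) | uv (Y : CS)

def tl : Ed → Vx
  | .ra _ => .r | .ta n _ => .a n | .g x => .t x | .hu x => .h x | .hv _ x => .h x | .uv _ => .u

def hd : Ed → Vx
  | .ra n => .a n | .ta _ x => .t x | .g x => .h x | .hu _ => .u | .hv Y _ => .v Y | .uv Y => .v Y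

def rk : Vx → ℕ
  | .r => 0 | .a _ => 1 | .t _ => 2 | .h _ => 3 | .u => 4 | .v _ => 5

theorem rk_lt (e : Ed) : rk (tl e) < rk (hd e) := by cases e <;> simp [rk, tl, hd]

abbrev D : RD where
  V := Vx
  E := Ed
  tail := tl
  head := hd
  r := .r
  noloop := fun e h => by have := rk_lt e; rw [h] at this; exact lt_irrefl _ this
  noin := fun e => by cases e <;> simp [hd]

theorem walk_rk (p : List Ed) : ∀ u v, D.IsWalk u p v → rk u + p.length ≤ rk v := by
  induction p with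
  | nil => intro u v h; have : u = v := h; simp [this]
  | cons e p ih =>
    rintro u v ⟨rfl, h⟩
    have := ih _ _ h
    have := rk_lt e
    simp only [List.length_cons]
    change rk (tl e) + _ ≤ _
    change rk (hd e) + _ ≤ _ at *
    omega

theorem acyclic : D.Acyclic := by
  intro v p h
  have h2 : rk v + List.length p ≤ rk v := walk_rk p _ _ h
  exact List.length_eq_zero_iff.1 (by omega)

theorem noback : D.NoBackInf := by
  rintro ⟨f, hf⟩
  have : ∀ n, rk (hd (f n)) + n ≤ rk (hd (f 0)) := by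
    intro n
    induction n with
    | zero => simp
    | succ n ih =>
      have h1 := rk_lt (f n)
      have h2 : hd (f (n+1)) = tl (f n) := hf n
      rw [h2]; omega
  have := this (rk (hd (f 0)) + 1)
  omega

/-- an edge of a walk from the root whose tail is not the root has a predecessor -/
theorem pred (p : List Ed) : ∀ u v, D.IsWalk u p v → ∀ e ∈ p, tl e = u ∨ ∃ e' ∈ p, hd e' = tl e := by
  induction p with
  | nil => intro _ _ _ e he; simp at he
  | cons e0 p ih =>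
    rintro u v ⟨h0, h⟩ e he
    rcases List.mem_cons.1 he with rfl | he
    · exact Or.inl h0
    · rcases ih _ _ h e he with h1 | ⟨e', h1, h2⟩
      · exact Or.inr ⟨e0, List.mem_cons_self, h1.symm⟩
      · exact Or.inr ⟨e', List.mem_cons_of_mem _ h1, h2⟩

theorem same_head {p : List Ed} {u v : Vx} (h : D.IsPath u p v) {e e' : Ed} (he : e ∈ p) (he' : e' ∈ p)
    (hh : hd e = hd e') : e = e' :=
  List.inj_on_of_nodup_map (List.nodup_cons.1 h.2).2 he he' hh

theorem back {p : List Ed} {v : Vx} (h : D.IsWalk .r p v) :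
    (∀ x, Ed.hu x ∈ p → Ed.g x ∈ p) ∧ (∀ Y x, Ed.hv Y x ∈ p → Ed.g x ∈ p) ∧
    (∀ x, Ed.g x ∈ p → ∃ n, Ed.ra n ∈ p) ∧ (∀ Y, Ed.uv Y ∈ p → ∃ x, Ed.hu x ∈ p) := by
  have P : ∀ e ∈ p, tl e ≠ .r → ∃ e' ∈ p, hd e' = tl e := fun e he hn => (pred p _ _ h e he).resolve_left hn
  refine ⟨fun x hx => ?_, fun Y x hx => ?_, fun x hx => ?_, fun Y hx => ?_⟩
  · obtain ⟨e, he, h'⟩ := P _ hx (by simp [tl])
    cases e <;> simp [hd, tl] at h'
    exact h' ▸ he
  · obtain ⟨e, he, h'⟩ := P _ hx (by simp [tl])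
    cases e <;> simp [hd, tl] at h'
    exact h' ▸ he
  · obtain ⟨e, he, h'⟩ := P _ hx (by simp [tl])
    cases e <;> simp [hd, tl] at h'
    obtain ⟨e', he', h''⟩ := P _ he (by simp [tl])
    cases e' <;> simp [hd, tl] at h''
    exact ⟨_, he'⟩
  · obtain ⟨e, he, h'⟩ := P _ hx (by simp [tl])
    cases e <;> simp [hd, tl] at h'
    exact ⟨_, he⟩

def I : Set Ed := {e | ∃ Y, hd e = .v Y}

theorem I_inG : D.InG Set.univ I := by
  refine ⟨fun v => {e | e ∈ I ∧ hd e = v}, fun v _ => ⟨fun e he => ⟨trivial, he.2⟩, ?_⟩, ?_⟩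
  · by_cases hv : ∃ Y, v = Vx.v Y
    · obtain ⟨Y, rfl⟩ := hv
      obtain ⟨x0, hx0⟩ : ∃ x0, x0 ∉ Y.1 := by
        by_contra h
        push Not at h
        exact Cardinal.not_countable_real (Y.2.mono fun x _ => h x)
      obtain ⟨c, hc⟩ := Set.countable_iff_exists_injective.1 Y.2
      let P : Option Y.1 → List Ed := fun o => match o with
        | none => [.ra 0, .ta 0 x0, .g x0, .hu x0, .uv Y]
        | some x => [.ra (c x + 1), .ta (c x + 1) x, .g x, .hv Y x]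
      refine ⟨Set.range P, ?_, ?_, ?_⟩
      · rintro _ ⟨o, rfl⟩
        refine ⟨?_, fun _ _ => trivial⟩
        cases o <;> simp [P, RD.IsPath, RD.IsWalk, D, tl, hd]
      · rintro _ ⟨o, rfl⟩ _ ⟨o', rfl⟩ hne
        have ne : o ≠ o' := fun h => hne (by rw [h])
        have n0 : ∀ x : Y.1, x0 ≠ x.1 := fun x h => hx0 (h ▸ x.2)
        have n1 : ∀ x : Y.1, x.1 ≠ x0 := fun x => (n0 x).symm
        rcases o with _ | x <;> rcases o' with _ | x'
        · exact absurd rfl ne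
        · simp [P, List.Disjoint, n0]
        · simp [P, List.Disjoint, n1]
        · have h1 : x ≠ x' := fun h => ne (by rw [h])
          have h2 : c x ≠ c x' := fun h => h1 (hc h)
          have h3 : x.1 ≠ x'.1 := fun h => h1 (Subtype.ext h)
          simp [P, List.Disjoint, h1, h2, h3]
      · rintro e ⟨_, he⟩
        cases e <;> simp [hd] at he
        · rename_i Y' x _
          subst he
          exact ⟨_, ⟨some x, rfl⟩, by simp [P]⟩
        · subst he
          exact ⟨_, ⟨none, rfl⟩, by simp [P]⟩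
    · refine ⟨∅, by simp, by simp, ?_⟩
      rintro e ⟨⟨Y, h1⟩, h2⟩
      exact absurd ⟨Y, h2 ▸ h1⟩ hv
  · ext e
    simp only [Set.mem_iUnion, Set.mem_ofPred_eq]
    exact ⟨fun h => ⟨hd e, D.noin e, h, rfl⟩, fun ⟨_, _, h, _⟩ => h⟩

theorem flame_cov {F : Set Ed} (hF : D.IsFlame F) (v : Vx) (hv : v ≠ .r) :
    D.Cov F v {e | e ∈ F ∧ hd e = v} := by
  obtain ⟨J, hJ, e⟩ := hF
  obtain ⟨P, h1, h2, h3⟩ := (hJ v hv).2
  refine ⟨P, h1, h2, fun x hx => h3 x ?_⟩
  have := hx.1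
  rw [e] at this
  simp only [Set.mem_iUnion, Set.mem_ofPred_eq] at this
  obtain ⟨w, hw, hx'⟩ := this
  have h4 : hd x = w := ((hJ w hw).1 hx').2
  rw [← hx.2, h4]; exact hx'

theorem no_flame (F : Set Ed) (hF : D.IsFlame F) : ¬ I ⊆ F := by
  intro hI
  have cY : {x | Ed.hu x ∈ F}.Countable := by
    obtain ⟨P, h1, h2, h3⟩ := flame_cov hF .u (by simp)
    have : ∀ x : {x | Ed.hu x ∈ F}, ∃ n, ∃ p ∈ P, Ed.hu x ∈ p ∧ Ed.ra n ∈ p := by
      intro x
      obtain ⟨p, hp, hx⟩ := h3 (.hu x) ⟨x.2, rfl⟩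
      have b := back (h1 p hp).1.1
      obtain ⟨n, hn⟩ := b.2.2.1 _ (b.1 _ hx)
      exact ⟨n, p, hp, hx, hn⟩
    choose c p hp hx hn using this
    refine Set.countable_iff_exists_injective.2 ⟨c, fun x y e => ?_⟩
    have hpp : p x = p y := by
      by_contra hne
      exact h2 (hp x) (hp y) hne (hn x) (e ▸ hn y)
    have := same_head (e' := .hu y) (h1 _ (hp x)).1 (hx x) (hpp ▸ hx y) rfl
    exact Subtype.ext (by simpa using this)
  let Y : CS := ⟨_, cY⟩
  obtain ⟨P, h1, h2, h3⟩ := flame_cov hF (.v Y) (by simp)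
  obtain ⟨p, hp, hu⟩ := h3 (.uv Y) ⟨hI ⟨Y, rfl⟩, rfl⟩
  have b := back (h1 p hp).1.1
  obtain ⟨x, hx⟩ := b.2.2.2 _ hu
  have xY : x ∈ Y.1 := (h1 p hp).2 _ hx
  obtain ⟨q, hq, hv⟩ := h3 (.hv Y ⟨x, xY⟩) ⟨hI ⟨Y, rfl⟩, rfl⟩
  have b' := back (h1 q hq).1.1
  have hpq : p = q := by
    by_contra hne
    exact h2 hp hq hne (b.1 _ hx) (b'.2.1 _ _ hv)
  have := same_head (e' := .hv Y ⟨x, xY⟩) (h1 _ hp).1 hu (hpq ▸ hv) rfl
  simp at this

end H26.Flame
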