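import Mathlib

set_option autoImplicit false

namespace H26.Flame

/-- An `r`-rooted digraph: parallel edges allowed, no loops, no edge enters the root. -/
structure RD where
  V : Type
  E : Type
  tail : E → V
  head : E → V
  r : V
  noloop : ∀ e, tail e ≠ head e
  noin : ∀ e, head e ≠ r

/-- The edge list `p` is a directed walk from `u` to `v`. -/
def RD.IsWalk (D : RD) : D.V → List D.E → D.V → Prop
  | u, [], v => u = v
  | u, e :: p, v => D.tail e = u ∧ D.IsWalk (D.head e) p v

/-- The edge list `p` is a directed path from `u` to `v` (no repeated vertex). -/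
def RD.IsPath (D : RD) (u : D.V) (p : List D.E) (v : D.V) : Prop :=
  D.IsWalk u p v ∧ (u :: p.map D.head).Nodup

/-- There is no nonempty closed directed walk (so no directed cycle). -/
def RD.Acyclic (D : RD) : Prop := ∀ v p, D.IsWalk v p v → p = []

/-- There is no sequence of edges running backwards for ever. -/
def RD.NoBackInf (D : RD) : Prop := ¬ ∃ f : ℕ → D.E, ∀ n, D.head (f (n+1)) = D.tail (f n)

/-- Some family of pairwise edge-disjoint `rv`-paths using only edges of `F` covers `I`. -/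
def RD.Cov (D : RD) (F : Set D.E) (v : D.V) (I : Set D.E) : Prop :=
  ∃ Q : Set (List D.E), (∀ p ∈ Q, D.IsPath D.r p v ∧ ∀ e ∈ p, e ∈ F) ∧
    Q.Pairwise List.Disjoint ∧ ∀ e ∈ I, ∃ p ∈ Q, e ∈ p

/-- `I ∈ 𝒢(D(F))`: a union of sets `I_v` of `F`-edges entering `v`, each covered by edge-disjoint
`rv`-paths of `D(F)`. -/
def RD.InG (D : RD) (F : Set D.E) (I : Set D.E) : Prop :=
  ∃ J : D.V → Set D.E, (∀ v, v ≠ D.r → J v ⊆ {e | e ∈ F ∧ D.head e = v} ∧ D.Cov F v (J v)) ∧
    I = ⋃ v ∈ {v | v ≠ D.r}, J v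

/-- `F` is a flame of `D`. -/
def RD.IsFlame (D : RD) (F : Set D.E) : Prop := D.InG F F

end H26.Flame
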