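import Mathlib

set_option autoImplicit false

namespace Pool.Agent.H26.Hig

structure Sys (W D : Type) [LinearOrder D] where
  lvl : W → ℤ
  I : W → W → D
  J : W → W → D
  E : Set D
  X : Set D
  hI : ∀ v w, I v w ∈ E
  hJ : ∀ v w, J v w ∈ X
  dis : ∀ d, d ∈ E → d ∈ X → False
  right : ∀ e ∈ E, ∀ k, e < k → ∃ x ∈ X, e < x ∧ x < k
  left : ∀ x ∈ X, ∀ k, k < x → ∃ e ∈ E, k < e ∧ e < x
  exE : ∀ x ∈ X, ∃ e ∈ E, e < x
  exX : ∀ e ∈ E, ∃ x ∈ X, e < x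
  neE : E.Nonempty
  neX : X.Nonempty
  cE : E.Countable
  cX : X.Countable
  rich : ∀ (m : ℤ) (S : Set W), S.Countable → ∀ f g : W → D, (∀ v, f v ∈ X) → (∀ v, g v ∈ E) →
    {w | lvl w = m ∧ ∀ v ∈ S, (lvl v + 1 = m → J v w = f v ∧ I v w = g v) ∧
      (lvl v = m + 1 → J w v = f v ∧ I w v = g v)}.Infinite

variable {W D : Type} [LinearOrder D]

def Sys.dual (s : Sys W D) : Sys W Dᵒᵈ where
  lvl w := - s.lvl w
  I v w := s.J w v
  J v w := s.I w v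
  E := s.X
  X := s.E
  hI v w := s.hJ w v
  hJ v w := s.hI w v
  dis d h1 h2 := s.dis d h2 h1
  right e he k hk := by
    obtain ⟨x, hx, h1, h2⟩ := s.left e he k hk
    exact ⟨x, hx, h2, h1⟩
  left e he k hk := by
    obtain ⟨x, hx, h1, h2⟩ := s.right e he k hk
    exact ⟨x, hx, h2, h1⟩
  exE := s.exX
  exX := s.exE
  neE := s.neX
  neX := s.neE
  cE := s.cX
  cX := s.cE
  rich m S hS f g hf hg := by
    refine (s.rich (-m) S hS g f hg hf).mono ?_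
    rintro w ⟨h1, h2⟩
    refine ⟨by simp only [h1]; ring, fun v hv => ⟨fun h => ?_, fun h => ?_⟩⟩
    · exact ((h2 v hv).2 (by omega)).symm
    · exact ((h2 v hv).1 (by omega)).symm

def Free (K : W → Set D) (w : W) (a b : D) : Prop := ∀ d ∈ K w, a ≤ d → d ≤ b → False

def RE (s : Sys W D) (K : W → Set D) (v w : W) : Prop :=
  ∃ S : W → W → Prop, S v w ∧ ∀ v w, S v w → s.lvl v + 1 = s.lvl w ∧
    ∃ u, S u v ∧ s.I u v ≤ s.J v w ∧ Free K v (s.I u v) (s.J v w)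

theorem RE.dest {s : Sys W D} {K : W → Set D} {v w : W} (h : RE s K v w) :
    s.lvl v + 1 = s.lvl w ∧ ∃ u, RE s K u v ∧ s.I u v ≤ s.J v w ∧ Free K v (s.I u v) (s.J v w) := by
  obtain ⟨S, h1, h2⟩ := h
  obtain ⟨h3, u, h4, h5⟩ := h2 v w h1
  exact ⟨h3, u, ⟨S, h4, h2⟩, h5⟩

theorem RE.step {s : Sys W D} {K : W → Set D} {u v w : W} (h : RE s K u v)
    (hl : s.lvl v + 1 = s.lvl w) (h1 : s.I u v ≤ s.J v w) (h2 : Free K v (s.I u v) (s.J v w)) :
    RE s K v w := by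
  refine ⟨fun a b => RE s K a b ∨ (a = v ∧ b = w), Or.inr ⟨rfl, rfl⟩, ?_⟩
  rintro a b (hab | ⟨rfl, rfl⟩)
  · obtain ⟨h3, u, h4, h5⟩ := hab.dest
    exact ⟨h3, u, Or.inl h4, h5⟩
  · exact ⟨hl, u, Or.inl h, h1, h2⟩

def RW (s : Sys W D) (K : W → Set D) (w : W) : Prop :=
  ∃ v, ∃ x ∈ s.X, RE s K v w ∧ s.I v w ≤ x ∧ Free K w (s.I v w) x

def Priv (s : Sys W D) (K : W → Set D) : Prop :=
  ∀ w, ∀ k ∈ K w, ∃ v u, RE s K v w ∧ s.I v w ≤ k ∧ k ≤ s.J w u ∧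
    ∀ k' ∈ K w, s.I v w ≤ k' → k' ≤ s.J w u → k' = k

theorem exists_free (s : Sys W D) (K : W → Set D) (hp : Priv s K) (w : W) :
    ∃ e ∈ s.E, ∃ x ∈ s.X, e ≤ x ∧ Free K w e x := by
  by_cases h : ∃ k, k ∈ K w
  · obtain ⟨k, hk⟩ := h
    obtain ⟨v, u, -, h1, h2, h3⟩ := hp w k hk
    rcases h1.lt_or_eq with h1' | h1'
    · obtain ⟨x, hx, h4, h5⟩ := s.right _ (s.hI v w) k h1'
      refine ⟨_, s.hI v w, x, hx, h4.le, fun d hd ha hb => ?_⟩
      have := h3 d hd ha (hb.trans (h5.le.trans h2))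
      subst this; exact absurd hb (not_le.2 h5)
    · have h2' : k < s.J w u := lt_of_le_of_ne h2 fun h => s.dis k (h1' ▸ s.hI v w) (h ▸ s.hJ w u)
      obtain ⟨e, he, h4, h5⟩ := s.left _ (s.hJ w u) k h2'
      refine ⟨e, he, _, s.hJ w u, h5.le, fun d hd ha hb => ?_⟩
      have := h3 d hd (h1.trans (h4.le.trans ha)) hb
      subst this; exact absurd ha (not_le.2 h4)
  · obtain ⟨e, he⟩ := s.neE
    obtain ⟨x, hx, h1⟩ := s.exX e he
    exact ⟨e, he, x, hx, h1.le, fun d hd _ _ => h ⟨d, hd⟩⟩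

/-- from infinitely many R-wires at level `m`: a countable set and labels realising all entries -/
theorem spread (s : Sys W D) (K : W → Set D) (m : ℤ) (h : {w | s.lvl w = m ∧ RW s K w}.Infinite) :
    ∃ S : Set W, S.Countable ∧ (∀ v ∈ S, s.lvl v = m) ∧ ∃ f g : W → D, (∀ v, f v ∈ s.X) ∧
      (∀ v, g v ∈ s.E) ∧ (∀ e ∈ s.E, ∃ v ∈ S, g v = e) ∧
      ∀ v ∈ S, ∀ w, s.lvl w = m + 1 → s.J v w = f v → RE s K v w := by
  classical
  let c : ℕ ↪ W := (h.natEmbedding _).trans (Function.Embedding.subtype _)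
  have hc : ∀ n, s.lvl (c n) = m ∧ RW s K (c n) := fun n => (h.natEmbedding _ n).2
  obtain ⟨en, hen⟩ := s.cE.exists_eq_range s.neE
  obtain ⟨x0, hx0⟩ := s.neX
  have hf : ∀ v, ∃ x ∈ s.X, RW s K v → ∃ u, RE s K u v ∧ s.I u v ≤ x ∧ Free K v (s.I u v) x := by
    intro v
    by_cases hv : RW s K v
    · obtain ⟨u, x, hx, h1⟩ := hv
      exact ⟨x, hx, fun _ => ⟨u, h1⟩⟩
    · exact ⟨x0, hx0, fun h => absurd h hv⟩
  choose f hf1 hf2 using hf
  refine ⟨Set.range c, Set.countable_range _, ?_, f, fun v => en (Function.invFun c v), hf1, ?_, ?_, ?_⟩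
  · rintro v ⟨n, rfl⟩; exact (hc n).1
  · intro v; rw [hen]; exact Set.mem_range_self _
  · intro e he
    rw [hen] at he
    obtain ⟨n, rfl⟩ := he
    exact ⟨c n, Set.mem_range_self _, congrArg en (Function.leftInverse_invFun c.injective n)⟩
  · rintro v ⟨n, rfl⟩ w hw hJ
    obtain ⟨u, h1, h2, h3⟩ := hf2 _ (hc n).2
    exact h1.step (by rw [(hc n).1, hw]) (hJ ▸ h2) (hJ ▸ h3)

theorem up_inf (s : Sys W D) (K : W → Set D) (hp : Priv s K) (m : ℤ)
    (h : {w | s.lvl w = m ∧ RW s K w}.Infinite) : {w | s.lvl w = m + 1 ∧ RW s K w}.Infinite := by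
  obtain ⟨S, hS, hl, f, g, hf, hg, hs, hr⟩ := spread s K m h
  refine (s.rich (m + 1) S hS f g hf hg).mono ?_
  rintro w ⟨h1, h2⟩
  refine ⟨h1, ?_⟩
  obtain ⟨e, he, x, hx, h3, h4⟩ := exists_free s K hp w
  obtain ⟨v, hv, rfl⟩ := hs e he
  obtain ⟨h5, h6⟩ := (h2 v hv).1 (by rw [hl v hv])
  exact ⟨v, x, hx, hr v hv w h1 h5, h6 ▸ h3, h6 ▸ h4⟩

theorem RE.rw {s : Sys W D} {K : W → Set D} {v w : W} (h : RE s K v w) : RW s K v := by
  obtain ⟨-, u, h1, h2, h3⟩ := h.dest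
  exact ⟨u, _, s.hJ v w, h1, h2, h3⟩

theorem low_inf (s : Sys W D) (K : W → Set D) (hp : Priv s K) (m : ℤ) :
    ∃ m' ≤ m, {w | s.lvl w = m' ∧ RW s K w}.Infinite := by
  by_contra hno
  push Not at hno
  have hK : ∀ w, s.lvl w ≤ m → ¬ RW s K w → K w ⊆ s.E ∧ (K w).Finite := by
    intro w hw hnr
    have key : ∀ k ∈ K w, ∃ v, RE s K v w ∧ k = s.I v w := by
      intro k hk
      obtain ⟨v, u, h0, h1, h2, h3⟩ := hp w k hk
      refine ⟨v, h0, ?_⟩
      rcases h1.lt_or_eq with h1' | h1'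
      · exfalso
        obtain ⟨x, hx, h4, h5⟩ := s.right _ (s.hI v w) k h1'
        refine hnr ⟨v, x, hx, h0, h4.le, fun d hd ha hb => ?_⟩
        have := h3 d hd ha (hb.trans (h5.le.trans h2))
        subst this; exact absurd hb (not_le.2 h5)
      · exact h1'.symm
    constructor
    · intro k hk
      obtain ⟨v, -, rfl⟩ := key k hk
      exact s.hI v w
    · refine ((hno (s.lvl w - 1) (by omega)).image fun v => s.I v w).subset ?_
      intro k hk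
      obtain ⟨v, h1, rfl⟩ := key k hk
      exact ⟨v, ⟨by have := h1.dest.1; omega, h1.rw⟩, rfl⟩
  obtain ⟨x0, hx0⟩ := s.neX
  have below : ∀ v, s.lvl v ≤ m + 1 → ∀ e ∈ s.E,
      ∃ u, s.lvl u + 1 = s.lvl v ∧ ¬ RW s K u ∧ s.I u v = e := by
    intro v hv e he
    have h1 := s.rich (s.lvl v - 1) {v} (Set.countable_singleton v) (fun _ => x0) (fun _ => e)
      (fun _ => hx0) (fun _ => he)
    obtain ⟨u, hu1, hu2⟩ := (h1.diff (hno (s.lvl v - 1) (by omega))).nonempty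
    refine ⟨u, by have := hu1.1; omega, fun h => hu2 ⟨hu1.1, h⟩, ?_⟩
    exact ((hu1.2 v rfl).2 (by omega)).2
  have hS : ∀ v w, (s.lvl v + 1 = s.lvl w ∧ s.lvl v ≤ m ∧ ¬ RW s K v) → RE s K v w := by
    intro v w h
    refine ⟨fun v w => s.lvl v + 1 = s.lvl w ∧ s.lvl v ≤ m ∧ ¬ RW s K v, h, ?_⟩
    rintro v w ⟨h1, h2, h3⟩
    refine ⟨h1, ?_⟩
    obtain ⟨hE, hF⟩ := hK v h2 h3
    have : ∃ e ∈ s.E, e < s.J v w ∧ ∀ k ∈ K v, k < s.J v w → k < e := by
      by_cases hne : ({k ∈ K v | k < s.J v w}).Nonempty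
      · obtain ⟨k, hk, hmax⟩ := Set.exists_max_image _ id (hF.subset (Set.sep_subset _ _)) hne
        obtain ⟨e, he, h4, h5⟩ := s.left _ (s.hJ v w) k hk.2
        exact ⟨e, he, h5, fun k' hk' h6 => lt_of_le_of_lt (hmax k' ⟨hk', h6⟩) h4⟩
      · obtain ⟨e, he, h5⟩ := s.exE _ (s.hJ v w)
        exact ⟨e, he, h5, fun k' hk' h6 => absurd ⟨k', hk', h6⟩ hne⟩
    obtain ⟨e, he, h4, h5⟩ := this
    obtain ⟨u, hu1, hu2, hu3⟩ := below v (by omega) e he
    refine ⟨u, ⟨hu1, by omega, hu2⟩, hu3 ▸ h4.le, fun d hd ha hb => ?_⟩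
    rw [hu3] at ha
    rcases hb.lt_or_eq with hb | hb
    · exact absurd ha (not_le.2 (h5 d hd hb))
    · exact s.dis d (hE hd) (hb ▸ s.hJ v w)
  obtain ⟨e, he⟩ := s.neE
  obtain ⟨w, hw, -⟩ := (s.rich (m + 1) ∅ Set.countable_empty (fun _ => x0) (fun _ => e)
      (fun _ => hx0) (fun _ => he)).nonempty
  obtain ⟨u, hu1, hu2, -⟩ := below w (by omega) e he
  exact hu2 (hS u w ⟨hu1, by omega, hu2⟩).rw

theorem all_inf (s : Sys W D) (K : W → Set D) (hp : Priv s K) (m : ℤ) :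
    {w | s.lvl w = m ∧ RW s K w}.Infinite := by
  obtain ⟨m', h1, h2⟩ := low_inf s K hp m
  induction m, h1 using Int.le_induction with
  | base => exact h2
  | succ n _ ih => exact up_inf s K hp n ih

theorem both (s : Sys W D) (K : W → Set D) (hp : Priv s K) (hq : Priv s.dual K) :
    ∃ w u, RE s K w u ∧ RE s.dual K u w := by
  classical
  obtain ⟨S, hS, hl, f, g, hf, hg, hs, hr⟩ := spread s K 0 (all_inf s K hp 0)
  obtain ⟨S', hS', hl', f', g', hf', hg', hs', hr'⟩ := spread s.dual K (-2) (all_inf s.dual K hq (-2))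
  have hl2 : ∀ v ∈ S', s.lvl v = 2 := fun v hv => by
    have : - s.lvl v = -2 := hl' v hv
    omega
  obtain ⟨w, h1, h2⟩ := (s.rich 1 (S ∪ S') (hS.union hS') (fun v => if s.lvl v = 0 then f v else g' v)
    (fun v => if s.lvl v = 0 then g v else f' v)
    (fun v => by split_ifs; exacts [hf v, hg' v]) (fun v => by split_ifs; exacts [hg v, hf' v])).nonempty
  obtain ⟨e, he, x, hx, h3, h4⟩ := exists_free s K hp w
  obtain ⟨v, hv, rfl⟩ := hs e he
  obtain ⟨u, hu, hux⟩ := hs' x hx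
  obtain ⟨h5, h6⟩ := (h2 v (Or.inl hv)).1 (by rw [hl v hv]; rfl)
  obtain ⟨h7, h8⟩ := (h2 u (Or.inr hu)).2 (by rw [hl2 u hu]; rfl)
  simp only [hl v hv, hl2 u hu, if_true, OfNat.ofNat_ne_zero, if_false] at h5 h6 h7 h8
  have h9 : s.J w u = x := h7.trans hux
  refine ⟨w, u, (hr v hv w (by rw [h1]; rfl) h5).step (by rw [h1, hl2 u hu]; rfl)
    (by rw [h6, h9]; exact h3) (by rw [h6, h9]; exact h4), ?_⟩
  exact hr' u hu w (by show - s.lvl w = _; rw [h1]; rfl) h8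

theorem RE.seq {s : Sys W D} {K : W → Set D} {v w : W} (h : RE s K v w) :
    ∃ a : ℕ → W, a 0 = w ∧ a 1 = v ∧ ∀ k, s.lvl (a (k + 1)) + 1 = s.lvl (a k) ∧
      s.I (a (k + 2)) (a (k + 1)) ≤ s.J (a (k + 1)) (a k) ∧
      Free K (a (k + 1)) (s.I (a (k + 2)) (a (k + 1))) (s.J (a (k + 1)) (a k)) := by
  have nx : ∀ p : {p : W × W // RE s K p.1 p.2}, ∃ q : {p : W × W // RE s K p.1 p.2},
      q.1.2 = p.1.1 ∧ s.I q.1.1 p.1.1 ≤ s.J p.1.1 p.1.2 ∧
        Free K p.1.1 (s.I q.1.1 p.1.1) (s.J p.1.1 p.1.2) := by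
    intro p
    obtain ⟨-, u, h1, h2⟩ := p.2.dest
    exact ⟨⟨(u, p.1.1), h1⟩, rfl, h2⟩
  choose F hF using nx
  let q : ℕ → {p : W × W // RE s K p.1 p.2} := fun n => F^[n] ⟨(v, w), h⟩
  have hq : ∀ n, q (n + 1) = F (q n) := fun n => Function.iterate_succ_apply' F n _
  have h1 : ∀ n, (q (n + 1)).1.2 = (q n).1.1 := fun n => by rw [hq]; exact (hF _).1
  refine ⟨fun n => (q n).1.2, rfl, h1 0, fun k => ?_⟩
  have h2 := (hF (q k)).2
  rw [← hq] at h2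
  simp only [h1]
  exact ⟨(q k).2.dest.1, h2⟩

def IsPath (s : Sys W D) (p : ℤ → W) : Prop :=
  ∀ n, s.lvl (p n) = n ∧ s.I (p (n - 1)) (p n) ≤ s.J (p n) (p (n + 1))

theorem free_path (s : Sys W D) (K : W → Set D) (hp : Priv s K) (hq : Priv s.dual K) :
    ∃ p, IsPath s p ∧ ∀ n, Free K (p n) (s.I (p (n - 1)) (p n)) (s.J (p n) (p (n + 1))) := by
  obtain ⟨v, w, h1, h2⟩ := both s K hp hq
  obtain ⟨a, a0, a1, ha⟩ := h1.seq
  obtain ⟨b, b0, b1, hb⟩ := h2.seq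
  have hvw := h1.dest.1
  have la : ∀ k : ℕ, s.lvl (a k) = s.lvl w - k := by
    intro k
    induction k with
    | zero => simp [a0]
    | succ k ih => have := (ha k).1; push_cast; omega
  have lb : ∀ k : ℕ, s.lvl (b k) = s.lvl v + k := by
    intro k
    induction k with
    | zero => simp [b0]
    | succ k ih =>
      have : - s.lvl (b (k + 1)) + 1 = - s.lvl (b k) := (hb k).1
      push_cast; omega
  let p : ℤ → W := fun n => if n ≤ s.lvl v then a (s.lvl w - n).toNat else b (n - s.lvl v).toNat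
  have pa : ∀ (n : ℤ) (k : ℕ), n = s.lvl w - k → p n = a k := by
    intro n k hk
    by_cases h : n ≤ s.lvl v
    · simp only [p, if_pos h]; congr 1; omega
    · have : k = 0 := by omega
      subst this
      simp only [p, if_neg h]
      rw [a0, ← b1]; congr 1; omega
  have pb : ∀ (n : ℤ) (k : ℕ), n = s.lvl v + k → p n = b k := by
    intro n k hk
    by_cases h : n ≤ s.lvl v
    · have : k = 0 := by omega
      subst this
      simp only [p, if_pos h]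
      rw [b0, ← a1]; congr 1; omega
    · simp only [p, if_neg h]; congr 1; omega
  have main : ∀ n, s.lvl (p n) = n ∧ s.I (p (n - 1)) (p n) ≤ s.J (p n) (p (n + 1)) ∧
      Free K (p n) (s.I (p (n - 1)) (p n)) (s.J (p n) (p (n + 1))) := by
    intro n
    by_cases h : n ≤ s.lvl v
    · obtain ⟨k, hk⟩ : ∃ k : ℕ, n = s.lvl v - k := ⟨(s.lvl v - n).toNat, by omega⟩
      rw [pa n (k + 1) (by push_cast; omega), pa (n - 1) (k + 2) (by push_cast; omega),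
        pa (n + 1) k (by omega)]
      exact ⟨by rw [la]; push_cast; omega, (ha k).2⟩
    · obtain ⟨k, hk⟩ : ∃ k : ℕ, n = s.lvl w + k := ⟨(n - s.lvl w).toNat, by omega⟩
      rw [pb n (k + 1) (by push_cast; omega), pb (n + 1) (k + 2) (by push_cast; omega),
        pb (n - 1) k (by omega)]
      refine ⟨by rw [lb]; push_cast; omega, (hb k).2.1, fun d hd h3 h4 => (hb k).2.2 d hd h4 h3⟩
  exact ⟨p, fun n => ⟨(main n).1, (main n).2.1⟩, fun n => (main n).2.2⟩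

theorem priv_of (s : Sys W D) (K : W → Set D)
    (h : ∀ w, ∀ k ∈ K w, ∃ p, IsPath s p ∧ p (s.lvl w) = w ∧
      s.I (p (s.lvl w - 1)) w ≤ k ∧ k ≤ s.J w (p (s.lvl w + 1)) ∧
      ∀ n, ∀ d ∈ K (p n), s.I (p (n - 1)) (p n) ≤ d → d ≤ s.J (p n) (p (n + 1)) → p n = w ∧ d = k) :
    Priv s K ∧ Priv s.dual K := by
  constructor
  · intro w k hk
    obtain ⟨p, hp, hw, h1, h2, h3⟩ := h w k hk
    refine ⟨p (s.lvl w - 1), p (s.lvl w + 1), ?_, h1, h2, fun k' hk' h4 h5 => ?_⟩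
    · refine ⟨fun a b => ∃ n, n < s.lvl w ∧ a = p n ∧ b = p (n + 1),
        ⟨s.lvl w - 1, by omega, rfl, by rw [sub_add_cancel, hw]⟩, ?_⟩
      rintro a b ⟨n, hn, rfl, rfl⟩
      refine ⟨by rw [(hp n).1, (hp (n + 1)).1], p (n - 1), ⟨n - 1, by omega, rfl, by rw [sub_add_cancel]⟩,
        (hp n).2, fun d hd h4 h5 => ?_⟩
      have := (hp n).1
      rw [(h3 n d hd h4 h5).1] at this
      omega
    · exact (h3 (s.lvl w) k' (by rw [hw]; exact hk') (by rw [hw]; exact h4) (by rw [hw]; exact h5)).2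
  · intro w k hk
    obtain ⟨p, hp, hw, h1, h2, h3⟩ := h w k hk
    refine ⟨p (s.lvl w + 1), p (s.lvl w - 1), ?_, h2, h1, fun k' hk' h4 h5 => ?_⟩
    · refine ⟨fun a b => ∃ n, s.lvl w < n ∧ a = p n ∧ b = p (n - 1),
        ⟨s.lvl w + 1, by omega, rfl, by rw [add_sub_cancel_right, hw]⟩, ?_⟩
      rintro a b ⟨n, hn, rfl, rfl⟩
      refine ⟨?_, p (n + 1), ⟨n + 1, by omega, rfl, by rw [add_sub_cancel_right]⟩,
        (hp n).2, fun d hd h4 h5 => ?_⟩
      · show - s.lvl (p n) + 1 = - s.lvl (p (n - 1))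
        rw [(hp n).1, (hp (n - 1)).1]; ring
      · have := (hp n).1
        rw [(h3 n d hd h5 h4).1] at this
        omega
    · exact (h3 (s.lvl w) k' (by rw [hw]; exact hk') (by rw [hw]; exact h5) (by rw [hw]; exact h4)).2

end Pool.Agent.H26.Hig
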