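import Pool.Agent.H26.HigA

set_option autoImplicit false

namespace Pool.Agent.H26.Hig

inductive Wire (L : Type) : Type
  | base : Wire L
  | node : ℤ → ℕ → (ℕ → Wire L) → (ℕ → L) → Wire L

namespace Wire
variable {L : Type}

def lvl : Wire L → ℤ
  | base => 0
  | node m _ _ _ => m

def Child (v : Wire L) : Wire L → Prop
  | base => False
  | node _ _ c _ => ∃ n, c n = v

theorem wf : WellFounded (Child (L := L)) := by
  refine ⟨fun w => ?_⟩
  induction w with
  | base => exact Acc.intro _ fun v hv => hv.elim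
  | node m t c l ih =>
    refine Acc.intro _ fun v hv => ?_
    obtain ⟨n, rfl⟩ := hv
    exact ih n

open Classical in
noncomputable def look [Inhabited L] (v : Wire L) : Wire L → L
  | base => default
  | node _ _ c l => if h : ∃ n, c n = v then l h.choose else default

open Classical in
noncomputable def lab [Inhabited L] (v w : Wire L) : L := if Child v w then look v w else look w v

theorem rich [Inhabited L] (m : ℤ) (S : Set (Wire L)) (hS : S.Countable) (f : Wire L → L) :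
    {w : Wire L | lvl w = m ∧ ∀ v ∈ S, lab v w = f v ∧ lab w v = f v}.Infinite := by
  obtain ⟨c, hc⟩ := (hS.insert base).exists_eq_range (Set.insert_nonempty _ _)
  refine Set.infinite_of_injective_forall_mem (f := fun t : ℕ => node m t c (fun n => f (c n)))
    (fun a b h => by injection h) ?_
  intro t
  refine ⟨rfl, fun v hv => ?_⟩
  have h1 : ∃ n, c n = v := by
    have : v ∈ Set.range c := hc ▸ Set.mem_insert_of_mem _ hv
    exact this
  have h2 : Child v (node m t c fun n => f (c n)) := h1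
  have h3 : look v (node m t c fun n => f (c n)) = f v := by
    simp only [look, dif_pos h1]; rw [h1.choose_spec]
  have h4 : ¬ Child (node m t c fun n => f (c n)) v := wf.asymmetric _ _ h2
  exact ⟨by rw [lab, if_pos h2, h3], by rw [lab, if_neg h4, h3]⟩

end Wire

abbrev D : Type := LowerSet ℚ

def En : Set D := {e | e = ⊥ ∨ ∃ q : ℚ, e = LowerSet.Iic q}
def Ex : Set D := {x | x = ⊤ ∨ ∃ q : ℚ, x = LowerSet.Iio q}

theorem lt_iff {a b : D} : a < b ↔ ∃ q ∈ b, q ∉ a := by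
  rw [← not_le, ← LowerSet.coe_subset_coe, Set.not_subset]; rfl

theorem En_prop {e : D} (he : e ∈ En) {q : ℚ} (hq : q ∉ e) : ∃ r < q, r ∉ e := by
  rcases he with rfl | ⟨a, rfl⟩
  · exact ⟨q - 1, by linarith, by simp⟩
  · simp only [LowerSet.mem_Iic_iff, not_le] at hq ⊢
    exact ⟨(a + q) / 2, by linarith, by linarith⟩

theorem Ex_prop {x : D} (hx : x ∈ Ex) {q : ℚ} (hq : q ∈ x) : ∃ r > q, r ∈ x := by
  rcases hx with rfl | ⟨a, rfl⟩
  · exact ⟨q + 1, by linarith, by simp⟩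
  · simp only [LowerSet.mem_Iio_iff] at hq ⊢
    exact ⟨(a + q) / 2, by linarith, by linarith⟩

theorem dis (d : D) (h1 : d ∈ En) (h2 : d ∈ Ex) : False := by
  rcases h1 with rfl | ⟨a, rfl⟩
  · rcases h2 with h | ⟨b, h⟩
    · have : (0 : ℚ) ∈ (⊥ : D) := by rw [h]; simp
      simp at this
    · have : (b - 1 : ℚ) ∈ (⊥ : D) := by rw [h]; simp
      simp at this
  · obtain ⟨r, h3, h4⟩ := Ex_prop h2 (q := a) (by simp)
    simp only [LowerSet.mem_Iic_iff] at h4
    exact absurd h4 (not_le.2 h3)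

instance : Inhabited (Ex × En) := ⟨(⟨⊤, Or.inl rfl⟩, ⟨⊥, Or.inl rfl⟩)⟩

abbrev W : Type := Wire (Ex × En)

noncomputable def sys : Sys W D where
  lvl := Wire.lvl
  I v w := (Wire.lab v w).2.1
  J v w := (Wire.lab v w).1.1
  E := En
  X := Ex
  hI v w := (Wire.lab v w).2.2
  hJ v w := (Wire.lab v w).1.2
  dis := dis
  right e he k hk := by
    obtain ⟨q, h1, h2⟩ := lt_iff.1 hk
    obtain ⟨r, h3, h4⟩ := En_prop he h2
    exact ⟨LowerSet.Iio q, Or.inr ⟨q, rfl⟩, lt_iff.2 ⟨r, by simpa using h3, h4⟩,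
      lt_iff.2 ⟨q, h1, by simp⟩⟩
  left x hx k hk := by
    obtain ⟨q, h1, h2⟩ := lt_iff.1 hk
    obtain ⟨r, h3, h4⟩ := Ex_prop hx h1
    exact ⟨LowerSet.Iic q, Or.inr ⟨q, rfl⟩, lt_iff.2 ⟨q, by simp, h2⟩,
      lt_iff.2 ⟨r, h4, by simpa using h3⟩⟩
  exE x hx := ⟨⊥, Or.inl rfl, lt_of_le_of_ne bot_le fun h => dis x (h ▸ Or.inl rfl) hx⟩
  exX e he := ⟨⊤, Or.inl rfl, lt_of_le_of_ne le_top fun h => dis e he (h ▸ Or.inl rfl)⟩
  neE := ⟨⊥, Or.inl rfl⟩
  neX := ⟨⊤, Or.inl rfl⟩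
  cE := ((Set.countable_range fun q : ℚ => LowerSet.Iic q).insert ⊥).mono (by
    rintro e (rfl | ⟨q, rfl⟩)
    · exact Or.inl rfl
    · exact Or.inr ⟨q, rfl⟩)
  cX := ((Set.countable_range fun q : ℚ => LowerSet.Iio q).insert ⊤).mono (by
    rintro e (rfl | ⟨q, rfl⟩)
    · exact Or.inl rfl
    · exact Or.inr ⟨q, rfl⟩)
  rich m S hS f g hf hg := by
    refine (Wire.rich m S hS fun v => ((⟨f v, hf v⟩, ⟨g v, hg v⟩) : Ex × En)).mono ?_
    rintro w ⟨h1, h2⟩
    refine ⟨h1, fun v hv => ⟨fun _ => ?_, fun _ => ?_⟩⟩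
    · rw [(h2 v hv).1]; exact ⟨rfl, rfl⟩
    · rw [(h2 v hv).2]; exact ⟨rfl, rfl⟩

theorem En_sup {e : D} (he : e ∈ En) {S : Set D} (hS : S.Nonempty) (h : e ≤ sSup S) :
    ∃ d ∈ S, e ≤ d := by
  rcases he with rfl | ⟨a, rfl⟩
  · obtain ⟨d, hd⟩ := hS; exact ⟨d, hd, bot_le⟩
  · have : a ∈ sSup S := h (by simp)
    obtain ⟨d, hd, ha⟩ := LowerSet.mem_sSup_iff.1 this
    exact ⟨d, hd, fun q hq => d.lower (by simpa using hq) ha⟩

theorem Ex_inf {x : D} (hx : x ∈ Ex) {S : Set D} (hS : S.Nonempty) (h : sInf S ≤ x) :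
    ∃ d ∈ S, d ≤ x := by
  rcases hx with rfl | ⟨a, rfl⟩
  · obtain ⟨d, hd⟩ := hS; exact ⟨d, hd, le_top⟩
  · have : a ∉ sInf S := fun ha => by simpa using h ha
    rw [LowerSet.mem_sInf_iff] at this
    push Not at this
    obtain ⟨d, hd, ha⟩ := this
    refine ⟨d, hd, fun q hq => ?_⟩
    by_contra hq'
    exact ha (d.lower (by simpa using hq') hq)

end Pool.Agent.H26.Hig
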