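import Pool.Agent.H26.HigB

set_option autoImplicit false

namespace Pool.Agent.H26.Hig

inductive P : Type
  | bot : P
  | top : P
  | pt : W → D → P

def Rel (v : W) (x : D) (w : W) (y : D) : Prop :=
  (v = w ∧ x ≤ y) ∨ (sys.lvl v + 1 = sys.lvl w ∧ x ≤ sys.J v w ∧ sys.I v w ≤ y) ∨
    sys.lvl v + 2 ≤ sys.lvl w

def P.le : P → P → Prop
  | .bot, _ => True
  | _, .top => True
  | .pt v x, .pt w y => Rel v x w y
  | _, _ => False

theorem Rel.lvl {v w : W} {x y : D} (h : Rel v x w y) : sys.lvl v ≤ sys.lvl w := by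
  rcases h with ⟨rfl, -⟩ | ⟨h, -⟩ | h <;> omega

theorem Rel.same {v w : W} {x y : D} (h : Rel v x w y) (hl : sys.lvl v = sys.lvl w) :
    v = w ∧ x ≤ y := by
  rcases h with h | ⟨h, -⟩ | h
  · exact h
  · omega
  · omega

theorem Rel.next {v w : W} {x y : D} (h : Rel v x w y) (hl : sys.lvl v + 1 = sys.lvl w) :
    x ≤ sys.J v w ∧ sys.I v w ≤ y := by
  rcases h with ⟨rfl, -⟩ | ⟨-, h⟩ | h
  · omega
  · exact h
  · omega

theorem Rel.trans' {u v w : W} {x y z : D} (h : Rel u x v y) (h' : Rel v y w z) : Rel u x w z := by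
  rcases h with ⟨rfl, h⟩ | ⟨h, h1, h2⟩ | h
  · rcases h' with ⟨rfl, h'⟩ | ⟨h', h3, h4⟩ | h'
    · exact Or.inl ⟨rfl, h.trans h'⟩
    · exact Or.inr (Or.inl ⟨h', h.trans h3, h4⟩)
    · exact Or.inr (Or.inr h')
  · rcases h' with ⟨rfl, h'⟩ | ⟨h', h3, h4⟩ | h'
    · exact Or.inr (Or.inl ⟨h, h1, h2.trans h'⟩)
    · exact Or.inr (Or.inr (by omega))
    · exact Or.inr (Or.inr (by omega))
  · have := h'.lvl
    exact Or.inr (Or.inr (by omega))

instance : PartialOrder P where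
  le := P.le
  le_refl a := by
    cases a
    · trivial
    · trivial
    · exact Or.inl ⟨rfl, le_rfl⟩
  le_trans a b c h h' := by
    cases a <;> cases b <;> cases c <;> first | trivial | exact h.elim | exact h'.elim | exact Rel.trans' h h'
  le_antisymm a b h h' := by
    cases a <;> cases b <;> first | rfl | exact h.elim | exact h'.elim | skip
    obtain ⟨rfl, h1⟩ := Rel.same h (le_antisymm (Rel.lvl h) (Rel.lvl h'))
    rw [le_antisymm h1 (Rel.same h' rfl).2]

theorem bot_le' (a : P) : P.bot ≤ a := by cases a <;> trivial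
theorem le_top' (a : P) : a ≤ P.top := by cases a <;> trivial
theorem pt_le {v w : W} {x y : D} : P.pt v x ≤ P.pt w y ↔ Rel v x w y := Iff.rfl
theorem not_top_le {w : W} {y : D} : ¬ P.top ≤ P.pt w y := id
theorem not_le_bot {w : W} {y : D} : ¬ P.pt w y ≤ P.bot := id
theorem not_top_bot : ¬ P.top ≤ P.bot := id

theorem chain_rel {C : Set P} (hC : IsChain (· ≤ ·) C) {v w : W} {x y : D} (h1 : P.pt v x ∈ C)
    (h2 : P.pt w y ∈ C) : Rel v x w y ∨ Rel w y v x := hC.total h1 h2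

theorem reg_sup (C : Set P) (hC : IsChain (· ≤ ·) C) (hne : C.Nonempty) :
    ∃ s, IsLUB C s ∧ ∀ x, x < s → ∃ c ∈ C, x < c := by
  by_cases hmax : ∃ s ∈ C, ∀ c ∈ C, c ≤ s
  · obtain ⟨s, h1, h2⟩ := hmax
    exact ⟨s, ⟨h2, fun u hu => hu h1⟩, fun x hx => ⟨s, h1, hx⟩⟩
  have htop : P.top ∉ C := fun h => hmax ⟨_, h, fun c _ => le_top' c⟩
  have hpt : ∃ n : ℤ, ∃ w d, P.pt w d ∈ C ∧ sys.lvl w = n := by
    by_contra hno
    push Not at hno
    obtain ⟨c, hc⟩ := hne
    refine hmax ⟨c, hc, fun c' hc' => ?_⟩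
    cases c'
    · exact bot_le' c
    · exact absurd hc' htop
    · exact absurd rfl (hno _ _ _ hc')
  by_cases hb : ∃ b : ℤ, ∀ n : ℤ, (∃ w d, P.pt w d ∈ C ∧ sys.lvl w = n) → n ≤ b
  · obtain ⟨n, ⟨w, d0, hd0, hw⟩, hn⟩ := Int.exists_greatest_of_bdd hb hpt
    let S : Set D := {d | P.pt w d ∈ C}
    have hS : S.Nonempty := ⟨d0, hd0⟩
    have hdom : ∀ c ∈ C, ∃ d ∈ S, c ≤ P.pt w d := by
      intro c hc
      cases c with
      | bot => exact ⟨d0, hd0, trivial⟩
      | top => exact absurd hc htop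
      | pt v x =>
        rcases chain_rel hC hc hd0 with h | h
        · exact ⟨d0, hd0, h⟩
        · obtain ⟨rfl, -⟩ := h.same (le_antisymm h.lvl (hw ▸ hn _ ⟨v, x, hc, rfl⟩))
          exact ⟨x, hc, le_rfl⟩
    have hup : ∀ c ∈ C, c ≤ P.pt w (sSup S) := fun c hc => by
      obtain ⟨d, hd, h⟩ := hdom c hc
      exact h.trans (Or.inl ⟨rfl, le_sSup hd⟩)
    have hnot : ∀ d ∈ S, P.pt w d < P.pt w (sSup S) := fun d hd =>
      lt_of_le_of_ne (hup _ hd) fun h => hmax ⟨_, hd, fun c hc => h ▸ hup c hc⟩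
    refine ⟨P.pt w (sSup S), ⟨hup, fun u hu => ?_⟩, fun x hx => ?_⟩
    · cases u with
      | bot => exact (hu hd0).elim
      | top => trivial
      | pt v y =>
        rcases (hu hd0 : Rel w d0 v y) with ⟨rfl, -⟩ | ⟨h, -, h'⟩ | h
        · exact Or.inl ⟨rfl, sSup_le fun d hd => (Rel.same (hu hd) rfl).2⟩
        · exact Or.inr (Or.inl ⟨h, sSup_le fun d hd => (Rel.next (hu hd) h).1, h'⟩)
        · exact Or.inr (Or.inr h)
    · cases x with
      | bot => exact ⟨_, hd0, lt_of_le_of_ne trivial (by simp)⟩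
      | top => exact hx.le.elim
      | pt v z =>
        rcases (hx.le : Rel v z w (sSup S)) with ⟨rfl, h⟩ | ⟨h, h1, h2⟩ | h
        · have : z < sSup S := lt_of_le_of_ne h fun h' => hx.ne (by rw [h'])
          obtain ⟨d, hd, h3⟩ := lt_sSup_iff.1 this
          exact ⟨_, hd, lt_of_le_of_ne (Or.inl ⟨rfl, h3.le⟩) fun h' => h3.ne (by injection h')⟩
        · obtain ⟨d, hd, h3⟩ := En_sup (sys.hI v w) hS h2
          refine ⟨_, hd, lt_of_le_of_ne (Or.inr (Or.inl ⟨h, h1, h3⟩)) fun h' => ?_⟩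
          injection h' with h4; subst h4; omega
        · refine ⟨_, hd0, lt_of_le_of_ne (Or.inr (Or.inr h)) fun h' => ?_⟩
          injection h' with h4; subst h4; omega
  · push Not at hb
    refine ⟨P.top, ⟨fun c _ => le_top' c, fun u hu => ?_⟩, fun x hx => ?_⟩
    · cases u with
      | bot => obtain ⟨n, w, d, h, -⟩ := hpt; exact (hu h).elim
      | top => trivial
      | pt v y =>
        obtain ⟨n, ⟨w, d, h, rfl⟩, h'⟩ := hb (sys.lvl v)
        exact absurd (Rel.lvl (hu h)) (not_le.2 h')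
    · cases x with
      | bot => obtain ⟨n, w, d, h, -⟩ := hpt; exact ⟨_, h, lt_of_le_of_ne trivial (by simp)⟩
      | top => exact absurd hx (lt_irrefl _)
      | pt v z =>
        obtain ⟨n, ⟨w, d, h, rfl⟩, h'⟩ := hb (sys.lvl v + 1)
        refine ⟨_, h, lt_of_le_of_ne (Or.inr (Or.inr (by omega))) fun h' => ?_⟩
        injection h' with h4; subst h4; omega

theorem reg_inf (C : Set P) (hC : IsChain (· ≤ ·) C) (hne : C.Nonempty) :
    ∃ s, IsGLB C s ∧ ∀ x, s < x → ∃ c ∈ C, c < x := by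
  by_cases hmax : ∃ s ∈ C, ∀ c ∈ C, s ≤ c
  · obtain ⟨s, h1, h2⟩ := hmax
    exact ⟨s, ⟨h2, fun u hu => hu h1⟩, fun x hx => ⟨s, h1, hx⟩⟩
  have htop : P.bot ∉ C := fun h => hmax ⟨_, h, fun c _ => bot_le' c⟩
  have hpt : ∃ n : ℤ, ∃ w d, P.pt w d ∈ C ∧ sys.lvl w = n := by
    by_contra hno
    push Not at hno
    obtain ⟨c, hc⟩ := hne
    refine hmax ⟨c, hc, fun c' hc' => ?_⟩
    cases c'
    · exact absurd hc' htop
    · exact le_top' c
    · exact absurd rfl (hno _ _ _ hc')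
  by_cases hb : ∃ b : ℤ, ∀ n : ℤ, (∃ w d, P.pt w d ∈ C ∧ sys.lvl w = n) → b ≤ n
  · obtain ⟨n, ⟨w, d0, hd0, hw⟩, hn⟩ := Int.exists_least_of_bdd hb hpt
    let S : Set D := {d | P.pt w d ∈ C}
    have hS : S.Nonempty := ⟨d0, hd0⟩
    have hdom : ∀ c ∈ C, ∃ d ∈ S, P.pt w d ≤ c := by
      intro c hc
      cases c with
      | top => exact ⟨d0, hd0, trivial⟩
      | bot => exact absurd hc htop
      | pt v x =>
        rcases chain_rel hC hc hd0 with h | h
        · obtain ⟨rfl, -⟩ := h.same (le_antisymm h.lvl (hw ▸ hn _ ⟨v, x, hc, rfl⟩))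
          exact ⟨x, hc, le_rfl⟩
        · exact ⟨d0, hd0, h⟩
    have hup : ∀ c ∈ C, P.pt w (sInf S) ≤ c := fun c hc => by
      obtain ⟨d, hd, h⟩ := hdom c hc
      exact le_trans (show P.pt w (sInf S) ≤ P.pt w d from Or.inl ⟨rfl, sInf_le hd⟩) h
    refine ⟨P.pt w (sInf S), ⟨hup, fun u hu => ?_⟩, fun x hx => ?_⟩
    · cases u with
      | top => exact (hu hd0).elim
      | bot => trivial
      | pt v y =>
        rcases (hu hd0 : Rel v y w d0) with ⟨rfl, -⟩ | ⟨h, h', -⟩ | h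
        · exact Or.inl ⟨rfl, le_sInf fun d hd => (Rel.same (hu hd) rfl).2⟩
        · exact Or.inr (Or.inl ⟨h, h', le_sInf fun d hd => (Rel.next (hu hd) h).2⟩)
        · exact Or.inr (Or.inr h)
    · cases x with
      | top => exact ⟨_, hd0, lt_of_le_of_ne trivial (by simp)⟩
      | bot => exact hx.le.elim
      | pt v z =>
        rcases (hx.le : Rel w (sInf S) v z) with ⟨rfl, h⟩ | ⟨h, h1, h2⟩ | h
        · have : sInf S < z := lt_of_le_of_ne h fun h' => hx.ne (by rw [h'])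
          obtain ⟨d, hd, h3⟩ := sInf_lt_iff.1 this
          exact ⟨_, hd, lt_of_le_of_ne (Or.inl ⟨rfl, h3.le⟩) fun h' => h3.ne (by injection h')⟩
        · obtain ⟨d, hd, h3⟩ := Ex_inf (sys.hJ w v) hS h1
          refine ⟨_, hd, lt_of_le_of_ne (Or.inr (Or.inl ⟨h, h3, h2⟩)) fun h' => ?_⟩
          injection h' with h4; subst h4; omega
        · refine ⟨_, hd0, lt_of_le_of_ne (Or.inr (Or.inr h)) fun h' => ?_⟩
          injection h' with h4; subst h4; omega
  · push Not at hb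
    refine ⟨P.bot, ⟨fun c _ => bot_le' c, fun u hu => ?_⟩, fun x hx => ?_⟩
    · cases u with
      | top => obtain ⟨n, w, d, h, -⟩ := hpt; exact (hu h).elim
      | bot => trivial
      | pt v y =>
        obtain ⟨n, ⟨w, d, h, rfl⟩, h'⟩ := hb (sys.lvl v)
        exact absurd (Rel.lvl (hu h)) (not_le.2 h')
    · cases x with
      | top => obtain ⟨n, w, d, h, -⟩ := hpt; exact ⟨_, h, lt_of_le_of_ne trivial (by simp)⟩
      | bot => exact absurd hx (lt_irrefl _)
      | pt v z =>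
        obtain ⟨n, ⟨w, d, h, rfl⟩, h'⟩ := hb (sys.lvl v - 1)
        refine ⟨_, h, lt_of_le_of_ne (Or.inr (Or.inr (by omega))) fun h' => ?_⟩
        injection h' with h4; subst h4; omega

def pc (p : ℤ → W) : P → Prop
  | .bot => True
  | .top => True
  | .pt w d => w = p (sys.lvl w) ∧ sys.I (p (sys.lvl w - 1)) w ≤ d ∧ d ≤ sys.J w (p (sys.lvl w + 1))

theorem pc_mem {p : ℤ → W} (hp : IsPath sys p) (n : ℤ) {d : D} (h1 : sys.I (p (n - 1)) (p n) ≤ d)
    (h2 : d ≤ sys.J (p n) (p (n + 1))) : pc p (.pt (p n) d) := by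
  simp only [pc, (hp n).1]; exact ⟨trivial, h1, h2⟩

theorem pc_chain {p : ℤ → W} : IsChain (· ≤ ·) {x | pc p x} := by
  have key : ∀ v x w y, pc p (.pt v x) → pc p (.pt w y) → sys.lvl v < sys.lvl w → Rel v x w y := by
    rintro v x w y ⟨h1, h2, h3⟩ ⟨h4, h5, h6⟩ h
    by_cases h' : sys.lvl v + 1 = sys.lvl w
    · refine Or.inr (Or.inl ⟨h', ?_, ?_⟩)
      · rw [h', ← h4] at h3; exact h3
      · rw [← h', add_sub_cancel_right, ← h1] at h5; exact h5
    · exact Or.inr (Or.inr (by omega))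
  intro a ha b hb _
  cases a with
  | bot => exact Or.inl (bot_le' b)
  | top => exact Or.inr (le_top' b)
  | pt v x =>
    cases b with
    | bot => exact Or.inr trivial
    | top => exact Or.inl trivial
    | pt w y =>
      rcases lt_trichotomy (sys.lvl v) (sys.lvl w) with h | h | h
      · exact Or.inl (key _ _ _ _ ha hb h)
      · have : v = w := by rw [ha.1, hb.1, h]
        subst this
        exact (le_total x y).imp (fun h => Or.inl ⟨rfl, h⟩) (fun h => Or.inl ⟨rfl, h⟩)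
      · exact Or.inr (key _ _ _ _ hb ha h)

theorem pc_max {p : ℤ → W} (hp : IsPath sys p) : IsMaxChain (· ≤ ·) {x | pc p x} := by
  refine ⟨pc_chain, fun t ht hsub => Set.Subset.antisymm hsub fun a ha => ?_⟩
  cases a with
  | bot => trivial
  | top => trivial
  | pt w d =>
    have m1 : ∀ n, P.pt (p n) (sys.I (p (n - 1)) (p n)) ∈ t :=
      fun n => hsub (pc_mem hp n le_rfl (hp n).2)
    have h0 : w = p (sys.lvl w) := by
      rcases chain_rel ht ha (m1 (sys.lvl w)) with h | h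
      · exact (h.same (hp _).1.symm).1
      · exact (h.same (hp _).1).1.symm
    refine ⟨h0, ?_, ?_⟩
    · rcases chain_rel ht ha (m1 (sys.lvl w - 1)) with h | h
      · have := h.lvl; rw [(hp _).1] at this; omega
      · exact (h.next (by rw [(hp _).1]; omega)).2
    · rcases chain_rel ht ha (m1 (sys.lvl w + 1)) with h | h
      · exact (h.next (by rw [(hp _).1])).1
      · have := h.lvl; rw [(hp _).1] at this; omega

theorem max_level {M : Set P} (hM : IsMaxChain (· ≤ ·) M) (n : ℤ) :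
    ∃ w d, P.pt w d ∈ M ∧ sys.lvl w = n := by
  by_contra hno
  push Not at hno
  have hsub : ∀ m : ℤ, {w | sys.lvl w = m ∧ ∃ d, P.pt w d ∈ M}.Countable := by
    intro m
    refine Set.Subsingleton.countable ?_
    rintro v ⟨h1, x, hx⟩ w ⟨h2, y, hy⟩
    rcases chain_rel hM.1 hx hy with h | h
    · exact (h.same (h1.trans h2.symm)).1
    · exact (h.same (h2.trans h1.symm)).1.symm
  obtain ⟨w, h1, h2⟩ := (sys.rich n _ ((hsub (n - 1)).union (hsub (n + 1))) (fun _ => ⊤) (fun _ => ⊥)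
    (fun _ => Or.inl rfl) (fun _ => Or.inl rfl)).nonempty
  have hc : IsChain (· ≤ ·) (insert (P.pt w ⊥) M) := by
    refine hM.1.insert fun b hb _ => ?_
    cases b with
    | bot => exact Or.inr trivial
    | top => exact Or.inl trivial
    | pt v x =>
      have := hno v x hb
      by_cases ha : sys.lvl v = n - 1
      · obtain ⟨h3, h4⟩ := (h2 v (Or.inl ⟨ha, x, hb⟩)).1 (by omega)
        exact Or.inr (Or.inr (Or.inl ⟨by omega, h3 ▸ le_top, h4 ▸ le_rfl⟩))
      by_cases hb' : sys.lvl v = n + 1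
      · obtain ⟨h3, h4⟩ := (h2 v (Or.inr ⟨hb', x, hb⟩)).2 hb'
        exact Or.inl (Or.inr (Or.inl ⟨by omega, bot_le, h4 ▸ bot_le⟩))
      rcases lt_or_gt_of_ne this with h | h
      · exact Or.inr (Or.inr (Or.inr (by omega)))
      · exact Or.inl (Or.inr (Or.inr (by omega)))
  have := hM.2 hc (Set.subset_insert _ _)
  exact hno w ⊥ (this ▸ Set.mem_insert _ _) h1

theorem max_path {M : Set P} (hM : IsMaxChain (· ≤ ·) M) : ∃ p, IsPath sys p ∧ M = {x | pc p x} := by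
  choose p d hp hl using max_level hM
  have key : ∀ w x, P.pt w x ∈ M → pc p (.pt w x) := by
    intro w x hx
    refine ⟨?_, ?_, ?_⟩
    · rcases chain_rel hM.1 hx (hp (sys.lvl w)) with h | h
      · exact (h.same (hl _).symm).1
      · exact (h.same (hl _)).1.symm
    · rcases chain_rel hM.1 hx (hp (sys.lvl w - 1)) with h | h
      · have := h.lvl; rw [hl] at this; omega
      · exact (h.next (by rw [hl]; omega)).2
    · rcases chain_rel hM.1 hx (hp (sys.lvl w + 1)) with h | h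
      · exact (h.next (by rw [hl])).1
      · have := h.lvl; rw [hl] at this; omega
  refine ⟨p, fun n => ⟨hl n, ?_⟩, hM.2 pc_chain fun a ha => ?_⟩
  · obtain ⟨-, h1, h2⟩ := key _ _ (hp n)
    rw [hl] at h1 h2
    exact h1.trans h2
  · cases a with
    | bot => trivial
    | top => trivial
    | pt w x => exact key w x ha

theorem min_cut (K : Set P) (h1 : ∀ M, IsMaxChain (· ≤ ·) M → (K ∩ M).Nonempty)
    (h2 : ∀ x ∈ K, ¬ ∀ M, IsMaxChain (· ≤ ·) M → ((K \ {x}) ∩ M).Nonempty) :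
    K.Subsingleton := by
  have priv : ∀ x ∈ K, ∃ p, IsPath sys p ∧ pc p x ∧ ∀ y ∈ K, pc p y → y = x := by
    intro x hx
    have := h2 x hx
    push Not at this
    obtain ⟨M, hM, he⟩ := this
    obtain ⟨p, hp, rfl⟩ := max_path hM
    have h3 : ∀ y ∈ K, pc p y → y = x := by
      intro y hy hy'
      by_contra hne
      have : y ∈ (K \ {x}) ∩ {x | pc p x} := ⟨⟨hy, hne⟩, hy'⟩
      rw [he] at this; exact this
    obtain ⟨y, hy, hy'⟩ := h1 _ hM
    exact ⟨p, hp, h3 y hy hy' ▸ hy', h3⟩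
  by_cases hb : P.bot ∈ K
  · intro x hx y hy
    obtain ⟨p, -, -, h3⟩ := priv x hx
    obtain ⟨q, -, -, h4⟩ := priv y hy
    rw [← h3 _ hb trivial, ← h4 _ hb trivial]
  by_cases ht : P.top ∈ K
  · intro x hx y hy
    obtain ⟨p, -, -, h3⟩ := priv x hx
    obtain ⟨q, -, -, h4⟩ := priv y hy
    rw [← h3 _ ht trivial, ← h4 _ ht trivial]
  exfalso
  obtain ⟨h3, h4⟩ := priv_of sys (fun w => {d | P.pt w d ∈ K}) (by
    intro w k hk
    obtain ⟨p, hp, h3, h4⟩ := priv _ hk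
    refine ⟨p, hp, h3.1.symm, h3.2.1, h3.2.2, fun n d hd h5 h6 => ?_⟩
    have := h4 _ hd (pc_mem hp n h5 h6)
    injection this with h7 h8
    exact ⟨h7, h8⟩)
  obtain ⟨p, hp, hf⟩ := free_path sys _ h3 h4
  obtain ⟨y, hy, hy'⟩ := h1 _ (pc_max hp)
  cases y with
  | bot => exact hb hy
  | top => exact ht hy
  | pt w d =>
    obtain ⟨h5, h6, h7⟩ := hy'
    refine hf (sys.lvl w) d ?_ ?_ ?_ <;> rw [← h5] <;> assumption

theorem has_N : ∃ a b c d : P, a < c ∧ b ⋖ c ∧ b < d ∧ ¬ a ≤ b ∧ ¬ b ≤ a ∧ ¬ a ≤ d ∧ ¬ d ≤ a ∧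
    ¬ c ≤ d ∧ ¬ d ≤ c := by
  obtain ⟨w, h1, h2⟩ := (sys.rich 1 {Wire.base} (Set.countable_singleton _) (fun _ => LowerSet.Iio (0 : ℚ))
    (fun _ => LowerSet.Iic (0 : ℚ)) (fun _ => Or.inr ⟨0, rfl⟩) (fun _ => Or.inr ⟨0, rfl⟩)).nonempty
  have h0 : sys.lvl Wire.base = 0 := rfl
  obtain ⟨hJ, hI⟩ := (h2 _ rfl).1 (by rw [h0]; rfl)
  have hlt : (LowerSet.Iio (0 : ℚ) : D) < LowerSet.Iic (0 : ℚ) := lt_iff.2 ⟨0, LowerSet.mem_Iic_iff.2 le_rfl, fun h => lt_irrefl _ (LowerSet.mem_Iio_iff.1 h)⟩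
  have hne : w ≠ Wire.base := fun h => by rw [h, h0] at h1; omega
  have hl : sys.lvl Wire.base + 1 = sys.lvl w := by rw [h0, h1]; rfl
  refine ⟨.pt w (LowerSet.Iio (0 : ℚ)), .pt Wire.base (LowerSet.Iio (0 : ℚ)), .pt w (LowerSet.Iic (0 : ℚ)),
    .pt Wire.base (LowerSet.Iic (0 : ℚ)), ?_, ⟨?_, ?_⟩, ?_, ?_, ?_, ?_, ?_, ?_, ?_⟩
  · exact lt_of_le_of_ne (Or.inl ⟨rfl, hlt.le⟩) fun h => hlt.ne (by injection h)
  · exact lt_of_le_of_ne (Or.inr (Or.inl ⟨hl, hJ ▸ le_rfl, hI ▸ le_rfl⟩))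
      fun h => hne (by injection h with h; exact h.symm)
  · intro z h3 h4
    cases z with
    | bot => exact h3.le
    | top => exact h4.le
    | pt u y =>
      have a1 := Rel.lvl h3.le
      have a2 := Rel.lvl h4.le
      by_cases hu : sys.lvl u = 0
      · obtain ⟨rfl, h5⟩ := Rel.same h3.le (by omega)
        have h6 := (Rel.next h4.le hl).1
        rw [hJ] at h6
        exact h3.ne (by rw [le_antisymm h5 h6])
      · obtain ⟨rfl, h5⟩ := Rel.same h4.le (by omega)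
        have h6 := (Rel.next h3.le hl).2
        rw [hI] at h6
        exact h4.ne (by rw [le_antisymm h5 h6])
  · exact lt_of_le_of_ne (Or.inl ⟨rfl, hlt.le⟩) fun h => hlt.ne (by injection h)
  · intro h; have := Rel.lvl h; omega
  · intro h; have := (Rel.next h hl).2; rw [hI] at this; exact absurd this (not_le.2 hlt)
  · intro h; have := Rel.lvl h; omega
  · intro h; have := (Rel.next h hl).1; rw [hJ] at this; exact absurd this (not_le.2 hlt)
  · intro h; have := Rel.lvl h; omega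
  · intro h; have := (Rel.next h hl).1; rw [hJ] at this; exact absurd this (not_le.2 hlt)

end Pool.Agent.H26.Hig
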