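import Mathlib

/-! A uniform-like closure operator built from a maximal antichain of subsets that is invariant
under finitary permutations.  It satisfies the IE axioms and conditions (C), (H), but its
restriction to a suitable subset violates (H). -/

namespace Pool.Agent.H26.IEOp

open Set

variable {α : Type*}

/-- finitary permutations -/
def Fty (σ : Equiv.Perm α) : Prop := {x | σ x ≠ x}.Finite

lemma Fty.one : Fty (1 : Equiv.Perm α) := by simp [Fty]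

lemma Fty.mul {σ τ : Equiv.Perm α} (h : Fty σ) (h' : Fty τ) : Fty (σ * τ) := by
  refine (h.union h').subset ?_
  intro x hx
  by_contra hc
  simp only [mem_union, mem_ofPred_eq, not_or, not_not] at hc
  apply hx
  simp [hc.1, hc.2]

lemma Fty.inv {σ : Equiv.Perm α} (h : Fty σ) : Fty σ⁻¹ := by
  refine h.subset ?_
  intro x hx hc
  apply hx
  rw [Equiv.Perm.inv_eq_iff_eq, hc]

lemma Fty.swap [DecidableEq α] (a b : α) : Fty (Equiv.swap a b) := by
  refine (Set.toFinite {a, b}).subset ?_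
  intro x hx
  by_contra hc
  simp only [mem_insert_iff, mem_singleton_iff, not_or] at hc
  exact hx (Equiv.swap_apply_of_ne_of_ne hc.1 hc.2)

lemma eq_of_subset_image {σ : Equiv.Perm α} (h : Fty σ) {Y : Set α} (hY : Y ⊆ σ '' Y) :
    σ '' Y = Y := by
  set S := {x | σ x ≠ x} with hS
  have h1 : Y ∩ S ⊆ σ '' (Y ∩ S) := by
    rintro y ⟨hy, hyS⟩
    obtain ⟨z, hz, rfl⟩ := hY hy
    refine ⟨z, ⟨hz, ?_⟩, rfl⟩
    intro hc
    apply hyS
    rw [hc, hc]
  have hfin : (Y ∩ S).Finite := h.subset inter_subset_right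
  have h2 : Y ∩ S = σ '' (Y ∩ S) := by
    refine Set.eq_of_subset_of_ncard_le h1 ?_ (hfin.image _)
    exact (Set.ncard_image_of_injective _ σ.injective).le
  apply Subset.antisymm _ hY
  rintro _ ⟨z, hz, rfl⟩
  by_cases hzS : z ∈ S
  · have : σ z ∈ Y ∩ S := by rw [h2]; exact ⟨z, ⟨hz, hzS⟩, rfl⟩
    exact this.1
  · have : σ z = z := by simpa [hS] using hzS
    rw [this]; exact hz

lemma diff_finite {σ τ : Equiv.Perm α} (hσ : Fty σ) (hτ : Fty τ) {X Y : Set α}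
    (h : σ '' X ⊆ τ '' Y) : (X \ Y).Finite := by
  refine (hσ.union hτ).subset ?_
  rintro x ⟨hx, hxY⟩
  by_contra hc
  simp only [mem_union, mem_ofPred_eq, not_or, not_not] at hc
  obtain ⟨y, hy, hyx⟩ := h ⟨x, hx, rfl⟩
  rw [hc.1, ← hc.2] at hyx
  exact hxY (τ.injective hyx ▸ hy)

/-- an antichain of sets invariant under finitary permutations -/
def Good (𝓑 : Set (Set α)) : Prop :=
  (∀ B ∈ 𝓑, ∀ B' ∈ 𝓑, B ⊆ B' → B = B') ∧ (∀ B ∈ 𝓑, ∀ σ, Fty σ → σ '' B ∈ 𝓑)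

lemma exists_max (𝓑₀ : Set (Set α)) (h₀ : Good 𝓑₀) :
    ∃ 𝓑, 𝓑₀ ⊆ 𝓑 ∧ Good 𝓑 ∧ ∀ X, ∃ B ∈ 𝓑, B ⊆ X ∨ X ⊆ B := by
  obtain ⟨𝓑, h1, h2⟩ := zorn_subset_nonempty {𝓑 : Set (Set α) | Good 𝓑} (by
    intro c hc hch _
    refine ⟨⋃₀ c, ⟨?_, ?_⟩, fun s hs => subset_sUnion_of_mem hs⟩
    · rintro B ⟨s, hs, hB⟩ B' ⟨t, ht, hB'⟩ hBB'
      rcases hch.total hs ht with h | h
      · exact (hc ht).1 B (h hB) B' hB' hBB'
      · exact (hc hs).1 B hB B' (h hB') hBB'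
    · rintro B ⟨s, hs, hB⟩ σ hσ
      exact ⟨s, hs, (hc hs).2 B hB σ hσ⟩) 𝓑₀ h₀
  refine ⟨𝓑, h1, h2.prop, ?_⟩
  intro X
  by_contra hX
  push Not at hX
  have hg : Good (𝓑 ∪ {Y | ∃ σ, Fty σ ∧ Y = σ '' X}) := by
    constructor
    · rintro B (hB | ⟨σ, hσ, rfl⟩) B' (hB' | ⟨τ, hτ, rfl⟩) hBB'
      · exact h2.prop.1 B hB B' hB' hBB'
      · exfalso
        refine (hX _ (h2.prop.2 B hB τ⁻¹ hτ.inv)).1 ?_
        rintro _ ⟨b, hb, rfl⟩
        obtain ⟨x, hx, rfl⟩ := hBB' hb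
        simpa using hx
      · exfalso
        refine (hX _ (h2.prop.2 B' hB' σ⁻¹ hσ.inv)).2 ?_
        intro x hx
        exact ⟨σ x, hBB' ⟨x, hx, rfl⟩, by simp⟩
      · have h3 : σ '' X ⊆ (τ * σ⁻¹) '' (σ '' X) := by
          rw [← image_comp]
          simpa [Function.comp_def] using hBB'
        have h4 := eq_of_subset_image (hτ.mul hσ.inv) h3
        rw [← h4, ← image_comp]
        simp [Function.comp_def]
    · rintro B (hB | ⟨σ, hσ, rfl⟩) τ hτ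
      · exact Or.inl (h2.prop.2 B hB τ hτ)
      · refine Or.inr ⟨τ * σ, hτ.mul hσ, ?_⟩
        rw [← image_comp]; rfl
  have h5 := h2.2 hg subset_union_left
  have hXm : X ∈ 𝓑 := h5 (Or.inr ⟨1, Fty.one, by simp⟩)
  exact (hX X hXm).1 subset_rfl

lemma Good.exch {𝓑 : Set (Set α)} (h : Good 𝓑) {B : Set α} (hB : B ∈ 𝓑) {a q : α}
    (ha : a ∈ B) (hq : q ∉ B) : insert q (B \ {a}) ∈ 𝓑 := by
  classical
  have := h.2 B hB _ (Fty.swap a q)
  convert this using 1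
  ext x
  simp only [mem_insert_iff, mem_sdiff, mem_singleton_iff, mem_image]
  constructor
  · rintro (rfl | ⟨hx, hxa⟩)
    · exact ⟨a, ha, by simp⟩
    · exact ⟨x, hx, Equiv.swap_apply_of_ne_of_ne hxa (fun hc => hq (hc ▸ hx))⟩
  · rintro ⟨y, hy, rfl⟩
    by_cases hya : y = a
    · left; simp [hya]
    · right
      have : Equiv.swap a q y = y :=
        Equiv.swap_apply_of_ne_of_ne hya (fun hc => hq (hc ▸ hy))
      rw [this]; exact ⟨hy, hya⟩

/-- the operator: everything if the set contains a member of the family, otherwise the set. -/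
def op (𝓑 : Set (Set α)) (A : Set α) : Set α := {x | x ∈ A ∨ ∃ B ∈ 𝓑, B ⊆ A}

lemma op_span {𝓑 : Set (Set α)} {A : Set α} (h : ∃ B ∈ 𝓑, B ⊆ A) : op 𝓑 A = univ := by
  ext x; simp only [op, mem_ofPred_eq, mem_univ, iff_true]; exact Or.inr h

lemma op_nspan {𝓑 : Set (Set α)} {A : Set α} (h : ¬ ∃ B ∈ 𝓑, B ⊆ A) : op 𝓑 A = A := by
  ext x; simp only [op, mem_ofPred_eq]; exact or_iff_left h

lemma op_ext (𝓑 : Set (Set α)) (A : Set α) : A ⊆ op 𝓑 A := fun _ hx => Or.inl hx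

lemma op_mono (𝓑 : Set (Set α)) {A A' : Set α} (h : A ⊆ A') : op 𝓑 A ⊆ op 𝓑 A' := by
  rintro x (hx | ⟨B, hB, hBA⟩)
  · exact Or.inl (h hx)
  · exact Or.inr ⟨B, hB, hBA.trans h⟩

lemma op_idem (𝓑 : Set (Set α)) (A : Set α) : op 𝓑 (op 𝓑 A) = op 𝓑 A := by
  by_cases h : ∃ B ∈ 𝓑, B ⊆ A
  · rw [op_span h]
    obtain ⟨B, hB, -⟩ := h
    exact op_span ⟨B, hB, subset_univ _⟩
  · rw [op_nspan h, op_nspan h]

lemma op_cl4 {𝓑 : Set (Set α)} (hg : Good 𝓑) (X Y : Set α) (p : α) (hp : p ∈ op 𝓑 Y)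
    (hp' : p ∉ op 𝓑 (Y \ X)) : ∃ x ∈ X, x ∈ op 𝓑 (insert p (Y \ {x})) := by
  simp only [op, mem_ofPred_eq, not_or] at hp hp'
  by_cases hpY : p ∈ Y
  · have hpX : p ∈ X := by
      by_contra hc
      exact hp'.1 ⟨hpY, hc⟩
    exact ⟨p, hpX, Or.inl (mem_insert _ _)⟩
  · obtain ⟨B, hB, hBY⟩ := hp.resolve_left hpY
    have : ∃ a ∈ B, a ∈ X := by
      by_contra hc
      push Not at hc
      exact hp'.2 ⟨B, hB, fun b hb => ⟨hBY hb, hc b hb⟩⟩
    obtain ⟨a, haB, haX⟩ := this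
    refine ⟨a, haX, Or.inr ⟨_, hg.exch hB haB (fun hc => hpY (hBY hc)), ?_⟩⟩
    exact insert_subset_insert (sdiff_subset_sdiff_left hBY)

lemma op_C {𝓑 : Set (Set α)} (hg : Good 𝓑) (h0 : ∅ ∉ 𝓑) (Y : Set α) (p : α)
    (hp : p ∈ op 𝓑 Y) : ∃ U : Set α,
      Minimal (fun W : Set α => W ⊆ Y ∧ p ∈ op 𝓑 W) U ∧ ∀ x ∈ U, x ∉ op 𝓑 (U \ {x}) := by
  have he : op 𝓑 (∅ : Set α) = ∅ := op_nspan (by
    rintro ⟨B, hB, hB0⟩
    exact h0 (subset_empty_iff.1 hB0 ▸ hB))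
  by_cases hpY : p ∈ Y
  · refine ⟨{p}, ⟨⟨singleton_subset_iff.2 hpY, Or.inl rfl⟩, ?_⟩, ?_⟩
    · rintro W ⟨-, hW⟩ hWp
      rcases subset_singleton_iff_eq.1 hWp with rfl | rfl
      · rw [he] at hW; exact hW.elim
      · exact le_rfl
    · rintro x rfl
      simp [he]
  · obtain ⟨B, hB, hBY⟩ := hp.resolve_left hpY
    refine ⟨B, ⟨⟨hBY, Or.inr ⟨B, hB, subset_rfl⟩⟩, ?_⟩, ?_⟩
    · rintro W ⟨hWY, hW⟩ hWB
      obtain ⟨B', hB', hB'W⟩ := hW.resolve_left (fun hc => hpY (hWY hc))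
      have := hg.1 B' hB' B hB (hB'W.trans hWB)
      rw [← this]; exact hB'W
    · rintro x hx (hc | ⟨B', hB', hB'B⟩)
      · exact hc.2 rfl
      · have := hg.1 B' hB' B hB (hB'B.trans sdiff_subset)
        rw [this] at hB'B
        exact (hB'B hx).2 rfl

lemma op_H {𝓑 : Set (Set α)} (hg : Good 𝓑) (hc : ∀ X, ∃ B ∈ 𝓑, B ⊆ X ∨ X ⊆ B)
    (Y : Set α) (p : α) (hp : p ∉ op 𝓑 Y) : ∃ V : Set α,
      Maximal (fun W : Set α => Y ⊆ W ∧ p ∉ op 𝓑 W) V ∧ op 𝓑 (insert p V) = univ := by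
  simp only [op, mem_ofPred_eq, not_or] at hp
  have key : ∃ B ∈ 𝓑, Y ⊆ B ∧ p ∈ B := by
    obtain ⟨B, hB, h | h⟩ := hc Y
    · exact (hp.2 ⟨B, hB, h⟩).elim
    · by_cases hpB : p ∈ B
      · exact ⟨B, hB, h, hpB⟩
      · have : ∃ a ∈ B, a ∉ Y := by
          by_contra hh
          push Not at hh
          exact hp.2 ⟨B, hB, hh⟩
        obtain ⟨a, haB, haY⟩ := this
        refine ⟨_, hg.exch hB haB hpB, ?_, mem_insert _ _⟩
        intro y hy
        exact Or.inr ⟨h hy, fun hc => haY (hc ▸ hy)⟩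
  obtain ⟨B, hB, hYB, hpB⟩ := key
  refine ⟨B \ {p}, ⟨⟨fun y hy => ⟨hYB hy, fun hc => hp.1 (hc ▸ hy)⟩, ?_⟩, ?_⟩, ?_⟩
  · rintro (hc | ⟨B', hB', hB'B⟩)
    · exact hc.2 rfl
    · have := hg.1 B' hB' B hB (hB'B.trans sdiff_subset)
      rw [this] at hB'B
      exact (hB'B hpB).2 rfl
  · rintro W ⟨-, hW⟩ hBW x hx
    simp only [op, mem_ofPred_eq, not_or] at hW
    by_contra hxB
    have hxp : x ≠ p := fun hc => hW.1 (hc ▸ hx)
    have hxB' : x ∉ B := fun hc => hxB ⟨hc, hxp⟩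
    refine hW.2 ⟨_, hg.exch hB hpB hxB', ?_⟩
    exact insert_subset hx hBW
  · exact op_span ⟨B, hB, by rw [insert_sdiff_singleton]; exact subset_insert _ _⟩

/-- ground type: the left part `J`, the middle part `M`, the right part `K` -/
abbrev Gd : Type := (Set ℕ × ℕ) ⊕ ℕ ⊕ ℕ

def J : Set Gd := range Sum.inl
def mid (n : ℕ) : Gd := Sum.inr (Sum.inl n)
def rt (n : ℕ) : Gd := Sum.inr (Sum.inr n)
def U1 : Set Gd := J ∪ range rt
def U2 (Y : Set ℕ) : Set Gd := (Sum.inl '' {z | z.1 ≠ Y}) ∪ mid '' Y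

lemma mid_inj : Function.Injective mid := fun a b h => by simpa [mid] using h
lemma rt_inj : Function.Injective rt := fun a b h => by simpa [rt] using h

def B0 : Set (Set Gd) :=
  {B | ∃ σ, Fty σ ∧ (B = σ '' U1 ∨ ∃ Y : Set ℕ, Y.Infinite ∧ B = σ '' U2 Y)}

lemma same_orbit {σ τ : Equiv.Perm α} (hσ : Fty σ) (hτ : Fty τ) {X : Set α}
    (h : σ '' X ⊆ τ '' X) : σ '' X = τ '' X := by
  have h3 : σ '' X ⊆ (τ * σ⁻¹) '' (σ '' X) := by
    rw [← image_comp]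
    simpa [Function.comp_def] using h
  have h4 := eq_of_subset_image (hτ.mul hσ.inv) h3
  rw [← h4, ← image_comp]
  simp [Function.comp_def]

lemma good_B0 : Good B0 := by
  constructor
  · rintro B ⟨σ, hσ, rfl | ⟨Y, hY, rfl⟩⟩ B' ⟨τ, hτ, rfl | ⟨Y', hY', rfl⟩⟩ h
    · exact same_orbit hσ hτ h
    · exfalso
      refine (infinite_range_of_injective rt_inj) ((diff_finite hσ hτ h).subset ?_)
      rintro _ ⟨n, rfl⟩
      refine ⟨Or.inr ⟨n, rfl⟩, ?_⟩
      simp [U2, rt, mid]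
    · exfalso
      refine (hY.image mid_inj.injOn) ((diff_finite hσ hτ h).subset ?_)
      rintro _ ⟨n, hn, rfl⟩
      refine ⟨Or.inr ⟨n, hn, rfl⟩, ?_⟩
      simp [U1, J, rt, mid]
    · by_cases hYY : Y = Y'
      · subst hYY
        exact same_orbit hσ hτ h
      · exfalso
        have hi : Function.Injective (fun n : ℕ => (Sum.inl (Y', n) : Gd)) := by
          intro a b hab
          simpa using hab
        refine (infinite_range_of_injective hi) ((diff_finite hσ hτ h).subset ?_)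
        rintro _ ⟨n, rfl⟩
        refine ⟨Or.inl ⟨(Y', n), fun hc => hYY hc.symm, rfl⟩, ?_⟩
        simp [U2, mid]
  · rintro B ⟨σ, hσ, h⟩ τ hτ
    refine ⟨τ * σ, hτ.mul hσ, ?_⟩
    rcases h with rfl | ⟨Y, hY, rfl⟩
    · left; rw [← image_comp]; rfl
    · right; refine ⟨Y, hY, ?_⟩; rw [← image_comp]; rfl

theorem exists_family : ∃ 𝓑 : Set (Set Gd), Good 𝓑 ∧ ∅ ∉ 𝓑 ∧
    (∀ X, ∃ B ∈ 𝓑, B ⊆ X ∨ X ⊆ B) ∧
    ∀ Y : Set ℕ, (∃ B ∈ 𝓑, B ⊆ J ∪ mid '' Y) ↔ Y.Infinite := by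
  obtain ⟨𝓑, h0, hg, hc⟩ := exists_max B0 good_B0
  have hU1 : U1 ∈ 𝓑 := h0 ⟨1, Fty.one, Or.inl (by simp)⟩
  refine ⟨𝓑, hg, ?_, hc, ?_⟩
  · intro he
    have := hg.1 _ he _ hU1 (empty_subset _)
    have h2 : rt 0 ∈ U1 := Or.inr ⟨0, rfl⟩
    rw [← this] at h2
    exact h2
  · intro Y
    constructor
    · rintro ⟨B, hB, hBY⟩ hY
      have key : ∃ B1 ∈ 𝓑, J ∪ mid '' Y ⊆ B1 ∧ {n | rt n ∉ B1}.Finite := by
        clear hBY
        induction Y, hY using Set.Finite.induction_on with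
        | empty =>
          refine ⟨U1, hU1, by simp [U1], ?_⟩
          convert Set.finite_empty
          ext n
          simp [U1]
        | @insert y Y _ _ ih =>
          obtain ⟨B1, hB1, h1, h2⟩ := ih
          by_cases hy : mid y ∈ B1
          · refine ⟨B1, hB1, ?_, h2⟩
            rw [image_insert_eq, union_insert]
            exact insert_subset hy h1
          · obtain ⟨k, hk⟩ := h2.infinite_compl.nonempty
            simp only [mem_compl_iff, mem_ofPred_eq, not_not] at hk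
            refine ⟨_, hg.exch hB1 hk hy, ?_, ?_⟩
            · rw [image_insert_eq, union_insert]
              refine insert_subset_insert ?_
              intro x hx
              refine ⟨h1 hx, ?_⟩
              rintro rfl
              simp [J, rt, mid] at hx
            · refine (h2.insert k).subset ?_
              intro n hn
              by_contra hc'
              simp only [mem_insert_iff, mem_ofPred_eq, not_or, not_not] at hc'
              exact hn (Or.inr ⟨hc'.2, fun h => hc'.1 (rt_inj h)⟩)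
      obtain ⟨B1, hB1, h1, h2⟩ := key
      have := hg.1 B hB B1 hB1 (hBY.trans h1)
      obtain ⟨k, hk⟩ := h2.infinite_compl.nonempty
      simp only [mem_compl_iff, mem_ofPred_eq, not_not] at hk
      rw [← this] at hk
      have := hBY hk
      simp [J, rt, mid] at this
    · intro hY
      refine ⟨U2 Y, h0 ⟨1, Fty.one, Or.inr ⟨Y, hY, by simp⟩⟩, ?_⟩
      exact union_subset_union_left _ (image_subset_range _ _)

/-- sets between `J` and `J ∪ M` -/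
lemma between {V : Set Gd} (h1 : J ⊆ V) (h2 : V ⊆ J ∪ range mid) :
    V = J ∪ mid '' {n | mid n ∈ V} := by
  apply Subset.antisymm
  · intro x hx
    rcases h2 hx with h | ⟨n, rfl⟩
    · exact Or.inl h
    · exact Or.inr ⟨n, hx, rfl⟩
  · rintro x (h | ⟨n, hn, rfl⟩)
    · exact h1 h
    · exact hn

lemma mid_not_J (n : ℕ) : mid n ∉ J := by simp [J, mid]

end Pool.Agent.H26.IEOp
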