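import Mathlib
import Pool.Agent.H26.ErdosRado

/-! Antichains of ideals in a poset without large antichains. -/

namespace Pool.Agent.H26.IdealAnti

open Cardinal Set

universe u

variable {P : Type u} [PartialOrder P] {κ : Cardinal.{u}}

lemma exists_max_anti {I : Type u} (a : I → P) (T : Set I) :
    ∃ A ⊆ T, IsAntichain (fun i j => a i ≤ a j) A ∧
      ∀ i ∈ T, ∃ j ∈ A, a i ≤ a j ∨ a j ≤ a i := by
  obtain ⟨A, hA⟩ := zorn_subset {A | A ⊆ T ∧ IsAntichain (fun i j => a i ≤ a j) A} (by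
    intro c hc hch
    refine ⟨⋃₀ c, ⟨sUnion_subset fun s hs => (hc hs).1, ?_⟩, fun s hs => subset_sUnion_of_mem hs⟩
    rintro i ⟨s, hs, hi⟩ j ⟨t, ht, hj⟩ hij
    rcases hch.total hs ht with h | h
    · exact (hc ht).2 (h hi) hj hij
    · exact (hc hs).2 hi (h hj) hij)
  refine ⟨A, hA.prop.1, hA.prop.2, fun i hi => ?_⟩
  by_contra hn
  push Not at hn
  have h1 : insert i A ⊆ T ∧ IsAntichain (fun i j => a i ≤ a j) (insert i A) :=
    ⟨insert_subset hi hA.prop.1,
      hA.prop.2.insert (fun j hj _ => (hn j hj).2) (fun j hj _ => (hn j hj).1)⟩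
  have h2 := hA.le_of_ge h1 (subset_insert _ _)
  exact (hn i (h2 (mem_insert _ _))).1 le_rfl

/-- no bad sequence of length kappa in a well-founded part -/
lemma no_bad (hκ : κ.IsRegular) (hP : ∀ A : Set P, IsAntichain (· ≤ ·) A → #A < κ)
    (W : P → P → Prop) (hW : WellFounded W) (a : κ.ord.ToType → P)
    (ha : ∀ i j, a i < a j → W (a i) (a j)) (hbad : ∀ i j, j < i → ¬ a j ≤ a i) : False := by
  have hinj : Function.Injective a := by
    intro i j e
    rcases lt_trichotomy i j with h | h | h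
    · exact (hbad j i h e.le).elim
    · exact h
    · exact (hbad i j h e.ge).elim
  have step : ∀ T : Set κ.ord.ToType, κ ≤ #T → ∃ j ∈ T, κ ≤ #{i | a i ≤ a j} := by
    intro T hT
    obtain ⟨A, hAT, hA, hmax⟩ := exists_max_anti a T
    have hAc : #A < κ := by
      have h1 : IsAntichain (· ≤ ·) (a '' A) := by
        rintro _ ⟨i, hi, rfl⟩ _ ⟨j, hj, rfl⟩ hne
        exact hA hi hj (fun e => hne (congrArg a e))
      have := hP _ h1
      rwa [Cardinal.mk_image_eq hinj] at this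
    by_contra hn
    push Not at hn
    have h2 : #(⋃ j ∈ A, ({i | a i ≤ a j} ∪ Iio j : Set _)) < κ := by
      rw [Cardinal.card_biUnion_lt_iff_forall_of_isRegular (t := fun j _ => {i | a i ≤ a j} ∪ Iio j)
        hκ hAc]
      intro j hj
      exact (Cardinal.mk_union_le _ _).trans_lt
        (Cardinal.add_lt_of_lt hκ.aleph0_le (hn j (hAT hj)) (ErdosRado.mk_Iio_lt j))
    refine h2.not_ge (hT.trans (Cardinal.mk_le_mk_of_subset fun i hi => ?_))
    obtain ⟨j, hj, h⟩ := hmax i hi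
    refine mem_biUnion hj ?_
    rcases h with h | h
    · exact Or.inl h
    · rcases lt_trichotomy i j with h' | h' | h'
      · exact Or.inr h'
      · exact Or.inl (by subst h'; exact le_rfl)
      · exact (hbad i j h' h).elim
  obtain ⟨j0, -, hj0⟩ := step univ (by rw [Cardinal.mk_univ, Cardinal.mk_ord_toType])
  obtain ⟨_, ⟨j, hj, rfl⟩, hmin⟩ := hW.has_min (a '' {j | κ ≤ #{i | a i ≤ a j}}) ⟨_, j0, hj0, rfl⟩
  have hT : κ ≤ #({i | a i ≤ a j} \ {j} : Set _) := by
    by_contra hn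
    push Not at hn
    have : #{i | a i ≤ a j} < κ := by
      refine (Cardinal.mk_le_mk_of_subset (t := ({i | a i ≤ a j} \ {j}) ∪ {j}) ?_).trans_lt ?_
      · intro i hi
        by_cases h : i = j
        · exact Or.inr h
        · exact Or.inl ⟨hi, h⟩
      · refine (Cardinal.mk_union_le _ _).trans_lt (Cardinal.add_lt_of_lt hκ.aleph0_le hn ?_)
        rw [Cardinal.mk_singleton]
        exact Cardinal.one_lt_aleph0.trans_le hκ.aleph0_le
    exact this.not_ge hj
  obtain ⟨j', ⟨h1, h2⟩, h3⟩ := step _ hT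
  exact hmin _ ⟨j', h3, rfl⟩ (ha _ _ (lt_of_le_of_ne h1 fun e => h2 (hinj e)))

/-- an ideal is cofinally covered by few classes, in which kappa many points are bounded -/
lemma colouring (hκ : κ.IsRegular) (hP : ∀ A : Set P, IsAntichain (· ≤ ·) A → #A < κ)
    (J : Order.Ideal P) :
    ∃ (Q : Set P) (col : P → Σ i : κ.ord.ToType, (Iio i → κ.ord.ToType)),
      (∀ x ∈ J, ∃ y ∈ Q, x ≤ y) ∧
      ∀ d (e : κ.ord.ToType → P) (S : Set κ.ord.ToType), (∀ t ∈ S, e t ∈ Q ∧ col (e t) = d) →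
        ∃ u ∈ J, ∀ t ∈ S, e t ≤ u := by
  classical
  have hI : Nonempty κ.ord.ToType := by
    rw [← Cardinal.mk_ne_zero_iff, Cardinal.mk_ord_toType]; exact hκ.pos.ne'
  have hPne : Nonempty P := ⟨J.nonempty.choose⟩
  let W : P → P → Prop := WellOrderingRel
  have hW : WellFounded W := (WellOrderingRel.isWellOrder (α := P)).wf
  let Q : Set P := {x | x ∈ J ∧ ∀ y ∈ J, W y x → ¬ x ≤ y}
  have hQ : ∀ x ∈ Q, ∀ y ∈ Q, x < y → W x y := by
    intro x hx y hy h
    rcases trichotomous_of W x y with h' | h' | h'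
    · exact h'
    · exact (h.ne h').elim
    · exact (hx.2 y hy.1 h' h.le).elim
  let PB : Set P → Set P := fun B => {x | x ∈ Q ∧ ∀ b ∈ B, ¬ b ≤ x}
  let Ub : Set P → Prop := fun B =>
    ∃ e : κ.ord.ToType → P, (∀ t, e t ∈ PB B) ∧ ∀ u ∈ J, ∃ t, ¬ e t ≤ u
  let E : Set P → κ.ord.ToType → P := fun B =>
    if h : Ub B then h.choose else fun _ => Classical.arbitrary P
  have hE : ∀ B, Ub B → (∀ t, E B t ∈ PB B) ∧ ∀ u ∈ J, ∃ t, ¬ E B t ≤ u := fun B h => by
    simp only [E, dif_pos h]; exact h.choose_spec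
  let pk : Set P → P → κ.ord.ToType := fun B x =>
    if h : ∃ t, ¬ E B t ≤ x then h.choose else Classical.arbitrary _
  have hpk : ∀ B x, (∃ t, ¬ E B t ≤ x) → ¬ E B (pk B x) ≤ x := fun B x h => by
    simp only [pk, dif_pos h]; exact h.choose_spec
  let b : P → κ.ord.ToType → P := fun x => (wellFounded_lt (α := κ.ord.ToType)).fix fun i ih =>
    E {y | ∃ j, ∃ h : j < i, ih j h = y} (pk {y | ∃ j, ∃ h : j < i, ih j h = y} x)
  let B : P → κ.ord.ToType → Set P := fun x i => {y | ∃ j, ∃ _ : j < i, b x j = y}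
  have hb : ∀ x i, b x i = E (B x i) (pk (B x i) x) :=
    fun x i => (wellFounded_lt (α := κ.ord.ToType)).fix_eq _ i
  have hstop : ∀ x, ∃ i, ¬ Ub (B x i) := by
    intro x
    by_contra hn
    push Not at hn
    have h1 : ∀ i, b x i ∈ PB (B x i) := fun i => by
      have := (hE _ (hn i)).1 (pk (B x i) x)
      rwa [← hb] at this
    exact no_bad hκ hP W hW (b x) (fun i j h => hQ _ (h1 i).1 _ (h1 j).1 h)
      fun i j h => (h1 i).2 _ ⟨j, h, rfl⟩
  let ix : P → κ.ord.ToType := fun x => wellFounded_lt.min {i | ¬ Ub (B x i)} (hstop x)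
  have hix : ∀ x, ¬ Ub (B x (ix x)) := fun x => wellFounded_lt.min_mem {i | ¬ Ub (B x i)} (hstop x)
  have hix2 : ∀ x j, j < ix x → Ub (B x j) := fun x j h => by
    by_contra hn
    exact wellFounded_lt.not_lt_min {i | ¬ Ub (B x i)} hn h
  have hin : ∀ x ∈ Q, x ∈ PB (B x (ix x)) := by
    intro x hx
    refine ⟨hx, ?_⟩
    rintro _ ⟨j, hj, rfl⟩
    rw [hb]
    exact hpk _ _ ((hE _ (hix2 x j hj)).2 x hx.1)
  let col : P → Σ i : κ.ord.ToType, (Iio i → κ.ord.ToType) :=
    fun x => ⟨ix x, fun j => pk (B x j) x⟩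
  have hcol : ∀ x x', col x = col x' → B x (ix x) = B x' (ix x') := by
    intro x x' e
    have e1 : ix x = ix x' := congrArg Sigma.fst e
    have e2 : ∀ j, j < ix x → pk (B x j) x = pk (B x' j) x' := by
      intro j hj
      have key : ∀ (s t : Σ i : κ.ord.ToType, (Iio i → κ.ord.ToType)), s = t →
          ∀ (h : j < s.1) (h' : j < t.1), s.2 ⟨j, h⟩ = t.2 ⟨j, h'⟩ := by
        rintro s t rfl h h'; rfl
      exact key _ _ e hj (lt_of_lt_of_eq hj e1)
    have e3 : ∀ j, j ≤ ix x → B x j = B x' j := by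
      intro j
      induction j using WellFoundedLT.induction with
      | ind j ih =>
        intro hj
        have : ∀ l, l < j → b x l = b x' l := fun l hl => by
          rw [hb, hb, e2 l (hl.trans_le hj), ih l hl (hl.le.trans hj)]
        ext y
        constructor
        · rintro ⟨l, hl, rfl⟩; exact ⟨l, hl, (this l hl).symm⟩
        · rintro ⟨l, hl, rfl⟩; exact ⟨l, hl, this l hl⟩
    rw [e3 _ le_rfl, e1]
  refine ⟨Q, col, fun x hx => ?_, fun d e S hS => ?_⟩
  · obtain ⟨y, ⟨hy1, hy2⟩, hmin⟩ := hW.has_min {y | y ∈ J ∧ x ≤ y} ⟨x, hx, le_rfl⟩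
    exact ⟨y, ⟨hy1, fun z hz hzy hyz => hmin z ⟨hz, hy2.trans hyz⟩ hzy⟩, hy2⟩
  · rcases S.eq_empty_or_nonempty with rfl | ⟨t0, ht0⟩
    · exact ⟨_, J.nonempty.choose_spec, fun t ht => ht.elim⟩
    · have h1 := hix (e t0)
      simp only [Ub, not_exists, not_and, not_forall, not_not] at h1
      have h2 : ∀ t ∈ S, e t ∈ PB (B (e t0) (ix (e t0))) := fun t ht => by
        rw [← hcol (e t) (e t0) ((hS t ht).2.trans (hS t0 ht0).2.symm)]
        exact hin _ (hS t ht).1
      obtain ⟨u, hu, h3⟩ := h1 (fun t => if t ∈ S then e t else e t0) (fun t => by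
        by_cases h : t ∈ S
        · simp only [if_pos h]; exact h2 t h
        · simp only [if_neg h]; exact h2 t0 ht0)
      refine ⟨u, hu, fun t ht => ?_⟩
      have := h3 t
      rwa [if_pos ht] at this

theorem core {ν : Cardinal.{u}} (hκ : κ.IsRegular) (hκν : κ ≤ ν) (hpow : ∀ θ < κ, κ ^ θ ≤ ν)
    (hP : ∀ A : Set P, IsAntichain (· ≤ ·) A → #A < κ)
    (𝒜 : Set (Order.Ideal P)) (h𝒜 : IsAntichain (· ≤ ·) 𝒜) : #𝒜 ≤ 2 ^ ν := by
  classical
  by_contra hn
  push Not at hn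
  have hν : ℵ₀ ≤ ν := hκ.aleph0_le.trans hκν
  choose Q col hcof hbd using fun J : Order.Ideal P => colouring hκ hP J
  have hPne : Nonempty P := by
    have : Nonempty 𝒜 := by
      rw [← Cardinal.mk_ne_zero_iff]; exact (lt_of_le_of_lt bot_le hn).ne'
    obtain ⟨J, -⟩ := this
    exact ⟨J.nonempty.choose⟩
  have hw : ∀ J K : 𝒜, ∃ w : P, J ≠ K → w ∈ Q J ∧ w ∉ (K : Order.Ideal P) := by
    intro J K
    by_cases h : J = K
    · exact ⟨Classical.arbitrary P, fun h' => (h' h).elim⟩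
    · have h1 : ¬ (J : Order.Ideal P) ≤ K := h𝒜 J.2 K.2 (fun e => h (Subtype.ext e))
      obtain ⟨x, hx, hx'⟩ := Set.not_subset.1 h1
      obtain ⟨y, hy, hxy⟩ := hcof J x hx
      exact ⟨y, fun _ => ⟨hy, fun hy' => hx' ((K : Order.Ideal P).lower hxy hy')⟩⟩
  choose w hw using hw
  have hC : #(Σ i : κ.ord.ToType, (Iio i → κ.ord.ToType)) ≤ ν :=
    ErdosRado.mk_codes_le hν hκν (by rwa [Cardinal.mk_ord_toType])
  obtain ⟨T, f, d, hT, hf, hd⟩ := ErdosRado.erdos_rado (X := 𝒜)
    (C := (Σ i : κ.ord.ToType, (Iio i → κ.ord.ToType)) ×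
      (Σ i : κ.ord.ToType, (Iio i → κ.ord.ToType))) hν
    (by
      rw [Cardinal.mk_prod, Cardinal.lift_id]
      exact (mul_le_mul' hC hC).trans (Cardinal.mul_eq_self hν).le) hn
    (fun J K => (col J (w J K), col K (w K J)))
  obtain ⟨g⟩ : Nonempty (κ.ord.ToType ↪ T) := by
    rw [← Cardinal.le_def, Cardinal.mk_ord_toType]
    exact (hκν.trans (Order.le_succ ν)).trans hT
  let K : κ.ord.ToType → 𝒜 := fun t => f (g t)
  have hK : Function.Injective K := fun s t e => g.injective (Subtype.ext (hf e))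
  have hx : ∀ t, ∃ x ∈ (K t : Order.Ideal P), ∀ s, s ≠ t → w (K t) (K s) ≤ x := by
    intro t
    obtain ⟨u1, hu1, h1⟩ := hbd (K t) d.1 (fun s => w (K t) (K s)) {s | (g t).1 < g s} (by
      intro s hs
      have hne : K t ≠ K s := fun e => by
        have h' : (g t).1 < g s := hs
        rw [hK e] at h'; exact lt_irrefl _ h'
      exact ⟨(hw _ _ hne).1, congrArg Prod.fst (hd _ (g t).2 _ hs)⟩)
    obtain ⟨u2, hu2, h2⟩ := hbd (K t) d.2 (fun s => w (K t) (K s)) {s | (g s).1 < g t} (by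
      intro s hs
      have hne : K t ≠ K s := fun e => by
        have h' : (g s).1 < g t := hs
        rw [hK e] at h'; exact lt_irrefl _ h'
      exact ⟨(hw _ _ hne).1, congrArg Prod.snd (hd _ (g s).2 _ hs)⟩)
    obtain ⟨x, hx, h3, h4⟩ := (K t : Order.Ideal P).directed u1 hu1 u2 hu2
    refine ⟨x, hx, fun s hs => ?_⟩
    rcases lt_trichotomy (g t).1 (g s).1 with h | h | h
    · exact (h1 s h).trans h3
    · exact (hs (g.injective (Subtype.ext h)).symm).elim
    · exact (h2 s h).trans h4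
  choose x hx1 hx2 using hx
  have hne : ∀ s t, s ≠ t → ¬ x t ≤ x s := fun s t h hle =>
    (hw (K t) (K s) (fun e => h (hK e).symm)).2
      ((K s : Order.Ideal P).lower ((hx2 t s h).trans hle) (hx1 s))
  have hinj : Function.Injective x := fun s t e => by
    by_contra h
    exact hne s t h e.ge
  have hA : IsAntichain (· ≤ ·) (range x) := by
    rintro _ ⟨s, rfl⟩ _ ⟨t, rfl⟩ h
    exact hne t s (fun e => h (by rw [e]))
  have := hP _ hA
  rw [Cardinal.mk_range_eq _ hinj, Cardinal.mk_ord_toType] at this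
  exact lt_irrefl _ this

end Pool.Agent.H26.IdealAnti
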