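import Mathlib
import Pool.Agent.H26.Arc

/-! Coordinates for an abelian Kantor family over `ℚ[X]` and `ℚ(X)`. -/

namespace Pool.Agent.H26.Kantor

open Polynomial

abbrev R : Type := ℚ[X]
abbrev F : Type := RatFunc ℚ
abbrev G0 : Type := R × F × R
abbrev ι : Type := Option F

instance : Countable R := by
  rw [← Cardinal.mk_le_aleph0_iff]
  exact Polynomial.cardinalMk_le_max.trans (by simp)
instance : Countable F := by
  refine Function.Surjective.countable
    (f := fun x : R × R => algebraMap R F x.1 / algebraMap R F x.2) fun x => ?_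
  exact ⟨(x.num, x.denom), x.num_div_denom⟩

noncomputable def c : F → ℚ := (Arc.exists_arc (F := F)).choose
lemma c_inj : Function.Injective c := (Arc.exists_arc (F := F)).choose_spec.1
lemma c_arc (p q r : F) (h1 : p ≠ q) (h2 : p ≠ r) (h3 : q ≠ r) :
    (q - p) * ((c r : F) - c p) ≠ (r - p) * ((c q : F) - c p) :=
  (Arc.exists_arc (F := F)).choose_spec.2.1 p q r h1 h2 h3
lemma c_slope (t m : F) (h : m ≠ 0) : ∃ u, u ≠ t ∧ (c u : F) - c t = m * (u - t) :=
  (Arc.exists_arc (F := F)).choose_spec.2.2 t m h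

noncomputable abbrev am : R →+* F := algebraMap R F
lemma am_inj : Function.Injective am := IsFractionRing.injective R F
lemma am_C (q : ℚ) : am (C q) = (q : F) := by
  exact eq_ratCast (am.comp C) q

noncomputable def lam (i : ι) (g : G0) : R :=
  match i with
  | none => g.1
  | some t => g.2.2 - g.1 * C (c t)
noncomputable def nu (i : ι) (g : G0) : F :=
  match i with
  | none => g.2.1
  | some t => g.2.1 - am g.1 * t

lemma lam_add (i : ι) (g h : G0) : lam i (g + h) = lam i g + lam i h := by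
  cases i <;> simp [lam]; ring
lemma nu_add (i : ι) (g h : G0) : nu i (g + h) = nu i g + nu i h := by
  cases i <;> simp [nu]; ring
lemma lam_sub (i : ι) (g h : G0) : lam i (g - h) = lam i g - lam i h := by
  cases i <;> simp [lam]; ring
lemma nu_sub (i : ι) (g h : G0) : nu i (g - h) = nu i g - nu i h := by
  cases i <;> simp [nu]; ring
lemma lam_zero (i : ι) : lam i 0 = 0 := by cases i <;> simp [lam]
lemma nu_zero (i : ι) : nu i 0 = 0 := by cases i <;> simp [nu]

lemma surj (i : ι) (η : F) (ζ : R) : ∃ g, nu i g = η ∧ lam i g = ζ := by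
  cases i
  · exact ⟨(ζ, η, 0), rfl, rfl⟩
  · exact ⟨(0, η, ζ), by simp [nu], by simp [lam]⟩

lemma nontriv (i : ι) : ∃ g, g ≠ 0 ∧ nu i g = 0 ∧ lam i g = 0 := by
  cases i with
  | none => exact ⟨(0, 0, 1), by simp, rfl, rfl⟩
  | some t => exact ⟨(1, t, C (c t)), by simp, by simp [nu], by simp [lam]⟩

lemma cdiff {t u : F} (h : t ≠ u) : (C (c u) - C (c t) : R) * C (c u - c t)⁻¹ = 1 := by
  rw [← C_sub, ← C_mul, mul_inv_cancel₀ (sub_ne_zero.2 (c_inj.ne h.symm)), C_1]

lemma K2 {i j : ι} (h : i ≠ j) {g : G0} (h1 : lam i g = 0) (h2 : nu j g = 0)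
    (h3 : lam j g = 0) : g = 0 := by
  obtain ⟨x, y, z⟩ := g
  have hx : x = 0 := by
    cases i <;> cases j <;> simp only [lam, nu] at h1 h2 h3
    · exact (h rfl).elim
    · exact h1
    · exact h3
    · rename_i t u
      have := cdiff (t := t) (u := u) (fun e => h (by rw [e]))
      linear_combination (-x) * this + C (c u - c t)⁻¹ * h1 - C (c u - c t)⁻¹ * h3
  subst hx
  cases i <;> cases j <;> simp only [lam, nu] at h1 h2 h3 <;> simp_all

lemma K3 {i j : ι} (h : i ≠ j) (ζ : R) (η : F) (ζ' : R) :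
    ∃ g, lam i g = ζ ∧ nu j g = η ∧ lam j g = ζ' := by
  cases i <;> cases j
  · exact (h rfl).elim
  · rename_i u
    exact ⟨(ζ, η + am ζ * u, ζ' + ζ * C (c u)), rfl, by simp [nu], by simp [lam]⟩
  · rename_i t
    exact ⟨(ζ', η, ζ + ζ' * C (c t)), by simp [lam], rfl, rfl⟩
  · rename_i t u
    have := cdiff (t := t) (u := u) (fun e => h (by rw [e]))
    refine ⟨((ζ - ζ') * C (c u - c t)⁻¹, η + am ((ζ - ζ') * C (c u - c t)⁻¹) * u,
      ζ' + (ζ - ζ') * C (c u - c t)⁻¹ * C (c u)), ?_, by simp only [nu]; ring,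
      by simp only [lam]; ring⟩
    simp only [lam]
    linear_combination (ζ - ζ') * this

lemma K1 {i j k : ι} (hij : i ≠ j) (hik : i ≠ k) (hjk : j ≠ k) {a b : G0}
    (a1 : nu i a = 0) (a2 : lam i a = 0) (b1 : nu j b = 0) (b2 : lam j b = 0)
    (c1 : nu k (a + b) = 0) (c2 : lam k (a + b) = 0) : a = 0 := by
  obtain ⟨x, y, z⟩ := a
  obtain ⟨x', y', z'⟩ := b
  have fin : ∀ {x : R} {t u : F}, t ≠ u → am x * (t - u) = 0 → x = 0 := by
    intro x t u h e
    exact am_inj (by rw [map_zero]; exact (mul_eq_zero.1 e).resolve_right (sub_ne_zero.2 h))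
  cases i <;> cases j <;> cases k <;>
    simp only [lam, nu, Prod.fst_add, Prod.snd_add, map_add] at a1 a2 b1 b2 c1 c2
  · exact (hij rfl).elim
  · exact (hij rfl).elim
  · exact (hik rfl).elim
  · rename_i u w
    subst a1 a2
    have : x' = 0 := fin (t := u) (u := w) (fun e => hjk (by rw [e]))
      (by rw [map_zero] at c1; linear_combination c1 - b1)
    subst this
    have : z = 0 := by linear_combination c2 - b2
    simp [this]
  · exact (hjk rfl).elim
  · rename_i t w
    subst b1 b2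
    have : x = 0 := fin (t := t) (u := w) (fun e => hik (by rw [e]))
      (by rw [map_zero] at c1; linear_combination c1 - a1)
    subst this
    simp_all
  · rename_i t u
    have e : x' = -x := by linear_combination c2
    subst e
    have : x = 0 := fin (t := t) (u := u) (fun e => hij (by rw [e]))
      (by rw [map_neg] at b1; linear_combination c1 - a1 - b1)
    subst this
    simp_all
  · rename_i t u w
    have h1 : am x * (t - w) + am x' * (u - w) = 0 := by linear_combination c1 - a1 - b1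
    have h2 : x * (C (c t) - C (c w)) + x' * (C (c u) - C (c w)) = 0 := by
      linear_combination c2 - a2 - b2
    have h3 := congrArg am h2
    simp only [map_add, map_mul, map_sub, am_C, map_zero] at h3
    have h4 := c_arc w t u (fun e => hik (by rw [e])) (fun e => hjk (by rw [e]))
      (fun e => hij (by rw [e]))
    have h5 : am x * ((t - w) * ((c u : F) - c w) - (u - w) * ((c t : F) - c w)) = 0 := by
      linear_combination ((c u : F) - c w) * h1 - (u - w) * h3
    have : x = 0 := am_inj (by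
      rw [map_zero]; exact (mul_eq_zero.1 h5).resolve_right (sub_ne_zero.2 h4))
    subst this
    simp_all

lemma K4 (i : ι) {g : G0} (h : lam i g ≠ 0) : ∃ j a, nu i a = 0 ∧ lam i a = 0 ∧
    nu j (g - a) = 0 ∧ lam j (g - a) = 0 := by
  obtain ⟨x, y, z⟩ := g
  cases i with
  | none =>
    have hx : am x ≠ 0 := fun e => h (am_inj (by rw [map_zero]; exact e))
    refine ⟨some (y / am x), (0, 0, z - x * C (c (y / am x))), rfl, rfl, ?_, ?_⟩
    · simp only [nu, Prod.fst_sub, Prod.snd_sub, sub_zero]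
      field_simp; ring
    · simp [lam]
  | some t =>
    simp only [lam] at h
    by_cases hη : y - am x * t = 0
    · refine ⟨none, (x, am x * t, x * C (c t)), by simp [nu], by simp [lam], ?_, ?_⟩
      · simpa [nu] using hη
      · simp [lam]
    · have hζ : am (z - x * C (c t)) ≠ 0 := fun e => h (am_inj (by rw [map_zero]; exact e))
      obtain ⟨u, hu, e⟩ := c_slope t (am (z - x * C (c t)) / (y - am x * t)) (div_ne_zero hζ hη)
      have hc := cdiff hu.symm
      set s : R := (z - x * C (c t)) * C (c u - c t)⁻¹ with hs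
      have hs1 : s * (C (c u) - C (c t)) = z - x * C (c t) := by
        rw [hs]; linear_combination (z - x * C (c t)) * hc
      have hs2 : am s * (u - t) = y - am x * t := by
        have h1 := congrArg am hs1
        rw [map_mul, map_sub, am_C, am_C, e] at h1
        field_simp at h1
        linear_combination h1
      refine ⟨some u, (x - s, am (x - s) * t, (x - s) * C (c t)), by simp [nu], by simp [lam],
        ?_, ?_⟩
      · simp only [nu, Prod.fst_sub, Prod.snd_sub, map_sub]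
        linear_combination -hs2
      · simp only [lam, Prod.fst_sub, Prod.snd_sub]
        linear_combination -hs1

/-- multiplication by `X` -/
noncomputable def mulX : G0 →+ G0 where
  toFun g := (X * g.1, am X * g.2.1, X * g.2.2)
  map_zero' := by simp
  map_add' g h := by simp [mul_add]

lemma lam_mulX (i : ι) (g : G0) : lam i (mulX g) = X * lam i g := by
  cases i <;> simp [lam, mulX]; ring
lemma nu_mulX (i : ι) (g : G0) : nu i (mulX g) = am X * nu i g := by
  cases i
  · simp [nu, mulX]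
  · simp only [nu, mulX, AddMonoidHom.coe_mk, ZeroHom.coe_mk, map_mul]; ring

inductive Pt : Type
  | aff (g : G0)
  | tan (i : ι) (ζ : R)
  | inf

inductive Ln : Type
  | cos (i : ι) (η : F) (ζ : R)
  | thr (i : ι)

def Inc : Pt → Ln → Prop
  | .aff g, .cos i η ζ => nu i g = η ∧ lam i g = ζ
  | .aff _, .thr _ => False
  | .tan j ζ', .cos i _ ζ => j = i ∧ ζ' = ζ
  | .tan j _, .thr i => j = i
  | .inf, .cos _ _ _ => False
  | .inf, .thr _ => True

lemma two_points (p q : Pt) (l m : Ln) (h : p ≠ q) (h1 : Inc p l) (h2 : Inc q l) (h3 : Inc p m)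
    (h4 : Inc q m) : l = m := by
  cases p <;> cases q <;> cases l <;> cases m <;> simp only [Inc] at h1 h2 h3 h4
  case aff.aff.cos.cos g g' i η ζ j η' ζ' =>
    by_cases hij : i = j
    · subst hij
      rw [← h1.1, ← h1.2, ← h3.1, ← h3.2]
    · exfalso
      apply h
      have := K2 (g := g - g') hij (by rw [lam_sub, h1.2, h2.2, sub_self])
        (by rw [nu_sub, h3.1, h4.1, sub_self]) (by rw [lam_sub, h3.2, h4.2, sub_self])
      rw [sub_eq_zero.1 this]
  all_goals grind

lemma line_three (l : Ln) : ∃ p q r, p ≠ q ∧ p ≠ r ∧ q ≠ r ∧ Inc p l ∧ Inc q l ∧ Inc r l := by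
  cases l with
  | cos i η ζ =>
    obtain ⟨g, h1, h2⟩ := surj i η ζ
    obtain ⟨a, a0, a1, a2⟩ := nontriv i
    refine ⟨.tan i ζ, .aff g, .aff (g + a), by simp, by simp, by simpa using a0, ⟨rfl, rfl⟩,
      ⟨h1, h2⟩, ?_⟩
    exact ⟨by rw [nu_add, h1, a1, add_zero], by rw [lam_add, h2, a2, add_zero]⟩
  | thr i => exact ⟨.inf, .tan i 0, .tan i 1, by simp, by simp, by simp, trivial, rfl, rfl⟩

lemma point_three (p : Pt) : ∃ l m n, l ≠ m ∧ l ≠ n ∧ m ≠ n ∧ Inc p l ∧ Inc p m ∧ Inc p n := by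
  cases p with
  | aff g =>
    exact ⟨.cos none _ _, .cos (some 0) _ _, .cos (some 1) _ _, by simp, by simp, by simp,
      ⟨rfl, rfl⟩, ⟨rfl, rfl⟩, ⟨rfl, rfl⟩⟩
  | tan i ζ => exact ⟨.thr i, .cos i 0 ζ, .cos i 1 ζ, by simp, by simp, by simp, rfl,
      ⟨rfl, rfl⟩, ⟨rfl, rfl⟩⟩
  | inf => exact ⟨.thr none, .thr (some 0), .thr (some 1), by simp, by simp, by simp, trivial,
      trivial, trivial⟩

lemma col_aa {g h : G0} : (∃ m, Inc (.aff g) m ∧ Inc (.aff h) m) ↔
    ∃ j, nu j (g - h) = 0 ∧ lam j (g - h) = 0 := by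
  constructor
  · rintro ⟨m, h1, h2⟩
    cases m <;> simp only [Inc] at h1 h2
    exact ⟨_, by rw [nu_sub, h1.1, h2.1, sub_self], by rw [lam_sub, h1.2, h2.2, sub_self]⟩
  · rintro ⟨j, h1, h2⟩
    rw [nu_sub, sub_eq_zero] at h1
    rw [lam_sub, sub_eq_zero] at h2
    exact ⟨.cos j _ _, ⟨rfl, rfl⟩, ⟨h1.symm, h2.symm⟩⟩

lemma col_at {g : G0} {i : ι} {ζ : R} : (∃ m, Inc (.aff g) m ∧ Inc (.tan i ζ) m) ↔
    lam i g = ζ := by
  constructor
  · rintro ⟨m, h1, h2⟩
    cases m <;> simp only [Inc] at h1 h2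
    rw [h2.1, h2.2, h1.2]
  · intro h
    exact ⟨.cos i _ _, ⟨rfl, h⟩, ⟨rfl, rfl⟩⟩

lemma col_ai {g : G0} : ¬ ∃ m, Inc (.aff g) m ∧ Inc .inf m := by
  rintro ⟨m, h1, h2⟩
  cases m <;> simp only [Inc] at h1 h2

lemma col_tt {i j : ι} {ζ ζ' : R} : (∃ m, Inc (.tan i ζ) m ∧ Inc (.tan j ζ') m) ↔ i = j := by
  constructor
  · rintro ⟨m, h1, h2⟩
    cases m <;> simp only [Inc] at h1 h2 <;> grind
  · rintro rfl
    exact ⟨.thr i, rfl, rfl⟩

lemma col_ti {i : ι} {ζ : R} : ∃ m, Inc (.tan i ζ) m ∧ Inc .inf m := ⟨.thr i, rfl, trivial⟩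

lemma col_symm {p q : Pt} : (∃ m, Inc p m ∧ Inc q m) ↔ ∃ m, Inc q m ∧ Inc p m := by
  simp only [and_comm]

lemma gq_axiom (p : Pt) (l : Ln) (h : ¬ Inc p l) : ∃! q, Inc q l ∧ ∃ m, Inc p m ∧ Inc q m := by
  cases p with
  | aff g =>
    cases l with
    | cos i η ζ =>
      simp only [Inc] at h
      have ne_i : ∀ g' j, nu i g' = η ∧ lam i g' = ζ → nu j (g - g') = 0 → lam j (g - g') = 0 →
          i ≠ j := by
        rintro g' j k k1 k2 rfl
        rw [nu_sub, sub_eq_zero] at k1
        rw [lam_sub, sub_eq_zero] at k2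
        exact h ⟨k1.trans k.1, k2.trans k.2⟩
      by_cases hζ : lam i g = ζ
      · refine ⟨.tan i ζ, ⟨⟨rfl, rfl⟩, col_at.2 hζ⟩, ?_⟩
        rintro (g' | ⟨j, ζ'⟩ | _) ⟨h1, h2⟩
        · obtain ⟨j, k1, k2⟩ := col_aa.1 h2
          have := K2 (ne_i g' j h1 k1 k2) (by rw [lam_sub, hζ, h1.2, sub_self]) k1 k2
          rw [sub_eq_zero] at this
          subst this
          exact (h h1).elim
        · rw [h1.1, h1.2]
        · exact h1.elim
      · obtain ⟨g0, g1, g2⟩ := surj i η ζ
        obtain ⟨j, a, a1, a2, a3, a4⟩ := K4 i (g := g - g0)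
          (by rw [lam_sub, g2]; exact sub_ne_zero.2 hζ)
        have hm : nu i (g0 + a) = η ∧ lam i (g0 + a) = ζ :=
          ⟨by rw [nu_add, g1, a1, add_zero], by rw [lam_add, g2, a2, add_zero]⟩
        rw [sub_sub] at a3 a4
        refine ⟨.aff (g0 + a), ⟨hm, col_aa.2 ⟨j, a3, a4⟩⟩, ?_⟩
        rintro (g' | ⟨k, ζ'⟩ | _) ⟨h1, h2⟩
        · obtain ⟨k, k1, k2⟩ := col_aa.1 h2
          have d1 : nu i (g0 + a - g') = 0 := by rw [nu_sub, hm.1, h1.1, sub_self]
          have d2 : lam i (g0 + a - g') = 0 := by rw [lam_sub, hm.2, h1.2, sub_self]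
          have e : g0 + a - g' = 0 := by
            by_cases hjk : j = k
            · subst hjk
              have e : g0 + a - g' = (g - g') - (g - (g0 + a)) := by abel
              refine K2 (ne_i _ j hm a3 a4) d2 ?_ ?_
              · rw [e, nu_sub, k1, a3, sub_self]
              · rw [e, lam_sub, k2, a4, sub_self]
            · have e : g0 + a - g' + (g - (g0 + a)) = g - g' := by abel
              exact K1 (ne_i _ j hm a3 a4) (ne_i _ k h1 k1 k2) hjk d1 d2 a3 a4
                (by rw [e, k1]) (by rw [e, k2])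
          rw [sub_eq_zero.1 e]
        · obtain ⟨rfl, rfl⟩ := h1
          exact (hζ (col_at.1 h2)).elim
        · exact h1.elim
    | thr i =>
      refine ⟨.tan i (lam i g), ⟨rfl, col_at.2 rfl⟩, ?_⟩
      rintro (g' | ⟨j, ζ'⟩ | _) ⟨h1, h2⟩
      · exact h1.elim
      · obtain rfl : j = i := h1
        rw [col_at.1 h2]
      · exact (col_ai h2).elim
  | tan i ζ =>
    cases l with
    | cos j η ζ' =>
      simp only [Inc] at h
      by_cases hij : i = j
      · subst hij
        refine ⟨.tan i ζ', ⟨⟨rfl, rfl⟩, col_tt.2 rfl⟩, ?_⟩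
        rintro (g' | ⟨j, ζ''⟩ | _) ⟨h1, h2⟩
        · exact (h ⟨rfl, (col_at.1 (col_symm.1 h2)).symm.trans h1.2⟩).elim
        · rw [h1.1, h1.2]
        · exact h1.elim
      · obtain ⟨g, g1, g2, g3⟩ := K3 hij ζ η ζ'
        refine ⟨.aff g, ⟨⟨g2, g3⟩, col_symm.1 (col_at.2 g1)⟩, ?_⟩
        rintro (g' | ⟨k, ζ''⟩ | _) ⟨h1, h2⟩
        · have := K2 (g := g' - g) hij
            (by rw [lam_sub, g1, col_at.1 (col_symm.1 h2), sub_self])
            (by rw [nu_sub, g2, h1.1, sub_self]) (by rw [lam_sub, g3, h1.2, sub_self])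
          rw [sub_eq_zero.1 this]
        · exact (hij ((col_tt.1 h2).trans h1.1)).elim
        · exact h1.elim
    | thr j =>
      refine ⟨.inf, ⟨trivial, col_ti⟩, ?_⟩
      rintro (g' | ⟨k, ζ''⟩ | _) ⟨h1, h2⟩
      · exact h1.elim
      · exact (h ((col_tt.1 h2).trans h1)).elim
      · rfl
  | inf =>
    cases l with
    | cos i η ζ =>
      refine ⟨.tan i ζ, ⟨⟨rfl, rfl⟩, col_symm.1 col_ti⟩, ?_⟩
      rintro (g' | ⟨k, ζ''⟩ | _) ⟨h1, h2⟩
      · exact (col_ai (col_symm.1 h2)).elim
      · rw [h1.1, h1.2]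
      · exact h1.elim
    | thr i => exact (h trivial).elim

noncomputable def tp (h : G0) : Pt → Pt
  | .aff g => .aff (g + h)
  | .tan i ζ => .tan i (ζ + lam i h)
  | .inf => .inf
noncomputable def tl (h : G0) : Ln → Ln
  | .cos i η ζ => .cos i (η + nu i h) (ζ + lam i h)
  | .thr i => .thr i

lemma tp_zero (p : Pt) : tp 0 p = p := by cases p <;> simp [tp, lam_zero]
lemma tl_zero (p : Ln) : tl 0 p = p := by cases p <;> simp [tl, lam_zero, nu_zero]
lemma tp_add (g h : G0) (p : Pt) : tp (g + h) p = tp g (tp h p) := by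
  cases p <;> simp only [tp, lam_add] <;> congr 1 <;> abel
lemma tl_add (g h : G0) (p : Ln) : tl (g + h) p = tl g (tl h p) := by
  cases p <;> simp only [tl, lam_add, nu_add] <;> congr 1 <;> abel

lemma inc_t (h : G0) (p : Pt) (l : Ln) : Inc (tp h p) (tl h l) ↔ Inc p l := by
  cases p <;> cases l <;> simp only [tp, tl, Inc, nu_add, lam_add, add_left_inj]
  constructor <;> rintro ⟨rfl, k⟩ <;> simpa using k

noncomputable def T : Multiplicative G0 →* Equiv.Perm Pt × Equiv.Perm Ln where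
  toFun h := (⟨tp h.toAdd, tp (-h.toAdd), fun p => by rw [← tp_add, neg_add_cancel, tp_zero],
      fun p => by rw [← tp_add, add_neg_cancel, tp_zero]⟩,
    ⟨tl h.toAdd, tl (-h.toAdd), fun p => by rw [← tl_add, neg_add_cancel, tl_zero],
      fun p => by rw [← tl_add, add_neg_cancel, tl_zero]⟩)
  map_one' := Prod.ext (Equiv.ext tp_zero) (Equiv.ext tl_zero)
  map_mul' g h := Prod.ext (Equiv.ext (tp_add _ _)) (Equiv.ext (tl_add _ _))

lemma T1 (h : Multiplicative G0) (p : Pt) : (T h).1 p = tp h.toAdd p := rfl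
lemma T2 (h : Multiplicative G0) (p : Ln) : (T h).2 p = tl h.toAdd p := rfl

lemma T_inj : Function.Injective T := by
  intro g h e
  have : (T g).1 (.aff 0) = (T h).1 (.aff 0) := by rw [e]
  simpa [T1, tp] using this

end Pool.Agent.H26.Kantor
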