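import Pool.Agent.H26.KrDefs

set_option autoImplicit false
open scoped RealInnerProductSpace

namespace Pool.Agent.H26.Kr

open Pool.Agent.H26.KrDefs

noncomputable def lam (n : ℕ) : ℝ := (1/4) * (1/16) ^ n
noncomputable def eta (n : ℕ) : ℝ := lam n ^ 2 / 128
noncomputable def rr (n : ℕ) : ℝ := 1 - eta n / 4
noncomputable def sg (n : ℕ) : ℝ := (-1) ^ n
noncomputable def u : V := !₂[1, 0, 0]
noncomputable def e : V := !₂[0, 0, 1]
noncomputable def v (n : ℕ) : V := !₂[1 - lam n ^ 2 / 2, lam n * Real.sqrt (1 - lam n ^ 2 / 4), 0]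

lemma lam_pos (n : ℕ) : 0 < lam n := by unfold lam; positivity
lemma lam_le (n : ℕ) : lam n ≤ 1/4 := by
  unfold lam
  have : ((1:ℝ)/16) ^ n ≤ 1 := pow_le_one₀ (by norm_num) (by norm_num)
  linarith
lemma lam_lt {k n : ℕ} (h : k < n) : lam n ≤ lam k / 16 := by
  unfold lam
  have : ((1:ℝ)/16) ^ n ≤ (1/16) ^ (k+1) := pow_le_pow_of_le_one (by norm_num) (by norm_num) h
  rw [pow_succ] at this
  linarith
lemma lam_anti {k n : ℕ} (h : k ≤ n) : lam n ≤ lam k := by
  rcases h.eq_or_lt with rfl | h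
  · exact le_rfl
  · have := lam_lt h; have := lam_pos k; linarith
lemma eta_pos (n : ℕ) : 0 < eta n := by unfold eta; have := lam_pos n; positivity
lemma eta_le (n : ℕ) : eta n ≤ 1/2048 := by
  unfold eta; have := lam_pos n; have := lam_le n; nlinarith
lemma sg_cases (n : ℕ) : sg n = 1 ∨ sg n = -1 := neg_one_pow_eq_or ℝ n
lemma sg_succ (n : ℕ) : sg (n+1) = - sg n := by unfold sg; ring

lemma sq_aux (n : ℕ) : Real.sqrt (1 - lam n ^ 2 / 4) ^ 2 = 1 - lam n ^ 2 / 4 := by
  apply Real.sq_sqrt; have := lam_pos n; have := lam_le n; nlinarith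

lemma norm_u : ‖u‖ = 1 := by
  simp [u, EuclideanSpace.norm_eq, Fin.sum_univ_three]
lemma norm_e : ‖e‖ = 1 := by
  simp [e, EuclideanSpace.norm_eq, Fin.sum_univ_three]
lemma norm_v (n : ℕ) : ‖v n‖ = 1 := by
  have h : ‖v n‖ ^ 2 = 1 := by
    rw [EuclideanSpace.real_norm_sq_eq]
    simp only [v, Fin.sum_univ_three]
    simp
    have := sq_aux n
    rw [mul_pow, this]; ring
  have := norm_nonneg (v n)
  nlinarith
lemma norm_vu (n : ℕ) : ‖u - v n‖ = lam n := by
  have h : ‖u - v n‖ ^ 2 = lam n ^ 2 := by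
    rw [EuclideanSpace.real_norm_sq_eq]
    simp only [v, u, Fin.sum_univ_three]
    simp
    have := sq_aux n
    rw [mul_pow, this]; ring
  have := norm_nonneg (u - v n)
  have := lam_pos n
  nlinarith
lemma inner_ev (n : ℕ) : ⟪e, v n⟫ = 0 := by
  simp [e, v, EuclideanSpace.inner_eq_star_dotProduct, dotProduct, Fin.sum_univ_three]
lemma inner_ee : ⟪e, e⟫ = 1 := by rw [real_inner_self_eq_norm_sq, norm_e]; norm_num

def Z : Set V := {p | ‖p‖ ≤ 1/2 ∨ ∃ (k : ℕ) (q : V), ‖q‖ = 1 ∧ ‖q - u‖ = 2 * lam k ∧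
  (p = rr k • q ∨ p = -(rr k • q))}
def S : Set V := closure (convexHull ℝ Z)
def K : Set V := {y | ‖y‖ ≤ 3 ∧ ∀ n, -1 ≤ ⟪y, v n⟫ ∧ ⟪y, v n⟫ + sg n * eta n * ⟪y, e⟫ ≤ 1 - eta n}

lemma rr_pos (k : ℕ) : 0 < rr k := by unfold rr; have := eta_le k; linarith
lemma rr_le (k : ℕ) : rr k ≤ 1 := by unfold rr; have := eta_pos k; linarith

lemma Z_norm {p : V} (hp : p ∈ Z) : ‖p‖ ≤ 1 := by
  rcases hp with h | ⟨k, q, hq, -, rfl | rfl⟩
  · linarith
  · rw [norm_smul, hq, Real.norm_eq_abs, abs_of_pos (rr_pos k)]; simpa using rr_le k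
  · rw [norm_neg, norm_smul, hq, Real.norm_eq_abs, abs_of_pos (rr_pos k)]; simpa using rr_le k

lemma K_closed : IsClosed K := by
  have : K = {y : V | ‖y‖ ≤ 3} ∩ ⋂ n, ({y : V | -1 ≤ ⟪y, v n⟫} ∩
      {y : V | ⟪y, v n⟫ + sg n * eta n * ⟪y, e⟫ ≤ 1 - eta n}) := by
    ext y; simp [K]
  rw [this]
  refine (isClosed_le continuous_norm continuous_const).inter (isClosed_iInter fun n => ?_)
  refine (isClosed_le continuous_const (by fun_prop)).inter (isClosed_le (by fun_prop) continuous_const)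

lemma K_convex : Convex ℝ K := by
  intro x hx y hy a b ha hb hab
  refine ⟨?_, fun n => ?_⟩
  · calc ‖a • x + b • y‖ ≤ ‖a • x‖ + ‖b • y‖ := norm_add_le _ _
      _ = a * ‖x‖ + b * ‖y‖ := by
        rw [norm_smul, norm_smul, Real.norm_eq_abs, Real.norm_eq_abs, abs_of_nonneg ha, abs_of_nonneg hb]
      _ ≤ a * 3 + b * 3 := by gcongr; exacts [hx.1, hy.1]
      _ = 3 := by linarith
  · obtain ⟨h1, h2⟩ := hx.2 n
    obtain ⟨h3, h4⟩ := hy.2 n
    simp only [inner_add_left, real_inner_smul_left]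
    have hb' : b = 1 - a := by linarith
    constructor
    · nlinarith [mul_le_mul_of_nonneg_left h1 ha, mul_le_mul_of_nonneg_left h3 hb]
    · have := mul_le_mul_of_nonneg_left h2 ha
      have := mul_le_mul_of_nonneg_left h4 hb
      subst hb'
      nlinarith

lemma K_compact : IsCompact K :=
  Metric.isCompact_of_isClosed_isBounded K_closed
    ((Metric.isBounded_closedBall (x := (0:V)) (r := 3)).subset fun y hy => by simpa using hy.1)

lemma S_compact : IsCompact S := by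
  refine Metric.isCompact_of_isClosed_isBounded isClosed_closure ?_
  refine (Metric.isBounded_closedBall (x := (0:V)) (r := 1)).subset ?_
  refine closure_minimal (convexHull_min ?_ (convex_closedBall _ _)) Metric.isClosed_closedBall
  intro p hp; simpa using Z_norm hp

lemma Z_sub : Z ⊆ S := (subset_convexHull ℝ Z).trans subset_closure

def Hit (R : V ≃ₗᵢ[ℝ] V) (n : ℕ) : Prop := ∃ p ∈ Z, 1 - 4 * eta n < ⟪R p, v n⟫

lemma hit_aux (n k : ℕ) (q y : V) (hq : ‖q‖ = 1) (hy : ‖q - y‖ = 2 * lam k)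
    (h : 1 - 4 * eta n < ⟪rr k • q, v n⟫) :
    n ≤ k ∧ 2 * lam k - lam n / 4 ≤ ‖y - v n‖ ∧ ‖y - v n‖ ≤ 2 * lam k + lam n / 4 := by
  rw [real_inner_smul_left] at h
  have h1 : ⟪q, v n⟫ ≤ 1 := by
    have := real_inner_le_norm q (v n); rwa [hq, norm_v, one_mul] at this
  have he := eta_le n
  have hr := rr_pos k
  have hr1 := rr_le k
  have hpos : 0 < ⟪q, v n⟫ := by
    by_contra hc; push Not at hc; nlinarith
  have h2 : 1 - 4 * eta n < ⟪q, v n⟫ := by nlinarith
  have h3 : 1 - 4 * eta n < rr k := by nlinarith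
  have h4 : ‖q - v n‖ ≤ lam n / 4 := by
    have h5 : ‖q - v n‖ ^ 2 = 2 - 2 * ⟪q, v n⟫ := by
      rw [norm_sub_sq_real, hq, norm_v]; ring
    have h6 : ‖q - v n‖ ^ 2 ≤ (lam n / 4) ^ 2 := by
      rw [h5]; unfold eta at h2; nlinarith
    exact abs_le_of_sq_le_sq' h6 (by have := lam_pos n; positivity) |>.2
  refine ⟨?_, ?_, ?_⟩
  · by_contra hc
    push Not at hc
    have := lam_lt hc
    have h7 := lam_pos n
    have h8 := lam_pos k
    unfold rr eta at h3
    nlinarith
  · have : ‖q - y‖ ≤ ‖q - v n‖ + ‖y - v n‖ := by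
      have := norm_sub_le (q - v n) (y - v n)
      rwa [sub_sub_sub_cancel_right] at this
    linarith
  · have : ‖y - v n‖ ≤ ‖q - v n‖ + ‖q - y‖ := by
      have := norm_sub_le (q - v n) (q - y)
      rwa [show q - v n - (q - y) = y - v n by abel] at this
    linarith

lemma hit_struct (R : V ≃ₗᵢ[ℝ] V) (n : ℕ) (h : Hit R n) :
    ∃ y : V, (y = R u ∨ y = - R u) ∧ ∃ k, n ≤ k ∧ 2 * lam k - lam n / 4 ≤ ‖y - v n‖ ∧
      ‖y - v n‖ ≤ 2 * lam k + lam n / 4 := by
  obtain ⟨p, hp, h⟩ := h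
  rcases hp with hp | ⟨k, q, hq, hqu, rfl | rfl⟩
  · exfalso
    have := real_inner_le_norm (R p) (v n)
    rw [R.norm_map, norm_v] at this
    have := eta_le n
    linarith
  · refine ⟨R u, Or.inl rfl, k, hit_aux n k (R q) _ (by rw [R.norm_map, hq]) ?_ ?_⟩
    · rw [← map_sub, R.norm_map, hqu]
    · rwa [map_smul] at h
  · refine ⟨- R u, Or.inr rfl, k, hit_aux n k (- R q) _ (by rw [norm_neg, R.norm_map, hq]) ?_ ?_⟩
    · rw [show - R q - - R u = -(R q - R u) by abel, norm_neg, ← map_sub, R.norm_map, hqu]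
    · rwa [map_neg, map_smul, ← smul_neg] at h

lemma near_u {y : V} {n k : ℕ} (hk : n ≤ k) (h : ‖y - v n‖ ≤ 2 * lam k + lam n / 4) :
    ‖y - u‖ ≤ 13/4 * lam n := by
  have h1 : ‖y - u‖ ≤ ‖y - v n‖ + ‖u - v n‖ := by
    have := norm_sub_le (y - v n) (u - v n)
    rwa [sub_sub_sub_cancel_right] at this
  rw [norm_vu] at h1
  have := lam_anti hk
  linarith

lemma hit_unique (R : V ≃ₗᵢ[ℝ] V) {n m : ℕ} (hnm : n < m) (hn : Hit R n) (hm : Hit R m) : False := by
  obtain ⟨y, hy, k, hk, h1, h2⟩ := hit_struct R n hn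
  obtain ⟨y', hy', l, hl, -, h4⟩ := hit_struct R m hm
  have a1 := near_u hk h2
  have a2 := near_u hl h4
  have b1 := lam_le n
  have b2 := lam_le m
  have hyy : y = y' := by
    by_contra hc
    have hneg : y' = - y := by
      rcases hy with rfl | rfl <;> rcases hy' with rfl | rfl <;> simp_all
    have : ‖(y - u) + (y' - u)‖ = 2 := by
      rw [hneg, show y - u + (-y - u) = -((2:ℝ) • u) by rw [two_smul]; abel, norm_neg, norm_smul,
        norm_u]; simp
    have := norm_add_le (y - u) (y' - u)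
    linarith
  subst hyy
  have c1 := lam_lt hnm
  have c2 := lam_pos n
  have d1 : ‖y - v n‖ ≤ ‖y - u‖ + ‖u - v n‖ := by
    have := norm_add_le (y - u) (u - v n)
    rwa [sub_add_sub_cancel] at this
  have d2 : ‖u - v n‖ ≤ ‖y - v n‖ + ‖y - u‖ := by
    have := norm_sub_le (y - v n) (y - u)
    rwa [show y - v n - (y - u) = u - v n by abel] at this
  rw [norm_vu] at d1 d2
  rcases hk.eq_or_lt with rfl | hk
  · linarith
  · have := lam_lt hk; linarith

lemma feas (R : V ≃ₗᵢ[ℝ] V) : ∃ x : V, ∀ s ∈ S, R s + x ∈ K := by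
  have key : ∃ τ : ℝ, |τ| ≤ 2 ∧ ∀ n, Hit R n → sg n * τ = -2 := by
    by_cases h : ∃ n, Hit R n
    · obtain ⟨n, hn⟩ := h
      refine ⟨-2 * sg n, ?_, fun m hm => ?_⟩
      · rcases sg_cases n with h | h <;> rw [h] <;> norm_num
      · have : m = n := by
          rcases lt_trichotomy m n with h | h | h
          · exact (hit_unique R h hm hn).elim
          · exact h
          · exact (hit_unique R h hn hm).elim
        subst this
        rcases sg_cases m with h | h <;> rw [h] <;> norm_num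
    · exact ⟨0, by norm_num, fun n hn => (h ⟨n, hn⟩).elim⟩
  obtain ⟨τ, hτ, hh⟩ := key
  refine ⟨τ • e, ?_⟩
  have hcl : IsClosed {s : V | R s + τ • e ∈ K} :=
    K_closed.preimage (f := fun s => R s + τ • e) (by fun_prop)
  have hcv : Convex ℝ {s : V | R s + τ • e ∈ K} := by
    intro x hx y hy a b ha hb hab
    have := K_convex hx hy ha hb hab
    show R (a • x + b • y) + τ • e ∈ K
    rw [map_add, map_smul, map_smul]
    have e1 : a • R x + b • R y + τ • e = a • (R x + τ • e) + b • (R y + τ • e) := by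
      rw [smul_add, smul_add, show a • R x + a • τ • e + (b • R y + b • τ • e)
        = a • R x + b • R y + (a + b) • τ • e by rw [add_smul]; abel, hab, one_smul]
    rw [e1]; exact this
  refine closure_minimal (convexHull_min ?_ hcv) hcl
  intro p hp
  have hn : ‖R p‖ ≤ 1 := by rw [R.norm_map]; exact Z_norm hp
  refine ⟨?_, fun n => ?_⟩
  · have := norm_add_le (R p) (τ • e)
    rw [norm_smul, norm_e, Real.norm_eq_abs] at this
    linarith
  · simp only [inner_add_left, real_inner_smul_left, inner_ev, inner_ee, mul_zero, add_zero, mul_one]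
    have i1 := abs_real_inner_le_norm (R p) (v n)
    have i2 := abs_real_inner_le_norm (R p) e
    rw [norm_v, mul_one] at i1
    rw [norm_e, mul_one] at i2
    have j1 := abs_le.1 (i1.trans hn)
    have j2 := abs_le.1 (i2.trans hn)
    have j3 := abs_le.1 hτ
    have he := eta_pos n
    refine ⟨j1.1, ?_⟩
    by_cases hit : Hit R n
    · have := hh n hit
      rcases sg_cases n with h | h <;> rw [h] at this ⊢ <;> nlinarith
    · have : ⟪R p, v n⟫ ≤ 1 - 4 * eta n := by
        by_contra hc; push Not at hc; exact hit ⟨p, hp, hc⟩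
      rcases sg_cases n with h | h <;> rw [h] <;> nlinarith

lemma wall (R : V ≃ₗᵢ[ℝ] V) (x : V) (n : ℕ) (h : ∀ s ∈ S, R s + x ∈ K)
    (hw : ‖R u - v n‖ = 2 * lam n) : sg n * ⟪x, e⟫ ≤ -1/2 := by
  have hq : ‖R.symm (v n)‖ = 1 := by rw [R.symm.norm_map, norm_v]
  have hqu : ‖R.symm (v n) - u‖ = 2 * lam n := by
    rw [← R.norm_map, map_sub, R.apply_symm_apply, norm_sub_rev, hw]
  have h1 := (h _ (Z_sub (Or.inr ⟨n, _, hq, hqu, Or.inl rfl⟩))).2 n
  have h2 := (h _ (Z_sub (Or.inr ⟨n, _, hq, hqu, Or.inr rfl⟩))).2 n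
  have vv : ⟪v n, v n⟫ = 1 := by rw [real_inner_self_eq_norm_sq, norm_v]; norm_num
  have ve : ⟪v n, e⟫ = 0 := by rw [real_inner_comm]; exact inner_ev n
  simp only [map_neg, map_smul, R.apply_symm_apply, inner_add_left, inner_neg_left,
    real_inner_smul_left, vv, ve, mul_one, mul_zero, zero_add] at h1 h2
  have a1 := h1.2
  have a2 := h2.1
  unfold rr at a1 a2
  have he := eta_pos n
  have : eta n * (sg n * ⟪x, e⟫) ≤ eta n * (-1/2) := by nlinarith
  exact le_of_mul_le_mul_left this he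

end Pool.Agent.H26.Kr
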