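import Pool.Agent.H26.KrA

set_option autoImplicit false
open scoped RealInnerProductSpace

namespace Pool.Agent.H26.Kr

open Pool.Agent.H26.KrDefs

noncomputable def actL (ρ : SO3) : V →ₗ[ℝ] V where
  toFun := act ρ
  map_add' a b := by simp [act, Matrix.mulVec_add]
  map_smul' c a := by simp [act, Matrix.mulVec_smul]

lemma act_inner (ρ : SO3) (a b : V) : ⟪act ρ a, act ρ b⟫ = ⟪a, b⟫ := by
  have h : (ρ : Matrix (Fin 3) (Fin 3) ℝ).transpose * (ρ : Matrix (Fin 3) (Fin 3) ℝ) = 1 :=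
    (Matrix.mem_orthogonalGroup_iff' (Fin 3) ℝ).1 (Matrix.mem_specialOrthogonalGroup_iff.1 ρ.2).1
  simp only [act, EuclideanSpace.inner_eq_star_dotProduct, star_trivial]
  rw [Matrix.dotProduct_mulVec, ← Matrix.mulVec_transpose, Matrix.mulVec_mulVec, h, Matrix.one_mulVec]

noncomputable def actE (ρ : SO3) : V ≃ₗᵢ[ℝ] V :=
  ((actL ρ).isometryOfInner (act_inner ρ)).toLinearIsometryEquiv rfl

lemma actE_apply (ρ : SO3) (s : V) : actE ρ s = act ρ s := rfl

lemma act_cont (s : V) : Continuous fun ρ : SO3 => act ρ s := by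
  unfold act
  refine (PiLp.continuous_toLp 2 _).comp ?_
  exact Continuous.matrix_mulVec continuous_subtype_val continuous_const

def rot : SO3 := ⟨!![0, -1, 0; 1, 0, 0; 0, 0, 1], by
  rw [Matrix.mem_specialOrthogonalGroup_iff, Matrix.mem_orthogonalGroup_iff]
  constructor
  · ext i j
    fin_cases i <;> fin_cases j <;> simp [Matrix.mul_apply, Fin.sum_univ_three]
  · simp [Matrix.det_fin_three]⟩

lemma rot_u : act rot u ≠ u := by
  intro h
  have := congrArg (fun x : V => x 0) h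
  simp [act, rot, u, Matrix.mulVec, dotProduct, Fin.sum_univ_three] at this

lemma one_u : act 1 u = u := by simp [act]

lemma no_path (Y : ℝ → V) (D : ℝ → ℝ) (hY : Continuous Y) (hD : Continuous D) (h0 : Y 0 = u)
    (h1 : Y 1 ≠ u) (hw : ∀ t n, ‖Y t - v n‖ = 2 * lam n → sg n * D t ≤ -1/2) : False := by
  set T : Set ℝ := Set.Icc 0 1 ∩ {t | Y t = u} with hT
  have hTc : IsCompact T := isCompact_Icc.inter_right (isClosed_eq hY continuous_const)
  obtain ⟨a, ha, hmax⟩ := hTc.exists_isGreatest ⟨0, ⟨by norm_num, h0⟩⟩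
  have ha1 : a < 1 := by
    rcases ha.1.2.eq_or_lt with h | h
    · exact (h1 (h ▸ ha.2)).elim
    · exact h
  obtain ⟨ε, hε, hcont⟩ := Metric.continuous_iff.1 hD a (1/2) (by norm_num)
  set b : ℝ := min (a + ε / 2) 1 with hb
  have hab : a < b := lt_min (by linarith) ha1
  have hb1 : b ≤ 1 := min_le_right _ _
  have hb2 : b ≤ a + ε / 2 := min_le_left _ _
  have hYb : Y b ≠ u := fun h => absurd (hmax ⟨⟨ha.1.1.trans hab.le, hb1⟩, h⟩) (not_le.2 hab)
  have hd : 0 < ‖Y b - u‖ := norm_pos_iff.2 (sub_ne_zero.2 hYb)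
  obtain ⟨n, hn⟩ := exists_pow_lt_of_lt_one hd (show (1:ℝ)/16 < 1 by norm_num)
  have cross : ∀ m, n ≤ m → ∃ t, |D t - D a| < 1/2 ∧ sg m * D t ≤ -1/2 := by
    intro m hm
    have hl : lam m ≤ lam n := lam_anti hm
    have hp := lam_pos m
    have hc : ContinuousOn (fun t => ‖Y t - v m‖) (Set.Icc a b) := by fun_prop
    have e1 : ‖Y a - v m‖ = lam m := by rw [ha.2, norm_vu]
    have e2 : 2 * lam m ≤ ‖Y b - v m‖ := by
      have := norm_sub_le (Y b - v m) (u - v m)
      rw [sub_sub_sub_cancel_right, norm_vu] at this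
      have h3 : lam n = 1/4 * (1/16) ^ n := rfl
      linarith
    obtain ⟨t, ht, hte⟩ := intermediate_value_Icc hab.le hc
      (show 2 * lam m ∈ Set.Icc ‖Y a - v m‖ ‖Y b - v m‖ from ⟨by linarith, e2⟩)
    refine ⟨t, ?_, hw t m hte⟩
    have := hcont t (by rw [Real.dist_eq, abs_lt]; constructor <;> linarith [ht.1, ht.2])
    rwa [Real.dist_eq] at this
  obtain ⟨t, h2, h3⟩ := cross n le_rfl
  obtain ⟨t', h4, h5⟩ := cross (n+1) (Nat.le_succ n)
  rw [sg_succ] at h5
  rw [abs_lt] at h2 h4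
  rcases sg_cases n with h | h <;> rw [h] at h3 h5 <;> linarith [h2.1, h2.2, h4.1, h4.2]

lemma ball_sub : Metric.ball (0 : V) (1/2) ⊆ S := fun p hp =>
  Z_sub (Or.inl (le_of_lt (by simpa using hp)))

theorem main : ∃ S : Set V, IsConvexBody S ∧ (interior S).Nonempty ∧ ¬ HasKRP S := by
  have h0 : (0 : V) ∈ interior S :=
    interior_maximal ball_sub Metric.isOpen_ball (Metric.mem_ball_self (by norm_num))
  refine ⟨S, ⟨⟨0, interior_subset h0⟩, S_compact, (convex_convexHull ℝ Z).closure⟩, ⟨0, h0⟩, ?_⟩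
  intro H
  have hK : IsKakeya S K := fun ρ => feas (actE ρ)
  obtain ⟨x₀, hx₀⟩ := hK 1
  obtain ⟨x₁, hx₁⟩ := hK rot
  obtain ⟨γ, δ, hγ, hδ, g0, -, g1, -, hc⟩ :=
    H K ⟨⟨_, hx₀ 0 (interior_subset h0)⟩, K_compact, K_convex⟩ hK 1 x₀ rot x₁ hx₀ hx₁
  let pr : ℝ → unitInterval := Set.projIcc 0 1 zero_le_one
  have hpr : Continuous pr := continuous_projIcc
  refine no_path (fun t => act (γ (pr t)) u) (fun t => ⟪δ (pr t), e⟫)
    ((act_cont u).comp (hγ.comp hpr)) (by fun_prop) ?_ ?_ ?_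
  · have : pr 0 = 0 := Set.projIcc_left _
    simp only [this, g0, one_u]
  · have : pr 1 = 1 := Set.projIcc_right _
    simp only [this, g1]; exact rot_u
  · intro t n h
    exact wall (actE (γ (pr t))) (δ (pr t)) n (hc (pr t)) h

end Pool.Agent.H26.Kr
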