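import Mathlib

set_option autoImplicit false

namespace Pool.Agent.H26.KrDefs

/-- Euclidean 3-space. -/
abbrev V : Type := EuclideanSpace ℝ (Fin 3)

/-- The rotation group `SO(3)`, with the topology of a subspace of the 3 by 3 matrices. -/
abbrev SO3 : Type := Matrix.specialOrthogonalGroup (Fin 3) ℝ

/-- The rotation `ρ` applied to the point `s`. -/
noncomputable def act (ρ : SO3) (s : V) : V :=
  WithLp.toLp 2 (Matrix.mulVec (ρ : Matrix (Fin 3) (Fin 3) ℝ) (WithLp.ofLp s))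

/-- Convex body: nonempty, compact, convex. -/
def IsConvexBody (S : Set V) : Prop := S.Nonempty ∧ IsCompact S ∧ Convex ℝ S

/-- `(ρ, x)` is an `S`-copy in `K`: `ρ(S) + x ⊆ K`. -/
def IsCopy (S K : Set V) (ρ : SO3) (x : V) : Prop := ∀ s ∈ S, act ρ s + x ∈ K

/-- `K` is `S`-Kakeya. -/
def IsKakeya (S K : Set V) : Prop := ∀ ρ : SO3, ∃ x : V, IsCopy S K ρ x

/-- Two copies can be rotated into each other within `K`. -/
def CanRotate (S K : Set V) (ρ₀ : SO3) (x₀ : V) (ρ₁ : SO3) (x₁ : V) : Prop :=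
  ∃ (γ : unitInterval → SO3) (δ : unitInterval → V), Continuous γ ∧ Continuous δ ∧
    γ 0 = ρ₀ ∧ δ 0 = x₀ ∧ γ 1 = ρ₁ ∧ δ 1 = x₁ ∧ ∀ t, IsCopy S K (γ t) (δ t)

/-- The Kakeya rotation property. -/
def HasKRP (S : Set V) : Prop :=
  ∀ K : Set V, IsConvexBody K → IsKakeya S K →
    ∀ (ρ₀ : SO3) (x₀ : V) (ρ₁ : SO3) (x₁ : V), IsCopy S K ρ₀ x₀ → IsCopy S K ρ₁ x₁ →
      CanRotate S K ρ₀ x₀ ρ₁ x₁

end Pool.Agent.H26.KrDefs
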