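import Mathlib
import Pool.Agent.H26.Shift
import Pool.Agent.H26.Chi

/-! A tree of histories with ladders: pulling an uncountably chromatic graph back to a sparse
graph of chromatic number aleph one. -/

namespace Pool.Agent.H26.Ladder

open Cardinal Set Chi

variable {I X : Type} [LinearOrder I] [Inhabited I] [Inhabited X]

@[ext] structure Node (I X : Type) [LinearOrder I] [Inhabited I] [Inhabited X] where
  ξ : I
  f : I → I × X
  hf : ∀ ζ, ξ ≤ ζ → f ζ = default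

def le (h h' : Node I X) : Prop := h.ξ ≤ h'.ξ ∧ ∀ ζ, ζ < h.ξ → h'.f ζ = h.f ζ

def cle (h h' : Node I X) : Prop := le h h' ∧ ∀ ζ, h.ξ ≤ ζ → ζ < h'.ξ → h.ξ ≤ (h'.f ζ).1

lemma le_refl' (h : Node I X) : le h h := ⟨le_rfl, fun _ _ => rfl⟩

lemma le_trans' {a b c : Node I X} (h : le a b) (h' : le b c) : le a c :=
  ⟨h.1.trans h'.1, fun ζ hζ => (h'.2 ζ (hζ.trans_le h.1)).trans (h.2 ζ hζ)⟩

lemma cle_refl (h : Node I X) : cle h h := ⟨le_refl' h, fun _ h1 h2 => (h2.not_ge h1).elim⟩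

lemma cle_trans {a b c : Node I X} (h : cle a b) (h' : cle b c) : cle a c := by
  refine ⟨le_trans' h.1 h'.1, fun ζ h1 h2 => ?_⟩
  rcases lt_or_ge ζ b.ξ with h3 | h3
  · rw [h'.1.2 ζ h3]; exact h.2 ζ h1 h3
  · exact h.1.1.trans (h'.2 ζ h3 h2)

lemma eq_of_le {a b v : Node I X} (ha : le a v) (hb : le b v) (e : a.ξ = b.ξ) : a = b := by
  refine Node.ext e (funext fun ζ => ?_)
  rcases lt_or_ge ζ a.ξ with h | h
  · rw [← ha.2 ζ h, hb.2 ζ (e ▸ h)]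
  · rw [a.hf ζ h, b.hf ζ (e ▸ h)]

def Base (v : Node I X) (σ : I) : Prop :=
  σ < v.ξ ∧ (∀ ζ, σ < ζ → ζ < v.ξ → σ ≤ (v.f ζ).1) ∧
    (∀ η, η < v.ξ → ∃ ζ, η < ζ ∧ ζ < v.ξ ∧ (v.f ζ).1 = σ) ∧
    ∀ ζ, ζ < v.ξ → {η | σ < η ∧ η < ζ ∧ (v.f η).1 = σ}.Finite

lemma base_unique {v : Node I X} {σ τ : I} (h : Base v σ) (h' : Base v τ) : σ = τ := by
  rcases lt_trichotomy σ τ with h1 | h1 | h1
  · obtain ⟨ζ, h2, h3, h4⟩ := h.2.2.1 τ h'.1
    exact (h1.not_ge (h4 ▸ h'.2.1 ζ h2 h3)).elim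
  · exact h1
  · obtain ⟨ζ, h2, h3, h4⟩ := h'.2.2.1 σ h.1
    exact (h1.not_ge (h4 ▸ h.2.1 ζ h2 h3)).elim

def Arc (H : SimpleGraph X) (w v : Node I X) : Prop :=
  le w v ∧ w.ξ < v.ξ ∧ ∃ σ τ, Base v σ ∧ Base w τ ∧ σ < w.ξ ∧ (v.f w.ξ).1 = σ ∧
    H.Adj (w.f τ).2 (v.f σ).2

def G (I : Type) [LinearOrder I] [Inhabited I] (H : SimpleGraph X) : SimpleGraph (Node I X) where
  Adj w v := Arc H w v ∨ Arc H v w
  symm := ⟨fun _ _ h => h.symm⟩
  loopless := ⟨fun _ h => by rcases h with h | h <;> exact lt_irrefl _ h.2.1⟩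

open Classical in
noncomputable def ty (v : Node I X) : X := if h : ∃ σ, Base v σ then (v.f h.choose).2 else default

lemma ty_eq {v : Node I X} {σ : I} (h : Base v σ) : ty v = (v.f σ).2 := by
  have h' : ∃ σ, Base v σ := ⟨σ, h⟩
  rw [ty, dif_pos h', base_unique h'.choose_spec h]

lemma adj_ty {H : SimpleGraph X} {w v : Node I X} (h : (G I H).Adj w v) : H.Adj (ty w) (ty v) := by
  rcases h with ⟨-, -, σ, τ, h1, h2, -, -, h3⟩ | ⟨-, -, σ, τ, h1, h2, -, -, h3⟩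
  · rw [ty_eq h1, ty_eq h2]; exact h3
  · rw [ty_eq h1, ty_eq h2]; exact h3.symm

lemma L1 {H : SimpleGraph X} {u w w' v : Node I X} (h1 : Arc H w v) (h2 : Arc H w' v)
    (h : w.ξ < w'.ξ) (h3 : Arc H u w') : w.ξ < u.ξ := by
  obtain ⟨-, -, σ, -, b1, -, a1, a2, -⟩ := h1
  obtain ⟨l2, l3, σ', τ, b2, b3, -, -, a3⟩ := h2
  obtain ⟨-, -, τ', -, b4, -, a4, -, -⟩ := h3
  obtain rfl := base_unique b1 b2
  obtain rfl := base_unique b3 b4
  refine lt_of_le_of_lt ?_ a4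
  by_contra hn
  have hn' : τ < w.ξ := not_le.1 hn
  have h5 : τ ≤ σ := by
    have := b3.2.1 w.ξ hn' h
    rwa [← l2.2 _ h, a2] at this
  rcases h5.lt_or_eq with h6 | rfl
  · obtain ⟨ζ, h7, h8, h9⟩ := b3.2.2.1 σ (a1.trans h)
    have := b1.2.1 ζ h7 (h8.trans l3)
    rw [l2.2 ζ h8, h9] at this
    exact h6.not_ge this
  · rw [l2.2 _ b3.1] at a3
    exact H.irrefl a3

lemma cofinal {H : SimpleGraph X} {v : Node I X} {W : Set (Node I X)} (hW : W.Infinite)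
    (h : ∀ w ∈ W, Arc H w v) (ζ : I) (hζ : ζ < v.ξ) : ∃ w ∈ W, ζ < w.ξ := by
  by_contra hn
  push Not at hn
  obtain ⟨w0, hw0⟩ := hW.nonempty
  obtain ⟨-, -, σ, -, b, -⟩ := h w0 hw0
  refine hW (Set.Finite.of_finite_image (f := fun w => w.ξ) (((b.2.2.2 ζ hζ).insert ζ).subset ?_)
    fun w hw w' hw' e => eq_of_le (h w hw).1 (h w' hw').1 e)
  rintro _ ⟨w, hw, rfl⟩
  obtain ⟨-, -, σ', -, b', -, a1, a2, -⟩ := h w hw
  obtain rfl := base_unique b b'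
  rcases (hn w hw).lt_or_eq with h' | h'
  · exact Or.inr ⟨a1, h', a2⟩
  · exact Or.inl h'

lemma L2 {H : SimpleGraph X} {v v' : Node I X} {W : Set (Node I X)} (hW : W.Infinite)
    (h : ∀ w ∈ W, Arc H w v) (h' : ∀ w ∈ W, Arc H w v') : v = v' := by
  have e : v.ξ = v'.ξ := by
    rcases lt_trichotomy v.ξ v'.ξ with h1 | h1 | h1
    · obtain ⟨w, hw, h2⟩ := cofinal hW h' _ h1
      exact (lt_asymm h2 (h w hw).2.1).elim
    · exact h1
    · obtain ⟨w, hw, h2⟩ := cofinal hW h _ h1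
      exact (lt_asymm h2 (h' w hw).2.1).elim
  refine Node.ext e (funext fun ζ => ?_)
  rcases lt_or_ge ζ v.ξ with h1 | h1
  · obtain ⟨w, hw, h2⟩ := cofinal hW h _ h1
    rw [(h w hw).1.2 ζ h2, (h' w hw).1.2 ζ h2]
  · rw [v.hf ζ h1, v'.hf ζ (e ▸ h1)]

lemma noK_aux {H : SimpleGraph X} (a b : ℕ → Node I X) (ha : Function.Injective a)
    (hb : Function.Injective b) (h : ∀ i j, (G I H).Adj (a i) (b j)) (i0 : ℕ)
    (hmin : ∀ j, (a i0).ξ ≤ (b j).ξ) : False := by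
  have h0 : ∀ j, Arc H (a i0) (b j) := fun j =>
    (h i0 j).resolve_right fun h' => h'.2.1.not_ge (hmin j)
  have h1 : ∀ i j j', Arc H (b j) (a i) → Arc H (b j') (a i) → j = j' := by
    intro i j j' e e'
    rcases lt_trichotomy (b j).ξ (b j').ξ with h' | h' | h'
    · exact ((L1 e e' h' (h0 j')).not_ge (hmin j)).elim
    · exact hb (eq_of_le e.1 e'.1 h')
    · exact ((L1 e' e h' (h0 j)).not_ge (hmin j')).elim
  have h2 : ∀ j j', j ≠ j' → {i | Arc H (a i) (b j) ∧ Arc H (a i) (b j')}.Finite := by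
    intro j j' hne
    by_contra hn
    refine hne (hb (L2 (H := H) (Set.Infinite.image ha.injOn hn) ?_ ?_))
    · rintro _ ⟨i, hi, rfl⟩; exact hi.1
    · rintro _ ⟨i, hi, rfl⟩; exact hi.2
  refine Set.infinite_univ (α := ℕ)
    ((((h2 0 1 (by decide)).union (h2 0 2 (by decide))).union (h2 1 2 (by decide))).subset
      fun i _ => ?_)
  rcases h i 0 with e0 | e0 <;> rcases h i 1 with e1 | e1 <;> rcases h i 2 with e2 | e2
  · exact Or.inl (Or.inl ⟨e0, e1⟩)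
  · exact Or.inl (Or.inl ⟨e0, e1⟩)
  · exact Or.inl (Or.inr ⟨e0, e2⟩)
  · exact absurd (h1 i 1 2 e1 e2) (by decide)
  · exact Or.inr ⟨e1, e2⟩
  · exact absurd (h1 i 0 2 e0 e2) (by decide)
  · exact absurd (h1 i 0 1 e0 e1) (by decide)
  · exact absurd (h1 i 0 1 e0 e1) (by decide)

variable [WellFoundedLT I]

theorem noK {H : SimpleGraph X} (a b : ℕ → Node I X) (ha : Function.Injective a)
    (hb : Function.Injective b) (h : ∀ i j, (G I H).Adj (a i) (b j)) : False := by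
  obtain ⟨_, ⟨i, rfl⟩, hi⟩ := wellFounded_lt.has_min (range fun i => (a i).ξ) (range_nonempty _)
  obtain ⟨_, ⟨j, rfl⟩, hj⟩ := wellFounded_lt.has_min (range fun i => (b i).ξ) (range_nonempty _)
  rcases le_total (a i).ξ (b j).ξ with h' | h'
  · exact noK_aux a b ha hb h i fun j' => h'.trans (not_lt.1 (hj _ ⟨j', rfl⟩))
  · exact noK_aux b a hb ha (fun i j => (h j i).symm) j
      fun i' => h'.trans (not_lt.1 (hi _ ⟨i', rfl⟩))

lemma exists_lim {ι : Type} (h : ι → Node I X) (hb : ∃ b, ∀ t, (h t).ξ ≤ b)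
    (hc : ∀ s t, le (h s) (h t) ∨ le (h t) (h s)) :
    ∃ u, (∀ t, le (h t) u) ∧ ∀ ζ, ζ < u.ξ → ∃ t, ζ < (h t).ξ := by
  classical
  obtain ⟨b, hb1, hb2⟩ := wellFounded_lt.has_min {b | ∀ t, (h t).ξ ≤ b} hb
  refine ⟨⟨b, fun ζ => if H : ∃ t, ζ < (h t).ξ then (h H.choose).f ζ else default, ?_⟩,
    fun t => ⟨hb1 t, fun ζ hζ => ?_⟩, fun ζ hζ => ?_⟩
  · intro ζ hζ
    rw [dif_neg]
    rintro ⟨t, ht⟩
    exact ht.not_ge ((hb1 t).trans hζ)
  · have H : ∃ t, ζ < (h t).ξ := ⟨t, hζ⟩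
    simp only [dif_pos H]
    rcases hc t H.choose with h' | h'
    · exact h'.2 ζ hζ
    · exact (h'.2 ζ H.choose_spec).symm
  · by_contra hn
    push Not at hn
    exact hb2 ζ hn hζ

lemma exists_succ (h : Node I X) (hb : ∃ b, h.ξ < b) (m : I × X) :
    ∃ u, le h u ∧ (∀ ζ, ζ < u.ξ ↔ ζ ≤ h.ξ) ∧ u.f h.ξ = m := by
  classical
  obtain ⟨b, hb1, hb2⟩ := wellFounded_lt.has_min {b | h.ξ < b} hb
  have hb1' : h.ξ < b := hb1
  refine ⟨⟨b, fun ζ => if ζ = h.ξ then m else h.f ζ, fun ζ hζ => ?_⟩,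
    ⟨hb1'.le, fun ζ hζ => if_neg hζ.ne⟩, fun ζ => ⟨fun hζ => ?_, fun hζ => hζ.trans_lt hb1'⟩,
    if_pos rfl⟩
  · rw [if_neg (hb1'.trans_le hζ).ne']
    exact h.hf ζ (hb1'.le.trans hζ)
  · by_contra hn
    exact hb2 ζ (not_le.1 hn) hζ

/-- colours seen above a history -/
def Col (c : Node I X → ℕ) (h : Node I X) : Set (X × ℕ) :=
  {p | ∃ v, cle h v ∧ c v = p.2 ∧ ∃ σ, h.ξ ≤ σ ∧ Base v σ ∧ (v.f σ).2 = p.1}

omit [WellFoundedLT I] in
lemma Col_mono (c : Node I X → ℕ) {h h' : Node I X} (e : cle h h') : Col c h' ⊆ Col c h := by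
  rintro p ⟨v, h1, h2, σ, h3, h4⟩
  exact ⟨v, cle_trans e h1, h2, σ, e.1.1.trans h3, h4⟩

lemma stable (hI : ∀ s : Set I, #s ≤ #(Set (X × ℕ)) → ∃ b, ∀ a ∈ s, a < b) (c : Node I X → ℕ) :
    ∃ h0 : Node I X, ∀ h, cle h0 h → Col c h = Col c h0 := by
  let r : Node I X → Node I X → Prop := fun h h' => h = h' ∨ (cle h h' ∧ Col c h' ≠ Col c h)
  have hr : ∀ {a b}, r a b → cle a b := fun {a b} h => by
    rcases h with rfl | h
    · exact cle_refl _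
    · exact h.1
  have htr : ∀ {a b d}, r a b → r b d → r a d := fun {a b d} h h' => by
    rcases h with rfl | h
    · exact h'
    · refine Or.inr ⟨cle_trans h.1 (hr h'), fun e => h.2 ?_⟩
      exact (Col_mono c h.1).antisymm (e ▸ Col_mono c (hr h'))
  obtain ⟨m, hm⟩ := exists_maximal_of_chains_bounded (r := r) (fun C hC => by
    have hc : ∀ s t : C, r s t ∨ r t s := fun s t => by
      by_cases e : s.1 = t.1
      · exact Or.inl (Or.inl e)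
      · exact hC s.2 t.2 e
    have hcard : #C ≤ #(Set (X × ℕ)) := by
      refine Cardinal.mk_le_of_injective (f := fun s : C => Col c s.1) fun s t e => ?_
      rcases hc s t with (h | h) | (h | h)
      · exact Subtype.ext h
      · exact (h.2 e.symm).elim
      · exact Subtype.ext h.symm
      · exact (h.2 e).elim
    obtain ⟨b, hb⟩ := hI (range fun s : C => s.1.ξ) (Cardinal.mk_range_le.trans hcard)
    obtain ⟨u, hu1, hu2⟩ := exists_lim (fun s : C => s.1) ⟨b, fun t => (hb _ ⟨t, rfl⟩).le⟩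
      fun s t => (hc s t).imp (fun h => (hr h).1) fun h => (hr h).1
    have hu : ∀ s : C, cle s.1 u := fun s => by
      refine ⟨hu1 s, fun ζ h1 h2 => ?_⟩
      obtain ⟨t, ht⟩ := hu2 ζ h2
      rcases hc s t with h | h
      · rw [(hu1 t).2 ζ ht]; exact (hr h).2 ζ h1 ht
      · exact (ht.not_ge ((hr h).1.1.trans h1)).elim
    by_cases hex : ∃ s : C, Col c u = Col c s.1
    · obtain ⟨s, hs⟩ := hex
      refine ⟨s.1, fun a ha => ?_⟩
      rcases hc ⟨a, ha⟩ s with h | h | h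
      · exact h
      · exact Or.inl h.symm
      · exact (h.2 ((Col_mono c h.1).antisymm (hs ▸ Col_mono c (hu ⟨a, ha⟩)))).elim
    · push Not at hex
      exact ⟨u, fun a ha => Or.inr ⟨hu ⟨a, ha⟩, hex ⟨a, ha⟩⟩⟩) htr
  refine ⟨m, fun h hh => ?_⟩
  by_contra hn
  rcases hm h (Or.inr ⟨hh, hn⟩) with e | e
  · exact hn (by rw [e])
  · exact hn ((Col_mono c hh).antisymm (Col_mono c e.1))

lemma build (hI : ∀ s : Set I, #s ≤ #(Set (X × ℕ)) → ∃ b, ∀ a ∈ s, a < b) (H : SimpleGraph X)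
    (c : Node I X → ℕ) (hc : ∀ w v, Arc H w v → c w ≠ c v) (h0 : Node I X)
    (hst : ∀ h, cle h0 h → Col c h = Col c h0) (x : X) :
    ∃ j, (x, j) ∈ Col c h0 ∧ ∀ y, H.Adj y x → (y, j) ∉ Col c h0 := by
  classical
  have hℵ : ℵ₀ ≤ #(Set (X × ℕ)) := Cardinal.aleph0_le_mk _
  have hnm : ∀ a : I, ∃ b, a < b := fun a => by
    obtain ⟨b, hb⟩ := hI {a} (by
      rw [Cardinal.mk_singleton]; exact Cardinal.one_lt_aleph0.le.trans hℵ)
    exact ⟨b, hb a rfl⟩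
  let Inv : Node I X → Prop := fun h => cle h0 h ∧ h0.ξ < h.ξ ∧ h.f h0.ξ = (h0.ξ, x) ∧
    {η | h0.ξ < η ∧ η < h.ξ ∧ (h.f η).1 = h0.ξ}.Finite
  have step : ∀ (j : ℕ) (h : {h // Inv h}), ∃ h' : {h // Inv h}, le h.1 h'.1 ∧ ∃ w,
      h.1.ξ ≤ w.ξ ∧ w.ξ < h'.1.ξ ∧ le w h'.1 ∧ (h'.1.f w.ξ).1 = h0.ξ ∧
      ((∃ y, H.Adj y x ∧ (y, j) ∈ Col c h0) → c w = j ∧ ∃ τ, Base w τ ∧ H.Adj (w.f τ).2 x) := by
    rintro j ⟨h, i1, i2, i3, i4⟩
    have hw : ∃ w, cle h w ∧ ((∃ y, H.Adj y x ∧ (y, j) ∈ Col c h0) →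
        c w = j ∧ ∃ τ, Base w τ ∧ H.Adj (w.f τ).2 x) := by
      by_cases hex : ∃ y, H.Adj y x ∧ (y, j) ∈ Col c h0
      · obtain ⟨y, h1, h2⟩ := hex
        rw [← hst h i1] at h2
        obtain ⟨w, h3, h4, τ, -, h5, h6⟩ := h2
        exact ⟨w, h3, fun _ => ⟨h4, τ, h5, by rw [h6]; exact h1⟩⟩
      · exact ⟨h, cle_refl h, fun h' => (hex h').elim⟩
    obtain ⟨w, hw1, hw2⟩ := hw
    obtain ⟨u, hu1, hu2, hu3⟩ := exists_succ w (hnm _) (h0.ξ, x)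
    have hwu : w.ξ < u.ξ := (hu2 _).2 le_rfl
    have hhu : le h u := le_trans' hw1.1 hu1
    refine ⟨⟨u, ⟨le_trans' i1.1 hhu, fun ζ h1 h2 => ?_⟩, i2.trans_le hhu.1,
      (hhu.2 _ i2).trans i3, (i4.insert w.ξ).subset ?_⟩, hhu, w, hw1.1.1, hwu, hu1,
      by rw [hu3], hw2⟩
    · rcases ((hu2 ζ).1 h2).lt_or_eq with h3 | rfl
      · rw [hu1.2 ζ h3]; exact (cle_trans i1 hw1).2 ζ h1 h3
      · rw [hu3]
    · rintro η ⟨h1, h2, h3⟩
      rcases ((hu2 η).1 h2).lt_or_eq with h4 | h4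
      · rcases lt_or_ge η h.ξ with h5 | h5
        · exact Or.inr ⟨h1, h5, by rw [← hhu.2 η h5]; exact h3⟩
        · have := hw1.2 η h5 h4
          rw [← hu1.2 η h4, h3] at this
          exact (i2.not_ge this).elim
      · exact Or.inl h4
  choose nx hnx1 w hw1 hw2 hw3 hw4 hw5 using step
  obtain ⟨u0, hu1, hu2, hu3⟩ := exists_succ h0 (hnm _) (h0.ξ, x)
  have hu0 : Inv u0 := by
    refine ⟨⟨hu1, fun ζ h1 h2 => ?_⟩, (hu2 _).2 le_rfl, hu3, Set.finite_empty.subset ?_⟩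
    · rw [le_antisymm ((hu2 ζ).1 h2) h1, hu3]
    · rintro η ⟨h1, h2, -⟩
      exact h1.not_ge ((hu2 η).1 h2)
  let s : ℕ → {h // Inv h} := fun j => Nat.rec ⟨u0, hu0⟩ (fun j h => nx j h) j
  have hs : ∀ j, s (j + 1) = nx j (s j) := fun j => rfl
  have hmono : ∀ i j, i ≤ j → le (s i).1 (s j).1 := by
    intro i j hij
    induction j, hij using Nat.le_induction with
    | base => exact le_refl' _
    | succ j _ ih => exact le_trans' ih (hnx1 j (s j))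
  obtain ⟨b, hb⟩ := hI (range fun j => (s j).1.ξ)
    (Cardinal.mk_range_le.trans (by rw [Cardinal.mk_nat]; exact hℵ))
  obtain ⟨v, hv1, hv2⟩ := exists_lim (fun j => (s j).1) ⟨b, fun t => (hb _ ⟨t, rfl⟩).le⟩
    fun i j => (le_total i j).imp (hmono i j) (hmono j i)
  have hcle : cle h0 v := by
    refine ⟨le_trans' (s 0).2.1.1 (hv1 0), fun ζ h1 h2 => ?_⟩
    obtain ⟨t, ht⟩ := hv2 ζ h2
    rw [(hv1 t).2 ζ ht]
    exact (s t).2.1.2 ζ h1 ht
  have hvw : ∀ j, (w j (s j)).ξ < v.ξ ∧ (v.f (w j (s j)).ξ).1 = h0.ξ := fun j =>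
    ⟨(hw2 j (s j)).trans_le (hv1 (j + 1)).1, by
      rw [(hv1 (j + 1)).2 _ (hw2 j (s j))]; exact hw4 j (s j)⟩
  have hbase : Base v h0.ξ := by
    refine ⟨(s 0).2.2.1.trans_le (hv1 0).1, fun ζ h1 h2 => hcle.2 ζ h1.le h2, fun η hη => ?_,
      fun ζ hζ => ?_⟩
    · obtain ⟨t, ht⟩ := hv2 η hη
      exact ⟨_, ht.trans_le (hw1 t (s t)), hvw t⟩
    · obtain ⟨t, ht⟩ := hv2 ζ hζ
      refine (s t).2.2.2.2.subset ?_
      rintro η ⟨h1, h2, h3⟩
      exact ⟨h1, h2.trans ht, by rw [← (hv1 t).2 η (h2.trans ht)]; exact h3⟩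
  have hx : (v.f h0.ξ).2 = x := by rw [(hv1 0).2 _ (s 0).2.2.1, (s 0).2.2.2.1]
  refine ⟨c v, ⟨v, hcle, rfl, h0.ξ, le_rfl, hbase, hx⟩, fun y hy hy' => ?_⟩
  obtain ⟨h1, τ, h2, h3⟩ := hw5 (c v) (s (c v)) ⟨y, hy, hy'⟩
  exact hc _ v ⟨le_trans' (hw3 _ _) (hv1 (c v + 1)), (hvw _).1, h0.ξ, τ, hbase, h2,
    (s (c v)).2.2.1.trans_le (hw1 _ _), (hvw _).2, by rw [hx]; exact h3⟩ h1

theorem chi_G (hI : ∀ s : Set I, #s ≤ #(Set (X × ℕ)) → ∃ b, ∀ a ∈ s, a < b) (H : SimpleGraph X)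
    (hH : ∀ c : X → ℕ, ∃ x y, H.Adj x y ∧ c x = c y) : chi (G I H) = Cardinal.aleph 1 := by
  refine chi_eq _ (fun x y => x.ξ < y.ξ) (InvImage.wf Node.ξ wellFounded_lt) ?_ ?_ ?_
  · rintro x y (h | h)
    · exact Or.inl h.2.1
    · exact Or.inr h.2.1
  · intro v
    have hA : ∀ w ∈ {x | (G I H).Adj x v ∧ x.ξ < v.ξ}, Arc H w v := fun w hw =>
      hw.1.resolve_right fun h => lt_asymm h.2.1 hw.2
    set W := {x | (G I H).Adj x v ∧ x.ξ < v.ξ}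
    have hfin : ∀ w ∈ W, {u | u ∈ W ∧ u.ξ < w.ξ}.Finite := by
      intro w hw
      by_contra hn
      obtain ⟨u, hu, h⟩ := cofinal hn (fun u hu => hA u hu.1) _ hw.2
      exact lt_asymm h hu.2
    refine Set.countable_iff_exists_injOn.2 ⟨fun w => {u | u ∈ W ∧ u.ξ < w.ξ}.ncard, ?_⟩
    have key : ∀ w ∈ W, ∀ w' ∈ W, w.ξ < w'.ξ →
        {u | u ∈ W ∧ u.ξ < w.ξ}.ncard < {u | u ∈ W ∧ u.ξ < w'.ξ}.ncard := fun w hw w' hw' h =>
      Set.ncard_lt_ncard ⟨fun u hu => ⟨hu.1, hu.2.trans h⟩, fun h' => lt_irrefl _ (h' ⟨hw, h⟩).2⟩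
        (hfin w' hw')
    intro w hw w' hw' e
    rcases lt_trichotomy w.ξ w'.ξ with h | h | h
    · exact ((key w hw w' hw' h).ne e).elim
    · exact eq_of_le (hA w hw).1 (hA w' hw').1 h
    · exact ((key w' hw' w hw h).ne e.symm).elim
  · intro c
    by_contra hn
    push Not at hn
    obtain ⟨h0, hst⟩ := stable hI c
    choose φ h1 h2 using build hI H c (fun w v h => hn w v (Or.inl h)) h0 hst
    obtain ⟨x, y, h3, h4⟩ := hH φ
    exact h2 y x h3 (h4 ▸ h1 x)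

/-! The shift graph -/

def Sh {J : Type} [LinearOrder J] (n : ℕ) (x y : List J) : Prop :=
  ∃ a t b, x = a :: t ∧ y = t ++ [b] ∧ t.length = n ∧ (a :: (t ++ [b])).Pairwise (· < ·)

def SG (J : Type) [LinearOrder J] (n : ℕ) : SimpleGraph (List J) where
  Adj x y := Sh n x y ∨ Sh n y x
  symm := ⟨fun _ _ h => h.symm⟩
  loopless := ⟨fun x h => by
    have h' : Sh n x x := by rcases h with h | h <;> exact h
    obtain ⟨a, t, b, h1, h2, -, h3⟩ := h'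
    exact lt_irrefl _ ((List.pairwise_cons.1 h3).1 a (by rw [← h2, h1]; simp))⟩

lemma walk {J : Type} [LinearOrder J] (n : ℕ) (p : ℕ → List J)
    (hp : ∀ i, (SG J n).Adj (p i) (p (i + 1))) (m : ℕ) :
    ∃ q ≤ m, ∀ i, m ≤ i → i + m ≤ n → (p 0)[i]? = (p m)[i + 2 * q - m]? := by
  induction m with
  | zero => exact ⟨0, le_rfl, fun i _ _ => by simp⟩
  | succ m ih =>
    obtain ⟨q, hq, h⟩ := ih
    rcases hp m with ⟨a, t, b, h1, h2, h3, -⟩ | ⟨a, t, b, h1, h2, h3, -⟩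
    · refine ⟨q, by omega, fun i h4 h5 => ?_⟩
      rw [h i (by omega) (by omega), h1, h2, List.getElem?_append_left (by omega),
        show i + 2 * q - m = (i + 2 * q - (m + 1)) + 1 by omega, List.getElem?_cons_succ]
    · refine ⟨q + 1, by omega, fun i h4 h5 => ?_⟩
      rw [h i (by omega) (by omega), h1, h2, List.getElem?_append_left (by omega),
        show i + 2 * (q + 1) - (m + 1) = (i + 2 * q - m) + 1 by omega, List.getElem?_cons_succ]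

lemma no_odd {J : Type} [LinearOrder J] (n : ℕ) (p : ℕ → List J)
    (hp : ∀ i, (SG J n).Adj (p i) (p (i + 1))) (m : ℕ) (hm : Odd m) (hmn : 2 * m ≤ n)
    (e : p m = p 0) : False := by
  obtain ⟨q, hq, h⟩ := walk n p hp m
  have h1 := h m le_rfl (by omega)
  rw [e, show m + 2 * q - m = 2 * q by omega] at h1
  have h2 : (p 0).length = n + 1 ∧ (p 0).Pairwise (· < ·) := by
    rcases hp 0 with ⟨a, t, b, h1, -, h3, h4⟩ | ⟨a, t, b, -, h2, h3, h4⟩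
    · rw [h1]
      exact ⟨by simpa, (List.pairwise_append.1 (show ((a :: t) ++ [b]).Pairwise _ from h4)).1⟩
    · rw [h2]
      exact ⟨by simpa, (List.pairwise_cons.1 h4).2⟩
  have h3 : (p 0).Nodup := h2.2.imp fun h => h.ne
  rw [List.getElem?_eq_getElem (by omega), List.getElem?_eq_getElem (by omega),
    Option.some.injEq, h3.getElem_inj_iff] at h1
  obtain ⟨k, hk⟩ := hm
  omega

end Pool.Agent.H26.Ladder
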