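import Pool.Agent.H26.LdB

set_option autoImplicit false

namespace Pool.Agent.H26.Ld

open Real

/-- No point lies in a triangle spanned by other points. -/
def Hull {n : ℕ} (X Y : Fin n → ℝ) : Prop :=
  ∀ i a b c : Fin n, a ≠ i → b ≠ i → c ≠ i → ∀ α β γ : ℝ, 0 ≤ α → 0 ≤ β → 0 ≤ γ →
    α + β + γ = 1 → X i = α * X a + β * X b + γ * X c → Y i = α * Y a + β * Y b + γ * Y c → False

theorem sorted {n : ℕ} {X Y : Fin n → ℝ} (H : Hull X Y) (P : Fin n) (hX : X P = 0) (hY : Y P = 0)
    (hpos : ∀ z, z ≠ P → 0 < X z) :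
    ∃ v : ℕ → Fin n, v 0 = P ∧ v n = P ∧ (∀ a, ∃ r, r < n ∧ v r = a) ∧
      (∀ r r', r < r' → r' < n → v r ≠ v r') ∧
      ∀ a b c, a < b → b < c → c ≤ n → (0 < a ∨ c < n) →
        0 < cr (fun r => X (v r)) (fun r => Y (v r)) a b c := by
  classical
  let key : Fin n → ℝ := fun z => if z = P then -2 else arctan (Y z / X z)
  have kP : ∀ z, z ≠ P → key P < key z := by
    intro z hz
    simp only [key, if_true, hz, if_false]
    have := neg_pi_div_two_lt_arctan (Y z / X z)
    linarith [pi_le_four]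
  have col : ∀ a b, a ≠ P → b ≠ P → a ≠ b → X a ≤ X b → Y a * X b ≠ Y b * X a := by
    intro a b ha hb hab hle he
    have h1 := hpos a ha
    have h2 := hpos b hb
    refine H a b P P hab.symm ha.symm ha.symm (X a / X b) (1 - X a / X b) 0 (by positivity)
      (by rw [sub_nonneg, div_le_one h2]; exact hle) le_rfl (by ring) ?_ ?_
    · rw [hX]; field_simp; ring
    · rw [hY]; field_simp; linarith
  have kinj : Function.Injective key := by
    intro a b hab
    by_contra hne
    by_cases ha : a = P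
    · have := kP b (fun h => hne (ha.trans h.symm))
      rw [← ha] at this; exact this.ne hab
    by_cases hb : b = P
    · have := kP a ha
      rw [← hb] at this; exact this.ne hab.symm
    simp only [key, ha, hb, if_false] at hab
    have e := arctan_injective hab
    rw [div_eq_div_iff (hpos a ha).ne' (hpos b hb).ne'] at e
    rcases le_total (X a) (X b) with h | h
    · exact col a b ha hb hne h e
    · exact col b a hb ha (Ne.symm hne) h e.symm
  let σ := Tuple.sort key
  have sm : StrictMono (key ∘ σ) :=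
    (Tuple.monotone_sort key).strictMono_of_injective (kinj.comp σ.injective)
  have hn : 0 < n := Fin.pos P
  have s0 : σ ⟨0, hn⟩ = P := by
    by_contra hne
    have h1 := kP _ hne
    have h2 : (key ∘ σ) ⟨0, hn⟩ ≤ (key ∘ σ) (σ.symm P) := sm.monotone (Nat.zero_le _)
    simp only [Function.comp, Equiv.apply_symm_apply] at h2
    linarith
  let v : ℕ → Fin n := fun r => if h : r < n then σ ⟨r, h⟩ else P
  have v0 : v 0 = P := by simp only [v, hn, dif_pos, s0]
  have vn : v n = P := by simp [v]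
  have vlt : ∀ r r', r < r' → r' < n → key (v r) < key (v r') := by
    intro r r' h1 h2
    simp only [v, h2, h1.trans h2, dif_pos]
    exact sm (show (⟨r, h1.trans h2⟩ : Fin n) < ⟨r', h2⟩ from h1)
  have vinj : ∀ r r', r < r' → r' < n → v r ≠ v r' := fun r r' h1 h2 h =>
    (vlt r r' h1 h2).ne (by rw [h])
  have vP : ∀ r, 0 < r → r < n → v r ≠ P := fun r h1 h2 h => vinj 0 r h1 h2 (v0.trans h.symm)
  have cx : ∀ a b, 0 < a → a < b → b < n → Y (v a) * X (v b) < Y (v b) * X (v a) := by
    intro a b h1 h2 h3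
    have k := vlt a b h2 h3
    have p1 := vP a h1 (by omega)
    have p2 := vP b (by omega) h3
    simp only [key, p1, p2, if_false] at k
    have := arctan_strictMono.lt_iff_lt.1 k
    rwa [div_lt_div_iff₀ (hpos _ p1) (hpos _ p2)] at this
  refine ⟨v, v0, vn, fun a => ⟨σ.symm a, (σ.symm a).2, by simp [v]⟩, vinj, ?_⟩
  intro a b c h1 h2 h3 h4
  unfold cr
  beta_reduce
  rcases Nat.eq_zero_or_pos a with rfl | ha
  · have := cx b c h1 h2 (by omega)
    rw [v0, hX, hY]; linarith
  rcases h3.eq_or_lt with rfl | h3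
  · have := cx a b ha h1 h2
    rw [vn, hX, hY]; linarith
  have c1 := cx a b ha h1 (by omega)
  have c2 := cx b c (by omega) h2 h3
  have c3 := cx a c ha (by omega) h3
  by_contra hc
  have hc := not_lt.1 hc
  set K := Y (v c) * X (v a) - Y (v a) * X (v c) with hK
  have K0 : 0 < K := by linarith
  refine H (v b) (v a) (v c) P (vinj a b h1 (by omega)) (vinj b c h2 h3).symm
    (vP b (by omega) (by omega)).symm ((Y (v c) * X (v b) - Y (v b) * X (v c)) / K)
    ((Y (v b) * X (v a) - Y (v a) * X (v b)) / K)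
    (1 - (Y (v c) * X (v b) - Y (v b) * X (v c)) / K - (Y (v b) * X (v a) - Y (v a) * X (v b)) / K)
    (div_nonneg (by linarith) K0.le) (div_nonneg (by linarith) K0.le) ?_ (by ring) ?_ ?_
  · rw [sub_sub, ← add_div, sub_nonneg, div_le_one K0]; linarith
  · rw [hX]; field_simp; rw [hK]; ring
  · rw [hY]; field_simp; rw [hK]; ring

theorem sorted' {n : ℕ} {u w : Fin n → ℝ} (H : Hull u w) (P Q : Fin n) (hPQ : P ≠ Q)
    (diam : ∀ z, (u z - u Q) ^ 2 + (w z - w Q) ^ 2 ≤ (u Q - u P) ^ 2 + (w Q - w P) ^ 2) :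
    ∃ v : ℕ → Fin n, v 0 = P ∧ v n = P ∧ (∀ a, ∃ r, r < n ∧ v r = a) ∧
      (∀ r r', r < r' → r' < n → v r ≠ v r') ∧
      ∀ a b c, a < b → b < c → c ≤ n → (0 < a ∨ c < n) →
        0 < cr (fun r => u (v r)) (fun r => w (v r)) a b c := by
  have sep : ∀ z, z ≠ P → 0 < (u z - u P) ^ 2 + (w z - w P) ^ 2 := by
    intro z hz
    by_contra h
    have h := not_lt.1 h
    exact H z P P P hz.symm hz.symm hz.symm 1 0 0 zero_le_one le_rfl le_rfl (by ring)
      (by nlinarith [sq_nonneg (u z - u P), sq_nonneg (w z - w P)])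
      (by nlinarith [sq_nonneg (u z - u P), sq_nonneg (w z - w P)])
  set e1 := u Q - u P with he1
  set e2 := w Q - w P with he2
  have E : 0 < e1 ^ 2 + e2 ^ 2 := sep Q hPQ.symm
  let X : Fin n → ℝ := fun z => (u z - u P) * e1 + (w z - w P) * e2
  let Y : Fin n → ℝ := fun z => (w z - w P) * e1 - (u z - u P) * e2
  have H' : Hull X Y := by
    intro i a b c h1 h2 h3 α β γ g1 g2 g3 g4 g5 g6
    simp only [X, Y] at g5 g6
    obtain rfl : γ = 1 - α - β := by linarith
    refine H i a b c h1 h2 h3 α β _ g1 g2 g3 g4 ?_ ?_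
    · apply mul_left_cancel₀ E.ne'
      linear_combination e1 * g5 - e2 * g6
    · apply mul_left_cancel₀ E.ne'
      linear_combination e2 * g5 + e1 * g6
  obtain ⟨v, h1, h2, h3, h4, h5⟩ := sorted H' P (by simp [X]) (by simp [Y]) (fun z hz => by
    have a1 := sep z hz
    have a2 := diam z
    simp only [X]
    have e : u z - u Q = u z - u P - e1 := by rw [he1]; ring
    have e' : w z - w Q = w z - w P - e2 := by rw [he2]; ring
    rw [e, e'] at a2
    nlinarith)
  refine ⟨v, h1, h2, h3, h4, fun a b c g1 g2 g3 g4 => ?_⟩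
  have := h5 a b c g1 g2 g3 g4
  have e : cr (fun r => X (v r)) (fun r => Y (v r)) a b c =
      (e1 ^ 2 + e2 ^ 2) * cr (fun r => u (v r)) (fun r => w (v r)) a b c := by
    unfold cr; simp only [X, Y]; ring
  rw [e] at this
  exact (mul_pos_iff_of_pos_left E).1 this

theorem hull_of {n : ℕ} {p : Fin n → EuclideanSpace ℝ (Fin 2)}
    (h : ∀ i : Fin n, p i ∉ convexHull ℝ (p '' {j : Fin n | j ≠ i})) :
    Hull (fun z => p z 0) (fun z => p z 1) := by
  intro i a b c h1 h2 h3 α β γ g1 g2 g3 g4 g5 g6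
  apply h i
  have m : ∀ z, z ≠ i → p z ∈ convexHull ℝ (p '' {j : Fin n | j ≠ i}) := fun z hz =>
    subset_convexHull _ _ ⟨z, hz, rfl⟩
  have := (convex_convexHull ℝ (p '' {j : Fin n | j ≠ i})).sum_mem (t := Finset.univ)
    (w := ![α, β, γ]) (z := ![p a, p b, p c])
    (by intro k _; fin_cases k <;> simpa) (by simpa [Fin.sum_univ_three] using g4)
    (by intro k _; fin_cases k <;> simp only [] <;> first | exact m _ h1 | exact m _ h2 | exact m _ h3)
  have e : p i = ∑ k : Fin 3, ![α, β, γ] k • ![p a, p b, p c] k := by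
    ext k
    fin_cases k
    · simpa [Fin.sum_univ_three] using g5
    · simpa [Fin.sum_univ_three] using g6
  rwa [e]

theorem dist_ds {n : ℕ} (p : Fin n → EuclideanSpace ℝ (Fin 2)) (v : ℕ → Fin n) (a b : ℕ) :
    ds (fun r => p (v r) 0) (fun r => p (v r) 1) a b = dist (p (v a)) (p (v b)) := by
  rw [dist_comm, EuclideanSpace.dist_eq, Fin.sum_univ_two, Real.dist_eq, Real.dist_eq, sq_abs,
    sq_abs]
  rfl

theorem main (n : ℕ) (p : Fin n → EuclideanSpace ℝ (Fin 2))
    (h : ∀ i : Fin n, p i ∉ convexHull ℝ (p '' {j : Fin n | j ≠ i})) (i j : Fin n) (hij : i ≠ j)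
    (S : Finset ℝ) (hS : ∀ a b, a ≠ b → dist (p i) (p j) ≤ dist (p a) (p b) →
      dist (p a) (p b) ∈ S) :
    (SimpleGraph.fromRel (fun a b : Fin n => dist (p i) (p j) ≤ dist (p a) (p b))).Colorable
      (2 * S.card + 1) := by
  have pinj : ∀ a b, a ≠ b → 0 < dist (p a) (p b) := by
    intro a b hab
    rw [dist_pos]
    intro e
    exact h a (subset_convexHull _ _ ⟨b, hab.symm, e.symm⟩)
  obtain ⟨⟨P, Q⟩, -, hmax⟩ := Finset.exists_max_image Finset.univ
    (fun q : Fin n × Fin n => dist (p q.1) (p q.2)) ⟨(i, j), Finset.mem_univ _⟩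
  have hmax : ∀ a b, dist (p a) (p b) ≤ dist (p P) (p Q) := fun a b =>
    hmax (a, b) (Finset.mem_univ _)
  have hD : 0 < dist (p P) (p Q) := (pinj i j hij).trans_le (hmax i j)
  have hPQ : P ≠ Q := by rintro rfl; simp at hD
  obtain ⟨v, v0, vn, vs, vi, vo⟩ := sorted' (hull_of h) P Q hPQ (fun z => by
    have := pow_le_pow_left₀ dist_nonneg (hmax z Q) 2
    rw [dist_comm (p P), EuclideanSpace.dist_eq, EuclideanSpace.dist_eq,
      Real.sq_sqrt (by positivity), Real.sq_sqrt (by positivity), Fin.sum_univ_two,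
      Fin.sum_univ_two] at this
    simpa only [Real.dist_eq, sq_abs] using this)
  obtain ⟨m, rfl⟩ : ∃ m, n = m + 1 := ⟨n - 1, by have := Fin.pos i; omega⟩
  have vne : ∀ a b, a < b → b ≤ m + 1 → (0 < a ∨ b ≤ m) → v a ≠ v b := by
    intro a b h1 h2 h3
    rcases h2.eq_or_lt with rfl | h2
    · rw [vn, ← v0]; exact (vi 0 a (by omega) h1).symm
    · exact vi a b h1 h2
  obtain ⟨q, q1, q2⟩ := vs Q
  have q0 : 0 < q := by
    rcases Nat.eq_zero_or_pos q with rfl | h0
    · exact (hPQ (v0.symm.trans q2)).elim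
    · exact h0
  set d := ds (fun r => p (v r) 0) (fun r => p (v r) 1) with hd
  have dd : ∀ a b, d a b = dist (p (v a)) (p (v b)) := dist_ds p v
  have key := core (d := d) (n := m) (t := dist (p i) (p j)) (D := dist (p P) (p Q)) (S := S)
    (hmax i j) (fun a => by rw [dd, dd, vn, v0, dist_comm]) (by rw [dd, dist_self]; exact hD)
    (fun a b _ _ => by rw [dd]; exact hmax _ _)
    (fun a b h1 h2 h3 h4 => by rw [dd] at h4 ⊢; exact hS _ _ (vne a b h1 h2 h3) h4)
    (fun k k0 km hk => by
      have hk' : d k (m + 1) = dist (p P) (p Q) := by rw [← hk, dd, dd, vn, v0, dist_comm]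
      constructor
      · exact cd_of (by rw [← hd, hk]; exact hD)
          (fun a b c _ h2 h3 h4 => vo a b c h2 h3 (by omega) (by omega))
          (fun a b _ h2 h3 => by
            rw [← hd, dd]; exact pinj _ _ (vne a b h2 (by omega) (by omega)))
          (fun a b _ _ _ => by rw [← hd, hk, dd]; exact hmax _ _)
      · exact cd_of (by rw [← hd, hk']; exact hD)
          (fun a b c h1 h2 h3 h4 => vo a b c h2 h3 (by omega) (by omega))
          (fun a b h1 h2 h3 => by
            rw [← hd, dd]; exact pinj _ _ (vne a b h2 (by omega) (by omega)))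
          (fun a b _ _ _ => by rw [← hd, hk', dd]; exact hmax _ _))
    q q0 (by omega) (by rw [dd, v0, q2])
  obtain ⟨col, c1, c2⟩ := greedy m _ 0 key
  choose r r1 r2 using vs
  refine ⟨SimpleGraph.Coloring.mk (fun a => ⟨col (r a), c1 _⟩) ?_⟩
  intro a b hab
  rw [SimpleGraph.fromRel_adj] at hab
  have hl : dist (p i) (p j) ≤ dist (p a) (p b) := by
    rcases hab.2 with h1 | h1
    · exact h1
    · rwa [dist_comm (p a)]
  have hr : r a ≠ r b := fun e => hab.1 (by rw [← r2 a, ← r2 b, e])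
  intro e
  have e : col (r a) = col (r b) := congrArg Fin.val e
  have := r1 a
  have := r1 b
  rcases lt_or_gt_of_ne hr with h1 | h1
  · exact c2 _ _ (Nat.zero_le _) h1 (by omega) (by rw [dd, r2, r2]; exact hl) e
  · exact c2 _ _ (Nat.zero_le _) h1 (by omega) (by rw [dd, r2, r2, dist_comm (p b)]; exact hl)
      e.symm

end Pool.Agent.H26.Ld
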