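import Pool.Agent.H26.LdimDefs
import Pool.Agent.H31.HyperRamsey
import Pool.Agent.H37.Dilw

set_option autoImplicit false

namespace Pool.Agent.H26.Ldim
open Finset

theorem upper (w : ℕ) (hw : 0 < w) (P : Type) [Finite P] [PartialOrder P] (h : width P ≤ w) :
    ldim P ≤ w := by
  classical
  haveI := Fintype.ofFinite P
  obtain ⟨f, hf1, hf2⟩ := Pool.Agent.H37.PD.dilw (R := fun x y : P => x ≤ y) (fun _ => le_rfl)
    (fun _ _ _ => le_trans) (fun _ _ => le_antisymm) Set.univ w (by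
      intro M _ hM
      have h1 : IsAntichain (· ≤ ·) (M : Set P) := fun x hx y hy hne hle => hne (hM x hx y hy hle)
      have h2 : (M : Set P).encard ≤ width P :=
        le_iSup (fun A : {A : Set P // IsAntichain (· ≤ ·) A} => A.1.encard) ⟨M, h1⟩
      have := h2.trans h
      rw [Set.encard_coe_eq_coe_finsetCard] at this
      exact_mod_cast this)
  let K : ℕ → P → ℕ := fun c x => #{z | f z = c ∧ z ≤ x}
  have Kmono : ∀ c x y, x ≤ y → K c x ≤ K c y := fun c x y hxy =>
    card_le_card fun z hz => by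
      simp only [mem_filter, mem_univ, true_and] at hz ⊢
      exact ⟨hz.1, hz.2.trans hxy⟩
  let e : P →o LinearExtension P := toLinearExtension
  have einj : Function.Injective e := fun x y h => h
  let L : Fin w → PLE P := fun c =>
    { dom := Set.univ
      lt := fun x y => K c x < K c y ∨ (K c x = K c y ∧ e x < e y)
      mem := fun _ _ _ => ⟨trivial, trivial⟩
      irrefl := fun x h => by simp at h
      trans := fun x y z h1 h2 => by
        rcases h1 with h1 | ⟨h1, h1'⟩ <;> rcases h2 with h2 | ⟨h2, h2'⟩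
        · exact Or.inl (h1.trans h2)
        · exact Or.inl (h2 ▸ h1)
        · exact Or.inl (h1 ▸ h2)
        · exact Or.inr ⟨h1.trans h2, h1'.trans h2'⟩
      total := fun x _ y _ hne => by
        rcases lt_trichotomy (K c x) (K c y) with h1 | h1 | h1
        · exact Or.inl (Or.inl h1)
        · rcases lt_or_gt_of_ne (einj.ne hne) with h2 | h2
          · exact Or.inl (Or.inr ⟨h1, h2⟩)
          · exact Or.inr (Or.inr ⟨h1.symm, h2⟩)
        · exact Or.inr (Or.inl h1)
      ext := fun x _ y _ hxy => by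
        rcases (Kmono c x y hxy.le).lt_or_eq with h1 | h1
        · exact Or.inl h1
        · exact Or.inr ⟨h1, lt_of_le_of_ne (e.monotone hxy.le) (einj.ne hxy.ne)⟩ }
  have hL : IsLocalRealizer (Set.range L) := by
    refine ⟨fun x y hxy => ⟨L ⟨0, hw⟩, Set.mem_range_self _, (L _).ext x trivial y trivial hxy⟩,
      fun x y h1 h2 => ⟨L ⟨f x, hf1 x trivial⟩, Set.mem_range_self _, Or.inl ?_⟩⟩
    refine card_lt_card ⟨fun z hz => ?_, fun hs => ?_⟩
    · simp only [mem_filter, mem_univ, true_and] at hz ⊢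
      refine ⟨hz.1, (hf2 z trivial x trivial hz.1).resolve_right fun h => h1 (le_trans h hz.2)⟩
    · have : x ∈ ({z | f z = f x ∧ z ≤ y} : Finset P) := hs (by simp)
      simp only [mem_filter, mem_univ, true_and] at this
      exact h1 this
  refine (iInf_le _ ⟨_, hL⟩).trans (iSup_le fun x => ?_)
  refine (Set.encard_le_encard (Set.sep_subset _ _)).trans ?_
  show (Set.range L).encard ≤ w
  rw [← Set.image_univ]
  refine (Set.encard_image_le _ _).trans ?_
  simp

theorem ram2 (C : Type) [Fintype C] [Nonempty C] (s : ℕ) : ∃ R : ℕ, ∀ χ : Fin (R + 1) → Fin (R + 1) → C,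
    ∃ t : ℕ → Fin (R + 1), StrictMonoOn t (Set.Iio s) ∧
      ∀ a b a' b', a < b → b < s → a' < b' → b' < s → χ (t a) (t b) = χ (t a') (t b') := by
  obtain ⟨R, hR⟩ := Pool.Agent.H31.HyperRamsey.indisc C 2 s
  refine ⟨R, fun χ => ?_⟩
  obtain ⟨t, h1, -, h2⟩ := hR (Fin (R + 1)) univ (fun g => χ (g 0) (g 1)) (by simp)
  refine ⟨t, h1, fun a b a' b' h3 h4 h5 h6 => ?_⟩
  have sm : ∀ a b : ℕ, a < b → StrictMono fun i : ℕ => if i = 0 then a else b + i - 1 := by
    intro a b hab i j hij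
    simp only
    split_ifs <;> omega
  have := h2 _ _ (sm a b h3) (sm a' b' h5) (fun i hi => by split_ifs <;> omega)
    (fun i hi => by split_ifs <;> omega)
  simpa using this

theorem exists_delta (ι : Type) [Fintype ι] :
    ∃ δ : ι → ℝ, LinearIndependent ℚ δ ∧ ∀ e, 1 < δ e ∧ δ e < 2 := by
  obtain ⟨s, hs, hl⟩ := (le_rank_iff_exists_linearIndependent (K := ℚ) (V := ℝ)
    (c := Cardinal.mk ι)).1 (by
      rw [Real.rank_rat_real]
      exact (Cardinal.mk_lt_aleph0.trans Cardinal.aleph0_lt_continuum).le)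
  obtain ⟨φ⟩ := Cardinal.eq.1 hs.symm
  have h1 : LinearIndependent ℚ fun e => ((φ e : s) : ℝ) := (hl : LinearIndependent ℚ _).comp φ φ.injective
  have h2 : ∀ e, ∃ r : ℚˣ, 1 < ((r : ℚ) : ℝ) * ((φ e : s) : ℝ) ∧ ((r : ℚ) : ℝ) * ((φ e : s) : ℝ) < 2 := by
    intro e
    have h0 : ((φ e : s) : ℝ) ≠ 0 := h1.ne_zero e
    set u : ℝ := ((φ e : s) : ℝ)
    have : ∃ r : ℚ, 1 < (r : ℝ) * u ∧ (r : ℝ) * u < 2 := by
      rcases lt_or_gt_of_ne h0 with h | h
      · obtain ⟨r, h3, h4⟩ := exists_rat_btwn (show 2 / u < 1 / u from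
          div_lt_div_of_neg_of_lt h (by norm_num))
        exact ⟨r, (lt_div_iff_of_neg h).1 h4, (div_lt_iff_of_neg h).1 h3⟩
      · obtain ⟨r, h3, h4⟩ := exists_rat_btwn (show 1 / u < 2 / u from
          div_lt_div_of_pos_right (by norm_num) h)
        exact ⟨r, (div_lt_iff₀ h).1 h3, (lt_div_iff₀ h).1 h4⟩
    obtain ⟨r, h3, h4⟩ := this
    have hr : r ≠ 0 := by rintro rfl; norm_num at h3
    exact ⟨Units.mk0 r hr, h3, h4⟩
  choose r hr using h2
  refine ⟨r • fun e => ((φ e : s) : ℝ), h1.units_smul r, fun e => ?_⟩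
  have : (r • fun e => ((φ e : s) : ℝ)) e = ((r e : ℚ) : ℝ) * (φ e : s) := by
    simp [Units.smul_def, Rat.smul_def]
  rw [this]; exact hr e

/-- the graph of edges with label `l` -/
def gr {V E Λ : Type} (src tgt : E → V) (lab : E → Λ) (l : Λ) : SimpleGraph V :=
  SimpleGraph.fromRel fun v v' => ∃ e, lab e = l ∧ src e = v ∧ tgt e = v'

theorem count {V E Λ : Type} [Fintype V] [Fintype E] [DecidableEq V] [DecidableEq Λ] (w : ℕ)
    (src tgt : E → V) (lab : E → Λ) (ch : V → Fin w) (tm : V → ℝ) (δ : Fin w × Fin w → ℝ)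
    (hδ : LinearIndependent ℚ δ) (hinj : ∀ e e', src e = src e' → tgt e = tgt e' → e = e')
    (ht : ∀ e, δ (ch (src e), ch (tgt e)) = tm (tgt e) - tm (src e))
    (hr : ∀ l v v', (gr src tgt lab l).Reachable v v' → ch v = ch v' → v = v')
    (hf : ∀ v, #(image lab {e | src e = v ∨ tgt e = v}) ≤ w - 1) :
    w * Fintype.card E ≤ (w - 1) * ((w - 1) * Fintype.card V) := by
  classical
  let κ : E → Λ × Finset V := fun e => (lab e, univ.filter fun v => (gr src tgt lab (lab e)).Reachable (src e) v)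
  let Vs : Λ × Finset V → Finset V := fun k => {v | ∃ e, κ e = k ∧ (src e = v ∨ tgt e = v)}
  have hst : ∀ e, (gr src tgt lab (lab e)).Reachable (src e) (tgt e) := by
    intro e
    by_cases h : src e = tgt e
    · rw [h]
    · exact SimpleGraph.Adj.reachable ⟨h, Or.inl ⟨e, rfl, rfl, rfl⟩⟩
  have hmem : ∀ k v, v ∈ Vs k → v ∈ k.2 ∧ ∃ e, κ e = k ∧ (src e = v ∨ tgt e = v) := by
    intro k v hv
    simp only [Vs, mem_filter, mem_univ, true_and] at hv
    refine ⟨?_, hv⟩
    obtain ⟨e, rfl, rfl | rfl⟩ := hv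
    · simp [κ]
    · simpa [κ] using hst e
  have hreach : ∀ k ∈ image κ univ, ∀ v ∈ k.2, ∀ v' ∈ k.2, (gr src tgt lab k.1).Reachable v v' := by
    intro k hk v hv v' hv'
    obtain ⟨e, -, rfl⟩ := mem_image.1 hk
    simp only [κ, mem_filter, mem_univ, true_and] at hv hv'
    exact hv.symm.trans hv'
  have h1 : ∀ k ∈ image κ univ, w * #{e | κ e = k} ≤ (w - 1) * #(Vs k) := by
    intro k hk
    have hinjc : Set.InjOn ch (Vs k) := fun v hv v' hv' h =>
      hr k.1 v v' (hreach k hk v (hmem k v hv).1 v' (hmem k v' hv').1) h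
    have hw : #(Vs k) ≤ w := by
      simpa using card_le_card_of_injOn (t := univ) ch (fun _ _ => mem_univ _) hinjc
    obtain ⟨e0, -, he0⟩ := mem_image.1 hk
    have hs : ∀ e, κ e = k → src e ∈ Vs k ∧ tgt e ∈ Vs k := fun e he => by
      simp only [Vs, mem_filter, mem_univ, true_and]
      exact ⟨⟨e, he, Or.inl rfl⟩, ⟨e, he, Or.inr rfl⟩⟩
    have hli : LinearIndependent ℚ (δ ∘ fun e : {e // κ e = k} => (ch (src e.1), ch (tgt e.1))) := by
      refine hδ.comp _ fun e e' h => Subtype.ext (hinj _ _ ?_ ?_)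
      · exact hinjc (hs _ e.2).1 (hs _ e'.2).1 (congrArg Prod.fst h)
      · exact hinjc (hs _ e.2).2 (hs _ e'.2).2 (congrArg Prod.snd h)
    let B : Finset ℝ := image (fun v => tm v - tm (src e0)) ((Vs k).erase (src e0))
    have hB : ∀ v ∈ Vs k, tm v - tm (src e0) ∈ Submodule.span ℚ (B : Set ℝ) := by
      intro v hv
      by_cases h : v = src e0
      · rw [h, sub_self]; exact zero_mem _
      · exact Submodule.subset_span (mem_coe.2 (mem_image_of_mem _ (mem_erase.2 ⟨h, hv⟩)))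
    have h2 := linearIndependent_le_span_aux' _ hli (B : Set ℝ) (by
      rintro _ ⟨e, rfl⟩
      have : δ (ch (src e.1), ch (tgt e.1)) = (tm (tgt e.1) - tm (src e0)) - (tm (src e.1) - tm (src e0)) := by
        rw [ht]; ring
      show δ _ ∈ Submodule.span ℚ (B : Set ℝ)
      rw [this]
      exact sub_mem (hB _ (hs _ e.2).2) (hB _ (hs _ e.2).1))
    rw [Fintype.card_subtype] at h2
    have h3 : Fintype.card (B : Set ℝ) ≤ #(Vs k) - 1 := by
      rw [← card_erase_of_mem (hs e0 he0).1]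
      simpa using card_image_le
    have h4 : 0 < #(Vs k) := card_pos.2 ⟨_, (hs e0 he0).1⟩
    obtain ⟨n, hn⟩ : ∃ n, #(Vs k) = n + 1 := ⟨#(Vs k) - 1, by omega⟩
    obtain ⟨m, rfl⟩ : ∃ m, w = m + 1 := ⟨w - 1, by omega⟩
    have h5 : #{e | κ e = k} ≤ n := by omega
    rw [hn, Nat.add_sub_cancel]
    nlinarith
  have h2 : ∑ k ∈ image κ univ, #(Vs k) ≤ (w - 1) * Fintype.card V := by
    have : ∑ k ∈ image κ univ, #(Vs k) = ∑ v : V, #{k ∈ image κ univ | v ∈ Vs k} := by
      simp only [card_eq_sum_ones, sum_filter]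
      rw [sum_comm]
      refine sum_congr rfl fun k _ => ?_
      rw [← sum_filter]; congr 1; ext v; simp
    rw [this, mul_comm, ← smul_eq_mul, ← card_univ, ← sum_const]
    refine sum_le_sum fun v _ => le_trans ?_ (hf v)
    refine card_le_card_of_injOn Prod.fst (fun k hk => ?_) fun k hk k' hk' h => ?_
    · obtain ⟨-, e, rfl, he⟩ := hmem k v (mem_filter.1 hk).2
      exact mem_coe.2 (mem_image_of_mem _ (by simpa using he))
    · obtain ⟨hk1, hk2⟩ := mem_filter.1 hk
      obtain ⟨hk1', hk2'⟩ := mem_filter.1 hk'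
      refine Prod.ext h (Finset.ext fun u => ?_)
      have a1 := (hmem k v hk2).1
      have a2 := (hmem k' v hk2').1
      obtain ⟨e, -, rfl⟩ := mem_image.1 hk1
      obtain ⟨e', -, rfl⟩ := mem_image.1 hk1'
      simp only [κ, mem_filter, mem_univ, true_and] at a1 a2 h ⊢
      rw [← h] at a2 ⊢
      exact ⟨fun h => (a2.trans a1.symm).trans h, fun h => (a1.trans a2.symm).trans h⟩
  calc w * Fintype.card E = ∑ k ∈ image κ univ, w * #{e | κ e = k} := by
        rw [← mul_sum, ← card_univ, card_eq_sum_card_image κ univ]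
    _ ≤ ∑ k ∈ image κ univ, (w - 1) * #(Vs k) := sum_le_sum h1
    _ ≤ _ := by rw [← mul_sum]; exact Nat.mul_le_mul_left _ h2

end Pool.Agent.H26.Ldim
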