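import Pool.Agent.H26.LdimA

set_option autoImplicit false

namespace Pool.Agent.H26.Ldim
open Finset

structure Dat (w : ℕ) where
  δ : Fin w × Fin w → ℝ
  li : LinearIndependent ℚ δ
  bd : ∀ e, 1 < δ e ∧ δ e < 2

variable {w : ℕ} (D : Dat w)

abbrev V (w : ℕ) : Type := Fin w × (Fin w × Fin w → Fin (w + 2))

def Dat.tm (v : V w) : ℝ := ∑ e, ((v.2 e : ℕ) : ℝ) * D.δ e

def Dat.d (j i : Fin w) : ℝ := if j = i then 0 else D.δ (j, i)

theorem Dat.tm_inj {v v' : V w} (h : D.tm v = D.tm v') : v.2 = v'.2 := by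
  have := (Fintype.linearIndependent_iffₛ.1 D.li) (fun e => ((v.2 e : ℕ) : ℚ))
    (fun e => ((v'.2 e : ℕ) : ℚ)) (by simpa [Rat.smul_def, Dat.tm] using h)
  funext e
  exact Fin.ext (by exact_mod_cast this e)

theorem Dat.tri (i j k : Fin w) : D.d i k ≤ D.d i j + D.d j k := by
  unfold Dat.d
  have h1 := D.bd (i, k); have h2 := D.bd (i, j); have h3 := D.bd (j, k)
  by_cases a : i = j
  · subst a; simp
  by_cases b : j = k
  · subst b; simp
  rw [if_neg a, if_neg b]
  split_ifs <;> linarith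

theorem Dat.nn (i j : Fin w) : 0 ≤ D.d i j := by
  unfold Dat.d; split_ifs
  · exact le_rfl
  · linarith [(D.bd (i, j)).1]

def Pt (_ : Dat w) (R : ℕ) : Type := V w × Fin (R + 1)

instance (R : ℕ) : Finite (Pt D R) := inferInstanceAs (Finite (V w × Fin (R + 1)))

def Dat.lt {R : ℕ} (x y : Pt D R) : Prop :=
  D.tm x.1 + D.d x.1.1 y.1.1 < D.tm y.1 ∨ (D.tm x.1 + D.d x.1.1 y.1.1 = D.tm y.1 ∧ x.2 < y.2)

theorem Dat.lt_irrefl' {R : ℕ} (x : Pt D R) : ¬ D.lt x x := by
  simp [Dat.lt, Dat.d]

theorem Dat.lt_trans' {R : ℕ} {x y z : Pt D R} (h : D.lt x y) (h' : D.lt y z) : D.lt x z := by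
  have := D.tri x.1.1 y.1.1 z.1.1
  rcases h with h | ⟨h, h1⟩ <;> rcases h' with h' | ⟨h', h2⟩
  · exact Or.inl (by linarith)
  · exact Or.inl (by linarith)
  · exact Or.inl (by linarith)
  · rcases this.lt_or_eq with h3 | h3
    · exact Or.inl (by linarith)
    · exact Or.inr ⟨by linarith, h1.trans h2⟩

instance (R : ℕ) : PartialOrder (Pt D R) where
  le x y := x = y ∨ D.lt x y
  le_refl _ := Or.inl rfl
  le_trans x y z h h' := by
    rcases h with rfl | h
    · exact h'
    · rcases h' with rfl | h'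
      · exact Or.inr h
      · exact Or.inr (D.lt_trans' h h')
  le_antisymm x y h h' := by
    rcases h with rfl | h
    · rfl
    · rcases h' with rfl | h'
      · rfl
      · exact absurd (D.lt_trans' h h') (D.lt_irrefl' x)

theorem Dat.lt_of {R : ℕ} {x y : Pt D R} (h : D.lt x y) : x < y :=
  lt_of_le_of_ne (Or.inr h) fun h' => D.lt_irrefl' x (h' ▸ h)

theorem Dat.same {R : ℕ} {x y : Pt D R} (h : x.1.1 = y.1.1) (hne : x.1 ≠ y.1) :
    D.tm x.1 < D.tm y.1 ∨ D.tm y.1 < D.tm x.1 :=
  lt_or_gt_of_ne fun h' => hne (Prod.ext h (D.tm_inj h'))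

theorem Dat.chain {R : ℕ} {x y : Pt D R} (h : x.1.1 = y.1.1) : x ≤ y ∨ y ≤ x := by
  by_cases hne : x.1 = y.1
  · rcases lt_trichotomy x.2 y.2 with h1 | h1 | h1
    · exact Or.inl (Or.inr (Or.inr ⟨by simp [Dat.d, hne], h1⟩))
    · exact Or.inl (Or.inl (Prod.ext hne h1))
    · exact Or.inr (Or.inr (Or.inr ⟨by simp [Dat.d, hne], h1⟩))
  · exact (D.same h hne).imp (fun h1 => Or.inr (Or.inl (by simpa [Dat.d, h] using h1)))
      fun h1 => Or.inr (Or.inl (by simpa [Dat.d, h] using h1))

theorem width_Pt (R : ℕ) : width (Pt D R) = w := by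
  apply le_antisymm
  · refine iSup_le fun A => ?_
    have := Set.encard_le_encard_of_injOn (f := fun x : Pt D R => x.1.1) (s := A.1) (t := Set.univ)
      (fun _ _ => trivial) (fun x hx y hy h => by
        by_contra hne
        rcases D.chain h with h1 | h1
        · exact A.2 hx hy hne h1
        · exact A.2 hy hx (Ne.symm hne) h1)
    simpa using this
  · let g : Fin w → Pt D R := fun i => ((i, fun _ => 0), 0)
    have hg : Function.Injective g := fun i j h => congrArg (fun x : Pt D R => x.1.1) h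
    have hA : IsAntichain (· ≤ ·) (Set.range g) := by
      rintro _ ⟨i, rfl⟩ _ ⟨j, rfl⟩ hne (h | h | h)
      · exact hne h
      · have := D.nn i j
        simp only [g, Dat.tm] at h
        linarith
      · exact lt_irrefl _ h.2
    refine le_trans ?_ (le_iSup (fun A : {A : Set (Pt D R) // IsAntichain (· ≤ ·) A} => A.1.encard)
      ⟨_, hA⟩)
    show (w : ℕ∞) ≤ (Set.range g).encard
    rw [← Set.image_univ, hg.encard_image]
    simp

abbrev Ed (w : ℕ) : Type :=
  {x : (Fin w × Fin w) × (Fin w × Fin w → Fin (w + 2)) // x.1.1 ≠ x.1.2 ∧ x.2 x.1 ≠ Fin.last _}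

def src (e : Ed w) : V w := (e.1.1.1, e.1.2)
def tgt (e : Ed w) : V w := (e.1.1.2, Function.update e.1.2 e.1.1 (e.1.2 e.1.1 + 1))

theorem tm_tgt (e : Ed w) : D.δ ((src e).1, (tgt e).1) = D.tm (tgt e) - D.tm (src e) := by
  simp only [Dat.tm, src, tgt]
  rw [← sum_sub_distrib, sum_eq_single e.1.1]
  · rw [Function.update_self, Fin.val_add_one_of_lt (Fin.lt_last_iff_ne_last.2 e.2.2)]
    push_cast; ring
  · intro b _ hb; rw [Function.update_of_ne hb, sub_self]
  · simp

theorem card_Ed : (w + 2) * Fintype.card (Ed w) = (w + 1) * (w * (w - 1)) * (w + 2) ^ (w * w) := by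
  classical
  have h1 : ∀ a : Fin w × Fin w, (w + 2) * #{p : Fin w × Fin w → Fin (w + 2) | p a ≠ Fin.last _} =
      (w + 1) * (w + 2) ^ (w * w) := by
    intro a
    have : ({p : Fin w × Fin w → Fin (w + 2) | p a ≠ Fin.last _} : Finset _) =
        Fintype.piFinset (Function.update (fun _ => univ) a (univ.erase (Fin.last _))) := by
      ext p
      simp only [mem_filter, mem_univ, true_and, Fintype.mem_piFinset]
      refine ⟨fun h b => ?_, fun h => by simpa using h a⟩
      by_cases hb : b = a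
      · subst hb; simpa using h
      · simp [Function.update_of_ne hb]
    rw [this, Fintype.card_piFinset, ← mul_prod_erase _ _ (mem_univ a), Function.update_self,
      prod_congr rfl (g := fun _ => w + 2) (fun b hb => by
        rw [Function.update_of_ne (mem_erase.1 hb).1]; simp)]
    have h2 : 0 < w * w := by simpa using card_pos.2 ⟨a, mem_univ a⟩
    obtain ⟨m, hm⟩ : ∃ m, w * w = m + 1 := ⟨w * w - 1, by omega⟩
    simp only [card_erase_of_mem (mem_univ _), card_univ, Fintype.card_fin, prod_const,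
      Fintype.card_prod, hm, Nat.add_sub_cancel, Nat.add_succ_sub_one]
    ring
  rw [Fintype.card_subtype, card_eq_sum_card_fiberwise (f := Prod.fst) (t := offDiag univ)
    (fun x hx => by simpa using (mem_filter.1 hx).2.1), mul_sum,
    sum_congr rfl (g := fun _ => (w + 1) * (w + 2) ^ (w * w))]
  · simp only [sum_const, offDiag_card, card_univ, Fintype.card_fin, smul_eq_mul, Nat.mul_sub_one]
    ring
  · intro a ha
    rw [← h1 a]
    congr 1
    refine card_bij (fun x _ => x.2) ?_ ?_ ?_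
    · intro x hx
      simp only [mem_filter, mem_univ, true_and] at hx ⊢
      rw [← hx.2]; exact hx.1.2
    · intro x hx y hy h
      exact Prod.ext ((mem_filter.1 hx).2.trans (mem_filter.1 hy).2.symm) h
    · intro p hp
      exact ⟨(a, p), by simpa using ⟨by simpa using ha, by simpa using hp⟩, rfl⟩

theorem lower (hw : 2 ≤ w) : ∃ R, (w : ℕ∞) ≤ ldim (Pt D R) := by
  classical
  let n := Fintype.card (V w)
  haveI : Nonempty (Fin w) := ⟨⟨0, by omega⟩⟩
  obtain ⟨R, hR⟩ := ram2 (Ed w → Fin w × Fin w) (n + 3)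
  refine ⟨R, le_iInf fun F => ?_⟩
  by_contra hlt
  have hfr : ∀ x : Pt D R, {L ∈ F.1 | x ∈ L.dom}.encard < w := fun x =>
    lt_of_le_of_lt (le_iSup (fun x : Pt D R => {L ∈ F.1 | x ∈ L.dom}.encard) x) (not_le.1 hlt)
  have hfin : ∀ x : Pt D R, {L ∈ F.1 | x ∈ L.dom}.Finite := fun x =>
    Set.finite_of_encard_le_coe (hfr x).le
  have hnum : ∀ x : Pt D R, ∃ g : PLE (Pt D R) → Fin w, Set.InjOn g {L ∈ F.1 | x ∈ L.dom} := by
    intro x
    obtain ⟨g, -, hg⟩ := Set.Finite.exists_injOn_of_encard_le (t := (Set.univ : Set (Fin w))) (hfin x)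
      (by simpa using (hfr x).le)
    exact ⟨g, hg⟩
  choose num hnum using hnum
  have hd : ∀ e : Ed w, D.tm (src e) + D.d (src e).1 (tgt e).1 = D.tm (tgt e) := fun e => by
    rw [Dat.d, if_neg (show (src e).1 ≠ (tgt e).1 from e.2.1), tm_tgt]; ring
  have hch : ∀ (e : Ed w) (a b : Fin (R + 1)), ∃ L ∈ F.1,
      a < b → L.lt ((tgt e, a) : Pt D R) (src e, b) := by
    intro e a b
    by_cases hab : a < b
    · obtain ⟨L, h1, h2⟩ := F.2.2 ((src e, b) : Pt D R) (tgt e, a) (by
        rintro (h | h | h)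
        · exact e.2.1 (congrArg (fun x : Pt D R => x.1.1) h)
        · exact absurd h (by rw [hd e]; exact lt_irrefl _)
        · exact absurd h.2 (not_lt.2 hab.le)) (by
        have h1 := hd e
        have h2 := D.nn (tgt e).1 (src e).1
        have h3 : 0 < D.d (src e).1 (tgt e).1 := by
          rw [Dat.d, if_neg (show (src e).1 ≠ (tgt e).1 from e.2.1)]; linarith [(D.bd ((src e).1, (tgt e).1)).1]
        rintro (h | h | h)
        · exact e.2.1 (congrArg (fun x : Pt D R => x.1.1) h).symm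
        · simp only at h; linarith
        · have := h.1; simp only at this; linarith)
      exact ⟨L, h1, fun _ => h2⟩
    · obtain ⟨L, h1, -⟩ := F.2.2 ((src e, a) : Pt D R) (tgt e, a) (by
        rintro (h | h | h)
        · exact e.2.1 (congrArg (fun x : Pt D R => x.1.1) h)
        · exact absurd h (by rw [hd e]; exact lt_irrefl _)
        · exact lt_irrefl _ h.2) (by
        have h1 := hd e
        have h2 := D.nn (tgt e).1 (src e).1
        have h3 : 0 < D.d (src e).1 (tgt e).1 := by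
          rw [Dat.d, if_neg (show (src e).1 ≠ (tgt e).1 from e.2.1)]; linarith [(D.bd ((src e).1, (tgt e).1)).1]
        rintro (h | h | h)
        · exact e.2.1 (congrArg (fun x : Pt D R => x.1.1) h).symm
        · simp only at h; linarith
        · exact lt_irrefl _ h.2)
      exact ⟨L, h1, fun h => absurd h hab⟩
  choose Lc hLc1 hLc2 using hch
  obtain ⟨t, ht, hh⟩ := hR fun a b e => (num (tgt e, a) (Lc e a b), num (src e, b) (Lc e a b))
  have hlt2 : ∀ e a b, a < b → b < n + 3 → (Lc e (t a) (t b)).lt ((tgt e, t a) : Pt D R) (src e, t b) :=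
    fun e a b h1 h2 => hLc2 e _ _ (ht (h1.trans h2) h2 h1)
  let lab : Ed w → PLE (Pt D R) := fun e => Lc e (t 0) (t (n + 2))
  have hlab : ∀ e a b, a < b → b < n + 3 → Lc e (t a) (t b) = lab e := by
    intro e a b h1 h2
    have h3 : a < n + 2 := by omega
    have s1 : Lc e (t a) (t b) = Lc e (t a) (t (n + 2)) :=
      hnum (tgt e, t a) ⟨hLc1 _ _ _, (PLE.mem _ _ _ (hlt2 e a b h1 h2)).1⟩
        ⟨hLc1 _ _ _, (PLE.mem _ _ _ (hlt2 e a _ h3 (by omega))).1⟩
        (congrArg Prod.fst (congrFun (hh a b a (n + 2) h1 h2 h3 (by omega)) e))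
    have s2 : Lc e (t a) (t (n + 2)) = Lc e (t 0) (t (n + 2)) :=
      hnum (src e, t (n + 2)) ⟨hLc1 _ _ _, (PLE.mem _ _ _ (hlt2 e a _ h3 (by omega))).2⟩
        ⟨hLc1 _ _ _, (PLE.mem _ _ _ (hlt2 e 0 _ (by omega) (by omega))).2⟩
        (congrArg Prod.snd (congrFun (hh a (n + 2) 0 (n + 2) h3 (by omega) (by omega) (by omega)) e))
    exact s1.trans s2
  have hA : ∀ e a b, a < b → b < n + 3 → (lab e).lt ((tgt e, t a) : Pt D R) (src e, t b) :=
    fun e a b h1 h2 => hlab e a b h1 h2 ▸ hlt2 e a b h1 h2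
  have hB : ∀ e a b, 1 ≤ a → a < b → b < n + 2 → (lab e).lt ((src e, t a) : Pt D R) (tgt e, t b) := by
    intro e a b h0 h1 h2
    refine (lab e).ext _ (PLE.mem _ _ _ (hA e 0 a (by omega) (by omega))).2 _
      (PLE.mem _ _ _ (hA e b (n + 2) h2 (by omega))).1
      (D.lt_of (Or.inr ⟨hd e, ht (show a < n + 3 by omega) (show b < n + 3 by omega) h1⟩))
  have hadj : ∀ l v v', (gr src tgt lab l).Adj v v' → ∀ a b, 1 ≤ a → a < b → b < n + 2 →
      l.lt ((v, t a) : Pt D R) (v', t b) := by
    rintro l v v' ⟨-, ⟨e, rfl, rfl, rfl⟩ | ⟨e, rfl, rfl, rfl⟩⟩ a b h0 h1 h2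
    · exact hB e a b h0 h1 h2
    · exact hA e a b h1 (by omega)
  have hwalk : ∀ l v v' (p : (gr src tgt lab l).Walk v v'), v ≠ v' → ∀ a, 1 ≤ a →
      a + p.length < n + 2 → l.lt ((v, t a) : Pt D R) (v', t (a + p.length)) := by
    intro l v v' p
    induction p with
    | nil => intro h; exact absurd rfl h
    | @cons u x y h p ih =>
      intro _ a h0 h1
      rw [SimpleGraph.Walk.length_cons] at h1 ⊢
      by_cases hxy : x = y
      · subst hxy
        exact hadj l u x h a _ h0 (by omega) h1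
      · have := ih hxy (a + 1) (by omega) (by omega)
        rw [show a + 1 + p.length = a + (p.length + 1) by ring] at this
        exact l.trans _ _ _ (hadj l u x h a (a + 1) h0 (by omega) (by omega)) this
  have hone : ∀ l v v', (gr src tgt lab l).Reachable v v' → v.1 = v'.1 → ¬ D.tm v' < D.tm v := by
    intro l v v' h1 h2 h3
    obtain ⟨p, hp⟩ := h1.exists_isPath
    have h4 : p.length < n := hp.length_lt
    have h5 := hwalk l v v' p (fun h => by rw [h] at h3; exact lt_irrefl _ h3) 1 le_rfl (by omega)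
    have h6 := l.ext _ (l.mem _ _ h5).2 _ (l.mem _ _ h5).1
      (D.lt_of (Or.inl (by simpa [Dat.d, h2] using h3)))
    exact l.irrefl _ (l.trans _ _ _ h5 h6)
  have key := count w src tgt lab Prod.fst D.tm D.δ D.li
    (fun e e' h1 h2 => Subtype.ext (Prod.ext
      (Prod.ext (congrArg (fun v : V w => v.1) h1) (congrArg (fun v : V w => v.1) h2))
      (congrArg (fun v : V w => v.2) h1)))
    (tm_tgt D)
    (fun l v v' h1 h2 => by
      by_contra hne
      rcases D.same (R := R) (x := (v, 0)) (y := (v', 0)) h2 hne with h | h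
      · exact hone l v' v h1.symm h2.symm h
      · exact hone l v v' h1 h2 h)
    (fun v => by
      have h1 : ((image lab {e | src e = v ∨ tgt e = v} : Finset _) : Set _) ⊆
          {L ∈ F.1 | ((v, t 1) : Pt D R) ∈ L.dom} := by
        intro L hL
        obtain ⟨e, he, rfl⟩ := mem_image.1 hL
        refine ⟨hLc1 _ _ _, ?_⟩
        rcases (mem_filter.1 he).2 with rfl | rfl
        · exact (PLE.mem _ _ _ (hA e 0 1 (by omega) (by omega))).2
        · exact (PLE.mem _ _ _ (hA e 1 2 (by omega) (by omega))).1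
      have h2 := (Set.encard_le_encard h1).trans_lt (hfr _)
      rw [Set.encard_coe_eq_coe_finsetCard] at h2
      have h3 : #(image lab {e | src e = v ∨ tgt e = v}) < w := by exact_mod_cast h2
      omega)
  have h7 := card_Ed (w := w)
  have h8 : Fintype.card (V w) = w * (w + 2) ^ (w * w) := by simp
  rw [h8] at key
  obtain ⟨m, rfl⟩ : ∃ m, w = m + 2 := ⟨w - 2, by omega⟩
  have h9 : 0 < (m + 2 + 2) ^ ((m + 2) * (m + 2)) := by positivity
  rw [show m + 2 - 1 = m + 1 by omega] at key h7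
  generalize (m + 2 + 2) ^ ((m + 2) * (m + 2)) = X at *
  generalize Fintype.card (Ed (m + 2)) = Y at *
  have h10 := Nat.mul_le_mul_left (m + 2 + 2) key
  have h11 : (m + 2 + 2) * ((m + 2) * Y) = (m + 2) * ((m + 2 + 1) * ((m + 2) * (m + 1)) * X) := by
    rw [← h7]; ring
  rw [h11] at h10
  have h12 : 0 < (m + 2) * (m + 1) * X := by positivity
  nlinarith

theorem lower_one : width (Fin 2) = (1 : ℕ) ∧ ((1 : ℕ) : ℕ∞) ≤ ldim (Fin 2) := by
  constructor
  · apply le_antisymm
    · exact iSup_le fun A => Set.encard_le_one_iff_subsingleton.2 fun x hx y hy => by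
        by_contra hne
        exact (le_total x y).elim (A.2 hx hy hne) (A.2 hy hx (Ne.symm hne))
    · refine le_trans ?_ (le_iSup (fun A : {A : Set (Fin 2) // IsAntichain (· ≤ ·) A} => A.1.encard)
        ⟨{0}, IsAntichain.singleton⟩)
      simp
  · refine le_iInf fun F => ?_
    obtain ⟨L, h1, h2⟩ := F.2.1 0 1 (by decide)
    refine le_trans ?_ (le_iSup (fun x : Fin 2 => {L ∈ F.1 | x ∈ L.dom}.encard) 0)
    exact Set.one_le_encard_iff_nonempty.2 ⟨L, h1, (L.mem _ _ h2).1⟩

end Pool.Agent.H26.Ldim
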