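import Mathlib

set_option autoImplicit false

namespace Pool.Agent.H26.Ldim

/-- A linear extension of the subposet induced on `dom`, given by its strict order `lt`. -/
structure PLE (P : Type) [PartialOrder P] where
  dom : Set P
  lt : P → P → Prop
  mem : ∀ x y, lt x y → x ∈ dom ∧ y ∈ dom
  irrefl : ∀ x, ¬ lt x x
  trans : ∀ x y z, lt x y → lt y z → lt x z
  total : ∀ x ∈ dom, ∀ y ∈ dom, x ≠ y → lt x y ∨ lt y x
  ext : ∀ x ∈ dom, ∀ y ∈ dom, x < y → lt x y

/-- local realizers -/
def IsLocalRealizer {P : Type} [PartialOrder P] (F : Set (PLE P)) : Prop :=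
  (∀ x y : P, x < y → ∃ L ∈ F, L.lt x y) ∧ ∀ x y : P, ¬ x ≤ y → ¬ y ≤ x → ∃ L ∈ F, L.lt y x

/-- local dimension: least possible maximum frequency of an element in a local realizer -/
noncomputable def ldim (P : Type) [PartialOrder P] : ℕ∞ :=
  ⨅ F : {F : Set (PLE P) // IsLocalRealizer F}, ⨆ x : P, {L ∈ F.1 | x ∈ L.dom}.encard

/-- width: largest size of an antichain -/
noncomputable def width (P : Type) [PartialOrder P] : ℕ∞ :=
  ⨆ A : {A : Set P // IsAntichain (· ≤ ·) A}, A.1.encard

end Pool.Agent.H26.Ldim
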