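import Mathlib
import Pool.Agent.H26.Chi

namespace Pool.Agent.H26.LinBip

/-- The least number of edges whose deletion leaves a bipartite graph. -/
noncomputable def beta {W : Type} (F : SimpleGraph W) : ℕ :=
  sInf {m : ℕ | ∃ H : SimpleGraph W, H ≤ F ∧ H.IsBipartite ∧ (F.edgeSet \ H.edgeSet).ncard = m}

/-- `hG G n` is the maximum of `beta` over the subgraphs induced on `n`-element vertex sets. -/
noncomputable def hG {V : Type} (G : SimpleGraph V) (n : ℕ) : ℕ :=
  sSup {m : ℕ | ∃ S : Finset V, S.card = n ∧ beta (G.induce (S : Set V)) = m}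

end Pool.Agent.H26.LinBip
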