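import Mathlib
import Pool.Agent.H26.LinBipB
import Pool.Agent.H26.LinBipDefs

/-! A linear bound on the bipartite deficiency forces countable chromatic number. -/

namespace Pool.Agent.H26.LinBip

open Classical Finset Cardinal

variable {V : Type} (G : SimpleGraph V)

theorem layer {O : Type} [LinearOrder O] [WellFoundedLT O] (W : Set V) (r : V → O)
    (C : ℕ) (H : ∀ A : Finset V, ∃ φ, D G φ ∅ A ≤ C * A.card)
    (hcl : ∀ α, {x | x ∈ W ∧ r x < α}.Nonempty → Clo G {x | x ∈ W ∧ r x < α})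
    (hl : ∀ α, ∃ c : V → ℕ, ∀ x ∈ W, ∀ y ∈ W, r x = α → r y = α → G.Adj x y → c x ≠ c y) :
    ∃ c : V → ℕ, ∀ x ∈ W, ∀ y ∈ W, G.Adj x y → c x ≠ c y := by
  let I : V → Prop := fun y => y ∈ W ∧ {x | (x ∈ W ∧ r x < r y) ∧ G.Adj x y}.Infinite
  let nb : Finset V → V → Finset V := fun F y => F.filter (fun x => r x < r y ∧ G.Adj x y)
  let K : {F : Finset V // ∀ y ∈ F, I y} → Set (V → V → ℝ) := fun F =>
    Q V ∩ {q | ∀ y ∈ F.1, ∑ x ∈ nb F.1 y, q x y ≤ (3 * C : ℕ)}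
  have hKc : ∀ F, IsClosed (K F) := fun F => by
    refine Q_closed.inter ?_
    simp only [Set.setOf_forall]
    exact isClosed_iInter fun y => isClosed_iInter fun _ =>
      isClosed_le (continuous_finset_sum _ fun x _ => by fun_prop) continuous_const
  have hmono : ∀ F F' : {F : Finset V // ∀ y ∈ F, I y}, F.1 ⊆ F'.1 → K F' ⊆ K F := by
    rintro F F' h q ⟨h1, h2⟩
    refine ⟨h1, fun y hy => le_trans ?_ (h2 y (h hy))⟩
    exact Finset.sum_le_sum_of_subset_of_nonneg (Finset.filter_subset_filter _ h)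
      fun x _ _ => (h1 x y y).1
  haveI : Nonempty {F : Finset V // ∀ y ∈ F, I y} := ⟨⟨∅, by simp⟩⟩
  obtain ⟨q, hq⟩ := IsCompact.nonempty_iInter_of_directed_nonempty_isCompact_isClosed K
    (fun F F' => ⟨⟨F.1 ∪ F'.1, fun y hy => (Finset.mem_union.1 hy).elim (F.2 y) (F'.2 y)⟩,
      hmono _ _ Finset.subset_union_left, hmono _ _ Finset.subset_union_right⟩)
    (fun F => by
      refine minimax F.1 (nb F.1) (3 * C) fun a ha => ?_
      obtain ⟨ψ, hψ⟩ := weighted G W r C H hcl F.1 F.2 a ha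
      refine ⟨_, Q_cut ψ, ?_⟩
      have : ∀ y, ∑ x ∈ nb F.1 y, (if ψ x = ψ y then (1 : ℝ) else 0) = bk G r F.1 ψ y := by
        intro y
        simp only [Finset.sum_boole, nb, bk, Finset.filter_filter, and_assoc]
      simp only [this]
      exact_mod_cast hψ)
    (fun F => Q_compact.of_isClosed_subset (hKc F) Set.inter_subset_left) hKc
  rw [Set.mem_iInter] at hq
  have hQ : q ∈ Q V := (hq ⟨∅, by simp⟩).1
  obtain ⟨st, δ, hδ, hst⟩ := stone q hQ
  obtain ⟨c3, hc3⟩ := greedy (fun x y => r x < r y) (InvImage.wf r wellFounded_lt)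
    (fun x y => x ∈ W ∧ y ∈ W ∧ G.Adj x y ∧ (I x ↔ I y) ∧ st y = st x) (fun y => by
      by_contra hinf
      have hy : I y := by
        obtain ⟨x, hx⟩ := Set.Infinite.nonempty hinf
        exact ⟨hx.2.2.1, Set.Infinite.mono (fun x hx => ⟨⟨hx.2.1, hx.1⟩, hx.2.2.2.1⟩) hinf⟩
      obtain ⟨n, hn⟩ := exists_nat_gt (((3 * C : ℕ) : ℝ) / δ (st y).1)
      rw [div_lt_iff₀ (hδ _)] at hn
      obtain ⟨Λ, h1, h2⟩ := Set.Infinite.exists_subset_card_eq hinf n
      have h3 := (hq ⟨insert y Λ, fun x hx => by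
        rcases Finset.mem_insert.1 hx with rfl | hx
        · exact hy
        · exact (h1 hx).2.2.2.2.1.2 hy⟩).2 y (Finset.mem_insert_self _ _)
      have h4 : ∑ x ∈ Λ, q x y ≤ ∑ x ∈ nb (insert y Λ) y, q x y :=
        Finset.sum_le_sum_of_subset_of_nonneg (fun x hx => Finset.mem_filter.2
          ⟨Finset.mem_insert_of_mem hx, (h1 hx).1, (h1 hx).2.2.2.1⟩) fun x _ _ => (hQ x y y).1
      have h5 : ∑ _x ∈ Λ, δ (st y).1 ≤ ∑ x ∈ Λ, q x y := Finset.sum_le_sum fun x hx => by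
        rw [(hQ x y y).2.2.2.1]
        exact hst y x (h1 hx).2.2.2.2.2
      rw [Finset.sum_const, h2, nsmul_eq_mul] at h5
      linarith)
  choose c1 hc1 using hl
  refine ⟨fun y => Encodable.encode (c1 (r y) y, decide (I y), st y, c3 y),
    fun x hx y hy h e => ?_⟩
  have e' := Encodable.encode_injective e
  simp only [Prod.mk.injEq, decide_eq_decide] at e'
  obtain ⟨e1, e2, e3, e4⟩ := e'
  rcases lt_trichotomy (r x) (r y) with h' | h' | h'
  · exact hc3 x y h' ⟨hx, hy, h, e2, e3.symm⟩ e4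
  · rw [h'] at e1
    exact hc1 _ x hx y hy h' rfl h e1
  · exact hc3 y x h' ⟨hy, hx, h.symm, e2.symm, e3⟩ e4.symm

theorem col_set (C : ℕ) (H : ∀ A : Finset V, ∃ φ, D G φ ∅ A ≤ C * A.card) (κ : Cardinal.{0}) :
    ∀ W : Set V, #W = κ → ∃ c : V → ℕ, ∀ x ∈ W, ∀ y ∈ W, G.Adj x y → c x ≠ c y := by
  induction κ using WellFoundedLT.induction with
  | ind κ ih =>
  intro W0 hW
  rcases le_or_gt κ ℵ₀ with hκ | hκ
  · obtain ⟨c, hc⟩ := Set.countable_iff_exists_injOn.1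
      (le_aleph0_iff_set_countable.1 (hW ▸ hκ : #W0 ≤ ℵ₀))
    exact ⟨c, fun x hx y hy h e => h.ne (hc hx hy e)⟩
  obtain ⟨cl, hc1, hc2⟩ := exists_cl G
  obtain ⟨e⟩ : Nonempty (κ.ord.ToType ≃ W0) := Cardinal.eq.1 (by rw [mk_ord_toType, hW])
  let M : κ.ord.ToType → Set V := fun α => ⋂₀ {M | (fun β => (e β : V)) '' Set.Iic α ⊆ M ∧
    ∀ T : Finset V, (∀ x ∈ T, x ∈ M) → cl T ⊆ M}
  have hM1 : ∀ α, (e α : V) ∈ M α := fun α N hN => hN.1 ⟨α, Set.mem_Iic.2 le_rfl, rfl⟩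
  have hM2 : ∀ α (T : Finset V), (∀ x ∈ T, x ∈ M α) → cl T ⊆ M α :=
    fun α T hT z hz N hN => hN.2 T (fun x hx => hT x hx N hN) hz
  have hM3 : Monotone M := fun α β h z hz N hN =>
    hz N ⟨(Set.image_mono (Set.Iic_subset_Iic.2 h)).trans hN.1, hN.2⟩
  have hM4 : ∀ α, #(M α) < κ := fun α => by
    obtain ⟨N, h1, h2, h3⟩ := closure cl hc1 ((fun β => (e β : V)) '' Set.Iic α)
    refine (mk_le_mk_of_subset (show M α ⊆ N from fun z hz => hz N ⟨h1, h2⟩)).trans_lt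
      (h3.trans_lt (max_lt hκ (mk_image_le.trans_lt ?_)))
    rw [← Set.Iio_insert]
    exact mk_insert_le.trans_lt (add_lt_of_lt hκ.le (mk_Iio_toType_ord_lt α)
      (one_lt_aleph0.trans hκ))
  have hne : Nonempty κ.ord.ToType := by
    rw [← mk_ne_zero_iff, mk_ord_toType]
    exact (aleph0_pos.trans hκ).ne'
  let r : V → κ.ord.ToType := fun v =>
    if h : {α | v ∈ M α}.Nonempty then wellFounded_lt.min _ h else Classical.choice hne
  have hr1 : ∀ v α, v ∈ M α → v ∈ M (r v) ∧ r v ≤ α := fun v α h => by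
    have h' : {α | v ∈ M α}.Nonempty := ⟨α, h⟩
    simp only [r, dif_pos h']
    exact ⟨wellFounded_lt.min_mem _ h', not_lt.1 (wellFounded_lt.not_lt_min {α | v ∈ M α} h)⟩
  obtain ⟨c, hc⟩ := layer G {v | ∃ α, v ∈ M α} r C H (fun α ⟨x0, hx0⟩ => hc2 _ fun T hT => by
      obtain ⟨x, hx, hx'⟩ := (insert x0 T).exists_max_image r (Finset.insert_nonempty _ _)
      have h1 : r x < α := by
        rcases Finset.mem_insert.1 hx with rfl | hx
        · exact hx0.2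
        · exact (hT x hx).2
      intro z hz
      have h2 := hM2 (r x) T (fun y hy => by
        obtain ⟨β, hβ⟩ := (hT y hy).1
        exact hM3 (hx' y (Finset.mem_insert_of_mem hy)) (hr1 y β hβ).1) hz
      exact ⟨⟨_, h2⟩, (hr1 z _ h2).2.trans_lt h1⟩)
    (fun α => by
      obtain ⟨c, hc⟩ := ih _ (hM4 α) (M α) rfl
      exact ⟨c, fun x ⟨β, hx⟩ y ⟨β', hy⟩ h1 h2 => hc x (h1 ▸ (hr1 x β hx).1) y
        (h2 ▸ (hr1 y β' hy).1)⟩)
  have hW : ∀ x ∈ W0, ∃ α, x ∈ M α := fun x hx => ⟨e.symm ⟨x, hx⟩, by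
    simpa using hM1 (e.symm ⟨x, hx⟩)⟩
  exact ⟨c, fun x hx y hy => hc x (hW x hx) y (hW y hy)⟩

theorem D_del (G' : SimpleGraph V) (X : Set V)
    (hG' : ∀ x y, G'.Adj x y → G.Adj x y ∧ x ∉ X ∧ y ∉ X) (A : Finset V) (φ : V → Bool) :
    D G' φ ∅ A ≤ D G φ ∅ (A.filter (fun x => x ∉ X)) := by
  unfold D
  refine le_trans (Finset.sum_subset (Finset.filter_subset (fun x => x ∉ X) A) fun y hy hy' =>
    Finset.card_eq_zero.2 (Finset.filter_eq_empty_iff.2
      fun x _ h => hy' (Finset.mem_filter.2 ⟨hy, (hG' _ _ h.1).2.2⟩))).ge ?_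
  refine Finset.sum_le_sum fun y _ => Finset.card_le_card fun x hx => ?_
  obtain ⟨k1, k2, k3⟩ := Finset.mem_filter.1 hx
  exact Finset.mem_filter.2 ⟨Finset.mem_union_left _ (Finset.mem_filter.2
    ⟨by simpa using k1, (hG' _ _ k2).2.1⟩), (hG' _ _ k2).1, k3⟩

theorem exists_bad (hG : ∀ c : V → ℕ, ∃ x y, G.Adj x y ∧ c x = c y) (C : ℕ) :
    ∃ m, 0 < m ∧ ∀ X : Finset V, ∃ S : Finset V, Disjoint S X ∧ S.card = m ∧
      ∀ φ, C * m < D G φ ∅ S := by
  by_contra hn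
  push Not at hn
  choose! B hB using hn
  let X : Set V := ⋃ m, (B m : Set V)
  have hX : X.Countable := Set.countable_iUnion fun m => (B m).countable_toSet
  let G' : SimpleGraph V :=
    { Adj := fun x y => G.Adj x y ∧ x ∉ X ∧ y ∉ X
      symm := ⟨fun _ _ h => ⟨h.1.symm, h.2.2, h.2.1⟩⟩
      loopless := ⟨fun _ h => h.1.ne rfl⟩ }
  obtain ⟨c, hc⟩ := col_set G' C (fun A => by
    let A' := A.filter (fun x => x ∉ X)
    have h1 : ∀ φ, D G' φ ∅ A ≤ D G φ ∅ A' := fun φ => D_del G G' X (fun _ _ h => h) A φ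
    rcases A'.eq_empty_or_nonempty with h | h
    · exact ⟨fun _ => true, (h1 _).trans (by simp [h, D])⟩
    · obtain ⟨φ, hφ⟩ := hB A'.card h.card_pos A' (Finset.disjoint_left.2 fun x hx hx' =>
        (Finset.mem_filter.1 hx).2 (Set.mem_iUnion.2 ⟨_, hx'⟩)) rfl
      exact ⟨φ, (h1 φ).trans (hφ.trans (Nat.mul_le_mul_left _ (Finset.card_filter_le _ _)))⟩)
    _ Set.univ rfl
  obtain ⟨f, hf⟩ := Set.countable_iff_exists_injOn.1 hX
  obtain ⟨x, y, h1, h2⟩ := hG fun x => if x ∈ X then 2 * f x else 2 * c x + 1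
  by_cases hx : x ∈ X <;> by_cases hy : y ∈ X <;> simp only [hx, hy, if_true, if_false] at h2
  · exact h1.ne (hf hx hy (by omega))
  · omega
  · omega
  · exact hc x trivial y trivial ⟨h1, hx, hy⟩ (by omega)

theorem D_le_beta (S : Finset V) : ∃ φ, D G φ ∅ S ≤ 2 * beta (G.induce (S : Set V)) := by
  obtain ⟨H, h1, ⟨c⟩, h3⟩ : beta (G.induce (S : Set V)) ∈ {m : ℕ | ∃ H : SimpleGraph (S : Set V),
      H ≤ G.induce (S : Set V) ∧ H.IsBipartite ∧
        ((G.induce (S : Set V)).edgeSet \ H.edgeSet).ncard = m} :=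
    Nat.sInf_mem ⟨_, ⊥, bot_le, ⟨SimpleGraph.Coloring.mk (fun _ => 0) fun h => h.elim⟩, rfl⟩
  let φ : V → Bool := fun x => if h : x ∈ S then decide (c ⟨x, h⟩ = 0) else true
  refine ⟨φ, ?_⟩
  let P := (S ×ˢ S).filter (fun p => G.Adj p.2 p.1 ∧ φ p.2 = φ p.1)
  have h4 : D G φ ∅ S = P.card := by
    simp only [D, P, Finset.union_empty, Finset.card_filter, Finset.sum_product]
  rw [h4]
  refine (Finset.card_le_mul_card_image (f := fun p : V × V => s(p.1, p.2)) P 2 fun e _ => ?_).trans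
    (Nat.mul_le_mul_left _ ?_)
  · induction e using Sym2.ind with
    | h x y =>
    refine le_trans (Finset.card_le_card (t := {(x, y), (y, x)}) fun p hp => ?_) Finset.card_le_two
    have := (Finset.mem_filter.1 hp).2
    rw [Sym2.eq_iff] at this
    obtain ⟨p1, p2⟩ := p
    simpa using this
  · rw [← h3, ← Set.ncard_image_of_injective _ (Sym2.map.injective Subtype.val_injective),
      ← Set.ncard_coe_finset]
    refine Set.ncard_le_ncard ?_ (Set.toFinite _)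
    intro e he
    obtain ⟨⟨x, y⟩, hp, rfl⟩ := Finset.mem_image.1 he
    obtain ⟨k1, k2, k3⟩ := Finset.mem_filter.1 hp
    obtain ⟨hx, hy⟩ := Finset.mem_product.1 k1
    refine ⟨s(⟨x, hx⟩, ⟨y, hy⟩), ⟨k2.symm, fun h => ?_⟩, rfl⟩
    have k4 := c.valid (H.mem_edgeSet.1 h)
    simp only [φ] at k3
    rw [dif_pos hx, dif_pos hy, decide_eq_decide] at k3
    revert k3 k4
    generalize c ⟨x, hx⟩ = s
    generalize c ⟨y, hy⟩ = t
    revert s t
    decide

theorem beta_le (S : Finset V) : beta (G.induce (S : Set V)) ≤ (S.card + 1).choose 2 := by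
  refine le_trans (Nat.sInf_le ⟨⊥, bot_le,
    ⟨SimpleGraph.Coloring.mk (fun _ => 0) fun h => h.elim⟩, rfl⟩) ?_
  refine (Set.ncard_le_ncard (Set.subset_univ _) Set.finite_univ).trans ?_
  rw [Set.ncard_univ, Nat.card_eq_fintype_card, Sym2.card]
  simp

theorem main (hU : ∀ c : V → ℕ, ∃ x y, G.Adj x y ∧ c x = c y) (C : ℕ) :
    ∃ n₀, ∀ n ≥ n₀, C * n ≤ hG G n := by
  obtain ⟨m, hm, h⟩ := exists_bad G hU (4 * C)
  have hR : Rl G ∅ m (fun _ => 4 * C * m) := fun X => by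
    obtain ⟨S, h1, h2, h3⟩ := h X
    exact ⟨S, h1, h2.le, fun φ => (h3 φ).le⟩
  haveI : Infinite V := by
    by_contra hf
    rw [not_infinite_iff_finite] at hf
    obtain ⟨f, hf⟩ := exists_injective_nat V
    obtain ⟨x, y, h1, h2⟩ := hU f
    exact h1.ne (hf h2)
  refine ⟨m, fun n hn => ?_⟩
  obtain ⟨S, -, h2, h3⟩ := hR.smul (n / m) ∅
  have h4 : n / m * m ≤ n := Nat.div_mul_le_self n m
  obtain ⟨S', h5, h6⟩ := Infinite.exists_superset_card_eq S n (h2.trans h4)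
  obtain ⟨φ, hφ⟩ := D_le_beta G S'
  have h7 := D_split (G := G) (T := ∅) (T₁ := ∅) (T₂ := ∅) φ
    (Finset.disjoint_sdiff (s := S) (t := S')) (Finset.empty_subset _) (Finset.empty_subset _)
  rw [Finset.union_sdiff_of_subset h5] at h7
  have h8 : n / m * (4 * C * m) ≤ D G φ ∅ S := h3 φ
  have h9 : beta (G.induce (S' : Set V)) ≤ hG G n :=
    le_csSup ⟨(n + 1).choose 2, by rintro _ ⟨S, rfl, rfl⟩; exact beta_le G S⟩ ⟨S', h6, rfl⟩
  have h10 : n < n / m * m + m := Nat.lt_div_mul_add hm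
  have h11 : 1 ≤ n / m := (Nat.one_le_div_iff hm).2 hn
  have h12 : n ≤ 2 * (n / m * m) := by nlinarith
  have h13 := Nat.mul_le_mul_left C h12
  nlinarith

end Pool.Agent.H26.LinBip
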