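import Pool.Agent.H26.MatFamDefs

namespace Pool.Agent.H26.MatFam

open Classical Finset

noncomputable section

def mult {V : Type} (z : Sym2 V) (v : V) : ℕ :=
  Sym2.lift ⟨fun a b => (if a = v then 1 else 0) + (if b = v then 1 else 0),
    fun _ _ => add_comm _ _⟩ z

theorem mult_mk {V : Type} (a b v : V) :
    mult s(a, b) v = (if a = v then 1 else 0) + (if b = v then 1 else 0) := by
  simp [mult]

theorem mult_pos {V : Type} (z : Sym2 V) (v : V) : 0 < mult z v ↔ v ∈ z := by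
  induction z using Sym2.ind with
  | _ a b =>
    rw [mult_mk, Sym2.mem_iff]
    by_cases h1 : a = v <;> by_cases h2 : b = v <;> simp [h1, h2, eq_comm]
    exact ⟨fun h => h1 h.symm, fun h => h2 h.symm⟩

theorem mult_le {V : Type} (z : Sym2 V) (v : V) : mult z v ≤ 2 := by
  induction z using Sym2.ind with
  | _ a b =>
    rw [mult_mk]
    split_ifs <;> omega

theorem mult_map {V W : Type} (f : V → W) (hf : Function.Injective f) (z : Sym2 V) (v : V) :
    mult (z.map f) (f v) = mult z v := by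
  induction z using Sym2.ind with
  | _ a b => simp [mult_mk, hf.eq_iff]

variable {G : MG}

def vs (Y : Finset G.E) : Finset G.V := Y.biUnion (fun e => (G.ends e).toFinset)

theorem mem_vs {Y : Finset G.E} {v : G.V} : v ∈ vs Y ↔ ∃ e ∈ Y, v ∈ G.ends e := by
  simp [vs]

def dl (Y : Finset G.E) : ℤ := (Y.card : ℤ) - (vs Y).card

def deg (Y : Finset G.E) (v : G.V) : ℕ := ∑ e ∈ Y, mult (G.ends e) v

theorem deg_pos {Y : Finset G.E} {v : G.V} : 0 < deg Y v ↔ v ∈ vs Y := by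
  rw [deg, mem_vs, Finset.sum_pos_iff]
  simp [mult_pos]

theorem deg_mono {Y Z : Finset G.E} (h : Y ⊆ Z) (v : G.V) : deg Y v ≤ deg Z v :=
  Finset.sum_le_sum_of_subset h

theorem vs_mono {Y Z : Finset G.E} (h : Y ⊆ Z) : vs Y ⊆ vs Z := by
  intro v hv
  obtain ⟨e, he, hv⟩ := mem_vs.1 hv
  exact mem_vs.2 ⟨e, h he, hv⟩

theorem vs_union (Y Z : Finset G.E) : vs (Y ∪ Z) = vs Y ∪ vs Z := by
  ext v
  simp only [mem_vs, Finset.mem_union]
  constructor
  · rintro ⟨e, h | h, hv⟩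
    · exact Or.inl ⟨e, h, hv⟩
    · exact Or.inr ⟨e, h, hv⟩
  · rintro (⟨e, h, hv⟩ | ⟨e, h, hv⟩)
    · exact ⟨e, Or.inl h, hv⟩
    · exact ⟨e, Or.inr h, hv⟩

theorem disj_edges {Y Z : Finset G.E} (h : Disjoint (vs Y) (vs Z)) : Disjoint Y Z := by
  rw [Finset.disjoint_left] at *
  intro e h1 h2
  obtain ⟨v, hv⟩ : ∃ v, v ∈ G.ends e := ⟨(G.ends e).out.1, Sym2.out_fst_mem _⟩
  exact h (mem_vs.2 ⟨e, h1, hv⟩) (mem_vs.2 ⟨e, h2, hv⟩)

theorem dl_super (Y Z : Finset G.E) : dl Y + dl Z ≤ dl (Y ∪ Z) + dl (Y ∩ Z) := by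
  have h1 := Finset.card_union_add_card_inter Y Z
  have h2 := Finset.card_union_add_card_inter (vs Y) (vs Z)
  have h3 : (vs (Y ∩ Z)).card ≤ (vs Y ∩ vs Z).card :=
    Finset.card_le_card (Finset.subset_inter (vs_mono Finset.inter_subset_left)
      (vs_mono Finset.inter_subset_right))
  unfold dl
  rw [vs_union]
  omega

theorem dl_union {Y Z : Finset G.E} (h : Disjoint (vs Y) (vs Z)) :
    dl (Y ∪ Z) = dl Y + dl Z := by
  unfold dl
  rw [vs_union, Finset.card_union_of_disjoint h, Finset.card_union_of_disjoint (disj_edges h)]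
  push_cast; ring

theorem dl_erase (Y : Finset G.E) (e : G.E) : dl Y - 1 ≤ dl (Y.erase e) := by
  have h1 := Finset.card_le_card (vs_mono (Finset.erase_subset e Y))
  have h2 := Finset.pred_card_le_card_erase (s := Y) (a := e)
  unfold dl
  omega

theorem dl_empty : dl (∅ : Finset G.E) = 0 := by simp [dl, vs]

def Min2 (Y : Finset G.E) : Prop := ∀ v ∈ vs Y, 2 ≤ deg Y v

def Q (X : Finset G.E) : Prop :=
  X.Nonempty ∧ Min2 X ∧ ∀ Y ⊆ X, Y.Nonempty → Min2 Y →
    ∃ v ∈ vs Y, ∃ w ∈ vs Y, v ≠ w ∧ 4 ≤ deg X v ∧ 4 ≤ deg X w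

def Tight (X : Finset G.E) : Prop := ∀ Y ⊆ X, Y ≠ X → dl Y < dl X

def Typ (n : ℕ) (X : Finset G.E) : Prop :=
  Q X ∧ (∀ Y ⊆ X, Q Y → Y = X) ∧ Tight X ∧ dl X = n + 2

def cc : ℕ → ℕ
  | 0 => 4
  | n + 1 => cc n + (n + 2)

structure Rep (X : Set G.E) (N : ℕ) (F : Finset G.E) (D : ℕ → Finset G.E) : Prop where
  mem : ∀ e, e ∈ X ↔ e ∈ F ∨ ∃ n, N ≤ n ∧ e ∈ D n
  tight : Tight F
  val : dl F = cc N
  typ : ∀ n, N ≤ n → Typ n (D n)
  d1 : ∀ n, N ≤ n → Disjoint (vs F) (vs (D n))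
  d2 : ∀ n m, N ≤ n → N ≤ m → n ≠ m → Disjoint (vs (D n)) (vs (D m))

def Good (X : Set G.E) : Prop := ∃ N F D, Rep X N F D

theorem tight_union {Y Z : Finset G.E} (hY : Tight Y) (hZ : Tight Z)
    (h : Disjoint (vs Y) (vs Z)) : Tight (Y ∪ Z) := by
  intro W hW hne
  have e1 : W = (W ∩ Y) ∪ (W ∩ Z) := by
    rw [← Finset.inter_union_distrib_left, Finset.inter_eq_left.2 hW]
  have hd : Disjoint (vs (W ∩ Y)) (vs (W ∩ Z)) :=
    h.mono (vs_mono Finset.inter_subset_right) (vs_mono Finset.inter_subset_right)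
  have e2 := dl_union hd
  rw [← e1] at e2
  rw [dl_union h, e2]
  have a1 : dl (W ∩ Y) ≤ dl Y := by
    by_cases h1 : W ∩ Y = Y
    · rw [h1]
    · exact (hY _ Finset.inter_subset_right h1).le
  have a2 : dl (W ∩ Z) ≤ dl Z := by
    by_cases h1 : W ∩ Z = Z
    · rw [h1]
    · exact (hZ _ Finset.inter_subset_right h1).le
  by_cases h1 : W ∩ Y = Y
  · by_cases h2 : W ∩ Z = Z
    · exact absurd (by rw [e1, h1, h2]) hne
    · have := hZ _ Finset.inter_subset_right h2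
      omega
  · have := hY _ Finset.inter_subset_right h1
    omega

theorem Rep.step {X : Set G.E} {N F D} (h : Rep X N F D) : Rep X (N + 1) (F ∪ D N) D where
  mem e := by
    rw [h.mem, Finset.mem_union]
    constructor
    · rintro (h1 | ⟨n, hn, h1⟩)
      · exact Or.inl (Or.inl h1)
      · rcases hn.eq_or_lt with rfl | hn
        · exact Or.inl (Or.inr h1)
        · exact Or.inr ⟨n, hn, h1⟩
    · rintro ((h1 | h1) | ⟨n, hn, h1⟩)
      · exact Or.inl h1
      · exact Or.inr ⟨N, le_rfl, h1⟩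
      · exact Or.inr ⟨n, by omega, h1⟩
  tight := tight_union h.tight (h.typ N le_rfl).2.2.1 (h.d1 N le_rfl)
  val := by
    rw [dl_union (h.d1 N le_rfl), h.val, (h.typ N le_rfl).2.2.2, cc]
    push_cast; ring
  typ n hn := h.typ n (by omega)
  d1 n hn := by
    rw [vs_union, Finset.disjoint_union_left]
    exact ⟨h.d1 n (by omega), h.d2 N n le_rfl (by omega) (by omega)⟩
  d2 n m hn hm := h.d2 n m (by omega) (by omega)

theorem Rep.up {X : Set G.E} {N F D} (h : Rep X N F D) {M : ℕ} (hM : N ≤ M) :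
    ∃ F', Rep X M F' D := by
  induction M, hM using Nat.le_induction with
  | base => exact ⟨F, h⟩
  | succ M _ ih =>
    obtain ⟨F', h'⟩ := ih
    exact ⟨_, h'.step⟩

theorem Rep.far {X : Set G.E} {N F D} (h : Rep X N F D) (S : Finset G.V) :
    ∃ M, N ≤ M ∧ ∀ n, M ≤ n → Disjoint S (vs (D n)) := by
  induction S using Finset.induction_on with
  | empty => exact ⟨N, le_rfl, by simp⟩
  | insert v S _ ih =>
    obtain ⟨M, hM, hS⟩ := ih
    by_cases hv : ∃ k, N ≤ k ∧ v ∈ vs (D k)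
    · obtain ⟨k, hk, hv⟩ := hv
      refine ⟨max M (k + 1), by omega, fun n hn => ?_⟩
      rw [Finset.disjoint_insert_left]
      refine ⟨fun h' => ?_, hS n (by omega)⟩
      exact Finset.disjoint_left.1 (h.d2 k n hk (by omega) (by omega)) hv h'
    · refine ⟨M, hM, fun n hn => ?_⟩
      rw [Finset.disjoint_insert_left]
      exact ⟨fun h' => hv ⟨n, by omega, h'⟩, hS n hn⟩

theorem q_part {X Y : Finset G.E} (hX : Q X) (hY : Y ⊆ X) (hne : Y.Nonempty)
    (hcl : ∀ e ∈ X, ∀ v ∈ vs Y, v ∈ G.ends e → e ∈ Y) : Q Y := by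
  have hdeg : ∀ v ∈ vs Y, deg Y v = deg X v := by
    intro v hv
    unfold deg
    refine Finset.sum_subset hY (fun e he hn => ?_)
    by_contra h0
    exact hn (hcl e he v hv ((mult_pos _ _).1 (Nat.pos_of_ne_zero h0)))
  refine ⟨hne, fun v hv => ?_, fun Z hZ hZn hZ2 => ?_⟩
  · rw [hdeg v hv]; exact hX.2.1 v (vs_mono hY hv)
  · obtain ⟨v, hv, w, hw, h1, h2, h3⟩ := hX.2.2 Z (hZ.trans hY) hZn hZ2
    exact ⟨v, hv, w, hw, h1, by rw [hdeg v (vs_mono hZ hv)]; exact h2,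
      by rw [hdeg w (vs_mono hZ hw)]; exact h3⟩

theorem good_c1 {X X' : Set G.E} (h : Good X) (h' : Good X') (hs : X ⊆ X') : X = X' := by
  obtain ⟨N, F, D, h⟩ := h
  obtain ⟨N', F', D', h'⟩ := h'
  obtain ⟨M0, hM0, hfar⟩ := h.far (vs F')
  set M := max M0 N' with hM
  have key : ∀ n, M ≤ n → D n = D' n := by
    intro n hn
    have ht := h.typ n (by omega)
    have hin : ∀ e ∈ D n, ∃ m, N' ≤ m ∧ e ∈ D' m := by
      intro e he
      have : e ∈ X' := hs ((h.mem e).2 (Or.inr ⟨n, by omega, he⟩))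
      rcases (h'.mem e).1 this with h1 | h1
      · exact absurd he (Finset.disjoint_left.1 (disj_edges (hfar n (by omega))) h1)
      · exact h1
    obtain ⟨e, he⟩ := ht.1.1
    obtain ⟨m, hm, hem⟩ := hin e he
    have hq : Q (D n ∩ D' m) := by
      refine q_part ht.1 Finset.inter_subset_left ⟨e, Finset.mem_inter.2 ⟨he, hem⟩⟩ ?_
      intro x hx v hv hvx
      obtain ⟨k, hk, hxk⟩ := hin x hx
      by_cases hkm : k = m
      · subst hkm; exact Finset.mem_inter.2 ⟨hx, hxk⟩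
      · exact absurd (vs_mono Finset.inter_subset_right hv)
          (Finset.disjoint_left.1 (h'.d2 k m hk hm hkm) (mem_vs.2 ⟨x, hxk, hvx⟩))
    have e1 := ht.2.1 _ Finset.inter_subset_left hq
    have e2 := (h'.typ m hm).2.1 _ Finset.inter_subset_right hq
    have e3 : D n = D' m := e1.symm.trans e2
    have e4 := (h'.typ m hm).2.2.2
    rw [← e3, ht.2.2.2] at e4
    have : n = m := by omega
    subst this
    exact e3
  obtain ⟨A, hA⟩ := h.up (M := M) (by omega)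
  obtain ⟨A', hA'⟩ := h'.up (M := M) (by omega)
  have hsub : A ⊆ A' := by
    intro e he
    rcases (hA'.mem e).1 (hs ((hA.mem e).2 (Or.inl he))) with h1 | ⟨n, hn, h1⟩
    · exact h1
    · rw [← key n hn] at h1
      exact absurd h1 (Finset.disjoint_left.1 (disj_edges (hA.d1 n hn)) he)
  have hAA : A = A' := by
    by_contra hne
    have := hA'.tight A hsub hne
    rw [hA.val, hA'.val] at this
    exact lt_irrefl _ this
  ext e
  rw [hA.mem, hA'.mem, hAA]
  refine or_congr Iff.rfl (exists_congr fun n => and_congr_right fun hn => by rw [key n hn])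

theorem cc_pos (n : ℕ) : 4 ≤ cc n := by
  induction n with
  | zero => simp [cc]
  | succ n ih => simp [cc]; omega

theorem exists_tight (c : ℤ) (hc : 0 < c) (K : Finset G.E) (hK : c ≤ dl K) :
    ∃ Y ⊆ K, Tight Y ∧ dl Y = c := by
  induction K using Finset.strongInduction with
  | H K ih =>
    by_cases h : ∃ Y ⊆ K, Y ≠ K ∧ c ≤ dl Y
    · obtain ⟨Y, hY, hne, hc'⟩ := h
      obtain ⟨Z, hZ, h1⟩ := ih Y (Finset.ssubset_iff_subset_ne.2 ⟨hY, hne⟩) hc'
      exact ⟨Z, hZ.trans hY, h1⟩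
    · push Not at h
      refine ⟨K, subset_rfl, fun Y hY hne => lt_of_lt_of_le (h Y hY hne) hK, ?_⟩
      rcases K.eq_empty_or_nonempty with rfl | ⟨e, he⟩
      · rw [dl_empty] at hK; omega
      · have h1 := h _ (Finset.erase_subset e K) (by simp [he])
        have h2 := dl_erase K e
        omega

theorem good_c2 {X X' : Set G.E} (h : Good X) (h' : Good X') (hne : X ≠ X') (e : G.E) :
    ∃ B, Good B ∧ B ⊆ (X ∪ X') \ {e} := by
  have hns : ¬ X' ⊆ X := fun hs => hne (good_c1 h' h hs).symm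
  obtain ⟨f, hf', hf⟩ := Set.not_subset.1 hns
  obtain ⟨N, F, D, h⟩ := h
  obtain ⟨N', F', D', h'⟩ := h'
  obtain ⟨Z, hZt, hfZ, hZX⟩ : ∃ Z : Finset G.E, Tight Z ∧ f ∈ Z ∧ ∀ x ∈ Z, x ∈ X' := by
    rcases (h'.mem f).1 hf' with h1 | ⟨n, hn, h1⟩
    · exact ⟨F', h'.tight, h1, fun x hx => (h'.mem x).2 (Or.inl hx)⟩
    · exact ⟨D' n, (h'.typ n hn).2.2.1, h1, fun x hx => (h'.mem x).2 (Or.inr ⟨n, hn, hx⟩)⟩
  obtain ⟨M, hM, hfar⟩ := h.far (vs (Z ∪ {e}))
  obtain ⟨A, hA⟩ := h.up hM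
  have h1 := dl_super A Z
  have h2 : dl (A ∩ Z) < dl Z := by
    refine hZt _ Finset.inter_subset_right (fun heq => hf ?_)
    rw [← heq] at hfZ
    exact (hA.mem f).2 (Or.inl (Finset.mem_inter.1 hfZ).1)
  have h3 := dl_erase (A ∪ Z) e
  have h4 := hA.val
  have h5 := cc_pos M
  obtain ⟨Y, hY, hYt, hYv⟩ := exists_tight (cc M) (by omega) ((A ∪ Z).erase e) (by omega)
  refine ⟨{x | x ∈ Y ∨ ∃ n, M ≤ n ∧ x ∈ D n}, ⟨M, Y, D, fun _ => Iff.rfl, hYt, hYv, hA.typ,
    fun n hn => ?_, hA.d2⟩, ?_⟩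
  · refine Disjoint.mono_left (vs_mono (hY.trans (Finset.erase_subset _ _))) ?_
    rw [vs_union, Finset.disjoint_union_left]
    exact ⟨hA.d1 n hn, (hfar n hn).mono_left (vs_mono Finset.subset_union_left)⟩
  · rintro x (hx | ⟨n, hn, hx⟩)
    · have := Finset.mem_erase.1 (hY hx)
      refine ⟨?_, this.1⟩
      rcases Finset.mem_union.1 this.2 with h6 | h6
      · exact Or.inl ((hA.mem x).2 (Or.inl h6))
      · exact Or.inr (hZX x h6)
    · refine ⟨Or.inl ((hA.mem x).2 (Or.inr ⟨n, hn, hx⟩)), ?_⟩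
      rintro rfl
      exact Finset.disjoint_left.1 (disj_edges (hfar n hn)) (by simp) hx

end

end Pool.Agent.H26.MatFam
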