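import Pool.Agent.H26.MatFamA

namespace Pool.Agent.H26.MatFam

open Classical Finset

noncomputable section

structure Tr (G G' : MG) where
  r : G'.E → G.E → Prop
  L : Finset G.E → Finset G'.E
  φ : G.V → G'.V
  mem : ∀ Y x, x ∈ L Y ↔ ∃ e ∈ Y, r x e
  func : ∀ x a b, r x a → r x b → a = b
  surj : ∀ e, ∃ x, r x e
  inj : Function.Injective φ
  hdl : ∀ Y, dl (L Y) = dl Y
  core : ∀ Z Y', Y' ⊆ L Z → ∃ Y ⊆ Z, L Y ⊆ Y' ∧ dl Y' ≤ dl Y ∧ (Min2 Y' → L Y = Y')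
  hdeg : ∀ Y v, deg (L Y) (φ v) = deg Y v
  other : ∀ v', v' ∉ Set.range φ → ∀ Y, v' ∈ vs (L Y) →
    deg (L Y) v' = 2 ∧ ∃ e ∈ Y, ∀ Z, v' ∈ vs (L Z) → e ∈ Z

variable {G G' : MG} (T : Tr G G')

theorem Tr.sub_iff {Y Z : Finset G.E} : T.L Y ⊆ T.L Z ↔ Y ⊆ Z := by
  constructor
  · intro h e he
    obtain ⟨x, hx⟩ := T.surj e
    obtain ⟨a, ha, hxa⟩ := (T.mem _ _).1 (h ((T.mem _ _).2 ⟨e, he, hx⟩))
    rwa [T.func x e a hx hxa]
  · intro h x hx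
    obtain ⟨a, ha, hxa⟩ := (T.mem _ _).1 hx
    exact (T.mem _ _).2 ⟨a, h ha, hxa⟩

theorem Tr.eq_iff {Y Z : Finset G.E} : T.L Y = T.L Z ↔ Y = Z := by
  constructor
  · intro h
    exact Finset.Subset.antisymm (T.sub_iff.1 h.subset) (T.sub_iff.1 h.symm.subset)
  · rintro rfl; rfl

theorem Tr.ne_iff {Y : Finset G.E} : (T.L Y).Nonempty ↔ Y.Nonempty := by
  constructor
  · rintro ⟨x, hx⟩
    obtain ⟨a, ha, _⟩ := (T.mem _ _).1 hx
    exact ⟨a, ha⟩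
  · rintro ⟨e, he⟩
    obtain ⟨x, hx⟩ := T.surj e
    exact ⟨x, (T.mem _ _).2 ⟨e, he, hx⟩⟩

theorem Tr.vs_iff {Y : Finset G.E} {v : G.V} : T.φ v ∈ vs (T.L Y) ↔ v ∈ vs Y := by
  rw [← deg_pos, ← deg_pos, T.hdeg]

theorem Tr.min2_iff {Y : Finset G.E} : Min2 (T.L Y) ↔ Min2 Y := by
  constructor
  · intro h v hv
    rw [← T.hdeg]; exact h _ (T.vs_iff.2 hv)
  · intro h v' hv'
    by_cases hr : v' ∈ Set.range T.φ
    · obtain ⟨v, rfl⟩ := hr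
      rw [T.hdeg]; exact h _ (T.vs_iff.1 hv')
    · rw [(T.other v' hr Y hv').1]

theorem Tr.disj_iff {Y Z : Finset G.E} :
    Disjoint (vs (T.L Y)) (vs (T.L Z)) ↔ Disjoint (vs Y) (vs Z) := by
  constructor
  · intro h
    rw [Finset.disjoint_left] at *
    intro v h1 h2
    exact h (T.vs_iff.2 h1) (T.vs_iff.2 h2)
  · intro h
    rw [Finset.disjoint_left]
    intro v' h1 h2
    by_cases hr : v' ∈ Set.range T.φ
    · obtain ⟨v, rfl⟩ := hr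
      exact Finset.disjoint_left.1 h (T.vs_iff.1 h1) (T.vs_iff.1 h2)
    · obtain ⟨e, he, hZ⟩ := (T.other v' hr Y h1).2
      exact Finset.disjoint_left.1 (disj_edges h) he (hZ Z h2)

theorem Tr.big {X : Finset G.E} {v' : G'.V} (h : 3 ≤ deg (T.L X) v') : ∃ v, v' = T.φ v := by
  by_contra hn
  have hr : v' ∉ Set.range T.φ := fun ⟨v, hv⟩ => hn ⟨v, hv.symm⟩
  have := (T.other v' hr X (deg_pos.1 (by omega))).1
  omega

theorem Tr.q_iff {X : Finset G.E} : Q (T.L X) ↔ Q X := by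
  constructor
  · rintro ⟨h1, h2, h3⟩
    refine ⟨T.ne_iff.1 h1, T.min2_iff.1 h2, fun Y hY hn hm => ?_⟩
    obtain ⟨v', hv, w', hw, hne, a, b⟩ := h3 _ (T.sub_iff.2 hY) (T.ne_iff.2 hn) (T.min2_iff.2 hm)
    obtain ⟨v, rfl⟩ := T.big (X := X) (v' := v') (by omega)
    obtain ⟨w, rfl⟩ := T.big (X := X) (v' := w') (by omega)
    rw [T.hdeg] at a b
    exact ⟨v, T.vs_iff.1 hv, w, T.vs_iff.1 hw, fun h => hne (by rw [h]), a, b⟩
  · rintro ⟨h1, h2, h3⟩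
    refine ⟨T.ne_iff.2 h1, T.min2_iff.2 h2, fun Y' hY hn hm => ?_⟩
    obtain ⟨Y, hYX, -, -, h4⟩ := T.core X Y' hY
    obtain rfl := h4 hm
    obtain ⟨v, hv, w, hw, hne, a, b⟩ := h3 Y hYX (T.ne_iff.1 hn) (T.min2_iff.1 hm)
    exact ⟨T.φ v, T.vs_iff.2 hv, T.φ w, T.vs_iff.2 hw, fun h => hne (T.inj h),
      by rw [T.hdeg]; exact a, by rw [T.hdeg]; exact b⟩

theorem Tr.tight_iff {X : Finset G.E} : Tight (T.L X) ↔ Tight X := by
  constructor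
  · intro h Y hY hne
    have := h _ (T.sub_iff.2 hY) (fun h => hne (T.eq_iff.1 h))
    rwa [T.hdl, T.hdl] at this
  · intro h Y' hY hne
    obtain ⟨Y, hYX, h1, h2, -⟩ := T.core X Y' hY
    have : Y ≠ X := by
      rintro rfl
      exact hne (Finset.Subset.antisymm hY h1)
    have := h Y hYX this
    rw [T.hdl]
    omega

theorem Tr.typ_iff {n : ℕ} {X : Finset G.E} : Typ n (T.L X) ↔ Typ n X := by
  unfold Typ
  rw [T.q_iff, T.tight_iff, T.hdl]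
  refine and_congr Iff.rfl (and_congr ?_ Iff.rfl)
  constructor
  · intro h Y hY hq
    exact T.eq_iff.1 (h _ (T.sub_iff.2 hY) (T.q_iff.2 hq))
  · intro h Y' hY hq
    obtain ⟨Y, hYX, -, -, h4⟩ := T.core X Y' hY
    obtain rfl := h4 hq.2.1
    rw [h Y hYX (T.q_iff.1 hq)]

def Tr.im (X : Set G.E) : Set G'.E := {x | ∃ e ∈ X, T.r x e}

theorem Tr.cover {X : Set G.E} (Y' : Finset G'.E) (h : ∀ x ∈ Y', x ∈ T.im X) :
    ∃ Z : Finset G.E, Y' ⊆ T.L Z ∧ ∀ e ∈ Z, e ∈ X := by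
  choose g hg1 hg2 using h
  refine ⟨Y'.attach.image (fun x => g x.1 x.2), fun x hx => ?_, fun e he => ?_⟩
  · exact (T.mem _ _).2 ⟨g x hx, Finset.mem_image.2 ⟨⟨x, hx⟩, Finset.mem_attach _ _, rfl⟩,
      hg2 x hx⟩
  · obtain ⟨x, -, rfl⟩ := Finset.mem_image.1 he
    exact hg1 _ _

theorem Tr.of_tight {X : Set G.E} (Y' : Finset G'.E) (h : ∀ x ∈ Y', x ∈ T.im X)
    (ht : Tight Y') : ∃ Y, Y' = T.L Y := by
  obtain ⟨Z, hZ, -⟩ := T.cover Y' h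
  obtain ⟨Y, -, h1, h2, -⟩ := T.core Z Y' hZ
  refine ⟨Y, ?_⟩
  by_contra hne
  have := ht _ h1 (fun h => hne h.symm)
  rw [T.hdl] at this
  omega

theorem Tr.rep_iff {X : Set G.E} {N F D} :
    Rep (T.im X) N (T.L F) (fun n => T.L (D n)) ↔ Rep X N F D := by
  constructor
  · intro h
    refine ⟨fun e => ?_, T.tight_iff.1 h.tight, by rw [← T.hdl]; exact h.val,
      fun n hn => T.typ_iff.1 (h.typ n hn), fun n hn => T.disj_iff.1 (h.d1 n hn),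
      fun n m hn hm hne => T.disj_iff.1 (h.d2 n m hn hm hne)⟩
    obtain ⟨x, hx⟩ := T.surj e
    have key : ∀ Y, x ∈ T.L Y ↔ e ∈ Y := fun Y => by
      rw [T.mem]
      exact ⟨fun ⟨a, ha, h1⟩ => by rwa [T.func x e a hx h1], fun h1 => ⟨e, h1, hx⟩⟩
    have k2 : x ∈ T.im X ↔ e ∈ X :=
      ⟨fun ⟨a, ha, h1⟩ => by rwa [T.func x e a hx h1], fun h1 => ⟨e, h1, hx⟩⟩
    have := h.mem x
    simp only [key, k2] at this
    exact this
  · intro h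
    refine ⟨fun x => ?_, T.tight_iff.2 h.tight, by rw [T.hdl]; exact h.val,
      fun n hn => T.typ_iff.2 (h.typ n hn), fun n hn => T.disj_iff.2 (h.d1 n hn),
      fun n m hn hm hne => T.disj_iff.2 (h.d2 n m hn hm hne)⟩
    simp only [Tr.im, Set.mem_setOf_eq, T.mem, h.mem]
    constructor
    · rintro ⟨e, h1 | ⟨n, hn, h1⟩, h2⟩
      · exact Or.inl ⟨e, h1, h2⟩
      · exact Or.inr ⟨n, hn, e, h1, h2⟩
    · rintro (⟨e, h1, h2⟩ | ⟨n, hn, e, h1, h2⟩)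
      · exact ⟨e, Or.inl h1, h2⟩
      · exact ⟨e, Or.inr ⟨n, hn, h1⟩, h2⟩

theorem Tr.good_iff {X : Set G.E} : Good (T.im X) ↔ Good X := by
  constructor
  · rintro ⟨N, F', D', h⟩
    obtain ⟨F, rfl⟩ := T.of_tight F' (fun x hx => (h.mem x).2 (Or.inl hx)) h.tight
    have : ∀ n, ∃ Y, N ≤ n → D' n = T.L Y := by
      intro n
      by_cases hn : N ≤ n
      · obtain ⟨Y, hY⟩ := T.of_tight (D' n)
          (fun x hx => (h.mem x).2 (Or.inr ⟨n, hn, hx⟩)) (h.typ n hn).2.2.1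
        exact ⟨Y, fun _ => hY⟩
      · exact ⟨∅, fun h => absurd h hn⟩
    choose D hD using this
    refine ⟨N, F, D, T.rep_iff.1 ⟨fun x => ?_, h.tight, h.val, fun n hn => ?_, fun n hn => ?_,
      fun n m hn hm hne => ?_⟩⟩
    · rw [h.mem]
      exact or_congr Iff.rfl (exists_congr fun n => and_congr_right fun hn => by rw [hD n hn])
    · rw [← hD n hn]; exact h.typ n hn
    · rw [← hD n hn]; exact h.d1 n hn
    · rw [← hD n hn, ← hD m hm]; exact h.d2 n m hn hm hne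
  · rintro ⟨N, F, D, h⟩
    exact ⟨N, _, _, T.rep_iff.2 h⟩

def BigOn (X : Set G.E) (d : ℕ) : Prop :=
  ∃ (v : G.V) (Y : Finset G.E), (∀ e ∈ Y, e ∈ X) ∧ d ≤ deg Y v

theorem Tr.bigOn_iff {X : Set G.E} {d : ℕ} (hd : 3 ≤ d) : BigOn (T.im X) d ↔ BigOn X d := by
  constructor
  · rintro ⟨v', Y', h1, h2⟩
    obtain ⟨Z, hZ, hX⟩ := T.cover Y' h1
    have h3 := h2.trans (deg_mono hZ v')
    obtain ⟨v, rfl⟩ := T.big (hd.trans h3)
    rw [T.hdeg] at h3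
    exact ⟨v, Z, hX, h3⟩
  · rintro ⟨v, Y, h1, h2⟩
    refine ⟨T.φ v, T.L Y, fun x hx => ?_, by rw [T.hdeg]; exact h2⟩
    obtain ⟨e, he, h3⟩ := (T.mem _ _).1 hx
    exact ⟨e, h1 e he, h3⟩

theorem vs_emb (f : Emb G G') (Y : Finset G.E) : vs (Y.image f.e) = (vs Y).image f.v := by
  ext w
  simp only [mem_vs, Finset.mem_image]
  constructor
  · rintro ⟨x, ⟨e, he, rfl⟩, hw⟩
    rw [f.ends, Sym2.mem_map] at hw
    obtain ⟨v, hv, rfl⟩ := hw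
    exact ⟨v, ⟨e, he, hv⟩, rfl⟩
  · rintro ⟨v, ⟨e, he, hv⟩, rfl⟩
    exact ⟨_, ⟨e, he, rfl⟩, by rw [f.ends, Sym2.mem_map]; exact ⟨v, hv, rfl⟩⟩

theorem dl_emb (f : Emb G G') (Y : Finset G.E) : dl (Y.image f.e) = dl Y := by
  unfold dl
  rw [vs_emb, Finset.card_image_of_injective _ f.he, Finset.card_image_of_injective _ f.hv]

def Emb.tr (f : Emb G G') : Tr G G' where
  r x e := f.e e = x
  L Y := Y.image f.e
  φ := f.v
  mem Y x := Finset.mem_image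
  func x a b h1 h2 := f.he (h1.trans h2.symm)
  surj e := ⟨_, rfl⟩
  inj := f.hv
  hdl := dl_emb f
  core Z Y' h := by
    obtain ⟨Y, hY, rfl⟩ := Finset.subset_image_iff.1 h
    exact ⟨Y, hY, subset_rfl, (dl_emb f Y).le, fun _ => rfl⟩
  hdeg Y v := by
    unfold deg
    rw [Finset.sum_image (fun a _ b _ h => f.he h)]
    exact Finset.sum_congr rfl fun e _ => by rw [f.ends, mult_map _ f.hv]
  other v' hv Y h := by
    rw [vs_emb] at h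
    obtain ⟨v, -, rfl⟩ := Finset.mem_image.1 h
    exact absurd ⟨v, rfl⟩ hv

theorem Emb.im_univ (f : Emb G G') : f.tr.im Set.univ = Set.range f.e := by
  ext x
  simp [Tr.im, Emb.tr]

end

end Pool.Agent.H26.MatFam
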