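import Pool.Agent.H26.MatFamB

namespace Pool.Agent.H26.MatFam

open Classical Finset

noncomputable section

variable {G : MG} (s t : G.E → G.V) (l : G.E → ℕ)

theorem pt_inr (e : G.E) (k : ℕ) (y : {x : G.E × ℕ // x.2 < l x.1}) :
    pt s t l e k = Sum.inr y ↔ e = y.1.1 ∧ k = y.1.2 + 1 := by
  obtain ⟨⟨a, i⟩, h⟩ := y
  unfold pt
  split_ifs with h1 h2
  · simp; omega
  · simp only [Sum.inr.injEq, Subtype.mk.injEq, Prod.mk.injEq]
    constructor
    · rintro ⟨rfl, h3⟩; exact ⟨rfl, by omega⟩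
    · rintro ⟨rfl, h3⟩; exact ⟨rfl, by omega⟩
  · simp only [reduceCtorEq, false_iff, not_and]
    rintro rfl rfl
    exact h2 (by simpa using h)

theorem pt_inl0 (e : G.E) (k : ℕ) (hk : k ≤ l e) (v : G.V) :
    pt s t l e k = Sum.inl v ↔ k = 0 ∧ s e = v := by
  unfold pt
  split_ifs with h1 h2
  · simp [h1]
  · simp [h1]
  · omega

theorem pt_inl1 (e : G.E) (k : ℕ) (hk : k ≤ l e) (v : G.V) :
    pt s t l e (k + 1) = Sum.inl v ↔ k = l e ∧ t e = v := by
  unfold pt
  rw [if_neg (Nat.succ_ne_zero k)]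
  split_ifs with h2
  · simp at h2 ⊢; omega
  · simp at h2 ⊢; omega

theorem finL (Y : Finset G.E) : {x : (Sub G s t l).E | x.1.1 ∈ Y}.Finite := by
  refine Set.Finite.of_finite_image (f := fun x => x.1) ?_ Subtype.val_injective.injOn
  refine (Y.biUnion (fun e => (Finset.range (l e + 1)).image (fun i => (e, i)))).finite_toSet.subset ?_
  rintro _ ⟨⟨⟨e, i⟩, h⟩, hx, rfl⟩
  simp only [Finset.coe_biUnion, Set.mem_iUnion, Finset.mem_coe, Finset.mem_image,
    Finset.mem_range]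
  exact ⟨e, hx, i, by simpa [Nat.lt_succ_iff] using h, rfl⟩

theorem finI (Y : Finset G.E) : {x : {x : G.E × ℕ // x.2 < l x.1} | x.1.1 ∈ Y}.Finite := by
  refine Set.Finite.of_finite_image (f := fun x => x.1) ?_ Subtype.val_injective.injOn
  refine (Y.biUnion (fun e => (Finset.range (l e)).image (fun i => (e, i)))).finite_toSet.subset ?_
  rintro _ ⟨⟨⟨e, i⟩, h⟩, hx, rfl⟩
  simp only [Finset.coe_biUnion, Set.mem_iUnion, Finset.mem_coe, Finset.mem_image,
    Finset.mem_range]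
  exact ⟨e, hx, i, h, rfl⟩

def LL (Y : Finset G.E) : Finset (Sub G s t l).E := (finL s t l Y).toFinset

def II (Y : Finset G.E) : Finset {x : G.E × ℕ // x.2 < l x.1} := (finI l Y).toFinset

theorem mem_LL (Y : Finset G.E) (x : (Sub G s t l).E) : x ∈ LL s t l Y ↔ x.1.1 ∈ Y := by
  simp [LL]

theorem mem_II (Y : Finset G.E) (x) : x ∈ II l Y ↔ x.1.1 ∈ Y := by
  simp [II]

def lo (y : {x : G.E × ℕ // x.2 < l x.1}) : (Sub G s t l).E := ⟨y.1, y.2.le⟩
def hi (y : {x : G.E × ℕ // x.2 < l x.1}) : (Sub G s t l).E := ⟨(y.1.1, y.1.2 + 1), y.2⟩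

def vr (y : {x : G.E × ℕ // x.2 < l x.1}) : (Sub G s t l).V := Sum.inr y
def vl (v : G.V) : (Sub G s t l).V := Sum.inl v

theorem mult_inr (x : (Sub G s t l).E) (y : {x : G.E × ℕ // x.2 < l x.1}) :
    mult ((Sub G s t l).ends x) (vr s t l y) =
      (if x = hi s t l y then 1 else 0) + (if x = lo s t l y then 1 else 0) := by
  obtain ⟨⟨e, k⟩, hk⟩ := x
  obtain ⟨⟨a, i⟩, h⟩ := y
  have h1 : (pt s t l e k = Sum.inr ⟨(a, i), h⟩) ↔
      ((⟨(e, k), hk⟩ : (Sub G s t l).E) = hi s t l ⟨(a, i), h⟩) := by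
    rw [pt_inr, hi, Subtype.mk.injEq, Prod.mk.injEq]
  have h2 : (pt s t l e (k + 1) = Sum.inr ⟨(a, i), h⟩) ↔
      ((⟨(e, k), hk⟩ : (Sub G s t l).E) = lo s t l ⟨(a, i), h⟩) := by
    rw [pt_inr, lo, Subtype.mk.injEq, Prod.mk.injEq]
    simp
  change mult s(pt s t l e k, pt s t l e (k + 1)) (Sum.inr ⟨(a, i), h⟩) = _
  rw [mult_mk]
  simp only [h1, h2]
  congr

theorem deg_inr (Y : Finset (Sub G s t l).E) (y : {x : G.E × ℕ // x.2 < l x.1}) :
    deg Y (vr s t l y) =
      (if hi s t l y ∈ Y then 1 else 0) + (if lo s t l y ∈ Y then 1 else 0) := by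
  unfold deg
  simp only [mult_inr, Finset.sum_add_distrib, Finset.sum_ite_eq']

theorem deg_inl (hst : ∀ e, G.ends e = s(s e, t e)) (Y : Finset G.E) (v : G.V) :
    deg (LL s t l Y) (vl s t l v) = deg Y v := by
  have h1 : ∀ x : (Sub G s t l).E, mult ((Sub G s t l).ends x) (vl s t l v) =
      (if x.1.2 = 0 ∧ s x.1.1 = v then 1 else 0) +
        (if x.1.2 = l x.1.1 ∧ t x.1.1 = v then 1 else 0) := by
    intro x
    change mult s(pt s t l x.1.1 x.1.2, pt s t l x.1.1 (x.1.2 + 1)) (Sum.inl v) = _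
    rw [mult_mk]
    simp only [pt_inl0 s t l _ _ x.2, pt_inl1 s t l _ _ x.2]
  unfold deg
  simp only [h1, hst, mult_mk, Finset.sum_add_distrib, ← Finset.card_filter]
  congr 1
  · refine Finset.card_bij (fun x _ => x.1.1) ?_ ?_ ?_
    · intro x hx
      simp only [Finset.mem_filter, mem_LL] at hx ⊢
      exact ⟨hx.1, hx.2.2⟩
    · intro x hx y hy h
      simp only [Finset.mem_filter] at hx hy
      exact Subtype.ext (Prod.ext h (by rw [hx.2.1, hy.2.1]))
    · intro e he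
      simp only [Finset.mem_filter] at he
      exact ⟨⟨(e, 0), Nat.zero_le _⟩, by simp [mem_LL, he], rfl⟩
  · refine Finset.card_bij (fun x _ => x.1.1) ?_ ?_ ?_
    · intro x hx
      simp only [Finset.mem_filter, mem_LL] at hx ⊢
      exact ⟨hx.1, hx.2.2⟩
    · intro x hx y hy h
      simp only [Finset.mem_filter] at hx hy
      exact Subtype.ext (Prod.ext h (by rw [hx.2.1, hy.2.1, h]))
    · intro e he
      simp only [Finset.mem_filter] at he
      exact ⟨⟨(e, l e), le_rfl⟩, by simp [mem_LL, he], rfl⟩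

theorem inr_mem_vs (Y : Finset G.E) (y : {x : G.E × ℕ // x.2 < l x.1}) :
    vr s t l y ∈ vs (LL s t l Y) ↔ y.1.1 ∈ Y := by
  rw [← deg_pos, deg_inr]
  simp only [mem_LL, hi, lo]
  split_ifs with h <;> simp [h]

theorem dl_LL (hst : ∀ e, G.ends e = s(s e, t e)) (Y : Finset G.E) :
    dl (LL s t l Y) = dl Y := by
  have h1 : vs (LL s t l Y) = (vs Y).disjSum (II l Y) := by
    ext v
    rcases v with v | y
    · change vl s t l v ∈ _ ↔ _
      rw [← deg_pos, deg_inl s t l hst, deg_pos]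
      exact Finset.inl_mem_disjSum.symm
    · change vr s t l y ∈ _ ↔ _
      rw [inr_mem_vs, ← mem_II]
      exact Finset.inr_mem_disjSum.symm
  have h2 : (LL s t l Y).card = (Y.disjSum (II l Y)).card := by
    symm
    refine Finset.card_bij
      (fun z _ => Sum.elim (fun e => (⟨(e, 0), Nat.zero_le _⟩ : (Sub G s t l).E)) (hi s t l) z)
      ?_ ?_ ?_
    · rintro (e | y) h
      · simpa [mem_LL] using h
      · simpa [mem_LL, mem_II, hi] using h
    · rintro (e | y) - (e' | y') - h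
      · simpa using congrArg (fun x => x.1.1) h
      · simpa [hi] using congrArg (fun x => x.1.2) h
      · simpa [hi] using congrArg (fun x => x.1.2) h
      · have a1 := congrArg (fun x => x.1.1) h
        have a2 := congrArg (fun x => x.1.2) h
        simp only [Sum.elim_inr, hi, add_left_inj] at a1 a2
        exact congrArg _ (Subtype.ext (Prod.ext a1 a2))
    · rintro ⟨⟨e, k⟩, hk⟩ h
      rw [mem_LL] at h
      rcases k with _ | k
      · exact ⟨Sum.inl e, by simpa using h, rfl⟩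
      · exact ⟨Sum.inr ⟨(e, k), hk⟩, by simpa [mem_II] using h, rfl⟩
  unfold dl
  rw [h1, h2]
  erw [Finset.card_disjSum, Finset.card_disjSum]
  push_cast; ring

theorem core_sub (hst : ∀ e, G.ends e = s(s e, t e)) (Z : Finset G.E)
    (Y' : Finset (Sub G s t l).E) (h : Y' ⊆ LL s t l Z) :
    ∃ Y ⊆ Z, LL s t l Y ⊆ Y' ∧ dl Y' ≤ dl Y ∧ (Min2 Y' → LL s t l Y = Y') := by
  set Y := Z.filter (fun e => ∀ i, ∀ hi : i ≤ l e, (⟨(e, i), hi⟩ : (Sub G s t l).E) ∈ Y') with hY
  have hsub : LL s t l Y ⊆ Y' := by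
    rintro ⟨⟨e, k⟩, hk⟩ hx
    rw [mem_LL] at hx
    exact (Finset.mem_filter.1 hx).2 k hk
  refine ⟨Y, Finset.filter_subset _ _, hsub, ?_, fun hm => ?_⟩
  · have hj : ∀ e, ∃ j, e ∈ Z → e ∉ Y →
        ∃ hj : j ≤ l e, (⟨(e, j), hj⟩ : (Sub G s t l).E) ∉ Y' := by
      intro e
      by_cases h1 : e ∈ Z ∧ e ∉ Y
      · have : ¬ ∀ i, ∀ hi : i ≤ l e, (⟨(e, i), hi⟩ : (Sub G s t l).E) ∈ Y' :=
          fun h2 => h1.2 (Finset.mem_filter.2 ⟨h1.1, h2⟩)
        push Not at this
        obtain ⟨j, hj, h3⟩ := this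
        exact ⟨j, fun _ _ => ⟨hj, h3⟩⟩
      · exact ⟨0, fun a b => absurd ⟨a, b⟩ h1⟩
    choose j hj using hj
    have hg : ∀ x ∈ Y' \ LL s t l Y, ∃ y : {x : G.E × ℕ // x.2 < l x.1},
        (x.1.2 < j x.1.1 ∧ x = lo s t l y) ∨ (j x.1.1 < x.1.2 ∧ x = hi s t l y) := by
      rintro ⟨⟨e, k⟩, hk⟩ hx
      obtain ⟨h1, h2⟩ := Finset.mem_sdiff.1 hx
      rw [mem_LL] at h2
      obtain ⟨h3, h4⟩ := hj e ((mem_LL s t l Z _).1 (h h1)) h2
      rcases lt_trichotomy k (j e) with h5 | h5 | h5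
      · exact ⟨⟨(e, k), by simp; omega⟩, Or.inl ⟨h5, rfl⟩⟩
      · subst h5; exact absurd h1 h4
      · obtain ⟨k, rfl⟩ : ∃ k', k = k' + 1 := ⟨k - 1, by omega⟩
        exact ⟨⟨(e, k), hk⟩, Or.inr ⟨h5, rfl⟩⟩
    choose g hg using hg
    have hc : (Y' \ LL s t l Y).card ≤ (vs Y' \ vs (LL s t l Y)).card := by
      rw [← Finset.card_attach]
      refine Finset.card_le_card_of_injOn (fun x => vr s t l (g x.1 x.2)) ?_ ?_
      · rintro ⟨x, hx⟩ -
        obtain ⟨h1, h2⟩ := Finset.mem_sdiff.1 hx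
        refine Finset.mem_coe.2 (Finset.mem_sdiff.2 ⟨?_, ?_⟩)
        · rw [← deg_pos, deg_inr]
          rcases hg x hx with h3 | h3
          · rw [← h3.2, if_pos h1]; omega
          · rw [← h3.2, if_pos h1]; omega
        · beta_reduce
          rw [inr_mem_vs]
          rw [mem_LL] at h2
          rcases hg x hx with h3 | h3
          · have := congrArg (fun z => z.1.1) h3.2
            simp only [lo] at this
            rwa [← this]
          · have := congrArg (fun z => z.1.1) h3.2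
            simp only [hi] at this
            rwa [← this]
      · rintro ⟨x, hx⟩ - ⟨x', hx'⟩ - heq
        have heq' : g x hx = g x' hx' := Sum.inr_injective heq
        have a := hg x hx
        have b := hg x' hx'
        rw [← heq'] at b
        generalize g x hx = y at a b
        refine Subtype.ext ?_
        rcases a with ⟨a1, a2⟩ | ⟨a1, a2⟩ <;> rcases b with ⟨b1, b2⟩ | ⟨b1, b2⟩
        · exact a2.trans b2.symm
        · subst a2 b2; simp only [lo, hi] at a1 b1; omega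
        · subst a2 b2; simp only [lo, hi] at a1 b1; omega
        · exact a2.trans b2.symm
    rw [Finset.card_sdiff_of_subset hsub, Finset.card_sdiff_of_subset (vs_mono hsub)] at hc
    have c1 := Finset.card_le_card hsub
    have c2 := Finset.card_le_card (vs_mono hsub)
    rw [← dl_LL s t l hst Y]
    unfold dl
    omega
  · refine Finset.Subset.antisymm hsub ?_
    have key : ∀ y, lo s t l y ∈ Y' ↔ hi s t l y ∈ Y' := by
      intro y
      have h1 := hm (vr s t l y)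
      rw [← deg_pos, deg_inr] at h1
      by_cases a : lo s t l y ∈ Y' <;> by_cases b : hi s t l y ∈ Y' <;> simp_all
    have k2 : ∀ e i, ∀ hi : i ≤ l e, ((⟨(e, i), hi⟩ : (Sub G s t l).E) ∈ Y' ↔
        (⟨(e, 0), Nat.zero_le _⟩ : (Sub G s t l).E) ∈ Y') := by
      intro e i
      induction i with
      | zero => intro _; rfl
      | succ i ih =>
        intro h1
        rw [← ih (by omega)]
        exact (key ⟨(e, i), h1⟩).symm
    rintro ⟨⟨e, k⟩, hk⟩ hx
    rw [mem_LL]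
    exact Finset.mem_filter.2 ⟨(mem_LL s t l Z _).1 (h hx),
      fun i hi => (k2 e i hi).2 ((k2 e k hk).1 hx)⟩

def subTr (hst : ∀ e, G.ends e = s(s e, t e)) : Tr G (Sub G s t l) where
  r x e := x.1.1 = e
  L := LL s t l
  φ := vl s t l
  mem Y x := by simp [mem_LL]
  func x a b h1 h2 := h1.symm.trans h2
  surj e := ⟨⟨(e, 0), Nat.zero_le _⟩, rfl⟩
  inj := Sum.inl_injective
  hdl := dl_LL s t l hst
  core := core_sub s t l hst
  hdeg := deg_inl s t l hst
  other v' hv Y h := by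
    rcases v' with v | y
    · exact absurd ⟨v, rfl⟩ hv
    · change vr s t l y ∈ _ at h
      rw [inr_mem_vs] at h
      refine ⟨?_, y.1.1, h, fun Z hZ => (inr_mem_vs s t l Z y).1 hZ⟩
      change deg _ (vr s t l y) = 2
      rw [deg_inr]
      simp [mem_LL, hi, lo, h]

theorem subTr_univ (hst : ∀ e, G.ends e = s(s e, t e)) :
    (subTr s t l hst).im Set.univ = Set.univ := by
  ext x
  simp [Tr.im, subTr]

theorem noIso_sub (hst : ∀ e, G.ends e = s(s e, t e)) :
    NoIsolated (Sub G s t l) ↔ NoIsolated G := by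
  have a : ∀ {K : MG} (v : K.V), (∃ e, v ∈ K.ends e) ↔ ∃ Y : Finset K.E, 0 < deg Y v := by
    intro K v
    constructor
    · rintro ⟨e, he⟩
      exact ⟨{e}, deg_pos.2 (mem_vs.2 ⟨e, by simp, he⟩)⟩
    · rintro ⟨Y, h⟩
      obtain ⟨e, -, he⟩ := mem_vs.1 (deg_pos.1 h)
      exact ⟨e, he⟩
  constructor
  · intro h v
    obtain ⟨Y', hY⟩ := (a _).1 (h (vl s t l v))
    obtain ⟨Z, hZ, -⟩ := (subTr s t l hst).cover (X := Set.univ) Y'
      (fun x _ => by rw [subTr_univ]; trivial)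
    have := hY.trans_le (deg_mono hZ _)
    exact (a _).2 ⟨Z, by rw [← deg_inl s t l hst]; exact this⟩
  · rintro h (v | y)
    · obtain ⟨Y, hY⟩ := (a _).1 (h v)
      exact (a (vl s t l v)).2 ⟨LL s t l Y, by rw [deg_inl s t l hst]; exact hY⟩
    · exact (a (vr s t l y)).2 ⟨LL s t l {y.1.1}, deg_pos.2 ((inr_mem_vs s t l _ y).2 (by simp))⟩

end

end Pool.Agent.H26.MatFam
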