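import Pool.Agent.H26.MatFamC

namespace Pool.Agent.H26.MatFam

open Classical Finset

noncomputable section

/-- doubled cycle -/
@[reducible] def TT (n : ℕ) : MG := ⟨ZMod (n + 2), ZMod (n + 2) × Bool, fun x => s(x.1, x.1 + 1)⟩

theorem one_ne (n : ℕ) (u : ZMod (n + 2)) : u ≠ u + 1 := by
  haveI : Fact (1 < n + 2) := ⟨by omega⟩
  simp

theorem deg_TT (n : ℕ) (X : Finset (TT n).E) (v : ZMod (n + 2)) :
    deg (G := TT n) X v =
      ((if (v, true) ∈ X then 1 else 0) + (if (v, false) ∈ X then 1 else 0)) +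
      ((if (v - 1, true) ∈ X then 1 else 0) + (if (v - 1, false) ∈ X then 1 else 0)) := by
  have h1 : ∀ x : (TT n).E, mult ((TT n).ends x) v =
      ((if x = (v, true) then 1 else 0) + (if x = (v, false) then 1 else 0)) +
      ((if x = (v - 1, true) then 1 else 0) + (if x = (v - 1, false) then 1 else 0)) := by
    rintro ⟨i, b⟩
    change mult s(i, i + 1) v = _
    rw [mult_mk]
    have : i + 1 = v ↔ i = v - 1 := eq_sub_iff_add_eq.symm
    cases b <;> simp [this]
  unfold deg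
  simp only [h1, Finset.sum_add_distrib, Finset.sum_ite_eq']

theorem typ_TT (n : ℕ) : Typ (G := TT n) n Finset.univ := by
  have hd : ∀ v, deg (G := TT n) Finset.univ v = 4 := by
    intro v; rw [deg_TT]; simp
  have hvs : vs (G := TT n) Finset.univ = Finset.univ := by
    ext v; rw [← deg_pos, hd]; simp
  have hdl : dl (G := TT n) Finset.univ = n + 2 := by
    unfold dl
    rw [hvs]
    simp [ZMod.card]
    ring
  refine ⟨⟨Finset.univ_nonempty, fun v _ => by rw [hd]; omega, ?_⟩, ?_, ?_, hdl⟩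
  · rintro Y - ⟨x, hx⟩ -
    exact ⟨x.1, mem_vs.2 ⟨x, hx, Sym2.mem_mk_left _ _⟩, x.1 + 1,
      mem_vs.2 ⟨x, hx, Sym2.mem_mk_right _ _⟩, one_ne n _, (hd _).ge, (hd _).ge⟩
  · rintro X - ⟨h1, h2, h3⟩
    obtain ⟨v, -, -, -, -, hv, -⟩ := h3 X subset_rfl h1 h2
    have full : ∀ u, 4 ≤ deg (G := TT n) X u → (u, true) ∈ X ∧ (u, false) ∈ X := by
      intro u hu
      rw [deg_TT] at hu
      constructor <;> by_contra h <;> simp only [h, if_false] at hu <;> split_ifs at hu <;> omega
    have step : ∀ u, 4 ≤ deg (G := TT n) X u → 4 ≤ deg (G := TT n) X (u + 1) := by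
      intro u hu
      obtain ⟨a, b⟩ := full u hu
      have hm : ∀ w ∈ vs (G := TT n) {(u, true), (u, false)}, w = u ∨ w = u + 1 := by
        intro w hw
        obtain ⟨e, he, hw⟩ := mem_vs.1 hw
        simp only [Finset.mem_insert, Finset.mem_singleton] at he
        rcases he with rfl | rfl <;> exact Sym2.mem_iff.1 hw
      obtain ⟨p, hp, q, hq, hpq, c, d⟩ := h3 {(u, true), (u, false)}
        (by intro x hx; simp only [Finset.mem_insert, Finset.mem_singleton] at hx
            rcases hx with rfl | rfl <;> assumption) (by simp) (by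
          intro w hw
          rw [deg_TT]
          rcases hm w hw with rfl | rfl <;> simp <;> omega)
      rcases hm p hp with rfl | rfl
      · rcases hm q hq with rfl | rfl
        · exact absurd rfl hpq
        · exact d
      · exact c
    have all : ∀ k : ℕ, 4 ≤ deg (G := TT n) X (v + k) := by
      intro k
      induction k with
      | zero => simpa using hv
      | succ k ih => have := step _ ih; rwa [Nat.cast_succ, ← add_assoc]
    ext ⟨i, b⟩
    have := full _ (all (i - v).val)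
    rw [ZMod.natCast_zmod_val, add_sub_cancel] at this
    cases b <;> simp [this]
  · intro Y _ hne
    have h1 : Y.card ≤ (vs (G := TT n) Y ×ˢ (Finset.univ : Finset Bool)).card := by
      refine Finset.card_le_card fun x hx => ?_
      exact Finset.mem_product.2 ⟨mem_vs.2 ⟨x, hx, Sym2.mem_mk_left _ _⟩, Finset.mem_univ _⟩
    have h2 : Y.card < Fintype.card (ZMod (n + 2) × Bool) :=
      Finset.card_lt_univ_of_notMem (x := (Finset.exists_of_ssubset
        (Finset.ssubset_univ_iff.2 hne)).choose)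
        (Finset.exists_of_ssubset (Finset.ssubset_univ_iff.2 hne)).choose_spec.2
    have h3 : (vs (G := TT n) Y).card ≤ Fintype.card (ZMod (n + 2)) := Finset.card_le_univ _
    rw [hdl]
    unfold dl
    simp only [Finset.card_product, Finset.card_univ, Fintype.card_bool, Fintype.card_prod,
      ZMod.card] at h1 h2 h3
    omega

@[reducible] def UU : MG :=
  ⟨Option (Σ n : ℕ, ZMod (n + 2)), ℕ ⊕ (Σ n : ℕ, ZMod (n + 2) × Bool),
    Sum.elim (fun _ => s(none, none)) (fun x => s(some ⟨x.1, x.2.1⟩, some ⟨x.1, x.2.1 + 1⟩))⟩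

def eT (n : ℕ) : Emb (TT n) UU where
  v i := some ⟨n, i⟩
  e x := Sum.inr ⟨n, x⟩
  hv a b h := by simpa using h
  he a b h := by simpa using h
  ends x := by simp

def FF (N : ℕ) : Finset UU.E := (Finset.range (cc N + 1)).image Sum.inl

def DD (n : ℕ) : Finset UU.E := (eT n).tr.L Finset.univ

def XX (N : ℕ) : Set UU.E := {x | x ∈ FF N ∨ ∃ n, N ≤ n ∧ x ∈ DD n}

theorem vs_FF {N : ℕ} {Y : Finset UU.E} (h : Y ⊆ FF N) (hn : Y.Nonempty) : vs Y = {none} := by
  ext v
  rw [mem_vs, Finset.mem_singleton]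
  constructor
  · rintro ⟨e, he, hv⟩
    obtain ⟨k, -, rfl⟩ := Finset.mem_image.1 (h he)
    simpa using hv
  · rintro rfl
    obtain ⟨e, he⟩ := hn
    obtain ⟨k, -, rfl⟩ := Finset.mem_image.1 (h he)
    exact ⟨_, he, by simp⟩

theorem card_FF (N : ℕ) : (FF N).card = cc N + 1 := by
  rw [FF, Finset.card_image_of_injective _ Sum.inl_injective, Finset.card_range]

theorem ne_FF (N : ℕ) : (FF N).Nonempty := Finset.card_pos.1 (by rw [card_FF]; omega)

theorem vs_DD {n : ℕ} {v : UU.V} (h : v ∈ vs (DD n)) : ∃ i, v = some ⟨n, i⟩ := by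
  by_contra hn
  obtain ⟨x, hx, hv⟩ := mem_vs.1 h
  obtain ⟨e, -, he⟩ := ((eT n).tr.mem _ _).1 hx
  change (eT n).e e = x at he
  rw [← he, (eT n).ends, Sym2.mem_map] at hv
  obtain ⟨i, -, rfl⟩ := hv
  exact hn ⟨i, rfl⟩

theorem good_XX (N : ℕ) : Good (XX N) := by
  have hv : dl (FF N) = cc N := by
    unfold dl
    rw [vs_FF subset_rfl (ne_FF N), card_FF]
    simp
  refine ⟨N, FF N, DD, fun _ => Iff.rfl, fun Y hY hne => ?_, hv,
    fun n _ => (eT n).tr.typ_iff.2 (typ_TT n), fun n _ => ?_, fun n m _ _ hne => ?_⟩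
  · rw [hv]
    rcases Y.eq_empty_or_nonempty with rfl | h
    · rw [dl_empty]; have := cc_pos N; omega
    · have := Finset.card_lt_card (Finset.ssubset_iff_subset_ne.2 ⟨hY, hne⟩)
      unfold dl
      rw [vs_FF hY h]
      rw [card_FF] at this
      simp only [Finset.card_singleton]
      omega
  · rw [vs_FF subset_rfl (ne_FF N), Finset.disjoint_singleton_left]
    intro h
    obtain ⟨i, hi⟩ := vs_DD h
    cases hi
  · rw [Finset.disjoint_left]
    intro v h1 h2
    obtain ⟨i, rfl⟩ := vs_DD h1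
    obtain ⟨j, hj⟩ := vs_DD h2
    simp only [Option.some.injEq, Sigma.mk.injEq] at hj
    exact hne hj.1

theorem deg_le_card {G : MG} (Y S : Finset G.E) (v : G.V) (h : ∀ e ∈ Y, v ∈ G.ends e → e ∈ S) :
    deg Y v ≤ 2 * S.card := by
  unfold deg
  calc ∑ e ∈ Y, mult (G.ends e) v = ∑ e ∈ Y ∩ S, mult (G.ends e) v := by
        symm
        refine Finset.sum_subset Finset.inter_subset_left fun e he hn => ?_
        by_contra h0
        exact hn (Finset.mem_inter.2 ⟨he, h e he ((mult_pos _ _).1 (Nat.pos_of_ne_zero h0))⟩)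
    _ ≤ ∑ e ∈ S, mult (G.ends e) v := Finset.sum_le_sum_of_subset Finset.inter_subset_right
    _ ≤ ∑ e ∈ S, 2 := Finset.sum_le_sum fun e _ => mult_le _ _
    _ = _ := by simp [mul_comm]

theorem big_XX (N : ℕ) : BigOn (XX N) (2 * (cc N + 1)) := by
  refine ⟨none, FF N, fun e he => Or.inl he, ?_⟩
  unfold deg
  rw [FF, Finset.sum_image (fun a _ b _ h => Sum.inl_injective h)]
  simp [mult_mk, mul_comm]

theorem big_le {N d : ℕ} (h : BigOn (XX N) d) : d ≤ 2 * (cc N + 1) := by
  obtain ⟨v, Y, h1, h2⟩ := h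
  refine h2.trans ?_
  rcases v with _ | ⟨n, j⟩
  · rw [← card_FF]
    refine deg_le_card _ _ _ fun e he hv => ?_
    rcases h1 e he with h | ⟨n, -, h⟩
    · exact h
    · obtain ⟨i, hi⟩ := vs_DD (mem_vs.2 ⟨e, h, hv⟩)
      cases hi
  · refine (deg_le_card Y {Sum.inr ⟨n, (j, true)⟩, Sum.inr ⟨n, (j, false)⟩,
      Sum.inr ⟨n, (j - 1, true)⟩, Sum.inr ⟨n, (j - 1, false)⟩} _ ?_).trans ?_
    · rintro (k | ⟨m, i, b⟩) - hv
      · simp at hv
      · simp only [Sum.elim_inr, Sym2.mem_iff, Option.some.injEq, Sigma.mk.injEq] at hv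
        rcases hv with ⟨rfl, h⟩ | ⟨rfl, h⟩
        · obtain rfl := eq_of_heq h
          cases b <;> simp
        · obtain rfl := eq_of_heq h
          cases b <;> simp
    · have := cc_pos N
      have h4 := Finset.card_le_four (a := (Sum.inr ⟨n, (j, true)⟩ : UU.E))
        (b := Sum.inr ⟨n, (j, false)⟩) (c := Sum.inr ⟨n, (j - 1, true)⟩)
        (d := Sum.inr ⟨n, (j - 1, false)⟩)
      refine le_trans (Nat.mul_le_mul_left 2 (by convert h4)) (by omega)

theorem cc_strict : StrictMono cc := strictMono_nat_of_lt_succ fun n => by simp [cc]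

def restrict (G : MG) (X : Set G.E) : MG where
  V := {v : G.V // ∃ e ∈ X, v ∈ G.ends e}
  E := X
  ends e := s(⟨(G.ends e).out.1, e, e.2, Sym2.out_fst_mem _⟩,
    ⟨(G.ends e).out.2, e, e.2, Sym2.out_snd_mem _⟩)

def restrictEmb (G : MG) (X : Set G.E) : Emb (restrict G X) G where
  v := Subtype.val
  e := Subtype.val
  hv := Subtype.val_injective
  he := Subtype.val_injective
  ends x := by
    change G.ends x.1 = s((G.ends x.1).out.1, (G.ends x.1).out.2)
    exact (Quot.out_eq _).symm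

theorem range_restrict (G : MG) (X : Set G.E) : Set.range (restrictEmb G X).e = X :=
  Subtype.range_coe

theorem noIso_restrict (G : MG) (X : Set G.E) : NoIsolated (restrict G X) := by
  rintro ⟨v, e, he, hv⟩
  refine ⟨⟨e, he⟩, ?_⟩
  have h := (restrictEmb G X).ends ⟨e, he⟩
  change G.ends e = _ at h
  rw [h, Sym2.mem_map] at hv
  obtain ⟨w, hw, rfl⟩ := hv
  exact hw

def PP (G : MG) : Prop := NoIsolated G ∧ Good (Set.univ : Set G.E)

theorem pp_restrict {G : MG} {X : Set G.E} (h : Good X) : PP (restrict G X) := by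
  refine ⟨noIso_restrict G X, (restrictEmb G X).tr.good_iff.1 ?_⟩
  rw [Emb.im_univ, range_restrict]
  exact h

theorem circ_iff (G : MG) (X : Set G.E) : X ∈ circ PP G ↔ Good X := by
  constructor
  · rintro ⟨H, hH, f, rfl⟩
    rw [← Emb.im_univ]
    exact f.tr.good_iff.2 hH.2
  · intro h
    exact ⟨_, pp_restrict h, restrictEmb G X, (range_restrict G X).symm⟩

theorem noIso_iso {H G : MG} (h : Iso H G) : NoIsolated H ↔ NoIsolated G := by
  obtain ⟨f, h1, h2⟩ := h
  constructor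
  · intro h w
    obtain ⟨v, rfl⟩ := h1 w
    obtain ⟨e, he⟩ := h v
    exact ⟨f.e e, by rw [f.ends, Sym2.mem_map]; exact ⟨v, he, rfl⟩⟩
  · intro h v
    obtain ⟨x, hx⟩ := h (f.v v)
    obtain ⟨e, rfl⟩ := h2 x
    rw [f.ends, Sym2.mem_map] at hx
    obtain ⟨w, hw, h3⟩ := hx
    exact ⟨e, f.hv h3 ▸ hw⟩

theorem step_inv {b : Bool} {G H : MG} (h : Step b G H) :
    (PP G ↔ PP H) ∧ ∀ d, 3 ≤ d → (BigOn (G := G) Set.univ d ↔ BigOn (G := H) Set.univ d) := by
  obtain ⟨s, t, l, hst, -, hiso⟩ := h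
  have h0 := noIso_iso hiso
  obtain ⟨f, -, h2⟩ := hiso
  have e1 : f.tr.im Set.univ = Set.univ := by rw [Emb.im_univ]; exact h2.range_eq
  have e2 := subTr_univ s t l hst
  constructor
  · unfold PP
    rw [h0, noIso_sub s t l hst, ← f.tr.good_iff, e1, ← (subTr s t l hst).good_iff, e2]
  · intro d hd
    rw [← f.tr.bigOn_iff hd, e1, ← (subTr s t l hst).bigOn_iff hd, e2]

theorem homeo_inv {b : Bool} {G H : MG} (h : Homeo b G H) :
    (PP G ↔ PP H) ∧ ∀ d, 3 ≤ d → (BigOn (G := G) Set.univ d ↔ BigOn (G := H) Set.univ d) := by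
  induction h with
  | rel _ _ h => exact step_inv h
  | refl => exact ⟨Iff.rfl, fun _ _ => Iff.rfl⟩
  | symm _ _ _ ih => exact ⟨ih.1.symm, fun d hd => (ih.2 d hd).symm⟩
  | trans _ _ _ _ _ a b => exact ⟨a.1.trans b.1, fun d hd => (a.2 d hd).trans (b.2 d hd)⟩

theorem main : ∃ P : MG → Prop, Matroidal P ∧ (∀ G, P G → NoIsolated G) ∧
    ∀ fin : Bool, (∀ G H, P G → Homeo fin G H → P H) ∧
      ∃ f : ℕ → MG, (∀ n, P (f n)) ∧ ∀ m n, Homeo fin (f m) (f n) → m = n := by
  refine ⟨PP, ⟨⟨_, pp_restrict (good_XX 0)⟩, fun G => ⟨fun C hC D hD h => ?_,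
    fun C hC D hD h e _ => ?_⟩⟩, fun G h => h.1, fun b => ⟨fun G H h1 h2 => (homeo_inv h2).1.1 h1,
    fun n => restrict UU (XX n), fun n => pp_restrict (good_XX n), fun m n h => ?_⟩⟩
  · exact good_c1 ((circ_iff _ _).1 hC) ((circ_iff _ _).1 hD) h
  · obtain ⟨B, h1, h2⟩ := good_c2 ((circ_iff _ _).1 hC) ((circ_iff _ _).1 hD) h e
    exact ⟨B, (circ_iff _ _).2 h1, h2⟩
  · have key : ∀ N d, 3 ≤ d → (BigOn (G := restrict UU (XX N)) Set.univ d ↔ BigOn (XX N) d) := by
      intro N d hd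
      rw [← (restrictEmb UU (XX N)).tr.bigOn_iff hd, Emb.im_univ, range_restrict]
    have a := (homeo_inv h).2
    have c : ∀ k, 3 ≤ 2 * (cc k + 1) := fun k => by have := cc_pos k; omega
    have h1 := big_le ((key n _ (c m)).1 ((a _ (c m)).1 ((key m _ (c m)).2 (big_XX m))))
    have h2 := big_le ((key m _ (c n)).1 ((a _ (c n)).2 ((key n _ (c n)).2 (big_XX n))))
    exact cc_strict.injective (by omega)

end

end Pool.Agent.H26.MatFam
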