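import Mathlib

namespace Pool.Agent.H26.MatFam

/-- A graph with loops and multiple edges allowed; vertex and edge sets may be infinite. -/
structure MG where
  V : Type
  E : Type
  ends : E → Sym2 V

/-- An isomorphism of `H` onto a subgraph of `G`. -/
structure Emb (H G : MG) where
  v : H.V → G.V
  e : H.E → G.E
  hv : Function.Injective v
  he : Function.Injective e
  ends : ∀ x, G.ends (e x) = (H.ends x).map v

/-- Isomorphic graphs. -/
def Iso (H G : MG) : Prop :=
  ∃ f : Emb H G, Function.Surjective f.v ∧ Function.Surjective f.e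

/-- Edge sets of the subgraphs of `G` isomorphic to a member of `P`. -/
def circ (P : MG → Prop) (G : MG) : Set (Set G.E) :=
  {X | ∃ H, P H ∧ ∃ f : Emb H G, X = Set.range f.e}

/-- Generalized matroidal family: non-empty, and (C1), (C2) hold in every graph. -/
def Matroidal (P : MG → Prop) : Prop :=
  (∃ H, P H) ∧ ∀ G : MG,
    (∀ C ∈ circ P G, ∀ D ∈ circ P G, C ⊆ D → C = D) ∧
    (∀ C ∈ circ P G, ∀ D ∈ circ P G, C ≠ D → ∀ e ∈ C ∩ D,
      ∃ B ∈ circ P G, B ⊆ (C ∪ D) \ {e})

/-- No isolated vertices. -/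
def NoIsolated (G : MG) : Prop := ∀ v : G.V, ∃ e, v ∈ G.ends e

/-- The `k`-th vertex of the path `s e, (e,0), ..., (e, l e - 1), t e` replacing `e`. -/
def pt {V E : Type} (s t : E → V) (l : E → ℕ) (e : E) (k : ℕ) :
    V ⊕ {x : E × ℕ // x.2 < l x.1} :=
  if k = 0 then Sum.inl (s e)
  else if h : k - 1 < l e then Sum.inr ⟨(e, k - 1), h⟩ else Sum.inl (t e)

/-- Replace every edge `e` (from `s e` to `t e`) by a path with `l e` new inner vertices. -/
def Sub (G : MG) (s t : G.E → G.V) (l : G.E → ℕ) : MG where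
  V := G.V ⊕ {x : G.E × ℕ // x.2 < l x.1}
  E := {x : G.E × ℕ // x.2 ≤ l x.1}
  ends := fun x => s(pt s t l x.1.1 x.1.2, pt s t l x.1.1 (x.1.2 + 1))

/-- `H` is isomorphic to a subdivision of `G`; if `fin = true` only finitely many new
vertices are inserted. -/
def Step (fin : Bool) (G H : MG) : Prop :=
  ∃ (s t : G.E → G.V) (l : G.E → ℕ), (∀ e, G.ends e = s(s e, t e)) ∧
    (fin = true → (Function.support l).Finite) ∧ Iso H (Sub G s t l)

/-- Homeomorphism: the equivalence relation generated by subdivision. -/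
def Homeo (fin : Bool) : MG → MG → Prop := Relation.EqvGen (Step fin)

end Pool.Agent.H26.MatFam
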