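import Mathlib

/-! Core of the proof that colouring numbers of subgraphs take every smaller finite value. -/

namespace Pool.Agent.H26.Milner

universe u
variable {V : Type u}

/-- some well-order has all back-degrees at most `m` -/
def Bd (H : SimpleGraph V) (m : ℕ) : Prop :=
  ∃ r : V → V → Prop, IsWellOrder V r ∧ ∀ x, {y | H.Adj x y ∧ r y x}.encard ≤ m

lemma Bd.mono {H H' : SimpleGraph V} {m : ℕ} (h : Bd H m) (hh : H' ≤ H) : Bd H' m := by
  obtain ⟨r, hr, h⟩ := h
  refine ⟨r, hr, fun x => le_trans (Set.encard_le_encard ?_) (h x)⟩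
  exact fun y hy => ⟨hh hy.1, hy.2⟩

lemma Bd.succ {H : SimpleGraph V} {m : ℕ} (h : Bd H m) : Bd H (m + 1) := by
  obtain ⟨r, hr, h⟩ := h
  exact ⟨r, hr, fun x => (h x).trans (by exact_mod_cast Nat.le_succ m)⟩

lemma Bd.add {H H' : SimpleGraph V} {m : ℕ} (h : Bd H m)
    (hh : ∀ x, {y | H'.Adj x y ∧ ¬ H.Adj x y}.Subsingleton) : Bd H' (m + 1) := by
  obtain ⟨r, hr, h⟩ := h
  refine ⟨r, hr, fun x => ?_⟩
  have : {y | H'.Adj x y ∧ r y x} ⊆ {y | H.Adj x y ∧ r y x} ∪ {y | H'.Adj x y ∧ ¬ H.Adj x y} := by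
    intro y hy
    by_cases k : H.Adj x y
    · exact Or.inl ⟨k, hy.2⟩
    · exact Or.inr ⟨hy.1, k⟩
  refine (Set.encard_le_encard this).trans ((Set.encard_union_le _ _).trans ?_)
  push_cast
  exact add_le_add (h x) (Set.encard_le_one_iff_subsingleton.2 (hh x))

/-- delete the edges `v, φ v` for `v` in `S` -/
def del (G : SimpleGraph V) (φ : V → V) (S : Set V) : SimpleGraph V where
  Adj x y := G.Adj x y ∧ ¬ (x ∈ S ∧ φ x = y) ∧ ¬ (y ∈ S ∧ φ y = x)
  symm := ⟨fun _ _ h => ⟨h.1.symm, h.2.2, h.2.1⟩⟩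
  loopless := ⟨fun _ h => h.1.ne rfl⟩

lemma del_le (G : SimpleGraph V) (φ : V → V) (S : Set V) : del G φ S ≤ G := fun _ _ h => h.1

lemma del_bd {G : SimpleGraph V} {r : V → V → Prop} {m : ℕ}
    (h : ∀ x, {y | G.Adj x y ∧ r y x}.encard ≤ (m + 1 : ℕ)) (φ : V → V)
    (hφ : ∀ x, ¬ {y | G.Adj x y ∧ r y x}.encard ≤ m → G.Adj x (φ x) ∧ r (φ x) x) (x : V) :
    {y | (del G φ {x | ¬ {y | G.Adj x y ∧ r y x}.encard ≤ m}).Adj x y ∧ r y x}.encard ≤ m := by
  by_cases hx : {y | G.Adj x y ∧ r y x}.encard ≤ m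
  · refine le_trans (Set.encard_le_encard ?_) hx
    exact fun y hy => ⟨hy.1.1, hy.2⟩
  · have h1 : {y | (del G φ {x | ¬ {y | G.Adj x y ∧ r y x}.encard ≤ m}).Adj x y ∧ r y x} ⊆
        {y | G.Adj x y ∧ r y x} \ {φ x} :=
      fun y hy => ⟨⟨hy.1.1, hy.2⟩, fun e => hy.1.2.1 ⟨hx, e.symm⟩⟩
    refine (Set.encard_le_encard h1).trans ?_
    have h2 := Set.encard_sdiff_singleton_add_one (s := {y | G.Adj x y ∧ r y x}) (hφ x hx)
    have h3 := h x
    rw [← h2] at h3
    push_cast at h3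
    exact (ENat.add_le_add_iff_right (by simp)).1 h3

theorem core (G : SimpleGraph V) (m : ℕ) (hG : Bd G (m + 2))
    (hs : ∀ H ≤ G, Bd H (m + 1) → Bd H m) : Bd G m := by
  classical
  obtain ⟨r, hr, h⟩ := hG
  set S := {x | ¬ {y | G.Adj x y ∧ r y x}.encard ≤ (m + 1 : ℕ)} with hS
  have ex0 : ∀ x, ∃ y, x ∈ S → G.Adj x y ∧ r y x := by
    intro x
    by_cases hx : x ∈ S
    · have : {y | G.Adj x y ∧ r y x}.Nonempty := by
        rw [Set.nonempty_iff_ne_empty]
        intro e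
        apply hx
        rw [e]; simp
      obtain ⟨y, hy⟩ := this
      exact ⟨y, fun _ => hy⟩
    · exact ⟨x, fun k => (hx k).elim⟩
  choose φ0 hφ0 using ex0
  obtain ⟨r', hr', h'⟩ := hs _ (del_le G φ0 S) ⟨r, hr, del_bd h φ0 hφ0⟩
  have ex1 : ∀ x, ∃ y, x ∈ S → (del G φ0 S).Adj x y ∧ r y x ∧ r' x y := by
    intro x
    by_cases hx : x ∈ S
    · by_contra hc
      push Not at hc
      apply hx
      have : {y | G.Adj x y ∧ r y x} ⊆ insert (φ0 x) {y | (del G φ0 S).Adj x y ∧ r' y x} := by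
        intro y hy
        by_cases e : y = φ0 x
        · exact Or.inl e
        · right
          have k : (del G φ0 S).Adj x y := by
            refine ⟨hy.1, fun k => e k.2.symm, fun k => ?_⟩
            have := (hφ0 y k.1).2
            rw [k.2] at this
            exact asymm this hy.2
          refine ⟨k, ?_⟩
          rcases trichotomous_of r' y x with k2 | k2 | k2
          · exact k2
          · exact (k.ne k2.symm).elim
          · exact ((hc y).2 k hy.2 k2).elim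
      refine (Set.encard_le_encard this).trans ((Set.encard_insert_le _ _).trans ?_)
      push_cast
      exact add_le_add (h' x) le_rfl
    · exact ⟨x, fun k => (hx k).elim⟩
  choose φ hφ using ex1
  -- sibling index
  have fib : ∀ w, ∃ f : V → ℕ, (∀ v, v ∈ S → φ v = w → f v < m) ∧
      Set.InjOn f {v | v ∈ S ∧ φ v = w} := by
    intro w
    have h1 : {v | v ∈ S ∧ φ v = w}.encard ≤ m := by
      refine (Set.encard_le_encard ?_).trans (h' w)
      rintro v ⟨hv, rfl⟩
      exact ⟨(hφ v hv).1.symm, (hφ v hv).2.2⟩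
    have hfin : {v | v ∈ S ∧ φ v = w}.Finite := Set.finite_of_encard_le_coe h1
    have h2 : {v | v ∈ S ∧ φ v = w}.encard ≤ {i | i < m}.encard := by
      rw [Set.Nat.encard_range]; exact h1
    rcases Set.eq_empty_or_nonempty {v | v ∈ S ∧ φ v = w} with e | ⟨v0, hv0⟩
    · refine ⟨fun _ => 0, fun v hv hw => ?_, by rw [e]; exact Set.injOn_empty _⟩
      have : v ∈ {v | v ∈ S ∧ φ v = w} := ⟨hv, hw⟩
      rw [e] at this
      exact this.elim
    · obtain ⟨f, hf, hf'⟩ := hfin.exists_injOn_of_encard_le h2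
      exact ⟨f, fun v hv hw => hf ⟨hv, hw⟩, hf'⟩
  choose f hf hf' using fib
  -- parity of the depth
  let p : V → Bool := hr.wf.fix fun v ih => if hv : v ∈ S then !(ih (φ v) (hφ v hv).2.1) else false
  have hp : ∀ v, v ∈ S → p v = !p (φ v) := by
    intro v hv
    have : p v = if hv : v ∈ S then !(p (φ v)) else false := hr.wf.fix_eq _ v
    rw [this, dif_pos hv]
  let c : V → ℕ := fun v => 2 * f (φ v) v + (p v).toNat
  have hc : ∀ v, v ∈ S → c v < 2 * m := by
    intro v hv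
    have := hf (φ v) v hv rfl
    have h2 := Bool.toNat_le (p v)
    simp only [c]; omega
  have c1 : ∀ v w, c v = c w → f (φ v) v = f (φ w) w ∧ p v = p w := by
    intro v w e
    simp only [c] at e
    revert e
    cases p v <;> cases p w <;> simp <;> omega
  have step : ∀ k, Bd (del G φ {v | v ∈ S ∧ k ≤ c v}) m := by
    intro k
    induction k with
    | zero =>
      apply hs _ (del_le _ _ _)
      have : {v | v ∈ S ∧ 0 ≤ c v} = S := by simp
      rw [this]
      exact ⟨r, hr, del_bd h φ fun x hx => ⟨(hφ x hx).1.1, (hφ x hx).2.1⟩⟩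
    | succ k ih =>
      apply hs _ (del_le _ _ _)
      apply ih.add
      intro x
      have key : ∀ y, y ∈ {y | (del G φ {v | v ∈ S ∧ k + 1 ≤ c v}).Adj x y ∧
          ¬ (del G φ {v | v ∈ S ∧ k ≤ c v}).Adj x y} →
          (x ∈ S ∧ c x = k ∧ φ x = y) ∨ (y ∈ S ∧ c y = k ∧ φ y = x) := by
        rintro y ⟨⟨a1, a2, a3⟩, a4⟩
        by_contra hc
        apply a4
        refine ⟨a1, fun k1 => ?_, fun k1 => ?_⟩
        · exact hc (Or.inl ⟨k1.1.1, by
            by_contra hne
            exact a2 ⟨⟨k1.1.1, by have := k1.1.2; omega⟩, k1.2⟩, k1.2⟩)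
        · exact hc (Or.inr ⟨k1.1.1, by
            by_contra hne
            exact a3 ⟨⟨k1.1.1, by have := k1.1.2; omega⟩, k1.2⟩, k1.2⟩)
      intro y hy z hz
      rcases key y hy with ⟨a1, a2, a3⟩ | ⟨a1, a2, a3⟩ <;>
        rcases key z hz with ⟨b1, b2, b3⟩ | ⟨b1, b2, b3⟩
      · exact a3.symm.trans b3
      · have e := (c1 z x (b2.trans a2.symm)).2
        rw [hp z b1, b3] at e
        simp at e
      · have e := (c1 y x (a2.trans b2.symm)).2
        rw [hp y a1, a3] at e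
        simp at e
      · have e := (c1 y z (a2.trans b2.symm)).1
        rw [a3, b3] at e
        exact hf' x ⟨a1, a3⟩ ⟨b1, b3⟩ e
  refine (step (2 * m)).mono fun x y hxy => ⟨hxy, fun k => ?_, fun k => ?_⟩
  · have := hc x k.1.1; have := k.1.2; omega
  · have := hc y k.1.1; have := k.1.2; omega

end Pool.Agent.H26.Milner
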