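import Pool.Agent.H26.CompDefs

namespace Pool.Agent.H26.Comp

open Set Classical

noncomputable section

abbrev Sys := Set ℕ → Prop

def Inner {κ : Type} (A : κ → Set ℕ) (j : ℕ → κ × ℕ) (A' : Set ℕ) (h : κ × ℕ) : Prop :=
  h.2 ∈ A h.1 ∧ ∀ x ∈ A', j x ≠ h

structure WF {κ : Type} (A : κ → Set ℕ) (j : ℕ → κ × ℕ) (τ : κ × ℕ → κ × ℕ) (A' : Set ℕ) :
    Prop where
  inj : InjOn j A'
  mem : ∀ x ∈ A', (j x).2 ∈ A (j x).1
  inner : ∀ h, Inner A j A' h → Inner A j A' (τ h)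
  invol : ∀ h, Inner A j A' h → τ (τ h) = h

structure Con {κ : Type} (A : κ → Set ℕ) (j : ℕ → κ × ℕ) (τ : κ × ℕ → κ × ℕ) (A' X : Set ℕ)
    (B : κ → Set ℕ) : Prop where
  sub : X ⊆ A'
  ext : ∀ x ∈ A', (j x).2 ∈ B (j x).1 ↔ x ∈ X
  int : ∀ h, Inner A j A' h → ((τ h).2 ∈ B (τ h).1 ↔ h.2 ∉ B h.1)

def Glue {κ : Type} (A : κ → Set ℕ) (F : κ → Sys) (j : ℕ → κ × ℕ) (τ : κ × ℕ → κ × ℕ)
    (A' : Set ℕ) : Sys :=
  fun X => ∃ B : κ → Set ℕ, (∀ k, F k (B k)) ∧ Con A j τ A' X B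

def Net (S : Set (Matroid ℕ)) (A : Set ℕ) (F : Sys) : Prop :=
  ∃ (ι : Type) (_ : Finite ι) (M : ι → Matroid ℕ) (j : ℕ → ι × ℕ) (τ : ι × ℕ → ι × ℕ),
    (∀ i, M i ∈ S) ∧ WF (fun i => (M i).E) j τ A ∧
      ∀ X, F X ↔ Glue (fun i => (M i).E) (fun i => (M i).IsBase) j τ A X

variable {S : Set (Matroid ℕ)}

theorem Net.congr {A : Set ℕ} {F G : Sys} (h : Net S A F) (hFG : ∀ X, G X ↔ F X) : Net S A G := by
  obtain ⟨ι, hι, M, j, τ, h1, h2, h3⟩ := h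
  exact ⟨ι, hι, M, j, τ, h1, h2, fun X => (hFG X).trans (h3 X)⟩

theorem Net.sub {A : Set ℕ} {F : Sys} (h : Net S A F) {X} (hX : F X) : X ⊆ A := by
  obtain ⟨ι, hι, M, j, τ, h1, h2, h3⟩ := h
  obtain ⟨B, -, hB⟩ := (h3 X).1 hX
  exact hB.sub

theorem Net.mono {S' : Set (Matroid ℕ)} {A : Set ℕ} {F : Sys} (h : Net S A F) (hS : S ⊆ S') :
    Net S' A F := by
  obtain ⟨ι, hι, M, j, τ, h1, h2, h3⟩ := h
  exact ⟨ι, hι, M, j, τ, fun i => hS (h1 i), h2, h3⟩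

theorem Net.base {M : Matroid ℕ} (h : M ∈ S) : Net S M.E M.IsBase := by
  have hi : ∀ h : Unit × ℕ, ¬ Inner (fun _ => M.E) (fun x => ((), x)) M.E h :=
    fun h hh => hh.2 h.2 hh.1 rfl
  refine ⟨Unit, inferInstance, fun _ => M, fun x => ((), x), id, fun _ => h,
    ⟨fun a _ b _ h => congrArg Prod.snd h, fun x hx => hx, fun h hh => (hi h hh).elim,
      fun h hh => rfl⟩, fun X => ⟨fun hX => ⟨fun _ => X, fun _ => hX, hX.subset_ground,
      fun x _ => Iff.rfl, fun h hh => (hi h hh).elim⟩, ?_⟩⟩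
  rintro ⟨B, h1, h2⟩
  have : X = B () := by
    ext x
    exact ⟨fun hx => (h2.ext x (h2.sub hx)).2 hx,
      fun hx => (h2.ext x ((h1 ()).subset_ground hx)).1 hx⟩
  rw [this]; exact h1 ()

theorem Net.dual (hS : ∀ M ∈ S, M.dual ∈ S) {A : Set ℕ} {F : Sys} (h : Net S A F) :
    Net S A (fun X => X ⊆ A ∧ F (A \ X)) := by
  obtain ⟨ι, hι, M, j, τ, h1, h2, h3⟩ := h
  refine ⟨ι, hι, fun i => (M i).dual, j, τ, fun i => hS _ (h1 i), h2, fun X => ⟨?_, ?_⟩⟩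
  · rintro ⟨hX, hF⟩
    obtain ⟨B, hB, hc⟩ := (h3 _).1 hF
    refine ⟨fun i => (M i).E \ B i, fun i => (hB i).compl_isBase_dual, hX, fun x hx => ?_,
      fun h hh => ?_⟩
    · have := hc.ext x hx
      have h4 := h2.mem x hx
      simp only [mem_diff] at this ⊢
      tauto
    · have := hc.int h hh
      have h4 := (h2.inner h hh).1
      have h5 := hh.1
      simp only [mem_diff, Matroid.dual_ground] at this h4 h5 ⊢
      tauto
  · rintro ⟨B, hB, hc⟩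
    refine ⟨hc.sub, (h3 _).2 ⟨fun i => (M i).E \ B i, fun i => (hB i).compl_isBase_of_dual,
      diff_subset, fun x hx => ?_, fun h hh => ?_⟩⟩
    · have := hc.ext x hx
      have h4 := h2.mem x hx
      simp only [mem_diff] at this ⊢
      tauto
    · have := hc.int h hh
      have h4 := (h2.inner h hh).1
      have h5 := hh.1
      simp only [mem_diff] at this h4 h5 ⊢
      tauto

theorem Net.compose {κ : Type} [Finite κ] {A : κ → Set ℕ} {F : κ → Sys} {j : ℕ → κ × ℕ}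
    {τ : κ × ℕ → κ × ℕ} {A' : Set ℕ} (hN : ∀ k, Net S (A k) (F k)) (hw : WF A j τ A') :
    Net S A' (Glue A F j τ A') := by
  choose ι hι M j1 τ1 h1 h2 h3 using hN
  let up : ∀ k, ι k × ℕ → (Σ k, ι k) × ℕ := fun k z => (⟨k, z.1⟩, z.2)
  let e : κ × ℕ → (Σ k, ι k) × ℕ := fun h => up h.1 (j1 h.1 h.2)
  let τ' : (Σ k, ι k) × ℕ → (Σ k, ι k) × ℕ := fun z =>
    if h : ∃ x ∈ A z.1.1, j1 z.1.1 x = (z.1.2, z.2) then e (τ (z.1.1, h.choose))
    else up z.1.1 (τ1 z.1.1 (z.1.2, z.2))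
  let E' : (Σ k, ι k) → Set ℕ := fun i => (M i.1 i.2).E
  have upinj : ∀ k a b, up k a = up k b → a = b := by
    intro k a b h
    simp only [up, Prod.mk.injEq, Sigma.mk.injEq, heq_eq_eq, true_and] at h
    exact Prod.ext h.1 h.2
  have einj : ∀ a b : κ × ℕ, a.2 ∈ A a.1 → b.2 ∈ A b.1 → e a = e b → a = b := by
    rintro ⟨k, x⟩ ⟨l, y⟩ ha hb h
    obtain rfl : k = l := congrArg (fun z => z.1.1) h
    exact congrArg _ ((h2 k).inj ha hb (upinj k _ _ h))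
  have τe : ∀ a : κ × ℕ, a.2 ∈ A a.1 → τ' (e a) = e (τ a) := by
    rintro ⟨k, x⟩ ha
    have hex : ∃ y ∈ A k, j1 k y = j1 k x := ⟨x, ha, rfl⟩
    have : τ' (e (k, x)) = e (τ (k, hex.choose)) := dif_pos hex
    rw [this, (h2 k).inj hex.choose_spec.1 ha hex.choose_spec.2]
  have τu : ∀ k z, Inner (fun i => (M k i).E) (j1 k) (A k) z → τ' (up k z) = up k (τ1 k z) := by
    intro k z hz
    exact dif_neg (fun ⟨x, hx, h⟩ => hz.2 x hx h)
  have ie : ∀ a, Inner A j A' a → Inner E' (e ∘ j) A' (e a) := by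
    intro a ha
    exact ⟨(h2 a.1).mem a.2 ha.1, fun x hx h => ha.2 x hx (einj _ _ (hw.mem x hx) ha.1 h)⟩
  have iu : ∀ k z, Inner (fun i => (M k i).E) (j1 k) (A k) z → Inner E' (e ∘ j) A' (up k z) := by
    intro k z hz
    refine ⟨hz.1, fun x hx h => ?_⟩
    obtain rfl : (j x).1 = k := congrArg (fun z => z.1.1) h
    exact hz.2 _ (hw.mem x hx) (upinj _ _ _ h)
  have cases : ∀ z, Inner E' (e ∘ j) A' z → (∃ a, Inner A j A' a ∧ z = e a) ∨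
      ∃ k y, Inner (fun i => (M k i).E) (j1 k) (A k) y ∧ z = up k y := by
    rintro ⟨⟨k, i⟩, y⟩ hz
    by_cases h : ∃ x ∈ A k, j1 k x = (i, y)
    · obtain ⟨x, hx, h⟩ := h
      have he : ((⟨k, i⟩, y) : (Σ k, ι k) × ℕ) = e (k, x) := by simp only [e, up, h]
      exact Or.inl ⟨(k, x), ⟨hx, fun w hw' h' => hz.2 w hw' (by
        rw [he]; exact congrArg e h')⟩, he⟩
    · exact Or.inr ⟨k, (i, y), ⟨hz.1, fun x hx h' => h ⟨x, hx, h'⟩⟩, rfl⟩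
  refine ⟨Σ k, ι k, inferInstance, fun i => M i.1 i.2, e ∘ j, τ', fun i => h1 _ _,
    ⟨fun a ha b hb h => hw.inj ha hb (einj _ _ (hw.mem a ha) (hw.mem b hb) h),
      fun x hx => (h2 _).mem _ (hw.mem x hx), fun z hz => ?_, fun z hz => ?_⟩, fun X => ⟨?_, ?_⟩⟩
  · rcases cases z hz with ⟨a, ha, rfl⟩ | ⟨k, y, hy, rfl⟩
    · rw [τe a ha.1]; exact ie _ (hw.inner a ha)
    · rw [τu k y hy]; exact iu _ _ ((h2 k).inner y hy)
  · rcases cases z hz with ⟨a, ha, rfl⟩ | ⟨k, y, hy, rfl⟩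
    · rw [τe a ha.1, τe _ (hw.inner a ha).1, hw.invol a ha]
    · rw [τu k y hy, τu k _ ((h2 k).inner y hy), (h2 k).invol y hy]
  · rintro ⟨B, hB, hc⟩
    choose B' hB' hc' using fun k => (h3 k (B k)).1 (hB k)
    refine ⟨fun i => B' i.1 i.2, fun i => hB' _ _, hc.sub, fun x hx => ?_, fun z hz => ?_⟩
    · exact ((hc' _).ext _ (hw.mem x hx)).trans (hc.ext x hx)
    · rcases cases z hz with ⟨a, ha, rfl⟩ | ⟨k, y, hy, rfl⟩
      · rw [τe a ha.1]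
        exact (((hc' _).ext _ (hw.inner a ha).1).trans (hc.int a ha)).trans
          ((hc' _).ext _ ha.1).not.symm
      · rw [τu k y hy]
        exact (hc' k).int y hy
  · rintro ⟨B', hB', hc⟩
    refine ⟨fun k => {x | x ∈ A k ∧ (j1 k x).2 ∈ B' ⟨k, (j1 k x).1⟩}, fun k => (h3 k _).2
      ⟨fun i => B' ⟨k, i⟩, fun i => hB' ⟨k, i⟩, fun x hx => hx.1,
        fun x hx => ⟨fun h => ⟨hx, h⟩, fun h => h.2⟩, fun y hy => ?_⟩, hc.sub, fun x hx => ?_,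
        fun a ha => ?_⟩
    · have := hc.int _ (iu k y hy)
      rwa [τu k y hy] at this
    · exact ⟨fun h => (hc.ext x hx).1 h.2, fun h => ⟨hw.mem x hx, (hc.ext x hx).2 h⟩⟩
    · have := hc.int _ (ie a ha)
      rw [τe a ha.1] at this
      exact ⟨fun h h' => this.1 h.2 h'.2,
        fun h => ⟨(hw.inner a ha).1, this.2 fun h' => h ⟨ha.1, h'⟩⟩⟩

end

end Pool.Agent.H26.Comp
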