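import Pool.Agent.H26.NetA

namespace Pool.Agent.H26.Comp

open Set Classical

noncomputable section

structure Adm (S : Set (Matroid ℕ)) : Prop where
  small : ∀ M : Matroid ℕ, M.E.Finite → M.E.ncard ≤ 3 → M ∈ S
  dual : ∀ M ∈ S, M.dual ∈ S
  fin : ∀ M ∈ S, M.E.Finite

def One (A : Set ℕ) : Sys := fun X => ∃ a ∈ A, X = {a}

def CoOne (A : Set ℕ) : Sys := fun X => ∃ a ∈ A, X = A \ {a}

variable {S : Set (Matroid ℕ)}

theorem net_one_small (hS : Adm S) {A : Set ℕ} (hA : A.Finite) (hne : A.Nonempty)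
    (h3 : A.ncard ≤ 3) : Net S A (One A) := by
  let M : Matroid ℕ := Matroid.ofIsBaseOfFinite hA (One A) ⟨{hne.some}, _, hne.some_mem, rfl⟩
    (by
      rintro _ _ ⟨a, ha, rfl⟩ ⟨b, hb, rfl⟩ x hx
      obtain rfl : x = a := hx.1
      exact ⟨b, ⟨rfl, fun h => hx.2 (Eq.symm h)⟩, b, hb, by simp⟩)
    (by rintro _ ⟨a, ha, rfl⟩; simpa using ha)
  have := Net.base (hS.small M hA h3)
  exact this.congr fun X => by simp [M]

theorem net_one (hS : Adm S) {A : Set ℕ} (hA : A.Finite) (hne : A.Nonempty) :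
    Net S A (One A) := by
  induction A, hA using Set.Finite.induction_on with
  | empty => simp at hne
  | @insert a A ha hA ih =>
    rcases A.eq_empty_or_nonempty with rfl | ⟨b, hb⟩
    · exact net_one_small hS (by simp) hne (by simp)
    have hab : a ≠ b := fun h => ha (h ▸ hb)
    let AA : Bool → Set ℕ := fun k => cond k A {0, 1, 2}
    let j : ℕ → Bool × ℕ := fun x =>
      if x = a then (false, 0) else if x = b then (false, 1) else (true, x)
    let τ : Bool × ℕ → Bool × ℕ := fun h => cond h.1 (false, 2) (true, b)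
    have ja : j a = (false, 0) := if_pos rfl
    have jb : j b = (false, 1) := by simp [j, hab.symm]
    have jx : ∀ x, x ≠ a → x ≠ b → j x = (true, x) := fun x h1 h2 => by simp [j, h1, h2]
    have hin : ∀ h, Inner AA j (insert a A) h ↔ h = (true, b) ∨ h = (false, 2) := by
      rintro ⟨k, y⟩
      constructor
      · rintro ⟨h1, h2⟩
        cases k
        · rcases h1 with rfl | rfl | rfl
          · exact absurd ja (h2 a (by simp))
          · exact absurd jb (h2 b (by simp [hb]))
          · simp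
        · by_cases h : y = b
          · simp [h]
          · exact absurd (jx y (fun h => ha (h ▸ h1)) h) (h2 y (Or.inr h1))
      · rintro (h | h) <;> cases h
        · refine ⟨hb, fun x _ => ?_⟩
          simp only [j]; split_ifs <;> simp [*]
        · refine ⟨by simp [AA], fun x _ => ?_⟩
          simp only [j]; split_ifs <;> simp
    have hw : WF AA j τ (insert a A) := by
      refine ⟨fun x _ y _ h => ?_, fun x hx => ?_, fun h hh => ?_, fun h hh => ?_⟩
      · simp only [j] at h; split_ifs at h <;> simp_all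
      · simp only [j]; split_ifs with h1 h2
        · simp [AA]
        · simp [AA]
        · exact hx.resolve_left h1
      · rw [hin] at hh ⊢; rcases hh with rfl | rfl <;> simp [τ]
      · rw [hin] at hh; rcases hh with rfl | rfl <;> simp [τ]
    have hN : ∀ k, Net S (AA k) (One (AA k)) := by
      rintro (_ | _)
      · exact net_one_small hS (by simp [AA]) ⟨0, by simp [AA]⟩
          (by simpa [AA] using (Set.ncard_eq_three.2 ⟨0, 1, 2, by simp⟩).le)
      · exact ih ⟨b, hb⟩
    refine (Net.compose hN hw).congr fun X => ⟨?_, ?_⟩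
    · rintro ⟨x, hx, rfl⟩
      refine ⟨fun k => cond k {if x = a then b else x}
        {if x = a then 0 else if x = b then 1 else 2}, ?_, by simpa using hx, fun y hy => ?_,
        fun h hh => ?_⟩
      · rintro (_ | _)
        · refine ⟨_, ?_, rfl⟩
          split_ifs <;> simp [AA]
        · refine ⟨_, ?_, rfl⟩
          split_ifs with h
          · exact hb
          · exact hx.resolve_left h
      · simp only [j]
        split_ifs <;> simp_all [eq_comm]
      · rw [hin] at hh
        rcases hh with rfl | rfl <;> simp only [τ] <;> split_ifs <;> simp_all [eq_comm]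
    · rintro ⟨B, hB, hc⟩
      obtain ⟨u, hu, h1⟩ := hB true
      obtain ⟨v, hv, h2⟩ := hB false
      have e1 := hc.ext a (by simp)
      have e2 := hc.ext b (by simp [hb])
      have e3 := hc.int _ ((hin _).2 (Or.inl rfl))
      have e4 : ∀ x ∈ A, x ≠ b → (x = u ↔ x ∈ X) := fun x hx h => by
        have := hc.ext x (Or.inr hx)
        rwa [jx x (fun h => ha (h ▸ hx)) h, h1] at this
      rw [ja, h2] at e1
      rw [jb, h2] at e2
      simp only [τ, cond_true, h1, h2, mem_singleton_iff] at e1 e2 e3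
      have e5 : ∀ x, x ∈ X ↔ (x = a ∧ v = 0) ∨ (x = b ∧ v = 1) ∨ (x = u ∧ v = 2) := by
        intro x
        constructor
        · intro hx
          by_cases c1 : x = a
          · subst c1; exact Or.inl ⟨rfl, (e1.2 hx).symm⟩
          by_cases c2 : x = b
          · subst c2; exact Or.inr (Or.inl ⟨rfl, (e2.2 hx).symm⟩)
          have := (e4 x ((hc.sub hx).resolve_left c1) c2).2 hx
          exact Or.inr (Or.inr ⟨this, (e3.2 (fun h => c2 (this.trans h.symm))).symm⟩)
        · rintro (⟨rfl, h⟩ | ⟨rfl, h⟩ | ⟨rfl, h⟩)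
          · exact e1.1 h.symm
          · exact e2.1 h.symm
          · exact (e4 x hu (fun h' => e3.1 h.symm h'.symm)).1 rfl
      rcases hv with rfl | rfl | rfl
      · exact ⟨a, by simp, by ext x; simp [e5]⟩
      · exact ⟨b, by simp [hb], by ext x; simp [e5]⟩
      · exact ⟨u, Or.inr hu, by ext x; simp [e5]⟩

theorem net_coone (hS : Adm S) {A : Set ℕ} (hA : A.Finite) (hne : A.Nonempty) :
    Net S A (CoOne A) := by
  refine ((net_one hS hA hne).dual hS.dual).congr fun X => ⟨?_, ?_⟩
  · rintro ⟨a, ha, rfl⟩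
    exact ⟨diff_subset, a, ha, by simpa using ha⟩
  · rintro ⟨h1, a, ha, h2⟩
    exact ⟨a, ha, by rw [← h2, diff_diff_cancel_left h1]⟩

theorem net_fixed (hS : Adm S) {D J : Set ℕ} (hD : D.Finite) (hJ : J ⊆ D) :
    Net S D (fun X => X = J) := by
  haveI := hD.to_subtype
  rcases D.eq_empty_or_nonempty with rfl | ⟨d, hd⟩
  · refine (Net.base (hS.small (Matroid.emptyOn ℕ) (by simp) (by simp))).congr fun X => ?_
    simp [subset_empty_iff.1 hJ]
  let j : ℕ → D × ℕ := fun x => if h : x ∈ D then (⟨x, h⟩, 0) else (⟨d, hd⟩, 0)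
  have jx : ∀ x (h : x ∈ D), j x = (⟨x, h⟩, 0) := fun x h => dif_pos h
  have hin : ∀ h, ¬ Inner (fun _ : D => ({0} : Set ℕ)) j D h := by
    rintro ⟨k, y⟩ ⟨h1, h2⟩
    obtain rfl : y = 0 := h1
    exact h2 k k.2 (jx k k.2)
  have hN : ∀ k : D, Net S {0} (fun X => X = if k.1 ∈ J then {0} else ∅) := by
    intro k
    split_ifs
    · exact (Net.base (hS.small (Matroid.freeOn {0}) (by simp) (by simp))).congr fun X => by simp
    · exact (Net.base (hS.small (Matroid.loopyOn {0}) (by simp) (by simp))).congr fun X => by simp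
  have hw : WF (fun _ : D => ({0} : Set ℕ)) j id D := by
    refine ⟨fun x hx y hy h => ?_, fun x hx => by rw [jx x hx]; rfl, fun h hh => hh, fun _ _ => rfl⟩
    rw [jx x hx, jx y hy] at h
    simpa using h
  refine (Net.compose hN hw).congr fun X => ⟨?_, ?_⟩
  · rintro rfl
    refine ⟨_, fun _ => rfl, hJ, fun x hx => ?_, fun h hh => (hin h hh).elim⟩
    rw [jx x hx]
    by_cases h : x ∈ X <;> simp [h]
  · rintro ⟨B, hB, hc⟩
    have : ∀ x ∈ D, x ∈ J ↔ x ∈ X := fun x hx => by
      have := hc.ext x hx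
      rw [jx x hx, hB] at this
      by_cases h : x ∈ J <;> simpa [h] using this
    ext x
    exact ⟨fun h => (this x (hc.sub h)).2 h, fun h => (this x (hJ h)).1 h⟩

theorem Net.fix (hS : Adm S) {A R J : Set ℕ} {F : Sys} (h : Net S A F) (hA : A.Finite)
    (hR : R ⊆ A) (hJ : J ⊆ A \ R) : Net S R (fun X => X ⊆ R ∧ F (X ∪ J)) := by
  let AA : Bool → Set ℕ := fun k => cond k A (A \ R)
  let FF : Bool → Sys := fun k => cond k F (fun X => X = (A \ R) \ J)
  have hin : ∀ h, Inner AA (fun x => (true, x)) R h ↔ h.2 ∈ A \ R := by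
    rintro ⟨_ | _, y⟩
    · exact ⟨fun h => h.1, fun h => ⟨h, by simp⟩⟩
    · exact ⟨fun h => ⟨h.1, fun h' => h.2 y h' rfl⟩, fun h => ⟨h.1, fun x hx h' => by
        obtain rfl : x = y := congrArg Prod.snd h'
        exact h.2 hx⟩⟩
  have hw : WF AA (fun x => (true, x)) (fun h => (!h.1, h.2)) R :=
    ⟨fun x _ y _ h => congrArg Prod.snd h, fun x hx => hR hx,
      fun h hh => by rw [hin] at hh ⊢; exact hh, fun h _ => by simp⟩
  have hN : ∀ k, Net S (AA k) (FF k) := by
    rintro (_ | _)
    · exact net_fixed hS (hA.subset diff_subset) diff_subset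
    · exact h
  refine (Net.compose hN hw).congr fun X => ⟨?_, ?_⟩
  · rintro ⟨h1, h2⟩
    refine ⟨fun k => cond k (X ∪ J) ((A \ R) \ J), ?_, h1, fun x hx => ?_, fun h hh => ?_⟩
    · rintro (_ | _)
      · rfl
      · exact h2
    · exact ⟨fun h => h.resolve_right fun h' => (hJ h').2 hx, Or.inl⟩
    · rw [hin] at hh
      obtain ⟨_ | _, y⟩ := h
      · have : y ∉ X := fun h => hh.2 (h1 h)
        simp only [mem_diff] at hh
        simp [this, hh]
      · have : y ∉ X := fun h => hh.2 (h1 h)
        simp only [mem_diff] at hh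
        simp [this, hh]
  · rintro ⟨B, hB, hc⟩
    refine ⟨hc.sub, ?_⟩
    have h1 : F (B true) := hB true
    have h2 : B false = (A \ R) \ J := hB false
    convert h1
    ext x
    by_cases hx : x ∈ R
    · have := hc.ext x hx
      have h3 : x ∉ J := fun h => (hJ h).2 hx
      simp only at this
      simp [this, h3]
    · have h3 : x ∉ X := fun h => hx (hc.sub h)
      by_cases hxA : x ∈ A
      · have := hc.int (false, x) ((hin _).2 ⟨hxA, hx⟩)
        simp only [Bool.not_false, h2, mem_diff] at this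
        simp [this, h3, hxA, hx]
      · have h4 : x ∉ J := fun h => hxA (hJ h).1
        have h5 : x ∉ B true := fun h' => hxA (h.sub h1 h')
        simp [h3, h4, h5]

theorem Net.sum {A A' : Set ℕ} {F F' : Sys} (h : Net S A F) (h' : Net S A' F')
    (hd : Disjoint A A') : Net S (A ∪ A') (fun X => X ⊆ A ∪ A' ∧ F (X ∩ A) ∧ F' (X ∩ A')) := by
  let AA : Bool → Set ℕ := fun k => cond k A A'
  let FF : Bool → Sys := fun k => cond k F F'
  let j : ℕ → Bool × ℕ := fun x => (decide (x ∈ A), x)
  have j1 : ∀ x ∈ A, j x = (true, x) := fun x hx => by simp [j, hx]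
  have j2 : ∀ x ∈ A', j x = (false, x) := fun x hx => by
    simp [j, disjoint_right.1 hd hx]
  have hin : ∀ h, ¬ Inner AA j (A ∪ A') h := by
    rintro ⟨_ | _, y⟩ ⟨h1, h2⟩
    · exact h2 y (Or.inr h1) (j2 y h1)
    · exact h2 y (Or.inl h1) (j1 y h1)
  have hw : WF AA j id (A ∪ A') := by
    refine ⟨fun x _ y _ h => congrArg Prod.snd h, ?_, fun h hh => hh, fun _ _ => rfl⟩
    rintro x (hx | hx)
    · rw [j1 x hx]; exact hx
    · rw [j2 x hx]; exact hx
  have hN : ∀ k, Net S (AA k) (FF k) := by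
    rintro (_ | _)
    · exact h'
    · exact h
  refine (Net.compose hN hw).congr fun X => ⟨?_, ?_⟩
  · rintro ⟨h1, h2, h3⟩
    refine ⟨fun k => X ∩ AA k, ?_, h1, fun x hx => ⟨fun h => h.1, fun h => ⟨h, hw.mem x hx⟩⟩,
      fun h hh => (hin h hh).elim⟩
    rintro (_ | _)
    · exact h3
    · exact h2
  · rintro ⟨B, hB, hc⟩
    have h1 : F (B true) := hB true
    have h2 : F' (B false) := hB false
    refine ⟨hc.sub, ?_, ?_⟩
    · convert h1
      ext x
      by_cases hx : x ∈ A
      · have := hc.ext x (Or.inl hx)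
        rw [j1 x hx] at this
        simp [this, hx]
      · exact ⟨fun h => absurd h.2 hx, fun h' => absurd (h.sub h1 h') hx⟩
    · convert h2
      ext x
      by_cases hx : x ∈ A'
      · have := hc.ext x (Or.inr hx)
        rw [j2 x hx] at this
        simp [this, hx]
      · exact ⟨fun h => absurd h.2 hx, fun h => absurd (h'.sub h2 h) hx⟩

theorem Net.relabel {A : Set ℕ} {F : Sys} (h : Net S A F) {f : ℕ → ℕ} (hf : InjOn f A) :
    Net S (f '' A) (fun X => ∃ B, F B ∧ X = f '' B) := by
  let g := Function.invFunOn f A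
  have gf : ∀ x ∈ A, g (f x) = x := fun x hx => hf.leftInvOn_invFunOn hx
  have hin : ∀ h, ¬ Inner (fun _ : Unit => A) (fun x => ((), g x)) (f '' A) h := by
    rintro ⟨k, y⟩ ⟨h1, h2⟩
    exact h2 (f y) ⟨y, h1, rfl⟩ (Prod.ext rfl (gf y h1))
  have hw : WF (fun _ : Unit => A) (fun x => ((), g x)) id (f '' A) := by
    refine ⟨?_, ?_, fun h hh => hh, fun _ _ => rfl⟩
    · rintro _ ⟨x, hx, rfl⟩ _ ⟨y, hy, rfl⟩ h
      have := congrArg Prod.snd h
      simp only [gf x hx, gf y hy] at this
      rw [this]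
    · rintro _ ⟨x, hx, rfl⟩
      simp only [gf x hx, hx]
  refine (Net.compose (F := fun _ => F) (fun _ => h) hw).congr fun X => ⟨?_, ?_⟩
  · rintro ⟨B, hB, rfl⟩
    refine ⟨fun _ => B, fun _ => hB, image_mono (h.sub hB), ?_, fun h hh => (hin h hh).elim⟩
    rintro _ ⟨x, hx, rfl⟩
    simp only [gf x hx]
    exact (hf.mem_image_iff (h.sub hB) hx).symm
  · rintro ⟨B, hB, hc⟩
    refine ⟨B (), hB (), ?_⟩
    ext x
    constructor
    · intro hx
      obtain ⟨y, hy, rfl⟩ := hc.sub hx
      have := (hc.ext _ ⟨y, hy, rfl⟩).2 hx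
      simp only [gf y hy] at this
      exact ⟨y, this, rfl⟩
    · rintro ⟨y, hy, rfl⟩
      have hyA := h.sub (hB ()) hy
      exact (hc.ext _ ⟨y, hyA, rfl⟩).1 (by simpa only [gf y hyA] using hy)

end

end Pool.Agent.H26.Comp
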