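import Pool.Agent.H26.NetB

namespace Pool.Agent.H26.Comp

open Set Classical

noncomputable section

variable {S : Set (Matroid ℕ)}

def BPF (T : Set ℕ) (Γ : ℕ → ℕ → Prop) (X Y : Set ℕ) : Prop :=
  ∃ π : ℕ → ℕ, BijOn π (T \ Y) (T \ X) ∧ ∀ v ∈ T \ Y, π v = v ∨ Γ v (π v)

theorem Net.pf (hS : Adm S) {T : Set ℕ} (hT : T.Finite) {F : Sys} (h : Net S T F)
    (Γ : ℕ → ℕ → Prop) : Net S T (fun X => X ⊆ T ∧ ∃ Y, F Y ∧ BPF T Γ X Y) := by
  haveI := hT.to_subtype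
  let R : ℕ → ℕ → Prop := fun v w => w = v ∨ Γ v w
  let In : ℕ → Set ℕ := fun w => {n | n = 0 ∨ ∃ v ∈ T, R v w ∧ n = v + 1}
  let Out : ℕ → Set ℕ := fun v => {n | n = 0 ∨ ∃ w ∈ T, R v w ∧ n = w + 1}
  let AA : Option (Bool × T) → Set ℕ := fun k =>
    k.elim T (fun p => cond p.1 (In p.2) (Out p.2))
  let FF : Option (Bool × T) → Sys := fun k =>
    k.elim F (fun p => cond p.1 (One (In p.2)) (CoOne (Out p.2)))
  let j : ℕ → Option (Bool × T) × ℕ := fun x =>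
    if h : x ∈ T then (some (true, ⟨x, h⟩), 0) else (none, 0)
  let τ : Option (Bool × T) × ℕ → Option (Bool × T) × ℕ := fun z =>
    z.1.elim (if h : z.2 ∈ T then (some (false, ⟨z.2, h⟩), 0) else (none, 0))
      (fun p => if z.2 = 0 then (none, p.2.1) else
        if h : z.2 - 1 ∈ T then (some (!p.1, ⟨z.2 - 1, h⟩), p.2.1 + 1) else (none, 0))
  have jx : ∀ x : T, j x = (some (true, x), 0) := fun x => dif_pos x.2
  have τ1 : ∀ y : T, τ (none, y) = (some (false, y), 0) := fun y => dif_pos y.2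
  have τ2 : ∀ (b) (y : T), τ (some (b, y), 0) = (none, y.1) := fun b y => by simp [τ]
  have τ3 : ∀ (b) (v w : T), τ (some (b, w), v.1 + 1) = (some (!b, v), w.1 + 1) := fun b v w => by
    simp [τ]
  have hin : ∀ z, Inner AA j T z ↔ (∃ y : T, z = (none, y.1)) ∨
      (∃ y : T, z = (some (false, y), 0)) ∨ ∃ v w : T, R v w ∧
        (z = (some (true, w), v.1 + 1) ∨ z = (some (false, v), w.1 + 1)) := by
    intro z
    constructor
    · rintro ⟨h1, h2⟩
      obtain ⟨_ | ⟨_ | _, w⟩, n⟩ := z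
      · exact Or.inl ⟨⟨n, h1⟩, rfl⟩
      · rcases h1 with rfl | ⟨v, hv, h3, rfl⟩
        · exact Or.inr (Or.inl ⟨w, rfl⟩)
        · exact Or.inr (Or.inr ⟨w, ⟨v, hv⟩, h3, Or.inr rfl⟩)
      · rcases h1 with rfl | ⟨v, hv, h3, rfl⟩
        · exact absurd (jx w) (h2 w w.2)
        · exact Or.inr (Or.inr ⟨⟨v, hv⟩, w, h3, Or.inl rfl⟩)
    · rintro (⟨y, rfl⟩ | ⟨y, rfl⟩ | ⟨v, w, h1, rfl | rfl⟩)
      · exact ⟨y.2, fun x hx => by rw [jx ⟨x, hx⟩]; simp⟩
      · exact ⟨Or.inl rfl, fun x hx => by rw [jx ⟨x, hx⟩]; simp⟩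
      · exact ⟨Or.inr ⟨v, v.2, h1, rfl⟩, fun x hx => by rw [jx ⟨x, hx⟩]; simp⟩
      · exact ⟨Or.inr ⟨w, w.2, h1, rfl⟩, fun x hx => by rw [jx ⟨x, hx⟩]; simp⟩
  have hw : WF AA j τ T := by
    refine ⟨fun x hx y hy h => ?_, fun x hx => ?_, fun z hz => ?_, fun z hz => ?_⟩
    · rw [jx ⟨x, hx⟩, jx ⟨y, hy⟩] at h
      simpa using h
    · rw [jx ⟨x, hx⟩]; exact Or.inl rfl
    · rw [hin] at hz ⊢
      rcases hz with ⟨y, rfl⟩ | ⟨y, rfl⟩ | ⟨v, w, h1, rfl | rfl⟩
      · exact Or.inr (Or.inl ⟨y, τ1 y⟩)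
      · exact Or.inl ⟨y, τ2 _ y⟩
      · exact Or.inr (Or.inr ⟨v, w, h1, Or.inr (τ3 _ _ _)⟩)
      · exact Or.inr (Or.inr ⟨v, w, h1, Or.inl (τ3 _ _ _)⟩)
    · rw [hin] at hz
      rcases hz with ⟨y, rfl⟩ | ⟨y, rfl⟩ | ⟨v, w, h1, rfl | rfl⟩
      · rw [τ1, τ2]
      · rw [τ2, τ1]
      · rw [τ3, τ3]; rfl
      · rw [τ3, τ3]; rfl
  have fin : ∀ P : ℕ → Prop, {n | n = 0 ∨ ∃ v ∈ T, P v ∧ n = v + 1}.Finite := by
    intro P
    refine ((hT.image (· + 1)).insert 0).subset ?_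
    rintro n (rfl | ⟨v, hv, -, rfl⟩)
    · exact Or.inl rfl
    · exact Or.inr ⟨v, hv, rfl⟩
  have hN : ∀ k, Net S (AA k) (FF k) := by
    rintro (_ | ⟨_ | _, w⟩)
    · exact h
    · exact net_coone hS (fin _) ⟨0, Or.inl rfl⟩
    · exact net_one hS (fin _) ⟨0, Or.inl rfl⟩
  refine (Net.compose hN hw).congr fun X => ⟨?_, ?_⟩
  · rintro ⟨hX, Y, hY, π, hπ, hR⟩
    let σ := Function.invFunOn π (T \ Y)
    have σ1 : ∀ w ∈ T \ X, σ w ∈ T \ Y := fun w hw => Function.invFunOn_mem (hπ.surjOn hw)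
    have σ2 : ∀ w ∈ T \ X, π (σ w) = w := fun w hw => Function.invFunOn_eq (hπ.surjOn hw)
    let a : ℕ → ℕ := fun w => if w ∈ X then 0 else σ w + 1
    let b : ℕ → ℕ := fun v => if v ∈ Y then 0 else π v + 1
    have ab : ∀ v w : T, v.1 + 1 = a w ↔ w.1 + 1 = b v := by
      intro v w
      simp only [a, b]
      constructor
      · intro h
        by_cases h1 : w.1 ∈ X
        · rw [if_pos h1] at h; omega
        rw [if_neg h1] at h
        have h2 : v.1 = σ w := by omega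
        rw [if_neg (by rw [h2]; exact (σ1 w ⟨w.2, h1⟩).2), h2, σ2 w ⟨w.2, h1⟩]
      · intro h
        by_cases h1 : v.1 ∈ Y
        · rw [if_pos h1] at h; omega
        rw [if_neg h1] at h
        have h2 : w.1 = π v := by omega
        have h3 := hπ.mapsTo ⟨v.2, h1⟩
        rw [if_neg (by rw [h2]; exact h3.2), h2]
        exact congrArg (· + 1) (hπ.injOn.leftInvOn_invFunOn ⟨v.2, h1⟩).symm
    refine ⟨fun k => k.elim Y (fun p => cond p.1 {a p.2} (Out p.2 \ {b p.2})), ?_, hX,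
      fun x hx => ?_, fun z hz => ?_⟩
    · rintro (_ | ⟨_ | _, w⟩)
      · exact hY
      · refine ⟨b w, ?_, rfl⟩
        simp only [b]
        split_ifs with h1
        · exact Or.inl rfl
        · exact Or.inr ⟨_, (hπ.mapsTo ⟨w.2, h1⟩).1, hR w ⟨w.2, h1⟩, rfl⟩
      · refine ⟨a w, ?_, rfl⟩
        simp only [a]
        split_ifs with h1
        · exact Or.inl rfl
        · refine Or.inr ⟨_, (σ1 w ⟨w.2, h1⟩).1, ?_, rfl⟩
          have := hR _ (σ1 w ⟨w.2, h1⟩)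
          rwa [σ2 w ⟨w.2, h1⟩] at this
    · rw [jx ⟨x, hx⟩]
      by_cases h1 : x ∈ X <;> simp [a, h1]
    · have hz1 := hz.1
      have hz2 := (hw.inner z hz).1
      rw [hin] at hz
      rcases hz with ⟨y, rfl⟩ | ⟨y, rfl⟩ | ⟨v, w, h1, rfl | rfl⟩
      · rw [τ1]
        by_cases h1 : y.1 ∈ Y <;> simp [b, h1, Out]
      · rw [τ2]
        by_cases h1 : y.1 ∈ Y <;> simp [b, h1, Out]
      · rw [τ3] at hz2 ⊢
        exact ⟨fun h h' => h.2 ((ab v w).1 h'), fun h => ⟨hz2, fun h' => h ((ab v w).2 h')⟩⟩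
      · rw [τ3]
        exact ⟨fun h h' => h'.2 ((ab v w).1 h),
          fun h => (ab v w).2 (by_contra fun h' => h ⟨hz1, h'⟩)⟩
  · rintro ⟨B, hB, hc⟩
    have hY : F (B none) := hB none
    choose a ha1 ha2 using fun w : T => (show One (In w) (B (some (true, w))) from hB (some (true, w)))
    choose b hb1 hb2 using fun w : T =>
      (show CoOne (Out w) (B (some (false, w))) from hB (some (false, w)))
    have c1 : ∀ x : T, a x = 0 ↔ x.1 ∈ X := fun x => by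
      have := hc.ext x x.2
      rw [jx, ha2] at this
      exact eq_comm.trans this
    have c2 : ∀ y : T, b y = 0 ↔ y.1 ∈ B none := fun y => by
      have := hc.int _ ((hin _).2 (Or.inl ⟨y, rfl⟩))
      rw [τ1, hb2] at this
      simp only [mem_diff, mem_singleton_iff] at this
      have h0 : 0 ∈ Out y := Or.inl rfl
      constructor
      · intro h; by_contra h'; exact (this.2 h').2 h.symm
      · intro h; by_contra h'; exact this.1 ⟨h0, fun h'' => h' h''.symm⟩ h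
    have c3 : ∀ v w : T, R v w → (v.1 + 1 = a w ↔ w.1 + 1 = b v) := fun v w hr => by
      have := hc.int _ ((hin _).2 (Or.inr (Or.inr ⟨v, w, hr, Or.inr rfl⟩)))
      rw [τ3] at this
      simp only [Bool.not_false, ha2, hb2, mem_diff, mem_singleton_iff] at this
      have h0 : w.1 + 1 ∈ Out v := Or.inr ⟨w, w.2, hr, rfl⟩
      tauto
    let π : ℕ → ℕ := fun v => if h : v ∈ T then b ⟨v, h⟩ - 1 else 0
    have p1 : ∀ v : T, v.1 ∉ B none → ∃ w : T, R v w ∧ b v = w.1 + 1 ∧ π v = w := by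
      intro v hv
      rcases hb1 v with h | ⟨w, hw, h1, h2⟩
      · exact absurd ((c2 v).1 h) hv
      · exact ⟨⟨w, hw⟩, h1, h2, by simp [π, h2]⟩
    refine ⟨hc.sub, B none, hY, π, ⟨fun v hv => ?_, fun v hv v' hv' h => ?_, fun w hw => ?_⟩,
      fun v hv => ?_⟩
    · obtain ⟨w, h1, h2, h3⟩ := p1 ⟨v, hv.1⟩ hv.2
      rw [h3]
      refine ⟨w.2, fun h => ?_⟩
      have := (c3 _ w h1).2 h2.symm
      rw [(c1 w).2 h] at this
      omega
    · obtain ⟨w, h1, h2, h3⟩ := p1 ⟨v, hv.1⟩ hv.2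
      obtain ⟨w', h1', h2', h3'⟩ := p1 ⟨v', hv'.1⟩ hv'.2
      obtain rfl : w = w' := Subtype.ext (h3.symm.trans (h.trans h3'))
      have e1 := (c3 _ w h1).2 h2.symm
      have e2 := (c3 _ w h1').2 h2'.symm
      simp only at e1 e2
      omega
    · rcases ha1 ⟨w, hw.1⟩ with h | ⟨v, hv, h1, h2⟩
      · exact absurd ((c1 _).1 h) hw.2
      · have := (c3 ⟨v, hv⟩ ⟨w, hw.1⟩ h1).1 h2.symm
        refine ⟨v, ⟨hv, fun h => ?_⟩, by simp [π, hv, ← this]⟩
        rw [(c2 ⟨v, hv⟩).2 h] at this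
        omega
    · obtain ⟨w, h1, h2, h3⟩ := p1 ⟨v, hv.1⟩ hv.2
      rw [h3]; exact h1

theorem Net.pf' (hS : Adm S) {T E A : Set ℕ} (hT : T.Finite) (hE : E ⊆ T) (hA : A ⊆ T) {F : Sys}
    (h : Net S E F) (Γ : ℕ → ℕ → Prop) :
    Net S A (fun X => X ⊆ A ∧ ∃ Y, F Y ∧ BPF T Γ X Y) := by
  have h1 := h.sum (net_fixed hS (hT.subset diff_subset) (empty_subset (T \ E))) disjoint_sdiff_right
  rw [union_diff_cancel hE] at h1
  have h2 : Net S T F := h1.congr fun X => ⟨fun hX => ⟨(h.sub hX).trans hE,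
    by rwa [inter_eq_left.2 (h.sub hX)], by
      ext x; exact ⟨fun hx => hx.2.2 (h.sub hX hx.1), fun hx => hx.elim⟩⟩, fun hX => by
      have : X ∩ E = X := inter_eq_left.2 fun x hx => by
        by_contra hn
        exact (hX.2.2.subset ⟨hx, hX.1 hx, hn⟩).elim
      rw [← this]; exact hX.2.1⟩
  refine ((h2.pf hS hT Γ).fix hS hT hA (empty_subset _)).congr fun X => ?_
  simp only [union_empty]
  exact ⟨fun h => ⟨h.1, h.1.trans hA, h.2⟩, fun h => ⟨h.1, h.2.2⟩⟩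

theorem Net.trunc (hS : Adm S) {A : Set ℕ} (hA : A.Finite) {F : Sys} (h : Net S A F) :
    Net S A (fun X => ∃ B, F B ∧ ∃ x ∈ B, X = B \ {x}) := by
  obtain ⟨z, hz⟩ := hA.infinite_compl.nonempty
  have hT : (insert z A).Finite := hA.insert z
  have h1 := h.pf' hS hT (subset_insert _ _) subset_rfl (fun u _ => u = z)
  refine (h1.fix hS hT (subset_insert _ _) (J := {z}) (by simpa using hz)).congr fun X => ⟨?_, ?_⟩
  · rintro ⟨B, hB, x, hx, rfl⟩
    have hBA := h.sub hB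
    have hxz : x ≠ z := fun h => hz (h ▸ hBA hx)
    refine ⟨diff_subset.trans hBA, ?_, B, hB, fun v => if v = z then x else v,
      ⟨fun v hv => ?_, fun v hv w hw h => ?_, fun w hw => ?_⟩, fun v hv => ?_⟩
    · exact union_subset (diff_subset.trans (hBA.trans (subset_insert _ _))) (by simp)
    · by_cases h : v = z
      · simp [h, hxz, hBA hx]
      · simp [h, hv.2, hv.1.resolve_left h]
    · by_cases h1 : v = z <;> by_cases h2 : w = z <;> simp only [h1, h2, if_true, if_false] at h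
      · rw [h1, h2]
      · exact absurd (h ▸ hx) hw.2
      · exact absurd (h ▸ hx) hv.2
      · exact h
    · by_cases h : w = x
      · exact ⟨z, ⟨Or.inl rfl, fun h => hz (hBA h)⟩, by simp [h]⟩
      · have h2 : w ≠ z := fun h => hw.2 (Or.inr h)
        exact ⟨w, ⟨hw.1, fun h' => hw.2 (Or.inl ⟨h', h⟩)⟩, by simp [h2]⟩
    · by_cases h : v = z <;> simp [h]
  · rintro ⟨hX, -, B, hB, π, hπ, hR⟩
    have hBA := h.sub hB
    have hzB : z ∈ insert z A \ B := ⟨Or.inl rfl, fun h => hz (hBA h)⟩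
    have id : ∀ v ∈ insert z A \ B, v ≠ z → π v = v := fun v hv h => (hR v hv).resolve_right h
    have h2 := hπ.mapsTo hzB
    have h3 : π z ≠ z := fun h => h2.2 (Or.inr h)
    refine ⟨B, hB, π z, ?_, ?_⟩
    · by_contra hn
      exact h3 (hπ.injOn ⟨h2.1, hn⟩ hzB (id _ ⟨h2.1, hn⟩ h3))
    · ext y
      constructor
      · intro hy
        have hyz : y ≠ z := fun h => hz (h ▸ hX hy)
        refine ⟨by_contra fun hn => ?_, fun h => h2.2 (Or.inl (h ▸ hy))⟩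
        have := hπ.mapsTo (x := y) ⟨Or.inr (hX hy), hn⟩
        rw [id y ⟨Or.inr (hX hy), hn⟩ hyz] at this
        exact this.2 (Or.inl hy)
      · rintro ⟨hy, hne⟩
        by_contra hn
        have hyz : y ≠ z := fun h => hz (h ▸ hBA hy)
        obtain ⟨v, hv, h4⟩ := hπ.surjOn (show y ∈ insert z A \ (X ∪ {z}) from
          ⟨Or.inr (hBA hy), fun h => h.elim hn hyz⟩)
        by_cases h5 : v = z
        · exact hne (by rw [← h4, h5]; rfl)
        · rw [id v hv h5] at h4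
          exact hv.2 (h4 ▸ hy)

end

end Pool.Agent.H26.Comp
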