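import Pool.Agent.H26.NetC

namespace Pool.Agent.H26.Comp

open Set Classical

noncomputable section

def PF (T : Set ℕ) (Γ : ℕ → ℕ → Prop) (X Y : Set ℕ) : Prop :=
  ∃ π : ℕ → ℕ, MapsTo π (T \ Y) (T \ X) ∧ InjOn π (T \ Y) ∧ ∀ v ∈ T \ Y, π v = v ∨ Γ v (π v)

variable {T X Y : Set ℕ} {Γ : ℕ → ℕ → Prop}

theorem Linked.ncard (h : Linked Γ X Y) : Y.ncard = X.ncard := by
  obtain ⟨len, p, -, -, h3, rfl⟩ := h
  exact ncard_image_of_injOn fun x hx y hy h => (h3 x hx y hy _ le_rfl _ le_rfl h).1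

theorem Linked.pf (hΓ : ∀ u v, Γ u v → u ∈ T ∧ v ∈ T) (h : Linked Γ X Y) :
    PF T Γ X Y := by
  obtain ⟨len, p, h1, h2, h3, rfl⟩ := h
  let π : ℕ → ℕ := fun v => if h : ∃ z : ℕ × ℕ, z.1 ∈ X ∧ z.2 < len z.1 ∧ p z.1 z.2 = v then
    p h.choose.1 (h.choose.2 + 1) else v
  have e1 : ∀ x ∈ X, ∀ i < len x, π (p x i) = p x (i + 1) := by
    intro x hx i hi
    have hex : ∃ z : ℕ × ℕ, z.1 ∈ X ∧ z.2 < len z.1 ∧ p z.1 z.2 = p x i := ⟨(x, i), hx, hi, rfl⟩
    have : π (p x i) = p hex.choose.1 (hex.choose.2 + 1) := dif_pos hex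
    obtain ⟨a, b, c⟩ := hex.choose_spec
    obtain ⟨d, e⟩ := h3 _ a x hx _ b.le _ hi.le c
    rw [this, d, e]
  have e2 : ∀ v ∈ T \ (fun x => p x (len x)) '' X, (∃ x ∈ X, ∃ i < len x, v = p x i) ∨
      (π v = v ∧ ∀ x ∈ X, ∀ i ≤ len x, p x i ≠ v) := by
    intro v hv
    by_cases h : ∃ z : ℕ × ℕ, z.1 ∈ X ∧ z.2 < len z.1 ∧ p z.1 z.2 = v
    · obtain ⟨z, a, b, c⟩ := h
      exact Or.inl ⟨z.1, a, z.2, b, c.symm⟩
    · refine Or.inr ⟨dif_neg h, fun x hx i hi he => ?_⟩
      rcases hi.eq_or_lt with rfl | hi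
      · exact hv.2 ⟨x, hx, he⟩
      · exact h ⟨(x, i), hx, hi, he⟩
  refine ⟨π, fun v hv => ?_, fun v hv w hw h => ?_, fun v hv => ?_⟩
  · rcases e2 v hv with ⟨x, hx, i, hi, rfl⟩ | ⟨a, b⟩
    · rw [e1 x hx i hi]
      refine ⟨(hΓ _ _ (h2 x hx i hi)).2, fun h => ?_⟩
      have := (h3 _ h x hx 0 (Nat.zero_le _) _ hi (h1 _ h)).2
      omega
    · rw [a]; exact ⟨hv.1, fun h => b v h 0 (Nat.zero_le _) (h1 v h)⟩
  · rcases e2 v hv with ⟨x, hx, i, hi, rfl⟩ | ⟨a, b⟩ <;>
      rcases e2 w hw with ⟨y, hy, k, hk, rfl⟩ | ⟨c, d⟩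
    · rw [e1 x hx i hi, e1 y hy k hk] at h
      obtain ⟨rfl, h4⟩ := h3 x hx y hy _ hi _ hk h
      obtain rfl : i = k := by omega
      rfl
    · rw [e1 x hx i hi, c] at h
      exact absurd h (d x hx _ hi)
    · rw [e1 y hy k hk, a] at h
      exact absurd h.symm (b y hy _ hk)
    · rwa [a, c] at h
  · rcases e2 v hv with ⟨x, hx, i, hi, rfl⟩ | ⟨a, b⟩
    · rw [e1 x hx i hi]; exact Or.inr (h2 x hx i hi)
    · exact Or.inl a

theorem Linked.sub (hΓ : ∀ u v, Γ u v → u ∈ T ∧ v ∈ T) (hX : X ⊆ T) (h : Linked Γ X Y) :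
    Y ⊆ T := by
  obtain ⟨len, p, h1, h2, h3, rfl⟩ := h
  rintro _ ⟨x, hx, rfl⟩
  rcases h : len x with _ | n
  · simp only [h, h1 x hx, hX hx]
  · simp only [h]
    exact (hΓ _ _ (h2 x hx n (by omega))).2

theorem PF.linked (hT : T.Finite) (hX : X ⊆ T) (h : PF T Γ X Y) : ∃ Y' ⊆ Y, Linked Γ X Y' := by
  obtain ⟨π, h1, h2, h3⟩ := h
  have mem : ∀ x ∈ X, ∀ i, (∀ m < i, π^[m] x ∉ Y) → π^[i] x ∈ T := by
    intro x hx i
    induction i with
    | zero => exact fun _ => hX hx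
    | succ i ih =>
      intro h
      rw [Function.iterate_succ_apply']
      exact (h1 ⟨ih fun m hm => h m (by omega), h i (by omega)⟩).1
  have key : ∀ x ∈ X, ∀ y ∈ X, ∀ i k, (∀ m < i, π^[m] x ∉ Y) → (∀ m < k, π^[m] y ∉ Y) →
      π^[i] x = π^[k] y → x = y ∧ i = k := by
    intro x hx y hy i
    induction i with
    | zero =>
      rintro (_ | k) _ hk h
      · exact ⟨h, rfl⟩
      · rw [Function.iterate_succ_apply'] at h
        exact absurd hx (by
          rw [show x = _ from h]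
          exact (h1 ⟨mem y hy k fun m hm => hk m (by omega), hk k (by omega)⟩).2)
    | succ i ih =>
      have hi' : (∀ m < i + 1, π^[m] x ∉ Y) → π^[i] x ∈ T \ Y :=
        fun hi => ⟨mem x hx i fun m hm => hi m (by omega), hi i (by omega)⟩
      rintro (_ | k) hi hk h
      · rw [Function.iterate_succ_apply'] at h
        exact absurd hy (by rw [← show _ = y from h]; exact (h1 (hi' hi)).2)
      · rw [Function.iterate_succ_apply', Function.iterate_succ_apply'] at h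
        have := ih k (fun m hm => hi m (by omega)) (fun m hm => hk m (by omega))
          (h2 (hi' hi) ⟨mem y hy k fun m hm => hk m (by omega), hk k (by omega)⟩ h)
        exact ⟨this.1, by omega⟩
  have ex : ∀ x ∈ X, ∃ n, π^[n] x ∈ Y := by
    intro x hx
    by_contra hn
    push Not at hn
    exact hT.not_infinite (infinite_of_injective_forall_mem (f := fun n => π^[n] x)
      (fun a b h => (key x hx x hx a b (fun m _ => hn m) (fun m _ => hn m) h).2)
      (fun n => mem x hx n fun m _ => hn m))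
  let len : ℕ → ℕ := fun x => if h : x ∈ X then Nat.find (ex x h) else 0
  have l1 : ∀ x ∈ X, π^[len x] x ∈ Y := fun x hx => by
    simp only [len, dif_pos hx]; exact Nat.find_spec (ex x hx)
  have l2 : ∀ x ∈ X, ∀ m < len x, π^[m] x ∉ Y := fun x hx m hm => by
    simp only [len, dif_pos hx] at hm; exact Nat.find_min (ex x hx) hm
  refine ⟨_, ?_, len, fun x i => π^[i] x, fun _ _ => rfl, fun x hx i hi => ?_,
    fun x hx y hy i hi k hk h => key x hx y hy i k (fun m hm => l2 x hx m (by omega))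
      (fun m hm => l2 y hy m (by omega)) h, rfl⟩
  · rintro _ ⟨x, hx, rfl⟩; exact l1 x hx
  · simp only [Function.iterate_succ_apply']
    refine (h3 _ ⟨mem x hx i fun m hm => l2 x hx m (by omega), l2 x hx i hi⟩).resolve_left
      fun h => ?_
    have := (key x hx x hx (i + 1) i (fun m hm => l2 x hx m (by omega))
      (fun m hm => l2 x hx m (by omega)) (by rw [Function.iterate_succ_apply', h])).2
    omega

theorem PF.bpf (hT : T.Finite) (hX : X ⊆ T) (hY : Y ⊆ T) (hc : Y.ncard = X.ncard)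
    (h : PF T Γ X Y) : BPF T Γ X Y := by
  obtain ⟨π, h1, h2, h3⟩ := h
  refine ⟨π, ⟨h1, h2, ?_⟩, h3⟩
  have : π '' (T \ Y) = T \ X := by
    refine eq_of_subset_of_ncard_le h1.image_subset ?_ (hT.subset diff_subset)
    rw [ncard_image_of_injOn h2, ncard_diff hX (hT.subset hX), ncard_diff hY (hT.subset hY), hc]
  exact this.symm.subset

theorem BPF.pf (h : BPF T Γ X Y) : PF T Γ X Y := by
  obtain ⟨π, h1, h2⟩ := h
  exact ⟨π, h1.mapsTo, h1.injOn, h2⟩

theorem BPF.ncard (hT : T.Finite) (hX : X ⊆ T) (hY : Y ⊆ T) (h : BPF T Γ X Y) :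
    Y.ncard = X.ncard := by
  obtain ⟨π, h1, -⟩ := h
  have := h1.ncard_eq
  have a := ncard_le_ncard hX hT
  have b := ncard_le_ncard hY hT
  rw [ncard_diff hX (hT.subset hX), ncard_diff hY (hT.subset hY)] at this
  omega

theorem base_iff {M : Matroid ℕ} (hM : M.E.Finite) {B X : Set ℕ} (hB : M.IsBase B) :
    M.IsBase X ↔ M.Indep X ∧ X.ncard = B.ncard := by
  refine ⟨fun h => ⟨h.indep, h.ncard_eq_ncard_of_isBase hB⟩, fun ⟨h1, h2⟩ => ?_⟩
  obtain ⟨B', h3, h4⟩ := h1.exists_isBase_superset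
  rwa [eq_of_subset_of_ncard_le h4 (by rw [h2, h3.ncard_eq_ncard_of_isBase hB])
    (hM.subset h3.subset_ground)]

variable {S : Set (Matroid ℕ)}

def KK (S : Set (Matroid ℕ)) : Set (Matroid ℕ) := {M | M.E.Finite ∧ Net S M.E M.IsBase}

theorem net_lvl (hS : Adm S) {M : Matroid ℕ} (hM : M ∈ KK S) {I : Set ℕ} (hI : M.Indep I) :
    Net S M.E (fun X => M.Indep X ∧ X.ncard = I.ncard) := by
  obtain ⟨B, hB, hIB⟩ := hI.exists_isBase_superset
  have key : ∀ d k, k + d = B.ncard → Net S M.E (fun X => M.Indep X ∧ X.ncard = k) := by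
    intro d
    induction d with
    | zero => intro k hk; exact hM.2.congr fun X => by rw [base_iff hM.1 hB, ← hk]; rfl
    | succ d ih =>
      intro k hk
      refine ((ih (k + 1) (by omega)).trunc hS hM.1).congr fun X => ⟨?_, ?_⟩
      · rintro ⟨h1, h2⟩
        obtain ⟨B', h3, h4⟩ := h1.exists_isBase_superset
        have hne : ¬ B' ⊆ X := fun h => by
          have := ncard_le_ncard h (hM.1.subset h1.subset_ground)
          rw [h3.ncard_eq_ncard_of_isBase hB] at this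
          omega
        obtain ⟨x, hx, hxX⟩ := not_subset.1 hne
        refine ⟨insert x X, ⟨h3.indep.subset (insert_subset hx h4), ?_⟩, x, Or.inl rfl, by
          simp [hxX]⟩
        rw [ncard_insert_of_notMem hxX (hM.1.subset h1.subset_ground), h2]
      · rintro ⟨B', ⟨h1, h2⟩, x, hx, rfl⟩
        refine ⟨h1.subset diff_subset, ?_⟩
        rw [ncard_diff_singleton_of_mem hx, h2]; rfl
  have := ncard_le_ncard hIB (hM.1.subset hB.subset_ground)
  exact key (B.ncard - I.ncard) _ (by omega)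

theorem kk_restr (hS : Adm S) {M : Matroid ℕ} (hM : M ∈ KK S) {R : Set ℕ} (hR : R ⊆ M.E) :
    M.restrict R ∈ KK S := by
  obtain ⟨I, hI⟩ := M.exists_isBasis R hR
  obtain ⟨B, hB, hIB⟩ := hI.exists_isBase
  have fB := hM.1.subset hB.subset_ground
  have hc : I.ncard + (B \ R).ncard = B.ncard := by
    rw [hIB]; exact ncard_inter_add_ncard_diff_eq_ncard B R fB
  have hI' : (M.restrict R).IsBase I := hI.restrict_isBase
  refine ⟨hM.1.subset hR, (hM.2.fix hS hM.1 hR (J := B \ R)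
    (diff_subset_diff_left hB.subset_ground)).congr fun X => ⟨fun hX => ?_, fun ⟨h1, h2⟩ => ?_⟩⟩
  · have h0 := hX.ncard_eq_ncard_of_isBase hI'
    rw [Matroid.isBase_restrict_iff hR] at hX
    obtain ⟨B', h1, h2, h3⟩ := hX.indep.exists_isBase_subset_union_isBase hB
    have h4 := hX.inter_eq_of_subset_indep h2 h1.indep
    have h5 : B' ⊆ X ∪ B \ R := fun x hx => by
      by_cases h : x ∈ R
      · exact Or.inl (h4 ▸ ⟨hx, h⟩)
      · exact (h3 hx).imp_right fun h' => ⟨h', h⟩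
    refine ⟨hX.subset, ?_⟩
    rwa [← eq_of_subset_of_ncard_le h5 ((ncard_union_le _ _).trans (by
      rw [h0, hc, h1.ncard_eq_ncard_of_isBase hB])) ((hM.1.subset hX.indep.subset_ground).union
        (fB.subset diff_subset))]
  · refine (base_iff (hM.1.subset hR) hI').2 ⟨?_, ?_⟩
    · exact Matroid.restrict_indep_iff.2 ⟨h2.indep.subset subset_union_left, h1⟩
    · have := h2.ncard_eq_ncard_of_isBase hB
      rw [ncard_union_eq (disjoint_left.2 fun x hx h => h.2 (h1 hx)) (hM.1.subset (h1.trans hR))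
        (fB.subset diff_subset)] at this
      omega

theorem kk_dual (hS : Adm S) {M : Matroid ℕ} (hM : M ∈ KK S) : M.dual ∈ KK S :=
  ⟨hM.1, (hM.2.dual hS.dual).congr fun X => by rw [Matroid.dual_isBase_iff', and_comm]⟩

theorem kk_complete (hS : Adm S) : Complete (KK S) where
  finite M h := h.1
  iso M h f hf := ⟨h.1.image f, (h.2.relabel hf).congr fun X => by simp⟩
  restr M h A hA := kk_restr hS h hA
  contr M h A hA := kk_dual hS (kk_restr hS (kk_dual hS h) diff_subset)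
  dual M h := kk_dual hS h
  sum M h N h' hd := by
    constructor
    · rw [Matroid.disjointSum_ground_eq]; exact h.1.union h'.1
    · rw [Matroid.disjointSum_ground_eq]
      refine (h.2.sum h'.2 hd).congr fun X => ?_
      rw [Matroid.disjointSum_isBase_iff]; tauto
  trunc M h k N hE hN := by
    obtain ⟨B, hB⟩ := N.exists_isBase
    have fN : N.E.Finite := hE ▸ h.1
    have h1 := (hN B).1 hB.indep
    refine ⟨fN, hE ▸ (net_lvl hS h h1.1).congr fun X => ?_⟩
    rw [base_iff fN hB, hN]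
    exact ⟨fun h => ⟨h.1.1, h.2⟩, fun h => ⟨⟨h.1, h.2 ▸ h1.2⟩, h.2⟩⟩
  ind M h N := by
    rintro ⟨T, Γ, hT, hΓ, h1, h2, h3⟩
    obtain ⟨B, hB⟩ := N.exists_isBase
    have fN : N.E.Finite := hT.subset h2
    obtain ⟨-, Y, hY, hl⟩ := (h3 B).1 hB.indep
    refine ⟨fN, ((net_lvl hS h hY).pf' hS hT h1 h2 Γ).congr fun X => ?_⟩
    rw [base_iff fN hB, h3, hl.ncard]
    constructor
    · rintro ⟨⟨a, Y', b, c⟩, d⟩
      exact ⟨a, Y', ⟨b, c.ncard.trans d⟩, (c.pf hΓ).bpf hT (a.trans h2)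
        (b.subset_ground.trans h1) c.ncard⟩
    · rintro ⟨a, Y', ⟨b, c⟩, d⟩
      obtain ⟨Y'', e, f⟩ := d.pf.linked hT (a.trans h2)
      exact ⟨⟨a, Y'', b.subset e, f⟩,
        (d.ncard hT (a.trans h2) (b.subset_ground.trans h1)).symm.trans c⟩

end

end Pool.Agent.H26.Comp
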