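import Pool.Agent.H26.NetD

namespace Pool.Agent.H26.Comp

open Classical

noncomputable section

theorem rado {H : Type} [DecidableEq H] (r : Finset H → ℕ) (mono : ∀ X Y, X ⊆ Y → r X ≤ r Y)
    (sub : ∀ X Y, r (X ∪ Y) + r (X ∩ Y) ≤ r X + r Y) (r0 : r ∅ = 0) (J : Finset H) :
    ∀ (n : ℕ) (A : H → Finset H), ∑ h ∈ J, (A h).card = n →
      (∀ K ⊆ J, K.card ≤ r (K.biUnion A)) →
      ∃ a : H → H, (∀ h ∈ J, a h ∈ A h) ∧ J.card ≤ r (J.image a) := by
  intro n
  induction n using Nat.strong_induction_on with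
  | _ n ih =>
  intro A hn hA
  by_cases h : ∃ g ∈ J, ∃ x ∈ A g, ∃ y ∈ A g, x ≠ y
  · obtain ⟨g, hg, x, hx, y, hy, hxy⟩ := h
    have step : ∀ z ∈ A g, (∀ K ⊆ J, K.card ≤ r (K.biUnion (Function.update A g ((A g).erase z)))) →
        ∃ a : H → H, (∀ h ∈ J, a h ∈ A h) ∧ J.card ≤ r (J.image a) := by
      intro z hz hK
      have hle : ∀ h, Function.update A g ((A g).erase z) h ⊆ A h := by
        intro h
        by_cases e : h = g
        · subst e; simp [Finset.erase_subset]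
        · simp [e]
      obtain ⟨a, h1, h2⟩ := ih _ (by
        rw [← hn]
        exact Finset.sum_lt_sum (fun h _ => Finset.card_le_card (hle h))
          ⟨g, hg, by simpa using Finset.card_erase_lt_of_mem hz⟩) _ rfl hK
      exact ⟨a, fun h hh => hle h (h1 h hh), h2⟩
    by_contra hcon
    have bad : ∀ z ∈ A g, ∃ K ⊆ J, g ∉ K ∧ r (K.biUnion A ∪ (A g).erase z) ≤ K.card := by
      intro z hz
      have := mt (step z hz) hcon
      push Not at this
      obtain ⟨K, hK, h1⟩ := this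
      have e : ∀ L : Finset H, g ∉ L →
          L.biUnion (Function.update A g ((A g).erase z)) = L.biUnion A := fun L hL =>
        Finset.biUnion_congr rfl fun h hh => by
          rw [Function.update_of_ne (fun e : h = g => hL (e ▸ hh))]
      by_cases hgK : g ∈ K
      · refine ⟨K.erase g, (Finset.erase_subset _ _).trans hK, by simp, ?_⟩
        rw [← Finset.insert_erase hgK, Finset.biUnion_insert, e _ (by simp),
          Function.update_self, Finset.card_insert_of_notMem (by simp), Finset.union_comm] at h1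
        omega
      · rw [e K hgK] at h1
        exact absurd (hA K hK) (by omega)
    obtain ⟨K1, a1, b1, c1⟩ := bad x hx
    obtain ⟨K2, a2, b2, c2⟩ := bad y hy
    have s := sub (K1.biUnion A ∪ (A g).erase x) (K2.biUnion A ∪ (A g).erase y)
    have m1 := (hA (insert g (K1 ∪ K2)) (Finset.insert_subset hg (Finset.union_subset a1 a2))).trans
      (mono _ (K1.biUnion A ∪ (A g).erase x ∪ (K2.biUnion A ∪ (A g).erase y)) (by
        intro w hw
        simp only [Finset.mem_biUnion, Finset.mem_insert, Finset.mem_union, Finset.mem_erase] at hw ⊢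
        obtain ⟨k, rfl | hk | hk, hw⟩ := hw
        · by_cases e : w = x
          · exact Or.inr (Or.inr ⟨e ▸ hxy, hw⟩)
          · exact Or.inl (Or.inr ⟨e, hw⟩)
        · exact Or.inl (Or.inl ⟨k, hk, hw⟩)
        · exact Or.inr (Or.inl ⟨k, hk, hw⟩)))
    have m2 := (hA (K1 ∩ K2) (Finset.inter_subset_left.trans a1)).trans
      (mono _ ((K1.biUnion A ∪ (A g).erase x) ∩ (K2.biUnion A ∪ (A g).erase y)) (by
        intro w hw
        simp only [Finset.mem_biUnion, Finset.mem_inter, Finset.mem_union] at hw ⊢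
        obtain ⟨k, ⟨h1, h2⟩, hw⟩ := hw
        exact ⟨Or.inl ⟨k, h1, hw⟩, Or.inl ⟨k, h2, hw⟩⟩))
    rw [Finset.card_insert_of_notMem (by simp [b1, b2])] at m1
    have := Finset.card_union_add_card_inter K1 K2
    omega
  · push Not at h
    have ne : ∀ g, ∃ x, g ∈ J → x ∈ A g := by
      intro g
      by_cases hg : g ∈ J
      · have := hA {g} (by simpa using hg)
        rcases (A g).eq_empty_or_nonempty with e | ⟨x, hx⟩
        · simp [e, r0] at this
        · exact ⟨x, fun _ => hx⟩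
      · exact ⟨g, fun h => absurd h hg⟩
    choose a ha using ne
    refine ⟨a, ha, (hA J subset_rfl).trans (mono _ _ fun w hw => ?_)⟩
    obtain ⟨g, hg, hw⟩ := Finset.mem_biUnion.1 hw
    exact Finset.mem_image.2 ⟨g, hg, h g hg _ (ha g hg) _ hw⟩

def rk (M : Matroid ℕ) (Y : Set ℕ) : ℕ := (M.eRk Y).toNat

theorem rk_cast {M : Matroid ℕ} (hM : M.E.Finite) (Y : Set ℕ) : (rk M Y : ℕ∞) = M.eRk Y :=
  ENat.coe_toNat (ne_top_of_le_ne_top hM.encard_lt_top.ne
    ((M.eRk_le_eRank Y).trans M.eRank_le_encard_ground))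

theorem rk_mono {M : Matroid ℕ} (hM : M.E.Finite) {X Y : Set ℕ} (h : X ⊆ Y) : rk M X ≤ rk M Y := by
  have := M.eRk_mono h
  rw [← rk_cast hM, ← rk_cast hM] at this
  exact_mod_cast this

theorem rk_sub {M : Matroid ℕ} (hM : M.E.Finite) (X Y : Set ℕ) :
    rk M (X ∪ Y) + rk M (X ∩ Y) ≤ rk M X + rk M Y := by
  have := M.eRk_inter_add_eRk_union_le X Y
  simp only [← rk_cast hM] at this
  have h : rk M (X ∩ Y) + rk M (X ∪ Y) ≤ rk M X + rk M Y := by exact_mod_cast this
  omega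

theorem rk_attain {M : Matroid ℕ} (Y : Set ℕ) :
    ∃ B, M.IsBase B ∧ (B ∩ Y).ncard = rk M Y := by
  obtain ⟨I, hI⟩ := M.exists_isBasis' Y
  obtain ⟨B, hB, hIB⟩ := hI.indep.exists_isBase_superset
  exact ⟨B, hB, by rw [hI.inter_eq_of_subset_indep hIB hB.indep, rk, hI.eRk_eq_encard]; rfl⟩

theorem rk_ge {M : Matroid ℕ} (hM : M.E.Finite) {B : Set ℕ} (hB : M.IsBase B) (Y : Set ℕ) :
    (B ∩ Y).ncard ≤ rk M Y := by
  have := (hB.indep.inter_right Y).encard_le_eRk_of_subset Set.inter_subset_right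
  rw [← rk_cast hM, ← ((hM.subset hB.subset_ground).inter_of_left Y).cast_ncard_eq] at this
  exact_mod_cast this

theorem rk_le {M : Matroid ℕ} {Y : Set ℕ} (hY : Y.Finite) : rk M Y ≤ Y.ncard := by
  obtain ⟨B, -, h⟩ := rk_attain (M := M) Y
  rw [← h]; exact Set.ncard_le_ncard Set.inter_subset_right hY

theorem rk_base {M : Matroid ℕ} (hM : M.E.Finite) {B Y : Set ℕ} (hB : M.IsBase B) (hY : Y.Finite) :
    rk M Y ≤ B.ncard ∧ (Y.ncard ≤ rk M Y → B.ncard ≤ rk M Y → M.IsBase Y) := by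
  obtain ⟨B', h1, h2⟩ := rk_attain (M := M) Y
  have f := hM.subset h1.subset_ground
  rw [← h2, hB.ncard_eq_ncard_of_isBase h1]
  refine ⟨Set.ncard_le_ncard Set.inter_subset_left f, fun a b => ?_⟩
  rw [← Set.eq_of_subset_of_ncard_le Set.inter_subset_right a hY,
    Set.eq_of_subset_of_ncard_le Set.inter_subset_left b f]
  exact h1

section

variable {ι : Type} [Fintype ι]

def fib (Y : Finset (ι × ℕ)) (i : ι) : Set ℕ := {x | (i, x) ∈ Y}

omit [Fintype ι] in
theorem fib_fin (Y : Finset (ι × ℕ)) (i : ι) : (fib Y i).Finite :=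
  Y.finite_toSet.preimage (f := fun x => (i, x)) (fun _ _ _ _ h => congrArg Prod.snd h)

def cnt (B : ι → Set ℕ) (Y : Finset (ι × ℕ)) : ℕ := (Y.filter fun h => h.2 ∈ B h.1).card

theorem cnt_eq (B : ι → Set ℕ) (Y : Finset (ι × ℕ)) :
    cnt B Y = ∑ i, (B i ∩ fib Y i).ncard := by
  unfold cnt
  rw [Finset.card_eq_sum_card_fiberwise (f := Prod.fst) (t := Finset.univ) (by simp)]
  refine Finset.sum_congr rfl fun i _ => ?_
  rw [← Set.ncard_coe_finset]
  symm
  refine Set.ncard_congr (fun x _ => (i, x)) ?_ ?_ ?_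
  · intro x hx; simpa using ⟨hx.2, hx.1⟩
  · intro x y _ _ h; exact congrArg Prod.snd h
  · rintro ⟨k, x⟩ h
    simp only [Finset.coe_filter, Finset.mem_filter, Set.mem_setOf_eq] at h
    obtain ⟨⟨a, b⟩, rfl⟩ := h
    exact ⟨x, ⟨b, a⟩, rfl⟩

def rr (M : ι → Matroid ℕ) (Y : Finset (ι × ℕ)) : ℕ := ∑ i, rk (M i) (fib Y i)

theorem rr_mono {M : ι → Matroid ℕ} (hM : ∀ i, (M i).E.Finite) (X Y) (h : X ⊆ Y) :
    rr M X ≤ rr M Y := Finset.sum_le_sum fun i _ => rk_mono (hM i) fun _ hx => h hx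

theorem rr_sub {M : ι → Matroid ℕ} (hM : ∀ i, (M i).E.Finite) (X Y) :
    rr M (X ∪ Y) + rr M (X ∩ Y) ≤ rr M X + rr M Y := by
  unfold rr
  rw [← Finset.sum_add_distrib, ← Finset.sum_add_distrib]
  refine Finset.sum_le_sum fun i _ => ?_
  convert rk_sub (hM i) (fib X i) (fib Y i) using 3 <;> ext x <;> simp [fib]

theorem rr_empty (M : ι → Matroid ℕ) : rr M ∅ = 0 := by simp [rr, fib, rk]

theorem rr_le (M : ι → Matroid ℕ) (Y) : rr M Y ≤ Y.card := by
  have := cnt_eq (fun _ : ι => Set.univ) Y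
  simp only [cnt, Set.mem_univ, Finset.filter_true, Set.univ_inter] at this
  rw [this]
  exact Finset.sum_le_sum fun i _ => rk_le (fib_fin Y i)

def enc : ι × ℕ → ℕ := (exists_injective_nat (ι × ℕ)).choose

theorem enc_inj : Function.Injective (enc (ι := ι)) := (exists_injective_nat (ι × ℕ)).choose_spec

variable (E : ι → Set ℕ) (j : ℕ → ι × ℕ) (τ : ι × ℕ → ι × ℕ) (A : Set ℕ)

def Rp (h : ι × ℕ) : Prop := Inner E j A h ∧ enc h < enc (τ h)

def As (h : ι × ℕ) : Finset (ι × ℕ) := if Rp E j τ A h then {h, τ h} else {h}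

def Gd (X : Set ℕ) (h : ι × ℕ) : Prop := Rp E j τ A h ∨ h ∈ j '' X

def hat (Y : Finset (ι × ℕ)) : Finset (ι × ℕ) := Y.biUnion (As E j τ A)

variable {E j τ A}

theorem mem_As {h z : ι × ℕ} : z ∈ As E j τ A h ↔ z = h ∨ (Rp E j τ A h ∧ z = τ h) := by
  unfold As
  split_ifs with c <;> simp [c]

theorem As_disj (hw : WF E j τ A) {h h' z : ι × ℕ} (a : Gd E j τ A A h) (b : Gd E j τ A A h')
    (c : z ∈ As E j τ A h) (d : z ∈ As E j τ A h') : h = h' := by
  have key : ∀ u v, Gd E j τ A A u → Rp E j τ A v → u ≠ τ v := by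
    rintro u v (hu | ⟨x, hx, rfl⟩) hv e
    · have h1 := hu.2
      have h2 := hv.2
      rw [e, hw.invol v hv.1] at h1
      omega
    · exact (hw.inner v hv.1).2 x hx e
  rcases mem_As.1 c with rfl | ⟨c1, rfl⟩ <;> rcases mem_As.1 d with e | ⟨d1, e⟩
  · exact e
  · exact absurd e (key _ _ a d1)
  · exact absurd e.symm (key _ _ b c1)
  · rw [← hw.invol h c1.1, e, hw.invol h' d1.1]

theorem As_mem (hw : WF E j τ A) {h z : ι × ℕ} (a : Gd E j τ A A h) (c : z ∈ As E j τ A h) :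
    z.2 ∈ E z.1 := by
  rcases mem_As.1 c with rfl | ⟨c1, rfl⟩
  · rcases a with a | ⟨x, hx, rfl⟩
    · exact a.1.1
    · exact hw.mem x hx
  · exact (hw.inner h c1.1).1

theorem key1 (hw : WF E j τ A) {X : Set ℕ} {B : ι → Set ℕ} (hc : Con E j τ A X B)
    {Y : Finset (ι × ℕ)} (hY : ∀ h ∈ Y, Gd E j τ A A h) :
    cnt B (hat E j τ A Y) = (Y.filter (Gd E j τ A X)).card := by
  unfold cnt hat
  rw [Finset.filter_biUnion, Finset.card_biUnion, Finset.card_filter]
  · refine Finset.sum_congr rfl fun h hh => ?_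
    by_cases c : Rp E j τ A h
    · have h1 := hc.int h c.1
      have h2 : h ≠ τ h := fun e => by have := c.2; rw [← e] at this; omega
      rw [if_pos (show Gd E j τ A X h from Or.inl c), As, if_pos c, Finset.filter_insert, Finset.filter_singleton]
      by_cases d : h.2 ∈ B h.1 <;> simp [h1, d]
    · obtain ⟨x, hx, rfl⟩ := (hY h hh).resolve_left c
      rw [As, if_neg c, Finset.filter_singleton]
      have : Gd E j τ A X (j x) ↔ x ∈ X := by
        rw [Gd, hw.inj.mem_image_iff hc.sub hx]; tauto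
      by_cases d : x ∈ X <;> simp [this, hc.ext x hx, d]
  · intro h hh h' hh' hne
    refine Finset.disjoint_left.2 fun z a b => hne (As_disj hw (hY h hh) (hY h' hh')
      (Finset.mem_filter.1 a).1 (Finset.mem_filter.1 b).1)

theorem cover (hw : WF E j τ A) {X : Set ℕ} {B : ι → Set ℕ} (hc : Con E j τ A X B)
    {z : ι × ℕ} (hz : z.2 ∈ E z.1) : ∃ h, Gd E j τ A A h ∧ z ∈ As E j τ A h := by
  by_cases c : Inner E j A z
  · rcases lt_trichotomy (enc z) (enc (τ z)) with d | d | d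
    · exact ⟨z, Or.inl ⟨c, d⟩, mem_As.2 (Or.inl rfl)⟩
    · have := hc.int z c
      rw [← enc_inj d] at this
      tauto
    · have e : Rp E j τ A (τ z) := ⟨hw.inner z c, by rwa [hw.invol z c]⟩
      exact ⟨τ z, Or.inl e, mem_As.2 (Or.inr ⟨e, (hw.invol z c).symm⟩)⟩
  · refine ⟨z, Or.inr ?_, mem_As.2 (Or.inl rfl)⟩
    by_contra d
    exact c ⟨hz, fun x hx e => d ⟨x, hx, e⟩⟩

theorem gd_fin (hE : ∀ i, (E i).Finite) (hw : WF E j τ A) : {h | Gd E j τ A A h}.Finite := by
  refine (Set.finite_iUnion fun i => (hE i).image fun x => (i, x)).subset fun h hh => ?_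
  exact Set.mem_iUnion.2 ⟨h.1, h.2, As_mem hw hh (mem_As.2 (Or.inl rfl)), rfl⟩

theorem total (hE : ∀ i, (E i).Finite) (hw : WF E j τ A) {X : Set ℕ} {B : ι → Set ℕ}
    (hc : Con E j τ A X B) (hB : ∀ i, B i ⊆ E i) :
    ∑ i, (B i).ncard = ((gd_fin hE hw).toFinset.filter (Gd E j τ A X)).card := by
  rw [← key1 hw hc (by simp), cnt_eq]
  refine Finset.sum_congr rfl fun i _ => ?_
  rw [Set.inter_eq_left.2]
  intro x hx
  obtain ⟨h, a, b⟩ := cover hw hc (z := (i, x)) (hB i hx)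
  exact Finset.mem_biUnion.2 ⟨h, by simpa using a, b⟩

theorem total' (hE : ∀ i, (E i).Finite) (hw : WF E j τ A) {X : Set ℕ} (hX : X ⊆ A) :
    ((gd_fin hE hw).toFinset.filter (Gd E j τ A X)).card =
      {h | Rp E j τ A h}.ncard + X.ncard := by
  have f := gd_fin hE hw
  have d : Disjoint {h | Rp E j τ A h} (j '' X) := by
    refine Set.disjoint_left.2 ?_
    rintro _ h ⟨x, hx, rfl⟩
    exact h.1.2 x (hX hx) rfl
  rw [← Set.ncard_coe_finset, ← Set.ncard_image_of_injOn (hw.inj.mono hX), ← Set.ncard_union_eq d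
    (f.subset fun h hh => Or.inl hh) (f.subset fun h hh => Or.inr (Set.image_mono hX hh))]
  congr 1
  ext h
  simp only [Finset.coe_filter, Set.Finite.mem_toFinset, Set.mem_setOf_eq, Set.mem_union]
  exact ⟨fun h => h.2, fun h => ⟨h.imp_right fun h => Set.image_mono hX h, h⟩⟩

theorem key2 {M : ι → Matroid ℕ} (hE : ∀ i, (M i).E.Finite) (hw : WF (fun i => (M i).E) j τ A)
    {X0 X : Set ℕ} (h0 : Glue (fun i => (M i).E) (fun i => (M i).IsBase) j τ A X0) (hX : X ⊆ A)
    (hc : X.ncard = X0.ncard) (hn : ¬ Glue (fun i => (M i).E) (fun i => (M i).IsBase) j τ A X) :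
    ∃ Y : Finset (ι × ℕ), (∀ h ∈ Y, Gd (fun i => (M i).E) j τ A X h) ∧
      rr M (hat (fun i => (M i).E) j τ A Y) < Y.card := by
  by_contra hcon
  push Not at hcon
  obtain ⟨B0, hB0, hc0⟩ := h0
  set J := (gd_fin hE hw).toFinset.filter (Gd (fun i => (M i).E) j τ A X) with hJ
  have mJ : ∀ h, h ∈ J ↔ Gd (fun i => (M i).E) j τ A X h := fun h => by
    simp only [hJ, Finset.mem_filter, Set.Finite.mem_toFinset, Set.mem_setOf_eq]
    exact ⟨fun h => h.2, fun h => ⟨h.imp_right fun h => Set.image_mono hX h, h⟩⟩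
  have gA : ∀ h ∈ J, Gd (fun i => (M i).E) j τ A A h :=
    fun h hh => ((mJ h).1 hh).imp_right fun h => Set.image_mono hX h
  obtain ⟨a, ha, h1⟩ := rado (rr M) (rr_mono hE) (rr_sub hE) (rr_empty M) J _
    (As (fun i => (M i).E) j τ A) rfl (fun K hK => hcon K fun h hh => (mJ h).1 (hK hh))
  have h2 : J.card = ∑ i, (B0 i).ncard := by
    rw [total hE hw hc0 (fun i => (hB0 i).subset_ground), total' hE hw hc0.sub, hJ,
      total' hE hw hX, hc]
  have h3 := cnt_eq (fun _ : ι => Set.univ) (J.image a)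
  simp only [cnt, Set.mem_univ, Finset.filter_true, Set.univ_inter] at h3
  have h4 : (J.image a).card ≤ J.card := Finset.card_image_le
  have e1 := (Finset.sum_eq_sum_iff_of_le (s := Finset.univ)
    (fun i _ => rk_le (M := M i) (fib_fin (J.image a) i))).1
    (le_antisymm (by rw [← h3]; exact rr_le M _) (by rw [← h3]; exact h4.trans h1))
  have e2 := (Finset.sum_eq_sum_iff_of_le (s := Finset.univ)
    (fun i _ => (rk_base (hE i) (hB0 i) (fib_fin (J.image a) i)).1)).1
    (le_antisymm (Finset.sum_le_sum fun i _ => (rk_base (hE i) (hB0 i) (fib_fin _ i)).1)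
      (by rw [← h2]; exact h1))
  have mz : ∀ h ∈ J, ∀ z ∈ As (fun i => (M i).E) j τ A h, (z ∈ J.image a ↔ z = a h) := by
    intro h hh z hz
    refine ⟨fun c => ?_, fun c => c ▸ Finset.mem_image_of_mem a hh⟩
    obtain ⟨g, hg, rfl⟩ := Finset.mem_image.1 c
    rw [As_disj hw (gA g hg) (gA h hh) (ha g hg) hz]
  have pair : ∀ h, Rp (fun i => (M i).E) j τ A h → (τ h ∈ J.image a ↔ h ∉ J.image a) := by
    intro h c
    have hh := (mJ h).2 (Or.inl c)
    have h2 : h ≠ τ h := fun e => by have := c.2; rw [← e] at this; omega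
    rw [mz h hh _ (mem_As.2 (Or.inl rfl)), mz h hh _ (mem_As.2 (Or.inr ⟨c, rfl⟩))]
    rcases mem_As.1 (ha h hh) with e | ⟨-, e⟩ <;> rw [e] <;> simp [h2, h2.symm]
  refine hn ⟨fib (J.image a), fun i => (rk_base (hE i) (hB0 i) (fib_fin _ i)).2
    (e1 i (by simp)).ge (e2 i (by simp)).ge, hX, fun x hx => ⟨fun c => ?_, fun c => ?_⟩,
    fun h hh => ?_⟩
  · obtain ⟨g, hg, e⟩ := Finset.mem_image.1 (show j x ∈ J.image a from c)
    have := As_disj hw (gA g hg) (Or.inr ⟨x, hx, rfl⟩) (e ▸ ha g hg) (mem_As.2 (Or.inl rfl))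
    rcases (mJ g).1 hg with d | d
    · exact absurd this.symm (d.1.2 x hx)
    · rwa [this, hw.inj.mem_image_iff hX hx] at d
  · have hh := (mJ (j x)).2 (Or.inr ⟨x, c, rfl⟩)
    refine (mz _ hh _ (mem_As.2 (Or.inl rfl))).2 ?_
    rcases mem_As.1 (ha _ hh) with e | ⟨d, -⟩
    · exact e.symm
    · exact absurd rfl (d.1.2 x hx)
  · change τ h ∈ J.image a ↔ h ∉ J.image a
    obtain ⟨g, -, d⟩ := cover hw hc0 hh.1
    rcases lt_trichotomy (enc h) (enc (τ h)) with d | d | d
    · exact pair h ⟨hh, d⟩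
    · have := hc0.int h hh
      rw [← enc_inj d] at this
      tauto
    · have := pair (τ h) ⟨hw.inner h hh, by rwa [hw.invol h hh]⟩
      rw [hw.invol h hh] at this
      tauto

end

end

end Pool.Agent.H26.Comp
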