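import Pool.Agent.H26.NetE

namespace Pool.Agent.H26.Comp

open Classical

noncomputable section

theorem own {m : ℕ} {A : Set ℕ} (hA : A.Finite) {F : Sys}
    (h : Net {M | M.E.Finite ∧ M.E.ncard ≤ m} A F) {X0 : Set ℕ} (h0 : F X0) (c0 : X0.ncard = 3)
    (hp : ∀ p ∈ A, ∀ q ∈ A, ∃ X, F X ∧ p ∈ X ∧ q ∈ X) {κ : Type} (I : Finset κ)
    (L : κ → Finset ℕ) (l1 : ∀ k ∈ I, (L k).card = 3) (l2 : ∀ k ∈ I, ∀ x ∈ L k, x ∈ A ∧ x ∉ X0)
    (l3 : ∀ k ∈ I, ¬ F (L k))
    (l4 : ∀ k ∈ I, ∀ l ∈ I, k ≠ l → ∃ X : Finset ℕ, F X ∧ X.card = 3 ∧ X ⊆ L k ∪ L l) :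
    I.card ≤ A.ncard * m := by
  obtain ⟨ι, hι, M, j, τ, hM, hw, hF⟩ := h
  haveI := Fintype.ofFinite ι
  have hE : ∀ i, (M i).E.Finite := fun i => (hM i).1
  set E : ι → Set ℕ := fun i => (M i).E with hEdef
  obtain ⟨B0, hB0, hc0⟩ := (hF X0).1 h0
  let Ed : Finset (ι × ℕ) → Prop := fun Y => ∀ h ∈ Y, Gd E j τ A A h
  let f : Finset (ι × ℕ) → ℤ := fun Y => rr M (hat E j τ A Y) - (Y.filter (Rp E j τ A)).card
  have hatI : ∀ Y Z, Ed Y → Ed Z → hat E j τ A (Y ∩ Z) = hat E j τ A Y ∩ hat E j τ A Z := by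
    intro Y Z a b
    ext z
    simp only [hat, Finset.mem_biUnion, Finset.mem_inter]
    constructor
    · rintro ⟨g, ⟨h1, h2⟩, h3⟩; exact ⟨⟨g, h1, h3⟩, g, h2, h3⟩
    · rintro ⟨⟨g, h1, h3⟩, g', h2, h4⟩
      obtain rfl := As_disj hw (a g h1) (b g' h2) h3 h4
      exact ⟨g, ⟨h1, h2⟩, h3⟩
  have fs : ∀ Y Z, Ed Y → Ed Z → f (Y ∪ Z) + f (Y ∩ Z) ≤ f Y + f Z := by
    intro Y Z a b
    have h1 := rr_sub hE (hat E j τ A Y) (hat E j τ A Z)
    have h2 := Finset.card_union_add_card_inter (Y.filter (Rp E j τ A)) (Z.filter (Rp E j τ A))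
    rw [← Finset.filter_union, ← Finset.filter_inter_distrib] at h2
    have h3 : hat E j τ A (Y ∪ Z) = hat E j τ A Y ∪ hat E j τ A Z := Finset.union_biUnion
    simp only [f, hatI Y Z a b, h3]
    omega
  have split : ∀ X ⊆ A, ∀ Y : Finset (ι × ℕ), (Y.filter (Gd E j τ A X)).card =
      (Y.filter (Rp E j τ A)).card + (Y.filter (· ∈ j '' X)).card := by
    intro X hX Y
    rw [← Finset.card_union_of_disjoint, ← Finset.filter_or]
    · congr 1
      ext z
      simp [Gd]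
    · refine Finset.disjoint_filter.2 ?_
      rintro _ - a ⟨x, hx, rfl⟩
      exact a.1.2 x (hX hx) rfl
  have fl : ∀ X, F X → ∀ Y, Ed Y → ∀ Z : Finset ℕ, (∀ x ∈ Z, x ∈ X ∧ j x ∈ Y) →
      (Z.card : ℤ) ≤ f Y := by
    intro X hX Y hY Z hZ
    obtain ⟨B, hB, hc⟩ := (hF X).1 hX
    have h1 := key1 hw hc hY
    rw [cnt_eq, split X hc.sub] at h1
    have h2 : ∑ i, (B i ∩ fib (hat E j τ A Y) i).ncard ≤ rr M (hat E j τ A Y) :=
      Finset.sum_le_sum fun i _ => rk_ge (hE i) (hB i) _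
    have h3 : Z.card ≤ (Y.filter (· ∈ j '' X)).card :=
      Finset.card_le_card_of_injOn j
        (fun x hx => by simpa using ⟨(hZ x hx).2, x, (hZ x hx).1, rfl⟩)
        (fun x hx y hy e => hw.inj (hc.sub (hZ x hx).1) (hc.sub (hZ y hy).1) e)
    simp only [f]
    omega
  have f0 : ∀ Y, Ed Y → 0 ≤ f Y := fun Y hY => by simpa using fl X0 h0 Y hY ∅ (by simp)
  have f1 : ∀ p ∈ A, ∀ Y, Ed Y → j p ∈ Y → 1 ≤ f Y := fun p hp' Y hY hj => by
    obtain ⟨X, a, b, -⟩ := hp p hp' p hp'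
    simpa using fl X a Y hY {p} (by simp [b, hj])
  have f2 : ∀ p ∈ A, ∀ q ∈ A, p ≠ q → ∀ Y, Ed Y → j p ∈ Y → j q ∈ Y → 2 ≤ f Y :=
    fun p hp' q hq hne Y hY hj hj' => by
      obtain ⟨X, a, b, c⟩ := hp p hp' q hq
      simpa [Finset.card_pair hne] using fl X a Y hY {p, q} (by simp [b, c, hj, hj'])
  have edI : ∀ Y Z, Ed Y → Ed (Y ∩ Z) := fun Y Z a h hh => a h (Finset.mem_inter.1 hh).1
  have edU : ∀ Y Z, Ed Y → Ed Z → Ed (Y ∪ Z) :=
    fun Y Z a b h hh => (Finset.mem_union.1 hh).elim (a h) (b h)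
  have exP : ∀ p, ∃ P, p ∈ A → Ed P ∧ j p ∈ P ∧ f P ≤ 1 ∧
      ∀ Y, Ed Y → j p ∈ Y → f Y ≤ 1 → Y ⊆ P := by
    intro p
    by_cases hp' : p ∈ A
    swap
    · exact ⟨∅, fun h => absurd h hp'⟩
    have mem : ∀ Y, Y ∈ (gd_fin hE hw).toFinset.powerset.filter (fun Y => j p ∈ Y ∧ f Y ≤ 1) ↔
        Ed Y ∧ j p ∈ Y ∧ f Y ≤ 1 := fun Y => by
      rw [Finset.mem_filter, Finset.mem_powerset]
      exact and_congr_left fun _ => ⟨fun h z hz => by simpa using h hz,
        fun h z hz => by simpa using h z hz⟩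
    obtain ⟨P, hP, hmax⟩ := Finset.exists_max_image
      ((gd_fin hE hw).toFinset.powerset.filter (fun Y => j p ∈ Y ∧ f Y ≤ 1)) Finset.card
      ⟨{j p}, (mem _).2 ⟨fun h hh => by
        rw [Finset.mem_singleton.1 hh]; exact Or.inr ⟨p, hp', rfl⟩, by simp, by
        have : ¬ Rp E j τ A (j p) := fun a => a.1.2 p hp' rfl
        have h2 := rr_le M {j p}
        simp only [f, hat, Finset.singleton_biUnion, As, if_neg this]
        simp only [Finset.card_singleton] at h2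
        omega⟩⟩
    obtain ⟨a, b, c⟩ := (mem P).1 hP
    refine ⟨P, fun _ => ⟨a, b, c, fun Y d e g => ?_⟩⟩
    have h1 := fs Y P d a
    have h2 := f1 p hp' _ (edI Y P d) (Finset.mem_inter.2 ⟨e, b⟩)
    have h3 := hmax _ ((mem (Y ∪ P)).2 ⟨edU _ _ d a, Finset.mem_union_left _ e, by omega⟩)
    rw [Finset.eq_of_subset_of_card_le Finset.subset_union_right h3]
    exact Finset.subset_union_left
  choose P hP using exP
  have exY : ∀ k, ∃ Y, k ∈ I → Ed Y ∧ f Y ≤ 2 ∧ ∀ p ∈ L k, P p ⊆ Y := by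
    intro k
    by_cases hk : k ∈ I
    swap
    · exact ⟨∅, fun h => absurd h hk⟩
    have hLA : (L k : Set ℕ) ⊆ A := fun x hx => (l2 k hk x hx).1
    obtain ⟨Y, a, b⟩ := key2 hE hw ((hF X0).1 h0) hLA (by simp [c0, l1 k hk])
      (fun h => l3 k hk ((hF _).2 h))
    change rr M (hat E j τ A Y) < _ at b
    have eY : Ed Y := fun h hh => (a h hh).imp_right fun h => Set.image_mono hLA h
    have c := split _ hLA Y
    rw [Finset.filter_true_of_mem a] at c
    have d : (Y.filter (· ∈ j '' (L k))).card ≤ ((L k).filter (fun p => j p ∈ Y)).card :=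
      Finset.card_le_card_of_surjOn j (by
        intro z hz
        simp only [Finset.coe_filter, Set.mem_setOf_eq] at hz
        obtain ⟨h1, x, hx, rfl⟩ := hz
        exact ⟨x, by simpa using ⟨hx, h1⟩, rfl⟩)
    have e : ∀ L' : Finset ℕ, L' ⊆ L k → Ed (Y ∪ L'.biUnion P) ∧
        f (Y ∪ L'.biUnion P) ≤ f Y + (L'.filter (fun p => j p ∉ Y)).card := by
      intro L'
      induction L' using Finset.induction_on with
      | empty => simp [eY]
      | insert p L' hn ih =>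
        intro hs
        obtain ⟨i1, i2⟩ := ih ((Finset.subset_insert _ _).trans hs)
        have pA := hLA (hs (Finset.mem_insert_self _ _))
        obtain ⟨p1, p2, p3, -⟩ := hP p pA
        have h1 := fs _ _ i1 p1
        have h2 := f0 _ (edI _ (P p) i1)
        have h3 := f1 p pA _ (edI _ (P p) i1)
        rw [Finset.biUnion_insert, Finset.union_comm (P p), ← Finset.union_assoc,
          Finset.filter_insert]
        refine ⟨edU _ _ i1 p1, ?_⟩
        split_ifs with h4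
        · have := h3 (Finset.mem_inter.2 ⟨Finset.mem_union_left _ h4, p2⟩)
          omega
        · rw [Finset.card_insert_of_notMem (by simp [hn])]
          push_cast; omega
    obtain ⟨e1, e2⟩ := e (L k) subset_rfl
    have g := Finset.card_filter_add_card_filter_not (s := L k) (fun p => j p ∈ Y)
    refine ⟨_, fun _ => ⟨e1, ?_, fun p hp =>
      (Finset.subset_biUnion_of_mem P hp).trans Finset.subset_union_right⟩⟩
    have := l1 k hk
    simp only [f] at e2 ⊢
    omega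
  choose Y hY using exY
  let σ : ι → Finset (ι × ℕ) → ℕ := fun i Z =>
    rk (M i) (fib (hat E j τ A Z) i) - (B0 i ∩ fib (hat E j τ A Z) i).ncard
  have fσ : ∀ Z, Ed Z → f Z = ∑ i, σ i Z + (Z.filter (· ∈ j '' X0)).card := by
    intro Z hZ
    have h1 := key1 hw hc0 hZ
    rw [cnt_eq, split X0 hc0.sub] at h1
    have h2 : ∑ i, σ i Z + ∑ i, (B0 i ∩ fib (hat E j τ A Z) i).ncard = rr M (hat E j τ A Z) := by
      rw [← Finset.sum_add_distrib]
      exact Finset.sum_congr rfl fun i _ => Nat.sub_add_cancel (rk_ge (hE i) (hB0 i) _)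
    simp only [f]
    omega
  rcases I.eq_empty_or_nonempty with rfl | ⟨k0, hk0⟩
  · simp
  obtain ⟨p0, hp0⟩ : (L k0).Nonempty := Finset.card_pos.1 (by rw [l1 k0 hk0]; omega)
  have exo : ∀ p, ∃ i, p ∈ A → p ∉ X0 → 1 ≤ σ i (P p) := by
    intro p
    by_cases h : p ∈ A ∧ p ∉ X0
    swap
    · exact ⟨(j p0).1, fun a b => absurd ⟨a, b⟩ h⟩
    obtain ⟨p1, p2, p3, -⟩ := hP p h.1
    have h1 := fσ _ p1
    have h2 := f1 p h.1 _ p1 p2
    have h3 : (P p).filter (· ∈ j '' X0) = ∅ := by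
      refine Finset.filter_eq_empty_iff.2 ?_
      rintro _ a ⟨x, hx, rfl⟩
      have := f2 p h.1 x (hc0.sub hx) (fun e => h.2 (e ▸ hx)) _ p1 p2 a
      omega
    by_contra hn
    push Not at hn
    rw [h3, Finset.sum_eq_zero fun i _ => by have := (hn i).2.2; omega] at h1
    simp at h1
    omega
  choose o ho using exo
  have exw : ∀ k, ∃ w : ℕ × ℕ, k ∈ I → w.1 ∈ L k ∧ (o w.1, w.2) ∈ hat E j τ A (Y k) ∧
      (o w.1, w.2) ∉ hat E j τ A (P w.1) := by
    intro k
    by_contra hn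
    push Not at hn
    have hk := (hn (0, 0)).1
    obtain ⟨y1, y2, y3⟩ := hY k hk
    have e : ∀ p ∈ L k, fib (hat E j τ A (Y k)) (o p) = fib (hat E j τ A (P p)) (o p) :=
      fun p hp => Set.Subset.antisymm (fun z hz => (hn (p, z)).2 hp hz)
        (fun z hz => Finset.biUnion_subset_biUnion_of_subset_left _ (y3 p hp) hz)
    have s1 : ∀ p ∈ L k, 1 ≤ σ (o p) (Y k) := fun p hp => by
      have := ho p (l2 k hk p hp).1 (l2 k hk p hp).2
      simp only [σ] at this ⊢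
      rwa [e p hp]
    have inj : Set.InjOn o (L k) := by
      intro p hp q hq heq
      by_contra hne
      obtain ⟨p1, p2, p3, -⟩ := hP p (l2 k hk p hp).1
      obtain ⟨q1, q2, q3, -⟩ := hP q (l2 k hk q hq).1
      have a := fs _ _ p1 q1
      have b := f2 p (l2 k hk p hp).1 q (l2 k hk q hq).1 hne _ (edU _ _ p1 q1)
        (Finset.mem_union_left _ p2) (Finset.mem_union_right _ q2)
      have c := fσ _ (edI _ (P q) p1)
      have d : σ (o p) (P p ∩ P q) ≤ ∑ i, σ i (P p ∩ P q) :=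
        Finset.single_le_sum (f := fun i => σ i (P p ∩ P q)) (fun _ _ => Nat.zero_le _)
          (Finset.mem_univ _)
      have g : fib (hat E j τ A (P p ∩ P q)) (o p) = fib (hat E j τ A (Y k)) (o p) := by
        have e1 := e p hp
        have e2 := e q hq
        rw [← heq] at e2
        rw [hatI _ _ p1 q1]
        ext z
        have a1 := Set.ext_iff.1 e1 z
        have a2 := Set.ext_iff.1 e2 z
        simp only [fib, Set.mem_setOf_eq, Finset.mem_inter] at a1 a2 ⊢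
        tauto
      have := s1 p hp
      simp only [σ] at this d
      rw [g] at d
      simp only [σ] at c
      omega
    have a := fσ _ y1
    have b : ∑ i ∈ (L k).image o, σ i (Y k) ≤ ∑ i, σ i (Y k) :=
      Finset.sum_le_sum_of_subset (Finset.subset_univ _)
    rw [Finset.sum_image inj] at b
    have c := Finset.card_nsmul_le_sum (L k) (fun p => σ (o p) (Y k)) 1 s1
    rw [l1 k hk] at c
    simp only [smul_eq_mul] at c
    omega
  choose w hw' using exw
  refine (Finset.card_le_card_of_injOn (t := hA.toFinset.biUnion fun p =>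
    (hE (o p)).toFinset.image fun z => (p, z)) w (fun k hk => ?_) (fun k hk l hl e => ?_)).trans ?_
  · obtain ⟨a, b, -⟩ := hw' k hk
    obtain ⟨g, hg, c⟩ := Finset.mem_biUnion.1 b
    have := As_mem hw ((hY k hk).1 g hg) c
    simp only [Finset.coe_biUnion, Set.Finite.coe_toFinset, Finset.coe_image, Set.mem_iUnion]
    exact ⟨_, (l2 k hk _ a).1, _, this, rfl⟩
  · by_contra hne
    obtain ⟨a, b, c⟩ := hw' k hk
    obtain ⟨a', b', -⟩ := hw' l hl
    rw [← e] at a' b'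
    obtain ⟨y1, y2, y3⟩ := hY k hk
    obtain ⟨z1, z2, z3⟩ := hY l hl
    obtain ⟨p1, p2, p3, p4⟩ := hP _ (l2 k hk _ a).1
    obtain ⟨X, x1, x2, x3⟩ := l4 k hk l hl hne
    have d := fl X x1 _ (edU _ _ y1 z1) X fun x hx => ⟨hx, by
      rcases Finset.mem_union.1 (x3 hx) with h | h
      · exact Finset.mem_union_left _ (y3 x h (hP x (l2 k hk x h).1).2.1)
      · exact Finset.mem_union_right _ (z3 x h (hP x (l2 l hl x h).1).2.1)⟩
    have g := fs _ _ y1 z1
    have := p4 _ (edI _ (Y l) y1) (Finset.mem_inter.2 ⟨y3 _ a p2, z3 _ a' p2⟩) (by omega)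
    refine c (Finset.biUnion_subset_biUnion_of_subset_left _ this ?_)
    change _ ∈ hat E j τ A _
    rw [hatI _ _ y1 z1]
    exact Finset.mem_inter.2 ⟨b, b'⟩
  · rw [Set.ncard_eq_toFinset_card A hA]
    refine Finset.card_biUnion_le_card_mul _ _ _ fun p _ => Finset.card_image_le.trans ?_
    rw [← Set.ncard_eq_toFinset_card _ (hE _)]
    exact (hM _).2

end

end Pool.Agent.H26.Comp
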