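import Pool.Agent.H26.NetF

namespace Pool.Agent.H26.Comp

open Set Classical

noncomputable section

def sm (S : ℕ) (X : Set ℕ) : ℕ := ∑ x ∈ (Finset.range S).filter (· ∈ X), x

def SB (S : ℕ) (X : Set ℕ) : Prop := X ⊆ Iio S ∧ X.ncard = 3 ∧ sm S X ≠ S

theorem sm_insert {S y : ℕ} {X : Set ℕ} (h : y ∉ X) (hy : y < S) :
    sm S (insert y X) = sm S X + y := by
  unfold sm
  have : (Finset.range S).filter (· ∈ insert y X) =
      insert y ((Finset.range S).filter (· ∈ X)) := by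
    ext x; simp only [Finset.mem_filter, Finset.mem_range, mem_insert_iff, Finset.mem_insert]
    constructor
    · rintro ⟨a, b | b⟩
      · exact Or.inl b
      · exact Or.inr ⟨a, b⟩
    · rintro (rfl | ⟨a, b⟩)
      · exact ⟨hy, Or.inl rfl⟩
      · exact ⟨a, Or.inr b⟩
  rw [add_comm, ← Finset.sum_insert (f := fun x => x) (by simp [h]), ← this]
  congr

theorem sb_tri {S a b c : ℕ} (h1 : a ≠ b) (h2 : a ≠ c) (h3 : b ≠ c) (ha : a < S) (hb : b < S)
    (hc : c < S) : SB S {a, b, c} ↔ a + b + c ≠ S := by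
  have e : sm S {a, b, c} = a + b + c := by
    rw [sm_insert (by simp [h1, h2]) ha, sm_insert (by simp [h3]) hb,
      ← insert_empty_eq, sm_insert (by simp) hc]
    simp [sm]; ring
  unfold SB
  rw [e]
  refine ⟨fun h => h.2.2, fun h => ⟨?_, ncard_eq_three.2 ⟨a, b, c, h1, h2, h3, rfl⟩, h⟩⟩
  rintro x (rfl | rfl | rfl) <;> assumption

def SumM (S : ℕ) (hS : 3 < S) : Matroid ℕ :=
  Matroid.ofIsBaseOfFinite (finite_Iio S) (SB S)
    ⟨{0, 1, 2}, (sb_tri (by omega) (by omega) (by omega) (by omega) (by omega) (by omega)).2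
      (by omega)⟩
    (by
      rintro X Y ⟨x1, x2, x3⟩ ⟨y1, y2, y3⟩ x ⟨hx, hxY⟩
      have fX := (finite_Iio S).subset x1
      have fY := (finite_Iio S).subset y1
      have key : ∀ y ∈ Y \ X, insert y (X \ {x}) ⊆ Iio S ∧ (insert y (X \ {x})).ncard = 3 ∧
          sm S (insert y (X \ {x})) = sm S (X \ {x}) + y := fun y hy =>
        ⟨insert_subset (y1 hy.1) (diff_subset.trans x1), by
          rw [ncard_insert_of_notMem (fun h => hy.2 h.1) (fX.subset diff_subset),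
            ncard_diff_singleton_of_mem hx, x2], sm_insert (fun h => hy.2 h.1) (y1 hy.1)⟩
      obtain ⟨y, hy⟩ : (Y \ X).Nonempty := by
        by_contra hn
        have := eq_of_subset_of_ncard_le (diff_eq_empty.1 (not_nonempty_iff_eq_empty.1 hn))
          (by omega) fX
        exact hxY (this ▸ hx)
      by_contra hn
      push Not at hn
      have all : ∀ z ∈ Y \ X, sm S (X \ {x}) + z = S := fun z hz => by
        by_contra h
        exact hn z hz ⟨(key z hz).1, (key z hz).2.1, by rwa [(key z hz).2.2]⟩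
      have : Y = insert y (X \ {x}) := by
        refine eq_of_subset_of_ncard_le (fun z hz => ?_) (by rw [(key y hy).2.1, y2])
          ((finite_Iio S).subset (key y hy).1)
        by_cases h : z ∈ X
        · exact Or.inr ⟨h, fun e => hxY (e ▸ hz)⟩
        · have := all z ⟨hz, h⟩
          have := all y hy
          exact Or.inl (by omega)
      exact y3 (by rw [this, (key y hy).2.2, all y hy]))
    (fun _ h => h.1)

theorem sumM_base {S hS X} : (SumM S hS).IsBase X ↔ SB S X := by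
  exact iff_of_eq (congrFun (Matroid.ofIsBaseOfFinite_isBase _ _ _ _ _) X)

def ok (S a a' a'' b b' b'' : ℕ) : Prop :=
  b ≠ a' ∧ b ≠ a'' ∧ b + a' + a'' ≠ S ∧ a ≠ b' ∧ a ≠ b'' ∧ a + b' + b'' ≠ S

theorem okA {S a x y b u v : ℕ} (h : ok S a x y b u v) : ok S a y x b u v := by
  unfold ok at *; omega

theorem okB {S a x y b u v : ℕ} (h : ok S a x y b u v) : ok S a x y b v u := by
  unfold ok at *; omega

theorem okS {S a x y b u v : ℕ} (h : ok S a x y b u v) : ok S b u v a x y := by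
  unfold ok at *; omega

theorem nok {S a x y b u v : ℕ} (h : ¬ ok S a x y b u v) :
    b = x ∨ b = y ∨ b + x + y = S ∨ a = u ∨ a = v ∨ a + u + v = S := by
  unfold ok at h; omega

structure Tri (S a b c : ℕ) : Prop where
  h1 : a ≠ b
  h2 : a ≠ c
  h3 : b ≠ c
  h4 : a + b + c ≠ S

theorem Tri.s1 {S a b c : ℕ} (h : Tri S a b c) : Tri S b a c :=
  ⟨h.1.symm, h.3, h.2, by have := h.4; omega⟩

theorem Tri.s2 {S a b c : ℕ} (h : Tri S a b c) : Tri S a c b :=
  ⟨h.2, h.1, h.3.symm, by have := h.4; omega⟩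

def Dj (a x y b u v : ℕ) : Prop :=
  a ≠ b ∧ a ≠ u ∧ a ≠ v ∧ x ≠ b ∧ x ≠ u ∧ x ≠ v ∧ y ≠ b ∧ y ≠ u ∧ y ≠ v

theorem Dj.a1 {a x y b u v : ℕ} (d : Dj a x y b u v) : Dj x a y b u v := by
  obtain ⟨d1, d2, d3, d4, d5, d6, d7, d8, d9⟩ := d
  exact ⟨d4, d5, d6, d1, d2, d3, d7, d8, d9⟩

theorem Dj.a2 {a x y b u v : ℕ} (d : Dj a x y b u v) : Dj a y x b u v := by
  obtain ⟨d1, d2, d3, d4, d5, d6, d7, d8, d9⟩ := d
  exact ⟨d1, d2, d3, d7, d8, d9, d4, d5, d6⟩

theorem Dj.b1 {a x y b u v : ℕ} (d : Dj a x y b u v) : Dj a x y u b v := by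
  obtain ⟨d1, d2, d3, d4, d5, d6, d7, d8, d9⟩ := d
  exact ⟨d2, d1, d3, d5, d4, d6, d8, d7, d9⟩

theorem Dj.b2 {a x y b u v : ℕ} (d : Dj a x y b u v) : Dj a x y b v u := by
  obtain ⟨d1, d2, d3, d4, d5, d6, d7, d8, d9⟩ := d
  exact ⟨d1, d3, d2, d4, d6, d5, d7, d9, d8⟩

theorem Dj.sy {a x y b u v : ℕ} (d : Dj a x y b u v) : Dj b u v a x y := by
  obtain ⟨d1, d2, d3, d4, d5, d6, d7, d8, d9⟩ := d
  exact ⟨d1.symm, d4.symm, d7.symm, d2.symm, d5.symm, d8.symm, d3.symm, d6.symm, d9.symm⟩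

theorem nok' {S a x y b u v : ℕ} (h : ¬ ok S a x y b u v)
    (d : Dj a x y b u v) : b + x + y = S ∨ a + u + v = S := by
  obtain ⟨d1, d2, d3, d4, d5, d6, d7, d8, d9⟩ := d
  by_contra hn
  rw [not_or] at hn
  exact h ⟨d4.symm, d7.symm, hn.1, d2, d3, hn.2⟩

theorem row {S a x y b u v : ℕ} (h : Tri S a x y) (g : Tri S b u v) (d : Dj a x y b u v) :
    ok S a x y b u v ∨ ok S a x y u b v ∨ ok S a x y v b u := by
  by_contra hn
  simp only [not_or] at hn
  have a1 := nok' hn.1 d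
  have a2 := nok' hn.2.1 d.b1
  have a3 := nok' hn.2.2 d.b2.b1
  obtain ⟨g1, g2, g3, g4⟩ := g
  clear hn d h
  omega

theorem blk {S a x y b u v : ℕ} (h : Tri S a x y) (g : Tri S b u v) (d : Dj a x y b u v) :
    ok S a x y b u v ∨ ok S a x y u b v ∨ ok S x a y b u v ∨ ok S x a y u b v := by
  by_contra hn
  simp only [not_or] at hn
  have a1 := nok' hn.1 d
  have a2 := nok' hn.2.1 d.b1
  have a3 := nok' hn.2.2.1 d.a1
  have a4 := nok' hn.2.2.2 d.a1.b1
  have h1 := h.1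
  have g1 := g.1
  clear hn d h g
  omega

def Gp (S a x y b u v : ℕ) : Prop := ok S a x y b u v ∧ ok S x a y u b v ∧ ok S y a x v b u

theorem common {S a x y u v : ℕ} (h : Tri S a x y) (g : Tri S a u v) :
    Gp S a x y a u v ∨ Gp S a x y a v u := by
  obtain ⟨h1, h2, h3, h4⟩ := h
  obtain ⟨g1, g2, g3, g4⟩ := g
  have k : ok S a x y a u v := ⟨h1, h2, h4, g1, g2, g4⟩
  by_contra hn
  simp only [Gp, k, okB k, true_and, not_or, not_and_or] at hn
  clear k
  rcases hn with ⟨c | c, d | d⟩ <;> rcases nok c with c | c | c | c | c | c <;>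
    rcases nok d with d | d | d | d | d | d <;> omega

theorem perm {S a x y b u v : ℕ} (h : Tri S a x y) (g : Tri S b u v) (d : Dj a x y b u v) :
    Gp S a x y b u v ∨ Gp S a x y b v u ∨ Gp S a x y u b v ∨ Gp S a x y u v b ∨
      Gp S a x y v b u ∨ Gp S a x y v u b := by
  have sA : ∀ a x y b u v, ok S a x y b u v ↔ ok S a y x b u v := fun _ _ _ _ _ _ => ⟨okA, okA⟩
  have sB : ∀ a x y b u v, ok S a x y b u v ↔ ok S a x y b v u := fun _ _ _ _ _ _ => ⟨okB, okB⟩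
  have sS : ∀ a x y b u v, ok S b u v a x y ↔ ok S a x y b u v := fun _ _ _ _ _ _ => ⟨okS, okS⟩
  have r1 := row h g d
  have r2 := row h.s1 g d.a1
  have r3 := row h.s2.s1 g d.a2.a1
  have c1 := row g h d.sy
  have c2 := row g.s1 h d.b1.sy
  have c3 := row g.s2.s1 h d.b2.b1.sy
  have b1 := blk h g d
  have b2 := blk h g.s2 d.b2
  have b3 := blk h g.s1.s2 d.b1.b2
  have b4 := blk h.s2 g d.a2
  have b5 := blk h.s2 g.s2 d.a2.b2
  have b6 := blk h.s2 g.s1.s2 d.a2.b1.b2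
  have b7 := blk h.s1.s2 g d.a1.a2
  have b8 := blk h.s1.s2 g.s2 d.a1.a2.b2
  have b9 := blk h.s1.s2 g.s1.s2 d.a1.a2.b1.b2
  unfold Gp
  simp only [sS _ _ _ b u v, sS _ _ _ u b v, sS _ _ _ v b u] at c1 c2 c3
  simp only [sA a y x, sA x y a, sA y x a, sB _ _ _ b v u, sB _ _ _ u v b, sB _ _ _ v u b] at *
  generalize ok S a x y b u v = p1 at *
  generalize ok S a x y u b v = p2 at *
  generalize ok S a x y v b u = p3 at *
  generalize ok S x a y b u v = p4 at *
  generalize ok S x a y u b v = p5 at *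
  generalize ok S x a y v b u = p6 at *
  generalize ok S y a x b u v = p7 at *
  generalize ok S y a x u b v = p8 at *
  generalize ok S y a x v b u = p9 at *
  clear sA sB sS h g d
  by_cases p1 <;> by_cases p2 <;> by_cases p3 <;> by_cases p4 <;> by_cases p5 <;>
    by_cases p6 <;> by_cases p7 <;> by_cases p8 <;> by_cases p9 <;> simp_all

theorem gp_sbo {S a x y b u v : ℕ} (h : Tri S a x y) (g : Tri S b u v) (k : Gp S a x y b u v)
    (l1 : a < S) (l2 : x < S) (l3 : y < S) (l4 : b < S) (l5 : u < S) (l6 : v < S) :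
    ∃ φ : ℕ → ℕ, BijOn φ {a, x, y} {b, u, v} ∧
      ∀ X ⊆ ({a, x, y} : Set ℕ), SB S (({a, x, y} \ X) ∪ φ '' X) := by
  obtain ⟨h1, h2, h3, h4⟩ := h
  obtain ⟨g1, g2, g3, g4⟩ := g
  let φ : ℕ → ℕ := fun t => if t = a then b else if t = x then u else v
  have e1 : φ a = b := by simp [φ]
  have e2 : φ x = u := by simp [φ, h1.symm]
  have e3 : φ y = v := by simp [φ, h2.symm, h3.symm]
  refine ⟨φ, ⟨?_, ?_, ?_⟩, fun X hX => ?_⟩
  · rintro t (rfl | rfl | rfl) <;> simp [e1, e2, e3]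
  · rintro t (ht | ht | ht) s (hs | hs | hs) he <;> rw [ht, hs] at he ⊢ <;>
      simp only [e1, e2, e3] at he <;> simp_all
  · rintro t (rfl | rfl | rfl)
    · exact ⟨a, by simp, e1⟩
    · exact ⟨x, by simp, e2⟩
    · exact ⟨y, by simp, e3⟩
  · have : ({a, x, y} \ X) ∪ φ '' X = {if a ∈ X then b else a, if x ∈ X then u else x,
        if y ∈ X then v else y} := by
      ext t
      constructor
      · rintro (⟨rfl | rfl | rfl, c⟩ | ⟨s, c, rfl⟩)
        · simp [c]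
        · simp [c]
        · simp [c]
        · rcases hX c with rfl | rfl | rfl <;> simp [c, e1, e2, e3]
      · rintro (rfl | rfl | rfl) <;> split_ifs with c
        · exact Or.inr ⟨a, c, e1⟩
        · exact Or.inl ⟨by simp, c⟩
        · exact Or.inr ⟨x, c, e2⟩
        · exact Or.inl ⟨by simp, c⟩
        · exact Or.inr ⟨y, c, e3⟩
        · exact Or.inl ⟨by simp, c⟩
    rw [this]
    obtain ⟨⟨k1, k2, k3, k4, k5, k6⟩, ⟨m1, m2, m3, m4, m5, m6⟩, n1, n2, n3, n4, n5, n6⟩ := k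
    split_ifs
    · exact (sb_tri g1 g2 g3 l4 l5 l6).2 g4
    · exact (sb_tri g1 n4.symm n5.symm l4 l5 l3).2 fun h => n6 (by linarith)
    · exact (sb_tri m4.symm g2 m5 l4 l2 l6).2 fun h => m6 (by linarith)
    · exact (sb_tri k1 k2 h3 l4 l2 l3).2 k3
    · exact (sb_tri k4 k5 g3 l1 l5 l6).2 k6
    · exact (sb_tri k4 h2 m2 l1 l5 l3).2 fun h => m3 (by linarith)
    · exact (sb_tri h1 k5 m5 l1 l2 l6).2 fun h => n3 (by linarith)
    · exact (sb_tri h1 h2 h3 l1 l2 l3).2 h4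

theorem sb_ex {S c : ℕ} {B : Set ℕ} (h : SB S B) (hc : c ∈ B) :
    ∃ x y, B = {c, x, y} ∧ Tri S c x y ∧ c < S ∧ x < S ∧ y < S := by
  obtain ⟨x, y, e, h2⟩ := ncard_eq_two.1 (show (B \ {c}).ncard = 2 by
    rw [ncard_diff_singleton_of_mem hc, h.2.1])
  have hx : x ∈ B \ {c} := h2 ▸ by simp
  have hy : y ∈ B \ {c} := h2 ▸ by simp
  have hB : B = {c, x, y} := by rw [← h2, insert_diff_singleton, insert_eq_of_mem hc]
  refine ⟨x, y, hB, ⟨fun e => hx.2 e.symm, fun e => hy.2 e.symm, e, ?_⟩, h.1 hc, h.1 hx.1, h.1 hy.1⟩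
  rw [hB] at h
  exact (sb_tri (fun e => hx.2 e.symm) (fun e => hy.2 e.symm) e (h.1 (by simp)) (h.1 (by simp))
    (h.1 (by simp))).1 h

theorem sumM_sbo (S hS) : SumM S hS ∈ SBO := by
  refine ⟨finite_Iio S, fun B1 B2 h1 h2 => ?_⟩
  simp only [sumM_base] at *
  by_cases hc : ∃ c, c ∈ B1 ∧ c ∈ B2
  · obtain ⟨c, c1, c2⟩ := hc
    obtain ⟨x, y, rfl, h, l1, l2, l3⟩ := sb_ex h1 c1
    obtain ⟨u, v, rfl, g, l4, l5, l6⟩ := sb_ex h2 c2
    rcases common h g with k | k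
    · exact gp_sbo h g k l1 l2 l3 l4 l5 l6
    · rw [pair_comm u v]; exact gp_sbo h g.s2 k l1 l2 l3 l4 l6 l5
  obtain ⟨a, ha⟩ : B1.Nonempty := nonempty_of_ncard_ne_zero (by rw [h1.2.1]; omega)
  obtain ⟨b, hb⟩ : B2.Nonempty := nonempty_of_ncard_ne_zero (by rw [h2.2.1]; omega)
  obtain ⟨x, y, rfl, h, l1, l2, l3⟩ := sb_ex h1 ha
  obtain ⟨u, v, rfl, g, l4, l5, l6⟩ := sb_ex h2 hb
  push Not at hc
  have d : Dj a x y b u v := by
    have a1 := hc a (by simp)
    have a2 := hc x (by simp)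
    have a3 := hc y (by simp)
    simp only [mem_insert_iff, mem_singleton_iff, not_or] at a1 a2 a3
    exact ⟨a1.1, a1.2.1, a1.2.2, a2.1, a2.2.1, a2.2.2, a3.1, a3.2.1, a3.2.2⟩
  rcases perm h g d with k | k | k | k | k | k
  · exact gp_sbo h g k l1 l2 l3 l4 l5 l6
  · rw [pair_comm u v]; exact gp_sbo h g.s2 k l1 l2 l3 l4 l6 l5
  · rw [insert_comm b u]; exact gp_sbo h g.s1 k l1 l2 l3 l5 l4 l6
  · rw [insert_comm b u, pair_comm b v]; exact gp_sbo h g.s1.s2 k l1 l2 l3 l5 l6 l4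
  · rw [pair_comm u v, insert_comm b v]; exact gp_sbo h g.s2.s1 k l1 l2 l3 l6 l4 l5
  · rw [pair_comm u v, insert_comm b v, pair_comm b u]; exact gp_sbo h g.s2.s1.s2 k l1 l2 l3 l6 l5 l4

theorem adm_small (m : ℕ) (hm : 3 ≤ m) : Adm {M | M.E.Finite ∧ M.E.ncard ≤ m} :=
  ⟨fun _ a b => ⟨a, b.trans hm⟩, fun _ h => h, fun _ h => h.1⟩

theorem sumM_not (m : ℕ) (hm : 3 ≤ m) :
    SumM (60 * m + 7) (by omega) ∉ KK {M | M.E.Finite ∧ M.E.ncard ≤ m} := by
  rintro ⟨h1, h2⟩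
  set N := 12 * m with hN
  set S := 60 * m + 7 with hS
  let L : ℕ × ℕ → Finset ℕ := fun k => {k.1 + 3, k.2 + N + 3, S - (k.1 + 3) - (k.2 + N + 3)}
  have mI : ∀ k : ℕ × ℕ, k ∈ Finset.range N ×ˢ Finset.range N ↔ k.1 < N ∧ k.2 < N := by simp
  have tb : ∀ a b c, a ≠ b → a ≠ c → b ≠ c → a < S → b < S → c < S → a + b + c ≠ S →
      (SumM S (by omega)).IsBase {a, b, c} :=
    fun a b c h1 h2 h3 h4 h5 h6 h7 => sumM_base.2 ((sb_tri h1 h2 h3 h4 h5 h6).2 h7)
  have := own h1 h2 (X0 := {0, 1, 2}) (tb 0 1 2 (by omega) (by omega) (by omega) (by omega)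
    (by omega) (by omega) (by omega)) (ncard_eq_three.2 ⟨0, 1, 2, by simp⟩) ?_
    (Finset.range N ×ˢ Finset.range N) L ?_ ?_ ?_ ?_
  · have e : (SumM S (by omega)).E = Iio S := rfl
    rw [e] at this
    simp only [Finset.card_product, Finset.card_range, ncard_Iio_nat] at this
    nlinarith
  · intro p (hp : p < S) q (hq : q < S)
    by_cases e : p = q
    · subst e
      obtain ⟨a, b, h⟩ : ∃ a b, p ≠ a ∧ p ≠ b ∧ a ≠ b ∧ a < S ∧ b < S ∧ p + a + b ≠ S := by
        by_cases c : p < 5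
        · exact ⟨5, 6, by omega⟩
        by_cases d : p + 1 = S
        · exact ⟨0, 2, by omega⟩
        · exact ⟨0, 1, by omega⟩
      exact ⟨_, tb p a b h.1 h.2.1 h.2.2.1 hp h.2.2.2.1 h.2.2.2.2.1 h.2.2.2.2.2, by simp, by simp⟩
    · obtain ⟨a, h⟩ : ∃ a, p ≠ a ∧ q ≠ a ∧ a < S ∧ p + q + a ≠ S := by
        by_contra hn
        push Not at hn
        have := hn 0
        have := hn 1
        have := hn 2
        have := hn 3
        omega
      exact ⟨_, tb p q a e h.1 h.2.1 hp hq h.2.2.1 h.2.2.2, by simp, by simp⟩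
  · intro k hk
    rw [mI] at hk
    exact Finset.card_eq_three.2 ⟨_, _, _, by omega, by omega, by omega, rfl⟩
  · intro k hk x hx
    rw [mI] at hk
    simp only [L, Finset.mem_insert, Finset.mem_singleton] at hx
    refine ⟨show x < S by omega, ?_⟩
    simp only [mem_insert_iff, mem_singleton_iff]
    omega
  · intro k hk h
    rw [mI] at hk
    simp only [L, Finset.coe_insert, Finset.coe_singleton, sumM_base] at h
    exact (sb_tri (by omega) (by omega) (by omega) (by omega) (by omega) (by omega)).1 h (by omega)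
  · rintro ⟨a, b⟩ hk ⟨c, d⟩ hl hne
    rw [mI] at hk hl
    simp only [ne_eq, Prod.mk.injEq] at hne hk hl
    by_cases e : a = c
    · refine ⟨{a + 3, b + N + 3, d + N + 3}, ?_,
        Finset.card_eq_three.2 ⟨_, _, _, by omega, by omega, by omega, rfl⟩, ?_⟩
      · simp only [Finset.coe_insert, Finset.coe_singleton]
        exact tb _ _ _ (by omega) (by omega) (by omega) (by omega) (by omega) (by omega) (by omega)
      · intro t ht
        simp only [L, Finset.mem_union, Finset.mem_insert, Finset.mem_singleton] at ht ⊢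
        omega
    · refine ⟨{a + 3, b + N + 3, c + 3}, ?_,
        Finset.card_eq_three.2 ⟨_, _, _, by omega, by omega, by omega, rfl⟩, ?_⟩
      · simp only [Finset.coe_insert, Finset.coe_singleton]
        exact tb _ _ _ (by omega) (by omega) (by omega) (by omega) (by omega) (by omega) (by omega)
      · intro t ht
        simp only [L, Finset.mem_union, Finset.mem_insert, Finset.mem_singleton] at ht ⊢
        omega

theorem sbo_bo : SBO ⊆ BO := by
  rintro M ⟨h1, h2⟩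
  refine ⟨h1, fun B1 B2 a b => ?_⟩
  obtain ⟨φ, c, d⟩ := h2 B1 B2 a b
  exact ⟨φ, c, fun X hX _ => d X hX⟩

theorem bound {F : Set (Matroid ℕ)} (hF : F.Finite) : ∃ m, 3 ≤ m ∧ ∀ M ∈ F, M.E.ncard ≤ m := by
  obtain ⟨m, hm⟩ := (hF.image fun M => M.E.ncard).bddAbove
  exact ⟨max m 3, le_max_right _ _, fun M h => (hm ⟨M, h, rfl⟩).trans (le_max_left _ _)⟩

theorem no_gen {F : Set (Matroid ℕ)} (hF : F.Finite) (hE : ∀ M ∈ F, M.E.Finite) :
    ∃ M ∈ SBO, M ∈ BO ∧ M ∉ gen F := by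
  obtain ⟨m, h3, hm⟩ := bound hF
  refine ⟨_, sumM_sbo (60 * m + 7) (by omega), sbo_bo (sumM_sbo _ _), fun h => sumM_not m h3 ?_⟩
  exact h _ (kk_complete (adm_small m h3)) fun M h => ⟨hE M h, Net.base ⟨hE M h, hm M h⟩⟩

end

end Pool.Agent.H26.Comp
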