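import Pool.Agent.H26.NetG

namespace Pool.Agent.H26.Comp

open Set Classical

noncomputable section

theorem small_swap {M : Matroid ℕ} (hM : M.E.Finite) (h3 : M.E.ncard ≤ 3) {B B0 : Set ℕ}
    (hB : M.IsBase B) (h0 : M.IsBase B0) :
    ∃ y, ∀ x ∈ B \ B0, B \ B0 = {x} ∧ B0 \ B = {y} := by
  have e := hB.ncard_diff_comm h0
  have f1 : (B \ B0).Finite := hM.subset (diff_subset.trans hB.subset_ground)
  have f2 : (B0 \ B).Finite := hM.subset (diff_subset.trans h0.subset_ground)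
  have := ncard_le_ncard (union_subset (diff_subset.trans hB.subset_ground)
    (diff_subset.trans h0.subset_ground) : (B \ B0) ∪ (B0 \ B) ⊆ M.E) hM
  rw [ncard_union_eq disjoint_sdiff_sdiff f1 f2] at this
  by_cases c : (B \ B0).ncard = 0
  · exact ⟨0, fun x hx => absurd ((ncard_eq_zero f1).1 c ▸ hx) (notMem_empty x)⟩
  obtain ⟨y, hy⟩ := ncard_eq_one.1 (show (B0 \ B).ncard = 1 by omega)
  obtain ⟨z, hz⟩ := ncard_eq_one.1 (show (B \ B0).ncard = 1 by omega)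
  exact ⟨y, fun x hx => ⟨by rw [hz] at hx ⊢; rw [show x = z from hx], hy⟩⟩

theorem small_sub {M : Matroid ℕ} (hM : M.E.Finite) (h3 : M.E.ncard ≤ 3) {B0 : Set ℕ}
    (h0 : M.IsBase B0) : B0.Subsingleton ∨ (M.E \ B0).Subsingleton := by
  have := ncard_diff_add_ncard_of_subset h0.subset_ground hM
  haveI := (hM.subset h0.subset_ground).to_subtype
  haveI := (hM.subset (diff_subset (t := B0))).to_subtype
  rw [← ncard_le_one_iff_subsingleton, ← ncard_le_one_iff_subsingleton]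
  omega

section

variable {ι : Type} {M : ι → Matroid ℕ} {j : ℕ → ι × ℕ} {τ : ι × ℕ → ι × ℕ} {A : Set ℕ}

def arc (M : ι → Matroid ℕ) (j : ℕ → ι × ℕ) (τ : ι × ℕ → ι × ℕ) (A : Set ℕ) (B0 : ι → Set ℕ)
    (h h' : ι × ℕ) : Prop :=
  (h'.1 = h.1 ∧ h.2 ∈ (M h.1).E ∧ h.2 ∉ B0 h.1 ∧ h'.2 ∈ B0 h'.1 ∧
    (M h.1).IsBase (insert h.2 (B0 h.1 \ {h'.2}))) ∨
  (Inner (fun i => (M i).E) j A h ∧ h.2 ∈ B0 h.1 ∧ h' = τ h)

def WW (M : ι → Matroid ℕ) : Set (ι × ℕ) := {h | h.2 ∈ (M h.1).E}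

theorem toPF (hM : ∀ i, (M i).E.Finite ∧ (M i).E.ncard ≤ 3) (hw : WF (fun i => (M i).E) j τ A)
    {X0 X : Set ℕ} {B0 B : ι → Set ℕ} (hB0 : ∀ i, (M i).IsBase (B0 i))
    (hc0 : Con (fun i => (M i).E) j τ A X0 B0) (hB : ∀ i, (M i).IsBase (B i))
    (hc : Con (fun i => (M i).E) j τ A X B) :
    ∃ π : ι × ℕ → ι × ℕ, MapsTo π (WW M \ j '' X0) (WW M \ j '' X) ∧ InjOn π (WW M \ j '' X0) ∧
      ∀ v ∈ WW M \ j '' X0, π v = v ∨ arc M j τ A B0 v (π v) := by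
  choose y hy using fun i => small_swap (hM i).1 (hM i).2 (hB i) (hB0 i)
  let π : ι × ℕ → ι × ℕ := fun h => if h.2 ∈ B h.1 ∧ h.2 ∉ B0 h.1 then (h.1, y h.1) else
    if h.2 ∈ B0 h.1 ∧ h.2 ∉ B h.1 then τ h else h
  have cs : ∀ v ∈ WW M \ j '' X0,
      (v.2 ∈ B v.1 ∧ v.2 ∉ B0 v.1 ∧ π v = (v.1, y v.1) ∧ y v.1 ∈ B0 v.1 ∧ y v.1 ∉ B v.1) ∨
      (v.2 ∈ B0 v.1 ∧ Inner (fun i => (M i).E) j A v ∧ π v = τ v ∧
        (τ v).2 ∈ B (τ v).1 ∧ (τ v).2 ∉ B0 (τ v).1) ∨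
      (π v = v ∧ (v.2 ∈ B v.1 ↔ v.2 ∈ B0 v.1)) := by
    intro v hv
    by_cases c : v.2 ∈ B v.1 ∧ v.2 ∉ B0 v.1
    · have : y v.1 ∈ B0 v.1 \ B v.1 := by rw [(hy _ _ c).2]; rfl
      exact Or.inl ⟨c.1, c.2, if_pos c, this.1, this.2⟩
    by_cases d : v.2 ∈ B0 v.1 ∧ v.2 ∉ B v.1
    · have hi : Inner (fun i => (M i).E) j A v := ⟨hv.1, fun x hx e => hv.2
        ⟨x, (hc0.ext x hx).1 (e ▸ d.1), e⟩⟩
      exact Or.inr (Or.inl ⟨d.1, hi, (if_neg c).trans (if_pos d), (hc.int v hi).2 d.2,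
        fun h => (hc0.int v hi).1 h d.1⟩)
    · exact Or.inr (Or.inr ⟨(if_neg c).trans (if_neg d), by tauto⟩)
  refine ⟨π, fun v hv => ?_, fun v hv w hw' e => ?_, fun v hv => ?_⟩
  · rcases cs v hv with ⟨a, b, c, d, e⟩ | ⟨a, b, c, d, e⟩ | ⟨a, b⟩
    · rw [c]
      refine ⟨(hB0 _).subset_ground d, fun ⟨x, hx, f⟩ => e ?_⟩
      have := (hc.ext x (hc.sub hx)).2 hx
      rwa [f] at this
    · rw [c]
      exact ⟨(hw.inner v b).1, fun ⟨x, hx, f⟩ => (hw.inner v b).2 x (hc.sub hx) f⟩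
    · rw [a]
      refine ⟨hv.1, fun ⟨x, hx, f⟩ => hv.2 ⟨x, (hc0.ext x (hc.sub hx)).1 ?_, f⟩⟩
      have := (hc.ext x (hc.sub hx)).2 hx
      rw [f] at this ⊢
      exact b.1 this
  · rcases cs v hv with ⟨a, b, c, d, f⟩ | ⟨a, b, c, d, f⟩ | ⟨c, b⟩ <;>
      rcases cs w hw' with ⟨a', b', c', d', f'⟩ | ⟨a', b', c', d', f'⟩ | ⟨c', b'⟩ <;>
      rw [c, c'] at e
    · obtain ⟨i, x⟩ := v
      obtain ⟨k, z⟩ := w
      obtain rfl : i = k := congrArg Prod.fst e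
      have : z ∈ B i \ B0 i := ⟨a', b'⟩
      rw [(hy i x ⟨a, b⟩).1] at this
      rw [show z = x from this]
    · rw [← e] at f'; exact absurd d f'
    · rw [← e] at b'; exact absurd (b'.2 d) f
    · rw [e] at f; exact absurd d' f
    · rw [← hw.invol v b, e, hw.invol w b']
    · rw [← e] at b'; exact absurd (b'.1 d) f
    · rw [e] at b; exact absurd (b.2 d') f'
    · rw [e] at b; exact absurd (b.1 d') f'
    · exact e
  · rcases cs v hv with ⟨a, b, c, d, e⟩ | ⟨a, b, c, d, e⟩ | ⟨a, b⟩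
    · rw [c]
      refine Or.inr (Or.inl ⟨rfl, hv.1, b, d, ?_⟩)
      convert hB v.1
      obtain ⟨e1, e2⟩ := hy _ _ ⟨a, b⟩
      ext t
      have e3 := Set.ext_iff.1 e1 t
      have e4 := Set.ext_iff.1 e2 t
      simp only [mem_diff, mem_singleton_iff, mem_insert_iff] at e3 e4 ⊢
      tauto
    · rw [c]; exact Or.inr (Or.inr ⟨b, a, rfl⟩)
    · exact Or.inl a

theorem ofPF (hM : ∀ i, (M i).E.Finite ∧ (M i).E.ncard ≤ 3) (hw : WF (fun i => (M i).E) j τ A)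
    {X0 X : Set ℕ} {B0 : ι → Set ℕ} (hB0 : ∀ i, (M i).IsBase (B0 i))
    (hc0 : Con (fun i => (M i).E) j τ A X0 B0) (hX : X ⊆ A) {π : ι × ℕ → ι × ℕ}
    (hπ : BijOn π (WW M \ j '' X0) (WW M \ j '' X))
    (ha : ∀ v ∈ WW M \ j '' X0, π v = v ∨ arc M j τ A B0 v (π v)) :
    Glue (fun i => (M i).E) (fun i => (M i).IsBase) j τ A X := by
  let En : ι × ℕ → Prop := fun h => h ∈ WW M ∧ h.2 ∉ B0 h.1 ∧ π h ≠ h
  let Le : ι × ℕ → Prop := fun h => ∃ v, En v ∧ π v = h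
  have d0 : ∀ h ∈ WW M, h.2 ∉ B0 h.1 → h ∈ WW M \ j '' X0 := by
    rintro h a b
    refine ⟨a, ?_⟩
    rintro ⟨x, hx, rfl⟩
    exact b ((hc0.ext x (hc0.sub hx)).2 hx)
  have d1 : ∀ h, Inner (fun i => (M i).E) j A h → ∀ Z ⊆ A, h ∈ WW M \ j '' Z :=
    fun h a Z hZ => ⟨a.1, fun ⟨x, hx, e⟩ => a.2 x (hZ hx) e⟩
  have a1 : ∀ v, En v → (π v).1 = v.1 ∧ (π v).2 ∈ B0 (π v).1 ∧
      (M v.1).IsBase (insert v.2 (B0 v.1 \ {(π v).2})) := by
    intro v hv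
    rcases (ha v (d0 v hv.1 hv.2.1)).resolve_left hv.2.2 with h | h
    · exact ⟨h.1, h.2.2.2.1, h.2.2.2.2⟩
    · exact absurd h.2.1 hv.2.1
  have a2 : ∀ v ∈ WW M \ j '' X0, π v ≠ v → En v ∨
      (Inner (fun i => (M i).E) j A v ∧ v.2 ∈ B0 v.1 ∧ π v = τ v) := by
    intro v hv hne
    rcases (ha v hv).resolve_left hne with h | h
    · exact Or.inl ⟨hv.1, h.2.2.1, hne⟩
    · exact Or.inr h
  have key : ∀ h, Inner (fun i => (M i).E) j A h → h.2 ∈ B0 h.1 → (Le h ↔ En (τ h)) := by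
    intro h hi hb
    have t0 : (τ h).2 ∉ B0 (τ h).1 := fun c => (hc0.int h hi).1 c hb
    have hd := d1 h hi X0 hc0.sub
    have td := d1 _ (hw.inner h hi) X0 hc0.sub
    constructor
    · rintro ⟨v, hv, e⟩
      have n1 : π h ≠ h := fun c => hv.2.1 (by
        rw [hπ.injOn (d0 v hv.1 hv.2.1) hd (e.trans c.symm)]; exact hb)
      have n2 : π h = τ h := ((a2 h hd n1).resolve_left fun c => c.2.1 hb).2.2
      exact ⟨td.1, t0, fun c => t0 (by rw [hπ.injOn td hd (c.trans n2.symm)]; exact hb)⟩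
    · intro he
      obtain ⟨v, hv, e⟩ := hπ.surjOn (d1 _ (hw.inner h hi) X hX)
      have n1 : π v ≠ v := fun c => he.2.2 (by rw [← e, c, c])
      obtain ⟨b1, b2, b3⟩ := (a2 v hv n1).resolve_left fun c => t0 (e ▸ (a1 v c).2.1)
      obtain rfl : v = h := by rw [← hw.invol v b1, ← b3, e, hw.invol h hi]
      obtain ⟨u, hu, e'⟩ := hπ.surjOn (d1 _ hi X hX)
      have n2 : π u ≠ u := fun c => n1 (by rw [← e', c, c])
      refine ⟨u, (a2 u hu n2).resolve_right fun c => ?_, e'⟩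
      exact (hc0.int u c.1).1 (by rw [← c.2.2, e']; exact hb) c.2.1
  have key' : ∀ h, Inner (fun i => (M i).E) j A h → h.2 ∈ B0 h.1 →
      ((((τ h).2 ∈ B0 (τ h).1 ∧ ¬ Le (τ h)) ∨ En (τ h)) ↔ ¬ ((h.2 ∈ B0 h.1 ∧ ¬ Le h) ∨ En h)) := by
    intro h hi hb
    have t0 : (τ h).2 ∉ B0 (τ h).1 := fun c => (hc0.int h hi).1 c hb
    have := key h hi hb
    have n : ¬ En h := fun c => c.2.1 hb
    rw [← this]
    simp only [t0, hb, n, false_and, false_or, true_and, or_false, not_not]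
  refine ⟨fun i => {x | (x ∈ B0 i ∧ ¬ Le (i, x)) ∨ En (i, x)}, fun i => ?_, hX, fun x hx => ?_,
    fun h hi => ?_⟩
  · by_cases c : ∃ x, En (i, x)
    · obtain ⟨x, hx⟩ := c
      have un : ∀ v, En v → v.1 = i → v = (i, x) := by
        rintro ⟨k, z⟩ hv rfl
        rcases small_sub (hM k).1 (hM k).2 (hB0 k) with s | s
        · refine hπ.injOn (d0 _ hv.1 hv.2.1) (d0 _ hx.1 hx.2.1)
            (Prod.ext ((a1 _ hv).1.trans (a1 _ hx).1.symm) (s ?_ ?_))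
          · have := (a1 _ hv).2.1; rwa [(a1 _ hv).1] at this
          · have := (a1 _ hx).2.1; rwa [(a1 _ hx).1] at this
        · exact congrArg _ (s ⟨hv.1, hv.2.1⟩ ⟨hx.1, hx.2.1⟩)
      convert (a1 _ hx).2.2
      ext t
      simp only [mem_setOf_eq, mem_insert_iff, mem_diff, mem_singleton_iff]
      have e1 : En (i, t) ↔ t = x :=
        ⟨fun h => congrArg Prod.snd (un _ h rfl), fun h => h ▸ hx⟩
      have e2 : Le (i, t) ↔ t = (π (i, x)).2 := by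
        constructor
        · rintro ⟨v, hv, e⟩
          rw [← un v hv (by rw [← (a1 v hv).1, e]), e]
        · rintro rfl
          exact ⟨_, hx, Prod.ext (a1 _ hx).1 rfl⟩
      rw [e1, e2, or_comm]
    · push Not at c
      convert hB0 i
      ext t
      have : ¬ Le (i, t) := fun ⟨v, hv, e⟩ => c v.2 (by
        have := (a1 v hv).1
        rw [e] at this
        exact (show i = v.1 from this) ▸ hv)
      simp [this, c t]
  · change ((j x).2 ∈ B0 (j x).1 ∧ ¬ Le (j x)) ∨ En (j x) ↔ _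
    have jW : j x ∈ WW M := hw.mem x hx
    have r1 : x ∈ X → ∀ v ∈ WW M \ j '' X0, π v ≠ j x :=
      fun a v hv e => (hπ.mapsTo hv).2 ⟨x, a, e.symm⟩
    have r2 : x ∉ X → ∃ v ∈ WW M \ j '' X0, π v = j x ∧ (v = j x ∨ En v) := by
      intro a
      obtain ⟨v, hv, e⟩ := hπ.surjOn (show j x ∈ WW M \ j '' X from
        ⟨jW, fun c => a ((hw.inj.mem_image_iff hX hx).1 c)⟩)
      refine ⟨v, hv, e, ?_⟩
      by_cases c : π v = v
      · exact Or.inl (c.symm.trans e)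
      · refine Or.inr ((a2 v hv c).resolve_right fun d => ?_)
        exact (hw.inner v d.1).2 x hx (e.symm.trans d.2.2)
    by_cases b : (j x).2 ∈ B0 (j x).1
    · have n : ¬ En (j x) := fun c => c.2.1 b
      simp only [b, n, true_and, or_false]
      constructor
      · intro h
        by_contra a
        obtain ⟨v, hv, e, rfl | c⟩ := r2 a
        · exact hv.2 ⟨x, (hc0.ext x hx).1 b, rfl⟩
        · exact h ⟨v, c, e⟩
      · rintro a ⟨v, hv, e⟩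
        exact r1 a v (d0 v hv.1 hv.2.1) e
    · simp only [b, false_and, false_or]
      constructor
      · intro h
        by_contra a
        obtain ⟨v, hv, e, rfl | c⟩ := r2 a
        · exact h.2.2 e
        · exact b (e ▸ (a1 v c).2.1)
      · exact fun a => ⟨jW, b, r1 a _ (d0 _ jW b)⟩
  · by_cases b : h.2 ∈ B0 h.1
    · exact key' h hi b
    · have := key' (τ h) (hw.inner h hi) ((hc0.int h hi).2 b)
      rw [hw.invol h hi] at this
      exact ⟨fun a c => this.1 c a, fun a => by_contra fun c => a (this.2 c)⟩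

end

theorem linkG {A : Set ℕ} (hA : A.Finite) {F : Sys}
    (h : Net {M | M.E.Finite ∧ M.E.ncard ≤ 3} A F) {X0 : Set ℕ} (h0 : F X0) :
    ∃ (T : Set ℕ) (Γ : ℕ → ℕ → Prop), T.Finite ∧ (∀ u v, Γ u v → u ∈ T ∧ v ∈ T) ∧ A ⊆ T ∧
      (∀ X, F X → ∃ Y ⊆ X0, Linked Γ X Y) ∧
      ∀ X ⊆ A, ∀ Y ⊆ X0, Linked Γ X Y → F (X ∪ (X0 \ Y)) := by
  have hX0 := h.sub h0
  obtain ⟨ι, hι, M, j, τ, hM, hw, hF⟩ := h
  haveI := Fintype.ofFinite ι
  obtain ⟨B0, hB0, hc0⟩ := (hF X0).1 h0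
  obtain ⟨n0, hn0⟩ := hA.bddAbove
  let en : ι × ℕ → ℕ := fun h => if c : ∃ x ∈ A, j x = h then c.choose else n0 + 1 + enc h
  have e1 : ∀ x ∈ A, en (j x) = x := fun x hx => by
    have c : ∃ y ∈ A, j y = j x := ⟨x, hx, rfl⟩
    exact (dif_pos c).trans (hw.inj c.choose_spec.1 hx c.choose_spec.2)
  have inj : Function.Injective en := by
    intro a b e
    by_cases c : ∃ x ∈ A, j x = a <;> by_cases d : ∃ x ∈ A, j x = b
    · obtain ⟨x, hx, rfl⟩ := c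
      obtain ⟨y, hy, rfl⟩ := d
      rw [e1 x hx, e1 y hy] at e
      rw [e]
    · obtain ⟨x, hx, rfl⟩ := c
      rw [e1 x hx] at e
      have := hn0 hx
      simp only [en, dif_neg d] at e
      omega
    · obtain ⟨x, hx, rfl⟩ := d
      rw [e1 x hx] at e
      have := hn0 hx
      simp only [en, dif_neg c] at e
      omega
    · simp only [en, dif_neg c, dif_neg d] at e
      exact enc_inj (by omega)
  haveI : Nonempty (ι × ℕ) := ⟨j 0⟩
  let de := Function.invFun en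
  have de1 : ∀ h, de (en h) = h := Function.leftInverse_invFun inj
  have im : ∀ X ⊆ A, en '' (WW M \ j '' X) = en '' WW M \ X := by
    intro X hX
    rw [image_diff inj, image_image, image_congr (g := id) fun x hx => e1 x (hX hx), image_id]
  have fW : (WW M).Finite := (finite_iUnion fun i => (hM i).1.image fun x => (i, x)).subset
    fun h hh => mem_iUnion.2 ⟨h.1, h.2, hh, rfl⟩
  have hT := fW.image en
  have hΓ : ∀ u v, Relation.Map (arc M j τ A B0) en en u v → u ∈ en '' WW M ∧ v ∈ en '' WW M := by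
    rintro _ _ ⟨a, b, c | c, rfl, rfl⟩
    · exact ⟨⟨a, c.2.1, rfl⟩, b, (hB0 _).subset_ground c.2.2.2.1, rfl⟩
    · exact ⟨⟨a, c.1.1, rfl⟩, b, c.2.2 ▸ (hw.inner a c.1).1, rfl⟩
  have hAT : A ⊆ en '' WW M := fun x hx => ⟨j x, hw.mem x hx, e1 x hx⟩
  refine ⟨en '' WW M, Relation.Map (arc M j τ A B0) en en, hT, hΓ, hAT, fun X hX => ?_,
    fun X hX Y hY hl => ?_⟩
  · obtain ⟨B, hB, hc⟩ := (hF X).1 hX
    obtain ⟨π, p1, p2, p3⟩ := toPF hM hw hB0 hc0 hB hc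
    refine PF.linked hT (hc.sub.trans hAT) ⟨fun u => en (π (de u)), ?_, ?_, ?_⟩
    · rw [← im X0 hX0, ← im X hc.sub]
      rintro _ ⟨v, hv, rfl⟩
      exact ⟨_, p1 hv, by simp only [de1]⟩
    · rw [← im X0 hX0]
      rintro _ ⟨v, hv, rfl⟩ _ ⟨w, hw', rfl⟩ e
      simp only [de1] at e
      rw [p2 hv hw' (inj e)]
    · rw [← im X0 hX0]
      rintro _ ⟨v, hv, rfl⟩
      simp only [de1]
      exact (p3 v hv).imp (congrArg en) fun c => ⟨_, _, c, rfl, rfl⟩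
  · obtain ⟨π, p1, p2, p3⟩ := hl.pf hΓ
    have fx : ∀ s ∈ X0 \ Y, π s = s := by
      intro s hs
      refine (p3 s ⟨hAT (hX0 hs.1), hs.2⟩).resolve_right ?_
      rintro ⟨a, b, c, e, -⟩
      obtain rfl : a = j s := inj (e.trans (e1 s (hX0 hs.1)).symm)
      rcases c with c | c
      · exact c.2.2.1 ((hc0.ext s (hX0 hs.1)).2 hs.1)
      · exact c.1.2 s (hX0 hs.1) rfl
    have sb : en '' WW M \ X0 ⊆ en '' WW M \ Y := diff_subset_diff_right hY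
    have hX' : X ∪ (X0 \ Y) ⊆ A := union_subset hX (diff_subset.trans hX0)
    have hd : Disjoint X (X0 \ Y) := disjoint_right.2 fun s hs c =>
      (p1 ⟨hAT (hX0 hs.1), hs.2⟩).2 (by rwa [fx s hs])
    obtain ⟨π', q1, q2⟩ := PF.bpf (Γ := Relation.Map (arc M j τ A B0) en en) hT (hX'.trans hAT)
      (hX0.trans hAT) (by
        rw [ncard_union_eq hd (hA.subset hX) (hA.subset (diff_subset.trans hX0)), ← hl.ncard,
          add_comm, ncard_diff_add_ncard_of_subset hY (hA.subset hX0)])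
      ⟨π, fun v hv => ⟨(p1 (sb hv)).1, fun c => c.elim (p1 (sb hv)).2 fun c => hv.2 (by
        rw [p2 (sb hv) ⟨hAT (hX0 c.1), c.2⟩ (fx _ c).symm]; exact c.1)⟩, p2.mono sb,
        fun v hv => p3 v (sb hv)⟩
    rw [← im X0 hX0] at q2
    rw [← im X0 hX0, ← im _ hX'] at q1
    refine (hF _).2 (ofPF hM hw hB0 hc0 hX' (π := fun h => de (π' (en h))) ⟨fun v hv => ?_,
      fun v hv w hw' e => ?_, fun w hw' => ?_⟩ fun v hv => ?_)
    · obtain ⟨u, hu, e⟩ := q1.mapsTo ⟨v, hv, rfl⟩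
      simpa only [← e, de1] using hu
    · obtain ⟨u, -, e1⟩ := q1.mapsTo ⟨v, hv, rfl⟩
      obtain ⟨u', -, e2⟩ := q1.mapsTo ⟨w, hw', rfl⟩
      simp only [← e1, ← e2, de1] at e
      exact inj (q1.injOn ⟨v, hv, rfl⟩ ⟨w, hw', rfl⟩ (by rw [← e1, ← e2, e]))
    · obtain ⟨_, ⟨v, hv, rfl⟩, e⟩ := q1.surjOn ⟨w, hw', rfl⟩
      exact ⟨v, hv, by simp only [e, de1]⟩
    · rcases q2 _ ⟨v, hv, rfl⟩ with c | ⟨a, b, c, e1, e2⟩
      · exact Or.inl (by simp only [c, de1])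
      · refine Or.inr ?_
        simp only [← e2, de1]
        rwa [← inj e1]

theorem Linked.mono {Γ : ℕ → ℕ → Prop} {X X' Y : Set ℕ} (h : Linked Γ X Y) (hX : X' ⊆ X) :
    ∃ Y' ⊆ Y, Linked Γ X' Y' := by
  obtain ⟨len, p, h1, h2, h3, rfl⟩ := h
  exact ⟨_, image_mono hX, len, p, fun x hx => h1 x (hX hx), fun x hx => h2 x (hX hx),
    fun x hx y hy => h3 x (hX hx) y (hX hy), rfl⟩

theorem k3_gam {M : Matroid ℕ} (h : M ∈ KK {M | M.E.Finite ∧ M.E.ncard ≤ 3}) : M ∈ Gammoid := by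
  obtain ⟨X0, h0⟩ := M.exists_isBase
  obtain ⟨T, Γ, a, b, c, d, e⟩ := linkG h.1 h.2 h0
  refine ⟨X0, T, Γ, a, b, h0.subset_ground.trans c, c, fun X => ⟨fun hX => ?_, ?_⟩⟩
  · obtain ⟨B, hB, hXB⟩ := hX.exists_isBase_superset
    obtain ⟨Y, y1, y2⟩ := d B hB
    obtain ⟨Y', y3, y4⟩ := y2.mono hXB
    exact ⟨hX.subset_ground, Y', Matroid.freeOn_indep (y3.trans y1), y4⟩
  · rintro ⟨x1, Y, y1, y2⟩
    exact (e X x1 Y (Matroid.freeOn_indep_iff.1 y1) y2).indep.subset subset_union_left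

theorem k3_sbo {M : Matroid ℕ} (h : M ∈ KK {M | M.E.Finite ∧ M.E.ncard ≤ 3}) : M ∈ SBO := by
  refine ⟨h.1, fun B1 B2 h1 h2 => ?_⟩
  obtain ⟨T, Γ, a, b, c, d, e⟩ := linkG h.1 h.2 h2
  obtain ⟨Y, y1, y2⟩ := d B1 h1
  obtain rfl : Y = B2 := eq_of_subset_of_ncard_le y1
    (by rw [y2.ncard, h1.ncard_eq_ncard_of_isBase h2]) (h.1.subset h2.subset_ground)
  obtain ⟨len, p, p1, p2, p3, rfl⟩ := y2
  have inj : InjOn (fun x => p x (len x)) B1 :=
    fun x hx y hy h => (p3 x hx y hy _ le_rfl _ le_rfl h).1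
  refine ⟨_, inj.bijOn_image, fun X hX => ?_⟩
  convert e (B1 \ X) (diff_subset.trans h1.subset_ground) _ (image_mono diff_subset)
    ⟨len, p, fun x hx => p1 x hx.1, fun x hx => p2 x hx.1,
      fun x hx y hy => p3 x hx.1 y hy.1, rfl⟩ using 2
  rw [← inj.image_diff_subset diff_subset, diff_diff_cancel_left hX]

end

end Pool.Agent.H26.Comp
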