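import Pool.Agent.H26.NetH

namespace Pool.Agent.H26.Comp

open Classical

noncomputable section

def S3 : Set (Matroid ℕ) := {M | M.E.Finite ∧ M.E.ncard ≤ 3}

theorem adm3 : Adm S3 := adm_small 3 le_rfl

def Rel (t : ℕ) (N : Matroid ℕ) : Prop :=
  ∀ (I : Finset (Finset ℕ)) (Y : Finset ℕ → Set ℕ), I.card ≤ t → ∃ G : Sys, Net S3 N.E G ∧
    (∀ B, N.IsBase B → G B) ∧ ∀ B, G B → ∀ k ∈ I, ∃ B', N.IsBase B' ∧ B.ncard = B'.ncard ∧
      (B ∩ Y k).ncard ≤ (B' ∩ Y k).ncard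

theorem Rel.dual {t : ℕ} {N : Matroid ℕ} (hN : N.E.Finite) (h : Rel t N) : Rel t N.dual := by
  intro I Y hI
  obtain ⟨G, g1, g2, g3⟩ := h I (fun k => (Y k)ᶜ) hI
  refine ⟨_, g1.dual adm3.dual, fun B hB => ⟨hB.subset_ground, g2 _ hB.compl_isBase_of_dual⟩,
    fun X ⟨x1, x2⟩ k hk => ?_⟩
  obtain ⟨B', b1, b2, b3⟩ := g3 _ x2 k hk
  have c : ∀ B ⊆ N.E, (N.E \ B).ncard + B.ncard = N.E.ncard ∧
      ((N.E \ B) ∩ Y k).ncard + B.ncard = (N.E ∩ Y k).ncard + (B ∩ (Y k)ᶜ).ncard := by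
    intro B hB
    refine ⟨Set.ncard_diff_add_ncard_of_subset hB hN, ?_⟩
    have e1 := Set.ncard_inter_add_ncard_diff_eq_ncard B (Y k) (hN.subset hB)
    have e2 := Set.ncard_diff_add_ncard_of_subset (Set.inter_subset_inter_left (Y k) hB)
      (hN.inter_of_left _)
    have e3 : (N.E ∩ Y k) \ (B ∩ Y k) = (N.E \ B) ∩ Y k := by ext; simp; tauto
    rw [e3] at e2
    rw [← Set.diff_eq]
    omega
  have c1 := c _ (Set.diff_subset (t := X))
  have c2 := c _ b1.subset_ground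
  rw [Set.diff_diff_cancel_left x1] at c1
  exact ⟨_, b1.compl_isBase_dual, by omega, by omega⟩

theorem adm_rel (t : ℕ) : Adm {N | N.E.Finite ∧ Rel t N} :=
  ⟨fun M a b => ⟨a, fun _ _ _ => ⟨M.IsBase, Net.base ⟨a, b⟩, fun _ h => h,
    fun B h _ _ => ⟨B, h, rfl, le_rfl⟩⟩⟩, fun _ h => ⟨h.1, h.2.dual h.1⟩, fun _ h => h.1⟩

theorem replace {t : ℕ} {A : Set ℕ} (hA : A.Finite) (ht : 2 ^ A.ncard ≤ t) {F : Sys}
    (h : Net {N | N.E.Finite ∧ Rel t N} A F) {X0 : Set ℕ} (h0 : F X0) : Net S3 A F := by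
  obtain ⟨ι, hι, M, j, τ, hM, hw, hF⟩ := h
  haveI := Fintype.ofFinite ι
  have hE : ∀ i, (M i).E.Finite := fun i => (hM i).1
  have ex : ∀ k : Finset ℕ, ∃ Y : Finset (ι × ℕ), (k : Set ℕ) ⊆ A → (k : Set ℕ).ncard = X0.ncard →
      ¬ F k → (∀ h ∈ Y, Gd (fun i => (M i).E) j τ A k h) ∧
        rr M (hat (fun i => (M i).E) j τ A Y) < Y.card := by
    intro k
    by_cases c : (k : Set ℕ) ⊆ A ∧ (k : Set ℕ).ncard = X0.ncard ∧ ¬ F k
    · obtain ⟨Y, hY⟩ := key2 hE hw ((hF X0).1 h0) c.1 c.2.1 fun h => c.2.2 ((hF _).2 h)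
      exact ⟨Y, fun _ _ _ => hY⟩
    · exact ⟨∅, fun a b d => absurd ⟨a, b, d⟩ c⟩
  choose Y hY using ex
  choose G g1 g2 g3 using fun i => (hM i).2 hA.toFinset.powerset
    (fun k => fib (hat (fun i => (M i).E) j τ A (Y k)) i)
    (by rwa [Finset.card_powerset, ← Set.ncard_eq_toFinset_card A hA])
  refine (Net.compose g1 hw).congr fun X => ⟨fun hX => ?_, ?_⟩
  · obtain ⟨B, hB, hc⟩ := (hF X).1 hX
    exact ⟨B, fun i => g2 i _ (hB i), hc⟩
  · rintro ⟨B, hB, hc⟩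
    by_contra hn
    obtain ⟨B0, hB0, hc0⟩ := (hF X0).1 h0
    obtain ⟨k, rfl⟩ := (hA.subset hc.sub).exists_finset_coe
    have hk : k ∈ hA.toFinset.powerset := 
      Finset.mem_powerset.2 fun x hx => hA.mem_toFinset.2 (hc.sub hx)
    choose B' b1 b2 b3 using fun i => g3 i _ (hB i) k hk
    have t1 := total hE hw hc fun i => (g1 i).sub (hB i)
    have t2 := total hE hw hc0 fun i => (hB0 i).subset_ground
    rw [total' hE hw hc.sub] at t1
    rw [total' hE hw hc0.sub] at t2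
    have t3 : ∑ i, (B i).ncard = ∑ i, (B0 i).ncard :=
      Finset.sum_congr rfl fun i _ => (b2 i).trans ((b1 i).ncard_eq_ncard_of_isBase (hB0 i))
    obtain ⟨y1, y2⟩ := hY k hc.sub (by omega) hn
    have t4 := key1 hw hc (Y := Y k) fun h hh => (y1 h hh).imp_right fun h => Set.image_mono hc.sub h
    rw [Finset.filter_true_of_mem y1, cnt_eq] at t4
    have t5 : ∑ i, (B i ∩ fib (hat (fun i => (M i).E) j τ A (Y k)) i).ncard ≤
        rr M (hat (fun i => (M i).E) j τ A (Y k)) :=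
      Finset.sum_le_sum fun i _ => (b3 i).trans (rk_ge (hE i) (b1 i) _)
    omega

open Finset

variable (q : ℕ)

def EE : Finset ℕ := range (4 * q + 2)
def Ev : Finset ℕ := (range (2 * q + 1)).image (2 * ·)
def Od : Finset ℕ := (range (2 * q + 1)).image (2 * · + 1)
def Uu : Finset ℕ := (range q).image (4 * · + 2)
def Ww : Finset ℕ := (range q).image (4 * · + 3)
def HH (i : ℕ) : Finset ℕ := insert (4 * i + 1) ((Ev q).erase (4 * i))
def cls (n : ℕ) : ℕ := if n % 4 = 1 then n - 1 else n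
def hh (X : Finset ℕ) : ℕ := ((X.filter (· % 4 ≠ 3)).image cls).card

variable {q}

theorem mE {n} : n ∈ EE q ↔ n < 4 * q + 2 := by simp [EE]
theorem mEv {n} : n ∈ Ev q ↔ n < 4 * q + 2 ∧ n % 2 = 0 := by
  simp only [Ev, mem_image, mem_range]
  exact ⟨fun ⟨a, b, c⟩ => by omega, fun h => ⟨n / 2, by omega, by omega⟩⟩
theorem mOd {n} : n ∈ Od q ↔ n < 4 * q + 2 ∧ n % 2 = 1 := by
  simp only [Od, mem_image, mem_range]
  exact ⟨fun ⟨a, b, c⟩ => by omega, fun h => ⟨n / 2, by omega, by omega⟩⟩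
theorem mU {n} : n ∈ Uu q ↔ n < 4 * q + 2 ∧ n % 4 = 2 := by
  simp only [Uu, mem_image, mem_range]
  exact ⟨fun ⟨a, b, c⟩ => by omega, fun h => ⟨n / 4, by omega, by omega⟩⟩
theorem mW {n} : n ∈ Ww q ↔ n < 4 * q + 2 ∧ n % 4 = 3 := by
  simp only [Ww, mem_image, mem_range]
  exact ⟨fun ⟨a, b, c⟩ => by omega, fun h => ⟨n / 4, by omega, by omega⟩⟩
theorem mH {i n} : n ∈ HH q i ↔ n = 4 * i + 1 ∨ (n ≠ 4 * i ∧ n < 4 * q + 2 ∧ n % 2 = 0) := by
  simp [HH, mEv]
theorem cE : (EE q).card = 4 * q + 2 := by simp [EE]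
theorem cEv : (Ev q).card = 2 * q + 1 := by
  rw [Ev, card_image_of_injective _ (fun a b h => by simpa using h), card_range]
theorem cOd : (Od q).card = 2 * q + 1 := by
  rw [Od, card_image_of_injective _ (fun a b h => by simpa using h), card_range]
theorem cU : (Uu q).card = q := by
  rw [Uu, card_image_of_injective _ (fun a b h => by simpa using h), card_range]
theorem cW : (Ww q).card = q := by
  rw [Ww, card_image_of_injective _ (fun a b h => by simpa using h), card_range]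
theorem cH {i} (hi : i ≤ q) : (HH q i).card = 2 * q + 1 := by
  rw [HH, card_insert_of_notMem (by simp [mEv]; omega), card_erase_of_mem (mEv.2 (by omega)), cEv]
  omega

theorem hh_mono {X Y : Finset ℕ} (h : X ⊆ Y) : hh X ≤ hh Y :=
  card_le_card (image_subset_image (filter_subset_filter _ h))

theorem hh_erase (X : Finset ℕ) (x : ℕ) : hh X ≤ hh (X.erase x) + 1 := by
  refine (card_le_card (t := insert (cls x) (((X.erase x).filter (· % 4 ≠ 3)).image cls))
    fun z hz => ?_).trans (card_insert_le _ _)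
  simp only [mem_image, mem_filter, mem_insert, mem_erase] at hz ⊢
  obtain ⟨a, ⟨b, c⟩, rfl⟩ := hz
  by_cases e : a = x
  · exact Or.inl (by rw [e])
  · exact Or.inr ⟨a, ⟨⟨e, b⟩, c⟩, rfl⟩

theorem hh_ge {X Z : Finset ℕ} (h : ∀ z ∈ Z, ∃ x ∈ X, x % 4 ≠ 3 ∧ cls x = z) : Z.card ≤ hh X :=
  card_le_card fun z hz => by
    obtain ⟨x, a, b, c⟩ := h z hz
    exact mem_image.2 ⟨x, mem_filter.2 ⟨a, b⟩, c⟩

theorem hh_H {i} (hi : i ≤ q) : 2 * q + 1 ≤ hh (HH q i) := by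
  rw [← cEv]
  refine hh_ge fun z hz => ?_
  rw [mEv] at hz
  by_cases e : z = 4 * i
  · exact ⟨4 * i + 1, mH.2 (Or.inl rfl), by omega, by unfold cls; split_ifs <;> omega⟩
  · exact ⟨z, mH.2 (by omega), by omega, by unfold cls; split_ifs <;> omega⟩

def BF (q : ℕ) (X : Finset ℕ) : Prop :=
  X ⊆ EE q ∧ X.card = 2 * q + 1 ∧ q + 1 ≤ hh X ∧ ∀ i ≤ q, X ≠ HH q i

theorem nb (hq : 1 ≤ q) {i x y} (hi : i ≤ q) (hx : x ∈ HH q i) (hy : y ∈ EE q) (hy' : y ∉ HH q i) :
    BF q (insert y ((HH q i).erase x)) := by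
  refine ⟨insert_subset hy fun z hz => ?_, ?_, ?_, fun k hk e => ?_⟩
  · have := mH.1 (mem_of_mem_erase hz); rw [mE]; omega
  · rw [card_insert_of_notMem (by simp [hy']), card_erase_of_mem hx, cH hi]; omega
  · have := hh_erase (HH q i) x
    have := hh_H hi
    have := hh_mono (subset_insert y ((HH q i).erase x))
    omega
  · have a1 : 4 * k + 1 ∈ insert y ((HH q i).erase x) := e ▸ mH.2 (Or.inl rfl)
    have a2 : y ∈ HH q k := e ▸ mem_insert_self _ _
    have a3 : k ≠ i → 4 * i ∈ insert y ((HH q i).erase x) := fun _ => e ▸ mH.2 (by omega)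
    simp only [mem_insert, mem_erase, mH] at a1 a2 a3 hy'
    omega

theorem exch (hq : 1 ≤ q) {X Y : Finset ℕ} (hX : BF q X) (hY : BF q Y) {x} (hx : x ∈ X)
    (hx' : x ∉ Y) : ∃ y ∈ Y, y ∉ X ∧ BF q (insert y (X.erase x)) := by
  have c : ∀ y ∈ Y, y ∉ X → insert y (X.erase x) ⊆ EE q ∧ (insert y (X.erase x)).card = 2 * q + 1 :=
    fun y a b => ⟨insert_subset (hY.1 a) ((erase_subset _ _).trans hX.1), by
      rw [card_insert_of_notMem (by simp [b]), card_erase_of_mem hx, hX.2.1]; omega⟩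
  obtain ⟨y, y1, y2, y3⟩ : ∃ y ∈ Y, y ∉ X ∧ q + 1 ≤ hh (insert y (X.erase x)) := by
    by_cases d : q + 1 ≤ hh (X.erase x)
    · obtain ⟨y, a, b⟩ : ∃ y ∈ Y, y ∉ X := by
        by_contra hn
        push Not at hn
        exact hx' (eq_of_subset_of_card_le hn (by rw [hX.2.1, hY.2.1]) ▸ hx)
      exact ⟨y, a, b, d.trans (hh_mono (subset_insert _ _))⟩
    · obtain ⟨z, a, b⟩ := exists_mem_notMem_of_card_lt_card
        (show hh (X.erase x) < hh Y by have := hY.2.2.1; omega)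
      obtain ⟨y, y1, rfl⟩ := mem_image.1 a
      obtain ⟨y1, y2⟩ := mem_filter.1 y1
      have y3 : y ∉ X := fun h => b (mem_image_of_mem _
        (mem_filter.2 ⟨mem_erase.2 ⟨fun e => hx' (e ▸ y1), h⟩, y2⟩))
      refine ⟨y, y1, y3, ?_⟩
      have := hh_erase X x
      have := hX.2.2.1
      have : hh (insert y (X.erase x)) = hh (X.erase x) + 1 := by
        unfold hh
        rw [filter_insert, if_pos y2, image_insert, card_insert_of_notMem b]
      omega
  by_cases d : ∃ i ≤ q, insert y (X.erase x) = HH q i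
  · obtain ⟨i, hi, e⟩ := d
    obtain ⟨z, z1, z2⟩ : ∃ z ∈ Y, z ∉ HH q i := by
      by_contra hn
      push Not at hn
      exact hY.2.2.2 i hi (eq_of_subset_of_card_le hn (by rw [cH hi, hY.2.1]))
    have e2 : X.erase x = (HH q i).erase y := by rw [← e, erase_insert (by simp [y2])]
    refine ⟨z, z1, fun h => z2 ?_, e2 ▸ nb hq hi (e ▸ mem_insert_self _ _) (hY.1 z1) z2⟩
    exact e ▸ mem_insert_of_mem (mem_erase.2 ⟨fun f => hx' (f ▸ z1), h⟩)
  · push Not at d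
    exact ⟨y, y1, y2, (c y y1 y2).1, (c y y1 y2).2, y3, d⟩

theorem bf_Ev : BF q (Ev q) := by
  refine ⟨fun z hz => mE.2 (mEv.1 hz).1, cEv, ?_, fun i _ e => ?_⟩
  · have : (Ev q).card ≤ hh (Ev q) := hh_ge fun z hz =>
      ⟨z, hz, by have := mEv.1 hz; omega, by have := mEv.1 hz; unfold cls; split_ifs <;> omega⟩
    rw [cEv] at this; omega
  · have : 4 * i + 1 ∈ Ev q := e ▸ mH.2 (Or.inl rfl)
    have := mEv.1 this; omega

theorem bf_Od (hq : 1 ≤ q) : BF q (Od q) := by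
  refine ⟨fun z hz => mE.2 (mOd.1 hz).1, cOd, ?_, fun i _ e => ?_⟩
  · have : ((range (q + 1)).image (4 * ·)).card ≤ hh (Od q) := hh_ge fun z hz => by
      obtain ⟨a, b, rfl⟩ := mem_image.1 hz
      rw [mem_range] at b
      exact ⟨4 * a + 1, mOd.2 (by omega), by omega, by unfold cls; split_ifs <;> omega⟩
    rwa [card_image_of_injective _ (fun a b h => by simpa using h), card_range] at this
  · have : 2 ∈ Od q := e ▸ mH.2 (by omega)
    have := mOd.1 this; omega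

theorem exch' (hq : 1 ≤ q) : Matroid.ExchangeProperty fun X : Set ℕ => ∃ Z, BF q Z ∧ X = Z := by
  rintro _ _ ⟨X, hX, rfl⟩ ⟨Y, hY, rfl⟩ x hx
  obtain ⟨y, a, b, c⟩ := exch hq hX hY hx.1 hx.2
  exact ⟨y, ⟨a, b⟩, _, c, by simp⟩

def MM (q : ℕ) (hq : 1 ≤ q) : Matroid ℕ :=
  Matroid.ofIsBaseOfFinite (EE q).finite_toSet (fun X => ∃ Z, BF q Z ∧ X = Z)
    ⟨_, _, bf_Ev, rfl⟩ (exch' hq) (by rintro _ ⟨Z, h, rfl⟩; exact h.1)

theorem mm_base {hq X} : (MM q hq).IsBase X ↔ ∃ Z, BF q Z ∧ X = Z :=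
  iff_of_eq (congrFun (Matroid.ofIsBaseOfFinite_isBase _ _ _ _ _) X)

theorem mm_not_bo (hq : 1 ≤ q) : MM q hq ∉ BO := by
  rintro ⟨-, h⟩
  obtain ⟨φ, h1, h2⟩ := h _ _ (mm_base.2 ⟨_, bf_Ev, rfl⟩) (mm_base.2 ⟨_, bf_Od hq, rfl⟩)
  obtain ⟨i, hi, hw⟩ : ∃ i ≤ q, φ (4 * i) ∉ Ww q := by
    by_contra hn
    push Not at hn
    have := card_le_card_of_injOn (s := range (q + 1)) (t := Ww q) (fun i => φ (4 * i))
      (fun i hi => hn i (by simpa [Nat.lt_succ_iff] using hi)) (fun a ha b hb e => by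
        simp only [coe_range, Set.mem_Iio] at ha hb
        have := h1.injOn (mem_coe.2 (mEv.2 (by omega))) (mem_coe.2 (mEv.2 (by omega))) e
        omega)
    rw [card_range, cW] at this
    omega
  have m : 4 * i ∈ (Ev q : Set ℕ) := mem_coe.2 (mEv.2 (by omega))
  have o := mOd.1 (h1.mapsTo m)
  rw [mW] at hw
  by_cases e : φ (4 * i) = 4 * i + 1
  · obtain ⟨Z, z1, z2⟩ := mm_base.1 (h2 {4 * i} (by simpa using m) (Or.inl (by simp)))
    refine z1.2.2.2 i hi (coe_injective ?_)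
    rw [← z2, HH]
    simp [e]
  · obtain ⟨Z, z1, z2⟩ := mm_base.1 (h2 (Ev q \ {4 * i}) Set.diff_subset (Or.inr (by
      rw [Set.ncard_diff_singleton_of_mem m, Set.ncard_coe_finset, cEv]; omega)))
    rw [h1.injOn.image_diff_subset (by simpa using m), h1.image_eq,
      Set.diff_diff_cancel_left (by simpa using m)] at z2
    have : hh Z ≤ (((range (q + 1)).image (4 * ·)).erase (φ (4 * i) - 1)).card := by
      refine card_le_card fun z hz => ?_
      obtain ⟨x, hx, rfl⟩ := mem_image.1 hz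
      obtain ⟨x1, x2⟩ := mem_filter.1 hx
      have : x ∈ (Z : Set ℕ) := x1
      rw [← z2] at this
      simp only [Set.image_singleton, Set.mem_union, Set.mem_singleton_iff, Set.mem_diff,
        mem_coe, mOd] at this
      simp only [mem_erase, mem_image, mem_range, cls]
      split_ifs
      · exact ⟨by omega, x / 4, by omega, by omega⟩
      · exact ⟨by omega, x / 4, by omega, by omega⟩
    rw [card_erase_of_mem (mem_image.2 ⟨φ (4 * i) / 4, mem_range.2 (by omega), by omega⟩),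
      card_image_of_injective _ (fun a b h => by simpa using h), card_range] at this
    have := z1.2.2.1
    omega

end

end Pool.Agent.H26.Comp
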