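import Pool.Agent.H26.NetI

namespace Pool.Agent.H26.Comp

open Classical Finset

noncomputable section

variable {q : ℕ}

def Gm (q : ℕ) (J : Finset ℕ) (g : ℕ → ℕ) (v z : ℕ) : Prop :=
  z < 4 * q + 2 ∧ ((v % 4 = 0 ∧ (z = v + 1 ∨ z % 4 = 3)) ∨
    (v % 4 = 2 ∧ ∀ i ∈ J, v = 4 * g i + 2 → z ∈ HH q i))

theorem dEv : (EE q : Set ℕ) \ Od q = Ev q := by
  ext n; simp only [Set.mem_diff, mem_coe, mE, mOd, mEv]; omega

theorem of_bpf {J : Finset ℕ} {g : ℕ → ℕ} (hg : ∀ i ∈ J, g i < q) {X : Finset ℕ} (hX : X ⊆ EE q)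
    (h : BPF (EE q) (Gm q J g) X (Od q)) :
    X.card = 2 * q + 1 ∧ q + 1 ≤ hh X ∧ ∀ i ∈ J, X ≠ HH q i := by
  have c := h.ncard (EE q).finite_toSet (coe_subset.2 hX) (coe_subset.2 fun z hz => mE.2 (mOd.1 hz).1)
  rw [Set.ncard_coe_finset, Set.ncard_coe_finset, cOd] at c
  obtain ⟨π, h1, h2⟩ := h
  rw [dEv] at h1 h2
  refine ⟨c.symm, ?_, fun i hi e => ?_⟩
  · have : Ev q ⊆ (X.filter (· % 4 ≠ 3)).image cls ∪ (Uu q).image (fun v => cls (π v)) := by
      intro z hz
      have z1 := mEv.1 hz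
      by_contra hn
      simp only [mem_union, mem_image, mem_filter, not_or, not_exists, not_and, and_imp] at hn
      have k : ∀ y, y < 4 * q + 2 → y % 4 ≠ 3 → cls y = z → ∃ v, v % 4 = 0 ∧ π v = y ∧
          (y = v ∨ y = v + 1) := by
        intro y a b d
        obtain ⟨v, hv, e⟩ := h1.surjOn (show y ∈ (EE q : Set ℕ) \ X from
          ⟨mem_coe.2 (mE.2 a), fun f => hn.1 y f b d⟩)
        have v1 := mEv.1 hv
        have v2 : v % 4 = 0 := by
          by_contra f
          exact hn.2 v (mU.2 (by omega)) (by rw [e, d])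
        refine ⟨v, v2, e, ?_⟩
        rcases h2 v hv with f | ⟨-, f | f⟩ <;> omega
      obtain ⟨v, v1, v2, v3⟩ := k z z1.1 (by omega) (by unfold cls; split_ifs <;> omega)
      obtain ⟨w, w1, w2, w3⟩ := k (z + 1) (by omega) (by omega) (by unfold cls; split_ifs <;> omega)
      obtain rfl : v = w := by omega
      omega
    have h3 := (card_le_card this).trans (card_union_le _ _)
    have h4 : ((Uu q).image (fun v => cls (π v))).card ≤ q := card_image_le.trans cU.le
    rw [cEv] at h3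
    unfold hh
    omega
  · have m : 4 * g i + 2 ∈ (Ev q : Set ℕ) := mem_coe.2 (mEv.2 (by have := hg i hi; omega))
    refine (h1.mapsTo m).2 (mem_coe.2 (e ▸ ?_))
    rcases h2 _ m with f | ⟨-, f | f⟩
    · rw [f]; exact mH.2 (by have := hg i hi; omega)
    · omega
    · exact f.2 i hi rfl

theorem to_bpf {J : Finset ℕ} {g : ℕ → ℕ} (hJ : ∀ i ∈ J, i ≤ q)
    (hg' : Set.InjOn g J) {X : Finset ℕ} (hX : BF q X) : BPF (EE q) (Gm q J g) X (Od q) := by
  obtain ⟨x1, x2, x3, x4⟩ := hX
  let A : ℕ → Finset ℕ := fun v => (EE q).filter fun z => z ∉ X ∧ (z = v ∨ Gm q J g v z)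
  have hall : ∀ K ⊆ Ev q, K.card ≤ (K.biUnion A).card := by
    intro K hK
    have cnt : ∀ P : Finset ℕ, (∀ z ∈ P, z < 4 * q + 2 ∧ ∃ v ∈ K, z = v ∨ Gm q J g v z) →
        K.card + (P ∩ X).card ≤ P.card → K.card ≤ (K.biUnion A).card := by
      intro P a b
      have h1 : P \ X ⊆ K.biUnion A := fun z hz => by
        obtain ⟨z1, z2⟩ := mem_sdiff.1 hz
        obtain ⟨c, v, d, e⟩ := a z z1
        exact mem_biUnion.2 ⟨v, d, mem_filter.2 ⟨mE.2 c, z2, e⟩⟩
      have := card_le_card h1
      have := card_sdiff_add_card_inter P X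
      omega
    have cX : ∀ P : Finset ℕ, (P ∩ X).card ≤ 2 * q + 1 :=
      fun P => x2 ▸ card_le_card inter_subset_right
    by_cases c1 : ∃ v ∈ K, v % 4 = 2 ∧ ∀ i ∈ J, v ≠ 4 * g i + 2
    · obtain ⟨v, a, b, c⟩ := c1
      refine cnt (EE q) (fun z hz => ⟨mE.1 hz, v, a,
        Or.inr ⟨mE.1 hz, Or.inr ⟨b, fun i hi e => absurd e (c i hi)⟩⟩⟩) ?_
      have := card_le_card hK
      have := cX (EE q)
      rw [cEv] at *
      rw [cE]; omega
    push Not at c1
    have gH : ∀ i ∈ J, ∀ z ∈ HH q i, Gm q J g (4 * g i + 2) z := fun i hi z hz =>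
      ⟨by have := mH.1 hz; have := hJ i hi; omega, Or.inr ⟨by omega, fun k hk e => by
        rwa [← hg' hi hk (by omega)]⟩⟩
    set Ka := K.filter (· % 4 = 0) with hKa
    set Ku := K.filter (fun v => ¬ v % 4 = 0) with hKu
    have s1 : Ka.card + Ku.card = K.card := card_filter_add_card_filter_not _
    have mKu : ∀ v ∈ Ku, v ∈ K ∧ v < 4 * q + 2 ∧ v % 4 = 2 := fun v hv => by
      obtain ⟨a, b⟩ := mem_filter.1 hv
      have := mEv.1 (hK a)
      exact ⟨a, by omega⟩
    have mKa : ∀ v ∈ Ka, v ∈ K ∧ v < 4 * q + 2 ∧ v % 4 = 0 := fun v hv => by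
      obtain ⟨a, b⟩ := mem_filter.1 hv
      exact ⟨a, (mEv.1 (hK a)).1, b⟩
    have s2 : Ku.card ≤ q := cU (q := q) ▸ card_le_card fun v hv => mU.2 (mKu v hv).2
    rcases Ka.eq_empty_or_nonempty with ea | ⟨a0, ha0⟩
    · by_cases c2 : Ku.card ≤ 1
      · rcases Ku.eq_empty_or_nonempty with eu | ⟨v, hv⟩
        · rw [← s1, ea, eu]; simp
        obtain ⟨i, hi, rfl⟩ := c1 v (mKu v hv).1 (mKu v hv).2.2
        obtain ⟨z, z1, z2⟩ : ∃ z ∈ HH q i, z ∉ X := by
          by_contra hn
          push Not at hn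
          exact x4 i (hJ i hi) (eq_of_subset_of_card_le hn (by rw [x2, cH (hJ i hi)])).symm
        refine cnt {z} (fun y hy => ?_) ?_
        · obtain rfl := mem_singleton.1 hy
          exact ⟨(gH i hi _ z1).1, _, (mKu _ hv).1, Or.inr (gH i hi _ z1)⟩
        · rw [singleton_inter_of_notMem z2, ← s1, ea]; simpa using c2
      · obtain ⟨v, hv, w, hw, hne⟩ := one_lt_card.1 (not_le.1 c2)
        obtain ⟨i, hi, rfl⟩ := c1 v (mKu v hv).1 (mKu v hv).2.2
        obtain ⟨k, hk, rfl⟩ := c1 w (mKu w hw).1 (mKu w hw).2.2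
        have ik : i ≠ k := fun e => hne (by rw [e])
        set J' := J.filter (fun l => 4 * g l + 2 ∈ K) with hJ'
        have s3 : Ku.card ≤ J'.card := (card_le_card (t := J'.image (fun l => 4 * g l + 2))
          fun v hv => by
            obtain ⟨l, hl, rfl⟩ := c1 v (mKu v hv).1 (mKu v hv).2.2
            exact mem_image_of_mem _ (mem_filter.2 ⟨hl, (mKu _ hv).1⟩)).trans card_image_le
        refine cnt (Ev q ∪ J'.image (4 * · + 1)) (fun z hz => ?_) ?_
        · rcases mem_union.1 hz with h | h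
          · have := mEv.1 h
            by_cases e : z = 4 * i
            · exact ⟨this.1, _, (mKu _ hw).1, Or.inr (gH k hk z (mH.2 (by omega)))⟩
            · exact ⟨this.1, _, (mKu _ hv).1, Or.inr (gH i hi z (mH.2 (by omega)))⟩
          · obtain ⟨l, hl, rfl⟩ := mem_image.1 h
            obtain ⟨l1, l2⟩ := mem_filter.1 hl
            have := gH l l1 _ (mH.2 (Or.inl rfl))
            exact ⟨this.1, _, l2, Or.inr this⟩
        · have := cX (Ev q ∪ J'.image (4 * · + 1))
          rw [card_union_of_disjoint (disjoint_left.2 fun z a b => by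
            obtain ⟨l, -, rfl⟩ := mem_image.1 b
            have := mEv.1 a; omega), cEv,
            card_image_of_injective _ (fun a b h => by simpa using h), ← s1, ea]
          simp only [card_empty]
          omega
    have gW : ∀ z ∈ Ww q, z < 4 * q + 2 ∧ ∃ v ∈ K, z = v ∨ Gm q J g v z := fun z hz =>
      ⟨(mW.1 hz).1, a0, (mKa _ ha0).1,
        Or.inr ⟨(mW.1 hz).1, Or.inl ⟨(mKa _ ha0).2.2, Or.inr (mW.1 hz).2⟩⟩⟩
    have gP : ∀ v ∈ Ka, ∀ z, (z = v ∨ z = v + 1) →
        z < 4 * q + 2 ∧ ∃ v ∈ K, z = v ∨ Gm q J g v z := fun v hv z e => by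
      have := mKa v hv
      exact ⟨by omega, v, this.1, e.imp_right fun e => ⟨by omega, Or.inl ⟨this.2.2, Or.inl e⟩⟩⟩
    rcases Ku.eq_empty_or_nonempty with eu | ⟨v, hv⟩
    · refine cnt (Ww q ∪ (Ka ∪ Ka.image (· + 1))) (fun z hz => ?_) ?_
      · simp only [mem_union, mem_image] at hz
        rcases hz with h | h | ⟨v, h, rfl⟩
        · exact gW z h
        · exact gP z h z (Or.inl rfl)
        · exact gP v h _ (Or.inr rfl)
      · set P := Ww q ∪ (Ka ∪ Ka.image (· + 1)) with hP
        have e1 : P.card = q + (Ka.card + Ka.card) := by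
          rw [hP, card_union_of_disjoint, card_union_of_disjoint, cW,
            card_image_of_injective _ (add_left_injective 1)]
          · refine disjoint_left.2 fun z a b => ?_
            obtain ⟨v, h, rfl⟩ := mem_image.1 b
            have := mKa _ a; have := mKa _ h; omega
          · refine disjoint_left.2 fun z a b => ?_
            have := mW.1 a
            rcases mem_union.1 b with b | b
            · have := mKa _ b; omega
            · obtain ⟨v, h, rfl⟩ := mem_image.1 b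
              have := mKa _ h; omega
        have e2 : hh X ≤ (Ka ∪ (X \ P).image cls).card := card_le_card fun z hz => by
          obtain ⟨x, hx, rfl⟩ := mem_image.1 hz
          obtain ⟨y1, y2⟩ := mem_filter.1 hx
          by_cases f : x ∈ P
          · refine mem_union_left _ ?_
            simp only [hP, mem_union, mem_image, mW] at f
            rcases f with f | f | ⟨v, f, rfl⟩
            · omega
            · have := mKa _ f
              rwa [cls, if_neg (by omega)]
            · have := mKa _ f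
              rwa [cls, if_pos (by omega)]
          · exact mem_union_right _ (mem_image_of_mem _ (mem_sdiff.2 ⟨y1, f⟩))
        have e3 := e2.trans ((card_union_le _ _).trans (Nat.add_le_add_left card_image_le _))
        have e4 := card_sdiff_add_card_inter X P
        rw [inter_comm, ← s1, eu]
        simp only [card_empty]
        omega
    · obtain ⟨i, hi, rfl⟩ := c1 v (mKu v hv).1 (mKu v hv).2.2
      let pa : ℕ → ℕ := fun c => if c = 4 * i then c else c + 1
      refine cnt (Ww q ∪ (HH q i ∪ Ka.image pa)) (fun z hz => ?_) ?_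
      · simp only [mem_union, mem_image] at hz
        rcases hz with h | h | ⟨w, h, rfl⟩
        · exact gW z h
        · exact ⟨(gH i hi z h).1, _, (mKu _ hv).1, Or.inr (gH i hi z h)⟩
        · exact gP w h _ (by simp only [pa]; split_ifs <;> simp)
      · have := cX (Ww q ∪ (HH q i ∪ Ka.image pa))
        rw [card_union_of_disjoint, card_union_of_disjoint, cW, cH (hJ i hi), card_image_of_injOn]
        · omega
        · intro a ha b hb e
          have := mKa _ ha; have := mKa _ hb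
          simp only [pa] at e
          split_ifs at e <;> omega
        · refine disjoint_left.2 fun z a b => ?_
          obtain ⟨w, h, rfl⟩ := mem_image.1 b
          have := mKa _ h
          rw [mH] at a
          simp only [pa] at a
          split_ifs at a <;> omega
        · refine disjoint_left.2 fun z a b => ?_
          have := mW.1 a
          rcases mem_union.1 b with b | b
          · have := mH.1 b; omega
          · obtain ⟨w, h, rfl⟩ := mem_image.1 b
            have := mKa _ h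
            simp only [pa] at *
            split_ifs at * <;> omega
  obtain ⟨π, p1, p2⟩ := rado Finset.card (fun _ _ h => card_le_card h)
    (fun X Y => (card_union_add_card_inter X Y).le) rfl (Ev q) _ A rfl hall
  refine PF.bpf (EE q).finite_toSet (coe_subset.2 x1) (coe_subset.2 fun z hz => mE.2 (mOd.1 hz).1)
    (by rw [Set.ncard_coe_finset, Set.ncard_coe_finset, cOd, x2]) ⟨π, ?_, ?_, ?_⟩ <;> rw [dEv]
  · exact fun v hv => ⟨(mem_filter.1 (p1 v hv)).1, (mem_filter.1 (p1 v hv)).2.1⟩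
  · exact card_image_iff.1 (le_antisymm card_image_le p2)
  · exact fun v hv => (mem_filter.1 (p1 v hv)).2.2

theorem mm_rel (hq : 1 ≤ q) : Rel q (MM q hq) := by
  intro I Y hI
  let J := (range (q + 1)).filter fun i => ∃ k ∈ I, Y k ∩ EE q = HH q i
  have hJ : ∀ i ∈ J, i ≤ q := fun i hi => by
    have := mem_range.1 (mem_filter.1 hi).1; omega
  have cJ : J.card ≤ q := by
    have : ∀ i, ∃ k, i ∈ J → k ∈ I ∧ Y k ∩ EE q = HH q i := fun i => by
      by_cases h : i ∈ J
      · obtain ⟨k, a⟩ := (mem_filter.1 h).2; exact ⟨k, fun _ => a⟩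
      · exact ⟨∅, fun a => absurd a h⟩
    choose f hf using this
    refine (card_le_card_of_injOn f (fun i hi => (hf i hi).1) fun a ha b hb e => ?_).trans hI
    have e1 : HH q a = HH q b := coe_injective ((hf a ha).2.symm.trans (e ▸ (hf b hb).2))
    have : 4 * a + 1 ∈ HH q b := e1 ▸ mH.2 (Or.inl rfl)
    have := mH.1 this
    omega
  obtain ⟨g, g1, g2⟩ := J.finite_toSet.exists_injOn_of_encard_le (t := (range q : Set ℕ)) (by
    rw [Set.encard_coe_eq_coe_finsetCard, Set.encard_coe_eq_coe_finsetCard, card_range]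
    exact_mod_cast cJ)
  have hO : (Od q : Set ℕ) ⊆ EE q := coe_subset.2 fun z hz => mE.2 (mOd.1 hz).1
  refine ⟨_, (net_fixed adm3 (EE q).finite_toSet hO).pf adm3 (EE q).finite_toSet (Gm q J g),
    fun B hB => ?_, ?_⟩
  · obtain ⟨Z, z1, rfl⟩ := mm_base.1 hB
    exact ⟨coe_subset.2 z1.1, _, rfl, to_bpf hJ g2 z1⟩
  · rintro B ⟨b1, _, rfl, b2⟩ k hk
    obtain ⟨X, rfl⟩ := ((EE q).finite_toSet.subset b1).exists_finset_coe
    obtain ⟨x1, x2, x3⟩ := of_bpf (fun i hi => by simpa using g1 hi) (coe_subset.1 b1) b2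
    by_cases c : ∃ i ≤ q, X = HH q i
    swap
    · push Not at c
      exact ⟨_, mm_base.2 ⟨X, ⟨coe_subset.1 b1, x1, x2, c⟩, rfl⟩, rfl, le_rfl⟩
    obtain ⟨i, hi, rfl⟩ := c
    have ne : Y k ∩ EE q ≠ HH q i :=
      fun e => x3 i (mem_filter.2 ⟨mem_range.2 (by omega), k, hk, e⟩) rfl
    have fin : ∀ x ∈ HH q i, ∀ y ∈ EE q, y ∉ HH q i →
        ((HH q i : Set ℕ) ∩ Y k).ncard ≤
          ((insert y ((HH q i).erase x) : Finset ℕ) ∩ Y k : Set ℕ).ncard →
        ∃ B', (MM q hq).IsBase B' ∧ (HH q i : Set ℕ).ncard = B'.ncard ∧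
          ((HH q i : Set ℕ) ∩ Y k).ncard ≤ (B' ∩ Y k).ncard := fun x a y b c d =>
      ⟨_, mm_base.2 ⟨_, nb hq hi a b c, rfl⟩, by
        rw [Set.ncard_coe_finset, Set.ncard_coe_finset, x1, (nb hq hi a b c).2.1], d⟩
    by_cases d : ∃ x ∈ HH q i, x ∉ Y k
    · obtain ⟨x, a, b⟩ := d
      refine fin x a (4 * i) (mE.2 (by omega)) (by rw [mH]; omega)
        (Set.ncard_le_ncard (fun z hz => ⟨?_, hz.2⟩) ((finite_toSet _).inter_of_left _))
      exact mem_coe.2 (mem_insert_of_mem (mem_erase.2 ⟨fun e => b (e ▸ hz.2), hz.1⟩))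
    · push Not at d
      obtain ⟨y, a, b⟩ : ∃ y ∈ Y k ∩ EE q, y ∉ HH q i := by
        by_contra hn
        push Not at hn
        exact ne (Set.Subset.antisymm hn fun z hz => ⟨d z hz, b1 hz⟩)
      have m : 4 * i + 1 ∈ HH q i := mH.2 (Or.inl rfl)
      refine fin _ m y a.2 b ?_
      rw [Set.inter_eq_left.2 (show (HH q i : Set ℕ) ⊆ Y k from d), Set.inter_eq_left.2,
        Set.ncard_coe_finset, Set.ncard_coe_finset, x1, (nb hq hi m a.2 b).2.1]
      intro z hz
      rcases mem_insert.1 hz with rfl | hz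
      · exact a.1
      · exact d z (mem_of_mem_erase hz)

theorem gam_k3 {M : Matroid ℕ} (h : M ∈ Gammoid) : M ∈ KK S3 := by
  obtain ⟨S, h⟩ := h
  refine (kk_complete adm3).ind _ ?_ M h
  obtain ⟨T, Γ, a, -, b, -⟩ := h
  exact ⟨a.subset b, (net_fixed adm3 (a.subset b) subset_rfl).congr fun X => by simp⟩

theorem no_excl (C : Set (Matroid ℕ)) (hC : C = Gammoid ∨ C = SBO ∨ C = BO)
    {F : Set (Matroid ℕ)} (hF : F.Finite) (hFC : ∀ M ∈ F, M ∉ C) :
    ∃ K, Complete K ∧ (∀ M ∈ F, M ∉ K) ∧ ¬ K ⊆ C := by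
  obtain ⟨m, -, hm⟩ := bound hF
  have hq : 1 ≤ 2 ^ m := Nat.one_le_two_pow
  have c1 : KK S3 ⊆ C := by
    rcases hC with rfl | rfl | rfl
    · exact fun _ h => k3_gam h
    · exact fun _ h => k3_sbo h
    · exact fun _ h => sbo_bo (k3_sbo h)
  have c2 : C ⊆ BO := by
    rcases hC with rfl | rfl | rfl
    · exact fun _ h => sbo_bo (k3_sbo (gam_k3 h))
    · exact sbo_bo
    · exact subset_rfl
  refine ⟨_, kk_complete (adm_rel (2 ^ m)), fun M h1 h2 => hFC M h1 (c1 ⟨h2.1, ?_⟩), fun h => ?_⟩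
  · obtain ⟨B, hB⟩ := M.exists_isBase
    exact replace h2.1 (Nat.pow_le_pow_right (by omega) (hm M h1)) h2.2 hB
  · exact mm_not_bo hq (c2 (h ⟨(EE _).finite_toSet, Net.base ⟨(EE _).finite_toSet, mm_rel hq⟩⟩))

end

end Pool.Agent.H26.Comp
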