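import Mathlib

set_option autoImplicit false
set_option maxHeartbeats 400000

namespace Pool.Agent.H26.Nq

open Filter Topology Polynomial

lemma nil_gen {A : Type*} [Ring A] [Algebra ℂ A] (z : A) (K : ℕ) (hz : z ^ K = 0) (ε : ℂ)
    (hε : ε ≠ 0) (r : ℂ[X]) :
    ∃ p : ℂ[X], aeval (aeval z (X * (C ε + X * r))) p = z := by
  set S := aeval z (X * (C ε + X * r)) with hS
  have key : ∀ i j : ℕ, K ≤ j + i → ∀ g : ℂ[X],
      aeval z (X ^ j * g) ∈ Algebra.adjoin ℂ {S} := by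
    intro i
    induction i with
    | zero =>
      intro j hj g
      rw [map_mul, map_pow, aeval_X, pow_eq_zero_of_le (show K ≤ j by omega) hz, zero_mul]
      exact zero_mem _
    | succ i ih =>
      intro j hj g
      obtain ⟨t, ht⟩ := sub_dvd_pow_sub_pow (C ε + X * r) (C ε) j
      have e1 : X ^ j * g = C (g.coeff 0 / ε ^ j) * ((X * (C ε + X * r)) ^ j - X ^ (j + 1) * (r * t))
          + X ^ (j + 1) * g.divX := by
        have h1 : C (g.coeff 0 / ε ^ j) * C ε ^ j = C (g.coeff 0) := by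
          rw [← C_pow, ← C_mul, div_mul_cancel₀ _ (pow_ne_zero _ hε)]
        have h2 := Polynomial.divX_mul_X_add g
        rw [mul_pow]
        linear_combination (-(X ^ j)) * h2 - X ^ j * h1 - C (g.coeff 0 / ε ^ j) * X ^ j * ht
      rw [e1, map_add, map_mul, map_sub, map_pow, ← hS, aeval_C]
      refine add_mem (mul_mem (Subalgebra.algebraMap_mem _ _) (sub_mem (pow_mem ?_ _)
        (ih _ (by omega) _))) (ih _ (by omega) _)
      exact Algebra.self_mem_adjoin_singleton ℂ S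
  have h := key K 1 (by omega) 1
  rw [Algebra.adjoin_singleton_eq_range_aeval] at h
  obtain ⟨p, hp⟩ := h
  exact ⟨p, by simpa using hp⟩

variable {H : Type*} [NormedAddCommGroup H] [NormedSpace ℂ H]

lemma inv_aeval (M : Submodule ℂ H) (S : H →L[ℂ] H) (h : ∀ x ∈ M, S x ∈ M) (p : ℂ[X]) :
    ∀ x ∈ M, aeval S p x ∈ M := by
  induction p using Polynomial.induction_on with
  | C a => intro x hx; simpa [Algebra.algebraMap_eq_smul_one] using M.smul_mem a hx
  | add p q hp hq => intro x hx; simpa using M.add_mem (hp x hx) (hq x hx)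
  | monomial n a ih =>
    intro x hx
    rw [pow_succ, ← mul_assoc, map_mul, aeval_X]
    exact ih _ (h x hx)

lemma inv_lim (M : Submodule ℂ H) (hM : IsClosed (M : Set H)) (T : H →L[ℂ] H) (S : ℕ → H →L[ℂ] H)
    (hS : ∀ᶠ n in atTop, ∀ x ∈ M, S n x ∈ M) (h : Tendsto S atTop (𝓝 T)) : ∀ x ∈ M, T x ∈ M := by
  intro x hx
  have : Tendsto (fun n => S n x) atTop (𝓝 (T x)) :=
    ((ContinuousLinearMap.apply ℂ H x).continuous.tendsto T).comp h
  exact hM.mem_of_tendsto this (hS.mono fun n hn => hn x hx)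

def Good (z : ℕ → H →L[ℂ] H) (N : ℕ) (S : H →L[ℂ] H) : Prop :=
  ∃ ε : ℂ, ε ≠ 0 ∧ ∃ r : ℂ[X], S = aeval (z N) (X * (C ε + X * r))

def Rad (z : ℕ → H →L[ℂ] H) (N : ℕ) (S : H →L[ℂ] H) (δ : ℝ) : Prop :=
  ∀ x, dist x S ≤ δ → ∀ n ≤ N, ∃ p : ℂ[X], dist (aeval x p) (z n) ≤ 1 / ((N : ℝ) + 1)

lemma good_step (z : ℕ → H →L[ℂ] H) (hp : ∀ n, ∃ m, z n = z (n + 1) ^ (m + 2)) (N : ℕ)
    (S : H →L[ℂ] H) (h : Good z N S) (η : ℝ) (hη : 0 < η) :
    ∃ S', Good z (N + 1) S' ∧ dist S S' ≤ η := by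
  obtain ⟨ε, -, r, rfl⟩ := h
  obtain ⟨m, hm⟩ := hp N
  set e : ℝ := η / (‖z (N + 1)‖ + 1) with he
  have he0 : 0 < e := by positivity
  refine ⟨_, ⟨(e : ℂ), by exact_mod_cast he0.ne',
    X ^ m * (C ε + X ^ (m + 2) * r.comp (X ^ (m + 2))), rfl⟩, ?_⟩
  have e1 : aeval (z N) (X * (C ε + X * r)) =
      aeval (z (N + 1)) ((X * (C ε + X * r)).comp (X ^ (m + 2))) := by
    rw [aeval_comp, map_pow, aeval_X, ← hm]
  rw [e1, dist_comm, dist_eq_norm, ← map_sub]
  have e2 : X * (C (e : ℂ) + X * (X ^ m * (C ε + X ^ (m + 2) * r.comp (X ^ (m + 2))))) -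
      (X * (C ε + X * r)).comp (X ^ (m + 2)) = C (e : ℂ) * X := by
    simp only [mul_comp, add_comp, X_comp, C_comp]; ring
  rw [e2, map_mul, aeval_C, aeval_X, ← Algebra.smul_def, norm_smul, Complex.norm_real,
    Real.norm_eq_abs, abs_of_pos he0, he, div_mul_eq_mul_div, div_le_iff₀ (by positivity)]
  nlinarith

lemma good_rad (z : ℕ → H →L[ℂ] H) (hn : ∀ n, ∃ K, z n ^ K = 0)
    (hp : ∀ n, ∃ m, z n = z (n + 1) ^ (m + 2)) (N : ℕ)
    (S : H →L[ℂ] H) (h : Good z N S) (η : ℝ) (hη : 0 < η) :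
    ∃ δ, 0 < δ ∧ δ ≤ η ∧ Rad z N S δ := by
  obtain ⟨ε, hε, r, hS⟩ := h
  obtain ⟨K, hK⟩ := hn N
  obtain ⟨p, hp1⟩ := nil_gen (z N) K hK ε hε r
  rw [← hS] at hp1
  have hpow : ∀ k n, ∃ m, z n = z (n + k) ^ m := by
    intro k n
    induction k with
    | zero => exact ⟨1, by simp⟩
    | succ k ih =>
      obtain ⟨m, hm⟩ := ih
      obtain ⟨m', hm'⟩ := hp (n + k)
      exact ⟨(m' + 2) * m, by rw [hm, hm', pow_mul]; rfl⟩
  have hev : ∀ᶠ x in 𝓝 S, ∀ n ∈ Finset.range (N + 1),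
      ∃ p : ℂ[X], dist (aeval x p) (z n) ≤ 1 / ((N : ℝ) + 1) := by
    rw [Finset.eventually_all]
    intro n hn
    obtain ⟨k, rfl⟩ := Nat.exists_eq_add_of_le (Nat.lt_succ_iff.1 (Finset.mem_range.1 hn))
    obtain ⟨m, hm⟩ := hpow k n
    have h1 : Tendsto (fun x => aeval x (p ^ m)) (𝓝 S) (𝓝 (z n)) := by
      have := (p ^ m).continuous_aeval.tendsto S
      rwa [map_pow, hp1, ← hm] at this
    filter_upwards [h1 (Metric.closedBall_mem_nhds (z n)
      (by positivity : 0 < 1 / (((n + k : ℕ) : ℝ) + 1)))] with x hx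
    exact ⟨p ^ m, hx⟩
  obtain ⟨δ, hδ, h2⟩ := Metric.nhds_basis_closedBall.eventually_iff.1 hev
  refine ⟨min δ η, lt_min hδ hη, min_le_right _ _, fun x hx n hn => ?_⟩
  exact h2 (hx.trans (min_le_left _ _)) n (Finset.mem_range.2 (by omega))

theorem gen [CompleteSpace H] (z : ℕ → H →L[ℂ] H) (hn : ∀ n, ∃ K, z n ^ K = 0)
    (hp : ∀ n, ∃ m, z n = z (n + 1) ^ (m + 2)) :
    ∃ T : H →L[ℂ] H, ∀ M : Submodule ℂ H, IsClosed (M : Set H) →
      ((∀ x ∈ M, T x ∈ M) ↔ ∀ n, ∀ x ∈ M, z n x ∈ M) := by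
  let St : ℕ → Type _ := fun N => {s : (H →L[ℂ] H) × ℝ // Good z N s.1 ∧ 0 < s.2 ∧ Rad z N s.1 s.2}
  have hstep : ∀ N (s : St N), ∃ s' : St (N + 1),
      dist s.1.1 s'.1.1 ≤ s.1.2 / 2 ∧ s'.1.2 ≤ s.1.2 / 2 := by
    intro N s
    obtain ⟨S', h1, h2⟩ := good_step z hp N s.1.1 s.2.1 (s.1.2 / 2) (half_pos s.2.2.1)
    obtain ⟨δ, h3, h4, h5⟩ := good_rad z hn hp (N + 1) S' h1 (s.1.2 / 2) (half_pos s.2.2.1)
    exact ⟨⟨(S', δ), h1, h3, h5⟩, h2, h4⟩
  choose st hst1 hst2 using hstep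
  have hg0 : Good z 0 (aeval (z 0) (X * (C (1 : ℂ) + X * 0))) := ⟨1, one_ne_zero, 0, rfl⟩
  obtain ⟨δ0, a1, a2, a3⟩ := good_rad z hn hp 0 _ hg0 1 one_pos
  let f : ∀ N, St N := fun N => Nat.rec ⟨(_, δ0), hg0, a1, a3⟩ (fun N s => st N s) N
  let S : ℕ → H →L[ℂ] H := fun N => (f N).1.1
  let η : ℕ → ℝ := fun N => (f N).1.2
  have h1 : ∀ N, dist (S N) (S (N + 1)) ≤ η N / 2 := fun N => hst1 N (f N)
  have h2 : ∀ N, η (N + 1) ≤ η N / 2 := fun N => hst2 N (f N)
  have h0 : ∀ N, 0 < η N := fun N => (f N).2.2.1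
  have hd : ∀ n m, n ≤ m → dist (S n) (S m) ≤ η n := by
    intro n m h
    have : dist (S n) (S m) ≤ η n - η m := by
      induction m, h using Nat.le_induction with
      | base => simp
      | succ k _ ih => linarith [dist_triangle (S n) (S k) (S (k + 1)), h1 k, h2 k]
    linarith [h0 m]
  have hη : Tendsto η atTop (𝓝 0) := by
    refine squeeze_zero (fun n => (h0 n).le) (g := fun n => (1 / 2 : ℝ) ^ n) (fun n => ?_)
      (tendsto_pow_atTop_nhds_zero_of_lt_one (by norm_num) (by norm_num))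
    induction n with
    | zero => rw [pow_zero]; exact a2
    | succ k ih => rw [pow_succ]; linarith [h2 k]
  obtain ⟨T, hT⟩ := cauchySeq_tendsto_of_complete (cauchySeq_of_le_tendsto_0' η hd hη)
  have hTd : ∀ n, dist T (S n) ≤ η n := by
    intro n
    rw [dist_comm]
    refine le_of_tendsto (tendsto_const_nhds.dist hT) ?_
    filter_upwards [eventually_ge_atTop n] with m hm using hd n m hm
  refine ⟨T, fun M hM => ⟨fun h n => ?_, fun h => ?_⟩⟩
  · have : ∀ N, ∃ p : ℂ[X], n ≤ N → dist (aeval T p) (z n) ≤ 1 / ((N : ℝ) + 1) := by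
      intro N
      by_cases hN : n ≤ N
      · obtain ⟨p, hp⟩ := (f N).2.2.2 T (hTd N) n hN
        exact ⟨p, fun _ => hp⟩
      · exact ⟨0, fun h => absurd h hN⟩
    choose p hp using this
    refine inv_lim M hM _ (fun N => aeval T (p N))
      (Eventually.of_forall fun N => inv_aeval M T h _) ?_
    rw [tendsto_iff_dist_tendsto_zero]
    refine squeeze_zero' (Eventually.of_forall fun _ => dist_nonneg) ?_
      tendsto_one_div_add_atTop_nhds_zero_nat
    filter_upwards [eventually_ge_atTop n] with N hN using hp N hN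
  · refine inv_lim M hM _ S (Eventually.of_forall fun N => ?_) hT
    obtain ⟨ε, -, r, hr⟩ := (f N).2.1
    have : S N = _ := hr
    rw [this]
    exact inv_aeval M _ (h N) _

/-! finite dimensional lemma -/

noncomputable def ext {N : ℕ} (y : Fin N → ℂ) (k : ℕ) : ℂ := if h : k < N then y ⟨k, h⟩ else 0

noncomputable def vv {N : ℕ} (m : ℕ) (y : Fin N → ℂ) (j : Fin N) : Fin N → ℂ :=
  fun k => if m ≤ (j : ℕ) then ext y (k + j) else 0

lemma exact_sol {N : ℕ} (y : Fin N → ℂ) (k0 β : Fin N) (hβ : β ≤ k0) (hy : y k0 ≠ 0) :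
    ∃ p : Fin N → ℂ, ∑ j, p j • vv (k0 - β) y j = Pi.single β 1 := by
  classical
  obtain ⟨k, hk, hmax⟩ := (Finset.univ.filter fun i => y i ≠ 0).exists_max_image (fun i => i)
    ⟨k0, by simpa using hy⟩
  have hk0 : k0 ≤ k := hmax k0 (by simpa using hy)
  have hyk : y k ≠ 0 := by simpa using hk
  have hz : ∀ i, (k : ℕ) < i → ext y i = 0 := by
    intro i hi
    unfold ext
    split_ifs with h
    · by_contra h2
      have := hmax ⟨i, h⟩ (by simpa using h2)
      exact absurd hi (not_lt.2 this)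
    · rfl
  rw [← Submodule.mem_span_range_iff_exists_fun]
  set W := Submodule.span ℂ (Set.range (vv (k0 - β) y)) with hW
  have key : ∀ b : ℕ, ∀ γ : Fin N, (γ : ℕ) = b → γ ≤ β → (Pi.single γ 1 : Fin N → ℂ) ∈ W := by
    intro b
    induction b using Nat.strong_induction_on with
    | _ b ih =>
      intro γ hγ hγβ
      have hγk : (γ : ℕ) ≤ k := le_trans hγβ (le_trans hβ hk0)
      let j : Fin N := ⟨k - γ, by omega⟩
      have hj : vv (k0 - β) y j ∈ W := Submodule.subset_span ⟨j, rfl⟩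
      have hjm : (k0 : ℕ) - β ≤ (j : ℕ) := by
        have a1 : (γ : ℕ) ≤ β := hγβ
        have a2 : (k0 : ℕ) ≤ k := hk0
        show _ ≤ (k : ℕ) - γ
        omega
      have e : (Pi.single γ 1 : Fin N → ℂ) = (y k)⁻¹ • (vv (k0 - β) y j -
          ∑ i ∈ Finset.univ.filter (fun i => i < γ),
            vv (k0 - β) y j i • (Pi.single i 1 : Fin N → ℂ)) := by
        funext i
        simp only [Pi.smul_apply, Pi.sub_apply, Finset.sum_apply, Pi.single_apply, smul_eq_mul,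
          mul_ite, mul_one, mul_zero, Finset.sum_ite_eq, Finset.mem_filter, Finset.mem_univ,
          true_and]
        rcases lt_trichotomy i γ with h | h | h
        · simp [h, h.ne]
        · subst h
          have : vv (k0 - β) y j i = y k := by
            simp only [vv, if_pos hjm, ext]
            have a : (i : ℕ) + j = k := by show (i : ℕ) + (k - i) = k; omega
            simp [a]
          simp [this, hyk]
        · have : vv (k0 - β) y j i = 0 := by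
            simp only [vv, if_pos hjm]
            apply hz
            have : (γ : ℕ) < i := h
            show (k : ℕ) < i + (k - γ); omega
          simp [this, h.ne', not_lt.2 h.le]
      rw [e]
      refine W.smul_mem _ (W.sub_mem hj (W.sum_mem fun i hi => W.smul_mem _ ?_))
      have hi' : i < γ := by simpa using hi
      exact ih i (by rw [← hγ]; exact hi') i rfl (hi'.le.trans hγβ)
  exact key β β rfl le_rfl

lemma vv_cont {N : ℕ} (m : ℕ) (j : Fin N) : Continuous fun y : Fin N → ℂ => vv m y j := by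
  refine continuous_pi fun k => ?_
  unfold vv ext
  split_ifs <;> fun_prop

lemma unif_sol (N : ℕ) (θ γ : ℝ) (hθ : 0 < θ) (hγ : 0 < γ) :
    ∃ B : ℝ, 0 ≤ B ∧ ∀ (y : Fin N → ℂ) (k0 β : Fin N), β ≤ k0 → ‖y‖ ≤ 1 → γ ≤ ‖y k0‖ →
      ∃ p : Fin N → ℂ, ‖p‖ ≤ B ∧ ‖∑ j, p j • vv (k0 - β) y j - Pi.single β 1‖ ≤ θ := by
  have h : ∀ q : Fin N × Fin N, ∃ m : ℕ, ∀ y : Fin N → ℂ, q.2 ≤ q.1 → ‖y‖ ≤ 1 → γ ≤ ‖y q.1‖ →
      ∃ p : Fin N → ℂ, ‖p‖ ≤ m ∧ ‖∑ j, p j • vv (q.1 - q.2) y j - Pi.single q.2 1‖ < θ := by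
    rintro ⟨k0, β⟩
    by_cases hβ : β ≤ k0
    swap
    · exact ⟨0, fun y h => absurd h hβ⟩
    have hK : IsCompact (Metric.closedBall (0 : Fin N → ℂ) 1 ∩ {y | γ ≤ ‖y k0‖}) :=
      (isCompact_closedBall _ _).inter_right (isClosed_le continuous_const (by fun_prop))
    let U : ℕ → Set (Fin N → ℂ) := fun m => ⋃ p ∈ {p : Fin N → ℂ | ‖p‖ ≤ m},
      {y | ‖∑ j, p j • vv (k0 - β) y j - (Pi.single β 1 : Fin N → ℂ)‖ < θ}
    have hc : ∀ p : Fin N → ℂ, Continuous fun y : Fin N → ℂ =>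
        ‖∑ j, p j • vv (k0 - β) y j - (Pi.single β 1 : Fin N → ℂ)‖ := by
      intro p
      refine Continuous.norm (Continuous.sub ?_ continuous_const)
      exact continuous_finset_sum _ fun j _ => (vv_cont ((k0 : ℕ) - β) j).const_smul (p j)
    obtain ⟨m, hm⟩ := hK.elim_directed_cover U
      (fun m => isOpen_biUnion fun p _ => isOpen_lt (hc p) continuous_const)
      (fun y hy => by
        have hy0 : y k0 ≠ 0 := by
          intro h0
          have : γ ≤ ‖y k0‖ := hy.2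
          rw [h0, norm_zero] at this; linarith
        obtain ⟨p, hp⟩ := exact_sol y k0 β hβ hy0
        obtain ⟨m, hm⟩ := exists_nat_ge ‖p‖
        exact Set.mem_iUnion.2 ⟨m, Set.mem_iUnion₂.2 ⟨p, hm, by simp [hp, hθ]⟩⟩)
      (directed_of_isDirected_le fun a b hab => Set.biUnion_subset_biUnion_left fun p hp =>
        show ‖p‖ ≤ (b : ℝ) from le_trans (show ‖p‖ ≤ (a : ℝ) from hp) (Nat.cast_le.2 hab))
    refine ⟨m, fun y _ h1 h2 => ?_⟩
    obtain ⟨p, hp1, hp2⟩ := Set.mem_iUnion₂.1 (hm ⟨by simpa using h1, h2⟩)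
    exact ⟨p, hp1, hp2⟩
  choose m hm using h
  refine ⟨∑ q, (m q : ℝ), by positivity, fun y k0 β h1 h2 h3 => ?_⟩
  obtain ⟨p, hp1, hp2⟩ := hm (k0, β) y h1 h2 h3
  exact ⟨p, hp1.trans (Finset.single_le_sum (f := fun q => (m q : ℝ)) (fun q _ => by positivity)
    (Finset.mem_univ _)), hp2.le⟩

end Pool.Agent.H26.Nq
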