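import Pool.Agent.H26.Nq1

set_option autoImplicit false
set_option maxHeartbeats 400000

namespace Pool.Agent.H26.Nq

open Filter Topology
open scoped Nat

noncomputable abbrev HH := lp (fun _ : ℚ => ℂ) 2

lemma two_pos' : 0 < (2 : ENNReal).toReal := by norm_num

lemma wc_sum (c : ℚ → ℂ) (σ : ℚ → ℚ) (C : ℝ) (hC0 : 0 ≤ C) (hc : ∀ r, ‖c r‖ ≤ C)
    (hσ : Set.InjOn σ {r | c r ≠ 0}) (f : HH) (s : Finset ℚ) :
    ∑ i ∈ s, ‖c i * f (σ i)‖ ^ (2 : ENNReal).toReal ≤ (C * ‖f‖) ^ (2 : ENNReal).toReal := by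
  classical
  have h := lp.sum_rpow_le_norm_rpow two_pos' f ((s.filter fun i => c i ≠ 0).image σ)
  have hinj : Set.InjOn σ (s.filter fun i => c i ≠ 0 : Finset ℚ) := fun a ha b hb hab =>
    hσ (Finset.mem_filter.1 (Finset.mem_coe.1 ha)).2 (Finset.mem_filter.1 (Finset.mem_coe.1 hb)).2 hab
  rw [Finset.sum_image hinj, Finset.sum_filter] at h
  rw [Real.mul_rpow hC0 (norm_nonneg _)]
  refine le_trans ?_ (mul_le_mul_of_nonneg_left h (by positivity))
  rw [Finset.mul_sum]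
  refine Finset.sum_le_sum fun i _ => ?_
  split_ifs with hi
  · rw [← Real.mul_rpow hC0 (norm_nonneg _), norm_mul]
    exact Real.rpow_le_rpow (by positivity) (mul_le_mul_of_nonneg_right (hc i) (norm_nonneg _))
      two_pos'.le
  · push Not at hi
    simp [hi]

lemma exists_wc (c : ℚ → ℂ) (σ : ℚ → ℚ) (C : ℝ) (hC0 : 0 ≤ C) (hc : ∀ r, ‖c r‖ ≤ C)
    (hσ : Set.InjOn σ {r | c r ≠ 0}) :
    ∃ T : HH →L[ℂ] HH, ‖T‖ ≤ C ∧ ∀ f r, T f r = c r * f (σ r) := by
  let L : HH →ₗ[ℂ] HH :=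
    { toFun := fun f => ⟨fun r => c r * f (σ r), memℓp_gen' (wc_sum c σ C hC0 hc hσ f)⟩
      map_add' := fun f g => by
        refine lp.ext (funext fun r => ?_)
        show c r * (f + g) (σ r) = c r * f (σ r) + c r * g (σ r)
        rw [lp.coeFn_add, Pi.add_apply, mul_add]
      map_smul' := fun a f => by
        refine lp.ext (funext fun r => ?_)
        show c r * (a • f) (σ r) = a • (c r * f (σ r))
        rw [lp.coeFn_smul, Pi.smul_apply, smul_eq_mul, smul_eq_mul]; ring }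
  have hL : ∀ f, ‖L f‖ ≤ C * ‖f‖ := fun f =>
    lp.norm_le_of_forall_sum_le two_pos' (by positivity) (wc_sum c σ C hC0 hc hσ f)
  exact ⟨L.mkContinuous C hL, LinearMap.mkContinuous_norm_le _ hC0 _, fun f r => rfl⟩

lemma norm_fin (A : HH) (s : Finset ℚ) (δ : ℝ) (h0 : ∀ r, r ∉ s → A r = 0)
    (h1 : ∀ r ∈ s, ‖A r‖ ≤ δ) : ‖A‖ ≤ s.card * δ := by
  have h := lp.hasSum_single (p := 2) (by simp) A
  have h2 : HasSum (fun i : ℚ => lp.single (E := fun _ : ℚ => ℂ) 2 i (A i))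
      (∑ i ∈ s, lp.single (E := fun _ : ℚ => ℂ) 2 i (A i)) :=
    hasSum_sum_of_ne_finset_zero fun r hr => by rw [h0 r hr]; simp
  rw [h.unique h2]
  refine (norm_sum_le _ _).trans ?_
  rw [← nsmul_eq_mul, ← Finset.sum_const]
  refine Finset.sum_le_sum fun r hr => ?_
  rw [lp.norm_single (by simp)]
  exact h1 r hr

noncomputable def phi : ℚ ≃o Set.Ioo (0 : ℚ) 1 :=
  haveI : Nonempty (Set.Ioo (0 : ℚ) 1) := ⟨⟨1 / 2, by norm_num, by norm_num⟩⟩
  Classical.choice (Order.iso_of_countable_dense ℚ (Set.Ioo (0 : ℚ) 1))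

noncomputable def pos (r : ℚ) : ℚ := phi r

noncomputable def back (q : ℚ) : ℚ := if h : q ∈ Set.Ioo (0 : ℚ) 1 then phi.symm ⟨q, h⟩ else 0

lemma pos_pos (r : ℚ) : 0 < pos r := (phi r).2.1
lemma pos_lt (r : ℚ) : pos r < 1 := (phi r).2.2
lemma back_pos (r : ℚ) : back (pos r) = r := by
  unfold back
  rw [dif_pos (show pos r ∈ Set.Ioo (0 : ℚ) 1 from (phi r).2)]
  exact phi.symm_apply_apply r
lemma pos_back (q : ℚ) (h0 : 0 < q) (h1 : q < 1) : pos (back q) = q := by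
  unfold back
  rw [dif_pos (show q ∈ Set.Ioo (0 : ℚ) 1 from ⟨h0, h1⟩)]
  simp [pos]
lemma pos_mono : StrictMono pos := fun _ _ h => phi.strictMono h

def G (n : ℕ) (q : ℚ) : Prop := ∃ k : ℤ, q * (n ! : ℕ) = k

lemma G_mono {n m : ℕ} {q : ℚ} (h : G n q) (hnm : n ≤ m) : G m q := by
  obtain ⟨k, hk⟩ := h
  obtain ⟨t, ht⟩ := Nat.factorial_dvd_factorial hnm
  exact ⟨k * t, by rw [ht]; push_cast; rw [← mul_assoc, hk]⟩

lemma G_ex (q : ℚ) : ∃ n, G n q := by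
  obtain ⟨t, ht⟩ := Nat.dvd_factorial q.den_pos le_rfl
  exact ⟨q.den, q.num * t, by rw [ht]; push_cast; rw [← mul_assoc, Rat.mul_den_eq_num]⟩

lemma G_add {n : ℕ} {q s : ℚ} (h : G n q) (h' : G n s) : G n (q + s) := by
  obtain ⟨k, hk⟩ := h
  obtain ⟨l, hl⟩ := h'
  exact ⟨k + l, by push_cast; rw [add_mul, hk, hl]⟩

lemma G_sub {n : ℕ} {q s : ℚ} (h : G n q) (h' : G n s) : G n (q - s) := by
  obtain ⟨k, hk⟩ := h
  obtain ⟨l, hl⟩ := h'
  exact ⟨k - l, by push_cast; rw [sub_mul, hk, hl]⟩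

lemma G_div (n j : ℕ) : G n ((j : ℚ) / (n ! : ℕ)) :=
  ⟨j, by
    have : ((n ! : ℕ) : ℚ) ≠ 0 := by exact_mod_cast (Nat.factorial_ne_zero n)
    field_simp; simp⟩

open Classical in
noncomputable def lev (q : ℚ) : ℕ := Nat.find (G_ex q)

lemma lev_le {n : ℕ} {q : ℚ} : lev q ≤ n ↔ G n q := by
  classical
  exact ⟨fun h => G_mono (Nat.find_spec (G_ex q)) h, fun h => Nat.find_min' _ h⟩

lemma lev_add {n : ℕ} {q s : ℚ} (hs : G n s) (hq : n < lev q) : lev (q + s) = lev q := by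
  refine le_antisymm (lev_le.2 (G_add (lev_le.1 le_rfl) (G_mono hs hq.le))) ?_
  by_contra h
  push Not at h
  have h1 : G (max n (lev (q + s))) q := by
    have := G_sub (lev_le.1 (le_max_right n (lev (q + s)))) (G_mono hs (le_max_left _ _))
    simpa using this
  have := lev_le.2 h1
  omega

lemma grid {n : ℕ} {q : ℚ} (h : G n q) (h0 : 0 < q) (h1 : q < 1) :
    ∃ k : Fin (n !), q = (((k : ℕ) : ℚ) + 1) / (n ! : ℕ) := by
  obtain ⟨k, hk⟩ := h
  have hN : (0 : ℚ) < (n ! : ℕ) := by exact_mod_cast Nat.factorial_pos n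
  have a1 : (0 : ℚ) < k := by rw [← hk]; positivity
  have a2 : (k : ℚ) < (n ! : ℕ) := by rw [← hk]; nlinarith
  have b1 : 0 < k := by exact_mod_cast a1
  have b2 : k < (n ! : ℕ) := by exact_mod_cast a2
  refine ⟨⟨(k - 1).toNat, by omega⟩, ?_⟩
  rw [eq_div_iff hN.ne', hk]
  have : (((k - 1).toNat : ℕ) : ℤ) = k - 1 := Int.toNat_of_nonneg (by omega)
  have h3 : (((k - 1).toNat : ℕ) : ℚ) = (k : ℚ) - 1 := by exact_mod_cast this
  show (k : ℚ) = (((k - 1).toNat : ℕ) : ℚ) + 1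
  rw [h3]; ring

noncomputable def Bf (l : ℕ) (Λ : ℝ) : ℝ :=
  (unif_sol (l !) (Real.exp (-Λ) / ((l ! : ℕ) * ((l : ℝ) + 1))) (1 / ((l : ℝ) + 1))
    (by have := Nat.factorial_pos l; positivity) (by positivity)).choose

lemma Bf_spec (l : ℕ) (Λ : ℝ) : 0 ≤ Bf l Λ ∧ ∀ (y : Fin (l !) → ℂ) (k0 β : Fin (l !)), β ≤ k0 →
    ‖y‖ ≤ 1 → 1 / ((l : ℝ) + 1) ≤ ‖y k0‖ → ∃ p : Fin (l !) → ℂ, ‖p‖ ≤ Bf l Λ ∧
      ‖∑ j, p j • vv (k0 - β) y j - Pi.single β 1‖ ≤ Real.exp (-Λ) / ((l ! : ℕ) * ((l : ℝ) + 1)) :=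
  (unif_sol (l !) (Real.exp (-Λ) / ((l ! : ℕ) * ((l : ℝ) + 1))) (1 / ((l : ℝ) + 1))
    (by have := Nat.factorial_pos l; positivity) (by positivity)).choose_spec

noncomputable def lam : ℕ → ℝ
  | 0 => 0
  | l + 1 => lam l + ((l : ℝ) + 1) * (((l : ℝ) + 1) * ((l ! : ℕ) * Bf l (lam l)))

lemma lam_mono : Monotone lam := monotone_nat_of_le_succ fun l => by
  have := (Bf_spec l (lam l)).1
  rw [lam]
  exact le_add_of_nonneg_right (by positivity)

lemma lam_nonneg (l : ℕ) : 0 ≤ lam l := lam_mono (Nat.zero_le l)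

lemma lam_key (l : ℕ) : (l ! : ℕ) * (Bf l (lam l) * Real.exp (-(lam (l + 1) * (1 / ((l : ℝ) + 1)))))
    ≤ 1 / ((l : ℝ) + 1) := by
  have hB := (Bf_spec l (lam l)).1
  set u : ℝ := ((l : ℝ) + 1) * ((l ! : ℕ) * Bf l (lam l)) with hu
  have hu0 : 0 ≤ u := by positivity
  have hl : (0 : ℝ) < (l : ℝ) + 1 := by positivity
  have h1 : u ≤ lam (l + 1) * (1 / ((l : ℝ) + 1)) := by
    rw [lam, ← hu, mul_one_div, le_div_iff₀ hl]
    nlinarith [lam_nonneg l]
  have h2 : Real.exp (-(lam (l + 1) * (1 / ((l : ℝ) + 1)))) ≤ Real.exp (-u) :=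
    Real.exp_le_exp.2 (by linarith)
  have h3 : u * Real.exp (-u) ≤ 1 := by
    rw [Real.exp_neg, ← div_eq_mul_inv, div_le_one (Real.exp_pos _)]
    linarith [Real.add_one_le_exp u]
  rw [le_div_iff₀ hl]
  calc _ = u * Real.exp (-(lam (l + 1) * (1 / ((l : ℝ) + 1)))) := by rw [hu]; ring
    _ ≤ u * Real.exp (-u) := mul_le_mul_of_nonneg_left h2 hu0
    _ ≤ 1 := h3

noncomputable def om (q : ℚ) : ℝ := Real.exp (lam (lev q) * q)

lemma om_pos (q : ℚ) : 0 < om q := Real.exp_pos _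
lemma one_le_om (q : ℚ) (h : 0 < q) : 1 ≤ om q :=
  Real.one_le_exp (mul_nonneg (lam_nonneg _) (by exact_mod_cast h.le))
lemma om_le (q : ℚ) (n : ℕ) (h : q < 1) (hn : lev q ≤ n) : om q ≤ Real.exp (lam n) := by
  refine Real.exp_le_exp.2 ?_
  have : (q : ℝ) < 1 := by exact_mod_cast h
  nlinarith [lam_nonneg (lev q), lam_mono hn]
lemma om_ratio {n : ℕ} {q s : ℚ} (hs : G n s) (hq : n < lev q) :
    om q / om (q + s) = Real.exp (-(lam (lev q) * s)) := by
  rw [om, om, lev_add hs hq, ← Real.exp_sub]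
  congr 1; push_cast; ring

noncomputable def XX (f : HH) (q : ℚ) : ℂ := if 0 < q ∧ q < 1 then f (back q) / (om q : ℂ) else 0

lemma XX_pos (f : HH) (r : ℚ) : (om (pos r) : ℂ) * XX f (pos r) = f r := by
  have : (om (pos r) : ℂ) ≠ 0 := by exact_mod_cast (om_pos _).ne'
  rw [XX, if_pos ⟨pos_pos r, pos_lt r⟩, back_pos]; field_simp

lemma XX_norm (f : HH) (q : ℚ) : ‖XX f q‖ ≤ ‖f‖ := by
  unfold XX
  split_ifs with h
  · rw [norm_div, Complex.norm_real, Real.norm_eq_abs, abs_of_pos (om_pos q)]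
    exact (div_le_self (norm_nonneg _) (one_le_om q h.1)).trans
      (lp.norm_apply_le_norm (by simp) f _)
  · simp

lemma exists_shift (s : ℚ) (hs : 0 ≤ s) (P : ℚ → Prop) [DecidablePred P] (C : ℝ) (hC0 : 0 ≤ C)
    (hC : ∀ q, 0 < q → q < 1 → P q → om q / om (q + s) ≤ C) :
    ∃ T : HH →L[ℂ] HH, ‖T‖ ≤ C ∧
      ∀ f r, T f r = if P (pos r) then (om (pos r) : ℂ) * XX f (pos r + s) else 0 := by
  obtain ⟨T, h1, h2⟩ := exists_wc
    (fun r => if P (pos r) ∧ pos r + s < 1 then ((om (pos r) / om (pos r + s) : ℝ) : ℂ) else 0)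
    (fun r => back (pos r + s)) C hC0
    (fun r => by
      split_ifs with h
      · rw [Complex.norm_real, Real.norm_eq_abs, abs_of_pos (div_pos (om_pos _) (om_pos _))]
        exact hC _ (pos_pos r) (pos_lt r) h.1
      · simpa using hC0)
    (fun a ha b hb hab => by
      have ha' : pos a + s < 1 := by
        by_contra h; exact ha (if_neg fun h' => h h'.2)
      have hb' : pos b + s < 1 := by
        by_contra h; exact hb (if_neg fun h' => h h'.2)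
      have := congrArg pos hab
      simp only at this
      rw [pos_back _ (by linarith [pos_pos a]) ha', pos_back _ (by linarith [pos_pos b]) hb'] at this
      exact pos_mono.injective (by linarith))
  refine ⟨T, h1, fun f r => ?_⟩
  rw [h2]
  have h0 : 0 < pos r + s := by linarith [pos_pos r]
  by_cases hP : P (pos r) <;> by_cases h3 : pos r + s < 1 <;> simp [hP, h3, XX, h0]
  ring

lemma exists_z (n : ℕ) : ∃ T : HH →L[ℂ] HH,
    ∀ f r, T f r = (om (pos r) : ℂ) * XX f (pos r + 1 / ((n + 1)! : ℕ)) := by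
  obtain ⟨T, -, h⟩ := exists_shift (1 / ((n + 1)! : ℕ)) (by positivity) (fun _ => True)
    (Real.exp (lam (n + 1))) (Real.exp_pos _).le (fun q h0 h1 _ => by
      have hs : (0 : ℚ) ≤ 1 / ((n + 1)! : ℕ) := by positivity
      by_cases hq : lev q ≤ n + 1
      · exact (div_le_self (om_pos _).le (one_le_om _ (by linarith))).trans (om_le q _ h1 hq)
      · have hG := G_div (n + 1) 1
        rw [Nat.cast_one] at hG
        rw [om_ratio hG (by omega)]
        refine Real.exp_le_exp.2 ?_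
        have : (0 : ℝ) ≤ ((1 / ((n + 1)! : ℕ) : ℚ) : ℝ) := by exact_mod_cast hs
        nlinarith [lam_nonneg (lev q), lam_nonneg (n + 1)])
  exact ⟨T, fun f r => by simpa using h f r⟩

noncomputable def zz (n : ℕ) : HH →L[ℂ] HH := (exists_z n).choose

lemma zz_apply (n : ℕ) (f : HH) (r : ℚ) :
    zz n f r = (om (pos r) : ℂ) * XX f (pos r + 1 / ((n + 1)! : ℕ)) := (exists_z n).choose_spec f r

lemma XX_zz (n : ℕ) (f : HH) (q : ℚ) (h : 0 < q) :
    XX (zz n f) q = XX f (q + 1 / ((n + 1)! : ℕ)) := by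
  by_cases h1 : q < 1
  · have : (om q : ℂ) ≠ 0 := by exact_mod_cast (om_pos _).ne'
    rw [XX, if_pos ⟨h, h1⟩, zz_apply, pos_back q h h1]; field_simp
  · have hs : (0 : ℚ) ≤ 1 / ((n + 1)! : ℕ) := by positivity
    rw [XX, XX, if_neg fun h' => h1 h'.2, if_neg fun h' => h1 (by linarith [h'.2])]

lemma zz_pow (n j : ℕ) (f : HH) (r : ℚ) :
    (zz n ^ j) f r = (om (pos r) : ℂ) * XX f (pos r + (j : ℚ) / ((n + 1)! : ℕ)) := by
  induction j generalizing f with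
  | zero => simp [XX_pos]
  | succ j ih =>
    rw [pow_succ, ContinuousLinearMap.mul_apply, ih, XX_zz _ _ _ (by
      have := pos_pos r
      positivity)]
    congr 2
    push_cast; ring

lemma zz_nil (n : ℕ) : ∃ K, zz n ^ K = 0 := by
  refine ⟨(n + 1)!, ?_⟩
  ext f r
  have : (((n + 1)! : ℕ) : ℚ) ≠ 0 := by exact_mod_cast (Nat.factorial_ne_zero _)
  rw [zz_pow, div_self this, XX, if_neg fun h => by linarith [h.2, pos_pos r]]
  simp

lemma zz_root (n : ℕ) : ∃ m, zz n = zz (n + 1) ^ (m + 2) := by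
  refine ⟨n, ?_⟩
  ext f r
  rw [zz_pow, zz_apply]
  congr 3
  have : (((n + 1)! : ℕ) : ℚ) ≠ 0 := by exact_mod_cast (Nat.factorial_ne_zero _)
  rw [Nat.factorial_succ (n + 1)]
  push_cast
  field_simp
  ring

end Pool.Agent.H26.Nq
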