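import Pool.Agent.H26.Nq2

set_option autoImplicit false
set_option maxHeartbeats 400000

namespace Pool.Agent.H26.Nq

open Filter Topology
open scoped Nat

lemma ext_XX (f : HH) (N : ℕ) (hN : 0 < N) (i : ℕ) :
    ext (fun k : Fin N => XX f ((((k : ℕ) : ℚ) + 1) / N)) i = XX f (((i : ℚ) + 1) / N) := by
  unfold ext
  split_ifs with h
  · rfl
  · have h1 : (N : ℚ) ≤ i := by exact_mod_cast not_lt.1 h
    have h2 : (0 : ℚ) < N := by exact_mod_cast hN
    rw [XX, if_neg]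
    rintro ⟨-, h3⟩
    rw [div_lt_one h2] at h3; linarith

lemma approx (f : HH) (hf : ‖f‖ ≤ 1) (r0 b : ℚ) (hb : b < r0) (n : ℕ)
    (g1 : G (n + 1) (pos r0)) (g2 : G (n + 1) (pos b))
    (g3 : 1 / (((n + 1 : ℕ) : ℝ) + 1) ≤ ‖XX f (pos r0)‖)
    (g4 : 1 / (((n + 1 : ℕ) : ℝ) + 1) ≤ ((pos r0 - pos b : ℚ) : ℝ)) :
    ∃ c : Fin ((n + 1)!) → ℂ, ‖∑ j, c j • (zz n ^ (j : ℕ)) f -
      (om (pos b) : ℂ) • lp.single (E := fun _ : ℚ => ℂ) 2 b 1‖ ≤ 2 / (((n + 1 : ℕ) : ℝ) + 1) := by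
  classical
  set l := n + 1 with hl
  have hN : 0 < l ! := Nat.factorial_pos l
  have hNq : (0 : ℚ) < (l ! : ℕ) := by exact_mod_cast hN
  obtain ⟨k0, hk0⟩ := grid g1 (pos_pos _) (pos_lt _)
  obtain ⟨β, hβ⟩ := grid g2 (pos_pos _) (pos_lt _)
  have hlt : (β : ℕ) < k0 := by
    have := pos_mono hb
    rw [hk0, hβ, div_lt_div_iff_of_pos_right hNq] at this
    exact_mod_cast (by linarith : ((β : ℕ) : ℚ) < (k0 : ℕ))
  set y : Fin (l !) → ℂ := fun k => XX f ((((k : ℕ) : ℚ) + 1) / (l ! : ℕ)) with hy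
  obtain ⟨hB, hspec⟩ := Bf_spec l (lam l)
  obtain ⟨p, hp1, hp2⟩ := hspec y k0 β (le_of_lt hlt)
    ((pi_norm_le_iff_of_nonneg zero_le_one).2 fun k => (XX_norm f _).trans hf)
    (by simp only [hy]; rw [← hk0]; exact g3)
  set m : ℕ := (k0 : ℕ) - β with hm
  set E : ℝ := Real.exp (-(lam (l + 1) * (1 / ((l : ℝ) + 1)))) with hE
  have hR : ∀ j : Fin (l !), ∃ R : HH →L[ℂ] HH, ‖R‖ ≤ E ∧ ∀ f r, R f r =
      if (l < lev (pos r) ∧ m ≤ (j : ℕ)) then
        (om (pos r) : ℂ) * XX f (pos r + ((j : ℕ) : ℚ) / (l ! : ℕ)) else 0 := by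
    intro j
    refine exists_shift _ (by positivity) (fun q => l < lev q ∧ m ≤ (j : ℕ)) E (Real.exp_pos _).le
      fun q h0 h1 h2 => ?_
    rw [om_ratio (G_div l j) h2.1]
    refine Real.exp_le_exp.2 (neg_le_neg ?_)
    have a1 : lam (l + 1) ≤ lam (lev q) := lam_mono h2.1
    have a2 : pos r0 - pos b ≤ ((j : ℕ) : ℚ) / (l ! : ℕ) := by
      rw [hk0, hβ, ← sub_div]
      refine div_le_div_of_nonneg_right ?_ hNq.le
      have : (k0 : ℕ) ≤ j + β := by omega
      have : ((k0 : ℕ) : ℚ) ≤ (j : ℕ) + (β : ℕ) := by exact_mod_cast this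
      linarith
    have a3 : 1 / ((l : ℝ) + 1) ≤ ((((j : ℕ) : ℚ) / (l ! : ℕ) : ℚ) : ℝ) :=
      g4.trans (by exact_mod_cast a2)
    exact mul_le_mul a1 a3 (by positivity) (lam_nonneg _)
  choose R hR1 hR2 using hR
  refine ⟨fun j => if m ≤ (j : ℕ) then p j else 0, ?_⟩
  set A : HH := ∑ j : Fin (l !), (if m ≤ (j : ℕ) then p j else 0) • (zz n ^ (j : ℕ)) f -
      (om (pos b) : ℂ) • lp.single (E := fun _ : ℚ => ℂ) 2 b 1 - ∑ j, p j • R j f with hA
  have hAr : ∀ r, A r = ∑ j : Fin (l !), (if m ≤ (j : ℕ) then p j else 0) *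
      ((om (pos r) : ℂ) * XX f (pos r + ((j : ℕ) : ℚ) / (l ! : ℕ))) -
      (om (pos b) : ℂ) * (if r = b then 1 else 0) - ∑ j, p j * R j f r := by
    intro r
    simp only [hA, lp.coeFn_sub, lp.coeFn_sum, lp.coeFn_smul, Pi.sub_apply, Finset.sum_apply,
      Pi.smul_apply, smul_eq_mul, zz_pow, lp.single_apply, Pi.single_apply]
    rfl
  have hA1 : ‖A‖ ≤ 1 / ((l : ℝ) + 1) := by
    have hδ : 0 ≤ 1 / ((l ! : ℕ) * ((l : ℝ) + 1)) := by positivity
    have hhigh : ∀ r, l < lev (pos r) → A r = 0 := by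
      intro r hr
      have hrb : r ≠ b := by
        rintro rfl
        have := lev_le.2 g2; omega
      rw [hAr, if_neg hrb, mul_zero, sub_zero, ← Finset.sum_sub_distrib]
      refine Finset.sum_eq_zero fun j _ => ?_
      rw [hR2]
      by_cases hj : m ≤ (j : ℕ) <;> simp [hj, hr]
    refine (norm_fin A (Finset.univ.image fun k : Fin (l !) =>
      back ((((k : ℕ) : ℚ) + 1) / (l ! : ℕ))) (1 / ((l ! : ℕ) * ((l : ℝ) + 1))) ?_ ?_).trans ?_
    · intro r hr
      refine hhigh r (not_le.1 fun h => hr ?_)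
      obtain ⟨k, hk⟩ := grid (lev_le.1 h) (pos_pos r) (pos_lt r)
      exact Finset.mem_image.2 ⟨k, Finset.mem_univ _, by rw [← hk, back_pos]⟩
    · intro r _
      by_cases h : lev (pos r) ≤ l
      swap
      · rw [hhigh r (not_le.1 h), norm_zero]; exact hδ
      obtain ⟨k, hk⟩ := grid (lev_le.1 h) (pos_pos r) (pos_lt r)
      have e : A r = (om (pos r) : ℂ) *
          (∑ j, p j • vv m y j - (Pi.single β 1 : Fin (l !) → ℂ)) k := by
        rw [hAr, Finset.sum_eq_zero (s := Finset.univ) (f := fun j => p j * R j f r)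
          (fun j _ => by rw [hR2, if_neg (fun h' => absurd h'.1 (not_lt.2 h)), mul_zero]),
          sub_zero, Pi.sub_apply, Finset.sum_apply, mul_sub, Finset.mul_sum]
        congr 1
        · refine Finset.sum_congr rfl fun j _ => ?_
          have e2 : pos r + ((j : ℕ) : ℚ) / (l ! : ℕ) = ((((k : ℕ) + j : ℕ) : ℚ) + 1) / (l ! : ℕ) := by
            rw [hk]; push_cast; ring
          simp only [Pi.smul_apply, smul_eq_mul, vv, hy, ext_XX f _ hN, e2]
          split_ifs <;> ring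
        · by_cases hrb : r = b
          · subst hrb
            have : k = β := by
              rw [hβ, div_left_inj' hNq.ne'] at hk
              exact Fin.ext (by exact_mod_cast (by linarith : ((k : ℕ) : ℚ) = (β : ℕ)))
            simp [this]
          · have : k ≠ β := by
              rintro rfl
              exact hrb (pos_mono.injective (hk.trans hβ.symm))
            simp [hrb, this]
      rw [e, norm_mul, Complex.norm_real, Real.norm_eq_abs, abs_of_pos (om_pos _)]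
      have a1 := (norm_le_pi_norm _ k).trans hp2
      have a2 := om_le _ l (pos_lt r) h
      calc _ ≤ Real.exp (lam l) * (Real.exp (-lam l) / ((l ! : ℕ) * ((l : ℝ) + 1))) :=
            mul_le_mul a2 a1 (norm_nonneg _) (Real.exp_pos _).le
        _ = _ := by rw [← mul_div_assoc, ← Real.exp_add]; simp
    · have hc : ((Finset.univ.image fun k : Fin (l !) =>
          back ((((k : ℕ) : ℚ) + 1) / (l ! : ℕ))).card : ℝ) ≤ (l ! : ℕ) := by
        exact_mod_cast Finset.card_image_le.trans (by simp)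
      refine (mul_le_mul_of_nonneg_right hc hδ).trans (le_of_eq ?_)
      have : ((l ! : ℕ) : ℝ) ≠ 0 := by exact_mod_cast hN.ne'
      field_simp
  have hA2 : ‖∑ j, p j • R j f‖ ≤ 1 / ((l : ℝ) + 1) := by
    refine (norm_sum_le _ _).trans (le_trans ?_ (lam_key l))
    have : ∀ j : Fin (l !), ‖p j • R j f‖ ≤ Bf l (lam l) * E := by
      intro j
      rw [norm_smul]
      refine mul_le_mul ((norm_le_pi_norm p j).trans hp1) ?_ (norm_nonneg _) hB
      refine ((R j).le_opNorm f).trans ?_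
      have := hR1 j
      have := norm_nonneg (R j)
      nlinarith [norm_nonneg f]
    refine (Finset.sum_le_sum fun j _ => this j).trans (le_of_eq ?_)
    simp [hE]
  have e : ∑ j : Fin (l !), (if m ≤ (j : ℕ) then p j else 0) • (zz n ^ (j : ℕ)) f -
      (om (pos b) : ℂ) • lp.single (E := fun _ : ℚ => ℂ) 2 b 1 = A + ∑ j, p j • R j f := by
    rw [hA, sub_add_cancel]
  rw [e]
  refine (norm_add_le _ _).trans ?_
  have : 2 / ((l : ℝ) + 1) = 1 / ((l : ℝ) + 1) + 1 / ((l : ℝ) + 1) := by ring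
  rw [this]; linarith

lemma single_mem (M : Submodule ℂ HH) (hM : IsClosed (M : Set HH))
    (hz : ∀ n, ∀ x ∈ M, zz n x ∈ M) (f0 : HH) (hf0 : f0 ∈ M) (r0 b : ℚ) (h0 : f0 r0 ≠ 0)
    (hb : b < r0) : lp.single (E := fun _ : ℚ => ℂ) 2 b 1 ∈ M := by
  have hne : f0 ≠ 0 := fun h => h0 (by simp [h])
  have hn : 0 < ‖f0‖ := norm_pos_iff.2 hne
  set f : HH := ((‖f0‖⁻¹ : ℝ) : ℂ) • f0 with hf
  have hfM : f ∈ M := M.smul_mem _ hf0
  have hf1 : ‖f‖ ≤ 1 := by
    rw [hf, norm_smul, Complex.norm_real, norm_inv, norm_norm, inv_mul_cancel₀ hn.ne']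
  have hfr : f r0 ≠ 0 := by
    rw [hf, lp.coeFn_smul, Pi.smul_apply, smul_eq_mul]
    exact mul_ne_zero (Complex.ofReal_ne_zero.2 (inv_pos.2 hn).ne') h0
  have hX : 0 < ‖XX f (pos r0)‖ := by
    refine norm_pos_iff.2 fun h => hfr ?_
    rw [← XX_pos, h, mul_zero]
  have hσ : (0 : ℝ) < ((pos r0 - pos b : ℚ) : ℝ) := by
    exact_mod_cast sub_pos.2 (pos_mono hb)
  have hlim : Tendsto (fun n : ℕ => 1 / (((n + 1 : ℕ) : ℝ) + 1)) atTop (𝓝 0) :=
    tendsto_one_div_add_atTop_nhds_zero_nat.comp (tendsto_add_atTop_nat 1)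
  have hpow : ∀ n j, (zz n ^ j) f ∈ M := by
    intro n j
    induction j with
    | zero => simpa using hfM
    | succ j ih => rw [pow_succ']; exact hz n _ ih
  have hmem : (om (pos b) : ℂ) • lp.single (E := fun _ : ℚ => ℂ) 2 b 1 ∈ M := by
    have : (om (pos b) : ℂ) • lp.single (E := fun _ : ℚ => ℂ) 2 b 1 ∈ closure (M : Set HH) := by
      rw [Metric.mem_closure_iff]
      intro ε hε
      obtain ⟨n, ⟨h1, h2⟩, h3, h4, h5⟩ := (((eventually_ge_atTop (lev (pos r0))).and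
        (eventually_ge_atTop (lev (pos b)))).and ((hlim.eventually (ge_mem_nhds hX)).and
        ((hlim.eventually (ge_mem_nhds hσ)).and
          (hlim.eventually (gt_mem_nhds (half_pos hε)))))).exists
      obtain ⟨c, hc⟩ := approx f hf1 r0 b hb n (lev_le.1 (by omega)) (lev_le.1 (by omega)) h3 h4
      refine ⟨_, M.sum_mem (t := Finset.univ) fun j _ => M.smul_mem (c j) (hpow n j), ?_⟩
      rw [dist_comm, dist_eq_norm]
      refine hc.trans_lt ?_
      have : 2 / (((n + 1 : ℕ) : ℝ) + 1) = 2 * (1 / (((n + 1 : ℕ) : ℝ) + 1)) := by ring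
      rw [this]; linarith
    rwa [hM.closure_eq] at this
  have : (om (pos b) : ℂ) ≠ 0 := by exact_mod_cast (om_pos _).ne'
  exact (M.smul_mem_iff this).1 hmem

lemma mem_of_single (M : Submodule ℂ HH) (hM : IsClosed (M : Set HH)) (f : HH)
    (h : ∀ r, f r ≠ 0 → lp.single (E := fun _ : ℚ => ℂ) 2 r 1 ∈ M) : f ∈ M := by
  refine hM.mem_of_tendsto (lp.hasSum_single (p := 2) (by simp) f)
    (Eventually.of_forall fun s => M.sum_mem fun r _ => ?_)
  by_cases h0 : f r = 0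
  · simp [h0]
  · have := M.smul_mem (f r) (h r h0)
    rwa [← lp.single_smul, smul_eq_mul, mul_one] at this

lemma lat (M : Submodule ℂ HH) (hM : IsClosed (M : Set HH)) (hz : ∀ n, ∀ x ∈ M, zz n x ∈ M) :
    ∃ L : Set ℚ, IsLowerSet L ∧ ∀ f : HH, f ∈ M ↔ ∀ r, r ∉ L → f r = 0 := by
  have key : ∀ r, (∃ f ∈ M, f r ≠ 0) → lp.single (E := fun _ : ℚ => ℂ) 2 r 1 ∈ M := by
    rintro r ⟨f, hf, hr⟩
    by_cases h : ∃ r', r < r' ∧ f r' ≠ 0
    · obtain ⟨r', h1, h2⟩ := h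
      exact single_mem M hM hz f hf r' r h2 h1
    · push Not at h
      have h1 : f - f r • lp.single (E := fun _ : ℚ => ℂ) 2 r 1 ∈ M := by
        refine mem_of_single M hM _ fun b hb => single_mem M hM hz f hf r b hr ?_
        by_contra h2
        apply hb
        rw [lp.coeFn_sub, lp.coeFn_smul, Pi.sub_apply, Pi.smul_apply, smul_eq_mul]
        rcases (not_lt.1 h2).eq_or_lt with rfl | h3
        · simp
        · rw [h b h3, lp.single_apply_ne _ _ _ h3.ne']; simp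
      have h2 := M.sub_mem hf h1
      rw [sub_sub_cancel] at h2
      exact (M.smul_mem_iff hr).1 h2
  refine ⟨{r | ∃ f ∈ M, f r ≠ 0}, ?_, fun f => ⟨fun hf r hr => ?_, fun h => ?_⟩⟩
  · rintro a b hab ⟨f, hf, ha⟩
    rcases hab.eq_or_lt with rfl | h
    · exact ⟨f, hf, ha⟩
    · exact ⟨_, single_mem M hM hz f hf a b ha h, by simp⟩
  · by_contra h; exact hr ⟨f, hf, h⟩
  · exact mem_of_single M hM f fun r hr => key r (by_contra fun h2 => hr (h r h2))

lemma lat_conv (M : Submodule ℂ HH) (L : Set ℚ) (hL : IsLowerSet L)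
    (h : ∀ f : HH, f ∈ M ↔ ∀ r, r ∉ L → f r = 0) :
    IsClosed (M : Set HH) ∧ ∀ n, ∀ x ∈ M, zz n x ∈ M := by
  constructor
  · have : (M : Set HH) = ⋂ r ∈ Lᶜ, {f : HH | f r = 0} := by
      ext f; simp [h]
    rw [this]
    refine isClosed_biInter fun r _ => isClosed_eq ?_ continuous_const
    exact (continuous_apply r).comp (lp.uniformContinuous_coe (p := 2)).continuous
  · intro n x hx
    rw [h] at hx ⊢
    intro r hr
    rw [zz_apply, XX]
    split_ifs with h1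
    · rw [hx _ fun h2 => hr (hL ?_ h2)]
      · simp
      · have hs : (0 : ℚ) ≤ 1 / ((n + 1)! : ℕ) := by positivity
        refine pos_mono.le_iff_le.1 ?_
        rw [pos_back _ h1.1 h1.2]; linarith
    · simp

theorem main : ∃ T : HH →L[ℂ] HH, ∀ M : Submodule ℂ HH,
    (IsClosed (M : Set HH) ∧ ∀ x ∈ M, T x ∈ M) ↔
      ∃ L : Set ℚ, IsLowerSet L ∧ ∀ f : HH, f ∈ M ↔ ∀ r, r ∉ L → f r = 0 := by
  obtain ⟨T, hT⟩ := gen zz zz_nil zz_root
  refine ⟨T, fun M => ⟨fun h => lat M h.1 ((hT M h.1).1 h.2), ?_⟩⟩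
  rintro ⟨L, hL, h⟩
  have := lat_conv M L hL h
  exact ⟨this.1, (hT M this.1).2 this.2⟩

lemma lower_cases (L : Set ℚ) (hL : IsLowerSet L) : L = ∅ ∨ L = Set.univ ∨
    ∃ t : ℝ, (∀ q : ℚ, q ∉ L ↔ t < (q : ℝ)) ∨ (∀ q : ℚ, q ∉ L ↔ t ≤ (q : ℝ)) := by
  by_cases h0 : L = ∅
  · exact Or.inl h0
  by_cases h1 : L = Set.univ
  · exact Or.inr (Or.inl h1)
  right; right
  obtain ⟨a, ha⟩ := Set.nonempty_iff_ne_empty.2 h0
  obtain ⟨b, hb⟩ := (Set.ne_univ_iff_exists_notMem L).1 h1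
  have hub : ∀ c : ℚ, c ∉ L → (c : ℝ) ∈ upperBounds ((fun q : ℚ => (q : ℝ)) '' L) := by
    rintro c hc _ ⟨q, hq, rfl⟩
    have : q ≤ c := not_lt.1 fun h => hc (hL h.le hq)
    show (q : ℝ) ≤ c
    exact_mod_cast this
  obtain ⟨t, ht⟩ := Real.exists_isLUB (s := (fun q : ℚ => (q : ℝ)) '' L) ⟨_, a, ha, rfl⟩
    ⟨_, hub b hb⟩
  refine ⟨t, ?_⟩
  by_cases h2 : ∃ q ∈ L, (q : ℝ) = t
  · obtain ⟨q0, hq0, rfl⟩ := h2
    left
    intro q
    constructor
    · intro hq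
      exact_mod_cast (not_le.1 fun h => hq (hL h hq0) : q0 < q)
    · intro hq hqL
      exact absurd (ht.1 ⟨q, hqL, rfl⟩) (not_le.2 hq)
  · right
    intro q
    refine ⟨fun hq => ht.2 (hub q hq), fun hq hqL => h2 ⟨q, hqL, le_antisymm ?_ hq⟩⟩
    exact ht.1 ⟨q, hqL, rfl⟩

end Pool.Agent.H26.Nq
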