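import Mathlib

namespace Pool.Agent.H26.PL

open Set MeasureTheory
open scoped ENNReal Pointwise

theorem bm_compact {K L C : Set ℝ} (hK : IsCompact K) (hL : IsCompact L) (hK0 : K.Nonempty)
    (hL0 : L.Nonempty) (h : ∀ x ∈ K, ∀ y ∈ L, x + y ∈ C) : volume K + volume L ≤ volume C := by
  obtain ⟨k, hk, hk2⟩ := hK.exists_isGreatest hK0
  obtain ⟨l, hl, hl2⟩ := hL.exists_isLeast hL0
  have h1 : volume ((fun x => x - l) ⁻¹' K) = volume K := by
    simp only [sub_eq_add_neg, measure_preimage_add_right]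
  have h2 : volume ((fun x => x - k) ⁻¹' (L \ {l})) = volume L := by
    simp only [sub_eq_add_neg, measure_preimage_add_right]
    rw [measure_diff_null (by simp)]
  have hm : MeasurableSet ((fun x => x - k) ⁻¹' (L \ {l})) :=
    (hL.measurableSet.diff (measurableSet_singleton l)).preimage (by fun_prop)
  rw [← h1, ← h2, ← measure_union _ hm]
  · apply measure_mono
    rintro x (hx | hx)
    · simpa using h _ hx _ hl
    · simpa using h _ hk _ hx.1
  · rw [Set.disjoint_left]
    intro x h1 h2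
    have a1 : x - l ≤ k := hk2 h1
    have a2 : l ≤ x - k := hl2 h2.1
    exact h2.2 (show x - k = l by linarith)

theorem bm_meas {A B C : Set ℝ} (hA : MeasurableSet A) (hB : MeasurableSet B) (hA0 : A.Nonempty)
    (hB0 : B.Nonempty) (h : ∀ x ∈ A, ∀ y ∈ B, x + y ∈ C) : volume A + volume B ≤ volume C := by
  obtain ⟨a, ha⟩ := hA0
  obtain ⟨b, hb⟩ := hB0
  rw [hA.measure_eq_iSup_isCompact, hB.measure_eq_iSup_isCompact]
  simp only [iSup_and']
  refine ENNReal.biSup_add_biSup_le' ⟨∅, by simp⟩ ⟨∅, by simp⟩ ?_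
  rintro K ⟨hK1, hK2⟩ L ⟨hL1, hL2⟩
  refine le_trans (add_le_add (measure_mono (subset_insert a K)) (measure_mono (subset_insert b L)))
    (bm_compact (hK2.insert a) (hL2.insert b) (insert_nonempty _ _) (insert_nonempty _ _) ?_)
  intro x hx y hy
  exact h x (insert_subset ha hK1 hx) y (insert_subset hb hL1 hy)

theorem bm_one {A B C : Set ℝ} {a b : ℝ} (ha : 0 < a) (hb : 0 < b) (hA : MeasurableSet A)
    (hB : MeasurableSet B) (hA0 : A.Nonempty) (hB0 : B.Nonempty)
    (h : ∀ x ∈ A, ∀ y ∈ B, a * x + b * y ∈ C) :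
    ENNReal.ofReal a * volume A + ENNReal.ofReal b * volume B ≤ volume C := by
  have e : ∀ (a : ℝ) (A : Set ℝ), 0 < a → volume (a • A) = ENNReal.ofReal a * volume A := by
    intro a A ha
    rw [Measure.addHaar_smul]; simp [abs_of_pos ha]
  rw [← e a A ha, ← e b B hb]
  refine bm_meas (hA.const_smul₀ a) (hB.const_smul₀ b) hA0.smul_set hB0.smul_set ?_
  rintro _ ⟨x, hx, rfl⟩ _ ⟨y, hy, rfl⟩
  exact h x hx y hy

theorem layer {f : ℝ → ℝ≥0∞} (hf : Measurable f) (h1 : ∀ x, f x ≤ 1) :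
    ∫⁻ x, f x = ∫⁻ t in Ioo (0 : ℝ) 1, volume {x | ENNReal.ofReal t < f x} := by
  have hfin : ∀ x, f x ≠ ⊤ := fun x => ((h1 x).trans_lt ENNReal.one_lt_top).ne
  have e := lintegral_eq_lintegral_meas_lt (volume : Measure ℝ) (f := fun x => (f x).toReal)
    (Filter.Eventually.of_forall fun x => ENNReal.toReal_nonneg) hf.ennreal_toReal.aemeasurable
  simp only [ENNReal.ofReal_toReal (hfin _)] at e
  rw [e]
  have hs : Ioi (0 : ℝ) = Ioo 0 1 ∪ Ici 1 := by
    ext x; simp only [mem_Ioi, mem_union, mem_Ioo, mem_Ici]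
    constructor
    · intro h; rcases lt_or_ge x 1 with h2 | h2
      · exact Or.inl ⟨h, h2⟩
      · exact Or.inr h2
    · rintro (h | h)
      · exact h.1
      · linarith
  rw [hs, lintegral_union measurableSet_Ici (by
    rw [Set.disjoint_left]; intro x h1 h2; exact absurd h1.2 (not_lt.2 h2))]
  have z : ∫⁻ t in Ici (1 : ℝ), volume {a | t < (f a).toReal} = 0 := by
    rw [setLIntegral_congr_fun measurableSet_Ici (g := fun _ => 0), lintegral_zero]
    intro t ht
    have : {a | t < (f a).toReal} = ∅ := by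
      rw [eq_empty_iff_forall_notMem]
      intro x hx
      have h2 : (f x).toReal ≤ 1 := ENNReal.toReal_le_of_le_ofReal zero_le_one (by simpa using h1 x)
      exact absurd (lt_of_lt_of_le hx h2) (not_lt.2 ht)
    simp [this]
  rw [z, add_zero]
  apply setLIntegral_congr_fun measurableSet_Ioo
  intro t ht
  simp only
  congr 1
  ext x
  simp only [mem_setOf_eq]
  exact (ENNReal.ofReal_lt_iff_lt_toReal ht.1.le (hfin x)).symm

theorem meas_level {f : ℝ → ℝ≥0∞} :
    Measurable fun t : ℝ => volume {x | ENNReal.ofReal t < f x} := by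
  apply Antitone.measurable
  intro s t hst
  exact measure_mono fun x hx => lt_of_le_of_lt (ENNReal.ofReal_le_ofReal hst) hx

theorem geom_le {a b : ℝ} (ha : 0 < a) (hb : 0 < b) (hab : a + b = 1) (x y : ℝ≥0∞) :
    x ^ a * y ^ b ≤ ENNReal.ofReal a * x + ENNReal.ofReal b * y := by
  rcases eq_or_ne x ⊤ with rfl | hx
  · rw [ENNReal.mul_top (by simpa using ha)]; simp
  rcases eq_or_ne y ⊤ with rfl | hy
  · rw [ENNReal.mul_top (a := ENNReal.ofReal b) (by simpa using hb)]; simp
  lift x to NNReal using hx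
  lift y to NNReal using hy
  lift a to NNReal using ha.le
  lift b to NNReal using hb.le
  have := NNReal.geom_mean_le_arith_mean2_weighted a b x y (by exact_mod_cast hab)
  rw [ENNReal.ofReal_coe_nnreal, ENNReal.ofReal_coe_nnreal, ← ENNReal.coe_rpow_of_nonneg _ ha.le,
    ← ENNReal.coe_rpow_of_nonneg _ hb.le]
  exact_mod_cast this

theorem pl_norm {a b : ℝ} (ha : 0 < a) (hb : 0 < b) (hab : a + b = 1) {f g h : ℝ → ℝ≥0∞}
    (hf : Measurable f) (hg : Measurable g) (hh : Measurable h) (f1 : ⨆ x, f x = 1)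
    (g1 : ⨆ x, g x = 1) (H : ∀ x y, f x ^ a * g y ^ b ≤ h (a * x + b * y)) :
    (∫⁻ x, f x) ^ a * (∫⁻ x, g x) ^ b ≤ ∫⁻ x, h x := by
  have f2 : ∀ x, f x ≤ 1 := fun x => f1 ▸ le_iSup f x
  have g2 : ∀ x, g x ≤ 1 := fun x => g1 ▸ le_iSup g x
  refine (geom_le ha hb hab _ _).trans (le_trans ?_
    (lintegral_mono (f := fun x => min (h x) 1) fun x => min_le_left _ _))
  rw [layer hf f2, layer hg g2, layer (hh.min measurable_const) (fun x => min_le_right _ _),
    ← lintegral_const_mul _ meas_level, ← lintegral_const_mul _ meas_level,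
    ← lintegral_add_left (meas_level.const_mul _)]
  apply setLIntegral_mono' measurableSet_Ioo
  intro t ht
  have t1 : ENNReal.ofReal t < 1 := by simpa using ht.2
  have t0 : ENNReal.ofReal t ≠ 0 := by simpa using ht.1
  refine bm_one ha hb (measurableSet_lt measurable_const hf) (measurableSet_lt measurable_const hg)
    (lt_iSup_iff.1 (show ENNReal.ofReal t < ⨆ x, f x from f1 ▸ t1))
    (lt_iSup_iff.1 (show ENNReal.ofReal t < ⨆ x, g x from g1 ▸ t1)) ?_
  intro x hx y hy
  refine lt_min (lt_of_lt_of_le ?_ (H x y)) t1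
  have e : ENNReal.ofReal t = ENNReal.ofReal t ^ a * ENNReal.ofReal t ^ b := by
    rw [← ENNReal.rpow_add _ _ t0 ENNReal.ofReal_ne_top, hab, ENNReal.rpow_one]
  rw [e]
  exact ENNReal.mul_lt_mul (ENNReal.rpow_lt_rpow hx ha) (ENNReal.rpow_lt_rpow hy hb)

theorem pl_bdd {a b : ℝ} (ha : 0 < a) (hb : 0 < b) (hab : a + b = 1) {f g h : ℝ → ℝ≥0∞}
    (hf : Measurable f) (hg : Measurable g) (hh : Measurable h) (f1 : ⨆ x, f x ≠ ⊤)
    (g1 : ⨆ x, g x ≠ ⊤) (H : ∀ x y, f x ^ a * g y ^ b ≤ h (a * x + b * y)) :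
    (∫⁻ x, f x) ^ a * (∫⁻ x, g x) ^ b ≤ ∫⁻ x, h x := by
  set F := ⨆ x, f x with hF
  set G := ⨆ x, g x with hG
  rcases eq_or_ne F 0 with F0 | F0
  · have : ∀ x, f x = 0 := fun x => le_antisymm (F0 ▸ le_iSup f x) zero_le
    simp [this, ha]
  rcases eq_or_ne G 0 with G0 | G0
  · have : ∀ x, g x = 0 := fun x => le_antisymm (G0 ▸ le_iSup g x) zero_le
    simp [this, hb]
  have key := pl_norm ha hb hab (f := fun x => F⁻¹ * f x) (g := fun x => G⁻¹ * g x)
    (h := fun x => F⁻¹ ^ a * G⁻¹ ^ b * h x) (hf.const_mul _) (hg.const_mul _) (hh.const_mul _)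
    (by rw [← ENNReal.mul_iSup, ENNReal.inv_mul_cancel F0 f1])
    (by rw [← ENNReal.mul_iSup, ENNReal.inv_mul_cancel G0 g1]) (fun x y => by
      rw [ENNReal.mul_rpow_of_nonneg _ _ ha.le, ENNReal.mul_rpow_of_nonneg _ _ hb.le,
        mul_mul_mul_comm]
      exact mul_le_mul_right (H x y) _)
  rw [lintegral_const_mul _ hf, lintegral_const_mul _ hg, lintegral_const_mul _ hh,
    ENNReal.mul_rpow_of_nonneg _ _ ha.le, ENNReal.mul_rpow_of_nonneg _ _ hb.le,
    mul_mul_mul_comm] at key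
  refine (ENNReal.mul_le_mul_iff_right ?_ ?_).1 key
  · simp [ha, hb, f1, g1, ha.le, hb.le]
  · exact ENNReal.mul_ne_top (ENNReal.rpow_ne_top_of_nonneg ha.le (by simpa using F0))
      (ENNReal.rpow_ne_top_of_nonneg hb.le (by simpa using G0))

theorem trunc {f : ℝ → ℝ≥0∞} (hf : Measurable f) :
    ∫⁻ x, f x = ⨆ n : ℕ, ∫⁻ x, min (f x) n := by
  rw [← lintegral_iSup (fun n => hf.min measurable_const)
    (fun m n hmn x => min_le_min_left _ (by exact_mod_cast hmn))]
  congr 1
  ext x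
  rw [← inf_iSup_eq, ENNReal.iSup_natCast]; simp

theorem rpow_iSup {a : ℝ} (ha : 0 < a) (u : ℕ → ℝ≥0∞) : (⨆ n, u n) ^ a = ⨆ n, u n ^ a :=
  (ENNReal.orderIsoRpow a ha).map_iSup u

theorem pl_one {a b : ℝ} (ha : 0 < a) (hb : 0 < b) (hab : a + b = 1) {f g h : ℝ → ℝ≥0∞}
    (hf : Measurable f) (hg : Measurable g) (hh : Measurable h)
    (H : ∀ x y, f x ^ a * g y ^ b ≤ h (a * x + b * y)) :
    (∫⁻ x, f x) ^ a * (∫⁻ x, g x) ^ b ≤ ∫⁻ x, h x := by
  rw [trunc hf, trunc hg, rpow_iSup ha, rpow_iSup hb, ENNReal.iSup_mul]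
  refine iSup_le fun m => ?_
  rw [ENNReal.mul_iSup]
  refine iSup_le fun n => ?_
  refine pl_bdd ha hb hab (hf.min measurable_const) (hg.min measurable_const) hh
    ((iSup_le fun x => min_le_right _ _).trans_lt (ENNReal.natCast_lt_top m)).ne
    ((iSup_le fun x => min_le_right _ _).trans_lt (ENNReal.natCast_lt_top n)).ne fun x y => ?_
  refine le_trans ?_ (H x y)
  gcongr <;> exact min_le_left _ _

/-- the Prekopa-Leindler property -/
def HasPL (a b : ℝ) {X : Type*} [MeasurableSpace X] [Add X] [SMul ℝ X] (μ : Measure X) : Prop :=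
  ∀ f g h : X → ℝ≥0∞, Measurable f → Measurable g → Measurable h →
    (∀ x y, f x ^ a * g y ^ b ≤ h (a • x + b • y)) →
    (∫⁻ x, f x ∂μ) ^ a * (∫⁻ x, g x ∂μ) ^ b ≤ ∫⁻ x, h x ∂μ

theorem HasPL.prod {a b : ℝ} {X Y : Type*} [MeasurableSpace X] [Add X] [SMul ℝ X]
    [MeasurableSpace Y] [Add Y] [SMul ℝ Y] {μ : Measure X} {ν : Measure Y} [SFinite ν]
    (h1 : HasPL a b μ) (h2 : HasPL a b ν) : HasPL a b (μ.prod ν) := by
  intro f g h hf hg hh H
  rw [lintegral_prod _ hf.aemeasurable, lintegral_prod _ hg.aemeasurable,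
    lintegral_prod _ hh.aemeasurable]
  refine h1 _ _ _ hf.lintegral_prod_right' hg.lintegral_prod_right' hh.lintegral_prod_right' ?_
  intro x y
  exact h2 _ _ _ (hf.comp measurable_prodMk_left) (hg.comp measurable_prodMk_left)
    (hh.comp measurable_prodMk_left) fun p q => H (x, p) (y, q)

theorem HasPL.of_equiv {a b : ℝ} {X Y : Type*} [MeasurableSpace X] [Add X] [SMul ℝ X]
    [MeasurableSpace Y] [Add Y] [SMul ℝ Y] {μ : Measure X} {ν : Measure Y} (e : X ≃ᵐ Y)
    (he : MeasurePreserving e μ ν) (hl : ∀ x y, e (a • x + b • y) = a • e x + b • e y)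
    (h1 : HasPL a b μ) : HasPL a b ν := by
  intro f g h hf hg hh H
  rw [← he.lintegral_comp hf, ← he.lintegral_comp hg, ← he.lintegral_comp hh]
  refine h1 _ _ _ (hf.comp e.measurable) (hg.comp e.measurable) (hh.comp e.measurable) ?_
  intro x y
  simp only [hl]
  exact H _ _

theorem hasPL_pi {a b : ℝ} (ha : 0 < a) (hb : 0 < b) (hab : a + b = 1) (n : ℕ) :
    HasPL a b (volume : Measure (Fin n → ℝ)) := by
  induction n with
  | zero =>
    intro f g h hf hg hh H
    have : (volume : Measure (Fin 0 → ℝ)) = Measure.dirac default := by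
      rw [volume_pi, Measure.pi_of_empty _ default]
    rw [this, lintegral_dirac, lintegral_dirac, lintegral_dirac]
    exact (H default default).trans_eq (congrArg h (Subsingleton.elim _ _))
  | succ n ih =>
    have h1 : HasPL a b (volume : Measure ℝ) := fun f g h hf hg hh H => pl_one ha hb hab hf hg hh H
    refine HasPL.of_equiv (MeasurableEquiv.piFinSuccAbove (fun _ : Fin (n + 1) => ℝ) 0).symm
      (volume_preserving_piFinSuccAbove (fun _ : Fin (n + 1) => ℝ) 0).symm ?_ (h1.prod ih)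
    intro x y
    ext i
    refine Fin.cases ?_ (fun j => ?_) i <;> simp [MeasurableEquiv.piFinSuccAbove]

theorem hasPL_volume {a b : ℝ} (ha : 0 < a) (hb : 0 < b) (hab : a + b = 1) (E : Type*)
    [NormedAddCommGroup E] [InnerProductSpace ℝ E] [FiniteDimensional ℝ E] [MeasurableSpace E]
    [BorelSpace E] : HasPL a b (volume : Measure E) := by
  have h1 : HasPL a b (volume : Measure (EuclideanSpace ℝ (Fin (Module.finrank ℝ E)))) :=
    HasPL.of_equiv (MeasurableEquiv.toLp 2 _) (PiLp.volume_preserving_toLp _) (fun x y => rfl)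
      (hasPL_pi ha hb hab _)
  exact HasPL.of_equiv (stdOrthonormalBasis ℝ E).repr.symm.toHomeomorph.toMeasurableEquiv
    (stdOrthonormalBasis ℝ E).repr.symm.measurePreserving (fun x y => by simp) h1

/-- multiplicative Brunn-Minkowski inequality -/
theorem HasPL.bm {a b : ℝ} (ha : 0 < a) (hb : 0 < b) {X : Type*} [MeasurableSpace X] [Add X]
    [SMul ℝ X] {μ : Measure X} (h : HasPL a b μ) {A B C : Set X} (hA : MeasurableSet A)
    (hB : MeasurableSet B) (hC : MeasurableSet C) (H : ∀ x ∈ A, ∀ y ∈ B, a • x + b • y ∈ C) :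
    μ A ^ a * μ B ^ b ≤ μ C := by
  rw [← lintegral_indicator_one hA, ← lintegral_indicator_one hB, ← lintegral_indicator_one hC]
  refine h _ _ _ (measurable_one.indicator hA) (measurable_one.indicator hB)
    (measurable_one.indicator hC) fun x y => ?_
  by_cases hx : x ∈ A
  · by_cases hy : y ∈ B
    · simp [hx, hy, H x hx y hy]
    · simp [hy, hb]
  · simp [hx, ha]

end Pool.Agent.H26.PL
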