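import Mathlib

set_option autoImplicit false

namespace H26.Per

section tutte
variable {V : Type} (G : SimpleGraph V)

def IsArc (s : ℕ) (u : ℕ → V) : Prop :=
  (∀ i, i < s → G.Adj (u i) (u (i + 1))) ∧ ∀ i, i + 2 ≤ s → u i ≠ u (i + 2)

def Trans (s : ℕ) : Prop :=
  ∀ u w, IsArc G s u → IsArc G s w → ∃ φ : G ≃g G, ∀ i, i ≤ s → φ (u i) = w i

def Rigid (s : ℕ) : Prop :=
  ∀ u, IsArc G (s + 1) u → ∀ φ : G ≃g G, (∀ i, i ≤ s → φ (u i) = u i) → φ (u (s + 1)) = u (s + 1)

def Le3 : Prop := ∀ v a b c d, G.Adj v a → G.Adj v b → G.Adj v c → G.Adj v d → a ≠ b → a ≠ c →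
  b ≠ c → d = a ∨ d = b ∨ d = c

variable {G}

theorem IsArc.mono {s : ℕ} {u : ℕ → V} (h : IsArc G (s + 1) u) : IsArc G s u :=
  ⟨fun i hi => h.1 i (by omega), fun i hi => h.2 i (by omega)⟩

theorem trans_succ (h3 : Le3 G) {s : ℕ} (hT : Trans G (s + 1)) (hR : ¬ Rigid G (s + 1)) :
    Trans G (s + 2) := by
  unfold Rigid at hR
  push Not at hR
  obtain ⟨u0, hu0, φ0, hφ0, hne⟩ := hR
  have key : ∀ w, IsArc G (s + 2) w → ∃ φ : G ≃g G, ∀ i, i ≤ s + 2 → φ (u0 i) = w i := by
    intro w hw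
    obtain ⟨ψ, hψ⟩ := hT u0 w hu0.mono hw.mono
    have a1 : G.Adj (w (s + 1)) (w s) := (hw.1 s (by omega)).symm
    have a2 : G.Adj (w (s + 1)) (ψ (u0 (s + 2))) := by
      rw [← hψ (s + 1) le_rfl]; exact ψ.map_adj_iff.mpr (hu0.1 _ (by omega))
    have a3 : G.Adj (w (s + 1)) (ψ (φ0 (u0 (s + 2)))) := by
      rw [← hψ (s + 1) le_rfl, ← hφ0 (s + 1) le_rfl]
      exact ψ.map_adj_iff.mpr (φ0.map_adj_iff.mpr (hu0.1 _ (by omega)))
    have n1 : w s ≠ ψ (u0 (s + 2)) := by
      rw [← hψ s (by omega)]; exact ψ.injective.ne (hu0.2 s le_rfl)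
    have n2 : w s ≠ ψ (φ0 (u0 (s + 2))) := by
      rw [← hψ s (by omega), ← hφ0 s (by omega)]
      exact ψ.injective.ne (φ0.injective.ne (hu0.2 s le_rfl))
    rcases h3 _ _ _ _ _ a1 a2 a3 (hw.1 (s + 1) (by omega)) n1 n2 (ψ.injective.ne hne.symm)
      with h | h | h
    · exact absurd h.symm (hw.2 s le_rfl)
    · refine ⟨ψ, fun i hi => ?_⟩
      rcases Nat.lt_or_ge i (s + 2) with h' | h'
      · exact hψ i (by omega)
      · obtain rfl : i = s + 2 := by omega
        exact h.symm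
    · refine ⟨ψ * φ0, fun i hi => ?_⟩
      show ψ (φ0 (u0 i)) = w i
      rcases Nat.lt_or_ge i (s + 2) with h' | h'
      · rw [hφ0 i (by omega)]; exact hψ i (by omega)
      · obtain rfl : i = s + 2 := by omega
        exact h.symm
  intro u w hu hw
  obtain ⟨φ1, h1⟩ := key u hu
  obtain ⟨φ2, h2⟩ := key w hw
  refine ⟨φ2 * φ1⁻¹, fun i hi => ?_⟩
  show φ2 (φ1.symm (u i)) = w i
  rw [← h1 i hi, φ1.symm_apply_apply, h2 i hi]

theorem exists_rigid (h3 : Le3 G) (hge : ∀ v a b, ∃ c, G.Adj v c ∧ c ≠ a ∧ c ≠ b)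
    (hT : Trans G 1) {n : ℕ} {u : ℕ → V} (hu : IsArc G (n + 2) u) (hc : u (n + 2) = u 0) :
    ∃ s, Rigid G s := by
  by_contra hn
  push Not at hn
  have hall : ∀ s, Trans G (s + 1) := fun s => by
    induction s with
    | zero => exact hT
    | succ s ih => exact trans_succ h3 ih (hn _)
  obtain ⟨y, hy, y1, y2⟩ := hge (u (n + 1)) (u n) (u (n + 2))
  obtain ⟨φ, hφ⟩ := hall (n + 1) u (fun i => if i = n + 2 then y else u i) hu (by
    constructor
    · intro i hi
      beta_reduce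
      rw [if_neg (by omega)]
      by_cases h : i + 1 = n + 2
      · obtain rfl : i = n + 1 := by omega
        rw [if_pos rfl]; exact hy
      · rw [if_neg h]; exact hu.1 i hi
    · intro i hi
      beta_reduce
      rw [if_neg (by omega)]
      by_cases h : i + 2 = n + 2
      · obtain rfl : i = n := by omega
        rw [if_pos rfl]; exact y1.symm
      · rw [if_neg h]; exact hu.2 i hi)
  have e0 := hφ 0 (by omega)
  have e1 := hφ (n + 2) le_rfl
  simp only [if_pos] at e1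
  rw [if_neg (by omega)] at e0
  rw [hc, e0] at e1
  exact y2 (e1.symm.trans hc.symm)

def Ball (G : SimpleGraph V) (c : V) : ℕ → Set V
  | 0 => {c}
  | n + 1 => Ball G c n ∪ ⋃ v ∈ Ball G c n, G.neighborSet v

theorem ball_finite (hf : ∀ v, (G.neighborSet v).Finite) (c : V) (n : ℕ) : (Ball G c n).Finite := by
  induction n with
  | zero => exact Set.finite_singleton _
  | succ n ih => exact ih.union (ih.biUnion fun v _ => hf v)

theorem ball_map (φ : G ≃g G) (c : V) (n : ℕ) : ∀ v ∈ Ball G c n, φ v ∈ Ball G (φ c) n := by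
  induction n with
  | zero => rintro _ rfl; rfl
  | succ n ih =>
    rintro v (h | h)
    · exact Or.inl (ih v h)
    · obtain ⟨w, hw, hv⟩ := Set.mem_iUnion₂.mp h
      exact Or.inr (Set.mem_iUnion₂.mpr ⟨φ w, ih w hw, φ.map_adj_iff.mpr hv⟩)

theorem ball_walk (u : ℕ → V) (n : ℕ) (h : ∀ i, i < n → G.Adj (u i) (u (i + 1))) (m : ℕ)
    (hm : n ≤ m) : u n ∈ Ball G (u 0) m := by
  induction m generalizing n with
  | zero => obtain rfl : n = 0 := by omega
            rfl
  | succ m ih =>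
    rcases Nat.lt_or_ge n (m + 1) with h' | h'
    · exact Or.inl (ih n h (by omega))
    · obtain rfl : n = m + 1 := by omega
      exact Or.inr (Set.mem_iUnion₂.mpr ⟨u m, ih m (fun i hi => h i (by omega)) le_rfl,
        h m (by omega)⟩)

theorem fix_all {s : ℕ} (hR : Rigid G s) (c : V) (φ : G ≃g G) (hφ : ∀ v ∈ Ball G c s, φ v = v)
    (n : ℕ) : ∀ u : ℕ → V, u 0 = c → (∀ i, i < n → G.Adj (u i) (u (i + 1))) → φ (u n) = u n := by
  induction n using Nat.strong_induction_on with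
  | _ n ih =>
    intro u h0 hu
    rcases Nat.lt_or_ge s n with hs | hs
    swap
    · exact hφ _ (h0 ▸ ball_walk u n hu s hs)
    by_cases hb : ∃ i, i + 2 ≤ n ∧ u i = u (i + 2)
    · obtain ⟨i, hi, he⟩ := hb
      have := ih (n - 2) (by omega) (fun k => if k ≤ i then u k else u (k + 2))
        (by simp [h0]) (fun k hk => by
          by_cases h1 : k + 1 ≤ i
          · rw [if_pos (by omega), if_pos h1]; exact hu k (by omega)
          · rw [if_neg h1]
            by_cases h2 : k ≤ i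
            · obtain rfl : k = i := by omega
              rw [if_pos le_rfl, he]; exact hu (k + 2) (by omega)
            · rw [if_neg h2]; exact hu (k + 2) (by omega))
      by_cases h1 : n - 2 ≤ i
      · obtain rfl : n = i + 2 := by omega
        simp only [Nat.add_sub_cancel, le_refl, if_true] at this
        rw [← he]; exact this
      · simp only [if_neg h1] at this
        rwa [show n - 2 + 2 = n by omega] at this
    · push Not at hb
      obtain ⟨k, rfl⟩ : ∃ k, n = k + (s + 1) := ⟨n - (s + 1), by omega⟩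
      exact hR (fun i => u (k + i)) ⟨fun i hi => hu (k + i) (by omega),
        fun i hi => hb (k + i) (by omega)⟩ φ fun i hi =>
          ih (k + i) (by omega) u h0 fun j hj => hu j (by omega)

theorem finite_aut (hf : ∀ v, (G.neighborSet v).Finite) {s : ℕ} (hR : Rigid G s) (c : V)
    (hc : ∀ v, ∃ n, ∃ u : ℕ → V, u 0 = c ∧ u n = v ∧ ∀ i, i < n → G.Adj (u i) (u (i + 1)))
    (S : Finset V) : Finite {θ : G ≃g G // θ c ∈ S} := by
  have h1 := (ball_finite hf c s).to_subtype
  have h2 : (⋃ t ∈ (S : Set V), Ball G t s).Finite := S.finite_toSet.biUnion fun t _ => ball_finite hf t s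
  have h3 := h2.to_subtype
  refine Finite.of_injective (fun θ (x : Ball G c s) =>
    (⟨θ.1 x.1, Set.mem_iUnion₂.mpr ⟨θ.1 c, θ.2, ball_map θ.1 c s x.1 x.2⟩⟩ :
      (⋃ t ∈ (S : Set V), Ball G t s))) fun θ θ' h => Subtype.ext (RelIso.ext fun v => ?_)
  obtain ⟨n, u, h0, rfl, hu⟩ := hc v
  have := fix_all hR c (θ'.1⁻¹ * θ.1) (fun x hx => by
    have e : θ.1 x = θ'.1 x := congrArg Subtype.val (congrFun h ⟨x, hx⟩)
    show θ'.1.symm (θ.1 x) = x
    rw [e, θ'.1.symm_apply_apply]) n u h0 hu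
  have e : θ'.1.symm (θ.1 (u n)) = u n := this
  conv_rhs => rw [← e]
  exact (θ'.1.apply_symm_apply _).symm

end tutte

section coset
variable {A : Type} [Group A] (a b : A) (ha : a * a = 1) (hb : b * b * b = 1)

def K : Subgroup A where
  carrier := {g | g = 1 ∨ g = b ∨ g = b * b}
  one_mem' := Or.inl rfl
  mul_mem' := by
    have h4 : b * (b * b) = 1 := by rw [← mul_assoc, hb]
    rintro _ _ (rfl | rfl | rfl) (rfl | rfl | rfl)
    all_goals simp [hb, h4]
    right; left
    rw [← mul_assoc, hb, one_mul]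
  inv_mem' := by
    rintro _ (rfl | rfl | rfl)
    · simp
    · exact Or.inr (Or.inr (inv_eq_of_mul_eq_one_left hb))
    · exact Or.inr (Or.inl (inv_eq_of_mul_eq_one_right hb))

def Gr (h1 : a ∉ K b hb) : SimpleGraph (A ⧸ K b hb) where
  Adj x y := ∃ g : A, x = (g : A ⧸ K b hb) ∧ y = ((g * a : A) : A ⧸ K b hb)
  symm := ⟨by
    rintro _ _ ⟨g, rfl, rfl⟩
    exact ⟨g * a, rfl, by rw [mul_assoc, ha, mul_one]⟩⟩
  loopless := ⟨by
    rintro _ ⟨g, rfl, h⟩
    apply h1
    simpa using QuotientGroup.eq.mp h⟩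

def act (h1 : a ∉ K b hb) (g : A) : Gr a b ha hb h1 ≃g Gr a b ha hb h1 where
  toEquiv := MulAction.toPerm g
  map_rel_iff' := by
    have : ∀ (g : A) x y, (Gr a b ha hb h1).Adj x y → (Gr a b ha hb h1).Adj (g • x) (g • y) := by
      rintro g _ _ ⟨k, rfl, rfl⟩
      exact ⟨g * k, rfl, by rw [mul_assoc]; rfl⟩
    intro x y
    refine ⟨fun h => ?_, this g x y⟩
    have := this g⁻¹ _ _ h
    simpa using this

include ha in
theorem main (h1 : a ∉ K b hb) (h2 : a * b * a ∉ K b hb) (h3 : a * (b * b) * a ∉ K b hb)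
    (hind : ∀ P : A → Prop, P 1 → (∀ g, P g → P (g * a)) → (∀ g, P g → P (g * b)) → ∀ g, P g)
    (hcyc : ∃ n, ∃ g : ℕ → A, g (n + 2) = g 0 ∧
      ∀ k, g (k + 1) = g k * a * b ∨ g (k + 1) = g k * a * (b * b))
    (hfin : ∀ H : Subgroup A, H.FiniteIndex → b ∈ H ∧ a * b * a ∈ H) :
    ∃ (V : Type) (G : SimpleGraph V),
      (∀ v : V, (G.neighborSet v).Finite) ∧
      (∃ S : Finset V, ∀ v : V, ∃ s ∈ S, ∃ φ : G ≃g G, φ s = v) ∧
      (∃ u v w x : V, G.Adj u v ∧ G.Adj w x ∧ G.Reachable u w ∧ s(u, v) ≠ s(w, x)) ∧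
      ∀ (C : Type) (c : Sym2 V → C),
        (∃ S : Finset V, ∀ v : V, ∃ s ∈ S, ∃ φ : G ≃g G,
          (∀ a b : V, G.Adj a b → c s(φ a, φ b) = c s(a, b)) ∧ φ s = v) →
        ∀ u v w x : V, G.Adj u v → G.Adj w x → c s(u, v) = c s(w, x) := by
  let G := Gr a b ha hb h1
  let m : A → A ⧸ K b hb := QuotientGroup.mk
  have ainv : a⁻¹ = a := inv_eq_of_mul_eq_one_right ha
  have mb : ∀ g, m (g * b) = m g := fun g =>
    (QuotientGroup.eq.mpr (by rw [inv_mul_cancel_left]; exact Or.inr (Or.inl rfl))).symm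
  have mbb : ∀ g, m (g * (b * b)) = m g := fun g => by rw [← mul_assoc, mb, mb]
  have adj : ∀ g, G.Adj (m g) (m (g * a)) := fun g => ⟨g, rfl, rfl⟩
  have adj1 : ∀ g, G.Adj (m g) (m (g * b * a)) := fun g => mb g ▸ adj (g * b)
  have adj2 : ∀ g, G.Adj (m g) (m (g * (b * b) * a)) := fun g => mbb g ▸ adj (g * (b * b))
  have nbr : ∀ g y, G.Adj (m g) y → y = m (g * a) ∨ y = m (g * b * a) ∨ y = m (g * (b * b) * a) := by
    rintro g _ ⟨k, hk, rfl⟩
    rcases QuotientGroup.eq.mp hk with h | h | h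
    · left; rw [inv_mul_eq_one.mp h]
    · right; left; rw [← inv_mul_eq_iff_eq_mul.mp h]
    · right; right; rw [← inv_mul_eq_iff_eq_mul.mp h]
  have n1 : ∀ g, m (g * a) ≠ m (g * b * a) := fun g h => h2 (by
    have := QuotientGroup.eq.mp h
    rwa [show (g * a)⁻¹ * (g * b * a) = a⁻¹ * b * a by group, ainv] at this)
  have n2 : ∀ g, m (g * a) ≠ m (g * (b * b) * a) := fun g h => h3 (by
    have := QuotientGroup.eq.mp h
    rwa [show (g * a)⁻¹ * (g * (b * b) * a) = a⁻¹ * (b * b) * a by group, ainv] at this)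
  have n3 : ∀ g, m (g * b * a) ≠ m (g * (b * b) * a) := fun g => by
    rw [← mul_assoc g b b]; exact n1 (g * b)
  have hsurj : ∀ v, ∃ g, v = m g := fun v => ⟨v.out, v.out_eq.symm⟩
  have hact : ∀ g k, act a b ha hb h1 g (m k) = m (g * k) := fun _ _ => rfl
  have hf : ∀ v, (G.neighborSet v).Finite := fun v => by
    obtain ⟨g, rfl⟩ := hsurj v
    exact (Set.toFinite {m (g * a), m (g * b * a), m (g * (b * b) * a)}).subset (nbr g)
  have le3 : Le3 G := fun v x y z w hx hy hz hw => by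
    obtain ⟨g, rfl⟩ := hsurj v
    rcases nbr g _ hx with rfl | rfl | rfl <;> rcases nbr g _ hy with rfl | rfl | rfl <;>
      rcases nbr g _ hz with rfl | rfl | rfl <;> rcases nbr g _ hw with rfl | rfl | rfl <;> simp
  have ge3 : ∀ v x y, ∃ c, G.Adj v c ∧ c ≠ x ∧ c ≠ y := fun v x y => by
    obtain ⟨g, rfl⟩ := hsurj v
    by_contra hn
    push Not at hn
    have e1 := hn _ (adj g)
    have e2 := hn _ (adj1 g)
    have e3 := hn _ (adj2 g)
    by_cases c1 : m (g * a) = x
    · exact n3 g ((e2 fun h => n1 g (c1.trans h.symm)).trans (e3 fun h => n2 g (c1.trans h.symm)).symm)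
    · by_cases c2 : m (g * b * a) = x
      · exact n2 g ((e1 c1).trans (e3 fun h => n3 g (c2.trans h.symm)).symm)
      · exact n1 g ((e1 c1).trans (e2 c2).symm)
  have t1 : Trans G 1 := by
    intro u w hu hw
    obtain ⟨g, g0, g1⟩ := hu.1 0 (by omega)
    obtain ⟨k, k0, k1⟩ := hw.1 0 (by omega)
    refine ⟨act a b ha hb h1 (k * g⁻¹), fun i hi => ?_⟩
    rcases Nat.le_one_iff_eq_zero_or_eq_one.mp hi with rfl | rfl
    · rw [g0, k0]; exact (hact _ _).trans (congrArg m (by group))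
    · rw [g1, k1]; exact (hact _ _).trans (congrArg m (by group))
  obtain ⟨n, g, hg, hg'⟩ := hcyc
  have hg1 : ∀ k, m (g (k + 1)) = m (g k * a) := fun k => by
    rcases hg' k with h | h
    · rw [h, mb]
    · rw [h, mbb]
  obtain ⟨s, hR⟩ := exists_rigid le3 ge3 t1 (n := n) (u := fun k => m (g k))
    ⟨fun i _ => by beta_reduce; rw [hg1 i]; exact adj (g i), fun i _ => by
      beta_reduce
      rw [hg1 (i + 1)]
      have e : m (g i) = m (g i * a * a) := by rw [mul_assoc, ha, mul_one]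
      rcases hg' i with h | h
      · rw [h, e]; exact n1 _
      · rw [h, e]; exact n2 _⟩ (congrArg m hg)
  have hc : ∀ v, ∃ n, ∃ u : ℕ → A ⧸ K b hb, u 0 = m 1 ∧ u n = v ∧
      ∀ i, i < n → G.Adj (u i) (u (i + 1)) := fun v => by
    obtain ⟨g, rfl⟩ := hsurj v
    refine hind (fun g => ∃ n, ∃ u : ℕ → A ⧸ K b hb, u 0 = m 1 ∧ u n = m g ∧
      ∀ i, i < n → G.Adj (u i) (u (i + 1))) ⟨0, fun _ => m 1, rfl, rfl, fun i hi => by omega⟩
      ?_ (fun g h => by rwa [mb]) g
    rintro g ⟨n, u, h0, h1, h2⟩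
    refine ⟨n + 1, fun i => if i = n + 1 then m (g * a) else u i, by simp [h0], by simp,
      fun i hi => ?_⟩
    simp only []
    rw [if_neg (by omega)]
    by_cases h : i = n
    · subst h
      rw [if_pos rfl, h1]; exact adj g
    · rw [if_neg (by omega)]; exact h2 i (by omega)
  refine ⟨_, G, hf, ⟨{m 1}, fun v => ?_⟩, ⟨m 1, _, m 1, _, adj 1, adj1 1, .refl _, fun h => ?_⟩,
    fun C c ⟨S, hS⟩ => ?_⟩
  · obtain ⟨g, rfl⟩ := hsurj v
    exact ⟨m 1, by simp, act a b ha hb h1 g, (hact _ _).trans (by rw [mul_one])⟩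
  · exact n1 1 (Sym2.congr_right.mp h)
  · let H : Subgroup A :=
      { carrier := {g | ∀ x y, G.Adj x y → c s(g • x, g • y) = c s(x, y)}
        one_mem' := fun x y _ => by simp
        mul_mem' := fun {g k} hg hk x y h => by
          have h' : G.Adj (k • x) (k • y) := (act a b ha hb h1 k).map_adj_iff.mpr h
          rw [mul_smul, mul_smul, hg _ _ h', hk x y h]
        inv_mem' := fun {g} hg x y h => by
          have h' : G.Adj (g⁻¹ • x) (g⁻¹ • y) := (act a b ha hb h1 g⁻¹).map_adj_iff.mpr h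
          rw [← hg _ _ h', smul_inv_smul, smul_inv_smul] }
    have hT := finite_aut hf hR (m 1) hc S
    choose t ht φ hφ hφ' using fun g : A => hS (m g)
    let θ : A → {θ : G ≃g G // θ (m 1) ∈ S} := fun g => ⟨(φ g)⁻¹ * act a b ha hb h1 g, by
      show (φ g).symm (m (g * 1)) ∈ S
      rw [mul_one, ← hφ' g, (φ g).symm_apply_apply]; exact ht g⟩
    have hθ : ∀ g k, θ g = θ k → g * k⁻¹ ∈ H := fun g k h x y hxy => by
      have e : ∀ z, (φ g).symm (g • z) = (φ k).symm (k • z) := fun z =>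
        congrArg (fun t : {θ : G ≃g G // θ (m 1) ∈ S} => t.1 z) h
      have e' : ∀ z, (g * k⁻¹) • z = φ g ((φ k).symm z) := fun z => by
        have := e (k⁻¹ • z)
        rw [smul_inv_smul] at this
        rw [← this, (φ g).apply_symm_apply, mul_smul]
      have hxy' := (φ k).symm.map_adj_iff.mpr hxy
      rw [e', e', hφ g _ _ hxy', ← hφ k _ _ hxy', (φ k).apply_symm_apply, (φ k).apply_symm_apply]
    have : Finite (A ⧸ H) := Finite.of_injective (fun q : A ⧸ H => θ q.out⁻¹) fun q q' h => by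
      have := hθ _ _ h
      rw [inv_inv] at this
      rw [← q.out_eq, ← q'.out_eq]
      exact QuotientGroup.eq.mpr this
    obtain ⟨b1, b2⟩ := hfin H Subgroup.finiteIndex_of_finite_quotient
    have hH : ∀ g, g ∈ H ∨ g * a ∈ H := hind _ (Or.inl H.one_mem)
      (fun g h => h.symm.imp id fun h => by rwa [mul_assoc, ha, mul_one])
      fun g h => h.imp (fun h => H.mul_mem h b1) fun h => by
        have := H.mul_mem h b2
        rwa [show g * a * (a * b * a) = g * (a * a) * b * a by group, ha, mul_one] at this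
    have key : ∀ g, g ∈ H → c s(m g, m (g * a)) = c s(m 1, m (1 * a)) := fun g h => by
      rw [← h _ _ (adj 1)]
      show _ = c s(m (g * 1), m (g * (1 * a)))
      rw [mul_one, one_mul]
    have key' : ∀ u v, G.Adj u v → c s(u, v) = c s(m 1, m (1 * a)) := by
      rintro _ _ ⟨g, rfl, rfl⟩
      rcases hH g with h | h
      · exact key g h
      · rw [← key _ h, mul_assoc, ha, mul_one, Sym2.eq_swap]
    exact fun u v w x h h' => (key' u v h).trans (key' w x h').symm

end coset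

end H26.Per
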