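import Pool.Agent.H26.PerA

set_option autoImplicit false

namespace H26.Per

abbrev Om : Type := Stream' Bool

def fa (s : Om) : Om :=
  match s 0, s 1, s 2, s 3 with
  | true, _, _, _ => [false, true, true, true] ++ₛ s.drop 1
  | false, false, _, _ => [false, true, false, false] ++ₛ s.drop 2
  | false, true, false, false => [false, false] ++ₛ s.drop 4
  | false, true, false, true => [false, true, true, false] ++ₛ s.drop 4
  | false, true, true, false => [false, true, false, true] ++ₛ s.drop 4
  | false, true, true, true => [true] ++ₛ s.drop 4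

def fb (s : Om) : Om :=
  match s 0, s 1, s 2 with
  | true, _, _ => [true] ++ₛ s.drop 1
  | false, false, _ => [false, true, false] ++ₛ s.drop 2
  | false, true, false => [false, true, true] ++ₛ s.drop 3
  | false, true, true => [false, false] ++ₛ s.drop 3

def sa : List Bool → Option (List Bool)
  | true :: r => some (false :: true :: true :: true :: r)
  | false :: false :: r => some (false :: true :: false :: false :: r)
  | false :: true :: false :: false :: r => some (false :: false :: r)
  | false :: true :: false :: true :: r => some (false :: true :: true :: false :: r)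
  | false :: true :: true :: false :: r => some (false :: true :: false :: true :: r)
  | false :: true :: true :: true :: r => some (true :: r)
  | _ => none

def sb : List Bool → Option (List Bool)
  | true :: r => some (true :: r)
  | false :: false :: r => some (false :: true :: false :: r)
  | false :: true :: false :: r => some (false :: true :: true :: r)
  | false :: true :: true :: r => some (false :: false :: r)
  | _ => none

theorem sa_ok (u v : List Bool) (t : Om) (h : sa u = some v) : fa (u ++ₛ t) = v ++ₛ t := by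
  unfold sa at h
  split at h <;> first | (cases h; rfl) | cases h

theorem sb_ok (u v : List Bool) (t : Om) (h : sb u = some v) : fb (u ++ₛ t) = v ++ₛ t := by
  unfold sb at h
  split at h <;> first | (cases h; rfl) | cases h

def evF : List Bool → Om → Om
  | [], s => s
  | l :: w, s => evF w (cond l (fa s) (fb s))

def evL : List Bool → List Bool → Option (List Bool)
  | [], u => some u
  | l :: w, u => match cond l (sa u) (sb u) with
    | none => none
    | some v => evL w v

theorem evL_ok (w : List Bool) : ∀ (u v : List Bool) (t : Om), evL w u = some v →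
    evF w (u ++ₛ t) = v ++ₛ t := by
  induction w with
  | nil => intro u v t h; cases h; rfl
  | cons l w ih =>
    intro u v t h
    unfold evL at h
    split at h
    · cases h
    · rename_i v' hv
      unfold evF
      cases l
      · rw [show (bif false then fa (u ++ₛ t) else fb (u ++ₛ t)) = v' ++ₛ t from sb_ok u v' t hv]
        exact ih _ _ _ h
      · rw [show (bif true then fa (u ++ₛ t) else fb (u ++ₛ t)) = v' ++ₛ t from sa_ok u v' t hv]
        exact ih _ _ _ h

def check (w : List Bool) (P : List Bool → List Bool → Bool) : ℕ → List Bool → Bool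
  | 0, _ => false
  | f + 1, u => (match evL w u with
      | none => false
      | some v => P u v) || (check w P f (u ++ [false]) && check w P f (u ++ [true]))

theorem check_ok (w : List Bool) (P : List Bool → List Bool → Bool) (f : ℕ) : ∀ u, check w P f u = true →
    ∀ s : Om, ∃ u' v t, u ++ₛ s = u' ++ₛ t ∧ evF w (u' ++ₛ t) = v ++ₛ t ∧ P u' v = true := by
  induction f with
  | zero => intro u h; cases h
  | succ f ih =>
    intro u h s
    unfold check at h
    rcases Bool.or_eq_true_iff.mp h with h | h
    · split at h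
      · cases h
      · rename_i v hv
        exact ⟨u, v, s, rfl, evL_ok w u v s hv, h⟩
    · obtain ⟨h0, h1⟩ := Bool.and_eq_true_iff.mp h
      have e : u ++ₛ s = (u ++ [s.head]) ++ₛ s.tail := by
        rw [Stream'.append_append_stream]
        congr 1
        exact (Stream'.eta s).symm
      rw [e]
      cases hs : s.head
      · exact ih _ h0 _
      · exact ih _ h1 _

theorem id_of (w : List Bool) (f : ℕ) (h : check w (fun u v => u == v) f [] = true) (s : Om) :
    evF w s = s := by
  obtain ⟨u, v, t, h1, h2, h3⟩ := check_ok w _ f [] h s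
  have e : s = u ++ₛ t := h1
  rw [e, h2, beq_iff_eq.mp h3]

theorem fa2 (s : Om) : fa (fa s) = s := id_of [true, true] 10 (by decide +kernel) s
theorem fb3 (s : Om) : fb (fb (fb s)) = s := id_of [false, false, false] 10 (by decide +kernel) s

def pa : Equiv.Perm Om := ⟨fa, fa, fa2, fa2⟩
def pb : Equiv.Perm Om := ⟨fb, fun s => fb (fb s), fb3, fb3⟩

def AA : Subgroup (Equiv.Perm Om) := Subgroup.closure {pa, pb}

def ga : AA := ⟨pa, Subgroup.subset_closure (Or.inl rfl)⟩
def gb : AA := ⟨pb, Subgroup.subset_closure (Or.inr rfl)⟩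

theorem ga2 : ga * ga = 1 := Subtype.ext (Equiv.ext fa2)
theorem gb3 : gb * gb * gb = 1 := Subtype.ext (Equiv.ext fb3)

def ev {Q : Type} [Group Q] (x y : Q) : List Bool → Q
  | [] => 1
  | l :: w => ev x y w * cond l x y

theorem ev_app (w : List Bool) : ∀ s, (ev ga gb w).1 s = evF w s := by
  induction w with
  | nil => intro s; rfl
  | cons l w ih => intro s; cases l <;> exact ih _

theorem ev_map {Q : Type} [Group Q] (π : AA →* Q) (w : List Bool) :
    π (ev ga gb w) = ev (π ga) (π gb) w := by
  induction w with
  | nil => exact π.map_one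
  | cons l w ih => cases l <;> simp only [ev, map_mul, ih, cond]

def wd : ℕ → List Bool
  | 0 => []
  | k + 1 => cond (Nat.testBit 12073509253975787059234832850163 (k % 104)) (false :: true :: wd k) (false :: false :: true :: wd k)

theorem rel : ev ga gb (wd 520) = 1 :=
  Subtype.ext (Equiv.ext fun s => (ev_app _ s).trans (id_of _ 30 (by decide +kernel) s))

def st : List Bool → ℕ × ℕ × Bool
  | [] => (0, 0, false)
  | l :: w => match st w with
    | (i, j, e) => cond l (i, j, !e) (cond e (i, j + 1, e) (i + 1, j, e))

theorem nf {Q : Type} [Group Q] (x y : Q) (hx : x * x = 1) (hc : Commute y (x * y * x))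
    (w : List Bool) : ev x y w = y ^ (st w).1 * (x * y * x) ^ (st w).2.1 * cond (st w).2.2 x 1 := by
  induction w with
  | nil => simp [ev, st]
  | cons l w ih =>
    unfold ev st
    rw [ih]
    rcases st w with ⟨i, j, e⟩
    cases l <;> cases e <;> simp only [cond, Bool.not_true, Bool.not_false, mul_one]
    · rw [mul_assoc, ← (hc.pow_right j).eq, ← mul_assoc, ← pow_succ]
    · rw [pow_succ]
      simp only [mul_assoc, hx, mul_one]
    · rw [mul_assoc, hx, mul_one]

def hw : List Bool := [true, false, false, true, false, false, true, false, true, false, false, true, false, true, false, false, true, false, true, false]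

theorem hmap (s : Om) (h : s 0 = false) : ∃ t, evF hw s = [false, true, true, true] ++ₛ t := by
  obtain ⟨u, v, t, h1, h2, h3⟩ := check_ok hw (fun _ v => [false, true, true, true].isPrefixOf v) 10
    [false] (by decide +kernel) s.tail
  have e : s = [false] ++ₛ s.tail := by
    rw [← h]; exact (Stream'.eta s).symm
  obtain ⟨r, rfl⟩ := List.isPrefixOf_iff_prefix.mp h3
  exact ⟨r ++ₛ t, by rw [e, h1, h2, Stream'.append_append_stream]⟩

theorem hpow (m : ℕ) (s : Om) (h : s 0 = false) :
    ∃ t, ((ev ga gb hw) ^ (m + 1)).1 s = [false, true, true, true] ++ₛ t := by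
  induction m with
  | zero => rw [zero_add, pow_one, ev_app]; exact hmap s h
  | succ m ih =>
    obtain ⟨t, ht⟩ := ih
    rw [pow_succ']
    show ∃ t, (ev ga gb hw).1 (((ev ga gb hw) ^ (m + 1)).1 s) = _
    rw [ht, ev_app]
    exact hmap _ rfl

theorem fb_fix (s : Om) (h : s 0 = true) : fb s = s := by
  have e : s = [true] ++ₛ s.tail := by
    rw [← h]; exact (Stream'.eta s).symm
  rw [e]; rfl

theorem comm (m : ℕ) : Commute ((ev ga gb hw) ^ (m + 1) * gb * ((ev ga gb hw) ^ (m + 1))⁻¹)
    (ga * gb * ga) := by
  generalize hk : (ev ga gb hw) ^ (m + 1) = k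
  have : Equiv.Perm.Disjoint (k * gb * k⁻¹).1 (ga * gb * ga).1 := fun x => by
    cases h : (k.1⁻¹ x) 0
    · right
      obtain ⟨t, ht⟩ := hpow m _ h
      rw [hk] at ht
      have e : x = [false, true, true, true] ++ₛ t := by rw [← ht]; simp
      rw [e]; rfl
    · left
      show k.1 (fb (k.1⁻¹ x)) = x
      rw [fb_fix _ h]; simp
  exact Subtype.ext this.commute.eq

theorem hfin (H : Subgroup AA) (hH : H.FiniteIndex) : gb ∈ H ∧ ga * gb * ga ∈ H := by
  let π := QuotientGroup.mk' H.normalCore
  obtain ⟨m, hm⟩ : ∃ m, Nat.card (AA ⧸ H.normalCore) = m + 1 :=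
    ⟨_, (Nat.succ_pred_eq_of_pos Nat.card_pos).symm⟩
  have h1 : π ((ev ga gb hw) ^ (m + 1)) = 1 := by rw [map_pow, ← hm, pow_card_eq_one']
  have h2 := (comm m).map π
  rw [map_mul, map_mul, map_inv, h1, one_mul, inv_one, mul_one, map_mul, map_mul] at h2
  have hx : π ga * π ga = 1 := by rw [← map_mul, ga2, map_one]
  have hy : π gb ^ 3 = 1 := by rw [pow_three', ← map_mul, ← map_mul, gb3, map_one]
  have h3 := nf (π ga) (π gb) hx h2 (wd 520)
  rw [← ev_map, rel, map_one] at h3
  have e : (st (wd 520)).1 % 3 = 2 ∧ (st (wd 520)).2.1 % 3 = 0 ∧ (st (wd 520)).2.2 = false := by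
    decide +kernel
  have hz : (π ga * π gb * π ga) ^ 3 = 1 := by
    have : π ga * π gb * π ga = π ga * π gb * (π ga)⁻¹ := by
      rw [inv_eq_of_mul_eq_one_right hx]
    rw [this, conj_pow, hy, mul_one, mul_inv_cancel]
  rw [pow_eq_pow_mod _ hy, pow_eq_pow_mod _ hz, e.1, e.2.1, e.2.2] at h3
  have h4 : π gb = 1 := by
    have h5 : π gb ^ 2 = 1 := by simpa using h3.symm
    rw [pow_succ, h5, one_mul] at hy
    exact hy
  refine ⟨H.normalCore_le ((QuotientGroup.eq_one_iff _).mp h4),
    H.normalCore_le ((QuotientGroup.eq_one_iff _).mp ?_)⟩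
  show π (ga * gb * ga) = 1
  rw [map_mul, map_mul, h4, mul_one, hx]

theorem notK (g : AA) (h : g.1 (fun _ => true) 0 = false) : g ∉ K gb gb3 := by
  rintro (rfl | rfl | rfl) <;> cases h

theorem hind (P : AA → Prop) (h1 : P 1) (ha : ∀ g, P g → P (g * ga)) (hb : ∀ g, P g → P (g * gb))
    (g : AA) : P g := by
  obtain ⟨g, hg⟩ := g
  induction hg using Subgroup.closure_induction_right with
  | one => exact h1
  | mul_right x hx y hy ih =>
    rcases hy with rfl | rfl
    · exact ha _ ih
    · exact hb _ ih
  | mul_inv_cancel x hx y hy ih =>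
    rcases hy with rfl | rfl
    · exact ha _ ih
    · have := hb _ (hb _ ih)
      rw [mul_assoc] at this
      convert this using 1
      exact Subtype.ext (Equiv.ext fun _ => rfl)

theorem final : ∃ (V : Type) (G : SimpleGraph V),
      (∀ v : V, (G.neighborSet v).Finite) ∧
      (∃ S : Finset V, ∀ v : V, ∃ s ∈ S, ∃ φ : G ≃g G, φ s = v) ∧
      (∃ u v w x : V, G.Adj u v ∧ G.Adj w x ∧ G.Reachable u w ∧ s(u, v) ≠ s(w, x)) ∧
      ∀ (C : Type) (c : Sym2 V → C),
        (∃ S : Finset V, ∀ v : V, ∃ s ∈ S, ∃ φ : G ≃g G,
          (∀ a b : V, G.Adj a b → c s(φ a, φ b) = c s(a, b)) ∧ φ s = v) →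
        ∀ u v w x : V, G.Adj u v → G.Adj w x → c s(u, v) = c s(w, x) := by
  refine main ga gb ga2 gb3 (notK _ rfl) (notK _ rfl) (notK _ rfl) hind
    ⟨518, fun k => ev ga gb (wd k), rel, fun k => ?_⟩ hfin
  show ev ga gb (wd (k + 1)) = _ ∨ ev ga gb (wd (k + 1)) = _
  rw [wd]
  cases Nat.testBit 12073509253975787059234832850163 (k % 104)
  · right; exact mul_assoc (ev ga gb (wd k) * ga) gb gb
  · left; rfl

end H26.Per
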