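import Mathlib

/-! Property B for almost disjoint families with no one-point intersections. -/

namespace Pool.Agent.H26.PropB

open Set

variable {X I : Type*} (A : I → Set X)

def Bi (D : Set X) (f : X → Bool) (i : I) : Prop :=
  ∃ x ∈ A i ∩ D, ∃ y ∈ A i ∩ D, f x ≠ f y

def Safe (D : Set X) (f : X → Bool) (x : X) : Prop := ∀ i, x ∈ A i → Bi A D f i

variable {A}

lemma Bi.mono {D D' : Set X} {f f' : X → Bool} {i : I} (h : Bi A D f i) (hD : D ⊆ D')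
    (hf : ∀ x ∈ D, f' x = f x) : Bi A D' f' i := by
  obtain ⟨x, hx, y, hy, e⟩ := h
  exact ⟨x, ⟨hx.1, hD hx.2⟩, y, ⟨hy.1, hD hy.2⟩, by rwa [hf x hx.2, hf y hy.2]⟩

lemma Safe.mono {D D' : Set X} {f f' : X → Bool} {x : X} (h : Safe A D f x) (hD : D ⊆ D')
    (hf : ∀ x ∈ D, f' x = f x) : Safe A D' f' x := fun i hi => (h i hi).mono hD hf

lemma Bi.exists_ne {D : Set X} {f : X → Bool} {i : I} (h : Bi A D f i) (d : Bool) :
    ∃ z ∈ A i ∩ D, f z ≠ d := by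
  obtain ⟨x, hx, y, hy, e⟩ := h
  by_cases h1 : f x = d
  · exact ⟨y, hy, fun h2 => e (h1.trans h2.symm)⟩
  · exact ⟨x, hx, h1⟩

lemma core (hfin : ∀ i j, i ≠ j → (A i ∩ A j).Finite)
    (htwo : ∀ i j x, i ≠ j → x ∈ A i → x ∈ A j → ∃ y, y ≠ x ∧ y ∈ A i ∧ y ∈ A j)
    (D : Set X) (f : X → Bool) (E : I) (w : X) (hw : w ∈ A E) (hwD : w ∈ D)
    (hs : ∀ z ∈ A E ∩ D, z ≠ w → f z = f w → Safe A D f z) :
    ∃ f' : X → Bool, (∀ x ∈ D, f' x = f x) ∧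
      (∀ G, G ≠ E → w ∈ A G → Bi A (D ∪ A E) f' G) ∧
      ∀ p ∈ A E \ D, (f' p = f w ∧ ∀ G, G ≠ E → p ∈ A G → Bi A (D ∪ A E) f' G) ∨
        (f' p ≠ f w ∧ ∃ H, H ≠ E ∧ p ∈ A H ∧ ∀ z ∈ A H ∩ (D ∪ A E), z ≠ p → f' z = f w) := by
  classical
  let S : Set (Set X) := {U | U ⊆ A E \ D ∧ ∀ G, G ≠ E → (∃ x ∈ A G, x ∈ U ∨ x = w) →
    (∃ z ∈ A G ∩ D, f z ≠ f w) ∨ ¬ (A G ∩ (A E \ D) ⊆ U)}
  have h0 : ∅ ∈ S := by
    refine ⟨empty_subset _, ?_⟩
    rintro G hG ⟨x, hx, h | rfl⟩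
    · exact h.elim
    · obtain ⟨y, h1, h2, h3⟩ := htwo G E x hG hx hw
      by_cases hy : y ∈ D
      · by_cases hc : f y = f x
        · exact Or.inl ((hs y ⟨h3, hy⟩ h1 hc G h2).exists_ne _)
        · exact Or.inl ⟨y, ⟨h2, hy⟩, hc⟩
      · exact Or.inr fun h => h ⟨h2, h3, hy⟩
  obtain ⟨U, -, hU⟩ := zorn_subset_nonempty S (fun c hc hch hne => by
    refine ⟨⋃₀ c, ⟨sUnion_subset fun s hs => (hc hs).1, ?_⟩, fun s hs => subset_sUnion_of_mem hs⟩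
    rintro G hG ⟨x, hx, hx'⟩
    by_contra hn
    push Not at hn
    obtain ⟨hn1, hn2⟩ := hn
    have hf : (A G ∩ (A E \ D)).Finite := (hfin G E hG).subset fun y hy => ⟨hy.1, hy.2.1⟩
    obtain ⟨t, ht, ht'⟩ := hch.directedOn.exists_mem_subset_of_finite_of_subset_sUnion hne hf hn2
    have key : ∀ u ∈ c, t ⊆ u → (x ∈ u ∨ x = w) → False := fun u hu htu hxu => by
      rcases (hc hu).2 G hG ⟨x, hx, hxu⟩ with ⟨z, hz, hz'⟩ | h
      · exact hz' (hn1 z hz)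
      · exact h (ht'.trans htu)
    rcases hx' with ⟨u, hu, hxu⟩ | h
    · rcases hch.total hu ht with h | h
      · exact key t ht Subset.rfl (Or.inl (h hxu))
      · exact key u hu h (Or.inl hxu)
    · exact key t ht Subset.rfl (Or.inr h)) ∅ h0
  let f' : X → Bool := fun x => if x ∈ D then f x else if x ∈ U then f w else !f w
  have hD : ∀ x ∈ D, f' x = f x := fun x hx => if_pos hx
  have hU1 : ∀ x ∈ U, f' x = f w := fun x hx => by
    simp only [f', if_neg (hU.prop.1 hx).2, if_pos hx]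
  have hU2 : ∀ x, x ∉ D → x ∉ U → f' x ≠ f w := fun x h1 h2 => by
    simp only [f', if_neg h1, if_neg h2]
    cases f w <;> simp
  have hbi : ∀ G, G ≠ E → ∀ x ∈ A G, (x ∈ U ∨ x = w) → Bi A (D ∪ A E) f' G := by
    intro G hG x hx hx'
    have h1 : x ∈ D ∪ A E ∧ f' x = f w := by
      rcases hx' with h | rfl
      · exact ⟨Or.inr (hU.prop.1 h).1, hU1 x h⟩
      · exact ⟨Or.inl hwD, hD x hwD⟩
    rcases hU.prop.2 G hG ⟨x, hx, hx'⟩ with ⟨z, hz, hz'⟩ | h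
    · exact ⟨z, ⟨hz.1, Or.inl hz.2⟩, x, ⟨hx, h1.1⟩, by rwa [hD z hz.2, h1.2]⟩
    · obtain ⟨z, hz, hz'⟩ := not_subset.1 h
      exact ⟨z, ⟨hz.1, Or.inr hz.2.1⟩, x, ⟨hx, h1.1⟩, by rw [h1.2]; exact hU2 z hz.2.2 hz'⟩
  refine ⟨f', hD, fun G hG h => hbi G hG w h (Or.inr rfl), fun p hp => ?_⟩
  by_cases hpU : p ∈ U
  · exact Or.inl ⟨hU1 p hpU, fun G hG h => hbi G hG p h (Or.inl hpU)⟩
  refine Or.inr ⟨hU2 p hp.2 hpU, ?_⟩
  have h1 : insert p U ∉ S := fun h => hpU (hU.le_of_ge h (subset_insert _ _) (mem_insert _ _))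
  have h2 : ¬ ∀ G, G ≠ E → (∃ x ∈ A G, x ∈ insert p U ∨ x = w) →
      (∃ z ∈ A G ∩ D, f z ≠ f w) ∨ ¬ (A G ∩ (A E \ D) ⊆ insert p U) :=
    fun h => h1 ⟨insert_subset hp hU.prop.1, h⟩
  push Not at h2
  obtain ⟨G, hG, ⟨x, hx, hx'⟩, h3, h4⟩ := h2
  have hpG : p ∈ A G := by
    by_contra hn
    have hx'' : x ∈ U ∨ x = w := by
      rcases hx' with (rfl | h) | h
      · exact (hn hx).elim
      · exact Or.inl h
      · exact Or.inr h
    rcases hU.prop.2 G hG ⟨x, hx, hx''⟩ with ⟨z, hz, hz'⟩ | h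
    · exact hz' (h3 z hz)
    · exact h fun y hy => (h4 hy).resolve_left fun e => hn (e ▸ hy.1)
  refine ⟨G, hG, hpG, fun z hz hzp => ?_⟩
  by_cases hzD : z ∈ D
  · rw [hD z hzD]; exact h3 z ⟨hz.1, hzD⟩
  · exact hU1 z ((h4 ⟨hz.1, hz.2.resolve_left hzD, hzD⟩).resolve_left hzp)

structure St (X I : Type*) where
  D : Set X
  f : X → Bool
  L : Set I
  e : X → I
  k : X → ℕ
  n : ℕ

variable (A) in
structure Inv (s : St X I) : Prop where
  fin : s.L.Finite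
  cov : ∀ x, x ∈ s.D ↔ ∃ i ∈ s.L, x ∈ A i
  bd : ∀ x ∈ s.D, s.k x < s.n
  i1 : ∀ w ∈ s.D, ¬ Safe A s.D s.f w → s.e w ∉ s.L ∧ w ∈ A (s.e w) ∧
    (∀ z ∈ A (s.e w) ∩ s.D, z ≠ w → s.f z = s.f w → Safe A s.D s.f z ∨ s.k w < s.k z) ∧
    ∃ z ∈ A (s.e w) ∩ s.D, s.f z ≠ s.f w
  i2 : ∀ w ∈ s.D, ∀ w' ∈ s.D, ¬ Safe A s.D s.f w → ¬ Safe A s.D s.f w' → s.f w ≠ s.f w' →
    s.e w ≠ s.e w'

variable (A) in
def Ext (d : Bool) (s t : St X I) : Prop :=
  s.D ⊆ t.D ∧ (∀ x ∈ s.D, t.f x = s.f x ∧ t.e x = s.e x ∧ t.k x = s.k x) ∧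
    ∀ x ∈ t.D, t.f x = d → x ∈ s.D ∨ Safe A t.D t.f x

lemma Ext.safe {d : Bool} {s t : St X I} (h : Ext A d s t) {x : X} (hx : Safe A s.D s.f x) :
    Safe A t.D t.f x := hx.mono h.1 fun x hx => (h.2.1 x hx).1

lemma Ext.refl (d : Bool) (s : St X I) : Ext A d s s :=
  ⟨Subset.rfl, fun _ _ => ⟨rfl, rfl, rfl⟩, fun _ h _ => Or.inl h⟩

lemma Ext.trans {d : Bool} {s t u : St X I} (h : Ext A d s t) (h' : Ext A d t u) : Ext A d s u := by
  refine ⟨h.1.trans h'.1, fun x hx => ?_, fun x hx hd => ?_⟩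
  · obtain ⟨a1, a2, a3⟩ := h.2.1 x hx
    obtain ⟨b1, b2, b3⟩ := h'.2.1 x (h.1 hx)
    exact ⟨b1.trans a1, b2.trans a2, b3.trans a3⟩
  · rcases h'.2.2 x hx hd with h1 | h1
    · exact (h.2.2 x h1 ((h'.2.1 x h1).1.symm.trans hd)).imp id h'.safe
    · exact Or.inr h1

lemma step (hfin : ∀ i j, i ≠ j → (A i ∩ A j).Finite)
    (htwo : ∀ i j x, i ≠ j → x ∈ A i → x ∈ A j → ∃ y, y ≠ x ∧ y ∈ A i ∧ y ∈ A j)
    (s : St X I) (hs : Inv A s) (w : X) (hw : w ∈ s.D) (hns : ¬ Safe A s.D s.f w)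
    (hz : ∀ z ∈ A (s.e w) ∩ s.D, z ≠ w → s.f z = s.f w → Safe A s.D s.f z) :
    ∃ t, Inv A t ∧ Ext A (s.f w) s t ∧ Safe A t.D t.f w := by
  classical
  obtain ⟨a1, a2, -, z0, hz0, hz0'⟩ := hs.i1 w hw hns
  obtain ⟨f', h1, h2, h3⟩ := core hfin htwo s.D s.f (s.e w) w a2 hw hz
  have hE : Bi A (s.D ∪ A (s.e w)) f' (s.e w) :=
    ⟨z0, ⟨hz0.1, Or.inl hz0.2⟩, w, ⟨a2, Or.inl hw⟩, by rwa [h1 z0 hz0.2, h1 w hw]⟩
  have hsafe : ∀ p, (∀ G, G ≠ s.e w → p ∈ A G → Bi A (s.D ∪ A (s.e w)) f' G) →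
      Safe A (s.D ∪ A (s.e w)) f' p := fun p h G hG => by
    by_cases e : G = s.e w
    · rw [e]; exact hE
    · exact h G e hG
  have h4 : ∀ p, ∃ H, p ∈ A (s.e w) \ s.D → ¬ Safe A (s.D ∪ A (s.e w)) f' p →
      f' p ≠ s.f w ∧ H ≠ s.e w ∧ p ∈ A H ∧
        ∀ z ∈ A H ∩ (s.D ∪ A (s.e w)), z ≠ p → f' z = s.f w := by
    intro p
    by_cases hp : p ∈ A (s.e w) \ s.D
    · rcases h3 p hp with h | ⟨h, H, hH⟩
      · exact ⟨s.e w, fun _ hn => (hn (hsafe p h.2)).elim⟩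
      · exact ⟨H, fun _ _ => ⟨h, hH⟩⟩
    · exact ⟨s.e w, fun h => (hp h).elim⟩
  choose H hH using h4
  have hold : ∀ x, Safe A s.D s.f x → Safe A (s.D ∪ A (s.e w)) f' x := fun x hx =>
    hx.mono subset_union_left h1
  have hwsafe : Safe A (s.D ∪ A (s.e w)) f' w := hsafe w h2
  have hcross : ∀ z ∈ s.D, ∀ p, p ∈ A (s.e w) \ s.D → ¬ Safe A (s.D ∪ A (s.e w)) f' z →
      ¬ Safe A (s.D ∪ A (s.e w)) f' p → f' z ≠ f' p → s.e z ≠ H p := by
    intro z hz p hp n1 n2 hne e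
    obtain ⟨b1, -, -, b4⟩ := hH p hp n2
    obtain ⟨-, -, -, y, hy, hy'⟩ := hs.i1 z hz fun h => n1 (hold z h)
    have c1 := b4 y ⟨e ▸ hy.1, Or.inl hy.2⟩ fun e' => hp.2 (e' ▸ hy.2)
    rw [h1 y hy.2] at c1
    rw [h1 z hz] at hne
    revert b1 hne hy' c1
    cases s.f y <;> cases s.f z <;> cases s.f w <;> cases f' p <;> simp
  refine ⟨⟨s.D ∪ A (s.e w), f', insert (s.e w) s.L, fun x => if x ∈ s.D then s.e x else H x,
    fun x => if x ∈ s.D then s.k x else s.n, s.n + 1⟩, ⟨hs.fin.insert _, fun x => ?_, ?_, ?_, ?_⟩,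
    ⟨subset_union_left, fun x hx => ⟨h1 x hx, if_pos hx, if_pos hx⟩, fun x hx hd => ?_⟩, hwsafe⟩
  · simp only [mem_union, hs.cov, mem_insert_iff, exists_eq_or_imp]
    exact or_comm
  · intro x _
    dsimp only
    split_ifs with h
    · exact (hs.bd x h).trans (Nat.lt_succ_self _)
    · exact Nat.lt_succ_self _
  · intro v hv hn
    dsimp only at hv hn ⊢
    by_cases hvD : v ∈ s.D
    · simp only [if_pos hvD]
      obtain ⟨b1, b2, b3, y, hy, hy'⟩ := hs.i1 v hvD fun h => hn (hold v h)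
      refine ⟨?_, b2, fun z hz' hzv hc => ?_, y, ⟨hy.1, Or.inl hy.2⟩, by rwa [h1 y hy.2, h1 v hvD]⟩
      · rintro (e | e)
        · by_cases hc : s.f v = s.f w
          · by_cases hvw : v = w
            · exact hn (hvw ▸ hwsafe)
            · exact hn (hold v (hz v ⟨e ▸ b2, hvD⟩ hvw hc))
          · exact hs.i2 v hvD w hw (fun h => hn (hold v h)) hns hc e
        · exact b1 e
      · by_cases hzD : z ∈ s.D
        · rw [if_pos hzD]
          rw [h1 z hzD, h1 v hvD] at hc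
          exact (b3 z ⟨hz'.1, hzD⟩ hzv hc).imp (hold z) id
        · rw [if_neg hzD]
          exact Or.inr (hs.bd v hvD)
    · simp only [if_neg hvD]
      have hp : v ∈ A (s.e w) \ s.D := ⟨hv.resolve_left hvD, hvD⟩
      obtain ⟨b1, b2, b3, b4⟩ := hH v hp hn
      refine ⟨?_, b3, fun z hz' hzv hc => (b1 (hc.symm.trans (b4 z hz' hzv))).elim, ?_⟩
      · rintro (e | e)
        · exact b2 e
        · exact hvD ((hs.cov v).2 ⟨_, e, b3⟩)
      · obtain ⟨y, c1, c2, c3⟩ := htwo _ _ v b2 b3 hp.1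
        exact ⟨y, ⟨c2, Or.inr c3⟩, by rw [b4 y ⟨c2, Or.inr c3⟩ c1]; exact b1.symm⟩
  · intro v hv v' hv' n1 n2 hne
    dsimp only at hv hv' n1 n2 hne ⊢
    by_cases hvD : v ∈ s.D <;> by_cases hvD' : v' ∈ s.D
    · rw [if_pos hvD, if_pos hvD']
      rw [h1 v hvD, h1 v' hvD'] at hne
      exact hs.i2 v hvD v' hvD' (fun h => n1 (hold v h)) (fun h => n2 (hold v' h)) hne
    · rw [if_pos hvD, if_neg hvD']
      exact hcross v hvD v' ⟨hv'.resolve_left hvD', hvD'⟩ n1 n2 hne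
    · rw [if_neg hvD, if_pos hvD']
      exact (hcross v' hvD' v ⟨hv.resolve_left hvD, hvD⟩ n2 n1 hne.symm).symm
    · have b1 := (hH v ⟨hv.resolve_left hvD, hvD⟩ n1).1
      have b2 := (hH v' ⟨hv'.resolve_left hvD', hvD'⟩ n2).1
      exfalso
      revert b1 b2 hne
      cases f' v <;> cases f' v' <;> cases s.f w <;> simp
  · dsimp only at hx hd ⊢
    by_cases hxD : x ∈ s.D
    · exact Or.inl hxD
    · right
      by_contra hn
      exact (hH x ⟨hx.resolve_left hxD, hxD⟩ hn).1 hd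

lemma phase (hfin : ∀ i j, i ≠ j → (A i ∩ A j).Finite)
    (htwo : ∀ i j x, i ≠ j → x ∈ A i → x ∈ A j → ∃ y, y ≠ x ∧ y ∈ A i ∧ y ∈ A j)
    (d : Bool) (B : ℕ) : ∀ (m : ℕ) (s : St X I), Inv A s →
      (∀ z ∈ s.D, s.f z = d → Safe A s.D s.f z ∨ s.k z < B) →
      ∀ w ∈ s.D, s.f w = d → B ≤ s.k w + m → ∃ t, Inv A t ∧ Ext A d s t ∧ Safe A t.D t.f w := by
  have hB : ∀ s t : St X I, Ext A d s t → (∀ z ∈ s.D, s.f z = d → Safe A s.D s.f z ∨ s.k z < B) →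
      ∀ z ∈ t.D, t.f z = d → Safe A t.D t.f z ∨ t.k z < B := by
    intro s t h hb z hz hd
    rcases h.2.2 z hz hd with h1 | h1
    · rw [(h.2.1 z h1).2.2]
      exact (hb z h1 ((h.2.1 z h1).1.symm.trans hd)).imp h.safe id
    · exact Or.inl h1
  intro m
  induction m with
  | zero =>
    intro s hs hb w hw hd hm
    exact ⟨s, hs, Ext.refl d s, (hb w hw hd).resolve_right (by omega)⟩
  | succ m ih =>
    intro s hs hb w hw hd hm
    by_cases hns : Safe A s.D s.f w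
    · exact ⟨s, hs, Ext.refl d s, hns⟩
    obtain ⟨a1, a2, a3, -⟩ := hs.i1 w hw hns
    have hZ : {z | z ∈ A (s.e w) ∩ s.D ∧ z ≠ w ∧ s.f z = d}.Finite := by
      refine (hs.fin.biUnion (t := fun i => A (s.e w) ∩ A i) fun i hi =>
        hfin _ _ fun e => a1 (e ▸ hi)).subset ?_
      rintro z ⟨⟨h1, h2⟩, -⟩
      obtain ⟨i, hi, h3⟩ := (hs.cov z).1 h2
      exact mem_biUnion hi ⟨h1, h3⟩
    have key : ∀ Z : Set X, Z.Finite → Z ⊆ {z | z ∈ A (s.e w) ∩ s.D ∧ z ≠ w ∧ s.f z = d} →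
        ∃ t, Inv A t ∧ Ext A d s t ∧ ∀ z ∈ Z, Safe A t.D t.f z := by
      intro Z hZ
      induction Z, hZ using Set.Finite.induction_on with
      | empty => exact fun _ => ⟨s, hs, Ext.refl d s, fun z hz => hz.elim⟩
      | @insert a Z _ _ ih' =>
        intro hsub
        obtain ⟨t, ht, e1, e2⟩ := ih' ((subset_insert _ _).trans hsub)
        obtain ⟨b1, b2, b3⟩ := hsub (mem_insert a Z)
        rcases a3 a b1 b2 (b3.trans hd.symm) with h | h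
        · refine ⟨t, ht, e1, ?_⟩
          rintro z (rfl | hz)
          · exact e1.safe h
          · exact e2 z hz
        · obtain ⟨u, hu, e3, e4⟩ := ih t ht (hB s t e1 hb) a (e1.1 b1.2)
            ((e1.2.1 a b1.2).1.trans b3) (by rw [(e1.2.1 a b1.2).2.2]; omega)
          refine ⟨u, hu, e1.trans e3, ?_⟩
          rintro z (rfl | hz)
          · exact e4
          · exact e3.safe (e2 z hz)
    obtain ⟨t, ht, e1, e2⟩ := key _ hZ Subset.rfl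
    by_cases hnt : Safe A t.D t.f w
    · exact ⟨t, ht, e1, hnt⟩
    have hd' : t.f w = d := (e1.2.1 w hw).1.trans hd
    obtain ⟨u, hu, e3, e4⟩ := step hfin htwo t ht w (e1.1 hw) hnt fun z hz hzw hc => by
      rcases e1.2.2 z hz.2 (hc.trans hd') with h | h
      · refine e2 z ⟨⟨?_, h⟩, hzw, (e1.2.1 z h).1.symm.trans (hc.trans hd')⟩
        rw [← (e1.2.1 w hw).2.1]; exact hz.1
      · exact h
    rw [hd'] at e3
    exact ⟨u, hu, e1.trans e3, e4⟩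

lemma closed (hc : ∀ i, (A i).Countable) (hinf : ∀ i, (A i).Infinite)
    (hfin : ∀ i j, i ≠ j → (A i ∩ A j).Finite)
    (htwo : ∀ i j x, i ≠ j → x ∈ A i → x ∈ A j → ∃ y, y ≠ x ∧ y ∈ A i ∧ y ∈ A j) (i0 : I) :
    ∃ (D : Set X) (f : X → Bool), D.Nonempty ∧ (∀ x ∈ D, ∃ i, x ∈ A i) ∧
      ∀ x ∈ D, Safe A D f x := by
  classical
  obtain ⟨w0, hw0⟩ := (hinf i0).nonempty
  by_cases hiso : ∀ G, G ≠ i0 → ∀ x ∈ A G, x ∉ A i0
  · obtain ⟨q, hq, hqw⟩ := (hinf i0).exists_notMem_finite (finite_singleton w0)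
    refine ⟨A i0, fun x => decide (x = w0), ⟨w0, hw0⟩, fun x hx => ⟨i0, hx⟩, fun x hx G hG => ?_⟩
    by_cases e : G = i0
    · subst e
      exact ⟨w0, ⟨hw0, hw0⟩, q, ⟨hq, hq⟩, by simpa using hqw⟩
    · exact (hiso G e x hG hx).elim
  push Not at hiso
  obtain ⟨G0, hG0, x0, hx0, hx0'⟩ := hiso
  obtain ⟨s0, hs0, hne⟩ : ∃ s : St X I, Inv A s ∧ s.D.Nonempty := by
    obtain ⟨f', h1, h2, h3⟩ := core hfin htwo {x0} (fun _ => true) i0 x0 hx0' rfl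
      (fun z hz hne => (hne hz.2).elim)
    have hD : {x0} ∪ A i0 = A i0 := union_eq_right.2 (singleton_subset_iff.2 hx0')
    rw [hD] at h2 h3
    have hE : Bi A (A i0) f' i0 := by
      obtain ⟨x, hx, y, hy, e⟩ := h2 G0 hG0 hx0
      exact ⟨x, ⟨hx.2, hx.2⟩, y, ⟨hy.2, hy.2⟩, e⟩
    have h4 : ∀ p, ∃ H, p ∈ A i0 → ¬ Safe A (A i0) f' p →
        f' p ≠ true ∧ H ≠ i0 ∧ p ∈ A H ∧ ∀ z ∈ A H ∩ A i0, z ≠ p → f' z = true := by
      intro p
      have hsafe : (∀ G, G ≠ i0 → p ∈ A G → Bi A (A i0) f' G) → Safe A (A i0) f' p :=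
        fun h G hG => by
          by_cases e : G = i0
          · rw [e]; exact hE
          · exact h G e hG
      by_cases hp : p ∈ A i0 \ {x0}
      · rcases h3 p hp with h | ⟨h, H, hH⟩
        · exact ⟨i0, fun _ hn => (hn (hsafe h.2)).elim⟩
        · exact ⟨H, fun _ _ => ⟨h, hH⟩⟩
      · refine ⟨i0, fun h hn => (hn (hsafe ?_)).elim⟩
        have : p = x0 := by
          by_contra h'
          exact hp ⟨h, h'⟩
        rw [this]; exact h2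
    choose H hH using h4
    refine ⟨⟨A i0, f', {i0}, H, fun _ => 0, 1⟩, ⟨finite_singleton _, fun x => by simp,
      fun _ _ => Nat.one_pos, fun v hv hn => ?_, fun v hv v' hv' n1 n2 hne => ?_⟩, ⟨w0, hw0⟩⟩
    · obtain ⟨b1, b2, b3, b4⟩ := hH v hv hn
      refine ⟨b2, b3, fun z hz hzv hc => (b1 (hc.symm.trans (b4 z hz hzv))).elim, ?_⟩
      obtain ⟨y, c1, c2, c3⟩ := htwo _ _ v b2 b3 hv
      exact ⟨y, ⟨c2, c3⟩, by dsimp only; rw [b4 y ⟨c2, c3⟩ c1]; exact b1.symm⟩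
    · have b1 := (hH v hv n1).1
      have b2 := (hH v' hv' n2).1
      exfalso
      dsimp only at hne
      revert b1 b2 hne
      cases f' v <;> cases f' v' <;> simp
  have nxt : ∀ (s : {s : St X I // Inv A s}) (w : X), ∃ t : {s : St X I // Inv A s},
      s.1.D ⊆ t.1.D ∧ (∀ x ∈ s.1.D, t.1.f x = s.1.f x) ∧ (w ∈ s.1.D → Safe A t.1.D t.1.f w) := by
    intro s w
    by_cases hw : w ∈ s.1.D
    · obtain ⟨t, ht, e1, e2⟩ := phase hfin htwo (s.1.f w) s.1.n s.1.n s.1 s.2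
        (fun z hz _ => Or.inr (s.2.bd z hz)) w hw rfl (Nat.le_add_left _ _)
      exact ⟨⟨t, ht⟩, e1.1, fun x hx => (e1.2.1 x hx).1, fun _ => e2⟩
    · exact ⟨s, Subset.rfl, fun _ _ => rfl, fun h => (hw h).elim⟩
  choose nx hn1 hn2 hn3 using nxt
  have henum : ∀ s : {s : St X I // Inv A s}, ∃ g : ℕ → X, s.1.D ⊆ range g := by
    intro s
    have hcD : s.1.D.Countable := by
      refine (s.2.fin.countable.biUnion (t := fun i _ => A i) fun i _ => hc i).mono fun x hx => ?_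
      obtain ⟨i, hi, h⟩ := (s.2.cov x).1 hx
      exact mem_biUnion hi h
    have : Nonempty X := ⟨w0⟩
    exact Set.countable_iff_exists_subset_range.1 hcD
  choose g hg using henum
  let R : ℕ → ℕ → {s : St X I // Inv A s} := fun n => Nat.rec (fun _ => ⟨s0, hs0⟩)
    (fun n r i => if i ≤ n then r i else nx (r n) (g (r n.unpair.1) n.unpair.2)) n
  let s : ℕ → {s : St X I // Inv A s} := fun n => R n n
  have hR : ∀ n i, i ≤ n → R n i = s i := by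
    intro n i h
    induction n, h using Nat.le_induction with
    | base => rfl
    | succ n h ih => exact (if_pos h).trans ih
  have hs : ∀ n, s (n + 1) = nx (s n) (g (s n.unpair.1) n.unpair.2) := fun n => by
    rw [← hR n _ (Nat.unpair_left_le n)]
    exact if_neg (Nat.not_succ_le_self n)
  have hmono : ∀ i j, i ≤ j → (s i).1.D ⊆ (s j).1.D ∧ ∀ x ∈ (s i).1.D, (s j).1.f x = (s i).1.f x := by
    intro i j h
    induction j, h using Nat.le_induction with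
    | base => exact ⟨Subset.rfl, fun _ _ => rfl⟩
    | succ j _ ih =>
      rw [hs]
      exact ⟨ih.1.trans (hn1 _ _), fun x hx => (hn2 _ _ x (ih.1 hx)).trans (ih.2 x hx)⟩
  let F : X → Bool := fun x => if h : ∃ n, x ∈ (s n).1.D then (s h.choose).1.f x else true
  have hF : ∀ n, ∀ x ∈ (s n).1.D, F x = (s n).1.f x := by
    intro n x hx
    have h : ∃ n, x ∈ (s n).1.D := ⟨n, hx⟩
    simp only [F, dif_pos h]
    rcases le_total n h.choose with h' | h'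
    · exact (hmono _ _ h').2 x hx
    · exact ((hmono _ _ h').2 x h.choose_spec).symm
  refine ⟨⋃ n, (s n).1.D, F, hne.mono (subset_iUnion (fun n => (s n).1.D) 0), fun x hx => ?_,
    fun x hx => ?_⟩
  · obtain ⟨n, hn⟩ := mem_iUnion.1 hx
    obtain ⟨i, -, h⟩ := ((s n).2.cov x).1 hn
    exact ⟨i, h⟩
  · obtain ⟨n, hn⟩ := mem_iUnion.1 hx
    obtain ⟨j, hj⟩ := hg (s n) hn
    have h1 := hn3 (s (Nat.pair n j)) x ((hmono _ _ (Nat.left_le_pair n j)).1 hn)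
    have h2 := hs (Nat.pair n j)
    rw [Nat.unpair_pair, hj] at h2
    rw [← h2] at h1
    exact h1.mono (subset_iUnion (fun n => (s n).1.D) (Nat.pair n j + 1)) (hF (Nat.pair n j + 1))

theorem main (hc : ∀ i, (A i).Countable) (hinf : ∀ i, (A i).Infinite)
    (hfin : ∀ i j, i ≠ j → (A i ∩ A j).Finite)
    (htwo : ∀ i j x, i ≠ j → x ∈ A i → x ∈ A j → ∃ y, y ≠ x ∧ y ∈ A i ∧ y ∈ A j) :
    ∃ f : X → Bool, ∀ i, ∃ x ∈ A i, ∃ y ∈ A i, f x ≠ f y := by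
  classical
  let S : Set (Set (X × Bool)) := {T | (∀ x, (x, true) ∈ T → (x, false) ∉ T) ∧
    ∀ i x b, x ∈ A i → (x, b) ∈ T → ∃ y ∈ A i, (y, !b) ∈ T}
  obtain ⟨T, hT⟩ := zorn_subset S (fun c hc hch => by
    refine ⟨⋃₀ c, ⟨?_, ?_⟩, fun s hs => subset_sUnion_of_mem hs⟩
    · rintro x ⟨s, hs, h1⟩ ⟨t, ht, h2⟩
      rcases hch.total hs ht with h | h
      · exact (hc ht).1 x (h h1) h2
      · exact (hc hs).1 x h1 (h h2)
    · rintro i x b hx ⟨s, hs, h1⟩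
      obtain ⟨y, hy, h2⟩ := (hc hs).2 i x b hx h1
      exact ⟨y, hy, s, hs, h2⟩)
  refine ⟨fun x => decide ((x, true) ∈ T), fun i => ?_⟩
  have hmeet : ∃ x ∈ A i, ∃ b, (x, b) ∈ T := by
    by_contra hn
    let J := {j : I // ¬ ∃ x ∈ A j, ∃ b, (x, b) ∈ T}
    obtain ⟨D, f, ⟨x0, hx0⟩, h1, h2⟩ := closed (A := fun j : J => A j.1) (fun j => hc j.1)
      (fun j => hinf j.1) (fun j k h => hfin _ _ fun e => h (Subtype.ext e))
      (fun j k x h => htwo _ _ x fun e => h (Subtype.ext e)) ⟨i, hn⟩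
    have hD : ∀ x ∈ D, ∀ b, (x, b) ∉ T := fun x hx b hb => by
      obtain ⟨j, hj⟩ := h1 x hx
      exact j.2 ⟨x, hj, b, hb⟩
    have h3 : T ∪ {p | p.1 ∈ D ∧ f p.1 = p.2} ∈ S := by
      constructor
      · rintro x (a | a) (b | b)
        · exact hT.prop.1 x a b
        · exact hD x b.1 _ a
        · exact hD x a.1 _ b
        · exact Bool.noConfusion (a.2.symm.trans b.2)
      · rintro j x b hx (a | a)
        · obtain ⟨y, hy, h⟩ := hT.prop.2 j x b hx a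
          exact ⟨y, hy, Or.inl h⟩
        · by_cases hj : ∃ x ∈ A j, ∃ b, (x, b) ∈ T
          · obtain ⟨y, hy, b', h⟩ := hj
            by_cases e : b' = !b
            · exact ⟨y, hy, Or.inl (e ▸ h)⟩
            · obtain ⟨z, hz, h'⟩ := hT.prop.2 j y b' hy h
              have : b' = b := by revert e; cases b <;> cases b' <;> simp
              exact ⟨z, hz, Or.inl (this ▸ h')⟩
          · obtain ⟨z, hz, h'⟩ := (h2 x a.1 ⟨j, hj⟩ hx).exists_ne b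
            exact ⟨z, hz.1, Or.inr ⟨hz.2, by revert h'; cases b <;> cases f z <;> simp⟩⟩
    exact hD x0 hx0 (f x0) (hT.le_of_ge h3 subset_union_left (Or.inr ⟨hx0, rfl⟩))
  obtain ⟨x, hx, b, hb⟩ := hmeet
  obtain ⟨y, hy, hb'⟩ := hT.prop.2 i x b hx hb
  cases b
  · refine ⟨y, hy, x, hx, ?_⟩
    have : (x, true) ∉ T := fun h => hT.prop.1 x h hb
    simpa [this] using hb'
  · refine ⟨x, hx, y, hy, ?_⟩
    have : (y, true) ∉ T := fun h => hT.prop.1 y h hb'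
    simpa [this] using hb

end Pool.Agent.H26.PropB
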