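import Mathlib

/-! Lines on a quadric in five-space containing no plane, projected generically to three-space. -/

namespace Pool.Agent.H26.QuadricLines

open Finset

noncomputable def τ : ℝ := liouvilleNumber 2
lemma τ_tr : Transcendental ℤ τ := by
  have := transcendental_liouvilleNumber (m := 2) le_rfl
  simpa [τ] using this

lemma coeff_zero (n : ℕ) (c : ℕ → ℤ) (h : ∑ k ∈ range n, (c k : ℝ) * τ ^ k = 0) :
    ∀ k < n, c k = 0 := by
  have h1 : (∑ k ∈ range n, Polynomial.monomial k (c k)) = 0 := by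
    by_contra hne
    refine τ_tr ⟨_, hne, ?_⟩
    simpa [Polynomial.aeval_monomial] using h
  intro k hk
  have := congrArg (fun p => Polynomial.coeff p k) h1
  simpa [Polynomial.coeff_monomial, hk] using this

noncomputable def f1 (w : ℕ → ℤ) : ℝ := w 0 + w 1 * τ + w 2 * τ ^ 2 + w 3 * τ ^ 3
noncomputable def f2 (w : ℕ → ℤ) : ℝ := w 0 + w 1 * τ ^ 4 + w 2 * τ ^ 8 + w 3 * τ ^ 12

lemma minors {w w' : ℕ → ℤ} (h : f1 w * f2 w' - f1 w' * f2 w = 0) :
    ∀ i < 4, ∀ j < 4, w i * w' j = w' i * w j := by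
  have := coeff_zero 16 (fun k => w (k % 4) * w' (k / 4) - w' (k % 4) * w (k / 4)) (by
    simp only [sum_range_succ, range_zero, sum_empty]
    norm_num
    unfold f1 f2 at h
    linear_combination h)
  intro i hi j hj
  have h2 := this (i + 4 * j) (by omega)
  have e1 : (i + 4 * j) % 4 = i := by omega
  have e2 : (i + 4 * j) / 4 = j := by omega
  simp only [e1, e2] at h2
  linarith

lemma f1_zero {w : ℕ → ℤ} (h : f1 w = 0) : ∀ i < 4, w i = 0 :=
  coeff_zero 4 w (by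
    simp only [sum_range_succ, range_zero, sum_empty]
    unfold f1 at h
    linear_combination h)

abbrev E3 := EuclideanSpace ℝ (Fin 3)
abbrev Q := ℤ × ℤ × ℤ × ℤ × ℤ

/-- base point data -/
def u (q : Q) : ℕ → ℤ := fun i =>
  if i = 0 then -q.2.2.1 else if i = 1 then -q.2.2.2.1 else if i = 2 then -q.2.2.2.2
  else -(q.2.2.1 ^ 2 + q.2.2.2.1 ^ 2)
/-- direction data -/
def v (q : Q) : ℕ → ℤ := fun i =>
  if i = 0 then q.1 else if i = 1 then q.2.1 else if i = 2 then q.1 ^ 2 + q.2.1 ^ 2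
  else 2 * (q.1 * q.2.2.1 + q.2.1 * q.2.2.2.1) - q.2.2.2.2

noncomputable def pt (s : ℝ) (w : ℕ → ℤ) : E3 := !₂[s, f1 w, f2 w]

noncomputable def line (q : Q) : AffineSubspace ℝ E3 :=
  AffineSubspace.mk' (pt 0 (u q)) (Submodule.span ℝ {pt 1 (v q)})

lemma line_dim (q : Q) : Module.finrank ℝ (line q).direction = 1 := by
  rw [line, AffineSubspace.direction_mk']
  apply finrank_span_singleton
  intro h
  have := congrFun (congrArg (fun x : E3 => x.ofLp) h) 0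
  simp [pt] at this

lemma pt_sub (s s' : ℝ) (w w' : ℕ → ℤ) : pt s w - pt s' w' = pt (s - s') (w - w') := by
  ext i
  fin_cases i <;> simp [pt, f1, f2] <;> ring

lemma det_zero {W : Submodule ℝ E3} (hW : Module.finrank ℝ W = 2) {d x y : ℕ → ℤ}
    (hd : pt 1 d ∈ W) (hx : pt 0 x ∈ W) (hy : pt 0 y ∈ W) :
    f1 x * f2 y - f1 y * f2 x = 0 := by
  by_contra hne
  have : W = ⊤ := by
    rw [eq_top_iff]
    intro z _
    set D := f1 x * f2 y - f1 y * f2 x with hD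
    have e : z = z 0 • pt 1 d
        + (((z 1 - z 0 * f1 d) * f2 y - (z 2 - z 0 * f2 d) * f1 y) / D) • pt 0 x
        + (((z 2 - z 0 * f2 d) * f1 x - (z 1 - z 0 * f1 d) * f2 x) / D) • pt 0 y := by
      ext i
      fin_cases i
      · simp [pt]
      · simp [pt]; field_simp; rw [hD]; ring
      · simp [pt]; field_simp; rw [hD]; ring
    rw [e]
    exact W.add_mem (W.add_mem (W.smul_mem _ hd) (W.smul_mem _ hx)) (W.smul_mem _ hy)
  rw [this] at hW
  simp at hW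

lemma multiple {w x : ℕ → ℤ} (hw : ∃ i < 4, w i ≠ 0) (h : ∀ i < 4, ∀ j < 4, w i * x j = x i * w j) :
    ∃ l : ℚ, ∀ j < 4, (x j : ℚ) = l * w j := by
  obtain ⟨i, hi, hw⟩ := hw
  refine ⟨x i / w i, fun j hj => ?_⟩
  have h1 : (w i : ℚ) ≠ 0 := by exact_mod_cast hw
  have h2 : (w i : ℚ) * x j = x i * w j := by exact_mod_cast h i hi j hj
  field_simp
  linarith

lemma eq_of_diff {q q' : Q} (h1 : ∀ j < 4, (u q' - u q) j = 0) (h2 : ∀ j < 4, (v q' - v q) j = 0) :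
    q' = q := by
  obtain ⟨t1, t2, a1, a2, b⟩ := q
  obtain ⟨t1', t2', a1', a2', b'⟩ := q'
  have k0 := h1 0 (by omega)
  have k1 := h1 1 (by omega)
  have k2 := h1 2 (by omega)
  have k3 := h2 0 (by omega)
  have k4 := h2 1 (by omega)
  simp [u, v] at k0 k1 k2 k3 k4
  simp only [Prod.mk.injEq]
  omega

lemma two_eqs {q q' : Q} {w : ℕ → ℤ} {l m : ℚ} (hne : q' ≠ q)
    (h1 : ∀ j < 4, ((u q' - u q) j : ℚ) = l * w j) (h2 : ∀ j < 4, ((v q' - v q) j : ℚ) = m * w j) :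
    (w 3 - 2 * (q.2.2.1 * w 0 + q.2.2.2.1 * w 1) + l * (w 0 ^ 2 + w 1 ^ 2) : ℚ) = 0 ∧
    (-w 2 + 2 * (q.1 * w 0 + q.2.1 * w 1) + m * (w 0 ^ 2 + w 1 ^ 2) : ℚ) = 0 := by
  have hlm : l ≠ 0 ∨ m ≠ 0 := by
    by_contra hc
    push Not at hc
    apply hne
    apply eq_of_diff
    · intro j hj
      have := h1 j hj
      rw [hc.1, zero_mul] at this
      exact_mod_cast this
    · intro j hj
      have := h2 j hj
      rw [hc.2, zero_mul] at this
      exact_mod_cast this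
  obtain ⟨t1, t2, a1, a2, b⟩ := q
  obtain ⟨t1', t2', a1', a2', b'⟩ := q'
  have k0 := h1 0 (by omega)
  have k1 := h1 1 (by omega)
  have k2 := h1 2 (by omega)
  have k3 := h1 3 (by omega)
  have j0 := h2 0 (by omega)
  have j1 := h2 1 (by omega)
  have j2 := h2 2 (by omega)
  have j3 := h2 3 (by omega)
  simp [u, v] at k0 k1 k2 k3 j0 j1 j2 j3
  simp only
  have ea1 : (a1' : ℚ) = a1 - l * w 0 := by linarith
  have ea2 : (a2' : ℚ) = a2 - l * w 1 := by linarith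
  have eb : (b' : ℚ) = b - l * w 2 := by linarith
  have et1 : (t1' : ℚ) = t1 + m * w 0 := by linarith
  have et2 : (t2' : ℚ) = t2 + m * w 1 := by linarith
  rw [ea1, ea2] at k3
  rw [et1, et2] at j2
  rw [ea1, ea2, et1, et2, eb] at j3
  set X : ℚ := w 3 - 2 * (a1 * w 0 + a2 * w 1) + l * (w 0 ^ 2 + w 1 ^ 2) with hX
  set Y : ℚ := -w 2 + 2 * (t1 * w 0 + t2 * w 1) + m * (w 0 ^ 2 + w 1 ^ 2) with hY
  have e1 : l * X = 0 := by rw [hX]; linear_combination -k3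
  have e2 : m * Y = 0 := by rw [hY]; linear_combination j2
  have e3 : l * Y + m * X = 0 := by rw [hX, hY]; linear_combination -j3
  rcases hlm with h | h
  · have : X = 0 := (mul_eq_zero.1 e1).resolve_left h
    refine ⟨this, ?_⟩
    rw [this, mul_zero, add_zero] at e3
    exact (mul_eq_zero.1 e3).resolve_left h
  · have : Y = 0 := (mul_eq_zero.1 e2).resolve_left h
    refine ⟨?_, this⟩
    rw [this, mul_zero, zero_add] at e3
    exact (mul_eq_zero.1 e3).resolve_left h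

lemma not_coplanar {π : AffineSubspace ℝ E3} (hπ : Module.finrank ℝ π.direction = 2)
    {q1 q2 q3 : Q} (h12 : q2 ≠ q1) (h13 : q3 ≠ q1) (h23 : q3 ≠ q2)
    (h1 : line q1 ≤ π) (h2 : line q2 ≤ π) (h3 : line q3 ≤ π) : False := by
  have hp : ∀ q, line q ≤ π → pt 0 (u q) ∈ π := fun q h => h (AffineSubspace.self_mem_mk' _ _)
  have hd : ∀ q, line q ≤ π → pt 1 (v q) ∈ π.direction := fun q h => by
    apply AffineSubspace.direction_le h
    rw [line, AffineSubspace.direction_mk']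
    exact Submodule.mem_span_singleton_self _
  have hu : ∀ q, line q ≤ π → pt 0 (u q - u q1) ∈ π.direction := fun q h => by
    have := AffineSubspace.vsub_mem_direction (hp q h) (hp q1 h1)
    rwa [vsub_eq_sub, pt_sub, sub_zero] at this
  have hv : ∀ q, line q ≤ π → pt 0 (v q - v q1) ∈ π.direction := fun q h => by
    have := π.direction.sub_mem (hd q h) (hd q1 h1)
    rwa [pt_sub, sub_self] at this
  obtain ⟨w, hw, hw'⟩ : ∃ w : ℕ → ℤ, (∃ i < 4, w i ≠ 0) ∧ pt 0 w ∈ π.direction := by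
    by_contra hc
    push Not at hc
    apply h12
    apply eq_of_diff
    · by_contra h; push Not at h; exact hc _ h (hu q2 h2)
    · by_contra h; push Not at h; exact hc _ h (hv q2 h2)
  have mult : ∀ x, pt 0 x ∈ π.direction → ∃ l : ℚ, ∀ j < 4, (x j : ℚ) = l * w j :=
    fun x hx => multiple hw (minors (det_zero hπ (hd q1 h1) hw' hx))
  obtain ⟨l2, hl2⟩ := mult _ (hu q2 h2)
  obtain ⟨m2, hm2⟩ := mult _ (hv q2 h2)
  obtain ⟨l3, hl3⟩ := mult _ (hu q3 h3)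
  obtain ⟨m3, hm3⟩ := mult _ (hv q3 h3)
  obtain ⟨a2, b2⟩ := two_eqs h12 hl2 hm2
  obtain ⟨a3, b3⟩ := two_eqs h13 hl3 hm3
  by_cases hW : (w 0 ^ 2 + w 1 ^ 2 : ℚ) = 0
  · have w0 : (w 0 : ℚ) = 0 := by nlinarith [sq_nonneg (w 0 : ℚ), sq_nonneg (w 1 : ℚ)]
    have w1 : (w 1 : ℚ) = 0 := by nlinarith [sq_nonneg (w 0 : ℚ), sq_nonneg (w 1 : ℚ)]
    rw [w0, w1] at a2 b2
    have w3 : (w 3 : ℚ) = 0 := by linarith
    have w2 : (w 2 : ℚ) = 0 := by linarith
    obtain ⟨i, hi, hw⟩ := hw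
    apply hw
    interval_cases i <;> assumption_mod_cast
  · have el : l3 = l2 := mul_right_cancel₀ hW (by linarith)
    have em : m3 = m2 := mul_right_cancel₀ hW (by linarith)
    apply h23
    apply eq_of_diff
    · intro j hj
      have e1 := hl2 j hj
      have e2 := hl3 j hj
      rw [el, ← e1] at e2
      have e3 : (u q3 - u q1) j = (u q2 - u q1) j := by exact_mod_cast e2
      simp only [Pi.sub_apply] at e3 ⊢
      omega
    · intro j hj
      have e1 := hm2 j hj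
      have e2 := hm3 j hj
      rw [em, ← e1] at e2
      have e3 : (v q3 - v q1) j = (v q2 - v q1) j := by exact_mod_cast e2
      simp only [Pi.sub_apply] at e3 ⊢
      omega

lemma line_inj : Function.Injective line := by
  intro q q' h
  have h1 : pt 0 (u q') ∈ line q := h ▸ AffineSubspace.self_mem_mk' _ _
  have h2 : pt 1 (v q') ∈ (line q).direction := by
    rw [h, line, AffineSubspace.direction_mk']
    exact Submodule.mem_span_singleton_self _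
  rw [line, AffineSubspace.mem_mk', vsub_eq_sub, pt_sub, Submodule.mem_span_singleton] at h1
  rw [line, AffineSubspace.direction_mk', Submodule.mem_span_singleton] at h2
  obtain ⟨c, hc⟩ := h1
  obtain ⟨d, hd⟩ := h2
  have c0 := congrFun (congrArg (fun x : E3 => x.ofLp) hc) 0
  have c1 := congrFun (congrArg (fun x : E3 => x.ofLp) hc) 1
  have d0 := congrFun (congrArg (fun x : E3 => x.ofLp) hd) 0
  have d1 := congrFun (congrArg (fun x : E3 => x.ofLp) hd) 1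
  simp [pt] at c0 c1 d0 d1
  refine (eq_of_diff (f1_zero ?_) (f1_zero ?_)).symm
  · rw [← c1, c0, zero_mul]
  · rw [d0, one_mul] at d1
    unfold f1 at d1 ⊢
    simp only [Pi.sub_apply]
    push_cast
    linarith

noncomputable def qp (x : ℤ × ℤ × ℤ × ℤ) : E3 :=
  pt x.1 (fun i => if i = 0 then x.2.1 else if i = 1 then x.2.2.1 else if i = 2 then x.2.2.2
    else x.1 * x.2.2.2 - (x.2.1 ^ 2 + x.2.2.1 ^ 2))

def onl (q : Q) (s : ℤ) : ℤ × ℤ × ℤ × ℤ :=
  (s, s * q.1 - q.2.2.1, s * q.2.1 - q.2.2.2.1, s * (q.1 ^ 2 + q.2.1 ^ 2) - q.2.2.2.2)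

lemma onl_mem (q : Q) (s : ℤ) : qp (onl q s) ∈ line q := by
  rw [line, AffineSubspace.mem_mk', vsub_eq_sub, Submodule.mem_span_singleton]
  refine ⟨s, ?_⟩
  ext i
  fin_cases i <;> simp [pt, qp, onl, f1, f2, u, v] <;> ring

noncomputable def LB (N : ℤ) : Finset Q := Ico 0 N ×ˢ Ico 0 N ×ˢ Ico 0 (N ^ 2) ×ˢ Ico 0 (N ^ 2) ×ˢ Ico 0 (N ^ 3)
noncomputable def PB (N : ℤ) : Finset (ℤ × ℤ × ℤ × ℤ) :=
  Ico 0 N ×ˢ Ico (-N ^ 2) (N ^ 2) ×ˢ Ico (-N ^ 2) (N ^ 2) ×ˢ Ico (-N ^ 3) (2 * N ^ 3)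

lemma LB_card (N : ℕ) : (LB N).card = N ^ 9 := by
  simp only [LB, card_product, Int.card_Ico, sub_zero, ← Nat.cast_pow, Int.toNat_natCast]
  ring

lemma PB_card (N : ℕ) : (PB N).card = 12 * N ^ 8 := by
  have e1 : ((N : ℤ) ^ 2 - -(N : ℤ) ^ 2) = ((2 * N ^ 2 : ℕ) : ℤ) := by push_cast; ring
  have e2 : (2 * (N : ℤ) ^ 3 - -(N : ℤ) ^ 3) = ((3 * N ^ 3 : ℕ) : ℤ) := by push_cast; ring
  simp only [PB, card_product, Int.card_Ico, sub_zero, e1, e2, Int.toNat_natCast]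
  ring

lemma onl_PB {N : ℤ} {q : Q} (hq : q ∈ LB N) {s : ℤ} (hs : s ∈ Ico 0 N) : onl q s ∈ PB N := by
  obtain ⟨t1, t2, a1, a2, b⟩ := q
  simp only [LB, PB, onl, mem_product, mem_Ico] at hq hs ⊢
  obtain ⟨⟨h1, h2⟩, ⟨h3, h4⟩, ⟨h5, h6⟩, ⟨h7, h8⟩, h9, h10⟩ := hq
  obtain ⟨s0, s1⟩ := hs
  have m1 : 0 ≤ s * t1 := mul_nonneg s0 h1
  have m2 : 0 ≤ s * t2 := mul_nonneg s0 h3
  have m3 : s * t1 < N ^ 2 := by nlinarith
  have m4 : s * t2 < N ^ 2 := by nlinarith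
  have m5 : 0 ≤ s * (t1 ^ 2 + t2 ^ 2) := by positivity
  have m6 : t1 ^ 2 + t2 ^ 2 < 2 * N ^ 2 := by nlinarith
  have m7 : s * (t1 ^ 2 + t2 ^ 2) < 2 * N ^ 3 := by nlinarith
  refine ⟨⟨s0, s1⟩, ⟨?_, ?_⟩, ⟨?_, ?_⟩, ?_, ?_⟩ <;> linarith

theorem config (N : ℕ) : ∃ (P : Finset E3) (L : Finset (AffineSubspace ℝ E3)),
    (∀ l ∈ L, Module.finrank ℝ l.direction = 1) ∧
    (∀ π : AffineSubspace ℝ E3, Module.finrank ℝ π.direction = 2 →
      {l : AffineSubspace ℝ E3 | l ∈ L ∧ l ≤ π}.ncard ≤ 2) ∧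
    P.card ≤ 12 * N ^ 8 ∧ L.card ≤ N ^ 9 ∧
    N ^ 10 ≤ {x : E3 × AffineSubspace ℝ E3 | x.1 ∈ P ∧ x.2 ∈ L ∧ x.1 ∈ x.2}.ncard := by
  classical
  refine ⟨(PB N).image qp, (LB N).image line, ?_, ?_, ?_, ?_, ?_⟩
  · intro l hl
    obtain ⟨q, -, rfl⟩ := mem_image.1 hl
    exact line_dim q
  · intro π hπ
    by_contra hc
    push Not at hc
    obtain ⟨a, ⟨ha, ha'⟩, b, ⟨hb, hb'⟩, c, ⟨hc, hc'⟩, hab, hac, hbc⟩ :=
      (Set.two_lt_ncard (Set.Finite.subset (Finset.finite_toSet _) fun x hx => hx.1)).1 hc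
    obtain ⟨q1, -, rfl⟩ := mem_image.1 ha
    obtain ⟨q2, -, rfl⟩ := mem_image.1 hb
    obtain ⟨q3, -, rfl⟩ := mem_image.1 hc
    exact not_coplanar hπ (fun e => hab (congrArg line e).symm)
      (fun e => hac (congrArg line e).symm) (fun e => hbc (congrArg line e).symm) ha' hb' hc'
  · exact card_image_le.trans (PB_card N).le
  · exact card_image_le.trans (LB_card N).le
  · have hfin : {x : E3 × AffineSubspace ℝ E3 | x.1 ∈ (PB N).image qp ∧
        x.2 ∈ (LB N).image line ∧ x.1 ∈ x.2}.Finite :=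
      (((PB N).image qp ×ˢ (LB N).image line).finite_toSet).subset fun x hx => by
        simp only [coe_product, Set.mem_prod, mem_coe]
        exact ⟨hx.1, hx.2.1⟩
    have hc : (LB N ×ˢ Ico (0 : ℤ) N).card = N ^ 10 := by
      rw [card_product, LB_card, Int.card_Ico, sub_zero, Int.toNat_natCast]; ring
    rw [← hc, ← Set.ncard_coe_finset]
    refine Set.ncard_le_ncard_of_injOn (fun x => (qp (onl x.1 x.2), line x.1)) ?_ ?_ hfin
    · intro x hx
      rw [mem_coe, mem_product] at hx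
      exact ⟨mem_image_of_mem _ (onl_PB hx.1 hx.2), mem_image_of_mem _ hx.1, onl_mem _ _⟩
    · intro x _ y _ h
      simp only [Prod.mk.injEq] at h
      have := congrFun (congrArg (fun x : E3 => x.ofLp) h.1) 0
      simp [qp, pt, onl] at this
      exact Prod.ext (line_inj h.2) this

theorem bound_fails (C : ℝ) : ∃ N : ℕ, ∀ m n I : ℕ, m ≤ 12 * N ^ 8 → n ≤ N ^ 9 → N ^ 10 ≤ I →
    C * ((m : ℝ) ^ ((2 : ℝ) / 3) * (n : ℝ) ^ ((1 : ℝ) / 2) + m + n) < I := by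
  obtain ⟨K, hK⟩ := exists_nat_gt (22 * |C| + 1)
  have hC := abs_nonneg C
  have hK1 : (1 : ℝ) ≤ K := by linarith
  refine ⟨K ^ 6, fun m n I hm hn hI => ?_⟩
  have hm' : (m : ℝ) ≤ 12 * (K : ℝ) ^ 48 := by
    have : ((12 * (K ^ 6) ^ 8 : ℕ) : ℝ) = 12 * (K : ℝ) ^ 48 := by push_cast; ring
    rw [← this]; exact_mod_cast hm
  have hn' : (n : ℝ) ≤ (K : ℝ) ^ 54 := by
    have : (((K ^ 6) ^ 9 : ℕ) : ℝ) = (K : ℝ) ^ 54 := by push_cast; ring
    rw [← this]; exact_mod_cast hn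
  have hI' : (K : ℝ) ^ 60 ≤ I := by
    have : (((K ^ 6) ^ 10 : ℕ) : ℝ) = (K : ℝ) ^ 60 := by push_cast; ring
    rw [← this]; exact_mod_cast hI
  have hK0 : (0 : ℝ) < K := by linarith
  have h1 : (m : ℝ) ^ ((2 : ℝ) / 3) ≤ 9 * (K : ℝ) ^ 32 := by
    have e : (m : ℝ) ≤ (3 * (K : ℝ) ^ 16) ^ 3 := by
      have : (0 : ℝ) ≤ (K : ℝ) ^ 48 := by positivity
      nlinarith
    refine (Real.rpow_le_rpow (by positivity) e (by norm_num)).trans (le_of_eq ?_)
    rw [← Real.rpow_natCast, ← Real.rpow_mul (by positivity)]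
    norm_num
    ring
  have h2 : (n : ℝ) ^ ((1 : ℝ) / 2) ≤ (K : ℝ) ^ 27 := by
    have e : (n : ℝ) ≤ ((K : ℝ) ^ 27) ^ 2 := by rw [← pow_mul]; exact hn'
    refine (Real.rpow_le_rpow (by positivity) e (by norm_num)).trans (le_of_eq ?_)
    rw [← Real.rpow_natCast, ← Real.rpow_mul (by positivity)]
    norm_num
  have h3 : (m : ℝ) ^ ((2 : ℝ) / 3) * (n : ℝ) ^ ((1 : ℝ) / 2) ≤ 9 * (K : ℝ) ^ 59 := by
    calc _ ≤ (9 * (K : ℝ) ^ 32) * (K : ℝ) ^ 27 :=
          mul_le_mul h1 h2 (by positivity) (by positivity)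
      _ = _ := by ring
  have h4 : (K : ℝ) ^ 48 ≤ (K : ℝ) ^ 59 := pow_le_pow_right₀ hK1 (by norm_num)
  have h5 : (K : ℝ) ^ 54 ≤ (K : ℝ) ^ 59 := pow_le_pow_right₀ hK1 (by norm_num)
  have h6 : (0 : ℝ) < (K : ℝ) ^ 59 := by positivity
  have h7 : (0 : ℝ) ≤ (m : ℝ) ^ ((2 : ℝ) / 3) * (n : ℝ) ^ ((1 : ℝ) / 2) + m + n := by positivity
  calc _ ≤ |C| * ((m : ℝ) ^ ((2 : ℝ) / 3) * (n : ℝ) ^ ((1 : ℝ) / 2) + m + n) :=
        mul_le_mul_of_nonneg_right (le_abs_self C) h7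
    _ ≤ |C| * (22 * (K : ℝ) ^ 59) := mul_le_mul_of_nonneg_left (by linarith) hC
    _ < K * (K : ℝ) ^ 59 := by nlinarith
    _ = (K : ℝ) ^ 60 := by ring
    _ ≤ I := hI'

end Pool.Agent.H26.QuadricLines
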