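import Mathlib
import Pool.Agent.H26.BackForth

/-! A sorted copy of the Rado graph whose automorphism group has random invariant graphs with
twins almost surely. -/

namespace Pool.Agent.H26.RadoCE

open Pool.Agent.H26.BackForth MeasureTheory

lemma exists_code (M : ℕ) (p : ℕ → Prop) :
    ∃ c : ℕ, M < c ∧ ∀ k ≤ M, (c.testBit k = true ↔ p k) := by
  classical
  refine ⟨2 ^ (M + 1) + Nat.ofBits (fun i : Fin (M + 1) => decide (p i)), ?_, ?_⟩
  · have : M + 1 < 2 ^ (M + 1) := Nat.lt_two_pow_self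
    omega
  · intro k hk
    rw [Nat.testBit_two_pow_add_gt (by omega), Nat.testBit_ofBits_lt _ _ (by omega)]
    simp

lemma testBit_false {u c : ℕ} (h : u ≤ c) : u.testBit c = false :=
  Nat.testBit_lt_two_pow (lt_of_le_of_lt h Nat.lt_two_pow_self)

abbrev Rg : SimpleGraph ℕ := SimpleGraph.fromRel (fun i j : ℕ => Nat.testBit j i = true)

lemma Rg_ext (T : Finset ℕ) (p : ℕ → Prop) : ∃ z, z ∉ T ∧ ∀ u ∈ T, (Rg.Adj z u ↔ p u) := by
  obtain ⟨c, hc, h⟩ := exists_code (T.sup id) p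
  have hT : ∀ u ∈ T, u ≤ T.sup id := fun u hu => Finset.le_sup (f := id) hu
  refine ⟨c, fun hc' => by have := hT c hc'; omega, fun u hu => ?_⟩
  have := hT u hu
  rw [SimpleGraph.fromRel_adj, testBit_false (u := u) (c := c) (by omega), h u this]
  simp only [ne_eq, Bool.false_eq_true, false_or, and_iff_right_iff_imp]
  intro _; omega

abbrev Om : Type := ℕ × ℕ

def Γ : SimpleGraph Om :=
  SimpleGraph.fromRel (fun x y => y.2.testBit (Nat.pair x.1 x.2) = true ∧ (x.1 = 0 ∨ y.1 = 0))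

lemma Γ_sort {x y : Om} (h : Γ.Adj x y) : x.1 = 0 ∨ y.1 = 0 := by
  rw [Γ, SimpleGraph.fromRel_adj] at h
  tauto

lemma Γ_ext (T : Finset Om) (n : ℕ) (p : Om → Prop) :
    ∃ z : Om, z ∉ T ∧ z.1 = n ∧ ∀ u ∈ T, (Γ.Adj z u ↔ p u ∧ (n = 0 ∨ u.1 = 0)) := by
  obtain ⟨c, hc, h⟩ := exists_code (T.sup fun u => Nat.pair u.1 u.2) (fun k => p k.unpair)
  have hT : ∀ u ∈ T, Nat.pair u.1 u.2 ≤ T.sup fun u => Nat.pair u.1 u.2 :=
    fun u hu => Finset.le_sup (f := fun u : Om => Nat.pair u.1 u.2) hu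
  have hn : (n, c) ∉ T := fun hc' => by
    have := hT _ hc'
    have h2 := Nat.right_le_pair n c
    simp only at this
    omega
  refine ⟨(n, c), hn, rfl, fun u hu => ?_⟩
  have h1 := hT u hu
  have h2 := Nat.right_le_pair n c
  have h3 := Nat.right_le_pair u.1 u.2
  rw [Γ, SimpleGraph.fromRel_adj]
  simp only
  rw [testBit_false (u := u.2) (c := Nat.pair n c) (by omega), h _ h1]
  have : (n, c) ≠ u := fun e => hn (e ▸ hu)
  simp only [ne_eq, this, not_false_eq_true, Bool.false_eq_true, false_and, false_or, true_and,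
    Nat.unpair_pair]
  tauto

lemma iso_Rg : Nonempty (Γ ≃g Rg) := by
  classical
  obtain ⟨e, -, he⟩ := back_forth
    (fun p q : Om × ℕ => (p.1 = q.1 ↔ p.2 = q.2) ∧ (Γ.Adj p.1 q.1 ↔ Rg.Adj p.2 q.2))
    (fun p q h => h.1) (by
      intro s hs a
      by_cases ha : ∃ b, (a, b) ∈ s
      · obtain ⟨b, hb⟩ := ha
        exact ⟨b, by rwa [Set.insert_eq_of_mem (by exact hb)]⟩
      · obtain ⟨z, hz, h⟩ := Rg_ext (s.image Prod.snd) (fun u => ∃ a', (a', u) ∈ s ∧ Γ.Adj a a')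
        have key : ∀ q ∈ s, (a = q.1 ↔ z = q.2) ∧ (Γ.Adj a q.1 ↔ Rg.Adj z q.2) := by
          intro q hq
          refine ⟨iff_of_false (fun e => ha ⟨q.2, e ▸ hq⟩)
            (fun e => hz (e ▸ Finset.mem_image_of_mem _ hq)), ?_⟩
          rw [h _ (Finset.mem_image_of_mem _ hq)]
          refine ⟨fun h' => ⟨q.1, hq, h'⟩, ?_⟩
          rintro ⟨a', ha', h'⟩
          have : a' = q.1 := (hs _ ha' _ hq).1.2 rfl
          exact this ▸ h'
        refine ⟨z, ?_⟩
        rintro p (rfl | hp) q (rfl | hq)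
        · simp
        · exact key q hq
        · obtain ⟨k1, k2⟩ := key p hp
          exact ⟨by rw [eq_comm, k1, eq_comm], by rw [Γ.adj_comm, k2, Rg.adj_comm]⟩
        · exact hs p hp q hq) (by
      intro s hs b
      by_cases hb : ∃ a, (a, b) ∈ s
      · obtain ⟨a, ha⟩ := hb
        exact ⟨a, by rwa [Set.insert_eq_of_mem (by exact ha)]⟩
      · obtain ⟨z, hz, -, h⟩ := Γ_ext (s.image Prod.fst) 0
          (fun u => ∃ b', (u, b') ∈ s ∧ Rg.Adj b b')
        have key : ∀ q ∈ s, (z = q.1 ↔ b = q.2) ∧ (Γ.Adj z q.1 ↔ Rg.Adj b q.2) := by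
          intro q hq
          refine ⟨iff_of_false (fun e => hz (e ▸ Finset.mem_image_of_mem _ hq))
            (fun e => hb ⟨q.1, e ▸ hq⟩), ?_⟩
          rw [h _ (Finset.mem_image_of_mem _ hq)]
          refine ⟨?_, fun h' => ⟨⟨q.2, hq, h'⟩, Or.inl rfl⟩⟩
          rintro ⟨⟨b', hb', h'⟩, -⟩
          have : b' = q.2 := (hs _ hb' _ hq).1.1 rfl
          exact this ▸ h'
        refine ⟨z, ?_⟩
        rintro p (rfl | hp) q (rfl | hq)
        · simp
        · exact key q hq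
        · obtain ⟨k1, k2⟩ := key p hp
          exact ⟨by rw [eq_comm, k1, eq_comm], by rw [Γ.adj_comm, k2, Rg.adj_comm]⟩
        · exact hs p hp q hq) ∅ (by simp)
  exact ⟨⟨e, fun {a b} => (he a b).2.symm⟩⟩

/-- sort preserving automorphisms -/
def G : Subgroup (Equiv.Perm Om) where
  carrier := {g | (∀ x, (g x).1 = x.1) ∧ ∀ x y, Γ.Adj (g x) (g y) ↔ Γ.Adj x y}
  one_mem' := ⟨fun _ => rfl, fun _ _ => Iff.rfl⟩
  mul_mem' := by
    rintro a b ⟨h1, h2⟩ ⟨h3, h4⟩
    exact ⟨fun x => (h1 _).trans (h3 x), fun x y => (h2 _ _).trans (h4 x y)⟩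
  inv_mem' := by
    rintro a ⟨h1, h2⟩
    refine ⟨fun x => ?_, fun x y => ?_⟩
    · rw [← h1]; simp
    · rw [← h2]; simp

def Rel (p q : Om × Om) : Prop :=
  (p.1 = q.1 ↔ p.2 = q.2) ∧ (Γ.Adj p.1 q.1 ↔ Γ.Adj p.2 q.2) ∧ p.1.1 = p.2.1 ∧ q.1.1 = q.2.1

lemma forth (s : Finset (Om × Om)) (hs : ∀ p ∈ s, ∀ q ∈ s, Rel p q) (a : Om) : ∃ b,
    ∀ p ∈ insert (a, b) (s : Set (Om × Om)), ∀ q ∈ insert (a, b) (s : Set (Om × Om)),
      Rel p q := by
  classical
  by_cases ha : ∃ b, (a, b) ∈ s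
  · obtain ⟨b, hb⟩ := ha
    exact ⟨b, by rwa [Set.insert_eq_of_mem (by exact hb)]⟩
  · obtain ⟨z, hz, hz1, h⟩ := Γ_ext (s.image Prod.snd) a.1
      (fun u => ∃ a', (a', u) ∈ s ∧ Γ.Adj a a')
    have key : ∀ q ∈ s, Rel (a, z) q := by
      intro q hq
      have h4 := (hs q hq q hq).2.2.1
      refine ⟨iff_of_false (fun e => ha ⟨q.2, by rw [show a = q.1 from e]; exact hq⟩)
        (fun e => hz (by rw [show z = q.2 from e]; exact Finset.mem_image_of_mem _ hq)), ?_,
        hz1.symm, h4⟩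
      rw [h _ (Finset.mem_image_of_mem _ hq)]
      refine ⟨fun h' => ⟨⟨q.1, hq, h'⟩, h4 ▸ Γ_sort h'⟩, ?_⟩
      rintro ⟨⟨a', ha', h'⟩, -⟩
      have : a' = q.1 := (hs _ ha' _ hq).1.2 rfl
      exact this ▸ h'
    refine ⟨z, ?_⟩
    rintro p (rfl | hp) q (rfl | hq)
    · exact ⟨by simp, by simp, hz1.symm, hz1.symm⟩
    · exact key q hq
    · obtain ⟨k1, k2, k3, k4⟩ := key p hp
      exact ⟨by rw [eq_comm, k1, eq_comm], by rw [Γ.adj_comm, k2, Γ.adj_comm], k4, k3⟩
    · exact hs p hp q hq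

lemma Rel.swap {p q : Om × Om} (h : Rel p q) : Rel p.swap q.swap :=
  ⟨h.1.symm, h.2.1.symm, h.2.2.1.symm, h.2.2.2.symm⟩

lemma homog {a a' b b' : Om} (h : a ≠ a') (h' : b ≠ b') (h1 : a.1 = b.1) (h2 : a'.1 = b'.1)
    (h3 : Γ.Adj a a' ↔ Γ.Adj b b') : ∃ g ∈ G, g a = b ∧ g a' = b' := by
  classical
  obtain ⟨e, he0, he⟩ := back_forth Rel (fun p q h => h.1) forth (by
    intro s hs b
    obtain ⟨a, ha⟩ := forth (s.image Prod.swap) (by
      intro p hp q hq
      obtain ⟨p', hp', rfl⟩ := Finset.mem_image.1 hp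
      obtain ⟨q', hq', rfl⟩ := Finset.mem_image.1 hq
      exact (hs p' hp' q' hq').swap) b
    refine ⟨a, fun p hp q hq => ?_⟩
    have m : ∀ p ∈ insert (a, b) (s : Set (Om × Om)),
        p.swap ∈ insert (b, a) ((s.image Prod.swap : Finset (Om × Om)) : Set (Om × Om)) := by
      rintro p (rfl | hp)
      · exact Or.inl rfl
      · exact Or.inr (Finset.mem_image_of_mem _ hp)
    exact (ha _ (m p hp) _ (m q hq)).swap) {(a, b), (a', b')} (by
      intro p hp q hq
      simp only [Finset.mem_insert, Finset.mem_singleton] at hp hq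
      rcases hp with rfl | rfl <;> rcases hq with rfl | rfl
      · exact ⟨by simp, by simp, h1, h1⟩
      · exact ⟨iff_of_false h h', h3, h1, h2⟩
      · exact ⟨iff_of_false h.symm h'.symm, by rw [Γ.adj_comm, h3, Γ.adj_comm], h2, h1⟩
      · exact ⟨by simp, by simp, h2, h2⟩)
  exact ⟨e, ⟨fun x => (he x x).2.2.1.symm, fun x y => (he x y).2.1.symm⟩,
    he0 (a, b) (by simp), he0 (a', b') (by simp)⟩

abbrev Orb : Type := {S : Set (Sym2 Om) // ∃ e : Sym2 Om, ¬ e.IsDiag ∧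
  S = {e' : Sym2 Om | ∃ g ∈ G, Sym2.map (⇑g) e = e'}}

lemma orb_closed (S : Orb) {e : Sym2 Om} (he : e ∈ S.1) {g : Equiv.Perm Om} (hg : g ∈ G) :
    Sym2.map g e ∈ S.1 := by
  obtain ⟨S, e0, hd, rfl⟩ := S
  obtain ⟨g0, hg0, rfl⟩ := he
  exact ⟨g * g0, G.mul_mem hg hg0, by rw [Sym2.map_map]; rfl⟩

lemma orb_rel (S : Orb) {e e' : Sym2 Om} (he : e ∈ S.1) (he' : e' ∈ S.1) :
    ∃ g ∈ G, Sym2.map g e = e' := by
  obtain ⟨S, e0, hd, rfl⟩ := S
  obtain ⟨g0, hg0, rfl⟩ := he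
  obtain ⟨g1, hg1, rfl⟩ := he'
  refine ⟨g1 * g0⁻¹, G.mul_mem hg1 (G.inv_mem hg0), ?_⟩
  rw [Sym2.map_map]
  congr 1
  ext x <;> simp

lemma orb_eq {S S' : Orb} {e : Sym2 Om} (he : e ∈ S.1) (he' : e ∈ S'.1) : S = S' := by
  apply Subtype.ext
  ext x
  constructor
  · intro hx
    obtain ⟨g, hg, rfl⟩ := orb_rel S he hx
    exact orb_closed S' he' hg
  · intro hx
    obtain ⟨g, hg, rfl⟩ := orb_rel S' he' hx
    exact orb_closed S he hg

lemma exists_rep (n : ℕ) (b : Bool) :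
    ∃ x : Om, x.1 = 0 ∧ (Γ.Adj x (n + 1, 0) ↔ b = true) := by
  obtain ⟨z, -, h1, h2⟩ := Γ_ext {(n + 1, 0)} 0 (fun _ => b = true)
  exact ⟨z, h1, by simpa using h2 (n + 1, 0) (by simp)⟩

noncomputable def rep (n : ℕ) (b : Bool) : Om := (exists_rep n b).choose

lemma rep_ne (n : ℕ) (b : Bool) : rep n b ≠ (n + 1, 0) := by
  intro h
  have := (exists_rep n b).choose_spec.1
  rw [← rep, h] at this
  simp at this

noncomputable def O (x : ℕ × Bool) : Orb :=
  ⟨_, s(rep x.1 x.2, (x.1 + 1, 0)), by simpa using rep_ne x.1 x.2, rfl⟩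

lemma mem_O {n : ℕ} {b : Bool} {w u : Om} (hw : w.1 = 0) (hu : u.1 = n + 1)
    (h : Γ.Adj w u ↔ b = true) : s(w, u) ∈ (O (n, b)).1 := by
  obtain ⟨h1, h2⟩ := (exists_rep n b).choose_spec
  obtain ⟨g, hg, e1, e2⟩ := homog (a := rep n b) (a' := (n + 1, 0)) (b := w) (b' := u)
    (rep_ne n b) (fun e => by rw [e] at hw; omega) (h1.trans hw.symm) hu.symm (h2.trans h.symm)
  exact ⟨g, hg, by simp [e1, e2]⟩

lemma O_inj : Function.Injective O := by
  rintro ⟨n, b⟩ ⟨n', b'⟩ h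
  obtain ⟨h1, h2⟩ := (exists_rep n b).choose_spec
  obtain ⟨h1', h2'⟩ := (exists_rep n' b').choose_spec
  have m : s(rep n' b', (n' + 1, 0)) ∈ (O (n, b)).1 := by
    rw [h]; exact ⟨1, G.one_mem, by simp⟩
  obtain ⟨g, hg, e⟩ := m
  simp only [Sym2.map_mk, Sym2.eq_iff] at e
  rcases e with ⟨e1, e2⟩ | ⟨e1, -⟩
  · have k1 := hg.1 (n + 1, 0)
    rw [e2] at k1
    have k2 := hg.2 (rep n b) (n + 1, 0)
    rw [e1, e2] at k2
    have : b = b' := by
      rw [Bool.eq_iff_iff, ← h2, ← h2']; exact k2.symm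
    simp only at k1
    rw [this, show n = n' by omega]
  · have k1 := hg.1 (rep n b)
    rw [e1] at k1
    have : (rep n b).1 = 0 := h1
    simp only at k1
    omega

abbrev H (c : Orb → Bool) : SimpleGraph Om :=
  SimpleGraph.fromRel (fun x y : Om => ∃ S : Orb, s(x, y) ∈ S.1 ∧ c S = true)

lemma H_adj (c : Orb → Bool) (x y : Om) :
    (H c).Adj x y ↔ x ≠ y ∧ ∃ S : Orb, s(x, y) ∈ S.1 ∧ c S = true := by
  rw [SimpleGraph.fromRel_adj, Sym2.eq_swap (a := y), or_self]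

lemma differ (c : Orb → Bool) (h : Nonempty (H c ≃g Rg)) (n : ℕ) :
    c (O (n, true)) ≠ c (O (n, false)) := by
  classical
  intro hc
  obtain ⟨φ⟩ := h
  let u : Om := (n + 1, 0)
  let v : Om := (n + 1, 1)
  have huv : u ≠ v := by simp [u, v]
  obtain ⟨z, hz, h⟩ := Rg_ext {φ u, φ v} (fun x => x = φ u)
  obtain ⟨w, rfl⟩ := φ.surjective z
  have h1 : (H c).Adj w u := φ.map_adj_iff.1 ((h _ (by simp)).2 rfl)
  have h2 : ¬ (H c).Adj w v := fun k =>
    huv (φ.injective ((h _ (by simp)).1 (φ.map_adj_iff.2 k))).symm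
  have hwv : w ≠ v := fun e => hz (by simp [e])
  obtain ⟨hwu, S, hS, hcS⟩ := (H_adj c w u).1 h1
  apply h2
  rw [H_adj]
  refine ⟨hwv, ?_⟩
  by_cases hw : w.1 = 0
  · have m1 := mem_O (n := n) (b := decide (Γ.Adj w u)) (u := u) hw rfl (by simp)
    have m2 := mem_O (n := n) (b := decide (Γ.Adj w v)) (u := v) hw rfl (by simp)
    refine ⟨_, m2, ?_⟩
    rw [orb_eq hS m1] at hcS
    have hall : ∀ b, c (O (n, b)) = c (O (n, true)) := by
      intro b; cases b
      · exact hc.symm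
      · rfl
    rw [hall] at hcS ⊢
    exact hcS
  · obtain ⟨g, hg, e1, e2⟩ := homog (a := w) (a' := u) (b := w) (b' := v) hwu hwv rfl rfl
      (iff_of_false (fun k => by have := Γ_sort k; simp [u, hw] at this)
        (fun k => by have := Γ_sort k; simp [v, hw] at this))
    have := orb_closed S hS hg
    simp only [Sym2.map_mk, e1, e2] at this
    exact ⟨S, this, hcS⟩

lemma measure_zero {ι : Type} (O : ℕ × Bool → ι) (hO : Function.Injective O) :
    (Measure.infinitePi (fun _ : ι => (PMF.uniformOfFintype Bool).toMeasure))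
      {c | ∀ n, c (O (n, true)) ≠ c (O (n, false))} = 0 := by
  classical
  have bound : ∀ N : ℕ, (Measure.infinitePi (fun _ : ι => (PMF.uniformOfFintype Bool).toMeasure))
      {c | ∀ n, c (O (n, true)) ≠ c (O (n, false))} ≤ 2⁻¹ ^ N := by
    intro N
    let s : Finset ι := (Finset.univ : Finset (Fin N × Bool)).image (fun x => O (x.1, x.2))
    have hs : s.card = 2 * N := by
      rw [Finset.card_image_of_injective]
      · simp [mul_comm]
      · intro x y h
        have := hO h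
        simp only [Prod.mk.injEq] at this
        exact Prod.ext (Fin.ext this.1) this.2
    let v : (Fin N → Bool) → ι → Bool := fun ε =>
      Function.extend O (fun x => if h : x.1 < N then (if x.2 then ε ⟨x.1, h⟩ else !ε ⟨x.1, h⟩)
        else true) (fun _ => true)
    have hsub : {c : ι → Bool | ∀ n, c (O (n, true)) ≠ c (O (n, false))} ⊆
        ⋃ ε : Fin N → Bool, Set.pi s (fun i => {v ε i}) := by
      intro c hc
      refine Set.mem_iUnion.2 ⟨fun n => c (O (n, true)), ?_⟩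
      intro i hi
      obtain ⟨⟨n, b⟩, -, rfl⟩ := Finset.mem_image.1 hi
      simp only [v, hO.extend_apply, Set.mem_singleton_iff, n.2, dif_pos]
      have := hc n
      cases b
      · simp only [Bool.false_eq_true, if_false]
        revert this
        cases c (O (n, true)) <;> cases c (O (n, false)) <;> simp
      · simp
    refine (measure_mono hsub).trans ((measure_iUnion_fintype_le _ _).trans ?_)
    have : ∀ ε : Fin N → Bool,
        (Measure.infinitePi (fun _ : ι => (PMF.uniformOfFintype Bool).toMeasure))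
          (Set.pi s (fun i => {v ε i})) = 2⁻¹ ^ (2 * N) := by
      intro ε
      rw [Measure.infinitePi_pi _ (fun _ _ => measurableSet_singleton _), ← hs,
        ← Finset.prod_const]
      refine Finset.prod_congr rfl fun i _ => ?_
      rw [PMF.toMeasure_apply_singleton _ _ (measurableSet_singleton _)]
      simp
    simp only [this, Finset.sum_const, Finset.card_univ, Fintype.card_pi, Fintype.card_bool,
      Finset.prod_const, Fintype.card_fin, nsmul_eq_mul, Nat.cast_pow, Nat.cast_ofNat]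
    rw [two_mul, pow_add, ← mul_assoc, ← mul_pow, ENNReal.mul_inv_cancel (by simp) (by simp)]
    simp
  refine le_antisymm ?_ bot_le
  refine ge_of_tendsto' (ENNReal.tendsto_pow_atTop_nhds_zero_of_lt_one (r := 2⁻¹) (by simp)) bound

end Pool.Agent.H26.RadoCE
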