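import Pool.Agent.H26.RevDefs

set_option autoImplicit false

namespace H26.Rev

abbrev W := Option (ℕ × Bool)

def tri (s : ℕ → Bool) (u v : W) : Prop :=
  ∃ n, (u = none ∧ v = some (n, s n)) ∨ (u = some (n, s n) ∧ v = some (n, !s n)) ∨
    (u = some (n, !s n) ∧ v = none)

theorem out_arc {V : Type} {l : List V} {u v : V} (h : CycArc l u v) : ∃ w, CycArc l v w := by
  obtain ⟨i, h1, h2⟩ := h
  have hl : 0 < l.length := by
    rcases l with _ | ⟨a, l⟩
    · simp at h1
    · simp
  exact ⟨l[((i + 1) % l.length + 1) % l.length]'(Nat.mod_lt _ hl), (i + 1) % l.length, h2,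
    List.getElem?_eq_getElem _⟩

theorem in_arc {V : Type} {l : List V} {u v : V} (h : CycArc l u v) : ∃ w, CycArc l w u := by
  obtain ⟨i, h1, h2⟩ := h
  have hi : i < l.length := (List.getElem?_eq_some_iff.1 h1).1
  rcases i with _ | i
  · refine ⟨l[l.length - 1], l.length - 1, List.getElem?_eq_getElem _, ?_⟩
    rw [Nat.sub_add_cancel hi, Nat.mod_self]; exact h1
  · exact ⟨l[i], i, List.getElem?_eq_getElem _, by rw [Nat.mod_eq_of_lt hi]; exact h1⟩

theorem all_three {s : ℕ → Bool} {l : List W} (h : ∀ u v, CycArc l u v → tri s u v) (n : ℕ) :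
    (CycArc l none (some (n, s n)) ↔ CycArc l (some (n, s n)) (some (n, !s n))) ∧
    (CycArc l (some (n, !s n)) none ↔ CycArc l (some (n, s n)) (some (n, !s n))) := by
  refine ⟨⟨fun a => ?_, fun a => ?_⟩, ⟨fun a => ?_, fun a => ?_⟩⟩
  · obtain ⟨w, hw⟩ := out_arc a
    obtain ⟨m, ⟨h1, _⟩ | ⟨h1, h2⟩ | ⟨h1, _⟩⟩ := h _ _ hw
    · simp at h1
    · obtain rfl : n = m := by simpa using congrArg (Option.map Prod.fst) h1
      exact h2 ▸ hw
    · obtain rfl : n = m := by simpa using congrArg (Option.map Prod.fst) h1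
      simp at h1
  · obtain ⟨w, hw⟩ := in_arc a
    obtain ⟨m, ⟨h1, h2⟩ | ⟨_, h2⟩ | ⟨_, h2⟩⟩ := h _ _ hw
    · exact h1 ▸ hw
    · obtain rfl : n = m := by simpa using congrArg (Option.map Prod.fst) h2
      simp at h2
    · simp at h2
  · obtain ⟨w, hw⟩ := in_arc a
    obtain ⟨m, ⟨_, h2⟩ | ⟨h1, h2⟩ | ⟨_, h2⟩⟩ := h _ _ hw
    · obtain rfl : n = m := by simpa using congrArg (Option.map Prod.fst) h2
      simp at h2
    · obtain rfl : n = m := by simpa using congrArg (Option.map Prod.fst) h2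
      exact h1 ▸ hw
    · simp at h2
  · obtain ⟨w, hw⟩ := out_arc a
    obtain ⟨m, ⟨h1, _⟩ | ⟨h1, _⟩ | ⟨_, h2⟩⟩ := h _ _ hw
    · simp at h1
    · obtain rfl : n = m := by simpa using congrArg (Option.map Prod.fst) h1
      simp at h1
    · exact h2 ▸ hw

def Inv (B : W → W → Prop) : Prop := ∃ s, ∀ u v, B u v ↔ tri s u v

theorem tri_iff (s : ℕ → Bool) (u v : W) : tri s u v ↔
    match u, v with
    | none, none => False
    | none, some (n, b) => b = s n
    | some (n, b), none => b = !s n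
    | some (n, b), some (m, c) => n = m ∧ b = s n ∧ c = !s n := by
  rcases u with _ | ⟨n, b⟩ <;> rcases v with _ | ⟨m, c⟩ <;> simp [tri]
  tauto

theorem inv_all (R : RevSeq (tri fun _ => true)) (ξ : Ordinal.{0}) : ξ ≤ R.len → Inv (R.st ξ) := by
  induction ξ using WellFoundedLT.induction with
  | _ ξ ih =>
    intro hξ
    rcases Ordinal.zero_or_succ_or_isSuccLimit ξ with rfl | ⟨η, rfl⟩ | hl
    · exact ⟨_, by rw [R.zero]; exact fun _ _ => Iff.rfl⟩
    · have hη : η < R.len := Order.succ_le_iff.1 hξ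
      obtain ⟨s, hs⟩ := ih η (Order.lt_succ η) hη.le
      have hc : ∀ u v, CycArc (R.cyc η) u v → tri s u v := fun u v h => (hs u v).1 ((R.isCyc η hη).2.2 u v h)
      classical
      refine ⟨fun n => if CycArc (R.cyc η) (some (n, s n)) (some (n, !s n)) then !s n else s n, fun u v => ?_⟩
      have e : Order.succ η = η + 1 := rfl
      rw [e, R.succ η hη, hs, tri_iff, tri_iff]
      have c1 := hc v u
      have c2 := hc u v
      rw [tri_iff] at c1 c2
      rcases u with _ | ⟨n, b⟩ <;> rcases v with _ | ⟨m, c⟩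
      · simpa using c1
      · have := all_three hc m
        simp only at c1 c2 ⊢
        cases c <;> cases hm : s m <;> rw [hm] at this c1 c2 <;> split_ifs <;> simp_all
      · have := all_three hc n
        simp only at c1 c2 ⊢
        cases b <;> cases hm : s n <;> rw [hm] at this c1 c2 <;> split_ifs <;> simp_all
      · simp only at c1 c2 ⊢
        by_cases hnm : n = m
        · subst hnm
          revert c1 c2
          cases b <;> cases c <;> cases s n <;> intro c1 c2 <;> split_ifs with hh <;>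
            simp only [Bool.not_true, Bool.not_false] at * <;> simp at c1 c2 ⊢ <;> tauto
        · have h1 : ¬ CycArc (R.cyc η) (some (m, c)) (some (n, b)) := fun h => hnm (c1 h).1.symm
          simp [hnm, h1]
    · have H := R.limit ξ hξ hl
      have ev : ∀ (u v u' v' : W), ∃ s, (R.st ξ u v ↔ tri s u v) ∧ (R.st ξ u' v' ↔ tri s u' v') := by
        intro u v u' v'
        obtain ⟨a, ha, h1⟩ := H u v
        obtain ⟨b, hb, h2⟩ := H u' v'
        have hm : max a b < ξ := max_lt ha hb
        obtain ⟨s, hs⟩ := ih _ hm (hm.le.trans hξ)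
        exact ⟨s, (h1 _ (le_max_left _ _) hm).trans (hs _ _), (h2 _ (le_max_right _ _) hm).trans (hs _ _)⟩
      classical
      refine ⟨fun n => decide (R.st ξ none (some (n, true))), fun u v => ?_⟩
      rw [tri_iff]
      rcases u with _ | ⟨n, b⟩ <;> rcases v with _ | ⟨m, c⟩
      · obtain ⟨s, h1, _⟩ := ev none none none none
        rw [h1, tri_iff]
      · obtain ⟨s, h1, h2⟩ := ev none (some (m, c)) none (some (m, true))
        rw [tri_iff] at h1 h2
        simp only [h1, h2]
        cases s m <;> simp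
      · obtain ⟨s, h1, h2⟩ := ev (some (n, b)) none none (some (n, true))
        rw [tri_iff] at h1 h2
        simp only [h1, h2]
        cases s n <;> simp
      · obtain ⟨s, h1, h2⟩ := ev (some (n, b)) (some (m, c)) none (some (n, true))
        rw [tri_iff] at h1 h2
        simp only [h1, h2]
        cases s n <;> simp

theorem strong_of_inv {B : W → W → Prop} (h : Inv B) : Strong B Set.univ := by
  obtain ⟨s, hs⟩ := h
  have e : ∀ u v, tri s u v → Relation.ReflTransGen (fun x y => x ∈ Set.univ ∧ y ∈ Set.univ ∧ B x y) u v :=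
    fun u v h => Relation.ReflTransGen.single ⟨trivial, trivial, (hs u v).2 h⟩
  have a : ∀ n, tri s none (some (n, s n)) := fun n => ⟨n, Or.inl ⟨rfl, rfl⟩⟩
  have b : ∀ n, tri s (some (n, s n)) (some (n, !s n)) := fun n => ⟨n, Or.inr (Or.inl ⟨rfl, rfl⟩)⟩
  have c : ∀ n, tri s (some (n, !s n)) none := fun n => ⟨n, Or.inr (Or.inr ⟨rfl, rfl⟩)⟩
  intro u _ v _
  refine Relation.ReflTransGen.trans (b := none) ?_ ?_
  · rcases u with _ | ⟨n, t⟩
    · exact Relation.ReflTransGen.refl
    · by_cases ht : t = s n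
      · rw [ht]; exact (e _ _ (b n)).trans (e _ _ (c n))
      · rw [Bool.eq_not.2 ht]; exact e _ _ (c n)
  · rcases v with _ | ⟨n, t⟩
    · exact Relation.ReflTransGen.refl
    · by_cases ht : t = s n
      · rw [ht]; exact e _ _ (a n)
      · rw [Bool.eq_not.2 ht]; exact (e _ _ (a n)).trans (e _ _ (b n))

theorem main : ∃ (V : Type) (A : V → V → Prop), Countable V ∧ (∀ v, ¬ A v v) ∧ (∀ u v, A u v → ¬ A v u) ∧
    ∀ R : RevSeq A, ∃ S : Set V, Maximal (Strong (R.st R.len)) S ∧ S.Infinite := by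
  refine ⟨W, tri fun _ => true, inferInstance, fun v => ?_, fun u v => ?_, fun R => ?_⟩
  · rw [tri_iff]; rcases v with _ | ⟨n, b⟩ <;> simp
  · rw [tri_iff, tri_iff]; rcases u with _ | ⟨n, b⟩ <;> rcases v with _ | ⟨m, c⟩ <;> simp
    rintro rfl rfl rfl; simp
  · exact ⟨Set.univ, ⟨strong_of_inv (inv_all R _ le_rfl), fun _ _ _ => Set.subset_univ _⟩, Set.infinite_univ⟩

end H26.Rev
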