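import Mathlib

set_option autoImplicit false

namespace H26.Rev

/-- `uv` is an arc of the cycle whose vertices are listed cyclically by `l`. -/
def CycArc {V : Type} (l : List V) (u v : V) : Prop :=
  ∃ i, l[i]? = some u ∧ l[(i + 1) % l.length]? = some v

/-- `l` lists a finite directed cycle of the digraph with arc relation `B`. -/
def IsCyc {V : Type} (B : V → V → Prop) (l : List V) : Prop :=
  l.Nodup ∧ 2 ≤ l.length ∧ ∀ u v, CycArc l u v → B u v

/-- A reversal sequence of the digraph `A`: cycles `cyc ξ` for `ξ < len`, with `st ξ` the digraph obtained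
after reversing the cycles of index below `ξ`. -/
structure RevSeq {V : Type} (A : V → V → Prop) where
  len : Ordinal.{0}
  cyc : Ordinal.{0} → List V
  st : Ordinal.{0} → V → V → Prop
  zero : st 0 = A
  isCyc : ∀ ξ < len, IsCyc (st ξ) (cyc ξ)
  succ : ∀ ξ < len, ∀ u v, st (ξ + 1) u v ↔ (st ξ u v ∧ ¬ CycArc (cyc ξ) u v) ∨ CycArc (cyc ξ) v u
  locFin : ∀ u v, {ξ | ξ < len ∧ (CycArc (cyc ξ) u v ∨ CycArc (cyc ξ) v u)}.Finite
  limit : ∀ l ≤ len, Order.IsSuccLimit l → ∀ u v, ∃ ξ < l, ∀ η, ξ ≤ η → η < l → (st l u v ↔ st η u v)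

/-- The subdigraph induced on `S` is strong. -/
def Strong {V : Type} (B : V → V → Prop) (S : Set V) : Prop :=
  ∀ u ∈ S, ∀ v ∈ S, Relation.ReflTransGen (fun x y => x ∈ S ∧ y ∈ S ∧ B x y) u v

end H26.Rev
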