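import Pool.Agent.H26.SsB

set_option autoImplicit false

namespace Pool.Agent.H26.Rh

open Set MeasureTheory Filter Topology Metric Pool.Agent.H26.Ss
open scoped ENNReal Pointwise

variable {E : Type} [NormedAddCommGroup E] [InnerProductSpace ℝ E]

theorem chord {u : E} (hu : ‖u‖ = 1) {K : Set E} (hK : IsCompact K) (hc : Convex ℝ K) (x : E)
    (hx : ∃ s : ℝ, x + s • u ∈ K) : ∃ α β : ℝ, α ≤ β ∧ {s : ℝ | x + s • u ∈ K} = Icc α β := by
  have iso : Isometry (fun s : ℝ => x + s • u) := by
    refine Isometry.of_dist_eq fun s t => ?_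
    rw [dist_add_left, dist_eq_norm, ← sub_smul, norm_smul, hu, mul_one, dist_eq_norm]
  have c1 : IsCompact {s : ℝ | x + s • u ∈ K} := iso.isClosedEmbedding.isCompact_preimage hK
  have c2 : Convex ℝ {s : ℝ | x + s • u ∈ K} := by
    intro s hs t ht a b ha hb hab
    have := hc hs ht ha hb hab
    show x + (a • s + b • t) • u ∈ K
    convert this using 1
    obtain rfl : b = 1 - a := by linarith
    simp only [smul_eq_mul]
    module
  have e := eq_Icc_of_connected_compact (c2.isConnected hx) c1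
  refine ⟨_, _, ?_, e⟩
  obtain ⟨s, hs⟩ := hx
  have : s ∈ {s : ℝ | x + s • u ∈ K} := hs
  rw [e] at this
  exact this.1.trans this.2

theorem len_ge {u : E} {C : Set E} (hc : Convex ℝ C) {x : E} {s t : ℝ} (hs : x + s • u ∈ C)
    (ht : x + t • u ∈ C) : ENNReal.ofReal (t - s) ≤ volume {s : ℝ | x + s • u ∈ C} := by
  rw [← Real.volume_Icc]
  refine measure_mono fun r hr => ?_
  have c2 : Convex ℝ {s : ℝ | x + s • u ∈ C} := by
    intro s hs t ht a b ha hb hab
    have := hc hs ht ha hb hab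
    show x + (a • s + b • t) • u ∈ C
    convert this using 1
    obtain rfl : b = 1 - a := by linarith
    simp only [smul_eq_mul]
    module
  exact c2.ordConnected.out hs ht hr

def slab (u : E) : Set E := {x | inner ℝ x u ∈ Icc (0 : ℝ) 1}

def cyl (u : E) (K : Set E) : Set E := {x | ∃ s : ℝ, x + s • u ∈ K}

theorem cyl_closed {u : E} (hu : ‖u‖ = 1) {K : Set E} (hK : IsCompact K) : IsClosed (cyl u K) := by
  let π : E → E := fun y => y - inner ℝ y u • u
  have cπ : Continuous π := by fun_prop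
  have : cyl u K = π ⁻¹' (π '' K) := by
    ext x
    constructor
    · rintro ⟨s, hs⟩
      refine ⟨_, hs, ?_⟩
      simp only [π, inner_add_left, inner_smul_left, real_inner_self_eq_norm_sq, hu,
        RCLike.conj_to_real]
      module
    · rintro ⟨y, hy, e⟩
      refine ⟨inner ℝ y u - inner ℝ x u, ?_⟩
      have e : y - inner ℝ y u • u = x - inner ℝ x u • u := e
      have : x + (inner ℝ y u - inner ℝ x u) • u = y := by
        linear_combination (norm := module) -e
      rw [this]; exact hy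
  rw [this]
  exact (hK.image cπ).isClosed.preimage cπ

theorem slab_closed (u : E) : IsClosed (slab u) := isClosed_Icc.preimage (by fun_prop)

def sg (a : ℝ) (u : E) : Set E := (fun t : ℝ => t • u) '' Icc 0 a

theorem sg_compact (a : ℝ) (u : E) : IsCompact (sg a u) := isCompact_Icc.image (by fun_prop)

theorem sg_convex (a : ℝ) (u : E) : Convex ℝ (sg a u) :=
  (convex_Icc 0 a).linear_image (LinearMap.toSpanSingleton ℝ E u)

theorem hull_compact {K M : Set E} (hK : IsCompact K) (hM : IsCompact M) (cK : Convex ℝ K)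
    (cM : Convex ℝ M) (nK : K.Nonempty) (nM : M.Nonempty) :
    IsCompact (convexHull ℝ (K ∪ M)) := by
  rw [cK.convexHull_union cM nK nM]
  have : convexJoin ℝ K M = (fun p : ℝ × E × E => (1 - p.1) • p.2.1 + p.1 • p.2.2) ''
      (Icc 0 1 ×ˢ K ×ˢ M) := by
    ext x
    simp only [mem_convexJoin, segment_eq_image, mem_image, mem_prod, Prod.exists]
    constructor
    · rintro ⟨a, ha, b, hb, t, ht, e⟩
      exact ⟨t, a, b, ⟨ht, ha, hb⟩, e⟩
    · rintro ⟨t, a, b, ⟨ht, ha, hb⟩, e⟩
      exact ⟨a, ha, b, hb, t, ht, e⟩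
  rw [this]
  exact (isCompact_Icc.prod (hK.prod hM)).image (by fun_prop)

variable [FiniteDimensional ℝ E] [MeasurableSpace E] [BorelSpace E]

theorem fib1 {u : E} (hu : ‖u‖ = 1) {A : Set E} (hA : MeasurableSet A) :
    volume A = ∫⁻ x in slab u, volume {s : ℝ | x + s • u ∈ A} := by
  rw [← lintegral_indicator (slab_closed u).measurableSet]
  refine fib volume volume (T := fun s : ℝ => s • u) (by fun_prop) (slab_closed u).measurableSet
    (fun y => ?_) hA
  have : {t : ℝ | y - t • u ∈ slab u} = Icc (inner ℝ y u - 1) (inner ℝ y u) := by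
    ext t
    simp only [slab, mem_ofPred_eq, inner_sub_left, inner_smul_left,
      real_inner_self_eq_norm_sq, hu, RCLike.conj_to_real, mem_Icc]
    constructor <;> rintro ⟨h1, h2⟩ <;> constructor <;> linarith
  rw [this]; simp

theorem meas_len (u : E) {A : Set E} (hA : MeasurableSet A) :
    Measurable fun x => volume {s : ℝ | x + s • u ∈ A} :=
  measurable_measure_prodMk_left (s := {p : E × ℝ | p.1 + p.2 • u ∈ A})
    ((by fun_prop : Measurable fun p : E × ℝ => p.1 + p.2 • u) hA)

/-- the area of the shadow of `K` in direction `u` -/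
noncomputable def pr (u : E) (K : Set E) : ℝ≥0∞ := volume (cyl u K ∩ slab u)

theorem pr_mono (u : E) {K L : Set E} (h : K ⊆ L) : pr u K ≤ pr u L :=
  measure_mono (inter_subset_inter_left _ fun _ ⟨s, hs⟩ => ⟨s, h hs⟩)

theorem seg {u : E} (hu : ‖u‖ = 1) {K : Set E} (hK : IsCompact K) (hc : Convex ℝ K) {a : ℝ}
    (ha : 0 ≤ a) : volume (K + sg a u) = volume K + ENNReal.ofReal a * pr u K := by
  have m := (cyl_closed hu hK).measurableSet
  rw [fib1 hu (hK.add (sg_compact a u)).measurableSet, fib1 hu hK.measurableSet, pr,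
    ← Measure.restrict_apply m, ← lintegral_indicator_const m,
    ← lintegral_add_left (meas_len u hK.measurableSet)]
  refine lintegral_congr fun x => ?_
  by_cases hx : x ∈ cyl u K
  · obtain ⟨α, β, h1, h2⟩ := chord hu hK hc x hx
    have : {s : ℝ | x + s • u ∈ K + sg a u} = Icc α (β + a) := by
      ext s
      constructor
      · rintro ⟨y, hy, _, ⟨t, ht, rfl⟩, e⟩
        have e : y + t • u = x + s • u := e
        have : s - t ∈ {s : ℝ | x + s • u ∈ K} := by
          show x + (s - t) • u ∈ K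
          rw [sub_smul, ← add_sub_assoc, ← e, add_sub_cancel_right]; exact hy
        rw [h2] at this
        constructor <;> linarith [this.1, this.2, ht.1, ht.2]
      · intro hs
        have : min s β ∈ {s : ℝ | x + s • u ∈ K} := by
          rw [h2]; exact ⟨le_min hs.1 h1, min_le_right _ _⟩
        refine ⟨_, this, _, ⟨s - min s β, ⟨by linarith [min_le_left s β], ?_⟩, rfl⟩, ?_⟩
        · rcases le_total s β with h | h
          · rw [min_eq_left h]; linarith
          · rw [min_eq_right h]; linarith [hs.2]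
        · show x + min s β • u + (s - min s β) • u = x + s • u
          module
    rw [this, h2, indicator_of_mem hx, Real.volume_Icc, Real.volume_Icc,
      ← ENNReal.ofReal_add (by linarith) ha]
    congr 1; ring
  · have e1 : {s : ℝ | x + s • u ∈ K} = ∅ := eq_empty_of_forall_notMem fun s hs => hx ⟨s, hs⟩
    have e2 : {s : ℝ | x + s • u ∈ K + sg a u} = ∅ := by
      refine eq_empty_of_forall_notMem ?_
      rintro s ⟨y, hy, _, ⟨t, ht, rfl⟩, e⟩
      have e : y + t • u = x + s • u := e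
      refine hx ⟨s - t, ?_⟩
      rw [sub_smul, ← add_sub_assoc, ← e, add_sub_cancel_right]; exact hy
    rw [e1, e2, indicator_of_notMem hx]; simp

theorem pr_fin {u : E} (hu : ‖u‖ = 1) {K : Set E} (hK : IsCompact K) (hc : Convex ℝ K) :
    pr u K ≠ ∞ := by
  have := (hK.add (sg_compact 1 u)).measure_lt_top (μ := volume)
  rw [seg hu hK hc zero_le_one] at this
  intro h; simp [h] at this

/-- behaviour of the shadow under similarities -/
theorem pr_sim {u : E} (hu : ‖u‖ = 1) {K : Set E} (hK : IsCompact K) (hc : Convex ℝ K)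
    (T : E ≃ₗᵢ[ℝ] E) (c : E) {l : ℝ} (hl : 0 < l) :
    ENNReal.ofReal l * pr (T u) ((fun x => l • T x + c) '' K) =
      ENNReal.ofReal (l ^ Module.finrank ℝ E) * pr u K := by
  have vol : ∀ A : Set E, IsCompact A → volume ((fun x => l • T x + c) '' A) =
      ENNReal.ofReal (l ^ Module.finrank ℝ E) * volume A := by
    intro A hA
    have e : (fun x => l • T x + c) '' A = (fun x => x + c) '' (l • (T '' A)) := by
      rw [← image_smul, image_image, image_image]
    have mA := (hA.image T.continuous).measurableSet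
    rw [e, image_add_right, measure_preimage_add_right, Measure.addHaar_smul_of_nonneg _ hl.le,
      ← T.measurePreserving.measure_preimage mA.nullMeasurableSet,
      preimage_image_eq _ T.injective]
  have k1 : IsCompact ((fun x => l • T x + c) '' K) := hK.image (by fun_prop)
  have k2 : Convex ℝ ((fun x => l • T x + c) '' K) := by
    rintro _ ⟨x, hx, rfl⟩ _ ⟨y, hy, rfl⟩ a b ha hb hab
    refine ⟨_, hc hx hy ha hb hab, ?_⟩
    obtain rfl : b = 1 - a := by linarith
    simp only [map_add, map_smul]; module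
  have e : (fun x => l • T x + c) '' (K + sg 1 u) = (fun x => l • T x + c) '' K + sg l (T u) := by
    ext z
    constructor
    · rintro ⟨_, ⟨y, hy, _, ⟨t, ht, rfl⟩, rfl⟩, rfl⟩
      refine ⟨_, ⟨y, hy, rfl⟩, _, ⟨l * t, ⟨mul_nonneg hl.le ht.1, by nlinarith [ht.2]⟩, rfl⟩, ?_⟩
      simp only [map_add, map_smul]; module
    · rintro ⟨_, ⟨y, hy, rfl⟩, _, ⟨t, ht, rfl⟩, rfl⟩
      refine ⟨_, ⟨y, hy, _, ⟨t / l, ⟨div_nonneg ht.1 hl.le, (div_le_one hl).2 ht.2⟩, rfl⟩, rfl⟩, ?_⟩
      simp only [map_add, map_smul, smul_add, smul_smul, mul_div_cancel₀ t hl.ne']; module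
  have h1 := vol _ (hK.add (sg_compact 1 u))
  rw [e, seg (by simpa using hu) k1 k2 hl.le, seg hu hK hc zero_le_one, vol K hK, mul_add,
    ENNReal.ofReal_one, one_mul] at h1
  exact (ENNReal.add_right_inj (ENNReal.mul_ne_top ENNReal.ofReal_ne_top
    hK.measure_lt_top.ne)).1 h1

theorem pr_neg {u : E} (hu : ‖u‖ = 1) {K : Set E} (hK : IsCompact K) (hc : Convex ℝ K) :
    pr (-u) K = pr u K := by
  have e : K + sg 1 (-u) = (fun x => x + u) ⁻¹' (K + sg 1 u) := by
    ext z
    constructor
    · rintro ⟨y, hy, _, ⟨t, ht, rfl⟩, rfl⟩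
      refine ⟨y, hy, _, ⟨1 - t, ⟨by linarith [ht.2], by linarith [ht.1]⟩, rfl⟩, ?_⟩
      beta_reduce; module
    · rintro ⟨y, hy, _, ⟨t, ht, rfl⟩, e⟩
      refine ⟨y, hy, _, ⟨1 - t, ⟨by linarith [ht.2], by linarith [ht.1]⟩, rfl⟩, ?_⟩
      have e : y + t • u = z + u := e
      rw [← sub_eq_iff_eq_add] at e
      rw [← e]; beta_reduce; module
  have h1 := seg (u := -u) (by simpa using hu) hK hc zero_le_one
  rw [e, measure_preimage_add_right, seg hu hK hc zero_le_one, ENNReal.ofReal_one, one_mul,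
    one_mul] at h1
  exact ((ENNReal.add_right_inj hK.measure_lt_top.ne).1 h1).symm

theorem hull_ineq {u : E} (hu : ‖u‖ = 1) {K M C C' : Set E} (hK : IsCompact K) (hM : IsCompact M)
    (cK : Convex ℝ K) (cM : Convex ℝ M) (hC : IsCompact C) (hC' : IsCompact C') (cC : Convex ℝ C)
    (cC' : Convex ℝ C') {a : ℝ} (ha : 0 ≤ a) (h1 : K ⊆ C) (h2 : M ⊆ C) (h3 : K ⊆ C')
    (h4 : ∀ m ∈ M, m + a • u ∈ C') (hp : pr u M = pr u K) :
    volume K + volume M + ENNReal.ofReal a * pr u K ≤ volume C + volume C' := by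
  let D : Set (E × ℝ) := {p | p.2 ∈ Icc (0 : ℝ) 1 ∧ ∃ k ∈ K, ∃ m ∈ M, ∃ s : ℝ,
    p.1 + s • u = (1 - p.2) • k + p.2 • m}
  have cD : IsClosed D := by
    let π : E → E := fun y => y - inner ℝ y u • u
    have cπ : Continuous π := by fun_prop
    have : D = (fun p : E × ℝ => (π p.1, p.2)) ⁻¹' ((fun q : ℝ × E × E =>
        (π ((1 - q.1) • q.2.1 + q.1 • q.2.2), q.1)) '' (Icc 0 1 ×ˢ K ×ˢ M)) := by
      ext ⟨x, l⟩
      constructor
      · rintro ⟨hl, k, hk, m, hm, s, e⟩
        refine ⟨(l, k, m), ⟨hl, hk, hm⟩, Prod.ext ?_ rfl⟩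
        have e : x + s • u = (1 - l) • k + l • m := e
        simp only [π, ← e, inner_add_left, inner_smul_left, real_inner_self_eq_norm_sq, hu,
          RCLike.conj_to_real]
        module
      · rintro ⟨⟨l', k, m⟩, ⟨hl, hk, hm⟩, e⟩
        obtain ⟨e1, e2⟩ := Prod.ext_iff.1 e
        obtain rfl : l' = l := e2
        refine ⟨hl, k, hk, m, hm, inner ℝ ((1 - l') • k + l' • m) u - inner ℝ x u, ?_⟩
        have e1 : ((1 - l') • k + l' • m) - inner ℝ ((1 - l') • k + l' • m) u • u =
          x - inner ℝ x u • u := e1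
        show x + _ = (1 - l') • k + l' • m
        linear_combination (norm := module) -e1
    rw [this]
    exact ((isCompact_Icc.prod (hK.prod hM)).image (by fun_prop)).isClosed.preimage (by fun_prop)
  have mD : Measurable fun x => volume (Prod.mk x ⁻¹' D) :=
    measurable_measure_prodMk_left cD.measurableSet
  have low : pr u K ≤ ∫⁻ x in slab u, volume (Prod.mk x ⁻¹' D) := by
    rw [← Measure.prod_apply cD.measurableSet, Measure.prod_apply_symm cD.measurableSet]
    have : pr u K = ∫⁻ l : ℝ, (Ioo (0 : ℝ) 1).indicator (fun _ => pr u K) l := by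
      rw [lintegral_indicator_const measurableSet_Ioo]; simp
    rw [this]
    refine lintegral_mono fun l => ?_
    by_cases hl : l ∈ Ioo (0 : ℝ) 1
    · rw [indicator_of_mem hl]
      have m3 : MeasurableSet ((fun x => (x, l)) ⁻¹' D) :=
        (cD.preimage (by fun_prop)).measurableSet
      rw [Measure.restrict_apply m3]
      have := (PL.hasPL_volume (a := 1 - l) (b := l) (by linarith [hl.2]) hl.1 (by ring) E).bm
        (by linarith [hl.2]) hl.1 ((cyl_closed hu hK).inter (slab_closed u)).measurableSet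
        ((cyl_closed hu hM).inter (slab_closed u)).measurableSet
        (m3.inter (slab_closed u).measurableSet) ?_
      · change pr u K ^ _ * pr u M ^ _ ≤ _ at this
        rwa [hp, ← ENNReal.rpow_add_of_nonneg _ _ (by linarith [hl.2]) hl.1.le, sub_add_cancel,
          ENNReal.rpow_one] at this
      · rintro x ⟨⟨s, hs⟩, hx⟩ y ⟨⟨t, ht⟩, hy⟩
        refine ⟨⟨⟨hl.1.le, hl.2.le⟩, _, hs, _, ht, (1 - l) * s + l * t, by module⟩, ?_⟩
        simp only [slab, mem_ofPred_eq, inner_add_left, inner_smul_left, RCLike.conj_to_real,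
          mem_Icc] at hx hy ⊢
        constructor <;> nlinarith [hl.1, hl.2]
    · simp [hl]
  refine (add_le_add_right (mul_le_mul_right low _) _).trans ?_
  rw [fib1 hu hK.measurableSet, fib1 hu hM.measurableSet, fib1 hu hC.measurableSet,
    fib1 hu hC'.measurableSet, ← lintegral_add_left (meas_len u hK.measurableSet),
    ← lintegral_add_left (meas_len u hC.measurableSet), ← lintegral_const_mul _ mD,
    ← lintegral_add_right _ (mD.const_mul _)]
  refine lintegral_mono fun x => ?_
  have pt : ∀ l s, ∀ k ∈ K, ∀ m ∈ M, l ∈ Icc (0 : ℝ) 1 → x + s • u = (1 - l) • k + l • m →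
      x + s • u ∈ C ∧ x + (s + l * a) • u ∈ C' := by
    intro l s k hk m hm hl e
    refine ⟨e ▸ cC (h1 hk) (h2 hm) (by linarith [hl.2]) hl.1 (by ring), ?_⟩
    have := cC' (h3 hk) (h4 m hm) (by linarith [hl.2] : 0 ≤ 1 - l) hl.1 (by ring)
    convert this using 1
    rw [add_smul, ← add_assoc, e]; module
  by_cases hx : (Prod.mk x ⁻¹' D).Nonempty
  · have cp : IsCompact (Prod.mk x ⁻¹' D) :=
      isCompact_Icc.of_isClosed_subset (cD.preimage (by fun_prop)) fun l hl => hl.1
    obtain ⟨l0, ⟨b0, k0, hk0, m0, hm0, s0, e0⟩, min0⟩ := cp.exists_isLeast hx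
    obtain ⟨l1, ⟨b1, k1, hk1, m1, hm1, s1, e1⟩, max1⟩ := cp.exists_isGreatest hx
    have l01 : l0 ≤ l1 := min0 ⟨b1, k1, hk1, m1, hm1, s1, e1⟩
    have f0 : ∃ α β, α ≤ β ∧ volume {s : ℝ | x + s • u ∈ K} ≤ ENNReal.ofReal (β - α) ∧
        x + β • u ∈ C ∧ x + (α + l0 * a) • u ∈ C' := by
      by_cases h : ∃ s : ℝ, x + s • u ∈ K
      · obtain ⟨α, β, g1, g2⟩ := chord hu hK cK x h
        have g3 : α ∈ {s : ℝ | x + s • u ∈ K} := g2 ▸ left_mem_Icc.2 g1
        have g4 : β ∈ {s : ℝ | x + s • u ∈ K} := g2 ▸ right_mem_Icc.2 g1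
        have : l0 = 0 := le_antisymm (min0 ⟨by simp, _, g3, m0, hm0, α, by simp⟩) b0.1
        exact ⟨α, β, g1, by rw [g2, Real.volume_Icc], h1 g4, by simpa [this] using h3 g3⟩
      · have : {s : ℝ | x + s • u ∈ K} = ∅ := eq_empty_of_forall_notMem fun s hs => h ⟨s, hs⟩
        exact ⟨s0, s0, le_rfl, by simp [this], (pt l0 s0 k0 hk0 m0 hm0 b0 e0).1,
          (pt l0 s0 k0 hk0 m0 hm0 b0 e0).2⟩
    have f1 : ∃ α β, α ≤ β ∧ volume {s : ℝ | x + s • u ∈ M} ≤ ENNReal.ofReal (β - α) ∧
        x + α • u ∈ C ∧ x + (β + l1 * a) • u ∈ C' := by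
      by_cases h : ∃ s : ℝ, x + s • u ∈ M
      · obtain ⟨α, β, g1, g2⟩ := chord hu hM cM x h
        have g3 : α ∈ {s : ℝ | x + s • u ∈ M} := g2 ▸ left_mem_Icc.2 g1
        have g4 : β ∈ {s : ℝ | x + s • u ∈ M} := g2 ▸ right_mem_Icc.2 g1
        have : l1 = 1 := le_antisymm b1.2 (max1 ⟨by simp, k0, hk0, _, g3, α, by simp⟩)
        exact ⟨α, β, g1, by rw [g2, Real.volume_Icc], h2 g3,
          by simpa [this, add_smul, add_assoc] using h4 _ g4⟩
      · have : {s : ℝ | x + s • u ∈ M} = ∅ := eq_empty_of_forall_notMem fun s hs => h ⟨s, hs⟩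
        exact ⟨s1, s1, le_rfl, by simp [this], (pt l1 s1 k1 hk1 m1 hm1 b1 e1).1,
          (pt l1 s1 k1 hk1 m1 hm1 b1 e1).2⟩
    obtain ⟨α, β, g1, g2, g3, g4⟩ := f0
    obtain ⟨α', β', g1', g2', g3', g4'⟩ := f1
    have g5 : volume (Prod.mk x ⁻¹' D) ≤ ENNReal.ofReal (l1 - l0) := by
      rw [← Real.volume_Icc]
      exact measure_mono fun l hl => ⟨min0 hl, max1 hl⟩
    refine le_trans ?_ (add_le_add (len_ge cC g3' g3) (len_ge cC' g4 g4'))
    refine le_trans ?_ ENNReal.ofReal_add_le
    refine (add_le_add (add_le_add g2 g2') (mul_le_mul_right g5 _)).trans ?_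
    rw [← ENNReal.ofReal_mul ha, ← ENNReal.ofReal_add (by linarith) (by linarith),
      ← ENNReal.ofReal_add (by linarith) (mul_nonneg ha (by linarith))]
    exact ENNReal.ofReal_le_ofReal (by linarith)
  · rw [not_nonempty_iff_eq_empty.1 hx]
    simp only [measure_empty, mul_zero, add_zero]
    refine add_le_add (measure_mono fun s hs => h1 hs) ?_
    have : {s : ℝ | x + s • u ∈ M} = (fun s => s + a) ⁻¹' {s : ℝ | x + (s - a) • u ∈ M} := by
      ext s; simp
    rw [this, measure_preimage_add_right]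
    refine measure_mono fun s hs => ?_
    have := h4 _ hs
    show x + s • u ∈ C'
    convert this using 1
    module

end Pool.Agent.H26.Rh
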