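import Pool.Agent.H26.RhA

set_option autoImplicit false

namespace Pool.Agent.H26.Rh

open Set MeasureTheory Filter Topology Metric Pool.Agent.H26.Ss
open scoped ENNReal Pointwise

def HasR {X : Type} [MeasurableSpace X] (R : X → X → X → Prop) (μ : Measure X) : Prop :=
  ∀ f g h : X → ℝ≥0∞, Measurable f → Measurable g → Measurable h →
    (∀ x y z, R x y z → f x * g y ≤ h z ^ 2) → (∫⁻ x, f x ∂μ) * (∫⁻ x, g x ∂μ) ≤ (∫⁻ x, h x ∂μ) ^ 2

theorem sq_half (a : ℝ≥0∞) : (a ^ 2) ^ (1 / 2 : ℝ) = a := by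
  rw [← ENNReal.rpow_natCast, ← ENNReal.rpow_mul]; norm_num

theorem half_sq (a : ℝ≥0∞) : (a ^ (1 / 2 : ℝ)) ^ 2 = a := by
  rw [← ENNReal.rpow_natCast, ← ENNReal.rpow_mul]; norm_num

theorem gm_pos {f g h : ℝ → ℝ≥0∞} (hf : Measurable f) (hg : Measurable g) (hh : Measurable h)
    (H : ∀ x y z, 0 < x → 0 < y → 0 < z → z ^ 2 = x * y → f x * g y ≤ h z ^ 2) :
    (∫⁻ x in Ioi 0, f x) * (∫⁻ x in Ioi 0, g x) ≤ (∫⁻ x in Ioi 0, h x) ^ 2 := by
  have cv : ∀ f : ℝ → ℝ≥0∞, ∫⁻ x in Ioi 0, f x =
      ∫⁻ s, ENNReal.ofReal (Real.exp s) * f (Real.exp s) := by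
    intro f
    have := lintegral_image_eq_lintegral_abs_deriv_mul MeasurableSet.univ
      (fun x _ => (Real.hasDerivAt_exp x).hasDerivWithinAt) Real.exp_injective.injOn f
    simpa [Real.range_exp] using this
  have me : Measurable fun s : ℝ => ENNReal.ofReal (Real.exp s) := by fun_prop
  have := PL.pl_one (a := 1 / 2) (b := 1 / 2) (by norm_num) (by norm_num) (by norm_num)
    (me.mul (hf.comp Real.measurable_exp)) (me.mul (hg.comp Real.measurable_exp))
    (me.mul (hh.comp Real.measurable_exp)) ?_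
  · rw [cv f, cv g, cv h]
    have h2 := pow_le_pow_left' this 2
    rwa [mul_pow, half_sq, half_sq] at h2
  · intro s t
    have e : Real.exp (1 / 2 * s + 1 / 2 * t) ^ 2 = Real.exp s * Real.exp t := by
      rw [← Real.exp_nat_mul, ← Real.exp_add]; congr 1; push_cast; ring
    have h1 := H _ _ _ (Real.exp_pos s) (Real.exp_pos t) (Real.exp_pos _) e
    rw [← ENNReal.mul_rpow_of_nonneg _ _ (by norm_num : (0 : ℝ) ≤ 1 / 2)]
    refine le_of_le_of_eq (ENNReal.rpow_le_rpow ?_ (by norm_num)) (sq_half _)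
    simp only [Function.comp, Pi.mul_apply]
    rw [mul_mul_mul_comm, mul_pow, ← ENNReal.ofReal_mul (Real.exp_pos s).le, ← e,
      ENNReal.ofReal_pow (Real.exp_pos _).le]
    exact mul_le_mul_right h1 _

theorem hasR_one : HasR (fun x y z : ℝ => z ^ 2 = |x * y|) volume := by
  intro f g h hf hg hh H
  have cv : ∀ f : ℝ → ℝ≥0∞, Measurable f → ∫⁻ x, f x = ∫⁻ x in Ioi 0, (f x + f (-x)) := by
    intro f hf
    rw [lintegral_add_left hf, ← lintegral_add_compl f (measurableSet_Ioi (a := (0 : ℝ))),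
      compl_Ioi, ← setLIntegral_congr Iio_ae_eq_Iic, ← lintegral_indicator measurableSet_Iio,
      ← lintegral_indicator measurableSet_Ioi (fun x => f (-x)), ← lintegral_neg_eq_self
        ((Iio 0).indicator f)]
    congr 2
    funext x
    by_cases hx : 0 < x <;> simp [indicator, hx]
  rw [cv f hf, cv g hg, cv h hh]
  refine gm_pos (hf.add (hf.comp measurable_neg)) (hg.add (hg.comp measurable_neg))
    (hh.add (hh.comp measurable_neg)) fun x y z hx hy hz e => ?_
  have e' : z ^ 2 = |x * y| := by rw [e, abs_of_pos (mul_pos hx hy)]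
  have key : ∀ w, w ^ 2 = |x * y| → (f x + f (-x)) * (g y + g (-y)) ≤ (h w + h w) ^ 2 := by
    intro w hw
    have a1 := H x y w hw
    have a2 := H (-x) y w (by simpa [abs_mul] using hw)
    have a3 := H x (-y) w (by simpa [abs_mul] using hw)
    have a4 := H (-x) (-y) w (by simpa [abs_mul] using hw)
    calc _ = f x * g y + f (-x) * g y + f x * g (-y) + f (-x) * g (-y) := by ring
      _ ≤ h w ^ 2 + h w ^ 2 + h w ^ 2 + h w ^ 2 := by gcongr
      _ = _ := by ring
  rcases le_total (h z) (h (-z)) with c | c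
  · exact (key z e').trans (by gcongr)
  · exact (key (-z) (by rw [neg_sq, e'])).trans (by gcongr)

theorem hasR_pi (n : ℕ) :
    HasR (fun x y z : Fin n → ℝ => ∀ i, z i ^ 2 = |x i * y i|) volume := by
  induction n with
  | zero =>
    intro f g h hf hg hh H
    have : (volume : Measure (Fin 0 → ℝ)) = Measure.dirac default := by
      rw [volume_pi, Measure.pi_of_empty _ default]
    rw [this, lintegral_dirac, lintegral_dirac, lintegral_dirac]
    exact H _ _ _ fun i => i.elim0
  | succ n ih =>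
    intro f g h hf hg hh H
    let e := (MeasurableEquiv.piFinSuccAbove (fun _ : Fin (n + 1) => ℝ) 0).symm
    have he : MeasurePreserving e volume volume :=
      (volume_preserving_piFinSuccAbove (fun _ : Fin (n + 1) => ℝ) 0).symm
    have mf : Measurable fun a => f (e a) := hf.comp e.measurable
    have mg : Measurable fun a => g (e a) := hg.comp e.measurable
    have mh : Measurable fun a => h (e a) := hh.comp e.measurable
    rw [← he.lintegral_comp hf, ← he.lintegral_comp hg, ← he.lintegral_comp hh,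
      Measure.volume_eq_prod, lintegral_prod _ mf.aemeasurable, lintegral_prod _ mg.aemeasurable,
      lintegral_prod _ mh.aemeasurable]
    refine hasR_one _ _ _ mf.lintegral_prod_right' mg.lintegral_prod_right'
      mh.lintegral_prod_right' fun x y z hz => ?_
    refine ih _ _ _ (mf.comp measurable_prodMk_left) (mg.comp measurable_prodMk_left)
      (mh.comp measurable_prodMk_left) fun p q r hr => H _ _ _ fun i => ?_
    refine Fin.cases ?_ (fun j => ?_) i
    · simpa [e] using hz
    · simpa [e] using hr j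

variable {E : Type} [NormedAddCommGroup E] [InnerProductSpace ℝ E]

/-- polar body of the difference body -/
def pol (K : Set E) : Set E := {y | ∀ a ∈ K, ∀ b ∈ K, inner ℝ y (a - b) ≤ 1}

theorem pol_closed (K : Set E) : IsClosed (pol K) := by
  simp only [pol, ofPred_forall]
  exact isClosed_iInter fun a => isClosed_iInter fun _ => isClosed_iInter fun b =>
    isClosed_iInter fun _ => isClosed_le (by fun_prop) continuous_const

theorem St.diam {u : E} (hu : ‖u‖ = 1) {K : Set E} {D : ℝ} (h : ∀ a ∈ K, ∀ b ∈ K, ‖a - b‖ ≤ D) :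
    ∀ a ∈ St u K, ∀ b ∈ St u K, ‖a - b‖ ≤ D := by
  rintro _ ⟨y, hy, c, hc, rfl⟩ _ ⟨y', hy', c', hc', rfl⟩
  rw [av_sub]
  exact av_norm hu (h _ hy _ hy') (h _ hc _ hc')

theorem St.self {u : E} (hu : ‖u‖ = 1) {K : Set E} : ∀ x ∈ St u K, rf u x ∈ St u K := by
  rintro _ ⟨y, hy, c, hc, rfl⟩
  refine ⟨_, hc, -c, by simpa using hy, ?_⟩
  simp only [av, rf, inner_add_left, inner_sub_left, inner_smul_left, real_inner_self_eq_norm_sq,
    hu, RCLike.conj_to_real]
  module

theorem St.other {u v : E} (huv : inner ℝ u v = 0) {K : Set E} (h : ∀ x ∈ K, rf v x ∈ K) :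
    ∀ x ∈ St u K, rf v x ∈ St u K := by
  rintro _ ⟨y, hy, c, hc, rfl⟩
  have hvu : inner ℝ v u = 0 := by rw [real_inner_comm, huv]
  have e : rf v (y + c • u) = rf v y + c • u := by
    simp only [rf, inner_add_left, inner_smul_left, huv, RCLike.conj_to_real]; module
  refine ⟨_, h y hy, c, e ▸ h _ hc, ?_⟩
  simp only [av, rf, inner_add_left, inner_sub_left, inner_smul_left, huv, hvu,
    RCLike.conj_to_real]
  module

theorem flat {F : Type} [NormedAddCommGroup F] [NormedSpace ℝ F] {m : F → ℝ} {C : ℝ} {y : F}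
    (h : ∀ s ∈ Icc (0 : ℝ) 1, ∀ t ∈ Icc (0 : ℝ) 1, |m (s • y) - m (t • y)| ≤ C * (s - t) ^ 2) :
    m y = m 0 := by
  have key : ∀ N : ℕ, |m y - m 0| ≤ C * (1 / ((N : ℝ) + 1)) := by
    intro N
    have p : (0 : ℝ) < N + 1 := by positivity
    have : ∀ k : ℕ, k ≤ N + 1 → |m (((k : ℝ) / (N + 1)) • y) - m 0| ≤ k * (C * (1 / (N + 1)) ^ 2) := by
      intro k
      induction k with
      | zero => simp
      | succ k ih =>
        intro hk
        have hk' : (k : ℝ) + 1 ≤ N + 1 := by exact_mod_cast hk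
        have h1 := h (((k : ℝ) + 1) / (N + 1)) ⟨by positivity, (div_le_one p).2 hk'⟩
          ((k : ℝ) / (N + 1)) ⟨by positivity, (div_le_one p).2 (by linarith)⟩
        rw [← sub_div, add_sub_cancel_left] at h1
        have h2 := abs_sub_le (m ((((k : ℝ) + 1) / (N + 1)) • y)) (m (((k : ℝ) / (N + 1)) • y))
          (m 0)
        have h3 := ih (by omega)
        push_cast
        linarith
    have h1 := this (N + 1) le_rfl
    push_cast at h1
    rw [div_self p.ne', one_smul] at h1
    refine h1.trans_eq ?_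
    field_simp
  have : |m y - m 0| ≤ C * 0 :=
    ge_of_tendsto' (tendsto_one_div_add_atTop_nhds_zero_nat.const_mul C) key
  exact sub_eq_zero.1 (abs_nonpos_iff.1 (by simpa using this))

/-- equality in the isodiametric inequality, one step back -/
theorem back {u : E} (hu : ‖u‖ = 1) {K : Set E} (hK : IsCompact K) (hc : Convex ℝ K) {r : ℝ}
    (hr : 0 < r) (hd : ∀ a ∈ K, ∀ b ∈ K, ‖a - b‖ ≤ 2 * r) {z : E} (h : St u K = closedBall z r) :
    ∃ z', K = closedBall z' r := by
  have pyth : ∀ (y : E) (t : ℝ), inner ℝ y u = 0 → ‖y + t • u‖ ^ 2 = ‖y‖ ^ 2 + t ^ 2 := by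
    intro y t hy
    rw [norm_add_sq_real, inner_smul_right, hy, norm_smul, hu]; simp
  have hz : inner ℝ z u = 0 := by
    have a1 : z + r • u ∈ St u K := by
      rw [h, mem_closedBall, dist_eq_norm]; simp [norm_smul, hu, abs_of_pos hr]
    have a2 : z + (-r) • u ∈ St u K := by
      rw [h, mem_closedBall, dist_eq_norm]; simp [norm_smul, hu, abs_of_pos hr]
    have b1 := St.self hu _ a1
    have b2 := St.self hu _ a2
    rw [h, mem_closedBall, dist_eq_norm] at b1 b2
    have e : ∀ t : ℝ, rf u (z + t • u) - z = (-t - 2 * inner ℝ z u) • u := by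
      intro t
      simp only [rf, inner_add_left, inner_smul_left, real_inner_self_eq_norm_sq, hu,
        RCLike.conj_to_real]
      module
    rw [e, norm_smul, hu, mul_one, Real.norm_eq_abs, abs_le] at b1 b2
    linarith [b1.1, b2.2]
  let H : E → ℝ := fun y => √(r ^ 2 - ‖y‖ ^ 2)
  have ch : ∀ y : E, ∃ m : ℝ, inner ℝ y u = 0 → ‖y‖ ≤ r →
      {s : ℝ | z + y + s • u ∈ K} = Icc (m - H y) (m + H y) := by
    intro y
    by_cases hy : inner ℝ y u = 0 ∧ ‖y‖ ≤ r
    swap
    · exact ⟨0, fun h1 h2 => (hy ⟨h1, h2⟩).elim⟩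
    obtain ⟨h1, h2⟩ := hy
    have hq : 0 ≤ r ^ 2 - ‖y‖ ^ 2 := by nlinarith [norm_nonneg y]
    have hH : H y ^ 2 = r ^ 2 - ‖y‖ ^ 2 := Real.sq_sqrt hq
    have zy : inner ℝ (z + y) u = 0 := by rw [inner_add_left, hz, h1, add_zero]
    have top : z + y + H y • u ∈ St u K := by
      rw [h, mem_closedBall, dist_eq_norm, add_assoc, add_sub_cancel_left]
      exact (pow_le_pow_iff_left₀ (norm_nonneg _) hr.le two_ne_zero).1 (by rw [pyth y _ h1, hH]; linarith)
    obtain ⟨p, hp, c, hpc, e⟩ := top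
    have e1 := av_line hu p 0 c
    rw [zero_smul, add_zero, ← e] at e1
    have e2 : H y = -c / 2 := by
      have := congrArg (fun w => inner ℝ w u) e1
      simp only [inner_add_left, inner_smul_left, real_inner_self_eq_norm_sq, hu,
        RCLike.conj_to_real, hz, h1] at this
      linarith
    have e3 : z + y + inner ℝ p u • u = p := by
      rw [e2] at e1; linear_combination (norm := module) e1
    have e4 : z + y + (inner ℝ p u + c) • u = p + c • u := by
      linear_combination (norm := module) e3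
    obtain ⟨α, β, g1, g2⟩ := chord hu hK hc (z + y) ⟨_, e3 ▸ hp⟩
    have m1 : inner ℝ p u ∈ Icc α β := by rw [← g2]; show _ ∈ K; rw [e3]; exact hp
    have m2 : inner ℝ p u + c ∈ Icc α β := by rw [← g2]; show _ ∈ K; rw [e4]; exact hpc
    have g3 : α ∈ {s : ℝ | z + y + s • u ∈ K} := g2 ▸ left_mem_Icc.2 g1
    have g4 : β ∈ {s : ℝ | z + y + s • u ∈ K} := g2 ▸ right_mem_Icc.2 g1
    have e5 : z + y + β • u + (α - β) • u = z + y + α • u := by module
    have m3 : av u (z + y + β • u) (z + y + α • u) ∈ St u K :=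
      ⟨_, g4, α - β, e5 ▸ g3, by rw [e5]⟩
    rw [av_line hu, zy, h, mem_closedBall, dist_eq_norm, add_assoc, add_sub_cancel_left] at m3
    have m4 := pow_le_pow_left₀ (norm_nonneg _) m3 2
    rw [pyth y _ h1] at m4
    have m5 : (β - α) / 2 ≤ H y := Real.le_sqrt_of_sq_le (by linarith)
    refine ⟨(α + β) / 2, fun _ _ => ?_⟩
    rw [g2]
    congr 1 <;> linarith [m1.2, m2.1]
  choose m hm using ch
  have H0 : ∀ y, 0 ≤ H y := fun y => Real.sqrt_nonneg _
  have Hs : ∀ y, ‖y‖ ≤ r → H y ^ 2 = r ^ 2 - ‖y‖ ^ 2 := fun y h2 =>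
    Real.sq_sqrt (by nlinarith [norm_nonneg y])
  have up : ∀ y, inner ℝ y u = 0 → ‖y‖ ≤ r → z + y + (m y + H y) • u ∈ K := fun y h1 h2 => by
    have : m y + H y ∈ {s : ℝ | z + y + s • u ∈ K} := by
      rw [hm y h1 h2]; exact right_mem_Icc.2 (by linarith [H0 y])
    exact this
  have dn : ∀ y, inner ℝ y u = 0 → ‖y‖ ≤ r → z + y + (m y - H y) • u ∈ K := fun y h1 h2 => by
    have : m y - H y ∈ {s : ℝ | z + y + s • u ∈ K} := by
      rw [hm y h1 h2]; exact left_mem_Icc.2 (by linarith [H0 y])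
    exact this
  have two : ∀ y y', inner ℝ y u = 0 → ‖y‖ ≤ r → inner ℝ y' u = 0 → ‖y'‖ ≤ r →
      ‖y - y'‖ ^ 2 + (m y + H y - (m y' - H y')) ^ 2 ≤ 4 * r ^ 2 := by
    intro y y' h1 h2 h3 h4
    have := pow_le_pow_left₀ (norm_nonneg _) (hd _ (up y h1 h2) _ (dn y' h3 h4)) 2
    have e : z + y + (m y + H y) • u - (z + y' + (m y' - H y') • u) =
        y - y' + (m y + H y - (m y' - H y')) • u := by module
    rw [e, pyth _ _ (by rw [inner_sub_left, h1, h3, sub_zero])] at this
    linarith
  have inn : ∀ y, inner ℝ y u = 0 → ‖y‖ < r → m y = m 0 := by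
    intro y h1 h2
    have Hp : 0 < H y := Real.sqrt_pos.2 (by nlinarith [norm_nonneg y])
    have ok : ∀ s : ℝ, |s| ≤ 1 → inner ℝ (s • y) u = 0 ∧ ‖s • y‖ ≤ r ∧ H y ≤ H (s • y) ∧
        H (s • y) ^ 2 = r ^ 2 - s ^ 2 * ‖y‖ ^ 2 := by
      intro s hs
      have n1 : ‖s • y‖ ≤ ‖y‖ := by
        rw [norm_smul, Real.norm_eq_abs]; nlinarith [norm_nonneg y]
      refine ⟨by rw [inner_smul_left, h1]; simp, by linarith,
        Real.sqrt_le_sqrt (by nlinarith [norm_nonneg (s • y)]), ?_⟩
      rw [Hs _ (by linarith), norm_smul, mul_pow, Real.norm_eq_abs, sq_abs]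
    have tw : ∀ s t : ℝ, |s| ≤ 1 → |t| ≤ 1 → (s - t) ^ 2 * ‖y‖ ^ 2 +
        (m (s • y) + H (s • y) - (m (t • y) - H (t • y))) ^ 2 ≤ 4 * r ^ 2 := by
      intro s t hs ht
      have := two _ _ (ok s hs).1 (ok s hs).2.1 (ok t ht).1 (ok t ht).2.1
      rwa [← sub_smul, norm_smul, mul_pow, Real.norm_eq_abs, sq_abs] at this
    have Hn : ∀ t : ℝ, H ((-t) • y) = H (t • y) := fun t => by simp [H]
    have ev : ∀ t : ℝ, |t| ≤ 1 → m (t • y) ≤ m ((-t) • y) := by
      intro t ht
      have a1 := tw t (-t) ht (by simpa using ht)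
      rw [Hn] at a1
      obtain ⟨-, -, a2, a3⟩ := ok t ht
      by_contra hc
      have hc := not_le.1 hc
      nlinarith
    have ev' : ∀ t : ℝ, |t| ≤ 1 → m ((-t) • y) = m (t • y) := fun t ht =>
      le_antisymm (by simpa using ev (-t) (by simpa using ht)) (ev t ht)
    have one : ∀ s t : ℝ, |s| ≤ 1 → |t| ≤ 1 → m (s • y) - m (t • y) ≤
        (r ^ 2 + r ^ 4 / H y ^ 2) / (4 * H y) * (s - t) ^ 2 := by
      intro s t hs ht
      have a1 := tw s (-t) hs (by simpa using ht)
      rw [Hn, ev' t ht] at a1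
      obtain ⟨-, -, a2, a3⟩ := ok s hs
      obtain ⟨-, -, b2, b3⟩ := ok t ht
      set A := H (s • y)
      set B := H (t • y)
      set Δ := m (s • y) - m (t • y) with hΔ
      have y2 : ‖y‖ ^ 2 ≤ r ^ 2 := by nlinarith [norm_nonneg y]
      have c1 : 2 * (A + B) * Δ ≤ (s - t) ^ 2 * ‖y‖ ^ 2 + (A - B) ^ 2 := by
        have : m (s • y) + A - (m (t • y) - B) = Δ + A + B := by rw [hΔ]; ring
        rw [this] at a1
        nlinarith [sq_nonneg Δ]
      have c2 : (A - B) ^ 2 * H y ^ 2 ≤ (s - t) ^ 2 * r ^ 4 := by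
        have d1 : (A - B) * (A + B) = (t - s) * (t + s) * ‖y‖ ^ 2 := by nlinarith
        have d2 : (A - B) ^ 2 * (A + B) ^ 2 = (s - t) ^ 2 * ((t + s) ^ 2 * (‖y‖ ^ 2) ^ 2) := by
          rw [← mul_pow, d1]; ring
        have d3 : (t + s) ^ 2 ≤ 4 := by
          have := abs_le.1 hs; have := abs_le.1 ht; nlinarith
        have d4 : (‖y‖ ^ 2) ^ 2 ≤ r ^ 4 := by nlinarith [sq_nonneg ‖y‖]
        have d5 : (t + s) ^ 2 * (‖y‖ ^ 2) ^ 2 ≤ 4 * r ^ 4 :=
          mul_le_mul d3 d4 (by positivity) (by norm_num)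
        have d6 : 4 * H y ^ 2 ≤ (A + B) ^ 2 := by nlinarith
        nlinarith [mul_le_mul_of_nonneg_left d6 (sq_nonneg (A - B)),
          mul_le_mul_of_nonneg_left d5 (sq_nonneg (s - t))]
      have c3 : (A - B) ^ 2 ≤ (s - t) ^ 2 * (r ^ 4 / H y ^ 2) := by
        rw [← mul_div_assoc, le_div_iff₀ (by positivity)]; exact c2
      rw [div_mul_eq_mul_div, le_div_iff₀ (by positivity)]
      by_cases hΔ0 : Δ ≤ 0
      · exact (mul_nonpos_of_nonpos_of_nonneg hΔ0 (by positivity)).trans (by positivity)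
      · have hΔ0 := not_le.1 hΔ0
        nlinarith [mul_le_mul_of_nonneg_left y2 (sq_nonneg (s - t))]
    refine flat (C := (r ^ 2 + r ^ 4 / H y ^ 2) / (4 * H y)) fun s hs t ht => ?_
    have s1 : |s| ≤ 1 := abs_le.2 ⟨by linarith [hs.1], hs.2⟩
    have t1 : |t| ≤ 1 := abs_le.2 ⟨by linarith [ht.1], ht.2⟩
    have a1 := one s t s1 t1
    have a2 := one t s t1 s1
    rw [← neg_sub s t, neg_sq] at a2
    exact abs_le.2 ⟨by linarith, a1⟩
  have sub : closedBall (z + m 0 • u) r ⊆ K := by
    rw [← closure_ball _ hr.ne', hK.isClosed.closure_subset_iff]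
    intro x hx
    rw [mem_ball, dist_eq_norm] at hx
    set t := inner ℝ (x - (z + m 0 • u)) u with ht
    set y := x - (z + m 0 • u) - t • u with hy
    have h1 : inner ℝ y u = 0 := by
      rw [hy, inner_sub_left, inner_smul_left, real_inner_self_eq_norm_sq, hu, ← ht]; simp
    have h2 := pyth y t h1
    rw [hy, sub_add_cancel, ← hy] at h2
    have h3 : ‖y‖ ^ 2 + t ^ 2 < r ^ 2 := by nlinarith [norm_nonneg (x - (z + m 0 • u))]
    have h4 : ‖y‖ < r := by nlinarith [norm_nonneg y]
    have h5 : |t| ≤ H y := Real.abs_le_sqrt (by linarith)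
    have : m 0 + t ∈ {s : ℝ | z + y + s • u ∈ K} := by
      rw [hm y h1 h4.le, inn y h1 h4]
      constructor <;> linarith [abs_le.1 h5]
    have e : x = z + y + (m 0 + t) • u := by rw [hy]; module
    rw [e]; exact this
  refine ⟨z + m 0 • u, subset_antisymm (fun x hx => ?_) sub⟩
  by_contra hn
  rw [mem_closedBall, dist_eq_norm, not_le] at hn
  set c := z + m 0 • u
  have p : 0 < ‖x - c‖ := hr.trans hn
  have m1 : c - (r / ‖x - c‖) • (x - c) ∈ K := by
    apply sub
    rw [mem_closedBall, dist_eq_norm, sub_sub_cancel_left, norm_neg, norm_smul,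
      Real.norm_of_nonneg (by positivity), div_mul_cancel₀ _ p.ne']
  have := hd x hx _ m1
  have e : x - (c - (r / ‖x - c‖) • (x - c)) = (1 + r / ‖x - c‖) • (x - c) := by module
  rw [e, norm_smul, Real.norm_of_nonneg (by positivity), add_mul, div_mul_cancel₀ _ p.ne'] at this
  linarith

variable [FiniteDimensional ℝ E] [MeasurableSpace E] [BorelSpace E]

theorem mp {u : E} (hu : ‖u‖ = 1) (K : Set E) : volume (pol K) ≤ volume (pol (St u K)) := by
  let S : Submodule ℝ E := (ℝ ∙ u)ᗮ
  let Q : Set S := parallelepiped (stdOrthonormalBasis ℝ S)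
  have cQ : IsCompact Q := (stdOrthonormalBasis ℝ S).toBasis.parallelepiped.isCompact
  let P : E →L[ℝ] S := S.orthogonalProjectionOnto
  have hW : MeasurableSet (P ⁻¹' Q) := (cQ.isClosed.preimage P.continuous).measurableSet
  have h1 : ∀ y : E, volume {t : S | y - t ∈ P ⁻¹' Q} = 1 := by
    intro y
    have : {t : S | y - t ∈ P ⁻¹' Q} = (fun t => P y - t) ⁻¹' Q := by
      ext t; simp [P]
    rw [this, (Measure.measurePreserving_sub_left _ _).measure_preimage
      cQ.measurableSet.nullMeasurableSet, OrthonormalBasis.volume_parallelepiped]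
  rw [fib volume volume (T := fun t : S => (t : E)) (by fun_prop) hW h1
    (pol_closed K).measurableSet, fib volume volume (T := fun t : S => (t : E)) (by fun_prop) hW h1
    (pol_closed _).measurableSet]
  refine lintegral_mono fun x => indicator_le_indicator ?_
  have m1 : MeasurableSet {t : S | x + t ∈ pol K} :=
    ((pol_closed _).preimage (by fun_prop)).measurableSet
  have m2 : MeasurableSet {t : S | x + t ∈ pol (St u K)} :=
    ((pol_closed _).preimage (by fun_prop)).measurableSet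
  have su : ∀ t : S, inner ℝ (t : E) u = 0 := fun t =>
    Submodule.mem_orthogonal_singleton_iff_inner_left.1 t.2
  let a : S := ⟨x - inner ℝ x u • u, Submodule.mem_orthogonal_singleton_iff_inner_left.2 (by
    simp [inner_sub_left, inner_smul_left, hu])⟩
  have mp : MeasurePreserving (fun t : S => (-2 : ℝ) • a - t) volume volume :=
    Measure.measurePreserving_sub_left _ _
  have := (PL.hasPL_volume (a := 1 / 2) (b := 1 / 2) (by norm_num) (by norm_num) (by norm_num)
    S).bm (by norm_num) (by norm_num) m1 (mp.measurable m1) m2 ?_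
  · rw [mp.measure_preimage m1.nullMeasurableSet, ← ENNReal.rpow_add_of_nonneg _ _ (by norm_num)
      (by norm_num)] at this
    norm_num at this ⊢
    exact this
  · rintro s hs t ht _ ⟨y, hy, c, hc, rfl⟩ _ ⟨y', hy', c', hc', rfl⟩
    have q1 := hs y hy y' hy'
    have q2 := ht _ hc' _ hc
    have e1 := av_line hu y 0 c
    have e2 := av_line hu y' 0 c'
    rw [zero_smul, add_zero] at e1 e2
    have := su s
    have := su t
    rw [e1, e2]
    simp only [a, Submodule.coe_add, Submodule.coe_smul, Submodule.coe_sub, inner_add_left,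
      inner_sub_left, inner_smul_left, inner_add_right, inner_sub_right, inner_smul_right,
      real_inner_self_eq_norm_sq, hu, RCLike.conj_to_real, real_inner_comm u y,
      real_inner_comm u y', su] at q1 q2 ⊢
    nlinarith

theorem vol_St {u : E} (hu : ‖u‖ = 1) {K : Set E} (hK : IsCompact K) :
    volume K ≤ volume (St u K) := by
  rw [← vol_cf, ← vol_cf]; exact bll _ hu hK

theorem uncond {n : ℕ} (b : OrthonormalBasis (Fin n) ℝ E) {K : Set E} (hK : IsCompact K)
    (hc : Convex ℝ K) (s : Finset (Fin n)) : ∃ K' : Set E, IsCompact K' ∧ Convex ℝ K' ∧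
      volume K ≤ volume K' ∧ volume (pol K) ≤ volume (pol K') ∧
      (∀ i ∈ s, ∀ x ∈ K', rf (b i) x ∈ K') ∧ ∀ r, 0 < r → (∀ a ∈ K, ∀ b ∈ K, ‖a - b‖ ≤ 2 * r) →
        (∀ a ∈ K', ∀ b ∈ K', ‖a - b‖ ≤ 2 * r) ∧
          ((∃ z, K' = closedBall z r) → ∃ z, K = closedBall z r) := by
  induction s using Finset.induction_on with
  | empty => exact ⟨K, hK, hc, le_rfl, le_rfl, by simp, fun r _ h => ⟨h, id⟩⟩
  | insert j s hj ih =>
    obtain ⟨L, h1, h2, h3, h4, h5, h6⟩ := ih
    have hu := b.orthonormal.1 j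
    refine ⟨St (b j) L, St.compact hu h1, St.convex h2, h3.trans (vol_St hu h1),
      h4.trans (mp hu L), fun i hi => ?_, fun r hr hd => ⟨St.diam hu (h6 r hr hd).1, ?_⟩⟩
    · rcases Finset.mem_insert.1 hi with rfl | hi
      · exact St.self hu
      · exact St.other (b.orthonormal.2 (by rintro rfl; exact hj hi)) (h5 i hi)
    · rintro ⟨z, hz⟩
      exact (h6 r hr hd).2 (back hu h1 h2 hr (h6 r hr hd).1 hz)

omit [FiniteDimensional ℝ E] [MeasurableSpace E] [BorelSpace E] in
theorem flip {n : ℕ} (b : OrthonormalBasis (Fin n) ℝ E) {K : Set E}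
    (h : ∀ i, ∀ x ∈ K, rf (b i) x ∈ K) (s : Finset (Fin n)) {x : E} (hx : x ∈ K) :
    ∃ y ∈ K, ∀ i, b.repr y i = if i ∈ s then -b.repr x i else b.repr x i := by
  induction s using Finset.induction_on with
  | empty => exact ⟨x, hx, by simp⟩
  | insert j s hj ih =>
    obtain ⟨y, hy, e⟩ := ih
    refine ⟨_, h j y hy, fun i => ?_⟩
    have e1 := e i
    have e2 := e j
    rw [OrthonormalBasis.repr_apply_apply] at e1 e2 ⊢
    rw [rf, inner_sub_right, inner_smul_right, orthonormal_iff_ite.1 b.orthonormal,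
      real_inner_comm (b j) y, e1, e2]
    by_cases hij : i = j
    · subst hij; simp [hj]; ring
    · simp [hij]

/-- Blaschke-Santalo for the difference body and the equality case of the isodiametric
inequality -/
theorem santalo {K : Set E} (hK : IsCompact K) (hc : Convex ℝ K) :
    volume K * volume (pol K) ≤ volume (closedBall (0 : E) √(1 / 2)) ^ 2 ∧
    ∀ r, 0 < r → (∀ a ∈ K, ∀ b ∈ K, ‖a - b‖ ≤ 2 * r) → volume (closedBall (0 : E) r) ≤ volume K →
      ∃ z, K = closedBall z r := by
  let b := stdOrthonormalBasis ℝ E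
  obtain ⟨L, h1, h2, h3, h4, h5, h6⟩ := uncond b hK hc Finset.univ
  have h5 := fun i => h5 i (Finset.mem_univ i)
  have ng : ∀ x ∈ L, -x ∈ L := by
    intro x hx
    obtain ⟨y, hy, e⟩ := flip b h5 Finset.univ hx
    have : y = -x := b.repr.injective (by ext i; simp [e])
    exact this ▸ hy
  constructor
  · refine (mul_le_mul' h3 h4).trans ?_
    let φ : (Fin (Module.finrank ℝ E) → ℝ) → E := fun x => b.repr.symm (WithLp.toLp 2 x)
    have hφ : MeasurePreserving φ volume volume :=
      b.repr.symm.measurePreserving.comp (PiLp.volume_preserving_toLp _)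
    have m1 := hφ.measurable h1.measurableSet
    have m2 := hφ.measurable (pol_closed L).measurableSet
    have m3 := hφ.measurable (isClosed_closedBall (x := (0 : E)) (ε := √(1 / 2))).measurableSet
    rw [← hφ.measure_preimage h1.measurableSet.nullMeasurableSet,
      ← hφ.measure_preimage (pol_closed L).measurableSet.nullMeasurableSet,
      ← hφ.measure_preimage isClosed_closedBall.measurableSet.nullMeasurableSet,
      ← lintegral_indicator_one m1, ← lintegral_indicator_one m2, ← lintegral_indicator_one m3]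
    refine hasR_pi _ _ _ _ (measurable_one.indicator m1) (measurable_one.indicator m2)
      (measurable_one.indicator m3) fun x y z hz => ?_
    by_cases hx : x ∈ φ ⁻¹' L
    swap
    · simp [hx]
    by_cases hy : y ∈ φ ⁻¹' pol L
    swap
    · simp [hy]
    have : z ∈ φ ⁻¹' closedBall 0 √(1 / 2) := by
      obtain ⟨w, hw, e⟩ := flip b h5 (Finset.univ.filter fun i => x i * y i < 0) hx
      have q := hy w hw _ (ng w hw)
      rw [sub_neg_eq_add, inner_add_right, ← b.repr.inner_map_map, PiLp.inner_apply] at q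
      rw [mem_preimage, mem_closedBall_zero_iff, LinearIsometryEquiv.norm_map,
        EuclideanSpace.norm_eq]
      refine Real.sqrt_le_sqrt ?_
      have : ∑ i, ‖(WithLp.toLp 2 z) i‖ ^ 2 = ∑ i, inner ℝ (b.repr (φ y) i) (b.repr w i) := by
        refine Finset.sum_congr rfl fun i _ => ?_
        rw [e i]
        simp only [φ, LinearIsometryEquiv.apply_symm_apply, Real.norm_eq_abs, sq_abs, hz i,
          Finset.mem_filter, Finset.mem_univ, true_and, RCLike.inner_apply, RCLike.conj_to_real]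
        split_ifs with h
        · rw [abs_of_neg h]; ring
        · rw [abs_of_nonneg (not_lt.1 h)]
      rw [this]; linarith
    rw [indicator_of_mem hx, indicator_of_mem hy, indicator_of_mem this]; simp
  · intro r hr hd hv
    refine (h6 r hr hd).2 ⟨0, ?_⟩
    have sub : L ⊆ closedBall 0 r := fun x hx => by
      have := (h6 r hr hd).1 x hx _ (ng x hx)
      rw [sub_neg_eq_add, ← two_smul ℝ, norm_smul, Real.norm_two] at this
      exact mem_closedBall_zero_iff.2 (by linarith)
    refine sub.antisymm ?_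
    have z : volume (closedBall (0 : E) r \ L) = 0 := by
      rw [measure_sdiff sub h1.measurableSet.nullMeasurableSet h1.measure_lt_top.ne]
      exact tsub_eq_zero_of_le (hv.trans h3)
    have o : ball (0 : E) r \ L = ∅ :=
      (isOpen_ball.sdiff h1.isClosed).eq_empty_of_measure_zero
        (measure_mono_null (sdiff_subset_sdiff_left ball_subset_closedBall) z)
    rw [← closure_ball _ hr.ne']
    exact h1.isClosed.closure_subset_iff.2 (sdiff_eq_empty.1 o)

end Pool.Agent.H26.Rh
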