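import Pool.Agent.H26.RhB

set_option autoImplicit false

namespace Pool.Agent.H26.Rh

open Set MeasureTheory Filter Topology Metric Pool.Agent.H26.Ss
open scoped ENNReal Pointwise

variable {E : Type} [NormedAddCommGroup E] [InnerProductSpace ℝ E]

def star (g : sphere (0 : E) 1 → ℝ) : Set E :=
  {x | ∃ (u : sphere (0 : E) 1) (r : ℝ), 0 < r ∧ r < g u ∧ x = r • (u : E)}

theorem sep {Z : Set E} [CompleteSpace E] (hZ : IsCompact Z) (cZ : Convex ℝ Z) (nZ : Z.Nonempty)
    {t : ℝ} (h : ∀ w : E, ‖w‖ = 1 → ∃ z ∈ Z, t ≤ inner ℝ w z) : closedBall 0 t ⊆ Z := by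
  intro x hx
  by_contra hn
  obtain ⟨p, hp, hp2⟩ := exists_norm_eq_iInf_of_complete_convex nZ hZ.isComplete cZ x
  have hp3 := (norm_eq_iInf_iff_real_inner_le_zero cZ hp).1 hp2
  have hne : x - p ≠ 0 := fun e => hn (by rw [sub_eq_zero.1 e]; exact hp)
  have hpos : 0 < ‖x - p‖ := norm_pos_iff.2 hne
  obtain ⟨z, hz, h1⟩ := h _ (norm_smul_inv_norm (𝕜 := ℝ) hne)
  have h2 := hp3 z hz
  have h3 := real_inner_le_norm (x - p) x
  have h4 := mem_closedBall_zero_iff.1 hx
  rw [inner_smul_left] at h1
  simp only [RCLike.ofReal_real_eq_id, id, RCLike.conj_to_real] at h1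
  rw [inv_mul_eq_div, le_div_iff₀ hpos] at h1
  have h5 : inner ℝ (x - p) (x - p) = ‖x - p‖ ^ 2 := real_inner_self_eq_norm_sq _
  rw [inner_sub_right] at h2 h5
  nlinarith

theorem pow_up (d : ℕ) {t : ℝ} (ht : 0 ≤ t) : (1 + t) ^ d ≤ 1 + d * t * (1 + t) ^ d := by
  induction d with
  | zero => simp
  | succ d ih =>
    have h1 : 1 ≤ (1 + t) ^ d := one_le_pow₀ (by linarith)
    have h2 : 0 ≤ (d : ℝ) * t * t * (1 + t) ^ d := by positivity
    have h3 : 0 ≤ t * t * (1 + t) ^ d := by positivity
    rw [pow_succ]; push_cast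
    nlinarith

variable [FiniteDimensional ℝ E] [MeasurableSpace E] [BorelSpace E]

theorem cint {g : sphere (0 : E) 1 → ℝ} (hg : Continuous g) :
    Integrable g (volume : Measure E).toSphere :=
  hg.integrable_of_hasCompactSupport (HasCompactSupport.of_compactSpace g)

theorem vol_star [Nontrivial E] {g : sphere (0 : E) 1 → ℝ} (hg : Continuous g)
    (h0 : ∀ u, 0 < g u) : volume (star g) = ENNReal.ofReal
      (∫ u, g u ^ Module.finrank ℝ E / Module.finrank ℝ E ∂(volume : Measure E).toSphere) := by
  let S : Set (sphere (0 : E) 1 × Ioi (0 : ℝ)) := {p | (p.2 : ℝ) < g p.1}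
  have mS : MeasurableSet S := (isOpen_lt (by fun_prop) (by fun_prop)).measurableSet
  have e : star g = (↑) '' (homeomorphUnitSphereProd E ⁻¹' S) := by
    rw [← Homeomorph.image_symm, image_image]
    ext x
    constructor
    · rintro ⟨u, r, h1, h2, rfl⟩
      exact ⟨(u, ⟨r, h1⟩), h2, by simp⟩
    · rintro ⟨⟨u, r⟩, h, rfl⟩
      exact ⟨u, r, r.2, h, by simp⟩
  have hpos : 0 < Module.finrank ℝ E := Module.finrank_pos
  rw [e, ← comap_subtype_coe_apply (measurableSet_singleton _).compl,
    (Measure.measurePreserving_homeomorphUnitSphereProd volume).measure_preimage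
      mS.nullMeasurableSet, Measure.prod_apply mS,
    ofReal_integral_eq_lintegral_ofReal (cint (by fun_prop))
      (ae_of_all _ fun u => by have := h0 u; positivity)]
  refine lintegral_congr fun u => ?_
  have : Prod.mk u ⁻¹' S = Iio ⟨g u, h0 u⟩ := rfl
  rw [this, Measure.volumeIoiPow_apply_Iio, Nat.sub_add_cancel hpos, Nat.cast_pred hpos,
    sub_add_cancel]

theorem gamma [Nontrivial E] {e : E} (he : ‖e‖ = 1) : (pr e (closedBall 0 1)).toReal ≤
    ∫ u : sphere (0 : E) 1, max (inner ℝ e (u : E)) 0 ∂(volume : Measure E).toSphere := by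
  set σ := (volume : Measure E).toSphere with hσ
  set d := Module.finrank ℝ E with hd
  set γ := ∫ u : sphere (0 : E) 1, max (inner ℝ e (u : E)) 0 ∂σ with hγ
  have d0 : (0 : ℝ) < d := Nat.cast_pos.2 Module.finrank_pos
  have key : ∀ ε : ℝ, 0 < ε → ε ≤ 1 → (pr e (closedBall 0 1)).toReal ≤
      (1 + 2 * ε) ^ d * (γ + ε * σ.real univ) := by
    intro ε h0 h1
    let g : sphere (0 : E) 1 → ℝ := fun u => 1 + ε * (max (inner ℝ e (u : E)) 0 + ε)
    have cg : Continuous g := by fun_prop
    have g0 : ∀ u, 0 < g u := fun u => by positivity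
    have sub : closedBall (0 : E) 1 + sg ε e ⊆ star g ∪ {0} := by
      rintro _ ⟨y, hy, _, ⟨t, ht, rfl⟩, rfl⟩
      by_cases hx : y + t • e = 0
      · exact Or.inr hx
      left
      have p := norm_pos_iff.2 hx
      refine ⟨⟨‖y + t • e‖⁻¹ • (y + t • e), by
        simpa using norm_smul_inv_norm (𝕜 := ℝ) hx⟩, ‖y + t • e‖, p, ?_, by
          simp [smul_smul, p.ne']⟩
      simp only [g]
      set u := ‖y + t • e‖⁻¹ • (y + t • e) with hu
      have n1 : ‖u‖ = 1 := norm_smul_inv_norm (𝕜 := ℝ) hx
      have a1 : inner ℝ u (y + t • e) = ‖y + t • e‖ := by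
        rw [hu, inner_smul_left, real_inner_self_eq_norm_sq]; simp; field_simp
      have a2 := real_inner_le_norm u y
      have a3 := mem_closedBall_zero_iff.1 hy
      rw [inner_add_right, inner_smul_right, real_inner_comm e u] at a1
      have a4 := le_max_left (inner ℝ e u) 0
      have a5 := le_max_right (inner ℝ e u) 0
      rw [n1] at a2
      nlinarith [ht.1, ht.2, mul_pos h0 h0]
    have v1 := (measure_mono sub).trans (measure_union_le (μ := (volume : Measure E)) _ _)
    rw [measure_singleton, add_zero, vol_star cg g0, seg he (isCompact_closedBall _ _)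
      (convex_closedBall _ _) h0.le] at v1
    have f1 := pr_fin he (isCompact_closedBall (0 : E) 1) (convex_closedBall _ _)
    have v2 := ENNReal.toReal_mono ENNReal.ofReal_ne_top v1
    rw [ENNReal.toReal_add measure_closedBall_lt_top.ne (by finiteness), ENNReal.toReal_mul,
      ENNReal.toReal_ofReal h0.le, ENNReal.toReal_ofReal
        (integral_nonneg fun u => by have := g0 u; positivity)] at v2
    have v3 : ∫ u, g u ^ d / d ∂σ ≤ ∫ u : sphere (0 : E) 1,
        (1 / (d : ℝ) + ε * (1 + 2 * ε) ^ d * (max (inner ℝ e (u : E)) 0 + ε)) ∂σ := by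
      refine integral_mono (cint (by fun_prop)) (cint (by fun_prop)) fun u => ?_
      have b1 : max (inner ℝ e (u : E)) 0 ≤ 1 :=
        max_le (by simpa [he] using real_inner_le_norm e (u : E)) zero_le_one
      have b0 := le_max_right (inner ℝ e (u : E)) 0
      have b2 := pow_up d (t := ε * (max (inner ℝ e (u : E)) 0 + ε)) (by positivity)
      have b3 : g u ^ d ≤ (1 + 2 * ε) ^ d := pow_le_pow_left₀ (g0 u).le (by
        simp only [g]; nlinarith) d
      beta_reduce
      rw [div_le_iff₀ d0, add_mul, one_div_mul_cancel d0.ne']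
      refine b2.trans ?_
      have : 0 ≤ d * (ε * (max (inner ℝ e (u : E)) 0 + ε)) := by positivity
      nlinarith [mul_le_mul_of_nonneg_left b3 this]
    rw [integral_add (cint (by fun_prop)) (cint (by fun_prop)), integral_const_mul,
      integral_add (cint (by fun_prop)) (cint (by fun_prop)), integral_const, integral_const,
      ← hγ] at v3
    have v4 : σ.real univ = d * (volume (closedBall (0 : E) 1)).toReal := by
      rw [hσ, Measure.toSphere_real_apply_univ, Measure.addHaar_unitClosedBall_eq_addHaar_unitBall]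
      rfl
    simp only [smul_eq_mul] at v3
    have v5 : σ.real univ * (1 / d) = (volume (closedBall (0 : E) 1)).toReal := by
      rw [v4]; field_simp
    refine le_of_mul_le_mul_left ?_ h0
    nlinarith
  have lim : Tendsto (fun ε : ℝ => (1 + 2 * ε) ^ d * (γ + ε * σ.real univ)) (𝓝[>] 0)
      (𝓝 ((1 + 2 * 0) ^ d * (γ + 0 * σ.real univ))) :=
    (Continuous.tendsto (by fun_prop) 0).mono_left nhdsWithin_le_nhds
  have := ge_of_tendsto lim (by
    filter_upwards [Ioc_mem_nhdsGT zero_lt_one] with ε hε using key ε hε.1 hε.2)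
  simpa using this

theorem zono {ι : Type} (v : ι → E) (hv : ∀ i, ‖v i‖ = 1) (a : ι → ℝ) (ha : ∀ i, 0 ≤ a i)
    {K L : Set E} (hK : IsCompact K) (hc : Convex ℝ K) (F : Finset ι) :
    IsCompact (∑ i ∈ F, sg (a i) (v i)) ∧ (K + ∑ i ∈ F, sg (a i) (v i) ⊆ L →
      volume (K + ∑ i ∈ F, sg (a i) (v i)) ≤
        volume K + ∑ i ∈ F, ENNReal.ofReal (a i) * pr (v i) L) := by
  classical
  induction F using Finset.induction_on with
  | empty => simp [isCompact_singleton, ← Set.singleton_zero]
  | insert j F hj ih =>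
    rw [Finset.sum_insert hj, Finset.sum_insert hj]
    refine ⟨(sg_compact _ _).add ih.1, fun h => ?_⟩
    have sub : K + ∑ i ∈ F, sg (a i) (v i) ⊆ L := by
      refine subset_trans (add_subset_add_left fun z hz => ?_) h
      exact ⟨0, ⟨0, left_mem_Icc.2 (ha j), zero_smul _ _⟩, z, hz, zero_add z⟩
    rw [add_comm (sg _ _), ← add_assoc, seg (hv j) (hK.add ih.1)
      (hc.add (convex_sum _ fun i _ => sg_convex _ _)) (ha j), add_comm (_ * pr _ L), ← add_assoc]
    exact add_le_add (ih.2 sub) (mul_le_mul_right (pr_mono _ sub) _)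

theorem steiner {K : Set E} (hK : IsCompact K) {r t : ℝ} (hr : 0 < r) (ht : 0 < t)
    (hV : volume K = volume (closedBall (0 : E) r)) :
    volume (closedBall (0 : E) (r + t)) ≤ volume (K + closedBall 0 t) := by
  have p : 0 < r + t := by linarith
  have e : volume (((r + t) / r) • K) = volume (closedBall (0 : E) (r + t)) := by
    rw [Measure.addHaar_smul_of_nonneg _ (by positivity), hV,
      ← Measure.addHaar_closedBall_mul_of_pos _ 0 (by positivity), div_mul_cancel₀ _ hr.ne']
  have := (PL.hasPL_volume (a := r / (r + t)) (b := t / (r + t)) (by positivity) (by positivity)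
    (by field_simp) E).bm (by positivity) (by positivity) (hK.smul ((r + t) / r)).measurableSet
    (isClosed_closedBall (x := (0 : E)) (ε := r + t)).measurableSet
    (hK.add (isCompact_closedBall 0 t)).measurableSet ?_
  · rwa [e, ← ENNReal.rpow_add_of_nonneg _ _ (by positivity) (by positivity), ← add_div,
      div_self p.ne', ENNReal.rpow_one] at this
  · rintro _ ⟨x, hx, rfl⟩ y hy
    refine ⟨x, hx, (t / (r + t)) • y, ?_, ?_⟩
    · rw [mem_closedBall_zero_iff] at hy ⊢
      rw [norm_smul, Real.norm_of_nonneg (by positivity), div_mul_eq_mul_div, div_le_iff₀ p]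
      nlinarith
    · simp only [smul_smul]
      rw [show r / (r + t) * ((r + t) / r) = 1 by field_simp, one_smul]

theorem cauchy [Nontrivial E] {K : Set E} (hK : IsCompact K) (hc : Convex ℝ K)
    (hi : (interior K).Nonempty) {r k : ℝ} (hr : 0 < r)
    (hV : volume K = volume (closedBall (0 : E) r))
    (hk : ∀ e : E, ‖e‖ = 1 → k ≤ (pr e (closedBall 0 1)).toReal) {g : sphere (0 : E) 1 → ℝ}
    (hg : Continuous g) (hp : ∀ u : sphere (0 : E) 1, (pr (u : E) K).toReal ≤ g u) :
    (volume : Measure E).toSphere.real univ * r ^ (Module.finrank ℝ E - 1) * k ≤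
      ∫ u, g u ∂(volume : Measure E).toSphere := by
  classical
  set σ := (volume : Measure E).toSphere with hσ
  set d := Module.finrank ℝ E with hd
  set A := σ.real univ with hA
  have A0 : 0 ≤ A := measureReal_nonneg
  have g0 : ∀ u, 0 ≤ g u := fun u => ENNReal.toReal_nonneg.trans (hp u)
  have I0 : 0 ≤ ∫ u, g u ∂σ := integral_nonneg g0
  obtain ⟨x0, hx0⟩ := hi
  obtain ⟨ρ, hρ, hb⟩ := Metric.mem_nhds_iff.1 (mem_interior_iff_mem_nhds.1 hx0)
  have nS : Nonempty (sphere (0 : E) 1) := (NormedSpace.sphere_nonempty.2 zero_le_one).to_subtype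
  have key : ∀ θ : ℝ, 0 < θ →
      A * r ^ (d - 1) * (k - θ * A) ≤ (1 + θ) ^ d * (∫ u, g u ∂σ + θ * A) := by
    intro θ hθ
    by_cases hs : k - θ * A ≤ 0
    · exact (mul_nonpos_of_nonneg_of_nonpos (by positivity) hs).trans (by positivity)
    have hs := not_le.1 hs
    obtain ⟨δ, hδ, uc⟩ := Metric.uniformContinuous_iff.1
      (CompactSpace.uniformContinuous_of_continuous hg) θ hθ
    obtain ⟨q, hq⟩ : ∃ q : SimpleFunc (sphere (0 : E) 1) (sphere (0 : E) 1),
        ∀ u, dist (q u) u < min δ θ := by
      let e := TopologicalSpace.denseSeq (sphere (0 : E) 1)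
      obtain ⟨t, ht⟩ := isCompact_univ.elim_finite_subcover (fun n => ball (e n) (min δ θ))
        (fun n => isOpen_ball) (fun u _ => by
          obtain ⟨n, hn⟩ := (TopologicalSpace.denseRange_denseSeq _).exists_dist_lt u
            (lt_min hδ hθ)
          exact mem_iUnion.2 ⟨n, hn⟩)
      refine ⟨SimpleFunc.nearestPt e (t.sup id), fun u => ?_⟩
      obtain ⟨n, hn, hu⟩ := mem_iUnion₂.1 (ht (mem_univ u))
      have := SimpleFunc.edist_nearestPt_le e u (Finset.le_sup (f := id) hn)
      rw [edist_dist, edist_dist, ENNReal.ofReal_le_ofReal_iff dist_nonneg] at this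
      exact this.trans_lt (by rwa [dist_comm])
    have sm : ∀ φ : sphere (0 : E) 1 → ℝ, Integrable (fun u => φ (q u)) σ ∧
        ∫ u, φ (q u) ∂σ = ∑ f ∈ q.range, σ.real (q ⁻¹' {f}) * φ f := by
      intro φ
      have e : (fun u => φ (q u)) = fun u => ∑ f ∈ q.range,
          (q ⁻¹' {f}).indicator (fun _ => φ f) u := by
        funext u
        rw [Finset.sum_eq_single (q u)]
        · simp
        · intro f _ hf; simp [hf.symm]
        · intro h; exact (h (q.mem_range_self u)).elim
      have i1 : ∀ f ∈ q.range, Integrable ((q ⁻¹' {f}).indicator (fun _ => φ f)) σ :=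
        fun f _ => (integrable_const _).indicator (q.measurableSet_fiber f)
      rw [e]
      refine ⟨integrable_finset_sum _ i1, ?_⟩
      rw [integral_finset_sum _ i1]
      exact Finset.sum_congr rfl fun f _ => by
        rw [integral_indicator_const _ (q.measurableSet_fiber f), smul_eq_mul]
    set ε := θ * ρ / (A + 1) with hε
    have ε0 : 0 < ε := by positivity
    let a : sphere (0 : E) 1 → ℝ := fun f => ε * σ.real (q ⁻¹' {f})
    have a0 : ∀ f, 0 ≤ a f := fun f => mul_nonneg ε0.le measureReal_nonneg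
    let L := (fun x => (1 + θ) • (LinearIsometryEquiv.refl ℝ E) x + (-θ) • x0) '' K
    obtain ⟨z1, z2⟩ := zono (fun f : sphere (0 : E) 1 => (f : E)) (fun f => by simp) a a0
      (L := L) hK hc q.range
    set Z := ∑ f ∈ q.range, sg (a f) (f : E) with hZ
    have sa : ∑ f ∈ q.range, a f = ε * A := by
      have := (sm fun _ => 1).2
      simp only [integral_const, smul_eq_mul, mul_one] at this
      rw [← Finset.mul_sum, ← this]
    have sub : K + Z ⊆ L := by
      rintro _ ⟨x, hx, z, hz, rfl⟩
      obtain ⟨y, hy, rfl⟩ := (Set.mem_finsetSum _ _ _).1 hz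
      have n1 : ‖∑ f ∈ q.range, y f‖ ≤ ε * A := by
        rw [← sa]
        refine (norm_sum_le _ _).trans (Finset.sum_le_sum fun f hf => ?_)
        obtain ⟨t, ht, e⟩ := hy hf
        rw [← e, norm_smul, Real.norm_of_nonneg ht.1]
        simpa using ht.2
      have m1 : x0 + θ⁻¹ • ∑ f ∈ q.range, y f ∈ K := by
        apply hb
        rw [mem_ball, dist_eq_norm, add_sub_cancel_left, norm_smul,
          Real.norm_of_nonneg (by positivity), inv_mul_lt_iff₀ hθ]
        refine n1.trans_lt ?_
        rw [hε, div_mul_eq_mul_div, div_lt_iff₀ (by positivity)]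
        nlinarith [mul_pos hθ hρ]
      refine ⟨_, hc hx m1 (a := 1 / (1 + θ)) (b := θ / (1 + θ)) (by positivity) (by positivity)
        (by field_simp), ?_⟩
      simp only [LinearIsometryEquiv.coe_refl, id, smul_add, smul_smul]
      rw [show (1 + θ) * (1 / (1 + θ)) = 1 by field_simp,
        show (1 + θ) * (θ / (1 + θ)) = θ by field_simp,
        show (1 + θ) * (θ / (1 + θ) * θ⁻¹) = 1 by field_simp]
      module
    have bz : closedBall 0 (ε * (k - θ * A)) ⊆ Z := by
      have mem : ∀ w : E, ∑ f ∈ q.range, (if 0 ≤ inner ℝ w (f : E) then a f else 0) • (f : E) ∈ Z :=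
        fun w => Set.finsetSum_mem_finsetSum _ _ _ fun f _ => ⟨_, by
          split_ifs
          · exact right_mem_Icc.2 (a0 f)
          · exact left_mem_Icc.2 (a0 f), rfl⟩
      refine sep z1 (convex_sum _ fun i _ => sg_convex _ _) ⟨_, mem 0⟩ fun w hw => ⟨_, mem w, ?_⟩
      have e : inner ℝ w (∑ f ∈ q.range, (if 0 ≤ inner ℝ w (f : E) then a f else 0) • (f : E)) =
          ε * ∫ u, max (inner ℝ w (q u : E)) 0 ∂σ := by
        rw [(sm fun f => max (inner ℝ w (f : E)) 0).2, inner_sum, Finset.mul_sum]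
        refine Finset.sum_congr rfl fun f _ => ?_
        rw [inner_smul_right]
        split_ifs with h
        · rw [max_eq_left h]; simp only [a]; ring
        · rw [max_eq_right (not_le.1 h).le]; simp
      rw [e]
      refine mul_le_mul_of_nonneg_left ?_ ε0.le
      have b1 := (hk w hw).trans (gamma hw)
      have b2 : ∫ u : sphere (0 : E) 1, (max (inner ℝ w (u : E)) 0 - θ) ∂σ ≤
          ∫ u, max (inner ℝ w (q u : E)) 0 ∂σ := by
        refine integral_mono (cint (by fun_prop)) (sm fun f => max (inner ℝ w (f : E)) 0).1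
          fun u => ?_
        have c1 : ‖(u : E) - q u‖ < θ := by
          rw [← dist_eq_norm, dist_comm]; exact (hq u).trans_le (min_le_right _ _)
        have c2 := real_inner_le_norm w ((u : E) - q u)
        rw [hw, inner_sub_right] at c2
        have := le_max_left (inner ℝ w (q u : E)) 0
        have := le_max_right (inner ℝ w (q u : E)) 0
        beta_reduce
        rw [sub_le_iff_le_add]
        exact max_le (by linarith) (by linarith)
      rw [integral_sub (cint (by fun_prop)) (integrable_const _), integral_const,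
        smul_eq_mul] at b2
      linarith
    have pl : ∀ f : sphere (0 : E) 1, pr (f : E) L ≤ ENNReal.ofReal ((1 + θ) ^ d * g f) := by
      intro f
      have nf : ‖(f : E)‖ = 1 := by simp
      have := pr_sim nf hK hc (LinearIsometryEquiv.refl ℝ E) ((-θ) • x0) (l := 1 + θ)
        (by linarith)
      rw [ENNReal.ofReal_mul (by positivity)]
      refine le_trans ?_ (this.le.trans (mul_le_mul_right ?_ _))
      · exact le_mul_of_one_le_left' (ENNReal.one_le_ofReal.2 (by linarith))
      · rw [← ENNReal.ofReal_toReal (pr_fin nf hK hc)]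
        exact ENNReal.ofReal_le_ofReal (hp f)
    have w1 := (steiner hK hr (mul_pos ε0 hs) hV).trans
      ((measure_mono (add_subset_add_left bz)).trans ((z2 sub).trans (add_le_add_right
        (Finset.sum_le_sum fun f _ => mul_le_mul_right (pl f) _) _)))
    simp only [← ENNReal.ofReal_mul (a0 _)] at w1
    rw [← ENNReal.ofReal_sum_of_nonneg (fun f _ => mul_nonneg (a0 f)
      (mul_nonneg (by positivity) (g0 f))), hV] at w1
    have w2 := ENNReal.toReal_mono (ENNReal.add_ne_top.2 ⟨measure_closedBall_lt_top.ne,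
      ENNReal.ofReal_ne_top⟩) w1
    rw [ENNReal.toReal_add measure_closedBall_lt_top.ne ENNReal.ofReal_ne_top,
      ENNReal.toReal_ofReal (Finset.sum_nonneg fun f _ => mul_nonneg (a0 f)
      (mul_nonneg (by positivity) (g0 f)))] at w2
    have w3 := Measure.addHaar_real_closedBall (volume : Measure E) 0 hr.le
    have w4 := Measure.addHaar_real_closedBall (volume : Measure E) 0
      (add_pos hr (mul_pos ε0 hs)).le
    have w5 : A = d * volume.real (ball (0 : E) 1) := Measure.toSphere_real_apply_univ _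
    have w6 := pow_add_mul_le_add_pow hr.le (b := ε * (k - θ * A)) (by positivity) d
    have w7 : ∑ f ∈ q.range, a f * ((1 + θ) ^ d * g f) = ε * (1 + θ) ^ d * ∫ u, g (q u) ∂σ := by
      rw [(sm g).2, Finset.mul_sum]
      exact Finset.sum_congr rfl fun f _ => by simp only [a]; ring
    have w8 : ∫ u, g (q u) ∂σ ≤ ∫ u, (g u + θ) ∂σ :=
      integral_mono (sm g).1 (cint (by fun_prop)) fun u => by
        have := uc ((hq u).trans_le (min_le_left _ _))
        rw [Real.dist_eq, abs_lt] at this
        beta_reduce; linarith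
    rw [integral_add (cint hg) (integrable_const _), integral_const, smul_eq_mul] at w8
    rw [w7] at w2
    simp only [measureReal_def] at w3 w4 w5
    rw [w3, w4, ← hd] at w2
    have w9 : (0 : ℝ) ≤ (volume (ball (0 : E) 1)).toReal := ENNReal.toReal_nonneg
    have w10 := mul_le_mul_of_nonneg_right w6 w9
    have w11 := mul_le_mul_of_nonneg_left w8 (by positivity : 0 ≤ ε * (1 + θ) ^ d)
    refine le_of_mul_le_mul_left ?_ ε0
    have : ε * (A * r ^ (d - 1) * (k - θ * A)) =
        d * r ^ (d - 1) * (ε * (k - θ * A)) * (volume (ball (0 : E) 1)).toReal := by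
      conv_lhs => rw [show A * r ^ (d - 1) = d * (volume (ball (0 : E) 1)).toReal * r ^ (d - 1) by
        rw [← w5]]
      ring
    rw [this]
    nlinarith
  have l1 : Tendsto (fun θ : ℝ => A * r ^ (d - 1) * (k - θ * A)) (𝓝[>] 0)
      (𝓝 (A * r ^ (d - 1) * (k - 0 * A))) :=
    (Continuous.tendsto (by fun_prop) 0).mono_left nhdsWithin_le_nhds
  have l2 : Tendsto (fun θ : ℝ => (1 + θ) ^ d * (∫ u, g u ∂σ + θ * A)) (𝓝[>] 0)
      (𝓝 ((1 + 0) ^ d * (∫ u, g u ∂σ + 0 * A))) :=
    (Continuous.tendsto (by fun_prop) 0).mono_left nhdsWithin_le_nhds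
  simpa using le_of_tendsto_of_tendsto l1 l2 (by
    filter_upwards [self_mem_nhdsWithin] with θ hθ using key θ hθ)

end Pool.Agent.H26.Rh
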