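import Pool.Agent.H26.RhC

set_option autoImplicit false

namespace Pool.Agent.H26.Rh

open Set MeasureTheory Filter Topology Metric Pool.Agent.H26.Ss
open scoped ENNReal Pointwise

variable {E : Type} [NormedAddCommGroup E] [InnerProductSpace ℝ E]

theorem exists_mid [FiniteDimensional ℝ E] {A B : Submodule ℝ E} (h : A ≤ B) (i : ℕ)
    (h1 : Module.finrank ℝ A ≤ i) (h2 : i ≤ Module.finrank ℝ B) :
    ∃ U : Submodule ℝ E, A ≤ U ∧ U ≤ B ∧ Module.finrank ℝ U = i := by
  induction i, h1 using Nat.le_induction with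
  | base => exact ⟨A, le_rfl, h, rfl⟩
  | succ j _ ih =>
    obtain ⟨U, u1, u2, u3⟩ := ih (by omega)
    have : U < B := lt_of_le_of_ne u2 (by rintro rfl; omega)
    obtain ⟨x, hx, hx'⟩ := SetLike.exists_of_lt this
    have x0 : x ≠ 0 := by rintro rfl; exact hx' U.zero_mem
    refine ⟨U ⊔ ℝ ∙ x, u1.trans le_sup_left,
      sup_le u2 ((Submodule.span_singleton_le_iff_mem _ _).2 hx), ?_⟩
    have e := Submodule.finrank_sup_add_finrank_inf_eq U (ℝ ∙ x)
    rw [((Submodule.disjoint_span_singleton' x0).2 hx').eq_bot, finrank_bot,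
      finrank_span_singleton x0] at e
    omega

variable [FiniteDimensional ℝ E] [MeasurableSpace E] [BorelSpace E]

theorem core {K : Set E} (hK : IsCompact K) (hc : Convex ℝ K) (hi : (interior K).Nonempty)
    (hd : 2 ≤ Module.finrank ℝ E) {r k : ℝ} (hr : 0 < r) (k0 : 0 < k)
    (hV : volume K = volume (closedBall (0 : E) r))
    (hk : ∀ e : E, ‖e‖ = 1 → k ≤ (pr e (closedBall 0 1)).toReal)
    (H : ∀ v : E, ‖v‖ = 1 → ∀ a ∈ K, ∀ b ∈ K,
      inner ℝ v (a - b) * (pr v K).toReal ≤ 2 * k * r ^ Module.finrank ℝ E) :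
    ∃ z, K = closedBall z r := by
  have : Nontrivial E := Module.nontrivial_of_finrank_pos (R := ℝ) (by omega)
  set σ := (volume : Measure E).toSphere with hσ
  set d := Module.finrank ℝ E with hdd
  let w : sphere (0 : E) 1 → ℝ := fun u =>
    sSup ((fun q : E × E => inner ℝ (u : E) (q.1 - q.2)) '' (K ×ˢ K))
  have cw : Continuous w := (hK.prod hK).continuous_sSup (by fun_prop)
  have nK : K.Nonempty := hi.mono interior_subset
  have att : ∀ u, ∃ a ∈ K, ∃ b ∈ K, w u = inner ℝ (u : E) (a - b) ∧
      ∀ a' ∈ K, ∀ b' ∈ K, inner ℝ (u : E) (a' - b') ≤ w u := by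
    intro u
    obtain ⟨⟨a, b⟩, ⟨ha, hb⟩, e1, e2⟩ := (hK.prod hK).exists_sSup_image_eq_and_ge (nK.prod nK)
      (f := fun q : E × E => inner ℝ (u : E) (q.1 - q.2)) (by fun_prop)
    exact ⟨a, ha, b, hb, e1, fun a' ha' b' hb' => (e2 (a', b') ⟨ha', hb'⟩).trans_eq e1.symm⟩
  have w0 : ∀ u, 0 < w u := by
    intro u
    obtain ⟨x0, hx0⟩ := hi
    obtain ⟨ρ, hρ, hb⟩ := Metric.mem_nhds_iff.1 (mem_interior_iff_mem_nhds.1 hx0)
    obtain ⟨-, -, -, -, -, h⟩ := att u
    have m : x0 + (ρ / 2) • (u : E) ∈ K := by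
      apply hb
      rw [mem_ball, dist_eq_norm, add_sub_cancel_left, norm_smul,
        Real.norm_of_nonneg (by linarith)]
      simpa using hρ
    have := h _ m x0 (interior_subset hx0)
    rw [add_sub_cancel_left, inner_smul_right, real_inner_self_eq_norm_sq] at this
    simp only [norm_eq_of_mem_sphere, one_pow, mul_one] at this
    linarith
  let t : sphere (0 : E) 1 → ℝ := fun u => 2 * r / w u
  have ct : Continuous t := continuous_const.div cw fun u => (w0 u).ne'
  have t0 : ∀ u, 0 < t u := fun u => div_pos (by linarith) (w0 u)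
  have rd : r ^ d = r ^ (d - 1) * r := by rw [← pow_succ, Nat.sub_add_cancel (by omega)]
  have c1 := cauchy hK hc hi hr hV hk (g := fun u => r ^ (d - 1) * k * t u) (by fun_prop)
    (fun u => by
      obtain ⟨a, ha, b, hb, e, -⟩ := att u
      have := H u (by simp) a ha b hb
      rw [← e, rd] at this
      simp only [t]
      rw [← mul_div_assoc, le_div_iff₀ (w0 u)]
      linarith)
  rw [integral_const_mul, ← hσ, ← hdd, mul_assoc, mul_comm (σ.real univ)] at c1
  have c2 : σ.real univ ≤ ∫ u, t u ∂σ := le_of_mul_le_mul_left c1 (by positivity)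
  have cg : Continuous fun u => (w u)⁻¹ := cw.inv₀ fun u => (w0 u).ne'
  have sub : star (fun u => (w u)⁻¹) ⊆ pol K := by
    rintro _ ⟨u, s, s0, s1, rfl⟩ a ha b hb
    obtain ⟨-, -, -, -, -, h⟩ := att u
    rw [inner_smul_left, RCLike.conj_to_real]
    have h1 := h a ha b hb
    have h2 : s * w u ≤ 1 := by
      have := mul_le_mul_of_nonneg_right s1.le (w0 u).le
      rwa [inv_mul_cancel₀ (w0 u).ne'] at this
    nlinarith
  have s1 := (mul_le_mul_right (measure_mono sub) (volume K)).trans (santalo hK hc).1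
  rw [vol_star cg (fun u => inv_pos.2 (w0 u)), hV] at s1
  have s2 := ENNReal.toReal_mono (ENNReal.pow_ne_top measure_closedBall_lt_top.ne) s1
  rw [ENNReal.toReal_mul, ENNReal.toReal_pow, ENNReal.toReal_ofReal
    (integral_nonneg fun u => by have := w0 u; positivity)] at s2
  have w3 := Measure.addHaar_real_closedBall (volume : Measure E) 0 hr.le
  have w4 := Measure.addHaar_real_closedBall (volume : Measure E) 0 (Real.sqrt_nonneg (1 / 2))
  have w5 : σ.real univ = d * volume.real (ball (0 : E) 1) := Measure.toSphere_real_apply_univ _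
  simp only [measureReal_def] at w3 w4
  have κ0 : 0 < (volume (ball (0 : E) 1)).toReal :=
    ENNReal.toReal_pos (measure_ball_pos _ _ one_pos).ne' measure_ball_lt_top.ne
  have d0 : (0 : ℝ) < d := Nat.cast_pos.2 (by omega)
  rw [w3, w4, ← hσ, ← hdd, mul_pow, ← pow_mul, mul_comm d 2, pow_mul,
    Real.sq_sqrt (by norm_num), integral_div] at s2
  have c3 : ∫ u, t u ^ d ∂σ ≤ σ.real univ := by
    have e : ∀ u, t u ^ d = (2 * r) ^ d * (w u)⁻¹ ^ d := fun u => by
      simp only [t]; rw [div_eq_mul_inv, mul_pow]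
    simp only [e]
    rw [integral_const_mul, w5, measureReal_def]
    set I := ∫ u, (w u)⁻¹ ^ d ∂σ
    set κ := (volume (ball (0 : E) 1)).toReal
    have h2 : (2 : ℝ) ^ d * (1 / 2) ^ d = 1 := by rw [← mul_pow]; norm_num
    have h3 := mul_le_mul_of_nonneg_left s2 (by positivity : 0 ≤ (2 : ℝ) ^ d * d)
    refine le_of_mul_le_mul_left ?_ κ0
    have h4 : (2 : ℝ) ^ d * d * (r ^ d * κ * (I / d)) = κ * ((2 * r) ^ d * I) := by
      rw [mul_pow]; field_simp
    have h5 : (2 : ℝ) ^ d * d * ((1 / 2) ^ d * κ ^ 2) = κ * (d * κ) := by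
      linear_combination (d * κ ^ 2) * h2
    linarith
  let φ : sphere (0 : E) 1 → ℝ := fun u => t u ^ d - d * t u + (d - 1)
  have cφ : Continuous φ := by fun_prop
  have φ0 : ∀ u, 0 ≤ φ u := fun u => by
    have := one_add_mul_le_pow (a := t u - 1) (by linarith [t0 u]) d
    rw [add_sub_cancel] at this
    simp only [φ]; linarith
  have φ1 : ∫ u, φ u ∂σ = 0 := by
    refine le_antisymm ?_ (integral_nonneg φ0)
    simp only [φ]
    rw [integral_add (cint (by fun_prop)) (integrable_const _),
      integral_sub (cint (by fun_prop)) (cint (by fun_prop)), integral_const_mul, integral_const,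
      smul_eq_mul]
    nlinarith
  have φ2 : φ = 0 := (cφ.ae_eq_iff_eq σ continuous_const).1
    ((integral_eq_zero_iff_of_nonneg φ0 (cint cφ)).1 φ1)
  have t1 : ∀ u, w u = 2 * r := by
    intro u
    have h1 : t u = 1 := by
      by_contra hne
      have := one_add_mul_self_lt_rpow_one_add (s := t u - 1) (by linarith [t0 u])
        (sub_ne_zero.2 hne) (p := d) (by exact_mod_cast hd)
      rw [add_sub_cancel, Real.rpow_natCast] at this
      have h2 : φ u = 0 := congrFun φ2 u
      simp only [φ] at h2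
      linarith
    simp only [t] at h1
    rw [div_eq_one_iff_eq (w0 u).ne'] at h1
    exact h1.symm
  refine (santalo hK hc).2 r hr (fun a ha b hb => ?_) hV.ge
  by_cases hab : a - b = 0
  · rw [hab, norm_zero]; linarith
  obtain ⟨-, -, -, -, -, h⟩ := att ⟨‖a - b‖⁻¹ • (a - b), by
    simpa using norm_smul_inv_norm (𝕜 := ℝ) hab⟩
  have := h a ha b hb
  rw [t1, inner_smul_left, real_inner_self_eq_norm_sq] at this
  have p := norm_pos_iff.2 hab
  simp only [RCLike.conj_to_real] at this
  rwa [show ‖a - b‖⁻¹ * ‖a - b‖ ^ 2 = ‖a - b‖ by field_simp] at this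

theorem refl_hull {K : Set E} (hK : IsCompact K) (hc : Convex ℝ K) {i : ℕ} (h1 : 1 ≤ i)
    (h2 : i + 1 ≤ Module.finrank ℝ E) {v : E} (hv : ‖v‖ = 1) {a b : E} (ha : a ∈ K) (hb : b ∈ K)
    (hw : 0 ≤ inner ℝ v (a - b)) : ∃ (L : AffineSubspace ℝ E) (_ : Nonempty L),
      Module.finrank ℝ L.direction = i ∧ (∃ x ∈ K, x ∈ L) ∧
      volume K + ENNReal.ofReal (inner ℝ v (a - b)) * pr v K ≤
        volume (convexHull ℝ (K ∪ EuclideanGeometry.reflection L '' K)) := by
  set w := inner ℝ v (a - b) with hww
  have v0 : v ≠ 0 := by rintro rfl; simp at hv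
  have hz : a - b - w • v ∈ (ℝ ∙ v)ᗮ := Submodule.mem_orthogonal_singleton_iff_inner_right.2 (by
    rw [inner_sub_right, inner_smul_right, real_inner_self_eq_norm_sq, hv, ← hww]; simp)
  obtain ⟨U, u1, u2, u3⟩ := exists_mid ((Submodule.span_singleton_le_iff_mem _ _).2 hz) i
    ((finrank_span_le_card _).trans (by simpa using h1)) (by
      have := (ℝ ∙ v).finrank_add_finrank_orthogonal
      rw [finrank_span_singleton v0] at this
      omega)
  have r1 : U.reflection (a - b - w • v) = a - b - w • v :=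
    Submodule.reflection_mem_subspace_eq_self (u1 (Submodule.mem_span_singleton_self _))
  have r2 : U.reflection v = -v := Submodule.reflection_mem_subspace_orthogonalComplement_eq_neg
    (Submodule.orthogonal_le u2 (Submodule.le_orthogonal_orthogonal _
      (Submodule.mem_span_singleton_self _)))
  have ne : ∀ p : E, Nonempty (AffineSubspace.mk' p U) := fun p =>
    ⟨⟨p, AffineSubspace.self_mem_mk' p U⟩⟩
  have rf : ∀ p x : E, EuclideanGeometry.reflection (AffineSubspace.mk' p U) x =
      U.reflection (x - p) + p := by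
    intro p x
    rw [EuclideanGeometry.reflection_apply_of_mem _ x (AffineSubspace.self_mem_mk' p U)]
    simp only [AffineSubspace.direction_mk', vsub_eq_sub, vadd_eq_add]
  have im : ∀ p : E, EuclideanGeometry.reflection (AffineSubspace.mk' p U) '' K =
      (fun x => (1 : ℝ) • U.reflection x + (p - U.reflection p)) '' K := by
    intro p
    refine image_congr fun x _ => ?_
    rw [rf, map_sub]; module
  have nK : K.Nonempty := ⟨a, ha⟩
  have cp : ∀ p : E, IsCompact (EuclideanGeometry.reflection (AffineSubspace.mk' p U) '' K) :=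
    fun p => hK.image (AffineIsometryEquiv.continuous _)
  have cv : ∀ p : E, Convex ℝ (EuclideanGeometry.reflection (AffineSubspace.mk' p U) '' K) :=
    fun p => hc.affine_image
      (EuclideanGeometry.reflection (AffineSubspace.mk' p U)).toAffineEquiv.toAffineMap
  have vl : volume (EuclideanGeometry.reflection (AffineSubspace.mk' b U) '' K) = volume K := by
    have mp : MeasurePreserving (fun x => U.reflection x + (b - U.reflection b)) volume volume :=
      (measurePreserving_add_right volume _).comp U.reflection.measurePreserving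
    rw [← mp.measure_preimage (cp b).measurableSet.nullMeasurableSet, im]
    simp only [one_smul]
    rw [preimage_image_eq _ (fun x y h => U.reflection.injective (add_right_cancel h))]
  have pe : pr v (EuclideanGeometry.reflection (AffineSubspace.mk' b U) '' K) = pr v K := by
    have := pr_sim hv hK hc U.reflection (b - U.reflection b) one_pos
    rw [← im, r2, pr_neg hv (cp b) (cv b)] at this
    simpa using this
  have key := hull_ineq hv hK (cp b) hc (cv b) (hull_compact hK (cp b) hc (cv b) nK (nK.image _))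
    (hull_compact hK (cp a) hc (cv a) nK (nK.image _)) (convex_convexHull _ _)
    (convex_convexHull _ _) (a := 2 * w) (by linarith)
    (subset_union_left.trans (subset_convexHull _ _))
    (subset_union_right.trans (subset_convexHull _ _))
    (subset_union_left.trans (subset_convexHull _ _)) (by
      rintro _ ⟨x, hx, rfl⟩
      refine subset_convexHull _ _ (Or.inr ⟨x, hx, ?_⟩)
      rw [rf, rf]
      simp only [map_sub, map_smul, r2] at r1 ⊢
      linear_combination (norm := module) -r1) pe
  rw [vl, ENNReal.ofReal_mul (by norm_num), ENNReal.ofReal_ofNat, ← two_mul, mul_assoc,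
    ← mul_add] at key
  by_contra hn
  push Not at hn
  have n1 := hn _ (ne b) (by rw [AffineSubspace.direction_mk', u3])
    ⟨b, hb, AffineSubspace.self_mem_mk' b U⟩
  have n2 := hn _ (ne a) (by rw [AffineSubspace.direction_mk', u3])
    ⟨a, ha, AffineSubspace.self_mem_mk' a U⟩
  have := ENNReal.add_lt_add n1 n2
  rw [← two_mul] at this
  exact this.not_ge key

/-- volume of the unit ball of the Euclidean space of dimension `n` -/
noncomputable def kappa (n : ℕ) : ℝ := (volume (ball (0 : EuclideanSpace ℝ (Fin n)) 1)).toReal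

theorem kappa_pos (n : ℕ) : 0 < kappa n :=
  ENNReal.toReal_pos (measure_ball_pos _ _ one_pos).ne' measure_ball_lt_top.ne

theorem pr_ball (n : ℕ) (e : EuclideanSpace ℝ (Fin (n + 1))) (he : ‖e‖ = 1) :
    (pr e (closedBall 0 1)).toReal = kappa n := by
  let e0 : EuclideanSpace ℝ (Fin (n + 1)) := EuclideanSpace.single 0 1
  have n0 : ‖e0‖ = 1 := by simp [e0]
  have h1 := pr_sim n0 (isCompact_closedBall 0 1) (convex_closedBall 0 1)
    (Submodule.reflection (ℝ ∙ (e0 - e))ᗮ) 0 one_pos
  rw [Submodule.reflection_sub (n0.trans he.symm)] at h1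
  simp only [one_smul, add_zero, LinearIsometryEquiv.image_closedBall, map_zero,
    ENNReal.ofReal_one, one_pow, one_mul] at h1
  rw [h1, kappa, ← Measure.addHaar_unitClosedBall_eq_addHaar_unitBall]
  congr 1
  let φ : EuclideanSpace ℝ (Fin (n + 1)) → ℝ × EuclideanSpace ℝ (Fin n) := fun x =>
    Prod.map id (WithLp.toLp 2)
      (MeasurableEquiv.piFinSuccAbove (fun _ : Fin (n + 1) => ℝ) 0 (WithLp.ofLp x))
  have hφ : MeasurePreserving φ volume volume :=
    ((MeasurePreserving.id volume).prod (PiLp.volume_preserving_toLp _)).comp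
      ((volume_preserving_piFinSuccAbove (fun _ : Fin (n + 1) => ℝ) 0).comp
        (PiLp.volume_preserving_ofLp _))
  have : cyl e0 (closedBall 0 1) ∩ slab e0 = φ ⁻¹' (Icc 0 1 ×ˢ closedBall 0 1) := by
    ext x
    simp only [cyl, slab, mem_inter_iff, mem_ofPred_eq, mem_closedBall_zero_iff, mem_preimage,
      mem_prod, EuclideanSpace.norm_eq, Real.sqrt_le_one, Fin.sum_univ_succ, φ, e0]
    simp only [EuclideanSpace.inner_single_right, Real.norm_eq_abs, sq_abs]
    constructor
    · rintro ⟨⟨s, hs⟩, h⟩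
      refine ⟨by simpa using h, ?_⟩
      simp [Fin.tail] at hs ⊢
      nlinarith [sq_nonneg (x 0 + s)]
    · rintro ⟨h, hs⟩
      refine ⟨⟨-x 0, ?_⟩, by simpa using h⟩
      simpa [Fin.tail] using hs
  rw [pr, this, hφ.measure_preimage
    (measurableSet_Icc.prod isClosed_closedBall.measurableSet).nullMeasurableSet,
    Measure.volume_eq_prod, Measure.prod_prod]
  simp

theorem only_ball (d i : ℕ) (h1 : 1 ≤ i) (h2 : i + 1 ≤ d) (K : Set (EuclideanSpace ℝ (Fin d)))
    (hK : IsCompact K) (hc : Convex ℝ K) (hi : (interior K).Nonempty)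
    (H : ∀ (L : AffineSubspace ℝ (EuclideanSpace ℝ (Fin d))) [Nonempty L],
      Module.finrank ℝ L.direction = i → (∃ x ∈ K, x ∈ L) →
      (volume (convexHull ℝ (K ∪ EuclideanGeometry.reflection L '' K))).toReal /
        (volume K).toReal ≤ 1 + 2 * kappa (d - 1) / kappa d) :
    ∃ z r, 0 < r ∧ K = closedBall z r := by
  obtain ⟨n, rfl⟩ : ∃ n, d = n + 1 := ⟨d - 1, by omega⟩
  rw [Nat.add_sub_cancel] at H
  have V0 : 0 < (volume K).toReal := ENNReal.toReal_pos
    (Measure.measure_pos_of_nonempty_interior volume hi).ne' hK.measure_lt_top.ne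
  have κ0 := kappa_pos (n + 1)
  have k0 := kappa_pos n
  set r := ((volume K).toReal / kappa (n + 1)) ^ (((n + 1 : ℕ) : ℝ))⁻¹ with hr
  have r0 : 0 < r := Real.rpow_pos_of_pos (by positivity) _
  have rd : r ^ (n + 1) = (volume K).toReal / kappa (n + 1) :=
    Real.rpow_inv_natCast_pow (by positivity) (by omega)
  have hV : volume K = volume (closedBall (0 : EuclideanSpace ℝ (Fin (n + 1))) r) := by
    rw [← ENNReal.toReal_eq_toReal_iff' hK.measure_lt_top.ne measure_closedBall_lt_top.ne]
    have := Measure.addHaar_real_closedBall (volume : Measure (EuclideanSpace ℝ (Fin (n + 1)))) 0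
      r0.le
    simp only [measureReal_def, finrank_euclideanSpace_fin] at this
    rw [this, rd]; exact (div_mul_cancel₀ _ κ0.ne').symm
  obtain ⟨z, hz⟩ := core hK hc hi (by simp; omega) r0 k0 hV (fun e he => (pr_ball n e he).ge)
    (fun v hv a ha b hb => by
      rw [finrank_euclideanSpace_fin, rd]
      by_cases hw : inner ℝ v (a - b) ≤ 0
      · exact (mul_nonpos_of_nonpos_of_nonneg hw ENNReal.toReal_nonneg).trans (by positivity)
      have hw := (not_le.1 hw).le
      obtain ⟨L, hL, l1, l2, l3⟩ := refl_hull hK hc h1 (by simpa using h2) hv ha hb hw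
      have l4 := H L l1 l2
      have cp : IsCompact (EuclideanGeometry.reflection L '' K) :=
        hK.image (AffineIsometryEquiv.continuous _)
      have l5 := ENNReal.toReal_mono (hull_compact hK cp hc (hc.affine_image
        (EuclideanGeometry.reflection L).toAffineEquiv.toAffineMap) ⟨a, ha⟩
        ⟨_, a, ha, rfl⟩).measure_lt_top.ne l3
      rw [ENNReal.toReal_add hK.measure_lt_top.ne (ENNReal.mul_ne_top ENNReal.ofReal_ne_top
        (pr_fin hv hK hc)), ENNReal.toReal_mul, ENNReal.toReal_ofReal hw] at l5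
      rw [div_le_iff₀ V0] at l4
      have : 2 * kappa n * ((volume K).toReal / kappa (n + 1)) =
        2 * kappa n / kappa (n + 1) * (volume K).toReal := by ring
      linarith)
  exact ⟨z, r, r0, hz⟩

theorem lower (d i : ℕ) (h1 : 1 ≤ i) (h2 : i + 1 ≤ d) (K : Set (EuclideanSpace ℝ (Fin d)))
    (hK : IsCompact K) (hc : Convex ℝ K) (hi : (interior K).Nonempty) :
    ∃ (L : AffineSubspace ℝ (EuclideanSpace ℝ (Fin d))) (_ : Nonempty L),
      Module.finrank ℝ L.direction = i ∧ (∃ x ∈ K, x ∈ L) ∧
      1 + 2 * kappa (d - 1) / kappa d ≤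
        (volume (convexHull ℝ (K ∪ EuclideanGeometry.reflection L '' K))).toReal /
          (volume K).toReal := by
  by_contra hn
  push Not at hn
  obtain ⟨z, r, r0, hz⟩ := only_ball d i h1 h2 K hK hc hi fun L hL l1 l2 => (hn L hL l1 l2).le
  obtain ⟨n, rfl⟩ : ∃ n, d = n + 1 := ⟨d - 1, by omega⟩
  rw [Nat.add_sub_cancel] at hn
  let v : EuclideanSpace ℝ (Fin (n + 1)) := EuclideanSpace.single 0 1
  have hv : ‖v‖ = 1 := by simp [v]
  have ha : z + r • v ∈ K := by
    rw [hz, mem_closedBall, dist_eq_norm]; simp [norm_smul, hv, abs_of_pos r0]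
  have hb : z - r • v ∈ K := by
    rw [hz, mem_closedBall, dist_eq_norm]; simp [norm_smul, hv, abs_of_pos r0]
  have hw : inner ℝ v (z + r • v - (z - r • v)) = 2 * r := by
    rw [show z + r • v - (z - r • v) = (2 * r) • v by module, inner_smul_right,
      real_inner_self_eq_norm_sq, hv]; ring
  obtain ⟨L, hL, l1, l2, l3⟩ := refl_hull hK hc h1 (by simpa using h2) hv ha hb
    (by rw [hw]; linarith)
  have l4 := hn L hL l1 l2
  have cp : IsCompact (EuclideanGeometry.reflection L '' K) :=
    hK.image (AffineIsometryEquiv.continuous _)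
  have l5 := ENNReal.toReal_mono (hull_compact hK cp hc (hc.affine_image
    (EuclideanGeometry.reflection L).toAffineEquiv.toAffineMap) ⟨_, ha⟩
    ⟨_, _, ha, rfl⟩).measure_lt_top.ne l3
  rw [hw, ENNReal.toReal_add hK.measure_lt_top.ne (ENNReal.mul_ne_top ENNReal.ofReal_ne_top
    (pr_fin hv hK hc)), ENNReal.toReal_mul, ENNReal.toReal_ofReal (by linarith)] at l5
  have V0 : 0 < (volume K).toReal := ENNReal.toReal_pos
    (Measure.measure_pos_of_nonempty_interior volume hi).ne' hK.measure_lt_top.ne
  have κ0 := kappa_pos (n + 1)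
  have p1 := pr_sim hv (isCompact_closedBall 0 1) (convex_closedBall 0 1)
    (LinearIsometryEquiv.refl ℝ _) z r0
  have e : (fun x => r • (LinearIsometryEquiv.refl ℝ (EuclideanSpace ℝ (Fin (n + 1)))) x + z) ''
      closedBall 0 1 = K := by
    rw [hz]
    ext y
    simp only [LinearIsometryEquiv.coe_refl, id, mem_image, mem_closedBall, dist_eq_norm, sub_zero]
    constructor
    · rintro ⟨x, hx, rfl⟩
      rw [add_sub_cancel_right, norm_smul, Real.norm_of_nonneg r0.le]; nlinarith
    · intro hy
      refine ⟨r⁻¹ • (y - z), ?_, by simp [smul_smul, r0.ne']⟩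
      rw [norm_smul, Real.norm_of_nonneg (by positivity), inv_mul_le_iff₀ r0]; linarith
  rw [e] at p1
  have p2 := congrArg ENNReal.toReal p1
  rw [ENNReal.toReal_mul, ENNReal.toReal_mul, ENNReal.toReal_ofReal r0.le,
    ENNReal.toReal_ofReal (by positivity), pr_ball n v hv] at p2
  have p3 := Measure.addHaar_real_closedBall (volume : Measure (EuclideanSpace ℝ (Fin (n + 1)))) z
    r0.le
  rw [← hz] at p3
  change (volume K).toReal = _ * kappa (n + 1) at p3
  change r * (pr v K).toReal = _ at p2
  rw [div_lt_iff₀ V0] at l4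
  have : 2 * kappa n / kappa (n + 1) * (volume K).toReal = 2 * (r * (pr v K).toReal) := by
    rw [p2, p3]; field_simp
  linarith

end Pool.Agent.H26.Rh
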