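import Mathlib

set_option autoImplicit false

namespace Pool.Agent.H26.RhDefs

open MeasureTheory

/-- Euclidean `d`-space -/
abbrev V (d : ℕ) : Type := EuclideanSpace ℝ (Fin d)

/-- affine subspaces of Euclidean `d`-space -/
abbrev Flat (d : ℕ) : Type := AffineSubspace ℝ (V d)

/-- Lebesgue measure, as a real number -/
noncomputable def vol {d : ℕ} (A : Set (V d)) : ℝ := (volume A).toReal

/-- volume of the unit ball -/
noncomputable def kappa (n : ℕ) : ℝ := vol (Metric.ball (0 : V n) 1)

/-- convex body: compact, convex, nonempty interior -/
def IsBody {d : ℕ} (K : Set (V d)) : Prop := IsCompact K ∧ Convex ℝ K ∧ (interior K).Nonempty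

/-- dimension of an affine subspace -/
noncomputable def dimOf {d : ℕ} (L : Flat d) : ℕ := Module.finrank ℝ L.direction

/-- the reflection about `L` -/
noncomputable def refl {d : ℕ} (L : Flat d) [Nonempty L] (x : V d) : V d :=
  EuclideanGeometry.reflection L x

/-- volume of the convex hull of `K` and its reflection about `L`, divided by the volume of `K` -/
noncomputable def ratio {d : ℕ} (K : Set (V d)) (L : Flat d) [Nonempty L] : ℝ :=
  vol (convexHull ℝ (K ∪ refl L '' K)) / vol K

end Pool.Agent.H26.RhDefs
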