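import Mathlib

/-! A scheduling lemma for increasing families of sets indexed by regular cardinals. -/

namespace Pool.Agent.H26.Sched

open Cardinal Set

lemma exists_idx {T : Type} (S : Set T) (ν : Cardinal.{0}) (h : #S ≤ ν) :
    ∃ g : T → Ordinal.{0}, InjOn g S ∧ ∀ t ∈ S, (g t).card < ν := by
  classical
  rw [← Cardinal.mk_ord_toType ν] at h
  obtain ⟨e⟩ := h
  refine ⟨fun t => if h : t ∈ S then Ordinal.typein (α := ν.ord.ToType) (· < ·) (e ⟨t, h⟩) else 0,
    fun s hs t ht h => ?_, fun t ht => ?_⟩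
  · simp only [dif_pos hs, dif_pos ht] at h
    exact congrArg Subtype.val (e.injective ((Ordinal.typein _).injective h))
  · simp only [dif_pos ht]
    exact Cardinal.card_typein_toType_lt _ _

lemma count_le {T : Type} {S : Set T} {g : T → Ordinal.{0}} (hg : InjOn g S) (o : Ordinal.{0}) :
    #{t | t ∈ S ∧ g t < o} ≤ o.card := by
  rw [← Cardinal.mk_toType]
  refine Cardinal.mk_le_of_injective
    (f := fun t : {t | t ∈ S ∧ g t < o} => Ordinal.ToType.mk ⟨g t.1, t.2.2⟩) fun s t h => ?_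
  exact Subtype.ext (hg s.2.1 t.2.1 (congrArg Subtype.val (Ordinal.ToType.mk.injective h)))

lemma union_lt {T : Type} {ρ : Cardinal.{0}} (hρ : ρ.IsRegular) {A B : Set T} (hA : #A < ρ)
    (hB : #B < ρ) : #(A ∪ B : Set T) < ρ :=
  (Cardinal.mk_union_le _ _).trans_lt (Cardinal.add_lt_of_lt hρ.aleph0_le hA hB)

lemma sub_lt {T : Type} {ρ : Cardinal.{0}} {A B : Set T} (h : A ⊆ B) (hB : #B < ρ) : #A < ρ :=
  (Cardinal.mk_le_mk_of_subset h).trans_lt hB

lemma empty_lt {T : Type} {ρ : Cardinal.{0}} (hρ : ρ.IsRegular) {A : Set T} (h : ∀ x, x ∉ A) :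
    #A < ρ := by
  rw [Set.eq_empty_of_forall_notMem h, Cardinal.mk_emptyCollection]; exact hρ.pos

theorem sched {P : Type} (Z : Cardinal.{0} → Set P) (hZ : Monotone Z) (θ : Cardinal.{0}) :
    ∀ (l : Cardinal.{0}) (A : Set P), l.IsRegular → l ≤ θ → A ⊆ Z (Order.succ θ) →
      (∀ q ∈ A, q ∉ Z l) → (∀ ρ, ρ.IsRegular → l ≤ ρ → #(A ∩ Z ρ : Set P) < ρ) →
      ∃ b : P → Cardinal.{0}, (∀ q ∈ A, l ≤ b q ∧ q ∉ Z (b q)) ∧
        ∀ ρ, ρ.IsRegular → l < ρ → #{q | q ∈ A ∧ b q < ρ} < ρ := by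
  classical
  induction θ using WellFoundedLT.induction with
  | ind θ ih =>
  intro l A hl hlθ hA hAl hc
  have hθ : ℵ₀ ≤ θ := hl.aleph0_le.trans hlθ
  have hAθ : #A < Order.succ θ := by
    have := hc _ (Cardinal.isRegular_succ hθ) (hlθ.trans (Order.le_succ θ))
    rwa [Set.inter_eq_left.2 hA] at this
  rcases hlθ.eq_or_lt with rfl | hlθ'
  · exact ⟨fun _ => l, fun q hq => ⟨le_rfl, hAl q hq⟩, fun ρ _ h =>
      sub_lt (fun q hq => hq.1) (hAθ.trans_le (Order.succ_le_of_lt h))⟩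
  have sub : ∀ (m e : Cardinal.{0}), m.IsRegular → l ≤ m → e < θ →
      ∃ b : P → Cardinal.{0}, (∀ q ∈ (A ∩ Z (Order.succ e)) \ Z m, m ≤ b q ∧ q ∉ Z (b q)) ∧
        ∀ ρ, ρ.IsRegular → #{q | q ∈ (A ∩ Z (Order.succ e)) \ Z m ∧ b q < ρ} < ρ := by
    intro m e hm hlm he
    by_cases hme : m ≤ e
    · obtain ⟨b, hb1, hb2⟩ := ih e he m ((A ∩ Z (Order.succ e)) \ Z m) hm hme (fun q hq => hq.1.2)
        (fun q hq => hq.2) fun ρ hρ h =>
          sub_lt (B := A ∩ Z ρ) (fun q hq => ⟨hq.1.1.1, hq.2⟩) (hc ρ hρ (hlm.trans h))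
      refine ⟨b, hb1, fun ρ hρ => ?_⟩
      rcases lt_or_ge m ρ with h | h
      · exact hb2 ρ hρ h
      · exact empty_lt hρ fun q hq => hq.2.not_ge (h.trans (hb1 q hq.1).1)
    · have : ∀ q, q ∉ (A ∩ Z (Order.succ e)) \ Z m := fun q hq =>
        hq.2 (hZ (Order.succ_le_of_lt (not_le.1 hme)) hq.1.2)
      exact ⟨fun _ => m, fun q hq => (this q hq).elim, fun ρ hρ =>
        empty_lt hρ fun q hq => this q hq.1⟩
  by_cases hreg : θ.IsRegular
  · set e := max #(A ∩ Z θ : Set P) l with he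
    have heθ : e < θ := max_lt (hc θ hreg hlθ) hlθ'
    obtain ⟨b, hb1, hb2⟩ := sub l e hl le_rfl heθ
    refine ⟨fun q => if q ∈ Z (Order.succ e) then b q else if q ∈ Z θ then Order.succ e else θ,
      fun q hq => ?_, fun ρ hρ h => ?_⟩
    · dsimp only
      split_ifs with h1 h2
      · exact hb1 q ⟨⟨hq, h1⟩, hAl q hq⟩
      · exact ⟨(le_max_right _ _).trans (Order.le_succ e), h1⟩
      · exact ⟨hlθ, h2⟩
    · rcases lt_or_ge θ ρ with h1 | h1
      · exact sub_lt (fun q hq => hq.1) (hAθ.trans_le (Order.succ_le_of_lt h1))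
      rcases lt_or_ge e ρ with h2 | h2
      · refine sub_lt (B := A ∩ Z θ) (fun q hq => ⟨hq.1, ?_⟩) ((le_max_left _ _).trans_lt h2)
        have h3 := hq.2
        dsimp only at h3
        split_ifs at h3 with h4 h5
        · exact hZ (Order.succ_le_of_lt heθ) h4
        · exact h5
        · exact (h3.not_ge h1).elim
      · refine sub_lt (fun q hq => ?_) (hb2 ρ hρ)
        have h3 := hq.2
        dsimp only at h3
        split_ifs at h3 with h4 h5
        · exact ⟨⟨⟨hq.1, h4⟩, hAl q hq.1⟩, h3⟩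
        · exact (h3.not_ge (h2.trans (Order.le_succ e))).elim
        · exact (h3.not_ge h1).elim
  · obtain ⟨J, hJ1, hJ2⟩ := Order.exists_cof_eq θ.ord.ToType
    rw [Ordinal.cof_toType] at hJ2
    have hJ : #J < θ := by
      rw [hJ2]
      by_contra hn
      exact hreg ⟨hθ, not_lt.1 hn⟩
    set m0 := max #J l with hm0
    have hm0θ : m0 < θ := max_lt hJ hlθ'
    have hlm0 : l ≤ m0 := le_max_right _ _
    let c : J → Cardinal.{0} := fun j => max #(Iio j.1) m0
    have hcθ : ∀ j, c j < θ := fun j => max_lt (Cardinal.mk_Iio_toType_ord_lt _) hm0θ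
    have hcm : ∀ j, m0 ≤ c j := fun j => le_max_right _ _
    have hcof : ∀ x < θ, ∃ j, x ≤ c j := by
      intro x hx
      obtain ⟨j, hj, h⟩ := hJ1 (Ordinal.ToType.mk ⟨x.ord, Cardinal.ord_lt_ord.2 hx⟩)
      refine ⟨⟨j, hj⟩, le_trans ?_ (le_max_left _ _)⟩
      have h1 : x.ord ≤ Ordinal.typein (α := θ.ord.ToType) (· < ·) j := by
        have := Ordinal.ToType.mk.symm.monotone h
        rw [OrderIso.symm_apply_apply] at this
        exact this
      have := Ordinal.card_le_card h1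
      rw [Cardinal.card_ord] at this
      exact this
    have hcof' : ∀ x < θ, ∃ j, x < c j := by
      intro x hx
      have h1 : Order.succ (max x ℵ₀) < θ := by
        have h2 : max x ℵ₀ < θ := max_lt hx (hl.aleph0_le.trans_lt hlθ')
        refine (Order.succ_le_of_lt h2).lt_of_ne fun e => hreg ?_
        rw [← e]; exact Cardinal.isRegular_succ (le_max_right _ _)
      obtain ⟨j, hj⟩ := hcof _ h1
      exact ⟨j, ((le_max_left _ _).trans_lt (Order.lt_succ _)).trans_le hj⟩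
    let ce : Option J → Cardinal.{0} := fun o => o.elim θ c
    let dd : Option J → Cardinal.{0} := fun o => max (⨆ j : {j // c j < ce o}, c j.1) m0
    have hdd0 : ∀ o, ℵ₀ ≤ dd o := fun o => hl.aleph0_le.trans (hlm0.trans (le_max_right _ _))
    have hdd1 : ∀ o j, c j < ce o → c j ≤ dd o := fun o j h =>
      (le_ciSup (f := fun j : {j // c j < ce o} => c j.1) (Cardinal.bddAbove_range _) ⟨j, h⟩).trans
        (le_max_left _ _)
    have hdd2 : ∀ o x, m0 < dd o → x < dd o → ∃ j, c j < ce o ∧ x < c j := by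
      intro o x h1 h2
      have h3 : dd o = ⨆ j : {j // c j < ce o}, c j.1 := by
        rcases lt_max_iff.1 h1 with h | h
        · exact max_eq_left h.le
        · exact (lt_irrefl _ h).elim
      rw [h3] at h2
      by_contra hn
      push Not at hn
      exact h2.not_ge (ciSup_le' fun j => hn j.1 j.2)
    have hlsucc : ∀ o, l ≤ Order.succ (dd o) := fun o =>
      (hlm0.trans (le_max_right _ _)).trans (Order.le_succ _)
    obtain ⟨b0, hb01, hb02⟩ := sub l m0 hl le_rfl hm0θ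
    choose bb hbb1 hbb2 using fun j : J => sub (Order.succ (dd (some j))) (c j)
      (Cardinal.isRegular_succ (hdd0 _)) (hlsucc _) (hcθ j)
    choose g hg1 hg2 using fun o : Option J => exists_idx (A ∩ Z (Order.succ (dd o))) (dd o)
      (Order.lt_succ_iff.1 (hc _ (Cardinal.isRegular_succ (hdd0 o)) (hlsucc o)))
    have key : ∀ q, ∃ β : Cardinal.{0}, q ∈ A → (l ≤ β ∧ q ∉ Z β) ∧
        ((q ∈ (A ∩ Z (Order.succ m0)) \ Z l ∧ β = b0 q) ∨ (m0 < β ∧
          ((∃ j, q ∈ (A ∩ Z (Order.succ (c j))) \ Z (Order.succ (dd (some j))) ∧ β = bb j q) ∨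
          ∃ o j, q ∈ A ∩ Z (Order.succ (dd o)) ∧ (g o q).card < c j ∧ c j < β))) := by
      intro q
      by_cases hq : q ∈ A
      swap
      · exact ⟨0, fun h => (hq h).elim⟩
      by_cases h0 : q ∈ Z (Order.succ m0)
      · exact ⟨b0 q, fun _ => ⟨hb01 q ⟨⟨hq, h0⟩, hAl q hq⟩, Or.inl ⟨⟨⟨hq, h0⟩, hAl q hq⟩, rfl⟩⟩⟩
      obtain ⟨_, ⟨o, ho, rfl⟩, hmin⟩ := wellFounded_lt.has_min
        (ce '' {o | q ∈ Z (Order.succ (ce o))}) ⟨_, none, hA hq, rfl⟩
      have hlow : ∀ j, c j < ce o → q ∉ Z (Order.succ (c j)) := fun j h h' =>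
        hmin _ ⟨some j, h', rfl⟩ h
      by_cases h1 : q ∈ Z (Order.succ (dd o))
      · have h2 : m0 < dd o := by
          by_contra hn
          exact h0 (hZ (Order.succ_le_succ (not_lt.1 hn)) h1)
        obtain ⟨j, h3, h4⟩ := hdd2 o _ h2 (hg2 o q ⟨hq, h1⟩)
        exact ⟨Order.succ (c j), fun _ => ⟨⟨(hlm0.trans (hcm j)).trans (Order.le_succ _), hlow j h3⟩,
          Or.inr ⟨Order.lt_succ_of_le (hcm j), Or.inr ⟨o, j, ⟨hq, h1⟩, h4, Order.lt_succ _⟩⟩⟩⟩
      · rcases o with _ | j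
        · refine (h1 (hZ (Order.succ_le_succ ?_) (hA hq))).elim
          by_contra hn
          obtain ⟨j, hj⟩ := hcof' _ (not_le.1 hn)
          exact hj.not_ge (hdd1 none j (hcθ j))
        · have h2 := hbb1 j q ⟨⟨hq, ho⟩, h1⟩
          exact ⟨bb j q, fun _ => ⟨⟨(hlsucc _).trans h2.1, h2.2⟩, Or.inr
            ⟨(Order.lt_succ_of_le (le_max_right _ _)).trans_le h2.1, Or.inl ⟨j, ⟨⟨hq, ho⟩, h1⟩, rfl⟩⟩⟩⟩
    choose b hb using key
    refine ⟨b, fun q hq => (hb q hq).1, fun ρ hρ hlρ => ?_⟩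
    rcases le_or_gt ρ m0 with h | h
    · refine sub_lt (fun q hq => ?_) (hb02 ρ hρ)
      rcases (hb q hq.1).2 with h1 | h1
      · exact ⟨h1.1, h1.2 ▸ hq.2⟩
      · exact ((h1.1.trans hq.2).not_ge h).elim
    · have hJρ : #J < ρ := (le_max_left _ _).trans_lt h
      have hOρ : #(Option J) < ρ := by
        rw [Cardinal.mk_option]
        exact Cardinal.add_lt_of_lt hρ.aleph0_le hJρ (Cardinal.one_lt_aleph0.trans_le hρ.aleph0_le)
      have e2 : #(⋃ j : J, {q | q ∈ (A ∩ Z (Order.succ (c j))) \ Z (Order.succ (dd (some j))) ∧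
          bb j q < ρ}) < ρ :=
        (Cardinal.card_iUnion_lt_iff_forall_of_isRegular hρ hJρ).2 fun j => hbb2 j ρ hρ
      have e3 : #(⋃ o : Option J, ⋃ j : J, {q | q ∈ A ∩ Z (Order.succ (dd o)) ∧
          (g o q).card < c j ∧ c j < ρ}) < ρ := by
        refine (Cardinal.card_iUnion_lt_iff_forall_of_isRegular hρ hOρ).2 fun o =>
          (Cardinal.card_iUnion_lt_iff_forall_of_isRegular hρ hJρ).2 fun j => ?_
        by_cases hj : c j < ρ
        · refine sub_lt (B := {q | q ∈ A ∩ Z (Order.succ (dd o)) ∧ g o q < (c j).ord})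
            (fun q hq => ⟨hq.1, Cardinal.lt_ord.2 hq.2.1⟩) ((count_le (hg1 o) _).trans_lt ?_)
          rwa [Cardinal.card_ord]
        · exact empty_lt hρ fun q hq => hj hq.2.2
      refine sub_lt (fun q hq => ?_) (union_lt hρ (hb02 ρ hρ) (union_lt hρ e2 e3))
      rcases (hb q hq.1).2 with h1 | ⟨-, ⟨j, h1, h2⟩ | ⟨o, j, h1, h2, h3⟩⟩
      · exact Or.inl ⟨h1.1, h1.2 ▸ hq.2⟩
      · exact Or.inr (Or.inl (mem_iUnion.2 ⟨j, h1, h2 ▸ hq.2⟩))
      · exact Or.inr (Or.inr (mem_iUnion.2 ⟨o, mem_iUnion.2 ⟨j, h1, h2, h3.trans hq.2⟩⟩))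

end Pool.Agent.H26.Sched
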