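import Mathlib
import Pool.Agent.H26.Sched

/-! Antichains with restricted comparability counts in posets of finite length. -/

namespace Pool.Agent.H26.SandsRival

open Cardinal Set Sched

variable {P : Type} [PartialOrder P]

def Nb (x : P) : Set P := {h | x ≤ h ∨ h ≤ x}

lemma nb_symm {x y : P} (h : y ∈ Nb x) : x ∈ Nb y := Or.symm h

def psiR (Y : Cardinal.{0} → Set P) : Cardinal.{0} → Set P :=
  fun ν => {x | ∀ μ, ν ≤ μ → μ.IsRegular → #(Iio x ∩ Y μ : Set P) < μ}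

def psiB (X : Cardinal.{0} → Set P) : Cardinal.{0} → Set P :=
  fun ν => {x | ∀ μ, ν ≤ μ → μ.IsRegular → #(Ioi x ∩ X μ : Set P) < μ}

lemma psiR_anti : Antitone (psiR (P := P)) := fun _ _ h _ _ hx μ h1 h2 =>
  sub_lt (inter_subset_inter_right _ (h μ)) (hx μ h1 h2)

lemma psiB_anti : Antitone (psiB (P := P)) := fun _ _ h _ _ hx μ h1 h2 =>
  sub_lt (inter_subset_inter_right _ (h μ)) (hx μ h1 h2)

theorem exists_Z [WellFoundedLT P] [WellFoundedGT P] : ∃ Z : Cardinal.{0} → Set P, Monotone Z ∧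
    (∀ ν, ν.IsRegular → ∀ z ∈ Z ν, #(Nb z ∩ Z ν : Set P) < ν) ∧
    ∀ ν x, x ∉ Z ν → ∃ μ, ν ≤ μ ∧ μ.IsRegular ∧ μ ≤ #(Nb x ∩ Z μ : Set P) := by
  let Φ : (Cardinal.{0} → Set P) →o (Cardinal.{0} → Set P) :=
    ⟨fun Y => psiB (psiR Y), fun _ _ h => psiB_anti (psiR_anti h)⟩
  let Y := Φ.lfp
  have hY : psiB (psiR Y) = Y := Φ.map_lfp
  let X := psiR Y
  have hXm : Monotone X := fun ν ν' h x hx μ h1 h2 => hx μ (h.trans h1) h2
  have hYm : Monotone Y := by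
    rw [← hY]; exact fun ν ν' h x hx μ h1 h2 => hx μ (h.trans h1) h2
  have hY' : ∀ ν x, x ∈ Y ν ↔ ∀ μ, ν ≤ μ → μ.IsRegular → #(Ioi x ∩ X μ : Set P) < μ := by
    intro ν x
    conv_lhs => rw [← hY]
    rfl
  refine ⟨fun ν => X ν ∩ Y ν, fun ν ν' h x hx => ⟨hXm h hx.1, hYm h hx.2⟩, fun ν hν z hz => ?_,
    fun ν x hx => ?_⟩
  · have h1 := hz.1 ν le_rfl hν
    have h2 := (hY' ν z).1 hz.2 ν le_rfl hν
    have h3 : #({z} : Set P) < ν := by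
      rw [Cardinal.mk_singleton]; exact Cardinal.one_lt_aleph0.trans_le hν.aleph0_le
    refine sub_lt ?_ (union_lt hν h3 (union_lt hν h1 h2))
    rintro y ⟨h | h, h4, h5⟩
    · rcases h.eq_or_lt with h | h
      · exact Or.inl h.symm
      · exact Or.inr (Or.inr ⟨h, h4⟩)
    · rcases h.eq_or_lt with h | h
      · exact Or.inl h
      · exact Or.inr (Or.inl ⟨h, h5⟩)
  · by_cases hX : x ∈ X ν
    · have hx' : x ∉ Y ν := fun h => hx ⟨hX, h⟩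
      obtain ⟨x', ⟨h1, h2⟩, hmin⟩ := wellFounded_gt.has_min {x' | x ≤ x' ∧ x' ∉ Y ν} ⟨x, le_rfl, hx'⟩
      rw [hY'] at h2
      push Not at h2
      obtain ⟨μ, h3, h4, h5⟩ := h2
      refine ⟨μ, h3, h4, h5.trans (Cardinal.mk_le_mk_of_subset fun y hy =>
        ⟨Or.inl (h1.trans (le_of_lt hy.1)), hy.2, hYm h3 ?_⟩)⟩
      by_contra hn
      exact hmin y ⟨h1.trans (le_of_lt hy.1), hn⟩ hy.1
    · obtain ⟨x', ⟨h1, h2⟩, hmin⟩ := wellFounded_lt.has_min {x' | x' ≤ x ∧ x' ∉ X ν} ⟨x, le_rfl, hX⟩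
      have h2' : ¬ ∀ μ, ν ≤ μ → μ.IsRegular → #(Iio x' ∩ Y μ : Set P) < μ := h2
      push Not at h2'
      obtain ⟨μ, h3, h4, h5⟩ := h2'
      refine ⟨μ, h3, h4, h5.trans (Cardinal.mk_le_mk_of_subset fun y hy =>
        ⟨Or.inr ((le_of_lt hy.1).trans h1), hXm h3 ?_, hy.2⟩)⟩
      by_contra hn
      exact hmin y ⟨(le_of_lt hy.1).trans h1, hn⟩ hy.1

theorem main [WellFoundedLT P] [WellFoundedGT P] [Infinite P] :
    ∃ H : Set P, H.Infinite ∧ IsAntichain (· ≤ ·) H ∧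
      ∀ x : P, (H ∩ Nb x).Subsingleton ∨ (H ∩ Nb x).Infinite := by
  classical
  obtain ⟨Z, hZ, hZ1, hZ2⟩ := exists_Z (P := P)
  let Good : Set P → Prop := fun D => (#D).IsRegular ∧ D ⊆ Z #D
  have hrob : ∀ ν x, x ∉ Z ν → ∃ D, Good D ∧ ν ≤ #D ∧ D ⊆ Nb x := by
    intro ν x hx
    obtain ⟨μ, h1, h2, h3⟩ := hZ2 ν x hx
    obtain ⟨D, h4, rfl⟩ := Cardinal.le_mk_iff_exists_subset.1 h3
    exact ⟨D, ⟨h2, fun y hy => (h4 hy).2⟩, h1, fun y hy => (h4 hy).1⟩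
  obtain ⟨D0, hD0⟩ : ∃ D, Good D := by
    by_cases h : ∃ x, x ∉ Z ℵ₀
    · obtain ⟨x, hx⟩ := h
      obtain ⟨D, hD, -⟩ := hrob _ x hx
      exact ⟨D, hD⟩
    · push Not at h
      obtain ⟨D, -, hD⟩ := Cardinal.le_mk_iff_exists_subset.1
        (show ℵ₀ ≤ #(univ : Set P) by rw [Cardinal.mk_univ]; exact Cardinal.aleph0_le_mk P)
      exact ⟨D, hD ▸ Cardinal.isRegular_aleph0, fun y _ => hD ▸ h y⟩
  have hsp : ∀ (l : Cardinal.{0}) (h : P), ∃ sp : P → Set P, l.IsRegular → h ∈ Z l →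
      (∀ q ∈ Nb h \ Z l, Good (sp q) ∧ l ≤ #(sp q) ∧ sp q ⊆ Nb q) ∧
      ∀ ρ, ρ.IsRegular → l < ρ → #{q | q ∈ Nb h \ Z l ∧ #(sp q) < ρ} < ρ := by
    intro l h
    by_cases hh : l.IsRegular ∧ h ∈ Z l
    swap
    · exact ⟨fun _ => ∅, fun h1 h2 => (hh ⟨h1, h2⟩).elim⟩
    obtain ⟨b, hb1, hb2⟩ := sched Z hZ (max #P l) l (Nb h \ Z l) hh.1 (le_max_right _ _)
      (fun q _ => by
        by_contra hn
        obtain ⟨μ, h1, -, h3⟩ := hZ2 _ q hn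
        exact (Order.lt_succ_of_le (le_max_left #P l)).not_ge
          (h1.trans (h3.trans (Cardinal.mk_set_le _))))
      (fun q hq => hq.2) fun ρ hρ hl =>
        sub_lt (B := Nb h ∩ Z ρ) (fun q hq => ⟨hq.1.1, hq.2⟩) (hZ1 ρ hρ h (hZ hl hh.2))
    have : ∀ q, ∃ D, q ∈ Nb h \ Z l → Good D ∧ b q ≤ #D ∧ D ⊆ Nb q := fun q => by
      by_cases hq : q ∈ Nb h \ Z l
      · obtain ⟨D, hD⟩ := hrob _ q (hb1 q hq).2
        exact ⟨D, fun _ => hD⟩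
      · exact ⟨∅, fun h => (hq h).elim⟩
    choose sp hsp using this
    exact ⟨sp, fun _ _ => ⟨fun q hq => ⟨(hsp q hq).1, (hb1 q hq).1.trans (hsp q hq).2.1,
      (hsp q hq).2.2⟩, fun ρ hρ hl => sub_lt (B := {q | q ∈ Nb h \ Z l ∧ b q < ρ})
        (fun q hq => ⟨hq.1, (hsp q hq.1).2.1.trans_lt hq.2⟩) (hb2 ρ hρ hl)⟩⟩
  choose sp hsp using hsp
  let Sp : Set P → Set (Set P) := fun D => {D' | ∃ h ∈ D, ∃ q ∈ Nb h \ Z #D, sp #D h q = D'}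
  have hSp1 : ∀ D, Good D → ∀ D' ∈ Sp D, Good D' ∧ #D ≤ #D' := by
    rintro D hD _ ⟨h, hh, q, hq, rfl⟩
    have := (hsp _ h hD.1 (hD.2 hh)).1 q hq
    exact ⟨this.1, this.2.1⟩
  have hSp2 : ∀ D, Good D → ∀ ρ, ρ.IsRegular → #D < ρ → #{D' | D' ∈ Sp D ∧ #D' < ρ} < ρ := by
    intro D hD ρ hρ hl
    have h1 : #(⋃ h : D, sp #D h '' {q | q ∈ Nb h.1 \ Z #D ∧ #(sp #D h q) < ρ}) < ρ :=
      (Cardinal.card_iUnion_lt_iff_forall_of_isRegular hρ hl).2 fun h =>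
        Cardinal.mk_image_le.trans_lt ((hsp _ h.1 hD.1 (hD.2 h.2)).2 ρ hρ hl)
    refine sub_lt ?_ h1
    rintro _ ⟨⟨h, hh, q, hq, rfl⟩, h2⟩
    exact mem_iUnion.2 ⟨⟨h, hh⟩, q, ⟨hq, h2⟩, rfl⟩
  let Tn : ℕ → Set (Set P) := fun n => Nat.rec {D0} (fun _ S => ⋃ D ∈ S, Sp D) n
  have hTn : ∀ n, Tn (n + 1) = ⋃ D ∈ Tn n, Sp D := fun _ => rfl
  have hT1 : ∀ n, ∀ D ∈ Tn n, Good D ∧ #D0 ≤ #D := by
    intro n
    induction n with
    | zero =>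
      intro D hD
      have e : D = D0 := hD
      rw [e]; exact ⟨hD0, le_rfl⟩
    | succ n ih =>
      intro D' hD'
      obtain ⟨D, h1, h2⟩ := mem_iUnion₂.1 (hTn n ▸ hD')
      exact ⟨(hSp1 D (ih D h1).1 D' h2).1, (ih D h1).2.trans (hSp1 D (ih D h1).1 D' h2).2⟩
  have hT2 : ∀ ρ, ρ.IsRegular → ∀ n, #{D | D ∈ Tn n ∧ #D < ρ} < ρ := by
    intro ρ hρ n
    induction n with
    | zero =>
      refine sub_lt (B := {D0}) (fun D hD => hD.1) ?_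
      rw [Cardinal.mk_singleton]; exact Cardinal.one_lt_aleph0.trans_le hρ.aleph0_le
    | succ n ih =>
      have h1 : #(⋃ D : {D | D ∈ Tn n ∧ #D < ρ}, {D' | D' ∈ Sp D.1 ∧ #D' < ρ}) < ρ :=
        (Cardinal.card_iUnion_lt_iff_forall_of_isRegular hρ ih).2 fun D =>
          hSp2 D.1 (hT1 n _ D.2.1).1 ρ hρ D.2.2
      refine sub_lt ?_ h1
      rintro D' ⟨h2, h3⟩
      obtain ⟨D, h4, h5⟩ := mem_iUnion₂.1 (hTn n ▸ h2)
      exact mem_iUnion.2 ⟨⟨D, h4, (hSp1 D (hT1 n D h4).1 D' h5).2.trans_lt h3⟩, h5, h3⟩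
  let T : Set (Set P × ℕ) := {t | ∃ n, t.1 ∈ Tn n}
  have hTg : ∀ t ∈ T, Good t.1 := fun t ⟨n, h⟩ => (hT1 n _ h).1
  have hT3 : ∀ ρ, ρ.IsRegular → #{t | t ∈ T ∧ #t.1 < ρ} < ρ := by
    intro ρ hρ
    rcases hρ.aleph0_le.eq_or_lt with h | h
    · exact empty_lt hρ fun t ht => ht.2.not_ge (h ▸ (hTg t ht.1).1.aleph0_le)
    have h0 : #ℕ < ρ := by rwa [Cardinal.mk_nat]
    have h1 : #(⋃ n, ⋃ k : ℕ, (fun D => (D, k)) '' {D | D ∈ Tn n ∧ #D < ρ}) < ρ :=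
      (Cardinal.card_iUnion_lt_iff_forall_of_isRegular hρ h0).2 fun n =>
        (Cardinal.card_iUnion_lt_iff_forall_of_isRegular hρ h0).2 fun k =>
          Cardinal.mk_image_le.trans_lt (hT2 ρ hρ n)
    refine sub_lt ?_ h1
    rintro ⟨D, k⟩ ⟨⟨n, h2⟩, h3⟩
    exact mem_iUnion.2 ⟨n, mem_iUnion.2 ⟨k, D, ⟨h2, h3⟩, rfl⟩⟩
  have hidx : ∀ ν : Cardinal.{0}, ∃ g : Set P × ℕ → Ordinal.{0},
      InjOn g {t | t ∈ T ∧ #t.1 = ν} ∧ ∀ t ∈ {t | t ∈ T ∧ #t.1 = ν}, (g t).card < ν := by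
    intro ν
    refine exists_idx _ ν ?_
    by_cases hν : ℵ₀ ≤ ν
    · exact Order.lt_succ_iff.1 (sub_lt (B := {t | t ∈ T ∧ #t.1 < Order.succ ν})
        (fun t ht => ⟨ht.1, Order.lt_succ_of_le ht.2.le⟩) (hT3 _ (Cardinal.isRegular_succ hν)))
    · rw [Set.eq_empty_of_forall_notMem (s := {t | t ∈ T ∧ #t.1 = ν})
        fun t ht => hν (ht.2 ▸ (hTg t ht.1).1.aleph0_le), Cardinal.mk_emptyCollection]
      exact bot_le
  choose g hg1 hg2 using hidx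
  let r : Set P × ℕ → Set P × ℕ → Prop := fun s t =>
    Prod.Lex (· < ·) (· < ·) (#s.1, g #s.1 s) (#t.1, g #t.1 t)
  have hr : WellFounded r := InvImage.wf (fun s : Set P × ℕ => (#s.1, g #s.1 s))
    (WellFounded.prod_lex wellFounded_lt wellFounded_lt)
  have hr' : ∀ s t, r s t ↔ #s.1 < #t.1 ∨ (#s.1 = #t.1 ∧ g #s.1 s < g #t.1 t) := fun s t =>
    Prod.lex_iff
  have hle : ∀ s t, r s t → #s.1 ≤ #t.1 := fun s t h => by
    rcases (hr' s t).1 h with h | h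
    · exact h.le
    · exact h.1.le
  have htri : ∀ s ∈ T, ∀ t ∈ T, s ≠ t → r s t ∨ r t s := by
    intro s hs t ht hne
    rw [hr', hr']
    rcases lt_trichotomy #s.1 #t.1 with h | h | h
    · exact Or.inl (Or.inl h)
    · rcases lt_trichotomy (g #s.1 s) (g #t.1 t) with h' | h' | h'
      · exact Or.inl (Or.inr ⟨h, h'⟩)
      · rw [h] at h'
        exact (hne (hg1 _ ⟨hs, h⟩ ⟨ht, rfl⟩ h')).elim
      · exact Or.inr (Or.inr ⟨h.symm, h'⟩)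
    · exact Or.inr (Or.inl h)
  have hpred : ∀ t ∈ T, #{s | s ∈ T ∧ r s t} < #t.1 := by
    intro t ht
    have hreg := (hTg t ht).1
    refine sub_lt ?_ (union_lt hreg (hT3 _ hreg)
      ((count_le (hg1 #t.1) (g #t.1 t)).trans_lt (hg2 _ t ⟨ht, rfl⟩)))
    rintro s ⟨h1, h2⟩
    rcases (hr' s t).1 h2 with h | h
    · exact Or.inl ⟨h1, h⟩
    · exact Or.inr ⟨⟨h1, h.1⟩, h.1 ▸ h.2⟩
  let Forb : Cardinal.{0} → P → Set P := fun ν h => ⋃ y : (Nb h ∩ Z ν : Set P), Nb y.1 ∩ Z ν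
  have hForb : ∀ ν, ν.IsRegular → ∀ h ∈ Z ν, #(Forb ν h) < ν := fun ν hν h hh =>
    (Cardinal.card_iUnion_lt_iff_forall_of_isRegular hν (hZ1 ν hν h hh)).2 fun y =>
      hZ1 ν hν y.1 y.2.2
  let pick : Set P → P := fun s => if h : s.Nonempty then h.choose else Classical.arbitrary P
  have hpick : ∀ s : Set P, s.Nonempty → pick s ∈ s := fun s h => by
    simp only [pick, dif_pos h]; exact h.choose_spec
  let f : Set P × ℕ → P := hr.fix fun t ih =>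
    pick {c | c ∈ t.1 ∧ ∀ s (h : r s t), s ∈ T → c ∉ Forb #t.1 (ih s h)}
  have hf : ∀ t, f t = pick {c | c ∈ t.1 ∧ ∀ s, r s t → s ∈ T → c ∉ Forb #t.1 (f s)} :=
    fun t => hr.fix_eq _ t
  have hmain : ∀ t, t ∈ T → f t ∈ t.1 ∧ ∀ s, r s t → s ∈ T → f t ∉ Forb #t.1 (f s) := by
    intro t
    induction t using hr.induction with
    | _ t ih =>
    intro ht
    have hreg := (hTg t ht).1
    have h1 : #(⋃ s : {s | s ∈ T ∧ r s t}, Forb #t.1 (f s.1)) < #t.1 :=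
      (Cardinal.card_iUnion_lt_iff_forall_of_isRegular hreg (hpred t ht)).2 fun s =>
        hForb _ hreg _ (hZ (hle _ _ s.2.2) ((hTg _ s.2.1).2 (ih s.1 s.2.2 s.2.1).1))
    have h2 : {c | c ∈ t.1 ∧ ∀ s, r s t → s ∈ T → c ∉ Forb #t.1 (f s)}.Nonempty := by
      by_contra hn
      refine lt_irrefl _ (sub_lt (fun c hc => ?_) h1)
      by_contra hc'
      exact hn ⟨c, hc, fun s h1 h2 h3 => hc' (mem_iUnion.2 ⟨⟨s, h2, h1⟩, h3⟩)⟩
    have := hpick _ h2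
    rwa [← hf] at this
  have hsep : ∀ s ∈ T, ∀ t ∈ T, r s t → ∀ x, f s ∈ Nb x → f t ∈ Nb x → x ∉ Z #t.1 :=
    fun s hs t ht h x h1 h2 h3 => (hmain t ht).2 s h hs
      (mem_iUnion.2 ⟨⟨x, nb_symm h1, h3⟩, h2, (hTg t ht).2 (hmain t ht).1⟩)
  have hinc : ∀ s ∈ T, ∀ t ∈ T, s ≠ t → ¬ f s ≤ f t := by
    intro s hs t ht hne hle'
    rcases htri s hs t ht hne with h | h
    · exact hsep s hs t ht h (f t) (Or.inr hle') (Or.inl le_rfl) ((hTg t ht).2 (hmain t ht).1)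
    · exact hsep t ht s hs h (f s) (Or.inl hle') (Or.inl le_rfl) ((hTg s hs).2 (hmain s hs).1)
  have hinf : ∀ n, ∀ D ∈ Tn n, (f '' T ∩ D).Infinite := by
    intro n D hD
    refine Set.infinite_of_injective_forall_mem (f := fun k : ℕ => f (D, k)) (fun k l e => ?_)
      fun k => ⟨⟨(D, k), ⟨n, hD⟩, rfl⟩, (hmain (D, k) ⟨n, hD⟩).1⟩
    by_contra hne
    exact hinc (D, k) ⟨n, hD⟩ (D, l) ⟨n, hD⟩ (fun h => hne (congrArg Prod.snd h)) (le_of_eq e)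
  refine ⟨f '' T, (hinf 0 D0 rfl).mono inter_subset_left, ?_, fun x => ?_⟩
  · rintro _ ⟨s, hs, rfl⟩ _ ⟨t, ht, rfl⟩ hne
    exact hinc s hs t ht fun e => hne (by rw [e])
  · have key : ∀ s ∈ T, ∀ t ∈ T, r s t → f s ∈ Nb x → f t ∈ Nb x → (f '' T ∩ Nb x).Infinite := by
      intro s hs t ht h h1 h2
      have h3 : x ∉ Z #s.1 := fun h' => hsep s hs t ht h x h1 h2 (hZ (hle s t h) h')
      obtain ⟨n, hn⟩ := hs
      have hs : s ∈ T := ⟨n, hn⟩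
      have h4 : sp #s.1 (f s) x ∈ Tn (n + 1) :=
        mem_iUnion₂.2 ⟨s.1, hn, f s, (hmain s hs).1, x, ⟨nb_symm h1, h3⟩, rfl⟩
      exact (hinf (n + 1) _ h4).mono (inter_subset_inter_right _
        ((hsp _ _ (hTg s hs).1 ((hTg s hs).2 (hmain s hs).1)).1 x ⟨nb_symm h1, h3⟩).2.2)
    by_contra hn
    push Not at hn
    obtain ⟨_, ⟨⟨s, hs, rfl⟩, h1⟩, _, ⟨⟨t, ht, rfl⟩, h2⟩, hne⟩ := hn.1
    rcases htri s hs t ht (fun e => hne (by rw [e])) with h | h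
    · exact key s hs t ht h h1 h2 hn.2
    · exact key t ht s hs h h2 h1 hn.2

lemma wf_of_bound {α : Type} [PartialOrder α]
    (h : ∃ n : ℕ, ∀ s : Set α, IsChain (· ≤ ·) s → s.encard ≤ (n : ℕ∞)) :
    WellFoundedLT α ∧ WellFoundedGT α := by
  obtain ⟨n, hn⟩ := h
  have key : ∀ f : ℕ → α, Function.Injective f → IsChain (· ≤ ·) (range f) → False := by
    intro f hf hc
    have := hn _ hc
    rw [(Set.infinite_range_of_injective hf).encard_eq] at this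
    simp at this
  constructor
  · refine ⟨RelEmbedding.wellFounded_iff_isEmpty.2 ⟨fun f => key f f.injective ?_⟩⟩
    rintro _ ⟨i, rfl⟩ _ ⟨j, rfl⟩ hne
    rcases lt_trichotomy i j with h | h | h
    · exact Or.inr (le_of_lt (f.map_rel_iff.2 h))
    · exact (hne (by rw [h])).elim
    · exact Or.inl (le_of_lt (f.map_rel_iff.2 h))
  · refine ⟨RelEmbedding.wellFounded_iff_isEmpty.2 ⟨fun f => key f f.injective ?_⟩⟩
    rintro _ ⟨i, rfl⟩ _ ⟨j, rfl⟩ hne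
    rcases lt_trichotomy i j with h | h | h
    · exact Or.inl (le_of_lt (f.map_rel_iff.2 h))
    · exact (hne (by rw [h])).elim
    · exact Or.inr (le_of_lt (f.map_rel_iff.2 h))

end Pool.Agent.H26.SandsRival
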