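import Mathlib

set_option autoImplicit false

namespace Pool.Agent.H26.Scv

open Pointwise

theorem exists_norm {W : Type} [AddCommGroup W] [Module ℝ W] (β : W →ₗ[ℝ] W →ₗ[ℝ] ℝ)
    (hs : ∀ x y, β x y = β y x) (hp : ∀ x, x ≠ 0 → 0 < β x x) {I : Type} [Nonempty I]
    (ψ : I → W →ₗ[ℝ] ℝ) (κ : I → ℝ) (hκ0 : ∀ i, 0 ≤ κ i) (hκ : ∀ i, κ i ≤ 1 / 2)
    (hsym : ∀ i, ∃ j, (∀ x, ψ j x = -ψ i x) ∧ κ j = κ i)
    (hb : ∀ x, ∃ K, ∀ i, |ψ i x| ≤ K) :
    ∃ N : Seminorm ℝ W, (∀ x, N x = 0 → x = 0) ∧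
      (∀ x y, N x = 1 → N y = 1 → x ≠ y → N (x + y) ≠ 2) ∧
      ∀ y, (∀ i, β y y + ψ i y + κ i ≤ 1) → (∃ i, β y y + ψ i y + κ i = 1) → N y = 1 := by
  set B : Set W := {x | ∀ i, β x x + ψ i x + κ i ≤ 1} with hB
  have hnn : ∀ x, 0 ≤ β x x := by
    intro x
    by_cases h : x = 0
    · simp [h]
    · exact (hp x h).le
  have hsm : ∀ (a : ℝ) x, β (a • x) (a • x) = a ^ 2 * β x x := by
    intro a x
    simp only [map_smul, LinearMap.smul_apply, smul_eq_mul]; ring
  have hcomb : ∀ (a b : ℝ) x y, a + b = 1 → β (a • x + b • y) (a • x + b • y) =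
      a * β x x + b * β y y - a * b * β (x - y) (x - y) := by
    intro a b x y hab
    have hb' : b = 1 - a := by linarith
    subst hb'
    simp only [map_smul, map_add, map_sub, LinearMap.smul_apply, LinearMap.add_apply,
      LinearMap.sub_apply, smul_eq_mul]
    rw [hs y x]; ring
  have hconv : Convex ℝ B := by
    intro x hx y hy a b ha hb hab i
    rw [hcomb a b x y hab]
    simp only [map_add, map_smul, smul_eq_mul]
    have h1 := mul_le_mul_of_nonneg_left (hx i) ha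
    have h2 := mul_le_mul_of_nonneg_left (hy i) hb
    have h3 := mul_nonneg (mul_nonneg ha hb) (hnn (x - y))
    have h4 : κ i = a * κ i + b * κ i := by rw [← add_mul, hab, one_mul]
    nlinarith
  have hle1 : ∀ x ∈ B, β x x ≤ 1 := by
    intro x hx
    obtain ⟨i⟩ := (inferInstance : Nonempty I)
    obtain ⟨j, hj, hκj⟩ := hsym i
    have h1 := hx i
    have h2 := hx j
    rw [hj, hκj] at h2
    have := hκ0 i
    linarith
  have hbal : Balanced ℝ B := by
    rw [balanced_iff_smul_mem]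
    intro a ha x hx i
    rw [hsm, map_smul, smul_eq_mul]
    rw [Real.norm_eq_abs, abs_le] at ha
    have h0 := hnn x
    have h5 := hκ i
    rcases le_total 0 a with h | h
    · have h1 := mul_le_mul_of_nonneg_left (hx i) h
      have h2 : a ^ 2 * β x x ≤ a * β x x := by
        apply mul_le_mul_of_nonneg_right _ h0; nlinarith
      nlinarith
    · obtain ⟨j, hj, hκj⟩ := hsym i
      have h2 := hx j
      rw [hj, hκj] at h2
      have h1 := mul_le_mul_of_nonneg_left h2 (neg_nonneg.2 h)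
      have h2 : a ^ 2 * β x x ≤ -a * β x x := by
        apply mul_le_mul_of_nonneg_right _ h0; nlinarith
      nlinarith
  have habs : Absorbent ℝ B := by
    intro x
    obtain ⟨K, hK⟩ := hb x
    rw [absorbs_iff_norm]
    refine ⟨max 1 (2 * (β x x + |K|)), fun c hc => ?_⟩
    have hc1 : 1 ≤ ‖c‖ := le_trans (le_max_left _ _) hc
    have hc2 : 2 * (β x x + |K|) ≤ ‖c‖ := le_trans (le_max_right _ _) hc
    have hc0 : c ≠ 0 := by
      intro h; rw [h, norm_zero] at hc1; linarith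
    rw [Set.singleton_subset_iff, Set.mem_smul_set_iff_inv_smul_mem₀ hc0]
    intro i
    rw [hsm, map_smul, smul_eq_mul]
    rw [Real.norm_eq_abs] at hc1 hc2
    have hpos : 0 < |c| := by linarith
    have e1 : c⁻¹ ^ 2 ≤ |c|⁻¹ := by
      rw [← sq_abs, abs_inv, sq]
      have : |c|⁻¹ ≤ 1 := inv_le_one_of_one_le₀ hc1
      have h0 : 0 ≤ |c|⁻¹ := by positivity
      nlinarith
    have e2 : c⁻¹ * ψ i x ≤ |c|⁻¹ * |K| := by
      calc c⁻¹ * ψ i x ≤ |c⁻¹ * ψ i x| := le_abs_self _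
        _ = |c|⁻¹ * |ψ i x| := by rw [abs_mul, abs_inv]
        _ ≤ |c|⁻¹ * |K| := by
          apply mul_le_mul_of_nonneg_left ((hK i).trans (le_abs_self _)); positivity
    have e3 : |c|⁻¹ * (β x x + |K|) ≤ 1 / 2 := by
      rw [inv_mul_le_iff₀ hpos]; linarith
    have e4 := mul_le_mul_of_nonneg_right e1 (hnn x)
    have := hκ i
    nlinarith
  have hN : ∀ x, gaugeSeminorm hbal hconv habs x = gauge B x := fun _ => rfl
  have hlt : ∀ x (a : ℝ), gauge B x < a → ∃ b : ℝ, 0 < b ∧ b < a ∧ b⁻¹ • x ∈ B := by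
    intro x a h
    obtain ⟨b, hb0, hba, hx⟩ := exists_lt_of_gauge_lt habs h
    exact ⟨b, hb0, hba, (Set.mem_smul_set_iff_inv_smul_mem₀ hb0.ne' _ _).1 hx⟩
  refine ⟨gaugeSeminorm hbal hconv habs, ?_, ?_, ?_⟩
  · intro x hx
    by_contra hne
    have h0 := hp x hne
    rw [hN] at hx
    have hm : 0 < min 1 (β x x) := lt_min one_pos h0
    obtain ⟨b, hb0, hba, hxb⟩ := hlt x (min 1 (β x x)) (by rw [hx]; exact hm)
    have h1 := hle1 _ hxb
    rw [hsm, inv_pow, inv_mul_le_iff₀ (by positivity)] at h1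
    have h2 : b < 1 := lt_of_lt_of_le hba (min_le_left _ _)
    have h3 : b < β x x := lt_of_lt_of_le hba (min_le_right _ _)
    nlinarith
  · intro x y hx hy hne hxy
    rw [hN] at hx hy hxy
    have h0 := hp (x - y) (sub_ne_zero.2 hne)
    set μ := min 1 (β (x - y) (x - y) / 64) with hμ
    have hμ0 : 0 < μ := lt_min one_pos (by positivity)
    have hμ1 : μ ≤ 1 := min_le_left _ _
    have hμ2 : μ ≤ β (x - y) (x - y) / 64 := min_le_right _ _
    set b : ℝ := 1 + μ / 2 with hbdef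
    have hb0 : 0 < b := by positivity
    have hmem : ∀ z, gauge B z = 1 → b⁻¹ • z ∈ B := by
      intro z hz
      obtain ⟨b', hb'0, hb'a, hzb⟩ := hlt z b (by rw [hz, hbdef]; linarith)
      have : b⁻¹ • z = (b' / b) • (b'⁻¹ • z) := by
        rw [smul_smul]; congr 1; field_simp
      rw [this]
      apply balanced_iff_smul_mem.1 hbal _ hzb
      rw [Real.norm_eq_abs, abs_of_pos (by positivity), div_le_one hb0]; exact hb'a.le
    have hx' := hmem x hx
    have hy' := hmem y hy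
    set m : W := (1 / 2 : ℝ) • (b⁻¹ • x) + (1 / 2 : ℝ) • (b⁻¹ • y) with hm
    have hmB : m ∈ B := hconv hx' hy' (by norm_num) (by norm_num) (by norm_num)
    have hbig : (1 + μ) • m ∈ B := by
      intro i
      have e1 := hcomb (1 / 2) (1 / 2) (b⁻¹ • x) (b⁻¹ • y) (by norm_num)
      rw [← hm, ← smul_sub, hsm b⁻¹ (x - y)] at e1
      have e2 : ψ i m = 1 / 2 * ψ i (b⁻¹ • x) + 1 / 2 * ψ i (b⁻¹ • y) := by
        rw [hm, map_add, map_smul (ψ i) (1 / 2 : ℝ), map_smul (ψ i) (1 / 2 : ℝ)]; rfl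
      have e3 : 1 / 4 ≤ b⁻¹ ^ 2 := by
        rw [inv_pow, ← one_div]
        apply one_div_le_one_div_of_le (by positivity)
        nlinarith
      have e4 := mul_le_mul_of_nonneg_right e3 h0.le
      have e5 := hx' i
      have e6 := hy' i
      have e7 : β m m + ψ i m + κ i ≤ 1 - 4 * μ := by linarith
      have e8 := hle1 m hmB
      have e9 := hnn m
      have e10 := hκ0 i
      rw [hsm, map_smul, smul_eq_mul]
      have e11 : ψ i m ≤ 1 := by linarith
      have e12 := mul_le_mul_of_nonneg_left e11 hμ0.le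
      have e13 : (2 * μ + μ ^ 2) * β m m ≤ (2 * μ + μ ^ 2) * 1 :=
        mul_le_mul_of_nonneg_left e8 (by positivity)
      nlinarith
    have hg := gauge_le_one_of_mem hbig
    have e : (1 + μ) • m = ((1 + μ) / (2 * b)) • (x + y) := by
      rw [hm, smul_add, smul_add, smul_smul, smul_smul, smul_smul, smul_smul]
      congr 2 <;> field_simp
    rw [e, gauge_smul_of_nonneg (by positivity), hxy, smul_eq_mul] at hg
    have : (1 + μ) / (2 * b) * 2 = (1 + μ) / b := by field_simp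
    rw [this, div_le_one hb0] at hg
    linarith
  · rintro y hy ⟨i, hi⟩
    rw [hN]
    apply le_antisymm (gauge_le_one_of_mem (show y ∈ B from hy))
    by_contra hlt1
    obtain ⟨b, hb0, hb1, hyb⟩ := hlt y 1 (not_le.1 hlt1)
    have h1 := hyb i
    rw [hsm, map_smul, smul_eq_mul] at h1
    have h2 : 1 < b⁻¹ := one_lt_inv_iff₀.2 ⟨hb0, hb1⟩
    have h3 := hnn y
    have h4 := hκ i
    have h5 : ψ i y = 1 - κ i - β y y := by linarith
    rw [h5] at h1
    have h6 : 0 ≤ b⁻¹ * (b⁻¹ - 1) * β y y := by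
      apply mul_nonneg (mul_nonneg _ _) h3 <;> linarith
    nlinarith

end Pool.Agent.H26.Scv
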