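import Mathlib

set_option autoImplicit false

namespace Pool.Agent.H26.Scv

noncomputable def t : ℕ → ℝ
  | 0 => 1 / 1000
  | k + 1 => t k ^ 20 / ((k : ℝ) + 2) ^ 4

def s (k : ℕ) : ℝ := (k : ℝ) + 1

noncomputable def r (k : ℕ) : ℝ := t k ^ 9

theorem tpos (k : ℕ) : 0 < t k := by
  induction k with
  | zero => simp [t]
  | succ k ih => simp only [t]; positivity

theorem one_le_s (k : ℕ) : 1 ≤ s k := by
  simp [s]

theorem s_mono {a b : ℕ} (h : a ≤ b) : s a ≤ s b := by
  simp only [s]; have : (a : ℝ) ≤ b := by exact_mod_cast h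
  linarith

theorem s_lt {a b : ℕ} (h : a < b) : s a + 1 ≤ s b := by
  simp only [s]; have : ((a + 1 : ℕ) : ℝ) ≤ b := by exact_mod_cast h
  push_cast at this; linarith

theorem s_sq {a b : ℕ} (h : a ≠ b) : 1 ≤ (s a - s b) ^ 2 := by
  rcases lt_or_gt_of_ne h with h | h
  · have := s_lt h; nlinarith
  · have := s_lt h; nlinarith

theorem t_succ (k : ℕ) : s (k + 1) ^ 4 * t (k + 1) = t k ^ 20 := by
  have : s (k + 1) = (k : ℝ) + 2 := by simp only [s]; push_cast; ring
  rw [this]; simp only [t]; field_simp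

theorem tle (k : ℕ) : t k ≤ 1 / 1000 := by
  induction k with
  | zero => simp [t]
  | succ k ih =>
    have h1 := t_succ k
    have h2 : t k ^ 20 ≤ t k := by
      have := pow_le_pow_of_le_one (tpos k).le (by linarith) (show 1 ≤ 20 by norm_num)
      simpa using this
    have h3 : 1 ≤ s (k + 1) ^ 4 := one_le_pow₀ (one_le_s _)
    have h4 := tpos (k + 1)
    nlinarith

theorem pw (k : ℕ) {a b : ℕ} (h : a ≤ b) : t k ^ b ≤ t k ^ a :=
  pow_le_pow_of_le_one (tpos k).le (by linarith [tle k]) h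

theorem pw1 (k : ℕ) {a b : ℕ} (h : a < b) : t k ^ b ≤ t k ^ a / 1000 := by
  have h1 := pw k (show a + 1 ≤ b from h)
  have h2 : t k ^ (a + 1) = t k ^ a * t k := pow_succ _ _
  have h3 := mul_le_mul_of_nonneg_left (tle k) (pow_pos (tpos k) a).le
  linarith

theorem t_anti_succ (k : ℕ) : t (k + 1) ≤ t k := by
  have h1 := t_succ k
  have h2 := pw k (show 1 ≤ 20 by norm_num)
  have h3 : 1 ≤ s (k + 1) ^ 4 := one_le_pow₀ (one_le_s _)
  have h4 := tpos (k + 1)
  rw [pow_one] at h2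
  nlinarith

theorem t_anti {a b : ℕ} (h : a ≤ b) : t b ≤ t a :=
  antitone_nat_of_succ_le t_anti_succ h

theorem P3 {k j : ℕ} (h : k < j) : s j ^ 4 * t j ≤ t k ^ 20 := by
  obtain ⟨i, rfl⟩ : ∃ i, j = i + 1 := ⟨j - 1, by omega⟩
  rw [t_succ]
  exact pow_le_pow_left₀ (tpos _).le (t_anti (by omega)) _

theorem P2 (k : ℕ) : s k ^ 4 * t k ≤ 1 / 1000 := by
  rcases k with _ | k
  · simp [s, t]
  · rw [t_succ]
    have := pw k (show 1 ≤ 20 by norm_num)
    rw [pow_one] at this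
    linarith [tle k]

theorem s_pw {n k : ℕ} (h : n ≤ k) {a : ℕ} (ha : a ≤ 4) : s n ^ a ≤ s k ^ 4 :=
  (pow_le_pow_left₀ (by linarith [one_le_s n]) (s_mono h) a).trans
    (pow_le_pow_right₀ (one_le_s k) ha)

theorem sm2 {n k : ℕ} (h : n ≤ k) : t k * s n ^ 2 ≤ 1 / 1000 := by
  have := mul_le_mul_of_nonneg_left (s_pw h (show 2 ≤ 4 by norm_num)) (tpos k).le
  linarith [P2 k]

theorem sm1 {n k : ℕ} (h : n ≤ k) : t k * s n ≤ 1 / 1000 := by
  have := mul_le_mul_of_nonneg_left (s_pw h (show 1 ≤ 4 by norm_num)) (tpos k).le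
  rw [pow_one] at this
  linarith [P2 k]

theorem sm3 {n k q : ℕ} (h : n ≤ k) (hq : q < k) : t k * s n ^ 2 ≤ t q ^ 20 := by
  have := mul_le_mul_of_nonneg_left (s_pw h (show 2 ≤ 4 by norm_num)) (tpos k).le
  linarith [P3 hq]

theorem sm4 {n k q : ℕ} (h : n ≤ k) (hq : q < k) : t k * s n ≤ t q ^ 20 := by
  have := mul_le_mul_of_nonneg_left (s_pw h (show 1 ≤ 4 by norm_num)) (tpos k).le
  rw [pow_one] at this
  linarith [P3 hq]

theorem sm5 {k q : ℕ} (hq : q < k) : t k ≤ t q ^ 20 := by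
  have := sm4 (Nat.zero_le k) hq
  simpa [s] using this

theorem rpos (k : ℕ) : 0 < r k := pow_pos (tpos k) _

theorem r_le {k j : ℕ} (h : k < j) : r j ≤ r k * t k ^ 11 := by
  have h1 := pw j (show 1 ≤ 9 by norm_num)
  have h2 := sm5 h
  rw [pow_one] at h1
  have : r k * t k ^ 11 = t k ^ 20 := by simp only [r]; ring
  rw [this]; simp only [r]; linarith

theorem r_le' {k j : ℕ} (h : k < j) {a : ℕ} (ha : a < 11) : r j ≤ r k * t k ^ a / 1000 := by
  have h1 := r_le h
  have h2 := mul_le_mul_of_nonneg_left (pw1 k ha) (rpos k).le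
  linarith

theorem t_le_r {k j : ℕ} (h : k < j) : t j ≤ r k :=
  (sm5 h).trans (pw k (by norm_num))

abbrev X := Fin 6 → ℝ

noncomputable def sg (n k : ℕ) : X :=
  ![r k, r k * t k ^ 2, r k * (t k ^ 4 * s n), r k * (t k ^ 4 * s n ^ 2),
    r k * (t k ^ 6 * s n), r k * (t k ^ 6 * s n ^ 2)]

def dot (y x : X) : ℝ := ∑ u, y u * x u

theorem dot_sg (a b c d e f : ℝ) (n k : ℕ) :
    dot ![a, b, c, d, e, f] (sg n k) = r k * (a + t k ^ 2 * b +
      t k ^ 4 * (c * s n + d * s n ^ 2) + t k ^ 6 * (e * s n + f * s n ^ 2)) := by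
  simp [dot, sg, Fin.sum_univ_six]; ring

theorem dot_le {y x : X} {a b : ℝ} (hy : ∀ u, |y u| ≤ a) (hx : ∀ u, |x u| ≤ b) :
    |dot y x| ≤ 6 * (a * b) := by
  have h : ∀ u, |y u * x u| ≤ a * b := fun u => by
    rw [abs_mul]
    exact mul_le_mul (hy u) (hx u) (abs_nonneg _) ((abs_nonneg _).trans (hy u))
  calc |dot y x| ≤ ∑ u, |y u * x u| := Finset.abs_sum_le_sum_abs _ _
    _ ≤ ∑ _u : Fin 6, a * b := Finset.sum_le_sum fun u _ => h u
    _ = 6 * (a * b) := by simp

theorem ts4 {n k : ℕ} (h : n ≤ k) : t k ^ 4 * s n ^ 2 ≤ t k ^ 3 / 1000 := by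
  have h1 := mul_le_mul_of_nonneg_left (sm2 h) (pow_pos (tpos k) 3).le
  have : t k ^ 4 * s n ^ 2 = t k ^ 3 * (t k * s n ^ 2) := by ring
  linarith

theorem sg_tail {n k : ℕ} (h : n ≤ k) (u : Fin 6) (hu : 2 ≤ u.val) :
    |sg n k u| ≤ r k * (t k ^ 4 * s n ^ 2) := by
  have h0 := tpos k
  have h1 := one_le_s n
  have hr := rpos k
  have e1 : s n ≤ s n ^ 2 := by nlinarith
  have e2 : t k ^ 6 ≤ t k ^ 4 := pw k (by norm_num)
  have e3 : 0 < t k ^ 6 := by positivity
  have e4 : 0 < t k ^ 4 := by positivity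
  fin_cases u
  · simp at hu
  · simp at hu
  all_goals
    simp only [sg]
    simp only [Fin.reduceFinMk, Matrix.cons_val]
    refine (abs_of_nonneg (by positivity)).le.trans ?_
    apply mul_le_mul_of_nonneg_left _ hr.le
    nlinarith

theorem sg_le {n k : ℕ} (h : n ≤ k) (u : Fin 6) : |sg n k u| ≤ r k := by
  have hr := rpos k
  by_cases hu : 2 ≤ u.val
  · have h1 := sg_tail h u hu
    have h2 := ts4 h
    have h3 := pw k (show 0 ≤ 3 by norm_num)
    rw [pow_zero] at h3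
    have : r k * (t k ^ 4 * s n ^ 2) ≤ r k * 1 := mul_le_mul_of_nonneg_left (by linarith) hr.le
    linarith
  · have h3 := pw k (show 0 ≤ 2 by norm_num)
    rw [pow_zero] at h3
    have h0 := tpos k
    fin_cases u
    · simp [sg, abs_of_pos hr]
    · simp only [sg]
      simp only [Fin.reduceFinMk, Matrix.cons_val]
      rw [abs_of_nonneg (by positivity)]
      nlinarith
    all_goals simp at hu

/-- From four sign facts to the slack form. -/
theorem phi1_of_signs {i j p p' : ℕ} (y : X)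
    (hy : ∀ u, |y u| ≤ 1 / 100)
    (U1 : r p * (t p ^ 7 / 4) ≤ dot y (sg i p))
    (U2 : ∀ q, i < q → q < p → dot y (sg i q) ≤ -(r q * (t q ^ 7 / 8)))
    (L1 : dot y (sg j p') ≤ -(r p' * (t p' ^ 7 / 4)))
    (L2 : ∀ q, j < q → q < p' → r q * (t q ^ 7 / 8) ≤ dot y (sg j q)) :
    (∀ q, i < q → q ≠ p → r (min p q) * (t (min p q) ^ 7 / 8) ≤ dot y (sg i p) - dot y (sg i q)) ∧
    (∀ q, j < q → q ≠ p' →
      r (min p' q) * (t (min p' q) ^ 7 / 8) ≤ dot y (sg j q) - dot y (sg j p')) := by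
  have hb : ∀ n q, n ≤ q → |dot y (sg n q)| ≤ r q := by
    intro n q h
    have := dot_le hy (sg_le h)
    linarith [rpos q]
  constructor
  · intro q hq hne
    rcases lt_or_gt_of_ne hne with h | h
    · rw [min_eq_right h.le]
      have h1 := U2 q hq h
      have h2 : 0 ≤ r p * (t p ^ 7 / 4) := by have := rpos p; have := tpos p; positivity
      linarith
    · rw [min_eq_left h.le]
      have h1 := (abs_le.1 (hb i q hq.le)).2
      have h2 := r_le' h (show 7 < 11 by norm_num)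
      have h3 : 0 ≤ r p * t p ^ 7 := by have := rpos p; have := tpos p; positivity
      linarith
  · intro q hq hne
    rcases lt_or_gt_of_ne hne with h | h
    · rw [min_eq_right h.le]
      have h1 := L2 q hq h
      have h2 : 0 ≤ r p' * (t p' ^ 7 / 4) := by have := rpos p'; have := tpos p'; positivity
      linarith
    · rw [min_eq_left h.le]
      have h1 := (abs_le.1 (hb j q hq.le)).1
      have h2 := r_le' h (show 7 < 11 by norm_num)
      have h3 : 0 ≤ r p' * t p' ^ 7 := by have := rpos p'; have := tpos p'; positivity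
      linarith

end Pool.Agent.H26.Scv
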