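import Pool.Agent.H26.ScvB

set_option autoImplicit false

namespace Pool.Agent.H26.Scv

theorem HU {i q : ℕ} (h : i < q) :
    t q ^ 6 * (-(t i * (s i + 1 / 2)) * s i + t i * s i ^ 2) ≤ -(t q ^ 7 / 2) ∧
    -(t q ^ 6 / 2000) ≤ t q ^ 6 * (-(t i * (s i + 1 / 2)) * s i + t i * s i ^ 2) := by
  have e : t q ^ 6 * (-(t i * (s i + 1 / 2)) * s i + t i * s i ^ 2) =
      -(t q ^ 6 * (t i * s i) / 2) := by ring
  have h0 : 0 < t q ^ 6 := pow_pos (tpos q) _
  have h1 : t q ≤ t i * s i := by
    have := t_anti h.le; have := one_le_s i; have := tpos i; nlinarith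
  have h2 := mul_le_mul_of_nonneg_left h1 h0.le
  have h3 := mul_le_mul_of_nonneg_left (sm1 (le_refl i)) h0.le
  have h4 : t q ^ 7 = t q ^ 6 * t q := by ring
  rw [e]; constructor <;> linarith

theorem xi_bd {i j : ℕ} (h : i < j) :
    1 / 2 ≤ -(s i + 1 / 2) * s j + s j ^ 2 ∧ -(s i + 1 / 2) * s j + s j ^ 2 ≤ s j ^ 2 := by
  have h1 := s_lt h
  have h2 := one_le_s i
  constructor <;> nlinarith

theorem HL {i j q : ℕ} (hij : i < j) (h : j < q) :
    t q ^ 7 / 2 ≤ t q ^ 6 * (-(t i * (s i + 1 / 2)) * s j + t i * s j ^ 2) ∧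
    t q ^ 6 * (-(t i * (s i + 1 / 2)) * s j + t i * s j ^ 2) ≤ t q ^ 5 / 1000 := by
  obtain ⟨x1, x2⟩ := xi_bd hij
  set ξ := -(s i + 1 / 2) * s j + s j ^ 2 with hξ
  have e : t q ^ 6 * (-(t i * (s i + 1 / 2)) * s j + t i * s j ^ 2) = t q ^ 6 * (t i * ξ) := by
    rw [hξ]; ring
  have h0 : 0 < t q ^ 6 := pow_pos (tpos q) _
  have h5 : 0 < t q ^ 5 := pow_pos (tpos q) _
  have hi := tpos i
  have hi1 := tle i
  have h1 : t q / 2 ≤ t i * ξ := by
    have := t_anti (hij.trans h).le; nlinarith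
  have h2 := mul_le_mul_of_nonneg_left h1 h0.le
  have h4 : t q ^ 7 = t q ^ 6 * t q := by ring
  have h6 : t i * ξ ≤ s j ^ 2 := by nlinarith
  have h7 := mul_le_mul_of_nonneg_left h6 h0.le
  have h8 := mul_le_mul_of_nonneg_left (sm2 h.le) h5.le
  have h9 : t q ^ 6 * s j ^ 2 = t q ^ 5 * (t q * s j ^ 2) := by ring
  rw [e]; constructor <;> linarith

theorem mulr {q : ℕ} {a b : ℝ} (h : a ≤ b) : r q * a ≤ r q * b :=
  mul_le_mul_of_nonneg_left h (rpos q).le

theorem mulr' {q : ℕ} {a b : ℝ} (h : a ≤ -b) : r q * a ≤ -(r q * b) := by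
  have := mul_le_mul_of_nonneg_left h (rpos q).le
  linarith

theorem big_small {q p n : ℕ} (h : q < p) (hn : n ≤ p) :
    t q ^ 4 * (t p * s n) ≤ t q ^ 7 / 1000 ∧ t q ^ 4 * (t p * s n ^ 2) ≤ t q ^ 7 / 1000 ∧
      t p ≤ t q ^ 7 / 1000 := by
  have h1 := sm4 hn h
  have h2 := sm3 hn h
  have h3 := sm5 h
  have h4 := pw1 q (show 7 < 20 by norm_num)
  have h5 := pw q (show 0 ≤ 4 by norm_num)
  rw [pow_zero] at h5
  have h6 : 0 ≤ t p * s n := by have := tpos p; have := one_le_s n; positivity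
  have h7 : 0 ≤ t p * s n ^ 2 := by have := tpos p; have := one_le_s n; positivity
  refine ⟨?_, ?_, by linarith⟩ <;> nlinarith

theorem abs_vec {a c d : ℝ} {i : ℕ} (ha : |a| ≤ 1 / 100) (hc : |c| ≤ 1 / 100)
    (hd : |d| ≤ 1 / 100) (u : Fin 6) :
    |(![a, 0, c, d, -(t i * (s i + 1 / 2)), t i] : X) u| ≤ 1 / 100 := by
  have h1 := sm1 (le_refl i)
  have h2 := tle i
  have h3 := tpos i
  have h4 := one_le_s i
  fin_cases u
  · simpa using ha
  · simp
  · simpa using hc
  · simpa using hd
  · simp only [Fin.reduceFinMk, Matrix.cons_val]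
    rw [abs_neg, abs_of_nonneg (by positivity)]; nlinarith
  · simp only [Fin.reduceFinMk, Matrix.cons_val]
    rw [abs_of_pos h3]; linarith

theorem abs_t (k : ℕ) : |t k| ≤ 1 / 100 := by
  rw [abs_of_pos (tpos k)]; linarith [tle k]

theorem exists_phi1 {i j p p' : ℕ} (hij : i < j) (hip : i < p) (hjp : j < p') :
    ∃ y : X, (∀ u, |y u| ≤ 1 / 100) ∧
    (∀ q, i < q → q ≠ p → r (min p q) * (t (min p q) ^ 7 / 8) ≤ dot y (sg i p) - dot y (sg i q)) ∧
    (∀ q, j < q → q ≠ p' →
      r (min p' q) * (t (min p' q) ^ 7 / 8) ≤ dot y (sg j q) - dot y (sg j p')) := by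
  have hsi := one_le_s i
  have hsj := one_le_s j
  rcases lt_trichotomy p p' with h | h | h
  · have hy := abs_vec (i := i) (a := -t p') (c := t p) (d := 0)
      (by rw [abs_neg]; exact abs_t _) (abs_t _) (by simp)
    refine ⟨_, hy, phi1_of_signs _ hy ?_ ?_ ?_ ?_⟩
    · rw [dot_sg]; apply mulr
      have h1 := (HU hip).2
      have h2 := (big_small h (le_refl _)).2.2
      have h3 := pw1 p (show 5 < 6 by norm_num)
      have h4 := pw1 p (show 6 < 7 by norm_num)
      have h5 : t p ^ 5 ≤ t p ^ 4 * (t p * s i + 0 * s i ^ 2) := by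
        have : 0 < t p ^ 5 := pow_pos (tpos p) _
        nlinarith
      have : 0 < t p ^ 7 := pow_pos (tpos p) _
      linarith
    · intro q hq hqp
      rw [dot_sg]; apply mulr'
      have h1 := (HU hq).1
      have h2 := (big_small hqp hip.le).1
      have h3 := tpos p'
      have : 0 < t q ^ 7 := pow_pos (tpos q) _
      linarith
    · rw [dot_sg]; apply mulr'
      have h1 := (HL hij hjp).2
      have h2 := pw p' (show 1 ≤ 5 by norm_num)
      have h3 := pw1 p' (show 1 < 7 by norm_num)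
      have h4 : t p' ^ 4 * (t p * s j + 0 * s j ^ 2) ≤ t p' ^ 3 / 1000 := by
        have h5 := sm1 hjp.le
        have h6 : 0 < t p' ^ 3 := pow_pos (tpos p') _
        have h7 := tle p
        have h8 := tpos p
        have h9 : t p * (t p' * s j) ≤ 1 / 1000 := by
          have : 0 ≤ t p' * s j := by have := tpos p'; positivity
          nlinarith
        have : t p' ^ 4 * (t p * s j + 0 * s j ^ 2) = t p' ^ 3 * (t p * (t p' * s j)) := by ring
        rw [this]; nlinarith
      have h5 := pw p' (show 1 ≤ 3 by norm_num)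
      rw [pow_one] at h2 h3 h5
      have := tpos p'
      linarith
    · intro q hq hqp
      rw [dot_sg]; apply mulr
      have h1 := (HL hij hq).1
      have h2 := (big_small hqp (le_refl _)).2.2
      have h3 : 0 ≤ t q ^ 4 * (t p * s j + 0 * s j ^ 2) := by
        have := tpos q; have := tpos p; positivity
      have : 0 < t q ^ 7 := pow_pos (tpos q) _
      linarith
  · subst h
    have hb : |t p * (s i + 1 / 2)| ≤ 1 / 100 := by
      have h1 := sm1 hip.le
      have h2 := tle p
      have h3 := tpos p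
      rw [abs_of_nonneg (by positivity)]; nlinarith
    have hy := abs_vec (i := i) (a := 0) (c := t p * (s i + 1 / 2)) (d := -t p)
      (by simp) hb (by rw [abs_neg]; exact abs_t _)
    obtain ⟨x1, x2⟩ := xi_bd hij
    refine ⟨_, hy, phi1_of_signs _ hy ?_ ?_ ?_ ?_⟩
    · rw [dot_sg]; apply mulr
      have h1 := (HU hip).2
      have h3 := pw1 p (show 5 < 6 by norm_num)
      have h4 := pw1 p (show 6 < 7 by norm_num)
      have h5 : t p ^ 5 / 2 ≤ t p ^ 4 * (t p * (s i + 1 / 2) * s i + -t p * s i ^ 2) := by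
        have : 0 < t p ^ 5 := pow_pos (tpos p) _
        nlinarith
      have : 0 < t p ^ 7 := pow_pos (tpos p) _
      linarith
    · intro q hq hqp
      rw [dot_sg]; apply mulr'
      have h1 := (HU hq).1
      have h2 := (big_small hqp hip.le).1
      have h3 : t q ^ 4 * (t p * (s i + 1 / 2) * s i + -t p * s i ^ 2) =
        t q ^ 4 * (t p * s i) / 2 := by ring
      have : 0 < t q ^ 7 := pow_pos (tpos q) _
      linarith
    · rw [dot_sg]; apply mulr'
      have h1 := (HL hij hjp).2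
      have h3 := pw1 p (show 5 < 7 by norm_num)
      have h4 : t p ^ 4 * (t p * (s i + 1 / 2) * s j + -t p * s j ^ 2) =
        -(t p ^ 5 * (-(s i + 1 / 2) * s j + s j ^ 2)) := by ring
      have h5 : 0 < t p ^ 5 := pow_pos (tpos p) _
      have h6 := mul_le_mul_of_nonneg_left x1 h5.le
      linarith
    · intro q hq hqp
      rw [dot_sg]; apply mulr
      have h1 := (HL hij hq).1
      have h2 := (big_small hqp hjp.le).2.1
      have h4 : t q ^ 4 * (t p * (s i + 1 / 2) * s j + -t p * s j ^ 2) =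
        -(t q ^ 4 * t p * (-(s i + 1 / 2) * s j + s j ^ 2)) := by ring
      have h5 : 0 < t q ^ 4 * t p := mul_pos (pow_pos (tpos q) _) (tpos p)
      have h6 := mul_le_mul_of_nonneg_left x2 h5.le
      have : 0 < t q ^ 7 := pow_pos (tpos q) _
      nlinarith
  · have hy := abs_vec (i := i) (a := t p) (c := -t p') (d := 0)
      (abs_t _) (by rw [abs_neg]; exact abs_t _) (by simp)
    refine ⟨_, hy, phi1_of_signs _ hy ?_ ?_ ?_ ?_⟩
    · rw [dot_sg]; apply mulr
      have h1 := (HU hip).2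
      have h2 := pw p (show 1 ≤ 6 by norm_num)
      have h3 := pw1 p (show 1 < 7 by norm_num)
      have h4 : t p ^ 4 * (t p' * s i) ≤ t p ^ 4 / 1000 := by
        have h5 := sm1 (hij.trans hjp).le
        have h6 : 0 < t p ^ 4 := pow_pos (tpos p) _
        nlinarith
      have h5 := pw p (show 1 ≤ 4 by norm_num)
      rw [pow_one] at h2 h3 h5
      have := tpos p
      linarith
    · intro q hq hqp
      rw [dot_sg]; apply mulr'
      have h1 := (HU hq).1
      have h2 := (big_small hqp (le_refl _)).2.2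
      have h3 : 0 ≤ t q ^ 4 * (t p' * s i) := by
        have := tpos q; have := tpos p'; positivity
      have : 0 < t q ^ 7 := pow_pos (tpos q) _
      linarith
    · rw [dot_sg]; apply mulr'
      have h1 := (HL hij hjp).2
      have h2 := (big_small h (le_refl _)).2.2
      have h3 := pw1 p' (show 5 < 7 by norm_num)
      have h5 : t p' ^ 5 ≤ t p' ^ 4 * (t p' * s j) := by
        have : 0 < t p' ^ 5 := pow_pos (tpos p') _
        nlinarith
      have : 0 < t p' ^ 7 := pow_pos (tpos p') _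
      linarith
    · intro q hq hqp
      rw [dot_sg]; apply mulr
      have h1 := (HL hij hq).1
      have h2 := (big_small hqp hjp.le).1
      have h3 := tpos p
      have : 0 < t q ^ 7 := pow_pos (tpos q) _
      linarith

end Pool.Agent.H26.Scv
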