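import Pool.Agent.H26.ScvC

set_option autoImplicit false

namespace Pool.Agent.H26.Scv

noncomputable def d (i j : ℕ) : ℝ := r i * (1 + t i ^ 4) - r j * (1 - t i ^ 4 - t j)

noncomputable def bp (k n q : ℕ) : X := if n = k then sg k q else 0

noncomputable def U (y0 y1 : X) (k n q : ℕ) : ℝ := dot y0 (sg n k) + dot y1 (bp k n q)

noncomputable def ph (i m j m' : ℕ) (B : ℝ) : X :=
  ![1 - t i ^ 4 - 2 * t j, B, -(2 * t j * s m'), t j, 2 * t i * s m, -t i]

noncomputable def fz (i m j m' k n : ℕ) : ℝ :=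
  t k ^ 4 * (-(2 * t j * s m') * s n + t j * s n ^ 2) +
    t k ^ 6 * (2 * t i * s m * s n + -t i * s n ^ 2)

theorem U_eq (i m j m' : ℕ) (B : ℝ) (y1 : X) (k n q : ℕ) :
    U (ph i m j m' B) y1 k n q = r k * (1 - t i ^ 4 - 2 * t j + t k ^ 2 * B) +
      (r k * fz i m j m' k n + dot y1 (bp k n q)) := by
  simp only [U, ph, fz]; rw [dot_sg]; ring

theorem r_anti {a b : ℕ} (h : a ≤ b) : r b ≤ r a :=
  pow_le_pow_left₀ (tpos b).le (t_anti h) _

theorem bp_le {k n q : ℕ} (h : k < q) (u : Fin 6) : |bp k n q u| ≤ r q := by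
  unfold bp
  split_ifs
  · exact sg_le h.le u
  · simpa using (rpos q).le

theorem dot_bp {y1 : X} (hy : ∀ u, |y1 u| ≤ 1 / 100) {k n q : ℕ} (h : k < q) :
    |dot y1 (bp k n q)| ≤ r q := by
  have := dot_le hy (bp_le (n := n) h)
  linarith [rpos q]

theorem fzH {i m k n : ℕ} (hm : m ≤ i) (hn : n ≤ k) :
    |t k ^ 6 * (2 * t i * s m * s n + -t i * s n ^ 2)| ≤ t k ^ 4 / 1000 := by
  have a1 := one_le_s m
  have a2 := one_le_s n
  have a3 := tpos i
  have a4 := tpos k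
  have a5 := sm2 hm
  have a6 := sm2 hn
  have a7 := tle i
  have b1 : |2 * s m * s n - s n ^ 2| ≤ s m ^ 2 + s n ^ 2 := by
    rw [abs_le]; constructor <;> nlinarith [sq_nonneg (s m - s n)]
  have e : t k ^ 6 * (2 * t i * s m * s n + -t i * s n ^ 2) =
    (t k ^ 6 * t i) * (2 * s m * s n - s n ^ 2) := by ring
  rw [e, abs_mul, abs_of_pos (by positivity)]
  have b2 := mul_le_mul_of_nonneg_left b1 (show 0 ≤ t k ^ 6 * t i by positivity)
  have b3 := mul_le_mul_of_nonneg_left a5 (show 0 ≤ t k ^ 6 by positivity)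
  have b4 := mul_le_mul_of_nonneg_left a6 (show 0 ≤ t k ^ 5 * t i by positivity)
  have b5 := mul_le_mul_of_nonneg_left a7 (show 0 ≤ t k ^ 5 by positivity)
  have b6 := pw1 k (show 4 < 5 by norm_num)
  have b7 := pw1 k (show 4 < 6 by norm_num)
  have b8 : t k ^ 6 * t i * (s m ^ 2 + s n ^ 2) =
    t k ^ 6 * (t i * s m ^ 2) + t k ^ 5 * t i * (t k * s n ^ 2) := by ring
  have b9 : 0 < t k ^ 4 := by positivity
  linarith

theorem fzF0 {m' n z : ℕ} (hm : m' ≤ z) (hn : n ≤ z) :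
    |s n ^ 2 - 2 * s m' * s n| ≤ 3 * s z ^ 2 := by
  have a1 := one_le_s m'
  have a2 := one_le_s n
  have a3 := s_mono hm
  have a4 := s_mono hn
  rw [abs_le]; constructor <;> nlinarith

theorem fz4 {i m j m' k n : ℕ} (hm : m ≤ i) (hm' : m' ≤ j) (hn : n ≤ k) (hk : k ≤ j) :
    |fz i m j m' k n| ≤ t k ^ 4 / 100 := by
  have h1 := fzH hm hn
  have h2 := fzF0 hm' (hn.trans hk)
  have a3 := tpos j
  have a4 := tpos k
  have e : t k ^ 4 * (-(2 * t j * s m') * s n + t j * s n ^ 2) =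
    (t k ^ 4 * t j) * (s n ^ 2 - 2 * s m' * s n) := by ring
  have h3 : |t k ^ 4 * (-(2 * t j * s m') * s n + t j * s n ^ 2)| ≤ 3 * t k ^ 4 / 1000 := by
    rw [e, abs_mul, abs_of_pos (by positivity)]
    have b2 := mul_le_mul_of_nonneg_left h2 (show 0 ≤ t k ^ 4 * t j by positivity)
    have b3 := mul_le_mul_of_nonneg_left (sm2 (le_refl j)) (show 0 ≤ t k ^ 4 by positivity)
    linarith
  have := abs_add_le (t k ^ 4 * (-(2 * t j * s m') * s n + t j * s n ^ 2))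
    (t k ^ 6 * (2 * t i * s m * s n + -t i * s n ^ 2))
  have b9 : 0 < t k ^ 4 := by positivity
  unfold fz; linarith

theorem fz3 {i m j m' k n : ℕ} (hm : m ≤ i) (hm' : m' ≤ j) (hn : n ≤ k) :
    |fz i m j m' k n| ≤ t k ^ 3 / 100 := by
  have c1 := pw k (show 3 ≤ 4 by norm_num)
  rcases le_total k j with hk | hk
  · have := fz4 hm hm' hn hk; linarith
  have h1 := fzH hm hn
  have h2 := fzF0 (hm'.trans hk) hn
  have a3 := tpos j
  have a4 := tpos k
  have e : t k ^ 4 * (-(2 * t j * s m') * s n + t j * s n ^ 2) =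
    (t k ^ 4 * t j) * (s n ^ 2 - 2 * s m' * s n) := by ring
  have h3 : |t k ^ 4 * (-(2 * t j * s m') * s n + t j * s n ^ 2)| ≤ 3 * t k ^ 3 / 1000 := by
    rw [e, abs_mul, abs_of_pos (by positivity)]
    have b2 := mul_le_mul_of_nonneg_left h2 (show 0 ≤ t k ^ 4 * t j by positivity)
    have b3 := mul_le_mul_of_nonneg_left (sm2 (le_refl k)) (show 0 ≤ t k ^ 3 * t j by positivity)
    have b4 := mul_le_mul_of_nonneg_left (tle j) (show 0 ≤ t k ^ 3 by positivity)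
    have b5 : t k ^ 4 * t j * (3 * s k ^ 2) = 3 * (t k ^ 3 * t j * (t k * s k ^ 2)) := by ring
    have b9 : 0 < t k ^ 3 := by positivity
    linarith
  have := abs_add_le (t k ^ 4 * (-(2 * t j * s m') * s n + t j * s n ^ 2))
    (t k ^ 6 * (2 * t i * s m * s n + -t i * s n ^ 2))
  have b9 : 0 < t k ^ 3 := by positivity
  unfold fz; linarith

theorem err_le {y1 : X} (hy : ∀ u, |y1 u| ≤ 1 / 100) {k n q a : ℕ} (h : k < q) (ha : a < 11)
    {f : ℝ} (hf : |f| ≤ t k ^ a / 100) :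
    |r k * f + dot y1 (bp k n q)| ≤ r k * t k ^ a / 50 := by
  have h1 := dot_bp hy (n := n) h
  have h2 := r_le' h ha
  have h3 : |r k * f| ≤ r k * (t k ^ a / 100) := by
    rw [abs_mul, abs_of_pos (rpos k)]; exact mulr hf
  have h4 := abs_add_le (r k * f) (dot y1 (bp k n q))
  have : 0 < r k * t k ^ a := mul_pos (rpos k) (pow_pos (tpos k) _)
  linarith

theorem exists_B {i m p j m' p' : ℕ} (hij : i < j) (hm : m ≤ i) (hp : i < p) (hm' : m' ≤ j)
    (hp' : j < p') {y1 : X} (hy : ∀ u, |y1 u| ≤ 1 / 100) :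
    ∃ B, |B - 2 * t i ^ 2| ≤ t i ^ 2 / 10 ∧
      U (ph i m j m' B) y1 i m p - U (ph i m j m' B) y1 j m' p' = d i j := by
  set Ei := r i * fz i m j m' i m + dot y1 (bp i m p) with hEi
  set Ej := r j * fz i m j m' j m' + dot y1 (bp j m' p') with hEj
  have h1 : |Ei| ≤ r i * t i ^ 4 / 50 := err_le hy hp (by norm_num) (fz4 hm hm' hm hij.le)
  have h2 : |Ej| ≤ r j * t j ^ 3 / 50 := err_le hy hp' (by norm_num) (fz3 hm hm' hm')
  have a1 := tpos i
  have a2 := tpos j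
  have a3 := rpos i
  have a4 := rpos j
  have a5 := r_le' hij (show 4 < 11 by norm_num)
  have a6 := r_le' hij (show 2 < 11 by norm_num)
  have a7 : t j ≤ t i ^ 4 / 1000 := (sm5 hij).trans (pw1 i (by norm_num))
  have a8 := pw j (show 0 ≤ 3 by norm_num)
  have a9 := pw j (show 0 ≤ 2 by norm_num)
  have a10 := pw i (show 0 ≤ 2 by norm_num)
  rw [pow_zero] at a8 a9 a10
  have a11 := tle j
  set D := r i * t i ^ 2 - r j * t j ^ 2 with hD
  have b1 : r j * t j ^ 2 ≤ r j := by nlinarith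
  have b2 : 0 < r i * t i ^ 2 := by positivity
  have hDp : r i * t i ^ 2 / 2 ≤ D := by linarith
  have hD0 : 0 < D := by linarith
  set Z := 2 * r i * t j - r j * t j + 2 * t i ^ 2 * (r j * t j ^ 2) - Ei + Ej with hZ
  have hZb : |Z| ≤ r i * t i ^ 4 / 20 := by
    have c1 : r i * t j ≤ r i * (t i ^ 4 / 1000) := mulr a7
    have c2 : r j * t j ≤ r j := by nlinarith
    have c3 : t i ^ 2 * (r j * t j ^ 2) ≤ r j := by
      have : 0 ≤ r j * t j ^ 2 := by positivity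
      nlinarith
    have c4 : r j * t j ^ 3 ≤ r j := by nlinarith
    have c5 : 0 ≤ r i * t j := by positivity
    have c6 : 0 ≤ r j * t j := by positivity
    have c7 : 0 ≤ t i ^ 2 * (r j * t j ^ 2) := by positivity
    have c8 : 0 < r i * t i ^ 4 := by positivity
    rw [abs_le] at h1 h2 ⊢
    constructor <;> linarith
  refine ⟨2 * t i ^ 2 + Z / D, ?_, ?_⟩
  · rw [add_sub_cancel_left, abs_div, abs_of_pos hD0, div_le_iff₀ hD0]
    have := mul_le_mul_of_nonneg_left hDp (show 0 ≤ t i ^ 2 / 10 by positivity)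
    have e : t i ^ 2 / 10 * (r i * t i ^ 2 / 2) = r i * t i ^ 4 / 20 := by ring
    linarith
  · rw [U_eq, U_eq, ← hEi, ← hEj]
    have e : Z / D * D = Z := by field_simp
    unfold d
    have e2 : r i * (1 - t i ^ 4 - 2 * t j + t i ^ 2 * (2 * t i ^ 2 + Z / D)) + Ei -
      (r j * (1 - t i ^ 4 - 2 * t j + t j ^ 2 * (2 * t i ^ 2 + Z / D)) + Ej) =
      (r i - r j) * (1 - t i ^ 4 - 2 * t j) + 2 * t i ^ 2 * D + Z / D * D + Ei - Ej := by
      rw [hD]; ring
    rw [e2, e, hZ, hD]; ring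

theorem U_abs {i m j m' : ℕ} (hm : m ≤ i) (hm' : m' ≤ j) {B : ℝ}
    (hB : |B - 2 * t i ^ 2| ≤ t i ^ 2 / 10) {y1 : X} (hy : ∀ u, |y1 u| ≤ 1 / 100)
    {k n q : ℕ} (hn : n ≤ k) (hq : k < q) : |U (ph i m j m' B) y1 k n q| ≤ 2 * r k := by
  rw [U_eq]
  have h1 := err_le hy (n := n) hq (show 3 < 11 by norm_num) (fz3 hm hm' hn)
  have a1 := pw k (show 0 ≤ 3 by norm_num)
  have a2 := pw k (show 0 ≤ 2 by norm_num)
  have a3 := pw1 i (show 0 < 2 by norm_num)
  have a4 := pw1 i (show 0 < 4 by norm_num)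
  rw [pow_zero] at a1 a2 a3 a4
  have a5 := tle j
  have a6 := tpos j
  have a7 := rpos k
  have a8 : 0 < t i ^ 4 := pow_pos (tpos i) _
  have a9 : 0 < t i ^ 2 := pow_pos (tpos i) _
  have a10 : 0 < t k ^ 2 := pow_pos (tpos k) _
  rw [abs_le] at hB
  have b1 : 0 ≤ t k ^ 2 * B := by apply mul_nonneg a10.le; linarith
  have b2 : t k ^ 2 * B ≤ 1 / 100 := by nlinarith
  have b3 : r k * t k ^ 3 ≤ r k := by nlinarith
  have b4 : |r k * (1 - t i ^ 4 - 2 * t j + t k ^ 2 * B)| ≤ r k * (3 / 2) := by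
    rw [abs_mul, abs_of_pos a7]; apply mulr; rw [abs_le]; constructor <;> linarith
  have := abs_add_le (r k * (1 - t i ^ 4 - 2 * t j + t k ^ 2 * B))
    (r k * fz i m j m' k n + dot y1 (bp k n q))
  linarith

theorem far {i m j m' : ℕ} (hij : i < j) (hm : m ≤ i) (hm' : m' ≤ j) {B : ℝ}
    (hB : |B - 2 * t i ^ 2| ≤ t i ^ 2 / 10) {y1 : X} (hy : ∀ u, |y1 u| ≤ 1 / 100)
    {k n q l n' q' : ℕ} (hki : k ≠ i) (hkl : k < l) (hn : n ≤ k) (hq : k < q) (hn' : n' ≤ l)
    (hq' : l < q') :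
    r k * (t (min k i) ^ 4 / 2) ≤
      d k l - U (ph i m j m' B) y1 k n q + U (ph i m j m' B) y1 l n' q' := by
  have h1 := (abs_le.1 (U_abs hm hm' hB hy hn' hq')).1
  rw [U_eq i m j m' B y1 k]
  have a1 := rpos k
  have a2 := rpos l
  have a3 := tpos j
  have a4 : 0 < t k ^ 4 := pow_pos (tpos k) _
  have a5 : 0 < t i ^ 4 := pow_pos (tpos i) _
  have a6 : 0 < t k ^ 2 := pow_pos (tpos k) _
  have a7 : 0 < t i ^ 2 := pow_pos (tpos i) _
  have a8 := r_le' hkl (show 4 < 11 by norm_num)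
  have h2 : r k * (1 + t k ^ 4) - r l ≤ d k l := by
    unfold d
    have := tpos l
    nlinarith
  have hB2 : t k ^ 2 * B ≤ 3 * (t k ^ 2 * t i ^ 2) := by
    have := (abs_le.1 hB).2
    nlinarith
  rcases lt_or_gt_of_ne hki with h | h
  · rw [min_eq_left h.le]
    have e1 := (abs_le.1 (err_le hy (n := n) hq (show 4 < 11 by norm_num)
      (fz4 hm hm' hn (h.trans hij).le))).2
    have b1 : t i ^ 2 ≤ t k ^ 2 / 1000 := by
      have c1 := pw i (show 1 ≤ 2 by norm_num)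
      rw [pow_one] at c1
      exact c1.trans ((sm5 h).trans (pw1 k (by norm_num)))
    have b2 : t k ^ 2 * t i ^ 2 ≤ t k ^ 4 / 1000 := by nlinarith
    have b3 : r k * (1 - t i ^ 4 - 2 * t j + t k ^ 2 * B) ≤ r k * (1 + 3 * t k ^ 4 / 1000) :=
      mulr (by linarith)
    have : 0 < r k * t k ^ 4 := by positivity
    nlinarith
  · rw [min_eq_right h.le]
    have e1 := (abs_le.1 (err_le hy (n := n) hq (show 3 < 11 by norm_num)
      (fz3 hm hm' hn))).2
    have c0 : t k ≤ t i ^ 4 / 1000 := (sm5 h).trans (pw1 i (by norm_num))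
    have b1 : t k ^ 2 ≤ t i ^ 2 / 1000 := by
      have c1 := pw k (show 1 ≤ 2 by norm_num)
      rw [pow_one] at c1
      exact c1.trans ((sm5 h).trans (pw1 i (by norm_num)))
    have b2 : t k ^ 2 * t i ^ 2 ≤ t i ^ 4 / 1000 := by nlinarith
    have b3 : r k * (1 - t i ^ 4 - 2 * t j + t k ^ 2 * B) ≤
        r k * (1 - t i ^ 4 + 3 * t i ^ 4 / 1000) := mulr (by linarith)
    have c1 := pw k (show 1 ≤ 3 by norm_num)
    have c2 := pw k (show 1 ≤ 4 by norm_num)
    rw [pow_one] at c1 c2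
    have b4 : r k * t k ^ 3 ≤ r k * t i ^ 4 := mulr (by linarith)
    have b5 : r k * t k ^ 4 ≤ r k * t i ^ 4 := mulr (by linarith)
    have : 0 < r k * t k ^ 4 := by positivity
    have : 0 < r k * t i ^ 4 := by positivity
    nlinarith

theorem zlem {i z : ℕ} (h : i < z) {S : ℝ} (hS : r z * (t z ^ 7 / 8) ≤ S) :
    (6 * r z) ^ 2 ≤ r i * S := by
  have a1 := t_le_r h
  have a2 := rpos z
  have a3 := tpos z
  have a4 := pw1 z (show 8 < 9 by norm_num)
  have a5 : r i * (r z * (t z ^ 7 / 8)) ≤ r i * S := mulr hS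
  have a6 : t z * (r z * (t z ^ 7 / 8)) ≤ r i * (r z * (t z ^ 7 / 8)) :=
    mul_le_mul_of_nonneg_right a1 (by positivity)
  have a7 : r z * t z ^ 9 ≤ r z * (t z ^ 8 / 1000) := mulr a4
  have a8 : (6 * r z) ^ 2 = 36 * (r z * t z ^ 9) := by simp only [r]; ring
  have a9 : t z * (r z * (t z ^ 7 / 8)) = r z * t z ^ 8 / 8 := by ring
  have : 0 < r z * t z ^ 8 := by positivity
  linarith

end Pool.Agent.H26.Scv
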