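import Pool.Agent.H26.ScvD

set_option autoImplicit false

namespace Pool.Agent.H26.Scv

theorem abs_sub_le2 {a b c e : ℝ} (ha : |a| ≤ c) (hb : |b| ≤ e) : |a - b| ≤ c + e :=
  (abs_sub a b).trans (add_le_add ha hb)

theorem r_min_l (a b : ℕ) : r a ≤ r (min a b) := r_anti (min_le_left _ _)
theorem r_min_r (a b : ℕ) : r b ≤ r (min a b) := r_anti (min_le_right _ _)

theorem up {i m p j m' : ℕ} (hij : i < j) (hm : m ≤ i) (hp : i < p) (hm' : m' ≤ j) (B : ℝ)
    {y1 : X} (hy : ∀ u, |y1 u| ≤ 1 / 100)
    (hU : ∀ q, i < q → q ≠ p →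
      r (min p q) * (t (min p q) ^ 7 / 8) ≤ dot y1 (sg i p) - dot y1 (sg i q))
    {n q : ℕ} (hn : n ≤ i) (hq : i < q) :
    ∃ δ, (∀ u, |sg n i u - sg m i u| ≤ δ) ∧ (∀ u, |bp i n q u - bp i m p u| ≤ δ) ∧
      0 ≤ U (ph i m j m' B) y1 i m p - U (ph i m j m' B) y1 i n q ∧
      δ ^ 2 ≤ r i * (U (ph i m j m' B) y1 i m p - U (ph i m j m' B) y1 i n q) := by
  have a1 := rpos i
  have a2 := tpos i
  by_cases hnm : n = m
  · subst hnm
    by_cases hb : n = i ∧ q ≠ p
    · obtain ⟨rfl, hqp⟩ := hb
      have h1 := hU q hq hqp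
      have e : U (ph n n j m' B) y1 n n p - U (ph n n j m' B) y1 n n q =
          dot y1 (sg n p) - dot y1 (sg n q) := by simp [U, bp]
      have hz : n < min p q := lt_min hp hq
      have := rpos (min p q)
      have := tpos (min p q)
      refine ⟨6 * r (min p q), fun u => ?_, fun u => ?_, ?_, ?_⟩
      · simp; positivity
      · have := abs_sub_le2 (bp_le (n := n) hq u) (bp_le (n := n) hp u)
        linarith [r_min_l p q, r_min_r p q]
      · rw [e]; exact le_trans (by positivity) h1
      · rw [e]; exact zlem hz h1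
    · have e : bp i n q = bp i n p := by
        by_cases h : n = i
        · have : q = p := by by_contra h'; exact hb ⟨h, h'⟩
          rw [this]
        · simp [bp, h]
      refine ⟨0, fun u => by simp, fun u => by simp [e], ?_, ?_⟩ <;> simp [U, e]
  · have b1 := s_sq hnm
    have b2 := (abs_le.1 (fzF0 hm' (hn.trans hij.le))).2
    have b3 := (abs_le.1 (fzF0 hm' (hm.trans hij.le))).1
    have b4 := sm3 (le_refl j) hij
    have b5 := pw1 i (show 3 < 20 by norm_num)
    have a3 := tpos j
    have c1 := (abs_le.1 (dot_bp hy (n := m) hp)).1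
    have c2 := (abs_le.1 (dot_bp hy (n := n) hq)).2
    have c3 := r_le' hp (show 7 < 11 by norm_num)
    have c4 := r_le' hq (show 7 < 11 by norm_num)
    have e : fz i m j m' i m - fz i m j m' i n =
        t i ^ 4 * t j * ((s m ^ 2 - 2 * s m' * s m) - (s n ^ 2 - 2 * s m' * s n)) +
          t i ^ 7 * (s n - s m) ^ 2 := by unfold fz; ring
    have d1 : t i ^ 4 * t j * (-(6 * s j ^ 2)) ≤
        t i ^ 4 * t j * ((s m ^ 2 - 2 * s m' * s m) - (s n ^ 2 - 2 * s m' * s n)) :=
      mul_le_mul_of_nonneg_left (by linarith) (by positivity)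
    have d2 : t i ^ 4 * (t j * s j ^ 2) ≤ t i ^ 4 * (t i ^ 3 / 1000) :=
      mul_le_mul_of_nonneg_left (by linarith) (by positivity)
    have d3 : t i ^ 7 * 1 ≤ t i ^ 7 * (s n - s m) ^ 2 :=
      mul_le_mul_of_nonneg_left b1 (by positivity)
    have d4 : 9 / 10 * t i ^ 7 ≤ fz i m j m' i m - fz i m j m' i n := by
      have : 0 < t i ^ 7 := by positivity
      rw [e]; nlinarith
    have d5 := mulr (q := i) d4
    have d6 : 0 < r i * t i ^ 7 := by positivity
    have hS : r i * t i ^ 7 / 2 ≤ U (ph i m j m' B) y1 i m p - U (ph i m j m' B) y1 i n q := by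
      rw [U_eq, U_eq]; linarith
    have f1 := one_le_s i
    have f2 : r i * t i ^ 4 ≤ r i * (t i ^ 4 * s i ^ 2) := by
      apply mulr
      have h4 : 0 < t i ^ 4 := by positivity
      have h5 : (1 : ℝ) ≤ s i ^ 2 := one_le_pow₀ f1
      have := mul_le_mul_of_nonneg_left h5 h4.le
      linarith
    have f3 : ∀ a, a ≤ i → r i * (t i ^ 4 * s a ^ 2) ≤ r i * (t i ^ 4 * s i ^ 2) := by
      intro a ha
      apply mulr
      apply mul_le_mul_of_nonneg_left _ (by positivity)
      exact pow_le_pow_left₀ (by linarith [one_le_s a]) (s_mono ha) 2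
    refine ⟨2 * (r i * (t i ^ 4 * s i ^ 2)), fun u => ?_, fun u => ?_, by linarith, ?_⟩
    · by_cases hu : 2 ≤ u.val
      · have := abs_sub_le2 (sg_tail hn u hu) (sg_tail hm u hu)
        linarith [f3 n hn, f3 m hm]
      · have : sg n i u = sg m i u := by
          fin_cases u
          · simp [sg]
          · simp [sg]
          all_goals simp at hu
        rw [this, sub_self, abs_zero]; positivity
    · have := abs_sub_le2 (bp_le (n := n) hq u) (bp_le (n := m) hp u)
      have g1 := r_le' hp (show 4 < 11 by norm_num)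
      have g2 := r_le' hq (show 4 < 11 by norm_num)
      have : 0 < r i * t i ^ 4 := by positivity
      linarith
    · have g1 := mul_le_mul_of_nonneg_left (P2 i) (show 0 ≤ r i * (r i * t i ^ 7) by positivity)
      have g2 := mulr (q := i) hS
      have g3 : (2 * (r i * (t i ^ 4 * s i ^ 2))) ^ 2 =
        4 * (r i * (r i * t i ^ 7) * (s i ^ 4 * t i)) := by ring
      have : 0 < r i * (r i * t i ^ 7) := by positivity
      linarith

theorem d_sub (i l j : ℕ) : d i l - d i j =
    r j * (1 - t i ^ 4 - t j) - r l * (1 - t i ^ 4 - t l) := by unfold d; ring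

theorem c_bd (i j : ℕ) : 0 ≤ r j * (1 - t i ^ 4 - t j) ∧ r j * (1 - t i ^ 4 - t j) ≤ r j := by
  have a4 := pw1 i (show 0 < 4 by norm_num)
  rw [pow_zero] at a4
  have a5 := tle j
  have a6 := tpos j
  have a7 := rpos j
  have a8 : 0 < t i ^ 4 := pow_pos (tpos i) _
  constructor
  · apply mul_nonneg a7.le; linarith
  · nlinarith

theorem low {i m j m' p' : ℕ} (hij : i < j) (hm : m ≤ i) (hm' : m' ≤ j) (hp' : j < p') {B : ℝ}
    (hB : |B - 2 * t i ^ 2| ≤ t i ^ 2 / 10) {y1 : X} (hy : ∀ u, |y1 u| ≤ 1 / 100)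
    (hL : ∀ q, j < q → q ≠ p' →
      r (min p' q) * (t (min p' q) ^ 7 / 8) ≤ dot y1 (sg j q) - dot y1 (sg j p'))
    {l n q : ℕ} (hil : i < l) (hn : n ≤ l) (hq : l < q) :
    ∃ δ, (∀ u, |sg n l u - sg m' j u| ≤ δ) ∧ (∀ u, |bp l n q u - bp j m' p' u| ≤ δ) ∧
      |d i l - d i j| ≤ δ ∧
      0 ≤ U (ph i m j m' B) y1 l n q - U (ph i m j m' B) y1 j m' p' + (d i l - d i j) ∧
      δ ^ 2 ≤ r i *
        (U (ph i m j m' B) y1 l n q - U (ph i m j m' B) y1 j m' p' + (d i l - d i j)) := by
  have key : r (min l j) * (t (min l j) ^ 7 / 8) ≤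
      U (ph i m j m' B) y1 l n q - U (ph i m j m' B) y1 j m' p' + (d i l - d i j) →
      ∃ δ, (∀ u, |sg n l u - sg m' j u| ≤ δ) ∧ (∀ u, |bp l n q u - bp j m' p' u| ≤ δ) ∧
      |d i l - d i j| ≤ δ ∧
      0 ≤ U (ph i m j m' B) y1 l n q - U (ph i m j m' B) y1 j m' p' + (d i l - d i j) ∧
      δ ^ 2 ≤ r i *
        (U (ph i m j m' B) y1 l n q - U (ph i m j m' B) y1 j m' p' + (d i l - d i j)) := by
    intro h
    have a1 := rpos (min l j)
    have a2 := tpos (min l j)
    have a3 := r_min_l l j
    have a4 := r_min_r l j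
    refine ⟨6 * r (min l j), fun u => ?_, fun u => ?_, ?_, le_trans (by positivity) h,
      zlem (lt_min hil hij) h⟩
    · have := abs_sub_le2 (sg_le hn u) (sg_le hm' u); linarith
    · have := abs_sub_le2 (bp_le (n := n) hq u) (bp_le (n := m') hp' u)
      linarith [r_anti hq.le, r_anti hp'.le]
    · rw [d_sub, abs_le]
      have := c_bd i j
      have := c_bd i l
      constructor <;> linarith
  have hB0 : 0 ≤ B ∧ B ≤ 1 := by
    have a3 := pw1 i (show 0 < 2 by norm_num)
    rw [pow_zero] at a3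
    have a9 : 0 < t i ^ 2 := pow_pos (tpos i) _
    rw [abs_le] at hB
    constructor <;> linarith
  rcases lt_trichotomy l j with h | h | h
  · apply key
    rw [min_eq_left h.le, d_sub, U_eq i m j m' B y1 l]
    have h1 := (abs_le.1 (U_abs hm hm' hB hy hm' hp')).2
    have h2 := (abs_le.1 (err_le hy (n := n) hq (show 3 < 11 by norm_num) (fz3 hm hm' hn))).1
    have h3 := (c_bd i j).1
    have h4 := r_le' h (show 1 < 11 by norm_num)
    have h5 : t j ≤ t l ^ 1 / 1000 := (sm5 h).trans (pw1 l (by norm_num))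
    have h6 := pw l (show 1 ≤ 3 by norm_num)
    have h7 := pw l (show 1 ≤ 7 by norm_num)
    rw [pow_one] at h4 h5 h6 h7
    have h8 := mulr (q := l) h5
    have h9 := mulr (q := l) h6
    have h10 := mulr (q := l) h7
    have h11 : 0 ≤ r l * (t l ^ 2 * B) := by
      have := rpos l; have := tpos l; have := hB0.1; positivity
    have h12 : 0 < r l * t l := mul_pos (rpos l) (tpos l)
    linarith
  · subst h
    by_cases hnm : n = m'
    · subst hnm
      by_cases hb : n = l ∧ q ≠ p'
      · obtain ⟨rfl, hqp⟩ := hb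
        have h1 := hL q hq hqp
        have e : U (ph i m n n B) y1 n n q - U (ph i m n n B) y1 n n p' + (d i n - d i n) =
            dot y1 (sg n q) - dot y1 (sg n p') := by simp [U, bp]
        have hz : i < min p' q := lt_min (hij.trans hp') (hij.trans hq)
        have := rpos (min p' q)
        have := tpos (min p' q)
        refine ⟨6 * r (min p' q), fun u => ?_, fun u => ?_, ?_, ?_, ?_⟩
        · simp; positivity
        · have := abs_sub_le2 (bp_le (n := n) hq u) (bp_le (n := n) hp' u)
          linarith [r_min_l p' q, r_min_r p' q]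
        · simp; positivity
        · rw [e]; exact le_trans (by positivity) h1
        · rw [e]; exact zlem hz h1
      · have e : bp l n q = bp l n p' := by
          by_cases h : n = l
          · have : q = p' := by by_contra h'; exact hb ⟨h, h'⟩
            rw [this]
          · simp [bp, h]
        refine ⟨0, fun u => by simp, fun u => by simp [e], by simp, ?_, ?_⟩ <;> simp [U, e]
    · apply key
      rw [min_self, U_eq, U_eq]
      have a1 := rpos l
      have a2 := tpos l
      have a3 := tpos i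
      have b1 := s_sq hnm
      have c1 := (abs_le.1 (dot_bp hy (n := m') hp')).2
      have c2 := (abs_le.1 (dot_bp hy (n := n) hq)).1
      have c3 := r_le' hp' (show 5 < 11 by norm_num)
      have c4 := r_le' hq (show 5 < 11 by norm_num)
      have e : fz i m l m' l n - fz i m l m' l m' = t l ^ 5 * (s n - s m') ^ 2 +
          t l ^ 6 * t i * ((2 * s m * s n - s n ^ 2) - (2 * s m * s m' - s m' ^ 2)) := by
        unfold fz; ring
      have d0 : -(s n ^ 2 + s m ^ 2) ≤ (2 * s m * s n - s n ^ 2) - (2 * s m * s m' - s m' ^ 2) := by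
        have := one_le_s m; have := one_le_s n
        nlinarith [sq_nonneg (s m - s m')]
      have d1 := mul_le_mul_of_nonneg_left d0 (show 0 ≤ t l ^ 6 * t i by positivity)
      have d2 := mul_le_mul_of_nonneg_left (sm2 hm) (show 0 ≤ t l ^ 6 by positivity)
      have d3 := mul_le_mul_of_nonneg_left (sm2 hn) (show 0 ≤ t l ^ 5 * t i by positivity)
      have d4 := mul_le_mul_of_nonneg_left (tle i) (show 0 ≤ t l ^ 5 by positivity)
      have d5 := pw l (show 5 ≤ 6 by norm_num)
      have d6 := mul_le_mul_of_nonneg_left b1 (show 0 ≤ t l ^ 5 by positivity)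
      have d7 : t l ^ 6 * t i * -(s n ^ 2 + s m ^ 2) =
        -(t l ^ 5 * t i * (t l * s n ^ 2)) - t l ^ 6 * (t i * s m ^ 2) := by ring
      have d8 : 0 < t l ^ 5 := by positivity
      have d9 : 9 / 10 * t l ^ 5 ≤ fz i m l m' l n - fz i m l m' l m' := by
        rw [e]; linarith
      have d10 := mulr (q := l) d9
      have d11 := mulr (q := l) (pw l (show 5 ≤ 7 by norm_num))
      have d12 : 0 < r l * t l ^ 5 := by positivity
      linarith
  · apply key
    rw [min_eq_right h.le, d_sub, U_eq i m j m' B y1 j]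
    have h1 := (abs_le.1 (U_abs hm hm' hB hy hn hq)).1
    have h2 := (abs_le.1 (err_le hy (n := m') hp' (show 3 < 11 by norm_num) (fz3 hm hm' hm'))).2
    have h3 := (c_bd i l).2
    have h4 := r_le' h (show 1 < 11 by norm_num)
    have h5 := pw1 j (show 1 < 2 by norm_num)
    have h6 := pw j (show 1 ≤ 3 by norm_num)
    have h7 := pw j (show 1 ≤ 7 by norm_num)
    rw [pow_one] at h4 h5 h6 h7
    have h8 : t j ^ 2 * B ≤ t j / 1000 := by
      have : 0 < t j ^ 2 := pow_pos (tpos j) _
      nlinarith [hB0.2]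
    have h9 := mulr (q := j) h6
    have h10 := mulr (q := j) h7
    have h11 := mulr (q := j) h8
    have h12 : 0 < r j * t j := mul_pos (rpos j) (tpos j)
    linarith

end Pool.Agent.H26.Scv
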