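import Pool.Agent.H26.ScvE
import Pool.Agent.H26.ScvA

set_option autoImplicit false

namespace Pool.Agent.H26.Scv

abbrev W := Fin 5 → X

def emb (a b : X) : W := ![a, b, -a, -b, 0]

noncomputable def pt (k n q : ℕ) : W := emb (sg n k) (bp k n q)

def v : X := ![1, 0, 0, 0, 0, 0]

theorem dot_add (y a b : X) : dot y (a + b) = dot y a + dot y b := by
  simp [dot, mul_add, Finset.sum_add_distrib]

theorem dot_smul (y a : X) (c : ℝ) : dot y (c • a) = c * dot y a := by
  simp only [dot, Pi.smul_apply, smul_eq_mul, Finset.mul_sum]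
  exact Finset.sum_congr rfl fun u _ => by ring

theorem dot_comm (a b : X) : dot a b = dot b a :=
  Finset.sum_congr rfl fun u _ => mul_comm _ _

theorem dot_sub (y a b : X) : dot y (a - b) = dot y a - dot y b := by
  simp [dot, mul_sub, Finset.sum_sub_distrib]

noncomputable def Phi (y0 y1 : X) : W →ₗ[ℝ] ℝ where
  toFun x := dot y0 (x 0) + dot y1 (x 1) + 2 / 3 * x 1 0 + 2 / 3 * x 3 0 + 1 / 3 * x 4 0
  map_add' x z := by simp only [Pi.add_apply, dot_add]; ring
  map_smul' c x := by simp only [Pi.smul_apply, dot_smul, smul_eq_mul, RingHom.id_apply]; ring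

theorem Phi_apply (y0 y1 : X) (x : W) : Phi y0 y1 x =
    dot y0 (x 0) + dot y1 (x 1) + 2 / 3 * x 1 0 + 2 / 3 * x 3 0 + 1 / 3 * x 4 0 := rfl

theorem Phi_pt (y0 y1 : X) (k n q : ℕ) : Phi y0 y1 (pt k n q) = U y0 y1 k n q := by
  rw [Phi_apply]; simp [pt, emb, U]

noncomputable def bil : W →ₗ[ℝ] W →ₗ[ℝ] ℝ :=
  LinearMap.mk₂ ℝ (fun x z => 1 / 10000 * ∑ a, dot (x a) (z a))
    (fun x x' z => by
      simp only [Pi.add_apply, dot_comm _ (z _), dot_add, Finset.sum_add_distrib]; ring)
    (fun c x z => by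
      simp only [Pi.smul_apply, dot_comm _ (z _), dot_smul, smul_eq_mul, ← Finset.mul_sum]; ring)
    (fun x z z' => by simp only [Pi.add_apply, dot_add, Finset.sum_add_distrib]; ring)
    (fun c x z => by
      simp only [Pi.smul_apply, dot_smul, smul_eq_mul, ← Finset.mul_sum]; ring)

theorem bil_apply (x z : W) : bil x z = 1 / 10000 * ∑ a, dot (x a) (z a) := rfl

theorem bil_comm (x z : W) : bil x z = bil z x := by
  simp only [bil_apply, dot_comm (x _)]

theorem bil_pos (x : W) (hx : x ≠ 0) : 0 < bil x x := by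
  rw [bil_apply]
  obtain ⟨a, ha⟩ := Function.ne_iff.1 hx
  obtain ⟨u, hu⟩ := Function.ne_iff.1 ha
  have h0 : ∀ a, 0 ≤ dot (x a) (x a) := fun a => Finset.sum_nonneg fun u _ => mul_self_nonneg _
  have h1 : 0 < dot (x a) (x a) :=
    Finset.sum_pos' (fun u _ => mul_self_nonneg _) ⟨u, Finset.mem_univ _, mul_self_pos.2 hu⟩
  have : 0 < ∑ a, dot (x a) (x a) := Finset.sum_pos' (fun a _ => h0 a) ⟨a, Finset.mem_univ _, h1⟩
  positivity

theorem bil_le {x z : W} {a b : ℝ} (hx : ∀ c u, |x c u| ≤ a) (hz : ∀ c u, |z c u| ≤ b) :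
    |bil x z| ≤ 3 / 1000 * (a * b) := by
  rw [bil_apply, abs_mul, abs_of_pos (by norm_num : (0 : ℝ) < 1 / 10000)]
  have : |∑ c, dot (x c) (z c)| ≤ 30 * (a * b) :=
    calc |∑ c, dot (x c) (z c)| ≤ ∑ c, |dot (x c) (z c)| := Finset.abs_sum_le_sum_abs _ _
      _ ≤ ∑ _c : Fin 5, 6 * (a * b) := Finset.sum_le_sum fun c _ => dot_le (hx c) (hz c)
      _ = 30 * (a * b) := by simp; ring
  linarith

theorem Phi_le {y0 y1 : X} (h0 : ∀ u, |y0 u| ≤ 2) (h1 : ∀ u, |y1 u| ≤ 1 / 100) {x : W} {a : ℝ}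
    (hx : ∀ c u, |x c u| ≤ a) : |Phi y0 y1 x| ≤ 20 * a := by
  have e0 := abs_le.1 (dot_le h0 (hx 0))
  have e1 := abs_le.1 (dot_le h1 (hx 1))
  have e2 := abs_le.1 (hx 1 0)
  have e3 := abs_le.1 (hx 3 0)
  have e4 := abs_le.1 (hx 4 0)
  rw [Phi_apply, abs_le]
  constructor <;> linarith

def rot (a : Fin 5) : W →ₗ[ℝ] W := LinearMap.funLeft ℝ X (fun c => c - a)

theorem rot_apply (a : Fin 5) (x : W) (c : Fin 5) : rot a x c = x (c - a) := rfl

theorem rot_rot (a b : Fin 5) (x : W) : rot a (rot b x) = rot (a + b) x := by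
  funext c; simp only [rot_apply, sub_sub]

theorem rot_zero (x : W) : rot 0 x = x := by
  funext c; simp [rot_apply]

theorem bil_rot (a : Fin 5) (x : W) : bil (rot a x) (rot a x) = bil x x := by
  simp only [bil_apply, rot_apply]
  congr 1
  exact Equiv.sum_comp (Equiv.subRight a) (fun c => dot (x c) (x c))

theorem emb_le {a b : X} {δ : ℝ} (ha : ∀ u, |a u| ≤ δ) (hb : ∀ u, |b u| ≤ δ) (c : Fin 5)
    (u : Fin 6) : |emb a b c u| ≤ δ := by
  have h0 : 0 ≤ δ := (abs_nonneg _).trans (ha 0)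
  fin_cases c <;> simp [emb, ha, hb, h0]

theorem emb_sub (a b a' b' : X) : emb a b - emb a' b' = emb (a - a') (b - b') := by
  funext c; fin_cases c <;> simp [emb] <;> abel

theorem emb_smul (e : ℝ) (a b : X) : e • emb a b = emb (e • a) (e • b) := by
  funext c; fin_cases c <;> simp [emb]

theorem d_bd {i j : ℕ} (h : i < j) : r i / 2 ≤ d i j ∧ d i j ≤ 2 * r i := by
  have h1 := c_bd i j
  have h2 := r_le' h (show 0 < 11 by norm_num)
  have h3 := pw i (show 0 ≤ 4 by norm_num)
  rw [pow_zero] at h2 h3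
  have h4 := mulr (q := i) h3
  have h5 : 0 < r i * t i ^ 4 := mul_pos (rpos i) (pow_pos (tpos i) _)
  have := rpos i
  unfold d
  constructor <;> linarith

theorem dpos {i j : ℕ} (h : i < j) : 0 < d i j := by linarith [(d_bd h).1, rpos i]

noncomputable def wv (i m p j m' p' : ℕ) : W := (d i j)⁻¹ • (pt i m p - pt j m' p')

theorem div_bd {i j : ℕ} (h : i < j) {x : ℝ} (hx : |x| ≤ 3 / 2 * (r i * t i ^ 2)) :
    |(d i j)⁻¹ * x| ≤ 3 * t i ^ 2 := by
  have h0 := dpos h
  rw [abs_mul, abs_of_pos (inv_pos.2 h0), inv_mul_le_iff₀ h0]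
  have := mul_le_mul_of_nonneg_right (d_bd h).1 (show 0 ≤ 3 * t i ^ 2 by positivity)
  linarith

theorem wv_near {i m p j m' p' : ℕ} (hij : i < j) (hm : m ≤ i) (hp : i < p) (hm' : m' ≤ j)
    (hp' : j < p') (c : Fin 5) (u : Fin 6) :
    |(wv i m p j m' p' - emb v 0) c u| ≤ 3 * t i ^ 2 := by
  unfold wv pt
  rw [emb_sub, emb_smul, emb_sub]
  have a1 := r_le' hij (show 2 < 11 by norm_num)
  have a2 : 0 < r i * t i ^ 2 := mul_pos (rpos i) (pow_pos (tpos i) _)
  have a3 := rpos j
  apply emb_le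
  · intro u
    by_cases hu : 2 ≤ u.val
    · have hv : v u = 0 := by
        fin_cases u
        · simp at hu
        all_goals simp [v]
      simp only [Pi.sub_apply, Pi.smul_apply, smul_eq_mul, hv, sub_zero]
      apply div_bd hij
      have b1 := abs_sub_le2 (sg_tail hm u hu) (sg_le hm' u)
      have b2 := mulr (q := i) ((ts4 hm).trans (div_le_div_of_nonneg_right
        (pw i (show 2 ≤ 3 by norm_num)) (by norm_num)))
      linarith
    · fin_cases u
      · have h0 := dpos hij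
        have e : (((d i j)⁻¹ • (sg m i - sg m' j) - v : X)) 0 =
            (d i j)⁻¹ * (r i - r j - d i j) := by
          simp [sg, v]; field_simp
        simp only [Fin.zero_eta]
        rw [e]
        apply div_bd hij
        have b1 := c_bd i j
        have b2 := mulr (q := i) (pw i (show 2 ≤ 4 by norm_num))
        have b3 : 0 < r i * t i ^ 4 := mul_pos (rpos i) (pow_pos (tpos i) _)
        unfold d
        rw [abs_le]; constructor <;> linarith
      · have e : (((d i j)⁻¹ • (sg m i - sg m' j) - v : X)) 1 =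
            (d i j)⁻¹ * (r i * t i ^ 2 - r j * t j ^ 2) := by
          simp [sg, v]
        simp only [Fin.mk_one]
        rw [e]
        apply div_bd hij
        have b2 := mulr (q := j) (pw j (show 0 ≤ 2 by norm_num))
        have b3 : 0 < r j * t j ^ 2 := mul_pos (rpos j) (pow_pos (tpos j) _)
        rw [pow_zero] at b2
        rw [abs_le]; constructor <;> linarith
      all_goals simp at hu
  · intro u
    simp only [Pi.sub_apply, Pi.smul_apply, smul_eq_mul, Pi.zero_apply, sub_zero]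
    apply div_bd hij
    have b1 := abs_sub_le2 (bp_le (n := m) hp u) (bp_le (n := m') hp' u)
    have b2 := r_le' hp (show 2 < 11 by norm_num)
    have b3 := r_anti hp'.le
    linarith

theorem V_le (c : Fin 5) (u : Fin 6) : |emb v 0 c u| ≤ 1 := by
  apply emb_le
  · intro u; fin_cases u <;> simp [v]
  · simp

theorem t2_le (i : ℕ) : 3 * t i ^ 2 ≤ 1 / 100 := by
  have := pw1 i (show 0 < 2 by norm_num)
  rw [pow_zero] at this; linarith

theorem wv_le {i m p j m' p' : ℕ} (hij : i < j) (hm : m ≤ i) (hp : i < p) (hm' : m' ≤ j)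
    (hp' : j < p') (c : Fin 5) (u : Fin 6) : |wv i m p j m' p' c u| ≤ 2 := by
  have h1 := abs_le.1 (wv_near hij hm hp hm' hp' c u)
  have h2 := abs_le.1 (V_le c u)
  have h3 := t2_le i
  simp only [Pi.sub_apply] at h1
  rw [abs_le]; constructor <;> linarith

theorem ph_bd {i m j m' : ℕ} (hm : m ≤ i) (hm' : m' ≤ j) {B : ℝ}
    (hB : |B - 2 * t i ^ 2| ≤ t i ^ 2 / 10) :
    (∀ u, |ph i m j m' B u| ≤ 2) ∧ |ph i m j m' B 0 - 1| ≤ 1 / 100 := by
  have a3 := pw1 i (show 0 < 2 by norm_num)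
  have a4 := pw1 i (show 0 < 4 by norm_num)
  rw [pow_zero] at a3 a4
  have a5 := tle j
  have a6 := tpos j
  have a7 := tle i
  have a8 := tpos i
  have a9 : 0 < t i ^ 2 := pow_pos (tpos i) _
  have a10 : 0 < t i ^ 4 := pow_pos (tpos i) _
  have b1 := sm1 hm
  have b2 := sm1 hm'
  have b3 : 0 ≤ t i * s m := by have := one_le_s m; positivity
  have b4 : 0 ≤ t j * s m' := by have := one_le_s m'; positivity
  rw [abs_le] at hB
  constructor
  · intro u
    fin_cases u <;> simp only [ph] <;> simp only [Fin.reduceFinMk, Matrix.cons_val] <;>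
      rw [abs_le] <;> constructor <;> linarith
  · simp only [ph, Matrix.cons_val]
    rw [abs_le]; constructor <;> linarith

end Pool.Agent.H26.Scv
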