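import Pool.Agent.H26.ScvF

set_option autoImplicit false

namespace Pool.Agent.H26.Scv

theorem Phi_wv (y0 y1 : X) (k n q l n' q' : ℕ) : Phi y0 y1 (wv k n q l n' q') =
    (d k l)⁻¹ * (U y0 y1 k n q - U y0 y1 l n' q') := by
  unfold wv; rw [map_smul, map_sub, Phi_pt, Phi_pt, smul_eq_mul]

theorem same_side {i m p j m' p' : ℕ} (hij : i < j) (hm : m ≤ i) (hp : i < p) (hm' : m' ≤ j)
    (hp' : j < p') {B : ℝ} (hB : |B - 2 * t i ^ 2| ≤ t i ^ 2 / 10) {y1 : X}
    (hy : ∀ u, |y1 u| ≤ 1 / 100)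
    (hU : ∀ q, i < q → q ≠ p →
      r (min p q) * (t (min p q) ^ 7 / 8) ≤ dot y1 (sg i p) - dot y1 (sg i q))
    (hL : ∀ q, j < q → q ≠ p' →
      r (min p' q) * (t (min p' q) ^ 7 / 8) ≤ dot y1 (sg j q) - dot y1 (sg j p'))
    (hd : U (ph i m j m' B) y1 i m p - U (ph i m j m' B) y1 j m' p' = d i j)
    {k n q l n' q' : ℕ} (hkl : k < l) (hn : n ≤ k) (hq : k < q) (hn' : n' ≤ l) (hq' : l < q') :
    Phi (ph i m j m' B) y1 (wv k n q l n' q') +
      bil (wv k n q l n' q' - wv i m p j m' p') (wv k n q l n' q' - wv i m p j m' p') ≤ 1 := by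
  have hd0 := dpos hkl
  obtain ⟨hd1, hd2⟩ := d_bd hkl
  have hr := rpos k
  set S := d k l - U (ph i m j m' B) y1 k n q + U (ph i m j m' B) y1 l n' q' with hS
  have e1 : Phi (ph i m j m' B) y1 (wv k n q l n' q') = 1 - S / d k l := by
    rw [Phi_wv, hS]; field_simp; ring
  rw [e1]
  suffices h : bil (wv k n q l n' q' - wv i m p j m' p') (wv k n q l n' q' - wv i m p j m' p') ≤
      S / d k l by linarith
  by_cases hki : k = i
  · subst hki
    obtain ⟨δ1, u1, u2, u3, u4⟩ := up hij hm hp hm' B hy hU hn hq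
    obtain ⟨δ2, l1, l2, l3, l4, l5⟩ := low hij hm hm' hp' hB hy hL hkl hn' hq'
    have hdj := dpos hij
    have e2 : wv k n q l n' q' - wv k m p j m' p' = (d k l)⁻¹ •
        (emb ((sg n k - sg m k) - (sg n' l - sg m' j)) ((bp k n q - bp k m p) -
          (bp l n' q' - bp j m' p')) - (d k l - d k j) • wv k m p j m' p') := by
      rw [← emb_sub, ← emb_sub, ← emb_sub]
      unfold wv pt
      have h1 : (d k l)⁻¹ * ((d k l - d k j) * (d k j)⁻¹) = (d k j)⁻¹ - (d k l)⁻¹ := by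
        field_simp
      rw [smul_sub (d k l)⁻¹ _ ((d k l - d k j) • _), smul_smul, smul_smul, mul_assoc, h1]
      module
    have hδ2 : 0 ≤ δ2 := (abs_nonneg _).trans l3
    have hδ1 : 0 ≤ δ1 := (abs_nonneg _).trans (u1 0)
    have hb : ∀ c u, |(wv k n q l n' q' - wv k m p j m' p') c u| ≤ (δ1 + 3 * δ2) / d k l := by
      intro c u
      rw [e2]
      simp only [Pi.smul_apply, Pi.sub_apply (emb _ _), Pi.sub_apply (emb _ _ c), smul_eq_mul]
      rw [abs_mul, abs_of_pos (inv_pos.2 hd0), div_eq_inv_mul]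
      apply mul_le_mul_of_nonneg_left _ (inv_pos.2 hd0).le
      have b1 := emb_le (a := (sg n k - sg m k) - (sg n' l - sg m' j))
        (b := (bp k n q - bp k m p) - (bp l n' q' - bp j m' p')) (δ := δ1 + δ2)
        (fun u => abs_sub_le2 (u1 u) (l1 u)) (fun u => abs_sub_le2 (u2 u) (l2 u)) c u
      have b2 : |(d k l - d k j) * wv k m p j m' p' c u| ≤ δ2 * 2 := by
        rw [abs_mul]
        exact mul_le_mul l3 (wv_le hij hm hp hm' hp' c u) (abs_nonneg _) hδ2
      have := abs_sub_le2 b1 b2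
      linarith
    have b3 := (le_abs_self _).trans (bil_le hb hb)
    refine b3.trans ?_
    have eS : S = (U (ph k m j m' B) y1 k m p - U (ph k m j m' B) y1 k n q) +
        (U (ph k m j m' B) y1 l n' q' - U (ph k m j m' B) y1 j m' p' + (d k l - d k j)) := by
      rw [hS]; linarith
    have hS0 : 0 ≤ S := by rw [eS]; linarith
    have b4 : δ1 ^ 2 + δ2 ^ 2 ≤ r k * S := by rw [eS]; linarith
    have b5 : r k * S ≤ 2 * d k l * S := mul_le_mul_of_nonneg_right (by linarith) hS0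
    have b6 : (δ1 + 3 * δ2) ^ 2 ≤ 18 * (δ1 ^ 2 + δ2 ^ 2) := by
      nlinarith [sq_nonneg (δ1 - 3 * δ2), sq_nonneg δ1]
    have e3 : 3 / 1000 * ((δ1 + 3 * δ2) / d k l * ((δ1 + 3 * δ2) / d k l)) =
        (3 / 1000 * (δ1 + 3 * δ2) ^ 2 / d k l) / d k l := by field_simp
    rw [e3]
    apply div_le_div_of_nonneg_right _ hd0.le
    rw [div_le_iff₀ hd0]
    have : 0 ≤ d k l * S := mul_nonneg hd0.le hS0
    nlinarith
  · have h1 := far hij hm hm' hB hy hki hkl hn hq hn' hq'
    rw [← hS] at h1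
    have hb : ∀ c u, |(wv k n q l n' q' - wv i m p j m' p') c u| ≤ 6 * t (min k i) ^ 2 := by
      intro c u
      have b1 := wv_near hkl hn hq hn' hq' c u
      have b2 := wv_near hij hm hp hm' hp' c u
      have b3 := abs_sub_le2 b1 b2
      have b4 : t k ^ 2 ≤ t (min k i) ^ 2 :=
        pow_le_pow_left₀ (tpos _).le (t_anti (min_le_left _ _)) _
      have b5 : t i ^ 2 ≤ t (min k i) ^ 2 :=
        pow_le_pow_left₀ (tpos _).le (t_anti (min_le_right _ _)) _
      simp only [Pi.sub_apply] at b3 ⊢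
      rw [sub_sub_sub_cancel_right] at b3
      linarith
    have b3 := (le_abs_self _).trans (bil_le hb hb)
    refine b3.trans ?_
    rw [le_div_iff₀ hd0]
    have a1 : 0 < t (min k i) ^ 4 := pow_pos (tpos _) _
    have e : 3 / 1000 * (6 * t (min k i) ^ 2 * (6 * t (min k i) ^ 2)) * d k l =
      108 / 1000 * (t (min k i) ^ 4 * d k l) := by ring
    have b4 := mul_le_mul_of_nonneg_left hd2 a1.le
    have : 0 < r k * t (min k i) ^ 4 := by positivity
    rw [e]; linarith

theorem cross {y0 y1 : X} (h0 : |y0 0 - 1| ≤ 1 / 100) (h1 : ∀ u, |y1 u| ≤ 1 / 100) (a : Fin 5)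
    (e : ℝ) (he : e = 1 ∨ e = -1) (hne : ¬ (a = 0 ∧ e = 1)) :
    Phi y0 y1 (e • rot a (emb v 0)) ≤ 2 / 5 := by
  have b0 := abs_le.1 h0
  have b1 := abs_le.1 (h1 0)
  rw [map_smul, Phi_apply, smul_eq_mul]
  simp only [rot_apply]
  rcases he with rfl | rfl
  · fin_cases a
    · simp at hne
    all_goals
      simp [emb, dot, v, Fin.sum_univ_six]
      try linarith
  · fin_cases a
    all_goals
      simp [emb, dot, v, Fin.sum_univ_six]
      try linarith

theorem exists_phi {i m p j m' p' : ℕ} (hij : i < j) (hm : m ≤ i) (hp : i < p) (hm' : m' ≤ j)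
    (hp' : j < p') : ∃ y0 y1 : X, (∀ u, |y0 u| ≤ 2) ∧ (∀ u, |y1 u| ≤ 1 / 100) ∧
      Phi y0 y1 (wv i m p j m' p') = 1 ∧
      ∀ k n q l n' q' : ℕ, k < l → n ≤ k → k < q → n' ≤ l → l < q' → ∀ (a : Fin 5) (e : ℝ),
        (e = 1 ∨ e = -1) → Phi y0 y1 (e • rot a (wv k n q l n' q')) +
          bil (e • rot a (wv k n q l n' q') - wv i m p j m' p')
            (e • rot a (wv k n q l n' q') - wv i m p j m' p') ≤ 1 := by
  obtain ⟨y1, hy, hU, hL⟩ := exists_phi1 hij hp hp'
  obtain ⟨B, hB, hd⟩ := exists_B hij hm hp hm' hp' hy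
  obtain ⟨h2, h0⟩ := ph_bd hm hm' hB
  refine ⟨ph i m j m' B, y1, h2, hy, ?_, ?_⟩
  · rw [Phi_wv, hd, inv_mul_cancel₀ (dpos hij).ne']
  · intro k n q l n' q' hkl hn hq hn' hq' a e he
    by_cases hae : a = 0 ∧ e = 1
    · obtain ⟨rfl, rfl⟩ := hae
      rw [one_smul, rot_zero]
      exact same_side hij hm hp hm' hp' hB hy hU hL hd hkl hn hq hn' hq'
    · have c1 := cross h0 hy a e he hae
      have habs : |e| = 1 := by rcases he with rfl | rfl <;> simp
      have c2 : |Phi (ph i m j m' B) y1 (e • rot a (wv k n q l n' q' - emb v 0))| ≤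
          20 * (1 / 100) := by
        apply Phi_le h2 hy
        intro c u
        simp only [Pi.smul_apply, smul_eq_mul, abs_mul, habs, one_mul, rot_apply]
        exact (wv_near hkl hn hq hn' hq' _ u).trans (t2_le k)
      have hb : ∀ c u, |(e • rot a (wv k n q l n' q') - wv i m p j m' p') c u| ≤ 2 + 2 := by
        intro c u
        simp only [Pi.sub_apply]
        apply abs_sub_le2 _ (wv_le hij hm hp hm' hp' c u)
        simp only [Pi.smul_apply, smul_eq_mul, abs_mul, habs, one_mul, rot_apply]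
        exact wv_le hkl hn hq hn' hq' _ u
      have c3 := (le_abs_self _).trans (bil_le hb hb)
      rw [map_sub, smul_sub, map_sub] at c2
      have := (abs_le.1 c2).2
      linarith

end Pool.Agent.H26.Scv
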