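import Pool.Agent.H26.ScvG

set_option autoImplicit false

namespace Pool.Agent.H26.Scv

structure Dat where
  i : ℕ
  m : ℕ
  p : ℕ
  j : ℕ
  m' : ℕ
  p' : ℕ
  hij : i < j
  hm : m ≤ i
  hp : i < p
  hm' : m' ≤ j
  hp' : j < p'

noncomputable def Dat.w (D : Dat) : W := wv D.i D.m D.p D.j D.m' D.p'

def sgn (b : Bool) : ℝ := if b then 1 else -1

theorem sgn_cases (b : Bool) : sgn b = 1 ∨ sgn b = -1 := by cases b <;> simp [sgn]

theorem exists_N : ∃ N : Seminorm ℝ W, (∀ x, N x = 0 → x = 0) ∧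
    (∀ x y, N x = 1 → N y = 1 → x ≠ y → N (x + y) ≠ 2) ∧
    ∀ k n q l n' q' : ℕ, k < l → n ≤ k → k < q → n' ≤ l → l < q' → ∀ a : Fin 5,
      N (rot a (pt k n q - pt l n' q')) = d k l := by
  have H := fun D : Dat => exists_phi D.hij D.hm D.hp D.hm' D.hp'
  choose y0 y1 h0 h1 h2 h3 using H
  have hw : ∀ (D : Dat) c u, |D.w c u| ≤ 2 := fun D => wv_le D.hij D.hm D.hp D.hm' D.hp'
  let ψ : Dat × Fin 5 × Bool → W →ₗ[ℝ] ℝ := fun I =>
    sgn I.2.2 • ((Phi (y0 I.1) (y1 I.1) - (2 : ℝ) • bil I.1.w) ∘ₗ rot I.2.1)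
  have hψ : ∀ I x, ψ I x = sgn I.2.2 *
      (Phi (y0 I.1) (y1 I.1) (rot I.2.1 x) - 2 * bil I.1.w (rot I.2.1 x)) := by
    intro I x; simp [ψ]
  have hexp : ∀ I x, bil x x + ψ I x + bil I.1.w I.1.w =
      Phi (y0 I.1) (y1 I.1) (sgn I.2.2 • rot I.2.1 x) +
        bil (sgn I.2.2 • rot I.2.1 x - I.1.w) (sgn I.2.2 • rot I.2.1 x - I.1.w) := by
    intro I x
    rw [hψ, ← bil_rot I.2.1 x]
    simp only [map_sub, map_smul, LinearMap.sub_apply, LinearMap.smul_apply, smul_eq_mul]
    rw [bil_comm (rot I.2.1 x) I.1.w]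
    rcases sgn_cases I.2.2 with h | h <;> rw [h] <;> ring
  haveI : Nonempty (Dat × Fin 5 × Bool) :=
    ⟨(⟨0, 0, 1, 1, 0, 2, by omega, by omega, by omega, by omega, by omega⟩, 0, true)⟩
  obtain ⟨N, hN0, hN1, hN2⟩ := exists_norm bil bil_comm bil_pos ψ (fun I => bil I.1.w I.1.w)
    (fun I => by
      by_cases h : I.1.w = 0
      · simp [h]
      · exact (bil_pos _ h).le)
    (fun I => by
      have := (le_abs_self _).trans (bil_le (hw I.1) (hw I.1))
      linarith)
    (fun I => ⟨(I.1, I.2.1, !I.2.2), fun x => by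
      rw [hψ, hψ]
      rcases I with ⟨D, a, b⟩
      cases b <;> simp [sgn], rfl⟩)
    (fun x => by
      have hx : ∀ (a : Fin 5) c u, |rot a x c u| ≤ ‖x‖ := fun a c u => by
        rw [rot_apply, ← Real.norm_eq_abs]
        exact (norm_le_pi_norm (x (c - a)) u).trans (norm_le_pi_norm x _)
      refine ⟨21 * ‖x‖, fun I => ?_⟩
      have habs : |sgn I.2.2| = 1 := by rcases sgn_cases I.2.2 with h | h <;> simp [h]
      rw [hψ, abs_mul, habs, one_mul]
      have b1 := abs_le.1 (Phi_le (h0 I.1) (h1 I.1) (hx I.2.1))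
      have b2 := abs_le.1 (bil_le (hw I.1) (hx I.2.1))
      have := norm_nonneg x
      rw [abs_le]; constructor <;> linarith)
  refine ⟨N, hN0, hN1, ?_⟩
  intro k n q l n' q' hkl hn hq hn' hq' a
  have hd := dpos hkl
  have e : rot a (pt k n q - pt l n' q') = d k l • rot a (wv k n q l n' q') := by
    unfold wv
    rw [map_smul, smul_smul, mul_inv_cancel₀ hd.ne', one_smul]
  rw [e, map_smul_eq_mul, hN2, mul_one, Real.norm_eq_abs, abs_of_pos hd]
  · intro I
    rw [hexp, rot_rot]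
    exact h3 I.1 k n q l n' q' hkl hn hq hn' hq' _ _ (sgn_cases _)
  · let D : Dat := ⟨k, n, q, l, n', q', hkl, hn, hq, hn', hq'⟩
    refine ⟨(D, -a, true), ?_⟩
    rw [hexp, rot_rot]
    have := h2 D
    simp only [sgn, if_true, one_smul, neg_add_cancel, rot_zero]
    have e2 : wv k n q l n' q' - D.w = 0 := sub_self _
    rw [e2, map_zero, add_zero]
    exact this

theorem pt_B (i p : ℕ) (a : Fin 5) : rot a (pt i i p) =
    rot a (emb (sg i i) 0) + rot (a + 1) (emb (sg i p) 0) := by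
  rw [← rot_rot, ← map_add]
  congr 1
  funext c
  fin_cases c <;> simp [pt, bp, emb, rot_apply]

theorem pt_A {m j : ℕ} (h : m < j) (q : ℕ) : pt j m q = emb (sg m j) 0 := by
  simp [pt, bp, h.ne]

theorem rot_sum (x : X) (a : Fin 5) : rot a (emb x 0) + rot (a + 1) (emb x 0) +
    rot (a + 1 + 1) (emb x 0) + rot (a + 1 + 1 + 1) (emb x 0) +
    rot (a + 1 + 1 + 1 + 1) (emb x 0) = 0 := by
  simp only [← rot_rot, ← map_add]
  have : emb x 0 + rot 1 (emb x 0) + rot 1 (rot 1 (emb x 0)) + rot 1 (rot 1 (rot 1 (emb x 0))) +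
      rot 1 (rot 1 (rot 1 (rot 1 (emb x 0)))) = 0 := by
    have e : ∀ a b c d e : X, rot 1 ![a, b, c, d, e] = ![e, a, b, c, d] := by
      intro a b c d e
      funext z
      fin_cases z <;> rfl
    simp only [emb, e]
    funext c
    fin_cases c <;> simp
  rw [this, map_zero]

theorem ramsey (c : W → Fin 2) : ∃ (b : W) (a : Fin 5) (n q : ℕ → ℕ) (col : Fin 2),
    ∀ k, n k ≤ k ∧ k < q k ∧ c (b + rot a (pt k (n k) (q k))) = col := by
  by_contra hno
  have hflip : ∀ x y : Fin 2, x ≠ y → x = y + 1 := by decide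
  let P : ℕ → Fin 5 → W → Fin 2 → Prop := fun m a b col =>
    ∀ j, m < j → c (b + rot a (emb (sg m j) 0)) = col
  have head : ∀ i a b col, ¬ P i (a + 1) (b + rot a (emb (sg i i) 0)) (col + 1) →
      ∃ p, i < p ∧ c (b + rot a (pt i i p)) = col := by
    intro i a b col h
    simp only [P, not_forall] at h
    obtain ⟨p, hp, hc⟩ := h
    refine ⟨p, hp, ?_⟩
    rw [pt_B, ← add_assoc]
    by_contra h'
    exact hc (hflip _ _ h')
  have base : ∃ m, ∃ a b col, P m a b col := by
    by_contra h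
    push Not at h
    choose p hp hc using fun i => head i 0 0 0 (h _ _ _ _)
    exact hno ⟨0, 0, fun k => k, p, 0, fun k => ⟨le_rfl, hp k, hc k⟩⟩
  classical
  have step : ∀ a b col, P (Nat.find base) a b col →
      P (Nat.find base) (a + 1) (b + rot a (emb (sg (Nat.find base) (Nat.find base)) 0))
        (col + 1) := by
    intro a b col hP
    by_contra h
    have h' : ∀ i, ∃ p, i < p ∧ (i ≤ Nat.find base → c (b + rot a (pt i i p)) = col) := by
      intro i
      rcases lt_trichotomy i (Nat.find base) with hi | hi | hi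
      · obtain ⟨p, hp, hc⟩ := head i a b col (fun hh => Nat.find_min base hi ⟨_, _, _, hh⟩)
        exact ⟨p, hp, fun _ => hc⟩
      · obtain ⟨p, hp, hc⟩ := head i a b col (by rw [hi]; exact h)
        exact ⟨p, hp, fun _ => hc⟩
      · exact ⟨i + 1, by omega, fun hh => by omega⟩
    choose p hp hc using h'
    refine hno ⟨b, a, fun k => min k (Nat.find base), p, col, fun k => ⟨min_le_left _ _, hp k, ?_⟩⟩
    beta_reduce
    rcases le_or_gt k (Nat.find base) with hk | hk
    · rw [min_eq_left hk]; exact hc k hk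
    · rw [min_eq_right hk.le, pt_A hk]; exact hP k hk
  obtain ⟨a, b, col, hP⟩ := Nat.find_spec base
  have h5 := step _ _ _ (step _ _ _ (step _ _ _ (step _ _ _ (step _ _ _ hP))))
  have ea : a + 1 + 1 + 1 + 1 + 1 = a :=
    (by decide : ∀ a : Fin 5, a + 1 + 1 + 1 + 1 + 1 = a) a
  have ec : col + 1 + 1 + 1 + 1 + 1 ≠ col :=
    (by decide : ∀ a : Fin 2, a + 1 + 1 + 1 + 1 + 1 ≠ a) col
  have eb := rot_sum (sg (Nat.find base) (Nat.find base)) a
  have h6 := h5 _ (Nat.lt_succ_self _)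
  have h7 := hP _ (Nat.lt_succ_self _)
  rw [ea] at h6
  apply ec
  rw [← h6, ← h7]
  congr 2
  rw [add_assoc b, add_assoc b, add_assoc b, add_assoc b, eb, add_zero]

def E : Type := W

noncomputable instance : AddCommGroup E := inferInstanceAs (AddCommGroup W)
noncomputable instance : Module ℝ E := inferInstanceAs (Module ℝ W)

theorem main : ¬ (∀ (E : Type) [NormedAddCommGroup E] [NormedSpace ℝ E] [FiniteDimensional ℝ E]
      [StrictConvexSpace ℝ E],
      2 ≤ Module.finrank ℝ E →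
      ∀ M : Set E, M.Infinite →
        (∃ c : E → Fin 2, ∀ f : E → E,
            (∀ x ∈ M, ∀ y ∈ M, dist (f x) (f y) = dist x y) →
            ∃ x ∈ M, ∃ y ∈ M, c (f x) ≠ c (f y))) := by
  intro h
  obtain ⟨N, hN0, hN1, hN2⟩ := exists_N
  letI : NormedAddCommGroup E := AddGroupNorm.toNormedAddCommGroup
    { toFun := fun x => N x
      map_zero' := map_zero N
      add_le' := fun x y => map_add_le_add N x y
      neg' := fun x => map_neg_eq_map N x
      eq_zero_of_map_eq_zero' := hN0 }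
  have hnorm : ∀ x : E, ‖x‖ = N x := fun _ => rfl
  letI : NormedSpace ℝ E := { norm_smul_le := fun a x => (map_smul_eq_mul N a x).le }
  haveI : FiniteDimensional ℝ E := inferInstanceAs (FiniteDimensional ℝ W)
  haveI : StrictConvexSpace ℝ E :=
    StrictConvexSpace.of_norm_add_ne_two fun x y hx hy hne => hN1 x y hx hy hne
  have hrk : 2 ≤ Module.finrank ℝ E := by
    show 2 ≤ Module.finrank ℝ W
    simp [Module.finrank_pi_fintype]
  have hdist : ∀ (b : W) (a : Fin 5) (n q : ℕ → ℕ), (∀ k, n k ≤ k ∧ k < q k) → ∀ k l, k < l →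
      @dist E _ (b + rot a (pt k (n k) (q k))) (b + rot a (pt l (n l) (q l))) = d k l := by
    intro b a n q hh k l hkl
    rw [dist_eq_norm, hnorm, ← hN2 k (n k) (q k) l (n l) (q l) hkl (hh k).1 (hh k).2 (hh l).1
      (hh l).2 a, map_sub]
    congr 1
    exact add_sub_add_left_eq_sub _ _ b
  let g : ℕ → E := fun k => (0 : W) + rot 0 (pt k k (k + 1))
  have hg := hdist 0 0 (fun k => k) (fun k => k + 1) (fun k => ⟨le_rfl, Nat.lt_succ_self k⟩)
  have hinj : Function.Injective g := by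
    intro k l hkl
    by_contra hne
    rcases lt_or_gt_of_ne hne with hlt | hlt
    · have h1 : dist (g k) (g l) = d k l := hg k l hlt
      rw [hkl, dist_self] at h1
      exact (dpos hlt).ne h1
    · have h1 : dist (g l) (g k) = d l k := hg l k hlt
      rw [hkl, dist_self] at h1
      exact (dpos hlt).ne h1
  obtain ⟨c, hc⟩ := h E hrk (Set.range g) (Set.infinite_range_of_injective hinj)
  obtain ⟨b, a, n, q, col, hh⟩ := ramsey c
  let G : ℕ → E := fun k => b + rot a (pt k (n k) (q k))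
  have hG := hdist b a n q (fun k => ⟨(hh k).1, (hh k).2.1⟩)
  have hf : ∀ k, G (Function.invFun g (g k)) = G k := fun k => by
    rw [Function.leftInverse_invFun hinj k]
  obtain ⟨x, ⟨k, rfl⟩, y, ⟨l, rfl⟩, hne⟩ := hc (fun x => G (Function.invFun g x)) (by
    rintro x ⟨k, rfl⟩ y ⟨l, rfl⟩
    rw [hf, hf]
    rcases lt_trichotomy k l with hlt | rfl | hlt
    · exact (hG k l hlt).trans (hg k l hlt).symm
    · simp
    · rw [dist_comm, dist_comm (g k)]
      exact (hG l k hlt).trans (hg l k hlt).symm)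
  rw [hf, hf] at hne
  exact hne ((hh k).2.2.trans (hh l).2.2.symm)

end Pool.Agent.H26.Scv
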