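import Mathlib

set_option autoImplicit false

universe u

namespace Pool.Agent.H26.Smc

structure Q : Type where
  n : ℕ
  k : ℕ
  d : ℕ

def Q.le (a b : Q) : Prop :=
  (a.n = b.n ∧ a.k ≤ b.k ∧ a.k + a.d ≤ b.k + b.d) ∨
    (a.n = b.n + 1 ∧ (a.k < b.k ∨ a.k + a.d < b.k + b.d)) ∨ b.n + 2 ≤ a.n

instance : PartialOrder Q where
  le := Q.le
  le_refl a := Or.inl ⟨rfl, le_rfl, le_rfl⟩
  le_trans a b c h h' := by
    unfold Q.le at *; omega
  le_antisymm a b h h' := by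
    cases a; cases b
    simp only [Q.le] at h h'
    simp only [Q.mk.injEq]; omega

theorem le_def (a b : Q) : a ≤ b ↔ (a.n = b.n ∧ a.k ≤ b.k ∧ a.k + a.d ≤ b.k + b.d) ∨
    (a.n = b.n + 1 ∧ (a.k < b.k ∨ a.k + a.d < b.k + b.d)) ∨ b.n + 2 ≤ a.n := Iff.rfl

def w (a : Q) : ℕ := a.n + a.k + a.d

instance : Countable Q := by
  refine Function.Injective.countable (f := fun a : Q => (a.n, a.k, a.d)) ?_
  rintro ⟨a, b, c⟩ ⟨a', b', c'⟩ h
  simpa using h

theorem seq_comp (f : ℕ → Q) : ∃ i j, i ≠ j ∧ f i ≤ f j := by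
  obtain ⟨g, hg⟩ := (wellQuasiOrdered_le (α := ℕ × ℕ × ℕ)).exists_monotone_subseq
    fun i => ((f i).n, (f i).k, (f i).d)
  have h1 := hg 0 1 (by omega)
  have h2 := hg 1 2 (by omega)
  simp only [Prod.mk_le_mk] at h1 h2
  by_cases ha : (f (g 0)).n = (f (g 1)).n
  · exact ⟨g 0, g 1, g.injective.ne (by omega), by rw [le_def]; omega⟩
  by_cases hb : (f (g 1)).n = (f (g 2)).n
  · exact ⟨g 1, g 2, g.injective.ne (by omega), by rw [le_def]; omega⟩
  exact ⟨g 2, g 0, g.injective.ne (by omega), by rw [le_def]; omega⟩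

theorem no_kernel (S : Set Q) (hS : ∀ a ∈ S, ∀ b ∈ S, a ≤ b ∨ b ≤ a) :
    ∃ x, x ∉ S ∧ ∀ y ∈ S, ¬ x ≤ y → ¬ y ≤ x → w y < w x := by
  by_contra H
  push Not at H
  have A : ∀ m K, (∀ y ∈ S, y.n = m + 1 → y.k < K) → ∀ j, ∃ y ∈ S, y.n = m ∧ y.k ≤ K ∧ j ≤ y.k + y.d := by
    intro m K h j
    by_cases hx : (⟨m, K, j⟩ : Q) ∈ S
    · exact ⟨_, hx, rfl, le_rfl, by simp⟩
    · obtain ⟨y, hy, h1, h2, h3⟩ := H _ hx
      have := h y hy
      refine ⟨y, hy, ?_⟩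
      simp only [le_def, w] at h1 h2 h3
      omega
  have B : ∀ m, ∃ K, ∀ y ∈ S, y.n = m → y.k < K := by
    intro m
    by_contra h
    push Not at h
    by_cases h' : ∃ K, ∀ y ∈ S, y.n = m + 1 → y.k < K
    · obtain ⟨K, hK⟩ := h'
      obtain ⟨z, hz, h1, h2⟩ := h (K + 1)
      obtain ⟨y, hy, h3, h4, h5⟩ := A m K hK (z.k + z.d + 1)
      have := hS y hy z hz
      simp only [le_def] at this
      omega
    · push Not at h'
      obtain ⟨z, hz, h1, -⟩ := h 0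
      obtain ⟨y, hy, h3, h4⟩ := h' (z.k + z.d)
      have := hS y hy z hz
      simp only [le_def] at this
      omega
  have A' : ∀ m j, ∃ y ∈ S, y.n = m ∧ j ≤ y.k + y.d := by
    intro m j
    obtain ⟨K, hK⟩ := B (m + 1)
    obtain ⟨y, hy, h1, -, h2⟩ := A m K hK j
    exact ⟨y, hy, h1, h2⟩
  have C : ∀ K m, ¬ ∀ y ∈ S, y.n = m → y.k < K := by
    intro K
    induction K with
    | zero =>
      intro m h
      obtain ⟨y, hy, h1, -⟩ := A' m 0
      exact absurd (h y hy h1) (by omega)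
    | succ K ih =>
      intro m h
      refine ih (m + 1) fun z hz h1 => ?_
      obtain ⟨t, ht, h2, -⟩ := A' m 0
      obtain ⟨y, hy, h3, h4⟩ := A' (m + 1) (z.k + z.d + 1 + (t.k + t.d))
      have h5 := hS y hy z hz
      have h6 := hS y hy t ht
      have h7 := h t ht h2
      simp only [le_def] at h5 h6
      omega
  obtain ⟨K, hK⟩ := B 0
  exact C K 0 hK

open Cardinal

def T : Type u := (ℵ_ Ordinal.omega0 : Cardinal.{u}).out

open Classical in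
noncomputable instance : LinearOrder T.{u} := linearOrderOfSTO WellOrderingRel

theorem exists_blk (i : ℕ) : ∃ s : Set T.{u}, #s = ℵ_ ((i : Ordinal.{u}) + 1) := by
  apply le_mk_iff_exists_set.1
  rw [T, mk_out, aleph_le_aleph]
  exact_mod_cast (Ordinal.natCast_lt_omega0 (i + 1)).le

noncomputable def blk (i : ℕ) : Set T.{u} := (exists_blk i).choose

theorem mk_blk (i : ℕ) : #(blk.{u} i) = ℵ_ ((i : Ordinal.{u}) + 1) := (exists_blk i).choose_spec

def P : Type u := {x : Q ×ₗ T.{u} // (ofLex x).2 ∈ blk (w (ofLex x).1)}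

noncomputable instance : PartialOrder P.{u} := Subtype.partialOrder _

def P.q (x : P.{u}) : Q := (ofLex x.1).1
def P.t (x : P.{u}) : T.{u} := (ofLex x.1).2

theorem P.le_iff (x y : P.{u}) : x ≤ y ↔ x.q < y.q ∨ (x.q = y.q ∧ x.t ≤ y.t) :=
  Prod.Lex.le_iff

theorem P.ext' {x y : P.{u}} (h1 : x.q = y.q) (h2 : x.t = y.t) : x = y :=
  Subtype.ext (Prod.ext h1 h2)

theorem P.comp {x y : P.{u}} (h : x.q ≤ y.q) : x ≤ y ∨ y ≤ x := by
  rcases h.lt_or_eq with h | h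
  · exact Or.inl ((P.le_iff x y).2 (Or.inl h))
  · exact (le_total x.t y.t).imp (fun h' => (P.le_iff x y).2 (Or.inr ⟨h, h'⟩))
      fun h' => (P.le_iff y x).2 (Or.inr ⟨h.symm, h'⟩)

theorem P.mono {x y : P.{u}} (h : x ≤ y) : x.q ≤ y.q := by
  rcases (P.le_iff x y).1 h with h | h
  · exact h.le
  · exact h.1.le

theorem fac (A : Set P.{u}) (hA : IsAntichain (· ≤ ·) A) : A.Finite := by
  by_contra h
  let f := Set.Infinite.natEmbedding A h
  obtain ⟨i, j, h1, h2⟩ := seq_comp fun i => (f i).1.q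
  have h3 : (f i).1 ≠ (f j).1 := fun h => h1 (f.injective (Subtype.ext h))
  rcases P.comp h2 with h4 | h4
  · exact hA (f i).2 (f j).2 h3 h4
  · exact hA (f j).2 (f i).2 h3.symm h4

theorem mk_fib (a : Q) : #{x : P.{u} | x.q = a} = ℵ_ ((w a : Ordinal.{u}) + 1) := by
  rw [← mk_blk]
  refine mk_congr ⟨fun x => ⟨x.1.t, by
    have h1 : x.1.t ∈ blk (w x.1.q) := x.1.2
    have h2 : x.1.q = a := x.2
    rw [h2] at h1; exact h1⟩,
    fun t => ⟨⟨toLex (a, t.1), t.2⟩, rfl⟩, fun x => Subtype.ext (P.ext' x.2.symm rfl), fun t => rfl⟩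

theorem mk_low (i : ℕ) : #{x : P.{u} | w x.q < i} < ℵ_ ((i : Ordinal.{u}) + 1) := by
  have h1 : {x : P.{u} | w x.q < i} = ⋃ a : ULift.{u} {a : Q // w a < i}, {x : P.{u} | x.q = a.down.1} := by
    ext x
    simp only [Set.mem_setOf_eq, Set.mem_iUnion]
    exact ⟨fun h => ⟨⟨⟨x.q, h⟩⟩, rfl⟩, fun ⟨a, h⟩ => h ▸ a.down.2⟩
  rw [h1]
  refine mk_iUnion_le_sum_mk.trans_lt (sum_lt_of_isRegular (isRegular_aleph_add_one _) ?_ fun a => ?_)
  · refine mk_le_aleph0.trans_lt ?_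
    rw [← aleph_zero, aleph_lt_aleph]
    exact_mod_cast Nat.succ_pos i
  · rw [mk_fib, aleph_lt_aleph]
    exact_mod_cast Nat.succ_lt_succ a.down.2

theorem no_smc (C : Set P.{u}) (hC : IsChain (· ≤ ·) C) :
    ∃ D : Set P.{u}, IsChain (· ≤ ·) D ∧ #↥(C \ D) < #↥(D \ C) := by
  obtain ⟨a, ha, h⟩ := no_kernel (P.q '' C) (by
    rintro _ ⟨x, hx, rfl⟩ _ ⟨y, hy, rfl⟩
    exact (hC.total hx hy).imp P.mono P.mono)
  refine ⟨{x | x.q = a ∨ (x ∈ C ∧ (a ≤ x.q ∨ x.q ≤ a))}, ?_, ?_⟩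
  · rintro x (hx | ⟨hx, hx'⟩) y (hy | ⟨hy, hy'⟩) hne
    · exact P.comp (hx.trans hy.symm).le
    · rw [← hx] at hy'
      exact hy'.elim P.comp fun h => (P.comp h).symm
    · rw [← hy] at hx'
      exact hx'.elim (fun h => (P.comp h).symm) P.comp
    · exact hC hx hy hne
  · refine lt_of_le_of_lt (mk_le_mk_of_subset (t := {x : P.{u} | w x.q < w a}) ?_)
      ((mk_low _).trans_le ?_)
    · rintro x ⟨hx, hx'⟩
      simp only [Set.mem_setOf_eq, not_or, not_and] at hx'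
      exact h _ ⟨x, hx, rfl⟩ (hx'.2 hx).1 (hx'.2 hx).2
    · rw [← mk_fib]
      exact mk_le_mk_of_subset fun x hx => ⟨Or.inl hx, fun hc => ha ⟨x, hc, hx⟩⟩

end Pool.Agent.H26.Smc
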