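import Pool.Agent.H26.Smc

set_option autoImplicit false

namespace Pool.Agent.H26.Smc2
open Pool.Agent.H26.Smc (Q w no_kernel seq_comp)
open Cardinal

def f : ℕ → ℕ
  | 0 => 1
  | i + 1 => (i + 1) * ((i + 1) * ((i + 1) * f i)) + 1

theorem f_mono : Monotone f := monotone_nat_of_le_succ fun i => by
  have h : ∀ m : ℕ, m ≤ (i + 1) * m := fun m => Nat.le_mul_of_pos_left m (Nat.succ_pos i)
  exact ((h _).trans ((h _).trans (h _))).trans (Nat.le_succ _)

variable {T : Type} [LinearOrder T] (e : ℕ ↪ T)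

def P : Type := {x : WithTop Q ×ₗ T // ∀ a : Q, (ofLex x).1 = a → ∃ m < f (w a), e m = (ofLex x).2}

noncomputable instance : PartialOrder (P e) := Subtype.partialOrder _

variable {e}

def P.q (x : P e) : WithTop Q := (ofLex x.1).1
def P.t (x : P e) : T := (ofLex x.1).2

theorem P.le_iff (x y : P e) : x ≤ y ↔ x.q < y.q ∨ (x.q = y.q ∧ x.t ≤ y.t) :=
  Prod.Lex.le_iff

theorem P.ext' {x y : P e} (h1 : x.q = y.q) (h2 : x.t = y.t) : x = y :=
  Subtype.ext (Prod.ext h1 h2)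

theorem P.comp {x y : P e} (h : x.q ≤ y.q) : x ≤ y ∨ y ≤ x := by
  rcases h.lt_or_eq with h | h
  · exact Or.inl ((P.le_iff x y).2 (Or.inl h))
  · exact (le_total x.t y.t).imp (fun h' => (P.le_iff x y).2 (Or.inr ⟨h, h'⟩))
      fun h' => (P.le_iff y x).2 (Or.inr ⟨h.symm, h'⟩)

theorem P.mono {x y : P e} (h : x ≤ y) : x.q ≤ y.q := by
  rcases (P.le_iff x y).1 h with h | h
  · exact h.le
  · exact h.1.le

theorem fac (A : Set (P e)) (hA : IsAntichain (· ≤ ·) A) : A.Finite := by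
  by_contra h
  let g := Set.Infinite.natEmbedding A h
  have key : ∃ i j, i ≠ j ∧ (g i).1.q ≤ (g j).1.q := by
    by_cases ht : ∃ j, (g j).1.q = ⊤
    · obtain ⟨j, hj⟩ := ht
      exact ⟨j + 1, j, by omega, hj ▸ le_top⟩
    · push Not at ht
      obtain ⟨i, j, h1, h2⟩ := seq_comp fun i => ((g i).1.q).untop (ht i)
      refine ⟨i, j, h1, ?_⟩
      rw [← WithTop.coe_untop _ (ht i), ← WithTop.coe_untop _ (ht j)]
      exact WithTop.coe_le_coe.2 h2
  obtain ⟨i, j, h1, h2⟩ := key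
  have h3 : (g i).1 ≠ (g j).1 := fun h => h1 (g.injective (Subtype.ext h))
  rcases P.comp h2 with h4 | h4
  · exact hA (g i).2 (g j).2 h3 h4
  · exact hA (g j).2 (g i).2 h3.symm h4

theorem mk_fib (a : Q) : (f (w a) : Cardinal) ≤ #{x : P e | x.q = a} := by
  rw [← mk_fin]
  refine mk_le_of_injective (f := fun m : Fin (f (w a)) =>
    (⟨⟨toLex ((a : WithTop Q), e m), fun b hb => ⟨m, by
      have : a = b := WithTop.coe_injective hb
      rw [← this]; exact m.2, rfl⟩⟩, rfl⟩ : {x : P e | x.q = a})) fun m m' h => ?_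
  exact Fin.ext (e.injective (congrArg (fun x => x.1.t) h))

theorem mk_low (i : ℕ) : #{x : P e | ∃ a : Q, x.q = a ∧ w a < i} < f i := by
  cases i with
  | zero => simp [f]
  | succ i =>
    have key : ∀ x : {x : P e | ∃ a : Q, x.q = a ∧ w a < i + 1},
        ∃ y : Fin (i + 1) × Fin (i + 1) × Fin (i + 1) × Fin (f i),
          x.1.q = (⟨y.1, y.2.1, y.2.2.1⟩ : Q) ∧ x.1.t = e y.2.2.2 := by
      rintro ⟨x, a, h1, h2⟩
      obtain ⟨m, h3, h4⟩ := x.2 a h1
      unfold w at h2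
      exact ⟨(⟨a.n, by omega⟩, ⟨a.k, by omega⟩, ⟨a.d, by omega⟩,
        ⟨m, h3.trans_le (f_mono (by unfold w; omega))⟩), h1, h4.symm⟩
    choose g hg using key
    have : Function.Injective g := fun x y h =>
      Subtype.ext (P.ext' (by rw [(hg x).1, (hg y).1, h]) (by rw [(hg x).2, (hg y).2, h]))
    refine (mk_le_of_injective this).trans_lt ?_
    rw [mk_fintype]
    simp only [Fintype.card_prod, Fintype.card_fin, f]
    exact_mod_cast Nat.lt_succ_self _

theorem no_smc (C : Set (P e)) (hC : IsChain (· ≤ ·) C) :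
    ∃ D : Set (P e), IsChain (· ≤ ·) D ∧ #↥(C \ D) < #↥(D \ C) := by
  obtain ⟨a, ha, h⟩ := no_kernel {a : Q | ∃ x ∈ C, x.q = a} (by
    rintro a ⟨x, hx, h1⟩ b ⟨y, hy, h2⟩
    have := (hC.total hx hy).imp P.mono P.mono
    rwa [h1, h2, WithTop.coe_le_coe, WithTop.coe_le_coe] at this)
  refine ⟨{x | x.q = a ∨ (x ∈ C ∧ (↑a ≤ x.q ∨ x.q ≤ a))}, ?_, ?_⟩
  · rintro x (hx | ⟨hx, hx'⟩) y (hy | ⟨hy, hy'⟩) hne
    · exact P.comp (hx.trans hy.symm).le
    · rw [← hx] at hy'
      exact hy'.elim P.comp fun h => (P.comp h).symm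
    · rw [← hy] at hx'
      exact hx'.elim (fun h => (P.comp h).symm) P.comp
    · exact hC hx hy hne
  · refine lt_of_le_of_lt (mk_le_mk_of_subset (t := {x : P e | ∃ b : Q, x.q = b ∧ w b < w a}) ?_)
      ((mk_low _).trans_le ((mk_fib (e := e) a).trans ?_))
    · rintro x ⟨hx, hx'⟩
      have h1 : ¬ ↑a ≤ x.q := fun h => hx' (Or.inr ⟨hx, Or.inl h⟩)
      have h2 : ¬ x.q ≤ ↑a := fun h => hx' (Or.inr ⟨hx, Or.inr h⟩)
      obtain ⟨b, hb⟩ := WithTop.ne_top_iff_exists.1 (fun h => h1 (h ▸ le_top) : x.q ≠ ⊤)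
      rw [← hb, WithTop.coe_le_coe] at h1 h2
      exact ⟨b, hb.symm, h b ⟨x, hx, hb.symm⟩ h1 h2⟩
    · exact mk_le_mk_of_subset fun x hx => ⟨Or.inl hx, fun hc => ha ⟨x, hc, hx⟩⟩

theorem mk_P : #(P e) = #T := by
  haveI : Infinite T := Infinite.of_injective e e.injective
  apply le_antisymm
  · refine (mk_le_of_injective (f := fun x : P e => (x.q, x.t))
      fun x y h => P.ext' (congrArg Prod.fst h) (congrArg Prod.snd h)).trans ?_
    rw [mk_prod, lift_id, lift_id]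
    haveI : Countable (WithTop Q) := inferInstanceAs (Countable (Option Q))
    exact (mul_eq_right (aleph0_le_mk T) (mk_le_aleph0.trans (aleph0_le_mk T))
      (mk_ne_zero _)).le
  · refine mk_le_of_injective (f := fun t : T =>
      (⟨toLex (⊤, t), fun a h => absurd h WithTop.top_ne_coe⟩ : P e)) fun a b h => ?_
    exact congrArg P.t h

end Pool.Agent.H26.Smc2
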