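import Pool.Agent.H26.SrDefs

set_option autoImplicit false
open MeasureTheory Set
open scoped ENNReal

namespace Pool.Agent.H26.Sr

open Pool.Agent.H26.SrDefs

variable {d : ℕ}

noncomputable def L (g : Fin d → ℝ) : V d →ₗ[ℝ] V d where
  toFun x := WithLp.toLp 2 fun i => g i * x i
  map_add' x y := by ext i; simp [mul_add]
  map_smul' c x := by ext i; simp; ring

@[simp] lemma L_apply (g : Fin d → ℝ) (x : V d) (i : Fin d) : L g x i = g i * x i := rfl

lemma L_cont (g : Fin d → ℝ) : Continuous (L g) := LinearMap.continuous_of_finiteDimensional _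

lemma L_mul (g h : Fin d → ℝ) : L (fun i => g i * h i) = L g ∘ₗ L h := by
  ext x i; simp [mul_assoc]

lemma L_one (g : Fin d → ℝ) (h : ∀ i, g i = 1) : L g = LinearMap.id := by
  ext x i; simp [h]

lemma det_ne (g : Fin d → ℝ) (hg : ∀ i, g i ≠ 0) : LinearMap.det (L g) ≠ 0 := by
  have : L (fun i => g i * (g i)⁻¹) = LinearMap.id := L_one _ fun i => mul_inv_cancel₀ (hg i)
  rw [L_mul] at this
  have h2 := congrArg LinearMap.det this
  rw [LinearMap.det_comp, LinearMap.det_id] at h2
  exact left_ne_zero_of_mul_eq_one h2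

noncomputable def cc (g : Fin d → ℝ) : ℝ := |(LinearMap.det (L g))⁻¹|

lemma cc_pos (g : Fin d → ℝ) (hg : ∀ i, g i ≠ 0) : 0 < cc g :=
  abs_pos.2 (inv_ne_zero (det_ne g hg))

lemma cc_sign (s : Fin d → ℝ) (hs : ∀ i, s i * s i = 1) : cc s = 1 := by
  have : L (fun i => s i * s i) = LinearMap.id := L_one _ hs
  rw [L_mul] at this
  have h2 := congrArg LinearMap.det this
  rw [LinearMap.det_comp, LinearMap.det_id] at h2
  unfold cc
  rcases mul_self_eq_one_iff.1 h2 with h | h <;> rw [h] <;> norm_num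

lemma cc_mul (g h : Fin d → ℝ) : cc (fun i => g i * h i) = cc g * cc h := by
  unfold cc; rw [L_mul, LinearMap.det_comp, mul_inv, abs_mul]

lemma vol_pre (g : Fin d → ℝ) (hg : ∀ i, g i ≠ 0) (K : Set (V d)) :
    volume (L g ⁻¹' K) = ENNReal.ofReal (cc g) * volume K :=
  Measure.addHaar_preimage_linearMap _ (det_ne g hg) K

lemma cov (g : Fin d → ℝ) (hg : ∀ i, g i ≠ 0) {K : Set (V d)} (hK : MeasurableSet K)
    (F : V d → ℝ) (hF : Continuous F) :
    ∫ x in L g ⁻¹' K, F (L g x) = cc g * ∫ y in K, F y := by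
  rw [← setIntegral_map hK hF.aestronglyMeasurable (L_cont g).aemeasurable,
    Measure.map_linearMap_addHaar_eq_smul_addHaar _ (det_ne g hg), Measure.restrict_smul,
    integral_smul_measure, ENNReal.toReal_ofReal (abs_nonneg _)]
  rfl

lemma slab {θ : V d} (hθ : ‖θ‖ = 1) (S : Set (Submodule.span ℝ ({θ} : Set (V d)))ᗮ) (U : Set (V d))
    (δ : ℝ) (h : ∀ x ∈ S, ∀ t : ℝ, |t| ≤ δ → (x : V d) + t • θ ∈ U) :
    ENNReal.ofReal (2 * δ) * volume S ≤ volume U := by
  let W : Submodule ℝ (V d) := Submodule.span ℝ ({θ} : Set (V d))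
  have m1 : MeasurePreserving (Prod.map (LinearIsometryEquiv.toSpanUnitSingleton θ hθ) id :
      ℝ × Wᗮ → W × Wᗮ) volume volume :=
    (LinearIsometryEquiv.measurePreserving _).prod (MeasurePreserving.id _)
  have m2 := WithLp.volume_preserving_toLp W Wᗮ
  have m3 := W.orthogonalDecomposition.symm.measurePreserving
  have m := m3.comp (m2.comp m1)
  calc ENNReal.ofReal (2 * δ) * volume S = volume (Icc (-δ) δ ×ˢ S) := by
        rw [Measure.volume_eq_prod, Measure.prod_prod, Real.volume_Icc]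
        congr 2; ring
    _ ≤ volume ((W.orthogonalDecomposition.symm ∘ WithLp.toLp 2 ∘
          Prod.map (LinearIsometryEquiv.toSpanUnitSingleton θ hθ) id) ⁻¹' U) := by
        apply measure_mono
        rintro ⟨t, x⟩ ⟨ht, hx⟩
        have := h x hx t (abs_le.2 ht)
        have e : W.orthogonalDecomposition.symm (WithLp.toLp 2
            (LinearIsometryEquiv.toSpanUnitSingleton θ hθ t, x)) = (x : V d) + t • θ := by
          rw [Submodule.orthogonalDecomposition_symm_apply, add_comm]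
          rfl
        show W.orthogonalDecomposition.symm (WithLp.toLp 2
            (LinearIsometryEquiv.toSpanUnitSingleton θ hθ t, x)) ∈ U
        rw [e]; exact this
    _ ≤ volume U := by
        conv_rhs => rw [← m.map_eq]
        exact Measure.le_map_apply m.aemeasurable U

lemma vol_corner (hd : 0 < d) (s : V d) (r : ℝ) (hr : 0 ≤ r) :
    volume {y : V d | ∑ i, |s i - y i| ≤ r} = ENNReal.ofReal ((2 * r) ^ d / d.factorial) := by
  have : Nonempty (Fin d) := ⟨⟨0, hd⟩⟩
  have h1 := volume_sum_rpow_le (Fin d) (p := 1) le_rfl r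
  simp only [Real.rpow_one, div_one, Fintype.card_fin] at h1
  have e : {y : V d | ∑ i, |s i - y i| ≤ r} =
      (fun y : V d => s - y) ⁻¹' (WithLp.ofLp ⁻¹' {x : Fin d → ℝ | ∑ i, |x i| ≤ r}) := by
    ext y; simp
  have hm : MeasurableSet {x : Fin d → ℝ | ∑ i, |x i| ≤ r} :=
    (isClosed_le (by fun_prop) continuous_const).measurableSet
  rw [e, (Measure.measurePreserving_sub_left volume s).measure_preimage
    ((PiLp.volume_preserving_ofLp (Fin d)).measurable hm).nullMeasurableSet,
    (PiLp.volume_preserving_ofLp (Fin d)).measure_preimage hm.nullMeasurableSet, h1,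
    Real.Gamma_nat_eq_factorial, show (1:ℝ) + 1 = 2 by norm_num, Real.Gamma_two, mul_one,
    ← ENNReal.ofReal_pow hr, ← ENNReal.ofReal_mul (by positivity)]
  congr 1
  rw [mul_pow]; ring

lemma corner_le (r : ℝ) (hr : r = 27 / 200 * d) : (2 * r) ^ d / d.factorial ≤ (3 / 4 : ℝ) ^ d := by
  have h1 := Real.pow_div_factorial_le_exp (d : ℝ) (Nat.cast_nonneg d) d
  have h2 : Real.exp d = Real.exp 1 ^ d := by rw [← Real.exp_nat_mul, mul_one]
  have h3 : Real.exp 1 ≤ 2.72 := by have := Real.exp_one_lt_d9; linarith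
  calc (2 * r) ^ d / d.factorial = (27 / 100) ^ d * ((d : ℝ) ^ d / d.factorial) := by
        rw [hr, show (2 : ℝ) * (27 / 200 * d) = 27 / 100 * d by ring, mul_pow]; ring
    _ ≤ (27 / 100) ^ d * Real.exp 1 ^ d := by rw [← h2]; gcongr
    _ = (27 / 100 * Real.exp 1) ^ d := by rw [mul_pow]
    _ ≤ (3 / 4) ^ d := by gcongr; linarith

lemma vol_box : volume {y : V d | ∀ i, |y i| ≤ 1 / 2} = 1 := by
  have e : {y : V d | ∀ i, |y i| ≤ 1 / 2} =
      WithLp.ofLp ⁻¹' (Icc (fun _ => -(1 / 2 : ℝ)) (fun _ => (1 / 2 : ℝ)) : Set (Fin d → ℝ)) := by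
    ext y
    simp only [mem_ofPred_eq, mem_preimage, mem_Icc, Pi.le_def, abs_le, forall_and]
  rw [e, (PiLp.volume_preserving_ofLp (Fin d)).measure_preimage measurableSet_Icc.nullMeasurableSet,
    Real.volume_Icc_pi]
  norm_num

end Pool.Agent.H26.Sr
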