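import Pool.Agent.H26.SrA

set_option autoImplicit false
open MeasureTheory Set
open scoped ENNReal

namespace Pool.Agent.H26.Sr

open Pool.Agent.H26.SrDefs

variable {d : ℕ} {A : Type} [Fintype A]

def K1 (χ : A → Fin d → ℝ) : Set (V d) :=
  {y | (∀ i, |y i| ≤ 1) ∧ ∀ a, |∑ i, χ a i * y i| ≤ 7 / 8 * d}

omit [Fintype A] in
lemma K1_closed (χ : A → Fin d → ℝ) : IsClosed (K1 χ) := by
  have : K1 χ = (⋂ i, {y : V d | |y i| ≤ 1}) ∩ ⋂ a, {y : V d | |∑ i, χ a i * y i| ≤ 7 / 8 * d} := by
    ext y; simp [K1]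
  rw [this]
  exact (isClosed_iInter fun i => isClosed_le (by fun_prop) continuous_const).inter
    (isClosed_iInter fun a => isClosed_le (by fun_prop) continuous_const)

omit [Fintype A] in
lemma K1_compact (χ : A → Fin d → ℝ) : IsCompact (K1 χ) := by
  refine Metric.isCompact_of_isClosed_isBounded (K1_closed χ) ?_
  refine (Metric.isBounded_closedBall (x := (0 : V d)) (r := Real.sqrt d)).subset fun y hy => ?_
  rw [mem_closedBall_zero_iff, EuclideanSpace.norm_eq]
  apply Real.sqrt_le_sqrt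
  calc ∑ i, ‖y i‖ ^ 2 ≤ ∑ _i : Fin d, (1 : ℝ) := Finset.sum_le_sum fun i _ => by
        have := hy.1 i
        rw [Real.norm_eq_abs]
        nlinarith [abs_nonneg (y i)]
    _ = d := by simp

omit [Fintype A] in
lemma box_sub (χ : A → Fin d → ℝ) (hχ : ∀ a i, χ a i * χ a i = 1) :
    {y : V d | ∀ i, |y i| ≤ 1 / 2} ⊆ K1 χ := by
  intro y hy
  refine ⟨fun i => (hy i).trans (by norm_num), fun a => ?_⟩
  calc |∑ i, χ a i * y i| ≤ ∑ i, |χ a i * y i| := Finset.abs_sum_le_sum_abs _ _
    _ ≤ ∑ _i : Fin d, (1 / 2 : ℝ) := Finset.sum_le_sum fun i _ => by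
        have h1 : |χ a i| = 1 := by
          rcases mul_self_eq_one_iff.1 (hχ a i) with h | h <;> rw [h] <;> norm_num
        rw [abs_mul, h1, one_mul]; exact hy i
    _ = 1 / 2 * d := by simp [mul_comm]
    _ ≤ 7 / 8 * d := by have : (0:ℝ) ≤ d := Nat.cast_nonneg d; linarith

omit [Fintype A] in
lemma K1_vol (χ : A → Fin d → ℝ) (hχ : ∀ a i, χ a i * χ a i = 1) : 1 ≤ vol (K1 χ) := by
  have h := measure_mono (μ := volume) (box_sub χ hχ)
  rw [vol_box] at h
  have := ENNReal.toReal_mono (K1_compact χ).measure_lt_top.ne h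
  simpa [vol] using this

lemma pre_compact (g : Fin d → ℝ) (hg : ∀ i, g i ≠ 0) {K : Set (V d)} (hK : IsCompact K) :
    IsCompact (L g ⁻¹' K) := by
  have : L g ⁻¹' K = L (fun i => (g i)⁻¹) '' K := by
    ext x
    constructor
    · intro hx
      refine ⟨_, hx, ?_⟩
      ext i; simp [hg i]
    · rintro ⟨y, hy, rfl⟩
      have : L g (L (fun i => (g i)⁻¹) y) = y := by ext i; simp [hg i]
      show L g _ ∈ K
      rwa [this]
  rw [this]; exact hK.image (L_cont _)

lemma open_box : IsOpen {y : V d | ∀ i, |y i| < 1 / 2} := by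
  have : {y : V d | ∀ i, |y i| < 1 / 2} = ⋂ i, {y : V d | |y i| < 1 / 2} := by ext y; simp
  rw [this]
  exact isOpen_iInter_of_finite fun i => isOpen_lt (by fun_prop) continuous_const

lemma poly (χ : A → Fin d → ℝ) (hχ : ∀ a i, χ a i * χ a i = 1) (g : Fin d → ℝ) (hg : ∀ i, g i ≠ 0)
    (N : ℕ) (hN : 2 * (d + Fintype.card A) ≤ N) : IsPolytope N (L g ⁻¹' K1 χ) := by
  classical
  refine ⟨pre_compact g hg (K1_compact χ), ⟨0, ?_⟩, ?_⟩
  · refine interior_maximal (t := L g ⁻¹' {y : V d | ∀ i, |y i| < 1 / 2}) ?_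
      (open_box.preimage (L_cont g)) (fun i => by simp)
    exact fun x hx => box_sub χ hχ fun i => (hx i).le
  · let w : Fin d ⊕ A → V d × ℝ := Sum.elim (fun i => (EuclideanSpace.single i (g i), 1))
      (fun a => (WithLp.toLp 2 fun i => χ a i * g i, 7 / 8 * d))
    let F : (Fin d ⊕ A) × Bool → V d × ℝ := fun p =>
      (if p.2 then (w p.1).1 else -(w p.1).1, (w p.1).2)
    refine ⟨Finset.univ.image F, Finset.card_image_le.trans ?_, ?_⟩
    · simp only [Finset.card_univ, Fintype.card_prod, Fintype.card_sum, Fintype.card_fin,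
        Fintype.card_bool]
      omega
    · have i1 : ∀ (i : Fin d) (x : V d), inner ℝ (EuclideanSpace.single i (g i)) x = g i * x i := by
        intro i x; simp [EuclideanSpace.inner_single_left]
      have i2 : ∀ (a : A) (x : V d), inner ℝ (WithLp.toLp 2 fun i => χ a i * g i : V d) x
          = ∑ i, χ a i * (g i * x i) := by
        intro a x
        simp only [PiLp.inner_apply, RCLike.inner_apply, conj_trivial]
        exact Finset.sum_congr rfl fun i _ => by ring
      ext x
      rw [mem_ofPred_eq, Finset.forall_mem_image]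
      simp only [Finset.mem_univ, forall_const, mem_ofPred_eq, mem_preimage, K1, L_apply, Prod.forall,
        Sum.forall, Bool.forall_bool, F, w, Sum.elim_inl, Sum.elim_inr, if_true,
        Bool.false_eq_true, if_false, inner_neg_left, i1, i2, abs_le]
      constructor
      · rintro ⟨h1, h2⟩
        exact ⟨fun i => ⟨by linarith [(h1 i).1], (h1 i).2⟩, fun a => ⟨by linarith [(h2 a).1], (h2 a).2⟩⟩
      · rintro ⟨h1, h2⟩
        exact ⟨fun i => ⟨by linarith [(h1 i).1], (h1 i).2⟩, fun a => ⟨by linarith [(h2 a).1], (h2 a).2⟩⟩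

omit [Fintype A] in
lemma symm (χ : A → Fin d → ℝ) (g : Fin d → ℝ) : IsSymm (L g ⁻¹' K1 χ) := by
  intro x hx
  show L g (-x) ∈ K1 χ
  rw [map_neg]
  refine ⟨fun i => by simpa using hx.1 i, fun a => ?_⟩
  have := hx.2 a
  simpa [Finset.sum_neg_distrib, abs_neg] using this

omit [Fintype A] in
lemma mean0 (χ : A → Fin d → ℝ) (i : Fin d) : ∫ y in K1 χ, y i = 0 := by
  have h := cov (fun _ => (-1 : ℝ)) (fun _ => by norm_num) (K1_closed χ).measurableSet
    (fun y => y i) (by fun_prop)
  have e : L (fun _ => (-1 : ℝ)) ⁻¹' K1 χ = K1 χ := by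
    ext y
    simp [K1, Finset.sum_neg_distrib, abs_neg]
  rw [e, cc_sign _ (fun _ => by norm_num)] at h
  simp only [L_apply, neg_mul, one_mul, integral_neg] at h
  linarith

omit [Fintype A] in
lemma offdiag (χ : A → Fin d → ℝ) (i j : Fin d) (σ : Fin d → ℝ) (hσ : ∀ k, σ k * σ k = 1)
    (hij : σ i * σ j = -1) (hcl : ∀ a, ∃ a', ∀ k, χ a k * σ k = χ a' k) :
    ∫ y in K1 χ, y i * y j = 0 := by
  have hne : ∀ k, σ k ≠ 0 := fun k h => by have := hσ k; rw [h] at this; norm_num at this
  have h := cov σ hne (K1_closed χ).measurableSet (fun y => y i * y j) (by fun_prop)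
  have habs : ∀ k, |σ k| = 1 := fun k => by
    rcases mul_self_eq_one_iff.1 (hσ k) with h | h <;> rw [h] <;> norm_num
  have sub : ∀ y ∈ K1 χ, L σ y ∈ K1 χ := by
    intro y hy
    refine ⟨fun k => by rw [L_apply, abs_mul, habs, one_mul]; exact hy.1 k, fun a => ?_⟩
    obtain ⟨a', ha'⟩ := hcl a
    have := hy.2 a'
    simp only [L_apply, ← mul_assoc, ha']
    exact this
  have e : L σ ⁻¹' K1 χ = K1 χ := by
    ext y
    refine ⟨fun hy => ?_, sub y⟩
    have := sub _ hy
    rwa [show L σ (L σ y) = y by ext k; simp [← mul_assoc, hσ k]] at this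
  rw [e, cc_sign _ hσ] at h
  have e2 : ∀ y : V d, L σ y i * L σ y j = -(y i * y j) := fun y => by
    simp only [L_apply]; linear_combination (y i * y j) * hij
  simp only [e2, integral_neg, one_mul] at h
  linarith

noncomputable def mm (χ : A → Fin d → ℝ) (i : Fin d) : ℝ := (∫ y in K1 χ, y i * y i) / vol (K1 χ)

omit [Fintype A] in
lemma mm_pos (χ : A → Fin d → ℝ) (hχ : ∀ a i, χ a i * χ a i = 1) (i : Fin d) : 0 < mm χ i := by
  refine div_pos ?_ (lt_of_lt_of_le one_pos (K1_vol χ hχ))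
  rw [setIntegral_pos_iff_support_of_nonneg_ae (Filter.Eventually.of_forall fun y => mul_self_nonneg _)
    (ContinuousOn.integrableOn_compact (K1_compact χ) (by fun_prop))]
  have ho : IsOpen ({y : V d | ∀ i, |y i| < 1 / 2} ∩ {y : V d | 0 < y i}) :=
    open_box.inter (isOpen_lt continuous_const (by fun_prop))
  refine lt_of_lt_of_le (ho.measure_pos volume ⟨WithLp.toLp 2 fun _ => 1 / 4, fun k => ?_, ?_⟩)
    (measure_mono ?_)
  · show |(1 / 4 : ℝ)| < 1 / 2
    rw [abs_of_pos] <;> norm_num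
  · show (0 : ℝ) < 1 / 4
    norm_num
  · rintro y ⟨h1, h2⟩
    exact ⟨(mul_pos h2 h2).ne', box_sub χ hχ fun k => (h1 k).le⟩

omit [Fintype A] in
lemma mm_le (χ : A → Fin d → ℝ) (hχ : ∀ a i, χ a i * χ a i = 1) (i : Fin d) : mm χ i ≤ 1 := by
  rw [mm, div_le_one (lt_of_lt_of_le one_pos (K1_vol χ hχ))]
  calc ∫ y in K1 χ, y i * y i ≤ ∫ _y in K1 χ, (1 : ℝ) := by
        refine setIntegral_mono_on (ContinuousOn.integrableOn_compact (K1_compact χ) (by fun_prop))
          (ContinuousOn.integrableOn_compact (K1_compact χ) (by fun_prop))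
          (K1_closed χ).measurableSet fun y hy => ?_
        have := abs_le.1 (hy.1 i)
        nlinarith
    _ = vol (K1 χ) := by simp [vol, Measure.real]

omit [Fintype A] in
lemma vol_K (χ : A → Fin d → ℝ) (g : Fin d → ℝ) (hg : ∀ i, g i ≠ 0) :
    vol (L g ⁻¹' K1 χ) = cc g * vol (K1 χ) := by
  rw [vol, vol_pre g hg, ENNReal.toReal_mul, ENNReal.toReal_ofReal (cc_pos g hg).le, vol]

omit [Fintype A] in
lemma iso (χ : A → Fin d → ℝ) (hχ : ∀ a i, χ a i * χ a i = 1)
    (hoff : ∀ i j, i ≠ j → ∫ y in K1 χ, y i * y j = 0)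
    (g : Fin d → ℝ) (hg : ∀ i, g i * g i = mm χ i) : IsIsotropic (L g ⁻¹' K1 χ) := by
  have hne : ∀ k, g k ≠ 0 := fun k h => by
    have := hg k; rw [h, mul_zero] at this; exact (mm_pos χ hχ k).ne this
  have hc := cc_pos g hne
  have hv := lt_of_lt_of_le one_pos (K1_vol χ hχ)
  constructor
  · intro i
    have h := cov g hne (K1_closed χ).measurableSet (fun y => y i) (by fun_prop)
    simp only [L_apply, integral_const_mul, mean0, mul_zero] at h
    rw [avg, (mul_eq_zero.1 h).resolve_left (hne i), zero_div]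
  · intro i j
    have h := cov g hne (K1_closed χ).measurableSet (fun y => y i * y j) (by fun_prop)
    have e : ∀ x : V d, L g x i * L g x j = (g i * g j) * (x i * x j) := fun x => by
      simp only [L_apply]; ring
    simp only [e, integral_const_mul] at h
    rw [avg, vol_K χ g hne]
    split_ifs with hij
    · subst hij
      have hm := mm_pos χ hχ i
      have h2 : ∫ y in K1 χ, y i * y i = mm χ i * vol (K1 χ) := by rw [mm]; field_simp
      rw [hg, h2] at h
      rw [div_eq_one_iff_eq (by positivity)]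
      apply mul_left_cancel₀ hm.ne'
      rw [h]; ring
    · rw [hoff i j hij, mul_zero] at h
      rw [(mul_eq_zero.1 h).resolve_left (mul_ne_zero (hne i) (hne j)), zero_div]

end Pool.Agent.H26.Sr
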