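import Pool.Agent.H26.SrB

set_option autoImplicit false
open MeasureTheory Set
open scoped ENNReal

namespace Pool.Agent.H26.Sr

open Pool.Agent.H26.SrDefs

variable {d : ℕ} {A : Type} [Fintype A]

def UU (χ : A → Fin d → ℝ) : Set (V d) :=
  ⋃ p : A × Bool, {y : V d | ∑ i,
    |(WithLp.toLp 2 fun k => (if p.2 then 1 else -1) * χ p.1 k : V d) i - y i| ≤ 27 / 200 * d}

lemma UU_vol (hd : 0 < d) (χ : A → Fin d → ℝ) :
    volume (UU χ) ≤ ENNReal.ofReal (2 * Fintype.card A * (3 / 4) ^ d) := by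
  refine (measure_iUnion_fintype_le _ _).trans ?_
  calc _ ≤ ∑ _p : A × Bool, ENNReal.ofReal ((3 / 4 : ℝ) ^ d) := Finset.sum_le_sum fun p _ => by
        rw [vol_corner hd _ _ (by positivity)]
        exact ENNReal.ofReal_le_ofReal (corner_le _ rfl)
    _ = _ := by
        rw [Finset.sum_const, Finset.card_univ, Fintype.card_prod, Fintype.card_bool, nsmul_eq_mul,
          ← ENNReal.ofReal_natCast, ← ENNReal.ofReal_mul (by positivity)]
        congr 1; push_cast; ring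

omit [Fintype A] in
lemma thick (χ : A → Fin d → ℝ) (hχ : ∀ a i, χ a i * χ a i = 1) (g : Fin d → ℝ)
    (hg : ∀ i, |g i| ≤ 1) {θ : V d} (hθ : ‖θ‖ = 1) (x : V d) (hx : ∀ i, |g i * x i| ≤ 1)
    (hn : L g x ∉ K1 χ) (t : ℝ) (ht : |t| ≤ 1 / 100) : L g (x + t • θ) ∈ UU χ := by
  have : ∃ a, 7 / 8 * (d : ℝ) < |∑ i, χ a i * (g i * x i)| := by
    by_contra hc
    push Not at hc
    exact hn ⟨hx, hc⟩
  obtain ⟨a, ha⟩ := this
  have : ∃ b : Bool, 7 / 8 * (d : ℝ) < ∑ i, (if b then 1 else -1) * χ a i * (g i * x i) := by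
    rcases lt_abs.1 ha with h | h
    · exact ⟨true, by simpa using h⟩
    · exact ⟨false, by simpa [Finset.sum_neg_distrib] using h⟩
  obtain ⟨b, hb⟩ := this
  refine mem_iUnion.2 ⟨(a, b), ?_⟩
  show ∑ i, |(if b then 1 else -1) * χ a i - g i * (x i + t * θ i)| ≤ 27 / 200 * d
  have key : ∀ i, |(if b then 1 else -1) * χ a i - g i * (x i + t * θ i)| ≤
      (1 + 1 / 100) - (if b then 1 else -1) * χ a i * (g i * x i) := by
    intro i
    have h1 : |θ i| ≤ 1 := by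
      have := PiLp.norm_apply_le θ i
      rwa [hθ, Real.norm_eq_abs] at this
    have h2 : |g i * (t * θ i)| ≤ 1 / 100 := by
      rw [abs_mul, abs_mul]
      calc |g i| * (|t| * |θ i|) ≤ 1 * (1 / 100 * 1) := by gcongr; exact hg i
        _ = 1 / 100 := by norm_num
    have h3 := abs_le.1 (hx i)
    have h4 := abs_le.1 h2
    have h5 : (if b then 1 else -1) * χ a i = 1 ∨ (if b then 1 else -1) * χ a i = -1 := by
      rcases mul_self_eq_one_iff.1 (hχ a i) with h | h <;> cases b <;> simp [h]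
    rw [mul_add, abs_le]
    rcases h5 with h | h <;> rw [h] <;> constructor <;> linarith
  calc _ ≤ ∑ i, ((1 + 1 / 100) - (if b then 1 else -1) * χ a i * (g i * x i)) :=
        Finset.sum_le_sum fun i _ => key i
    _ = (1 + 1 / 100) * d - ∑ i, (if b then 1 else -1) * χ a i * (g i * x i) := by
        rw [Finset.sum_sub_distrib, Finset.sum_const, Finset.card_univ, Fintype.card_fin,
          nsmul_eq_mul, mul_comm]
    _ ≤ 27 / 200 * d := by linarith

lemma sec_le (hd : 0 < d) (χ : A → Fin d → ℝ) (hχ : ∀ a i, χ a i * χ a i = 1) (g h : Fin d → ℝ)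
    (hg0 : ∀ i, g i ≠ 0) (hg : ∀ i, |g i| ≤ 1) (hgh : ∀ i, |h i| = |g i|) {θ : V d}
    (hθ : ‖θ‖ = 1) :
    secVol (L h ⁻¹' K1 χ) θ ≤
      secVol (L g ⁻¹' K1 χ) θ + cc g * (100 * Fintype.card A * (3 / 4) ^ d) := by
  let W : Submodule ℝ (V d) := (Submodule.span ℝ ({θ} : Set (V d)))ᗮ
  let R : Set W := {x | (∀ i, |g i * (x : V d) i| ≤ 1) ∧ L g (x : V d) ∉ K1 χ}
  have hc := cc_pos g hg0
  have h1 : ENNReal.ofReal (2 * (1 / 100)) * volume R ≤ volume (L g ⁻¹' UU χ) :=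
    slab hθ R _ _ fun x hx t ht => thick χ hχ g hg hθ x hx.1 hx.2 t ht
  rw [vol_pre g hg0] at h1
  have h2 : volume R ≤ ENNReal.ofReal (cc g * (100 * Fintype.card A * (3 / 4) ^ d)) := by
    calc volume R = ENNReal.ofReal 50 * (ENNReal.ofReal (2 * (1 / 100)) * volume R) := by
          rw [← mul_assoc, ← ENNReal.ofReal_mul (by norm_num)]; norm_num
      _ ≤ ENNReal.ofReal 50 * (ENNReal.ofReal (cc g) *
            ENNReal.ofReal (2 * Fintype.card A * (3 / 4) ^ d)) := by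
          exact mul_le_mul_right (h1.trans (mul_le_mul_right (UU_vol hd χ) _)) _
      _ = _ := by
          rw [← ENNReal.ofReal_mul hc.le, ← ENNReal.ofReal_mul (by norm_num)]
          congr 1; ring
  have h3 : {x : W | (x : V d) ∈ L h ⁻¹' K1 χ} ⊆ {x : W | (x : V d) ∈ L g ⁻¹' K1 χ} ∪ R := by
    intro x hx
    by_cases hm : L g (x : V d) ∈ K1 χ
    · exact Or.inl hm
    · refine Or.inr ⟨fun i => ?_, hm⟩
      have := hx.1 i
      rw [L_apply, abs_mul, hgh] at this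
      rwa [abs_mul]
  have fin : volume {x : W | (x : V d) ∈ L g ⁻¹' K1 χ} ≠ ⊤ := by
    have : IsCompact ((Subtype.val : W → V d) ⁻¹' (L g ⁻¹' K1 χ)) :=
      (W.closed_of_finiteDimensional.isClosedEmbedding_subtypeVal).isCompact_preimage
        (pre_compact g hg0 (K1_compact χ))
    exact this.measure_lt_top.ne
  have h4 : volume {x : W | (x : V d) ∈ L h ⁻¹' K1 χ} ≤
      volume {x : W | (x : V d) ∈ L g ⁻¹' K1 χ} +
        ENNReal.ofReal (cc g * (100 * Fintype.card A * (3 / 4) ^ d)) :=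
    (measure_mono h3).trans ((measure_union_le _ _).trans (by gcongr))
  have h5 := ENNReal.toReal_mono (ENNReal.add_ne_top.2 ⟨fin, ENNReal.ofReal_ne_top⟩) h4
  rw [ENNReal.toReal_add fin ENNReal.ofReal_ne_top, ENNReal.toReal_ofReal (by positivity)] at h5
  exact h5

theorem core (hd : 4 ≤ d) (χ : A → Fin d → ℝ) (hA : Fintype.card A ≤ d)
    (hχ : ∀ a i, χ a i * χ a i = 1) (h0 : ∃ a, ∀ i, χ a i = 1)
    (hsep : ∀ i j, i ≠ j → ∃ σ : Fin d → ℝ, (∀ k, σ k * σ k = 1) ∧ σ i * σ j = -1 ∧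
      ∀ a, ∃ a', ∀ k, χ a k * σ k = χ a' k)
    (f : Fin d → ℝ) (hf : ∀ i, f i * f i = 1) (hfar : ∀ a, |∑ i, χ a i * f i| ≤ 7 / 8 * d) :
    ∃ P Q : Set (V d), IsPolytope (d ^ 2) P ∧ IsPolytope (d ^ 2) Q ∧ IsSymm P ∧ IsSymm Q ∧
      IsIsotropic P ∧ IsIsotropic Q ∧
      (∀ θ : V d, ‖θ‖ = 1 → |relArea P θ - relArea Q θ| ≤ 100 * d * (3 / 4) ^ d) ∧
      1 / 10 < Metric.hausdorffDist P Q := by
  have hoff : ∀ i j, i ≠ j → ∫ y in K1 χ, y i * y j = 0 := fun i j hij => by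
    obtain ⟨σ, h1, h2, h3⟩ := hsep i j hij
    exact offdiag χ i j σ h1 h2 h3
  let μ : Fin d → ℝ := fun i => Real.sqrt (mm χ i)
  have μp : ∀ i, 0 < μ i := fun i => Real.sqrt_pos.2 (mm_pos χ hχ i)
  have μ2 : ∀ i, μ i * μ i = mm χ i := fun i => Real.mul_self_sqrt (mm_pos χ hχ i).le
  have μ1 : ∀ i, μ i ≤ 1 := fun i => Real.sqrt_le_one.2 (mm_le χ hχ i)
  have fa : ∀ i, |f i| = 1 := fun i => by
    rcases mul_self_eq_one_iff.1 (hf i) with h | h <;> rw [h] <;> norm_num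
  let ν : Fin d → ℝ := fun i => f i * μ i
  have νa : ∀ i, |ν i| = |μ i| := fun i => by simp only [ν, abs_mul, fa, one_mul]
  have μ0 : ∀ i, μ i ≠ 0 := fun i => (μp i).ne'
  have ν0 : ∀ i, ν i ≠ 0 := fun i => abs_pos.1 (by rw [νa]; exact abs_pos.2 (μ0 i))
  have μa : ∀ i, |μ i| ≤ 1 := fun i => by rw [abs_of_pos (μp i)]; exact μ1 i
  have hN : 2 * (d + Fintype.card A) ≤ d ^ 2 := by nlinarith
  have hcc : cc ν = cc μ := by
    have := cc_mul f μ
    rw [cc_sign f hf, one_mul] at this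
    exact this
  have pP := poly χ hχ μ μ0 _ hN
  have pQ := poly χ hχ ν ν0 _ hN
  refine ⟨L μ ⁻¹' K1 χ, L ν ⁻¹' K1 χ, pP, pQ, symm χ μ, symm χ ν, iso χ hχ hoff μ μ2,
    iso χ hχ hoff ν (fun i => by rw [← μ2]; simp only [ν]; linear_combination (μ i * μ i) * hf i),
    fun θ hθ => ?_, ?_⟩
  · have a1 := sec_le (by omega) χ hχ μ ν μ0 μa νa hθ
    have a2 := sec_le (by omega) χ hχ ν μ ν0 (fun i => by rw [νa]; exact μa i)
      (fun i => (νa i).symm) hθ
    rw [hcc] at a2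
    have hc := cc_pos μ μ0
    have hv := K1_vol χ hχ
    rw [relArea, relArea, vol_K χ μ μ0, vol_K χ ν ν0, hcc, ← sub_div, abs_div,
      abs_of_pos (a := cc μ * vol (K1 χ)) (by positivity), div_le_iff₀ (by positivity)]
    have hA' : (Fintype.card A : ℝ) ≤ d := by exact_mod_cast hA
    calc _ ≤ cc μ * (100 * Fintype.card A * (3 / 4) ^ d) := abs_le.2 ⟨by linarith, by linarith⟩
      _ ≤ cc μ * (100 * d * (3 / 4) ^ d) := by gcongr
      _ = 100 * d * (3 / 4) ^ d * (cc μ * 1) := by ring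
      _ ≤ 100 * d * (3 / 4) ^ d * (cc μ * vol (K1 χ)) := by gcongr
  · obtain ⟨a, ha⟩ := h0
    let x : V d := WithLp.toLp 2 fun i => (μ i)⁻¹
    have hx : x ∈ L ν ⁻¹' K1 χ := by
      have e : ∀ i, L ν x i = f i := fun i => by
        show f i * μ i * (μ i)⁻¹ = f i
        rw [mul_assoc, mul_inv_cancel₀ (μ0 i), mul_one]
      exact ⟨fun i => by rw [e, fa], fun a => by simp only [e]; exact hfar a⟩
    have nP : (L μ ⁻¹' K1 χ).Nonempty := pP.2.1.mono interior_subset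
    have fin : Metric.hausdorffEDist (L ν ⁻¹' K1 χ) (L μ ⁻¹' K1 χ) ≠ ⊤ :=
      Metric.hausdorffEDist_ne_top_of_nonempty_of_bounded ⟨x, hx⟩ nP pQ.1.isBounded pP.1.isBounded
    rw [Metric.hausdorffDist_comm]
    refine lt_of_lt_of_le ?_ (Metric.infDist_le_hausdorffDist_of_mem hx fin)
    refine lt_of_lt_of_le (show (1:ℝ) / 10 < 1 / 8 by norm_num) ?_
    rw [Metric.le_infDist nP]
    intro y hy
    have h1 := (abs_le.1 (hy.2 a)).2
    simp only [ha, one_mul, L_apply] at h1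
    have h2 : ∀ i, 1 - μ i * y i ≤ dist x y := fun i => by
      have e1 : |(x - y) i| ≤ dist x y := by
        rw [dist_eq_norm, ← Real.norm_eq_abs]; exact PiLp.norm_apply_le (x - y) i
      have e2 : 1 - μ i * y i = μ i * (x - y) i := by
        show _ = μ i * ((μ i)⁻¹ - y i)
        rw [mul_sub, mul_inv_cancel₀ (μ0 i)]
      rw [e2]
      calc μ i * (x - y) i ≤ |μ i * (x - y) i| := le_abs_self _
        _ = |μ i| * |(x - y) i| := abs_mul _ _
        _ ≤ 1 * dist x y := by gcongr; exact μa i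
        _ = dist x y := one_mul _
    have h3 : ∑ i, (1 - μ i * y i) ≤ ∑ _i : Fin d, dist x y := Finset.sum_le_sum fun i _ => h2 i
    rw [Finset.sum_sub_distrib] at h3
    simp only [Finset.sum_const, Finset.card_univ, Fintype.card_fin, nsmul_eq_mul, mul_one] at h3
    have hd' : (0 : ℝ) < d := by exact_mod_cast (by omega : 0 < d)
    by_contra hc
    push Not at hc
    nlinarith

end Pool.Agent.H26.Sr
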