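import Pool.Agent.H26.SrC

set_option autoImplicit false
open MeasureTheory Set Filter Topology

namespace Pool.Agent.H26.Sr

open Pool.Agent.H26.SrDefs

noncomputable def ep (a b : Bool) : ℝ := if a && b then -1 else 1

lemma ep_sq (a b : Bool) : ep a b * ep a b = 1 := by cases a <;> cases b <;> simp [ep]

lemma ep_flip (a b : Bool) : ep a b * ep true b = ep (!a) b := by cases a <;> cases b <;> simp [ep]

noncomputable def ch {m : ℕ} (a x : Fin m → Bool) : ℝ := ∏ b, ep (a b) (x b)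

lemma ch_sq {m : ℕ} (a x : Fin m → Bool) : ch a x * ch a x = 1 := by
  unfold ch; rw [← Finset.prod_mul_distrib]; simp [ep_sq]

lemma ch_flip {m : ℕ} (a x : Fin m → Bool) (b : Fin m) :
    ch a x * ep true (x b) = ch (Function.update a b (!a b)) x := by
  unfold ch
  rw [← Finset.mul_prod_erase _ _ (Finset.mem_univ b),
    ← Finset.mul_prod_erase _ (fun c => ep (Function.update a b (!a b) c) (x c)) (Finset.mem_univ b),
    Function.update_self, ← ep_flip]
  have : ∏ c ∈ Finset.univ.erase b, ep (Function.update a b (!a b) c) (x c)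
      = ∏ c ∈ Finset.univ.erase b, ep (a c) (x c) :=
    Finset.prod_congr rfl fun c hc => by rw [Function.update_of_ne (Finset.ne_of_mem_erase hc)]
  rw [this]; ring

lemma ch_sum {m : ℕ} (a : Fin m → Bool) (ha : ∃ b, a b = true) : ∑ x, ch a x = 0 := by
  obtain ⟨b, hb⟩ := ha
  unfold ch
  have := Finset.prod_univ_sum (fun _ : Fin m => (Finset.univ : Finset Bool))
    (fun c y => ep (a c) y)
  rw [Fintype.piFinset_univ] at this
  rw [← this]
  exact Finset.prod_eq_zero (Finset.mem_univ b) (by simp [ep, hb])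

theorem had (m : ℕ) : ∃ P Q : Set (V (2 ^ (m + 2))), IsPolytope ((2 ^ (m + 2)) ^ 2) P ∧
      IsPolytope ((2 ^ (m + 2)) ^ 2) Q ∧ IsSymm P ∧ IsSymm Q ∧ IsIsotropic P ∧ IsIsotropic Q ∧
      (∀ θ : V (2 ^ (m + 2)), ‖θ‖ = 1 → |relArea P θ - relArea Q θ| ≤
        100 * ((2 ^ (m + 2) : ℕ) : ℝ) * (3 / 4) ^ (2 ^ (m + 2))) ∧
      1 / 10 < Metric.hausdorffDist P Q := by
  classical
  have hc : Fintype.card (Fin (m + 2) → Bool) = 2 ^ (m + 2) := by simp
  let e : (Fin (m + 2) → Bool) ≃ Fin (2 ^ (m + 2)) := Fintype.equivFinOfCardEq hc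
  have h4 : 2 ^ (m + 2) = 4 * 2 ^ m := by ring
  have hp : 0 < 2 ^ m := Nat.two_pow_pos m
  refine core (by omega) (fun a i => ch a (e.symm i)) hc.le (fun a i => ch_sq _ _)
    ⟨fun _ => false, fun i => by simp [ch, ep]⟩ ?_
    (fun i => if i.val < 2 ^ m then -1 else 1) (fun i => by split_ifs <;> norm_num) ?_
  · intro i j hij
    have : e.symm i ≠ e.symm j := fun h => hij (e.symm.injective h)
    obtain ⟨b, hb⟩ := Function.ne_iff.1 this
    refine ⟨fun k => ep true (e.symm k b), fun k => ep_sq _ _, ?_,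
      fun a => ⟨_, fun k => ch_flip a _ b⟩⟩
    show ep true (e.symm i b) * ep true (e.symm j b) = -1
    revert hb
    cases e.symm i b <;> cases e.symm j b <;> simp [ep]
  · intro a
    let S : Finset (Fin (2 ^ (m + 2))) := Finset.univ.filter fun i => i.val < 2 ^ m
    have hS : S.card = 2 ^ m := by
      simp only [S, Fin.card_filter_val_lt]; omega
    have e1 : ∑ i : Fin (2 ^ (m + 2)), ch a (e.symm i) * (if i.val < 2 ^ m then -1 else 1)
        = ∑ x, ch a x - 2 * ∑ i ∈ S, ch a (e.symm i) := by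
      rw [← e.symm.sum_comp (fun x => ch a x), Finset.sum_filter, Finset.mul_sum,
        ← Finset.sum_sub_distrib]
      exact Finset.sum_congr rfl fun i _ => by split_ifs <;> ring
    have hD : ((2 ^ (m + 2) : ℕ) : ℝ) = 4 * 2 ^ m := by rw [h4]; push_cast; ring
    have hq : (0 : ℝ) < 2 ^ m := by positivity
    show |∑ i : Fin (2 ^ (m + 2)), ch a (e.symm i) * (if i.val < 2 ^ m then -1 else 1)| ≤ _
    rw [e1, hD]
    by_cases ha : ∃ b, a b = true
    · rw [ch_sum a ha, zero_sub, abs_neg, abs_mul, abs_two]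
      have : |∑ i ∈ S, ch a (e.symm i)| ≤ 2 ^ m := by
        calc _ ≤ ∑ i ∈ S, |ch a (e.symm i)| := Finset.abs_sum_le_sum_abs _ _
          _ = ∑ _i ∈ S, (1 : ℝ) := Finset.sum_congr rfl fun i _ => by
              rcases mul_self_eq_one_iff.1 (ch_sq a (e.symm i)) with h | h <;> rw [h] <;> norm_num
          _ = 2 ^ m := by simp [hS]
      linarith
    · have h1 : ∀ x, ch a x = 1 := fun x => Finset.prod_eq_one fun b _ => by
        have : a b = false := by
          cases h : a b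
          · rfl
          · exact (ha ⟨b, h⟩).elim
        simp [ep, this]
      simp only [h1, Finset.sum_const, Finset.card_univ, hc, hS, nsmul_eq_mul, mul_one, hD]
      push_cast
      rw [abs_le]; constructor <;> linarith

theorem main : ∃ t : ℕ, 0 < t ∧ ∀ t' : ℕ, 0 < t' → ∃ d : ℕ, 2 ≤ d ∧ ∃ P Q : Set (V d),
    IsPolytope (d ^ t) P ∧ IsPolytope (d ^ t) Q ∧ IsSymm P ∧ IsSymm Q ∧
      IsIsotropic P ∧ IsIsotropic Q ∧
      (∀ θ : V d, ‖θ‖ = 1 → |relArea P θ - relArea Q θ| ≤ ((d : ℝ) ^ t')⁻¹) ∧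
      1 / 10 < Metric.hausdorffDist P Q := by
  refine ⟨2, two_pos, fun t' _ => ?_⟩
  have h := tendsto_pow_const_mul_const_pow_of_abs_lt_one (t' + 1)
    (show |(3 / 4 : ℝ)| < 1 by rw [abs_of_pos] <;> norm_num)
  obtain ⟨N, hN⟩ := eventually_atTop.1 (h.eventually (gt_mem_nhds (show (0 : ℝ) < 1 / 100 by norm_num)))
  have hlt : N < 2 ^ N := Nat.lt_two_pow_self
  have h4 : 2 ^ (N + 2) = 4 * 2 ^ N := by ring
  obtain ⟨P, Q, h1, h2, h3, h5, h6, h7, h8, h9⟩ := had N
  refine ⟨2 ^ (N + 2), by omega, P, Q, h1, h2, h3, h5, h6, h7, fun θ hθ => (h8 θ hθ).trans ?_, h9⟩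
  have hb := hN (2 ^ (N + 2)) (by omega)
  have hpos : (0 : ℝ) < ((2 ^ (N + 2) : ℕ) : ℝ) := by positivity
  rw [← one_div, le_div_iff₀ (by positivity)]
  rw [pow_succ] at hb
  nlinarith

end Pool.Agent.H26.Sr
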