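import Mathlib

set_option autoImplicit false
open MeasureTheory

namespace Pool.Agent.H26.SrDefs

/-- Euclidean `d`-space. -/
abbrev V (d : ℕ) : Type := EuclideanSpace ℝ (Fin d)

/-- `d`-dimensional volume as a real number. -/
noncomputable def vol {d : ℕ} (P : Set (V d)) : ℝ := (volume P).toReal

/-- A polytope (compact, nonempty interior) cut out by at most `N` half-spaces, that is, with at
most `N` facets. -/
def IsPolytope {d : ℕ} (N : ℕ) (P : Set (V d)) : Prop :=
  IsCompact P ∧ (interior P).Nonempty ∧
    ∃ s : Finset (V d × ℝ), s.card ≤ N ∧ P = {x | ∀ h ∈ s, inner ℝ h.1 x ≤ h.2}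

/-- Central symmetry. -/
def IsSymm {d : ℕ} (P : Set (V d)) : Prop := ∀ x ∈ P, -x ∈ P

/-- The mean of `f` under the uniform distribution on `P`. -/
noncomputable def avg {d : ℕ} (P : Set (V d)) (f : V d → ℝ) : ℝ := (∫ x in P, f x) / vol P

/-- The uniform distribution on `P` has mean zero and identity covariance. -/
def IsIsotropic {d : ℕ} (P : Set (V d)) : Prop :=
  (∀ i : Fin d, avg P (fun x => x i) = 0) ∧
    ∀ i j : Fin d, avg P (fun x => x i * x j) = if i = j then 1 else 0

/-- Lebesgue measure of `P ∩ W` inside the subspace `W` with its Euclidean structure. -/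
noncomputable def subVol {E : Type} [NormedAddCommGroup E] [InnerProductSpace ℝ E]
    [FiniteDimensional ℝ E] [MeasurableSpace E] [BorelSpace E] (W : Submodule ℝ E) (P : Set E) : ℝ :=
  (volume {x : W | (x : E) ∈ P}).toReal

/-- The hyperplane orthogonal to `θ`. -/
noncomputable def perp {d : ℕ} (θ : V d) : Submodule ℝ (V d) := (Submodule.span ℝ {θ})ᗮ

/-- The `(d-1)`-volume of the central section of `P` orthogonal to `θ`. -/
noncomputable def secVol {d : ℕ} (P : Set (V d)) (θ : V d) : ℝ := subVol (perp θ) P

/-- The relative central sectional area. -/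
noncomputable def relArea {d : ℕ} (P : Set (V d)) (θ : V d) : ℝ := secVol P θ / vol P

end Pool.Agent.H26.SrDefs
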