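import Pool.Agent.H26.PL

set_option autoImplicit false

namespace Pool.Agent.H26.Ss

open Set MeasureTheory Filter Topology
open scoped ENNReal

theorem fib {G H : Type} [AddCommGroup G] [MeasurableSpace G] [MeasurableAdd₂ G]
    [MeasurableNeg G] [MeasurableSpace H] (μ : Measure G) [SFinite μ] [μ.IsAddRightInvariant]
    (ν : Measure H) [SFinite ν] {T : H → G} (hT : Measurable T) {W : Set G}
    (hW : MeasurableSet W) (h1 : ∀ y, ν {t | y - T t ∈ W} = 1) {A : Set G}
    (hA : MeasurableSet A) : μ A = ∫⁻ x, W.indicator (fun x => ν {t | x + T t ∈ A}) x ∂μ := by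
  let f : G → H → ℝ≥0∞ := fun x t => W.indicator 1 x * A.indicator 1 (x + T t)
  let g : G → H → ℝ≥0∞ := fun y t => W.indicator 1 (y - T t) * A.indicator 1 y
  have mW : Measurable (W.indicator (1 : G → ℝ≥0∞)) := measurable_one.indicator hW
  have mA : Measurable (A.indicator (1 : G → ℝ≥0∞)) := measurable_one.indicator hA
  have mf : Measurable (Function.uncurry f) :=
    (mW.comp measurable_fst).mul (mA.comp (measurable_fst.add (hT.comp measurable_snd)))
  have mg : Measurable (Function.uncurry g) :=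
    (mW.comp (measurable_fst.sub (hT.comp measurable_snd))).mul (mA.comp measurable_fst)
  have e1 : ∀ x, W.indicator (fun x => ν {t | x + T t ∈ A}) x = ∫⁻ t, f x t ∂ν := by
    intro x
    have m : MeasurableSet {t | x + T t ∈ A} := (measurable_const.add hT) hA
    by_cases hx : x ∈ W
    · simp only [f, indicator_of_mem hx, Pi.one_apply, one_mul]
      rw [← lintegral_indicator_one m]; rfl
    · simp [f, hx]
  have e2 : ∀ y, A.indicator 1 y = ∫⁻ t, g y t ∂ν := by
    intro y
    have m : MeasurableSet {t | y - T t ∈ W} := (measurable_const.sub hT) hW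
    by_cases hy : y ∈ A
    · simp only [g, indicator_of_mem hy, Pi.one_apply, mul_one]
      rw [← h1 y, ← lintegral_indicator_one m]; rfl
    · simp [g, hy]
  rw [← lintegral_indicator_one hA]
  simp only [e1, e2]
  rw [lintegral_lintegral_swap mf.aemeasurable, lintegral_lintegral_swap mg.aemeasurable]
  congr 1
  funext t
  rw [← lintegral_add_right_eq_self (fun y => g y t) (T t)]
  simp [f, g]

variable {E : Type} [NormedAddCommGroup E] [InnerProductSpace ℝ E]

/-- reflection in the hyperplane orthogonal to `u` -/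
noncomputable def rf (u z : E) : E := z - (2 * inner ℝ z u) • u

theorem rf_norm {u : E} (hu : ‖u‖ = 1) (z : E) : ‖rf u z‖ = ‖z‖ := by
  have : ‖rf u z‖ ^ 2 = ‖z‖ ^ 2 := by
    rw [rf, norm_sub_sq_real, inner_smul_right, norm_smul, hu, Real.norm_eq_abs, mul_one, sq_abs]
    ring
  exact (pow_left_inj₀ (norm_nonneg _) (norm_nonneg _) two_ne_zero).1 this

theorem rf_sub (u y z : E) : rf u (y - z) = rf u y - rf u z := by
  simp only [rf, inner_sub_left]; module

noncomputable def av (u y z : E) : E := (1 / 2 : ℝ) • (y + rf u z)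

theorem av_norm {u : E} (hu : ‖u‖ = 1) {y z : E} {r : ℝ} (hy : ‖y‖ ≤ r) (hz : ‖z‖ ≤ r) :
    ‖av u y z‖ ≤ r := by
  have := norm_add_le y (rf u z)
  rw [rf_norm hu] at this
  rw [av, norm_smul, Real.norm_eq_abs, abs_of_pos (by norm_num)]
  linarith

theorem av_sub (u y z y' z' : E) : av u y z - av u y' z' = av u (y - y') (z - z') := by
  simp only [av, rf_sub]; module

theorem av_line {u : E} (hu : ‖u‖ = 1) (x : E) (s t : ℝ) :
    av u (x + s • u) (x + t • u) = x + ((s - t) / 2 - inner ℝ x u) • u := by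
  simp only [av, rf, inner_add_left, inner_smul_left, real_inner_self_eq_norm_sq, hu,
    RCLike.conj_to_real]
  module

/-- Steiner symmetral of a convex set -/
def St (u : E) (K : Set E) : Set E := {w | ∃ y ∈ K, ∃ c : ℝ, y + c • u ∈ K ∧ w = av u y (y + c • u)}

theorem St.convex {u : E} {K : Set E} (hK : Convex ℝ K) : Convex ℝ (St u K) := by
  rintro _ ⟨y, hy, c, hc, rfl⟩ _ ⟨y', hy', c', hc', rfl⟩ a b ha hb hab
  refine ⟨a • y + b • y', hK hy hy' ha hb hab, a * c + b * c', ?_, ?_⟩
  · have := hK hc hc' ha hb hab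
    convert this using 1
    module
  · simp only [av, rf, inner_add_left, inner_smul_left, RCLike.conj_to_real]
    module

theorem St.compact {u : E} (hu : ‖u‖ = 1) {K : Set E} (hK : IsCompact K) :
    IsCompact (St u K) := by
  have : St u K = (fun p : E × E => av u p.1 p.2) ''
      (K ×ˢ K ∩ {p | p.2 = p.1 + (inner ℝ (p.2 - p.1) u) • u}) := by
    ext w
    constructor
    · rintro ⟨y, hy, c, hc, rfl⟩
      refine ⟨(y, y + c • u), ⟨⟨hy, hc⟩, ?_⟩, rfl⟩
      simp [inner_smul_left, hu]
    · rintro ⟨⟨y, z⟩, ⟨⟨hy, hz⟩, h⟩, rfl⟩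
      have h : z = y + (inner ℝ (z - y) u) • u := h
      exact ⟨y, hy, inner ℝ (z - y) u, h ▸ hz, by rw [← h]⟩
  rw [this]
  refine ((hK.prod hK).inter_right (isClosed_eq (by fun_prop) (by fun_prop))).image ?_
  unfold av rf
  fun_prop

theorem St.ball {u : E} (hu : ‖u‖ = 1) {K : Set E} {r : ℝ} (hK : K ⊆ Metric.closedBall 0 r) :
    St u K ⊆ Metric.closedBall 0 r := by
  rintro _ ⟨y, hy, c, hc, rfl⟩
  exact mem_closedBall_zero_iff.2 (av_norm hu (mem_closedBall_zero_iff.1 (hK hy))
    (mem_closedBall_zero_iff.1 (hK hc)))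

theorem St.nonempty {u : E} {K : Set E} (hK : K.Nonempty) : (St u K).Nonempty := by
  obtain ⟨y, hy⟩ := hK
  exact ⟨_, y, hy, 0, by simpa using hy, rfl⟩

theorem St.eq {u : E} (hu : ‖u‖ = 1) {K : Set E} (hK : IsCompact K) (hc : Convex ℝ K) :
    {y : E | ∃ x : E, ∃ t : ℝ, y = x + t • u ∧ inner ℝ x u = 0 ∧ (∃ s : ℝ, x + s • u ∈ K) ∧
      2 * |t| ≤ (volume {s : ℝ | x + s • u ∈ K}).toReal} = St u K := by
  have key : ∀ x : E, (∃ s : ℝ, x + s • u ∈ K) → ∃ α β : ℝ, α ≤ β ∧
      {s : ℝ | x + s • u ∈ K} = Icc α β := by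
    intro x hx
    have iso : Isometry (fun s : ℝ => x + s • u) := by
      refine Isometry.of_dist_eq fun s t => ?_
      rw [dist_add_left, dist_eq_norm, ← sub_smul, norm_smul, hu, mul_one, dist_eq_norm]
    have c1 : IsCompact {s : ℝ | x + s • u ∈ K} := iso.isClosedEmbedding.isCompact_preimage hK
    have c2 : Convex ℝ {s : ℝ | x + s • u ∈ K} := by
      intro s hs t ht a b ha hb hab
      have := hc hs ht ha hb hab
      show x + (a • s + b • t) • u ∈ K
      convert this using 1
      obtain rfl : b = 1 - a := by linarith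
      simp only [smul_eq_mul]
      module
    have e := eq_Icc_of_connected_compact (c2.isConnected hx) c1
    refine ⟨_, _, ?_, e⟩
    obtain ⟨s, hs⟩ := hx
    have : s ∈ {s : ℝ | x + s • u ∈ K} := hs
    rw [e] at this
    exact this.1.trans this.2
  ext w
  constructor
  · rintro ⟨x, t, rfl, hx, h1, h2⟩
    obtain ⟨α, β, hab, e⟩ := key x h1
    rw [e, Real.volume_Icc, ENNReal.toReal_ofReal (by linarith)] at h2
    have m1 : (α + β) / 2 + t ∈ {s : ℝ | x + s • u ∈ K} := by
      rw [e]; constructor <;> linarith [le_abs_self t, neg_abs_le t]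
    have m2 : (α + β) / 2 - t ∈ {s : ℝ | x + s • u ∈ K} := by
      rw [e]; constructor <;> linarith [le_abs_self t, neg_abs_le t]
    have e2 : x + ((α + β) / 2 + t) • u + (-2 * t) • u = x + ((α + β) / 2 - t) • u := by module
    refine ⟨_, m1, -2 * t, e2 ▸ m2, ?_⟩
    rw [e2, av_line hu, hx]
    congr 2; ring
  · rintro ⟨y, hy, c, hc', rfl⟩
    set a := inner ℝ y u with ha
    have e1 : y - a • u + a • u = y := by module
    have e2 : y - a • u + (a + c) • u = y + c • u := by module
    obtain ⟨α, β, hab, e⟩ := key (y - a • u) ⟨a, by rw [e1]; exact hy⟩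
    have m1 : a ∈ Icc α β := by rw [← e]; show _ ∈ K; rw [e1]; exact hy
    have m2 : a + c ∈ Icc α β := by rw [← e]; show _ ∈ K; rw [e2]; exact hc'
    refine ⟨y - a • u, -c / 2, ?_, by simp [inner_sub_left, inner_smul_left, hu, ha],
      ⟨a, by rw [e1]; exact hy⟩, ?_⟩
    · have := av_line hu y 0 c
      rw [zero_smul, add_zero] at this
      rw [this, ← ha]; module
    · rw [e, Real.volume_Icc, ENNReal.toReal_ofReal (by linarith)]
      have : |(-c / 2)| ≤ (β - α) / 2 := by
        rw [abs_le]; constructor <;> linarith [m1.1, m1.2, m2.1, m2.2]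
      linarith

/-- configurations in `K` with bounded mutual distances -/
def cf {ι : Type} (r : ι × ι → ℝ) (K : Set E) : Set (ι → E) :=
  {x | (∀ i, x i ∈ K) ∧ ∀ p : ι × ι, dist (x p.1) (x p.2) ≤ r p}

omit [InnerProductSpace ℝ E] in
theorem cf_closed {ι : Type} (r : ι × ι → ℝ) {K : Set E} (hK : IsClosed K) :
    IsClosed (cf r K) := by
  simp only [cf, ofPred_and, ofPred_forall]
  exact (isClosed_iInter fun i => hK.preimage (continuous_apply i)).inter
    (isClosed_iInter fun p => isClosed_le (by fun_prop) continuous_const)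

variable [FiniteDimensional ℝ E] [MeasurableSpace E] [BorelSpace E]

theorem bll {ι : Type} [Fintype ι] (r : ι × ι → ℝ) {u : E} (hu : ‖u‖ = 1) {K : Set E}
    (hK : IsCompact K) : volume (cf r K) ≤ volume (cf r (St u K)) := by
  have hPL : PL.HasPL (1 / 2) (1 / 2) (volume : Measure (ι → ℝ)) :=
    PL.HasPL.of_equiv (MeasurableEquiv.toLp 2 (ι → ℝ)).symm (PiLp.volume_preserving_ofLp ι)
      (fun x y => rfl) (PL.hasPL_volume (by norm_num) (by norm_num) (by norm_num) _)
  let T : (ι → ℝ) → (ι → E) := fun t i => t i • u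
  have cT : Continuous T := by fun_prop
  let W : Set (ι → E) := {x | ∀ i, inner ℝ (x i) u ∈ Icc (0 : ℝ) 1}
  have hW : MeasurableSet W := by
    simp only [W, ofPred_forall]
    exact (isClosed_iInter fun i => isClosed_Icc.preimage (by fun_prop)).measurableSet
  have h1 : ∀ y, volume {t | y - T t ∈ W} = 1 := by
    intro y
    have : {t | y - T t ∈ W} = Icc (fun i => inner ℝ (y i) u - 1) (fun i => inner ℝ (y i) u) := by
      ext t
      simp only [W, T, mem_ofPred_eq, Pi.sub_apply, inner_sub_left, inner_smul_left,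
        real_inner_self_eq_norm_sq, hu, RCLike.conj_to_real, mem_Icc, Pi.le_def]
      constructor
      · exact fun h => ⟨fun i => by linarith [(h i).2], fun i => by linarith [(h i).1]⟩
      · exact fun h i => ⟨by linarith [h.2 i], by linarith [h.1 i]⟩
    rw [this, Real.volume_Icc_pi]; simp
  have c1 := cf_closed r hK.isClosed
  have c2 := cf_closed r (St.compact hu hK).isClosed
  rw [fib volume volume cT.measurable hW h1 c1.measurableSet,
    fib volume volume cT.measurable hW h1 c2.measurableSet]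
  refine lintegral_mono fun x => indicator_le_indicator ?_
  let a : ι → ℝ := fun i => inner ℝ (x i) u
  have m1 : MeasurableSet {t | x + T t ∈ cf r K} :=
    (c1.preimage (continuous_const.add cT)).measurableSet
  have m2 : MeasurableSet {t | x + T t ∈ cf r (St u K)} :=
    (c2.preimage (continuous_const.add cT)).measurableSet
  have mp : MeasurePreserving (fun t : ι → ℝ => (-2 : ℝ) • a - t) volume volume :=
    Measure.measurePreserving_sub_left _ _
  have := hPL.bm (by norm_num) (by norm_num) m1 (mp.measurable m1) m2 ?_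
  · rw [mp.measure_preimage m1.nullMeasurableSet, ← ENNReal.rpow_add_of_nonneg _ _ (by norm_num)
      (by norm_num)] at this
    norm_num at this ⊢
    exact this
  · intro s hs t ht
    have e : ∀ i, (x + T ((1 / 2 : ℝ) • s + (1 / 2 : ℝ) • t)) i =
        av u ((x + T s) i) ((x + T ((-2 : ℝ) • a - t)) i) := by
      intro i
      simp only [T, Pi.add_apply, av_line hu, a, Pi.smul_apply, Pi.sub_apply, smul_eq_mul]
      congr 2; ring
    refine ⟨fun i => ?_, fun p => ?_⟩
    · have e3 : (x + T ((-2 : ℝ) • a - t)) i =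
          (x + T s) i + (((-2 : ℝ) • a - t) i - s i) • u := by
        simp only [T, Pi.add_apply]; module
      exact ⟨_, hs.1 i, _, e3 ▸ ht.1 i, by rw [e, e3]⟩
    · rw [e, e, dist_eq_norm, av_sub]
      have q1 := hs.2 p
      have q2 := ht.2 p
      rw [dist_eq_norm] at q1 q2
      exact av_norm hu q1 q2

end Pool.Agent.H26.Ss
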