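import Pool.Agent.H26.SsA

set_option autoImplicit false

namespace Pool.Agent.H26.Ss

open Set MeasureTheory Filter Topology Metric TopologicalSpace
open scoped ENNReal

variable {E : Type} [NormedAddCommGroup E] [InnerProductSpace ℝ E]

theorem near {K L : NonemptyCompacts E} {ε : ℝ} (h : dist K L < ε) {x : E} (hx : x ∈ (K : Set E)) :
    ∃ y ∈ (L : Set E), dist x y < ε :=
  exists_dist_lt_of_hausdorffDist_lt hx h (edist_ne_top K L)

theorem lim_convex {K : ℕ → NonemptyCompacts E} {L : NonemptyCompacts E}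
    (hK : ∀ i, Convex ℝ (K i : Set E)) (h : Tendsto K atTop (𝓝 L)) : Convex ℝ (L : Set E) := by
  intro x hx y hy a b ha hb hab
  rw [← L.isCompact.isClosed.closure_eq, Metric.mem_closure_iff]
  intro ε hε
  obtain ⟨i, hi⟩ := Metric.tendsto_atTop.1 h (ε / 2) (by linarith)
  have h1 := hi i le_rfl
  have h2 : dist L (K i) < ε / 2 := by rwa [dist_comm]
  obtain ⟨x', hx', d1⟩ := near h2 hx
  obtain ⟨y', hy', d2⟩ := near h2 hy
  obtain ⟨z, hz, d3⟩ := near h1 (hK i hx' hy' ha hb hab)
  refine ⟨z, hz, ?_⟩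
  have d4 : dist (a • x + b • y) (a • x' + b • y') ≤ ε / 2 := by
    refine (dist_add_add_le _ _ _ _).trans ?_
    rw [dist_smul₀, dist_smul₀, Real.norm_of_nonneg ha, Real.norm_of_nonneg hb]
    nlinarith
  linarith [dist_triangle (a • x + b • y) (a • x' + b • y') z]

theorem lim_mem [CompleteSpace E] {K : ℕ → NonemptyCompacts E} {L : NonemptyCompacts E}
    (hK : ∀ i, Convex ℝ (K i : Set E)) (h : Tendsto K atTop (𝓝 L)) {x : E}
    (hx : x ∉ frontier (L : Set E)) : ∀ᶠ i in atTop, x ∈ (K i : Set E) ↔ x ∈ (L : Set E) := by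
  rw [L.isCompact.isClosed.frontier_eq] at hx
  by_cases hL : x ∈ (L : Set E)
  · have hi : x ∈ interior (L : Set E) := by
      by_contra hh; exact hx ⟨hL, hh⟩
    obtain ⟨δ, hδ, hb⟩ := Metric.mem_nhds_iff.1 (mem_interior_iff_mem_nhds.1 hi)
    filter_upwards [(Metric.tendsto_nhds.1 h) (δ / 2) (by linarith)] with i hi
    simp only [hL, iff_true]
    by_contra hn
    obtain ⟨p, hp, hp2⟩ := exists_norm_eq_iInf_of_complete_convex (K i).nonempty
      (K i).isCompact.isComplete (hK i) x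
    have hp3 := (norm_eq_iInf_iff_real_inner_le_zero (hK i) hp).1 hp2
    have hne : x - p ≠ 0 := fun e => hn (by rw [sub_eq_zero.1 e]; exact hp)
    have hpos : 0 < ‖x - p‖ := norm_pos_iff.2 hne
    set w := (‖x - p‖⁻¹ : ℝ) • (x - p) with hw
    have nw : ‖w‖ = 1 := norm_smul_inv_norm hne
    have hq : x + (δ / 2) • w ∈ (L : Set E) := by
      apply hb
      rw [mem_ball, dist_eq_norm, add_sub_cancel_left, norm_smul, nw,
        Real.norm_of_nonneg (by linarith)]
      linarith
    obtain ⟨b, hb1, hb2⟩ := near (by rwa [dist_comm]) hq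
    have i1 : inner ℝ w (b - p) ≤ 0 := by
      rw [hw, inner_smul_left]
      exact mul_nonpos_of_nonneg_of_nonpos (by simp) (hp3 b hb1)
    have i2 : 0 ≤ inner ℝ w (x - p) := by
      rw [hw, inner_smul_left]
      exact mul_nonneg (by simp) real_inner_self_nonneg
    have i3 : inner ℝ w (x + (δ / 2) • w - b) ≤ ‖x + (δ / 2) • w - b‖ := by
      simpa [nw] using real_inner_le_norm w (x + (δ / 2) • w - b)
    have i4 : x + (δ / 2) • w - b = (x - p) + (δ / 2) • w - (b - p) := by abel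
    rw [dist_eq_norm] at hb2
    have i5 : inner ℝ w (x + (δ / 2) • w - b) =
        inner ℝ w (x - p) + δ / 2 - inner ℝ w (b - p) := by
      rw [i4, inner_sub_right, inner_add_right, inner_smul_right, real_inner_self_eq_norm_sq, nw]
      ring
    linarith
  · obtain ⟨δ, hδ, hb⟩ := Metric.mem_nhds_iff.1 (L.isCompact.isClosed.isOpen_compl.mem_nhds hL)
    filter_upwards [(Metric.tendsto_nhds.1 h) δ hδ] with i hi
    simp only [hL, iff_false]
    intro hx'
    obtain ⟨y, hy, d⟩ := near hi hx'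
    exact hb (by rwa [mem_ball, dist_comm]) hy

variable [FiniteDimensional ℝ E]

theorem ext_iso {L : Set E} (hL : (interior L).Nonempty) {f : E → E}
    (hf : ∀ a ∈ L, ∀ b ∈ L, dist (f a) (f b) = dist a b) :
    ∃ (T : E ≃ₗᵢ[ℝ] E) (c : E), ∀ a ∈ L, f a = T a + c := by
  obtain ⟨x, hx⟩ := hL
  obtain ⟨δ, hδ, hb⟩ := Metric.mem_nhds_iff.1 (mem_interior_iff_mem_nhds.1 hx)
  have hxL : x ∈ L := interior_subset hx
  have ip : ∀ a ∈ L, ∀ b ∈ L, inner ℝ (f a - f x) (f b - f x) = inner ℝ (a - x) (b - x) := by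
    intro a ha b hb
    have h1 := hf a ha x hxL
    have h2 := hf b hb x hxL
    have h3 := hf a ha b hb
    rw [dist_eq_norm, dist_eq_norm] at h1 h2 h3
    rw [real_inner_eq_norm_mul_self_add_norm_mul_self_sub_norm_sub_mul_self_div_two,
      real_inner_eq_norm_mul_self_add_norm_mul_self_sub_norm_sub_mul_self_div_two,
      sub_sub_sub_cancel_right, sub_sub_sub_cancel_right, h1, h2, h3]
  let b := stdOrthonormalBasis ℝ E
  have hm : ∀ i, x + (δ / 2) • b i ∈ L := by
    intro i
    apply hb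
    rw [mem_ball, dist_eq_norm, add_sub_cancel_left, norm_smul, b.orthonormal.1 i,
      Real.norm_of_nonneg (by linarith)]
    linarith
  let v := fun i => (δ / 2)⁻¹ • (f (x + (δ / 2) • b i) - f x)
  have hv : ∀ i, ∀ a ∈ L, inner ℝ (v i) (f a - f x) = inner ℝ (b i) (a - x) := by
    intro i a ha
    simp only [v]
    rw [inner_smul_left, ip _ (hm i) a ha, add_sub_cancel_left, inner_smul_left]
    simp only [RCLike.conj_to_real]
    field_simp
  have on : Orthonormal ℝ v := by
    rw [orthonormal_iff_ite]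
    intro i j
    have := hv i _ (hm j)
    conv_lhs => arg 3; simp only [v]
    rw [inner_smul_right, this, add_sub_cancel_left, inner_smul_right,
      orthonormal_iff_ite.1 b.orthonormal]
    field_simp
  let c := OrthonormalBasis.mk on
    (on.linearIndependent.span_eq_top_of_card_eq_finrank' (by simp)).ge
  have hc : ∀ i, c i = v i := fun i => by simp [c]
  refine ⟨b.repr.trans c.repr.symm, f x - (b.repr.trans c.repr.symm) x, fun a ha => ?_⟩
  have : c.repr (f a - f x) = b.repr (a - x) := by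
    ext i
    rw [OrthonormalBasis.repr_apply_apply, OrthonormalBasis.repr_apply_apply, hc, hv i a ha]
  have e : (b.repr.trans c.repr.symm) (a - x) = f a - f x := by
    rw [LinearIsometryEquiv.trans_apply, ← this, LinearIsometryEquiv.symm_apply_apply]
  rw [map_sub] at e
  rw [← sub_eq_zero, ← sub_eq_zero.2 e.symm]
  abel

variable [MeasurableSpace E] [BorelSpace E]

theorem cf_fin {ι : Type} [Fintype ι] (r : ι × ι → ℝ) {K : Set E} (hK : IsCompact K) :
    volume (cf r K) < ∞ :=
  (measure_mono (fun x hx => mem_univ_pi.2 hx.1)).trans_lt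
    (isCompact_univ_pi fun _ : ι => hK).measure_lt_top

theorem lim_cf {ι : Type} [Fintype ι] (r : ι × ι → ℝ) {K : ℕ → NonemptyCompacts E}
    {L : NonemptyCompacts E} (hK : ∀ i, Convex ℝ (K i : Set E)) (h : Tendsto K atTop (𝓝 L))
    {ρ : ℝ} (hb : ∀ i, (K i : Set E) ⊆ closedBall 0 ρ) :
    Tendsto (fun i => volume (cf r (K i : Set E))) atTop (𝓝 (volume (cf r (L : Set E)))) := by
  refine tendsto_measure_of_ae_tendsto_indicator atTop
    (cf_closed r L.isCompact.isClosed).measurableSet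
    (fun i => (cf_closed r (K i).isCompact.isClosed).measurableSet)
    (cf_closed r (isClosed_closedBall (x := (0 : E)) (ε := ρ))).measurableSet
    (cf_fin r (isCompact_closedBall _ _)).ne
    (Eventually.of_forall fun i x hx => ⟨fun j => hb i (hx.1 j), hx.2⟩) ?_
  have : ∀ᵐ x : ι → E, ∀ j, x j ∉ frontier (L : Set E) := by
    rw [ae_all_iff]
    intro j
    exact (Measure.quasiMeasurePreserving_eval (fun _ : ι => (volume : Measure E)) j).ae
      (p := fun y => y ∉ frontier (L : Set E))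
      (measure_eq_zero_iff_ae_notMem.1 ((lim_convex hK h).addHaar_frontier volume))
  filter_upwards [this] with x hx
  filter_upwards [eventually_all.2 fun j => lim_mem hK h (hx j)] with i hi
  simp only [cf, mem_ofPred_eq, hi]

theorem approx {ι : Type} [Fintype ι] {L L' : Set E} (hL : IsCompact L) (hL' : IsCompact L')
    (hc : Convex ℝ L) (hi : (interior L).Nonempty)
    (h : ∀ r : ι × ι → ℝ, volume (cf r L) = volume (cf r L')) (x : ι → E) (hx : ∀ i, x i ∈ L)
    {ε : ℝ} (hε : 0 < ε) :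
    ∃ y : ι → E, (∀ i, y i ∈ L') ∧ ∀ i j, |dist (y i) (y j) - dist (x i) (x j)| < ε := by
  let D : (ι → E) → (ι × ι → ℝ) := fun y p => dist (y p.1) (y p.2)
  have cD : Continuous D := by fun_prop
  let μ : Set E → Measure (ι × ι → ℝ) := fun K => (volume.restrict (univ.pi fun _ => K)).map D
  have app : ∀ K s, MeasurableSet s → μ K s = volume (D ⁻¹' s ∩ univ.pi fun _ => K) := by
    intro K s hs
    simp only [μ]
    rw [Measure.map_apply cD.measurable hs, Measure.restrict_apply (cD.measurable hs)]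
  have box : ∀ K (r : ι × ι → ℝ), μ K (univ.pi fun p => Iic (r p)) = volume (cf r K) := by
    intro K r
    rw [app K _ (MeasurableSet.univ_pi fun _ => measurableSet_Iic)]
    congr 1
    ext y
    simp only [cf, mem_inter_iff, mem_preimage, mem_univ_pi, mem_Iic, mem_ofPred_eq, D, and_comm]
  have e : μ L = μ L' := by
    have sp : IsCountablySpanning (range (Iic : ℝ → Set ℝ)) :=
      ⟨fun n : ℕ => Iic (n : ℝ), fun n => ⟨_, rfl⟩,
        eq_univ_of_forall fun t => mem_iUnion.2 (exists_nat_ge t)⟩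
    refine Measure.ext_of_generateFrom_of_iUnion
      (pi univ '' pi univ fun _ : ι × ι => range (Iic : ℝ → Set ℝ))
      (fun n : ℕ => univ.pi fun _ => Iic (n : ℝ)) ?_ (IsPiSystem.pi fun _ => isPiSystem_Iic) ?_
      (fun n => ⟨_, fun _ _ => ⟨_, rfl⟩, rfl⟩) (fun n => ?_) ?_
    · exact (generateFrom_eq_pi (fun _ => by
        rw [← borel_eq_generateFrom_Iic]; exact BorelSpace.measurable_eq.symm) fun _ => sp).symm
    · refine eq_univ_of_forall fun t => ?_
      obtain ⟨n, hn⟩ := exists_nat_ge ‖t‖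
      exact mem_iUnion.2 ⟨n, fun p _ =>
        ((le_abs_self _).trans (norm_le_pi_norm t p)).trans hn⟩
    · rw [box L fun _ => n]; exact (cf_fin _ hL).ne
    · rintro _ ⟨s, hs, rfl⟩
      choose r hr using fun p => hs p (mem_univ p)
      obtain rfl : s = fun p => Iic (r p) := funext fun p => (hr p).symm
      rw [box, box, h]
  let U : Set (ι × ι → ℝ) := {d | ∀ p, |d p - dist (x p.1) (x p.2)| < ε}
  have oU : IsOpen U := by
    simp only [U, ofPred_forall]
    exact isOpen_iInter_of_finite fun p => isOpen_lt (by fun_prop) continuous_const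
  have pos : 0 < μ L U := by
    rw [app L U oU.measurableSet]
    have o2 : IsOpen (D ⁻¹' U ∩ univ.pi fun _ => interior L) :=
      (oU.preimage cD).inter (isOpen_set_pi finite_univ fun _ _ => isOpen_interior)
    have hx2 : x ∈ closure (univ.pi fun _ : ι => interior L) := by
      rw [closure_pi_set]
      intro i _
      rw [hc.closure_interior_eq_closure_of_nonempty_interior hi]
      exact subset_closure (hx i)
    have ne := mem_closure_iff.1 hx2 _ (oU.preimage cD) (fun p => by simpa [D] using hε)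
    exact (o2.measure_pos volume ne).trans_le (measure_mono (inter_subset_inter_right _
      (pi_mono fun _ _ => interior_subset)))
  rw [e, app L' U oU.measurableSet] at pos
  obtain ⟨y, h1, h2⟩ := nonempty_of_measure_ne_zero pos.ne'
  exact ⟨y, fun i => h2 i (mem_univ i), fun i j => h1 (i, j)⟩

theorem embed {L L' : Set E} (hL : IsCompact L) (hL' : IsCompact L') (hne : L'.Nonempty)
    (hc : Convex ℝ L) (hi : (interior L).Nonempty)
    (h : ∀ (ι : Type) [Fintype ι] (r : ι × ι → ℝ), volume (cf r L) = volume (cf r L')) :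
    ∃ f : E → E, (∀ a, f a ∈ L') ∧ ∀ a ∈ L, ∀ b ∈ L, dist (f a) (f b) = dist a b := by
  classical
  let C : Finset L × ℕ → Set (E → E) := fun q => (univ.pi fun _ => L') ∩
    {f | ∀ a ∈ q.1, ∀ b ∈ q.1, |dist (f a) (f b) - dist (a : E) b| ≤ 1 / ((q.2 : ℝ) + 1)}
  have cl : ∀ q : Finset L × ℕ, IsClosed {f : E → E | ∀ a ∈ q.1, ∀ b ∈ q.1,
      |dist (f a) (f b) - dist (a : E) b| ≤ 1 / ((q.2 : ℝ) + 1)} := by
    intro q
    simp only [ofPred_forall]
    exact isClosed_iInter fun a => isClosed_iInter fun _ => isClosed_iInter fun b =>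
      isClosed_iInter fun _ => isClosed_le (by fun_prop) continuous_const
  have cp : ∀ q, IsCompact (C q) := fun q => (isCompact_univ_pi fun _ => hL').inter_right (cl q)
  have dir : Directed (· ⊇ ·) C := by
    refine directed_of_isDirected_le fun q q' hq f hf => ⟨hf.1, fun a ha b hb => ?_⟩
    refine (hf.2 a (hq.1 ha) b (hq.1 hb)).trans (one_div_le_one_div_of_le (by positivity) ?_)
    have : (q.2 : ℝ) ≤ q'.2 := Nat.cast_le.2 hq.2
    linarith
  have ne : ∀ q, (C q).Nonempty := by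
    intro q
    obtain ⟨y, h1, h2⟩ := approx hL hL' hc hi (h q.1) (fun a => ((a : L) : E)) (fun a => a.1.2)
      (ε := 1 / ((q.2 : ℝ) + 1)) (by positivity)
    obtain ⟨z, hz⟩ := hne
    refine ⟨fun a => if ha : ∃ h : a ∈ L, (⟨a, h⟩ : L) ∈ q.1 then y ⟨⟨a, ha.1⟩, ha.2⟩ else z,
      fun a _ => ?_, fun a ha b hb => ?_⟩
    · beta_reduce
      split_ifs
      · exact h1 _
      · exact hz
    · have h3 : ∃ h : (a : E) ∈ L, (⟨a, h⟩ : L) ∈ q.1 := ⟨a.2, ha⟩
      have h4 : ∃ h : (b : E) ∈ L, (⟨b, h⟩ : L) ∈ q.1 := ⟨b.2, hb⟩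
      simp only [dif_pos h3, dif_pos h4]
      exact (h2 ⟨a, ha⟩ ⟨b, hb⟩).le
  obtain ⟨f, hf⟩ := IsCompact.nonempty_iInter_of_directed_nonempty_isCompact_isClosed C dir ne cp
    (fun q => (cp q).isClosed)
  rw [mem_iInter] at hf
  refine ⟨f, fun a => (hf (∅, 0)).1 a (mem_univ a), fun a ha b hb => ?_⟩
  have : |dist (f a) (f b) - dist a b| ≤ 0 :=
    ge_of_tendsto' tendsto_one_div_add_atTop_nhds_zero_nat fun m =>
      (hf ({⟨a, ha⟩, ⟨b, hb⟩}, m)).2 ⟨a, ha⟩ (by simp) ⟨b, hb⟩ (by simp)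
  exact sub_eq_zero.1 (abs_nonpos_iff.1 this)

theorem vol_cf (K : Set E) : volume (cf (fun _ : Unit × Unit => (0 : ℝ)) K) = volume K := by
  have : cf (fun _ : Unit × Unit => (0 : ℝ)) K = univ.pi fun _ => K := by
    ext x; simp [cf]
  rw [this, volume_pi_pi]; simp

theorem congr_of {L L' : Set E} (hL : IsCompact L) (hL' : IsCompact L') (hc : Convex ℝ L)
    (hc' : Convex ℝ L') (hi : (interior L).Nonempty) (hi' : (interior L').Nonempty)
    (h : ∀ (ι : Type) [Fintype ι] (r : ι × ι → ℝ), volume (cf r L) = volume (cf r L')) :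
    ∃ ψ : E ≃ᵢ E, ψ '' L = L' := by
  obtain ⟨f, h1, h2⟩ := embed hL hL' (hi'.mono interior_subset) hc hi h
  obtain ⟨T, c, h3⟩ := ext_iso hi h2
  let ψ : E ≃ᵢ E := T.toIsometryEquiv.trans (IsometryEquiv.addRight c)
  have hψ : ∀ a, ψ a = T a + c := fun a => rfl
  have sub : ψ '' L ⊆ L' := by
    rintro _ ⟨a, ha, rfl⟩
    rw [hψ, ← h3 a ha]; exact h1 a
  have cp : IsCompact (ψ '' L) := hL.image ψ.continuous
  have mp : MeasurePreserving ψ volume volume :=
    (measurePreserving_add_right volume c).comp T.measurePreserving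
  have hv : volume (ψ '' L) = volume L' := by
    rw [← mp.measure_preimage cp.measurableSet.nullMeasurableSet,
      preimage_image_eq _ ψ.injective, ← vol_cf, h, vol_cf]
  refine ⟨ψ, sub.antisymm ?_⟩
  have z : volume (L' \ ψ '' L) = 0 := by
    rw [measure_sdiff sub cp.measurableSet.nullMeasurableSet cp.measure_lt_top.ne, hv, tsub_self]
  have o : interior L' \ ψ '' L = ∅ :=
    (isOpen_interior.sdiff cp.isClosed).eq_empty_of_measure_zero
      (measure_mono_null (sdiff_subset_sdiff_left interior_subset) z)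
  rw [← hL'.isClosed.closure_eq, ← hc'.closure_interior_eq_closure_of_nonempty_interior hi']
  exact cp.isClosed.closure_subset_iff.2 (sdiff_eq_empty.1 o)

theorem main (K : ℕ → Set E) (u : ℕ → E) (hu : ∀ i, ‖u i‖ = 1) (h0 : IsCompact (K 0))
    (h1 : Convex ℝ (K 0)) (h2 : (interior (K 0)).Nonempty)
    (hK : ∀ i, IsCompact (K i) → Convex ℝ (K i) → K (i + 1) = St (u i) (K i)) :
    ∃ (ψ : ℕ → E ≃ᵢ E) (L : Set E), IsCompact L ∧ L.Nonempty ∧
      Tendsto (fun i => hausdorffDist (ψ i '' K i) L) atTop (𝓝 0) := by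
  obtain ⟨ρ, hρ⟩ := h0.isBounded.subset_closedBall 0
  have P : ∀ i, IsCompact (K i) ∧ Convex ℝ (K i) ∧ (K i).Nonempty ∧ K i ⊆ closedBall 0 ρ := by
    intro i
    induction i with
    | zero => exact ⟨h0, h1, h2.mono interior_subset, hρ⟩
    | succ i ih =>
      rw [hK i ih.1 ih.2.1]
      exact ⟨St.compact (hu i) ih.1, St.convex ih.2.1, St.nonempty ih.2.2.1,
        St.ball (hu i) ih.2.2.2⟩
  let N : ℕ → NonemptyCompacts E := fun i => ⟨⟨K i, (P i).1⟩, (P i).2.2.1⟩
  have mono : ∀ (ι : Type) [Fintype ι] (r : ι × ι → ℝ),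
      Monotone fun i => volume (cf r (K i)) := fun ι _ r => monotone_nat_of_le_succ fun i => by
    rw [hK i (P i).1 (P i).2.1]; exact bll r (hu i) (P i).1
  have lim : ∀ φ : ℕ → ℕ, Tendsto φ atTop atTop → ∃ (L : NonemptyCompacts E) (σ : ℕ → ℕ),
      Tendsto (fun i => N (φ (σ i))) atTop (𝓝 L) ∧ Convex ℝ (L : Set E) ∧
      (interior (L : Set E)).Nonempty ∧ ∀ (ι : Type) [Fintype ι] (r : ι × ι → ℝ),
        volume (cf r (L : Set E)) = ⨆ i, volume (cf r (K i)) := by
    intro φ hφ
    obtain ⟨L, -, σ, hσ, hL⟩ := (NonemptyCompacts.isCompact_subsets_of_isCompact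
      (isCompact_closedBall (0 : E) ρ)).tendsto_subseq (x := fun i => N (φ i))
      (fun i => (P _).2.2.2)
    have cv := lim_convex (K := fun i => N (φ (σ i))) (fun i => (P _).2.1) hL
    have e : ∀ (ι : Type) [Fintype ι] (r : ι × ι → ℝ),
        volume (cf r (L : Set E)) = ⨆ i, volume (cf r (K i)) := fun ι _ r =>
      tendsto_nhds_unique (lim_cf r (K := fun i => N (φ (σ i))) (fun i => (P _).2.1) hL
        (fun i => (P _).2.2.2))
        ((tendsto_atTop_iSup (mono ι r)).comp (hφ.comp hσ.tendsto_atTop))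
    refine ⟨L, σ, hL, cv, ?_, e⟩
    by_contra hn
    have z := cv.addHaar_frontier volume
    rw [L.isCompact.isClosed.frontier_eq, not_nonempty_iff_eq_empty.1 hn, sdiff_empty, ← vol_cf,
      e] at z
    have := le_iSup (fun i => volume (cf (fun _ : Unit × Unit => (0 : ℝ)) (K i))) 0
    rw [z, vol_cf] at this
    exact (Measure.measure_pos_of_nonempty_interior volume h2).not_ge this
  obtain ⟨L, -, -, c1, c2, c3⟩ := lim id tendsto_id
  let δ : ℕ → ℝ := fun i => ⨅ ψ : E ≃ᵢ E, hausdorffDist (ψ '' K i) (L : Set E)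
  have bd : ∀ i, BddBelow (range fun ψ : E ≃ᵢ E => hausdorffDist (ψ '' K i) (L : Set E)) :=
    fun i => ⟨0, by rintro _ ⟨ψ, rfl⟩; exact hausdorffDist_nonneg⟩
  have : Nonempty (E ≃ᵢ E) := ⟨IsometryEquiv.refl E⟩
  have hδ : Tendsto δ atTop (𝓝 0) := by
    refine tendsto_of_subseq_tendsto fun φ hφ => ?_
    obtain ⟨L', σ, t, d1, d2, d3⟩ := lim φ hφ
    obtain ⟨ψ, hψ⟩ := congr_of L'.isCompact L.isCompact d1 c1 d2 c2
      (fun ι _ r => by rw [d3, c3])
    refine ⟨σ, squeeze_zero (fun i => le_ciInf fun _ => hausdorffDist_nonneg) (fun i => ?_)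
      (tendsto_iff_dist_tendsto_zero.1 t)⟩
    refine (ciInf_le (bd _) ψ).trans_eq ?_
    rw [← hψ, hausdorffDist_image ψ.isometry]; rfl
  have ch : ∀ i : ℕ, ∃ ψ : E ≃ᵢ E, hausdorffDist (ψ '' K i) (L : Set E) < δ i + 1 / ((i : ℝ) + 1) :=
    fun i => exists_lt_of_ciInf_lt (lt_add_of_pos_right _ (by positivity))
  choose ψ hψ using ch
  refine ⟨ψ, L, L.isCompact, L.nonempty, squeeze_zero (fun _ => hausdorffDist_nonneg)
    (fun i => (hψ i).le) ?_⟩
  simpa using hδ.add tendsto_one_div_add_atTop_nhds_zero_nat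

end Pool.Agent.H26.Ss
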