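import Mathlib

/-! A doubly iterated stepping-up colouring of 4-sets. -/

namespace Pool.Agent.H26.StepUp

lemma ex (x y : ℕ) : ∃ d, x / 2 ^ d = y / 2 ^ d :=
  ⟨x + y, by
    rw [Nat.div_eq_of_lt, Nat.div_eq_of_lt]
    · exact lt_of_le_of_lt (Nat.le_add_left _ _) (Nat.lt_two_pow_self)
    · exact lt_of_le_of_lt (Nat.le_add_right _ _) (Nat.lt_two_pow_self)⟩

def del (x y : ℕ) : ℕ := Nat.find (ex x y)

lemma del_comm (x y : ℕ) : del x y = del y x := by
  unfold del
  exact le_antisymm (Nat.find_min' _ (Nat.find_spec (ex y x)).symm)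
    (Nat.find_min' _ (Nat.find_spec (ex x y)).symm)

lemma del_le {x y N : ℕ} (hx : x < 2 ^ N) (hy : y < 2 ^ N) : del x y ≤ N :=
  Nat.find_min' _ (by rw [Nat.div_eq_of_lt hx, Nat.div_eq_of_lt hy])

lemma del_ne {x y z : ℕ} (h1 : x < y) (h2 : y < z) : del x y ≠ del y z := by
  intro e
  have a1 : x / 2 ^ del x y = y / 2 ^ del x y := Nat.find_spec (ex x y)
  have a2 : y / 2 ^ del y z = z / 2 ^ del y z := Nat.find_spec (ex y z)
  rw [← e] at a2
  obtain h | ⟨d, h⟩ : del x y = 0 ∨ ∃ d, del x y = d + 1 := by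
    rcases del x y with _ | d
    · exact Or.inl rfl
    · exact Or.inr ⟨d, rfl⟩
  · rw [h] at a1; simp at a1; omega
  · have b1 : ¬ x / 2 ^ d = y / 2 ^ d := Nat.find_min (ex x y) (show d < del x y by omega)
    have b2 : ¬ y / 2 ^ d = z / 2 ^ d := Nat.find_min (ex y z) (show d < del y z by omega)
    have c1 : x / 2 ^ d ≤ y / 2 ^ d := Nat.div_le_div_right h1.le
    have c2 : y / 2 ^ d ≤ z / 2 ^ d := Nat.div_le_div_right h2.le
    rw [h, pow_succ, ← Nat.div_div_eq_div_mul, ← Nat.div_div_eq_div_mul] at a1 a2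
    omega

lemma del_ne' {x y z : ℕ} (h : (x < y ∧ y < z) ∨ (z < y ∧ y < x)) : del x y ≠ del y z := by
  rcases h with h | h
  · exact del_ne h.1 h.2
  · rw [del_comm x y, del_comm y z]; exact (del_ne h.1 h.2).symm

def col4 (a b c d : ℕ) : ℕ :=
  (if del a b < del b c then 1 else 0) + (if del b c < del c d then 2 else 0) +
    (if del (del a b) (del b c) < del (del b c) (del c d) then 4 else 0)

lemma col4_lt (a b c d : ℕ) : col4 a b c d < 8 := by
  unfold col4; split_ifs <;> omega

theorem short (x : ℕ → ℕ) (m j : ℕ) (hm : 1 ≤ m) (hx : ∀ i, i < m + 3 → x i < x (i + 1))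
    (hb : ∀ i, i < m + 4 → x i < 2 ^ (2 ^ m - 1))
    (hc : ∀ i, i ≤ m → col4 (x i) (x (i + 1)) (x (i + 2)) (x (i + 3)) = j) : False := by
  let D : ℕ → ℕ := fun i => del (x i) (x (i + 1))
  let E : ℕ → ℕ := fun i => del (D i) (D (i + 1))
  have hD : ∀ i, i < m + 3 → D i < 2 ^ m := fun i hi =>
    lt_of_le_of_lt (del_le (hb i (by omega)) (hb (i + 1) (by omega)))
      (Nat.sub_lt (by positivity) one_pos)
  have hE : ∀ i, i < m + 2 → E i ≤ m := fun i hi => del_le (hD i (by omega)) (hD (i + 1) (by omega))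
  have hc' : ∀ i, i ≤ m → (if D i < D (i + 1) then 1 else 0) +
      (if D (i + 1) < D (i + 2) then 2 else 0) + (if E i < E (i + 1) then 4 else 0) = j := hc
  have hne : ∀ i, i < m + 2 → D i ≠ D (i + 1) := fun i hi =>
    del_ne (hx i (by omega)) (hx (i + 1) (by omega))
  have h01 : j = 0 ∨ j = 3 ∨ j = 4 ∨ j = 7 := by
    have a0 := hc' 0 (by omega)
    have a1 := hc' 1 hm
    simp only [zero_add, Nat.reduceAdd] at a0 a1
    split_ifs at a0 a1 <;> omega
  have hEne : ∀ i, i ≤ m → E i ≠ E (i + 1) := by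
    intro i hi
    refine del_ne' ?_
    have a0 := hc' i hi
    have a1 := hne i (by omega)
    have a2 : D (i + 1) ≠ D (i + 2) := hne (i + 1) (by omega)
    show (D i < D (i + 1) ∧ D (i + 1) < D (i + 2)) ∨ (D (i + 2) < D (i + 1) ∧ D (i + 1) < D i)
    split_ifs at a0 <;> omega
  have hE0 : ∀ i, i < m + 2 → 1 ≤ E i := by
    intro i hi
    by_contra h
    have h' : E i = 0 := by omega
    have a1 : D i / 2 ^ E i = D (i + 1) / 2 ^ E i := Nat.find_spec (ex (D i) (D (i + 1)))
    rw [h'] at a1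
    exact hne i hi (by simpa using a1)
  by_cases hj : 4 ≤ j
  · have : ∀ i, i ≤ m + 1 → i + 1 ≤ E i := by
      intro i hi
      induction i with
      | zero => exact hE0 0 (by omega)
      | succ i ih =>
        have a0 := hc' i (by omega)
        have := ih (by omega)
        split_ifs at a0 <;> omega
    have := this (m + 1) le_rfl
    have := hE (m + 1) (by omega)
    omega
  · have : ∀ i, i ≤ m + 1 → E i + i ≤ m := by
      intro i hi
      induction i with
      | zero => exact hE 0 (by omega)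
      | succ i ih =>
        have a0 := hc' i (by omega)
        have := ih (by omega)
        have := hEne i (by omega)
        split_ifs at a0 <;> omega
    have := this (m + 1) le_rfl
    omega

def colL : List ℕ → Fin 9
  | [a, b, c, d] => ⟨col4 a b c d, (col4_lt a b c d).trans (by decide)⟩
  | _ => 0

lemma colL_ne (l : List ℕ) : colL l ≠ 8 := by
  unfold colL
  split
  · intro h
    have := congrArg Fin.val h
    rename_i a b c d
    have h2 := col4_lt a b c d
    simp only at this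
    omega
  · decide

def phi (n : ℕ) (e : Finset (Fin n)) : Fin 9 := colL ((e.sort (· ≤ ·)).map Fin.val)

lemma phi_eq {n : ℕ} {a b c d : Fin n} (h1 : a < b) (h2 : b < c) (h3 : c < d) :
    (phi n {a, b, c, d}).val = col4 a b c d := by
  have : ({a, b, c, d} : Finset (Fin n)).sort (· ≤ ·) = [a, b, c, d] := by
    have hp : [a, b, c, d].Pairwise (· < ·) := by
      simp [h1, h2, h3, h1.trans h2, h2.trans h3, (h1.trans h2).trans h3]
    have hn : [a, b, c, d].Nodup := hp.imp fun h => h.ne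
    have e : ({a, b, c, d} : Finset (Fin n)) = [a, b, c, d].toFinset := by simp
    rw [e, List.toFinset_sort _ hn]
    exact hp.imp fun h => h.le
  rw [phi, this]; rfl

lemma card_le {α : Type*} [DecidableEq α] (S : Finset α) (v : α) (hv : v ∈ S) (r : ℕ) :
    ((S.powersetCard (r + 1)).filter (fun e => v ∈ e)).card ≤ (S.card - 1).choose r := by
  rw [← Finset.card_erase_of_mem hv, ← Finset.card_powersetCard]
  refine Finset.card_le_card_of_injOn (fun e => e.erase v) ?_ ?_
  · intro e he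
    obtain ⟨h1, h2⟩ := Finset.mem_filter.1 he
    obtain ⟨h3, h4⟩ := Finset.mem_powersetCard.1 h1
    exact Finset.mem_coe.2 (Finset.mem_powersetCard.2 ⟨Finset.erase_subset_erase _ h3, by
      rw [Finset.card_erase_of_mem h2, h4]; rfl⟩)
  · intro e he e' he' h
    rw [← Finset.insert_erase (Finset.mem_filter.1 he).2,
      ← Finset.insert_erase (Finset.mem_filter.1 he').2]
    exact congrArg _ h

noncomputable def rho (i : Fin 9) : ℝ := if i = 8 then 1 / 2 else 1

theorem main (m n : ℕ) (hm : 1 ≤ m) (hn : n ≤ 2 ^ (2 ^ m - 1)) (S : Finset (Fin n))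
    (hS : m + 4 ≤ S.card) (j : Fin 9)
    (h : ∀ v ∈ S, rho j * (((S.card - 1).choose (4 - 1) : ℕ) : ℝ) ≤
      (((S.powersetCard 4).filter (fun e => v ∈ e ∧ phi n e = j)).card : ℝ)) : False := by
  by_cases hj : j = 8
  · obtain ⟨v, hv⟩ := Finset.card_pos.1 (show 0 < S.card by omega)
    have h1 := h v hv
    have h2 : (S.powersetCard 4).filter (fun e => v ∈ e ∧ phi n e = j) = ∅ :=
      Finset.filter_eq_empty_iff.2 fun e _ he => colL_ne _ (hj ▸ he.2)
    have h3 : 0 < (S.card - 1).choose (4 - 1) := Nat.choose_pos (by omega)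
    have h4 : (0 : ℝ) < ((S.card - 1).choose (4 - 1) : ℕ) := by exact_mod_cast h3
    rw [h2, rho, if_pos hj] at h1
    simp only [Finset.card_empty, Nat.cast_zero] at h1
    linarith
  · have hmono : ∀ e ∈ S.powersetCard 4, phi n e = j := by
      intro e he
      by_contra hne
      obtain ⟨h3, h4⟩ := Finset.mem_powersetCard.1 he
      obtain ⟨v, hv⟩ := Finset.card_pos.1 (show 0 < e.card by omega)
      have h1 := h v (h3 hv)
      rw [rho, if_neg hj, one_mul] at h1
      have h2 : (S.card - 1).choose 3 ≤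
          ((S.powersetCard 4).filter (fun e => v ∈ e ∧ phi n e = j)).card := by exact_mod_cast h1
      have h5 := card_le S v (h3 hv) 3
      have h6 : ((S.powersetCard 4).filter (fun e => v ∈ e ∧ phi n e = j)).card <
          ((S.powersetCard (3 + 1)).filter (fun e => v ∈ e)).card := by
        refine Finset.card_lt_card ⟨fun e' he' => ?_, fun h' => ?_⟩
        · exact Finset.mem_filter.2 ⟨(Finset.mem_filter.1 he').1, (Finset.mem_filter.1 he').2.1⟩
        · exact hne (Finset.mem_filter.1 (h' (Finset.mem_filter.2 ⟨he, hv⟩))).2.2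
      omega
    let f := S.orderEmbOfFin rfl
    let x : ℕ → ℕ := fun i => if h : i < S.card then (f ⟨i, h⟩).val else 0
    have hx : ∀ i (h : i < S.card), x i = (f ⟨i, h⟩).val := fun i h => dif_pos h
    have hf : ∀ i (h : i + 1 < S.card), f ⟨i, by omega⟩ < f ⟨i + 1, h⟩ := fun i h =>
      f.strictMono (by simp [Fin.lt_def])
    refine short x m j hm (fun i hi => ?_) (fun i hi => ?_) fun i hi => ?_
    · rw [hx i (by omega), hx (i + 1) (by omega)]; exact hf i (by omega)
    · rw [hx i (by omega)]; exact (f _).2.trans_le hn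
    · rw [hx i (by omega), hx (i + 1) (by omega), hx (i + 2) (by omega), hx (i + 3) (by omega)]
      have a1 := hf i (by omega)
      have a2 := hf (i + 1) (by omega)
      have a3 := hf (i + 2) (by omega)
      rw [← phi_eq a1 a2 a3, hmono]
      refine Finset.mem_powersetCard.2 ⟨?_, ?_⟩
      · intro y hy
        simp only [Finset.mem_insert, Finset.mem_singleton] at hy
        rcases hy with rfl | rfl | rfl | rfl <;> exact Finset.orderEmbOfFin_mem _ _ _
      · exact Finset.card_eq_four.2 ⟨_, _, _, _, a1.ne, (a1.trans a2).ne,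
          ((a1.trans a2).trans a3).ne, a2.ne, (a2.trans a3).ne, a3.ne, rfl⟩

theorem asym (C D : ℝ) : ∃ m : ℕ, 1 ≤ m ∧
    C * ((m + 4 : ℕ) : ℝ) ^ D < ((2 ^ m - 1 : ℕ) : ℝ) * Real.log 2 := by
  have h1 := tendsto_pow_const_div_const_pow_of_one_lt ⌈D⌉₊ (r := 2) (by norm_num)
  have h2 := (h1.const_mul |C|).eventually (gt_mem_nhds (show |C| * 0 < (1 / 64 : ℝ) by norm_num))
  obtain ⟨N, hN⟩ := Filter.eventually_atTop.1 h2
  refine ⟨N + 1, by omega, ?_⟩
  have h3 := hN (N + 1 + 4) (by omega)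
  set k : ℝ := ((N + 1 + 4 : ℕ) : ℝ) with hk
  have hk1 : 1 ≤ k := by rw [hk]; exact_mod_cast (by omega)
  have h4 : k ^ D ≤ k ^ ⌈D⌉₊ := by
    rw [← Real.rpow_natCast]; exact Real.rpow_le_rpow_of_exponent_le hk1 (Nat.le_ceil D)
  have h5 : C * k ^ D ≤ |C| * k ^ ⌈D⌉₊ :=
    (mul_le_mul_of_nonneg_right (le_abs_self C) (by positivity)).trans
      (mul_le_mul_of_nonneg_left h4 (abs_nonneg C))
  rw [← mul_div_assoc, div_lt_iff₀ (by positivity)] at h3
  have h6 : ((2 ^ (N + 1) - 1 : ℕ) : ℝ) = 2 * 2 ^ N - 1 := by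
    rw [Nat.cast_sub Nat.one_le_two_pow]; push_cast; ring
  have h7 : (1 : ℝ) ≤ 2 ^ N := one_le_pow₀ (by norm_num)
  have h8 := Real.log_two_gt_d9
  rw [h6]
  have h9 : (2 : ℝ) ^ (N + 1 + 4) = 32 * 2 ^ N := by ring
  rw [h9] at h3
  nlinarith

end Pool.Agent.H26.StepUp
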