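import Pool.Agent.H26.Sym3Defs

set_option autoImplicit false

namespace H26.Sym3

def I13 (p l : Fin 13) : Prop := p = l ∨ p = l + 1 ∨ p = l + 4

instance (p l : Fin 13) : Decidable (I13 p l) := by unfold I13; infer_instance

def tbl : ℕ := 0x200002002000000000000000000a000000008002000000400004004000000000000002000400000000000400000080000800800000000000000400080020000000080020000000100100000000000000080020004000020000004000000020020000000000000000004000800004000000800000004004000000000000000000800100000800000100000000800800000000000000000100020000100000020000000100100000000000000000020004000020000004000000020020008000000000000004000800004000000800008002002000000000000000000800100000800000100000000400400000000000000000100020000100000020008000080080000000000000000028000000020000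

def T (a b c : Fin 13) : Prop := tbl.testBit (169 * a.val + 13 * b.val + c.val) = true

instance (a b c : Fin 13) : Decidable (T a b c) := by unfold T; infer_instance

theorem T_of : ∀ l a b c : Fin 13, I13 a l → I13 b l → I13 c l → a ≠ b → a ≠ c → b ≠ c →
    T a b c := by decide +kernel

theorem classify : ∀ a0 a1 a4 : Fin 13, T a0 a1 a4 → ∀ a2 a5 : Fin 13, T a1 a2 a5 →
    ∀ a8 : Fin 13, T a4 a5 a8 → ∀ a9 a12 : Fin 13, T a8 a9 a12 → ∀ a10 : Fin 13, T a9 a10 a0 →
    ∀ a3 : Fin 13, T a12 a0 a3 → ∀ a11 : Fin 13, T a10 a11 a1 → T a11 a12 a2 →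
    ∀ a7 : Fin 13, T a3 a4 a7 → T a7 a8 a11 → ∀ a6 : Fin 13, T a2 a3 a6 → T a5 a6 a9 →
    T a6 a7 a10 → [a0, a1, a2, a3, a4, a5, a6, a7, a8, a9, a10, a11, a12].Nodup →
    ∃ m : Fin 13, (m = 1 ∨ m = 3 ∨ m = 9) ∧
      ∀ p : Fin 13, ![a0, a1, a2, a3, a4, a5, a6, a7, a8, a9, a10, a11, a12] p = m * p + a0 := by
  decide +kernel

theorem orbits : ∀ m b : Fin 13, (m = 1 ∨ m = 3 ∨ m = 9) → (∀ p : Fin 13, m * p + b = p) ∨
    ∃ l i j : Fin 13, (fun p => m * p + b)^[i.val] l = l + 1 ∧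
      (fun p => m * p + b)^[j.val] l = l + 4 := by decide +kernel

theorem aut_form (f g : Fin 13 → Fin 13) (hf : Function.Injective f)
    (h : ∀ p l, I13 p l → I13 (f p) (g l)) :
    ∃ m b : Fin 13, (m = 1 ∨ m = 3 ∨ m = 9) ∧ f = fun p => m * p + b := by
  have key : ∀ l a b c : Fin 13, I13 a l → I13 b l → I13 c l → a ≠ b → a ≠ c → b ≠ c →
      T (f a) (f b) (f c) := fun l a b c ha hb hc h1 h2 h3 =>
    T_of (g l) _ _ _ (h _ _ ha) (h _ _ hb) (h _ _ hc) (hf.ne h1) (hf.ne h2) (hf.ne h3)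
  have hn : ([0, 1, 2, 3, 4, 5, 6, 7, 8, 9, 10, 11, 12].map f).Nodup :=
    List.Nodup.map hf (by decide)
  obtain ⟨m, hm, hp⟩ := classify (f 0) (f 1) (f 4) (by apply key 0 <;> decide) (f 2) (f 5)
    (by apply key 1 <;> decide) (f 8) (by apply key 4 <;> decide) (f 9) (f 12)
    (by apply key 8 <;> decide) (f 10) (by apply key 9 <;> decide) (f 3)
    (by apply key 12 <;> decide) (f 11) (by apply key 10 <;> decide)
    (by apply key 11 <;> decide) (f 7) (by apply key 3 <;> decide) (by apply key 7 <;> decide)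
    (f 6) (by apply key 2 <;> decide) (by apply key 5 <;> decide) (by apply key 6 <;> decide) hn
  refine ⟨m, f 0, hm, funext fun p => ?_⟩
  rw [← hp p]
  fin_cases p <;> rfl

theorem config : IsConfig I13 := by
  refine ⟨fun p => ?_, fun l => ?_, fun p q hpq => ?_⟩
  · rw [Set.ncard_eq_toFinset_card']
    revert p; decide +kernel
  · rw [Set.ncard_eq_toFinset_card']
    revert l; decide +kernel
  · have : ∀ p q : Fin 13, p ≠ q → ∀ l m : Fin 13, I13 p l ∧ I13 q l → I13 p m ∧ I13 q m → l = m := by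
      decide +kernel
    exact fun l hl m hm => this p q hpq l m hl hm

theorem flag_aux : ∀ p l q m : Fin 13, I13 p l → I13 q m → ∃ u v b c : Fin 13, u * v = 1 ∧
    u * p + b = q ∧ u * l + c = m ∧ ∀ p l : Fin 13, I13 (u * p + b) (u * l + c) ↔ I13 p l := by
  have h1 : ∀ b : Fin 13, ∀ p l : Fin 13, I13 (1 * p + b) (1 * l + b) ↔ I13 p l := by
    decide +kernel
  have h3 : ∀ b : Fin 13, ∀ p l : Fin 13, I13 (3 * p + b) (3 * l + (b + 12)) ↔ I13 p l := by
    decide +kernel
  have h9 : ∀ b : Fin 13, ∀ p l : Fin 13, I13 (9 * p + b) (9 * l + (b + 9)) ↔ I13 p l := by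
    decide +kernel
  have : ∀ p l q m : Fin 13, I13 p l → I13 q m → ∃ b : Fin 13, (1 * p + b = q ∧ 1 * l + b = m) ∨
      (3 * p + b = q ∧ 3 * l + (b + 12) = m) ∨ (9 * p + b = q ∧ 9 * l + (b + 9) = m) := by
    decide +kernel
  intro p l q m h h'
  obtain ⟨b, h | h | h⟩ := this p l q m h h'
  · exact ⟨1, 1, b, b, by decide, h.1, h.2, h1 b⟩
  · exact ⟨3, 9, b, b + 12, by decide, h.1, h.2, h3 b⟩
  · exact ⟨9, 3, b, b + 9, by decide, h.1, h.2, h9 b⟩

noncomputable def aff (u v b : Fin 13) (h : u * v = 1) : Equiv.Perm (Fin 13) :=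
  Equiv.ofBijective (fun p => u * p + b) (Finite.injective_iff_bijective.mp (by
    have : ∀ u v b : Fin 13, u * v = 1 → ∀ p q : Fin 13, u * p + b = u * q + b → p = q := by
      intro u v b h p q hpq
      have h2 : u * p = u * q := add_right_cancel hpq
      have h3 : ∀ u v : Fin 13, u * v = 1 → ∀ p q : Fin 13, u * p = u * q → p = q := by
        decide +kernel
      exact h3 u v h p q h2
    exact fun p q hpq => this u v b h p q hpq))

theorem flagTrans : FlagTrans I13 := by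
  intro p l q m h h'
  obtain ⟨u, v, b, c, huv, h1, h2, h3⟩ := flag_aux p l q m h h'
  exact ⟨aff u v b huv, aff u v c huv, h3, h1, h2⟩

theorem pointTrans : PointTrans I13 := by
  intro p q
  obtain ⟨f, g, h, h1, _⟩ := flagTrans p p q q (Or.inl rfl) (Or.inl rfl)
  exact ⟨f, g, h, h1⟩

theorem lineTrans : LineTrans I13 := by
  intro p q
  obtain ⟨f, g, h, _, h1⟩ := flagTrans p p q q (Or.inl rfl) (Or.inl rfl)
  exact ⟨f, g, h, h1⟩

def X : Fin 13 → ℤ := ![1, -1, -1, 1, 0, 0, -2, 1, 0, -2, -1, -1, 2]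
def Y : Fin 13 → ℤ := ![-1, 2, 0, -1, 1, 2, 1, 0, -1, -1, 2, 2, -2]
def Z : Fin 13 → ℤ := ![1, 1, -2, -3, 2, 3, 1, -1, -1, -2, -1, 3, -1]
def A : Fin 13 → ℤ := ![-3, -4, -2, 1, 1, -1, 1, -1, 1, 1, -2, 4, 1]
def B : Fin 13 → ℤ := ![-2, -3, -5, -2, 0, -6, 1, 1, 2, 0, -1, 5, 1]
def C : Fin 13 → ℤ := ![1, 2, 1, 1, 0, 4, 1, -1, -2, -1, 0, -2, 0]

theorem tab : ∀ p l : Fin 13, A l * X p + B l * Y p + C l * Z p = 0 ↔ I13 p l := by decide +kernel
theorem hZ : ∀ p : Fin 13, Z p ≠ 0 := by decide +kernel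
theorem hAB : ∀ l : Fin 13, A l ≠ 0 ∨ B l ≠ 0 := by decide +kernel

theorem exists_real : ∃ x y, IsReal I13 x y := by
  let x : Fin 13 → Pl := fun p => !₂[(X p : ℝ) / Z p, (Y p : ℝ) / Z p]
  let y : Fin 13 → Set Pl := fun l => {v : Pl | (A l : ℝ) * v 0 + (B l : ℝ) * v 1 = -(C l : ℝ)}
  have hxy : ∀ p l, x p ∈ y l ↔ I13 p l := by
    intro p l
    rw [← tab]
    have hz : (Z p : ℝ) ≠ 0 := by exact_mod_cast hZ p
    show (A l : ℝ) * ((X p : ℝ) / Z p) + (B l : ℝ) * ((Y p : ℝ) / Z p) = -(C l : ℝ) ↔ _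
    rw [← @Int.cast_inj ℝ]
    push_cast
    constructor
    · intro h
      field_simp at h
      linarith
    · intro h
      field_simp
      linarith
  refine ⟨x, y, fun p q h => ?_, fun l m h => ?_, fun l => ?_, hxy⟩
  · have : ∀ p q : Fin 13, (∀ l, I13 p l ↔ I13 q l) → p = q := by decide +kernel
    exact this p q fun l => by rw [← hxy, ← hxy, h]
  · have : ∀ l m : Fin 13, (∀ p, I13 p l ↔ I13 p m) → l = m := by decide +kernel
    exact this l m fun p => by rw [← hxy, ← hxy, h]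
  · refine ⟨A l, B l, -(C l), ?_, rfl⟩
    rcases hAB l with h | h
    · left; exact_mod_cast h
    · right; exact_mod_cast h

theorem dsq (u v : Pl) : dist u v ^ 2 = (u 0 - v 0) ^ 2 + (u 1 - v 1) ^ 2 := by
  rw [EuclideanSpace.dist_eq, Real.sq_sqrt (by positivity)]
  simp [Fin.sum_univ_two, Real.dist_eq, sq_abs]

theorem ne_coord {u v : Pl} (h : u ≠ v) : u 0 ≠ v 0 ∨ u 1 ≠ v 1 := by
  by_contra hc
  push Not at hc
  apply h
  ext i
  fin_cases i
  · exact hc.1
  · exact hc.2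

/-- a line meets a circle in at most two points -/
theorem line_circle (a b c p q r : ℝ) (hab : a ≠ 0 ∨ b ≠ 0) (u0 u1 v0 v1 w0 w1 : ℝ)
    (hu : a * u0 + b * u1 = c) (hv : a * v0 + b * v1 = c) (hw : a * w0 + b * w1 = c)
    (cu : u0 ^ 2 + u1 ^ 2 + p * u0 + q * u1 = r) (cv : v0 ^ 2 + v1 ^ 2 + p * v0 + q * v1 = r)
    (cw : w0 ^ 2 + w1 ^ 2 + p * w0 + q * w1 = r)
    (huv : u0 ≠ v0 ∨ u1 ≠ v1) (huw : u0 ≠ w0 ∨ u1 ≠ w1) (hvw : v0 ≠ w0 ∨ v1 ≠ w1) : False := by
  have hN : a ^ 2 + b ^ 2 ≠ 0 := by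
    rcases hab with h | h <;> positivity
  obtain ⟨s, hs0, hs1⟩ : ∃ s, v0 = u0 - b * s ∧ v1 = u1 + a * s := by
    refine ⟨(a * (v1 - u1) - b * (v0 - u0)) / (a ^ 2 + b ^ 2), ?_, ?_⟩
    · field_simp
      linear_combination a * hv - a * hu
    · field_simp
      linear_combination b * hv - b * hu
  obtain ⟨t, ht0, ht1⟩ : ∃ s, w0 = u0 - b * s ∧ w1 = u1 + a * s := by
    refine ⟨(a * (w1 - u1) - b * (w0 - u0)) / (a ^ 2 + b ^ 2), ?_, ?_⟩
    · field_simp
      linear_combination a * hw - a * hu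
    · field_simp
      linear_combination b * hw - b * hu
  subst hs0 hs1 ht0 ht1
  have hs : s ≠ 0 := by
    rintro rfl
    simp at huv
  have ht : t ≠ 0 := by
    rintro rfl
    simp at huw
  have hst : s - t ≠ 0 := by
    intro h
    have : s = t := by linarith
    subst this
    simp at hvw
  have : (a ^ 2 + b ^ 2) * s * t * (s - t) = 0 := by
    linear_combination t * cv - s * cw + (s - t) * cu
  simp [hN, hs, ht, hst] at this

theorem no_symm (x : Fin 13 → Pl) (y : Fin 13 → Set Pl) (h : IsReal I13 x y) (s : Pl ≃ᵢ Pl)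
    (hs : IsSymm x y s) : s = IsometryEquiv.refl Pl := by
  obtain ⟨hx, -, hl, hI⟩ := h
  have h1 : ∀ p, ∃ q, x q = s (x p) := fun p => by
    have : s (x p) ∈ Set.range x := hs.1 ▸ Set.mem_image_of_mem _ (Set.mem_range_self p)
    exact this
  have h2 : ∀ l, ∃ m, y m = s '' y l := fun l => by
    have : s '' y l ∈ Set.range y :=
      hs.2 ▸ Set.mem_image_of_mem (fun t : Set Pl => s '' t) (Set.mem_range_self l)
    exact this
  choose f hf using h1
  choose g hg using h2
  have finj : Function.Injective f := fun p q h => hx (s.injective (by rw [← hf, ← hf, h]))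
  have hfg : ∀ p l, I13 p l → I13 (f p) (g l) := fun p l h => by
    rw [← hI, hf, hg]
    exact Set.mem_image_of_mem _ ((hI p l).mpr h)
  obtain ⟨m, b, hm, hfm⟩ := aut_form f g finj hfg
  rcases orbits m b hm with hid | ⟨l, i, j, hi, hj⟩
  · have hfix : ∀ p, s (x p) = x p := fun p => by
      rw [← hf, hfm]; exact congrArg x (hid p)
    ext1 v
    by_contra hne
    have hne' : s v ≠ v := hne
    have e : ∀ p, (s v 0 - x p 0) ^ 2 + (s v 1 - x p 1) ^ 2 = (v 0 - x p 0) ^ 2 + (v 1 - x p 1) ^ 2 :=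
      fun p => by rw [← dsq, ← dsq, ← s.dist_eq v (x p), hfix]
    obtain ⟨a, b, c, hab, hy⟩ := hl 0
    have i0 := (hI 0 0).mpr (by decide)
    have i1 := (hI 1 0).mpr (by decide)
    have i2 : x 2 ∉ y 0 := fun h => absurd ((hI 2 0).mp h) (by decide)
    rw [hy] at i0 i1 i2
    have i0' : a * x 0 0 + b * x 0 1 = c := i0
    have i1' : a * x 1 0 + b * x 1 1 = c := i1
    apply i2
    show a * x 2 0 + b * x 2 1 = c
    have e0 := e 0
    have e1 := e 1
    have e2 := e 2
    have n01 := ne_coord (hx.ne (show (0 : Fin 13) ≠ 1 by decide))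
    have nv := ne_coord hne'
    have hdet : a * (s v 1 - v 1) - b * (s v 0 - v 0) = 0 := by
      rcases n01 with h | h
      · apply mul_left_cancel₀ (sub_ne_zero.mpr h)
        linear_combination (s v 1 - v 1) * (i0' - i1') + b / 2 * (e0 - e1)
      · apply mul_left_cancel₀ (sub_ne_zero.mpr h)
        linear_combination -(s v 0 - v 0) * (i0' - i1') - a / 2 * (e0 - e1)
    rcases nv with h | h
    · apply mul_left_cancel₀ (sub_ne_zero.mpr h)
      linear_combination (s v 0 - v 0) * i0' + a / 2 * (e0 - e2) - (x 2 1 - x 0 1) * hdet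
    · apply mul_left_cancel₀ (sub_ne_zero.mpr h)
      linear_combination (s v 1 - v 1) * i0' + b / 2 * (e0 - e2) + (x 2 0 - x 0 0) * hdet
  · exfalso
    rw [← hfm] at hi hj
    let S : Fin 13 → ℝ := fun p => ∑ q, dist (x p) (x q) ^ 2
    have hS : ∀ p, S (f p) = S p := fun p => by
      have := (Equiv.ofBijective f (Finite.injective_iff_bijective.mp finj)).sum_comp
        (fun q => dist (x (f p)) (x q) ^ 2)
      simp only [S]
      rw [← this]
      refine Finset.sum_congr rfl fun q _ => ?_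
      show dist (x (f p)) (x (f q)) ^ 2 = _
      rw [hf, hf, s.dist_eq]
    have hSi : ∀ k p, S (f^[k] p) = S p := fun k => by
      induction k with
      | zero => intro p; rfl
      | succ k ih => intro p; rw [Function.iterate_succ_apply', hS, ih]
    have hform : ∀ p, S p = 13 * (x p 0 ^ 2 + x p 1 ^ 2) - 2 * (∑ q, x q 0) * x p 0
        - 2 * (∑ q, x q 1) * x p 1 + ∑ q, (x q 0 ^ 2 + x q 1 ^ 2) := fun p => by
      simp only [S, dsq, Fin.sum_univ_succ, Fin.sum_univ_zero]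
      ring
    have s1 := hSi i l
    have s2 := hSi j l
    rw [hi] at s1
    rw [hj] at s2
    obtain ⟨a, b, c, hab, hy⟩ := hl l
    have i0 := (hI l l).mpr (Or.inl rfl)
    have i1 := (hI (l + 1) l).mpr (Or.inr (Or.inl rfl))
    have i2 := (hI (l + 4) l).mpr (Or.inr (Or.inr rfl))
    rw [hy] at i0 i1 i2
    have d : ∀ l : Fin 13, l ≠ l + 1 ∧ l ≠ l + 4 ∧ l + 1 ≠ l + 4 := by decide
    refine line_circle a b c (-2 * (∑ q, x q 0) / 13) (-2 * (∑ q, x q 1) / 13)
      ((S l - ∑ q, (x q 0 ^ 2 + x q 1 ^ 2)) / 13) hab _ _ _ _ _ _ i0 i1 i2 ?_ ?_ ?_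
      (ne_coord (hx.ne (d l).1)) (ne_coord (hx.ne (d l).2.1)) (ne_coord (hx.ne (d l).2.2))
    · rw [hform l]; ring
    · rw [← s1, hform (l + 1)]; ring
    · rw [← s2, hform (l + 4)]; ring

end H26.Sym3
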