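import Mathlib

set_option autoImplicit false

namespace H26.Sym3

/-- The real Euclidean plane. -/
abbrev Pl : Type := EuclideanSpace ℝ (Fin 2)

/-- `I p l` : point `p` is incident with line `l`; the axioms of a configuration (n_3). -/
def IsConfig {n : ℕ} (I : Fin n → Fin n → Prop) : Prop :=
  (∀ p, {l | I p l}.ncard = 3) ∧ (∀ l, {p | I p l}.ncard = 3) ∧
    ∀ p q, p ≠ q → {l | I p l ∧ I q l}.Subsingleton

/-- An automorphism: bijections of the points and of the lines preserving incidence both ways. -/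
def IsAut {n : ℕ} (I : Fin n → Fin n → Prop) (f g : Equiv.Perm (Fin n)) : Prop :=
  ∀ p l, I (f p) (g l) ↔ I p l

def PointTrans {n : ℕ} (I : Fin n → Fin n → Prop) : Prop :=
  ∀ p q, ∃ f g, IsAut I f g ∧ f p = q

def LineTrans {n : ℕ} (I : Fin n → Fin n → Prop) : Prop :=
  ∀ l m, ∃ f g, IsAut I f g ∧ g l = m

def FlagTrans {n : ℕ} (I : Fin n → Fin n → Prop) : Prop :=
  ∀ p l q m, I p l → I q m → ∃ f g, IsAut I f g ∧ f p = q ∧ g l = m

/-- A straight line of the plane. -/
def IsLine (s : Set Pl) : Prop :=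
  ∃ a b c : ℝ, (a ≠ 0 ∨ b ≠ 0) ∧ s = {v : Pl | a * v 0 + b * v 1 = c}

/-- A geometric realization: distinct points, distinct straight lines, exact incidences. -/
def IsReal {n : ℕ} (I : Fin n → Fin n → Prop) (x : Fin n → Pl) (y : Fin n → Set Pl) : Prop :=
  Function.Injective x ∧ Function.Injective y ∧ (∀ l, IsLine (y l)) ∧ ∀ p l, x p ∈ y l ↔ I p l

/-- A symmetry: an isometry of the plane mapping the set of realized points onto itself and the
set of realized lines onto itself. -/
def IsSymm {n : ℕ} (x : Fin n → Pl) (y : Fin n → Set Pl) (s : Pl ≃ᵢ Pl) : Prop :=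
  s '' Set.range x = Set.range x ∧ (fun t : Set Pl => s '' t) '' Set.range y = Set.range y

end H26.Sym3
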