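import Mathlib

set_option autoImplicit false

namespace H26.Tope

open Finset

section
variable {ι : Type} [Fintype ι] [DecidableEq ι]

def S (T U : ι → Bool) : Finset ι := univ.filter fun i => T i ≠ U i
def ng (T : ι → Bool) : ι → Bool := fun i => !T i
def fl (i : ι) (T : ι → Bool) : ι → Bool := fun j => if j = i then !T j else T j

theorem mem_S {T U : ι → Bool} {i : ι} : i ∈ S T U ↔ T i ≠ U i := by simp [S]

omit [Fintype ι] [DecidableEq ι] in
theorem ng_ng (T : ι → Bool) : ng (ng T) = T := by funext i; simp [ng]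

omit [Fintype ι] in
theorem fl_fl (i : ι) (T : ι → Bool) : fl i (fl i T) = T := by
  funext j; by_cases h : j = i <;> simp [fl, h]

omit [Fintype ι] in
theorem fl_ng (i : ι) (T : ι → Bool) : fl i (ng T) = ng (fl i T) := by
  funext j; by_cases h : j = i <;> simp [fl, ng, h]

theorem S_comm (T U : ι → Bool) : S T U = S U T := by
  ext i; simp [mem_S, eq_comm]

theorem S_self (T : ι → Bool) : S T T = ∅ := by ext i; simp [mem_S]

theorem card_ng (T U : ι → Bool) : (S T (ng U)).card + (S T U).card = Fintype.card ι := by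
  have : S T (ng U) = (S T U)ᶜ := by
    ext i; rw [mem_compl, mem_S, mem_S]; unfold ng; cases T i <;> cases U i <;> simp
  rw [this, card_compl]
  have := card_le_univ (S T U)
  omega

theorem S_ng_ng (T U : ι → Bool) : S (ng T) (ng U) = S T U := by
  ext i; rw [mem_S, mem_S]; unfold ng; cases T i <;> cases U i <;> simp

theorem card_fl_in {T U : ι → Bool} {i : ι} (h : T i ≠ U i) : (S (fl i T) U).card + 1 = (S T U).card := by
  have : S (fl i T) U = (S T U).erase i := by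
    ext j; rw [mem_erase, mem_S, mem_S]; unfold fl
    by_cases hj : j = i
    · subst hj; revert h; cases T j <;> cases U j <;> simp
    · simp [hj]
  rw [this, card_erase_add_one (mem_S.2 h)]

theorem card_fl_out {T U : ι → Bool} {i : ι} (h : T i = U i) : (S (fl i T) U).card = (S T U).card + 1 := by
  have : fl i T i ≠ U i := by unfold fl; rw [if_pos rfl, h]; cases U i <;> simp
  have := card_fl_in this
  rw [fl_fl] at this
  omega

theorem card_fl (T U : ι → Bool) (i : ι) :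
    (S (fl i T) U).card + 1 = (S T U).card ∨ (S (fl i T) U).card = (S T U).card + 1 := by
  by_cases h : T i = U i
  · exact Or.inr (card_fl_out h)
  · exact Or.inl (card_fl_in h)

theorem eq_of_card {T U : ι → Bool} (h : (S T U).card = 0) : T = U := by
  funext i
  by_contra hi
  have := card_eq_zero.1 h ▸ mem_S.2 hi
  simp at this

structure TS (𝒯 : Set (ι → Bool)) : Prop where
  ne : 𝒯.Nonempty
  neg : ∀ T ∈ 𝒯, ng T ∈ 𝒯
  geo : ∀ T ∈ 𝒯, ∀ U ∈ 𝒯, T ≠ U → ∃ i, T i ≠ U i ∧ fl i T ∈ 𝒯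
  edge : ∀ i, ∃ T ∈ 𝒯, fl i T ∈ 𝒯

theorem TS.step {𝒯 : Set (ι → Bool)} (h : TS 𝒯) {T0 T : ι → Bool} (h0 : T0 ∈ 𝒯) (hT : T ∈ 𝒯)
    (hc : (S T T0).card < Fintype.card ι) : ∃ i, T i = T0 i ∧ fl i T ∈ 𝒯 := by
  have hne : T ≠ ng T0 := by
    rintro rfl
    have := card_ng T0 T0
    rw [S_comm, S_self] at this
    simp at this; omega
  obtain ⟨i, hi, hf⟩ := h.geo T hT _ (h.neg _ h0) hne
  refine ⟨i, ?_, hf⟩
  revert hi; unfold ng; cases T i <;> cases T0 i <;> simp

theorem TS.walk {𝒯 : Set (ι → Bool)} (h : TS 𝒯) {T0 : ι → Bool} (h0 : T0 ∈ 𝒯) (t : ℕ) :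
    t ≤ Fintype.card ι → ∃ T ∈ 𝒯, (S T T0).card = t := by
  induction t with
  | zero => exact fun _ => ⟨T0, h0, by rw [S_self, card_empty]⟩
  | succ t ih =>
    intro ht
    obtain ⟨T, hT, hc⟩ := ih (by omega)
    obtain ⟨i, hi, hf⟩ := h.step h0 hT (by omega)
    exact ⟨_, hf, by rw [card_fl_out hi, hc]⟩

inductive Conn (𝒯 : Set (ι → Bool)) (i : ι) (T0 : ι → Bool) : (ι → Bool) → Prop
  | refl : Conn 𝒯 i T0 T0
  | neg (T : ι → Bool) : Conn 𝒯 i T0 T → Conn 𝒯 i T0 (ng T)
  | flip (T : ι → Bool) : Conn 𝒯 i T0 T → Conn 𝒯 i T0 (fl i T)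
  | loc (T T' : ι → Bool) : Conn 𝒯 i T0 T → T' ∈ 𝒯 → fl i T' ∈ 𝒯 → T i = T' i →
      2 * (S T T').card + 4 ≤ Fintype.card ι → Conn 𝒯 i T0 T'

def Good (𝒯 : Set (ι → Bool)) (i : ι) : Prop :=
  ∀ T ∈ 𝒯, fl i T ∈ 𝒯 → ∀ T' ∈ 𝒯, fl i T' ∈ 𝒯 → Conn 𝒯 i T T'

end

section
variable {ι κ : Type} [Fintype ι] [DecidableEq ι] [Fintype κ] [DecidableEq κ]

structure Cor (𝒯 : Set (ι → Bool)) (𝒰 : Set (κ → Bool)) (R : (ι → Bool) → (κ → Bool) → Prop) : Prop where
  memL : ∀ T U, R T U → T ∈ 𝒯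
  memR : ∀ T U, R T U → U ∈ 𝒰
  totL : ∀ T ∈ 𝒯, ∃ U, R T U
  totR : ∀ U ∈ 𝒰, ∃ T, R T U
  ngL : ∀ T U, R T U → R (ng T) U
  ngR : ∀ T U, R T U → R T (ng U)
  funL : ∀ T U U', R T U → R T U' → U' = U ∨ U' = ng U
  funR : ∀ T T' U, R T U → R T' U → T' = T ∨ T' = ng T
  adjL : ∀ T U i, R T U → fl i T ∈ 𝒯 → ∃ j, R (fl i T) (fl j U)
  adjR : ∀ T U j, R T U → fl j U ∈ 𝒰 → ∃ i, R (fl i T) (fl j U)

omit [Fintype ι] [Fintype κ] in
theorem Cor.symm {𝒯 : Set (ι → Bool)} {𝒰 : Set (κ → Bool)} {R : (ι → Bool) → (κ → Bool) → Prop}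
    (h : Cor 𝒯 𝒰 R) : Cor 𝒰 𝒯 (fun U T => R T U) :=
  ⟨fun _ _ r => h.memR _ _ r, fun _ _ r => h.memL _ _ r, h.totR, h.totL, fun _ _ r => h.ngR _ _ r,
    fun _ _ r => h.ngL _ _ r, fun _ _ _ r r' => h.funR _ _ _ r r', fun _ _ _ r r' => h.funL _ _ _ r r',
    fun _ _ _ r m => h.adjR _ _ _ r m, fun _ _ _ r m => h.adjL _ _ _ r m⟩

variable {𝒯 : Set (ι → Bool)} {𝒰 : Set (κ → Bool)} {R : (ι → Bool) → (κ → Bool) → Prop}

theorem Cor.le (h : Cor 𝒯 𝒰 R) (hT : TS 𝒯) (s : ℕ) : ∀ T U T' U', R T U → R T' U' → (S T T').card = s →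
    ((S U U').card ≤ s ∨ Fintype.card κ ≤ (S U U').card + s) ∧
    (Fintype.card κ % 2 = 0 → (S U U').card % 2 = s % 2) := by
  induction s with
  | zero =>
    intro T U T' U' r r' hc
    have := eq_of_card hc
    subst this
    rcases h.funL _ _ _ r r' with rfl | rfl
    · rw [S_self]; simp
    · have := card_ng U U
      rw [S_self, card_empty] at this
      omega
  | succ s ih =>
    intro T U T' U' r r' hc
    have hne : T ≠ T' := by rintro rfl; rw [S_self] at hc; simp at hc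
    obtain ⟨i, hi, hf⟩ := hT.geo T (h.memL _ _ r) T' (h.memL _ _ r') hne
    obtain ⟨j, hj⟩ := h.adjL _ _ i r hf
    have h1 := card_fl_in hi
    have h2 := ih _ _ _ _ hj r' (by omega)
    have h3 := card_fl U U' j
    omega

theorem Cor.dl (h : Cor 𝒯 𝒰 R) (hT : TS 𝒯) {T T' : ι → Bool} {U U' : κ → Bool} (r : R T U) (r' : R T' U') :
    min (S U U').card (Fintype.card κ - (S U U').card) ≤
      min (S T T').card (Fintype.card ι - (S T T').card) := by
  have h1 := (h.le hT _ _ _ _ _ r r' rfl).1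
  have h2 := (h.le hT _ _ _ _ _ r (h.ngL _ _ r') rfl).1
  have h3 := card_ng T T'
  omega

theorem Cor.dl_eq (h : Cor 𝒯 𝒰 R) (hT : TS 𝒯) (hU : TS 𝒰) {T T' : ι → Bool} {U U' : κ → Bool}
    (r : R T U) (r' : R T' U') :
    min (S U U').card (Fintype.card κ - (S U U').card) =
      min (S T T').card (Fintype.card ι - (S T T').card) :=
  le_antisymm (h.dl hT r r') (h.symm.dl hU r r')

theorem Cor.half (h : Cor 𝒯 𝒰 R) (hT : TS 𝒯) (hU : TS 𝒰) :
    Fintype.card ι / 2 ≤ Fintype.card κ / 2 ∧ (Fintype.card κ % 2 = 0 → Fintype.card ι % 2 = 0) := by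
  obtain ⟨T0, h0⟩ := hT.ne
  obtain ⟨U0, r0⟩ := h.totL T0 h0
  constructor
  · obtain ⟨T, hT', hc⟩ := hT.walk h0 (Fintype.card ι / 2) (by omega)
    obtain ⟨U, r⟩ := h.totL T hT'
    have := h.dl_eq hT hU r r0
    omega
  · intro he
    have := (h.le hT _ _ _ _ _ r0 (h.ngL _ _ r0) rfl).2 he
    have h3 := card_ng T0 T0
    rw [S_self, card_empty] at this h3
    omega

theorem Cor.card_eq (h : Cor 𝒯 𝒰 R) (hT : TS 𝒯) (hU : TS 𝒰) : Fintype.card ι = Fintype.card κ := by
  have h1 := h.half hT hU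
  have h2 := h.symm.half hU hT
  omega

def tr (π : ι ≃ κ) (ε : ι → Bool) (T : ι → Bool) : κ → Bool := fun j => xor (T (π.symm j)) (ε (π.symm j))

theorem Cor.lift (h : Cor 𝒯 𝒰 R) (hT : TS 𝒯) (hU : TS 𝒰) (P : (ι → Bool) → (κ → Bool) → Prop)
    (p1 : ∀ T U, P T U ∨ P T (ng U)) (p2 : ∀ T U, P T U → ¬ P T (ng U))
    (p3 : ∀ T U, P T U → P (ng T) (ng U))
    (p4 : ∀ T U i j, R T U → P T U → R (fl i T) (fl j U) → P (fl i T) (fl j U)) :
    ∃ (π : ι ≃ κ) (ε : ι → Bool), ∀ T, T ∈ 𝒯 ↔ tr π ε T ∈ 𝒰 := by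
  have hn := h.card_eq hT hU
  have tot : ∀ T ∈ 𝒯, ∃ U, R T U ∧ P T U := by
    intro T hT'
    obtain ⟨U, r⟩ := h.totL T hT'
    rcases p1 T U with p | p
    · exact ⟨U, r, p⟩
    · exact ⟨_, h.ngR _ _ r, p⟩
  have le : ∀ s T U T' U', R T U → P T U → R T' U' → P T' U' → (S T T').card = s → (S U U').card ≤ s := by
    intro s
    induction s with
    | zero =>
      intro T U T' U' r p r' p' hc
      have := eq_of_card hc
      subst this
      rcases h.funL _ _ _ r r' with rfl | rfl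
      · rw [S_self]; simp
      · exact absurd p' (p2 _ _ p)
    | succ s ih =>
      intro T U T' U' r p r' p' hc
      have hne : T ≠ T' := by rintro rfl; rw [S_self] at hc; simp at hc
      obtain ⟨i, hi, hf⟩ := hT.geo T (h.memL _ _ r) T' (h.memL _ _ r') hne
      obtain ⟨j, hj⟩ := h.adjL _ _ i r hf
      have h1 := card_fl_in hi
      have h2 := ih _ _ _ _ hj (p4 _ _ _ _ r p hj) r' p' (by omega)
      have h3 := card_fl U U' j
      omega
  have iso : ∀ T U T' U', R T U → P T U → R T' U' → P T' U' → (S U U').card = (S T T').card := by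
    intro T U T' U' r p r' p'
    have h1 := le _ _ _ _ _ r p r' p' rfl
    have h2 := le _ _ _ _ _ r p (h.ngR _ _ (h.ngL _ _ r')) (p3 _ _ p') rfl
    have h3 := card_ng T T'
    have h4 := card_ng U U'
    omega
  have lab : ∀ i, ∃ j : κ, ∃ e : Bool, ∀ T U, R T U → P T U → U j = xor (T i) e := by
    intro i
    obtain ⟨T0, h0, hf⟩ := hT.edge i
    obtain ⟨U0, r0, q0⟩ := tot T0 h0
    obtain ⟨j, hj⟩ := h.adjL _ _ i r0 hf
    refine ⟨j, xor (T0 i) (U0 j), fun T U r p => ?_⟩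
    have e1 := iso _ _ _ _ r0 q0 r p
    have e2 := iso _ _ _ _ hj (p4 _ _ _ _ r0 q0 hj) r p
    by_cases a : T0 i = T i <;> by_cases b : U0 j = U j
    · rw [a, b]; cases T i <;> cases U j <;> rfl
    · have := card_fl_out a
      have := card_fl_in b
      omega
    · have := card_fl_in a
      have := card_fl_out b
      omega
    · revert a b; cases T i <;> cases U j <;> cases T0 i <;> cases U0 j <;> simp
  choose π ε hπ using lab
  have inj : Function.Injective π := by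
    intro i i' e
    by_contra hne
    obtain ⟨T0, h0, hf⟩ := hT.edge i
    obtain ⟨U0, r0, q0⟩ := tot T0 h0
    obtain ⟨U1, r1, q1⟩ := tot _ hf
    have a1 := hπ i _ _ r0 q0
    have a2 := hπ i' _ _ r0 q0
    have a3 := hπ i _ _ r1 q1
    have a4 := hπ i' _ _ r1 q1
    rw [← e] at a2 a4
    unfold fl at a3 a4
    rw [if_pos rfl] at a3
    rw [if_neg (Ne.symm hne)] at a4
    rw [a1] at a2
    rw [a3] at a4
    revert a2 a4
    cases T0 i <;> cases T0 i' <;> cases ε i <;> cases ε i' <;> simp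
  have bij : Function.Bijective π := (Fintype.bijective_iff_injective_and_card π).2 ⟨inj, hn⟩
  let e := Equiv.ofBijective π bij
  have key : ∀ T U, R T U → P T U → U = tr e ε T := by
    intro T U r p
    funext j
    obtain ⟨i, rfl⟩ := e.surjective j
    unfold tr
    rw [e.symm_apply_apply]
    exact hπ i _ _ r p
  refine ⟨e, ε, fun T => ⟨fun hT' => ?_, fun hU' => ?_⟩⟩
  · obtain ⟨U, r, p⟩ := tot T hT'
    rw [← key _ _ r p]; exact h.memR _ _ r
  · obtain ⟨T', r⟩ := h.totR _ hU'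
    obtain ⟨T'', r', p'⟩ : ∃ T'', R T'' (tr e ε T) ∧ P T'' (tr e ε T) := by
      rcases p1 T' (tr e ε T) with p | p
      · exact ⟨T', r, p⟩
      · refine ⟨ng T', h.ngL _ _ r, ?_⟩
        have := p3 _ _ p
        rwa [ng_ng] at this
    have k := key _ _ r' p'
    have : T = T'' := by
      funext i
      have := congrFun k (e i)
      unfold tr at this
      rw [e.symm_apply_apply] at this
      revert this; cases T i <;> cases T'' i <;> cases ε i <;> simp
    rw [this]; exact h.memL _ _ r'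

theorem Cor.odd (h : Cor 𝒯 𝒰 R) (hT : TS 𝒯) (hU : TS 𝒰) (ho : Fintype.card ι % 2 = 1) :
    ∃ (π : ι ≃ κ) (ε : ι → Bool), ∀ T, T ∈ 𝒯 ↔ tr π ε T ∈ 𝒰 := by
  have hn := h.card_eq hT hU
  refine h.lift hT hU (fun T U => (S (fun _ => true) T).card % 2 = (S (fun _ => true) U).card % 2)
    ?_ ?_ ?_ ?_
  · intro T U
    have := card_ng (fun _ => true) U
    omega
  · intro T U
    have := card_ng (fun _ => true) U
    omega
  · intro T U
    have := card_ng (fun _ => true) U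
    have := card_ng (fun _ => true) T
    omega
  · intro T U i j _ p _
    have h1 := card_fl T (fun _ => true) i
    have h2 := card_fl U (fun _ => true) j
    rw [S_comm _ T, S_comm _ U] at p
    rw [S_comm _ (fl i T), S_comm _ (fl j U)]
    omega

theorem Cor.uniq (h : Cor 𝒯 𝒰 R) (h3 : 3 ≤ Fintype.card κ) {T : ι → Bool} {U U' : κ → Bool} {i : ι}
    {j j' : κ} (r : R T U) (e : R (fl i T) (fl j U)) (r' : R T U') (e' : R (fl i T) (fl j' U')) :
    j = j' := by
  have main : ∀ j', R (fl i T) (fl j' U) → j = j' := by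
    intro j' e'
    by_contra hne
    have c1 := card_fl_out (T := U) (U := U) (i := j) rfl
    have c2 := card_fl_out (T := U) (U := fl j U) (i := j') (by unfold fl; rw [if_neg (Ne.symm hne)])
    rw [S_self, card_empty] at c1
    rw [S_comm U] at c2
    rcases h.funL _ _ _ e e' with k | k
    · rw [k, S_self, card_empty] at c2; omega
    · have := card_ng (fl j U) (fl j U)
      rw [k, S_comm] at c2
      rw [S_self, card_empty] at this
      omega
  rcases h.funL _ _ _ r r' with rfl | rfl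
  · exact main _ e'
  · rw [fl_ng] at e'
    have := h.ngR _ _ e'
    rw [ng_ng] at this
    exact main _ this

theorem Cor.good (h : Cor 𝒯 𝒰 R) (hT : TS 𝒯) (hU : TS 𝒰) (h3 : 3 ≤ Fintype.card κ) {i : ι}
    (hg : Good 𝒯 i) {T T' : ι → Bool} {U U' : κ → Bool}
    {j j' : κ} (r : R T U) (e : R (fl i T) (fl j U)) (r' : R T' U') (e' : R (fl i T') (fl j' U')) :
    j = j' := by
  have hn := h.card_eq hT hU
  have c := hg T (h.memL _ _ r) (h.memL _ _ e) T' (h.memL _ _ r') (h.memL _ _ e')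
  have : ∃ W, R T' W ∧ R (fl i T') (fl j W) := by
    clear r' e'
    induction c with
    | refl => exact ⟨U, r, e⟩
    | neg X _ ih =>
      obtain ⟨W, a, b⟩ := ih
      exact ⟨W, h.ngL _ _ a, by rw [fl_ng]; exact h.ngL _ _ b⟩
    | flip X _ ih =>
      obtain ⟨W, a, b⟩ := ih
      exact ⟨fl j W, b, by rw [fl_fl, fl_fl]; exact a⟩
    | loc X X' _ m1 m2 hi hs ih =>
      obtain ⟨W, a, b⟩ := ih
      obtain ⟨W', a', hc⟩ : ∃ W', R X' W' ∧ (S W W').card = (S X X').card := by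
        obtain ⟨W', a'⟩ := h.totL X' m1
        have d1 := h.dl_eq hT hU a a'
        have d2 := card_ng W W'
        by_cases hc : (S W W').card = (S X X').card
        · exact ⟨W', a', hc⟩
        · exact ⟨ng W', h.ngR _ _ a', by omega⟩
      obtain ⟨j', b'⟩ := h.adjL _ _ i a' m2
      refine ⟨W', a', ?_⟩
      suffices j = j' by rw [this]; exact b'
      by_contra hne
      have d1 := h.dl_eq hT hU b a'
      have d2 := h.dl_eq hT hU b' a
      have d3 := h.dl_eq hT hU b' b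
      have x1 := card_fl_out hi
      have x2 := card_fl_out hi.symm
      have x3 : (S (fl i X') (fl i X)).card + 1 = (S X' (fl i X)).card :=
        card_fl_in (by unfold fl; rw [if_pos rfl, hi]; cases X' i <;> simp)
      have y1 := card_fl W W' j
      have y2 := card_fl W' W j'
      rw [S_comm X' X] at x2
      rw [S_comm X'] at x3
      rw [S_comm W' W] at y2
      by_cases z : W' j' = W j'
      · have y3 : (S (fl j' W') (fl j W)).card = (S W' (fl j W)).card + 1 :=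
          card_fl_out (by unfold fl; rw [if_neg (Ne.symm hne), z])
        rw [S_comm W'] at y3
        omega
      · have := card_fl_in z
        rw [S_comm W' W] at this
        omega
  obtain ⟨W, a, b⟩ := this
  exact h.uniq h3 a b r' e'

theorem Cor.even (h : Cor 𝒯 𝒰 R) (hT : TS 𝒯) (hU : TS 𝒰) (h6 : 6 ≤ Fintype.card ι)
    (g1 : ∀ a b, ¬ Good 𝒯 a → ¬ Good 𝒯 b → a = b) (g2 : ∀ a b, ¬ Good 𝒰 a → ¬ Good 𝒰 b → a = b) :
    ∃ (π : ι ≃ κ) (ε : ι → Bool), ∀ T, T ∈ 𝒯 ↔ tr π ε T ∈ 𝒰 := by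
  have hn := h.card_eq hT hU
  obtain ⟨T, U, i0, j0, r, e, gi, gj⟩ : ∃ T U i j, R T U ∧ R (fl i T) (fl j U) ∧ Good 𝒯 i ∧ Good 𝒰 j := by
    by_contra hc
    have hc : ∀ T U i j, R T U → R (fl i T) (fl j U) → ¬ Good 𝒯 i ∨ ¬ Good 𝒰 j := by
      intro T U i j r e
      by_contra hh
      push Not at hh
      exact hc ⟨T, U, i, j, r, e, hh.1, hh.2⟩
    obtain ⟨T0, h0⟩ := hT.ne
    obtain ⟨U0, r0⟩ := h.totL T0 h0
    have c0 : (S T0 T0).card = 0 := by rw [S_self, card_empty]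
    obtain ⟨i1, a1, f1⟩ := hT.step h0 h0 (by omega)
    have c1 := card_fl_out a1
    obtain ⟨i2, a2, f2⟩ := hT.step h0 f1 (by omega)
    have c2 := card_fl_out a2
    obtain ⟨i3, a3, f3⟩ := hT.step h0 f2 (by omega)
    have c3 := card_fl_out a3
    obtain ⟨j1, r1⟩ := h.adjL _ _ i1 r0 f1
    obtain ⟨j2, r2⟩ := h.adjL _ _ i2 r1 f2
    obtain ⟨j3, r3⟩ := h.adjL _ _ i3 r2 f3
    have d := h.dl_eq hT hU r3 r0
    have sub : ∀ {μ : Type} [Fintype μ] [DecidableEq μ] (X : μ → Bool) (a b c : μ),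
        3 ≤ (S (fl c (fl b (fl a X))) X).card → a ≠ b ∧ a ≠ c ∧ b ≠ c := by
      intro μ _ _ X a b c h3
      have s : S (fl c (fl b (fl a X))) X ⊆ {a, b, c} := by
        intro t ht
        rw [mem_S] at ht
        by_contra hn
        simp only [mem_insert, mem_singleton, not_or] at hn
        apply ht
        unfold fl
        rw [if_neg hn.2.2, if_neg hn.2.1, if_neg hn.1]
      have h4 := h3.trans (card_le_card s)
      refine ⟨?_, ?_, ?_⟩ <;> rintro rfl
      · rw [insert_eq_of_mem (by simp)] at h4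
        have := card_le_two (a := a) (b := c); omega
      · rw [insert_eq_of_mem (by simp)] at h4
        have := card_le_two (a := b) (b := a); omega
      · rw [insert_eq_of_mem (s := {b}) (by simp)] at h4
        have := card_le_two (a := a) (b := b); omega
    obtain ⟨n1, n2, n3⟩ := sub T0 i1 i2 i3 (by omega)
    obtain ⟨m1, m2, m3⟩ := sub U0 j1 j2 j3 (by omega)
    rcases hc _ _ _ _ r0 r1 with b1 | b1 <;> rcases hc _ _ _ _ r1 r2 with b2 | b2 <;>
      rcases hc _ _ _ _ r2 r3 with b3 | b3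
    all_goals first
      | exact n1 (g1 _ _ b1 b2) | exact n2 (g1 _ _ b1 b3) | exact n3 (g1 _ _ b2 b3)
      | exact m1 (g2 _ _ b1 b2) | exact m2 (g2 _ _ b1 b3) | exact m3 (g2 _ _ b2 b3)
  refine h.lift hT hU (fun T U => T i0 = U j0) ?_ ?_ ?_ ?_
  · intro T U; unfold ng; cases T i0 <;> cases U j0 <;> simp
  · intro T U; unfold ng; cases T i0 <;> cases U j0 <;> simp
  · intro T U; unfold ng; cases T i0 <;> cases U j0 <;> simp
  · intro T' U' i j r' p e'
    have k1 : i0 = i → j0 = j := fun hi => h.good hT hU (by omega) gi r e r' (hi ▸ e')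
    have k2 : j0 = j → i0 = i := fun hj => h.symm.good hU hT (by omega) gj r e r' (hj ▸ e')
    unfold fl
    by_cases hi : i0 = i
    · rw [if_pos hi, if_pos (k1 hi), p]
    · rw [if_neg hi, if_neg (fun hj => hi (k2 hj)), p]

end

end H26.Tope
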