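import Mathlib

set_option autoImplicit false

namespace H26.Tope

/-- A `d`-arrangement in real projective `d`-space: `n ≥ d+1` pairwise distinct hyperplanes, each the zero
set of a nonzero linear form on `ℝ^(d+1)`, with no projective point on all of them. -/
structure Arr (d : ℕ) where
  n : ℕ
  α : Fin n → ((Fin (d+1) → ℝ) →ₗ[ℝ] ℝ)
  card : d + 1 ≤ n
  ne : ∀ i, α i ≠ 0
  inj : ∀ i j, LinearMap.ker (α i) = LinearMap.ker (α j) → i = j
  ess : ∀ x, (∀ i, α i x = 0) → x = 0

/-- The position of a vector relative to all hyperplanes. -/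
noncomputable def Arr.sv {d : ℕ} (A : Arr d) (x : Fin (d+1) → ℝ) : Fin A.n → SignType :=
  fun i => SignType.sign (A.α i x)

/-- The relatively open cell containing the projective point of `x ≠ 0`, pulled back to `ℝ^(d+1)`. -/
def Arr.face {d : ℕ} (A : Arr d) (x : Fin (d+1) → ℝ) : Set (Fin (d+1) → ℝ) :=
  {y | A.sv y = A.sv x ∨ A.sv y = -A.sv x}

/-- The faces of the projective cell complex. -/
def Arr.Face {d : ℕ} (A : Arr d) : Type := {F : Set (Fin (d+1) → ℝ) // ∃ x, x ≠ 0 ∧ F = A.face x}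

/-- `F` is a `k`-face: its pull-back spans a `(k+1)`-dimensional linear subspace. -/
def Arr.IsDim {d : ℕ} {A : Arr d} (F : A.Face) (k : ℕ) : Prop :=
  Module.finrank ℝ (Submodule.span ℝ F.1) = k + 1

/-- Incidence: `F` lies in the closure of `G`. -/
def Arr.Inc {d : ℕ} {A : Arr d} (F G : A.Face) : Prop := F.1 ⊆ closure G.1

/-- The `d`-cells. -/
def Arr.Cell {d : ℕ} (A : Arr d) : Type := {F : A.Face // Arr.IsDim F d}

/-- Two distinct `d`-cells are adjacent when they share a common `(d-1)`-face. -/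
def Arr.Adj {d : ℕ} {A : Arr d} (C D : A.Cell) : Prop :=
  C ≠ D ∧ ∃ F : A.Face, Arr.IsDim F (d - 1) ∧ Arr.Inc F C.1 ∧ Arr.Inc F D.1

end H26.Tope
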