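import Pool.Agent.H26.TopeGeo

set_option autoImplicit false

namespace H26.Tope

open Finset SignType Filter Topology Module

variable {d : ℕ} (A : Arr d)

theorem face_eq {x y : Fin (d+1) → ℝ} : A.face x = A.face y ↔ (A.sv x = A.sv y ∨ A.sv x = -A.sv y) := by
  constructor
  · intro h
    have : x ∈ A.face x := Or.inl rfl
    rw [h] at this
    exact this
  · rintro (h | h)
    · unfold Arr.face; rw [h]
    · unfold Arr.face; rw [h, neg_neg]
      ext z; exact or_comm

theorem mem_span_face {x w : Fin (d+1) → ℝ} :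
    w ∈ Submodule.span ℝ (A.face x) ↔ ∀ k, A.sv x k = 0 → A.α k w = 0 := by
  constructor
  · intro hw k hk
    have : Submodule.span ℝ (A.face x) ≤ LinearMap.ker (A.α k) := by
      rw [Submodule.span_le]
      rintro y (hy | hy)
      · exact (sv_zero A).1 (by rw [hy, hk])
      · exact (sv_zero A).1 (by rw [hy, Pi.neg_apply, hk, neg_zero])
    exact this hw
  · intro h
    obtain ⟨ε, hε, e⟩ := comp A x w
    have h1 : x + ε • w ∈ A.face x := by
      refine Or.inl (funext fun k => ?_)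
      rw [e k]; split_ifs with hk
      · rw [hk]; exact (sv_zero A).2 (h k hk)
      · rfl
    have h2 : x ∈ A.face x := Or.inl rfl
    have : w = ε⁻¹ • ((x + ε • w) - x) := by
      rw [add_sub_cancel_left, smul_smul, inv_mul_cancel₀ hε.ne', one_smul]
    rw [this]
    exact Submodule.smul_mem _ _ (Submodule.sub_mem _ (Submodule.subset_span h1) (Submodule.subset_span h2))

theorem finrank_ker (i : Fin A.n) : finrank ℝ (LinearMap.ker (A.α i)) = d := by
  have h1 := LinearMap.finrank_range_add_finrank_ker (A.α i)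
  have h2 : LinearMap.range (A.α i) = ⊤ := by
    obtain ⟨w, hw⟩ := exists_ne A i
    rw [eq_top_iff]
    intro r _
    exact ⟨(r / A.α i w) • w, by rw [map_smul, smul_eq_mul, div_mul_cancel₀ _ hw]⟩
  rw [h2, finrank_top] at h1
  simp at h1
  omega

theorem dim_top {x : Fin (d+1) → ℝ} :
    finrank ℝ (Submodule.span ℝ (A.face x)) = d + 1 ↔ ∀ k, A.sv x k ≠ 0 := by
  constructor
  · intro h k hk
    have : Submodule.span ℝ (A.face x) ≤ LinearMap.ker (A.α k) := fun w hw => (mem_span_face A).1 hw k hk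
    have := Submodule.finrank_mono this
    rw [finrank_ker] at this
    omega
  · intro h
    have : Submodule.span ℝ (A.face x) = ⊤ := by
      rw [eq_top_iff]; intro w _
      exact (mem_span_face A).2 fun k hk => absurd hk (h k)
    rw [this, finrank_top]; simp

theorem dim_facet {x : Fin (d+1) → ℝ} :
    finrank ℝ (Submodule.span ℝ (A.face x)) = d ↔ ∃ i, A.sv x i = 0 ∧ ∀ k, k ≠ i → A.sv x k ≠ 0 := by
  constructor
  · intro h
    obtain ⟨i, hi⟩ : ∃ i, A.sv x i = 0 := by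
      by_contra hh
      push Not at hh
      have := (dim_top A).2 hh
      omega
    refine ⟨i, hi, fun k hk hk0 => hk ?_⟩
    have le : Submodule.span ℝ (A.face x) ≤ LinearMap.ker (A.α i) := fun w hw => (mem_span_face A).1 hw i hi
    have eq := Submodule.eq_of_le_of_finrank_eq le (by rw [h, finrank_ker])
    exact (ker_le A fun w hw => (mem_span_face A).1 (eq ▸ hw) k hk0).symm
  · rintro ⟨i, hi, h⟩
    have : Submodule.span ℝ (A.face x) = LinearMap.ker (A.α i) := by
      ext w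
      rw [mem_span_face]
      refine ⟨fun hw => hw i hi, fun hw k hk => ?_⟩
      by_cases hki : k = i
      · rw [hki]; exact hw
      · exact absurd hk (h k hki)
    rw [this, finrank_ker]

def Le {ι : Type} (X Y : ι → SignType) : Prop := ∀ k, X k = 0 ∨ X k = Y k

theorem mem_closure_face {x y : Fin (d+1) → ℝ} :
    x ∈ closure (A.face y) ↔ (Le (A.sv x) (A.sv y) ∨ Le (A.sv x) (-A.sv y)) := by
  have cont : ∀ k, Continuous (A.α k) := fun k => (A.α k).continuous_of_finiteDimensional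
  have cl : ∀ Y : Fin A.n → SignType, IsClosed {z | Le (A.sv z) Y} := by
    intro Y
    have : {z | Le (A.sv z) Y} = ⋂ k, {z | A.sv z k = 0 ∨ A.sv z k = Y k} := by
      ext z; simp [Le]
    rw [this]
    refine isClosed_iInter fun k => ?_
    unfold Arr.sv
    cases Y k
    · simp only [zero_eq_zero, or_self, sign_eq_zero_iff]
      exact isClosed_eq (cont k) continuous_const
    · simp only [neg_eq_neg_one, sign_eq_zero_iff, sign_eq_neg_one_iff, ← le_iff_eq_or_lt]
      exact isClosed_le (cont k) continuous_const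
    · simp only [pos_eq_one, sign_eq_zero_iff, sign_eq_one_iff]
      have : {z | A.α k z = 0 ∨ 0 < A.α k z} = {z | 0 ≤ A.α k z} := by
        ext z; simp [le_iff_eq_or_lt, eq_comm]
      rw [this]
      exact isClosed_le continuous_const (cont k)
  have up : ∀ y', y' ∈ A.face y → Le (A.sv x) (A.sv y') → x ∈ closure (A.face y) := by
    intro y' hy' h
    have t : Tendsto (fun ε : ℝ => x + ε • y') (𝓝[>] 0) (𝓝 x) := by
      have : Tendsto (fun ε : ℝ => x + ε • y') (𝓝 0) (𝓝 (x + (0:ℝ) • y')) :=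
        (continuous_const.add (continuous_id.smul continuous_const)).tendsto 0
      simp only [zero_smul, add_zero] at this
      exact this.mono_left nhdsWithin_le_nhds
    refine mem_closure_of_tendsto t ?_
    filter_upwards [self_mem_nhdsWithin] with ε hε
    have hε : 0 < ε := hε
    have : A.sv (x + ε • y') = A.sv y' := by
      funext k
      have hk := h k
      unfold Arr.sv at hk ⊢
      simp only [map_add, map_smul, smul_eq_mul]
      rcases hk with hk | hk
      · rw [sign_eq_zero_iff.1 hk, zero_add, sign_mul, sign_pos hε, one_mul]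
      · rcases lt_trichotomy (A.α k y') 0 with u | u | u
        · rw [sign_neg u] at hk ⊢
          have v := sign_eq_neg_one_iff.1 hk
          exact sign_neg (by nlinarith)
        · rw [u, sign_zero] at hk
          rw [u, sign_eq_zero_iff.1 hk]; simp
        · rw [sign_pos u] at hk ⊢
          have v := sign_eq_one_iff.1 hk
          exact sign_pos (by nlinarith)
    show A.sv _ = _ ∨ A.sv _ = _
    rw [this]; exact hy'
  constructor
  · intro h
    have : A.face y ⊆ {z | Le (A.sv z) (A.sv y)} ∪ {z | Le (A.sv z) (-A.sv y)} := by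
      rintro z (hz | hz)
      · exact Or.inl fun k => Or.inr (by rw [hz])
      · exact Or.inr fun k => Or.inr (by rw [hz])
    exact closure_minimal this ((cl _).union (cl _)) h
  · rintro (h | h)
    · exact up y (Or.inl rfl) h
    · exact up (-y) (Or.inr (sv_neg A y)) (by rw [sv_neg]; exact h)

theorem Le.neg {ι : Type} {X Y : ι → SignType} (h : Le X Y) : Le (-X) (-Y) := fun k => by
  rcases h k with h | h <;> simp [h]

theorem inc_iff {x y : Fin (d+1) → ℝ} :
    A.face x ⊆ closure (A.face y) ↔ (Le (A.sv x) (A.sv y) ∨ Le (A.sv x) (-A.sv y)) := by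
  constructor
  · intro h; exact (mem_closure_face A).1 (h (Or.inl rfl))
  · intro h z hz
    rw [mem_closure_face]
    rcases hz with hz | hz <;> rw [hz]
    · exact h
    · rcases h with h | h
      · exact Or.inr h.neg
      · have := h.neg
        rw [neg_neg] at this
        exact Or.inl this

theorem ne_zero_of_gen {x : Fin (d+1) → ℝ} {i : Fin A.n} (h : A.sv x i ≠ 0) : x ≠ 0 := by
  rintro rfl; exact h ((sv_zero A).2 (map_zero _))

noncomputable def cell (x : Fin (d+1) → ℝ) (hx : ∀ k, A.sv x k ≠ 0) : A.Cell :=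
  ⟨⟨A.face x, x, ne_zero_of_gen A (hx ⟨0, by have := A.card; omega⟩), rfl⟩, (dim_top A).2 hx⟩

theorem cell_surj (C : A.Cell) : ∃ x hx, C = cell A x hx := by
  obtain ⟨⟨F, x, h0, rfl⟩, h⟩ := C
  exact ⟨x, (dim_top A).1 h, rfl⟩

theorem tb_inj {ι : Type} {X Y : ι → SignType} (hx : ∀ k, X k ≠ 0) (hy : ∀ k, Y k ≠ 0) :
    tb X = tb Y ↔ X = Y :=
  ⟨fun h => funext fun k => (tb_eq (hx k) (hy k)).1 (congrFun h k), fun h => by rw [h]⟩

theorem tb_ng {ι : Type} {X : ι → SignType} (hx : ∀ k, X k ≠ 0) : tb (-X) = ng (tb X) :=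
  funext fun k => tb_neg (hx k)

theorem cell_eq {x y : Fin (d+1) → ℝ} (hx : ∀ k, A.sv x k ≠ 0) (hy : ∀ k, A.sv y k ≠ 0) :
    cell A x hx = cell A y hy ↔ (tb (A.sv x) = tb (A.sv y) ∨ tb (A.sv x) = ng (tb (A.sv y))) := by
  rw [← tb_ng hy, tb_inj hx hy, tb_inj hx (fun k => by simpa using hy k), ← face_eq]
  constructor
  · intro h; exact congrArg (fun C : A.Cell => C.1.1) h
  · intro h; exact Subtype.ext (Subtype.ext h)

theorem gen_neg {x : Fin (d+1) → ℝ} (hx : ∀ k, A.sv x k ≠ 0) : ∀ k, A.sv (-x) k ≠ 0 := fun k => by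
  rw [sv_neg]; simpa using hx k

theorem cell_neg {x : Fin (d+1) → ℝ} (hx : ∀ k, A.sv x k ≠ 0) : cell A (-x) (gen_neg A hx) = cell A x hx :=
  (cell_eq A _ _).2 (Or.inr (by rw [sv_neg, tb_ng hx]))

theorem adj_of (hd : 3 ≤ d) {x y : Fin (d+1) → ℝ} (hx : ∀ k, A.sv x k ≠ 0) (hy : ∀ k, A.sv y k ≠ 0)
    {i : Fin A.n} (h : tb (A.sv y) = fl i (tb (A.sv x))) : Arr.Adj (cell A x hx) (cell A y hy) := by
  constructor
  · rw [Ne, cell_eq, h]
    have c := card_fl_out (T := tb (A.sv x)) (U := tb (A.sv x)) (i := i) rfl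
    have c' := card_ng (fl i (tb (A.sv x))) (fl i (tb (A.sv x)))
    rw [S_self, card_empty] at c c'
    rintro (e | e)
    · rw [← e, S_self, card_empty] at c; omega
    · rw [← e, Fintype.card_fin] at c'
      have := A.card
      omega
  · obtain ⟨z, hz, ez⟩ := edge_facet A (i := i) ⟨x, hx, rfl⟩ ⟨y, hy, h⟩
    have zi : A.sv z i = 0 := (sv_zero A).2 hz.1
    have zk : ∀ k, k ≠ i → A.sv z k ≠ 0 := fun k hk => hz.2 k (by simp [hk])
    obtain ⟨k0, hk0⟩ : ∃ k, k ≠ i := by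
      haveI : Nontrivial (Fin A.n) := Fin.nontrivial_iff_two_le.2 (by have := A.card; omega)
      exact _root_.exists_ne i
    refine ⟨⟨A.face z, z, ne_zero_of_gen A (zk k0 hk0), rfl⟩, ?_, ?_, ?_⟩
    · show finrank ℝ (Submodule.span ℝ (A.face z)) = d - 1 + 1
      rw [(dim_facet A).2 ⟨i, zi, zk⟩]; omega
    · refine (inc_iff A).2 (Or.inl fun k => ?_)
      by_cases hk : k = i
      · exact Or.inl (hk ▸ zi)
      · exact Or.inr ((tb_eq (zk k hk) (hx k)).1 (ez k hk))
    · refine (inc_iff A).2 (Or.inl fun k => ?_)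
      by_cases hk : k = i
      · exact Or.inl (hk ▸ zi)
      · refine Or.inr ((tb_eq (zk k hk) (hy k)).1 ((ez k hk).trans ?_))
        have := congrFun h k
        unfold fl at this
        rw [if_neg hk] at this
        exact this.symm

theorem of_adj (hd : 3 ≤ d) {x : Fin (d+1) → ℝ} (hx : ∀ k, A.sv x k ≠ 0) {D : A.Cell}
    (h : Arr.Adj (cell A x hx) D) : ∃ y hy i, D = cell A y hy ∧ tb (A.sv y) = fl i (tb (A.sv x)) := by
  obtain ⟨y, hy, rfl⟩ := cell_surj A D
  obtain ⟨hne, ⟨F, z, z0, rfl⟩, h1, h2, h3⟩ := h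
  have h1 : finrank ℝ (Submodule.span ℝ (A.face z)) = d - 1 + 1 := h1
  obtain ⟨i, zi, zk⟩ := (dim_facet A).1 (by rw [h1]; omega : finrank ℝ (Submodule.span ℝ (A.face z)) = d)
  have h2 := (inc_iff A).1 h2
  have h3 := (inc_iff A).1 h3
  have main : ∀ y hy, cell A x hx ≠ cell A y hy → (∀ k, k ≠ i → A.sv x k = A.sv y k) →
      tb (A.sv y) = fl i (tb (A.sv x)) := by
    intro y hy hne h
    funext k
    unfold fl
    split_ifs with hk
    · subst hk
      have : A.sv x k ≠ A.sv y k := by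
        intro e
        apply hne
        rw [cell_eq]; left; congr 1
        funext t
        by_cases ht : t = k
        · rw [ht, e]
        · exact h t ht
      have h2 := hx k
      have h3 := hy k
      unfold tb
      revert this h2 h3
      cases A.sv x k <;> cases A.sv y k <;> decide
    · unfold tb; rw [h k hk]
  have p : ∀ {Y}, Le (A.sv z) Y → ∀ k, k ≠ i → A.sv z k = Y k := fun h k hk => (h k).resolve_left (zk k hk)
  by_cases hs : ∀ k, k ≠ i → A.sv x k = A.sv y k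
  · exact ⟨y, hy, i, rfl, main y hy hne hs⟩
  · refine ⟨-y, gen_neg A hy, i, (cell_neg A hy).symm, main _ _ (by rw [cell_neg A hy]; exact hne) ?_⟩
    rw [sv_neg]
    rcases h2 with h2 | h2 <;> rcases h3 with h3 | h3
    · exact absurd (fun k hk => (p h2 k hk).symm.trans (p h3 k hk)) hs
    · exact fun k hk => (p h2 k hk).symm.trans (p h3 k hk)
    · intro k hk
      have := (p h2 k hk).symm.trans (p h3 k hk)
      rw [Pi.neg_apply, ← this, Pi.neg_apply, neg_neg]
    · exact absurd (fun k hk => neg_injective ((p h2 k hk).symm.trans (p h3 k hk))) hs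

variable {A} {B : Arr d}

def RR (φ : A.Cell ≃ B.Cell) (T : Fin A.n → Bool) (U : Fin B.n → Bool) : Prop :=
  ∃ x hx y hy, tb (A.sv x) = T ∧ tb (B.sv y) = U ∧ φ (cell A x hx) = cell B y hy

theorem RR_symm {φ : A.Cell ≃ B.Cell} {T : Fin A.n → Bool} {U : Fin B.n → Bool} (h : RR φ T U) :
    RR φ.symm U T := by
  obtain ⟨x, hx, y, hy, a, b, c⟩ := h
  exact ⟨y, hy, x, hx, b, a, by rw [← c, Equiv.symm_apply_apply]⟩

theorem RR_L (hd : 3 ≤ d) (φ : A.Cell ≃ B.Cell) (hφ : ∀ C D, Arr.Adj C D → Arr.Adj (φ C) (φ D)) :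
    (∀ T U, RR φ T U → T ∈ Tp A) ∧ (∀ T ∈ Tp A, ∃ U, RR φ T U) ∧ (∀ T U, RR φ T U → RR φ (ng T) U) ∧
    (∀ T U U', RR φ T U → RR φ T U' → U' = U ∨ U' = ng U) ∧
    (∀ T U i, RR φ T U → fl i T ∈ Tp A → ∃ j, RR φ (fl i T) (fl j U)) := by
  refine ⟨?_, ?_, ?_, ?_, ?_⟩
  · rintro _ _ ⟨x, hx, y, hy, rfl, rfl, c⟩; exact ⟨x, hx, rfl⟩
  · rintro _ ⟨x, hx, rfl⟩
    obtain ⟨y, hy, e⟩ := cell_surj B (φ (cell A x hx))
    exact ⟨_, x, hx, y, hy, rfl, rfl, e⟩
  · rintro _ _ ⟨x, hx, y, hy, rfl, rfl, c⟩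
    exact ⟨-x, gen_neg A hx, y, hy, by rw [sv_neg, tb_ng hx], rfl, by rw [cell_neg A hx, c]⟩
  · rintro _ _ _ ⟨x, hx, y, hy, rfl, rfl, c⟩ ⟨x', hx', y', hy', e, rfl, c'⟩
    rw [(cell_eq A hx' hx).2 (Or.inl e), c] at c'
    exact (cell_eq B hy' hy).1 c'.symm
  · rintro _ _ i ⟨x, hx, y, hy, rfl, rfl, c⟩ ⟨x', hx', e⟩
    have := hφ _ _ (adj_of A hd hx hx' e)
    rw [c] at this
    obtain ⟨y', hy', j, e1, e2⟩ := of_adj B hd hy this
    exact ⟨j, x', hx', y', hy', e, e2, e1⟩

theorem cor (hd : 3 ≤ d) (φ : A.Cell ≃ B.Cell) (hφ : ∀ C D, Arr.Adj C D ↔ Arr.Adj (φ C) (φ D)) :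
    Cor (Tp A) (Tp B) (RR φ) := by
  obtain ⟨a1, a2, a3, a4, a5⟩ := RR_L hd φ fun C D => (hφ C D).1
  obtain ⟨b1, b2, b3, b4, b5⟩ := RR_L hd φ.symm fun C D h => (hφ _ _).2 (by simpa using h)
  exact ⟨a1, fun T U r => b1 _ _ (RR_symm r), a2, fun U hU => (b2 U hU).imp fun _ r => RR_symm (φ := φ.symm) r, a3,
    fun T U r => RR_symm (φ := φ.symm) (b3 _ _ (RR_symm r)), a4, fun T T' U r r' => b4 _ _ _ (RR_symm r) (RR_symm r'),
    a5, fun T U j r m => (b5 _ _ j (RR_symm r) m).imp fun _ r => RR_symm (φ := φ.symm) r⟩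

theorem topes (hd : 3 ≤ d) (φ : A.Cell ≃ B.Cell) (hφ : ∀ C D, Arr.Adj C D ↔ Arr.Adj (φ C) (φ D)) :
    ∃ (π : Fin A.n ≃ Fin B.n) (ε : Fin A.n → Bool), ∀ T, T ∈ Tp A ↔ tr π ε T ∈ Tp B := by
  have h := cor hd φ hφ
  have hn := h.card_eq (ts A) (ts B)
  rw [Fintype.card_fin, Fintype.card_fin] at hn
  by_cases ho : A.n % 2 = 1
  · exact h.odd (ts A) (ts B) (by rw [Fintype.card_fin]; exact ho)
  by_cases h6 : 6 ≤ A.n
  · exact h.even (ts A) (ts B) (by rw [Fintype.card_fin]; exact h6) (one_bad A hd (by omega) h6)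
      (one_bad B hd (by omega) (by omega))
  · have := A.card
    exact ⟨finCongr hn, fun _ => false, fun T =>
      ⟨fun _ => all_tp B (by omega) _, fun _ => all_tp A (by omega) _⟩⟩

def τ {ι κ : Type} (π : ι ≃ κ) (ε : ι → Bool) (X : ι → SignType) : κ → SignType :=
  fun j => if ε (π.symm j) then -X (π.symm j) else X (π.symm j)

theorem τ_inj {ι κ : Type} (π : ι ≃ κ) (ε : ι → Bool) {X Y : ι → SignType} : τ π ε X = τ π ε Y ↔ X = Y := by
  refine ⟨fun h => funext fun i => ?_, fun h => by rw [h]⟩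
  have := congrFun h (π i)
  unfold τ at this
  rw [π.symm_apply_apply] at this
  split_ifs at this
  · exact neg_injective this
  · exact this

theorem τ_neg {ι κ : Type} (π : ι ≃ κ) (ε : ι → Bool) (X : ι → SignType) : τ π ε (-X) = -τ π ε X := by
  funext j; simp only [τ, Pi.neg_apply]; split_ifs <;> rfl

theorem τ_le {ι κ : Type} (π : ι ≃ κ) (ε : ι → Bool) {X Y : ι → SignType} :
    Le (τ π ε X) (τ π ε Y) ↔ Le X Y := by
  unfold Le
  rw [π.surjective.forall]
  refine forall_congr' fun i => ?_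
  unfold τ
  rw [π.symm_apply_apply]
  split_ifs <;> simp

theorem τ_surj {ι κ : Type} (π : ι ≃ κ) (ε : ι → Bool) (Y : κ → SignType) : ∃ X, τ π ε X = Y := by
  refine ⟨fun i => if ε i then -Y (π i) else Y (π i), funext fun j => ?_⟩
  simp only [τ, Equiv.apply_symm_apply]
  split_ifs <;> simp

theorem tr_surj {ι κ : Type} (π : ι ≃ κ) (ε : ι → Bool) (U : κ → Bool) : ∃ T, tr π ε T = U := by
  refine ⟨fun i => xor (U (π i)) (ε i), funext fun j => ?_⟩
  simp [tr]

theorem tr_cp {ι κ : Type} (π : ι ≃ κ) (ε : ι → Bool) (X : ι → SignType) (T : ι → Bool) :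
    tr π ε (cp X T) = cp (τ π ε X) (tr π ε T) := by
  funext j
  have : ∀ (e t : Bool) (s : SignType), xor (if s = 0 then t else decide (s = 1)) e =
      if (if e then -s else s) = 0 then xor t e else decide ((if e then -s else s) = 1) := by decide
  exact this _ _ _

theorem final (hd : 3 ≤ d) (φ : A.Cell ≃ B.Cell) (hφ : ∀ C D, Arr.Adj C D ↔ Arr.Adj (φ C) (φ D)) :
    ∃ ψ : A.Face ≃ B.Face, ∀ F G, Arr.Inc F G ↔ Arr.Inc (ψ F) (ψ G) := by
  obtain ⟨π, ε, h⟩ := topes hd φ hφ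
  have cov : ∀ X, (∃ x, A.sv x = X) ↔ ∃ y, B.sv y = τ π ε X := by
    intro X
    rw [cov_iff, cov_iff]
    constructor
    · intro H U hU
      obtain ⟨T, rfl⟩ := tr_surj π ε U
      rw [← tr_cp, ← h]; exact H T ((h T).2 hU)
    · intro H T hT
      rw [h, tr_cp]; exact H _ ((h T).1 hT)
  have z : ∀ x y, B.sv y = τ π ε (A.sv x) → (x ≠ 0 ↔ y ≠ 0) := by
    intro x y e
    have a : ∀ (C : Arr d) x, x = 0 ↔ C.sv x = 0 := fun C x =>
      ⟨fun h => funext fun k => (sv_zero C).2 (by rw [h, map_zero]),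
        fun h => C.ess x fun k => (sv_zero C).1 (congrFun h k)⟩
    have t0 : τ π ε (0 : Fin A.n → SignType) = 0 := by funext j; simp [τ]
    rw [Ne, Ne, a A, a B, e, ← t0, τ_inj]
  have ex : ∀ F : A.Face, ∃ G : B.Face, ∃ x y, F.1 = A.face x ∧ G.1 = B.face y ∧
      B.sv y = τ π ε (A.sv x) := by
    rintro ⟨F, x, x0, rfl⟩
    obtain ⟨y, hy⟩ := (cov _).1 ⟨x, rfl⟩
    exact ⟨⟨_, y, (z x y hy).1 x0, rfl⟩, x, y, rfl, rfl, hy⟩
  choose ψ hψ using ex
  have eqv : ∀ x y x' y', B.sv y = τ π ε (A.sv x) → B.sv y' = τ π ε (A.sv x') →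
      (A.face x = A.face x' ↔ B.face y = B.face y') := by
    intro x y x' y' e e'
    rw [face_eq, face_eq, e, e', ← τ_neg, τ_inj, τ_inj]
  have bij : Function.Bijective ψ := by
    constructor
    · intro F G e
      obtain ⟨x, y, a, b, c⟩ := hψ F
      obtain ⟨x', y', a', b', c'⟩ := hψ G
      apply Subtype.ext
      rw [a, a', eqv _ _ _ _ c c', ← b, ← b', e]
    · rintro ⟨G, y, y0, rfl⟩
      obtain ⟨X, hX⟩ := τ_surj π ε (B.sv y)
      obtain ⟨x, rfl⟩ := (cov X).2 ⟨y, hX.symm⟩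
      refine ⟨⟨_, x, (z x y hX.symm).2 y0, rfl⟩, Subtype.ext ?_⟩
      obtain ⟨x', y', a', b', c'⟩ := hψ ⟨_, x, (z x y hX.symm).2 y0, rfl⟩
      rw [b']
      exact ((eqv _ _ _ _ hX.symm c').1 a').symm
  refine ⟨Equiv.ofBijective ψ bij, fun F G => ?_⟩
  obtain ⟨x, y, a, b, c⟩ := hψ F
  obtain ⟨x', y', a', b', c'⟩ := hψ G
  show F.1 ⊆ closure G.1 ↔ (ψ F).1 ⊆ closure (ψ G).1
  rw [a, a', b, b', inc_iff, inc_iff, c, c', ← τ_neg, τ_le, τ_le]

end H26.Tope
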