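import Pool.Agent.H26.TopeCore
import Pool.Agent.H26.TopeDefs

set_option autoImplicit false

namespace H26.Tope

open Finset SignType Filter Topology

variable {d : ℕ} (A : Arr d)

theorem sv_neg (x : Fin (d+1) → ℝ) : A.sv (-x) = -A.sv x := by
  funext i; simp [Arr.sv, Left.sign_neg]

theorem sv_zero {x : Fin (d+1) → ℝ} {i : Fin A.n} : A.sv x i = 0 ↔ A.α i x = 0 := by
  simp [Arr.sv]

theorem comp (z w : Fin (d+1) → ℝ) : ∃ ε : ℝ, 0 < ε ∧
    ∀ k, A.sv (z + ε • w) k = if A.sv z k = 0 then A.sv w k else A.sv z k := by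
  have : ∀ᶠ ε : ℝ in 𝓝[>] 0, ∀ k, A.sv (z + ε • w) k = if A.sv z k = 0 then A.sv w k else A.sv z k := by
    rw [eventually_all]
    intro k
    by_cases h : A.α k z = 0
    · filter_upwards [self_mem_nhdsWithin] with ε hε
      have hε : 0 < ε := hε
      rw [if_pos ((sv_zero A).2 h)]
      simp [Arr.sv, h, sign_mul, sign_pos hε]
    · have hc : Tendsto (fun ε : ℝ => A.α k z + ε * A.α k w) (𝓝[>] 0) (𝓝 (A.α k z)) := by
        have : Tendsto (fun ε : ℝ => A.α k z + ε * A.α k w) (𝓝 0) (𝓝 (A.α k z + 0 * A.α k w)) :=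
          (continuous_const.add (continuous_id.mul continuous_const)).tendsto 0
        simp only [zero_mul, add_zero] at this
        exact this.mono_left nhdsWithin_le_nhds
      rw [if_neg (fun h' => h ((sv_zero A).1 h'))]
      rcases lt_or_gt_of_ne h with h | h
      · filter_upwards [hc.eventually (gt_mem_nhds h)] with ε hε
        simp [Arr.sv, sign_neg h, sign_neg hε]
      · filter_upwards [hc.eventually (lt_mem_nhds h)] with ε hε
        simp [Arr.sv, sign_pos h, sign_pos hε]
  obtain ⟨ε, h1, h2⟩ := (this.and self_mem_nhdsWithin).exists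
  exact ⟨ε, h2, h1⟩

theorem compW (W : Submodule ℝ (Fin (d+1) → ℝ)) {z w : Fin (d+1) → ℝ} (hz : z ∈ W) (hw : w ∈ W) :
    ∃ y ∈ W, ∀ k, A.sv y k = if A.sv z k = 0 then A.sv w k else A.sv z k := by
  obtain ⟨ε, _, h⟩ := comp A z w
  exact ⟨_, W.add_mem hz (W.smul_mem _ hw), h⟩

theorem elim (W : Submodule ℝ (Fin (d+1) → ℝ)) {x y : Fin (d+1) → ℝ} (hx : x ∈ W) (hy : y ∈ W)
    {i : Fin A.n} (h0 : A.sv x i ≠ 0) (h1 : A.sv y i ≠ 0) (hi : A.sv x i ≠ A.sv y i) :
    ∃ z ∈ W, A.sv z i = 0 ∧ ∀ k, A.sv x k = A.sv y k → A.sv z k = A.sv x k := by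
  have a0 : A.α i x ≠ 0 := fun h => h0 ((sv_zero A).2 h)
  have a1 : A.α i y ≠ 0 := fun h => h1 ((sv_zero A).2 h)
  have p0 := abs_pos.2 a0
  have p1 := abs_pos.2 a1
  refine ⟨|A.α i y| • x + |A.α i x| • y, W.add_mem (W.smul_mem _ hx) (W.smul_mem _ hy), ?_, fun k hk => ?_⟩
  · rw [sv_zero]
    simp only [map_add, map_smul, smul_eq_mul]
    unfold Arr.sv at hi
    rcases lt_or_gt_of_ne a0 with u | u <;> rcases lt_or_gt_of_ne a1 with v | v
    · rw [sign_neg u, sign_neg v] at hi; exact absurd rfl hi
    · rw [abs_of_neg u, abs_of_pos v]; ring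
    · rw [abs_of_pos u, abs_of_neg v]; ring
    · rw [sign_pos u, sign_pos v] at hi; exact absurd rfl hi
  · unfold Arr.sv at hk ⊢
    simp only [map_add, map_smul, smul_eq_mul]
    rcases lt_trichotomy (A.α k x) 0 with u | u | u
    · rw [sign_neg u] at hk ⊢
      have v := sign_eq_neg_one_iff.1 hk.symm
      exact sign_neg (by nlinarith)
    · rw [u, sign_zero] at hk
      have v := sign_eq_zero_iff.1 hk.symm
      rw [u, v]; simp
    · rw [sign_pos u] at hk ⊢
      have v := sign_eq_one_iff.1 hk.symm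
      exact sign_pos (by nlinarith)

def Gen (W : Submodule ℝ (Fin (d+1) → ℝ)) (J : Finset (Fin A.n)) (x : Fin (d+1) → ℝ) : Prop :=
  x ∈ W ∧ ∀ j ∈ J, A.sv x j ≠ 0

noncomputable def SS (J : Finset (Fin A.n)) (x y : Fin (d+1) → ℝ) : Finset (Fin A.n) :=
  J.filter fun j => A.sv x j ≠ A.sv y j

theorem path (W : Submodule ℝ (Fin (d+1) → ℝ)) (J : Finset (Fin A.n)) {x : Fin (d+1) → ℝ}
    (hx : Gen A W J x) (s : ℕ) : ∀ x', Gen A W J x' → (SS A J x x').card = s → (SS A J x x').Nonempty →
    ∃ y, Gen A W J y ∧ SS A J x y ⊆ SS A J x x' ∧ (SS A J x y).Nonempty ∧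
      ∀ i ∈ SS A J x y, ∀ j ∈ SS A J x y, ∀ w ∈ W, A.α i w = 0 → A.α j w = 0 := by
  induction s using Nat.strong_induction_on with
  | _ s ih =>
    intro x' hx' hc hne
    by_cases hp : ∀ i ∈ SS A J x x', ∀ j ∈ SS A J x x', ∀ w ∈ W, A.α i w = 0 → A.α j w = 0
    · exact ⟨x', hx', subset_rfl, hne, hp⟩
    push Not at hp
    obtain ⟨i, hi, j, hj, w, hw, wi, wj⟩ := hp
    have hi' := mem_filter.1 hi
    have hj' := mem_filter.1 hj
    obtain ⟨z, hz, zi, zk⟩ := elim A W hx.1 hx'.1 (hx.2 i hi'.1) (hx'.2 i hi'.1) hi'.2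
    suffices h : ∃ y, Gen A W J y ∧ SS A J x y ⊂ SS A J x x' ∧ (SS A J x y).Nonempty by
      obtain ⟨y, h1, h2, h3⟩ := h
      obtain ⟨y', k1, k2, k3, k4⟩ := ih _ (hc ▸ card_lt_card h2) y h1 rfl h3
      exact ⟨y', k1, k2.trans h2.1, k3, k4⟩
    have sub : ∀ y u, (∀ k, A.sv y k = if A.sv z k = 0 then A.sv u k else A.sv z k) →
        SS A J x y ⊆ SS A J x x' := by
      intro y u hy k hk
      rw [SS, mem_filter] at hk ⊢
      refine ⟨hk.1, fun e => hk.2 ?_⟩
      rw [hy k, zk k e, if_neg (hx.2 k hk.1)]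
    by_cases hzj : A.sv z j = A.sv x j
    · obtain ⟨y, hy, e⟩ := compW A W hz hx'.1
      refine ⟨y, ⟨hy, fun k hk => ?_⟩, ⟨sub y _ e, fun h => ?_⟩, ⟨i, ?_⟩⟩
      · rw [e k]; split_ifs with h
        · exact hx'.2 k hk
        · exact h
      · have := (mem_filter.1 (h hj)).2
        rw [e j, hzj, if_neg (hx.2 j hj'.1)] at this
        exact this rfl
      · rw [SS, mem_filter, e i, if_pos zi]; exact hi'
    · obtain ⟨w', hw', wi', wj'⟩ : ∃ w' ∈ W, A.sv w' i = 0 ∧ A.sv w' j = -A.sv x j := by
        have h1 : A.sv w j ≠ 0 := fun h => wj ((sv_zero A).1 h)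
        have h2 := hx.2 j hj'.1
        by_cases h : A.sv w j = -A.sv x j
        · exact ⟨w, hw, (sv_zero A).2 wi, h⟩
        · refine ⟨-w, W.neg_mem hw, by rw [sv_neg, Pi.neg_apply, (sv_zero A).2 wi, neg_zero], ?_⟩
          rw [sv_neg, Pi.neg_apply]
          revert h h1 h2
          cases A.sv w j <;> cases A.sv x j <;> decide
      obtain ⟨u, hu, eu⟩ := compW A W hw' hx.1
      obtain ⟨y, hy, e⟩ := compW A W hz hu
      refine ⟨y, ⟨hy, fun k hk => ?_⟩, ⟨sub y _ e, fun h => ?_⟩, ⟨j, ?_⟩⟩
      · rw [e k, eu k]; split_ifs with h h'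
        · exact hx.2 k hk
        · exact h'
        · exact h
      · have := (mem_filter.1 (h hi)).2
        rw [e i, if_pos zi, eu i, if_pos wi'] at this
        exact this rfl
      · rw [SS, mem_filter, e j, eu j, wj']
        refine ⟨hj'.1, ?_⟩
        have h2 := hx.2 j hj'.1
        revert hzj h2
        cases A.sv z j <;> cases A.sv x j <;> decide

theorem exists_gen (W : Submodule ℝ (Fin (d+1) → ℝ)) (J : Finset (Fin A.n))
    (h : ∀ j ∈ J, ∃ w ∈ W, A.α j w ≠ 0) : ∃ x, Gen A W J x := by
  induction J using Finset.induction_on with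
  | empty => exact ⟨0, W.zero_mem, by simp⟩
  | insert j J _ ih =>
    obtain ⟨x, hx⟩ := ih fun k hk => h k (mem_insert_of_mem hk)
    obtain ⟨w, hw, hj⟩ := h j (mem_insert_self _ _)
    obtain ⟨y, hy, e⟩ := compW A W hx.1 hw
    refine ⟨y, hy, fun k hk => ?_⟩
    rw [e k]
    split_ifs with h'
    · rcases mem_insert.1 hk with rfl | hk
      · exact fun h => hj ((sv_zero A).1 h)
      · exact absurd h' (hx.2 k hk)
    · exact h'

theorem exists_ne (i : Fin A.n) : ∃ w, A.α i w ≠ 0 := by
  by_contra h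
  push Not at h
  exact A.ne i (LinearMap.ext h)

theorem ker_le {a c : Fin A.n} (h : ∀ w, A.α a w = 0 → A.α c w = 0) : a = c := by
  apply A.inj
  obtain ⟨q, hq⟩ := exists_ne A a
  have key : ∀ w, A.α c w * A.α a q = A.α a w * A.α c q := by
    intro w
    have := h (A.α a q • w - A.α a w • q) (by simp [mul_comm])
    simp only [map_sub, map_smul, smul_eq_mul] at this
    linarith
  have cq : A.α c q ≠ 0 := by
    intro h0
    obtain ⟨w, hw⟩ := exists_ne A c
    have := key w
    rw [h0, mul_zero] at this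
    exact mul_ne_zero hw hq this
  ext w
  simp only [LinearMap.mem_ker]
  refine ⟨h w, fun hw => ?_⟩
  have := key w
  rw [hw, zero_mul] at this
  exact (mul_eq_zero.1 this.symm).resolve_right cq

def Col (a b c : Fin A.n) : Prop := ∀ w, A.α a w = 0 → A.α b w = 0 → A.α c w = 0

theorem exists_sep {a c : Fin A.n} (h : a ≠ c) : ∃ p, A.α a p = 0 ∧ A.α c p ≠ 0 := by
  by_contra hh
  push Not at hh
  exact h (ker_le A hh)

theorem Col.exch {a b c : Fin A.n} (h : Col A a b c) (hne : a ≠ c) : Col A a c b := by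
  obtain ⟨p, pa, pc⟩ := exists_sep A hne
  intro w wa wc
  have := h (A.α b p • w - A.α b w • p) (by simp [wa, pa]) (by simp [mul_comm])
  simp only [map_sub, map_smul, smul_eq_mul, wc] at this
  have h2 : A.α b w * A.α c p = 0 := by linarith
  exact (mul_eq_zero.1 h2).resolve_right pc

theorem Col.swap {a b c : Fin A.n} (h : Col A a b c) : Col A b a c := fun w h1 h2 => h w h2 h1

theorem Col.trans {i a b c : Fin A.n} (h : Col A i a b) (h' : Col A i b c) : Col A i a c :=
  fun w h1 h2 => h' w h1 (h w h1 h2)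

/-- Boolean topes -/
def tb {ι : Type} (X : ι → SignType) : ι → Bool := fun k => decide (X k = 1)

def Tp : Set (Fin A.n → Bool) := {T | ∃ x, (∀ k, A.sv x k ≠ 0) ∧ tb (A.sv x) = T}

theorem tb_eq {a b : SignType} (ha : a ≠ 0) (hb : b ≠ 0) : decide (a = 1) = decide (b = 1) ↔ a = b := by
  revert ha hb; cases a <;> cases b <;> decide

theorem tb_neg {a : SignType} (ha : a ≠ 0) : decide (-a = 1) = !decide (a = 1) := by
  revert ha; cases a <;> decide

theorem facet_tp {i : Fin A.n} {z : Fin (d+1) → ℝ} (hz : Gen A (LinearMap.ker (A.α i)) (univ.erase i) z)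
    (b : Bool) : (fun k => if k = i then b else tb (A.sv z) k) ∈ Tp A := by
  obtain ⟨u, hu⟩ : ∃ u, A.sv u i ≠ 0 ∧ tb (A.sv u) i = b := by
    obtain ⟨w, hw⟩ := exists_ne A i
    have h1 : A.sv w i ≠ 0 := fun h => hw ((sv_zero A).1 h)
    by_cases h : tb (A.sv w) i = b
    · exact ⟨w, h1, h⟩
    · refine ⟨-w, by rw [sv_neg]; simpa using h1, ?_⟩
      unfold tb at h ⊢
      rw [sv_neg, Pi.neg_apply, tb_neg h1]
      revert h; cases b <;> simp
  obtain ⟨ε, _, e⟩ := comp A z u
  have zi : A.sv z i = 0 := (sv_zero A).2 hz.1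
  refine ⟨z + ε • u, fun k => ?_, ?_⟩
  · rw [e k]
    by_cases hk : k = i
    · subst hk; rw [if_pos zi]; exact hu.1
    · have := hz.2 k (by simp [hk])
      rw [if_neg this]; exact this
  · funext k
    by_cases hk : k = i
    · subst hk
      rw [if_pos rfl, ← hu.2]; unfold tb; rw [e k, if_pos zi]
    · rw [if_neg hk]; unfold tb; rw [e k, if_neg (hz.2 k (by simp [hk]))]

theorem edge_facet {i : Fin A.n} {T : Fin A.n → Bool} (h1 : T ∈ Tp A) (h2 : fl i T ∈ Tp A) :
    ∃ z, Gen A (LinearMap.ker (A.α i)) (univ.erase i) z ∧ ∀ k, k ≠ i → tb (A.sv z) k = T k := by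
  obtain ⟨x, hx, rfl⟩ := h1
  obtain ⟨y, hy, e⟩ := h2
  have same : ∀ k, k ≠ i → A.sv x k = A.sv y k := by
    intro k hk
    have := congrFun e k
    unfold fl at this
    rw [if_neg hk] at this
    exact ((tb_eq (hy k) (hx k)).1 this).symm
  have diff : A.sv x i ≠ A.sv y i := by
    intro h
    have := congrFun e i
    unfold fl tb at this
    rw [if_pos rfl, h] at this
    simp at this
  obtain ⟨z, _, zi, zk⟩ := elim A ⊤ trivial trivial (hx i) (hy i) diff
  refine ⟨z, ⟨(sv_zero A).1 zi, fun k hk => ?_⟩, fun k hk => ?_⟩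
  · rw [zk k (same k (ne_of_mem_erase hk))]; exact hx k
  · unfold tb; rw [zk k (same k hk)]

theorem exists_facet (i : Fin A.n) : ∃ z, Gen A (LinearMap.ker (A.α i)) (univ.erase i) z :=
  exists_gen A _ _ fun _ hj => exists_sep A (ne_of_mem_erase hj).symm

theorem ts : TS (Tp A) := by
  refine ⟨?_, ?_, ?_, ?_⟩
  · obtain ⟨x, hx⟩ := exists_gen A ⊤ univ fun j _ => (exists_ne A j).imp fun _ h => ⟨trivial, h⟩
    exact ⟨_, x, fun k => hx.2 k (mem_univ _), rfl⟩
  · rintro _ ⟨x, hx, rfl⟩
    refine ⟨-x, fun k => by rw [sv_neg]; simpa using hx k, ?_⟩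
    funext k; unfold tb ng; rw [sv_neg, Pi.neg_apply, tb_neg (hx k)]
  · rintro _ ⟨x, hx, rfl⟩ _ ⟨x', hx', rfl⟩ hne
    have hn : (SS A univ x x').Nonempty := by
      by_contra h
      apply hne
      funext k
      have : A.sv x k = A.sv x' k := by
        by_contra hk
        exact h ⟨k, mem_filter.2 ⟨mem_univ _, hk⟩⟩
      unfold tb; rw [this]
    obtain ⟨y, hy, s, ⟨i, hi⟩, hp⟩ := path A ⊤ univ ⟨trivial, fun k _ => hx k⟩ _ x'
      ⟨trivial, fun k _ => hx' k⟩ rfl hn
    refine ⟨i, fun h => (mem_filter.1 (s hi)).2 ((tb_eq (hx i) (hx' i)).1 h), y,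
      fun k => hy.2 k (mem_univ _), ?_⟩
    funext k
    unfold fl
    split_ifs with hk
    · subst hk
      have h1 := (mem_filter.1 hi).2
      have h2 := hx k
      have h3 := hy.2 k (mem_univ _)
      unfold tb
      revert h1 h2 h3
      cases A.sv x k <;> cases A.sv y k <;> decide
    · have : A.sv x k = A.sv y k := by
        by_contra h
        exact hk (ker_le A fun w hw => hp k (mem_filter.2 ⟨mem_univ _, h⟩) i hi w trivial hw)
      unfold tb; rw [this]
  · intro i
    obtain ⟨z, hz⟩ := exists_facet A i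
    refine ⟨_, facet_tp A hz true, ?_⟩
    convert facet_tp A hz false using 1
    funext k; by_cases h : k = i <;> simp [fl, h]

open Classical in
noncomputable def cls (i k : Fin A.n) : Finset (Fin A.n) := (univ.erase i).filter fun j => Col A i k j

theorem mem_cls {i k j : Fin A.n} : j ∈ cls A i k ↔ j ≠ i ∧ Col A i k j := by
  unfold cls; simp

def Big (i k : Fin A.n) : Prop := k ≠ i ∧ A.n < 2 * (cls A i k).card + 4

theorem col_sign {i j k : Fin A.n} (h : Col A i j k) {z z' : Fin (d+1) → ℝ}
    (hz : Gen A (LinearMap.ker (A.α i)) (univ.erase i) z)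
    (hz' : Gen A (LinearMap.ker (A.α i)) (univ.erase i) z') (hj : j ≠ i) (hk : k ≠ i) :
    A.sv z j = A.sv z' j ↔ A.sv z k = A.sv z' k := by
  have zi : A.α i z = 0 := hz.1
  have zi' : A.α i z' = 0 := hz'.1
  have := h (A.α j z' • z - A.α j z • z') (by simp [zi, zi']) (by simp [mul_comm])
  simp only [map_sub, map_smul, smul_eq_mul] at this
  have e : sign (A.α j z' * A.α k z) = sign (A.α j z * A.α k z') := by rw [sub_eq_zero.1 this]
  rw [sign_mul, sign_mul] at e
  have a1 := hz.2 j (by simp [hj])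
  have a2 := hz.2 k (by simp [hk])
  have a3 := hz'.2 j (by simp [hj])
  have a4 := hz'.2 k (by simp [hk])
  unfold Arr.sv at *
  revert e a1 a2 a3 a4
  cases sign (A.α j z) <;> cases sign (A.α k z) <;> cases sign (A.α j z') <;> cases sign (A.α k z') <;> decide

theorem good_of {i : Fin A.n} (hb : ∀ k k', Big A i k → Big A i k' → Col A i k k') : Good (Tp A) i := by
  set W := LinearMap.ker (A.α i)
  set J := univ.erase i
  let F : (Fin (d+1) → ℝ) → Bool → Fin A.n → Bool := fun z b k => if k = i then b else tb (A.sv z) k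
  have flF : ∀ z b, fl i (F z b) = F z (!b) := by
    intro z b; funext k; simp only [fl, F]; split_ifs <;> rfl
  have main : ∀ T0 s z z' b, Gen A W J z → Gen A W J z' → (SS A J z z').card = s →
      (∀ k ∈ SS A J z z', ¬ Big A i k) → Conn (Tp A) i T0 (F z b) → Conn (Tp A) i T0 (F z' b) := by
    intro T0 s
    induction s using Nat.strong_induction_on with
    | _ s ih =>
      intro z z' b hz hz' hc hnb c
      by_cases hn : (SS A J z z').Nonempty
      · obtain ⟨y, hy, sb, ⟨k, hk⟩, hp⟩ := path A W J hz _ z' hz' rfl hn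
        have hk' := mem_filter.1 hk
        have c' : Conn (Tp A) i T0 (F y b) := by
          refine Conn.loc _ _ c (facet_tp A hy b) (by rw [flF]; exact facet_tp A hy _) (by simp [F]) ?_
          have h1 : S (F z b) (F y b) ⊆ cls A i k := by
            intro j hj
            rw [mem_S] at hj
            have hji : j ≠ i := by rintro rfl; simp [F] at hj
            simp only [F, if_neg hji] at hj
            have hj' : j ∈ SS A J z y := mem_filter.2 ⟨by simp [J, hji], fun h => hj (by unfold tb; rw [h])⟩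
            exact (mem_cls A).2 ⟨hji, fun w w1 w2 => hp k hk j hj' w w1 w2⟩
          have h2 := card_le_card h1
          have h3 := hnb k (sb hk)
          unfold Big at h3
          have h4 := ne_of_mem_erase hk'.1
          rw [Fintype.card_fin]
          by_contra hh
          exact h3 ⟨h4, by omega⟩
        have sb2 : SS A J y z' ⊆ (SS A J z z').erase k := by
          intro j hj
          have hj' := mem_filter.1 hj
          have a1 := hz.2 j hj'.1
          have a2 := hy.2 j hj'.1
          have a3 := hz'.2 j hj'.1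
          have a4 := hj'.2
          have a5 : A.sv z j = A.sv y j := by
            by_contra h
            have a6 := (mem_filter.1 (sb (mem_filter.2 ⟨hj'.1, h⟩))).2
            revert a1 a2 a3 a4 h a6
            cases A.sv z j <;> cases A.sv y j <;> cases A.sv z' j <;> decide
          refine mem_erase.2 ⟨?_, mem_filter.2 ⟨hj'.1, a5 ▸ a4⟩⟩
          rintro rfl
          exact hk'.2 a5
        refine ih _ ?_ y z' b hy hz' rfl (fun j hj => hnb j (mem_of_mem_erase (sb2 hj))) c'
        have := card_le_card sb2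
        have := card_erase_add_one (sb hk)
        omega
      · have : F z' b = F z b := by
          funext k
          simp only [F]
          split_ifs with hk
          · rfl
          · have : A.sv z k = A.sv z' k := by
              by_contra h
              exact hn ⟨k, mem_filter.2 ⟨by simp [J, hk], h⟩⟩
            unfold tb; rw [this]
        rw [this]; exact c
  intro T h1 h2 T' h1' h2'
  obtain ⟨z, hz, ez⟩ := edge_facet A h1 h2
  obtain ⟨z', hz', ez'⟩ := edge_facet A h1' h2'
  have eT : F z (T i) = T := by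
    funext k; simp only [F]; split_ifs with hk
    · rw [hk]
    · exact ez k hk
  have eT' : F z' (T' i) = T' := by
    funext k; simp only [F]; split_ifs with hk
    · rw [hk]
    · exact ez' k hk
  have c0 : ∀ b, Conn (Tp A) i T (F z b) := by
    intro b
    by_cases h : b = T i
    · rw [h, eT]; exact Conn.refl
    · have : F z b = fl i T := by
        rw [← eT, flF]; simp only [F, if_pos]; congr 1
        revert h; cases b <;> cases T i <;> simp
      rw [this]; exact Conn.flip _ Conn.refl
  by_cases hB : ∀ k ∈ SS A J z z', ¬ Big A i k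
  · rw [← eT']; exact main T _ z z' _ hz hz' rfl hB (c0 _)
  · push Not at hB
    obtain ⟨k, hk, bk⟩ := hB
    have hz'' : Gen A W J (-z') := ⟨W.neg_mem hz'.1, fun j hj => by rw [sv_neg]; simpa using hz'.2 j hj⟩
    have := main T _ z (-z') (!T' i) hz hz'' rfl ?_ (c0 _)
    · have e : ng (F (-z') (!T' i)) = T' := by
        rw [← eT']
        funext j
        simp only [F, ng]
        split_ifs with hj
        · simp
        · unfold tb; rw [sv_neg, Pi.neg_apply, tb_neg (hz'.2 j (by simp [J, hj]))]; simp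
      rw [← e]; exact Conn.neg _ this
    · intro j hj bj
      have h3 := col_sign A (hb k j bk bj) hz hz' bk.1 bj.1
      have h4 := (mem_filter.1 hk).2
      have h5 := (mem_filter.1 hj).2
      rw [sv_neg, Pi.neg_apply] at h5
      have h6 : A.sv z j ≠ A.sv z' j := fun h => h4 (h3.2 h)
      have a1 := hz.2 j (mem_filter.1 hj).1
      have a3 := hz'.2 j (mem_filter.1 hj).1
      revert h5 h6 a1 a3
      cases A.sv z j <;> cases A.sv z' j <;> decide

theorem bad_struct (hd : 3 ≤ d) (he : A.n % 2 = 0) {i k k' : Fin A.n} (b : Big A i k) (b' : Big A i k')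
    (hn : ¬ Col A i k k') : ∃ K v, A.α K v ≠ 0 ∧ K ≠ i ∧ (∀ j, j ≠ K → A.α j v = 0) ∧
      ∀ j, j ≠ K → j ≠ i → Col A i k j ∨ Col A i k' j := by
  let L : (Fin (d+1) → ℝ) →ₗ[ℝ] (Fin 3 → ℝ) := LinearMap.pi ![A.α i, A.α k, A.α k']
  have hk : LinearMap.ker L ≠ ⊥ := LinearMap.ker_ne_bot_of_finrank_lt (by simp; omega)
  obtain ⟨v, hv, hv0⟩ := (Submodule.ne_bot_iff _).1 hk
  have v1 : A.α i v = 0 := congrFun hv 0
  have v2 : A.α k v = 0 := congrFun hv 1
  have v3 : A.α k' v = 0 := congrFun hv 2
  obtain ⟨K, hK⟩ : ∃ K, A.α K v ≠ 0 := by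
    by_contra h
    push Not at h
    exact hv0 (A.ess v h)
  have dj : Disjoint (cls A i k) (cls A i k') := by
    rw [disjoint_left]
    intro j h1 h2
    rw [mem_cls] at h1 h2
    exact hn (h1.2.trans A (h2.2.exch A h2.1.symm))
  have Ki : K ≠ i := by rintro rfl; exact hK v1
  have all : ∀ j, j ≠ K → j ≠ i → Col A i k j ∨ Col A i k' j := by
    intro j hjK hji
    by_contra h
    push Not at h
    have s : cls A i k ∪ cls A i k' ⊆ ((univ.erase i).erase K).erase j := by
      intro t ht
      simp only [mem_erase, mem_univ, and_true]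
      rcases mem_union.1 ht with ht | ht <;> rw [mem_cls] at ht
      · refine ⟨?_, ?_, ht.1⟩ <;> rintro rfl
        · exact h.1 ht.2
        · exact hK (ht.2 v v1 v2)
      · refine ⟨?_, ?_, ht.1⟩ <;> rintro rfl
        · exact h.2 ht.2
        · exact hK (ht.2 v v1 v3)
    have c := card_le_card s
    rw [card_union_of_disjoint dj] at c
    have c1 := card_erase_add_one (mem_univ i)
    have c2 := card_erase_add_one (s := univ.erase i) (a := K) (by simp [Ki])
    have c3 := card_erase_add_one (s := (univ.erase i).erase K) (a := j) (by simp [hjK, hji])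
    rw [card_univ, Fintype.card_fin] at c1
    have := b.2
    have := b'.2
    omega
  refine ⟨K, v, hK, Ki, fun j hj => ?_, all⟩
  by_cases hji : j = i
  · rw [hji]; exact v1
  · rcases all j hj hji with h | h
    · exact h v v1 v2
    · exact h v v1 v3

theorem one_bad (hd : 3 ≤ d) (he : A.n % 2 = 0) (h6 : 6 ≤ A.n) (a b : Fin A.n)
    (ha : ¬ Good (Tp A) a) (hb : ¬ Good (Tp A) b) : a = b := by
  by_contra hab
  have ex : ∀ i, ¬ Good (Tp A) i → ∃ k k', Big A i k ∧ Big A i k' ∧ ¬ Col A i k k' := by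
    intro i hi
    by_contra h
    push Not at h
    exact hi (good_of A h)
  obtain ⟨k, k', b1, b2, hn⟩ := ex a ha
  obtain ⟨l, l', c1, c2, hm⟩ := ex b hb
  obtain ⟨K, v, hK, Ka, hv, all⟩ := bad_struct A hd he b1 b2 hn
  -- a class of b avoiding a with two elements
  obtain ⟨j, j', hjj, jb, jb', col, nca⟩ : ∃ j j', j ≠ j' ∧ j ≠ b ∧ j' ≠ b ∧ Col A b j j' ∧ ¬ Col A b j a := by
    have two : ∀ l, Big A b l → ¬ Col A b l a →
        ∃ j j', j ≠ j' ∧ j ≠ b ∧ j' ≠ b ∧ Col A b j j' ∧ ¬ Col A b j a := by
      intro l hl hla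
      have : 1 < (cls A b l).card := by have := hl.2; omega
      obtain ⟨j, hj, hjl⟩ := exists_mem_ne this l
      rw [mem_cls] at hj
      exact ⟨l, j, hjl.symm, hl.1, hj.1, hj.2, hla⟩
    by_cases h : Col A b l a
    · refine two l' c2 fun h' => hm (h.trans A (h'.exch A (Ne.symm hab)))
    · exact two l c1 h
  have col' : Col A b j' j := col.exch A jb'.symm
  have nca' : ¬ Col A b j' a := fun h => nca (col.trans A h)
  by_cases hbK : b = K
  · subst hbK
    apply hjj
    apply ker_le A
    intro w hw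
    have := col (A.α b v • w - A.α b w • v) (by simp [mul_comm]) (by simp [hw, hv j jb])
    simp only [map_sub, map_smul, smul_eq_mul, hv j' jb', mul_zero, sub_zero] at this
    exact (mul_eq_zero.1 this).resolve_left hK
  have vb := hv b hbK
  have jK : j ≠ K := by
    rintro rfl
    exact hK (col' v vb (hv j' hjj.symm))
  have jK' : j' ≠ K := by
    rintro rfl
    exact hK (col v vb (hv j hjj))
  have ja : j ≠ a := by rintro rfl; exact nca fun w _ h => h
  have ja' : j' ≠ a := by rintro rfl; exact nca' fun w _ h => h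
  -- if b and t are in the same class of a then a is in the class of t for b
  have X : ∀ m t, t ≠ b → Col A a m b → Col A a m t → Col A b t a := by
    intro m t htb h1 h2
    have h3 : Col A a b t := (h1.exch A hab).trans A h2
    exact (h3.swap A).exch A htb.symm
  have Y : ∀ m m', Col A a m b → (∀ t, t ≠ K → t ≠ a → Col A a m t ∨ Col A a m' t) → False := by
    intro m m' h1 al
    have h2 := (al j jK ja).resolve_left fun h => nca (X m j jb h1 h)
    have h3 := (al j' jK' ja').resolve_left fun h => nca' (X m j' jb' h1 h)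
    have h4 : Col A a j j' := (h2.exch A ja.symm).trans A h3
    have h5 : Col A j j' a := (h4.swap A).exch A hjj
    exact nca fun w w1 w2 => h5 w w2 (col w w1 w2)
  rcases all b hbK (Ne.symm hab) with h | h
  · exact Y k k' h all
  · exact Y k' k h fun t h1 h2 => (all t h1 h2).symm

theorem all_tp (h : A.n = d + 1) (T : Fin A.n → Bool) : T ∈ Tp A := by
  let L : (Fin (d+1) → ℝ) →ₗ[ℝ] (Fin A.n → ℝ) := LinearMap.pi A.α
  have inj : Function.Injective L := by
    rw [← LinearMap.ker_eq_bot, LinearMap.ker_eq_bot']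
    intro x hx
    exact A.ess x fun i => congrFun hx i
  have sur : Function.Surjective L :=
    (LinearMap.injective_iff_surjective_of_finrank_eq_finrank (by simp [h])).1 inj
  obtain ⟨x, hx⟩ := sur fun i => if T i then 1 else -1
  have e : ∀ i, A.α i x = if T i then 1 else -1 := fun i => congrFun hx i
  refine ⟨x, fun k => ?_, ?_⟩
  · unfold Arr.sv; rw [e k]; split_ifs <;> simp
  · funext k
    unfold tb Arr.sv; rw [e k]
    cases T k <;> simp

def cp {ι : Type} (X : ι → SignType) (T : ι → Bool) : ι → Bool :=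
  fun k => if X k = 0 then T k else tb X k

theorem cov_iff (X : Fin A.n → SignType) : (∃ x, A.sv x = X) ↔ ∀ T ∈ Tp A, cp X T ∈ Tp A := by
  constructor
  · rintro ⟨x, rfl⟩ _ ⟨y, hy, rfl⟩
    obtain ⟨ε, _, e⟩ := comp A x y
    refine ⟨x + ε • y, fun k => ?_, ?_⟩
    · rw [e k]; split_ifs with h
      · exact hy k
      · exact h
    · funext k
      unfold cp tb
      rw [e k]; split_ifs <;> rfl
  · intro H
    let C : Set (Fin (d+1) → ℝ) := ⋂ k, {x | X k ≠ 0 → 0 < (X k : ℝ) * A.α k x}
    let K : Submodule ℝ (Fin (d+1) → ℝ) := ⨅ k : {k // X k = 0}, LinearMap.ker (A.α k)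
    have cont : ∀ k, Continuous (A.α k) := fun k => (A.α k).continuous_of_finiteDimensional
    have sg : ∀ (s : SignType) (r : ℝ), s ≠ 0 → (0 < (s : ℝ) * r ↔ sign r = s) := by
      intro s r hs
      cases s
      · exact absurd rfl hs
      · simp [sign_eq_neg_one_iff]
      · simp [sign_eq_one_iff]
    have memC : ∀ T ∈ Tp A, ∃ x ∈ C, (∀ k, A.sv x k ≠ 0) ∧ ∀ k, X k = 0 → tb (A.sv x) k = T k := by
      intro T hT
      obtain ⟨x, hx, e⟩ := H T hT
      refine ⟨x, Set.mem_iInter.2 fun k hk => (sg _ _ hk).2 ?_, hx, fun k hk => ?_⟩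
      · have := congrFun e k
        unfold cp at this
        rw [if_neg hk] at this
        exact (tb_eq (hx k) hk).1 this
      · rw [e]; unfold cp; rw [if_pos hk]
    by_cases hd : Disjoint C (K : Set (Fin (d+1) → ℝ))
    · exfalso
      have cv : Convex ℝ C := by
        refine convex_iInter fun k => ?_
        by_cases hk : X k = 0
        · simp [hk, convex_univ]
        · simp only [ne_eq, hk, not_false_eq_true, forall_const]
          exact convex_halfSpace_gt (f := fun x => (X k : ℝ) * A.α k x)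
            ⟨fun x y => by simp [mul_add], fun c x => by simp; ring⟩ 0
      have op : IsOpen C := by
        refine isOpen_iInter_of_finite fun k => ?_
        by_cases hk : X k = 0
        · simp [hk]
        · simp only [ne_eq, hk, not_false_eq_true, forall_const]
          exact isOpen_lt continuous_const (continuous_const.mul (cont k))
      obtain ⟨f, u, h1, h2⟩ := geometric_hahn_banach_open cv op K.convex hd
      have u0 : u ≤ 0 := by simpa using h2 0 K.zero_mem
      have fK : ∀ x ∈ K, f x = 0 := by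
        intro x hx
        by_contra h
        have := h2 (((u - 1) / f x) • x) (K.smul_mem _ hx)
        rw [map_smul, smul_eq_mul, div_mul_cancel₀ _ h] at this
        linarith
      have sp : (f : (Fin (d+1) → ℝ) →ₗ[ℝ] ℝ) ∈ Submodule.span ℝ (Set.range fun k : {k // X k = 0} => A.α k) :=
        mem_span_of_iInf_ker_le_ker fun x hx => fK x hx
      obtain ⟨μ, g, ginj, gsp, gli⟩ := exists_linearIndependent' ℝ (fun k : {k // X k = 0} => A.α k)
      haveI : Fintype μ := Fintype.ofInjective g ginj
      rw [← gsp, Submodule.mem_span_range_iff_exists_fun] at sp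
      obtain ⟨c, hc⟩ := sp
      let L : (Fin (d+1) → ℝ) →ₗ[ℝ] (μ → ℝ) := LinearMap.pi fun m => A.α (g m)
      have sur : LinearMap.range L = ⊤ := by
        by_contra hne
        obtain ⟨φ, hφ0, hφ⟩ := (LinearMap.range L).exists_le_ker_of_lt_top (lt_top_iff_ne_top.2 hne)
        classical
        have z : ∀ m, φ (Pi.single m 1) = 0 := by
          refine Fintype.linearIndependent_iff.1 gli (fun m => φ (Pi.single m 1)) ?_
          refine LinearMap.ext fun x => ?_
          have h3 : φ (L x) = 0 := hφ ⟨x, rfl⟩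
          rw [LinearMap.pi_apply_eq_sum_univ] at h3
          simp only [LinearMap.coe_sum, Finset.sum_apply, LinearMap.smul_apply, Function.comp_apply,
            smul_eq_mul, LinearMap.zero_apply]
          rw [← h3]
          refine sum_congr rfl fun m _ => ?_
          rw [smul_eq_mul, mul_comm]
          congr 2
          funext t; simp [Pi.single_apply, eq_comm]
        apply hφ0
        refine LinearMap.pi_ext fun m r => ?_
        have : (Pi.single m r : μ → ℝ) = r • Pi.single m 1 := by
          funext t; simp [Pi.single_apply]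
        rw [this, map_smul, z]; simp
      obtain ⟨y, hy⟩ : (fun m => if 0 ≤ c m then (1:ℝ) else -1) ∈ LinearMap.range L := sur ▸ trivial
      have hy' : ∀ m, A.α (g m) y = if 0 ≤ c m then (1:ℝ) else -1 := fun m => congrFun hy m
      obtain ⟨_, x0, hx0, rfl⟩ := (ts A).ne
      obtain ⟨ε, _, e⟩ := comp A y x0
      have gen : ∀ k, A.sv (y + ε • x0) k ≠ 0 := by
        intro k; rw [e k]; split_ifs with h
        · exact hx0 k
        · exact h
      obtain ⟨x, xC, xg, ex⟩ := memC _ ⟨_, gen, rfl⟩
      have f0 : 0 ≤ f x := by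
        have : f x = ∑ m, c m * A.α (g m) x := by
          have := LinearMap.congr_fun hc x
          simpa [LinearMap.sum_apply] using this.symm
        rw [this]
        refine sum_nonneg fun m _ => ?_
        have s1 : A.sv x (g m) = A.sv (y + ε • x0) (g m) := (tb_eq (xg _) (gen _)).1 (ex _ (g m).2)
        have s2 : A.sv y (g m) ≠ 0 := by
          intro h
          have := (sv_zero A).1 h
          rw [hy'] at this
          split_ifs at this <;> norm_num at this
        rw [e, if_neg s2] at s1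
        unfold Arr.sv at s1
        rw [hy'] at s1
        split_ifs at s1 with h
        · rw [sign_one] at s1
          exact mul_nonneg h (sign_eq_one_iff.1 s1).le
        · rw [sign_neg (by norm_num : (-1:ℝ) < 0)] at s1
          exact mul_nonneg_of_nonpos_of_nonpos (not_le.1 h).le (sign_eq_neg_one_iff.1 s1).le
      linarith [h1 x xC]
    · obtain ⟨x, xC, xK⟩ := Set.not_disjoint_iff.1 hd
      refine ⟨x, funext fun k => ?_⟩
      by_cases hk : X k = 0
      · rw [hk, sv_zero]
        exact (Submodule.mem_iInf _).1 xK ⟨k, hk⟩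
      · exact (sg _ _ hk).1 (Set.mem_iInter.1 xC k hk)

end H26.Tope
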