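import Mathlib

/-! A 4-regular vertex-transitive graph without periodic 2-factor.  Vertices are injective
sequences of naturals missing three values; the graph consists of cubes joined by a perfect
matching. -/

namespace Pool.Agent.H26.TwoFactor

open Function

def al (n : ℕ) : ℕ := if n % 2 = 0 then n + 1 else n - 1
def be (n : ℕ) : ℕ := if n = 0 then 0 else if n % 2 = 1 then n + 1 else n - 1

lemma al_al (n : ℕ) : al (al n) = n := by unfold al; split_ifs <;> omega
lemma be_be (n : ℕ) : be (be n) = n := by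
  unfold be; split_ifs <;> first | omega | contradiction
lemma be_ne {n : ℕ} (h : n ≠ 0) : be n ≠ 0 := by unfold be; split_ifs <;> omega
lemma al_inj : Injective al := (show Involutive al from al_al).injective
lemma be_inj : Injective be := (show Involutive be from be_be).injective

def A (s t : ℕ → ℕ) : Prop := ∀ n, t n = s (al n)
def B (s t : ℕ → ℕ) : Prop := (∀ n, n ≠ 0 → t n = s (be n)) ∧ ∀ n, s n ≠ t 0
def R (s t : ℕ → ℕ) : Prop := Injective s ∧ (A s t ∨ B s t)

lemma A.symm {s t} (h : A s t) : A t s := fun n => by rw [h, al_al]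
lemma B.symm {s t} (hs : Injective s) (h : B s t) : B t s := by
  refine ⟨fun n hn => by rw [h.1 _ (be_ne hn), be_be], fun n e => ?_⟩
  by_cases hn : n = 0
  · subst hn; exact h.2 0 e.symm
  · rw [h.1 n hn] at e; exact be_ne hn (hs e)
lemma A.inj {s t} (hs : Injective s) (h : A s t) : Injective t := fun a b e => by
  rw [h, h] at e; exact al_inj (hs e)
lemma B.inj {s t} (hs : Injective s) (h : B s t) : Injective t := fun a b e => by
  by_cases ha : a = 0 <;> by_cases hb : b = 0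
  · omega
  · subst ha; rw [h.1 b hb] at e; exact (h.2 _ e.symm).elim
  · subst hb; rw [h.1 a ha] at e; exact (h.2 _ e).elim
  · rw [h.1 a ha, h.1 b hb] at e; exact be_inj (hs e)
lemma R.symm {s t} (h : R s t) : R t s := by
  rcases h with ⟨hs, h | h⟩
  · exact ⟨h.inj hs, Or.inl h.symm⟩
  · exact ⟨h.inj hs, Or.inr (h.symm hs)⟩
lemma not_AB {s t} (h : A s t) (h' : B s t) : False := h'.2 _ (h 0).symm

lemma R.comp {s t} (h : R s t) (σ : Equiv.Perm ℕ) : R (σ ∘ s) (σ ∘ t) := by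
  refine ⟨σ.injective.comp h.1, ?_⟩
  rcases h.2 with h | h
  · exact Or.inl fun n => by simp [h n]
  · exact Or.inr ⟨fun n hn => by simp [h.1 n hn], fun n e => h.2 n (σ.injective e)⟩

def s0 : ℕ → ℕ := fun n => n + 3
lemma s0_inj : Injective s0 := fun a b e => by simpa [s0] using e

def Reach (s : ℕ → ℕ) : Prop := Relation.ReflTransGen R s0 s

lemma rtg_comp {s t} (h : Relation.ReflTransGen R s t) (σ : Equiv.Perm ℕ) :
    Relation.ReflTransGen R (σ ∘ s) (σ ∘ t) := by
  induction h with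
  | refl => exact .refl
  | tail _ h ih => exact ih.tail (h.comp σ)

lemma rtg_symm {s t} (h : Relation.ReflTransGen R s t) : Relation.ReflTransGen R t s := by
  induction h with
  | refl => exact .refl
  | tail _ h ih => exact Relation.ReflTransGen.head h.symm ih

def Γ : Subgroup (Equiv.Perm ℕ) where
  carrier := {σ | Reach (σ ∘ s0)}
  one_mem' := Relation.ReflTransGen.refl
  mul_mem' := fun {a b} ha hb => Relation.ReflTransGen.trans ha (rtg_comp hb a)
  inv_mem' := fun {a} ha => by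
    have := rtg_comp (rtg_symm ha) a⁻¹
    have e : ⇑a⁻¹ ∘ ⇑a ∘ s0 = s0 := by ext n; simp
    rw [e] at this
    exact this

def ea : Equiv.Perm ℕ :=
  Involutive.toPerm (fun n => if n < 3 then n else if n % 2 = 1 then n + 1 else n - 1)
    (fun n => by dsimp only; split_ifs <;> omega)
def eb : Equiv.Perm ℕ :=
  Involutive.toPerm (fun n => if n < 2 then n else if n % 2 = 0 then n + 1 else n - 1)
    (fun n => by dsimp only; split_ifs <;> omega)
lemma ea_apply (n : ℕ) : ea n = if n < 3 then n else if n % 2 = 1 then n + 1 else n - 1 := rfl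
lemma eb_apply (n : ℕ) : eb n = if n < 2 then n else if n % 2 = 0 then n + 1 else n - 1 := rfl

lemma ea_s0 (n : ℕ) : ea (s0 n) = s0 (al n) := by
  rw [ea_apply]; unfold s0 al; split_ifs <;> omega
lemma eb_s0 (n : ℕ) (hn : n ≠ 0) : eb (s0 n) = s0 (be n) := by
  rw [eb_apply]; unfold s0 be; split_ifs <;> omega

lemma ea_mem : ea ∈ Γ := Relation.ReflTransGen.single ⟨s0_inj, Or.inl ea_s0⟩
lemma eb_mem : eb ∈ Γ := Relation.ReflTransGen.single ⟨s0_inj, Or.inr ⟨eb_s0, fun n => by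
  show n + 3 ≠ eb 3
  rw [eb_apply]; simp⟩⟩

lemma small_swap {x y : ℕ} (hx : x < 3) (hy : y < 3) : Equiv.swap x y ∈ Γ := by
  have : ⇑(Equiv.swap x y) ∘ s0 = s0 := by
    ext n
    exact Equiv.swap_apply_of_ne_of_ne (by unfold s0; omega) (by unfold s0; omega)
  show Reach _
  rw [this]; exact .refl

lemma swap0_mem (n : ℕ) : Equiv.swap 0 n ∈ Γ := by
  induction n with
  | zero => exact small_swap (by omega) (by omega)
  | succ n ih =>
    by_cases h : n < 2
    · exact small_swap (by omega) (by omega)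
    by_cases h2 : n % 2 = 0
    · have := Γ.mul_mem (Γ.mul_mem eb_mem ih) (Γ.inv_mem eb_mem)
      rw [← Equiv.swap_apply_apply] at this
      have e1 : eb 0 = 0 := rfl
      have e2 : eb n = n + 1 := by rw [eb_apply, if_neg h, if_pos h2]
      rwa [e1, e2] at this
    · have := Γ.mul_mem (Γ.mul_mem ea_mem ih) (Γ.inv_mem ea_mem)
      rw [← Equiv.swap_apply_apply] at this
      have e1 : ea 0 = 0 := rfl
      have e2 : ea n = n + 1 := by rw [ea_apply, if_neg (by omega), if_pos (by omega)]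
      rwa [e1, e2] at this

lemma swap_mem (x y : ℕ) : Equiv.swap x y ∈ Γ := by
  by_cases hy : y = 0
  · subst hy; rw [Equiv.swap_comm]; exact swap0_mem x
  by_cases hxy : x = y
  · subst hxy; rw [Equiv.swap_self]; exact Γ.one_mem
  have := Γ.mul_mem (Γ.mul_mem (swap0_mem x) (swap0_mem y)) (Γ.inv_mem (swap0_mem x))
  rw [← Equiv.swap_apply_apply] at this
  rwa [Equiv.swap_apply_left, Equiv.swap_apply_of_ne_of_ne hy (Ne.symm hxy)] at this

lemma Reach.perm {s} (h : Reach s) : ∃ σ : Equiv.Perm ℕ, s = σ ∘ s0 := by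
  induction h with
  | refl => exact ⟨1, rfl⟩
  | @tail s t _ h ih =>
    obtain ⟨σ, rfl⟩ := ih
    rcases h.2 with h | h
    · exact ⟨σ * ea, by ext n; simp [h n, ea_s0]⟩
    · have hj : σ⁻¹ (t 0) < 3 := by
        by_contra hc
        apply h.2 (σ⁻¹ (t 0) - 3)
        have : s0 (σ⁻¹ (t 0) - 3) = σ⁻¹ (t 0) := by unfold s0; omega
        rw [comp_apply, this]; simp
      refine ⟨σ * Equiv.swap (σ⁻¹ (t 0)) 2 * eb, ?_⟩
      ext n
      by_cases hn : n = 0
      · subst hn
        have : eb (s0 0) = 2 := rfl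
        simp [this]
      · simp only [Equiv.Perm.coe_mul, comp_apply, eb_s0 n hn, h.1 n hn]
        rw [Equiv.swap_apply_of_ne_of_ne (by unfold s0; omega) (by unfold s0; omega)]

def V : Type := {s : ℕ → ℕ // Reach s}

lemma V.inj (s : V) : Injective s.1 := by
  obtain ⟨σ, h⟩ := s.2.perm
  rw [h]; exact σ.injective.comp s0_inj

/-- the three missing values -/
lemma V.miss (s : V) : ∃ x y z : ℕ, x ≠ y ∧ x ≠ z ∧ y ≠ z ∧
    ∀ w, (∀ n, s.1 n ≠ w) ↔ (w = x ∨ w = y ∨ w = z) := by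
  obtain ⟨σ, h⟩ := s.2.perm
  refine ⟨σ 0, σ 1, σ 2, by simp, by simp, by simp, fun w => ?_⟩
  obtain ⟨w, rfl⟩ := σ.surjective w
  simp only [h, comp_apply, ne_eq, EmbeddingLike.apply_eq_iff_eq, s0]
  constructor
  · intro h
    by_contra hc
    exact h (w - 3) (by omega)
  · intro h n; omega

lemma V.miss2 (s : V) (a b : ℕ) : ∃ w, (∀ n, s.1 n ≠ w) ∧ w ≠ a ∧ w ≠ b := by
  obtain ⟨x, y, z, h1, h2, h3, h⟩ := s.miss
  by_contra hc
  push Not at hc
  have k1 := hc x ((h x).2 (by simp))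
  have k2 := hc y ((h y).2 (by simp))
  have k3 := hc z ((h z).2 (by simp))
  omega

def G : SimpleGraph V where
  Adj s t := A s.1 t.1 ∨ B s.1 t.1
  symm := ⟨fun s t h => (R.symm ⟨s.inj, h⟩).2⟩
  loopless := ⟨fun s h => by
    rcases h with h | h
    · have := s.inj (h 0)
      simp [al] at this
    · exact h.2 0 rfl⟩

def v0 : V := ⟨s0, .refl⟩
def nA (s : V) : V := ⟨s.1 ∘ al, s.2.tail ⟨s.inj, Or.inl fun _ => rfl⟩⟩
def nB (s : V) (x : ℕ) (hx : ∀ n, s.1 n ≠ x) : V :=
  ⟨fun n => if n = 0 then x else s.1 (be n),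
    s.2.tail ⟨s.inj, Or.inr ⟨fun n hn => by simp [hn], by simpa using hx⟩⟩⟩
lemma A_nA (s : V) : A s.1 (nA s).1 := fun _ => rfl
lemma B_nB (s : V) (x : ℕ) (hx : ∀ n, s.1 n ≠ x) : B s.1 (nB s x hx).1 :=
  ⟨fun n hn => by simp [nB, hn], by simpa [nB] using hx⟩
lemma A_uniq {s t : V} (h : A s.1 t.1) : t = nA s := Subtype.ext (funext h)
lemma B_uniq {s t : V} (h : B s.1 t.1) : t = nB s (t.1 0) h.2 := by
  apply Subtype.ext
  ext n
  by_cases hn : n = 0
  · simp [nB, hn]
  · simp [nB, hn, h.1 n hn]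

lemma ext_tail {s t : V} (h0 : s.1 0 = t.1 0) (h : ∀ n, n ≠ 0 → s.1 n = t.1 n) : s = t := by
  apply Subtype.ext
  ext n
  by_cases hn : n = 0
  · rw [hn, h0]
  · exact h n hn

/-- changing the zeroth entry stays in `V` -/
lemma exists_upd (s : V) (y : ℕ) (hy : ∀ n, n ≠ 0 → s.1 n ≠ y) :
    ∃ t : V, t.1 0 = y ∧ ∀ n, n ≠ 0 → t.1 n = s.1 n := by
  obtain ⟨w, hw, hwy, -⟩ := s.miss2 y y
  refine ⟨nB (nB s w hw) y ?_, by simp [nB], fun n hn => by simp [nB, hn, be_ne hn, be_be]⟩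
  intro n
  by_cases hn : n = 0
  · simpa [nB, hn] using hwy
  · simpa [nB, hn] using hy _ (be_ne hn)

lemma connected : G.Connected := by
  have : Nonempty V := ⟨v0⟩
  have key : ∀ s (h : Reach s), G.Reachable v0 ⟨s, h⟩ := by
    intro s h
    induction h with
    | refl => rfl
    | tail h1 h2 ih => exact ih.trans (SimpleGraph.Adj.reachable (G := G) h2.2)
  exact ⟨fun s t => (key s.1 s.2).symm.trans (key t.1 t.2)⟩

lemma degree (s : V) : (G.neighborSet s).ncard = 4 := by
  obtain ⟨x, y, z, h1, h2, h3, h⟩ := s.miss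
  have hx := (h x).2 (by simp)
  have hy := (h y).2 (by simp)
  have hz := (h z).2 (by simp)
  have e : G.neighborSet s = {nA s, nB s x hx, nB s y hy, nB s z hz} := by
    ext t
    simp only [SimpleGraph.mem_neighborSet, Set.mem_insert_iff, Set.mem_singleton_iff]
    constructor
    · rintro (k | k)
      · exact Or.inl (A_uniq k)
      · right
        have := B_uniq k
        rcases (h _).1 k.2 with e | e | e
        · left; subst e; exact this
        · right; left; subst e; exact this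
        · right; right; subst e; exact this
    · rintro (rfl | rfl | rfl | rfl)
      · exact Or.inl (A_nA s)
      all_goals exact Or.inr (B_nB s _ _)
  have d : ∀ w hw, nA s ≠ nB s w hw := fun w hw e => not_AB (A_nA s) (e ▸ B_nB s w hw)
  have d2 : ∀ w hw w' hw', w ≠ w' → nB s w hw ≠ nB s w' hw' := fun w hw w' hw' hne e =>
    hne (by simpa [nB] using congrFun (congrArg Subtype.val e) 0)
  rw [e, Set.ncard_eq_four]
  exact ⟨_, _, _, _, d _ _, d _ _, d _ _, d2 _ _ _ _ h1, d2 _ _ _ _ h2, d2 _ _ _ _ h3, rfl⟩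

def act (σ : Equiv.Perm ℕ) (h : σ ∈ Γ) : G ≃g G where
  toFun s := ⟨σ ∘ s.1, Relation.ReflTransGen.trans h (rtg_comp s.2 σ)⟩
  invFun s := ⟨⇑σ⁻¹ ∘ s.1, Relation.ReflTransGen.trans (Γ.inv_mem h) (rtg_comp s.2 σ⁻¹)⟩
  left_inv s := Subtype.ext (by ext n; simp)
  right_inv s := Subtype.ext (by ext n; simp)
  map_rel_iff' := by
    intro s t
    constructor
    · intro k
      have := (R.comp ⟨σ.injective.comp s.inj, k⟩ σ⁻¹).2
      have e : ∀ u : ℕ → ℕ, ⇑σ⁻¹ ∘ ⇑σ ∘ u = u := fun u => by ext n; simp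
      change A (⇑σ⁻¹ ∘ ⇑σ ∘ s.1) (⇑σ⁻¹ ∘ ⇑σ ∘ t.1) ∨ B (⇑σ⁻¹ ∘ ⇑σ ∘ s.1) (⇑σ⁻¹ ∘ ⇑σ ∘ t.1) at this
      rw [e, e] at this
      exact this
    · intro k
      exact (R.comp ⟨s.inj, k⟩ σ).2

lemma act_apply (σ : Equiv.Perm ℕ) (h : σ ∈ Γ) (s : V) (n : ℕ) :
    (act σ h s).1 n = σ (s.1 n) := rfl

lemma exists_act (s : V) : ∃ φ : G ≃g G, φ v0 = s := by
  obtain ⟨σ, h⟩ := s.2.perm
  exact ⟨act σ (by show Reach _; rw [← h]; exact s.2), Subtype.ext h.symm⟩

lemma transitive (u v : V) : ∃ φ : G ≃g G, φ u = v := by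
  obtain ⟨φ, rfl⟩ := exists_act u
  obtain ⟨ψ, rfl⟩ := exists_act v
  exact ⟨φ.symm.trans ψ, by simp⟩

lemma infinite : Infinite V := by
  refine Infinite.of_injective (fun n : ℕ => act _ (swap0_mem (n + 3)) v0) ?_
  intro a b e
  have := congrFun (congrArg Subtype.val e) a
  simp only [act_apply, v0, s0, Equiv.swap_apply_right] at this
  by_contra hne
  rw [Equiv.swap_apply_of_ne_of_ne (by omega) (by omega)] at this
  omega

def InSq (s t : V) : Prop :=
  ∃ s' t', G.Adj s s' ∧ G.Adj t t' ∧ G.Adj s' t' ∧ s' ≠ t ∧ t' ≠ s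

lemma B_sq {s t : V} (h : B s.1 t.1) : InSq s t := by
  obtain ⟨y, hy, hyx, -⟩ := s.miss2 (t.1 0) (t.1 0)
  obtain ⟨w, hw, hwx, hwy⟩ := s.miss2 (t.1 0) y
  obtain ⟨t', h0, h1⟩ := exists_upd s w (fun n _ => hw n)
  refine ⟨nB s y hy, t', Or.inr (B_nB _ _ _), Or.inr ⟨?_, ?_⟩, Or.inr ⟨?_, ?_⟩, ?_, ?_⟩
  · intro n hn; rw [h1 n hn, h.1 _ (be_ne hn), be_be]
  · intro n
    rw [h0]
    by_cases hn : n = 0
    · rw [hn]; exact hwx.symm
    · rw [h.1 n hn]; exact hw _
  · intro n hn; simp [h1 n hn, nB, be_ne hn, be_be]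
  · intro n
    rw [h0]
    by_cases hn : n = 0
    · simpa [nB, hn] using hwy.symm
    · simpa [nB, hn] using hw _
  · intro e
    exact hyx (by rw [← e]; simp [nB])
  · intro e
    exact hw 0 (by rw [← h0, e])

lemma A_nsq {s t : V} (h : A s.1 t.1) : ¬ InSq s t := by
  rintro ⟨s', t', h1, h2, h3, h4, h5⟩
  have k1 : B s.1 s'.1 := h1.resolve_left fun k => h4 ((A_uniq k).trans (A_uniq h).symm)
  have k2 : B t.1 t'.1 := h2.resolve_left fun k => h5 ((A_uniq k).trans (A_uniq h.symm).symm)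
  have e1 : t'.1 3 = s.1 5 := by rw [k2.1 3 (by omega), h]; rfl
  rcases h3 with h3 | h3
  · have e2 : t'.1 3 = s.1 1 := by rw [h3, k1.1 _ (by decide)]; rfl
    have := s.inj (e1.symm.trans e2)
    omega
  · have e2 : t'.1 3 = s.1 3 := by rw [h3.1 3 (by omega), k1.1 _ (by decide)]; rfl
    have := s.inj (e1.symm.trans e2)
    omega

lemma map_B (φ : G ≃g G) {s t : V} (h : B s.1 t.1) : B (φ s).1 (φ t).1 := by
  have h1 : G.Adj (φ s) (φ t) := φ.map_adj_iff.2 (Or.inr h)
  refine h1.resolve_left fun k => A_nsq k ?_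
  obtain ⟨s', t', k1, k2, k3, k4, k5⟩ := B_sq h
  exact ⟨φ s', φ t', φ.map_adj_iff.2 k1, φ.map_adj_iff.2 k2, φ.map_adj_iff.2 k3,
    φ.injective.ne k4, φ.injective.ne k5⟩

lemma map_A (φ : G ≃g G) {s t : V} (h : A s.1 t.1) : A (φ s).1 (φ t).1 := by
  have h1 : G.Adj (φ s) (φ t) := φ.map_adj_iff.2 (Or.inl h)
  refine h1.resolve_right fun k => not_AB h ?_
  simpa using map_B φ.symm k

/-- same tail -/
def T (s t : V) : Prop := ∀ n, n ≠ 0 → t.1 n = s.1 n

lemma map_T (φ : G ≃g G) {s t : V} (h : T s t) : T (φ s) (φ t) := by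
  obtain ⟨w, hw, hw', -⟩ := s.miss2 (t.1 0) (t.1 0)
  have h1 := B_nB s w hw
  have h2 : B (nB s w hw).1 t.1 := by
    refine ⟨fun n hn => by simp [nB, be_ne hn, be_be, h n hn], fun n => ?_⟩
    by_cases hn : n = 0
    · simpa [nB, hn] using hw'
    · simp only [nB, hn, if_false]
      rw [← h _ (be_ne hn)]
      exact fun e => be_ne hn (t.inj e)
  intro n hn
  rw [(map_B φ h2).1 n hn, (map_B φ h1).1 _ (be_ne hn), be_be]

def Fix (φ : G ≃g G) (s : V) : Prop := ∀ t, T s t → φ t = t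

lemma fix_B {φ : G ≃g G} {s u : V} (h : Fix φ s) (hb : B s.1 u.1) : Fix φ u := by
  intro t ht
  have ht' : ∀ n, n ≠ 0 → t.1 n = s.1 (be n) := fun n hn => by rw [ht n hn, hb.1 n hn]
  have key : ∀ y, (∀ n, n ≠ 0 → s.1 n ≠ y) → y ≠ t.1 0 → ∃ s' : V, s'.1 0 = y ∧ T s s' ∧
      B s'.1 (φ t).1 := by
    intro y hy hyt
    obtain ⟨s', h0, h1⟩ := exists_upd s y hy
    refine ⟨s', h0, h1, ?_⟩
    have : B s'.1 t.1 := by
      refine ⟨fun n hn => by rw [ht' n hn, h1 _ (be_ne hn)], fun n => ?_⟩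
      by_cases hn : n = 0
      · rw [hn, h0]; exact hyt
      · rw [h1 n hn, ← be_be n, ← ht' _ (be_ne hn)]
        exact fun e => be_ne hn (t.inj e)
    have k := map_B φ this
    rwa [h s' h1] at k
  obtain ⟨w, hw, hw', -⟩ := s.miss2 (t.1 0) (t.1 0)
  obtain ⟨s', -, k1, k2⟩ := key w (fun n _ => hw n) hw'
  refine ext_tail ?_ fun n hn => by rw [k2.1 n hn, k1 _ (be_ne hn), ht' n hn]
  by_contra hne
  obtain ⟨s'', k3, -, k4⟩ := key ((φ t).1 0) (fun n hn => by rw [← k1 n hn]; exact k2.2 n) hne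
  exact k4.2 0 k3

lemma fix_nA {φ : G ≃g G} {s : V} (h : φ s = s) : φ (nA s) = nA s := by
  have := map_A φ (A_nA s)
  rw [h] at this
  exact A_uniq this

lemma al_ne {n : ℕ} (h0 : n ≠ 0) (h1 : n ≠ 1) : al n ≠ 0 := by unfold al; split_ifs <;> omega

lemma fix_A {φ : G ≃g G} {s : V} (h : Fix φ s) : Fix φ (nA s) := by
  intro t ht
  have hs : φ (nA s) = nA s := fix_nA (h s fun _ _ => rfl)
  have hp : T (nA s) (φ t) := by have := map_T φ ht; rwa [hs] at this
  refine ext_tail ?_ fun n hn => by rw [hp n hn, ht n hn]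
  by_contra hne
  have hj : (φ t).1 0 ≠ s.1 1 := by
    intro e
    have : φ t = nA s := ext_tail e hp
    rw [← hs] at this
    have := φ.injective this
    apply hne
    rw [e, this]; rfl
  set i := (φ t).1 0 with hi
  have hmiss : ∀ n, s.1 n ≠ i := by
    intro n e
    by_cases hn : n = 1
    · exact hj (hn ▸ e.symm)
    · have hn' : al n ≠ 0 := by unfold al; split_ifs <;> omega
      have := hp _ hn'
      simp only [nA, comp_apply, al_al] at this
      exact hn' ((φ t).inj (this.trans e))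
  -- the fixed vertex
  obtain ⟨q, q0, q1⟩ := exists_upd s i (fun n _ => hmiss n)
  have hq : φ (nA q) = nA q := fix_nA (h q q1)
  -- the walk
  obtain ⟨a2, a0, a1⟩ := exists_upd (nA t) i (by
    intro n hn
    by_cases hn1 : n = 1
    · subst hn1; exact fun e => hne e.symm
    · show t.1 (al n) ≠ i
      rw [ht _ (al_ne hn hn1)]
      exact hmiss _)
  have hT : T (nA a2) (nA q) := by
    intro n hn
    show q.1 (al n) = a2.1 (al n)
    by_cases hn1 : n = 1
    · subst hn1; exact q0.trans a0.symm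
    · rw [q1 _ (al_ne hn hn1), a1 _ (al_ne hn hn1)]
      show _ = t.1 (al (al n))
      rw [al_al, ht n hn]; rfl
  have m1 := map_A φ (A_nA t)
  have m2 := map_T φ (show T (nA t) a2 from a1)
  have m3 := map_A φ (A_nA a2)
  have m4 := map_T φ hT
  rw [hq] at m4
  have e1 : (φ a2).1 1 = i := by rw [m2 1 (by omega), m1]; rfl
  have e2 : (φ a2).1 0 = i := by
    have := m4 1 (by omega)
    rw [m3] at this
    exact this.symm.trans q0
  have := (φ a2).inj (e1.trans e2.symm)
  omega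

lemma rigid {φ : G ≃g G} (h : Fix φ v0) (s : V) : φ s = s := by
  have key : ∀ s (hs : Reach s), Fix φ ⟨s, hs⟩ := by
    intro s hs
    induction hs with
    | refl => exact h
    | @tail b c h1 h2 ih =>
      rcases h2.2 with k | k
      · rw [A_uniq (s := ⟨b, h1⟩) (t := ⟨c, h1.tail h2⟩) k]; exact fix_A ih
      · exact fix_B ih k
  exact key s.1 s.2 s fun _ _ => rfl

lemma T_finite (s : V) : {t | T s t}.Finite := by
  obtain ⟨x, y, z, -, -, -, h⟩ := s.miss
  refine Set.Finite.of_finite_image (f := fun t : V => t.1 0)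
    ((Set.toFinite {s.1 0, x, y, z}).subset ?_) ?_
  · rintro _ ⟨t, ht, rfl⟩
    by_cases e : t.1 0 = s.1 0
    · exact Or.inl e
    · refine Or.inr ((h _).1 fun n => ?_)
      by_cases hn : n = 0
      · rw [hn]; exact Ne.symm e
      · rw [← ht n hn]; exact fun e => hn (t.inj e)
  · intro a ha b hb e
    exact ext_tail e fun n hn => by rw [ha n hn, hb n hn]

lemma fiber_finite (s : V) : {φ : G ≃g G | φ v0 = s}.Finite := by
  have := (T_finite v0).to_subtype
  refine Set.Finite.of_finite_image (f := fun (φ : G ≃g G) (t : {t | T v0 t}) => φ t.1)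
    ((Set.Finite.pi' (t := fun _ : {t | T v0 t} => {t | T s t}) fun _ => T_finite s).subset ?_) ?_
  · rintro _ ⟨φ, hφ, rfl⟩ t
    have := map_T φ t.2
    rwa [show φ v0 = s from hφ] at this
  · intro φ _ ψ _ e
    have hf : Fix (φ.trans ψ.symm) v0 := fun t ht => by
      have := congrFun e ⟨t, ht⟩
      simp only at this
      simp [this]
    ext s
    have := rigid hf s
    simpa [RelIso.symm_apply_eq] using this

theorem no_factor (H : SimpleGraph V) (hH : H ≤ G) (h2 : ∀ v : V, (H.neighborSet v).ncard = 2)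
    (S : Finset V) (hS : ∀ v : V, ∃ s ∈ S, ∃ φ : G ≃g G,
      (∀ x y : V, H.Adj (φ x) (φ y) ↔ H.Adj x y) ∧ φ s = v) : False := by
  have hF : (⋃ s ∈ (S : Set V), {φ : G ≃g G | φ v0 = s}).Finite :=
    S.finite_toSet.biUnion fun s _ => fiber_finite s
  let θ : ℕ → (G ≃g G) := fun n => act _ (swap0_mem (n + 1))
  have key : ∀ n, ∃ f ∈ ⋃ s ∈ (S : Set V), {φ : G ≃g G | φ v0 = s}, ∃ φ : G ≃g G,
      (∀ x y : V, H.Adj (φ x) (φ y) ↔ H.Adj x y) ∧ ∀ x, θ n x = φ (f x) := by
    intro n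
    obtain ⟨s, hs, φ, h1, h2⟩ := hS (θ n v0)
    refine ⟨(θ n).trans φ.symm, ?_, φ, h1, by simp⟩
    simp only [Set.mem_iUnion]
    exact ⟨s, hs, by simp [← h2]⟩
  choose f hf φ hφ hθ using key
  obtain ⟨m, n, hmn, e⟩ := Set.Infinite.exists_ne_map_eq_of_mapsTo Set.infinite_univ
    (fun n _ => hf n) hF |>.imp fun _ h => h.2.imp fun _ h => h.2
  have hc : ∀ x y, H.Adj (θ m x) (θ m y) ↔ H.Adj (θ n x) (θ n y) := by
    intro x y
    rw [hθ, hθ, hθ, hθ, hφ, hφ, e]
  set a := m + 1 with ha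
  set b := n + 1 with hb
  have hab : a ≠ b := by omega
  have ha0 : a ≠ 0 := by omega
  have hb0 : b ≠ 0 := by omega
  -- a vertex missing exactly `0, a, b`
  obtain ⟨v, hv⟩ : ∃ v : V, ∀ w, (∀ k, v.1 k ≠ w) ↔ (w = 0 ∨ w = a ∨ w = b) := by
    let σ := Equiv.swap 1 a * Equiv.swap 2 (Equiv.swap 1 a b)
    have hσ : σ ∈ Γ := Γ.mul_mem (swap_mem _ _) (swap_mem _ _)
    have b1 : Equiv.swap 1 a b ≠ 1 := by
      rw [Ne, Equiv.swap_apply_eq_iff, Equiv.swap_apply_left]; exact hab.symm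
    have b0 : Equiv.swap 1 a b ≠ 0 := by
      rw [Ne, Equiv.swap_apply_eq_iff, Equiv.swap_apply_of_ne_of_ne (by omega) ha0.symm]
      exact hb0
    have e0 : σ 0 = 0 := by
      simp only [σ, Equiv.Perm.coe_mul, comp_apply]
      rw [Equiv.swap_apply_of_ne_of_ne (x := 0) (by omega) b0.symm,
        Equiv.swap_apply_of_ne_of_ne (by omega) ha0.symm]
    have e1 : σ 1 = a := by
      simp only [σ, Equiv.Perm.coe_mul, comp_apply]
      rw [Equiv.swap_apply_of_ne_of_ne (x := 1) (by omega) b1.symm, Equiv.swap_apply_left]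
    have e2 : σ 2 = b := by simp [σ]
    refine ⟨act σ hσ v0, fun w => ?_⟩
    obtain ⟨w, rfl⟩ := σ.surjective w
    rw [← e0, ← e1, ← e2]
    simp only [act_apply, v0, s0, ne_eq, EmbeddingLike.apply_eq_iff_eq]
    constructor
    · intro h
      by_contra hc
      exact h (w - 3) (by omega)
    · intro h n; omega
  have v0' := (hv 0).2 (by simp)
  have va := (hv a).2 (by simp)
  have vb := (hv b).2 (by simp)
  have fm : θ m v = v := Subtype.ext (by
    ext k; exact Equiv.swap_apply_of_ne_of_ne (v0' k) (va k))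
  have fn : θ n v = v := Subtype.ext (by
    ext k; exact Equiv.swap_apply_of_ne_of_ne (v0' k) (vb k))
  have mv : ∀ (j : ℕ) (c x y : ℕ) (hx : ∀ k, v.1 k ≠ x) (hy : ∀ k, v.1 k ≠ y), c = j + 1 →
      (∀ k, v.1 k ≠ c) → Equiv.swap 0 c x = y → θ j (nB v x hx) = nB v y hy := by
    intro j c x y hx hy hc hc' e
    subst hc
    refine ext_tail (by simpa [θ, act_apply, nB] using e) fun k hk => ?_
    simp only [θ, act_apply, nB, hk, if_false]
    exact Equiv.swap_apply_of_ne_of_ne (v0' _) (hc' _)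
  have r1 := hc v (nB v 0 v0')
  rw [fm, fn, mv m a 0 a v0' va rfl va (by simp), mv n b 0 b v0' vb rfl vb (by simp)] at r1
  have r2 := hc v (nB v a va)
  rw [fm, fn, mv m a a 0 va v0' rfl va (by simp),
    mv n b a a va va rfl vb (Equiv.swap_apply_of_ne_of_ne ha0 hab)] at r2
  have d2 : ∀ w hw w' hw', w ≠ w' → nB v w hw ≠ nB v w' hw' := fun w hw w' hw' hne e =>
    hne (by simpa [nB] using congrFun (congrArg Subtype.val e) 0)
  have hfin : (H.neighborSet v).Finite := Set.finite_of_ncard_ne_zero (by rw [h2]; omega)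
  by_cases hh : H.Adj v (nB v a va)
  · have hsub : {nB v 0 v0', nB v a va, nB v b vb} ⊆ H.neighborSet v := by
      rintro x (rfl | rfl | rfl)
      · exact r2.2 hh
      · exact hh
      · exact r1.1 hh
    have := Set.ncard_le_ncard hsub hfin
    rw [h2, Set.ncard_eq_three.2 ⟨_, _, _, d2 _ _ _ _ ha0.symm, d2 _ _ _ _ hb0.symm,
      d2 _ _ _ _ hab, rfl⟩] at this
    omega
  · have hsub : H.neighborSet v ⊆ {nA v} := by
      intro x hx
      have hx' : H.Adj v x := hx
      rcases hH hx' with k | k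
      · exact A_uniq k
      · exfalso
        have e := B_uniq k
        rcases (hv _).1 k.2 with e' | e' | e'
        · apply hh; rw [← r2]; convert hx'; rw [e]; congr 1; exact e'.symm
        · apply hh; convert hx'; rw [e]; congr 1; exact e'.symm
        · apply hh; rw [r1]; convert hx'; rw [e]; congr 1; exact e'.symm
    have := Set.ncard_le_ncard hsub (Set.finite_singleton _)
    rw [h2, Set.ncard_singleton] at this
    omega

end Pool.Agent.H26.TwoFactor
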