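import Pool.Agent.H26.UphoDefs

set_option autoImplicit false

namespace H26.Upho

@[ext] structure E where
  k : ℕ
  j : ℕ
  f : ℤ → Bool
  lo : ∀ i : ℤ, i < -(j : ℤ) → f i = false
  hi : ∀ i : ℤ, 2 * (k : ℤ) - j ≤ i → f i = false

instance : PartialOrder E where
  le x y := x.k ≤ y.k ∧ x.j ≤ y.j ∧ ∀ i : ℤ, i < 2 * (x.k : ℤ) - y.j → x.f i = y.f i
  le_refl x := ⟨le_rfl, le_rfl, fun _ _ => rfl⟩
  le_trans x y z h h' := ⟨h.1.trans h'.1, h.2.1.trans h'.2.1, fun i hi => by
    have := h.1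
    have := h'.2.1
    exact (h.2.2 i (by omega)).trans (h'.2.2 i (by omega))⟩
  le_antisymm x y h h' := by
    have e1 := le_antisymm h.1 h'.1
    have e2 := le_antisymm h.2.1 h'.2.1
    refine E.ext e1 e2 (funext fun i => ?_)
    by_cases hi : i < 2 * (x.k : ℤ) - y.j
    · exact h.2.2 i hi
    · rw [x.hi i (by omega), y.hi i (by omega)]

theorem le_def (x y : E) : x ≤ y ↔
    x.k ≤ y.k ∧ x.j ≤ y.j ∧ ∀ i : ℤ, i < 2 * (x.k : ℤ) - y.j → x.f i = y.f i := Iff.rfl

def tr (k j : ℕ) (g : ℤ → Bool) (h : ∀ i : ℤ, i < -(j : ℤ) → g i = false) : E where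
  k := k
  j := j
  f i := if i < 2 * (k : ℤ) - j then g i else false
  lo i hi := by split_ifs; exacts [h i hi, rfl]
  hi i hi := if_neg (by omega)

theorem tr_f {k j : ℕ} {g : ℤ → Bool} {h : ∀ i : ℤ, i < -(j : ℤ) → g i = false} {i : ℤ}
    (hi : i < 2 * (k : ℤ) - j) : (tr k j g h).f i = g i := if_pos hi

def r (x : E) : ℕ := x.k + x.j

theorem eq_of_r {x y : E} (h : x ≤ y) (hr : r y ≤ r x) : x = y := by
  have h1 := h.1
  have h2 := h.2.1
  unfold r at hr
  refine le_antisymm h ⟨by omega, by omega, fun i hi => (h.2.2 i (by omega)).symm⟩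

theorem r_mono : StrictMono r := fun x y h => by
  by_contra hn
  exact h.ne (eq_of_r h.le (not_lt.mp hn))

theorem cov_iff (x y : E) : x ⋖ y ↔ x ≤ y ∧ r y = r x + 1 := by
  constructor
  · intro h
    refine ⟨h.le, ?_⟩
    have h0 := r_mono h.lt
    obtain ⟨h1, h2, h3⟩ := h.le
    have key : ∃ z, x ≤ z ∧ z ≤ y ∧ r z = r x + 1 := by
      by_cases hj : x.j < y.j
      · refine ⟨tr x.k (x.j + 1) x.f fun i hi => x.lo i (by omega),
          ⟨le_rfl, Nat.le_succ _, fun i hi => (tr_f hi).symm⟩,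
          ⟨h1, hj, fun i hi => (tr_f ?_).trans (h3 i hi)⟩, rfl⟩
        change i < 2 * (x.k : ℤ) - y.j at hi
        omega
      · unfold r at h0
        refine ⟨tr (x.k + 1) x.j y.f fun i hi => y.lo i (by omega),
          ⟨Nat.le_succ _, le_rfl, fun i hi => ?_⟩,
          ⟨by change x.k + 1 ≤ y.k; omega, h2, fun i hi => tr_f ?_⟩, by unfold r tr; simp only; omega⟩
        · change i < 2 * (x.k : ℤ) - x.j at hi
          rw [tr_f (by omega)]
          exact h3 i (by omega)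
        · change i < 2 * ((x.k + 1 : ℕ) : ℤ) - y.j at hi
          omega
    obtain ⟨z, z1, z2, z3⟩ := key
    rcases h.eq_or_eq z1 z2 with rfl | rfl
    · omega
    · exact z3
  · rintro ⟨h, hr⟩
    refine ⟨lt_of_le_of_ne h (by rintro rfl; omega), fun z h1 h2 => ?_⟩
    have := r_mono h1
    have := r_mono h2
    omega

def bot : E := ⟨0, 0, fun _ => false, fun _ _ => rfl, fun _ _ => rfl⟩

theorem bot_le' (x : E) : bot ≤ x :=
  ⟨Nat.zero_le _, Nat.zero_le _, fun i hi => (x.lo i (by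
    change i < 2 * ((0 : ℕ) : ℤ) - x.j at hi
    omega)).symm⟩

theorem lub_aux (x y : E) (hk : x.k ≤ y.k) : ∃ s, IsLUB {x, y} s := by
  have hex : ∃ J : ℕ, x.j ≤ J ∧ y.j ≤ J ∧ ∀ i : ℤ, i < 2 * (x.k : ℤ) - J → x.f i = y.f i :=
    ⟨2 * x.k + x.j + y.j, by omega, by omega, fun i hi => by
      rw [x.lo i (by omega), y.lo i (by omega)]⟩
  classical
  obtain ⟨h1, h2, h3⟩ := Nat.find_spec hex
  refine ⟨tr y.k (Nat.find hex) y.f fun i hi => y.lo i (by omega), ?_, fun u hu => ?_⟩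
  · rintro _ (rfl | rfl)
    · refine ⟨hk, h1, fun i hi => (h3 i hi).trans (tr_f ?_).symm⟩
      change i < 2 * (_ : ℤ) - (Nat.find hex : ℕ) at hi
      omega
    · exact ⟨le_rfl, h2, fun i hi => (tr_f hi).symm⟩
  · obtain ⟨a1, a2, a3⟩ := hu (Or.inl rfl)
    obtain ⟨b1, b2, b3⟩ := hu (Or.inr rfl)
    have hJ : Nat.find hex ≤ u.j := Nat.find_min' hex ⟨a2, b2, fun i hi =>
      (a3 i hi).trans (b3 i (by omega)).symm⟩
    refine ⟨b1, hJ, fun i hi => (tr_f ?_).trans (b3 i hi)⟩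
    change i < 2 * (y.k : ℤ) - u.j at hi
    omega

theorem lub (x y : E) : ∃ s, IsLUB {x, y} s := by
  rcases le_total x.k y.k with h | h
  · exact lub_aux x y h
  · rw [Set.pair_comm]; exact lub_aux y x h

theorem glb (x y : E) : ∃ s, IsGLB {x, y} s := by
  classical
  have hex : ∃ n : ℕ, ∃ z, z ≤ x ∧ z ≤ y ∧ r x - r z = n := ⟨_, bot, bot_le' x, bot_le' y, rfl⟩
  obtain ⟨z, z1, z2, z3⟩ := Nat.find_spec hex
  refine ⟨z, ?_, fun u hu => ?_⟩
  · rintro _ (rfl | rfl)
    exacts [z1, z2]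
  · obtain ⟨s, hs⟩ := lub z u
    have s1 : s ≤ x := hs.2 (by rintro _ (rfl | rfl); exacts [z1, hu (Or.inl rfl)])
    have s2 : s ≤ y := hs.2 (by rintro _ (rfl | rfl); exacts [z2, hu (Or.inr rfl)])
    have := Nat.find_min' hex ⟨s, s1, s2, rfl⟩
    have h1 := r_mono.monotone s1
    have h2 := r_mono.monotone z1
    rw [eq_of_r (hs.1 (Or.inl rfl)) (by omega)]
    exact hs.1 (Or.inr rfl)

@[reducible] noncomputable def lat : Lattice E :=
  Lattice.ofIsLUBofIsGLB (fun x y => (lub x y).choose) (fun x y => (glb x y).choose)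
    (fun x y => (lub x y).choose_spec) fun x y => (glb x y).choose_spec

def ph (a x : E) : E :=
  tr (a.k + x.k) (a.j + x.j) (fun i => xor (x.f (i - (2 * (a.k : ℤ) - a.j))) (a.f i)) fun i hi => by
    rw [x.lo _ (by omega), a.lo _ (by omega)]; rfl

theorem upho : IsUpho E := fun a => by
  have h1 : ∀ x, a ≤ ph a x := fun x => ⟨Nat.le_add_right _ _, Nat.le_add_right _ _, fun i hi => by
    change i < 2 * (a.k : ℤ) - ((a.j + x.j : ℕ) : ℤ) at hi
    unfold ph
    rw [tr_f (by omega), x.lo _ (by omega), Bool.false_xor]⟩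
  have h2 : ∀ x y, ph a x ≤ ph a y ↔ x ≤ y := fun x y => by
    constructor
    · rintro ⟨b1, b2, b3⟩
      change a.k + x.k ≤ a.k + y.k at b1
      change a.j + x.j ≤ a.j + y.j at b2
      refine ⟨by omega, by omega, fun i hi => ?_⟩
      have := b3 (i + (2 * (a.k : ℤ) - a.j)) (by
        change _ < 2 * ((a.k + x.k : ℕ) : ℤ) - ((a.j + y.j : ℕ) : ℤ)
        omega)
      unfold ph at this
      rw [tr_f (by omega), tr_f (by omega), add_sub_cancel_right] at this
      exact Bool.xor_left_inj.mp this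
    · rintro ⟨b1, b2, b3⟩
      refine ⟨Nat.add_le_add_left b1 _, Nat.add_le_add_left b2 _, fun i hi => ?_⟩
      change _ < 2 * ((a.k + x.k : ℕ) : ℤ) - ((a.j + y.j : ℕ) : ℤ) at hi
      unfold ph
      rw [tr_f (by omega), tr_f (by omega), b3 _ (by omega)]
  refine ⟨OrderIso.symm (RelIso.ofSurjective (OrderEmbedding.ofMapLEIff
    (fun x => (⟨ph a x, h1 x⟩ : Set.Ici a)) h2) ?_)⟩
  rintro ⟨y, b1, b2, b3⟩
  refine ⟨tr (y.k - a.k) (y.j - a.j) (fun i => xor (y.f (i + (2 * (a.k : ℤ) - a.j)))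
    (a.f (i + (2 * (a.k : ℤ) - a.j)))) fun i hi => by rw [b3 _ (by omega), Bool.xor_self],
    Subtype.ext (E.ext (show a.k + (y.k - a.k) = y.k by omega)
      (show a.j + (y.j - a.j) = y.j by omega) (funext fun i => ?_))⟩
  show (if i < 2 * ((a.k + (y.k - a.k) : ℕ) : ℤ) - ((a.j + (y.j - a.j) : ℕ) : ℤ) then _ else _) = _
  split_ifs with h
  · rw [tr_f (by omega), sub_add_cancel]
    simp
  · exact (y.hi i (by omega)).symm

theorem finitary : Finitary E := fun a =>
  (Order.height_le_height_apply_of_strictMono r r_mono a).trans_lt (by simp)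

theorem graded : FiniteTypeGraded E := by
  refine ⟨bot, r, bot_le', rfl, fun x y h => ((cov_iff x y).mp h).2, fun n => ?_⟩
  refine Set.Finite.of_finite_image (f := fun x : E => (x.k, x.j, {i | x.f i = true})) ?_ ?_
  · refine ((Set.finite_Iic n).prod ((Set.finite_Iic n).prod
      (Set.finite_Icc (-(n : ℤ)) (2 * n)).finite_subsets)).subset ?_
    rintro _ ⟨x, hx, rfl⟩
    change x.k + x.j = n at hx
    refine ⟨show x.k ≤ n by omega, show x.j ≤ n by omega, fun i hi => ?_⟩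
    change x.f i = true at hi
    constructor
    · by_contra h
      rw [x.lo i (by omega)] at hi; cases hi
    · by_contra h
      rw [x.hi i (by omega)] at hi; cases hi
  · intro x _ y _ h
    simp only [Prod.mk.injEq] at h
    refine E.ext h.1 h.2.1 (funext fun i => Bool.eq_iff_iff.mpr ?_)
    exact Set.ext_iff.mp h.2.2 i

def D (x : E) : E :=
  ⟨x.k + 1, x.j + 2, fun i => if i < -((x.j + 2 : ℕ) : ℤ) then false else x.f i,
    fun _ hi => if_pos hi, fun i hi => by
      split_ifs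
      · rfl
      · exact x.hi i (by omega)⟩

theorem D_f (x : E) (i : ℤ) : (D x).f i = x.f i := by
  unfold D
  simp only
  split_ifs with h
  · exact (x.lo i (by omega)).symm
  · rfl

theorem D_lub (x : E) : IsLUB {y | x ⋖ y} (D x) := by
  constructor
  · intro y hy
    obtain ⟨⟨h1, h2, h3⟩, h4⟩ := (cov_iff x y).mp hy
    unfold r at h4
    refine ⟨show y.k ≤ x.k + 1 by omega, show y.j ≤ x.j + 2 by omega, fun i hi => ?_⟩
    change i < 2 * (y.k : ℤ) - ((x.j + 2 : ℕ) : ℤ) at hi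
    rw [D_f, h3 i (by omega)]
  · intro u hu
    have c : ∀ b : Bool, ∃ y : E, x ⋖ y ∧ y.k = x.k + 1 ∧ y.j = x.j ∧
        y.f (2 * (x.k : ℤ) - x.j) = b := fun b => by
      refine ⟨tr (x.k + 1) x.j (fun i => if i < 2 * (x.k : ℤ) - x.j then x.f i else b) fun i hi => ?_,
        (cov_iff _ _).mpr ⟨⟨Nat.le_succ _, le_rfl, fun i hi => ?_⟩, by unfold r tr; simp only; omega⟩,
        rfl, rfl, ?_⟩
      · rw [if_pos (by omega)]; exact x.lo i hi
      · change i < 2 * (x.k : ℤ) - x.j at hi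
        rw [tr_f (by omega), if_pos hi]
      · rw [tr_f (by omega), if_neg (by omega)]
    obtain ⟨y, y0, y1, y2, y3⟩ := c true
    obtain ⟨z, z0, z1, z2, z3⟩ := c false
    obtain ⟨a1, a2, a3⟩ := hu y0
    obtain ⟨b1, b2, b3⟩ := hu z0
    have hj : x.j + 2 ≤ u.j := by
      by_contra h
      rw [a3 _ (by omega), ← b3 _ (by omega), z3] at y3
      cases y3
    refine ⟨show x.k + 1 ≤ u.k by omega, hj, fun i hi => ?_⟩
    change i < 2 * ((x.k + 1 : ℕ) : ℤ) - u.j at hi
    rw [D_f, ← a3 i (by omega)]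
    exact y0.le.2.2 i (by omega)

theorem D_mono {x y : E} (h : x ≤ y) : D x ≤ D y :=
  ⟨Nat.succ_le_succ h.1, Nat.add_le_add_right h.2.1 2, fun i hi => by
    change i < 2 * ((x.k + 1 : ℕ) : ℤ) - ((y.j + 2 : ℕ) : ℤ) at hi
    rw [D_f, D_f, h.2.2 i (by omega)]⟩

theorem not_mult : ¬ Multiplicable E := by
  rintro ⟨_, hc, -, hle⟩
  have h1 : (1 : E) = bot := le_antisymm ((hle _ _).mpr ⟨_, one_mul _⟩) (bot_le' _)
  have mono : ∀ a b c : E, a * b ≤ a * c ↔ b ≤ c := fun a b c => by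
    rw [hle, hle]
    exact exists_congr fun d => ⟨fun h => hc a _ _ (by rw [← h, mul_assoc]),
      fun h => by rw [← h, mul_assoc]⟩
  have up : ∀ a b : E, a ≤ a * b := fun a b => (hle _ _).mpr ⟨b, rfl⟩
  have cov : ∀ a b : E, a ⋖ a * b ↔ 1 ⋖ b := fun a b => by
    have hlt : ∀ b c : E, a * b < a * c ↔ b < c := fun b c => by
      rw [lt_iff_le_not_ge, lt_iff_le_not_ge, mono, mono]
    constructor
    · intro h
      refine ⟨(hlt _ _).mp (by rw [mul_one]; exact h.lt), fun z z1 z2 => h.2 (c := a * z) ?_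
        ((hlt _ _).mpr z2)⟩
      have := (hlt _ _).mpr z1
      rwa [mul_one] at this
    · intro h
      refine ⟨by simpa using (hlt _ _).mpr h.lt, fun z z1 z2 => ?_⟩
      obtain ⟨c, rfl⟩ := (hle _ _).mp z1.le
      exact h.2 ((hlt _ _).mp (by rwa [mul_one])) ((hlt _ _).mp z2)
  have hD : ∀ a : E, a * D 1 = D a := fun a => by
    have ha : ∃ b : E, 1 ⋖ b := by
      refine ⟨tr 0 1 (fun _ => false) fun _ _ => rfl, (cov_iff _ _).mpr ?_⟩
      rw [h1]; exact ⟨bot_le' _, rfl⟩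
    obtain ⟨b, hb⟩ := ha
    apply le_antisymm
    · obtain ⟨c, hc'⟩ := (hle _ _).mp ((up a b).trans ((D_lub a).1 ((cov a b).mpr hb)))
      rw [← hc', mono]
      refine (D_lub 1).2 fun y hy => (mono a _ _).mp ?_
      rw [hc']
      exact (D_lub a).1 ((cov a y).mpr hy)
    · refine (D_lub a).2 fun y hy => ?_
      obtain ⟨c, rfl⟩ := (hle _ _).mp (CovBy.le hy)
      exact (mono _ _ _).mpr ((D_lub 1).1 ((cov a c).mp hy))
  have key : ∀ a : E, 1 ⋖ a → ∃ y s, y ⋖ D 1 ∧ y * s = D 1 ∧ D 1 * s = D a := fun a ha => by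
    obtain ⟨y, hy⟩ := (hle _ _).mp ((D_lub 1).1 ha)
    obtain ⟨s, hs⟩ := (hle _ _).mp (D_mono ha.le)
    have e : y * s = D 1 := hc a _ _ (by rw [← mul_assoc, hy, hs, hD])
    refine ⟨y, s, ?_, e, hs⟩
    rw [← e, cov, ← cov (D 1), hs, cov_iff]
    refine ⟨D_mono ha.le, ?_⟩
    have := ((cov_iff _ _).mp ha).2
    unfold r at this ⊢
    change a.k + 1 + (a.j + 2) = (1 : E).k + 1 + ((1 : E).j + 2) + 1
    omega
  let A : Bool × Bool → E := fun p => tr 1 0 (fun i => if i < 0 then false else if i = 0 then p.1 else p.2)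
    fun i hi => if_pos (by omega)
  have hA : ∀ p, 1 ⋖ A p := fun p => (cov_iff _ _).mpr (by rw [h1]; exact ⟨bot_le' _, rfl⟩)
  choose y s k1 k2 k3 using fun p => key (A p) (hA p)
  have inj : Function.Injective fun p => if (y p).k = 0 then none else some ((y p).f 0) := by
    intro p q h
    have e : y p = y q := by
      obtain ⟨⟨a1, a2, a3⟩, a4⟩ := (cov_iff _ _).mp (k1 p)
      obtain ⟨⟨b1, b2, b3⟩, b4⟩ := (cov_iff _ _).mp (k1 q)
      rw [h1] at a1 a2 a3 a4 b1 b2 b3 b4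
      change _ ≤ 1 at a1 b1
      change _ ≤ 2 at a2 b2
      change 3 = (y p).k + (y p).j + 1 at a4
      change 3 = (y q).k + (y q).j + 1 at b4
      change ∀ i : ℤ, i < _ - ((2 : ℕ) : ℤ) → _ at a3 b3
      simp only at h
      split_ifs at h with c1 c2 c2
      · exact E.ext (by omega) (by omega) (funext fun i => by
          by_cases hi : i < -2
          · rw [a3 i (by omega), b3 i (by omega)]
          · rw [(y p).hi i (by omega), (y q).hi i (by omega)])
      · refine E.ext (by omega) (by omega) (funext fun i => ?_)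
        rcases lt_trichotomy i 0 with hi | rfl | hi
        · rw [a3 i (by omega), b3 i (by omega)]
        · exact Option.some.inj h
        · rw [(y p).hi i (by omega), (y q).hi i (by omega)]
    have e2 : s p = s q := hc (y p) _ _ (by rw [k2, e, k2])
    have e3 : D (A p) = D (A q) := by rw [← k3, ← k3, e2]
    have e4 : ∀ i, (A p).f i = (A q).f i := fun i => by rw [← D_f, e3, D_f]
    exact Prod.ext (e4 0) (e4 1)
  have := Fintype.card_le_of_injective _ inj
  simp at this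

end H26.Upho
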