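import Mathlib

set_option autoImplicit false

namespace H26.Upho

/-- every principal filter is order-isomorphic to the whole poset -/
def IsUpho (P : Type) [PartialOrder P] : Prop := ∀ a : P, Nonempty (Set.Ici a ≃o P)

/-- every element has finite height -/
def Finitary (P : Type) [PartialOrder P] : Prop := ∀ a : P, Order.height a < ⊤

/-- graded by the naturals from a minimum, with finite rank levels -/
def FiniteTypeGraded (P : Type) [PartialOrder P] : Prop :=
  ∃ (e : P) (ρ : P → ℕ), (∀ x, e ≤ x) ∧ ρ e = 0 ∧ (∀ x y, x ⋖ y → ρ y = ρ x + 1) ∧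
    ∀ n, (ρ ⁻¹' {n}).Finite

/-- the order is left divisibility in a left-cancellative invertible-free monoid on `P` -/
def Multiplicable (P : Type) [PartialOrder P] : Prop :=
  ∃ _ : Monoid P, (∀ a b c : P, a * b = a * c → b = c) ∧ (∀ a b : P, a * b = 1 → a = 1 ∧ b = 1) ∧
    ∀ a b : P, a ≤ b ↔ ∃ c, a * c = b

end H26.Upho
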