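import Mathlib

set_option autoImplicit false

namespace Pool.Agent.H26.Wr

open Filter Topology NormedSpace
open scoped InnerProductSpace

variable {H : Type*} [NormedAddCommGroup H] [InnerProductSpace ℂ H] [CompleteSpace H]

lemma small (K : H →L[ℂ] H) (θ : ℝ) (hθ : 0 < θ) (η : ℝ) (hη : 0 < η) :
    ∃ ε : ℝ, 0 < ε ∧ ε ≤ η ∧ ‖exp ((ε : ℂ) • K) - 1 - (ε : ℂ) • K‖ ≤ θ * ε := by
  have h := hasDerivAt_exp_smul_const (𝕂 := ℂ) K (0 : ℂ)
  rw [hasDerivAt_iff_isLittleO] at h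
  simp only [zero_smul, exp_zero, one_mul, sub_zero] at h
  have h2 := h.bound hθ
  have h3 : Tendsto (fun t : ℝ => (t : ℂ)) (𝓝[>] 0) (𝓝 0) := by
    have : Tendsto (fun t : ℝ => (t : ℂ)) (𝓝 0) (𝓝 ((0 : ℝ) : ℂ)) :=
      Complex.continuous_ofReal.tendsto 0
    simpa using this.mono_left nhdsWithin_le_nhds
  have h4 := h3.eventually h2
  have h5 : ∀ᶠ t : ℝ in 𝓝[>] 0, t ∈ Set.Ioc 0 η := Ioc_mem_nhdsGT hη
  obtain ⟨ε, h6, h7⟩ := (h4.and h5).exists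
  refine ⟨ε, h7.1, h7.2, ?_⟩
  rwa [Complex.norm_real, Real.norm_eq_abs, abs_of_pos h7.1] at h6

lemma exists_eps (K : ℕ → H →L[ℂ] H) : ∃ ε : ℕ → ℝ, (∀ n, 0 < ε n) ∧ ε 0 ≤ 1 ∧
    (∀ n, ε (n + 1) ≤ ε n / (n + 2)) ∧
    ∀ n, ‖exp ((ε n : ℂ) • K n) - 1 - (ε n : ℂ) • K n‖ ≤ 1 / ((n : ℝ) + 1) * ε n := by
  have h : ∀ n : ℕ, ∀ η : {η : ℝ // 0 < η}, ∃ ε : {η : ℝ // 0 < η}, ε.1 ≤ η.1 ∧
      ‖exp ((ε.1 : ℂ) • K n) - 1 - (ε.1 : ℂ) • K n‖ ≤ 1 / ((n : ℝ) + 1) * ε.1 := by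
    intro n η
    obtain ⟨ε, h1, h2, h3⟩ := small (K n) (1 / ((n : ℝ) + 1)) (by positivity) η.1 η.2
    exact ⟨⟨ε, h1⟩, h2, h3⟩
  choose e he1 he2 using h
  let ε : ℕ → {η : ℝ // 0 < η} := fun n => Nat.rec (e 0 ⟨1, one_pos⟩)
    (fun k x => e (k + 1) ⟨x.1 / (k + 2), div_pos x.2 (by positivity)⟩) n
  refine ⟨fun n => (ε n).1, fun n => (ε n).2, he1 0 ⟨1, one_pos⟩, fun n => he1 (n + 1) _, ?_⟩
  intro n
  cases n with
  | zero => exact he2 0 _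
  | succ k => exact he2 (k + 1) _

lemma est (U W Z K : H →L[ℂ] H) (hU : U ∈ unitary (H →L[ℂ] H)) (hW : W ∈ unitary (H →L[ℂ] H))
    (hZ : ‖Z‖ ≤ 1) (hK : ‖K‖ ≤ 2) (hc : Commute W Z) (ε θ : ℝ) (hε : 0 < ε) (hε1 : ε ≤ 1)
    (hE : ‖U - W * (1 + (ε : ℂ) • K)‖ ≤ θ * ε) (f : H) :
    ‖(ε : ℂ) * (⟪K f, Z f⟫_ℂ + ⟪f, Z (K f)⟫_ℂ) - (⟪U f, Z (U f)⟫_ℂ - ⟪f, Z f⟫_ℂ)‖ ≤
      ε * ((4 * θ + 4 * ε) * ‖f‖ ^ 2) := by
  set a : H := f + (ε : ℂ) • K f with ha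
  have hZ' : ∀ x, ‖Z x‖ ≤ ‖x‖ := fun x =>
    (Z.le_opNorm x).trans (mul_le_of_le_one_left (norm_nonneg _) hZ)
  have hK' : ‖K f‖ ≤ 2 * ‖f‖ :=
    (K.le_opNorm f).trans (mul_le_mul_of_nonneg_right hK (norm_nonneg _))
  have hf := norm_nonneg f
  have han : ‖a‖ ≤ 3 * ‖f‖ := by
    have := norm_add_le f ((ε : ℂ) • K f)
    rw [norm_smul, Complex.norm_real, Real.norm_eq_abs, abs_of_pos hε] at this
    nlinarith [norm_nonneg (K f)]
  have hd : ‖U f - W a‖ ≤ θ * ε * ‖f‖ := by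
    have : U f - W a = (U - W * (1 + (ε : ℂ) • K)) f := by simp [ha]
    rw [this]
    exact (ContinuousLinearMap.le_opNorm _ f).trans (mul_le_mul_of_nonneg_right hE hf)
  have hθ : 0 ≤ θ * ε := (norm_nonneg _).trans hE
  have h1 : ⟪W a, Z (W a)⟫_ℂ = ⟪a, Z a⟫_ℂ := by
    have : Z (W a) = W (Z a) := by
      have := congrArg (fun T : H →L[ℂ] H => T a) hc.eq
      simpa using this.symm
    rw [this, W.inner_map_map_of_mem_unitary hW]
  have h2 : ⟪a, Z a⟫_ℂ = ⟪f, Z f⟫_ℂ + (ε : ℂ) * (⟪K f, Z f⟫_ℂ + ⟪f, Z (K f)⟫_ℂ)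
      + (ε : ℂ) ^ 2 * ⟪K f, Z (K f)⟫_ℂ := by
    simp only [ha, map_add, map_smul, inner_add_left, inner_add_right, inner_smul_left,
      inner_smul_right, Complex.conj_ofReal]
    ring
  have h3 : ⟪U f, Z (U f)⟫_ℂ - ⟪W a, Z (W a)⟫_ℂ =
      ⟪U f - W a, Z (U f)⟫_ℂ + ⟪W a, Z (U f - W a)⟫_ℂ := by
    simp only [map_sub, inner_sub_left, inner_sub_right]; ring
  have h4 : (ε : ℂ) * (⟪K f, Z f⟫_ℂ + ⟪f, Z (K f)⟫_ℂ) - (⟪U f, Z (U f)⟫_ℂ - ⟪f, Z f⟫_ℂ) =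
      -(⟪U f - W a, Z (U f)⟫_ℂ + ⟪W a, Z (U f - W a)⟫_ℂ + (ε : ℂ) ^ 2 * ⟪K f, Z (K f)⟫_ℂ) := by
    rw [← h3, h1, h2]; ring
  rw [h4, norm_neg]
  have b1 : ‖⟪U f - W a, Z (U f)⟫_ℂ‖ ≤ θ * ε * ‖f‖ * ‖f‖ := by
    refine (norm_inner_le_norm _ _).trans (mul_le_mul hd ?_ (norm_nonneg _) (by positivity))
    exact (hZ' _).trans (U.norm_map_of_mem_unitary hU f).le
  have b2 : ‖⟪W a, Z (U f - W a)⟫_ℂ‖ ≤ (3 * ‖f‖) * (θ * ε * ‖f‖) := by
    refine (norm_inner_le_norm _ _).trans (mul_le_mul ?_ ((hZ' _).trans hd) (norm_nonneg _)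
      (by positivity))
    rw [W.norm_map_of_mem_unitary hW]; exact han
  have b3 : ‖(ε : ℂ) ^ 2 * ⟪K f, Z (K f)⟫_ℂ‖ ≤ ε ^ 2 * ((2 * ‖f‖) * (2 * ‖f‖)) := by
    rw [norm_mul, norm_pow, Complex.norm_real, Real.norm_eq_abs, abs_of_pos hε]
    refine mul_le_mul_of_nonneg_left ?_ (by positivity)
    exact (norm_inner_le_norm _ _).trans (mul_le_mul hK' ((hZ' _).trans hK') (norm_nonneg _)
      (by positivity))
  refine (norm_add₃_le).trans ?_
  nlinarith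

theorem abs_main (Z K : ℕ → H →L[ℂ] H) (hZ : ∀ n, ‖Z n‖ ≤ 1) (hK : ∀ n, star (K n) = -K n)
    (hK2 : ∀ n, ‖K n‖ ≤ 2) (hc : ∀ n m, n < m → Commute (K n) (Z m)) :
    ∃ U ∈ unitary (H →L[ℂ] H), ∀ f g : H, (∀ n, ⟪f, Z n f⟫_ℂ = ⟪g, Z n g⟫_ℂ) →
      (∀ n, ⟪U f, Z n (U f)⟫_ℂ = ⟪U g, Z n (U g)⟫_ℂ) →
      Tendsto (fun n => (⟪K n f, Z n f⟫_ℂ + ⟪f, Z n (K n f)⟫_ℂ) -
        (⟪K n g, Z n g⟫_ℂ + ⟪g, Z n (K n g)⟫_ℂ)) atTop (𝓝 0) := by
  obtain ⟨ε, h0, h1, h2, h3⟩ := exists_eps K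
  have hhalf : ∀ n, ε (n + 1) ≤ ε n / 2 := fun n => (h2 n).trans
    (div_le_div_of_nonneg_left (h0 n).le (by norm_num) (by
      have : (0 : ℝ) ≤ n := by positivity
      linarith))
  have hle : ∀ n, ε n ≤ 1 / ((n : ℝ) + 1) := by
    intro n
    induction n with
    | zero => simpa using h1
    | succ k ih =>
      refine (h2 k).trans ?_
      have hk : (0 : ℝ) ≤ k := by positivity
      have : ε k ≤ 1 := ih.trans (by rw [div_le_one (by positivity)]; linarith)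
      push_cast
      rw [show (k : ℝ) + 1 + 1 = k + 2 by ring]
      exact div_le_div_of_nonneg_right this (by positivity)
  have hle1 : ∀ n, ε n ≤ 1 := fun n => (hle n).trans (by
    have hk : (0 : ℝ) ≤ n := by positivity
    rw [div_le_one (by positivity)]; linarith)
  set V : ℕ → H →L[ℂ] H := fun n => exp ((ε n : ℂ) • K n) with hV
  have hVu : ∀ n, V n ∈ unitary (H →L[ℂ] H) := by
    intro n
    letI : NormedAlgebra ℚ (H →L[ℂ] H) := NormedAlgebra.restrictScalars ℚ ℂ _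
    refine exp_mem_unitary_of_mem_skewAdjoint ?_
    rw [skewAdjoint.mem_iff, star_smul, hK, smul_neg]
    simp
  have hV1 : ∀ n, ‖V n - 1‖ ≤ 3 * ε n := by
    intro n
    have e : V n - 1 = (V n - 1 - (ε n : ℂ) • K n) + (ε n : ℂ) • K n := by abel
    rw [e]
    refine (norm_add_le _ _).trans ?_
    rw [norm_smul, Complex.norm_real, Real.norm_eq_abs, abs_of_pos (h0 n)]
    have a1 := h3 n
    have a2 : 1 / ((n : ℝ) + 1) ≤ 1 := by
      have hk : (0 : ℝ) ≤ n := by positivity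
      rw [div_le_one (by positivity)]; linarith
    have a3 := hK2 n
    have a4 := h0 n
    nlinarith
  let W : ℕ → H →L[ℂ] H := fun n => Nat.rec 1 (fun k x => x * V k) n
  have hWs : ∀ n, W (n + 1) = W n * V n := fun n => rfl
  have hWu : ∀ n, W n ∈ unitary (H →L[ℂ] H) := by
    intro n
    induction n with
    | zero => exact one_mem _
    | succ k ih => rw [hWs]; exact mul_mem ih (hVu k)
  have hWc : ∀ n m, n ≤ m → Commute (W n) (Z m) := by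
    intro n m
    induction n with
    | zero => intro _; exact Commute.one_left _
    | succ k ih =>
      intro h
      rw [hWs]
      exact (ih (by omega)).mul_left ((hc k m (by omega)).smul_left _).exp_left
  have hWn : ∀ n (T : H →L[ℂ] H), ‖W n * T‖ = ‖T‖ := fun n T =>
    CStarRing.norm_mem_unitary_mul T (hWu n)
  have hdist : ∀ n m, n ≤ m → dist (W n) (W m) ≤ 6 * ε n - 6 * ε m := by
    intro n m h
    induction m, h using Nat.le_induction with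
    | base => simp
    | succ k _ ih =>
      have a1 : dist (W k) (W (k + 1)) ≤ 3 * ε k := by
        rw [dist_comm, dist_eq_norm, hWs, show W k * V k - W k = W k * (V k - 1) by
          rw [mul_sub, mul_one], hWn]
        exact hV1 k
      have a2 := dist_triangle (W n) (W k) (W (k + 1))
      have a3 := hhalf k
      linarith
  have hlim : Tendsto (fun n : ℕ => 1 / ((n : ℝ) + 1)) atTop (𝓝 0) :=
    tendsto_one_div_add_atTop_nhds_zero_nat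
  have hε0 : Tendsto ε atTop (𝓝 0) := squeeze_zero (fun n => (h0 n).le) hle hlim
  have hcau : CauchySeq W := by
    refine cauchySeq_of_le_tendsto_0' (fun n => 6 * ε n) (fun n m h => ?_) ?_
    · have := hdist n m h
      have := h0 m
      linarith
    · simpa using hε0.const_mul 6
  obtain ⟨U, hU⟩ := cauchySeq_tendsto_of_complete hcau
  have hUu : U ∈ unitary (H →L[ℂ] H) :=
    isClosed_unitary.mem_of_tendsto hU (Eventually.of_forall hWu)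
  have hUW : ∀ n, dist (W n) U ≤ 6 * ε n := by
    intro n
    refine le_of_tendsto (tendsto_const_nhds.dist hU) ?_
    filter_upwards [eventually_ge_atTop n] with m hm
    have := hdist n m hm
    have := h0 m
    linarith
  have hE : ∀ n, ‖U - W n * (1 + (ε n : ℂ) • K n)‖ ≤ 7 * (1 / ((n : ℝ) + 1)) * ε n := by
    intro n
    have e : U - W n * (1 + (ε n : ℂ) • K n) =
        (U - W (n + 1)) + W n * (V n - 1 - (ε n : ℂ) • K n) := by
      rw [hWs]; simp only [mul_sub, mul_add, mul_one]; abel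
    rw [e]
    refine (norm_add_le _ _).trans ?_
    rw [hWn, ← dist_eq_norm, dist_comm]
    have a1 := hUW (n + 1)
    have a2 := h3 n
    have a3 : ε (n + 1) ≤ 1 / ((n : ℝ) + 1) * ε n := by
      refine (h2 n).trans ?_
      rw [one_div, mul_comm, ← div_eq_mul_inv]
      exact div_le_div_of_nonneg_left (h0 n).le (by positivity) (by linarith)
    linarith
  refine ⟨U, hUu, fun f g hf hUf => ?_⟩
  rw [tendsto_zero_iff_norm_tendsto_zero]
  have hb : Tendsto (fun n : ℕ => (4 * (7 * (1 / ((n : ℝ) + 1))) + 4 * ε n) * (‖f‖ ^ 2 + ‖g‖ ^ 2))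
      atTop (𝓝 0) := by
    have := (((hlim.const_mul 7).const_mul 4).add (hε0.const_mul 4)).mul_const (‖f‖ ^ 2 + ‖g‖ ^ 2)
    simpa using this
  refine squeeze_zero (fun n => norm_nonneg _) (fun n => ?_) hb
  have a1 := est U (W n) (Z n) (K n) hUu (hWu n) (hZ n) (hK2 n) (hWc n n le_rfl) (ε n) _ (h0 n)
    (hle1 n) (hE n) f
  have a2 := est U (W n) (Z n) (K n) hUu (hWu n) (hZ n) (hK2 n) (hWc n n le_rfl) (ε n) _ (h0 n)
    (hle1 n) (hE n) g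
  rw [hf n, hUf n] at a1
  have a3 := norm_sub_le_of_le a1 a2
  rw [sub_sub_sub_cancel_right, ← mul_sub, norm_mul, Complex.norm_real, Real.norm_eq_abs,
    abs_of_pos (h0 n), ← mul_add, ← mul_add] at a3
  exact le_of_mul_le_mul_left a3 (h0 n)

end Pool.Agent.H26.Wr
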