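import Mathlib

set_option autoImplicit false

namespace Pool.Agent.H26.Wr

open Filter Topology MeasureTheory
open scoped InnerProductSpace ComplexConjugate

abbrev E (d : ℕ) := EuclideanSpace ℝ (Fin d)
noncomputable abbrev L2 (d : ℕ) := Lp ℂ 2 (volume : Measure (E d))
abbrev BM (d : ℕ) := {φ : E d → ℂ // Measurable φ ∧ ∀ x, ‖φ x‖ ≤ 1}

variable {d : ℕ}

lemma mp (b : E d) : MeasurePreserving (fun x : E d => x + b) volume volume :=
  measurePreserving_add_right volume b

lemma memLp_op (φ : BM d) (b : E d) (f : L2 d) :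
    MemLp (fun x => φ.1 x * f (x + b)) 2 (volume : Measure (E d)) := by
  have h := (Lp.memLp f).comp_measurePreserving (mp b)
  refine h.of_le (φ.2.1.aestronglyMeasurable.mul h.1) (Eventually.of_forall fun x => ?_)
  rw [norm_mul]
  exact mul_le_of_le_one_left (norm_nonneg _) (φ.2.2 x)

noncomputable def tr (b : E d) (f : L2 d) : L2 d := Lp.compMeasurePreserving _ (mp b) f

lemma tr_coe (b : E d) (f : L2 d) : tr b f =ᵐ[volume] fun x => f (x + b) :=
  Lp.coeFn_compMeasurePreserving f (mp b)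

lemma tr_cont (f : L2 d) : Continuous fun b : E d => tr b f := by
  let g : C(E d × E d, E d) := ⟨fun p => p.2 + p.1, by fun_prop⟩
  exact Continuous.compMeasurePreservingLp (f := fun _ : E d => f) (g := fun b => g.curry b)
    continuous_const g.curry.continuous (fun b => mp b) (by simp)

noncomputable def opl (φ : BM d) (b : E d) : L2 d →ₗ[ℂ] L2 d where
  toFun f := (memLp_op φ b f).toLp _
  map_add' f g := by
    refine Lp.ext ?_
    filter_upwards [(memLp_op φ b (f + g)).coeFn_toLp, (memLp_op φ b f).coeFn_toLp,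
      (memLp_op φ b g).coeFn_toLp,
      Lp.coeFn_add ((memLp_op φ b f).toLp _) ((memLp_op φ b g).toLp _),
      (mp b).quasiMeasurePreserving.ae (Lp.coeFn_add f g)] with x h1 h2 h3 h4 h5
    rw [h1, h4, Pi.add_apply, h2, h3, h5, Pi.add_apply, mul_add]
  map_smul' c f := by
    refine Lp.ext ?_
    filter_upwards [(memLp_op φ b (c • f)).coeFn_toLp, (memLp_op φ b f).coeFn_toLp,
      Lp.coeFn_smul c ((memLp_op φ b f).toLp _),
      (mp b).quasiMeasurePreserving.ae (Lp.coeFn_smul c f)] with x h1 h2 h4 h5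
    rw [RingHom.id_apply, h1, h4, Pi.smul_apply, h2, h5, Pi.smul_apply, smul_eq_mul, smul_eq_mul]
    ring

lemma opl_norm (φ : BM d) (b : E d) (f : L2 d) : ‖opl φ b f‖ ≤ 1 * ‖f‖ := by
  rw [one_mul, ← Lp.norm_compMeasurePreserving f (mp b)]
  refine Lp.norm_le_norm_of_ae_le ?_
  filter_upwards [(memLp_op φ b f).coeFn_toLp, tr_coe b f] with x h1 h2
  have h3 : opl φ b f x = φ.1 x * f (x + b) := h1
  have h4 : Lp.compMeasurePreserving _ (mp b) f x = f (x + b) := h2
  rw [h3, h4, norm_mul]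
  exact mul_le_of_le_one_left (norm_nonneg _) (φ.2.2 x)

noncomputable def op (φ : BM d) (b : E d) : L2 d →L[ℂ] L2 d :=
  (opl φ b).mkContinuous 1 (opl_norm φ b)

lemma op_norm (φ : BM d) (b : E d) : ‖op φ b‖ ≤ 1 :=
  LinearMap.mkContinuous_norm_le _ zero_le_one _

lemma op_coe (φ : BM d) (b : E d) (f : L2 d) :
    op φ b f =ᵐ[volume] fun x => φ.1 x * f (x + b) := (memLp_op φ b f).coeFn_toLp

lemma op_tr (φ : BM d) (b : E d) (f : L2 d) : op φ b f = op φ 0 (tr b f) := by
  refine Lp.ext ?_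
  filter_upwards [op_coe φ b f, op_coe φ 0 (tr b f), tr_coe b f] with x h1 h2 h3
  rw [h1, h2, add_zero, h3]

lemma op_cont (φ : BM d) (f : L2 d) : Continuous fun b : E d => op φ b f := by
  simp_rw [op_tr φ _ f]
  exact (op φ 0).continuous.comp (tr_cont f)

lemma op_comm (ψ z : BM d) (b : E d) (κ : ℂ) (h : ∀ x, z.1 (x + b) = κ * z.1 x) :
    op ψ b * op z 0 = κ • (op z 0 * op ψ b) := by
  ext1 f
  refine Lp.ext ?_
  filter_upwards [op_coe ψ b (op z 0 f), (mp b).quasiMeasurePreserving.ae (op_coe z 0 f),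
    op_coe z 0 (op ψ b f), op_coe ψ b f, Lp.coeFn_smul κ (op z 0 (op ψ b f))] with x h1 h2 h3 h4 h5
  show (op ψ b (op z 0 f)) x = (κ • (op z 0 (op ψ b f))) x
  rw [h1, h2, h5, Pi.smul_apply, h3, add_zero, add_zero, h4, h, smul_eq_mul]
  ring

lemma op_invol (z : BM d) (h : ∀ x, z.1 x * z.1 x = 1) (f : L2 d) : op z 0 (op z 0 f) = f := by
  refine Lp.ext ?_
  filter_upwards [op_coe z 0 (op z 0 f), op_coe z 0 f] with x h1 h2
  rw [h1, add_zero, h2, add_zero, ← mul_assoc, h, one_mul]

lemma op_symm (z : BM d) (h : ∀ x, conj (z.1 x) = z.1 x) (f g : L2 d) :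
    ⟪op z 0 f, g⟫_ℂ = ⟪f, op z 0 g⟫_ℂ := by
  rw [L2.inner_def, L2.inner_def]
  refine integral_congr_ae ?_
  filter_upwards [op_coe z 0 f, op_coe z 0 g] with x h1 h2
  rw [h1, h2, add_zero, RCLike.inner_apply, RCLike.inner_apply, map_mul, h]
  ring

lemma op_mod (z : BM d) (f g : L2 d) (h : ∀ᵐ x ∂(volume : Measure (E d)), ‖f x‖ = ‖g x‖) :
    ⟪f, op z 0 f⟫_ℂ = ⟪g, op z 0 g⟫_ℂ := by
  rw [L2.inner_def, L2.inner_def]
  refine integral_congr_ae ?_
  filter_upwards [op_coe z 0 f, op_coe z 0 g, h] with x h1 h2 h3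
  rw [h1, h2, add_zero, RCLike.inner_apply, RCLike.inner_apply, mul_assoc, mul_assoc,
    Complex.mul_conj, Complex.mul_conj, Complex.normSq_eq_norm_sq, Complex.normSq_eq_norm_sq, h3]

noncomputable def ind (c : ℂ) (hc : ‖c‖ ≤ 1) (A : Set (E d)) (hA : MeasurableSet A) : BM d :=
  ⟨A.indicator fun _ => c, measurable_const.indicator hA, fun x => by
    by_cases h : x ∈ A <;> simp [h, hc]⟩

lemma op_ind (c : ℂ) (hc : ‖c‖ ≤ 1) (A : Set (E d)) (hA : MeasurableSet A) (b : E d) (f : L2 d) :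
    ⟪f, op (ind c hc A hA) b f⟫_ℂ = c * ∫ x in A, ⟪f x, tr b f x⟫_ℂ := by
  rw [L2.inner_def, ← integral_indicator hA, ← integral_const_mul]
  refine integral_congr_ae ?_
  filter_upwards [op_coe (ind c hc A hA) b f, tr_coe b f] with x h1 h2
  rw [h1]
  by_cases h : x ∈ A
  · simp only [ind, Set.indicator_of_mem h, h2, RCLike.inner_apply]; ring
  · simp [ind, Set.indicator_of_notMem h]

lemma exists_basis : ∃ B : ℕ → Set (E d), (∀ i, IsOpen (B i)) ∧
    ∀ F : E d → ℂ, Integrable F → (∀ s : Finset ℕ, ∫ x in ⋃ i ∈ s, B i, F x = 0) →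
      F =ᵐ[volume] 0 := by
  have hb := TopologicalSpace.isBasis_countableBasis (E d)
  obtain ⟨v, hv, -⟩ := hb.exists_subset_of_mem_open (Set.mem_univ (0 : E d)) isOpen_univ
  obtain ⟨B, hB⟩ := (TopologicalSpace.countable_countableBasis (E d)).exists_eq_range ⟨v, hv⟩
  have hBo : ∀ i, IsOpen (B i) := fun i => hb.isOpen (by rw [hB]; exact ⟨i, rfl⟩)
  refine ⟨B, hBo, fun F hF h => ?_⟩
  have hop : ∀ U : Set (E d), IsOpen U → ∫ x in U, F x = 0 := by
    intro U hU
    classical
    let t : ℕ → Set (E d) := fun n => ⋃ i ∈ (Finset.range n).filter (fun i => B i ⊆ U), B i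
    have ht : ⋃ n, t n = U := by
      refine Set.Subset.antisymm ?_ fun x hx => ?_
      · refine Set.iUnion_subset fun n => Set.iUnion₂_subset fun i hi => ?_
        exact (Finset.mem_filter.1 hi).2
      · obtain ⟨w, hw, hxw, hwU⟩ := hb.exists_subset_of_mem_open hx hU
        rw [hB] at hw
        obtain ⟨i, rfl⟩ := hw
        exact Set.mem_iUnion.2 ⟨i + 1, Set.mem_iUnion₂.2
          ⟨i, Finset.mem_filter.2 ⟨Finset.mem_range.2 (by omega), hwU⟩, hxw⟩⟩
    have hm : Monotone t := by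
      intro a b hab
      refine Set.iUnion₂_subset fun i hi => Set.subset_iUnion₂_of_subset i ?_ le_rfl
      rw [Finset.mem_filter, Finset.mem_range] at hi ⊢
      exact ⟨by omega, hi.2⟩
    have h1 := tendsto_setIntegral_of_monotone (μ := volume) (f := F) (s := t)
      (fun n => (isOpen_biUnion fun i _ => hBo i).measurableSet) hm hF.integrableOn
    rw [ht] at h1
    have h2 : (fun n => ∫ x in t n, F x) = fun _ => 0 := funext fun n => h _
    rw [h2] at h1
    exact tendsto_nhds_unique h1 tendsto_const_nhds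
  refine ae_eq_zero_of_forall_setIntegral_isClosed_eq_zero hF fun s hs => ?_
  have h1 := integral_add_compl hs.measurableSet hF
  rw [hop _ hs.isOpen_compl, add_zero] at h1
  rw [h1, ← setIntegral_univ]
  exact hop _ isOpen_univ

lemma final (f g : L2 d) (h0 : ∀ᵐ x ∂(volume : Measure (E d)), ‖f x‖ = ‖g x‖)
    (h : ∀ a : E d, ∀ᵐ x ∂(volume : Measure (E d)),
      f (x + a) * conj (f x) = g (x + a) * conj (g x)) :
    ∃ c : ℂ, ‖c‖ = 1 ∧ f = c • g := by
  by_cases hg : ∀ᵐ x ∂(volume : Measure (E d)), g x = 0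
  · refine ⟨1, norm_one, ?_⟩
    rw [one_smul]
    refine Lp.ext ?_
    filter_upwards [h0, hg] with x h1 h2
    rw [h2, norm_zero, norm_eq_zero] at h1
    rw [h1, h2]
  have hf : Measurable (f : E d → ℂ) := (Lp.stronglyMeasurable f).measurable
  have hgm : Measurable (g : E d → ℂ) := (Lp.stronglyMeasurable g).measurable
  have hc : Measurable (fun z : ℂ => conj z) := Complex.continuous_conj.measurable
  have hms : MeasurableSet {p : E d × E d |
      f (p.2 + p.1) * conj (f p.2) = g (p.2 + p.1) * conj (g p.2)} := by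
    refine measurableSet_eq_fun ?_ ?_
    · exact (hf.comp (measurable_snd.add measurable_fst)).mul (hc.comp (hf.comp measurable_snd))
    · exact (hgm.comp (measurable_snd.add measurable_fst)).mul (hc.comp (hgm.comp measurable_snd))
  have h1 := (Measure.ae_ae_comm (μ := (volume : Measure (E d))) (ν := (volume : Measure (E d)))
    (p := fun a x => f (x + a) * conj (f x) = g (x + a) * conj (g x)) hms).1
    (Eventually.of_forall h)
  obtain ⟨x, hx0, hx1, hx2⟩ := ((Filter.not_eventually.1 hg).and_eventually (h0.and h1)).exists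
  have hfx : f x ≠ 0 := by
    intro h3; rw [h3, norm_zero] at hx1; exact hx0 (norm_eq_zero.1 hx1.symm)
  have hfx' : conj (f x) ≠ 0 := by simpa using hfx
  refine ⟨conj (g x) / conj (f x), ?_, ?_⟩
  · rw [norm_div, Complex.norm_conj, Complex.norm_conj, ← hx1, div_self (norm_ne_zero_iff.2 hfx)]
  · refine Lp.ext ?_
    filter_upwards [(mp (-x)).quasiMeasurePreserving.ae hx2,
      Lp.coeFn_smul (conj (g x) / conj (f x)) g] with y h3 h4
    have e : x + (y + -x) = y := by abel
    rw [e] at h3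
    rw [h4, Pi.smul_apply, smul_eq_mul]
    field_simp
    rw [h3]; ring

end Pool.Agent.H26.Wr
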