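import Pool.Agent.H26.Wr1
import Pool.Agent.H26.Wr2

set_option autoImplicit false

namespace Pool.Agent.H26.Wr

open Filter Topology MeasureTheory
open scoped InnerProductSpace ComplexConjugate

lemma Dform {H : Type*} [NormedAddCommGroup H] [InnerProductSpace ℂ H] [CompleteSpace H]
    (Z T : H →L[ℂ] H) (hs : ∀ f g, ⟪Z f, g⟫_ℂ = ⟪f, Z g⟫_ℂ) (hi : ∀ f, Z (Z f) = f)
    (ha : ∀ f, T (Z f) = -Z (T f)) (f : H) :
    ⟪(Z * T - star (Z * T)) f, Z f⟫_ℂ + ⟪f, Z ((Z * T - star (Z * T)) f)⟫_ℂ =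
      ((4 * (⟪f, T f⟫_ℂ).re : ℝ) : ℂ) := by
  have h1 : (Z * T) (Z f) = -T f := by
    show Z (T (Z f)) = _
    rw [ha, map_neg, hi]
  have h2 : ⟪(Z * T) f, Z f⟫_ℂ = conj ⟪f, T f⟫_ℂ := by
    show ⟪Z (T f), Z f⟫_ℂ = _
    rw [hs, hi, inner_conj_symm]
  have h3 : ⟪(star (Z * T)) f, Z f⟫_ℂ = -⟪f, T f⟫_ℂ := by
    rw [ContinuousLinearMap.star_eq_adjoint, ContinuousLinearMap.adjoint_inner_left, h1,
      inner_neg_right]
  have h4 : ⟪(Z * T - star (Z * T)) f, Z f⟫_ℂ = conj ⟪f, T f⟫_ℂ + ⟪f, T f⟫_ℂ := by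
    rw [ContinuousLinearMap.sub_apply, inner_sub_left, h2, h3]; ring
  rw [← hs f, ← inner_conj_symm (Z f), h4, map_add, Complex.conj_conj]
  have := Complex.add_conj ⟪f, T f⟫_ℂ
  push_cast at this ⊢
  linear_combination 2 * this

variable {d : ℕ}

noncomputable def zz (i : Fin d) (n : ℕ) : BM d :=
  ⟨fun x => (-1 : ℂ) ^ ⌊2 ^ n * x i⌋, by
    refine (measurable_of_countable fun k : ℤ => (-1 : ℂ) ^ k).comp ?_
    exact Int.measurable_floor.comp (by fun_prop), fun x => by simp [norm_zpow]⟩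

noncomputable def bb (i : Fin d) (n : ℕ) (a : E d) : E d :=
  a + EuclideanSpace.single i ((2 * (⌊2 ^ n * a i / 2⌋ : ℝ) + 1) / 2 ^ n - a i)

lemma bb_apply (i : Fin d) (n : ℕ) (a : E d) :
    2 ^ n * bb i n a i = ((2 * ⌊2 ^ n * a i / 2⌋ + 1 : ℤ) : ℝ) := by
  simp only [bb, PiLp.add_apply, EuclideanSpace.single_apply, if_true]
  push_cast
  field_simp
  ring

lemma bb_dist (i : Fin d) (n : ℕ) (a : E d) : dist (bb i n a) a ≤ (1 / 2) ^ n := by
  rw [dist_eq_norm, bb, add_sub_cancel_left, EuclideanSpace.norm_single, Real.norm_eq_abs]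
  have h1 := Int.floor_le (2 ^ n * a i / 2)
  have h2 := Int.lt_floor_add_one (2 ^ n * a i / 2)
  have hp : (0 : ℝ) < 2 ^ n := by positivity
  have e : (2 * (⌊2 ^ n * a i / 2⌋ : ℝ) + 1) / 2 ^ n - a i =
      (2 * (⌊2 ^ n * a i / 2⌋ : ℝ) + 1 - 2 ^ n * a i) / 2 ^ n := by field_simp
  rw [e, abs_div, abs_of_pos hp, one_div, inv_pow, ← one_div]
  refine div_le_div_of_nonneg_right (abs_le.2 ⟨by linarith, by linarith⟩) hp.le

lemma zz_shift (i : Fin d) (n : ℕ) (b x : E d) (k : ℤ) (h : 2 ^ n * b i = k) :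
    (zz i n).1 (x + b) = (-1 : ℂ) ^ k * (zz i n).1 x := by
  simp only [zz, PiLp.add_apply]
  rw [mul_add, h, Int.floor_add_intCast, zpow_add₀ (by norm_num), mul_comm]

lemma zz_anti (i : Fin d) (n : ℕ) (a x : E d) :
    (zz i n).1 (x + bb i n a) = (-1 : ℂ) * (zz i n).1 x := by
  rw [zz_shift i n _ x _ (bb_apply i n a), Odd.neg_one_zpow (odd_two_mul_add_one _)]

lemma zz_comm (i : Fin d) (n m : ℕ) (h : n < m) (a x : E d) :
    (zz i m).1 (x + bb i n a) = (1 : ℂ) * (zz i m).1 x := by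
  obtain ⟨j, rfl⟩ := Nat.exists_eq_add_of_lt h
  have e : 2 ^ (n + j + 1) * bb i n a i =
      ((2 * (2 ^ j * (2 * ⌊2 ^ n * a i / 2⌋ + 1)) : ℤ) : ℝ) := by
    have := bb_apply i n a
    push_cast at this ⊢
    rw [← this]; ring
  rw [zz_shift i _ _ x _ e, Even.neg_one_zpow (even_two_mul _)]

lemma zz_sq (i : Fin d) (n : ℕ) (x : E d) : (zz i n).1 x * (zz i n).1 x = 1 := by
  simp only [zz]
  rw [← mul_zpow]; simp

lemma zz_conj (i : Fin d) (n : ℕ) (x : E d) : conj ((zz i n).1 x) = (zz i n).1 x := by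
  simp [zz]

theorem main (i : Fin d) : ∃ U ∈ unitary (L2 d →L[ℂ] L2 d), ∀ f g : L2 d,
    (∀ᵐ x ∂(volume : Measure (E d)), ‖f x‖ = ‖g x‖) →
    (∀ᵐ x ∂(volume : Measure (E d)), ‖U f x‖ = ‖U g x‖) → ∃ c : ℂ, ‖c‖ = 1 ∧ f = c • g := by
  obtain ⟨B, hBo, hB⟩ := exists_basis (d := d)
  obtain ⟨e, he⟩ := exists_surjective_nat (Bool × Finset ℕ × ℕ)
  let u : ℕ → E d := TopologicalSpace.denseSeq (E d)
  have hu : DenseRange u := TopologicalSpace.denseRange_denseSeq (E d)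
  let cc : Bool → ℂ := fun t => if t then 1 else Complex.I
  have hcc : ∀ t, ‖cc t‖ ≤ 1 := by intro t; cases t <;> simp [cc]
  let A : Finset ℕ → Set (E d) := fun s => ⋃ j ∈ s, B j
  have hA : ∀ s, MeasurableSet (A s) := fun s => (isOpen_biUnion fun j _ => hBo j).measurableSet
  let P : Bool × Finset ℕ × ℕ → BM d := fun q => ind (cc q.1) (hcc _) (A q.2.1) (hA _)
  let q : ℕ → Bool × Finset ℕ × ℕ := fun n => e (Nat.unpair n).1
  let T : ℕ → L2 d →L[ℂ] L2 d := fun n => op (P (q n)) (bb i n (u (q n).2.2))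
  let Z : ℕ → L2 d →L[ℂ] L2 d := fun n => op (zz i n) 0
  have hZs : ∀ n f g, ⟪Z n f, g⟫_ℂ = ⟪f, Z n g⟫_ℂ := fun n => op_symm _ (zz_conj i n)
  have hZst : ∀ n, star (Z n) = Z n := by
    intro n
    rw [ContinuousLinearMap.star_eq_adjoint]
    exact ((ContinuousLinearMap.eq_adjoint_iff _ _).2 (hZs n)).symm
  obtain ⟨U, hU, hmain⟩ := abs_main Z (fun n => Z n * T n - star (Z n * T n))
    (fun n => op_norm _ _) (fun n => by simp only [star_sub, star_star, neg_sub])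
    (fun n => by
      have h1 : ‖Z n * T n‖ ≤ 1 :=
        (norm_mul_le _ _).trans (mul_le_one₀ (op_norm _ _) (norm_nonneg _) (op_norm _ _))
      refine (norm_sub_le _ _).trans ?_
      rw [norm_star]; linarith)
    (fun n m hnm => by
      have h1 : Commute (Z n) (Z m) := by
        have := op_comm (zz i n) (zz i m) 0 1 (fun x => by simp)
        rwa [one_smul] at this
      have h2 : Commute (T n) (Z m) := by
        have := op_comm (P (q n)) (zz i m) _ 1 (zz_comm i n m hnm (u (q n).2.2))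
        rwa [one_smul] at this
      have h3 := h1.mul_left h2
      have h4 := h3.star_star
      rw [hZst] at h4
      exact h3.sub_left h4)
  refine ⟨U, hU, fun f g h1 h2 => ?_⟩
  have h3 := hmain f g (fun n => op_mod _ f g h1) (fun n => op_mod _ _ _ h2)
  have hanti : ∀ n f, T n (Z n f) = -Z n (T n f) := by
    intro n f
    have := congrArg (fun S : L2 d →L[ℂ] L2 d => S f)
      (op_comm (P (q n)) (zz i n) _ (-1) (zz_anti i n (u (q n).2.2)))
    simpa using this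
  simp only [Dform _ _ (hZs _) (op_invol _ (zz_sq i _)) (hanti _)] at h3
  -- the continuous functional
  let Φ : Bool × Finset ℕ × ℕ → E d → ℂ := fun r b =>
    ((4 * (⟪f, op (P r) b f⟫_ℂ).re : ℝ) : ℂ) - ((4 * (⟪g, op (P r) b g⟫_ℂ).re : ℝ) : ℂ)
  have hΦc : ∀ r, Continuous (Φ r) := by
    intro r
    have a1 := op_cont (P r) f
    have a2 := op_cont (P r) g
    simp only [Φ]
    fun_prop
  have hΦ0 : ∀ r, Φ r (u r.2.2) = 0 := by
    intro r
    obtain ⟨j, hj⟩ := he r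
    have hφ : Tendsto (fun k => Nat.pair j k) atTop atTop :=
      tendsto_atTop_mono (fun k => Nat.right_le_pair j k) tendsto_id
    have hq : ∀ k, q (Nat.pair j k) = r := fun k => by simp only [q, Nat.unpair_pair, hj]
    have a1 : Tendsto (fun k => Φ r (bb i (Nat.pair j k) (u r.2.2))) atTop (𝓝 0) := by
      refine (h3.comp hφ).congr fun k => ?_
      simp only [Function.comp, T, hq, Φ]
    have a2 : Tendsto (fun k => bb i (Nat.pair j k) (u r.2.2)) atTop (𝓝 (u r.2.2)) := by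
      rw [tendsto_iff_dist_tendsto_zero]
      refine squeeze_zero (fun k => dist_nonneg) (fun k => bb_dist i _ _) ?_
      exact (tendsto_pow_atTop_nhds_zero_of_lt_one (by norm_num) (by norm_num)).comp hφ
    exact tendsto_nhds_unique (((hΦc r).tendsto _).comp a2) a1
  have hΦ : ∀ t s b, Φ (t, s, 0) b = 0 := by
    intro t s
    have := hu.equalizer (hΦc (t, s, 0)) (continuous_const (y := (0 : ℂ)))
      (funext fun j => hΦ0 (t, s, j))
    exact fun b => congrFun this b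
  refine final f g h1 fun a => ?_
  have hI : ∀ s, ∫ x in A s, ⟪f x, tr a f x⟫_ℂ = ∫ x in A s, ⟪g x, tr a g x⟫_ℂ := by
    intro s
    have a1 := hΦ true s a
    have a2 := hΦ false s a
    simp only [Φ, P, op_ind, cc, ← Complex.ofReal_sub, Complex.ofReal_eq_zero] at a1 a2
    generalize (∫ x in A s, ⟪f x, tr a f x⟫_ℂ) = w1 at a1 a2 ⊢
    generalize (∫ x in A s, ⟪g x, tr a g x⟫_ℂ) = w2 at a1 a2 ⊢
    simp at a1 a2
    apply Complex.ext <;> linarith
  have hF := hB (fun x => ⟪f x, tr a f x⟫_ℂ - ⟪g x, tr a g x⟫_ℂ)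
    ((L2.integrable_inner f (tr a f)).sub (L2.integrable_inner g (tr a g))) fun s => by
      rw [integral_sub (L2.integrable_inner (𝕜 := ℂ) f (tr a f)).integrableOn
        (L2.integrable_inner (𝕜 := ℂ) g (tr a g)).integrableOn, sub_eq_zero]
      exact hI s
  filter_upwards [hF, tr_coe a f, tr_coe a g] with x a1 a2 a3
  rw [Pi.zero_apply, sub_eq_zero, a2, a3, RCLike.inner_apply, RCLike.inner_apply] at a1
  exact a1

end Pool.Agent.H26.Wr
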